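import Mathlib

set_option autoImplicit false

open Set

namespace H91.AMSys

/-- The map `f₀`. -/
noncomputable def f0 (x₀ y₀ x : ℝ) : ℝ :=
  if x ≤ x₀ then y₀ / x₀ * x else (1 - y₀) / (1 - x₀) * (x - 1) + 1

/-- The map `f₁`. -/
noncomputable def f1 (x₀ y₀ x : ℝ) : ℝ := 1 - f0 x₀ y₀ (1 - x)

/-- The orbit of `x`: all points `f_{i_n} ∘ ⋯ ∘ f_{i_1} (x)`, `n ≥ 0`. -/
def orbit (x₀ y₀ x : ℝ) : Set ℝ :=
  {y | ∃ l : List Bool, y = l.foldl (fun z i => if i then f1 x₀ y₀ z else f0 x₀ y₀ z) x}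

lemma core {a b x₀ y₀ : ℝ} (O : Set ℝ) (hx : 1 / 2 < x₀) (hx1 : x₀ < 1) (hy : 1 / 2 ≤ y₀)
    (hyx : y₀ < x₀) (ha : a * x₀ = y₀) (hb : b * (1 - x₀) = 1 - y₀)
    (h0 : ∀ z ∈ O, (z ≤ x₀ → a * z ∈ O) ∧ (x₀ < z → b * (z - 1) + 1 ∈ O) ∧
      (1 - x₀ ≤ z → a * (z - 1) + 1 ∈ O) ∧ (z < 1 - x₀ → b * z ∈ O))
    {x : ℝ} (hxO : x ∈ O) (hx0 : 0 < x) (hx2 : x < 1) {s t : ℝ} (hs : 0 ≤ s) (hst : s < t)
    (ht : t ≤ 1) : ∃ z ∈ O, s < z ∧ z < t := by
  by_contra hcon
  have ha0 : 0 < a := by nlinarith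
  have ha1 : a < 1 := by nlinarith
  have hb1 : 1 < b := by nlinarith
  let K : Set (ℝ × ℝ) := {p | 0 ≤ p.1 ∧ p.2 ≤ 1 ∧ p.1 ≤ p.2 ∧ ∀ z ∈ O, z ≤ p.1 ∨ p.2 ≤ z}
  have hK : IsCompact K := by
    refine (isCompact_Icc (a := ((0, 0) : ℝ × ℝ)) (b := (1, 1))).of_isClosed_subset ?_ ?_
    · refine (isClosed_le continuous_const continuous_fst).inter
        ((isClosed_le continuous_snd continuous_const).inter
        ((isClosed_le continuous_fst continuous_snd).inter ?_))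
      have : {p : ℝ × ℝ | ∀ z ∈ O, z ≤ p.1 ∨ p.2 ≤ z} =
          ⋂ z ∈ O, ({p | z ≤ p.1} ∪ {p | p.2 ≤ z}) := by ext p; simp
      change IsClosed {p : ℝ × ℝ | ∀ z ∈ O, z ≤ p.1 ∨ p.2 ≤ z}
      rw [this]
      exact isClosed_biInter fun z _ => (isClosed_le continuous_const continuous_fst).union
        (isClosed_le continuous_snd continuous_const)
    · rintro p ⟨h1, h2, h3, -⟩
      exact ⟨⟨h1, h1.trans h3⟩, ⟨h3.trans h2, h2⟩⟩
  have hst' : (s, t) ∈ K := ⟨hs, ht, hst.le, fun z hz => by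
    by_contra h; push Not at h; exact hcon ⟨z, hz, h.1, h.2⟩⟩
  obtain ⟨⟨α, β⟩, ⟨h1, h2, -, h4⟩, hmax⟩ := hK.exists_isMaxOn ⟨_, hst'⟩
    (f := fun p => p.2 - p.1) (by fun_prop)
  simp only at h1 h2 h4
  have hm : ∀ u v, 0 ≤ u → v ≤ 1 → (∀ z ∈ O, z ≤ u ∨ v ≤ z) → v - u ≤ β - α := by
    intro u v hu hv h
    rcases le_total u v with h5 | h5
    · exact hmax (show (u, v) ∈ K from ⟨hu, hv, h5, h⟩)
    · have : t - s ≤ β - α := hmax hst'
      linarith
  have hαβ : α < β := by have : t - s ≤ β - α := hmax hst'; linarith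
  have p0 : ∀ u v, v ≤ y₀ → (∀ z ∈ O, z ≤ u ∨ v ≤ z) → ∀ z ∈ O, z ≤ u / a ∨ v / a ≤ z := by
    intro u v hv h z hz
    rw [le_div_iff₀ ha0, div_le_iff₀ ha0]
    rcases le_or_gt z x₀ with h5 | h5
    · simpa only [mul_comm] using h _ ((h0 z hz).1 h5)
    · right; nlinarith
  have hβ : y₀ < β := by
    by_contra h5
    push Not at h5
    have h6 := hm _ _ (div_nonneg h1 ha0.le) (by rw [div_le_one ha0]; nlinarith) (p0 α β h5 h4)
    rw [← sub_div, div_le_iff₀ ha0] at h6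
    nlinarith
  have hα : α < 1 - y₀ := by
    by_contra h5
    push Not at h5
    have h6 := hm (1 - (1 - α) / a) (1 - (1 - β) / a)
      (by rw [sub_nonneg, div_le_one ha0]; nlinarith)
      (by have := div_nonneg (sub_nonneg.mpr h2) ha0.le; linarith) (fun z hz => by
        rw [le_sub_comm, div_le_iff₀ ha0, sub_le_comm (c := z), le_div_iff₀ ha0]
        rcases le_or_gt (1 - x₀) z with h5 | h5
        · rcases h4 _ ((h0 z hz).2.2.1 h5) with h | h
          · left; linarith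
          · right; linarith
        · left; nlinarith)
    rw [sub_sub_sub_cancel_left, ← sub_div, div_le_iff₀ ha0] at h6
    nlinarith
  have hα0 : 0 < α := by
    refine lt_of_le_of_ne h1 fun h5 => ?_
    subst h5
    have h6 := hm 0 (1 - (1 - β) / b) le_rfl
      (by have := div_nonneg (sub_nonneg.mpr h2) (by linarith : 0 ≤ b); linarith) (fun z hz => by
        rw [sub_le_comm, le_div_iff₀ (by linarith)]
        rcases le_or_gt z x₀ with h5 | h5
        · rcases h4 _ ((h0 z hz).1 h5) with h | h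
          · left; nlinarith
          · nlinarith
        · rcases h4 _ ((h0 z hz).2.1 h5) with h | h
          · nlinarith
          · right; linarith)
    have h7 : 1 - β ≤ (1 - β) / b := by linarith
    rw [le_div_iff₀ (by linarith)] at h7
    rcases h4 x hxO with h | h <;> nlinarith
  set s₀ := α / b with hs₀
  set t₀ := 1 - (1 - β) / a with ht₀
  have e1 : s₀ * b = α := by rw [hs₀]; field_simp
  have e2 : (1 - t₀) * a = 1 - β := by rw [ht₀]; field_simp; ring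
  have e3 : 1 - x₀ < t₀ := by nlinarith
  have e4 : β < b * t₀ := by nlinarith
  have e5 : 0 < s₀ := by positivity
  have step : ∀ c : ℝ, 0 < c → c * t₀ ≤ 1 → (∀ z ∈ O, z ≤ c * s₀ ∨ c * t₀ ≤ z) → c * t₀ ≤ α := by
    intro c hc hc1 h
    by_contra h5
    push Not at h5
    rcases le_or_gt α (c * s₀) with h6 | h6
    · have h7 := hm _ _ (by positivity) hc1 h
      have h8 : b ≤ c := by nlinarith
      have h9 : 0 < t₀ - s₀ := by nlinarith
      nlinarith
    · have h7 := hm (c * s₀) β (by positivity) h2 (fun z hz => by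
        rcases h z hz with h | h
        · exact Or.inl h
        · rcases h4 z hz with h' | h'
          · linarith
          · exact Or.inr h')
      linarith
  have ind : ∀ j : ℕ, (1 / a) ^ j * t₀ ≤ 1 ∧
      ∀ z ∈ O, z ≤ (1 / a) ^ j * s₀ ∨ (1 / a) ^ j * t₀ ≤ z := by
    intro j
    induction j with
    | zero =>
      refine ⟨by nlinarith, fun z hz => ?_⟩
      simp only [pow_zero, one_mul]
      rcases le_or_gt (1 - x₀) z with h5 | h5
      · rcases h4 _ ((h0 z hz).2.2.1 h5) with h | h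
        · nlinarith
        · right; nlinarith
      · rcases h4 _ ((h0 z hz).2.2.2 h5) with h | h
        · left; nlinarith
        · nlinarith
    | succ j ih =>
      have h5 := step _ (by positivity) ih.1 ih.2
      have h6 : ∀ w, (1 / a) ^ (j + 1) * w = (1 / a) ^ j * w / a := fun w => by
        rw [pow_succ]; ring
      rw [h6, h6]
      exact ⟨by rw [div_le_one ha0]; nlinarith, p0 _ _ (by linarith) ih.2⟩
  obtain ⟨j, hj⟩ := pow_unbounded_of_one_lt (1 / t₀) (one_lt_one_div ha0 ha1)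
  rw [div_lt_iff₀ (by linarith)] at hj
  linarith [(ind j).1]

theorem main : ∀ x₀ y₀ : ℝ, 1 / 2 < x₀ → x₀ < 1 → 1 / 2 ≤ y₀ → y₀ < x₀ →
    ∀ x ∈ Ioo (0 : ℝ) 1, Ioo (0 : ℝ) 1 ⊆ closure (orbit x₀ y₀ x) := by
  intro x₀ y₀ hx hx1 hy hyx x hx0 p hp
  have hO : ∀ z ∈ orbit x₀ y₀ x, f0 x₀ y₀ z ∈ orbit x₀ y₀ x ∧ f1 x₀ y₀ z ∈ orbit x₀ y₀ x := by
    rintro z ⟨l, rfl⟩
    exact ⟨⟨l ++ [false], by simp⟩, ⟨l ++ [true], by simp⟩⟩
  rw [Metric.mem_closure_iff]
  intro ε hε
  obtain ⟨z, hz, h1, h2⟩ := core (a := y₀ / x₀) (b := (1 - y₀) / (1 - x₀)) (orbit x₀ y₀ x) hx hx1 hy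
    hyx (by field_simp) (by have : 1 - x₀ ≠ 0 := by linarith
                            field_simp) (fun z hz => by
      refine ⟨fun h => ?_, fun h => ?_, fun h => ?_, fun h => ?_⟩
      · simpa [f0, h] using (hO z hz).1
      · simpa [f0, h.not_ge] using (hO z hz).1
      · have := (hO z hz).2
        rw [f1, f0, if_pos (by linarith)] at this
        convert this using 1; ring
      · have := (hO z hz).2
        rw [f1, f0, if_neg (by linarith)] at this
        convert this using 1; ring) (⟨[], rfl⟩ : x ∈ orbit x₀ y₀ x) hx0.1 hx0.2 (s := p)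
    (t := min (p + ε) 1) hp.1.le (lt_min (by linarith) hp.2) (min_le_right _ _)
  refine ⟨z, hz, ?_⟩
  rw [Real.dist_eq, abs_lt]
  constructor <;> linarith [min_le_left (p + ε) 1]

end H91.AMSys
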