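import Mathlib

set_option autoImplicit false

namespace H91.AS
open MeasureTheory Metric Set Filter Topology
open scoped ENNReal NNReal

/-- Hausdorff content -/
noncomputable def h (σ : ℝ) : OuterMeasure ℝ := OuterMeasure.boundedBy fun t => ediam t ^ σ

lemma h_le (σ : ℝ) (t : Set ℝ) : h σ t ≤ ediam t ^ σ := OuterMeasure.boundedBy_le t

lemma h_Icc {σ : ℝ} (hσ : 0 < σ) {t : Set ℝ} {b : ℝ} (hb : 0 ≤ b) (ht : t ⊆ Icc 0 b) :
    h σ t ≤ ENNReal.ofReal (b ^ σ) := by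
  refine (h_le σ t).trans ?_
  rw [← ENNReal.ofReal_rpow_of_nonneg hb hσ.le]
  gcongr
  exact (ediam_mono ht).trans (by simp)

lemma h_pt {σ : ℝ} (hσ : 0 < σ) (a : ℝ) : h σ {a} = 0 :=
  le_antisymm ((h_le σ _).trans (by simp [hσ])) (by simp)

lemma h_scale {σ : ℝ} (hσ : 0 < σ) (f g : ℝ → ℝ) (A : Set ℝ) {K : ℝ} (hK : 0 ≤ K)
    (H : ∀ a ∈ A, ∀ b ∈ A, |f a - f b| ≤ K * |g a - g b|) :
    h σ (f '' A) ≤ ENNReal.ofReal (K ^ σ) * h σ (g '' A) := by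
  have : OuterMeasure.map g (OuterMeasure.restrict A (OuterMeasure.comap f (h σ))) ≤
      ENNReal.ofReal (K ^ σ) • h σ := by
    rw [h, OuterMeasure.smul_boundedBy ENNReal.ofReal_ne_top, OuterMeasure.le_boundedBy]
    intro t
    simp only [OuterMeasure.map_apply, OuterMeasure.restrict_apply, OuterMeasure.comap_apply,
      Pi.smul_apply, smul_eq_mul]
    refine (h_le σ _).trans ?_
    rw [← ENNReal.ofReal_rpow_of_nonneg hK hσ.le, ← ENNReal.mul_rpow_of_nonneg _ _ hσ.le]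
    gcongr
    refine ediam_le ?_
    rintro _ ⟨a, ⟨ha, ha'⟩, rfl⟩ _ ⟨b, ⟨hb, hb'⟩, rfl⟩
    calc edist (f a) (f b) ≤ ENNReal.ofReal K * edist (g a) (g b) := by
          rw [edist_dist, edist_dist, ← ENNReal.ofReal_mul hK, Real.dist_eq, Real.dist_eq]
          exact ENNReal.ofReal_le_ofReal (H a ha' b hb')
      _ ≤ _ := by gcongr; exact edist_le_ediam_of_mem ha hb
  have h2 := this (g '' A)
  simp only [OuterMeasure.map_apply, OuterMeasure.restrict_apply, OuterMeasure.comap_apply,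
    OuterMeasure.smul_apply, smul_eq_mul] at h2
  refine le_trans (measure_mono (image_mono fun a ha => ?_)) h2
  exact ⟨mem_image_of_mem g ha, ha⟩

lemma hm_zero {σ : ℝ} (hσ : 0 < σ) {s : Set ℝ} (hs : h σ s = 0) : μH[σ] s = 0 := by
  have : ∀ n : ℕ, ∃ t : ℕ → Set ℝ, s ⊆ ⋃ i, t i ∧ ∑' i, ediam (t i) ^ σ < ((n : ℝ≥0∞)⁻¹) ^ σ := by
    intro n
    have hp : h σ s < ((n : ℝ≥0∞)⁻¹) ^ σ := by
      rw [hs]; exact ENNReal.rpow_pos_of_nonneg (by simp) hσ.le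
    rw [h, OuterMeasure.boundedBy_apply] at hp
    simp only [iInf_lt_iff] at hp
    obtain ⟨t, h1, h2⟩ := hp
    refine ⟨t, h1, lt_of_le_of_lt (le_of_eq (tsum_congr fun i => ?_)) h2⟩
    rcases (t i).eq_empty_or_nonempty with h | h <;> simp [h, hσ]
  choose t h1 h2 using this
  have hr := ENNReal.tendsto_inv_nat_nhds_zero
  refine le_antisymm ((Measure.hausdorffMeasure_le_liminf_tsum σ s _ hr t
    (Eventually.of_forall fun n i => ?_) (Eventually.of_forall h1)).trans ?_) (by simp)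
  · exact (ENNReal.rpow_le_rpow_iff hσ).1 ((ENNReal.le_tsum i).trans (h2 n).le)
  · have h3 : Tendsto (fun n : ℕ => ((n : ℝ≥0∞)⁻¹) ^ σ) atTop (𝓝 0) := by
      have := (ENNReal.continuous_rpow_const (y := σ)).tendsto 0 |>.comp hr
      simpa [hσ, Function.comp_def] using this
    exact (tendsto_of_tendsto_of_tendsto_of_le_of_le tendsto_const_nhds h3 (fun _ => by simp)
      fun n => (h2 n).le).liminf_eq.le

lemma vol_le (s : Set ℝ) : volume s ≤ h 1 s := by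
  have : (volume : Measure ℝ).toOuterMeasure ≤ h 1 :=
    OuterMeasure.le_boundedBy.2 fun t => by simpa using Real.volume_le_diam t
  exact this s

noncomputable def ψ (s t : ℝ) : ℝ := (1 + s) * t / (1 + s * t)
noncomputable def p (d : ℕ) (s : ℝ) : ℝ := (1 + s) / ((d + s) * (d + 1 + s))

lemma ψ_mem {s t : ℝ} (hs : s ∈ Icc (0 : ℝ) 1) (ht : t ∈ Icc (0 : ℝ) 1) :
    0 ≤ ψ s t ∧ ψ s t ≤ 1 ∧ ψ s t ≤ 2 * t := by
  obtain ⟨a, b⟩ := hs; obtain ⟨c, d⟩ := ht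
  have : 0 < 1 + s * t := by positivity
  refine ⟨by unfold ψ; positivity, ?_, ?_⟩
  · rw [ψ, div_le_one this]; nlinarith
  · rw [ψ, div_le_iff₀ this]; nlinarith [mul_nonneg c (mul_nonneg a c)]

lemma p_bd {d : ℕ} (hd : 1 ≤ d) {s : ℝ} (hs : s ∈ Icc (0 : ℝ) 1) :
    0 ≤ p d s ∧ p d s ≤ 1 / 2 ∧ p d s ≤ 2 / (d : ℝ) ^ 2 := by
  obtain ⟨a, b⟩ := hs
  have h1 : (1 : ℝ) ≤ d := by exact_mod_cast hd
  refine ⟨by unfold p; positivity, ?_, ?_⟩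
  · rw [p, div_le_div_iff₀ (by positivity) (by positivity)]; nlinarith
  · rw [p, div_le_div_iff₀ (by positivity) (by positivity)]; nlinarith [mul_nonneg a a]

lemma p_sum (G : ℕ) {s : ℝ} (hs : s ∈ Icc (0 : ℝ) 1) :
    ∑ d ∈ Finset.range G, p (d + 1) s = 1 - (1 + s) / (G + 1 + s) := by
  have := hs.1
  induction G with
  | zero => simp; field_simp; ring
  | succ G ih => rw [Finset.sum_range_succ, ih, p]; push_cast; field_simp; ring

/-- a system with full branches accumulating at `0` -/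
structure Sys where
  T : ℝ → ℝ
  φ : ℕ → ℝ → ℝ
  S : Set ℝ
  h0 : 0 ∈ S
  hS : S ⊆ Icc 0 1
  map : ∀ x ∈ Icc (0 : ℝ) 1, T x ∈ Icc (0 : ℝ) 1
  dec : ∀ x ∈ Ioo (0 : ℝ) 1, ∃ d, 1 ≤ d ∧ x = φ d (T x)
  inv : ∀ d, 1 ≤ d → ∀ t ∈ Ioo (0 : ℝ) 1, T (φ d t) = t
  rng : ∀ d : ℕ, 1 ≤ d → ∀ t ∈ Icc (0 : ℝ) 1, φ d t ∈ Icc (1 / ((d : ℝ) + 1)) (1 / d)
  lip : ∀ d, 1 ≤ d → ∀ t ∈ Icc (0 : ℝ) 1, ∀ t' ∈ Icc (0 : ℝ) 1, |φ d t - φ d t'| ≤ |t - t'|
  anti : ∀ d : ℕ, 1 ≤ d → ∀ t ∈ Icc (0 : ℝ) 1, ∀ t' ∈ Icc (0 : ℝ) 1,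
    |t - t'| ≤ ((d : ℝ) + 1) ^ 2 * |φ d t - φ d t'|
  gap : ∀ d : ℕ, 1 ≤ d → ∀ t ∈ Icc (0 : ℝ) 1, 1 / (((d : ℝ) + 1) * (d + 2)) ≤ φ d t - φ (d + 1) t
  one : ∀ d, 1 ≤ d → ∀ t ∈ Ioo (0 : ℝ) 1, φ d t < 1
  dist : ∀ s ∈ S, ∀ d, 1 ≤ d → ∃ s' ∈ S, ∀ t ∈ Icc (0 : ℝ) 1, ∀ t' ∈ Icc (0 : ℝ) 1,
    |ψ s (φ d t) - ψ s (φ d t')| ≤ p d s * |ψ s' t - ψ s' t'|

variable (F : Sys)

noncomputable def M (σ : ℝ) (A : Set ℝ) : ℝ≥0∞ := ⨆ s ∈ F.S, h σ (ψ s '' A)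

lemma M_le_one {σ : ℝ} (hσ : 0 < σ) {A : Set ℝ} (hA : A ⊆ Icc 0 1) : M F σ A ≤ 1 := by
  refine iSup₂_le fun s hs => (h_Icc hσ zero_le_one ?_).trans (by simp)
  rintro _ ⟨t, ht, rfl⟩
  exact ⟨(ψ_mem (F.hS hs) (hA ht)).1, (ψ_mem (F.hS hs) (hA ht)).2.1⟩

lemma M_small {σ : ℝ} (hσ : 0 < σ) {A : Set ℝ} (hA : A ⊆ Icc 0 1) {b : ℝ} (hb : 0 ≤ b)
    (hA' : ∀ t ∈ A, t ≤ b) : M F σ A ≤ ENNReal.ofReal ((2 * b) ^ σ) := by
  refine iSup₂_le fun s hs => h_Icc hσ (by positivity) ?_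
  rintro _ ⟨t, ht, rfl⟩
  exact ⟨(ψ_mem (F.hS hs) (hA ht)).1, (ψ_mem (F.hS hs) (hA ht)).2.2.trans (by linarith [hA' t ht])⟩

lemma h_le_M (σ : ℝ) (A : Set ℝ) : h σ A ≤ M F σ A := by
  refine le_trans (le_of_eq ?_) (le_iSup₂ (f := fun s _ => h σ (ψ s '' A)) 0 F.h0)
  simp [ψ]

lemma M_union (σ : ℝ) {A B C : Set ℝ} (H : A ⊆ B ∪ C) : M F σ A ≤ M F σ B + M F σ C := by
  refine iSup₂_le fun s hs => ?_
  refine (measure_mono (image_mono H)).trans ?_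
  rw [image_union]
  exact (measure_union_le _ _).trans (add_le_add (le_iSup₂ (f := fun s _ => h σ (ψ s '' B)) s hs)
    (le_iSup₂ (f := fun s _ => h σ (ψ s '' C)) s hs))

lemma key {σ : ℝ} (hσ : 0 < σ) {A B : Set ℝ} (hB : B ⊆ Icc 0 1) (hBA : ∀ y ∈ B, F.T y ∈ A)
    (θ : ℝ≥0∞) (H : ∀ s ∈ F.S, ∃ w : ℕ → ℝ≥0∞, ∑' d, w d ≤ θ ∧ ∀ y ∈ B, ∀ d, 1 ≤ d →
      y = F.φ d (F.T y) → ENNReal.ofReal (p d s ^ σ) ≤ w d) : M F σ B ≤ θ * M F σ A := by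
  refine iSup₂_le fun s hs => ?_
  obtain ⟨w, hw, H⟩ := H s hs
  let E : ℕ → Set ℝ := fun d => {y ∈ B | 1 ≤ d ∧ y = F.φ d (F.T y)}
  have h1 : ψ s '' B ⊆ ({ψ s 0} ∪ {ψ s 1}) ∪ ⋃ d, ψ s '' E d := by
    rintro _ ⟨y, hy, rfl⟩
    rcases (hB hy).1.eq_or_lt with h0 | h0
    · simp [← h0]
    rcases (hB hy).2.eq_or_lt with h1 | h1
    · simp [h1]
    obtain ⟨d, hd, e⟩ := F.dec y ⟨h0, h1⟩
    exact Or.inr (mem_iUnion.2 ⟨d, y, ⟨hy, hd, e⟩, rfl⟩)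
  have h2 : ∀ d, h σ (ψ s '' E d) ≤ w d * M F σ A := by
    intro d
    rcases (E d).eq_empty_or_nonempty with h0 | ⟨y, hy, hd, e⟩
    · simp [h0]
    obtain ⟨s', hs', H'⟩ := F.dist s hs d hd
    refine (h_scale hσ (ψ s) (fun y => ψ s' (F.T y)) (E d) (p_bd hd (F.hS hs)).1 ?_).trans ?_
    · rintro a ⟨ha, -, ea⟩ b ⟨hb, -, eb⟩
      have := H' _ (F.map a (hB ha)) _ (F.map b (hB hb))
      rwa [← ea, ← eb] at this
    · refine mul_le_mul' (H y hy d hd e) (le_trans (measure_mono ?_)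
        (le_iSup₂ (f := fun s _ => h σ (ψ s '' A)) s' hs'))
      rintro _ ⟨a, ha, rfl⟩
      exact ⟨_, hBA a ha.1, rfl⟩
  calc h σ (ψ s '' B) ≤ (h σ {ψ s 0} + h σ {ψ s 1}) + ∑' d, h σ (ψ s '' E d) :=
        (measure_mono h1).trans ((measure_union_le _ _).trans
          (add_le_add (measure_union_le _ _) (measure_iUnion_le _)))
    _ ≤ ∑' d, w d * M F σ A := by
        rw [h_pt hσ, h_pt hσ, add_zero, zero_add]; exact ENNReal.tsum_le_tsum h2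
    _ ≤ _ := by rw [ENNReal.tsum_mul_right]; gcongr

lemma orb {x : ℝ} (hx : x ∈ Icc (0 : ℝ) 1) (n : ℕ) : F.T^[n] x ∈ Icc (0 : ℝ) 1 := by
  induction n with
  | zero => exact hx
  | succ n ih => rw [Function.iterate_succ_apply']; exact F.map _ ih

/-- the asymptotic set -/
def AS (T : ℝ → ℝ) (J : Set ℝ) (x : ℝ) : Set ℝ :=
  {y | y ∈ J ∧ Tendsto (fun n => |T^[n] x - T^[n] y|) atTop (𝓝 0)}

def A (x δ : ℝ) (n : ℕ) : Set ℝ :=
  {y | y ∈ Icc (0 : ℝ) 1 ∧ ∀ k, |F.T^[n + k] x - F.T^[k] y| ≤ δ}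

lemma A_step {x δ : ℝ} {n : ℕ} : ∀ y ∈ A F x δ n, F.T y ∈ A F x δ (n + 1) := fun y hy =>
  ⟨F.map y hy.1, fun k => by
    have := hy.2 (k + 1)
    rwa [Function.iterate_succ_apply, show n + (k + 1) = n + 1 + k by ring] at this⟩

lemma pull {σ : ℝ} (hσ : 0 < σ) (N : ℕ) : ∀ B : Set ℝ, M F σ B = 0 →
    M F σ {y | y ∈ Icc (0 : ℝ) 1 ∧ F.T^[N] y ∈ B} = 0 := by
  induction N with
  | zero => intro B hB; exact le_antisymm ((M_union F σ (C := B) fun y hy => Or.inl hy.2).trans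
      (by simp [hB])) (by simp)
  | succ N ih =>
    intro B hB
    refine le_antisymm ((key F hσ (A := {y | y ∈ Icc (0 : ℝ) 1 ∧ F.T^[N] y ∈ B})
      (fun y hy => hy.1) (fun y hy => ⟨F.map y hy.1, hy.2⟩) ⊤ fun s _ =>
      ⟨fun _ => ⊤, le_top, fun _ _ _ _ _ => le_top⟩).trans (by rw [ih B hB, mul_zero])) (by simp)

lemma AS_zero {σ : ℝ} (hσ : 0 < σ) {x δ : ℝ} (hδ : 0 < δ) (H : ∀ n, ∃ m, n ≤ m ∧ M F σ (A F x δ m) = 0) :
    μH[σ] (AS F.T (Icc 0 1) x) = 0 := by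
  choose m hm H using H
  refine hm_zero hσ (le_antisymm ((measure_mono (t := ⋃ n, {y | y ∈ Icc (0 : ℝ) 1 ∧
    F.T^[m n] y ∈ A F x δ (m n)}) ?_).trans ((measure_iUnion_le _).trans ?_)) (by simp))
  · rintro y ⟨h1, h2⟩
    obtain ⟨n, hn⟩ := eventually_atTop.1 (h2.eventually (ge_mem_nhds hδ))
    refine mem_iUnion.2 ⟨n, h1, orb F h1 _, fun k => ?_⟩
    rw [← Function.iterate_add_apply, add_comm k]
    exact hn _ ((hm n).trans (Nat.le_add_right _ _))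
  · refine le_of_eq (ENNReal.tsum_eq_zero.2 fun n => le_antisymm ((h_le_M F σ _).trans
      (pull F hσ _ _ (H n)).le) (by simp))

lemma gap' {d e : ℕ} (hd : 1 ≤ d) (hde : d < e) {t : ℝ} (ht : t ∈ Icc (0 : ℝ) 1) :
    1 / (((d : ℝ) + 1) * (d + 2)) ≤ F.φ d t - F.φ e t := by
  rcases (Nat.succ_le_of_lt hde).eq_or_lt with h | h
  · rw [← h]; exact F.gap d hd t ht
  · have h1 := (F.rng d hd t ht).1
    have h2 := (F.rng e (by omega) t ht).2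
    have h3 : (d : ℝ) + 2 ≤ e := by exact_mod_cast h
    have h4 : 1 / (e : ℝ) ≤ 1 / (d + 2) := one_div_le_one_div_of_le (by positivity) h3
    have h5 : 1 / (((d : ℝ) + 1) * (d + 2)) = 1 / (d + 1) - 1 / (d + 2) := by field_simp; ring
    linarith

/-- a fixed digit -/
lemma r2 {σ : ℝ} (hσ : 0 < σ) {x δ : ℝ} {n K : ℕ} (hK : 1 ≤ K)
    (hδ : 4 * δ < 1 / (((K : ℝ) + 1) * (K + 2))) (hx : 1 / (K : ℝ) + δ ≤ F.T^[n] x) :
    M F σ (A F x δ n) ≤ ENNReal.ofReal ((1 / 2) ^ σ) * M F σ (A F x δ (n + 1)) := by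
  have lt : ∀ y ∈ A F x δ n, ∀ y' ∈ A F x δ n, ∀ d e : ℕ, 1 ≤ d → y = F.φ d (F.T y) →
      y' = F.φ e (F.T y') → ¬ d < e := by
    intro y hy y' hy' d e hd h1 h2 hde
    have a := abs_le.1 (hy.2 0); have b := abs_le.1 (hy'.2 0)
    have a' := abs_le.1 (hy.2 1); have b' := abs_le.1 (hy'.2 1)
    simp only [add_zero, Function.iterate_zero, id, Function.iterate_one] at a b a' b'
    have g := gap' F hd hde (F.map y hy.1)
    have l := F.lip e (by omega) _ (F.map y hy.1) _ (F.map y' hy'.1)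
    have l2 : |F.T y - F.T y'| ≤ 2 * δ := abs_le.2 ⟨by linarith, by linarith⟩
    have l3 := abs_le.1 (l.trans l2)
    have r := (F.rng d hd _ (F.map y hy.1)).2
    rw [← h1] at g r; rw [← h2] at l3
    have d0 : (0 : ℝ) < d := by exact_mod_cast hd
    have K0 : (0 : ℝ) < K := by exact_mod_cast hK
    have dK : (d : ℝ) ≤ K := (one_div_le_one_div K0 d0).1 (by linarith)
    have : 1 / (((K : ℝ) + 1) * (K + 2)) ≤ 1 / (((d : ℝ) + 1) * (d + 2)) :=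
      one_div_le_one_div_of_le (by positivity) (by gcongr)
    linarith
  refine key F hσ (fun y hy => hy.1) (A_step F) _ fun s hs => ?_
  by_cases hE : ∃ y ∈ A F x δ n, ∃ d, 1 ≤ d ∧ y = F.φ d (F.T y)
  · obtain ⟨y0, hy0, d0, hd0, e0⟩ := hE
    refine ⟨fun d => if d = d0 then ENNReal.ofReal ((1 / 2) ^ σ) else 0, by simp, ?_⟩
    intro y hy d hd e
    have : d = d0 := le_antisymm (not_lt.1 (lt y0 hy0 y hy d0 d hd0 e0 e))
      (not_lt.1 (lt y hy y0 hy0 d d0 hd e e0))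
    simp only [this, if_true]
    exact ENNReal.ofReal_le_ofReal (Real.rpow_le_rpow (p_bd hd0 (F.hS hs)).1
      (p_bd hd0 (F.hS hs)).2.1 hσ.le)
  · exact ⟨0, by simp, fun y hy d hd e => (hE ⟨y, hy, d, hd, e⟩).elim⟩

lemma geo {θ : ℝ≥0∞} (hθ : θ < 1) (u : ℕ → ℝ≥0∞) (h1 : ∀ n, u n ≤ 1)
    (h : ∀ n, u n ≤ θ * u (n + 1)) (n : ℕ) : u n = 0 := by
  have : ∀ k n, u n ≤ θ ^ k := by
    intro k
    induction k with
    | zero => simpa using h1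
    | succ k ih => intro n; rw [pow_succ']; exact (h n).trans (by gcongr; exact ih _)
  exact le_antisymm (ge_of_tendsto' (ENNReal.tendsto_pow_atTop_nhds_zero_of_lt_one hθ)
    fun k => this k n) (by simp)

lemma half_lt {σ : ℝ} (hσ : 0 < σ) : ENNReal.ofReal ((1 / 2) ^ σ) < 1 :=
  ENNReal.ofReal_lt_one.2 (Real.rpow_lt_one (by norm_num) (by norm_num) hσ)

lemma dim_le {s : Set ℝ} {α : ℝ≥0} {β : ℝ} (hβ : α < β)
    (H : ∀ σ : ℝ, α < σ → σ < β → μH[σ] s = 0) : dimH s ≤ α := by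
  refine dimH_le fun d hd => ?_
  rw [ENNReal.coe_le_coe]
  by_contra hlt
  push Not at hlt
  obtain ⟨σ, h1, h2⟩ := exists_between (lt_min (show (α : ℝ) < d from hlt) hβ)
  have := Measure.hausdorffMeasure_mono (lt_min_iff.1 h2).1.le s
  rw [hd, H σ h1 (lt_min_iff.1 h2).2] at this
  simp at this

theorem U1 (x : ℝ) : dimH (AS F.T (Icc 0 1) x) ≤ (1 / 2 : ℝ≥0) := by
  refine dim_le (β := 1) (by norm_num) fun σ h1 _ => ?_
  have h1' : 1 / 2 < σ := by simpa using h1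
  have hσ : 0 < σ := by linarith
  let f : ℕ → ℝ≥0∞ := fun d => ENNReal.ofReal ((2 / (d : ℝ) ^ 2) ^ σ)
  have hf : ∑' d, f d ≠ ⊤ := by
    have : Summable fun d : ℕ => (2 / (d : ℝ) ^ 2) ^ σ := by
      have := (Real.summable_nat_rpow_inv.2 (show 1 < 2 * σ by linarith)).mul_left (2 ^ σ)
      refine this.congr fun d => ?_
      rw [Real.div_rpow (by norm_num) (by positivity), div_eq_mul_inv, ← Real.rpow_natCast,
        ← Real.rpow_mul (by positivity)]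
      norm_num
    rw [← ENNReal.ofReal_tsum_of_nonneg (fun d => by positivity) this]
    exact ENNReal.ofReal_ne_top
  have hp : (0 : ℝ≥0∞) < ENNReal.ofReal ((1 / 2) ^ σ) := ENNReal.ofReal_pos.2 (by positivity)
  obtain ⟨t, ht⟩ := ((tendsto_order.1 (ENNReal.tendsto_tsum_compl_atTop_zero hf)).2 _ hp).exists
  obtain ⟨D, hD⟩ := t.bddAbove
  set K : ℕ := 2 * (D + 2) with hK
  have K4 : (K : ℝ) = 2 * (D + 2) := by rw [hK]; push_cast; ring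
  set δ : ℝ := 1 / (8 * (((K : ℝ) + 1) * (K + 2))) with hδ
  have δ0 : 0 < δ := by positivity
  have δ1 : 4 * δ < 1 / (((K : ℝ) + 1) * (K + 2)) := by
    rw [hδ, mul_one_div, div_lt_div_iff₀ (by positivity) (by positivity)]
    nlinarith [show (0 : ℝ) < ((K : ℝ) + 1) * (K + 2) by positivity]
  refine AS_zero F hσ δ0 fun n => ⟨n, le_rfl, geo (half_lt hσ) (fun n => M F σ (A F x δ n))
    (fun n => M_le_one F hσ fun y hy => hy.1) (fun n => ?_) n⟩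
  rcases le_or_gt (1 / (K : ℝ) + δ) (F.T^[n] x) with hx | hx
  · exact r2 F hσ (by omega) δ1 hx
  refine key F hσ (fun y hy => hy.1) (A_step F) _ fun s hs =>
    ⟨{d | d ∉ t}.indicator f, ?_, fun y hy d hd e => ?_⟩
  · rw [← tsum_subtype]; exact ht.le
  · have hd' : d ∉ t := by
      intro hdt
      have h2 : (d : ℝ) ≤ D := by exact_mod_cast hD hdt
      have h3 := (F.rng d hd _ (F.map y hy.1)).1
      rw [← e] at h3
      have h4 := abs_le.1 (hy.2 0)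
      simp only [add_zero, Function.iterate_zero, id] at h4
      have h5 : 1 / ((D : ℝ) + 2) ≤ 1 / (d + 1) :=
        one_div_le_one_div_of_le (by positivity) (by linarith)
      have h6 : 1 / (((K : ℝ) + 1) * (K + 2)) ≤ 1 / K :=
        one_div_le_one_div_of_le (by rw [K4]; positivity) (by nlinarith [K.cast_nonneg (α := ℝ)])
      have h7 : 1 / ((D : ℝ) + 2) = 2 * (1 / K) := by rw [K4]; field_simp
      linarith
    rw [indicator_of_mem (show d ∈ {d | d ∉ t} from hd')]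
    exact ENNReal.ofReal_le_ofReal (Real.rpow_le_rpow (p_bd hd (F.hS hs)).1
      (p_bd hd (F.hS hs)).2.2 hσ.le)

end H91.AS
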