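import Pool.Agent.H91.AS1

set_option autoImplicit false

namespace H91.AS
open MeasureTheory Metric Set Filter Topology
open scoped ENNReal NNReal

variable (F : Sys)

lemma sum_pow {σ : ℝ} (hσ : 0 < σ) (h2 : σ < 1 / 2) (K : ℕ) :
    ∑ d ∈ Finset.range (K + 1), (2 / (d : ℝ) ^ 2) ^ σ ≤ 2 ^ σ * (K : ℝ) ^ (1 - 2 * σ) / (1 - 2 * σ) := by
  have ha : 0 < 1 - 2 * σ := by linarith
  induction K with
  | zero => simp [Real.zero_rpow hσ.ne', Real.zero_rpow ha.ne']
  | succ K ih =>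
    rw [Finset.sum_range_succ]
    push_cast
    have k0 : (0 : ℝ) < K + 1 := by positivity
    have e1 : (2 / ((K : ℝ) + 1) ^ 2) ^ σ = 2 ^ σ * (((K : ℝ) + 1) ^ (1 - 2 * σ) / (K + 1)) := by
      rw [Real.div_rpow (by norm_num) (by positivity), ← Real.rpow_natCast,
        ← Real.rpow_mul k0.le, ← Real.rpow_sub_one k0.ne', div_eq_mul_inv, ← Real.rpow_neg k0.le]
      congr 2; push_cast; ring
    have e2 : (K : ℝ) ^ (1 - 2 * σ) ≤
        ((K : ℝ) + 1) ^ (1 - 2 * σ) * (1 + (1 - 2 * σ) * (-(1 / (K + 1)))) := by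
      have h := rpow_one_add_le_one_add_mul_self (s := -(1 / ((K : ℝ) + 1))) (p := 1 - 2 * σ)
        (by rw [neg_le_neg_iff, div_le_one k0]; linarith [K.cast_nonneg (α := ℝ)]) ha.le (by linarith)
      have e : (K : ℝ) = (K + 1) * (1 + -(1 / ((K : ℝ) + 1))) := by field_simp; ring
      calc (K : ℝ) ^ (1 - 2 * σ) = ((K + 1) * (1 + -(1 / ((K : ℝ) + 1)))) ^ (1 - 2 * σ) := by rw [← e]
        _ = _ := Real.mul_rpow k0.le (by
            rw [← sub_eq_add_neg, sub_nonneg, div_le_one k0]; linarith [K.cast_nonneg (α := ℝ)])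
        _ ≤ _ := by gcongr
    have e3 : 2 ^ σ * (K : ℝ) ^ (1 - 2 * σ) / (1 - 2 * σ) ≤ 2 ^ σ * (((K : ℝ) + 1) ^ (1 - 2 * σ) *
      (1 + (1 - 2 * σ) * (-(1 / (K + 1))))) / (1 - 2 * σ) := by gcongr
    refine (add_le_add (ih.trans e3) e1.le).trans (le_of_eq ?_)
    field_simp; ring

lemma r3 {σ : ℝ} (hσ : 0 < σ) (h2 : σ < 1 / 2) : ∃ C : ℝ, 0 < C ∧ ∀ (x δ : ℝ) (n : ℕ) (β : ℝ),
    0 < β → β ≤ 1 → M F σ (A F x δ (n + 1)) ≤ ENNReal.ofReal β →
    M F σ (A F x δ n) ≤ ENNReal.ofReal (C * β ^ (σ / (1 - σ))) := by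
  have ha : 0 < 1 - 2 * σ := by linarith
  have hb : 0 < 1 - σ := by linarith
  refine ⟨2 ^ σ * 2 ^ (1 - 2 * σ) / (1 - 2 * σ) + 2 ^ σ, by positivity, ?_⟩
  intro x δ n β b0 b1 hM
  set R : ℝ := β ^ (-(1 / (1 - σ))) with hR
  have R1 : 1 ≤ R := Real.one_le_rpow_of_pos_of_le_one_of_nonpos b0 b1 (by
    rw [neg_nonpos]; positivity)
  set K : ℕ := ⌈R⌉₊
  have K1 : R ≤ K := Nat.le_ceil R
  have K2 : (K : ℝ) ≤ 2 * R := by have := Nat.ceil_lt_add_one (show 0 ≤ R by linarith); linarith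
  have K0 : (0 : ℝ) < K := by linarith
  refine (M_union F σ (B := {y ∈ A F x δ n | 1 / (K : ℝ) < y})
    (C := {y ∈ A F x δ n | y ≤ 1 / (K : ℝ)}) fun y hy => ?_).trans ?_
  · rcases lt_or_ge (1 / (K : ℝ)) y with h | h
    exacts [Or.inl ⟨hy, h⟩, Or.inr ⟨hy, h⟩]
  rw [add_mul, ENNReal.ofReal_add (by positivity) (by positivity)]
  refine add_le_add ((key F hσ (fun y hy => hy.1.1) (fun y hy => A_step F y hy.1)
    (ENNReal.ofReal (2 ^ σ * (K : ℝ) ^ (1 - 2 * σ) / (1 - 2 * σ))) fun s hs =>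
      ⟨fun d => if d ∈ Finset.range (K + 1) then ENNReal.ofReal ((2 / (d : ℝ) ^ 2) ^ σ) else 0,
        ?_, fun y hy d hd e => ?_⟩).trans ?_)
    ((M_small F hσ (fun y hy => hy.1.1) (by positivity) fun y hy => hy.2).trans
      (ENNReal.ofReal_le_ofReal ?_))
  · rw [tsum_eq_sum (s := Finset.range (K + 1)) fun d hd => if_neg hd,
      Finset.sum_congr rfl fun d hd => if_pos hd,
      ← ENNReal.ofReal_sum_of_nonneg fun d _ => by positivity]
    exact ENNReal.ofReal_le_ofReal (sum_pow hσ h2 K)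
  · have r := (F.rng d hd _ (F.map y hy.1.1)).2
    rw [← e] at r
    have d0 : (0 : ℝ) < d := by exact_mod_cast hd
    have : (d : ℝ) < K := (one_div_lt_one_div K0 d0).1 (hy.2.trans_le r)
    have : d < K := by exact_mod_cast this
    simp only [Finset.mem_range, show d < K + 1 by omega, if_true]
    exact ENNReal.ofReal_le_ofReal (Real.rpow_le_rpow (p_bd hd (F.hS hs)).1
      (p_bd hd (F.hS hs)).2.2 hσ.le)
  · refine (mul_le_mul' le_rfl hM).trans ?_
    rw [← ENNReal.ofReal_mul (by positivity)]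
    refine ENNReal.ofReal_le_ofReal ?_
    have h1 : (K : ℝ) ^ (1 - 2 * σ) ≤ 2 ^ (1 - 2 * σ) * R ^ (1 - 2 * σ) := by
      rw [← Real.mul_rpow (by norm_num) (by linarith)]; gcongr
    have h3 : R ^ (1 - 2 * σ) * β = β ^ (σ / (1 - σ)) := by
      rw [hR, ← Real.rpow_mul b0.le, ← Real.rpow_add_one b0.ne']
      congr 1; field_simp; ring
    calc _ ≤ 2 ^ σ * (2 ^ (1 - 2 * σ) * R ^ (1 - 2 * σ)) / (1 - 2 * σ) * β := by gcongr
      _ = _ := by rw [← h3]; ring
  · have h3 : β ^ (σ / (1 - σ)) = (1 / R) ^ σ := by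
      rw [hR, one_div (β ^ _), ← Real.rpow_neg b0.le, ← Real.rpow_mul b0.le]
      congr 1; field_simp
    rw [h3, ← Real.mul_rpow (by norm_num) (by positivity)]
    gcongr

lemma r2' {σ : ℝ} (hσ : 0 < σ) {x : ℝ} (j : ℕ) : ∀ n : ℕ,
    (∀ i < j, 1 / 3 ≤ F.T^[n + i] x) → M F σ (A F x (1 / 200) n) ≤
      ENNReal.ofReal (((1 / 2) ^ σ) ^ j) * M F σ (A F x (1 / 200) (n + j)) := by
  induction j with
  | zero => simp
  | succ j ih =>
    intro n h
    refine (ih n fun i hi => h i (by omega)).trans ?_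
    rw [pow_succ, ENNReal.ofReal_mul (by positivity), mul_assoc]
    gcongr
    refine r2 F hσ (K := 4) (by norm_num) (by norm_num) ?_
    have := h j (by omega)
    push_cast; linarith

theorem U0 {x : ℝ} (h : ∀ n, 1 / 3 ≤ F.T^[n] x) : dimH (AS F.T (Icc 0 1) x) ≤ (0 : ℝ≥0) := by
  refine dim_le (β := 1) (by norm_num) fun σ h1 _ => ?_
  have hσ : 0 < σ := by simpa using h1
  refine AS_zero F hσ (δ := 1 / 200) (by norm_num) fun n => ⟨n, le_rfl,
    geo (half_lt hσ) (fun n => M F σ (A F x (1 / 200) n))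
    (fun n => M_le_one F hσ fun y hy => hy.1) (fun n => ?_) n⟩
  simpa using r2' F hσ 1 n fun i _ => h _

theorem U2 {x : ℝ} {α : ℝ≥0} (h0 : 0 < α) (h2 : (α : ℝ) < 1 / 2) (nk g : ℕ → ℕ)
    (hn : ∀ k, nk (k + 1) = nk k + 1 + g k) (hg : ∀ k, (1 / (α : ℝ) - 1) ^ k ≤ g k)
    (hx : ∀ k, ∀ i < g k, 1 / 3 ≤ F.T^[nk k + 1 + i] x) : dimH (AS F.T (Icc 0 1) x) ≤ α := by
  refine dim_le h2 fun σ h1 h3 => ?_
  have a0 : (0 : ℝ) < α := h0
  have hσ : 0 < σ := by linarith
  have hb : 0 < 1 - σ := by linarith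
  set l : ℝ := 1 / (α : ℝ) - 1 with hl
  have l1 : 1 < l := by rw [hl, lt_sub_iff_add_lt, lt_div_iff₀ a0]; linarith
  set γ := σ / (1 - σ) with hγ
  have γ0 : 0 < γ := by positivity
  have γl : 1 ≤ γ * l := by
    have : γ * l = σ * (1 - α) / ((1 - σ) * α) := by rw [hγ, hl]; field_simp
    rw [this, le_div_iff₀ (by positivity)]; nlinarith
  obtain ⟨C, C0, hC⟩ := r3 F hσ h3
  set a := γ * σ * Real.log 2 / 2 with ha
  have l2 := Real.log_pos one_lt_two
  have a1 : 0 < a := by positivity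
  obtain ⟨k0, hk0⟩ := eventually_atTop.1
    (((tendsto_pow_atTop_atTop_of_one_lt l1).const_mul_atTop a1).eventually_ge_atTop (Real.log C))
  have main : ∀ j : ℕ, ∀ k, k0 ≤ k → M F σ (A F x (1 / 200) (nk k)) ≤
      ENNReal.ofReal (Real.exp (-(j * (a * l ^ k)))) := by
    intro j
    induction j with
    | zero => intro k _; simpa using M_le_one F hσ fun y hy => hy.1
    | succ j ih =>
      intro k hk
      have lk : 0 < l ^ k := by positivity
      have s1 := r2' F hσ (g k) (nk k + 1) (hx k)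
      rw [← hn k] at s1
      have s2 : ((1 / 2 : ℝ) ^ σ) ^ g k ≤ Real.exp (-(σ * Real.log 2 * l ^ k)) := by
        rw [← Real.rpow_mul_natCast (by norm_num), Real.rpow_def_of_pos (by norm_num),
          Real.exp_le_exp, one_div, Real.log_inv]
        nlinarith [mul_le_mul_of_nonneg_left (hg k) (mul_pos hσ l2).le]
      have s3 := hC x (1 / 200) (nk k) (Real.exp (-(σ * Real.log 2 * l ^ k)) *
        Real.exp (-(j * (a * l ^ (k + 1))))) (by positivity) (by
          rw [← Real.exp_add, Real.exp_le_one_iff]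
          have : 0 ≤ (j : ℝ) * (a * l ^ (k + 1)) := by positivity
          have : 0 ≤ σ * Real.log 2 * l ^ k := by positivity
          linarith) (by
          rw [ENNReal.ofReal_mul (by positivity)]
          exact s1.trans (mul_le_mul' (ENNReal.ofReal_le_ofReal s2) (ih _ (by omega))))
      refine s3.trans (ENNReal.ofReal_le_ofReal ?_)
      rw [← Real.exp_add, ← Real.exp_mul, ← Real.exp_log C0, ← Real.exp_add, Real.exp_le_exp]
      have t1 := hk0 k hk
      have t2 : (j : ℝ) * (a * l ^ k) * 1 ≤ j * (a * l ^ k) * (γ * l) := by gcongr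
      have t3 : (-(σ * Real.log 2 * l ^ k) + -(j * (a * l ^ (k + 1)))) * γ =
          -(2 * (a * l ^ k)) - j * (a * l ^ k) * (γ * l) := by rw [ha]; ring
      rw [t3]; push_cast; linarith
  have mono : StrictMono nk := strictMono_nat_of_lt_succ fun k => by rw [hn]; omega
  refine AS_zero F hσ (δ := 1 / 200) (by norm_num) fun n => ⟨nk (max n k0),
    (le_max_left _ _).trans (mono.id_le _), le_antisymm ?_ (by simp)⟩
  have t : Tendsto (fun j : ℕ => ENNReal.ofReal (Real.exp (-(j * (a * l ^ (max n k0))))))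
      atTop (𝓝 0) := by
    rw [← ENNReal.ofReal_zero]
    exact ENNReal.tendsto_ofReal (Real.tendsto_exp_neg_atTop_nhds_zero.comp
      (tendsto_natCast_atTop_atTop.atTop_mul_const (by positivity)))
  exact ge_of_tendsto' t fun j => main j _ (le_max_right _ _)

lemma build (D : ℕ → ℕ) (hD : ∀ n, 1 ≤ D n) (hinf : ∀ n, ∃ m, n ≤ m ∧ 2 ≤ D m) :
    ∃ y : ℕ → ℝ, (∀ n, y n ∈ Ioo (0 : ℝ) 1) ∧ (∀ n, y n = F.φ (D n) (y (n + 1))) ∧
      ∀ n, F.T^[n] (y 0) = y n := by
  have I : ∀ d : ℕ, 1 ≤ d → ∀ t ∈ Icc (0 : ℝ) 1, 0 < F.φ d t ∧ F.φ d t ≤ 1 / d := fun d hd t ht =>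
    ⟨lt_of_lt_of_le (by positivity) (F.rng d hd t ht).1, (F.rng d hd t ht).2⟩
  have I' : ∀ d : ℕ, 1 ≤ d → ∀ t ∈ Icc (0 : ℝ) 1, F.φ d t ∈ Icc (0 : ℝ) 1 := fun d hd t ht =>
    ⟨(I d hd t ht).1.le, (I d hd t ht).2.trans (by
      rw [div_le_one (by exact_mod_cast hd)]; exact_mod_cast hd)⟩
  let C : (ℕ → ℕ) → ℕ → Set (ℕ → Icc (0 : ℝ) 1) := fun D N =>
    {y | ∀ n < N, (y n : ℝ) = F.φ (D n) (y (n + 1))}
  have ne : ∀ N, ∀ D : ℕ → ℕ, (∀ n, 1 ≤ D n) → (C D N).Nonempty := by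
    intro N
    induction N with
    | zero => exact fun D _ => ⟨fun _ => ⟨0, by simp⟩, fun n hn => absurd hn (by simp)⟩
    | succ N ih =>
      intro D hD
      obtain ⟨y, hy⟩ := ih (fun n => D (n + 1)) fun n => hD _
      refine ⟨fun n => Nat.casesOn n ⟨_, I' _ (hD 0) _ (y 0).2⟩ y, fun n hn => ?_⟩
      cases n with
      | zero => rfl
      | succ n => exact hy n (by omega)
  have cl : ∀ N, IsClosed (C D N) := by
    intro N
    simp only [C, setOf_forall]
    refine isClosed_iInter fun n => isClosed_iInter fun _ => isClosed_eq (by fun_prop) ?_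
    have : Continuous fun t : Icc (0 : ℝ) 1 => F.φ (D n) t :=
      (LipschitzWith.of_dist_le_mul (K := 1) fun a b => by
        simpa [Real.dist_eq, Subtype.dist_eq] using F.lip _ (hD n) a a.2 b b.2).continuous
    exact this.comp (continuous_apply _)
  obtain ⟨y, hy⟩ := IsCompact.nonempty_iInter_of_sequence_nonempty_isCompact_isClosed (C D)
    (fun N y hy n hn => hy n (by omega)) (fun N => ne N D hD) (cl 0).isCompact cl
  have e : ∀ n, (y n : ℝ) = F.φ (D n) (y (n + 1)) := fun n =>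
    mem_iInter.1 hy (n + 1) n (by omega)
  have p0 : ∀ n, 0 < (y n : ℝ) := fun n => e n ▸ (I _ (hD n) _ (y (n + 1)).2).1
  have p1 : ∀ j n, 2 ≤ D (n + j) → (y n : ℝ) < 1 := by
    intro j
    induction j with
    | zero =>
      intro n h
      have h2 : (2 : ℝ) ≤ D n := by exact_mod_cast h
      have := (I _ (hD n) _ (y (n + 1)).2).2
      rw [← e] at this
      exact this.trans_lt (by rw [div_lt_one (by linarith)]; linarith)
    | succ j ih =>
      intro n h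
      rw [e n]
      exact F.one _ (hD n) _ ⟨p0 _, ih (n + 1) (by rwa [show n + 1 + j = n + (j + 1) by ring])⟩
  have m : ∀ n, (y n : ℝ) ∈ Ioo (0 : ℝ) 1 := fun n => by
    obtain ⟨m, h1, h2⟩ := hinf n
    exact ⟨p0 n, p1 (m - n) n (by rwa [Nat.add_sub_cancel' h1])⟩
  refine ⟨fun n => y n, m, e, fun n => ?_⟩
  induction n with
  | zero => rfl
  | succ n ih => rw [Function.iterate_succ_apply', ih]; simp only; rw [e n]; exact F.inv _ (hD n) _ (m _)

end H91.AS
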