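import Pool.Agent.H91.AS2

set_option autoImplicit false

namespace H91.AS
open MeasureTheory Metric Set Filter Topology
open scoped ENNReal NNReal

variable (F : Sys)

lemma hold (G : ℝ → ℝ) (C r : ℝ≥0) (hr : 0 < r) (H : ∀ t ∈ Ico (0 : ℝ) 1, ∀ t' ∈ Ico (0 : ℝ) 1,
    |t - t'| ≤ (C * |G t - G t'|) ^ (r : ℝ)) : (r : ℝ≥0∞) ≤ dimH (G '' Ico 0 1) := by
  have hr' : (0 : ℝ) < r := hr
  have inj : InjOn G (Ico 0 1) := fun t ht t' ht' e => by
    have := H t ht t' ht'
    rw [e, sub_self, abs_zero, mul_zero, Real.zero_rpow hr'.ne'] at this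
    exact sub_eq_zero.1 (abs_nonpos_iff.1 this)
  have hol : HolderOnWith (C ^ (r : ℝ)) r (Function.invFunOn G (Ico 0 1)) (G '' Ico 0 1) := by
    rintro _ ⟨t, ht, rfl⟩ _ ⟨t', ht', rfl⟩
    rw [inj.leftInvOn_invFunOn ht, inj.leftInvOn_invFunOn ht', edist_nndist, edist_nndist,
      ← ENNReal.coe_rpow_of_nonneg _ hr'.le, ← ENNReal.coe_mul,
      ENNReal.coe_le_coe, ← NNReal.coe_le_coe, ← NNReal.mul_rpow]
    push_cast
    rw [Real.dist_eq, Real.dist_eq]
    exact H t ht t' ht'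
  have h1 := hol.dimH_image_le hr
  rw [inj.invFunOn_image subset_rfl, Real.dimH_of_nonempty_interior (by simp)] at h1
  simp only [Module.finrank_self, Nat.cast_one] at h1
  rwa [ENNReal.le_div_iff_mul_le (Or.inl (by exact_mod_cast hr.ne')) (Or.inl (by simp)),
    one_mul] at h1

noncomputable def τ (m : ℕ → ℕ) (t : ℝ) : ℕ → ℝ
  | 0 => t
  | k + 1 => Int.fract (2 ^ m k * τ m t k)

noncomputable def dg (m : ℕ → ℕ) (t : ℝ) (k : ℕ) : ℕ := ⌊2 ^ m k * τ m t k⌋₊

lemma τ_mem (m : ℕ → ℕ) {t : ℝ} (ht : t ∈ Ico (0 : ℝ) 1) (k : ℕ) : τ m t k ∈ Ico (0 : ℝ) 1 := by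
  cases k with
  | zero => exact ht
  | succ k => exact ⟨Int.fract_nonneg _, Int.fract_lt_one _⟩

lemma τ_eq (m : ℕ → ℕ) {t : ℝ} (ht : t ∈ Ico (0 : ℝ) 1) (k : ℕ) :
    2 ^ m k * τ m t k = dg m t k + τ m t (k + 1) := by
  have := (τ_mem m ht k).1
  rw [dg, τ, natCast_floor_eq_intCast_floor (by positivity), Int.floor_add_fract]

lemma dg_lt (m : ℕ → ℕ) {t : ℝ} (ht : t ∈ Ico (0 : ℝ) 1) (k : ℕ) : dg m t k < 2 ^ m k := by
  have := τ_mem m ht k
  rw [dg, Nat.floor_lt (by have := this.1; positivity)]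
  push_cast
  exact mul_lt_of_lt_one_right (by positivity) this.2

lemma τ_sub (m : ℕ → ℕ) {t t' : ℝ} (ht : t ∈ Ico (0 : ℝ) 1) (ht' : t' ∈ Ico (0 : ℝ) 1) (k : ℕ)
    (h : ∀ j < k, dg m t j = dg m t' j) :
    τ m t k - τ m t' k = 2 ^ (∑ j ∈ Finset.range k, m j) * (t - t') := by
  induction k with
  | zero => simp [τ]
  | succ k ih =>
    have a := τ_eq m ht k; have b := τ_eq m ht' k
    rw [h k (by omega)] at a
    rw [Finset.sum_range_succ, pow_add, mul_right_comm, ← ih fun j hj => h j (by omega)]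
    linarith

lemma sep {M e e' y y' : ℝ} (he : 0 ≤ e) (h : e + 1 ≤ e') (h' : e' ≤ M)
    (hy : 1 / (M + 2 * e + 1) ≤ y) (hy' : y' ≤ 1 / (M + 2 * e')) :
    e' - e ≤ 9 * M ^ 2 * (y - y') := by
  have a : 0 < M + 2 * e + 1 := by linarith
  have b : 0 < M + 2 * e' := by linarith
  have c : 1 / (M + 2 * e + 1) - 1 / (M + 2 * e') =
      (2 * (e' - e) - 1) / ((M + 2 * e + 1) * (M + 2 * e')) := by field_simp; ring
  have d : (e' - e) / (9 * M ^ 2) ≤ (2 * (e' - e) - 1) / ((M + 2 * e + 1) * (M + 2 * e')) := by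
    refine div_le_div₀ (by linarith) (by linarith) (by positivity) ?_
    calc _ ≤ (3 * M) * (3 * M) := by gcongr <;> linarith
      _ = _ := by ring
  rw [div_le_iff₀ (by nlinarith), mul_comm] at d
  refine d.trans (mul_le_mul_of_nonneg_left (by linarith) (by positivity))

theorem L {x : ℝ} (hx : ∀ n, F.T^[n] x ∈ Icc (0 : ℝ) 1) (d : ℕ → ℕ) (hd : ∀ n, 1 ≤ d n)
    (hxd : ∀ n, F.T^[n] x = F.φ (d n) (F.T^[n + 1] x)) (nk : ℕ → ℕ) (mono : StrictMono nk)
    (h0 : Tendsto (fun k => F.T^[nk k] x) atTop (𝓝 0)) (b : ℕ → ℕ)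
    (hb : ∀ n, n ∉ range nk → d n + 1 ≤ 2 ^ b n) {l K : ℝ} (hl : 1 < l)
    (hK : ∀ k : ℕ, 2 * ((∑ n ∈ Finset.range (nk k), b n : ℕ) : ℝ) + 5 * k ≤ K * l ^ k)
    (r : ℝ≥0) (hr : 0 < r) (hrl : (r : ℝ) < 1 / (1 + l)) :
    (r : ℝ≥0∞) ≤ dimH (AS F.T (Ioo 0 1) x) := by
  have r0 : (0 : ℝ) < r := hr
  set ρ : ℝ := 1 / r with hρ
  have ρl : 1 + l < ρ := by
    rw [hρ, lt_div_iff₀ r0]; rw [lt_div_iff₀ (by linarith)] at hrl; linarith
  have K0 : 0 ≤ K := by have := hK 0; simp only [pow_zero, mul_one] at this; push_cast at this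
                        have : (0 : ℝ) ≤ ∑ n ∈ Finset.range (nk 0), (b n : ℝ) := by positivity
                        linarith
  set κ : ℝ := K * (l - 1) / (ρ - 1 - l) with hκ
  have κ0 : 0 ≤ κ := div_nonneg (mul_nonneg K0 (by linarith)) (by linarith)
  let m : ℕ → ℕ := fun k => ⌈κ * l ^ k⌉₊ + k + 1
  have mk : ∀ k, k + 1 < 2 ^ m k := fun k =>
    lt_of_le_of_lt (Nat.le_add_left _ _ : k + 1 ≤ ⌈κ * l ^ k⌉₊ + (k + 1)) Nat.lt_two_pow_self
  have Tk : ∀ k, κ * (l ^ k - 1) ≤ (l - 1) * ((∑ j ∈ Finset.range k, m j : ℕ) : ℝ) := by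
    intro k
    induction k with
    | zero => simp
    | succ k ih =>
      rw [Finset.sum_range_succ, Nat.cast_add]
      have : κ * l ^ k ≤ m k := by
        have := Nat.le_ceil (κ * l ^ k)
        simp only [m]; push_cast; linarith [k.cast_nonneg (α := ℝ)]
      nlinarith [mul_le_mul_of_nonneg_left this (sub_pos.2 hl).le, pow_succ l k]
  have ex : ∀ k : ℕ, (m k : ℝ) + 2 * ((∑ n ∈ Finset.range (nk k), b n : ℕ) : ℝ) + 4 * k +
      2 * ((∑ j ∈ Finset.range k, m j : ℕ) : ℝ) ≤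
      (2 + κ + K) + ((∑ j ∈ Finset.range k, m j : ℕ) : ℝ) * ρ := by
    intro k
    have a1 : (m k : ℝ) ≤ κ * l ^ k + k + 2 := by
      have := Nat.ceil_lt_add_one (show 0 ≤ κ * l ^ k by positivity)
      simp only [m]; push_cast; linarith
    have a2 := Tk k
    have a3 : K * (l ^ k - 1) ≤ (ρ - 1 - l) * ((∑ j ∈ Finset.range k, m j : ℕ) : ℝ) := by
      have e : κ * (ρ - 1 - l) = K * (l - 1) := by rw [hκ]; exact div_mul_cancel₀ _ (by linarith)
      refine le_of_mul_le_mul_left ?_ (sub_pos.2 hl)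
      calc (l - 1) * (K * (l ^ k - 1)) = (ρ - 1 - l) * (κ * (l ^ k - 1)) := by
            linear_combination (1 - l ^ k) * e
        _ ≤ (ρ - 1 - l) * ((l - 1) * _) := mul_le_mul_of_nonneg_left a2 (by linarith)
        _ = _ := by ring
    nlinarith [hK k]
  let D : ℝ → ℕ → ℕ := fun t => Function.extend nk (fun k => 2 ^ m k + 2 * dg m t k) d
  have D1 : ∀ t k, D t (nk k) = 2 ^ m k + 2 * dg m t k := fun t k => mono.injective.extend_apply _ _ k
  have D2 : ∀ t n, n ∉ range nk → D t n = d n := fun t n hn => Function.extend_apply' _ _ _ hn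
  have D3 : ∀ t n, 1 ≤ D t n := by
    intro t n
    by_cases hn : n ∈ range nk
    · obtain ⟨k, rfl⟩ := hn
      have := mk k; rw [D1]; omega
    · rw [D2 t n hn]; exact hd n
  choose y y1 y2 y3 using fun t => build F (D t) (D3 t) fun n =>
    ⟨nk n, mono.id_le n, by have := mk n; rw [D1]; omega⟩
  have y4 : ∀ t n, y t n ∈ Icc (0 : ℝ) 1 := fun t n => Ioo_subset_Icc_self (y1 t n)
  have y5 : ∀ t k, y t (nk k) ∈ Icc (1 / ((2 : ℝ) ^ m k + 2 * dg m t k + 1))
      (1 / (2 ^ m k + 2 * dg m t k)) := by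
    intro t k
    have := F.rng _ (D3 t (nk k)) _ (y4 t (nk k + 1))
    rw [← y2, D1] at this
    exact_mod_cast this
  refine (hold (fun t => y t 0) ⟨18 * 2 ^ (2 + κ + K), by positivity⟩ r hr ?_).trans (dimH_mono ?_)
  · intro t ht t' ht'
    by_cases hall : ∀ k, dg m t k = dg m t' k
    · have : |t - t'| ≤ 0 := by
        refine ge_of_tendsto' tendsto_one_div_add_atTop_nhds_zero_nat fun k => ?_
        have e := τ_sub m ht ht' (k + 1) fun j _ => hall j
        have a := τ_mem m ht (k + 1); have a' := τ_mem m ht' (k + 1)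
        have e2 : 2 ^ (∑ j ∈ Finset.range (k + 1), m j) * |t - t'| ≤ 1 := by
          rw [← abs_of_pos (show (0 : ℝ) < 2 ^ (∑ j ∈ Finset.range (k + 1), m j) by positivity),
            ← abs_mul, ← e, abs_le]
          constructor <;> linarith [a.1, a.2, a'.1, a'.2]
        have e3 : (k : ℝ) + 1 ≤ 2 ^ (∑ j ∈ Finset.range (k + 1), m j) := by
          have : k + 1 ≤ 2 ^ (∑ j ∈ Finset.range (k + 1), m j) := (mk k).le.trans
            (Nat.pow_le_pow_right (by norm_num) (by rw [Finset.sum_range_succ]; omega))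
          exact_mod_cast this
        rw [le_div_iff₀ (by positivity)]
        nlinarith [abs_nonneg (t - t')]
      exact this.trans (by positivity)
    push Not at hall
    set k := Nat.find hall
    have k1 : dg m t k ≠ dg m t' k := Nat.find_spec hall
    have k2 : ∀ j < k, dg m t j = dg m t' j := fun j hj => by simpa using Nat.find_min hall hj
    let w : ℕ → ℝ := Function.extend nk (fun k => 3 * 2 ^ m k) 1
    have w1 : ∀ k, w (nk k) = 3 * 2 ^ m k := fun k => mono.injective.extend_apply _ _ k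
    have w2 : ∀ n, n ∉ range nk → w n = 1 := fun n hn => Function.extend_apply' _ _ _ hn
    have s1 : ∀ n ≤ nk k, |y t n - y t' n| ≤
        (∏ i ∈ Finset.range n, (w i * 2 ^ b i)) ^ 2 * |y t 0 - y t' 0| := by
      intro n hn
      induction n with
      | zero => simp
      | succ n ih =>
        have hD : D t' n = D t n ∧ (D t n : ℝ) + 1 ≤ w n * 2 ^ b n := by
          by_cases h : n ∈ range nk
          · obtain ⟨j, rfl⟩ := h
            rw [D1, D1, k2 j (mono.lt_iff_lt.1 hn), w1]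
            refine ⟨rfl, ?_⟩
            have h1 : (dg m t' j : ℝ) + 1 ≤ 2 ^ m j := by exact_mod_cast dg_lt m ht' j
            have h2 : (1 : ℝ) ≤ 2 ^ b (nk j) := one_le_pow₀ (by norm_num)
            push_cast
            nlinarith [show (0 : ℝ) < 2 ^ m j by positivity]
          · rw [D2 _ _ h, D2 _ _ h, w2 _ h, one_mul]
            exact ⟨rfl, by exact_mod_cast hb n h⟩
        have := F.anti _ (D3 t n) _ (y4 t (n + 1)) _ (y4 t' (n + 1))
        rw [← y2, ← hD.1, ← y2, hD.1] at this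
        rw [Finset.prod_range_succ, mul_pow, mul_right_comm, mul_comm]
        exact this.trans (mul_le_mul (pow_le_pow_left₀ (by positivity) hD.2 2) (ih (by omega))
          (abs_nonneg _) (by positivity))
    have s2 : ∏ i ∈ Finset.range (nk k), w i = 3 ^ k * 2 ^ (∑ j ∈ Finset.range k, m j) := by
      rw [← Finset.prod_subset (s₁ := (Finset.range k).image nk), Finset.prod_image
        fun a _ b _ h => mono.injective h]
      · simp [w1, Finset.prod_mul_distrib, Finset.prod_pow_eq_pow_sum]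
      · intro n hn
        obtain ⟨j, hj, rfl⟩ := Finset.mem_image.1 hn
        exact Finset.mem_range.2 (mono (Finset.mem_range.1 hj))
      · intro n hn hn'
        refine w2 n ?_
        rintro ⟨j, rfl⟩
        exact hn' (Finset.mem_image_of_mem _ (Finset.mem_range.2
          (mono.lt_iff_lt.1 (Finset.mem_range.1 hn))))
    have s3 := s1 _ le_rfl
    rw [Finset.prod_mul_distrib, s2, Finset.prod_pow_eq_pow_sum] at s3
    set T := ∑ j ∈ Finset.range k, m j
    set B := ∑ n ∈ Finset.range (nk k), b n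
    have s4 : 1 ≤ |(dg m t k : ℝ) - dg m t' k| ∧
        |(dg m t k : ℝ) - dg m t' k| ≤ 9 * (2 ^ m k) ^ 2 * |y t (nk k) - y t' (nk k)| := by
      have a : (dg m t k : ℝ) ≤ 2 ^ m k := by exact_mod_cast (dg_lt m ht k).le
      have a' : (dg m t' k : ℝ) ≤ 2 ^ m k := by exact_mod_cast (dg_lt m ht' k).le
      rcases lt_or_gt_of_ne k1 with h | h
      · have h' : (dg m t k : ℝ) + 1 ≤ dg m t' k := by exact_mod_cast h
        rw [abs_sub_comm, abs_of_nonneg (by linarith)]
        exact ⟨by linarith, (sep (by positivity) h' a' (y5 t k).1 (y5 t' k).2).trans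
          (by gcongr; exact le_abs_self _)⟩
      · have h' : (dg m t' k : ℝ) + 1 ≤ dg m t k := by exact_mod_cast h
        rw [abs_of_nonneg (by linarith), abs_sub_comm]
        exact ⟨by linarith, (sep (by positivity) h' a (y5 t' k).1 (y5 t k).2).trans
          (by gcongr; exact le_abs_self _)⟩
    have s5 : 2 ^ T * |t - t'| = |τ m t k - τ m t' k| := by
      rw [τ_sub m ht ht' k k2, abs_mul, abs_of_pos (show (0 : ℝ) < 2 ^ T by positivity)]
    have s6 : 2 ^ T * |t - t'| ≤ 1 := by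
      have a := τ_mem m ht k; have a' := τ_mem m ht' k
      rw [s5, abs_le]; constructor <;> linarith [a.1, a.2, a'.1, a'.2]
    have s7 : 2 ^ m k * (2 ^ T * |t - t'|) ≤ 2 * |(dg m t k : ℝ) - dg m t' k| := by
      have a := τ_mem m ht (k + 1); have a' := τ_mem m ht' (k + 1)
      rw [s5, ← abs_of_pos (show (0 : ℝ) < 2 ^ m k by positivity), ← abs_mul, mul_sub,
        τ_eq m ht, τ_eq m ht', abs_le]
      constructor <;> linarith [a.1, a.2, a'.1, a'.2, s4.1, le_abs_self ((dg m t k : ℝ) - dg m t' k),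
        neg_abs_le ((dg m t k : ℝ) - dg m t' k)]
    have s8 : 2 ^ T * |t - t'| ≤ 18 * (2 ^ m k * (3 ^ k * 2 ^ T * 2 ^ B) ^ 2) * |y t 0 - y t' 0| := by
      refine le_of_mul_le_mul_left (s7.trans ?_) (show (0 : ℝ) < 2 ^ m k by positivity)
      calc _ ≤ 2 * (9 * (2 ^ m k) ^ 2 * ((3 ^ k * 2 ^ T * 2 ^ B) ^ 2 * |y t 0 - y t' 0|)) :=
            mul_le_mul_of_nonneg_left (s4.2.trans (by gcongr)) (by norm_num)
        _ = _ := by ring
    have s9 : (2 : ℝ) ^ m k * (3 ^ k * 2 ^ T * 2 ^ B) ^ 2 ≤ 2 ^ (2 + κ + K) * (2 ^ T) ^ ρ := by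
      calc (2 : ℝ) ^ m k * (3 ^ k * 2 ^ T * 2 ^ B) ^ 2 ≤ 2 ^ m k * ((2 ^ 2) ^ k * 2 ^ T * 2 ^ B) ^ 2 := by
            gcongr; norm_num
        _ = 2 ^ (((m k + 2 * B + 4 * k + 2 * T : ℕ) : ℝ)) := by
            rw [Real.rpow_natCast, ← pow_mul, ← pow_add, ← pow_add, ← pow_mul, ← pow_add]
            congr 1; ring
        _ ≤ 2 ^ ((2 + κ + K) + T * ρ) := by
            refine Real.rpow_le_rpow_of_exponent_le one_le_two ?_
            push_cast; exact ex k
        _ = _ := by rw [Real.rpow_add two_pos, Real.rpow_natCast_mul (by norm_num)]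
    have s10 : (2 ^ T) ^ ρ * |t - t'| ^ ρ ≤ 2 ^ T * |t - t'| := by
      rw [← Real.mul_rpow (by positivity) (abs_nonneg _)]
      exact Real.rpow_le_self_of_le_one (by positivity) s6 (by linarith)
    have s11 : |t - t'| ^ ρ ≤ 18 * 2 ^ (2 + κ + K) * |y t 0 - y t' 0| := by
      refine le_of_mul_le_mul_left (s10.trans (s8.trans ?_)) (show (0 : ℝ) < (2 ^ T) ^ ρ by positivity)
      calc _ ≤ 18 * (2 ^ (2 + κ + K) * (2 ^ T) ^ ρ) * |y t 0 - y t' 0| := by gcongr
        _ = _ := by ring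
    calc |t - t'| = (|t - t'| ^ ρ) ^ (r : ℝ) := by
          rw [← Real.rpow_mul (abs_nonneg _), hρ, one_div_mul_cancel r0.ne', Real.rpow_one]
      _ ≤ _ := Real.rpow_le_rpow (by positivity) s11 r0.le
  · rintro _ ⟨t, -, rfl⟩
    refine ⟨y1 t 0, Metric.tendsto_atTop.2 fun ε hε => ?_⟩
    obtain ⟨k0, hk0⟩ := eventually_atTop.1 ((h0.eventually (gt_mem_nhds hε)).and
      (tendsto_one_div_add_atTop_nhds_zero_nat.eventually (gt_mem_nhds hε)))
    have free : ∀ n, nk k0 ≤ n → n ∈ range nk → |F.T^[n] x - y t n| < ε := by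
      rintro _ h ⟨k, rfl⟩
      obtain ⟨a1, a2⟩ := hk0 k (mono.le_iff_le.1 h)
      have a3 : 1 / ((2 : ℝ) ^ m k + 2 * dg m t k) ≤ 1 / (k + 1) := by
        refine one_div_le_one_div_of_le (by positivity) ?_
        have : (k : ℝ) + 1 ≤ 2 ^ m k := by exact_mod_cast (mk k).le
        linarith [(dg m t k).cast_nonneg (α := ℝ)]
      rw [abs_lt]
      constructor <;> linarith [(hx (nk k)).1, (y4 t (nk k)).1, (y5 t k).2]
    have all : ∀ j n, nk k0 ≤ n → n + j ∈ range nk → |F.T^[n] x - y t n| < ε := by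
      intro j
      induction j with
      | zero => exact free
      | succ j ih =>
        intro n h h'
        by_cases hn : n ∈ range nk
        · exact free n h hn
        · rw [hxd, y2, D2 t n hn]
          exact (F.lip _ (hd n) _ (hx _) _ (y4 t _)).trans_lt
            (ih (n + 1) (by omega) (by rwa [show n + 1 + j = n + (j + 1) by ring]))
    refine ⟨nk k0, fun n hn => ?_⟩
    rw [Real.dist_eq, sub_zero, abs_abs, y3]
    exact all (nk n - n) n hn ⟨n, (Nat.add_sub_cancel' (mono.id_le n)).symm⟩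

end H91.AS
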