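import Pool.Agent.H91.AS3

set_option autoImplicit false

namespace H91.AS
open MeasureTheory Metric Set Filter Topology
open scoped ENNReal NNReal

variable (F : Sys)

lemma step1 {A B : Set ℝ} (hB : B ⊆ Icc 0 1) (hBA : ∀ y ∈ B, F.T y ∈ A) :
    M F 1 B ≤ M F 1 A := by
  refine (key F one_pos hB hBA 1 fun s hs =>
    ⟨fun d => if d = 0 then 0 else ENNReal.ofReal (p d s), ?_, fun y _ d hd _ => ?_⟩).trans (by simp)
  · refine ENNReal.tsum_le_of_sum_range_le fun n => ?_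
    refine (Finset.sum_le_sum_of_subset (Finset.range_mono (Nat.le_succ n))).trans ?_
    rw [Finset.sum_range_succ']
    simp only [Nat.succ_ne_zero, if_false, if_true, add_zero]
    rw [← ENNReal.ofReal_sum_of_nonneg fun d _ => (p_bd (by omega) (F.hS hs)).1,
      p_sum n (F.hS hs), ENNReal.ofReal_le_one]
    have := (F.hS hs).1
    have : 0 ≤ (1 + s) / (n + 1 + s) := by positivity
    linarith
  · simp [show d ≠ 0 by omega]

lemma pull1 (N : ℕ) : ∀ B : Set ℝ, M F 1 {y | y ∈ Icc (0 : ℝ) 1 ∧ F.T^[N] y ∈ B} ≤ M F 1 B := by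
  induction N with
  | zero => intro B; exact iSup₂_mono fun s _ => measure_mono (image_mono fun y hy => hy.2)
  | succ N ih =>
    intro B
    exact (step1 F (A := {y | y ∈ Icc (0 : ℝ) 1 ∧ F.T^[N] y ∈ B}) (fun y hy => hy.1)
      fun y hy => ⟨F.map y hy.1, hy.2⟩).trans (ih B)

lemma block (G j : ℕ) : M F 1 {y | y ∈ Icc (0 : ℝ) 1 ∧ ∀ i < j, 1 / ((G : ℝ) + 1) < F.T^[i] y} ≤
    ENNReal.ofReal ((1 - 1 / ((G : ℝ) + 1)) ^ j) := by
  have g0 : 0 ≤ 1 - 1 / ((G : ℝ) + 1) := by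
    rw [sub_nonneg, div_le_one (by positivity)]; linarith [G.cast_nonneg (α := ℝ)]
  induction j with
  | zero => exact (M_le_one F one_pos fun y hy => hy.1).trans (by simp)
  | succ j ih =>
    rw [pow_succ', ENNReal.ofReal_mul g0]
    refine (key F one_pos (A := {y | y ∈ Icc (0 : ℝ) 1 ∧ ∀ i < j, 1 / ((G : ℝ) + 1) < F.T^[i] y})
      (fun y hy => hy.1) (fun y hy => ⟨F.map y hy.1, fun i hi => hy.2 (i + 1) (by omega)⟩) _
      fun s hs => ⟨fun d => if d ∈ Finset.range (G + 1) then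
        (if d = 0 then 0 else ENNReal.ofReal (p d s)) else 0, ?_, fun y hy d hd e => ?_⟩).trans
      (mul_le_mul' le_rfl ih)
    · rw [tsum_eq_sum (s := Finset.range (G + 1)) fun d hd => if_neg hd,
        Finset.sum_congr rfl fun d hd => if_pos hd, Finset.sum_range_succ']
      simp only [Nat.succ_ne_zero, if_false, if_true, add_zero]
      rw [← ENNReal.ofReal_sum_of_nonneg fun d _ => (p_bd (by omega) (F.hS hs)).1,
        p_sum G (F.hS hs)]
      refine ENNReal.ofReal_le_ofReal (sub_le_sub_left ?_ _)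
      have := (F.hS hs).1
      rw [div_le_div_iff₀ (by positivity) (by positivity)]
      nlinarith [mul_nonneg this (G.cast_nonneg (α := ℝ))]
    · have r := (F.rng d hd _ (F.map y hy.1)).2
      rw [← e] at r
      have d0 : (0 : ℝ) < d := by exact_mod_cast hd
      have : (d : ℝ) < G + 1 :=
        (one_div_lt_one_div (by positivity) d0).1 ((hy.2 0 (by omega)).trans_le r)
      have : d < G + 1 := by exact_mod_cast this
      simp [this, show d ≠ 0 by omega]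

def Good : Set ℝ := {x | x ∈ Icc (0 : ℝ) 1 ∧ (∀ n, 1 / 2 ^ (n + 4) < F.T^[n] x ∧ F.T^[n] x ≠ 1) ∧
  ∀ k : ℕ, ∃ i < (k + 1) * (k + 3), F.T^[i] (F.T^[(k + 3) ^ 3] x) ≤ 1 / ((k : ℝ) + 1)}

lemma good_pos : volume (Good F) ≠ 0 := by
  intro h0
  let B1 : ℕ → Set ℝ := fun n => {y | y ∈ Icc (0 : ℝ) 1 ∧ F.T^[n] y ∈ Icc (0 : ℝ) (1 / 2 ^ (n + 4)) ∪ {1}}
  let B2 : ℕ → Set ℝ := fun k => {y | y ∈ Icc (0 : ℝ) 1 ∧ F.T^[(k + 3) ^ 3] y ∈
    {y | y ∈ Icc (0 : ℝ) 1 ∧ ∀ i < (k + 1) * (k + 3), 1 / ((k : ℝ) + 1) < F.T^[i] y}}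
  have v : ∀ s, volume s ≤ M F 1 s := fun s => (vol_le s).trans (h_le_M F 1 s)
  have h1 : ∀ n, volume (B1 n) ≤ ENNReal.ofReal ((1 / 2) ^ n / 8) := by
    intro n
    have t : (1 : ℝ) / 2 ^ (n + 4) ≤ 1 := by
      rw [div_le_one (by positivity)]; exact one_le_pow₀ (by norm_num)
    refine (v _).trans ((pull1 F n _).trans ((M_union F 1 subset_rfl).trans ?_))
    have : M F 1 {1} = 0 := by simp [M, h_pt]
    rw [this, add_zero]
    refine (M_small F one_pos (Icc_subset_Icc le_rfl t) (by positivity) fun t ht => ht.2).trans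
      (le_of_eq ?_)
    congr 1; rw [Real.rpow_one, pow_add, one_div_pow]; field_simp; norm_num
  have h2 : ∀ k, volume (B2 k) ≤ ENNReal.ofReal ((1 / 2) ^ k / 8) := by
    intro k
    refine (v _).trans ((pull1 F _ _).trans ((block F k _).trans (ENNReal.ofReal_le_ofReal ?_)))
    have a := Real.one_sub_div_pow_le_exp_neg (n := k + 1) (t := 1) (by
      push_cast; linarith [k.cast_nonneg (α := ℝ)])
    push_cast at a
    have g0 : 0 ≤ 1 - 1 / ((k : ℝ) + 1) := by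
      rw [sub_nonneg, div_le_one (by positivity)]; linarith [k.cast_nonneg (α := ℝ)]
    rw [pow_mul]
    calc _ ≤ (1 / 2 : ℝ) ^ (k + 3) :=
          pow_le_pow_left₀ (by positivity) (by linarith [Real.exp_neg_one_lt_d9]) _
      _ = _ := by ring
  have hs : ∑' n : ℕ, ENNReal.ofReal ((1 / 2) ^ n / 8) = ENNReal.ofReal (1 / 4) := by
    rw [← ENNReal.ofReal_tsum_of_nonneg (fun n => by positivity) (summable_geometric_two.div_const _),
      tsum_div_const, tsum_geometric_two]; norm_num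
  have h3 : Icc (0 : ℝ) 1 ⊆ Good F ∪ ((⋃ n, B1 n) ∪ ⋃ n, B2 n) := by
    intro x hx
    by_contra hc
    simp only [mem_union, mem_iUnion, not_or, not_exists] at hc
    obtain ⟨a, b, c⟩ := hc
    refine a ⟨hx, fun n => ⟨?_, fun e => b n ⟨hx, Or.inr e⟩⟩, fun k => ?_⟩
    · by_contra h
      exact b n ⟨hx, Or.inl ⟨(orb F hx n).1, not_lt.1 h⟩⟩
    · by_contra h
      push Not at h
      exact c k ⟨hx, orb F hx _, h⟩
  have h4 := (measure_mono (μ := volume) h3).trans ((measure_union_le _ _).trans (add_le_add h0.le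
    ((measure_union_le _ _).trans (add_le_add
      ((measure_iUnion_le _).trans (ENNReal.tsum_le_tsum h1))
      ((measure_iUnion_le _).trans (ENNReal.tsum_le_tsum h2))))))
  rw [hs, zero_add, ← ENNReal.ofReal_add (by norm_num) (by norm_num), Real.volume_Icc,
    ENNReal.ofReal_le_ofReal_iff (by norm_num)] at h4
  norm_num at h4

lemma ge_dim {s : Set ℝ} {α : ℝ≥0} (H : ∀ r : ℝ≥0, 0 < r → r < α → (r : ℝ≥0∞) ≤ dimH s) :
    (α : ℝ≥0∞) ≤ dimH s := by
  refine ENNReal.le_of_forall_nnreal_lt fun r hr => ?_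
  rcases eq_zero_or_pos r with rfl | h
  · simp
  · exact H r h (by exact_mod_cast hr)

lemma good_mem {x : ℝ} (hx : x ∈ Good F) (n : ℕ) : F.T^[n] x ∈ Ioo (0 : ℝ) 1 :=
  ⟨lt_trans (by positivity) (hx.2.1 n).1, lt_of_le_of_ne (orb F hx.1 n).2 (hx.2.1 n).2⟩

lemma good_dim {x : ℝ} (hx : x ∈ Good F) : ((1 / 2 : ℝ≥0) : ℝ≥0∞) ≤ dimH (AS F.T (Ioo 0 1) x) := by
  choose d hd e using fun n => F.dec _ (good_mem F hx n)
  choose i hi hi' using hx.2.2
  have lt : ∀ k, i k + (k + 3) ^ 3 < (k + 4) ^ 3 := fun k => by nlinarith [hi k]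
  refine ge_dim fun r r0 r1 => ?_
  have r0' : (0 : ℝ) < r := r0
  have r1' : (r : ℝ) < 1 / 2 := by exact_mod_cast r1
  have l1 : 1 < 1 / (2 * (r : ℝ)) := by rw [lt_div_iff₀ (by positivity)]; linarith
  set l := 1 / (2 * (r : ℝ)) with hl
  obtain ⟨K, hK⟩ := (tendsto_pow_const_div_const_pow_of_one_lt 6 l1).bddAbove_range
  refine L F (orb F hx.1) d hd (fun n => by rw [Function.iterate_succ_apply']; exact e n)
    (fun k => i k + (k + 3) ^ 3) (strictMono_nat_of_lt_succ fun k => (lt k).trans_le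
      (Nat.le_add_left _ _)) ?_ (fun n => n + 4) (fun n _ => ?_) l1 (K := 5 * K * l ^ 4)
    (fun k => ?_) r r0 ?_
  · refine squeeze_zero (fun k => (orb F hx.1 _).1) (fun k => ?_)
      tendsto_one_div_add_atTop_nhds_zero_nat
    rw [Function.iterate_add_apply]; exact hi' k
  · have r := (F.rng _ (hd n) _ (F.map _ (orb F hx.1 n))).2
    rw [← e] at r
    have d0 : (0 : ℝ) < d n := by exact_mod_cast hd n
    have : (d n : ℝ) < 2 ^ (n + 4) :=
      (one_div_lt_one_div (by positivity) d0).1 ((hx.2.1 n).1.trans_le r)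
    exact_mod_cast this
  · have a1 : ∑ n ∈ Finset.range (i k + (k + 3) ^ 3), (n + 4) ≤ (k + 4) ^ 3 * ((k + 4) ^ 3 + 4) := by
      refine (Finset.sum_le_card_nsmul _ _ ((k + 4) ^ 3 + 4) fun n hn => ?_).trans ?_
      · have := Finset.mem_range.1 hn; have := lt k; omega
      · rw [Finset.card_range, smul_eq_mul]; exact Nat.mul_le_mul_right _ (lt k).le
    have a2 : 2 * ∑ n ∈ Finset.range (i k + (k + 3) ^ 3), (n + 4) + 5 * k ≤ 5 * (k + 4) ^ 6 := by
      have : k + 4 ≤ (k + 4) ^ 3 := Nat.le_self_pow (by norm_num) _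
      have e : (k + 4) ^ 6 = (k + 4) ^ 3 * (k + 4) ^ 3 := by ring
      rw [e]; nlinarith
    have a3 := hK ⟨k + 4, rfl⟩
    simp only at a3
    rw [div_le_iff₀ (by positivity)] at a3
    have a4 : (2 * (∑ n ∈ Finset.range (i k + (k + 3) ^ 3), (n + 4) : ℕ) + 5 * k : ℝ) ≤
      5 * ((k + 4 : ℕ) : ℝ) ^ 6 := by exact_mod_cast a2
    calc _ ≤ 5 * (K * l ^ (k + 4)) := by linarith
      _ = _ := by ring
  · rw [lt_div_iff₀ (by positivity), mul_add, hl]
    have : (r : ℝ) * (1 / (2 * r)) = 1 / 2 := by field_simp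
    linarith

lemma AS_mono (T : ℝ → ℝ) {J J' : Set ℝ} (h : J ⊆ J') (x : ℝ) : AS T J x ⊆ AS T J' x :=
  fun _ hy => ⟨h hy.1, hy.2⟩

lemma half : ((1 / 2 : ℝ≥0) : ℝ≥0∞) = 1 / 2 := by simp

theorem thmA {J : Set ℝ} (h1 : Ioo 0 1 ⊆ J) (h2 : J ⊆ Icc 0 1) :
    dimH {x | x ∈ J ∧ dimH (AS F.T J x) = 1 / 2} = 1 := by
  refine le_antisymm ((dimH_mono (subset_univ _)).trans Real.dimH_univ.le) ?_
  refine le_trans ?_ (dimH_mono (s := Good F) fun x hx => ⟨h1 (good_mem F hx 0), half ▸ le_antisymm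
    ((dimH_mono (AS_mono _ h2 x)).trans (U1 F x)) ((good_dim F hx).trans (dimH_mono (AS_mono _ h1 x)))⟩)
  refine le_dimH_of_hausdorffMeasure_ne_zero (d := 1) ?_
  rw [NNReal.coe_one, hausdorffMeasure_real]; exact good_pos F

lemma mid {α : ℝ≥0} (h0 : 0 < α) (h2 : (α : ℝ) < 1 / 2) : ∃ x ∈ Ioo (0 : ℝ) 1,
    (α : ℝ≥0∞) ≤ dimH (AS F.T (Ioo 0 1) x) ∧ dimH (AS F.T (Icc 0 1) x) ≤ α := by
  have a0 : (0 : ℝ) < α := h0
  set l : ℝ := 1 / (α : ℝ) - 1 with hl
  have l1 : 1 < l := by rw [hl, lt_sub_iff_add_lt, lt_div_iff₀ a0]; linarith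
  let nk : ℕ → ℕ := fun k => ∑ j ∈ Finset.range k, (1 + ⌈l ^ j⌉₊)
  have hn : ∀ k, nk (k + 1) = nk k + 1 + ⌈l ^ k⌉₊ := fun k => by
    simp only [nk, Finset.sum_range_succ, add_assoc]
  have mono : StrictMono nk := strictMono_nat_of_lt_succ fun k => by rw [hn]; omega
  let D : ℕ → ℕ := Function.extend nk (fun k => k + 2) 2
  have D1 : ∀ k, D (nk k) = k + 2 := fun k => mono.injective.extend_apply _ _ k
  have D2 : ∀ n, n ∉ range nk → D n = 2 := fun n hn => Function.extend_apply' _ _ _ hn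
  have D3 : ∀ n, 2 ≤ D n := by
    intro n
    by_cases hn : n ∈ range nk
    · obtain ⟨k, rfl⟩ := hn
      rw [D1]; omega
    · rw [D2 n hn]
  have D4 : ∀ n, 1 ≤ D n := fun n => one_le_two.trans (D3 n)
  obtain ⟨y, y1, y2, y3⟩ := build F D D4 fun n => ⟨n, le_rfl, D3 n⟩
  have y5 : ∀ n, y n ∈ Icc (1 / ((D n : ℝ) + 1)) (1 / D n) := fun n =>
    y2 n ▸ F.rng _ (D4 n) _ (Ioo_subset_Icc_self (y1 _))
  refine ⟨y 0, y1 0, ge_dim fun r r0 r1 => ?_, U2 F h0 h2 nk (fun k => ⌈l ^ k⌉₊) hn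
    (fun k => Nat.le_ceil _) fun k i hi => ?_⟩
  · refine L F (fun n => y3 n ▸ Ioo_subset_Icc_self (y1 n)) D D4 (fun n => by rw [y3, y3, ← y2])
      nk mono ?_ (fun _ => 2) (fun n hn => by rw [D2 n hn]; norm_num) l1 (K := 27 / (l - 1))
      (fun k => ?_) r r0 (by rw [hl]; simpa using r1)
    · refine squeeze_zero (fun k => by rw [y3]; exact (y1 _).1.le) (fun k => ?_)
        tendsto_one_div_add_atTop_nhds_zero_nat
      rw [y3]
      refine (y5 _).2.trans ?_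
      rw [D1]; push_cast
      exact one_div_le_one_div_of_le (by positivity) (by linarith)
    · have b1 : ∀ k, (l - 1) * nk k ≤ 3 * l ^ k := by
        intro k
        induction k with
        | zero => simp [nk]
        | succ k ih =>
          have c1 := Nat.ceil_lt_add_one (show 0 ≤ l ^ k by positivity)
          have c2 : 1 ≤ l ^ k := one_le_pow₀ l1.le
          rw [hn, pow_succ]; push_cast
          nlinarith [mul_le_mul_of_nonneg_left (show (1 : ℝ) + ⌈l ^ k⌉₊ ≤ 3 * l ^ k by linarith)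
            (sub_pos.2 l1).le]
      have b2 : (k : ℝ) ≤ nk k := by exact_mod_cast mono.id_le k
      rw [div_mul_eq_mul_div, le_div_iff₀ (by linarith)]
      simp only [Finset.sum_const, Finset.card_range, smul_eq_mul]
      push_cast
      nlinarith [b1 k, mul_le_mul_of_nonneg_left b2 (sub_pos.2 l1).le]
  · have : nk k + 1 + i ∉ range nk := by
      rintro ⟨j, hj⟩
      have a : k < j := mono.lt_iff_lt.1 (by omega)
      have b : j < k + 1 := mono.lt_iff_lt.1 (by rw [hn]; omega)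
      omega
    have h := (y5 (nk k + 1 + i)).1
    rw [D2 _ this] at h
    rw [y3]; norm_num at h ⊢; exact h

theorem thmB {J : Set ℝ} (h1 : Ioo 0 1 ⊆ J) (h2 : J ⊆ Icc 0 1) :
    (fun x => dimH (AS F.T J x)) '' J = Icc 0 (1 / 2) := by
  refine Subset.antisymm ?_ fun a ha => ?_
  · rintro _ ⟨x, -, rfl⟩
    exact ⟨by simp, half ▸ (dimH_mono (AS_mono _ h2 x)).trans (U1 F x)⟩
  lift a to ℝ≥0 using ne_top_of_le_ne_top (by simp) ha.2
  have a2 : a ≤ 1 / 2 := by have := ha.2; rw [← half] at this; exact_mod_cast this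
  suffices H : ∃ x ∈ Ioo (0 : ℝ) 1,
      (a : ℝ≥0∞) ≤ dimH (AS F.T (Ioo 0 1) x) ∧ dimH (AS F.T (Icc 0 1) x) ≤ a by
    obtain ⟨x, hx, b1, b2⟩ := H
    exact ⟨x, h1 hx, le_antisymm ((dimH_mono (AS_mono _ h2 x)).trans b2)
      (b1.trans (dimH_mono (AS_mono _ h1 x)))⟩
  rcases eq_zero_or_pos a with rfl | a0
  · obtain ⟨y, y1, y2, y3⟩ := build F (fun _ => 2) (fun _ => one_le_two) fun n => ⟨n, le_rfl, le_rfl⟩
    refine ⟨y 0, y1 0, by simp, U0 F fun n => ?_⟩
    have := (F.rng 2 one_le_two _ (Ioo_subset_Icc_self (y1 (n + 1)))).1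
    rw [← y2] at this
    rw [y3]; norm_num at this ⊢; exact this
  rcases a2.eq_or_lt with rfl | a3
  · obtain ⟨x, hx⟩ := nonempty_of_measure_ne_zero (good_pos F)
    exact ⟨x, good_mem F hx 0, good_dim F hx, U1 F x⟩
  · exact mid F a0 (by exact_mod_cast a3)

end H91.AS
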