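import Pool.Agent.H91.AS4

set_option autoImplicit false

namespace H91.AS
open Set

/-- the Gauss map -/
noncomputable def gauss (x : ℝ) : ℝ := if x = 0 then 0 else 1 / x - ⌊1 / x⌋

lemma gauss_eq (x : ℝ) : gauss x = Int.fract (1 / x) := by
  unfold gauss; split_ifs with h
  · simp [h]
  · rfl

noncomputable def gaussSys : Sys where
  T := gauss
  φ d t := 1 / (d + t)
  S := Icc 0 1
  h0 := by simp
  hS := subset_rfl
  map x _ := by rw [gauss_eq]; exact ⟨Int.fract_nonneg _, (Int.fract_lt_one _).le⟩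
  dec x hx := by
    have h1 : 1 ≤ 1 / x := by rw [le_div_iff₀ hx.1]; linarith [hx.2]
    refine ⟨⌊1 / x⌋₊, Nat.one_le_floor_iff _ |>.2 h1, ?_⟩
    rw [gauss_eq, natCast_floor_eq_intCast_floor (by linarith), Int.floor_add_fract, one_div_one_div]
  inv d _ t ht := by
    rw [gauss_eq, one_div_one_div, Int.fract_natCast_add, Int.fract_eq_self.2 ⟨ht.1.le, ht.2⟩]
  rng d hd t ht := by
    have h1 : (1 : ℝ) ≤ d := by exact_mod_cast hd
    exact ⟨one_div_le_one_div_of_le (by linarith [ht.1]) (by linarith [ht.2]),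
      one_div_le_one_div_of_le (by linarith) (by linarith [ht.1])⟩
  lip d hd t ht t' ht' := by
    have h1 : (1 : ℝ) ≤ d := by exact_mod_cast hd
    have a := ht.1; have b := ht'.1
    have e : 1 / (d + t) - 1 / (d + t') = (t' - t) / ((d + t) * (d + t')) := by field_simp; ring
    rw [e, abs_div, abs_sub_comm, abs_of_pos (show 0 < (d + t) * (d + t') by positivity)]
    exact div_le_self (abs_nonneg _) (by nlinarith)
  anti d hd t ht t' ht' := by
    have h1 : (1 : ℝ) ≤ d := by exact_mod_cast hd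
    have a := ht.1; have b := ht'.1
    have e : 1 / (d + t) - 1 / (d + t') = (t' - t) / ((d + t) * (d + t')) := by field_simp; ring
    rw [e, abs_div, abs_sub_comm t', abs_of_pos (show 0 < (d + t) * (d + t') by positivity),
      ← mul_div_assoc, le_div_iff₀ (by positivity), mul_comm, sq]
    gcongr
    exacts [ht.2, ht'.2]
  gap d hd t ht := by
    have h1 : (1 : ℝ) ≤ d := by exact_mod_cast hd
    have a := ht.1
    push_cast
    have e : 1 / (d + t) - 1 / (d + 1 + t) = 1 / ((d + t) * (d + 1 + t)) := by field_simp; ring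
    rw [e]
    exact one_div_le_one_div_of_le (by positivity) (by nlinarith [ht.2])
  one d hd t ht := by
    have h1 : (1 : ℝ) ≤ d := by exact_mod_cast hd
    rw [div_lt_one (by linarith [ht.1])]; linarith [ht.1]
  dist s hs d hd := by
    have h1 : (1 : ℝ) ≤ d := by exact_mod_cast hd
    have c := hs.1
    refine ⟨1 / (d + s), ⟨by positivity, by rw [div_le_one (by positivity)]; linarith⟩, ?_⟩
    intro t ht t' ht'
    have a := ht.1; have b := ht'.1
    have e : ψ s (1 / (d + t)) - ψ s (1 / (d + t')) =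
        p d s * (ψ (1 / (d + s)) t' - ψ (1 / (d + s)) t) := by
      unfold ψ p; field_simp; ring
    rw [e, abs_mul, abs_of_nonneg (p_bd hd hs).1, abs_sub_comm]

noncomputable def lurSys (T : ℝ → ℝ) (h1 : ∀ x ∈ Icc (0 : ℝ) 1, T x ∈ Icc (0 : ℝ) 1)
    (h2 : ∀ x ∈ Ioo (0 : ℝ) 1, ∃ n : ℕ, 1 ≤ n ∧ T x = n * (n + 1) * x - n)
    (h3 : ∀ n : ℕ, 1 ≤ n → ∀ x ∈ Ioo (1 / ((n : ℝ) + 1)) (1 / n), T x = n * (n + 1) * x - n) : Sys where
  T := T
  φ d t := (t + d) / (d * (d + 1))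
  S := {0}
  h0 := rfl
  hS := by simp
  map := h1
  dec x hx := by
    obtain ⟨n, hn, e⟩ := h2 x hx
    have : (1 : ℝ) ≤ n := by exact_mod_cast hn
    exact ⟨n, hn, by rw [e]; field_simp; ring⟩
  inv d hd t ht := by
    have : (1 : ℝ) ≤ d := by exact_mod_cast hd
    rw [h3 d hd]
    · field_simp; ring
    · constructor <;> rw [div_lt_div_iff₀ (by positivity) (by positivity)] <;> nlinarith [ht.1, ht.2]
  rng d hd t ht := by
    have : (1 : ℝ) ≤ d := by exact_mod_cast hd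
    constructor <;> rw [div_le_div_iff₀ (by positivity) (by positivity)] <;> nlinarith [ht.1, ht.2]
  lip d hd t ht t' ht' := by
    have h1 : (1 : ℝ) ≤ d := by exact_mod_cast hd
    rw [← sub_div, abs_div, abs_of_pos (show (0 : ℝ) < d * (d + 1) by positivity),
      add_sub_add_right_eq_sub]
    exact div_le_self (abs_nonneg _) (by nlinarith)
  anti d hd t ht t' ht' := by
    have h1 : (1 : ℝ) ≤ d := by exact_mod_cast hd
    rw [← sub_div, abs_div, abs_of_pos (show (0 : ℝ) < d * (d + 1) by positivity),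
      add_sub_add_right_eq_sub, ← mul_div_assoc, le_div_iff₀ (by positivity), mul_comm, sq]
    gcongr; linarith
  gap d hd t ht := by
    have h1 : (1 : ℝ) ≤ d := by exact_mod_cast hd
    have a := ht.1
    push_cast
    have e : (t + d) / (d * (d + 1)) - (t + (d + 1)) / ((d + 1) * (d + 1 + 1)) =
      1 / ((d + 1) * (d + 2)) + 2 * t / (d * (d + 1) * (d + 2)) := by field_simp; ring
    rw [e]
    exact le_add_of_nonneg_right (by positivity)
  one d hd t ht := by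
    have h1 : (1 : ℝ) ≤ d := by exact_mod_cast hd
    rw [div_lt_one (by positivity)]; nlinarith [ht.2]
  dist s hs d hd := by
    have h1 : (1 : ℝ) ≤ d := by exact_mod_cast hd
    obtain rfl : s = 0 := hs
    refine ⟨0, rfl, fun t _ t' _ => le_of_eq ?_⟩
    simp only [ψ, p, add_zero, zero_mul, div_one, one_mul]
    rw [← sub_div, abs_div, abs_of_pos (show (0 : ℝ) < d * (d + 1) by positivity),
      add_sub_add_right_eq_sub]; ring

lemma cellL {x : ℝ} (hx : x ∈ Ioo (0 : ℝ) 1) :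
    ∃ n : ℕ, 1 ≤ n ∧ x ∈ Ico (1 / ((n : ℝ) + 1)) (1 / n) := by
  have h1 : 1 < 1 / x := by rw [lt_div_iff₀ hx.1]; linarith [hx.2]
  obtain ⟨n, hn⟩ : ∃ n : ℕ, ⌈1 / x⌉₊ = n + 1 :=
    Nat.exists_eq_succ_of_ne_zero (Nat.ceil_pos.2 (by linarith)).ne'
  obtain ⟨a, b⟩ := (Nat.ceil_eq_iff (by omega)).1 hn
  simp only [Nat.add_sub_cancel] at a
  push_cast at b
  have n1 : 1 ≤ n := by
    have : (0 : ℝ) < n := by linarith
    exact_mod_cast this
  exact ⟨n, n1, (one_div_le (by positivity) hx.1).2 b,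
    (lt_one_div hx.1 (by exact_mod_cast n1)).2 a⟩

lemma cellR {x : ℝ} (hx : x ∈ Ioc (0 : ℝ) 1) :
    ∃ n : ℕ, 1 ≤ n ∧ x ∈ Ioc (1 / ((n : ℝ) + 1)) (1 / n) := by
  have h1 : 1 ≤ 1 / x := by rw [le_div_iff₀ hx.1]; linarith [hx.2]
  have n1 := (Nat.one_le_floor_iff _).2 h1
  exact ⟨⌊1 / x⌋₊, n1, (one_div_lt (by positivity) hx.1).2 (Nat.lt_floor_add_one _),
    (le_one_div hx.1 (by exact_mod_cast n1)).2 (Nat.floor_le (by linarith))⟩

lemma lin {n : ℕ} (hn : 1 ≤ n) {x : ℝ} (h1 : 1 / ((n : ℝ) + 1) ≤ x) (h2 : x ≤ 1 / n) :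
    (n : ℝ) * (n + 1) * x - n ∈ Icc (0 : ℝ) 1 := by
  have : (1 : ℝ) ≤ n := by exact_mod_cast hn
  rw [div_le_iff₀ (by positivity)] at h1
  rw [le_div_iff₀ (by positivity)] at h2
  constructor <;> nlinarith

theorem gaussLevel :
    dimH {x | x ∈ Set.Ico (0 : ℝ) 1 ∧ dimH (H91.AS.AS H91.AS.gauss (Set.Ico 0 1) x) = 1 / 2} = 1 :=
  thmA gaussSys Ioo_subset_Ico_self Ico_subset_Icc_self

theorem gaussImage :
    (fun x => dimH (H91.AS.AS H91.AS.gauss (Set.Ico 0 1) x)) '' Set.Ico 0 1 = Set.Icc 0 (1 / 2) :=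
  thmB gaussSys Ioo_subset_Ico_self Ico_subset_Icc_self

theorem lurLevel : ∀ L : ℝ → ℝ, L 0 = 0 → L 1 ∈ Set.Icc (0 : ℝ) 1 →
    (∀ n : ℕ, 1 ≤ n → ∀ x ∈ Set.Ico (1 / ((n : ℝ) + 1)) (1 / n), L x = n * (n + 1) * x - n) →
    dimH {x | x ∈ Set.Icc (0 : ℝ) 1 ∧ dimH (H91.AS.AS L (Set.Icc 0 1) x) = 1 / 2} = 1 := by
  intro L h0 h1 h
  refine thmA (lurSys L (fun x hx => ?_) (fun x hx => ?_) fun n hn x hx => h n hn x ⟨hx.1.le, hx.2⟩)
    Ioo_subset_Icc_self subset_rfl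
  · rcases hx.1.eq_or_lt with rfl | a
    · simp [h0]
    rcases hx.2.eq_or_lt with rfl | b
    · exact h1
    obtain ⟨n, hn, c⟩ := cellL ⟨a, b⟩
    rw [h n hn x c]; exact lin hn c.1 c.2.le
  · obtain ⟨n, hn, c⟩ := cellL hx
    exact ⟨n, hn, h n hn x c⟩

theorem lurImage : ∀ L : ℝ → ℝ, L 0 = 0 →
    (∀ n : ℕ, 1 ≤ n → ∀ x ∈ Set.Ioc (1 / ((n : ℝ) + 1)) (1 / n), L x = n * (n + 1) * x - n) →
    (fun x => dimH (H91.AS.AS L (Set.Icc 0 1) x)) '' Set.Icc 0 1 = Set.Icc 0 (1 / 2) := by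
  intro L h0 h
  refine thmB (lurSys L (fun x hx => ?_) (fun x hx => ?_) fun n hn x hx => h n hn x ⟨hx.1, hx.2.le⟩)
    Ioo_subset_Icc_self subset_rfl
  · rcases hx.1.eq_or_lt with rfl | a
    · simp [h0]
    obtain ⟨n, hn, c⟩ := cellR ⟨a, hx.2⟩
    rw [h n hn x c]; exact lin hn c.1.le c.2
  · obtain ⟨n, hn, c⟩ := cellR ⟨hx.1, hx.2.le⟩
    exact ⟨n, hn, h n hn x c⟩

end H91.AS
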