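import Pool.Agent.H91.SupN

set_option autoImplicit false

namespace H91.AlmostIdeal
open Filter Topology Set Metric Pool.Agent.H91.C0 Pool.Agent.H91.Renorm H91.SupN

/-- `dens E < κ` -/
def DensLt {X : Type} [NormedAddCommGroup X] [NormedSpace ℝ X] (E : Submodule ℝ X)
    (κ : Cardinal.{0}) : Prop :=
  ∃ S : Set E, Cardinal.mk S < κ ∧ Dense (Submodule.span ℝ S : Set E)

/-- a bounded linear `P : E → Y` of norm at most `C` fixing `E ∩ Y` -/
def Proj {X : Type} [NormedAddCommGroup X] [NormedSpace ℝ X] (Y E : Submodule ℝ X) (C : ℝ) : Prop :=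
  ∃ P : E →L[ℝ] Y, ‖P‖ ≤ C ∧ ∀ u : E, (u : X) ∈ Y → (P u : X) = u

noncomputable def c (n : ℕ) : ℝ := 1 - 1 / ((n : ℝ) + 2)
lemma c_ge (n : ℕ) : 1 / 2 ≤ c n := by
  have : 1 / ((n : ℝ) + 2) ≤ 1 / 2 := by
    apply one_div_le_one_div_of_le (by norm_num)
    linarith [(Nat.cast_nonneg n : (0:ℝ) ≤ n)]
  unfold c; linarith
lemma c_le (n : ℕ) : c n ≤ 1 := by
  have : 0 < 1 / ((n : ℝ) + 2) := by positivity
  unfold c; linarith
lemma c_lim : Tendsto c atTop (𝓝 1) := by
  have : Tendsto (fun n : ℕ => 1 / ((n : ℝ) + 2)) atTop (𝓝 0) :=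
    tendsto_const_nhds.div_atTop (tendsto_atTop_add_const_right _ _ tendsto_natCast_atTop_atTop)
  have h := this.const_sub 1
  rw [sub_zero] at h
  exact h

noncomputable def q (i : ℕ × Bool) : Seminorm ℝ (c0 × ℝ) :=
  absS (if i.2 then fn i.1 1 1 else fn i.1 (c i.1) 0)

lemma hq (i : ℕ × Bool) (x : c0 × ℝ) : q i x ≤ 2 * ‖x‖ := by
  unfold q; split_ifs
  · exact fn_le _ _ _ (by simp) (by simp) x
  · exact fn_le _ _ _ (abs_le.2 ⟨by linarith [c_ge i.1], c_le _⟩) (by simp) x

noncomputable def p : Seminorm ℝ (c0 × ℝ) := supS q 2 hq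

lemma l1 (x : c0 × ℝ) (n : ℕ) : c n * |x.1 n| ≤ p x := by
  have := le_supS q 2 hq (n, false) x
  simp only [q, Bool.false_eq_true, if_false, absS_apply, fn_apply, zero_mul, add_zero,
    abs_mul] at this
  rwa [abs_of_pos (by linarith [c_ge n])] at this
lemma l2 (x : c0 × ℝ) (n : ℕ) : |x.1 n + x.2| ≤ p x := by
  simpa [q, p] using le_supS q 2 hq (n, true) x
lemma l4 (x : c0 × ℝ) {M : ℝ} (h1 : ∀ n, c n * |x.1 n| ≤ M) (h2 : ∀ n, |x.1 n + x.2| ≤ M) :
    p x ≤ M := by
  refine supS_le _ _ _ ?_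
  rintro ⟨n, b⟩
  cases b
  · simp only [q, Bool.false_eq_true, if_false, absS_apply, fn_apply, zero_mul, add_zero, abs_mul]
    rw [abs_of_pos (by linarith [c_ge n])]; exact h1 n
  · simpa [q] using h2 n

noncomputable def N : EqNorm ℝ (c0 × ℝ) where
  p := p
  lower := ⟨2, fun x => by
    have hp := apply_nonneg p x
    rw [Prod.norm_def]
    refine max_le (norm_le _ (by positivity) fun n => ?_) ?_
    · nlinarith [l1 x n, c_ge n, abs_nonneg (x.1 n)]
    · have := lim_le _ _ _ (l2 x)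
      rw [Real.norm_eq_abs]; linarith⟩
  upper := ⟨2, fun x => supS_le _ _ _ fun i => hq i x⟩

noncomputable def tr (a : ℕ → ℝ) (M : ℕ) : c0 := ∑ k ∈ Finset.range M, a k • e k
lemma tr_apply (a : ℕ → ℝ) (M n : ℕ) : tr a M n = if n < M then a n else 0 := by
  unfold tr
  rw [sum_apply]
  simp [e_apply]

lemma tr_lim (y : c0) : Tendsto (tr y) atTop (𝓝 y) := by
  rw [Metric.tendsto_atTop]
  intro ε hε
  obtain ⟨M, hM⟩ := Metric.tendsto_atTop.1 (tendsto_zero y) (ε / 2) (by positivity)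
  refine ⟨M, fun m hm => ?_⟩
  rw [dist_eq_norm]
  refine (norm_le _ (half_pos hε).le fun n => ?_).trans_lt (half_lt_self hε)
  rw [ZeroAtInftyContinuousMap.sub_apply, tr_apply]
  split_ifs with h
  · simp; positivity
  · simpa using (hM n (by omega)).le

theorem main : ∃ (X : Type) (_ : NormedAddCommGroup X) (_ : NormedSpace ℝ X) (Y : Submodule ℝ X)
    (κ : Cardinal.{0}), CompleteSpace X ∧ IsClosed (Y : Set X) ∧ Cardinal.aleph0 < κ ∧
      (∀ E : Submodule ℝ X, DensLt E κ → ∀ ε : ℝ, 0 < ε → Proj Y E (1 + ε)) ∧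
      ∃ E : Submodule ℝ X, IsClosed (E : Set X) ∧ DensLt E κ ∧ ¬ Proj Y E 1 := by
  let g : N.Sp →L[ℝ] ℝ := ContinuousLinearMap.snd ℝ c0 ℝ ∘L N.eqv.toContinuousLinearMap
  let Y : Submodule ℝ N.Sp := g.ker
  have hY : ∀ u : N.Sp, u ∈ Y ↔ (N.eqv u).2 = 0 := fun u => Iff.rfl
  refine ⟨N.Sp, inferInstance, inferInstance, Y, Cardinal.aleph 1, inferInstance, g.isClosed_ker,
    Cardinal.aleph0_lt_aleph_one, ?_, ⊤, by simp, ?_, ?_⟩
  · intro E _ ε hε
    have h1 : Tendsto (fun n => (1 + ε) * c n) atTop (𝓝 (1 + ε)) := by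
      simpa using c_lim.const_mul (1 + ε)
    obtain ⟨M, hM⟩ := eventually_atTop.1 (h1.eventually (lt_mem_nhds (show 1 < 1 + ε by linarith)))
    let Q : N.Sp →L[ℝ] N.Sp := ContinuousLinearMap.id ℝ _ +
      g.smulRight (N.eqv.symm (tr (fun _ => 1) M, -1))
    have hQ : ∀ u, N.eqv (Q u) = N.eqv u + (N.eqv u).2 • (tr (fun _ => 1) M, -1) := fun u => rfl
    have hQY : ∀ u, Q u ∈ Y := fun u => by rw [hY, hQ]; simp
    refine ⟨(Q.codRestrict Y hQY) ∘L E.subtypeL, ?_, fun u hu => ?_⟩
    · refine ContinuousLinearMap.opNorm_le_bound _ (by positivity) fun u => ?_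
      show p (N.eqv (Q u)) ≤ (1 + ε) * p (N.eqv u)
      rw [hQ]
      set y := N.eqv (u : N.Sp)
      have hp := apply_nonneg p y
      have key : ∀ n, |(y + y.2 • (tr (fun _ => 1) M, (-1 : ℝ))).1 n| ≤ (1 + ε) * p y := by
        intro n
        simp only [Prod.fst_add, Prod.smul_fst, ZeroAtInftyContinuousMap.add_apply,
          ZeroAtInftyContinuousMap.smul_apply, tr_apply, smul_eq_mul]
        split_ifs with h
        · rw [mul_one]; nlinarith [l2 y n]
        · rw [mul_zero, add_zero]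
          nlinarith [l1 y n, hM n (not_lt.1 h), abs_nonneg (y.1 n)]
      refine l4 _ (fun n => ?_) fun n => ?_
      · nlinarith [key n, c_le n, abs_nonneg ((y + y.2 • (tr (fun _ => 1) M, (-1 : ℝ))).1 n)]
      · simpa using key n
    · show Q u = u
      apply N.eqv.injective
      rw [hQ, (hY _).1 hu]; simp
  · let s : Option ℕ → (⊤ : Submodule ℝ N.Sp) := fun o =>
      ⟨N.eqv.symm (o.elim (0, 1) fun k => (e k, 0)), trivial⟩
    refine ⟨range s, (Cardinal.mk_range_le.trans (by simp)).trans_lt Cardinal.aleph0_lt_aleph_one,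
      fun x => ?_⟩
    set y := N.eqv x.1 with hy
    refine mem_closure_of_tendsto (b := atTop)
      (f := fun M => ∑ k ∈ Finset.range M, y.1 k • s (some k) + y.2 • s none) ?_
      (Eventually.of_forall fun M => ?_)
    · rw [tendsto_subtype_rng]
      have h1 : Tendsto (fun M => N.eqv.symm (tr y.1 M, y.2)) atTop (𝓝 (N.eqv.symm y)) :=
        (N.eqv.symm.continuous.tendsto _).comp ((tr_lim y.1).prodMk_nhds tendsto_const_nhds)
      rw [hy, ContinuousLinearEquiv.symm_apply_apply, ← hy] at h1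
      refine h1.congr fun M => ?_
      apply N.eqv.injective
      simp only [s, Submodule.coe_add, Submodule.coe_sum, Submodule.coe_smul, map_add, map_sum,
        map_smul, ContinuousLinearEquiv.apply_symm_apply, Option.elim]
      ext1
      · simp [tr, Prod.fst_sum]
      · simp [Prod.snd_sum]
    · exact Submodule.add_mem _ (Submodule.sum_mem _ fun k _ => Submodule.smul_mem _ _
        (Submodule.subset_span ⟨_, rfl⟩)) (Submodule.smul_mem _ _ (Submodule.subset_span ⟨_, rfl⟩))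
  · rintro ⟨P, hP, hP2⟩
    let o : (⊤ : Submodule ℝ N.Sp) := ⟨N.eqv.symm (0, 1), trivial⟩
    set z := N.eqv (P o : N.Sp) with hz
    have hz2 : z.2 = 0 := (hY _).1 (P o).2
    have key : ∀ n, 1 ≤ z.1 n := by
      intro n
      let a : (⊤ : Submodule ℝ N.Sp) := ⟨N.eqv.symm ((-((n:ℝ) + 2)) • e n, 0), trivial⟩
      have h1 : (P a : N.Sp) = a := hP2 a rfl
      have h2 : ‖a + o‖ ≤ n + 1 := by
        have hn : (0:ℝ) ≤ n := Nat.cast_nonneg n
        have : p (((-((n:ℝ) + 2)) • e n, 0) + (0, 1)) ≤ n + 1 := by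
          refine l4 _ (fun k => ?_) fun k => ?_
          · simp only [Prod.fst_add, add_zero, ZeroAtInftyContinuousMap.smul_apply, e_apply,
              smul_eq_mul]
            split_ifs with h
            · rw [h, mul_one, abs_neg, abs_of_pos (by positivity)]
              unfold c; field_simp; linarith
            · simp; positivity
          · simp only [Prod.fst_add, Prod.snd_add, zero_add, add_zero,
              ZeroAtInftyContinuousMap.smul_apply, e_apply, smul_eq_mul]
            rw [abs_le]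
            split_ifs with h <;> constructor <;> linarith
        exact this
      have h3 : ‖P (a + o)‖ ≤ n + 1 := by
        calc ‖P (a + o)‖ ≤ ‖P‖ * ‖a + o‖ := P.le_opNorm _
          _ ≤ 1 * (n + 1) := by gcongr
          _ = _ := one_mul _
      have h4 := (l2 (N.eqv (P (a + o) : N.Sp)) n).trans h3
      rw [map_add, Submodule.coe_add, map_add, h1, ← hz] at h4
      simp [a, e_apply, hz2] at h4
      rw [abs_le] at h4
      linarith [h4.1]
    have := ge_of_tendsto' (tendsto_zero z.1) key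
    linarith

end H91.AlmostIdeal
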