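import Mathlib

set_option autoImplicit false

namespace Pool.Agent.H91.Renorm

/-- an equivalent norm on a normed space -/
structure EqNorm (𝕜 X : Type) [NontriviallyNormedField 𝕜] [NormedAddCommGroup X]
    [NormedSpace 𝕜 X] where
  p : Seminorm 𝕜 X
  lower : ∃ c : ℝ, ∀ x, ‖x‖ ≤ c * p x
  upper : ∃ C : ℝ, ∀ x, p x ≤ C * ‖x‖

variable {𝕜 X : Type} [NontriviallyNormedField 𝕜] [NormedAddCommGroup X] [NormedSpace 𝕜 X]

/-- the space with the new norm -/
def EqNorm.Sp (_N : EqNorm 𝕜 X) : Type := X

namespace EqNorm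

variable (N : EqNorm 𝕜 X)

instance : AddCommGroup N.Sp := inferInstanceAs (AddCommGroup X)
instance : Module 𝕜 N.Sp := inferInstanceAs (Module 𝕜 X)

def toX : N.Sp ≃ₗ[𝕜] X := LinearEquiv.refl 𝕜 X

noncomputable instance : NormedAddCommGroup N.Sp :=
  AddGroupNorm.toNormedAddCommGroup
    { toFun := fun x => N.p (N.toX x)
      map_zero' := by simp
      add_le' := fun x y => by rw [map_add]; exact map_add_le_add N.p _ _
      neg' := fun x => by rw [map_neg]; exact map_neg_eq_map N.p _
      eq_zero_of_map_eq_zero' := fun x hx => by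
        obtain ⟨c, hc⟩ := N.lower
        have := hc (N.toX x)
        rw [hx, mul_zero] at this
        exact N.toX.map_eq_zero_iff.mp (norm_le_zero_iff.mp this) }

lemma norm_def (x : N.Sp) : ‖x‖ = N.p (N.toX x) := rfl

lemma norm_symm (x : X) : ‖N.toX.symm x‖ = N.p x := rfl

noncomputable instance : NormedSpace 𝕜 N.Sp where
  norm_smul_le c x := by
    rw [norm_def, norm_def, map_smul, map_smul_eq_mul]

noncomputable def eqv : N.Sp ≃L[𝕜] X :=
  N.toX.toContinuousLinearEquivOfBounds N.lower.choose N.upper.choose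
    (fun x => N.lower.choose_spec (N.toX x)) (fun x => N.upper.choose_spec x)

lemma eqv_apply (x : N.Sp) : N.eqv x = N.toX x := rfl
lemma eqv_symm_apply (x : X) : N.eqv.symm x = N.toX.symm x := rfl

lemma norm_eqv (x : N.Sp) : ‖x‖ = N.p (N.eqv x) := rfl
lemma norm_eqv_symm (x : X) : ‖N.eqv.symm x‖ = N.p x := rfl

instance [CompleteSpace X] : CompleteSpace N.Sp :=
  (N.eqv.isUniformEmbedding.isUniformInducing.completeSpace_congr N.eqv.surjective).mpr inferInstance

end EqNorm

end Pool.Agent.H91.Renorm
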