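import Mathlib
import Pool.Agent.H91.Renorm

set_option autoImplicit false

namespace Pool.Agent.H91.Altern

open Filter Topology

lemma dykstra (s : ℕ → ℝ) (B A ε : ℝ) (hε : 0 < ε)
    (hB : ∀ n, ∑ j ∈ Finset.range n, s j ^ 2 ≤ B) :
    ∃ k, s (k + 1) * (A + ∑ j ∈ Finset.range (k + 2), s j) < ε := by
  by_contra hc
  push Not at hc
  have hB0 : 0 ≤ B := by simpa using hB 0
  have hsum : Summable fun j => s j ^ 2 := summable_of_sum_range_le (fun j => sq_nonneg _) hB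
  have hsum2 : Summable fun j => s (j + 1) ^ 2 * ((2 * A ^ 2 + 2 * B) / ε ^ 2) :=
    ((summable_nat_add_iff 1).2 hsum).mul_right _
  have : Summable fun j : ℕ => 1 / (((j + 2 : ℕ) : ℝ)) := by
    refine Summable.of_nonneg_of_le (fun j => by positivity) (fun j => ?_) hsum2
    have h1 := hc j
    set S := ∑ i ∈ Finset.range (j + 2), s i
    have h2 : S ^ 2 ≤ ((j + 2 : ℕ) : ℝ) * B := by
      have := sq_sum_le_card_mul_sum_sq (s := Finset.range (j + 2)) (f := s)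
      rw [Finset.card_range] at this
      exact this.trans (mul_le_mul_of_nonneg_left (hB _) (by positivity))
    have h3 : (1 : ℝ) ≤ ((j + 2 : ℕ) : ℝ) := by exact_mod_cast (by omega : 1 ≤ j + 2)
    have h4 : (A + S) ^ 2 ≤ ((j + 2 : ℕ) : ℝ) * (2 * A ^ 2 + 2 * B) := by
      nlinarith [sq_nonneg (A - S), sq_nonneg A]
    have h5 : ε ^ 2 ≤ (s (j + 1) * (A + S)) ^ 2 := pow_le_pow_left₀ hε.le h1 2
    rw [mul_pow] at h5
    have h6 := mul_le_mul_of_nonneg_left h4 (sq_nonneg (s (j + 1)))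
    rw [← mul_div_assoc, div_le_div_iff₀ (by positivity) (by positivity)]
    nlinarith
  exact Real.not_summable_one_div_natCast ((summable_nat_add_iff 2).1 this)

variable {E : Type} [NormedAddCommGroup E] [NormedSpace ℝ E]

lemma exJ (x : E) : ∃ J : E →L[ℝ] ℝ, ∀ h, ‖x‖ ^ 2 + 2 * J h ≤ ‖x + h‖ ^ 2 := by
  obtain ⟨f, hf, hx⟩ := exists_dual_vector'' ℝ x
  refine ⟨‖x‖ • f, fun h => ?_⟩
  have h1 : |f (x + h)| ≤ ‖x + h‖ := by
    have := f.le_opNorm (x + h)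
    rw [Real.norm_eq_abs] at this
    nlinarith [norm_nonneg (x + h)]
  have h2 := sq_le_sq' (neg_le_of_abs_le h1) (le_of_abs_le h1)
  rw [map_add, hx] at h2
  simp only [_root_.smul_apply, smul_eq_mul, RCLike.ofReal_real_eq_id, id] at h2 ⊢
  nlinarith [sq_nonneg (f h)]

theorem conv [CompleteSpace E] (C c : ℝ) (hc : 0 < c) (hC : 0 < C)
    (hS : ∀ x h : E, ‖x + h‖ ^ 2 + ‖x - h‖ ^ 2 ≤ 2 * ‖x‖ ^ 2 + 2 * C * ‖h‖ ^ 2)
    (hU : ∀ x h : E, 2 * ‖x‖ ^ 2 + 2 * c * ‖h‖ ^ 2 ≤ ‖x + h‖ ^ 2 + ‖x - h‖ ^ 2)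
    (G₁ G₂ : Submodule ℝ E) (r : ℕ → E)
    (h₁ : ∀ k : ℕ, r (2 * k) - r (2 * k + 1) ∈ G₁ ∧
            ‖r (2 * k + 1)‖ = Metric.infDist (r (2 * k)) (G₁ : Set E))
    (h₂ : ∀ k : ℕ, r (2 * k + 1) - r (2 * k + 2) ∈ G₂ ∧
            ‖r (2 * k + 2)‖ = Metric.infDist (r (2 * k + 1)) (G₂ : Set E)) :
    ∃ y : E, Filter.Tendsto r Filter.atTop (nhds y) ∧
          r 0 - y ∈ (G₁ ⊔ G₂).topologicalClosure ∧
          ‖y‖ = Metric.infDist (r 0) ((G₁ ⊔ G₂).topologicalClosure : Set E) := by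
  choose J hJ using exJ (E := E)
  have up : ∀ x h, ‖x + h‖ ^ 2 ≤ ‖x‖ ^ 2 + 2 * J x h + 2 * C * ‖h‖ ^ 2 := by
    intro x h
    have a1 := hS x h
    have a2 := hJ x (-h)
    rw [map_neg, ← sub_eq_add_neg] at a2
    linarith
  have lo : ∀ x h, ‖x‖ ^ 2 + 2 * J x h + c / 2 * ‖h‖ ^ 2 ≤ ‖x + h‖ ^ 2 := by
    intro x h
    have a1 := hU (x + (1 / 2 : ℝ) • h) ((1 / 2 : ℝ) • h)
    have a2 := hJ x ((1 / 2 : ℝ) • h)
    have e1 : x + (1 / 2 : ℝ) • h + (1 / 2 : ℝ) • h = x + h := by module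
    rw [e1, add_sub_cancel_right, norm_smul] at a1
    rw [map_smul, smul_eq_mul] at a2
    norm_num at a1
    nlinarith
  have lip : ∀ x y g, J y g - J x g ≤ 4 * C * ‖y - x‖ * ‖g‖ := by
    intro x y g
    rcases eq_or_ne g 0 with rfl | hg
    · simp
    rcases eq_or_ne (y - x) 0 with h0 | h0
    · rw [sub_eq_zero.1 h0]; simp
    have hg' := norm_pos_iff.2 hg
    have hs' := norm_pos_iff.2 h0
    set t := ‖y - x‖ / ‖g‖ with ht
    have htp : 0 < t := by positivity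
    have a1 := hJ y (t • g)
    have a2 := up x (y - x + t • g)
    have a3 := hJ x (y - x)
    have e1 : x + (y - x + t • g) = y + t • g := by abel
    have e2 : x + (y - x) = y := by abel
    rw [e1, map_add, map_smul, smul_eq_mul] at a2
    rw [e2] at a3
    rw [map_smul, smul_eq_mul] at a1
    have a4 : ‖y - x + t • g‖ ≤ 2 * ‖y - x‖ := by
      refine (norm_add_le _ _).trans ?_
      rw [norm_smul, Real.norm_of_nonneg htp.le, ht, div_mul_cancel₀ _ hg'.ne']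
      linarith
    have a5 := pow_le_pow_left₀ (norm_nonneg _) a4 2
    have a6 : t * (J y g - J x g) ≤ 4 * C * ‖y - x‖ ^ 2 := by nlinarith
    have a7 : 4 * C * ‖y - x‖ ^ 2 = t * (4 * C * ‖y - x‖ * ‖g‖) := by rw [ht]; field_simp
    rw [a7] at a6
    exact le_of_mul_le_mul_left a6 htp
  have orth : ∀ (G : Submodule ℝ E) (x x' : E), x - x' ∈ G → ‖x'‖ = Metric.infDist x (G : Set E) →
      ∀ g ∈ G, J x' g = 0 := by
    intro G x x' hx hn g hg
    have key : ∀ t : ℝ, 0 ≤ t * J x' g + C * (t ^ 2 * ‖g‖ ^ 2) := by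
      intro t
      have a1 := up x' (t • g)
      have a2 : ‖x'‖ ≤ ‖x' + t • g‖ := by
        rw [hn]
        have := Metric.infDist_le_dist_of_mem (x := x) (G.sub_mem hx (G.smul_mem t hg))
        have e : x - (x - x' - t • g) = x' + t • g := by abel
        rwa [dist_eq_norm, e] at this
      have a3 := pow_le_pow_left₀ (norm_nonneg _) a2 2
      rw [map_smul, smul_eq_mul, norm_smul, mul_pow, Real.norm_eq_abs, sq_abs] at a1
      linarith
    have hp : 0 < C * ‖g‖ ^ 2 + 1 := by positivity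
    have := key (-(J x' g) / (C * ‖g‖ ^ 2 + 1))
    have e : -(J x' g) / (C * ‖g‖ ^ 2 + 1) * J x' g +
        C * ((-(J x' g) / (C * ‖g‖ ^ 2 + 1)) ^ 2 * ‖g‖ ^ 2) =
        -((J x' g) ^ 2 / (C * ‖g‖ ^ 2 + 1) ^ 2) := by field_simp; ring
    rw [e, neg_nonneg, div_nonpos_iff] at this
    rcases this with ⟨-, h⟩ | ⟨h, -⟩
    · exact absurd h (not_le.2 (by positivity))
    · exact pow_eq_zero_iff (two_ne_zero) |>.1 (le_antisymm h (sq_nonneg _))
  have par : ∀ k, (r k - r (k + 1) ∈ G₁ ∧ ∀ g ∈ G₁, J (r (k + 1)) g = 0) ∧ Even k ∨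
      (r k - r (k + 1) ∈ G₂ ∧ ∀ g ∈ G₂, J (r (k + 1)) g = 0) ∧ Odd k := by
    intro k
    rcases Nat.even_or_odd' k with ⟨j, rfl | rfl⟩
    · exact Or.inl ⟨⟨(h₁ j).1, orth G₁ _ _ (h₁ j).1 (h₁ j).2⟩, by simp⟩
    · exact Or.inr ⟨⟨(h₂ j).1, orth G₂ _ _ (h₂ j).1 (h₂ j).2⟩, by simp⟩
  set s : ℕ → ℝ := fun k => ‖r k - r (k + 1)‖ with hs
  have step : ∀ k, ‖r (k + 1)‖ ^ 2 + c / 2 * s k ^ 2 ≤ ‖r k‖ ^ 2 := by
    intro k
    have a1 := lo (r (k + 1)) (r k - r (k + 1))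
    have a2 : J (r (k + 1)) (r k - r (k + 1)) = 0 := by
      rcases par k with ⟨⟨p, q⟩, -⟩ | ⟨⟨p, q⟩, -⟩ <;> exact q _ p
    rw [a2, add_sub_cancel] at a1
    simpa using a1
  have hB : ∀ n, ∑ j ∈ Finset.range n, s j ^ 2 ≤ 2 / c * ‖r 0‖ ^ 2 := by
    have : ∀ n, ‖r n‖ ^ 2 + c / 2 * ∑ j ∈ Finset.range n, s j ^ 2 ≤ ‖r 0‖ ^ 2 := by
      intro n
      induction n with
      | zero => simp
      | succ n ih => rw [Finset.sum_range_succ]; have := step n; linarith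
    intro n
    have a := this n
    rw [div_mul_eq_mul_div, le_div_iff₀ hc]
    nlinarith [sq_nonneg ‖r n‖]
  have anti : Antitone fun k => ‖r k‖ ^ 2 := antitone_nat_of_succ_le fun k => by
    have := step k
    have : 0 ≤ c / 2 * s k ^ 2 := by positivity
    linarith
  have small : ∀ k g, g ∈ G₁ ∨ g ∈ G₂ → |J (r (k + 2)) g| ≤ 4 * C * s (k + 1) * ‖g‖ := by
    intro k g hg
    have z : J (r (k + 1)) g = 0 ∨ J (r (k + 2)) g = 0 := by
      rcases par k with ⟨⟨-, q⟩, e⟩ | ⟨⟨-, q⟩, e⟩ <;>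
      rcases par (k + 1) with ⟨⟨-, q'⟩, e'⟩ | ⟨⟨-, q'⟩, e'⟩
      · exact absurd e' (by simpa [Nat.even_add_one] using e)
      · exact hg.elim (fun h => Or.inl (q g h)) (fun h => Or.inr (q' g h))
      · exact hg.elim (fun h => Or.inr (q' g h)) (fun h => Or.inl (q g h))
      · exact absurd e' (by simpa [Nat.odd_add_one] using e)
    rcases z with z | z
    · have a1 := lip (r (k + 1)) (r (k + 2)) g
      have a2 := lip (r (k + 2)) (r (k + 1)) g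
      rw [norm_sub_rev] at a1
      rw [z] at a1 a2
      rw [abs_le]
      constructor
      · have : s (k + 1) = ‖r (k + 1) - r (k + 2)‖ := rfl
        rw [this]; linarith
      · have : s (k + 1) = ‖r (k + 1) - r (k + 2)‖ := rfl
        rw [this]; linarith
    · rw [z, abs_zero]; positivity
  have tele : ∀ n, r 0 - r n = ∑ j ∈ Finset.range n, (r j - r (j + 1)) :=
    fun n => (Finset.sum_range_sub' r n).symm
  have dmem : ∀ j, r j - r (j + 1) ∈ G₁ ∨ r j - r (j + 1) ∈ G₂ := fun j =>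
    (par j).elim (fun h => Or.inl h.1.1) (fun h => Or.inr h.1.1)
  set G := (G₁ ⊔ G₂).topologicalClosure
  set m := Metric.infDist (r 0) (G : Set E) with hm
  have hm0 : 0 ≤ m := Metric.infDist_nonneg
  have inG : ∀ n, r 0 - r n ∈ G := by
    intro n
    rw [tele]
    refine Submodule.le_topologicalClosure _ (Submodule.sum_mem _ fun j _ => ?_)
    exact (dmem j).elim (fun h => Submodule.mem_sup_left h) (fun h => Submodule.mem_sup_right h)
  have lowG : ∀ y, r 0 - y ∈ G → m ≤ ‖y‖ := by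
    intro y hy
    have := Metric.infDist_le_dist_of_mem (x := r 0) hy
    rwa [dist_eq_norm, sub_sub_cancel] at this
  have lim : ∀ ε > 0, ∃ K, ∀ k ≥ K, ‖r k‖ ^ 2 ≤ m ^ 2 + ε := by
    intro ε hε
    obtain ⟨η, hη, hηε⟩ : ∃ η > 0, (m + η) ^ 2 ≤ m ^ 2 + ε / 2 := by
      refine ⟨min 1 (ε / (2 * (2 * m + 1))), by positivity, ?_⟩
      have a1 := min_le_left 1 (ε / (2 * (2 * m + 1)))
      have a2 := min_le_right 1 (ε / (2 * (2 * m + 1)))
      have a3 : 0 < min 1 (ε / (2 * (2 * m + 1))) := by positivity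
      rw [le_div_iff₀ (by positivity)] at a2
      nlinarith
    have hm' : m = Metric.infDist (r 0) ((G₁ ⊔ G₂ : Submodule ℝ E) : Set E) := by
      rw [hm]; exact Metric.infDist_closure
    obtain ⟨g, hg, hgd⟩ := (Metric.infDist_lt_iff (x := r 0) (r := m + η)
      (s := ((G₁ ⊔ G₂ : Submodule ℝ E) : Set E)) ⟨0, Submodule.zero_mem _⟩).1 (by linarith)
    obtain ⟨g1, hg1, g2, hg2, rfl⟩ := Submodule.mem_sup.1 hg
    obtain ⟨k, hk⟩ := dykstra s _ (‖g1‖ + ‖g2‖) (ε / (16 * C)) (by positivity) hB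
    refine ⟨k + 2, fun l hl => (anti hl).trans ?_⟩
    have a1 := hJ (r (k + 2)) (r 0 - r (k + 2) - (g1 + g2))
    have e : r (k + 2) + (r 0 - r (k + 2) - (g1 + g2)) = r 0 - (g1 + g2) := by abel
    rw [e, map_sub, map_add, tele, map_sum] at a1
    have a2 := pow_le_pow_left₀ (norm_nonneg _) (dist_eq_norm (r 0) _ ▸ hgd.le) 2
    have a3 := abs_le.1 (small k g1 (Or.inl hg1))
    have a4 := abs_le.1 (small k g2 (Or.inr hg2))
    have a5 : -(4 * C * s (k + 1) * ∑ j ∈ Finset.range (k + 2), s j) ≤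
        ∑ j ∈ Finset.range (k + 2), J (r (k + 2)) (r j - r (j + 1)) := by
      rw [Finset.mul_sum, ← Finset.sum_neg_distrib]
      exact Finset.sum_le_sum fun j _ => (abs_le.1 (small k _ (dmem j))).1
    rw [lt_div_iff₀ (by positivity)] at hk
    show ‖r (k + 2)‖ ^ 2 ≤ _
    nlinarith
  have cau : CauchySeq r := by
    rw [Metric.cauchySeq_iff]
    intro ε hε
    obtain ⟨K, hK⟩ := lim (c * ε ^ 2 / 8) (by positivity)
    refine ⟨K, fun k hk l hl => ?_⟩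
    have a1 := hU ((1 / 2 : ℝ) • (r k + r l)) ((1 / 2 : ℝ) • (r k - r l))
    have e1 : (1 / 2 : ℝ) • (r k + r l) + (1 / 2 : ℝ) • (r k - r l) = r k := by module
    have e2 : (1 / 2 : ℝ) • (r k + r l) - (1 / 2 : ℝ) • (r k - r l) = r l := by module
    rw [e1, e2, norm_smul (1 / 2 : ℝ) (r k - r l)] at a1
    have a2 := lowG ((1 / 2 : ℝ) • (r k + r l)) (by
      have : r 0 - (1 / 2 : ℝ) • (r k + r l) = (1 / 2 : ℝ) • ((r 0 - r k) + (r 0 - r l)) := by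
        module
      rw [this]
      exact G.smul_mem _ (G.add_mem (inG k) (inG l)))
    have a3 := pow_le_pow_left₀ hm0 a2 2
    have a4 := hK k hk
    have a5 := hK l hl
    norm_num at a1 a3
    rw [dist_eq_norm]
    by_contra hn
    push Not at hn
    have a6 := pow_le_pow_left₀ hε.le hn 2
    have a7 : 0 < c * ε ^ 2 := by positivity
    nlinarith
  obtain ⟨y, hy⟩ := cauchySeq_tendsto_of_complete cau
  have hyG : r 0 - y ∈ G :=
    (Submodule.isClosed_topologicalClosure _).mem_of_tendsto (tendsto_const_nhds.sub hy)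
      (Eventually.of_forall inG)
  refine ⟨y, hy, hyG, le_antisymm ?_ (lowG y hyG)⟩
  refine (pow_le_pow_iff_left₀ (norm_nonneg _) hm0 two_ne_zero).1 ?_
  refine le_of_forall_pos_le_add fun ε hε => ?_
  obtain ⟨K, hK⟩ := lim ε hε
  exact le_of_tendsto (hy.norm.pow 2) (eventually_atTop.2 ⟨K, hK⟩)

abbrev H : Type := lp (fun _ : ℕ => ℝ) 2

instance : Fact ((1 : ENNReal) ≤ 4) := ⟨by norm_num⟩

abbrev F : Type := PiLp 4 (fun _ : Fin 2 => ℝ)

noncomputable def P : H →ₗ[ℝ] F where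
  toFun x := WithLp.toLp 4 ![x 0, x 1]
  map_add' x y := by ext i; fin_cases i <;> simp
  map_smul' a x := by ext i; fin_cases i <;> simp

lemma q4 (x : H) : ‖P x‖ ^ 4 = x 0 ^ 4 + x 1 ^ 4 := by
  have h4 : (0 : ℝ) < (4 : ENNReal).toReal := by norm_num
  rw [PiLp.norm_eq_sum h4]
  have e : (4 : ENNReal).toReal = ((4 : ℕ) : ℝ) := by norm_num
  rw [e, one_div, Real.rpow_inv_natCast_pow (by positivity) (by norm_num)]
  simp only [Real.rpow_natCast, Fin.sum_univ_two, P, LinearMap.coe_mk, AddHom.coe_mk,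
    Real.norm_eq_abs]
  simp [Even.pow_abs (by decide : Even 4)]

lemma coords (x : H) : x 0 ^ 2 + x 1 ^ 2 ≤ ‖x‖ ^ 2 := by
  have h := lp.sum_rpow_le_norm_rpow (p := 2) (by norm_num) x {0, 1}
  simpa using h

lemma q_le (x : H) : ‖P x‖ ^ 2 ≤ ‖x‖ ^ 2 := by
  refine le_trans ?_ (coords x)
  refine (pow_le_pow_iff_left₀ (by positivity) (by positivity) two_ne_zero).1 ?_
  rw [← pow_mul, q4]
  nlinarith [sq_nonneg (x 0 * x 1)]

lemma q_smooth (x h : H) :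
    ‖P (x + h)‖ ^ 2 + ‖P (x - h)‖ ^ 2 ≤ 2 * ‖P x‖ ^ 2 + 6 * ‖P h‖ ^ 2 := by
  have a1 := q4 (x + h)
  have a2 := q4 (x - h)
  have a3 := q4 x
  have a4 := q4 h
  simp only [lp.coeFn_add, lp.coeFn_sub, Pi.add_apply, Pi.sub_apply] at a1 a2
  set A := ‖P (x + h)‖ ^ 2 with hA
  set B := ‖P (x - h)‖ ^ 2 with hB
  set X := ‖P x‖ ^ 2 with hX
  set Y := ‖P h‖ ^ 2 with hY
  have b1 : A ^ 2 = (x 0 + h 0) ^ 4 + (x 1 + h 1) ^ 4 := by rw [hA, ← pow_mul, a1]
  have b2 : B ^ 2 = (x 0 - h 0) ^ 4 + (x 1 - h 1) ^ 4 := by rw [hB, ← pow_mul, a2]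
  have b3 : X ^ 2 = x 0 ^ 4 + x 1 ^ 4 := by rw [hX, ← pow_mul, a3]
  have b4 : Y ^ 2 = h 0 ^ 4 + h 1 ^ 4 := by rw [hY, ← pow_mul, a4]
  have X0 : 0 ≤ X := by positivity
  have Y0 : 0 ≤ Y := by positivity
  have cs : x 0 ^ 2 * h 0 ^ 2 + x 1 ^ 2 * h 1 ^ 2 ≤ X * Y := by
    refine (pow_le_pow_iff_left₀ (by positivity) (by positivity) two_ne_zero).1 ?_
    rw [mul_pow, b3, b4]
    nlinarith [sq_nonneg (x 0 ^ 2 * h 1 ^ 2 - x 1 ^ 2 * h 0 ^ 2)]
  refine (pow_le_pow_iff_left₀ (by positivity) (by positivity) two_ne_zero).1 ?_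
  have c1 : A ^ 2 + B ^ 2 =
      2 * X ^ 2 + 12 * (x 0 ^ 2 * h 0 ^ 2 + x 1 ^ 2 * h 1 ^ 2) + 2 * Y ^ 2 := by
    rw [b1, b2, b3, b4]; ring
  nlinarith [sq_nonneg (A - B), sq_nonneg Y]

noncomputable def Q : H →ₗ[ℝ] WithLp 2 (H × F) :=
  (WithLp.linearEquiv 2 ℝ (H × F)).symm.toLinearMap.comp (LinearMap.prod LinearMap.id P)

lemma Q_sq (x : H) : ‖Q x‖ ^ 2 = ‖x‖ ^ 2 + ‖P x‖ ^ 2 := by
  rw [WithLp.prod_norm_sq_eq_of_L2]; rfl

noncomputable def N : Renorm.EqNorm ℝ H where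
  p := (normSeminorm ℝ (WithLp 2 (H × F))).comp Q
  lower := ⟨1, fun x => by
    show ‖x‖ ≤ 1 * ‖Q x‖
    rw [one_mul]
    refine (pow_le_pow_iff_left₀ (by positivity) (by positivity) two_ne_zero).1 ?_
    rw [Q_sq]; nlinarith [sq_nonneg ‖P x‖]⟩
  upper := ⟨2, fun x => by
    show ‖Q x‖ ≤ 2 * ‖x‖
    refine (pow_le_pow_iff_left₀ (by positivity) (by positivity) two_ne_zero).1 ?_
    rw [Q_sq]; nlinarith [q_le x, sq_nonneg ‖x‖]⟩

lemma N_sq (x : N.Sp) : ‖x‖ ^ 2 = ‖N.eqv x‖ ^ 2 + ‖P (N.eqv x)‖ ^ 2 := Q_sq _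

lemma hS (x h : N.Sp) : ‖x + h‖ ^ 2 + ‖x - h‖ ^ 2 ≤ 2 * ‖x‖ ^ 2 + 2 * 3 * ‖h‖ ^ 2 := by
  simp only [N_sq, map_add N.eqv, map_sub N.eqv]
  have a1 := parallelogram_law_with_norm ℝ (N.eqv x) (N.eqv h)
  have a2 := q_smooth (N.eqv x) (N.eqv h)
  nlinarith [sq_nonneg ‖N.eqv h‖]

lemma hU (x h : N.Sp) : 2 * ‖x‖ ^ 2 + 2 * (1 / 2) * ‖h‖ ^ 2 ≤ ‖x + h‖ ^ 2 + ‖x - h‖ ^ 2 := by
  simp only [N_sq, map_add N.eqv, map_sub N.eqv]
  have a1 := parallelogram_law_with_norm ℝ (N.eqv x) (N.eqv h)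
  have a2 := q_le (N.eqv h)
  have a3 : 2 * ‖P (N.eqv x)‖ ≤ ‖P (N.eqv x + N.eqv h)‖ + ‖P (N.eqv x - N.eqv h)‖ := by
    have := norm_add_le (P (N.eqv x + N.eqv h)) (P (N.eqv x - N.eqv h))
    have e : P (N.eqv x + N.eqv h) + P (N.eqv x - N.eqv h) = (2 : ℝ) • P (N.eqv x) := by
      rw [map_add, map_sub]; module
    rwa [e, norm_smul, Real.norm_two] at this
  have a4 := pow_le_pow_left₀ (by positivity) a3 2
  nlinarith [sq_nonneg (‖P (N.eqv x + N.eqv h)‖ - ‖P (N.eqv x - N.eqv h)‖)]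

lemma refl : Function.Surjective (NormedSpace.inclusionInDoubleDual ℝ N.Sp) := by
  intro φ
  let e : N.Sp →L[ℝ] H := N.eqv
  let T : H →L[ℝ] (N.Sp →L[ℝ] ℝ) :=
    ((ContinuousLinearMap.compL ℝ N.Sp H ℝ).flip e).comp (innerSL ℝ)
  let x0 := (InnerProductSpace.toDual ℝ H).symm (φ.comp T)
  refine ⟨N.eqv.symm x0, ?_⟩
  ext f
  let y := (InnerProductSpace.toDual ℝ H).symm (f.comp (N.eqv.symm : H →L[ℝ] N.Sp))
  have h1 : T y = f := by
    ext x
    show inner ℝ y (N.eqv x) = f x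
    rw [InnerProductSpace.toDual_symm_apply]
    simp
  have h2 : inner ℝ x0 y = φ (T y) := InnerProductSpace.toDual_symm_apply
  have h3 : inner ℝ y x0 = f (N.eqv.symm x0) := InnerProductSpace.toDual_symm_apply
  rw [NormedSpace.dual_def, ← h3, real_inner_comm, h2, h1]

lemma infdim : ¬ FiniteDimensional ℝ N.Sp := by
  intro h
  have : FiniteDimensional ℝ H := N.eqv.toLinearEquiv.finiteDimensional
  have ho : Orthonormal ℝ (fun n : ℕ => (lp.single 2 n (1 : ℝ) : H)) := by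
    rw [orthonormal_iff_ite]
    intro i j
    rw [lp.inner_single_left]
    simp [lp.single_apply, Pi.single_apply]
  exact Module.Finite.not_linearIndependent_of_infinite _ ho.linearIndependent

lemma strict (x y : N.Sp) (hx : ‖x‖ = 1) (hy : ‖y‖ = 1) (hxy : x ≠ y) : ‖x + y‖ < 2 := by
  have a1 := hU (x + y) (x - y)
  have e1 : x + y + (x - y) = (2 : ℝ) • x := by module
  have e2 : x + y - (x - y) = (2 : ℝ) • y := by module
  rw [e1, e2, norm_smul, norm_smul, hx, hy, Real.norm_two] at a1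
  have a2 : 0 < ‖x - y‖ := norm_pos_iff.2 (sub_ne_zero.2 hxy)
  nlinarith [norm_nonneg (x + y)]

lemma notpar : ¬ ∀ x y : N.Sp, ‖x + y‖ ^ 2 + ‖x - y‖ ^ 2 = 2 * (‖x‖ ^ 2 + ‖y‖ ^ 2) := by
  intro h
  let a : H := lp.single 2 0 (1 : ℝ)
  let b : H := lp.single 2 1 (1 : ℝ)
  have := h (N.eqv.symm a) (N.eqv.symm b)
  simp only [N_sq, map_add N.eqv, map_sub N.eqv, ContinuousLinearEquiv.apply_symm_apply] at this
  have a1 := parallelogram_law_with_norm ℝ a b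
  have b1 := q4 (a + b)
  have b2 := q4 (a - b)
  have b3 := q4 a
  have b4 := q4 b
  simp only [lp.coeFn_add, lp.coeFn_sub, Pi.add_apply, Pi.sub_apply, a, b, lp.single_apply,
    Pi.single_apply] at b1 b2 b3 b4
  norm_num at b1 b2 b3 b4
  simp only [map_add, map_sub] at this
  set A := ‖P a + P b‖
  set B := ‖P a - P b‖
  set X := ‖P a‖
  set Y := ‖P b‖
  have c1 : X ^ 2 = 1 := by nlinarith [sq_nonneg X]
  have c2 : Y ^ 2 = 1 := by nlinarith [sq_nonneg Y]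
  have c3 : A ^ 2 < 2 := by nlinarith [sq_nonneg A]
  have c4 : B ^ 2 < 2 := by nlinarith [sq_nonneg B]
  nlinarith

end Pool.Agent.H91.Altern
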