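import Mathlib

set_option autoImplicit false

namespace H91.Apep
open Filter Topology Set Metric

/-- slice of the closed unit ball -/
def slice {X : Type} [NormedAddCommGroup X] [NormedSpace ℝ X] (f : X →L[ℝ] ℝ) (α : ℝ) : Set X :=
  {x | ‖x‖ ≤ 1 ∧ sSup (f '' closedBall 0 1) - α < f x}

/-- `0` is an almost preserved extreme point of the closed unit ball -/
def Apep0 (X : Type) [NormedAddCommGroup X] [NormedSpace ℝ X] : Prop :=
  ∀ U : Set (WeakSpace ℝ X), IsOpen U → toWeakSpace ℝ X 0 ∈ U →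
    ∃ (f : X →L[ℝ] ℝ) (α : ℝ), 0 < α ∧ (slice f α).Nonempty ∧
      ∀ x ∈ slice f α, toWeakSpace ℝ X x ∈ U

lemma ind (X : Type) [NormedAddCommGroup X] [NormedSpace ℝ X] :
    IsInducing (fun (x : WeakSpace ℝ X) (φ : X →L[ℝ] ℝ) => φ ((toWeakSpace ℝ X).symm x)) := ⟨rfl⟩

lemma bdd {X : Type} [NormedAddCommGroup X] [NormedSpace ℝ X] (f : X →L[ℝ] ℝ) :
    BddAbove (f '' closedBall 0 1) :=
  ⟨‖f‖, by
    rintro _ ⟨x, hx, rfl⟩
    rw [mem_closedBall_zero_iff] at hx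
    have := (Real.le_norm_self _).trans (f.le_opNorm x)
    nlinarith [norm_nonneg f]⟩

abbrev E (n : ℕ) := EuclideanSpace ℝ (Fin (n + 1))

lemma not_apep (n : ℕ) : ¬ Apep0 (E n) := by
  intro h
  have hc : Continuous fun u : WeakSpace ℝ (E n) => ∑ i, ((toWeakSpace ℝ (E n)).symm u i) ^ 2 := by
    refine continuous_finsetSum _ fun i _ => Continuous.pow ?_ 2
    exact WeakBilin.eval_continuous (topDualPairing ℝ (E n)).flip (EuclideanSpace.proj i)
  obtain ⟨f, α, -, ⟨x, hx1, hx2⟩, hU⟩ := h {u | ∑ i, ((toWeakSpace ℝ (E n)).symm u i) ^ 2 < 1}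
    (isOpen_lt hc continuous_const) (by simp)
  have key : ∀ y : E n, ‖y‖ = 1 → f x ≤ f y → False := by
    intro y hy hfy
    have := hU y ⟨hy.le, hx2.trans_le hfy⟩
    simp only [mem_ofPred_eq, LinearEquiv.symm_apply_apply] at this
    rw [← EuclideanSpace.real_norm_sq_eq, hy] at this
    simp at this
  by_cases hx0 : x = 0
  · obtain ⟨y, hy⟩ := exists_norm_eq (E n) zero_le_one
    rcases le_total 0 (f y) with h | h
    · exact key y hy (by simpa [hx0] using h)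
    · exact key (-y) (by simpa using hy) (by simpa [hx0] using h)
  · have hp : 0 < ‖x‖ := norm_pos_iff.2 hx0
    have h1 : 1 ≤ ‖x‖⁻¹ := (one_le_inv₀ hp).2 hx1
    have hy : ‖‖x‖⁻¹ • x‖ = 1 := by rw [norm_smul, norm_inv, norm_norm]; field_simp
    rcases le_total 0 (f x) with h | h
    · exact key _ hy (by rw [map_smul, smul_eq_mul]; nlinarith)
    · exact key (-(‖x‖⁻¹ • x)) (by rw [norm_neg, hy]) (by rw [map_neg, map_smul, smul_eq_mul]; nlinarith)

lemma apep : Apep0 (lp E 1) := by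
  intro U hU h0
  have h1 := hU.mem_nhds h0
  rw [(ind _).nhds_eq_comap, mem_comap] at h1
  obtain ⟨T, hT, hTU⟩ := h1
  rw [nhds_pi, Filter.mem_pi] at hT
  obtain ⟨I, hI, t, ht, htT⟩ := hT
  have := hI.fintype
  set n := Fintype.card I with hn
  let J := lp.singleContinuousLinearMap ℝ E 1 n
  let L : E n →ₗ[ℝ] (I → ℝ) := LinearMap.pi fun i => (i.1 ∘L J).toLinearMap
  obtain ⟨v, hv, hv0⟩ := Submodule.exists_mem_ne_zero_of_ne_bot
    (LinearMap.ker_ne_bot_of_finrank_lt (f := L) (by simp [hn]))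
  have hp : 0 < ‖v‖ := norm_pos_iff.2 hv0
  set u := ‖v‖⁻¹ • v with hu
  have hu1 : ‖u‖ = 1 := by rw [hu, norm_smul, norm_inv, norm_norm]; field_simp
  have huU : toWeakSpace ℝ _ (J u) ∈ U := by
    refine hTU (htT fun φ hφ => ?_)
    have h2 : φ (J v) = 0 := congrFun (LinearMap.mem_ker.1 hv) ⟨φ, hφ⟩
    have h3 : φ (J u) = 0 := by rw [hu, map_smul, map_smul, h2, smul_zero]
    have h4 := mem_of_mem_nhds (ht φ)
    simpa [h3] using h4
  have hcont : Continuous (toWeakSpace ℝ (lp E 1)) := (toWeakSpaceCLM ℝ (lp E 1)).continuous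
  obtain ⟨ε, hε, hball⟩ := Metric.isOpen_iff.1 (hU.preimage hcont) (J u) huU
  let f : lp E 1 →L[ℝ] ℝ := innerSL ℝ u ∘L lp.evalCLM ℝ E 1 n
  have hf : ∀ x, f x = inner ℝ u (x n) := fun x => rfl
  have hJ : ‖J u‖ = 1 := by rw [← hu1]; exact lp.norm_single (by norm_num) n u
  have hfJ : f (J u) = 1 := by
    rw [hf]
    have : (J u) n = u := lp.single_apply_self 1 n u
    rw [this, real_inner_self_eq_norm_sq, hu1]; norm_num
  have hs : sSup (f '' closedBall 0 1) = 1 := by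
    apply le_antisymm
    · refine csSup_le ⟨_, 0, by simp, rfl⟩ ?_
      rintro _ ⟨x, hx, rfl⟩
      rw [mem_closedBall_zero_iff] at hx
      have h2 := real_inner_le_norm u (x n)
      have h3 := lp.norm_apply_le_norm (p := 1) one_ne_zero x n
      rw [hf]; rw [hu1] at h2; linarith
    · exact le_csSup (bdd f) ⟨J u, by simp [hJ], hfJ⟩
  obtain ⟨δ, hδ, hδ1, hδ2⟩ : ∃ δ : ℝ, 0 < δ ∧ δ ≤ 1 ∧ 3 * δ ≤ ε :=
    ⟨min 1 (ε / 3), by positivity, min_le_left _ _, by linarith [min_le_right 1 (ε / 3)]⟩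
  refine ⟨f, δ ^ 2 / 2, by positivity, ⟨J u, hJ.le, by rw [hs, hfJ]; nlinarith⟩, ?_⟩
  rintro x ⟨hx1, hx2⟩
  refine hball (show x ∈ ball (J u) ε from ?_)
  rw [hs, hf] at hx2
  have h2 := real_inner_le_norm u (x n)
  rw [hu1, one_mul] at h2
  have h3 := lp.norm_apply_le_norm (p := 1) one_ne_zero x n
  have h4 := lp.norm_sub_norm_compl_sub_single (p := 1) (by simp) x {n}
  simp only [ENNReal.toReal_one, Real.rpow_one, Finset.sum_singleton] at h4
  have h5 : ‖x n - u‖ ≤ δ := by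
    refine (abs_le_of_sq_le_sq' ?_ hδ.le).2
    rw [norm_sub_sq_real, hu1, real_inner_comm]
    nlinarith [norm_nonneg (x n)]
  have h6 : ‖J (x n) - J u‖ = ‖x n - u‖ := by
    rw [← map_sub]; exact lp.norm_single (by norm_num) n _
  rw [mem_ball, dist_eq_norm]
  have h7 := norm_sub_le_norm_sub_add_norm_sub x (J (x n)) (J u)
  have h8 : ‖x - J (x n)‖ = ‖x - lp.single 1 n (x n)‖ := rfl
  nlinarith

theorem main : ∃ (E : ℕ → Type) (_ : ∀ n, NormedAddCommGroup (E n)) (_ : ∀ n, NormedSpace ℝ (E n)),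
    (∀ n, CompleteSpace (E n)) ∧ Apep0 (lp E 1) ∧ ∀ n, ¬ Apep0 (E n) :=
  ⟨E, inferInstance, inferInstance, inferInstance, apep, not_apep⟩

end H91.Apep
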