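import Mathlib

set_option autoImplicit false

namespace H91.ApproxExp
open Filter Topology Set MeasureTheory

noncomputable def w : ℕ → ℝ
  | 0 => 1 / 4
  | k + 1 => w k / (8 * ((k : ℝ) + 2))

lemma w_pos (k : ℕ) : 0 < w k := by
  induction k with
  | zero => norm_num [w]
  | succ k ih => rw [w]; positivity

lemma w_step (k : ℕ) : (2 * ((k + 1 : ℕ) : ℝ) + 1) * w (k + 1) ≤ w k / 4 := by
  have := w_pos k
  rw [w, ← mul_div_assoc, div_le_div_iff₀ (by positivity) (by positivity)]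
  push_cast; nlinarith

lemma w_half (k : ℕ) : w (k + 1) ≤ w k / 2 := by
  have h := w_step k
  have h1 := w_pos (k + 1)
  have h2 : (0:ℝ) ≤ ((k + 1 : ℕ) : ℝ) := Nat.cast_nonneg _
  nlinarith [w_pos k]

lemma w_geom (k j : ℕ) : w (j + k) ≤ w k * (1 / 2) ^ j := by
  induction j with
  | zero => simp
  | succ j ih =>
    rw [show j + 1 + k = j + k + 1 by ring, pow_succ]
    linarith [w_half (j + k)]

lemma w_anti : Antitone w := antitone_nat_of_succ_le fun k => by linarith [w_half k, w_pos k]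

lemma w_lim : Tendsto w atTop (𝓝 0) := by
  refine squeeze_zero (fun k => (w_pos k).le) (fun k => w_geom 0 k) ?_
  simpa using (tendsto_pow_atTop_nhds_zero_of_lt_one (r := (1 / 2 : ℝ)) (by norm_num)
    (by norm_num)).const_mul (w 0)

noncomputable def M (k : ℕ) : ℝ := 4 * ((k : ℝ) + 1) / w (k + 1)
lemma M_pos (k : ℕ) : 0 < M k := by have := w_pos (k + 1); unfold M; positivity

noncomputable def a (k : ℕ) (y : ℝ) : ℤ := ⌊((k : ℝ) + 1) * Int.fract (M k * y)⌋
noncomputable def c (k : ℕ) (y : ℝ) : ℤ :=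
  2 * a k y + if y < (Denumerable.ofNat ℚ k : ℝ) then 1 else 0

lemma c_bd (k : ℕ) (y : ℝ) : 0 ≤ c k y ∧ c k y ≤ 2 * k + 1 := by
  have h1 : 0 ≤ a k y := Int.floor_nonneg.2 (mul_nonneg (by positivity) (Int.fract_nonneg _))
  have h2 : a k y < k + 1 := Int.floor_lt.2 (by
    have := Int.fract_lt_one (M k * y)
    push_cast
    nlinarith [(Nat.cast_nonneg k : (0:ℝ) ≤ k)])
  unfold c; split_ifs <;> omega

lemma tail_le (d : ℕ → ℤ) (hd : ∀ k, |d k| ≤ 2 * k + 1) (k j : ℕ) :
    ‖(d (j + (k + 1)) : ℝ) * w (j + (k + 1))‖ ≤ w k / 2 / 2 / 2 ^ j * 1 := by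
  have h1 : |(d (j + (k + 1)) : ℝ)| ≤ 2 * ((j + k + 1 : ℕ) : ℝ) + 1 := by
    have := hd (j + (k + 1))
    exact_mod_cast this
  have h2 := w_step (j + k)
  have h3 := w_geom k j
  rw [norm_mul, Real.norm_eq_abs, Real.norm_eq_abs, abs_of_pos (w_pos _)]
  calc _ ≤ (2 * ((j + k + 1 : ℕ) : ℝ) + 1) * w (j + k + 1) :=
        mul_le_mul_of_nonneg_right h1 (w_pos _).le
    _ ≤ w k * (1 / 2) ^ j / 4 := by linarith
    _ = _ := by rw [one_div, inv_pow]; ring

lemma summ (d : ℕ → ℤ) (hd : ∀ k, |d k| ≤ 2 * k + 1) : Summable fun k => (d k : ℝ) * w k :=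
  (summable_nat_add_iff 1).1 (Summable.of_norm_bounded
    ((summable_geometric_two' (w 0 / 2)).mul_right 1) (tail_le d hd 0))

lemma tail (d : ℕ → ℤ) (hd : ∀ k, |d k| ≤ 2 * k + 1) (k : ℕ) :
    |∑' j, (d j : ℝ) * w j - ∑ j ∈ Finset.range (k + 1), (d j : ℝ) * w j| ≤ w k / 2 := by
  rw [← (summ d hd).sum_add_tsum_nat_add (k + 1), add_sub_cancel_left]
  simpa using tsum_of_norm_bounded ((hasSum_geometric_two' (w k / 2)).mul_right 1) (tail_le d hd k)

lemma c_abs (y : ℝ) (k : ℕ) : |c k y| ≤ 2 * k + 1 := by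
  have := c_bd k y; rw [abs_le]; omega

noncomputable def φ (y : ℝ) : ℝ := 1 / 4 + ∑' k, (c k y : ℝ) * w k

lemma sep {x y : ℝ} {k : ℕ} (h : c k x ≠ c k y) : w k / 2 ≤ |φ x - φ y| := by
  classical
  have hex : ∃ k, c k x ≠ c k y := ⟨k, h⟩
  set k0 := Nat.find hex with hk0
  have h1 : c k0 x ≠ c k0 y := Nat.find_spec hex
  have h2 : k0 ≤ k := Nat.find_min' hex h
  have hd : ∀ j, |c j x - c j y| ≤ 2 * j + 1 := fun j => by
    have := c_bd j x; have := c_bd j y; rw [abs_le]; omega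
  have h3 := tail _ hd k0
  rw [Finset.sum_range_succ, Finset.sum_eq_zero fun j hj => by
    rw [not_not.1 (Nat.find_min hex (Finset.mem_range.1 hj))]; simp, zero_add] at h3
  have h4 : φ x - φ y = ∑' j, ((c j x - c j y : ℤ) : ℝ) * w j := by
    unfold φ
    rw [add_sub_add_left_eq_sub, ← (summ _ (c_abs x)).tsum_sub (summ _ (c_abs y))]
    congr 1; funext j; push_cast; ring
  have h5 : (1:ℝ) ≤ |((c k0 x - c k0 y : ℤ) : ℝ)| := by
    exact_mod_cast Int.one_le_abs (sub_ne_zero.2 h1)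
  have h6 := abs_sub_abs_le_abs_sub (((c k0 x - c k0 y : ℤ) : ℝ) * w k0) (φ x - φ y)
  rw [abs_sub_comm (_ * _), h4, abs_mul, abs_of_pos (w_pos _)] at h6
  rw [h4]
  nlinarith [w_pos k0, w_anti h2]

lemma meas : Measurable φ := by
  have h1 : ∀ k, Measurable fun y => (c k y : ℝ) := fun k => by
    refine (measurable_of_countable (fun n : ℤ => (n : ℝ))).comp ?_
    refine Measurable.add (Measurable.const_mul ?_ 2) ?_
    · exact Int.measurable_floor.comp ((measurable_fract.comp (by fun_prop)).const_mul _)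
    · exact Measurable.ite measurableSet_Iio measurable_const measurable_const
  refine Measurable.const_add (measurable_of_tendsto_metrizable
    (f := fun n y => ∑ k ∈ Finset.range n, (c k y : ℝ) * w k) (fun n => ?_) ?_) _
  · exact Finset.measurable_sum _ fun k _ => (h1 k).mul_const _
  · exact tendsto_pi_nhds.2 fun y => (summ _ (c_abs y)).hasSum.tendsto_sum_nat

lemma vol (k : ℕ) (x r : ℝ) (hr : 0 < r) (a0 : ℤ) :
    (volume {h ∈ Ioo 0 r | a k (x + h) = a0}).toReal ≤ (r + 2 / M k) / (k + 1) := by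
  have hM := M_pos k
  have hk : (0:ℝ) < k + 1 := by positivity
  refine ENNReal.toReal_le_of_le_ofReal (by positivity) ?_
  have hsub : {h ∈ Ioo 0 r | a k (x + h) = a0} ⊆ ⋃ j ∈ Finset.Icc ⌊M k * x⌋ ⌊M k * (x + r)⌋,
      Icc ((j + a0 / (k + 1)) / M k - x) ((j + (a0 + 1) / (k + 1)) / M k - x) := by
    rintro h ⟨⟨h0, h1⟩, h2⟩
    simp only [mem_iUnion, Finset.mem_Icc]
    refine ⟨⌊M k * (x + h)⌋, ⟨Int.floor_le_floor (by nlinarith), Int.floor_le_floor (by nlinarith)⟩,
      ?_, ?_⟩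
    · have h3 := Int.floor_le (((k : ℝ) + 1) * Int.fract (M k * (x + h)))
      rw [show ⌊((k : ℝ) + 1) * Int.fract (M k * (x + h))⌋ = a0 from h2, mul_comm,
        ← div_le_iff₀ hk, Int.fract] at h3
      rw [sub_le_iff_le_add, div_le_iff₀ hM]; linarith
    · have h3 := (Int.lt_floor_add_one (((k : ℝ) + 1) * Int.fract (M k * (x + h)))).le
      rw [show ⌊((k : ℝ) + 1) * Int.fract (M k * (x + h))⌋ = a0 from h2, mul_comm,
        ← le_div_iff₀ hk, Int.fract] at h3
      rw [le_sub_iff_add_le, le_div_iff₀ hM]; linarith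
  refine (measure_mono hsub).trans ((measure_biUnion_finset_le _ _).trans ?_)
  have e : ∀ j : ℤ, volume (Icc ((j + a0 / (k + 1)) / M k - x) ((j + (a0 + 1) / (k + 1)) / M k - x))
      = ENNReal.ofReal (1 / (M k * (k + 1))) := fun j => by
    rw [Real.volume_Icc]; congr 1; field_simp; ring
  simp only [e, Finset.sum_const, nsmul_eq_mul, Int.card_Icc]
  rw [← ENNReal.ofReal_natCast, ← ENNReal.ofReal_mul (Nat.cast_nonneg _)]
  refine ENNReal.ofReal_le_ofReal ?_
  have h1 : ⌊M k * x⌋ ≤ ⌊M k * (x + r)⌋ := Int.floor_le_floor (by nlinarith)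
  have h2 : (((⌊M k * (x + r)⌋ + 1 - ⌊M k * x⌋).toNat : ℤ) : ℝ) ≤ M k * r + 2 := by
    rw [Int.toNat_of_nonneg (by omega)]
    push_cast
    linarith [Int.floor_le (M k * (x + r)), Int.lt_floor_add_one (M k * x)]
  rw [Int.cast_natCast] at h2
  calc _ ≤ (M k * r + 2) * (1 / (M k * (k + 1))) := by gcongr
    _ = _ := by field_simp

theorem main : ∃ φ : ℝ → ℝ, Measurable φ ∧ Function.Injective φ ∧ (∀ x, φ x ∈ Ioo (0:ℝ) 1) ∧
    ∀ x t : ℝ, Tendsto (fun r => (volume {h ∈ Ioo 0 r | |(φ (x + h) - φ x) / h| < t}).toReal / r)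
      (𝓝[>] 0) (𝓝 0) := by
  refine ⟨φ, meas, ?_, fun x => ?_, fun x t => ?_⟩
  · have key : ∀ x y : ℝ, x < y → φ x ≠ φ y := by
      intro x y hxy h
      obtain ⟨q, h1, h2⟩ := exists_rat_btwn hxy
      obtain ⟨n, hn⟩ : ∃ n, Denumerable.ofNat ℚ n = q := ⟨_, Denumerable.ofNat_encode q⟩
      have h3 : c n x ≠ c n y := by
        unfold c
        rw [hn, if_pos h1, if_neg h2.le.not_gt]
        omega
      have := sep h3
      rw [h, sub_self, abs_zero] at this
      linarith [w_pos n]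
    intro x y h
    rcases lt_trichotomy x y with h1 | h1 | h1
    exacts [absurd h (key _ _ h1), h1, absurd h.symm (key _ _ h1)]
  · have h1 := tail _ (c_abs x) 0
    obtain ⟨h2, h3⟩ := c_bd 0 x
    have h4 : (0:ℝ) ≤ c 0 x := by exact_mod_cast h2
    have h5 : (c 0 x : ℝ) ≤ 1 := by exact_mod_cast h3
    simp only [zero_add, Finset.sum_range_one, w, abs_le] at h1
    constructor <;> unfold φ <;> linarith [h1.1, h1.2]
  · rw [Metric.tendsto_nhds]
    intro ε hε
    set T := max t 1 with hT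
    have hT1 : 1 ≤ T := le_max_right _ _
    obtain ⟨K, hK⟩ := exists_nat_gt (max T (2 / ε))
    have hK1 : T < K := (le_max_left _ _).trans_lt hK
    have hK2 : 2 / ε < K := (le_max_right _ _).trans_lt hK
    have hp : 0 < w K / (2 * T) := by have := w_pos K; positivity
    filter_upwards [Ioo_mem_nhdsGT hp] with r hr
    have hr0 := hr.1
    classical
    have hex : ∃ n, w (n + K + 1) ≤ 2 * T * r :=
      (((w_lim.comp (tendsto_add_atTop_nat 1)).comp (tendsto_add_atTop_nat K)).eventually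
        (ge_mem_nhds (by positivity))).exists
    set k := Nat.find hex + K with hk
    have h1 : w (k + 1) ≤ 2 * T * r := Nat.find_spec hex
    have h2 : 2 * T * r < w k := by
      rcases h : Nat.find hex with _ | n
      · have := hr.2
        rw [lt_div_iff₀ (by positivity)] at this
        rw [hk, h, zero_add]; linarith
      · have := Nat.find_min hex (show n < Nat.find hex by omega)
        rw [hk, h, show n + 1 + K = n + K + 1 by ring]; exact not_le.1 this
    have hkK : (K : ℝ) ≤ k := by rw [hk]; push_cast; linarith [(Nat.cast_nonneg (Nat.find hex) : (0:ℝ) ≤ _)]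
    have h3 : {h ∈ Ioo 0 r | |(φ (x + h) - φ x) / h| < t} ⊆ {h ∈ Ioo 0 r | a k (x + h) = a k x} := by
      rintro h ⟨hh, h4⟩
      refine ⟨hh, by_contra fun hne => ?_⟩
      have h5 : c k (x + h) ≠ c k x := by unfold c; split_ifs <;> omega
      have h6 := sep h5
      rw [abs_div, abs_of_pos hh.1, div_lt_iff₀ hh.1] at h4
      have h7 : t * h ≤ T * r := mul_le_mul (le_max_left _ _) hh.2.le hh.1.le (by linarith)
      linarith
    have h4 := (ENNReal.toReal_mono (((measure_mono (sep_subset _ _)).trans_lt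
      measure_Ioo_lt_top).ne) (measure_mono h3)).trans (vol k x r hr0 (a k x))
    have h5 : 2 / M k ≤ r := by
      have := w_pos (k + 1)
      rw [M, div_div_eq_mul_div, div_le_iff₀ (by positivity)]
      nlinarith
    rw [Real.dist_eq, sub_zero, abs_of_nonneg (by positivity), div_lt_iff₀ hr0]
    refine h4.trans_lt ?_
    rw [div_lt_iff₀ hε] at hK2
    rw [div_lt_iff₀ (by positivity)]
    nlinarith [mul_le_mul_of_nonneg_right hkK (mul_pos hε hr0).le]

end H91.ApproxExp
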