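import Mathlib

set_option autoImplicit false

namespace Pool.Agent.H91.Wind

open Set Complex

/-- a loop on `[0, 2π]` with a closed continuous logarithm -/
def Null (γ : ℝ → ℂ) : Prop :=
  ∃ l : ℝ → ℂ, Continuous l ∧ (∀ t, Complex.exp (l t) = γ t) ∧ l (2 * Real.pi) = l 0

theorem int_const {X : Type*} [TopologicalSpace X] [PreconnectedSpace X] (d : X → ℂ)
    (hd : Continuous d) (h : ∀ x, Complex.exp (d x) = 1) (x y : X) : d x = d y := by
  have hc : (range d).Countable := by
    have : range d ⊆ range (fun n : ℤ => (n : ℂ) * (2 * Real.pi * I)) := by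
      rintro _ ⟨x, rfl⟩
      obtain ⟨n, hn⟩ := Complex.exp_eq_one_iff.1 (h x)
      exact ⟨n, hn.symm⟩
    exact (countable_range _).mono this
  exact hc.isTotallyDisconnected _ Subset.rfl (isPreconnected_range hd) ⟨x, rfl⟩ ⟨y, rfl⟩

theorem homotopy (H : ℝ × ℝ → ℂ) (hH : Continuous H) (h0 : ∀ p, H p ≠ 0)
    (hp : ∀ s, H (s, 2 * Real.pi) = H (s, 0)) (hn : Null (fun t => H (0, t))) :
    Null (fun t => H (1, t)) := by
  obtain ⟨L, ⟨-, hL⟩, -⟩ := Complex.isCoveringMapOn_exp.existsUnique_continuousMap_lifts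
    (⟨H, hH⟩ : C(ℝ × ℝ, ℂ)) (a₀ := (0, 0)) (e₀ := Complex.log (H (0, 0)))
    (Complex.exp_log (h0 _)) (fun a => h0 a)
  have hL' : ∀ p, Complex.exp (L p) = H p := fun p => congrFun hL p
  obtain ⟨l, hl, hle, hl0⟩ := hn
  have h1 := int_const (fun s : ℝ => L (s, 2 * Real.pi) - L (s, 0)) (by fun_prop)
    (fun s => by rw [Complex.exp_sub, hL', hL', hp, div_self (h0 _)]) 1 0
  have h2 := int_const (fun t : ℝ => L (0, t) - l t) (by fun_prop)
    (fun t => by rw [Complex.exp_sub, hL', hle, div_self (h0 _)]) (2 * Real.pi) 0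
  refine ⟨fun t => L (1, t), by fun_prop, fun t => hL' _, ?_⟩
  simp only at h1 h2 ⊢
  linear_combination h1 + h2 + hl0

theorem odd_not (γ : ℝ → ℂ) (h : ∀ t, γ (t + Real.pi) = - γ t) : ¬ Null γ := by
  rintro ⟨l, hl, hle, hl0⟩
  have hne : ∀ t, γ t ≠ 0 := fun t => by rw [← hle]; exact Complex.exp_ne_zero _
  have h1 := int_const (fun t : ℝ => l (t + Real.pi) - l t - Real.pi * I) (by fun_prop)
    (fun t => by
      rw [Complex.exp_sub, Complex.exp_sub, hle, hle, h, Complex.exp_pi_mul_I, neg_div,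
        div_self (hne t)]; norm_num) Real.pi 0
  simp only [zero_add] at h1
  have e : Real.pi + Real.pi = 2 * Real.pi := by ring
  rw [e, hl0] at h1
  have h2 : l Real.pi = l 0 := by linear_combination (-1 / 2 : ℂ) * h1
  have h3 := h 0
  rw [zero_add, ← hle, h2, hle] at h3
  exact hne 0 (by linear_combination (1 / 2 : ℂ) * h3)

/-- a continuous plane map with a continuous left inverse is onto -/
theorem surj (R K : ℝ × ℝ → ℝ × ℝ) (hR : Continuous R) (hK : Continuous K)
    (hKR : ∀ p, K (R p) = p) : Function.Surjective R := by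
  intro w
  by_contra hw
  push Not at hw
  let e : ℝ × ℝ → ℂ := fun p => (p.1 : ℂ) + (p.2 : ℂ) * I
  have he : Continuous e := by fun_prop
  have hei : ∀ p q, e p - e q = 0 → p = q := by
    intro p q h
    have h1 := congrArg Complex.re h
    have h2 := congrArg Complex.im h
    simp [e] at h1 h2
    exact Prod.ext (by linarith) (by linarith)
  have hinj : Function.Injective R := fun p q h => by rw [← hKR p, h, hKR]
  let cl : ℝ → ℝ := fun s => max 0 (min s 1)
  have hcl : Continuous cl := by fun_prop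
  have cl0 : cl 0 = 0 := by simp [cl]
  have cl1 : cl 1 = 1 := by simp [cl]
  have clm : ∀ s, cl s ∈ Icc (0 : ℝ) 1 := fun s =>
    ⟨le_max_left _ _, max_le zero_le_one (min_le_right _ _)⟩
  let sg : ℝ → ℝ × ℝ := fun s => w + s • (R 0 - w)
  have hsg : Continuous sg := by fun_prop
  obtain ⟨ρ, hρ⟩ := ((isCompact_Icc (a := (0 : ℝ)) (b := 1)).image (hK.comp hsg)).isBounded.exists_norm_le
  have hρ0 : 0 ≤ ρ := (norm_nonneg _).trans (hρ _ ⟨0, by simp, rfl⟩)
  let r : ℝ := 2 * ρ + 1
  let c : ℝ → ℝ × ℝ := fun t => (r * Real.cos t, r * Real.sin t)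
  have hc : Continuous c := by fun_prop
  have hc2 : c (2 * Real.pi) = c 0 := by simp [c]
  have hcn : ∀ t, ρ < ‖c t‖ := by
    intro t
    by_contra hh
    push Not at hh
    have a1 : |r * Real.cos t| ≤ ρ := (norm_fst_le (c t)).trans hh
    have a2 : |r * Real.sin t| ≤ ρ := (norm_snd_le (c t)).trans hh
    have b1 := sq_le_sq' (abs_le.1 a1).1 (abs_le.1 a1).2
    have b2 := sq_le_sq' (abs_le.1 a2).1 (abs_le.1 a2).2
    have := Real.cos_sq_add_sin_sq t
    have h3 : r ^ 2 ≤ 2 * ρ ^ 2 := by nlinarith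
    simp only [r] at h3
    nlinarith
  have n0 : Null (fun t => e (R ((0 : ℝ) • c t)) - e w) := by
    have : e (R 0) - e w ≠ 0 := fun h => hw _ (hei _ _ h)
    refine ⟨fun _ => Complex.log (e (R 0) - e w), continuous_const, fun t => ?_, rfl⟩
    simp only [zero_smul]
    exact Complex.exp_log this
  have n1 := homotopy (fun p => e (R (p.1 • c p.2)) - e w) (by fun_prop)
    (fun p h => hw _ (hei _ _ h)) (fun s => by simp only [hc2]) n0
  have n2 := homotopy (fun p => e (R (c p.2)) - e (sg (cl p.1))) (by fun_prop)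
    (fun p h => by
      have h1 := hei _ _ h
      have h2 := hρ _ ⟨cl p.1, clm _, rfl⟩
      simp only [Function.comp] at h2
      rw [← h1, hKR] at h2
      exact absurd (hcn p.2) (not_lt.2 h2))
    (fun s => by simp only [hc2]) (by simpa [cl0, sg] using n1)
  have n3 := homotopy (fun p => e (R (c p.2)) - e (R (-(cl p.1) • c p.2))) (by fun_prop)
    (fun p h => by
      have h1 := hinj (hei _ _ h)
      have h2 : (1 + cl p.1) • c p.2 = 0 := by
        rw [add_smul, one_smul]
        nth_rewrite 1 [h1]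
        simp
      rcases smul_eq_zero.1 h2 with h3 | h3
      · linarith [(clm p.1).1]
      · have := hcn p.2
        rw [h3, norm_zero] at this
        linarith)
    (fun s => by simp only [hc2]) (by simpa [cl0, cl1, sg] using n2)
  refine odd_not _ (fun t => ?_) n3
  have : c (t + Real.pi) = - c t := by simp [c]
  simp [cl1, this]

end Pool.Agent.H91.Wind
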