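import Mathlib
import Pool.Agent.H91.Wind

set_option autoImplicit false

namespace Pool.Agent.H91.Assoc

open Set Filter Topology

theorem const_of_ext (L : ℝ → ℝ) (hL : Continuous L) (K : Set ℝ) (hK : IsPreconnected K)
    (h : ∀ y ∈ K, IsLocalExtr L y) : (L '' K).Subsingleton := by
  have hc : (L '' K).Countable := by
    have : L '' K ⊆ range (fun q : ℚ × ℚ => sSup (L '' Ioo (q.1 : ℝ) q.2)) ∪
        range (fun q : ℚ × ℚ => sInf (L '' Ioo (q.1 : ℝ) q.2)) := by
      rintro _ ⟨y, hy, rfl⟩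
      have key : ∀ s ∈ 𝓝 y, ∃ q : ℚ × ℚ, y ∈ Ioo (q.1 : ℝ) q.2 ∧ Ioo (q.1 : ℝ) q.2 ⊆ s := by
        intro s hs
        obtain ⟨a, b, hab, hsub⟩ := mem_nhds_iff_exists_Ioo_subset.1 hs
        obtain ⟨p, hp1, hp2⟩ := exists_rat_btwn hab.1
        obtain ⟨q, hq1, hq2⟩ := exists_rat_btwn hab.2
        exact ⟨(p, q), ⟨hp2, hq1⟩, (Ioo_subset_Ioo hp1.le hq2.le).trans hsub⟩
      rcases h y hy with h1 | h1
      · obtain ⟨q, hq, hs⟩ := key _ h1
        right
        refine ⟨q, IsLeast.csInf_eq ⟨⟨y, hq, rfl⟩, ?_⟩⟩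
        rintro _ ⟨z, hz, rfl⟩
        exact hs hz
      · obtain ⟨q, hq, hs⟩ := key _ h1
        left
        refine ⟨q, IsGreatest.csSup_eq ⟨⟨y, hq, rfl⟩, ?_⟩⟩
        rintro _ ⟨z, hz, rfl⟩
        exact hs hz
    exact ((countable_range _).union (countable_range _)).mono this
  exact hc.isTotallyDisconnected _ Subset.rfl (hK.image _ hL.continuousOn)

theorem open_at (L : ℝ → ℝ) (hL : Continuous L) (p : ℝ) (h : ¬ IsLocalExtr L p) :
    𝓝 (L p) ≤ map L (𝓝 p) := by
  intro s hs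
  rw [mem_map] at hs
  obtain ⟨a, b, hab, hsub⟩ := mem_nhds_iff_exists_Ioo_subset.1 hs
  have h1 : ∃ u ∈ Ioo a b, L p < L u := by
    by_contra hh
    push Not at hh
    exact h (Or.inr (mem_of_superset (Ioo_mem_nhds hab.1 hab.2) hh))
  have h2 : ∃ v ∈ Ioo a b, L v < L p := by
    by_contra hh
    push Not at hh
    exact h (Or.inl (mem_of_superset (Ioo_mem_nhds hab.1 hab.2) hh))
  obtain ⟨u, hu, hu'⟩ := h1
  obtain ⟨v, hv, hv'⟩ := h2
  have := (isPreconnected_Ioo.image L hL.continuousOn).Icc_subset ⟨v, hv, rfl⟩ ⟨u, hu, rfl⟩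
  refine mem_of_superset (Icc_mem_nhds hv' hu') (this.trans ?_)
  rintro _ ⟨z, hz, rfl⟩
  exact hsub hz

theorem same_side (φ : ℝ → ℝ) (hφ : Continuous φ) (c : ℝ) (h : ∀ t, φ t ≠ c) (s t : ℝ) :
    φ s < c ↔ φ t < c := by
  have key : ∀ s t, φ s < c → φ t < c := by
    intro s t hs
    by_contra ht
    push Not at ht
    obtain ⟨z, hz⟩ := intermediate_value_univ s t hφ ⟨hs.le, ht⟩
    exact h z hz
  exact ⟨key s t, key t s⟩

section core

variable (F : (ℝ × ℝ) ≃ₜ (ℝ × ℝ))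

theorem const_row (x0 c : ℝ) (h : ∀ y, (F (x0, y)).1 = c) (p : ℝ × ℝ) (hp : (F p).1 = c) :
    p.1 = x0 := by
  let φ : ℝ → ℝ := fun y => (F (x0, y)).2
  have hφ : Continuous φ := by fun_prop
  have hi : Function.Injective φ := by
    intro y z hyz
    have : F (x0, y) = F (x0, z) := Prod.ext (by rw [h, h]) hyz
    exact congrArg Prod.snd (F.injective this)
  have hcl : IsClosed (range φ) := by
    have : range φ = {t | (F.symm (c, t)).1 = x0} := by
      ext t
      constructor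
      · rintro ⟨y, rfl⟩
        have : (c, φ y) = F (x0, y) := Prod.ext (h y).symm rfl
        simp [this]
      · intro ht
        refine ⟨(F.symm (c, t)).2, ?_⟩
        have : (x0, (F.symm (c, t)).2) = F.symm (c, t) := Prod.ext ht.symm rfl
        simp only [φ, this, Homeomorph.apply_symm_apply]
    rw [this]
    exact isClosed_eq (by fun_prop) continuous_const
  have hop : IsOpen (range φ) := by
    rw [isOpen_iff_mem_nhds]
    rintro _ ⟨y, rfl⟩
    rcases hφ.strictMono_of_inj hi with hm | hm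
    · exact mem_of_superset (Icc_mem_nhds (hm (show y - 1 < y by linarith))
        (hm (show y < y + 1 by linarith))) (intermediate_value_univ _ _ hφ)
    · exact mem_of_superset (Icc_mem_nhds (hm (show y < y + 1 by linarith))
        (hm (show y - 1 < y by linarith))) (intermediate_value_univ _ _ hφ)
  have hu : range φ = univ := IsClopen.eq_univ ⟨hcl, hop⟩ (range_nonempty _)
  obtain ⟨y, hy⟩ : (F p).2 ∈ range φ := hu ▸ mem_univ _
  have : F (x0, y) = F p := Prod.ext (by rw [h, hp]) hy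
  rw [← F.injective this]

variable (hA : ∀ a b c : ℝ, (F ((F (a, b)).1, c)).1 = (F (a, (F (b, c)).1)).1)
include hA

theorem row_self (k c : ℝ) (h : ∀ y, (F (k, y)).1 = c) : c = k := by
  have h1 : (F (c, 0)).1 = c := by
    conv_lhs => rw [← h 0, hA, h]
  exact const_row F k c h (c, 0) h1

theorem proj (x0 c : ℝ) (h : ∀ y, (F (x0, y)).1 = c) (s y : ℝ) : (F (s, y)).1 = s := by
  have h1 : ∀ y, (F ((F (s, x0)).1, y)).1 = (F (s, c)).1 := fun y => by rw [hA, h]
  have h2 := row_self F hA _ _ h1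
  rw [h2] at h1
  have h3 : s = (F (s, x0)).1 := const_row F _ _ h1 (s, x0) rfl
  rw [← h3] at h1
  exact h1 y

theorem ext_back (a p q : ℝ) (h : IsLocalExtr (fun y => (F (a, y)).1) (F (p, q)).1) :
    IsLocalExtr (fun y => (F (a, y)).1) p := by
  by_contra hn
  set L : ℝ → ℝ := fun y => (F (a, y)).1 with hLd
  have hL : Continuous L := by fun_prop
  have h1 := open_at L hL p hn
  have h2 : 𝓝 (L p, q) ≤ map (Prod.map L id) (𝓝 (p, q)) := by
    rw [nhds_prod_eq, nhds_prod_eq, ← prod_map_map_eq']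
    exact prod_mono h1 (by simp)
  have ho : IsOpenMap (fun z : ℝ × ℝ => (F z).1) := isOpenMap_fst.comp F.isOpenMap
  have h3 := (ho.nhds_le (L p, q)).trans (map_mono h2)
  rw [map_map] at h3
  have e : ((fun z : ℝ × ℝ => (F z).1) ∘ Prod.map L id) = L ∘ fun z : ℝ × ℝ => (F z).1 := by
    funext z
    exact hA a z.1 z.2
  have hf : Continuous fun z : ℝ × ℝ => (F z).1 := by fun_prop
  rw [e, ← map_map] at h3
  have h4 := h3.trans (map_mono (hf.tendsto (p, q)))
  have e2 : (F (L p, q)).1 = L (F (p, q)).1 := hA a p q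
  simp only [e2] at h4
  rcases h with h | h
  · have : ∀ᶠ t in 𝓝 (L (F (p, q)).1), L (F (p, q)).1 ≤ t := h4 (mem_map.2 h)
    obtain ⟨t, ht1, ht2⟩ := ((frequently_lt_nhds _).and_eventually this).exists
    linarith
  · have : ∀ᶠ t in 𝓝 (L (F (p, q)).1), t ≤ L (F (p, q)).1 := h4 (mem_map.2 h)
    obtain ⟨t, ht1, ht2⟩ := ((frequently_gt_nhds _).and_eventually this).exists
    linarith

theorem key (a y1 y2 y3 : ℝ) (h12 : y1 < y2) (h23 : y2 < y3)
    (n1 : (F (a, y1)).1 ≠ (F (a, y2)).1) (n3 : (F (a, y3)).1 ≠ (F (a, y2)).1)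
    (hext : ∀ y ∈ Ioo y1 y3, (F (a, y)).1 = (F (a, y2)).1 →
      IsLocalExtr (fun y => (F (a, y)).1) y) : False := by
  set L : ℝ → ℝ := fun y => (F (a, y)).1 with hLd
  have hL : Continuous L := by fun_prop
  set f : ℝ × ℝ → ℝ := fun z => (F z).1 with hfd
  have hf : Continuous f := by fun_prop
  have hLf : ∀ p q, L (f (p, q)) = f (L p, q) := fun p q => (hA a p q).symm
  let J := connectedComponentIn (L ⁻¹' {L y2}) y2
  have hJ2 : y2 ∈ J := mem_connectedComponentIn rfl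
  have hJc : IsPreconnected J := isPreconnected_connectedComponentIn
  have hJs : ∀ y ∈ J, L y = L y2 := fun y hy =>
    connectedComponentIn_subset (L ⁻¹' {L y2}) y2 hy
  have hJ1 : y1 ∉ J := fun h => n1 (hJs _ h)
  have hJ3 : y3 ∉ J := fun h => n3 (hJs _ h)
  have hJo : J ⊆ Ioo y1 y3 := by
    intro y hy
    constructor
    · by_contra hh
      push Not at hh
      exact hJ1 (hJc.Icc_subset hy hJ2 ⟨hh, h12.le⟩)
    · by_contra hh
      push Not at hh
      exact hJ3 (hJc.Icc_subset hJ2 hy ⟨h23.le, hh⟩)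
  have hW : IsPreconnected (f ⁻¹' J) := by
    have : f ⁻¹' J = F.symm '' (J ×ˢ univ) := by
      ext z
      constructor
      · intro hz
        exact ⟨F z, ⟨hz, trivial⟩, by simp⟩
      · rintro ⟨w, hw, rfl⟩
        simpa [f] using hw.1
    rw [this]
    exact (hJc.prod isPreconnected_univ).image _ F.symm.continuous.continuousOn
  have hsurj : ∀ y, ∃ z, f z = y := fun y => ⟨F.symm (y, 0), by simp [f]⟩
  have hP : IsPreconnected (Prod.fst '' (f ⁻¹' J)) := hW.image _ continuous_fst.continuousOn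
  have hPc := const_of_ext L hL _ hP (by
    rintro _ ⟨⟨p, q⟩, hz, rfl⟩
    exact ext_back F hA a p q (hext _ (hJo hz) (hJs _ hz)))
  have hprod : ∀ p ∈ Prod.fst '' (f ⁻¹' J), ∀ q ∈ Prod.snd '' (f ⁻¹' J), f (p, q) ∈ J := by
    rintro p hp _ ⟨⟨p', q⟩, hz, rfl⟩
    have hp' : p' ∈ Prod.fst '' (f ⁻¹' J) := ⟨_, hz, rfl⟩
    have h1 : IsPreconnected ((fun p => f (p, q)) '' (Prod.fst '' (f ⁻¹' J))) :=
      hP.image _ (by fun_prop : Continuous fun p => f (p, q)).continuousOn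
    have h2 : (fun p => f (p, q)) '' (Prod.fst '' (f ⁻¹' J)) ⊆ L ⁻¹' {L y2} := by
      rintro _ ⟨u, hu, rfl⟩
      have : L u = L p' := hPc ⟨u, hu, rfl⟩ ⟨p', hp', rfl⟩
      show L (f (u, q)) = L y2
      rw [hLf, this, ← hLf]
      exact hJs _ hz
    have h3 := h1.subset_connectedComponentIn ⟨p', hp', rfl⟩ h2
    have h4 : J = connectedComponentIn (L ⁻¹' {L y2}) (f (p', q)) := connectedComponentIn_eq hz
    rw [h4]
    exact h3 ⟨p, hp, rfl⟩
  by_cases hx : ∀ x, x ∈ Prod.fst '' (f ⁻¹' J)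
  · exact n1 (hPc ⟨y1, hx _, rfl⟩ ⟨y2, hx _, rfl⟩)
  by_cases hq : ∀ q, q ∈ Prod.snd '' (f ⁻¹' J)
  · obtain ⟨⟨p, q⟩, hz⟩ := hsurj y2
    have hp : p ∈ Prod.fst '' (f ⁻¹' J) := ⟨(p, q), by show f (p, q) ∈ J; rw [hz]; exact hJ2, rfl⟩
    have h1 : ∀ y, (F (L p, y)).1 = L y2 := fun y => by
      have := hJs _ (hprod p hp y (hq y))
      rw [hLf] at this
      exact this
    exact n1 ((proj F hA _ _ h1 a y1).trans (proj F hA _ _ h1 a y2).symm)
  push Not at hx hq
  obtain ⟨x', hx'⟩ := hx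
  obtain ⟨q', hq'⟩ := hq
  have hrow : ∀ x, x ∉ Prod.fst '' (f ⁻¹' J) → ∀ t, f (x, t) ≠ y2 := fun x hx t h =>
    hx ⟨(x, t), by show f (x, t) ∈ J; rw [h]; exact hJ2, rfl⟩
  have hcol : ∀ q, q ∉ Prod.snd '' (f ⁻¹' J) → ∀ t, f (t, q) ≠ y2 := fun q hq t h =>
    hq ⟨(t, q), by show f (t, q) ∈ J; rw [h]; exact hJ2, rfl⟩
  have hside : ∀ z : ℝ × ℝ, f z ∉ J → (f z < y2 ↔ f (x', q') < y2) := by
    rintro ⟨x, q⟩ hz
    by_cases h1 : x ∈ Prod.fst '' (f ⁻¹' J)
    · have h2 : q ∉ Prod.snd '' (f ⁻¹' J) := fun h2 => hz (hprod x h1 q h2)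
      exact (same_side (fun t => f (t, q)) (by fun_prop) y2 (hcol q h2) x x').trans
        (same_side (fun t => f (x', t)) (by fun_prop) y2 (hrow x' hx') q q')
    · exact (same_side (fun t => f (x, t)) (by fun_prop) y2 (hrow x h1) q q').trans
        (same_side (fun t => f (t, q')) (by fun_prop) y2 (hcol q' hq') x x')
  obtain ⟨z1, hz1⟩ := hsurj y1
  obtain ⟨z3, hz3⟩ := hsurj y3
  have a1 := (hside z1 (hz1 ▸ hJ1)).1 (hz1 ▸ h12)
  have a3 := (hside z3 (hz3 ▸ hJ3)).2 a1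
  rw [hz3] at a3
  linarith

theorem mono_or (a : ℝ) :
    Monotone (fun y => (F (a, y)).1) ∨ Antitone (fun y => (F (a, y)).1) := by
  by_contra hn
  rw [not_or] at hn
  set L : ℝ → ℝ := fun y => (F (a, y)).1 with hLd
  have hL : Continuous L := by fun_prop
  obtain ⟨y1, y, y3, h1, h3, h⟩ := not_monotone_not_antitone_iff_exists_lt_lt.1 hn
  have hne : (Icc y1 y3).Nonempty := ⟨y, h1.le, h3.le⟩
  rcases h with h | h
  · obtain ⟨y2, hy2, hm⟩ := isCompact_Icc.exists_isMaxOn hne hL.continuousOn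
    have b := hm (show y ∈ Icc y1 y3 from ⟨h1.le, h3.le⟩)
    have b1 : L y1 < L y2 := h.1.trans_le b
    have b3 : L y3 < L y2 := h.2.trans_le b
    refine key F hA a y1 y2 y3 (lt_of_le_of_ne hy2.1 (fun e => by rw [e] at b1; exact lt_irrefl _ b1))
      (lt_of_le_of_ne hy2.2 (fun e => by rw [e] at b3; exact lt_irrefl _ b3)) b1.ne b3.ne ?_
    intro z hz hz2
    refine Or.inr (mem_of_superset (Icc_mem_nhds hz.1 hz.2) fun u hu => ?_)
    have := hm hu
    show L u ≤ L z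
    exact le_of_le_of_eq this hz2.symm
  · obtain ⟨y2, hy2, hm⟩ := isCompact_Icc.exists_isMinOn hne hL.continuousOn
    have b := hm (show y ∈ Icc y1 y3 from ⟨h1.le, h3.le⟩)
    have b1 : L y2 < L y1 := lt_of_le_of_lt b h.1
    have b3 : L y2 < L y3 := lt_of_le_of_lt b h.2
    refine key F hA a y1 y2 y3 (lt_of_le_of_ne hy2.1 (fun e => by rw [e] at b1; exact lt_irrefl _ b1))
      (lt_of_le_of_ne hy2.2 (fun e => by rw [e] at b3; exact lt_irrefl _ b3)) b1.ne' b3.ne' ?_
    intro z hz hz2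
    refine Or.inl (mem_of_superset (Icc_mem_nhds hz.1 hz.2) fun u hu => ?_)
    have := hm hu
    show L z ≤ L u
    exact le_of_eq_of_le hz2 this

theorem mono_row (a : ℝ) : Monotone (fun y => (F (a, y)).1) := by
  by_contra hn
  have hA' : IsClosed {x : ℝ | Monotone (fun y => (F (x, y)).1)} := by
    have : {x : ℝ | Monotone (fun y => (F (x, y)).1)} =
        ⋂ y, ⋂ z, ⋂ (_ : y ≤ z), {x | (F (x, y)).1 ≤ (F (x, z)).1} := by
      ext x
      simp only [mem_ofPred_eq, mem_iInter]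
      rfl
    rw [this]
    exact isClosed_iInter fun y => isClosed_iInter fun z => isClosed_iInter fun _ =>
      isClosed_le (by fun_prop) (by fun_prop)
  have hB' : IsClosed {x : ℝ | Antitone (fun y => (F (x, y)).1)} := by
    have : {x : ℝ | Antitone (fun y => (F (x, y)).1)} =
        ⋂ y, ⋂ z, ⋂ (_ : y ≤ z), {x | (F (x, z)).1 ≤ (F (x, y)).1} := by
      ext x
      simp only [mem_ofPred_eq, mem_iInter]
      rfl
    rw [this]
    exact isClosed_iInter fun y => isClosed_iInter fun z => isClosed_iInter fun _ =>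
      isClosed_le (by fun_prop) (by fun_prop)
  have h0 : Monotone (fun y => (F ((F (0, 0)).1, y)).1) := by
    have e : (fun y => (F ((F (0, 0)).1, y)).1) =
        (fun y => (F (0, y)).1) ∘ (fun y => (F (0, y)).1) := funext fun y => hA 0 0 y
    rw [e]
    rcases mono_or F hA 0 with h | h
    · exact h.comp h
    · exact h.comp h
  obtain ⟨x, -, hx1, hx2⟩ := isPreconnected_closed_iff.1 (isPreconnected_univ (α := ℝ)) _ _ hA' hB'
    (fun x _ => mono_or F hA x) ⟨_, trivial, h0⟩ ⟨a, trivial, (mono_or F hA a).resolve_left hn⟩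
  have hc : ∀ y, (F (x, y)).1 = (F (x, 0)).1 := fun y => by
    rcases le_total y 0 with h | h
    · exact le_antisymm (hx1 h) (hx2 h)
    · exact le_antisymm (hx2 h) (hx1 h)
  refine hn fun y z _ => ?_
  simp only [proj F hA x _ hc, le_refl]

theorem mono_fst : Monotone (fun z => (F z).1) := by
  have h1 := mono_row F hA
  have h2 := mono_row ((Homeomorph.prodComm ℝ ℝ).trans F) (fun a b c => (hA c b a).symm)
  rintro ⟨a, b⟩ ⟨c, d⟩ ⟨hac, hbd⟩
  exact (h1 a hbd).trans (h2 d hac)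

end core

theorem main (L : List (ℝ × ℝ → ℝ × ℝ))
    (hL : ∀ S ∈ L, Continuous S ∧
      (∀ a b c : ℝ, (S ((S (a, b)).1, c)).1 = (S (a, (S (b, c)).1)).1) ∧
      (∀ a b c : ℝ, (S ((S (a, b)).2, c)).2 = (S (a, (S (b, c)).2)).2)) :
    Continuous (L.foldr (fun S R => S ∘ R) id) ∧
    ∀ T : (ℝ × ℝ) ≃ₜ (ℝ × ℝ), (T : ℝ × ℝ → ℝ × ℝ) = L.foldr (fun S R => S ∘ R) id →
      Monotone T := by
  induction L with
  | nil =>
    refine ⟨continuous_id, fun T hT => ?_⟩
    rw [hT]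
    exact monotone_id
  | cons S L ih =>
    obtain ⟨hR, ih⟩ := ih (fun S' h => hL S' (List.mem_cons_of_mem _ h))
    obtain ⟨hS, h1, h2⟩ := hL S List.mem_cons_self
    refine ⟨hS.comp hR, fun T hT => ?_⟩
    set R := L.foldr (fun S R => S ∘ R) id with hRd
    have hT' : ∀ p, T p = S (R p) := fun p => congrFun hT p
    have hK : ∀ p, T.symm (S (R p)) = p := fun p => by rw [← hT']; simp
    have hs := Wind.surj R (fun p => T.symm (S p)) hR (by fun_prop) hK
    let R' : (ℝ × ℝ) ≃ₜ (ℝ × ℝ) :=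
      { toFun := R
        invFun := fun p => T.symm (S p)
        left_inv := hK
        right_inv := fun q => by
          obtain ⟨p, rfl⟩ := hs q
          simp only [hK]
        continuous_toFun := hR
        continuous_invFun := by fun_prop }
    have mR : Monotone R := ih R' rfl
    let S' : (ℝ × ℝ) ≃ₜ (ℝ × ℝ) := R'.symm.trans T
    have hS' : ∀ p, S' p = S p := fun p => T.apply_symm_apply (S p)
    have m1 := mono_fst S' (fun a b c => by simp only [hS']; exact h1 a b c)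
    have m2 := mono_fst (S'.trans (Homeomorph.prodComm ℝ ℝ)) (fun a b c => by
      show (S' ((S' (a, b)).2, c)).2 = (S' (a, (S' (b, c)).2)).2
      simp only [hS']; exact h2 a b c)
    intro p q hpq
    have a1 : (S' (R p)).1 ≤ (S' (R q)).1 := m1 (mR hpq)
    have a2 : (S' (R p)).2 ≤ (S' (R q)).2 := m2 (mR hpq)
    rw [hS', hS'] at a1 a2
    rw [hT', hT']
    exact ⟨a1, a2⟩

end Pool.Agent.H91.Assoc
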