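import Mathlib

set_option autoImplicit false

open MeasureTheory Filter Topology Set
open scoped ENNReal NNReal

namespace H91Atb

section Defs
variable {Ω : Type} {m0 : MeasurableSpace Ω}

/-- Martingale differences; `ℱ k` is the file's `Σ_{k+1}`, `md k` its `df_{k+1}`. -/
noncomputable def md (μ : Measure Ω) (ℱ : Filtration ℕ m0) (f : Ω → ℂ) : ℕ → Ω → ℂ
  | 0 => μ[f | ℱ 0]
  | k + 1 => μ[f | ℱ (k + 1)] - μ[f | ℱ k]

/-- The `H_p` quasi-norm: the `L_p` quasi-norm of the square function. -/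
noncomputable def hp (μ : Measure Ω) (ℱ : Filtration ℕ m0) (p : ℝ) (f : Ω → ℂ) : ℝ≥0∞ :=
  (∫⁻ x, ((∑' k, ‖md μ ℱ f k x‖ₑ ^ 2) ^ (1 / 2 : ℝ)) ^ p ∂μ) ^ (1 / p)

/-- The series `∑ u i` converges to `f` in `L_p`. -/
def LpSum (μ : Measure Ω) (p : ℝ) (u : ℕ → Ω → ℂ) (f : Ω → ℂ) : Prop :=
  Tendsto (fun n => eLpNorm (f - ∑ i ∈ Finset.range n, u i) (ENNReal.ofReal p) μ) atTop (𝓝 0)

/-- A representation of `b` at level `k` by subatoms `a j` with coefficients `lam j`. -/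
def Rep (μ : Measure Ω) (ℱ : Filtration ℕ m0) (p q : ℝ) (b : Ω → ℂ) (k : ℕ) (lam : ℕ → ℂ)
    (a : ℕ → Ω → ℂ) : Prop :=
  μ[b | ℱ k] =ᵐ[μ] 0 ∧ LpSum μ p (fun j => lam j • a j) b ∧
    ∀ j, Measurable (a j) ∧ ∃ kj : ℕ, k ≤ kj ∧ ∃ A : Set Ω, MeasurableSet[ℱ kj] A ∧ μ A ≠ 0 ∧
      Function.support (a j) ⊆ A ∧
      eLpNorm (a j) (ENNReal.ofReal q) μ ≤
        μ A ^ (1 - 1 / p - 1 / (q / (q - 1))) / ((kj - k + 1 : ℕ) : ℝ≥0∞)

/-- `(p,q)`-atomic blocks. -/
def IsBlock (μ : Measure Ω) (ℱ : Filtration ℕ m0) (p q : ℝ) (b : Ω → ℂ) : Prop :=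
  Integrable b μ ∧ (AEStronglyMeasurable[ℱ 0] b μ ∨ ∃ k lam a, Rep μ ℱ p q b k lam a)

open Classical in
/-- The size `|b|^p_{atb,q}` of a block. -/
noncomputable def bsize (μ : Measure Ω) (ℱ : Filtration ℕ m0) (p q : ℝ) (b : Ω → ℂ) : ℝ≥0∞ :=
  if AEStronglyMeasurable[ℱ 0] b μ then eLpNorm b (ENNReal.ofReal p) μ
  else ⨅ (k : ℕ) (lam : ℕ → ℂ) (a : ℕ → Ω → ℂ) (_ : Rep μ ℱ p q b k lam a), ∑' j, ‖lam j‖ₑ

/-- The atomic quasi-norm. -/
noncomputable def atb (μ : Measure Ω) (ℱ : Filtration ℕ m0) (p q : ℝ) (f : Ω → ℂ) : ℝ≥0∞ :=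
  ⨅ (b : ℕ → Ω → ℂ) (_ : (∀ i, IsBlock μ ℱ p q (b i)) ∧ LpSum μ p b f),
    (∑' i, bsize μ ℱ p q (b i) ^ p) ^ (1 / p)

/-- The `Λ_{p,q}` norm of the file (sets of measure zero are left out). -/
noncomputable def lip (μ : Measure Ω) (ℱ : Filtration ℕ m0) (p q : ℝ) (g : Ω → ℂ) : ℝ≥0∞ :=
  ⨆ (k : ℕ) (A : Set Ω) (_ : MeasurableSet[ℱ k] A ∧ μ A ≠ 0), μ A ^ (1 - 1 / p) *
    (((μ A)⁻¹ * ∫⁻ x in A, ‖g x - (μ[g | ℱ k]) x‖ₑ ^ q ∂μ) ^ (1 / q) + eLpNorm (md μ ℱ g k) ∞ μ)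

/-- The same with the sup norm of `dg_k` taken over `A` only (a smaller quantity). -/
noncomputable def lipLoc (μ : Measure Ω) (ℱ : Filtration ℕ m0) (p q : ℝ) (g : Ω → ℂ) : ℝ≥0∞ :=
  ⨆ (k : ℕ) (A : Set Ω) (_ : MeasurableSet[ℱ k] A ∧ μ A ≠ 0), μ A ^ (1 - 1 / p) *
    (((μ A)⁻¹ * ∫⁻ x in A, ‖g x - (μ[g | ℱ k]) x‖ₑ ^ q ∂μ) ^ (1 / q) +
      eLpNorm (md μ ℱ g k) ∞ (μ.restrict A))

lemma lipLoc_le (μ : Measure Ω) (ℱ : Filtration ℕ m0) (p q : ℝ) (g : Ω → ℂ) :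
    lipLoc μ ℱ p q g ≤ lip μ ℱ p q g := by
  unfold lipLoc lip
  refine iSup_mono fun k => iSup_mono fun A => iSup_mono fun _ => ?_
  exact mul_le_mul_right (add_le_add_right
    (eLpNorm_mono_measure (md μ ℱ g k) (p := ∞) Measure.restrict_le_self) _) _

end Defs

noncomputable def mu : Measure ℝ :=
  (2⁻¹ : ℝ≥0∞) • Measure.dirac (-1) + (2⁻¹ : ℝ≥0∞) • volume.restrict (Ico (0 : ℝ) 1)

lemma mu_apply (s : Set ℝ) (hs : MeasurableSet s) :
    mu s = 2⁻¹ * s.indicator 1 (-1) + 2⁻¹ * volume (s ∩ Ico 0 1) := by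
  simp [mu, Measure.dirac_apply' _ hs, Measure.restrict_apply hs]

instance : IsProbabilityMeasure mu := ⟨by
  rw [mu_apply _ MeasurableSet.univ]
  simp [ENNReal.inv_two_add_inv_two]⟩

lemma mu_Ico (a b : ℝ) (ha : 0 ≤ a) (hb : b ≤ 1) :
    mu (Ico a b) = ENNReal.ofReal ((b - a) / 2) := by
  rw [mu_apply _ measurableSet_Ico]
  have h1 : (-1 : ℝ) ∉ Ico a b := fun h => by linarith [h.1]
  have h2 : Ico a b ∩ Ico 0 1 = Ico a b := inter_eq_left.2 (Ico_subset_Ico ha hb)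
  rw [indicator_of_notMem h1, h2, Real.volume_Ico, ENNReal.ofReal_div_of_pos (by norm_num)]
  simp [div_eq_mul_inv, mul_comm]

lemma mu_pt : mu {-1} = 2⁻¹ := by
  rw [mu_apply _ (measurableSet_singleton _)]
  have : ({-1} : Set ℝ) ∩ Ico 0 1 = ∅ := by
    ext x; simp only [mem_inter_iff, mem_singleton_iff, mem_Ico, mem_empty_iff_false, iff_false]
    rintro ⟨rfl, h, -⟩; linarith
  simp [this]

lemma at_pt {P : ℝ → Prop} (h : ∀ᵐ x ∂mu, P x) : P (-1) := by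
  by_contra hP
  have : mu {-1} = 0 := measure_mono_null (by intro x hx; rw [mem_singleton_iff.1 hx]; exact hP) h
  rw [mu_pt] at this; simp at this

def F : Filtration ℕ (inferInstance : MeasurableSpace ℝ) where
  seq k := if k = 0 then ⊥ else inferInstance
  mono' := by
    intro i j hij
    by_cases hi : i = 0
    · simp [hi]
    · have hj : j ≠ 0 := by omega
      simp [hi, hj]
  le' := by
    intro i
    by_cases hi : i = 0 <;> simp [hi]

lemma F0 : F 0 = ⊥ := rfl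
lemma F1 : F 1 = (inferInstance : MeasurableSpace ℝ) := rfl

lemma mIco (a b : ℝ) : MeasurableSet[F 1] (Ico a b) :=
  (measurableSet_Ico : MeasurableSet (Ico a b))

lemma ce0 (f : ℝ → ℂ) : mu[f | F 0] = fun _ => ∫ x, f x ∂mu := condExp_bot f

lemma ce1 (f : ℝ → ℂ) (hf : Integrable f mu) : mu[f | F 1] =ᵐ[mu] f :=
  condExp_of_aestronglyMeasurable' le_rfl hf.aestronglyMeasurable hf

lemma md1 (f : ℝ → ℂ) (hf : Integrable f mu) :
    ∀ᵐ x ∂mu, md mu F f 1 x = f x - ∫ x, f x ∂mu := by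
  filter_upwards [ce1 f hf] with x hx
  change (mu[f | F 1]) x - (mu[f | F 0]) x = _
  rw [hx, ce0]

lemma md0 (f : ℝ → ℂ) (x : ℝ) : md mu F f 0 x = ∫ x, f x ∂mu := by
  change (mu[f | F 0]) x = _
  rw [ce0]

/-- lower bound for the square function -/
lemma sq_ge (f : ℝ → ℂ) (k : ℕ) (x : ℝ) :
    ‖md mu F f k x‖ₑ ≤ (∑' k, ‖md mu F f k x‖ₑ ^ 2) ^ (1 / 2 : ℝ) := by
  have h : ‖md mu F f k x‖ₑ ^ 2 ≤ ∑' k, ‖md mu F f k x‖ₑ ^ 2 :=
    ENNReal.le_tsum (f := fun k => ‖md mu F f k x‖ₑ ^ 2) k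
  calc ‖md mu F f k x‖ₑ = (‖md mu F f k x‖ₑ ^ 2) ^ (1 / 2 : ℝ) := by
        rw [← ENNReal.rpow_natCast, ← ENNReal.rpow_mul]; norm_num
    _ ≤ _ := ENNReal.rpow_le_rpow h (by norm_num)

lemma hp_ge (p : ℝ) (hp0 : 0 < p) (f : ℝ → ℂ) (k : ℕ) (A : Set ℝ) (hA : MeasurableSet A)
    (c : ℝ≥0∞) (hc : ∀ᵐ x ∂mu, x ∈ A → c ≤ ‖md mu F f k x‖ₑ) :
    c * mu A ^ (1 / p) ≤ hp mu F p f := by
  unfold hp
  have h1 : c ^ p * mu A ≤
      ∫⁻ x, ((∑' k, ‖md mu F f k x‖ₑ ^ 2) ^ (1 / 2 : ℝ)) ^ p ∂mu := by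
    rw [← lintegral_indicator_const hA]
    refine lintegral_mono_ae ?_
    filter_upwards [hc] with x hx
    by_cases hxA : x ∈ A
    · rw [indicator_of_mem hxA]
      exact ENNReal.rpow_le_rpow ((hx hxA).trans (sq_ge f k x)) hp0.le
    · rw [indicator_of_notMem hxA]; exact zero_le
  calc c * mu A ^ (1 / p) = (c ^ p * mu A) ^ (1 / p) := by
        rw [ENNReal.mul_rpow_of_nonneg _ _ (by positivity), ← ENNReal.rpow_mul,
          mul_one_div_cancel hp0.ne', ENNReal.rpow_one]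
    _ ≤ _ := ENNReal.rpow_le_rpow h1 (by positivity)

noncomputable def f0 : ℝ → ℂ :=
  (Ico (0 : ℝ) (1 / 2)).indicator 1 - (Ico (1 / 2 : ℝ) 1).indicator 1

lemma f0_meas : Measurable f0 :=
  (measurable_one.indicator measurableSet_Ico).sub (measurable_one.indicator measurableSet_Ico)

lemma f0_norm (x : ℝ) : ‖f0 x‖ = (Ico (0 : ℝ) 1).indicator 1 x := by
  unfold f0
  by_cases h1 : x ∈ Ico (0 : ℝ) (1 / 2)
  · have h2 : x ∉ Ico (1 / 2 : ℝ) 1 := fun h => by linarith [h.1, h1.2]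
    have h3 : x ∈ Ico (0 : ℝ) 1 := ⟨h1.1, by linarith [h1.2]⟩
    simp only [Pi.sub_apply, indicator_of_mem h1, indicator_of_notMem h2, indicator_of_mem h3]
    simp
  · by_cases h2 : x ∈ Ico (1 / 2 : ℝ) 1
    · have h3 : x ∈ Ico (0 : ℝ) 1 := ⟨by linarith [h2.1], h2.2⟩
      simp only [Pi.sub_apply, indicator_of_notMem h1, indicator_of_mem h2, indicator_of_mem h3]
      simp
    · have h3 : x ∉ Ico (0 : ℝ) 1 := by
        intro h
        by_cases h4 : x < 1 / 2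
        · exact h1 ⟨h.1, h4⟩
        · exact h2 ⟨not_lt.1 h4, h.2⟩
      simp only [Pi.sub_apply, indicator_of_notMem h1, indicator_of_notMem h2,
        indicator_of_notMem h3]
      simp

lemma f0_le (x : ℝ) : ‖f0 x‖ ≤ 1 := by
  rw [f0_norm]; by_cases h : x ∈ Ico (0 : ℝ) 1 <;> simp [h]

lemma f0_top : MemLp f0 ∞ mu :=
  memLp_top_of_bound f0_meas.aestronglyMeasurable 1 (Eventually.of_forall f0_le)

lemma f0_int : Integrable f0 mu := f0_top.integrable le_top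

lemma f0_mean : ∫ x, f0 x ∂mu = 0 := by
  have i1 : Integrable ((Ico (0 : ℝ) (1 / 2)).indicator (1 : ℝ → ℂ)) mu :=
    (integrable_const (1 : ℂ)).indicator measurableSet_Ico
  have i2 : Integrable ((Ico (1 / 2 : ℝ) 1).indicator (1 : ℝ → ℂ)) mu :=
    (integrable_const (1 : ℂ)).indicator measurableSet_Ico
  have h := integral_sub i1 i2
  have e1 := integral_indicator_const (μ := mu) (1 : ℂ) (measurableSet_Ico (a := (0 : ℝ)) (b := 1 / 2))
  have e2 := integral_indicator_const (μ := mu) (1 : ℂ) (measurableSet_Ico (a := (1 / 2 : ℝ)) (b := 1))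
  have e3 : mu.real (Ico (0 : ℝ) (1 / 2)) = mu.real (Ico (1 / 2 : ℝ) 1) := by
    unfold Measure.real
    rw [mu_Ico _ _ le_rfl (by norm_num), mu_Ico _ _ (by norm_num) le_rfl]; norm_num
  refine h.trans ?_
  change (∫ x, (Ico (0 : ℝ) (1 / 2)).indicator (fun _ => (1 : ℂ)) x ∂mu) -
    (∫ x, (Ico (1 / 2 : ℝ) 1).indicator (fun _ => (1 : ℂ)) x ∂mu) = 0
  rw [e1, e2, e3, sub_self]

lemma f0_hp (p : ℝ) (hp0 : 0 < p) : 0 < hp mu F p f0 := by
  have h := hp_ge p hp0 f0 1 (Ico 0 1) measurableSet_Ico 1 (by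
    filter_upwards [md1 f0 f0_int] with x hx hxA
    rw [hx, f0_mean, sub_zero, ← ofReal_norm_eq_enorm, f0_norm, indicator_of_mem hxA]; simp)
  refine lt_of_lt_of_le ?_ h
  rw [one_mul, mu_Ico _ _ le_rfl le_rfl]
  exact ENNReal.rpow_pos (by norm_num) ENNReal.ofReal_ne_top

lemma f0_not : ¬ AEStronglyMeasurable[F 0] f0 mu := by
  intro h
  have h1 : mu[f0 | F 0] =ᵐ[mu] f0 := condExp_of_aestronglyMeasurable' (F.le 0) h f0_int
  rw [ce0, f0_mean] at h1
  have : mu (Ico 0 1) = 0 := by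
    refine measure_mono_null ?_ h1
    intro x hx h2
    have h3 : (0 : ℂ) = f0 x := h2
    have := f0_norm x
    rw [← h3, indicator_of_mem hx] at this
    simp at this
  rw [mu_Ico _ _ le_rfl le_rfl] at this
  norm_num at this

lemma piece_sum (N : ℕ) (hN : 0 < N) (n : ℕ) (hn : n ≤ N) :
    ∑ j ∈ Finset.range n, (Ico ((j : ℝ) / N) ((j + 1 : ℕ) / N)).indicator f0 =
      (Ico (0 : ℝ) (n / N)).indicator f0 := by
  have hN' : (0 : ℝ) < N := by exact_mod_cast hN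
  induction n with
  | zero => ext x; simp
  | succ n ih =>
    rw [Finset.sum_range_succ, ih (by omega), ← Ico_union_Ico_eq_Ico (a := (0 : ℝ))
      (b := (n : ℝ) / N) (c := ((n + 1 : ℕ) : ℝ) / N) (by positivity) (by gcongr; omega),
      indicator_union_of_disjoint Ico_disjoint_Ico_same]
    rfl

lemma f0_ind : (Ico (0 : ℝ) 1).indicator f0 = f0 := by
  ext x
  by_cases h : x ∈ Ico (0 : ℝ) 1
  · rw [indicator_of_mem h]
  · have := f0_norm x
    rw [indicator_of_notMem h] at this ⊢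
    exact (norm_eq_zero.1 this).symm

lemma expo (p q : ℝ) (hq : 1 < q) : 1 - 1 / p - 1 / (q / (q - 1)) = 1 / q - 1 / p := by
  have : q - 1 ≠ 0 := by linarith
  have : q ≠ 0 := by linarith
  field_simp; ring

lemma rep (p q : ℝ) (hp0 : 0 < p) (hp1 : p < 1) (hq : 1 < q) (N : ℕ) (hN : 0 < N) :
    ∃ lam a, Rep mu F p q f0 0 lam a ∧
      ∑' j, ‖lam j‖ₑ ≤ ENNReal.ofReal ((1 / (2 * (N : ℝ))) ^ (1 / p - 1)) := by
  have hN' : (0 : ℝ) < N := by exact_mod_cast hN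
  set m : ℝ := 1 / (2 * (N : ℝ)) with hm
  have hm0 : 0 < m := by positivity
  set l : ℝ := 2 * m ^ (1 / p) with hl
  have hl0 : 0 < l := by positivity
  let A : ℕ → Set ℝ := fun j => Ico ((j : ℝ) / N) ((j + 1 : ℕ) / N)
  have hA : ∀ j < N, mu (A j) = ENNReal.ofReal m := by
    intro j hj
    rw [mu_Ico _ _ (by positivity) (by rw [div_le_one hN']; exact_mod_cast hj)]
    congr 1; rw [hm]; push_cast; field_simp; ring
  refine ⟨fun j => if j < N then (l : ℂ) else 0,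
    fun j => if j < N then ((l : ℂ)⁻¹) • (A j).indicator f0 else 0, ⟨?_, ?_, ?_⟩, ?_⟩
  · rw [ce0, f0_mean]; rfl
  · refine tendsto_const_nhds.congr' ?_
    filter_upwards [eventually_ge_atTop N] with n hn
    have : ∑ i ∈ Finset.range n, ((if i < N then (l : ℂ) else 0) •
        (if i < N then ((l : ℂ)⁻¹) • (A i).indicator f0 else 0)) = f0 := by
      rw [← Finset.sum_subset (Finset.range_mono hn)]
      · rw [Finset.sum_congr rfl (g := fun i => (A i).indicator f0)]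
        · rw [piece_sum N hN N le_rfl, div_self hN'.ne', f0_ind]
        · intro i hi
          have hi' := Finset.mem_range.1 hi
          have : (l : ℂ) ≠ 0 := by exact_mod_cast hl0.ne'
          simp only [if_pos hi', smul_smul, mul_inv_cancel₀ this, one_smul]
      · intro i _ hi
        have hi' : ¬ i < N := by simpa using hi
        simp [hi']
    simp only [this, sub_self, eLpNorm_zero]
  · intro j
    by_cases hj : j < N
    · simp only [if_pos hj]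
      refine ⟨(f0_meas.indicator measurableSet_Ico).const_smul _, 1, zero_le_one, A j,
        mIco _ _, ?_, ?_, ?_⟩
      · rw [hA j hj]; simpa using hm0
      · exact (Function.support_const_smul_subset _ _).trans support_indicator_subset
      · rw [eLpNorm_const_smul, eLpNorm_indicator_eq_eLpNorm_restrict measurableSet_Ico, expo p q hq,
          hA j hj]
        have h1 := eLpNorm_le_of_ae_bound (μ := mu.restrict (A j)) (p := ENNReal.ofReal q)
          (f := f0) (C := 1) (Eventually.of_forall f0_le)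
        rw [Measure.restrict_apply_univ, hA j hj, ENNReal.toReal_ofReal (by linarith),
          ENNReal.ofReal_one, mul_one] at h1
        refine (mul_le_mul_right h1 _).trans (le_of_eq ?_)
        rw [← ofReal_norm_eq_enorm, norm_inv, Complex.norm_real, Real.norm_of_nonneg hl0.le,
          ENNReal.ofReal_rpow_of_pos hm0, ENNReal.ofReal_rpow_of_pos hm0,
          ← ENNReal.ofReal_mul (by positivity)]
        have : ((1 - 0 + 1 : ℕ) : ℝ≥0∞) = ENNReal.ofReal 2 := by norm_num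
        rw [this, ← ENNReal.ofReal_div_of_pos (by norm_num)]
        congr 1
        rw [Real.rpow_sub hm0, hl, one_div q]
        field_simp
    · simp only [if_neg hj]
      refine ⟨measurable_zero, 0, le_rfl, univ, MeasurableSet.univ, by simp, by simp, by simp⟩
  · rw [tsum_eq_sum (s := Finset.range N)]
    · rw [Finset.sum_congr rfl (g := fun _ => ENNReal.ofReal l)]
      · rw [Finset.sum_const, Finset.card_range, nsmul_eq_mul, ← ENNReal.ofReal_natCast,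
          ← ENNReal.ofReal_mul (by positivity)]
        refine le_of_eq ?_
        congr 1
        rw [Real.rpow_sub hm0, Real.rpow_one, hl, hm]
        field_simp
      · intro i hi
        beta_reduce
        rw [if_pos (Finset.mem_range.1 hi), ← ofReal_norm_eq_enorm, Complex.norm_real,
          Real.norm_of_nonneg hl0.le]
    · intro i hi
      have hi' : ¬ i < N := by simpa using hi
      simp [hi']

lemma small (p : ℝ) (hp0 : 0 < p) (hp1 : p < 1) :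
    Tendsto (fun N : ℕ => (1 / (2 * (N : ℝ))) ^ (1 / p - 1)) atTop (𝓝 0) := by
  have h1 : 0 < 1 / p - 1 := by rw [sub_pos, lt_div_iff₀ hp0]; linarith
  have h2 : Tendsto (fun N : ℕ => (1 / (2 * (N : ℝ)))) atTop (𝓝 0) :=
    tendsto_const_nhds.div_atTop (tendsto_natCast_atTop_atTop.const_mul_atTop (by norm_num))
  have := h2.rpow_const (p := 1 / p - 1) (Or.inr h1.le)
  rwa [Real.zero_rpow h1.ne'] at this

lemma f0_size (p q : ℝ) (hp0 : 0 < p) (hp1 : p < 1) (hq : 1 < q) : bsize mu F p q f0 = 0 := by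
  unfold bsize
  rw [if_neg f0_not]
  refine le_antisymm ?_ zero_le
  have h := ENNReal.tendsto_ofReal (small p hp0 hp1)
  rw [ENNReal.ofReal_zero] at h
  refine ge_of_tendsto h ?_
  filter_upwards [eventually_gt_atTop 0] with N hN
  obtain ⟨lam, a, h1, h2⟩ := rep p q hp0 hp1 hq N hN
  refine iInf_le_of_le 0 (iInf_le_of_le lam (iInf_le_of_le a (iInf_le_of_le h1 h2)))

lemma f0_atb (p q : ℝ) (hp0 : 0 < p) (hp1 : p < 1) (hq : 1 < q) : atb mu F p q f0 = 0 := by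
  refine le_antisymm ?_ zero_le
  let b : ℕ → ℝ → ℂ := fun i => if i = 0 then f0 else 0
  have hz : AEStronglyMeasurable[F 0] (0 : ℝ → ℂ) mu := aestronglyMeasurable_zero
  refine iInf_le_of_le b (iInf_le_of_le ⟨?_, ?_⟩ (le_of_eq ?_))
  · intro i
    by_cases hi : i = 0
    · simp only [b, if_pos hi]
      obtain ⟨lam, a, h1, -⟩ := rep p q hp0 hp1 hq 1 one_pos
      exact ⟨f0_int, Or.inr ⟨0, lam, a, h1⟩⟩
    · simp only [b, if_neg hi]
      exact ⟨integrable_zero _ _ _, Or.inl hz⟩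
  · refine tendsto_const_nhds.congr' ?_
    filter_upwards [eventually_gt_atTop 0] with n hn
    have : ∑ i ∈ Finset.range n, b i = f0 := by
      simp [b, Finset.sum_ite_eq', hn]
    simp only [this, sub_self, eLpNorm_zero]
  · have : ∀ i, bsize mu F p q (b i) ^ p = 0 := by
      intro i
      by_cases hi : i = 0
      · simp only [b, if_pos hi]
        rw [f0_size p q hp0 hp1 hq, ENNReal.zero_rpow_of_pos hp0]
      · simp only [b, if_neg hi]
        unfold bsize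
        rw [if_pos hz, eLpNorm_zero, ENNReal.zero_rpow_of_pos hp0]
    simp only [this, tsum_zero]
    exact ENNReal.zero_rpow_of_pos (by positivity)

noncomputable def g0 : ℝ → ℂ := ({-1} : Set ℝ).indicator 1

lemma g0_top : MemLp g0 ∞ mu :=
  memLp_top_of_bound (measurable_one.indicator (measurableSet_singleton _)).aestronglyMeasurable 1
    (Eventually.of_forall fun x => by
      unfold g0; by_cases h : x ∈ ({-1} : Set ℝ) <;> simp [h])

lemma pair_g0 (f : ℝ → ℂ) : ∫ x, f x * g0 x ∂mu = f (-1) / 2 := by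
  have : (fun x => f x * g0 x) = ({-1} : Set ℝ).indicator (fun _ => f (-1)) := by
    ext x; unfold g0
    by_cases h : x ∈ ({-1} : Set ℝ)
    · rw [indicator_of_mem h, indicator_of_mem h, mem_singleton_iff.1 h]; simp
    · rw [indicator_of_notMem h, indicator_of_notMem h]; simp
  rw [this, integral_indicator_const _ (measurableSet_singleton _), Measure.real, mu_pt]
  simp [div_eq_inv_mul]

lemma g0_bdd (p : ℝ) (hp0 : 0 < p) (f : ℝ → ℂ) (hf : MemLp f ∞ mu) :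
    ‖∫ x, f x * g0 x ∂mu‖ₑ ≤ ((2 : ℝ≥0) ^ (1 / p) : ℝ≥0) * hp mu F p f := by
  have hi : Integrable f mu := hf.integrable le_top
  have h0 := hp_ge p hp0 f 0 {-1} (measurableSet_singleton _) ‖∫ x, f x ∂mu‖ₑ
    (Eventually.of_forall fun x _ => by rw [md0])
  have h1 := hp_ge p hp0 f 1 {-1} (measurableSet_singleton _) ‖f (-1) - ∫ x, f x ∂mu‖ₑ
    (by filter_upwards [md1 f hi] with x hx hxA; rw [hx, mem_singleton_iff.1 hxA])
  rw [mu_pt] at h0 h1
  have h2 : ‖f (-1)‖ₑ ≤ ‖∫ x, f x ∂mu‖ₑ + ‖f (-1) - ∫ x, f x ∂mu‖ₑ := by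
    refine le_trans (le_of_eq ?_) (enorm_add_le _ _)
    congr 1; ring
  have h3 : ‖f (-1)‖ₑ * 2⁻¹ ^ (1 / p) ≤ 2 * hp mu F p f := by
    rw [two_mul]
    refine le_trans ?_ (add_le_add h0 h1)
    rw [← add_mul]; gcongr
  have h4 : ‖f (-1) / 2‖ₑ = 2⁻¹ * ‖f (-1)‖ₑ := by
    rw [div_eq_inv_mul, enorm_mul, enorm_inv (by norm_num)]
    congr 2
    rw [← ofReal_norm_eq_enorm]; simp
  have h5 : (((2 : ℝ≥0) ^ (1 / p) : ℝ≥0) : ℝ≥0∞) * 2⁻¹ ^ (1 / p) = 1 := by
    rw [ENNReal.coe_rpow_of_nonneg _ (by positivity),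
      ← ENNReal.mul_rpow_of_nonneg _ _ (by positivity)]
    have : ((2 : ℝ≥0) : ℝ≥0∞) * 2⁻¹ = 1 := ENNReal.mul_inv_cancel (by norm_num) (by norm_num)
    rw [this, ENNReal.one_rpow]
  rw [pair_g0, h4]
  calc 2⁻¹ * ‖f (-1)‖ₑ = (((2 : ℝ≥0) ^ (1 / p) : ℝ≥0) : ℝ≥0∞) *
        (2⁻¹ * (‖f (-1)‖ₑ * 2⁻¹ ^ (1 / p))) := by
        rw [show ∀ a b c d : ℝ≥0∞, a * (b * (c * d)) = (a * d) * (b * c) from
          fun a b c d => by ring, h5, one_mul]
    _ ≤ (((2 : ℝ≥0) ^ (1 / p) : ℝ≥0) : ℝ≥0∞) * (2⁻¹ * (2 * hp mu F p f)) := by gcongr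
    _ = _ := by
        rw [← mul_assoc 2⁻¹, ENNReal.inv_mul_cancel (by norm_num) (by norm_num), one_mul]

lemma g_eq (g : ℝ → ℂ) (hg : Integrable g mu)
    (h : ∀ f, MemLp f ∞ mu → ∫ x, f x * g x ∂mu = ∫ x, f x * g0 x ∂mu) : g =ᵐ[mu] g0 := by
  refine ae_eq_of_forall_setIntegral_eq_of_sigmaFinite (fun s _ _ => hg.integrableOn)
    (fun s _ _ => (g0_top.integrable le_top).integrableOn) (fun s hs _ => ?_)
  have := h (s.indicator 1) (memLp_top_of_bound (measurable_one.indicator hs).aestronglyMeasurable 1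
    (Eventually.of_forall fun x => by by_cases h : x ∈ s <;> simp [h]))
  have e : ∀ u : ℝ → ℂ, (fun x => s.indicator (1 : ℝ → ℂ) x * u x) = s.indicator u := by
    intro u; ext x; by_cases h : x ∈ s <;> simp [h]
  rwa [e, e, integral_indicator hs, integral_indicator hs] at this

lemma g_top (p q : ℝ) (hp0 : 0 < p) (hp1 : p < 1) (g : ℝ → ℂ) (hg : Integrable g mu)
    (h : g =ᵐ[mu] g0) : lipLoc mu F p q g = ∞ := by
  have hmean : ∫ x, g x ∂mu = 1 / 2 := by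
    rw [integral_congr_ae h]
    have := pair_g0 1
    simpa using this
  have key : ∀ N : ℕ, 0 < N →
      (ENNReal.ofReal ((1 / (2 * (N : ℝ))) ^ (1 / p - 1)))⁻¹ * 2⁻¹ ≤ lipLoc mu F p q g := by
    intro N hN
    have hN' : (0 : ℝ) < N := by exact_mod_cast hN
    have hN1 : (1 : ℝ) ≤ N := by exact_mod_cast hN
    have hm0 : 0 < 1 / (2 * (N : ℝ)) := by positivity
    have hA : mu (Ico 0 (1 / N)) = ENNReal.ofReal (1 / (2 * (N : ℝ))) := by
      rw [mu_Ico _ _ le_rfl (by rw [div_le_one hN']; exact hN1)]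
      congr 1; field_simp; ring
    have hA0 : mu (Ico 0 (1 / N)) ≠ 0 := by rw [hA]; simpa using hN.ne'
    refine le_iSup_of_le 1 (le_iSup_of_le (Ico 0 (1 / N))
      (le_iSup_of_le ⟨mIco _ _, hA0⟩ ?_))
    refine mul_le_mul' (le_of_eq ?_) (le_trans (le_of_eq ?_) le_add_self)
    · rw [hA, ENNReal.ofReal_rpow_of_pos hm0, ← ENNReal.ofReal_inv_of_pos (by positivity),
        ← Real.rpow_neg hm0.le]
      congr 2; ring
    · have e : md mu F g 1 =ᵐ[mu.restrict (Ico 0 (1 / N))] fun _ => (-(1 / 2) : ℂ) := by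
        rw [Filter.EventuallyEq, ae_restrict_iff' measurableSet_Ico]
        filter_upwards [md1 g hg, h] with x hx hx2 hxA
        have : x ∉ ({-1} : Set ℝ) := fun h => by
          have := mem_singleton_iff.1 h; linarith [hxA.1]
        rw [hx, hx2, hmean, g0, indicator_of_notMem this]; simp
      rw [eLpNorm_congr_ae e, eLpNorm_exponent_top, eLpNormEssSup_const _ (by
        rwa [Ne, Measure.restrict_eq_zero]), ← ofReal_norm_eq_enorm]
      simp [ENNReal.ofReal_inv_of_pos]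
  have h1 := ENNReal.tendsto_ofReal (small p hp0 hp1)
  rw [ENNReal.ofReal_zero] at h1
  have h2 := ENNReal.tendsto_inv_iff.2 h1
  rw [ENNReal.inv_zero] at h2
  have h3 := ENNReal.Tendsto.mul_const (b := 2⁻¹) h2 (Or.inl ENNReal.top_ne_zero)
  rw [ENNReal.top_mul (by norm_num)] at h3
  refine top_le_iff.1 (le_of_tendsto h3 ?_)
  filter_upwards [eventually_gt_atTop 0] with N hN using key N hN

theorem main :
    ∃ (μ : MeasureTheory.Measure ℝ) (ℱ : MeasureTheory.Filtration ℕ Real.measurableSpace),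
      MeasureTheory.IsProbabilityMeasure μ ∧ (⨆ k, ℱ k) = Real.measurableSpace ∧
      ∀ p q : ℝ, 0 < p → p < 1 → 1 < q →
        (∃ f : ℝ → ℂ, MeasureTheory.MemLp f ⊤ μ ∧ atb μ ℱ p q f = 0 ∧ 0 < hp μ ℱ p f) ∧
        (¬ ∃ C : NNReal, ∀ f : ℝ → ℂ, MeasureTheory.MemLp f ⊤ μ →
          hp μ ℱ p f ≤ C * atb μ ℱ p q f) ∧
        ∃ g₀ : ℝ → ℂ, MeasureTheory.MemLp g₀ ⊤ μ ∧
          (∃ C : NNReal, ∀ f : ℝ → ℂ, MeasureTheory.MemLp f ⊤ μ →
            ‖∫ x, f x * g₀ x ∂μ‖ₑ ≤ C * hp μ ℱ p f) ∧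
          ∀ g : ℝ → ℂ, MeasureTheory.Integrable g μ →
            (∀ f : ℝ → ℂ, MeasureTheory.MemLp f ⊤ μ →
              ∫ x, f x * g x ∂μ = ∫ x, f x * g₀ x ∂μ) →
            lip μ ℱ p q g = ⊤ ∧ lipLoc μ ℱ p q g = ⊤ := by
  refine ⟨mu, F, inferInstance, le_antisymm (iSup_le F.le) (le_iSup_of_le 1 le_rfl), ?_⟩
  intro p q hp0 hp1 hq
  refine ⟨⟨f0, f0_top, f0_atb p q hp0 hp1 hq, f0_hp p hp0⟩, ?_, g0, g0_top,
    ⟨_, g0_bdd p hp0⟩, fun g hg h => ?_⟩
  · rintro ⟨C, hC⟩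
    have := hC f0 f0_top
    rw [f0_atb p q hp0 hp1 hq, mul_zero] at this
    exact absurd (f0_hp p hp0) (not_lt.2 this)
  · have := g_top p q hp0 hp1 g hg (g_eq g hg h)
    exact ⟨top_le_iff.1 (this ▸ lipLoc_le mu F p q g), this⟩

end H91Atb
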