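import Pool.Agent.H91.AvShad

set_option autoImplicit false

open Filter Topology Finset

namespace H91.AvFac
open H91.AvShad

variable {X Y : Type} [MetricSpace X] [MetricSpace Y]

lemma bdd [CompactSpace Y] : ∃ D > (0 : ℝ), ∀ a b : Y, dist a b ≤ D := by
  obtain ⟨D, hD⟩ := Metric.isBounded_iff.mp (isCompact_univ (X := Y)).isBounded
  exact ⟨max D 1, one_pos.trans_le (le_max_right _ _), fun a b =>
    (hD trivial trivial).trans (le_max_left _ _)⟩

lemma uc [CompactSpace X] [CompactSpace Y] {p : X → Y} (hp : Continuous p) {ε : ℝ} (hε : 0 < ε) :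
    ∃ c > (0 : ℝ), ∀ a b, dist (p a) (p b) ≤ ε + c * dist a b := by
  obtain ⟨D, hD0, hD⟩ := bdd (Y := Y)
  obtain ⟨δ, hδ, h⟩ := Metric.uniformContinuous_iff.mp
    (CompactSpace.uniformContinuous_of_continuous hp) ε hε
  refine ⟨D / δ, by positivity, fun a b => ?_⟩
  rcases lt_or_ge (dist a b) δ with h' | h'
  · exact (h h').le.trans (le_add_of_nonneg_right (by positivity))
  · have := mul_le_mul_of_nonneg_left h' (by positivity : 0 ≤ D / δ)
    rw [div_mul_cancel₀ _ hδ.ne'] at this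
    linarith [hD (p a) (p b)]

lemma trace [CompactSpace Y] {g : Y → Y} (hg : Continuous g) (L : ℕ) : ∀ ε > (0 : ℝ),
    ∃ c > (0 : ℝ), ∀ (y : ℕ → Y) (t r : ℕ), r ≤ L → dist (g^[r] (y t)) (y (t + r)) ≤
      ε + c * ∑ s ∈ range r, dist (g (y (t + s))) (y (t + s + 1)) := by
  induction L with
  | zero => exact fun ε hε => ⟨1, one_pos, fun y t r hr => by
      obtain rfl := Nat.le_zero.mp hr
      simpa using hε.le⟩
  | succ L ih =>
    intro ε hε
    obtain ⟨a, ha, h1⟩ := uc hg (half_pos hε)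
    obtain ⟨b, hb, h2⟩ := ih (ε / 2 / a) (by positivity)
    refine ⟨a * b + 1, by positivity, fun y t r hr => ?_⟩
    rcases r with _ | r
    · simpa using hε.le
    have e1 := h2 y t r (by omega)
    have e2 := h1 (g^[r] (y t)) (y (t + r))
    have e3 := dist_triangle (g (g^[r] (y t))) (g (y (t + r))) (y (t + r + 1))
    have e4 := mul_le_mul_of_nonneg_left e1 ha.le
    rw [mul_add, mul_div_cancel₀ _ ha.ne'] at e4
    rw [Function.iterate_succ_apply', sum_range_succ, ← add_assoc]
    have p1 : 0 ≤ ∑ s ∈ range r, dist (g (y (t + s))) (y (t + s + 1)) :=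
      sum_nonneg fun _ _ => dist_nonneg
    nlinarith [mul_nonneg (mul_pos ha hb).le (dist_nonneg (x := g (y (t + r))) (y := y (t + r + 1)))]

lemma win (e : ℕ → ℝ) (he : ∀ i, 0 ≤ e i) (L n : ℕ) (r : ℕ → ℕ) (hr : ∀ i < n, r i ≤ L ∧ r i ≤ i) :
    ∑ i ∈ range n, ∑ s ∈ range (r i), e (i - r i + s) ≤ L * ∑ i ∈ range n, e i := by
  have h1 : ∀ i ∈ range n, ∑ s ∈ range (r i), e (i - r i + s) ≤
      ∑ s ∈ range n, if s < i ∧ i ≤ s + L then e s else 0 := fun i hi => by
    have := hr i (mem_range.mp hi)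
    rw [← sum_filter, ← sum_image (f := e) (g := fun s => i - r i + s) fun a _ b _ h => by
      simpa using h]
    refine sum_le_sum_of_subset_of_nonneg (fun s hs => ?_) fun s _ _ => he s
    obtain ⟨a, ha, rfl⟩ := mem_image.mp hs
    simp only [mem_filter, mem_range] at *
    omega
  refine (sum_le_sum h1).trans ?_
  rw [sum_comm, mul_sum]
  refine sum_le_sum fun s _ => ?_
  rw [← sum_filter, sum_const, nsmul_eq_mul]
  refine mul_le_mul_of_nonneg_right (Nat.cast_le.mpr ?_) (he s)
  refine (card_le_card (t := Ioc s (s + L)) fun i hi => mem_Ioc.mpr (mem_filter.mp hi).2).trans ?_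
  simp

lemma mult (L a n : ℕ) (hL : 0 < L) :
    (((range n).filter fun i => L ∣ i + a + 1).card : ℝ) ≤ n / L + 1 := by
  have : ((range n).filter fun i => L ∣ i + a + 1).card ≤ n / L + 1 := by
    rw [← card_range (n / L + 1)]
    have m : ∀ i j, L ∣ i + a + 1 → L ∣ j + a + 1 → i < j → i / L < j / L := fun i j hi hj h => by
      have := Nat.le_of_dvd (by omega) (Nat.dvd_sub hj hi)
      have := Nat.div_le_div_right (c := L) (show i + L ≤ j by omega)
      rw [Nat.add_div_right _ hL] at this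
      omega
    refine card_le_card_of_injOn (fun i => i / L) (fun i hi => mem_coe.mpr (mem_range.mpr
      (Nat.lt_succ_of_le (Nat.div_le_div_right (mem_range.mp (mem_filter.mp hi).1).le))))
      fun i hi j hj h => ?_
    rcases lt_trichotomy i j with h' | h' | h'
    · exact absurd h (m i j (mem_filter.mp hi).2 (mem_filter.mp hj).2 h').ne
    · exact h'
    · exact absurd h (m j i (mem_filter.mp hj).2 (mem_filter.mp hi).2 h').ne'
  have h2 := Nat.cast_div_le (α := ℝ) (m := n) (n := L)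
  have h3 : (_ : ℝ) ≤ _ := Nat.cast_le.mpr this
  push_cast at h3
  linarith

lemma nj {f : X → X} (u : ℕ → X) {L i : ℕ} (hL : 0 < L) (h : ¬ L ∣ i + 1) :
    f (f^[i % L] (u (i - i % L))) = f^[(i + 1) % L] (u (i + 1 - (i + 1) % L)) := by
  have : (i + 1) % L = i % L + 1 := by
    rw [← Nat.mod_add_mod]
    refine Nat.mod_eq_of_lt (lt_of_le_of_ne (Nat.mod_lt _ hL) fun h' => h ?_)
    rw [Nat.dvd_iff_mod_eq_zero, ← Nat.mod_add_mod, h', Nat.mod_self]
  rw [this, Function.iterate_succ_apply', Nat.add_sub_add_right]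

lemma avb {a : ℕ → ℝ} {D : ℝ} (h0 : ∀ i, 0 ≤ a i) (h : ∀ i, a i ≤ D) (n : ℕ) :
    0 ≤ av a n ∧ av a n ≤ D := by
  refine ⟨div_nonneg (sum_nonneg fun i _ => h0 i) n.cast_nonneg,
    div_le_of_le_mul₀ n.cast_nonneg ((h0 0).trans (h 0)) ?_⟩
  have := sum_le_card_nsmul (range n) _ D fun i _ => h i
  rwa [card_range, nsmul_eq_mul, mul_comm] at this

lemma t0 {a : ℕ → ℝ} (h0 : ∀ i, 0 ≤ a i)
    (h : ∀ ε > (0 : ℝ), ∀ᶠ n in atTop, ∑ i ∈ range n, a i ≤ ε * n) : Tendsto (av a) atTop (𝓝 0) := by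
  refine tendsto_order.mpr ⟨fun c hc => Eventually.of_forall fun n => hc.trans_le
    (div_nonneg (sum_nonneg fun i _ => h0 i) n.cast_nonneg), fun c hc => ?_⟩
  filter_upwards [h (c / 2) (half_pos hc)] with n hn
  exact (div_le_of_le_mul₀ n.cast_nonneg (half_pos hc).le hn).trans_lt (half_lt_self hc)

lemma t1 {a : ℕ → ℝ} {ε : ℝ} {n : ℕ} (hn : 0 < n) (h : av a n < ε) : ∑ i ∈ range n, a i ≤ ε * n :=
  ((div_lt_iff₀ (by exact_mod_cast hn)).mp h).le

theorem main : ∀ (X Y : Type) [MetricSpace X] [CompactSpace X] [MetricSpace Y] [CompactSpace Y]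
    (f : X → X) (g : Y → Y) (p : X → Y), Continuous f → Continuous g → Continuous p →
    Function.Surjective p → p ∘ f = g ∘ p → (ASP f → ASP g) ∧ (AASP f → AASP g) := by
  intro X Y _ _ _ _ f g p _ hg hp hs hc
  choose q hq using hs
  have it : ∀ r x, p (f^[r] x) = g^[r] (p x) := fun r x =>
    (Function.Semiconj.iterate_right (f := p) (ga := f) (gb := g) (congrFun hc) r) x
  obtain ⟨D, hD0, hD⟩ := bdd (Y := X)
  -- pointwise estimate
  have key : ∀ (z : X) (y : ℕ → Y) (i r : ℕ) (ε a η c : ℝ), r ≤ i →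
      (∀ u v, dist (p u) (p v) ≤ ε + a * dist u v) →
      (dist (g^[r] (y (i - r))) (y (i - r + r)) ≤ η + c) → dist (g^[i] (p z)) (y i) ≤
        ε + a * dist (f^[i] z) (f^[r] (q (y (i - r)))) + (η + c) := fun z y i r ε a η c hr h1 h2 => by
    have := h1 (f^[i] z) (f^[r] (q (y (i - r))))
    rw [it, it, hq] at this
    rw [Nat.sub_add_cancel hr] at h2
    linarith [dist_triangle (g^[i] (p z)) (g^[r] (y (i - r))) (y i)]
  constructor
  · intro h ε hε
    obtain ⟨a, ha, h1⟩ := uc hp (show 0 < ε / 5 by positivity)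
    obtain ⟨δ, hδ, h⟩ := h (ε / 5 / a) (by positivity)
    obtain ⟨L, hL⟩ := exists_nat_gt (2 * D / δ)
    have hL0 : (0 : ℝ) < L := lt_trans (by positivity) hL
    have hL1 : 0 < L := by exact_mod_cast hL0
    obtain ⟨c, hc0, h2⟩ := trace hg L (ε / 5) (by positivity)
    refine ⟨ε / 5 / (c * L), by positivity, fun y ⟨N, hN⟩ => ?_⟩
    obtain ⟨z, hz⟩ := h (fun i => f^[i % L] (q (y (i - i % L)))) ⟨L, fun n hn k => by
      have hn' : (L : ℝ) ≤ n := by exact_mod_cast hn
      rw [av, div_lt_iff₀ (hL0.trans_le hn'), ← sum_subset (filter_subset (fun i => L ∣ i + k + 1) _)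
        fun i hi hi' => by
          rw [nj (f := f) (fun t => q (y t)) hL1 fun h => hi' (mem_filter.mpr ⟨hi, h⟩), dist_self]]
      refine (sum_le_card_nsmul _ _ D fun i _ => hD _ _).trans_lt ?_
      rw [div_lt_iff₀ hδ] at hL
      have : 1 ≤ (n : ℝ) / L := (one_le_div hL0).mpr hn'
      have e : δ * n = L * δ * (n / L) := by field_simp
      rw [e, nsmul_eq_mul]
      nlinarith [mult L k n hL1]⟩
    obtain ⟨E, _, hE⟩ := bdd (Y := Y)
    refine ⟨p z, lt_of_le_of_lt (limsup_le_of_le (isCoboundedUnder_le_of_le _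
      fun n => (avb (fun _ => dist_nonneg) (fun _ => hE _ _) n).1) (a := 4 * (ε / 5)) ?_) (by linarith)⟩
    filter_upwards [eventually_lt_of_limsup_lt hz (isBoundedUnder_of ⟨D,
      fun n => (avb (fun _ => dist_nonneg) (fun _ => hD _ _) n).2⟩), eventually_ge_atTop N,
      eventually_gt_atTop 0] with n b1 b2 b3
    have s1 := sum_le_sum fun i (_ : i ∈ range n) => key z y i (i % L) _ _ _ _ (Nat.mod_le _ _) h1
      (h2 y _ _ (Nat.mod_lt _ hL1).le)
    have s2 := win (fun i => dist (g (y i)) (y (i + 1))) (fun _ => dist_nonneg) L n (fun i => i % L)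
      fun i _ => ⟨(Nat.mod_lt _ hL1).le, Nat.mod_le _ _⟩
    simp only [sum_add_distrib, ← mul_sum, sum_const, card_range, nsmul_eq_mul] at s1
    have s3 := mul_le_mul_of_nonneg_left (t1 b3 b1) ha.le
    have s4 := mul_le_mul_of_nonneg_left (t1 b3 (hN n b2 0)) (mul_pos hc0 hL0).le
    rw [← mul_assoc, mul_div_cancel₀ _ (by positivity)] at s3 s4
    simp only [add_zero] at s4
    refine div_le_of_le_mul₀ n.cast_nonneg (by positivity) ?_
    nlinarith [mul_le_mul_of_nonneg_left s2 hc0.le]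
  · intro h y hy
    choose c hc0 h2 using fun k : ℕ => trace hg (2 ^ k) (1 / ((k : ℝ) + 1)) Nat.one_div_pos_of_nat
    set C : ℕ → ℝ := fun k => ∑ j ∈ range (k + 1), c j with hC
    have C0 : ∀ k, 0 < C k := fun k => sum_pos (fun j _ => hc0 j) nonempty_range_add_one
    have Cm : ∀ j k, j ≤ k → c j ≤ C k := fun j k h =>
      single_le_sum (fun j _ => (hc0 j).le) (mem_range.mpr (Nat.lt_succ_of_le h))
    choose N hN using fun k : ℕ => eventually_atTop.mp (hy.eventually (gt_mem_nhds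
      (show 0 < 1 / ((k : ℝ) + 1) / (C k * 2 ^ k) from div_pos Nat.one_div_pos_of_nat
        (mul_pos (C0 k) (by positivity)))))
    obtain ⟨S, hS0, hS⟩ : ∃ S : ℕ → ℕ, S 0 = 0 ∧ ∀ k, S (k + 1) = 2 ^ (k + 1) * (S k + N (k + 1) + 1) :=
      ⟨fun k => Nat.rec 0 (fun k s => 2 ^ (k + 1) * (s + N (k + 1) + 1)) k, rfl, fun _ => rfl⟩
    have hS2 : ∀ k, S k + N (k + 1) + 1 ≤ S (k + 1) := fun k => by
      rw [hS]; exact Nat.le_mul_of_pos_left _ (by positivity)
    have hm : StrictMono S := strictMono_nat_of_lt_succ fun k => by have := hS2 k; omega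
    have hex : ∀ i, ∃ k, i < S (k + 1) := fun i => ⟨i, hm.id_le (i + 1)⟩
    obtain ⟨κ, hκ⟩ : ∃ κ : ℕ → ℕ, ∀ i, S (κ i) ≤ i ∧ i < S (κ i + 1) := by
      refine ⟨fun i => Nat.find (hex i), fun i => ⟨?_, Nat.find_spec (hex i)⟩⟩
      show S (Nat.find (hex i)) ≤ i
      rcases h : Nat.find (hex i) with _ | k
      · omega
      · exact not_lt.mp (Nat.find_min (hex i) (m := k) (by omega))
    have hge : ∀ i k, S k ≤ i → k ≤ κ i := fun i k h =>
      Nat.lt_succ_iff.mp (hm.lt_iff_lt.mp (h.trans_lt (hκ i).2))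
    have big : ∀ (A ε : ℝ), 0 < ε → ∀ᶠ n : ℕ in atTop, A ≤ ε * n := fun A ε hε =>
      (tendsto_natCast_atTop_atTop.const_mul_atTop hε).eventually_ge_atTop A
    obtain ⟨z, hz⟩ := h (fun i => f^[i % 2 ^ κ i] (q (y (i - i % 2 ^ κ i))))
      (t0 (fun _ => dist_nonneg) fun ε hε => by
        obtain ⟨K, hK⟩ := pow_unbounded_of_one_lt (2 * D / ε) one_lt_two
        filter_upwards [big (D * (S K + 1)) _ (half_pos hε)] with n hn
        rw [← sum_subset (s₁ := range (min (S K) n) ∪ (range n).filter fun i => 2 ^ K ∣ i + 0 + 1)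
          (union_subset (range_subset_range.mpr (min_le_right _ _)) (filter_subset _ _))
          fun i hi hi' => ?_]
        · refine (sum_le_card_nsmul _ _ D fun i _ => hD _ _).trans ?_
          have a1 := mult (2 ^ K) 0 n (by positivity)
          have a2 : (_ : ℝ) ≤ _ := Nat.cast_le.mpr ((card_union_le (range (min (S K) n))
            ((range n).filter fun i => 2 ^ K ∣ i + 0 + 1)).trans
            (add_le_add ((card_range _).trans_le (min_le_left _ _)) le_rfl))
          rw [div_lt_iff₀ hε] at hK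
          have a3 : D * (n / 2 ^ K) ≤ ε / 2 * n := by
            rw [← mul_div_assoc, div_le_iff₀ (by positivity)]
            nlinarith [n.cast_nonneg (α := ℝ)]
          push_cast at a1 a2
          rw [nsmul_eq_mul]
          nlinarith
        · simp only [mem_union, mem_filter, mem_range, not_or, lt_min_iff, add_zero] at hi hi'
          have b1 := hge i K (by omega)
          have b2 : ¬ 2 ^ K ∣ i + 1 := fun h => hi'.2 ⟨hi, h⟩
          have b3 : κ (i + 1) = κ i := by
            refine le_antisymm (Nat.lt_succ_iff.mp (hm.lt_iff_lt.mp ((hκ _).1.trans_lt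
              (lt_of_le_of_ne (hκ i).2 fun h => b2 ?_)))) (hge _ _ ((hκ i).1.trans (Nat.le_succ i)))
            rw [show i + 1 = S (κ i + 1) from h, hS]
            exact (pow_dvd_pow 2 (by omega)).mul_right _
          rw [b3, nj (f := f) (fun t => q (y t)) (by positivity) fun h => b2 ((pow_dvd_pow 2 b1).trans h),
            dist_self])
    refine ⟨p z, t0 (fun _ => dist_nonneg) fun ε hε => ?_⟩
    obtain ⟨a, ha, h1⟩ := uc hp (show 0 < ε / 5 by positivity)
    obtain ⟨K, hK⟩ := exists_nat_one_div_lt (show 0 < ε / 5 by positivity)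
    have ek : ∀ k : ℕ, K ≤ k → 1 / ((k : ℝ) + 1) ≤ ε / 5 := fun k hk =>
      (Nat.one_div_le_one_div hk).trans hK.le
    filter_upwards [hz.eventually (gt_mem_nhds (show 0 < ε / 5 / a by positivity)),
      big (S K) (ε / 5) (by positivity), eventually_ge_atTop (S (K + 1))] with n b1 b2 b3
    have b4 := hge n _ b3
    have b5 : 0 < n := by have := hS2 K; omega
    have km : ∀ i < n, κ i ≤ κ n := fun i hi => hge _ _ ((hκ i).1.trans hi.le)
    have s1 := sum_le_sum fun i (hi : i ∈ range n) => key z y i (i % 2 ^ κ i) _ _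
      (ε / 5 + if i < S K then 1 else 0) (C (κ n) * _) (Nat.mod_le _ _) h1
      ((h2 (κ i) y _ _ (Nat.mod_lt _ (by positivity)).le).trans (add_le_add (by
        split_ifs with h
        · have : 1 / ((κ i : ℝ) + 1) ≤ 1 := by simpa using Nat.one_div_le_one_div (α := ℝ) (Nat.zero_le (κ i))
          linarith
        · simpa using ek _ (hge i K (not_lt.mp h)))
        (mul_le_mul_of_nonneg_right (Cm _ _ (km i (mem_range.mp hi)))
          (sum_nonneg fun _ _ => dist_nonneg))))
    have s2 := win (fun i => dist (g (y i)) (y (i + 1))) (fun _ => dist_nonneg) (2 ^ κ n) n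
      (fun i => i % 2 ^ κ i) fun i hi => ⟨(Nat.mod_lt _ (by positivity)).le.trans
        (Nat.pow_le_pow_right two_pos (km i hi)), Nat.mod_le _ _⟩
    simp only [sum_add_distrib, ← mul_sum, sum_const, card_range, nsmul_eq_mul, sum_boole] at s1
    have s5 : (((range n).filter fun i => i < S K).card : ℝ) ≤ S K := Nat.cast_le.mpr
      ((card_le_card fun i hi => mem_range.mpr (mem_filter.mp hi).2).trans (card_range _).le)
    have s3 := mul_le_mul_of_nonneg_left (t1 b5 b1) ha.le
    have s4 := mul_le_mul_of_nonneg_left (t1 b5 (hN (κ n) n (by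
      obtain ⟨k, hk⟩ : ∃ k, κ n = k + 1 := ⟨κ n - 1, by omega⟩
      have := (hκ n).1
      rw [hk] at this ⊢
      have := hS2 k
      omega))) (mul_pos (C0 (κ n)) (by positivity : (0 : ℝ) < 2 ^ κ n)).le
    rw [← mul_assoc, mul_div_cancel₀ _ (by have := C0 (κ n); positivity)] at s3 s4
    have s6 := mul_le_mul_of_nonneg_right (ek (κ n) (by omega)) (n.cast_nonneg (α := ℝ))
    push_cast at s2
    nlinarith [mul_le_mul_of_nonneg_left s2 (C0 (κ n)).le]

end H91.AvFac
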