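import Mathlib

set_option autoImplicit false

open Filter Topology Finset MeasureTheory

namespace H91.AvShad

/-- Cesaro average of the first `n` terms. -/
noncomputable def av (a : ℕ → ℝ) (n : ℕ) : ℝ := (∑ i ∈ range n, a i) / n

/-- average shadowing property. -/
def ASP {X : Type} [MetricSpace X] (f : X → X) : Prop :=
  ∀ ε > (0 : ℝ), ∃ δ > (0 : ℝ), ∀ x : ℕ → X,
    (∃ N : ℕ, ∀ n ≥ N, ∀ k : ℕ, av (fun i => dist (f (x (i + k))) (x (i + k + 1))) n < δ) →
    ∃ y, limsup (av fun i => dist (f^[i] y) (x i)) atTop < ε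

/-- asymptotic average shadowing property. -/
def AASP {X : Type} [MetricSpace X] (f : X → X) : Prop :=
  ∀ x : ℕ → X, Tendsto (av fun i => dist (f (x i)) (x (i + 1))) atTop (𝓝 0) →
    ∃ y, Tendsto (av fun i => dist (f^[i] y) (x i)) atTop (𝓝 0)

/-- mistake function (extended to all `ε > 0`, constant beyond `ε₀`). -/
def Mistake (g : ℕ → ℝ → ℕ) : Prop :=
  (∃ ε₀ > (0 : ℝ), ∀ n, ∀ ε > ε₀, g n ε = g n ε₀) ∧ ∀ ε > (0 : ℝ),
    (∀ n ≥ 1, g n ε ≤ g (n + 1) ε) ∧ Tendsto (fun n : ℕ => (g n ε : ℝ) / n) atTop (𝓝 0)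

/-- `y ∈ B_n(g; x, ε)`. -/
def InB {X : Type} [MetricSpace X] (f : X → X) (g : ℕ → ℝ → ℕ) (n : ℕ) (x : X) (ε : ℝ)
    (y : X) : Prop :=
  ∃ Λ ⊆ range n, n - g n ε ≤ Λ.card ∧ ∀ j ∈ Λ, dist (f^[j] x) (f^[j] y) < ε

/-- almost specification property. -/
def AlmostSpec {X : Type} [MetricSpace X] (f : X → X) : Prop :=
  ∃ (g : ℕ → ℝ → ℕ) (k : ℝ → ℕ), Mistake g ∧ (∀ ε > (0 : ℝ), ∀ n ≥ 1, k ε ≤ n → g n ε < n) ∧
    ∀ m ≥ 1, ∀ (ε : ℕ → ℝ) (x : ℕ → X) (n : ℕ → ℕ),
      (∀ j < m, 0 < ε j ∧ 1 ≤ n j ∧ k (ε j) ≤ n j) →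
      ∃ z, ∀ j < m, InB f g (n j) (x j) (ε j) (f^[∑ i ∈ range j, n i] z)

/-- the measure center: complement of the union of the open sets null for all invariant
Borel probability measures. -/
def center {X : Type} [MetricSpace X] [MeasurableSpace X] (f : X → X) : Set X :=
  (⋃₀ {U | IsOpen U ∧ ∀ μ : Measure X, IsProbabilityMeasure μ → MeasurePreserving f μ μ →
    μ U = 0})ᶜ

/-- topological mixing. -/
def Mixing {X : Type} [MetricSpace X] (f : X → X) : Prop :=
  ∀ U V : Set X, IsOpen U → IsOpen V → U.Nonempty → V.Nonempty →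
    ∃ N : ℕ, ∀ n ≥ N, (f^[n] '' U ∩ V).Nonempty

variable {X : Type} [MetricSpace X] {f : X → X}

lemma pairs [CompactSpace X] [MeasurableSpace X] [BorelSpace X] [Nontrivial X]
    (hf : Continuous f) (h : center f = Set.univ) :
    ∃ c > (0 : ℝ), ∀ L : ℕ, ∃ x y, c * L ≤ ∑ i ∈ range L, dist (f^[i] x) (f^[i] y) := by
  have key : ∀ U : Set X, IsOpen U → U.Nonempty → ∃ μ : Measure X, IsProbabilityMeasure μ ∧
      MeasurePreserving f μ μ ∧ μ U ≠ 0 := by
    intro U hU ⟨p, hp⟩
    by_contra hh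
    push Not at hh
    have : p ∈ center f := h ▸ Set.mem_univ p
    exact this ⟨U, ⟨hU, hh⟩, hp⟩
  obtain ⟨p, q, hpq⟩ := exists_pair_ne X
  obtain ⟨U, V, hU, hV, hp, hq, hd⟩ := t2_separation hpq
  obtain ⟨μ, _, hμ, hμU⟩ := key U hU ⟨p, hp⟩
  obtain ⟨ν, _, hν, hνV⟩ := key V hV ⟨q, hq⟩
  have hc : Continuous fun p : X × X => dist p.1 p.2 := by fun_prop
  have hint : ∀ g : X × X → ℝ, Continuous g → Integrable g (μ.prod ν) := fun g hg =>
    hg.integrable_of_hasCompactSupport (HasCompactSupport.of_compactSpace g)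
  refine ⟨∫ p, dist p.1 p.2 ∂(μ.prod ν), ?_, fun L => ?_⟩
  · refine (integral_pos_iff_support_of_nonneg (fun p => dist_nonneg) (hint _ hc)).mpr ?_
    refine lt_of_lt_of_le ?_ (measure_mono (s := U ×ˢ V) ?_)
    · rw [Measure.prod_prod]
      exact ENNReal.mul_pos hμU hνV
    · rintro ⟨a, b⟩ ⟨ha, hb⟩
      simp only [Function.mem_support, ne_eq, dist_eq_zero]
      rintro rfl
      exact Set.disjoint_left.mp hd ha hb
  · have hci : ∀ i, Continuous fun p : X × X => dist (f^[i] p.1) (f^[i] p.2) := fun i => by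
      have := hf.iterate i
      fun_prop
    obtain ⟨⟨x, y⟩, hxy⟩ := exists_integral_le (μ := μ.prod ν)
      (hint (fun p => ∑ i ∈ range L, dist (f^[i] p.1) (f^[i] p.2))
        (continuous_finset_sum _ fun i _ => hci i))
    refine ⟨x, y, le_trans (le_of_eq ?_) hxy⟩
    rw [integral_finset_sum _ fun i _ => hint _ (hci i)]
    have : ∀ i, ∫ p, dist (f^[i] p.1) (f^[i] p.2) ∂(μ.prod ν) = ∫ p, dist p.1 p.2 ∂(μ.prod ν) := by
      intro i
      have hp := (hμ.iterate i).prod (hν.iterate i)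
      conv_rhs => rw [← hp.map_eq]
      rw [integral_map hp.measurable.aemeasurable hc.aestronglyMeasurable]
      rfl
    simp [this, mul_comm]

lemma ball_card {m : ℕ} (w : Fin (4 * m) → Bool) (S : Finset (Fin (4 * m) → Bool))
    (hS : ∀ v ∈ S, (univ.filter fun i => w i ≠ v i).card ≤ m) :
    (S.card : ℝ) ≤ (256 / 27) ^ m := by
  have h1 := Finset.prod_univ_sum (fun _ : Fin (4 * m) => (univ : Finset Bool))
    (fun i b => if w i ≠ b then (1 / 3 : ℝ) else 1)
  rw [Fintype.piFinset_univ] at h1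
  have h2 : ∀ i, ∑ b : Bool, (if w i ≠ b then (1 / 3 : ℝ) else 1) = 4 / 3 := fun i => by
    cases w i <;> simp <;> norm_num
  simp only [h2, prod_const, card_univ, Fintype.card_fin] at h1
  have h3 : ∑ v ∈ S, (1 / 3 : ℝ) ^ m ≤ (4 / 3) ^ (4 * m) := by
    rw [h1]
    refine le_trans (sum_le_sum fun v hv => ?_) (sum_le_sum_of_subset_of_nonneg (subset_univ S)
      fun v _ _ => prod_nonneg fun i _ => by split_ifs <;> norm_num)
    rw [prod_ite, prod_const, prod_const_one, mul_one]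
    exact pow_le_pow_of_le_one (by norm_num) (by norm_num) (hS v hv)
  rw [sum_const, nsmul_eq_mul, pow_mul] at h3
  have h4 : ((256 : ℝ) / 27) ^ m * (1 / 3) ^ m = ((4 / 3) ^ 4) ^ m := by
    rw [← mul_pow]; norm_num
  exact le_of_mul_le_mul_right (h4 ▸ h3) (by positivity)

lemma sum_blk (a : ℕ → ℝ) (L n : ℕ) :
    ∑ i ∈ range (n * L), a i = ∑ j ∈ range n, ∑ r ∈ range L, a (j * L + r) := by
  induction n with
  | zero => simp
  | succ n ih => rw [Nat.succ_mul, sum_range_add, ih, sum_range_succ]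

/-- concatenation of orbit blocks of length `L`. -/
def blk (f : X → X) (u : ℕ → X) (L i : ℕ) : X := f^[i % L] (u (i / L))

lemma blk_eq (u : ℕ → X) {L r : ℕ} (j : ℕ) (hr : r < L) : blk f u L (j * L + r) = f^[r] (u j) := by
  have hL : 0 < L := by omega
  rw [blk, add_comm, Nat.add_mul_mod_self_right, Nat.add_mul_div_right _ _ hL,
    Nat.mod_eq_of_lt hr, Nat.div_eq_of_lt hr, zero_add]

lemma bad (hent : ¬ 0 < Dynamics.coverEntropy f Set.univ) {c : ℝ} (hc : 0 < c) {L : ℕ}
    (hL : 1 ≤ L) {x y : X} (hxy : c * L ≤ ∑ i ∈ range L, dist (f^[i] x) (f^[i] y)) (m0 : ℕ) :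
    ∃ n, m0 ≤ n ∧ ∃ u : ℕ → X, ∀ z,
      c / 16 * (n * L : ℕ) ≤ ∑ i ∈ range (n * L), dist (f^[i] z) (blk f u L i) := by
  have hL' : (0 : ℝ) < L := by exact_mod_cast hL
  set U : SetRel X X := {p | dist p.1 p.2 < c / 16} with hU
  have hb : (0 : ℝ) < Real.log (3 / 2) / (4 * L) := div_pos (Real.log_pos (by norm_num)) (by positivity)
  have h1 := (Dynamics.coverEntropyEntourage_le_coverEntropy f Set.univ
    (U := U) (Metric.dist_mem_uniformity (by positivity))).trans (not_lt.mp hent)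
  obtain ⟨N, hN⟩ := eventually_atTop.mp (ExpGrowth.eventually_le_exp
    (h1.trans_lt (EReal.coe_pos.mpr hb)))
  set m := m0 + N + 1 with hm
  have h2 := hN (4 * m * L) (by nlinarith)
  have e : ((Real.log (3 / 2) / (4 * L) : ℝ) : EReal) * ((4 * m * L : ℕ) : EReal) =
      ((m * Real.log (3 / 2) : ℝ) : EReal) := by
    rw [← EReal.coe_natCast, ← EReal.coe_mul]
    congr 1
    push_cast
    field_simp
  rw [e, EReal.exp_coe, Real.exp_nat_mul, Real.exp_log (by norm_num)] at h2
  obtain ⟨s, hs, hcard⟩ := (Dynamics.coverMincard_finite_iff f Set.univ U (4 * m * L)).mp (by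
    by_contra hh
    rw [not_lt, top_le_iff] at hh
    rw [hh] at h2
    simp at h2)
  rw [← hcard] at h2
  have h3 : (s.card : ℝ) ≤ (3 / 2) ^ m := by
    rw [← ENNReal.ofReal_le_ofReal_iff (by positivity), ENNReal.ofReal_natCast]
    exact_mod_cast h2
  refine ⟨4 * m, by omega, ?_⟩
  by_contra hh
  push Not at hh
  let u : (Fin (4 * m) → Bool) → ℕ → X := fun w j =>
    if h : j < 4 * m then (if w ⟨j, h⟩ then x else y) else x
  choose z hz using fun w => hh (u w)
  choose σ hσ hσ' using fun w => hs (Set.mem_univ (z w))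
  have h4 : ∀ w, ∑ i ∈ range (4 * m * L), dist (f^[i] (σ w)) (blk f (u w) L i) ≤
      c / 8 * (4 * m * L : ℕ) := fun w => by
    have : ∑ i ∈ range (4 * m * L), dist (f^[i] (σ w)) (blk f (u w) L i) ≤
        ∑ i ∈ range (4 * m * L), (c / 16 + dist (f^[i] (z w)) (blk f (u w) L i)) :=
      sum_le_sum fun i hi => by
        have := Dynamics.mem_dynEntourage.mp (hσ' w) i (mem_range.mp hi)
        have h' : dist (f^[i] (z w)) (f^[i] (σ w)) < c / 16 := this
        linarith [dist_triangle_left (f^[i] (σ w)) (blk f (u w) L i) (f^[i] (z w))]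
    rw [sum_add_distrib, sum_const, card_range, nsmul_eq_mul] at this
    linarith [hz w]
  have h5 : ∀ w v, σ w = σ v → (univ.filter fun i => w i ≠ v i).card ≤ m := fun w v hwv => by
    have a1 : ∑ i ∈ range (4 * m * L), dist (blk f (u w) L i) (blk f (u v) L i) ≤
        c / 4 * (4 * m * L : ℕ) := by
      have := sum_le_sum fun i (_ : i ∈ range (4 * m * L)) =>
        dist_triangle_left (blk f (u w) L i) (blk f (u v) L i) (f^[i] (σ w))
      rw [sum_add_distrib] at this
      have b := h4 v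
      rw [← hwv] at b
      linarith [h4 w]
    rw [sum_blk, ← Fin.sum_univ_eq_sum_range
      (fun j => ∑ r ∈ range L, dist (blk f (u w) L (j * L + r)) (blk f (u v) L (j * L + r)))] at a1
    have a2 : ∑ j ∈ univ.filter fun i => w i ≠ v i, c * L ≤ c / 4 * (4 * m * L : ℕ) := by
      refine le_trans ?_ a1
      refine le_trans (sum_le_sum fun j hj => ?_) (sum_le_sum_of_subset_of_nonneg (subset_univ _)
        fun j _ _ => sum_nonneg fun _ _ => dist_nonneg)
      rw [sum_congr rfl fun r hr => by rw [blk_eq _ _ (mem_range.mp hr), blk_eq _ _ (mem_range.mp hr)]]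
      have hj' := (mem_filter.mp hj).2
      simp only [u, j.2, dite_true, Fin.eta]
      cases h1 : w j <;> cases h2 : v j
      · exact absurd (h1.trans h2.symm) hj'
      · simpa [dist_comm] using hxy
      · simpa using hxy
      · exact absurd (h1.trans h2.symm) hj'
    rw [sum_const, nsmul_eq_mul] at a2
    push_cast at a2
    have : ((univ.filter fun i => w i ≠ v i).card : ℝ) ≤ m :=
      le_of_mul_le_mul_right (by linarith) (mul_pos hc hL')
    exact_mod_cast this
  classical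
  have h6 := card_eq_sum_card_fiberwise (s := univ) (t := s) (f := σ) fun w _ => hσ w
  have h7 : ((univ : Finset (Fin (4 * m) → Bool)).card : ℝ) ≤ s.card * (256 / 27) ^ m := by
    rw [h6, ← nsmul_eq_mul, ← sum_const]
    push_cast
    refine sum_le_sum fun a _ => ?_
    rcases (univ.filter fun w => σ w = a).eq_empty_or_nonempty with h | ⟨w, hw⟩
    · rw [h]; simp; positivity
    · exact ball_card w _ fun v hv => h5 w v ((mem_filter.mp hw).2.trans (mem_filter.mp hv).2.symm)
  simp only [card_univ, Fintype.card_pi, Fintype.card_bool, prod_const, Fintype.card_fin] at h7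
  push_cast at h7
  have h8 : ((3 : ℝ) / 2) ^ m * (256 / 27) ^ m < 2 ^ (4 * m) := by
    rw [← mul_pow, pow_mul]
    exact pow_lt_pow_left₀ (by norm_num) (by norm_num) (by omega)
  have := mul_le_mul_of_nonneg_right h3 (by positivity : (0 : ℝ) ≤ (256 / 27) ^ m)
  linarith

lemma concat {D ε : ℝ} (hD : ∀ a b : X, dist a b ≤ D) (hε : 0 < ε) (L : ℕ → ℕ) (hL : Monotone L)
    (hL1 : ∀ k, 1 ≤ L k) (hbad : ∀ k m0, ∃ n, m0 ≤ n ∧ ∃ u : ℕ → X, ∀ z,
      ε * (n * L k : ℕ) ≤ ∑ i ∈ range (n * L k), dist (f^[i] z) (blk f u (L k) i)) :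
    ∃ (x : ℕ → X) (S : ℕ → ℕ), S 0 = 0 ∧ (∀ K a n : ℕ,
      ∑ i ∈ range n, dist (f (x (i + a))) (x (i + a + 1)) ≤ D * (S K + (n / L K + 1))) ∧
      ∀ y, ∃ᶠ n in atTop, ε / 2 ≤ av (fun i => dist (f^[i] y) (x i)) n := by
  choose N hN u hu using hbad
  obtain ⟨S, hS0, hS⟩ : ∃ S : ℕ → ℕ, S 0 = 0 ∧ ∀ k, S (k + 1) = S k + N k (S k + 1) * L k :=
    ⟨fun k => Nat.rec 0 (fun k s => s + N k (s + 1) * L k) k, rfl, fun _ => rfl⟩
  have hS2 : ∀ k, S k + 1 ≤ N k (S k + 1) * L k := fun k => by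
    nlinarith [hN k (S k + 1), hL1 k]
  have hm : StrictMono S := strictMono_nat_of_lt_succ fun k => by rw [hS]; have := hS2 k; omega
  have hex : ∀ i, ∃ k, i < S (k + 1) := fun i => ⟨i, hm.id_le (i + 1)⟩
  obtain ⟨κ, hκ⟩ : ∃ κ : ℕ → ℕ, ∀ i, S (κ i) ≤ i ∧ i < S (κ i + 1) := by
    refine ⟨fun i => Nat.find (hex i), fun i => ⟨?_, Nat.find_spec (hex i)⟩⟩
    show S (Nat.find (hex i)) ≤ i
    rcases h : Nat.find (hex i) with _ | k
    · omega
    · exact not_lt.mp (Nat.find_min (hex i) (m := k) (by omega))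
  have hge : ∀ i k, S k ≤ i → k ≤ κ i := fun i k h =>
    Nat.lt_succ_iff.mp (hm.lt_iff_lt.mp (h.trans_lt (hκ i).2))
  have hκ' : ∀ i k, S k ≤ i → i < S (k + 1) → κ i = k := fun i k h1 h2 =>
    le_antisymm (Nat.lt_succ_iff.mp (hm.lt_iff_lt.mp ((hκ i).1.trans_lt h2))) (hge i k h1)
  set x : ℕ → X := fun i => blk f (u (κ i) (S (κ i) + 1)) (L (κ i)) (i - S (κ i)) with hx
  have hD0 : 0 ≤ D := dist_nonneg.trans (hD (x 0) (x 0))
  have nj : ∀ i, ¬ L (κ (i + 1)) ∣ i + 1 - S (κ (i + 1)) → f (x i) = x (i + 1) := fun i h => by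
    have h0 : i + 1 - S (κ (i + 1)) ≠ 0 := fun h' => h (h' ▸ dvd_zero _)
    have e : κ i = κ (i + 1) := hκ' i _ (by omega) (by have := (hκ (i + 1)).2; omega)
    simp only [hx, e, blk]
    obtain ⟨r, hr⟩ := Nat.exists_eq_succ_of_ne_zero h0
    rw [hr] at h
    rw [hr, show i - S (κ (i + 1)) = r by omega, Nat.succ_div_of_not_dvd h,
      ← Function.iterate_succ_apply' f]
    congr 1
    rw [Nat.succ_eq_add_one, Nat.succ_eq_add_one, ← Nat.mod_add_mod r, eq_comm]
    refine Nat.mod_eq_of_lt (lt_of_le_of_ne (Nat.mod_lt _ (hL1 _)) fun h' => h ?_)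
    rw [Nat.dvd_iff_mod_eq_zero, Nat.succ_eq_add_one, ← Nat.mod_add_mod r, h', Nat.mod_self]
  have gap : ∀ t t', t < t' → L (κ t) ∣ t - S (κ t) → L (κ t') ∣ t' - S (κ t') →
      t + L (κ t) ≤ t' := by
    intro t t' h ⟨a, ha⟩ h2
    have b1 := (hκ t).1
    have b2 := (hκ t).2
    by_cases h3 : t' < S (κ t + 1)
    · rw [hκ' t' (κ t) (by omega) h3] at h2
      obtain ⟨b, hb⟩ := h2
      have : a < b := Nat.lt_of_mul_lt_mul_left (a := L (κ t)) (by omega)
      have := Nat.mul_le_mul_left (L (κ t)) (Nat.succ_le_of_lt this)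
      rw [Nat.mul_succ] at this
      omega
    · rw [hS, mul_comm] at b2 h3
      have : a < N (κ t) (S (κ t) + 1) := Nat.lt_of_mul_lt_mul_left (a := L (κ t)) (by omega)
      have := Nat.mul_le_mul_left (L (κ t)) (Nat.succ_le_of_lt this)
      rw [Nat.mul_succ] at this
      omega
  refine ⟨x, S, hS0, fun K a n => ?_, fun y => frequently_atTop.mpr fun k => ?_⟩
  · set T := (range n).filter fun i => L (κ (i + a + 1)) ∣ i + a + 1 - S (κ (i + a + 1)) with hT
    have c1 : ∑ i ∈ range n, dist (f (x (i + a))) (x (i + a + 1)) ≤ D * T.card := by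
      rw [← sum_subset (s₁ := T) (filter_subset _ _) fun i hi hi' => by
        rw [nj (i + a) fun h => hi' (mem_filter.mpr ⟨hi, h⟩), dist_self]]
      rw [mul_comm, ← nsmul_eq_mul]
      exact sum_le_card_nsmul _ _ _ fun i _ => hD _ _
    have c2 : (T.filter fun i => S K ≤ i).card ≤ n / L K + 1 := by
      rw [← card_range (n / L K + 1)]
      have mono : ∀ i ∈ T.filter fun i => S K ≤ i, ∀ j ∈ T.filter fun i => S K ≤ i, i < j →
          i / L K < j / L K := fun i hi j hj hij => by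
        have g := gap (i + a + 1) (j + a + 1) (by omega) (mem_filter.mp (mem_filter.mp hi).1).2
          (mem_filter.mp (mem_filter.mp hj).1).2
        have g2 := hL (hge (i + a + 1) K (by have := (mem_filter.mp hi).2; omega))
        have := Nat.div_le_div_right (c := L K) (show i + L K ≤ j by omega)
        rw [Nat.add_div_right _ (hL1 K)] at this
        omega
      refine card_le_card_of_injOn (fun i => i / L K) (fun i hi => ?_) fun i hi j hj hij => ?_
      · have := mem_range.mp (mem_filter.mp (mem_filter.mp hi).1).1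
        exact mem_coe.mpr (mem_range.mpr (Nat.lt_succ_of_le (Nat.div_le_div_right this.le)))
      · rcases lt_trichotomy i j with h | h | h
        · exact absurd hij (mono i hi j hj h).ne
        · exact h
        · exact absurd hij (mono j hj i hi h).ne'
    have c3 : (T.filter fun i => ¬ S K ≤ i).card ≤ S K := by
      conv_rhs => rw [← card_range (S K)]
      exact card_le_card fun i hi => mem_range.mpr (not_le.mp (mem_filter.mp hi).2)
    have c4 := card_filter_add_card_filter_not (s := T) fun i => S K ≤ i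
    have c5 : (T.card : ℝ) ≤ S K + ((n / L K : ℕ) + 1) := by
      exact_mod_cast (by omega : T.card ≤ S K + (n / L K + 1))
    refine c1.trans (mul_le_mul_of_nonneg_left (c5.trans ?_) hD0)
    have := Nat.cast_div_le (α := ℝ) (m := n) (n := L K)
    linarith
  · refine ⟨S (k + 1), (Nat.le_succ k).trans (hm.id_le (k + 1)), ?_⟩
    have p0 : (0 : ℝ) < S (k + 1) := by exact_mod_cast (Nat.zero_le _).trans_lt (hm (Nat.lt_succ_self k))
    rw [av, le_div_iff₀ p0, hS, sum_range_add]
    have h1 := hu k (S k + 1) (f^[S k] y)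
    have h2 : ∑ i ∈ range (N k (S k + 1) * L k), dist (f^[i] (f^[S k] y))
        (blk f (u k (S k + 1)) (L k) i) = ∑ i ∈ range (N k (S k + 1) * L k),
        dist (f^[S k + i] y) (x (S k + i)) := sum_congr rfl fun i hi => by
      have e : κ (S k + i) = k := hκ' _ _ (by omega) (by rw [hS]; have := mem_range.mp hi; omega)
      simp only [hx, e]
      rw [add_comm (S k) i, Function.iterate_add_apply, Nat.add_sub_cancel]
    have h3 : ((S k : ℕ) : ℝ) + 1 ≤ (N k (S k + 1) * L k : ℕ) := by exact_mod_cast hS2 k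
    have h4 : 0 ≤ ∑ i ∈ range (S k), dist (f^[i] y) (x i) := sum_nonneg fun _ _ => dist_nonneg
    rw [Nat.cast_add]
    nlinarith

theorem main : ∀ (X : Type) [MetricSpace X] [CompactSpace X] [MeasurableSpace X] [BorelSpace X]
    (f : X → X), Continuous f → (ASP f ∨ AASP f ∨ AlmostSpec f) → center f = Set.univ →
    (Mixing f ∨ 0 < Dynamics.coverEntropy f Set.univ) ∧
      (Nontrivial X → 0 < Dynamics.coverEntropy f Set.univ) := by
  intro X _ _ _ _ f hf hP hc
  suffices h : Nontrivial X → 0 < Dynamics.coverEntropy f Set.univ by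
    refine ⟨?_, h⟩
    rcases subsingleton_or_nontrivial X with h' | h'
    · exact Or.inl fun U V _ _ ⟨p, hp⟩ ⟨q, hq⟩ =>
        ⟨0, fun n _ => ⟨q, ⟨p, hp, Subsingleton.elim _ _⟩, hq⟩⟩
    · exact Or.inr (h h')
  intro _
  by_contra hent
  obtain ⟨c, hc, hp⟩ := pairs hf hc
  obtain ⟨D', hD'⟩ := Metric.isBounded_iff.mp (isCompact_univ (X := X)).isBounded
  set D := max D' 1 with hDd
  have hD : ∀ a b : X, dist a b ≤ D := fun a b => (hD' trivial trivial).trans (le_max_left _ _)
  have hD0 : 0 < D := one_pos.trans_le (le_max_right _ _)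
  have B : ∀ L, 1 ≤ L → ∀ m0, ∃ n, m0 ≤ n ∧ ∃ u : ℕ → X, ∀ z,
      c / 16 * (n * L : ℕ) ≤ ∑ i ∈ range (n * L), dist (f^[i] z) (blk f u L i) := fun L hL m0 => by
    obtain ⟨x, y, h⟩ := hp L
    exact bad hent hc hL h m0
  rcases hP with h | h | ⟨g, k, ⟨_, hg⟩, _, h⟩
  · obtain ⟨δ, hδ, h⟩ := h (c / 16 / 2) (by positivity)
    obtain ⟨L, hL⟩ := exists_nat_gt (2 * D / δ)
    have hL0 : (0 : ℝ) < L := lt_trans (by positivity) hL
    obtain ⟨x, S, hS0, h1, h2⟩ := concat hD (by positivity) (fun _ => L) monotone_const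
      (fun _ => by exact_mod_cast hL0) fun _ => B L (by exact_mod_cast hL0)
    obtain ⟨y, hy⟩ := h x ⟨L, fun n hn a => by
      have hn' : (L : ℝ) ≤ n := by exact_mod_cast hn
      rw [av, div_lt_iff₀ (hL0.trans_le hn')]
      refine (h1 0 a n).trans_lt ?_
      rw [div_lt_iff₀ hδ] at hL
      have : 1 ≤ (n : ℝ) / L := (one_le_div hL0).mpr hn'
      have e : δ * n = L * δ * (n / L) := by field_simp
      rw [hS0, e]
      push_cast
      nlinarith⟩
    refine absurd hy (not_lt.mpr (le_limsup_of_frequently_le (h2 y) ⟨D, ?_⟩))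
    refine eventually_map.mpr (Eventually.of_forall fun n => ?_)
    refine div_le_of_le_mul₀ (Nat.cast_nonneg n) hD0.le ?_
    have := sum_le_card_nsmul (range n) _ D fun i _ => hD (f^[i] y) (x i)
    rwa [card_range, nsmul_eq_mul, mul_comm] at this
  · obtain ⟨x, S, hS0, h1, h2⟩ := concat hD (by positivity) (fun k => k + 1)
      (fun a b h => Nat.succ_le_succ h) (fun _ => by omega) fun k => B (k + 1) (by omega)
    obtain ⟨y, hy⟩ := h x (by
      refine Metric.tendsto_atTop.mpr fun δ hδ => ?_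
      obtain ⟨K, hK⟩ := exists_nat_gt (2 * D / δ)
      obtain ⟨N, hN⟩ := exists_nat_gt (2 * D * (S K + 1) / δ)
      refine ⟨N, fun n hn => ?_⟩
      have hn' : (N : ℝ) ≤ n := by exact_mod_cast hn
      have hn0 : (0 : ℝ) < n := lt_of_lt_of_le (lt_trans (by positivity) hN) hn'
      rw [Real.dist_eq, sub_zero, av, abs_of_nonneg (div_nonneg (sum_nonneg fun _ _ => dist_nonneg)
        hn0.le), div_lt_iff₀ hn0]
      refine (h1 K 0 n).trans_lt ?_
      rw [div_lt_iff₀ hδ] at hK hN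
      have e : (n : ℝ) = (K + 1) * (n / (K + 1 : ℕ)) := by push_cast; field_simp
      have p : (0 : ℝ) ≤ n / (K + 1 : ℕ) := by positivity
      have q : 2 * D * (n / (K + 1 : ℕ)) ≤ δ * n := by
        conv_rhs => rw [e]
        nlinarith
      nlinarith)
    obtain ⟨n, a1, a2⟩ := ((h2 y).and_eventually (hy.eventually (gt_mem_nhds
      (by positivity : (0 : ℝ) < c / 16 / 2)))).exists
    exact absurd a1 (not_le.mpr a2)
  · obtain ⟨L, hL1, hL2, hL3⟩ := (((hg (c / 64) (by positivity)).2.eventually (gt_mem_nhds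
      (by positivity : (0 : ℝ) < c / 64 / D))).and ((eventually_ge_atTop 1).and
      (eventually_ge_atTop (k (c / 64))))).exists
    have hL0 : (0 : ℝ) < L := by exact_mod_cast hL2
    obtain ⟨n, hn, u, hu⟩ := B L hL2 1
    obtain ⟨z, hz⟩ := h n hn (fun _ => c / 64) u (fun _ => L) fun _ _ => ⟨by positivity, hL2, hL3⟩
    have h1 := hu z
    rw [sum_blk] at h1
    have h2 : ∀ j ∈ range n, ∑ r ∈ range L, dist (f^[j * L + r] z) (blk f u L (j * L + r)) ≤
        c / 32 * L := fun j hj => by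
      obtain ⟨Λ, hΛ, h3, h4⟩ := hz j (mem_range.mp hj)
      rw [← sum_sdiff hΛ]
      have a1 := sum_le_card_nsmul (range L \ Λ) _ D fun r _ =>
        hD (f^[j * L + r] z) (blk f u L (j * L + r))
      have a2 := sum_le_card_nsmul Λ (fun r => dist (f^[j * L + r] z) (blk f u L (j * L + r)))
        (c / 64) fun r hr => by
          have := h4 r hr
          rw [sum_const, card_range, smul_eq_mul, ← Function.iterate_add_apply, add_comm,
            dist_comm] at this
          rw [blk_eq _ _ (mem_range.mp (hΛ hr))]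
          exact this.le
      have a3 : ((range L \ Λ).card : ℝ) ≤ g L (c / 64) := by
        rw [card_sdiff_of_subset hΛ, card_range]
        exact_mod_cast (by omega : L - Λ.card ≤ g L (c / 64))
      have a4 : (Λ.card : ℝ) ≤ L := by exact_mod_cast (card_le_card hΛ).trans_eq (card_range L)
      rw [div_lt_div_iff₀ hL0 hD0] at hL1
      rw [nsmul_eq_mul] at a1 a2
      nlinarith
    have h3 := sum_le_card_nsmul _ _ _ h2
    rw [card_range, nsmul_eq_mul] at h3
    have : (0 : ℝ) < n := by exact_mod_cast hn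
    push_cast at h1
    nlinarith [mul_pos hc (mul_pos this hL0)]

end H91.AvShad
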