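import Mathlib

set_option autoImplicit false

open Polynomial

namespace H91.BalPair

/-- The substitution `σ` extended to finite words by concatenation. -/
def app {k : ℕ} (σ : Fin k → List (Fin k)) (U : List (Fin k)) : List (Fin k) := U.flatMap σ

/-- The reversal of a substitution. -/
def rev {k : ℕ} (σ : Fin k → List (Fin k)) : Fin k → List (Fin k) := fun i => (σ i).reverse

/-- The vector counting occurrences of each letter. -/
def lv {k : ℕ} (U : List (Fin k)) : Fin k → ℤ := fun i => (U.count i : ℤ)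

/-- The incidence matrix. -/
def inc {k : ℕ} (σ : Fin k → List (Fin k)) : Matrix (Fin k) (Fin k) ℤ :=
  fun i j => ((σ j).count i : ℤ)

/-- The reciprocal `x^k p(1/x)` of a polynomial `p` of degree `k`. -/
noncomputable def recip (k : ℕ) (p : ℤ[X]) : ℤ[X] :=
  ∑ i ∈ Finset.range (k + 1), C (p.coeff i) * X ^ (k - i)

/-- A Pisot number: a real algebraic integer `> 1` whose other conjugates have modulus `< 1`. -/
def IsPisotNumber (x : ℝ) : Prop :=
  1 < x ∧ IsIntegral ℤ x ∧ ∀ z : ℂ, aeval z (minpoly ℚ x) = 0 → z ≠ x → ‖z‖ < 1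

/-- `x` is the Perron-Frobenius eigenvalue: a real eigenvalue of maximal modulus. -/
def IsPF {k : ℕ} (M : Matrix (Fin k) (Fin k) ℤ) (x : ℝ) : Prop :=
  aeval x M.charpoly = 0 ∧ ∀ z : ℂ, aeval z M.charpoly = 0 → ‖z‖ ≤ x

/-- Unimodular irreducible Pisot substitution. -/
def IsUIP {k : ℕ} (σ : Fin k → List (Fin k)) : Prop :=
  (∃ x : ℝ, IsPF (inc σ) x ∧ IsPisotNumber x) ∧
    Irreducible ((inc σ).charpoly.map (Int.castRingHom ℚ)) ∧ |(inc σ).det| = 1

/-- The prefix of length `n` of an infinite word. -/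
def pre {k : ℕ} (u : ℕ → Fin k) (n : ℕ) : List (Fin k) := (List.range n).map u

/-- `σ(u) = u`: the images of the prefixes of `u` are prefixes of `u`, of unbounded length. -/
def IsFixed {k : ℕ} (σ : Fin k → List (Fin k)) (u : ℕ → Fin k) : Prop :=
  (∀ n, app σ (pre u n) = pre u (app σ (pre u n)).length) ∧
    ∀ N, ∃ n, N ≤ (app σ (pre u n)).length

/-- Pairs of finite words. -/
abbrev Pair (k : ℕ) := List (Fin k) × List (Fin k)

/-- `P` is the pair of prefixes of `u, v` of the least common length `n ≥ 1` that is balanced. -/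
def IsStart {k : ℕ} (u v : ℕ → Fin k) (P : Pair k) : Prop :=
  ∃ n, 1 ≤ n ∧ P = (pre u n, pre v n) ∧ lv (pre u n) = lv (pre v n) ∧
    ∀ m, 1 ≤ m → m < n → lv (pre u m) ≠ lv (pre v m)

/-- The lengths `0 ≤ m ≤ |U|` (increasing) at which the prefix vectors of the pair agree. -/
def cuts {k : ℕ} (P : Pair k) : List ℕ :=
  (List.range (P.1.length + 1)).filter fun m => lv (P.1.take m) = lv (P.2.take m)

/-- The splitting of a balanced pair into minimal balanced pairs: cut wherever the prefix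
vectors agree. -/
def split {k : ℕ} (P : Pair k) : List (Pair k) :=
  List.zipWith (fun a b => ((P.1.take b).drop a, (P.2.take b).drop a)) (cuts P) (cuts P).tail

/-- The image word `P₁ ⋯ P_r` of the pair `P = (U, V)`: the splitting of `(σ U, rev σ V)`. -/
def bp {k : ℕ} (σ : Fin k → List (Fin k)) (P : Pair k) : List (Pair k) :=
  split (app σ P.1, app (rev σ) P.2)

/-- The pairs reachable from `P₀`. -/
def Reach {k : ℕ} (σ : Fin k → List (Fin k)) (P₀ Q : Pair k) : Prop :=
  Relation.ReflTransGen (fun P Q => Q ∈ bp σ P) P₀ Q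

/-- The incidence matrix of the balanced pair substitution on the finite alphabet `B`. -/
def bpInc {k : ℕ} (σ : Fin k → List (Fin k)) (B : Finset (Pair k)) : Matrix B B ℤ :=
  fun Q P => ((bp σ P.1).count Q.1 : ℤ)

/-- `σ` with fixed points `u` of `σ` and `v` of its reversal is a counterexample: `σ` is unimodular
irreducible Pisot, the algorithm is defined and ends with a finite alphabet `B`, `p ≠ ± q`, and
`q` does not divide the characteristic polynomial of the balanced pair substitution. -/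
def Cex {k : ℕ} (σ : Fin k → List (Fin k)) (u v : ℕ → Fin k) : Prop :=
  IsUIP σ ∧ IsFixed σ u ∧ IsFixed (rev σ) v ∧
    ∃ (P₀ : Pair k) (B : Finset (Pair k)), IsStart u v P₀ ∧ (∀ Q, Q ∈ B ↔ Reach σ P₀ Q) ∧
      (inc σ).charpoly ≠ recip k (inc σ).charpoly ∧
      (inc σ).charpoly ≠ -recip k (inc σ).charpoly ∧
      ¬ (recip k (inc σ).charpoly).map (Int.castRingHom ℚ) ∣
        (bpInc σ B).charpoly.map (Int.castRingHom ℚ)

section fixed
variable {k : ℕ}

lemma app_prefix (σ : Fin k → List (Fin k)) {U V : List (Fin k)} (h : U <+: V) :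
    app σ U <+: app σ V := by
  obtain ⟨t, rfl⟩ := h
  exact ⟨app σ t, by simp [app]⟩

lemma len_app (σ : Fin k → List (Fin k)) (hne : ∀ i, σ i ≠ []) (U : List (Fin k)) :
    U.length ≤ (app σ U).length := by
  induction U with
  | nil => simp
  | cons a t ih =>
    have : 0 < (σ a).length := List.length_pos_iff.mpr (hne a)
    simp only [app, List.flatMap_cons, List.length_append, List.length_cons] at ih ⊢
    omega

lemma exists_fixed (σ : Fin k → List (Fin k)) (hne : ∀ i, σ i ≠ []) (a : Fin k)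
    (t : List (Fin k)) (ha : σ a = a :: t) (ht : t ≠ []) :
    ∃ u : ℕ → Fin k, IsFixed σ u ∧
      ∀ n m, m ≤ ((app σ)^[n] [a]).length → pre u m = ((app σ)^[n] [a]).take m := by
  set w : ℕ → List (Fin k) := fun n => (app σ)^[n] [a] with hw
  have hs : ∀ n, w (n + 1) = app σ (w n) := fun n => by
    simp only [hw, Function.iterate_succ_apply']
  have h1 : ∀ n, w n <+: w (n + 1) := by
    intro n
    induction n with
    | zero => exact ⟨t, by rw [hs]; simp [hw, app, ha]⟩
    | succ n ih => rw [hs (n + 1), hs n] at *; exact app_prefix σ ih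
  have h2 : ∀ n m, n ≤ m → w n <+: w m := by
    intro n m h
    induction m, h using Nat.le_induction with
    | base => exact List.prefix_refl _
    | succ m _ ih => exact ih.trans (h1 m)
  have h3 : ∀ n, n + 1 ≤ (w n).length := by
    intro n
    induction n with
    | zero => simp [hw]
    | succ n ih =>
      obtain ⟨r, hr⟩ := h2 0 n (Nat.zero_le n)
      have h0 : w 0 = [a] := rfl
      rw [h0] at hr
      have h4 := len_app σ hne r
      have h5 : 0 < t.length := List.length_pos_iff.mpr ht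
      rw [hs, ← hr]
      rw [← hr] at ih
      simp only [app, List.flatMap_cons, List.length_append, List.length_cons, ha,
        List.singleton_append] at ih h4 ⊢
      omega
  let u : ℕ → Fin k := fun i => (w i)[i]'(by have := h3 i; omega)
  have h4 : ∀ n i (hi : i < (w n).length), (w n)[i] = u i := by
    intro n i hi
    have hi' : i < (w i).length := by have := h3 i; omega
    rcases le_total n i with h | h
    · exact (h2 n i h).getElem hi
    · exact ((h2 i n h).getElem hi').symm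
  have h5 : ∀ n m, m ≤ (w n).length → pre u m = (w n).take m := by
    intro n m hm
    apply List.ext_getElem
    · simp [pre, hm]
    · intro i h1 h2
      simp only [pre, List.length_map, List.length_range] at h1
      simp only [pre, List.getElem_map, List.getElem_range, List.getElem_take]
      exact (h4 n i (by omega)).symm
  refine ⟨u, ⟨fun n => ?_, fun N => ⟨N, ?_⟩⟩, h5⟩
  · have h6 : pre u n <+: w n := by
      rw [h5 n n (by have := h3 n; omega)]; exact List.take_prefix _ _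
    have h7 := app_prefix σ h6
    rw [← hs] at h7
    rw [h5 (n + 1) _ h7.length_le]
    exact List.prefix_iff_eq_take.mp h7
  · have := len_app σ hne (pre u N)
    simpa [pre] using this

end fixed

lemma reach_iff {k : ℕ} (σ : Fin k → List (Fin k)) (L : List (Pair k)) (P₀ : Pair k)
    (h0 : P₀ ∈ L) (hc : ∀ P ∈ L, ∀ Q ∈ bp σ P, Q ∈ L) (hr : ∀ Q ∈ L, Reach σ P₀ Q) :
    ∀ Q, Q ∈ L.toFinset ↔ Reach σ P₀ Q := by
  intro Q
  rw [List.mem_toFinset]
  refine ⟨hr Q, fun h => ?_⟩
  induction h with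
  | refl => exact h0
  | tail _ h ih => exact hc _ ih _ h

lemma not_dvd {k n : ℕ} (σ : Fin k → List (Fin k)) (f : Fin n → Pair k)
    (hf : Function.Injective f) (B : Finset (Pair k)) (hB : ∀ Q, Q ∈ B ↔ ∃ i, f i = Q)
    (A N : Matrix (Fin n) (Fin n) ℤ) (hA : ∀ i j, (((bp σ (f j)).count (f i) : ℕ) : ℤ) = A i j)
    (t d : ℤ) (hN : N * (Matrix.scalar (Fin n) t - A) = Matrix.scalar (Fin n) d)
    (q : ℤ[X]) (s : ℤ) (hs : s * s = 1) (hq : (C s * q).Monic) (hd : ¬ q.eval t ∣ d ^ n) :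
    ¬ q.map (Int.castRingHom ℚ) ∣ (bpInc σ B).charpoly.map (Int.castRingHom ℚ) := by
  intro h
  let e : Fin n ≃ B := Equiv.ofBijective (fun i => ⟨f i, (hB _).mpr ⟨i, rfl⟩⟩)
    ⟨fun i j hij => hf (congrArg Subtype.val hij), fun Q => by
      obtain ⟨i, hi⟩ := (hB Q.1).mp Q.2
      exact ⟨i, Subtype.ext hi⟩⟩
  have h1 : bpInc σ B = Matrix.reindex e e A := by
    ext P Q
    obtain ⟨i, rfl⟩ := e.surjective P
    obtain ⟨j, rfl⟩ := e.surjective Q
    simp only [Matrix.reindex_apply, Matrix.submatrix_apply, Equiv.symm_apply_apply]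
    exact hA i j
  rw [h1, Matrix.charpoly_reindex] at h
  have hq' : q = C s * (C s * q) := by rw [← mul_assoc, ← C_mul, hs]; simp
  have h2 : (C s * q).map (Int.castRingHom ℚ) ∣ A.charpoly.map (Int.castRingHom ℚ) := by
    refine Dvd.dvd.trans ?_ h
    conv_rhs => rw [hq', Polynomial.map_mul]
    exact Dvd.intro_left _ rfl
  rw [Polynomial.map_dvd_map _ (RingHom.injective_int _) hq] at h2
  have h3 : q ∣ A.charpoly := (Dvd.intro_left _ rfl).trans h2
  have h4 := Polynomial.eval_dvd (x := t) h3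
  rw [Matrix.eval_charpoly] at h4
  have h5 := congrArg Matrix.det hN
  rw [Matrix.det_mul, Matrix.scalar_apply (a := d), Matrix.det_diagonal] at h5
  simp only [Finset.prod_const, Finset.card_univ, Fintype.card_fin] at h5
  exact hd (h5 ▸ h4.mul_left _)

lemma uip (σ : Fin 3 → List (Fin 3)) (c e : ℤ) (hp : (inc σ).charpoly = X ^ 3 - C c * X ^ 2 - C e)
    (hdet : |(inc σ).det| = 1) (he : e = 1 ∨ e = -1) (h1 : 1 - c - e ≠ 0) (h2 : -1 - c - e ≠ 0)
    (lo hi : ℝ) (hlo : 1 < lo) (hle : lo ≤ hi) (flo : lo ^ 3 - c * lo ^ 2 - e ≤ 0)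
    (fhi : 0 ≤ hi ^ 3 - c * hi ^ 2 - e)
    (hab : ∀ x ∈ Set.Icc lo hi, |x - c| + |x * (x - c)| < 1) : IsUIP σ := by
  obtain ⟨x, hx, hx0⟩ : ∃ x ∈ Set.Icc lo hi, x ^ 3 - c * x ^ 2 - e = 0 := by
    have hc : ContinuousOn (fun x : ℝ => x ^ 3 - c * x ^ 2 - e) (Set.Icc lo hi) := by fun_prop
    exact intermediate_value_Icc hle hc ⟨flo, fhi⟩
  have hx1 : 1 < x := hlo.trans_le hx.1
  have hmon : (X ^ 3 - C c * X ^ 2 - C e : ℤ[X]).Monic := by monicity!
  have hdeg : (X ^ 3 - C c * X ^ 2 - C e : ℤ[X]).natDegree = 3 := by compute_degree!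
  have hroot : ∀ z : ℂ, z ^ 3 - c * z ^ 2 - e = 0 → z ≠ x → ‖z‖ < 1 := by
    intro z hz hne
    have hx0' : (x : ℂ) ^ 3 - c * (x : ℂ) ^ 2 - e = 0 := by exact_mod_cast hx0
    have h3 : (z - x) * (z ^ 2 + ((x - c : ℝ) : ℂ) * z + ((x * (x - c) : ℝ) : ℂ)) = 0 := by
      push_cast; linear_combination hz - hx0'
    have h4 : z ^ 2 = -(((x - c : ℝ) : ℂ) * z + ((x * (x - c) : ℝ) : ℂ)) := by
      rcases mul_eq_zero.mp h3 with h | h
      · exact absurd (sub_eq_zero.mp h) hne
      · linear_combination h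
    have h5 : ‖z‖ ^ 2 ≤ |x - c| * ‖z‖ + |x * (x - c)| := by
      rw [← norm_pow, h4, norm_neg]
      refine (norm_add_le _ _).trans (le_of_eq ?_)
      rw [norm_mul, Complex.norm_real, Complex.norm_real, Real.norm_eq_abs, Real.norm_eq_abs]
    have h6 := hab x hx
    by_contra hcon
    push Not at hcon
    have := abs_nonneg (x - c)
    have := abs_nonneg (x * (x - c))
    nlinarith
  have hirr : Irreducible ((X ^ 3 - C c * X ^ 2 - C e : ℤ[X]).map (Int.castRingHom ℚ)) := by
    have hm := hmon.map (Int.castRingHom ℚ)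
    have hd : ((X ^ 3 - C c * X ^ 2 - C e : ℤ[X]).map (Int.castRingHom ℚ)).natDegree = 3 := by
      rw [hmon.natDegree_map, hdeg]
    rw [irreducible_iff_roots_eq_zero_of_degree_le_three (by omega) (by omega)]
    rw [Multiset.eq_zero_iff_forall_notMem]
    intro r hr
    rw [mem_roots hm.ne_zero, IsRoot, eval_map, ← algebraMap_int_eq, ← aeval_def] at hr
    obtain ⟨n, hn⟩ := isInteger_of_is_root_of_monic hmon hr
    rw [← hn] at hr
    have h3 : n ^ 3 - c * n ^ 2 - e = 0 := by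
      have : ((n ^ 3 - c * n ^ 2 - e : ℤ) : ℚ) = 0 := by simpa using hr
      exact_mod_cast this
    have h4 : n * (e * (n ^ 2 - c * n)) = 1 := by
      rcases he with rfl | rfl
      · linear_combination h3
      · linear_combination -h3
    rcases Int.eq_one_or_neg_one_of_mul_eq_one h4 with rfl | rfl
    · apply h1; linear_combination h3
    · apply h2; linear_combination h3
  have hax : aeval x (X ^ 3 - C c * X ^ 2 - C e : ℤ[X]) = 0 := by simpa using hx0
  refine ⟨⟨x, ⟨by rw [hp]; exact hax, fun z hz => ?_⟩, hx1, ⟨_, hmon, hax⟩, fun z hz hne => ?_⟩,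
    by rw [hp]; exact hirr, hdet⟩
  · rw [hp] at hz
    by_cases h : z = x
    · rw [h, Complex.norm_real, Real.norm_eq_abs, abs_of_pos (by linarith)]
    · exact (hroot z (by simpa using hz) h).le.trans hx1.le
  · have hm : (X ^ 3 - C c * X ^ 2 - C e : ℤ[X]).map (Int.castRingHom ℚ) = minpoly ℚ x :=
      minpoly.eq_of_irreducible_of_monic hirr (by simpa using hx0) (hmon.map _)
    rw [← hm] at hz
    exact hroot z (by simpa using hz) hne

lemma recip_eq (c e : ℤ) :
    recip 3 (X ^ 3 - C c * X ^ 2 - C e) = 1 - C c * X - C e * X ^ 3 := by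
  simp only [recip, Finset.sum_range_succ, Finset.range_zero, Finset.sum_empty, coeff_sub,
    coeff_X_pow, coeff_C_mul, coeff_C]
  simp
  ring

def s1 : Fin 3 → List (Fin 3) := ![[0, 1], [2, 1], [0, 0, 1]]
def s2 : Fin 3 → List (Fin 3) := ![[0, 1], [1, 2, 1], [1, 0, 1]]
def f1 : Fin 3 → Pair 3 := ![([0, 1, 2, 1], [1, 2, 1, 0]), ([0], [0]), ([0, 1], [1, 0])]
def f2 : Fin 7 → Pair 3 := ![([1], [1]), ([2], [2]), ([0], [0]), ([0, 1], [1, 0]),
  ([0, 1, 1, 2, 1], [1, 2, 1, 1, 0]), ([2, 1], [1, 2]), ([0, 1, 1, 2], [2, 1, 1, 0])]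

lemma inc1 : inc s1 = !![1, 0, 2; 1, 1, 1; 0, 1, 0] := by decide
lemma inc2 : inc s2 = !![1, 0, 1; 1, 2, 2; 0, 1, 0] := by decide

lemma cp1 : (inc s1).charpoly = X ^ 3 - C 2 * X ^ 2 - C 1 := by
  rw [inc1]
  simp [Matrix.charpoly, Matrix.det_fin_three, Matrix.charmatrix_apply]
  ring

lemma cp2 : (inc s2).charpoly = X ^ 3 - C 3 * X ^ 2 - C (-1) := by
  rw [inc2]
  simp [Matrix.charpoly, Matrix.det_fin_three, Matrix.charmatrix_apply]
  ring

lemma cex1 : ∃ u v, Cex s1 u v ∧ (inc s1).det = 1 := by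
  have hdet : (inc s1).det = 1 := by rw [inc1, Matrix.det_fin_three]; simp
  obtain ⟨u, hu, hu'⟩ := exists_fixed s1 (by decide) 0 [1] rfl (by simp)
  obtain ⟨v, hv, hv'⟩ := exists_fixed (rev s1) (by decide) 1 [2] rfl (by simp)
  refine ⟨u, v, ⟨?_, hu, hv, f1 0, (List.ofFn f1).toFinset, ?_, ?_, ?_, ?_, ?_⟩, hdet⟩
  · refine uip s1 2 1 cp1 (by rw [hdet]; rfl) (Or.inl rfl) (by norm_num) (by norm_num) 2 (9 / 4)
      (by norm_num) (by norm_num) (by norm_num) (by norm_num) ?_
    rintro x ⟨h1, h2⟩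
    push_cast
    rw [abs_of_nonneg (by linarith), abs_of_nonneg (by nlinarith)]
    nlinarith
  · refine ⟨4, by norm_num, ?_, ?_, ?_⟩
    · rw [hu' 2 4 (by decide), hv' 2 4 (by decide)]; decide
    · rw [hu' 2 4 (by decide), hv' 2 4 (by decide)]; decide
    · intro m h1 h2
      have h3 : ((app s1)^[2] [0]).length = 4 := by decide
      have h4 : ((app (rev s1))^[2] [1]).length = 5 := by decide
      rw [hu' 2 m (by omega), hv' 2 m (by omega)]
      interval_cases m <;> decide
  · refine reach_iff s1 _ _ (by decide) (by decide) ?_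
    have r0 : Reach s1 (f1 0) (f1 0) := .refl
    have r1 : Reach s1 (f1 0) (f1 1) := r0.tail (by decide)
    have r2 : Reach s1 (f1 0) (f1 2) := r1.tail (by decide)
    intro Q hQ
    rw [List.mem_ofFn] at hQ
    obtain ⟨i, rfl⟩ := hQ
    fin_cases i
    exacts [r0, r1, r2]
  · rw [cp1, recip_eq]
    intro h
    have := congrArg (eval 0) h
    simp at this
  · rw [cp1, recip_eq]
    intro h
    have := congrArg (eval 1) h
    simp at this
  · rw [cp1, recip_eq]
    refine not_dvd s1 f1 (by decide) _ (fun Q => by rw [List.mem_toFinset, List.mem_ofFn])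
      !![2, 0, 1; 1, 0, 0; 0, 1, 0] !![4, 1, 2; 2, 0, 1; 1, 0, 0] (by decide) 2 (-1) (by decide)
      _ (-1) (by norm_num) ?_ (by simp)
    have : (C (-1) * (1 - C 2 * X - C 1 * X ^ 3) : ℤ[X]) = X ^ 3 + C 2 * X - 1 := by
      simp; ring
    rw [this]; monicity!

lemma cex2 : ∃ u v, Cex s2 u v ∧ (inc s2).det = -1 ∧ u 0 = v 0 := by
  have hdet : (inc s2).det = -1 := by rw [inc2, Matrix.det_fin_three]; simp
  obtain ⟨u, hu, hu'⟩ := exists_fixed s2 (by decide) 1 [2, 1] rfl (by simp)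
  obtain ⟨v, hv, hv'⟩ := exists_fixed (rev s2) (by decide) 1 [2, 1] rfl (by simp)
  have hu0 : pre u 1 = [1] := hu' 0 1 (by simp)
  have hv0 : pre v 1 = [1] := hv' 0 1 (by simp)
  refine ⟨u, v, ⟨?_, hu, hv, f2 0, (List.ofFn f2).toFinset, ?_, ?_, ?_, ?_, ?_⟩, hdet, ?_⟩
  · refine uip s2 3 (-1) cp2 (by rw [hdet]; rfl) (Or.inr rfl) (by norm_num) (by norm_num)
      (14 / 5) 3 (by norm_num) (by norm_num) (by norm_num) (by norm_num) ?_
    rintro x ⟨h1, h2⟩
    push_cast
    rw [abs_of_nonpos (by linarith), abs_of_nonpos (by nlinarith)]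
    nlinarith
  · refine ⟨1, le_rfl, ?_, ?_, ?_⟩
    · rw [hu0, hv0]; rfl
    · rw [hu0, hv0]
    · intro m h1 h2; omega
  · refine reach_iff s2 _ _ (by decide) (by decide) ?_
    have r0 : Reach s2 (f2 0) (f2 0) := .refl
    have r1 : Reach s2 (f2 0) (f2 1) := r0.tail (by decide)
    have r2 : Reach s2 (f2 0) (f2 2) := r1.tail (by decide)
    have r3 : Reach s2 (f2 0) (f2 3) := r2.tail (by decide)
    have r4 : Reach s2 (f2 0) (f2 4) := r3.tail (by decide)
    have r5 : Reach s2 (f2 0) (f2 5) := r4.tail (by decide)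
    have r6 : Reach s2 (f2 0) (f2 6) := r5.tail (by decide)
    intro Q hQ
    rw [List.mem_ofFn] at hQ
    obtain ⟨i, rfl⟩ := hQ
    fin_cases i
    exacts [r0, r1, r2, r3, r4, r5, r6]
  · rw [cp2, recip_eq]
    intro h
    have := congrArg (eval 2) h
    simp at this
  · rw [cp2, recip_eq]
    intro h
    have := congrArg (eval 0) h
    simp at this
  · rw [cp2, recip_eq]
    refine not_dvd s2 f2 (by decide) _ (fun Q => by rw [List.mem_toFinset, List.mem_ofFn])
      !![2, 2, 0, 0, 2, 2, 3; 1, 0, 0, 0, 0, 0, 0; 0, 1, 0, 0, 0, 0, 0; 0, 0, 1, 0, 0, 0, 2;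
        0, 0, 0, 1, 2, 0, 0; 0, 0, 0, 0, 1, 0, 2; 0, 0, 0, 0, 0, 1, 0]
      !![171, 137, 69, 207, 621, 279, 495; 57, 57, 23, 69, 207, 93, 165;
        19, 19, 19, 23, 69, 31, 55; 7, 7, 7, 21, 29, 15, 31; 7, 7, 7, 21, 63, 15, 31;
        3, 3, 3, 9, 27, 21, 23; 1, 1, 1, 3, 9, 7, 19] (by decide) 3 34 (by decide)
      _ 1 (by norm_num) ?_ (by simp)
    have : (C 1 * (1 - C 3 * X - C (-1) * X ^ 3) : ℤ[X]) = X ^ 3 - C 3 * X + 1 := by
      simp; ring
    rw [this]; monicity!
  · have h1 : u 0 = 1 := by simpa [pre] using hu0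
    have h2 : v 0 = 1 := by simpa [pre] using hv0
    rw [h1, h2]

theorem main : (∃ (σ : Fin 3 → List (Fin 3)) (u v : ℕ → Fin 3), Cex σ u v ∧ (inc σ).det = 1) ∧
    ∃ (σ : Fin 3 → List (Fin 3)) (u v : ℕ → Fin 3), Cex σ u v ∧ (inc σ).det = -1 ∧ u 0 = v 0 :=
  ⟨⟨s1, cex1⟩, ⟨s2, cex2⟩⟩

end H91.BalPair
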