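import Pool.Agent.H91.Equi

set_option autoImplicit false

namespace H91.Bergman
open Complex Metric Set Filter Topology MeasureTheory Finset Polynomial
open scoped ComplexConjugate

/-- for every `k`, `e k` is an `L²(ν)`-orthonormal family of `N_k = k+1` polynomials of degree
at most `k` -/
def ONB (ν : Measure ℂ) (e : (k : ℕ) → Fin (k + 1) → ℂ[X]) : Prop :=
  ∀ k : ℕ, (∀ i, (e k i).degree ≤ k) ∧
    ∀ i j, ∫ z, conj ((e k i).eval z) * (e k j).eval z ∂ν = if i = j then 1 else 0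

/-- the Bergman function -/
noncomputable def B (e : (k : ℕ) → Fin (k + 1) → ℂ[X]) (k : ℕ) (z : ℂ) : ℝ :=
  ∑ i, ‖(e k i).eval z‖ ^ 2

noncomputable def pt (j : ℕ) : ℂ := exp (j * I)

lemma pt_norm (j : ℕ) : ‖pt j‖ = 1 := by
  unfold pt; exact_mod_cast norm_exp_ofReal_mul_I (j : ℝ)

lemma pt_inj : Function.Injective pt := by
  intro i j h
  by_contra hne
  apply H91.Equi.exp_ne_one (n := (i : ℤ) - j) (by omega)
  unfold pt at h
  push_cast
  rw [sub_mul, exp_sub, h, div_self (exp_ne_zero _)]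

lemma bdd (g : ℂ → ℝ) (hg : Continuous g) : ∃ C, 0 ≤ C ∧ ∀ j, |g (pt j)| ≤ C := by
  obtain ⟨C, hC⟩ := (isCompact_sphere (0 : ℂ) 1).exists_bound_of_continuousOn hg.continuousOn
  exact ⟨C, (norm_nonneg _).trans (hC 1 (by simp)), fun j => hC _ (by simp [pt_norm])⟩

noncomputable def lg (k j : ℕ) : ℂ[X] := Lagrange.basis (range (k + 1)) pt j

lemma exM (k : ℕ) : ∃ M : ℝ, 1 ≤ M ∧ ∀ j ≤ k, ∀ i, ‖(lg k j).eval (pt i)‖ ^ 2 ≤ M := by
  obtain ⟨C, h0, hC⟩ := bdd (fun z => ∑ j ∈ range (k + 1), ‖(lg k j).eval z‖ ^ 2) (by fun_prop)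
  refine ⟨C + 1, by linarith, fun j hj i => ?_⟩
  have := Finset.single_le_sum (f := fun j => ‖(lg k j).eval (pt i)‖ ^ 2) (s := range (k + 1))
    (fun _ _ => by positivity) (mem_range.2 (by omega : j < k + 1))
  linarith [le_abs_self (∑ j ∈ range (k + 1), ‖(lg k j).eval (pt i)‖ ^ 2), hC i]

noncomputable def M (k : ℕ) : ℝ := (exM k).choose

noncomputable def c : ℕ → ℝ
  | 0 => 1
  | k + 1 => c k * Real.exp (-(2 * (k + 1) ^ 2)) / (2 * (k + 1) * M k)

lemma M1 (k : ℕ) : 1 ≤ M k := (exM k).choose_spec.1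

lemma c_pos (k : ℕ) : 0 < c k := by
  induction k with
  | zero => exact one_pos
  | succ k ih => have := M1 k; unfold c; positivity

lemma c_step (k : ℕ) : c (k + 1) * (2 * (k + 1) * M k) ≤ c k := by
  have := M1 k
  have h1 : Real.exp (-(2 * ((k : ℝ) + 1) ^ 2)) ≤ 1 :=
    Real.exp_le_one_iff.2 (by simp; positivity)
  rw [c, div_mul_cancel₀ _ (by positivity)]
  exact mul_le_of_le_one_right (c_pos k).le h1

lemma c_half (k : ℕ) : c (k + 1) ≤ c k / 2 := by
  have h1 := c_step k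
  have h2 := M1 k
  have h3 := c_pos (k + 1)
  have h4 : (0 : ℝ) ≤ k := by positivity
  have : 2 ≤ 2 * ((k : ℝ) + 1) * M k := by nlinarith
  nlinarith

lemma c_geo (k i : ℕ) : c (i + k) ≤ c k * (1 / 2) ^ i := by
  induction i with
  | zero => simp
  | succ i ih =>
    rw [show i + 1 + k = (i + k) + 1 by ring, pow_succ]
    linarith [c_half (i + k)]

lemma c_anti {j k : ℕ} (h : j ≤ k) : c k ≤ c j := by
  obtain ⟨i, rfl⟩ := Nat.exists_eq_add_of_le' h
  refine (c_geo j i).trans (mul_le_of_le_one_right (c_pos j).le ?_)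
  exact pow_le_one₀ (by norm_num) (by norm_num)

lemma c_exp (k : ℕ) : c k ≤ Real.exp (-(2 * (k : ℝ) ^ 2)) := by
  cases k with
  | zero => simp [c]
  | succ k =>
    have h2 := M1 k
    have h4 : (0 : ℝ) ≤ k := by positivity
    have h5 : c k ≤ 1 := c_anti (Nat.zero_le k)
    rw [c, div_le_iff₀ (by positivity)]
    push_cast
    rw [mul_comm]
    refine mul_le_mul_of_nonneg_left ?_ (Real.exp_pos _).le
    nlinarith

lemma c_summ : Summable c :=
  Summable.of_nonneg_of_le (fun k => (c_pos k).le) (fun k => c_geo 0 k)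
    (summable_geometric_two.mul_left _)

lemma summ (g : ℂ → ℝ) (hg : Continuous g) : Summable fun j => c j * g (pt j) := by
  obtain ⟨C, _, hC⟩ := bdd g hg
  refine Summable.of_norm_bounded (c_summ.mul_right C) fun j => ?_
  rw [Real.norm_eq_abs, abs_mul, abs_of_pos (c_pos j)]
  exact mul_le_mul_of_nonneg_left (hC j) (c_pos j).le

noncomputable def nu : Measure ℂ := Measure.sum fun j => ENNReal.ofReal (c j) • Measure.dirac (pt j)

lemma int_nu {E : Type*} [NormedAddCommGroup E] [NormedSpace ℝ E] [FiniteDimensional ℝ E]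
    (g : ℂ → E) : ∫ z, g z ∂nu = ∑' j, c j • g (pt j) := by
  unfold nu
  rw [integral_sum_dirac (by simp)]
  simp [ENNReal.toReal_ofReal (c_pos _).le]

noncomputable abbrev H := lp (fun _ : ℕ => ℂ) 2

noncomputable def Φ : ℂ[X] →ₗ[ℂ] H where
  toFun p := ⟨fun j => (√(c j) : ℝ) * p.eval (pt j), memℓp_gen (by
    refine (summ (fun z => ‖p.eval z‖ ^ 2) (by fun_prop)).congr fun j => ?_
    simp [mul_pow, Real.sq_sqrt (c_pos j).le])⟩
  map_add' p q := by ext j; simp [mul_add]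
  map_smul' a p := by ext j; simp; ring

lemma Φ_apply (p : ℂ[X]) (j : ℕ) : Φ p j = (√(c j) : ℝ) * p.eval (pt j) := rfl

lemma Φ_inner (p q : ℂ[X]) : inner ℂ (Φ p) (Φ q) = ∫ z, conj (p.eval z) * q.eval z ∂nu := by
  rw [int_nu, lp.inner_eq_tsum]
  refine tsum_congr fun j => ?_
  rw [Φ_apply, Φ_apply]
  have : ((√(c j) : ℝ) : ℂ) * (√(c j) : ℝ) = c j := by
    rw [← ofReal_mul, Real.mul_self_sqrt (c_pos j).le]
  simp only [RCLike.inner_apply, map_mul, conj_ofReal, real_smul]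
  linear_combination (eval (pt j) q * conj (eval (pt j) p)) * this

lemma Φ_norm (p : ℂ[X]) : HasSum (fun j => c j * ‖p.eval (pt j)‖ ^ 2) (‖Φ p‖ ^ 2) := by
  have := lp.hasSum_norm (p := 2) (by norm_num) (Φ p)
  simp only [ENNReal.toReal_ofNat, Real.rpow_ofNat] at this
  convert this using 2 with j
  rw [Φ_apply]
  simp [mul_pow, Real.sq_sqrt (c_pos j).le]

lemma Φ_inj : Function.Injective Φ := by
  rw [injective_iff_map_eq_zero]
  intro p hp
  apply Polynomial.eq_zero_of_infinite_isRoot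
  refine Set.infinite_of_injective_forall_mem pt_inj fun j => ?_
  have h1 : Φ p j = 0 := by rw [hp]; rfl
  rw [Φ_apply] at h1
  refine (mul_eq_zero.1 h1).resolve_left ?_
  exact Complex.ofReal_ne_zero.2 (Real.sqrt_pos.2 (c_pos j)).ne'

lemma fr (k : ℕ) : Module.finrank ℂ (degreeLT ℂ (k + 1)) = k + 1 := by
  rw [(degreeLTEquiv ℂ (k + 1)).finrank_eq]; simp

lemma mem_dlt {k : ℕ} {p : ℂ[X]} : p ∈ degreeLT ℂ (k + 1) ↔ p.degree ≤ k := by
  rw [mem_degreeLT]
  by_cases hp : p = 0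
  · simp [hp]
  · rw [degree_eq_natDegree hp, Nat.cast_lt, Nat.cast_le, Nat.lt_succ_iff]

lemma exONB : ∃ e, ONB nu e := by
  have : ∀ k : ℕ, ∃ e : Fin (k + 1) → ℂ[X], (∀ i, (e i).degree ≤ k) ∧
      ∀ i j, ∫ z, conj ((e i).eval z) * (e j).eval z ∂nu = if i = j then 1 else 0 := by
    intro k
    let W := (degreeLT ℂ (k + 1)).map Φ
    let E := Submodule.equivMapOfInjective Φ Φ_inj (degreeLT ℂ (k + 1))
    have : FiniteDimensional ℂ (degreeLT ℂ (k + 1)) :=
      (degreeLTEquiv ℂ (k + 1)).symm.finiteDimensional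
    have : FiniteDimensional ℂ W := E.finiteDimensional
    have hW : Module.finrank ℂ W = k + 1 := by rw [← E.finrank_eq, fr]
    let b := (stdOrthonormalBasis ℂ W).reindex (finCongr hW)
    choose e he1 he2 using fun i => (b i).2
    refine ⟨e, fun i => mem_dlt.1 (he1 i), fun i j => ?_⟩
    rw [← Φ_inner, he2, he2, ← Submodule.coe_inner]
    exact orthonormal_iff_ite.1 b.orthonormal i j
  choose e he using this
  exact ⟨e, he⟩

lemma onb {e : (k : ℕ) → Fin (k + 1) → ℂ[X]} (he : ONB nu e) (k : ℕ) :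
    Orthonormal ℂ fun i => Φ (e k i) := by
  rw [orthonormal_iff_ite]
  intro i j
  rw [Φ_inner]; exact (he k).2 i j

lemma extremal {e : (k : ℕ) → Fin (k + 1) → ℂ[X]} (he : ONB nu e) (k : ℕ) (p : ℂ[X])
    (hp : p.degree ≤ k) (z : ℂ) : ‖p.eval z‖ ^ 2 ≤ ‖Φ p‖ ^ 2 * B e k z := by
  have h1 := onb he k
  let v : Fin (k + 1) → degreeLT ℂ (k + 1) := fun i => ⟨e k i, mem_dlt.2 ((he k).1 i)⟩
  have h2 : LinearIndependent ℂ v :=
    LinearIndependent.of_comp (Φ ∘ₗ (degreeLT ℂ (k + 1)).subtype) h1.linearIndependent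
  have h3 := h2.span_eq_top_of_card_eq_finrank (by simp [fr])
  have h4 : (⟨p, mem_dlt.2 hp⟩ : degreeLT ℂ (k + 1)) ∈ Submodule.span ℂ (Set.range v) := by
    rw [h3]; trivial
  obtain ⟨a, ha⟩ := (Submodule.mem_span_range_iff_exists_fun ℂ).1 h4
  have h5 : p = ∑ i, a i • e k i := by
    have := congrArg Subtype.val ha
    simpa [v] using this.symm
  have h6 : ‖Φ p‖ ^ 2 = ∑ i, ‖a i‖ ^ 2 := by
    rw [h5, map_sum]
    simp only [map_smul]
    rw [@norm_sq_eq_re_inner ℂ, h1.inner_sum]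
    simp [conj_mul', ← ofReal_pow]
  rw [h6, B]
  refine le_trans ?_ (Finset.sum_mul_sq_le_sq_mul_sq univ _ _)
  refine pow_le_pow_left₀ (norm_nonneg _) ?_ 2
  rw [h5, eval_finsetSum]
  refine (norm_sum_le _ _).trans (le_of_eq ?_)
  simp

lemma lower {e : (k : ℕ) → Fin (k + 1) → ℂ[X]} (he : ONB nu e) (k j : ℕ) (hj : j ≤ k) :
    1 ≤ c j * B e k (pt j) * (1 + 1 / ((k : ℝ) + 1)) := by
  have hm : j ∈ range (k + 1) := mem_range.2 (by omega)
  have hi : Set.InjOn pt (range (k + 1) : Finset ℕ) := pt_inj.injOn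
  have hd : (lg k j).degree ≤ k := by
    unfold lg; rw [Lagrange.degree_basis hi hm]; simp
  have h1 := extremal he k _ hd (pt j)
  have h2 : (lg k j).eval (pt j) = 1 := Lagrange.eval_basis_self hi hm
  rw [h2] at h1
  have h3 := Φ_norm (lg k j)
  have h4 := h3.summable.sum_add_tsum_nat_add (k + 1)
  rw [h3.tsum_eq, Finset.sum_eq_single j, h2] at h4
  · have h5 : ∑' i, c (i + (k + 1)) * ‖(lg k j).eval (pt (i + (k + 1)))‖ ^ 2 ≤
        ∑' i : ℕ, c (k + 1) * M k * (1 / 2) ^ i := by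
      refine Summable.tsum_le_tsum (fun i => ?_) ((summable_nat_add_iff (k + 1)).2 h3.summable)
        (summable_geometric_two.mul_left _)
      have := mul_le_mul (c_geo (k + 1) i) ((exM k).choose_spec.2 j hj (i + (k + 1)))
        (by positivity) (by have := c_pos (k + 1); positivity)
      refine this.trans_eq ?_
      unfold M; ring
    rw [tsum_mul_left, tsum_geometric_two] at h5
    have h6 : c (k + 1) * M k * 2 ≤ c j * (1 / ((k : ℝ) + 1)) := by
      rw [mul_one_div, le_div_iff₀ (by positivity)]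
      linarith [c_step k, c_anti hj]
    have h7 : 0 ≤ B e k (pt j) := Finset.sum_nonneg fun _ _ => by positivity
    have h8 : ‖Φ (lg k j)‖ ^ 2 ≤ c j * (1 + 1 / ((k : ℝ) + 1)) := by
      simp only [norm_one, one_pow, mul_one] at h4
      linarith
    simp only [norm_one, one_pow] at h1
    nlinarith
  · intro i hi' hij
    unfold lg
    rw [Lagrange.eval_basis_of_ne (Ne.symm hij) hi']; simp
  · intro h; exact absurd hm h

lemma abst (l f : ℕ → ℝ) (n : ℕ) (ε C : ℝ) (h0 : ∀ i, 0 ≤ l i) (hs : HasSum l n)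
    (h1 : ∀ j < n, 1 - ε ≤ l j) (hC : ∀ i, |f i| ≤ C) (hε : 0 ≤ ε) :
    |∑' i, l i * f i - ∑ j ∈ range n, f j| ≤ 3 * ε * n * C := by
  have hC0 : 0 ≤ C := (abs_nonneg _).trans (hC 0)
  have hb : ∀ i, |l i * f i| ≤ l i * C := fun i => by
    rw [abs_mul, abs_of_nonneg (h0 i)]; exact mul_le_mul_of_nonneg_left (hC i) (h0 i)
  have s1 : Summable fun i => l i * f i :=
    Summable.of_norm_bounded (hs.summable.mul_right C) hb
  have e1 := hs.summable.sum_add_tsum_nat_add n
  rw [hs.tsum_eq] at e1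
  have t0 : 0 ≤ ∑' i, l (i + n) := tsum_nonneg fun i => h0 _
  have l1 : n * (1 - ε) ≤ ∑ j ∈ range n, l j := by
    have := Finset.sum_le_sum (s := range n) fun j hj => h1 j (mem_range.1 hj)
    rwa [Finset.sum_const, card_range, nsmul_eq_mul] at this
  have t1 : |∑' i, l (i + n) * f (i + n)| ≤ (∑' i, l (i + n)) * C :=
    tsum_of_norm_bounded (f := fun i => l (i + n) * f (i + n))
      (((summable_nat_add_iff n).2 hs.summable).hasSum.mul_right C) fun i => hb _
  have t2 : |∑ j ∈ range n, l j * f j - ∑ j ∈ range n, f j| ≤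
      (∑ j ∈ range n, l j - n + 2 * ε * n) * C := by
    rw [← Finset.sum_sub_distrib]
    refine (Finset.abs_sum_le_sum_abs _ _).trans ?_
    have : ∀ j ∈ range n, |l j * f j - f j| ≤ (l j - 1 + 2 * ε) * C := by
      intro j hj
      have := h1 j (mem_range.1 hj)
      rw [← sub_one_mul, abs_mul]
      exact mul_le_mul (abs_le.2 ⟨by linarith, by linarith⟩) (hC j) (abs_nonneg _) (by linarith)
    refine (Finset.sum_le_sum this).trans_eq ?_
    rw [← Finset.sum_mul, Finset.sum_add_distrib, Finset.sum_sub_distrib]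
    simp; left; ring
  rw [← s1.sum_add_tsum_nat_add n, add_sub_right_comm]
  refine (abs_add_le _ _).trans ?_
  have : (∑ j ∈ range n, l j - n + 2 * ε * n) * C + (∑' i, l (i + n)) * C = 2 * ε * n * C := by
    rw [← add_mul]; congr 1; linarith
  have : 0 ≤ ε * n * C := by positivity
  linarith

theorem main : ∃ ν : Measure ℂ, IsFiniteMeasure ν ∧ ν (closedBall 0 1)ᶜ = 0 ∧
    (∀ p : ℂ[X], p ≠ 0 → 0 < ∫ z, ‖p.eval z‖ ^ 2 ∂ν) ∧ (∃ e, ONB ν e) ∧
    ∀ e, ONB ν e →
      (∀ f : ℂ → ℝ, Continuous f →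
        Tendsto (fun k : ℕ => ((k : ℝ) + 1)⁻¹ * ∫ z, f z * B e k z ∂ν) atTop
          (𝓝 (Real.circleAverage f 0 1))) ∧
      ∀ V : ℂ → ℝ, Continuous V →
        ¬ TendstoLocallyUniformly (fun (k : ℕ) z => (2 * (k : ℝ))⁻¹ * Real.log (B e k z)) V atTop := by
  refine ⟨nu, ⟨?_⟩, ?_, ?_, exONB, fun e he => ⟨fun f hf => ?_, fun V hV h => ?_⟩⟩
  · simp only [nu, Measure.sum_apply _ MeasurableSet.univ, Measure.smul_apply, measure_univ,
      smul_eq_mul, mul_one]
    rw [← ENNReal.ofReal_tsum_of_nonneg (fun j => (c_pos j).le) c_summ]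
    exact ENNReal.ofReal_lt_top
  · simp [nu, Measure.sum_apply _ measurableSet_closedBall.compl, pt_norm]
  · intro p hp
    rw [int_nu]
    simp only [smul_eq_mul]
    rw [(Φ_norm p).tsum_eq]
    exact pow_pos (norm_pos_iff.2 fun h => hp (Φ_inj (by rw [h, map_zero]))) 2
  · obtain ⟨C, hC0, hC⟩ := bdd f hf
    refine (H91.Equi.equi f hf).congr_dist ?_
    refine squeeze_zero (fun _ => dist_nonneg) (g := fun k : ℕ => 3 * C * (1 / ((k : ℝ) + 1)))
      (fun k => ?_) (by simpa using tendsto_one_div_add_atTop_nhds_zero_nat.const_mul (3 * C))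
    have hk : (0 : ℝ) < (k : ℝ) + 1 := by positivity
    have hs : HasSum (fun j => c j * B e k (pt j)) ((k + 1 : ℕ) : ℝ) := by
      have := hasSum_sum (s := univ) fun (i : Fin (k + 1)) _ => Φ_norm (e k i)
      simp only [(onb he k).1, ← Finset.mul_sum] at this
      simpa [B] using this
    have hB : ∀ j, 0 ≤ c j * B e k (pt j) := fun j =>
      mul_nonneg (c_pos j).le (Finset.sum_nonneg fun _ _ => by positivity)
    have h1 := abst _ (fun j => f (pt j)) (k + 1) (1 / ((k : ℝ) + 1)) C hB hs (fun j hj => by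
      have h2 := lower he k j (by omega)
      have h3 := hB j
      have h4 : 0 < 1 / ((k : ℝ) + 1) := by positivity
      nlinarith) hC (by positivity)
    rw [dist_comm, Real.dist_eq, ← mul_sub, abs_mul, abs_of_pos (inv_pos.2 hk), int_nu,
      inv_mul_le_iff₀ hk]
    simp only [smul_eq_mul]
    have e1 : ∀ j, c j * (f (pt j) * B e k (pt j)) = c j * B e k (pt j) * f (pt j) :=
      fun j => by ring
    simp only [e1]
    refine h1.trans_eq ?_
    push_cast; ring
  · obtain ⟨C, hC0, hC⟩ := bdd V hV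
    have h1 := (tendstoLocallyUniformlyOn_iff_tendstoUniformlyOn_of_compact
      (isCompact_sphere (0 : ℂ) 1)).1 h.tendstoLocallyUniformlyOn
    have h2 := Metric.tendstoUniformlyOn_iff.1 h1 1 one_pos
    have h3 : ∀ᶠ k : ℕ in atTop, C + 2 ≤ (k : ℝ) :=
      tendsto_natCast_atTop_atTop.eventually_ge_atTop _
    obtain ⟨k, h4, h5⟩ := (h2.and h3).exists
    have h6 := h4 (pt k) (by simp [pt_norm])
    have hk : (2 : ℝ) ≤ k := by linarith
    have h7 := lower he k k le_rfl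
    have h8 : 0 ≤ B e k (pt k) := Finset.sum_nonneg fun _ _ => by positivity
    have h9 : 1 / ((k : ℝ) + 1) ≤ 1 := by rw [div_le_one (by positivity)]; linarith
    have h10 : Real.exp (2 * (k : ℝ) ^ 2 - 1) ≤ B e k (pt k) := by
      have a1 : 1 ≤ Real.exp (-(2 * (k : ℝ) ^ 2)) * B e k (pt k) * 2 :=
        h7.trans (mul_le_mul (mul_le_mul_of_nonneg_right (c_exp k) h8) (by linarith)
          (by positivity) (by positivity))
      have a2 : (2 : ℝ) ≤ Real.exp 1 := by linarith [Real.add_one_le_exp 1]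
      rw [Real.exp_neg] at a1
      rw [Real.exp_sub, div_le_iff₀ (Real.exp_pos _)]
      have a3 := Real.exp_pos (2 * (k : ℝ) ^ 2)
      have a4 : Real.exp (2 * (k : ℝ) ^ 2) ≤ B e k (pt k) * 2 := by
        rw [mul_assoc, le_inv_mul_iff₀ a3] at a1; linarith
      nlinarith
    have h11 : 2 * (k : ℝ) ^ 2 - 1 ≤ Real.log (B e k (pt k)) :=
      (Real.le_log_iff_exp_le ((Real.exp_pos _).trans_le h10)).2 h10
    have h12 : (k : ℝ) - 1 ≤ (2 * (k : ℝ))⁻¹ * Real.log (B e k (pt k)) := by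
      rw [le_inv_mul_iff₀ (by positivity)]; nlinarith
    rw [Real.dist_eq] at h6
    linarith [(abs_lt.1 h6).1, (abs_le.1 (hC k)).2]

end H91.Bergman
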