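import Mathlib

set_option autoImplicit false

namespace H91.BernV
open Finset Nat Metric

noncomputable def Bn (n : ℕ) (F : ℕ → ℕ → ℂ) (u v : ℂ) : ℂ :=
  ∑ k ∈ range (n + 1), ∑ j ∈ range (n + 1 - k),
    (n ! : ℂ) / (k ! * j ! * (n - k - j)!) * u ^ k * v ^ j * (1 - u - v) ^ (n - k - j) * F k j

/-- bivariate Bernstein polynomial on the simplex -/
noncomputable def B (n : ℕ) (f : ℂ → ℂ → ℂ) (u v : ℂ) : ℂ := Bn n (fun k j => f (k / n) (j / n)) u v
noncomputable def f11 (f : ℂ → ℂ → ℂ) (u v : ℂ) : ℂ := deriv (deriv fun x => f x v) u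
noncomputable def f12 (f : ℂ → ℂ → ℂ) (u v : ℂ) : ℂ := deriv (fun x => deriv (f x) v) u
noncomputable def f22 (f : ℂ → ℂ → ℂ) (u v : ℂ) : ℂ := deriv (deriv (f u)) v
noncomputable def E (n : ℕ) (f : ℂ → ℂ → ℂ) (u v : ℂ) : ℂ := B n f u v - f u v -
  1 / (2 * n) * (u * (1 - u) * f11 f u v - 2 * u * v * f12 f u v + v * (1 - v) * f22 f u v)

lemma term (a b i l : ℕ) : (a + b + (i + l)).choose (a + i) * (a + i).descFactorial a *
    (b + l).descFactorial b = (a + b + (i + l)).descFactorial (a + b) * (i + l).choose i := by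
  have h1 := factorial_mul_descFactorial (Nat.le_add_right a i)
  have h2 := factorial_mul_descFactorial (Nat.le_add_right b l)
  have h3 := factorial_mul_descFactorial (Nat.le_add_right (a + b) (i + l))
  have h4 := add_choose_mul_factorial_mul_factorial (b + l) (a + i)
  have h5 := add_choose_mul_factorial_mul_factorial l i
  rw [Nat.add_sub_cancel_left] at h1 h2 h3
  rw [show b + l + (a + i) = a + b + (i + l) by ring, ← h1, ← h2, ← h3, add_comm i l, ← h5] at h4
  rw [add_comm i l]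
  refine Nat.eq_of_mul_eq_mul_left (Nat.mul_pos (factorial_pos i) (factorial_pos l)) ?_
  linarith

lemma mom1 (n a b : ℕ) (x y : ℂ) : ∑ p ∈ range (n + 1), (n.choose p : ℂ) * p.descFactorial a *
    (n - p).descFactorial b * x ^ p * y ^ (n - p - b) =
    n.descFactorial (a + b) * x ^ a * (x + y) ^ (n - (a + b)) := by
  rcases lt_or_ge n (a + b) with h | h
  · rw [descFactorial_of_lt h, sum_eq_zero]
    · simp
    · intro p hp
      have := mem_range.1 hp
      rcases lt_or_ge p a with h' | h'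
      · simp [descFactorial_of_lt h']
      · simp [descFactorial_of_lt (show n - p < b by omega)]
  · obtain ⟨m, rfl⟩ := Nat.exists_eq_add_of_le h
    rw [Nat.add_sub_cancel_left, add_pow, mul_sum,
      ← sum_subset (s₁ := (range (m + 1)).image (a + ·)), sum_image (by simp)]
    · refine sum_congr rfl fun i hi => ?_
      obtain ⟨l, rfl⟩ := Nat.exists_eq_add_of_le (Nat.lt_succ_iff.1 (mem_range.1 hi))
      have := congrArg (Nat.cast (R := ℂ)) (term a b i l)
      push_cast at this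
      rw [show a + b + (i + l) - (a + i) = b + l by omega, this, Nat.add_sub_cancel_left,
        Nat.add_sub_cancel_left]
      ring
    · intro p hp
      obtain ⟨i, hi, rfl⟩ := mem_image.1 hp
      simp at hi ⊢; omega
    · intro p hp h2
      have := mem_range.1 hp
      rcases lt_or_ge p a with h' | h'
      · simp [descFactorial_of_lt h']
      · obtain ⟨i, rfl⟩ := Nat.exists_eq_add_of_le h'
        have : ¬ i < m + 1 := fun hi => h2 (mem_image.2 ⟨i, mem_range.2 hi, rfl⟩)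
        simp [descFactorial_of_lt (show a + b + m - (a + i) < b by omega)]

/-- bilinear moment -/
noncomputable def X (n : ℕ) (u v : ℂ) (g h : ℕ → ℕ) : ℂ := Bn n (fun p q => g p * h q) u v

def D (a : ℕ) : ℕ → ℕ := fun x => x.descFactorial a

lemma mom (n a b : ℕ) (u v : ℂ) : X n u v (D a) (D b) = n.descFactorial (a + b) * u ^ a * v ^ b := by
  have h := mom1 n a b u (1 - u)
  rw [add_sub_cancel, one_pow, mul_one] at h
  rw [← h, sum_mul, X, Bn]
  refine sum_congr rfl fun p hp => ?_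
  have hp' := Nat.lt_succ_iff.1 (mem_range.1 hp)
  have h2 := mom1 (n - p) b 0 v (1 - u - v)
  simp only [add_zero, descFactorial_zero, Nat.cast_one, mul_one, Nat.sub_zero] at h2
  rw [show v + (1 - u - v) = 1 - u by ring] at h2
  rw [show n + 1 - p = n - p + 1 by omega]
  calc _ = (n.choose p : ℂ) * p.descFactorial a * u ^ p * ∑ q ∈ range (n - p + 1),
        ((n - p).choose q : ℂ) * q.descFactorial b * v ^ q * (1 - u - v) ^ (n - p - q) := by
        rw [mul_sum]
        refine sum_congr rfl fun q hq => ?_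
        rw [cast_choose ℂ hp', cast_choose ℂ (Nat.lt_succ_iff.1 (mem_range.1 hq))]
        have := (cast_ne_zero (R := ℂ)).2 (factorial_ne_zero (n - p))
        simp only [D]; field_simp
    _ = _ := by rw [h2]; ring

lemma X_l (n : ℕ) (u v : ℂ) (g g' h : ℕ → ℕ) : X n u v (g + g') h = X n u v g h + X n u v g' h := by
  simp [X, Bn, mul_add, add_mul, sum_add_distrib]
lemma X_r (n : ℕ) (u v : ℂ) (g h h' : ℕ → ℕ) : X n u v g (h + h') = X n u v g h + X n u v g h' := by
  simp [X, Bn, mul_add, sum_add_distrib]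
lemma X_sl (n c : ℕ) (u v : ℂ) (g h : ℕ → ℕ) : X n u v (c • g) h = c * X n u v g h := by
  simp [X, Bn, mul_sum, mul_assoc, mul_left_comm]
lemma X_sr (n c : ℕ) (u v : ℂ) (g h : ℕ → ℕ) : X n u v g (c • h) = c * X n u v g h := by
  simp [X, Bn, mul_sum, mul_assoc, mul_left_comm]

def K (k : ℕ) : AddSubmonoid (ℕ → ℕ) := AddSubmonoid.closure {g | ∃ a ≤ k, g = D a}
lemma D_mem {a k : ℕ} (h : a ≤ k) : D a ∈ K k := AddSubmonoid.subset_closure ⟨a, h, rfl⟩

lemma cone {n k j : ℕ} {u v : ℂ} {r s : ℝ} (hr : 1 ≤ r) (hs : 1 ≤ s) (hu : ‖u‖ ≤ r) (hv : ‖v‖ ≤ s)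
    {g h : ℕ → ℕ} (hg : g ∈ K k) (hh : h ∈ K j) :
    ‖X n u v g h‖ ≤ g n * h n * (r ^ k * s ^ j) := by
  induction hg using AddSubmonoid.closure_induction with
  | zero => simp [X, Bn]
  | add g g' _ _ h1 h2 =>
    rw [X_l]; refine (norm_add_le _ _).trans ((add_le_add h1 h2).trans_eq ?_)
    simp; ring
  | mem g hg =>
    obtain ⟨a, ha, rfl⟩ := hg
    induction hh using AddSubmonoid.closure_induction with
    | zero => simp [X, Bn]
    | add g g' _ _ h1 h2 =>
      rw [X_r]; refine (norm_add_le _ _).trans ((add_le_add h1 h2).trans_eq ?_)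
      simp; ring
    | mem g hg =>
      obtain ⟨b, hb, rfl⟩ := hg
      have h1 : n.descFactorial (a + b) ≤ D a n * D b n := by
        rw [← descFactorial_mul_descFactorial (Nat.le_add_right a b), Nat.add_sub_cancel_left,
          mul_comm]
        exact Nat.mul_le_mul_left _ (descFactorial_le _ (Nat.sub_le _ _))
      rw [mom, mul_assoc, norm_mul, norm_mul, norm_pow, norm_pow, Complex.norm_natCast]
      refine mul_le_mul (by exact_mod_cast h1) (mul_le_mul ?_ ?_ (by positivity) (by positivity))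
        (by positivity) (by positivity)
      · exact (pow_le_pow_left₀ (norm_nonneg _) hu _).trans (pow_le_pow_right₀ hr ha)
      · exact (pow_le_pow_left₀ (norm_nonneg _) hv _).trans (pow_le_pow_right₀ hs hb)

lemma xD (x a : ℕ) : x * D a x = D (a + 1) x + a * D a x := by
  simp only [D, descFactorial_succ]
  rcases lt_or_ge x a with h | h
  · simp [descFactorial_of_lt h]
  · rw [← add_mul, Nat.sub_add_cancel h]

lemma mulx {k : ℕ} {g : ℕ → ℕ} (hg : g ∈ K k) : (fun x => x * g x) ∈ K (k + 1) := by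
  induction hg using AddSubmonoid.closure_induction with
  | zero => exact (K (k + 1)).zero_mem
  | add g g' _ _ h1 h2 =>
    simp only [Pi.add_apply, mul_add]; exact (K (k + 1)).add_mem h1 h2
  | mem g hg =>
    obtain ⟨a, ha, rfl⟩ := hg
    simp only [xD]
    exact (K _).add_mem (D_mem (by omega)) ((K _).nsmul_mem (D_mem (by omega)) a)

lemma dec (k : ℕ) : ∃ r ∈ K k, (fun x => x ^ k) = D k + k.choose 2 • D (k - 1) + r := by
  induction k with
  | zero => exact ⟨0, zero_mem _, by ext; simp [D]⟩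
  | succ k ih =>
    obtain ⟨r, hr, h⟩ := ih
    refine ⟨(k.choose 2 * (k - 1)) • D (k - 1) + fun x => x * r x,
      add_mem (nsmul_mem (D_mem (by omega)) _) (mulx hr), funext fun x => ?_⟩
    have h1 := congrFun h x
    have h2 := xD x k
    have h3 := xD x (k - 1)
    have h4 : k.choose 2 * D (k - 1 + 1) x = k.choose 2 * D k x := by
      cases k <;> simp
    simp only [Pi.add_apply, Pi.smul_apply, smul_eq_mul, Nat.add_sub_cancel] at h1 ⊢
    rw [pow_succ, h1, choose_succ_succ' k 1, choose_one_right]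
    have h5 := congrArg (k.choose 2 * ·) h3
    simp only [show 1 + 1 = 2 from rfl] at *
    linarith

lemma ub (n : ℕ) (hn : 1 ≤ n) (m : ℕ) :
    1 - m.choose 2 / (n : ℝ) ≤ n.descFactorial m / (n : ℝ) ^ m ∧
    n.descFactorial m / (n : ℝ) ^ m ≤ 1 ∧
    n.descFactorial m / (n : ℝ) ^ m ≤ 1 - m.choose 2 / (n : ℝ) + (m.choose 2 / (n : ℝ)) ^ 2 := by
  have h0 : (0 : ℝ) < n := by exact_mod_cast hn
  induction m with
  | zero => simp
  | succ m ih =>
    have e : (n.descFactorial (m + 1) : ℝ) / n ^ (m + 1) =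
        n.descFactorial m / n ^ m * (1 - m / n) := by
      have := congrArg (Nat.cast (R := ℝ)) (xD n m)
      simp only [D, Nat.cast_add, Nat.cast_mul] at this
      rw [pow_succ]; field_simp; linarith
    rw [e, choose_succ_succ' m 1, choose_one_right, Nat.cast_add, add_div]
    have : 0 ≤ (n.descFactorial m : ℝ) / n ^ m := by positivity
    have : 0 ≤ (m : ℝ) / n := by positivity
    have : 0 ≤ (m.choose 2 : ℝ) / n := by positivity
    simp only [show 1 + 1 = 2 from rfl]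
    refine ⟨?_, ?_, ?_⟩ <;> nlinarith [ih.1, ih.2.1, ih.2.2]

lemma ch (m : ℕ) : (m.choose 2 : ℝ) ≤ m ^ 2 := by
  rw [cast_choose_two]; nlinarith [Nat.cast_nonneg (α := ℝ) m]

lemma beta (n : ℕ) (hn : 1 ≤ n) (k j : ℕ) :
    |(k.choose 2 : ℝ) * (n.descFactorial (k - 1 + j) / n ^ (k + j) - 1 / n)| ≤
      ((k : ℝ) + j) ^ 4 / n ^ 2 := by
  have h0 : (0 : ℝ) < n := by exact_mod_cast hn
  cases k with
  | zero => simp; positivity
  | succ k =>
    obtain ⟨h1, h2, -⟩ := ub n hn (k + j)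
    have e : (n.descFactorial (k + 1 - 1 + j) : ℝ) / n ^ (k + 1 + j) - 1 / n =
      -((1 - n.descFactorial (k + j) / n ^ (k + j)) / n) := by
      rw [Nat.add_sub_cancel]; field_simp; ring
    rw [e, abs_mul, abs_neg, abs_of_nonneg (by positivity),
      abs_of_nonneg (div_nonneg (by linarith) h0.le)]
    calc _ ≤ (((k + 1 : ℕ) : ℝ) + j) ^ 2 * ((((k + 1 : ℕ) : ℝ) + j) ^ 2 / n / n) := by
          gcongr
          · exact (ch _).trans (by gcongr; simp)
          · refine le_trans (by linarith) (div_le_div_of_nonneg_right ((ch (k + j)).trans ?_) h0.le)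
            push_cast; gcongr; linarith
      _ = _ := by field_simp

lemma rb {n k : ℕ} (hn : 1 ≤ n) {r : ℕ → ℕ}
    (h : (fun x => x ^ k) = D k + k.choose 2 • D (k - 1) + r) :
    (r n : ℝ) ≤ 2 * k ^ 4 / n ^ 2 * n ^ k ∧ ((k.choose 2 • D (k - 1)) n : ℝ) ≤ 2 * k ^ 2 / n * n ^ k
      ∧ ((D k + k.choose 2 • D (k - 1)) n : ℝ) ≤ n ^ k := by
  have h0 : (0 : ℝ) < n := by exact_mod_cast hn
  have h1 := congrArg (Nat.cast (R := ℝ)) (congrFun h n)
  have h2 := (ub n hn k).1
  have h3 := abs_le.1 (beta n hn k 0)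
  simp only [Pi.add_apply, Pi.smul_apply, smul_eq_mul, D, add_zero, Nat.cast_zero] at *
  push_cast at *
  have hp : (0 : ℝ) < n ^ k := by positivity
  refine ⟨?_, ?_, by linarith [Nat.cast_nonneg (α := ℝ) (r n)]⟩
  · rw [← div_le_iff₀ hp, show (r n : ℝ) = n ^ k - n.descFactorial k - k.choose 2 *
      n.descFactorial (k - 1) by linarith, sub_div, sub_div, div_self hp.ne', mul_div_assoc,
      mul_div_assoc]
    have : 0 ≤ (k : ℝ) ^ 4 / n ^ 2 := by positivity
    rw [mul_sub, mul_one_div] at h3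
    linarith [h3.1]
  · cases k with
    | zero => simp
    | succ k =>
      have : (n.descFactorial k : ℝ) ≤ n ^ k := by exact_mod_cast descFactorial_le_pow n k
      have h4 := ch (k + 1)
      rw [Nat.add_sub_cancel]
      calc _ ≤ (2 * ((k + 1 : ℕ) : ℝ) ^ 2) * n ^ k := by
            gcongr; linarith [sq_nonneg ((k + 1 : ℕ) : ℝ)]
        _ = _ := by rw [pow_succ (n : ℝ) k]; field_simp

lemma d2 (k : ℕ) (u : ℂ) : u * (1 - u) * (k * (k - 1 : ℕ) * u ^ (k - 1 - 1)) =
    2 * k.choose 2 * (u ^ (k - 1) - u ^ k) := by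
  rw [cast_choose_two]
  rcases k with _ | _ | k <;> simp; ring
lemma d1 (k : ℕ) (u : ℂ) : u * (k * u ^ (k - 1)) = k * u ^ k := by
  rcases k with _ | k <;> simp; ring

lemma mono {n : ℕ} (hn : 1 ≤ n) (k j : ℕ) {u v : ℂ} {r s : ℝ} (hr : 1 ≤ r) (hs : 1 ≤ s)
    (hu : ‖u‖ ≤ r) (hv : ‖v‖ ≤ s) :
    ‖Bn n (fun p q => ((p : ℂ) / n) ^ k * ((q : ℂ) / n) ^ j) u v - u ^ k * v ^ j - 1 / (2 * n) *
      (u * (1 - u) * (k * (k - 1 : ℕ) * u ^ (k - 1 - 1)) * v ^ j -
        2 * (u * (k * u ^ (k - 1))) * (v * (j * v ^ (j - 1))) +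
        u ^ k * (v * (1 - v) * (j * (j - 1 : ℕ) * v ^ (j - 1 - 1))))‖ ≤
      11 * (((k : ℝ) + j) ^ 4 / n ^ 2 * (r ^ k * s ^ j)) := by
  have h0 : (0 : ℝ) < n := by exact_mod_cast hn
  have h0' : (n : ℂ) ≠ 0 := by exact_mod_cast h0.ne'
  obtain ⟨g, hg, eg⟩ := dec k
  obtain ⟨h, hh, eh⟩ := dec j
  obtain ⟨a1, a2, a3⟩ := rb hn eg
  obtain ⟨b1, b2, -⟩ := rb hn eh
  have m1 : ∀ k : ℕ, k.choose 2 • D (k - 1) ∈ K k := fun k => nsmul_mem (D_mem (by omega)) _
  have e1 : Bn n (fun p q => ((p : ℂ) / n) ^ k * ((q : ℂ) / n) ^ j) u v =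
      X n u v (fun x => x ^ k) (fun x => x ^ j) / n ^ (k + j) := by
    simp only [X, Bn, sum_div]
    refine sum_congr rfl fun _ _ => sum_congr rfl fun _ _ => ?_
    push_cast; rw [div_pow, div_pow, pow_add]; ring
  have e2 : X n u v (fun x => x ^ k) (fun x => x ^ j) = n.descFactorial (k + j) * u ^ k * v ^ j +
      k.choose 2 * (n.descFactorial (k - 1 + j) * u ^ (k - 1) * v ^ j) +
      j.choose 2 * (n.descFactorial (j - 1 + k) * u ^ k * v ^ (j - 1)) +
      (X n u v (k.choose 2 • D (k - 1)) (j.choose 2 • D (j - 1)) + X n u v g (fun x => x ^ j) +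
        X n u v (D k + k.choose 2 • D (k - 1)) h) := by
    rw [add_comm (j - 1) k, ← mom, ← mom, ← mom, ← X_sl, ← X_sr, eg, X_l _ _ _ _ g, eh]
    simp only [X_l, X_r]; ring
  have c1 := cone (n := n) hr hs hu hv (m1 k) (m1 j)
  have c2 := cone (n := n) hr hs hu hv hg
    (eh ▸ add_mem (add_mem (D_mem le_rfl) (m1 j)) hh : (fun x => x ^ j) ∈ K j)
  have c3 := cone (n := n) hr hs hu hv (add_mem (D_mem le_rfl) (m1 k)) hh
  rw [e1, e2, d2, d2, d1, d1]
  set Y := X n u v (k.choose 2 • D (k - 1)) (j.choose 2 • D (j - 1)) + X n u v g (fun x => x ^ j) +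
        X n u v (D k + k.choose 2 • D (k - 1)) h
  set P := r ^ k * s ^ j
  set Q := ((k : ℝ) + j) ^ 4 / n ^ 2
  have hP : 0 ≤ P := by positivity
  have hk : (0 : ℝ) ≤ k := by positivity
  have hj : (0 : ℝ) ≤ j := by positivity
  have hY : ‖Y / n ^ (k + j)‖ ≤ 8 * (Q * P) := by
    rw [norm_div, norm_pow, Complex.norm_natCast, div_le_iff₀ (by positivity)]
    refine (norm_add₃_le.trans (add_le_add_three c1 c2 c3)).trans ?_
    calc _ ≤ (2 * k ^ 2 / n * n ^ k) * (2 * j ^ 2 / n * n ^ j) * P +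
          (2 * k ^ 4 / n ^ 2 * n ^ k) * n ^ j * P + n ^ k * (2 * j ^ 4 / n ^ 2 * n ^ j) * P := by
          gcongr; simp
      _ = (4 * (k ^ 2 * j ^ 2) + 2 * k ^ 4 + 2 * j ^ 4) / n ^ 2 * P * n ^ (k + j) := by
          field_simp; ring
      _ ≤ (8 * ((k : ℝ) + j) ^ 4) / n ^ 2 * P * n ^ (k + j) := by
          gcongr
          nlinarith [mul_nonneg hk hj, mul_nonneg (pow_nonneg hk 3) hj,
            mul_nonneg (pow_nonneg hj 3) hk, pow_nonneg hk 4, pow_nonneg hj 4,
            mul_nonneg (pow_nonneg hj 2) (pow_nonneg hk 2)]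
      _ = _ := by simp only [Q]; ring
  have hw : ∀ (c : ℝ) (a b : ℕ), a ≤ k → b ≤ j → |c| ≤ Q → ‖(c : ℂ) * (u ^ a * v ^ b)‖ ≤ Q * P := by
    intro c a b ha hb hc
    rw [norm_mul, norm_mul, norm_pow, norm_pow, Complex.norm_real]
    refine mul_le_mul hc (mul_le_mul ?_ ?_ (by positivity) (by positivity)) (by positivity)
      (by positivity)
    · exact (pow_le_pow_left₀ (norm_nonneg _) hu _).trans (pow_le_pow_right₀ hr ha)
    · exact (pow_le_pow_left₀ (norm_nonneg _) hv _).trans (pow_le_pow_right₀ hs hb)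
  have t1 := hw (n.descFactorial (k + j) / n ^ (k + j) - (1 - (k + j).choose 2 / n)) k j le_rfl
    le_rfl (by
      obtain ⟨h1, -, h2⟩ := ub n hn (k + j)
      rw [abs_of_nonneg (by linarith)]
      refine le_trans (by linarith) (show ((k + j).choose 2 / (n : ℝ)) ^ 2 ≤ Q from ?_)
      have := ch (k + j)
      push_cast at this
      calc _ ≤ (((k : ℝ) + j) ^ 2 / n) ^ 2 := by gcongr
        _ = _ := by simp only [Q]; ring)
  have t2 := hw _ (k - 1) j (by omega) le_rfl (beta n hn k j)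
  have t3 := hw _ k (j - 1) le_rfl (by omega) ((beta n hn j k).trans_eq (by
    simp only [Q]; ring))
  refine le_trans (le_of_eq ?_) ((norm_add₄_le.trans (add_le_add (add_le_add_three t1 t2 t3)
    hY)).trans_eq (by ring))
  congr 1
  push_cast
  simp only [cast_choose_two]
  push_cast
  field_simp; ring

lemma der {ι : Type} {e : ι → ℕ} {c : ι → ℂ} {g : ℂ → ℂ} {R : ℝ}
    (h : ∀ u : ℂ, ‖u‖ < R → HasSum (fun i => c i * u ^ e i) (g u)) (u : ℂ) (hu : ‖u‖ < R) :
    HasSum (fun i => c i * e i * u ^ (e i - 1)) (deriv g u) := by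
  obtain ⟨r, h1, h2⟩ := exists_between hu
  have hr : 0 ≤ r := (norm_nonneg _).trans h1.le
  have hs := (h r (by simpa [abs_of_nonneg hr])).summable.norm
  have := Complex.hasSum_deriv_of_summable_norm (F := fun i w => c i * w ^ e i) (U := ball 0 r) hs
    (fun i => by fun_prop) isOpen_ball (fun i w hw => by
      simp only [norm_mul, norm_pow, Complex.norm_real, Real.norm_of_nonneg hr]
      gcongr; exact (mem_ball_zero_iff.1 hw).le) (mem_ball_zero_iff.2 h1)
  have e1 : deriv g u = deriv (fun w => ∑' i, c i * w ^ e i) u := by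
    refine Filter.EventuallyEq.deriv_eq ?_
    filter_upwards [isOpen_ball.mem_nhds (mem_ball_zero_iff.2 hu)] with w hw
    exact (h w (mem_ball_zero_iff.1 hw)).tsum_eq.symm
  rw [e1]
  exact this.congr_fun fun i => by simp [mul_assoc]

lemma poly {r t : ℝ} (h1 : 1 ≤ r) (h : r < t) : ∃ C, 0 ≤ C ∧ ∀ k : ℕ, ((k : ℝ) + 1) ^ 4 * r ^ k ≤
    C * t ^ k := by
  have ht : 0 < t := by linarith
  have h2 : |r / t| < 1 := by rw [abs_of_nonneg (by positivity), div_lt_one ht]; exact h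
  obtain ⟨C, hC⟩ := (tendsto_pow_const_mul_const_pow_of_abs_lt_one 4 h2).bddAbove_range
  have h3 : ∀ k : ℕ, (k : ℝ) ^ 4 * (r / t) ^ k ≤ C := fun k => hC ⟨k, rfl⟩
  have h5 : 0 ≤ C := by simpa using h3 0
  refine ⟨C * t, by positivity, fun k => ?_⟩
  have h4 := h3 (k + 1)
  rw [div_pow, ← mul_div_assoc, div_le_iff₀ (by positivity)] at h4
  push_cast at h4
  refine le_trans ?_ (h4.trans_eq (by ring))
  gcongr <;> simp [h1]

theorem main : ∀ (R1 R2 : ℝ) (a : ℕ × ℕ → ℂ) (f : ℂ → ℂ → ℂ), 1 < R1 → 1 < R2 →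
    (∀ u v : ℂ, ‖u‖ < R1 → ‖v‖ < R2 → HasSum (fun p : ℕ × ℕ => a p * u ^ p.1 * v ^ p.2) (f u v)) →
    ∀ r s : ℝ, 1 ≤ r → r < R1 → 1 ≤ s → s < R2 → ∃ C : ℝ, ∀ n : ℕ, 1 ≤ n →
      ∀ u v : ℂ, ‖u‖ ≤ r → ‖v‖ ≤ s → ‖E n f u v‖ ≤ C / (n : ℝ) ^ 2 := by
  intro R1 R2 a f h1 h2 hf r s hr hr' hs hs'
  obtain ⟨r', r1, r2⟩ := exists_between hr'
  obtain ⟨s', s1, s2⟩ := exists_between hs'
  obtain ⟨C1, c1, hC1⟩ := poly hr r1
  obtain ⟨C2, c2, hC2⟩ := poly hs s1
  have hr0 : 0 ≤ r' := by linarith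
  have hs0 : 0 ≤ s' := by linarith
  have S := ((hf r' s' (by simpa [abs_of_nonneg hr0]) (by simpa [abs_of_nonneg hs0])).summable.norm
    ).hasSum.mul_left (11 * C1 * C2)
  refine ⟨_, fun n hn u v hu hv => HasSum.norm_le_of_bounded (f := fun p : ℕ × ℕ => a p * _)
    ?_ (S.div_const _) fun p => (norm_mul_le _ _).trans ((mul_le_mul_of_nonneg_left
      (mono hn p.1 p.2 hr hs hu hv) (norm_nonneg _)).trans ?_)⟩
  · have hu' := hu.trans_lt hr'
    have hv' := hv.trans_lt hs'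
    have hn0 : (0 : ℝ) < n := by exact_mod_cast hn
    have nd : ∀ k ≤ n, ‖(k : ℂ) / n‖ ≤ 1 := fun k hk => by
      rw [norm_div, Complex.norm_natCast, Complex.norm_natCast, div_le_one hn0]; exact_mod_cast hk
    have b0 : HasSum (fun p : ℕ × ℕ => a p * Bn n
        (fun k j => ((k : ℂ) / n) ^ p.1 * ((j : ℂ) / n) ^ p.2) u v) (B n f u v) := by
      simp only [B, Bn, mul_sum]
      refine hasSum_sum fun k hk => hasSum_sum fun j hj => ?_
      have := mem_range.1 hk
      have := mem_range.1 hj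
      exact ((hf _ _ ((nd k (by omega)).trans_lt h1) ((nd j (by omega)).trans_lt h2)).mul_left
        _).congr_fun fun p => by ring
    have b11 := der (der (e := Prod.fst) (c := fun p => a p * v ^ p.2) (g := fun x => f x v)
      fun x hx => (hf x v hx hv').congr_fun fun p => by ring) u hu'
    have b22 := der (der (e := Prod.snd) (g := f u) fun x hx => hf u x hu' hx) v hv'
    have b12 := der (e := Prod.fst) (c := fun p => a p * p.2 * v ^ (p.2 - 1))
      (g := fun x => deriv (f x) v) (fun x hx => (der (e := Prod.snd) (g := f x)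
        (fun y hy => hf x y hx hy) v hv').congr_fun fun p => by ring) u hu'
    have b := (b0.sub (hf u v hu' hv')).sub ((((b11.mul_left (u * (1 - u))).sub
      (b12.mul_left (2 * u * v))).add (b22.mul_left (v * (1 - v)))).mul_left (1 / (2 * (n : ℂ))))
    refine b.congr_fun fun p => ?_
    generalize Bn n _ u v = Z
    ring
  · have := mul_le_mul (hC1 p.1) (hC2 p.2) (by positivity) (by positivity)
    have h3 : ((p.1 : ℝ) + p.2) ^ 4 ≤ ((p.1 + 1) * (p.2 + 1)) ^ 4 := by
      gcongr; nlinarith [Nat.cast_nonneg (α := ℝ) (p.1 * p.2), Nat.cast_mul (α := ℝ) p.1 p.2]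
    simp only [norm_mul, norm_pow, Complex.norm_real, Real.norm_of_nonneg hr0,
      Real.norm_of_nonneg hs0]
    calc _ ≤ ‖a p‖ * (11 * (((p.1 + 1) * (p.2 + 1)) ^ 4 / n ^ 2 * (r ^ p.1 * s ^ p.2))) := by
          gcongr
      _ = 11 * ‖a p‖ / n ^ 2 * (((p.1 : ℝ) + 1) ^ 4 * r ^ p.1 * (((p.2 : ℝ) + 1) ^ 4 * s ^ p.2)) := by
          ring
      _ ≤ 11 * ‖a p‖ / n ^ 2 * (C1 * r' ^ p.1 * (C2 * s' ^ p.2)) := by gcongr
      _ = _ := by ring

end H91.BernV
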