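import Mathlib

set_option autoImplicit false

namespace H91.BetaG
open Set Filter Topology

/-- the set of `b`-expansions of `x` (digit `a n` has weight `b^(-(n+1))`) -/
def Exp (b x : ℝ) : Set (ℕ → Fin 2) := {a | HasSum (fun n => ((a n : ℕ) : ℝ) / b ^ (n + 1)) x}

/-- the number of `k`-prefixes -/
noncomputable def Npre (b x : ℝ) (k : ℕ) : ℕ :=
  Set.ncard {w : Fin k → Fin 2 | ∃ a ∈ Exp b x, ∀ i : Fin k, a i = w i}

abbrev V := ℤ × ℤ × ℤ × ℤ
def nxt (v : V) (k : ℤ) : V := (-v.2.2.2 + k, v.1, v.2.1 + 2 * v.2.2.2, v.2.2.1 + v.2.2.2)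
def val (b : ℝ) (v : V) : ℝ := v.1 + v.2.1 * b + v.2.2.1 * b ^ 2 + v.2.2.2 * b ^ 3
def ap (v : V) : ℤ := v.1 * 10000 + v.2.1 * 19052 + v.2.2.1 * 36297 + v.2.2.2 * 69151
def er (v : V) : ℤ := |v.2.1| + |v.2.2.1| + |v.2.2.2|
def wd (l : List (Fin 2)) (i : ℕ) : Fin 2 := l.getD i 0
def E : Bool → List (Fin 2)
  | false => [0,0,1,0,0,0,1,0,0,1,0,0,0,0]
  | true => [0,0,1,0,0,0,0,1,0,1,0,0,0,0]
def QW : Bool → List (Fin 2)
  | false => [0,1,0,1,1,0,1,0,1,0,1,1,0,0]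
  | true => [0,1,0,1,1,0,0,1,1,0,1,1,0,0]
def RR (c : Fin 2) : List (Fin 2) :=
  if c = 0 then [1,1,0,0,1,1,1,1,1,0,0,1,1,0] else [1,1,0,1,0,0,0,0,1,1,0,1,1,0]
def PR : List (Fin 2) := [0,0,1,0,0,0,1,0,0,0,1,1,1,0]
def RQ : List (Fin 2) := [1,1,0,1,0,0,0,0,0,0,0,0,0,1]
def lo (t : Bool) (i : ℕ) : ℤ := (if t then
  [1519, 2894, 5515, 508, 969, 1848, 3522, 6711, 2786, 5308, 114, 219, 418, 797, 1519] else
  [1570, 2993, 5704, 869, 1657, 3157, 6016, 1462, 2786, 5308, 114, 219, 418, 797, 1519]).getD i 0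
def hi (t : Bool) (i : ℕ) : ℤ := (if t then
  [1521, 2897, 5518, 511, 972, 1851, 3525, 6714, 2789, 5313, 120, 228, 434, 826, 1573] else
  [1573, 2996, 5707, 871, 1659, 3159, 6018, 1464, 2789, 5313, 120, 228, 434, 826, 1573]).getD i 0
def q : V := (-2, 1, 2, -1)
def r : V := (-1, -1, 1, 0)
def N (t : Bool) (i : ℕ) : List V := (if t then
  [[(-2, 1, 2, -1), (-1, -1, 1, 0)], [(1, -2, -1, 1), (-1, -1, -1, 1)], [(-2, 1, 0, 0), (-2, -1, 1, 0)], [(1, -2, 1, 0), (1, -2, -1, 1), (1, 0, 0, 0)], [(-1, 1, -2, 1), (-1, 1, 0, 0), (-2, 1, 0, 0)], [(-2, -1, 3, -1), (-1, -1, 1, 0), (0, -2, 1, 0)], [(1, -2, -3, 2), (-1, -1, -1, 1), (0, 0, -2, 1)], [(-2, 1, 2, -1), (-2, -1, 1, 0), (-1, 0, 2, -1)], [(1, -2, -1, 1), (2, -1, -2, 1)], [(-2, 1, 0, 0), (-1, 2, 1, -1)], [(1, -2, 1, 0), (2, -1, 0, 0), (1, 0, 0, 0)], [(-1, 1, -2, 1), (0, 2, -1, 0), (-1, 1, 0, 0)], [(-2, -1, 3, -1), (0, 0, 2, -1), (-1, -1, 1, 0)], [(1, -2,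 -3, 2), (1, 0, -2, 1), (-1, -1, -1, 1)], [(-2, 1, 2, -1), (-1, -1, 1, 0)]] else
  [[(-2, 1, 2, -1), (-1, -1, 1, 0)], [(1, -2, -1, 1), (-1, -1, -1, 1)], [(-2, 1, 0, 0), (-2, -1, 1, 0)], [(1, -2, 1, 0), (1, -2, -1, 1), (1, 0, 0, 0)], [(-1, 1, -2, 1), (-1, 1, 0, 0), (-2, 1, 0, 0)], [(-2, -1, 3, -1), (-1, -1, 1, 0), (0, -2, 1, 0)], [(1, -2, -3, 2), (-1, -1, -1, 1), (0, 0, -2, 1)], [(-2, 1, 2, -1), (-1, -1, 1, 0), (0, 0, 2, -1)], [(1, -2, -1, 1), (-1, -1, -1, 1), (1, 0, -2, 1)], [(-2, 1, 0, 0), (-2, -1, 1, 0), (-2, 1, 2, -1)], [(1, -2, 1, 0), (1, -2, -1, 1), (1, 0, 0, 0)], [(-1, 1, -2, 1), (-1, 1, 0, 0)], [(-2, -1, 3, -1), (-1, -1, 1, 0)], [(1, -2, -3, 2), (-1, -1, -1, 1)], [(-2, 1, 2, -1), (-1, -1, 1, 0)]]).getD i []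
def Q (_ : Bool) (i : ℕ) : List V :=
  [[(-2, 1, 2, -1)], [(1, -2, -1, 1)], [(-2, 1, 0, 0)], [(1, -2, 1, 0)], [(-1, 1, -2, 1)], [(-2, -1, 3, -1)], [(1, -2, -3, 2)], [(-2, 1, 2, -1)], [(1, -2, -1, 1)], [(-2, 1, 0, 0)], [(1, -2, 1, 0)], [(-1, 1, -2, 1)], [(-2, -1, 3, -1)], [(1, -2, -3, 2)], [(-2, 1, 2, -1)]].getD i []
def O (i : ℕ) : List V :=
  [[(-2, 1, 2, -1), (-1, -1, 1, 0)], [(1, -2, -1, 1), (-1, -1, -1, 1)], [(-2, 1, 0, 0), (-2, -1, 1, 0)], [(1, -2, 1, 0), (1, -2, -1, 1)], [(-1, 1, -2, 1), (-1, 1, 0, 0), (-2, 1, 0, 0)], [(-2, -1, 3, -1), (-1, -1, 1, 0), (0, -2, 1, 0)], [(1, -2, -3, 2), (-1, -1, -1, 1), (0, 0, -2, 1)], [(-2, 1, 2, -1), (-2, -1, 1, 0), (-1, 0, 2, -1)], [(1, -2, -1, 1), (2, -1, -2, 1)], [(-2, 1, 0, 0), (-1, 2, 1, -1)], [(1, -2, 1, 0), (2, -1, 0, 0)], [(-1, 1, -2, 1), (0, 2, -1, 0)], [(-2, -1, 3, -1), (0, 0, 2, -1)], [(1, -2, -3, 2), (1, 0, -2, 1)], [(-2, 1, 2, -1)]].getD i []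
def df (x y : Fin 2) : ℤ := ((x : ℕ) : ℤ) - ((y : ℕ) : ℤ)
def ok (t : Bool) (i : ℕ) (v : V) (e : Fin 2) (L : List V) : Prop :=
  0 ≤ hi t (i + 1) + ap (nxt v (df (wd (E t) i) e)) + er (nxt v (df (wd (E t) i) e)) →
  lo t (i + 1) + ap (nxt v (df (wd (E t) i) e)) - er (nxt v (df (wd (E t) i) e)) ≤ 11048 →
  nxt v (df (wd (E t) i) e) ∈ L
instance (t : Bool) (i : ℕ) (v : V) (e : Fin 2) (L : List V) : Decidable (ok t i v e L) := by
  unfold ok; infer_instance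

lemma cN : ∀ t, ∀ i < 14, ∀ v ∈ N t i, ∀ e, ok t i v e (N t (i + 1)) := by decide +kernel
lemma cQ : ∀ t, ∀ i < 14, ∀ v ∈ Q t i, ∀ e, ok t i v e (Q t (i + 1)) := by decide +kernel
lemma cO : ∀ i < 14, ∀ v ∈ O i, ∀ e, ok true i v e (O (i + 1)) := by decide +kernel
lemma cP : ∀ t, ∀ i < 14, ∀ e, e ≠ wd (E t) i → ok t i 0 e (N t (i + 1)) := by decide +kernel
lemma cI : ∀ t, ∀ i < 14, lo t i * 19052 ≤ (lo t (i + 1) + (wd (E t) i : ℕ) * 10000) * 10000 ∧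
    (hi t (i + 1) + (wd (E t) i : ℕ) * 10000) * 10000 ≤ hi t i * 19051 ∧ 0 ≤ lo t i ∧ 0 ≤ hi t i ∧
    lo t i ≤ 10000 := by decide +kernel
lemma cE : ∀ t t', lo t 14 ≤ lo t' 0 ∧ hi t' 0 ≤ hi t 14 ∧ N t 14 = N t' 0 := by decide +kernel
lemma cQ1 : ∀ t, ∀ i < 14, ∀ v ∈ Q t i, ∀ w ∈ Q t i, v = w := by decide +kernel

def run (v : V) (k : ℕ → ℤ) : ℕ → V
  | 0 => v
  | L + 1 => nxt (run v k L) (k L)

lemma cR : (∀ t, run 0 (fun i => df (wd (E t) i) (wd (E t) i)) 14 = 0) ∧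
    run 0 (fun i => df (wd (E false) i) (wd PR i)) 14 = r ∧
    (∀ c, run r (fun i => df (wd (E false) i) (wd (RR c) i)) 14 = r) ∧
    run r (fun i => df (wd (E true) i) (wd RQ i)) 14 = q ∧
    (∀ t, run q (fun i => df (wd (E t) i) (wd (QW t) i)) 14 = q) ∧ ∀ c, wd (RR c) 3 = c := by
  decide +kernel

open Classical in
noncomputable def T (j : ℕ) : Bool := decide (∃ i, j = 2 ^ i)
noncomputable def ε (n : ℕ) : Fin 2 := wd (E (T (n / 14))) (n % 14)
noncomputable def rem (b : ℝ) (a : ℕ → Fin 2) (n : ℕ) : ℝ := ∑' i, ((a (n + i) : ℕ) : ℝ) / b ^ (i + 1)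

section
variable {b : ℝ} (h1 : 1.905166 ≤ b) (h2 : b ≤ 1.905167) (h3 : b ^ 4 = b ^ 3 + 2 * b ^ 2 - 1)
include h1

lemma geo : HasSum (fun i : ℕ => 1 / b ^ (i + 1)) (1 / (b - 1)) := by
  have b0 : 0 < b := by linarith
  have := (hasSum_geometric_of_lt_one (r := b⁻¹) (by positivity)
    (inv_lt_one_of_one_lt₀ (by linarith))).mul_left b⁻¹
  convert! this using 1
  · ext i; rw [← pow_succ', one_div, inv_pow]
  · have : b - 1 ≠ 0 := by linarith
    field_simp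

lemma dig (x : Fin 2) (i : ℕ) : 0 ≤ ((x : ℕ) : ℝ) / b ^ (i + 1) ∧
    ((x : ℕ) : ℝ) / b ^ (i + 1) ≤ 1 / b ^ (i + 1) := by
  have b0 : 0 < b := by linarith
  refine ⟨by positivity, div_le_div_of_nonneg_right ?_ (by positivity)⟩
  exact_mod_cast Nat.le_of_lt_succ x.2

lemma summ (a : ℕ → Fin 2) (n : ℕ) : Summable fun i => ((a (n + i) : ℕ) : ℝ) / b ^ (i + 1) :=
  .of_nonneg_of_le (fun i => (dig h1 _ i).1) (fun i => (dig h1 _ i).2) (geo h1).summable

lemma rem_bd (a : ℕ → Fin 2) (n : ℕ) : 0 ≤ rem b a n ∧ rem b a n ≤ 1 / (b - 1) :=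
  ⟨tsum_nonneg fun i => (dig h1 _ i).1, (geo h1).tsum_eq ▸
    (summ h1 a n).tsum_le_tsum (fun i => (dig h1 _ i).2) (geo h1).summable⟩

lemma rem_bd' (a : ℕ → Fin 2) (n : ℕ) : rem b a n ≤ 1.1048 :=
  (rem_bd h1 a n).2.trans (by rw [div_le_iff₀ (by linarith)]; linarith)

lemma rem_succ (a : ℕ → Fin 2) (n : ℕ) : rem b a (n + 1) = b * rem b a n - (a n : ℕ) := by
  have b0 : b ≠ 0 := by linarith
  rw [rem, rem, (summ h1 a n).tsum_eq_zero_add, mul_add, ← tsum_mul_left]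
  have : ∀ i, b * (((a (n + (i + 1)) : ℕ) : ℝ) / b ^ (i + 1 + 1)) =
      ((a (n + 1 + i) : ℕ) : ℝ) / b ^ (i + 1) := fun i => by
    rw [show n + (i + 1) = n + 1 + i by ring, pow_succ b (i + 1)]; field_simp
  simp only [this]; field_simp; simp

lemma mem_iff (a : ℕ → Fin 2) (x : ℝ) : a ∈ Exp b x ↔ rem b a 0 = x := by
  have := summ h1 a 0
  simp only [zero_add] at this
  simp only [Exp, rem, zero_add, mem_setOf_eq]
  exact ⟨fun h => h.tsum_eq, fun h => h ▸ this.hasSum⟩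

include h2
lemma x_in (n : ℕ) : (lo (T (n / 14)) (n % 14) : ℝ) ≤ 10000 * rem b ε n ∧
    10000 * rem b ε n ≤ hi (T (n / 14)) (n % 14) := by
  have b0 : 0 < b := by linarith
  have key : ∀ k n : ℕ, (lo (T (n / 14)) (n % 14) : ℝ) - 20000 * (2 / 3) ^ k ≤ 10000 * rem b ε n ∧
      10000 * rem b ε n ≤ hi (T (n / 14)) (n % 14) + 20000 * (2 / 3) ^ k := by
    intro k
    induction k with
    | zero =>
      intro n
      obtain ⟨-, -, -, c4, c5⟩ := cI (T (n / 14)) (n % 14) (Nat.mod_lt _ (by norm_num))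
      have c4' : (0 : ℝ) ≤ hi (T (n / 14)) (n % 14) := by exact_mod_cast c4
      have c5' : (lo (T (n / 14)) (n % 14) : ℝ) ≤ 10000 := by exact_mod_cast c5
      constructor <;> linarith [(rem_bd h1 ε n).1, rem_bd' h1 ε n]
    | succ k ih =>
      intro n
      obtain ⟨c1, c2, c3, c4, -⟩ := cI (T (n / 14)) (n % 14) (Nat.mod_lt _ (by norm_num))
      have nx : lo (T (n / 14)) (n % 14 + 1) ≤ lo (T ((n + 1) / 14)) ((n + 1) % 14) ∧
          hi (T ((n + 1) / 14)) ((n + 1) % 14) ≤ hi (T (n / 14)) (n % 14 + 1) := by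
        by_cases h : n % 14 = 13
        · rw [h, show (n + 1) % 14 = 0 by omega]; exact ⟨(cE _ _).1, (cE _ _).2.1⟩
        · rw [show (n + 1) % 14 = n % 14 + 1 by omega, show (n + 1) / 14 = n / 14 by omega]
          exact ⟨le_rfl, le_rfl⟩
      obtain ⟨i1, i2⟩ := ih (n + 1)
      rw [rem_succ h1, ε] at i1 i2
      have d1 := (Int.cast_le (R := ℝ)).2 c1
      have d2 := (Int.cast_le (R := ℝ)).2 c2
      have d3 := (Int.cast_le (R := ℝ)).2 c3
      have d4 := (Int.cast_le (R := ℝ)).2 c4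
      have d5 := (Int.cast_le (R := ℝ)).2 nx.1
      have d6 := (Int.cast_le (R := ℝ)).2 nx.2
      push_cast at d1 d2 d3 d4
      have p : (0 : ℝ) < (2 / 3) ^ k := by positivity
      rw [pow_succ]
      constructor <;> refine le_of_mul_le_mul_left ?_ b0 <;> nlinarith
  have t : Tendsto (fun k : ℕ => 20000 * (2 / 3 : ℝ) ^ k) atTop (𝓝 (20000 * 0)) :=
    (tendsto_pow_atTop_nhds_zero_of_lt_one (by norm_num) (by norm_num)).const_mul _
  constructor
  · simpa using le_of_tendsto' (t.const_sub _) fun k => (key k n).1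
  · simpa using ge_of_tendsto' (t.const_add _) fun k => (key k n).2

omit h1 h2 in
include h3 in
lemma val_nxt (v : V) (k : ℤ) : val b (nxt v k) = b * val b v + k := by
  simp only [val, nxt]; push_cast; linear_combination (-(v.2.2.2 : ℝ)) * h3

lemma val_ap (v : V) : |10000 * val b v - ap v| ≤ er v := by
  have a1 : |10000 * b - 19052| ≤ 1 := abs_le.2 ⟨by linarith, by linarith⟩
  have s1 : 3.6296 ≤ b ^ 2 := by nlinarith
  have s2 : b ^ 2 ≤ 3.62967 := by nlinarith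
  have s0 : 3.62965 ≤ b ^ 2 := by nlinarith
  have a2 : |10000 * b ^ 2 - 36297| ≤ 1 := abs_le.2 ⟨by linarith, by linarith⟩
  have a3 : |10000 * b ^ 3 - 69151| ≤ 1 := abs_le.2 ⟨by nlinarith, by nlinarith⟩
  have e : 10000 * val b v - ap v = v.2.1 * (10000 * b - 19052) + v.2.2.1 * (10000 * b ^ 2 - 36297)
    + v.2.2.2 * (10000 * b ^ 3 - 69151) := by simp only [val, ap]; push_cast; ring
  rw [e, er]; push_cast
  refine (abs_add_three _ _ _).trans ?_
  simp only [abs_mul]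
  gcongr <;> exact mul_le_of_le_one_right (abs_nonneg _) ‹_›

include h3
lemma d_succ (a : ℕ → Fin 2) (n : ℕ) (v : V) (h : rem b a n - rem b ε n = val b v) :
    rem b a (n + 1) - rem b ε (n + 1) = val b (nxt v (df (ε n) (a n))) := by
  rw [val_nxt h3, rem_succ h1, rem_succ h1, ← h, df]; push_cast; ring

lemma step (a : ℕ → Fin 2) (n : ℕ) (v : V) (L : List V) (h : rem b a n - rem b ε n = val b v)
    (hk : ok (T (n / 14)) (n % 14) v (a n) L) :
    ∃ w ∈ L, rem b a (n + 1) - rem b ε (n + 1) = val b w := by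
  refine ⟨_, ?_, d_succ h1 h2 h3 a n v h⟩
  have e := d_succ h1 h2 h3 a n v h
  have nx : lo (T (n / 14)) (n % 14 + 1) ≤ lo (T ((n + 1) / 14)) ((n + 1) % 14) ∧
      hi (T ((n + 1) / 14)) ((n + 1) % 14) ≤ hi (T (n / 14)) (n % 14 + 1) := by
    by_cases h : n % 14 = 13
    · rw [h, show (n + 1) % 14 = 0 by omega]; exact ⟨(cE _ _).1, (cE _ _).2.1⟩
    · rw [show (n + 1) % 14 = n % 14 + 1 by omega, show (n + 1) / 14 = n / 14 by omega]
      exact ⟨le_rfl, le_rfl⟩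
  have d5 := (Int.cast_le (R := ℝ)).2 nx.1
  have d6 := (Int.cast_le (R := ℝ)).2 nx.2
  have x := x_in h1 h2 (n + 1)
  have y := abs_le.1 (val_ap h1 h2 (nxt v (df (ε n) (a n))))
  have z1 := (rem_bd h1 a (n + 1)).1
  have z2 := rem_bd' h1 a (n + 1)
  refine hk ?_ ?_ <;> refine (Int.cast_le (R := ℝ)).1 ?_ <;> push_cast <;> rw [← ε] <;>
    linarith [x.1, x.2, y.1, y.2]

lemma stay (a : ℕ → Fin 2) (L : Bool → ℕ → List V)
    (hL : ∀ t, ∀ i < 14, ∀ v ∈ L t i, ∀ e, ok t i v e (L t (i + 1))) (hE : ∀ t t', L t 14 = L t' 0)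
    (n : ℕ) (h : ∃ w ∈ L (T (n / 14)) (n % 14), rem b a n - rem b ε n = val b w) (m : ℕ) (hm : n ≤ m) :
    ∃ w ∈ L (T (m / 14)) (m % 14), rem b a m - rem b ε m = val b w := by
  induction m, hm using Nat.le_induction with
  | base => exact h
  | succ m _ ih =>
    obtain ⟨w, hw, e⟩ := ih
    have := step h1 h2 h3 a m w _ e (hL _ _ (Nat.mod_lt _ (by norm_num)) w hw _)
    by_cases h : m % 14 = 13
    · rw [h, hE _ (T ((m + 1) / 14))] at this; rwa [show (m + 1) % 14 = 0 by omega]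
    · rwa [show (m + 1) % 14 = m % 14 + 1 by omega, show (m + 1) / 14 = m / 14 by omega]

lemma count : (Exp b (rem b ε 0)).Countable := by
  let S : ℕ → Set (ℕ → Fin 2) := fun n =>
    {a | ∃ w ∈ Q (T (n / 14)) (n % 14), rem b a n - rem b ε n = val b w}
  have hS : ∀ n, (S n).Countable := by
    intro n
    refine (MapsTo.countable_of_injOn (f := fun a (i : Fin n) => a i) (t := univ)
      (mapsTo_univ _ _) ?_ countable_univ)
    intro a ha a' ha' e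
    have eq : ∀ m, n ≤ m → rem b a m = rem b a' m := fun m hm => by
      obtain ⟨w, hw, e1⟩ := stay h1 h2 h3 a Q cQ (fun _ _ => rfl) n ha m hm
      obtain ⟨w', hw', e2⟩ := stay h1 h2 h3 a' Q cQ (fun _ _ => rfl) n ha' m hm
      rw [cQ1 _ _ (Nat.mod_lt _ (by norm_num)) w hw w' hw'] at e1
      linarith
    ext m
    rcases lt_or_ge m n with h | h
    · exact congrArg Fin.val (congrFun e ⟨m, h⟩)
    · have := eq (m + 1) (by omega)
      rw [rem_succ h1, rem_succ h1, eq m h] at this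
      exact_mod_cast sub_right_injective this
  refine ((countable_singleton ε).union (countable_iUnion hS)).mono fun a ha => ?_
  by_cases hae : a = ε
  · exact Or.inl hae
  have hex : ∃ n, a n ≠ ε n := by by_contra h; push Not at h; exact hae (funext h)
  have z : ∀ n, n ≤ Nat.find hex → rem b a n - rem b ε n = val b 0 := by
    intro n hn
    induction n with
    | zero => simp [val, (mem_iff h1 a _).1 ha]
    | succ n ih =>
      have := d_succ h1 h2 h3 a n 0 (ih (by omega))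
      rwa [show a n = ε n by simpa using Nat.find_min hex hn, df, sub_self] at this
  set n := Nat.find hex
  have s1 := step h1 h2 h3 a n 0 _ (z n le_rfl)
    (cP _ _ (Nat.mod_lt _ (by norm_num)) _ (Nat.find_spec hex))
  have s2 : ∃ w ∈ N (T ((n + 1) / 14)) ((n + 1) % 14),
      rem b a (n + 1) - rem b ε (n + 1) = val b w := by
    by_cases h : n % 14 = 13
    · rw [h, (cE _ (T ((n + 1) / 14))).2.2] at s1; rwa [show (n + 1) % 14 = 0 by omega]
    · rwa [show (n + 1) % 14 = n % 14 + 1 by omega, show (n + 1) / 14 = n / 14 by omega]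
  have lt : n < 2 ^ n := Nat.lt_two_pow_self
  have s3 := stay h1 h2 h3 a N cN (fun t t' => (cE t t').2.2) _ s2 (14 * 2 ^ n) (by omega)
  have hT : T (2 ^ n) = true := by simp [T]
  have s4 : ∀ i ≤ 14, ∃ w ∈ O i, rem b a (14 * 2 ^ n + i) - rem b ε (14 * 2 ^ n + i) = val b w := by
    intro i hi
    induction i with
    | zero => rwa [show 14 * 2 ^ n / 14 = 2 ^ n by omega, show 14 * 2 ^ n % 14 = 0 by omega, hT] at s3
    | succ i ih =>
      obtain ⟨w, hw, e⟩ := ih (by omega)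
      refine step h1 h2 h3 a (14 * 2 ^ n + i) w _ e ?_
      rw [show (14 * 2 ^ n + i) / 14 = 2 ^ n by omega, show (14 * 2 ^ n + i) % 14 = i by omega, hT]
      exact cO i (by omega) w hw _
  refine Or.inr (mem_iUnion.2 ⟨14 * 2 ^ n + 14, ?_⟩)
  simp only [S, show (14 * 2 ^ n + 14) % 14 = 0 by omega]
  exact s4 14 le_rfl

lemma blocks (W : ℕ → List (Fin 2)) (D : ℕ → V) (D0 : D 0 = 0) (J : ℕ) (DJ : ∀ j, J ≤ j → D j = q)
    (hD : ∀ j, run (D j) (fun i => df (wd (E (T j)) i) (wd (W j) i)) 14 = D (j + 1)) :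
    (fun n => wd (W (n / 14)) (n % 14)) ∈ Exp b (rem b ε 0) := by
  set a : ℕ → Fin 2 := fun n => wd (W (n / 14)) (n % 14) with ha
  have b1 : 1 < b := by linarith
  have key : ∀ j, rem b a (14 * j) - rem b ε (14 * j) - val b (D j) =
      b ^ (14 * j) * (rem b a 0 - rem b ε 0) := by
    intro j
    induction j with
    | zero => simp [D0, val]
    | succ j ih =>
      have : ∀ i ≤ 14, rem b a (14 * j + i) - rem b ε (14 * j + i) -
          val b (run (D j) (fun i => df (wd (E (T j)) i) (wd (W j) i)) i) =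
          b ^ (14 * j + i) * (rem b a 0 - rem b ε 0) := by
        intro i hi
        induction i with
        | zero => exact ih
        | succ i ih2 =>
          rw [← add_assoc, rem_succ h1, rem_succ h1, run, val_nxt h3, pow_succ', mul_assoc,
            ← ih2 (by omega), ε, ha]
          simp only [show (14 * j + i) / 14 = j by omega, show (14 * j + i) % 14 = i by omega, df]
          push_cast; ring
      have h := this 14 le_rfl
      rwa [hD] at h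
  rw [mem_iff h1, ← sub_eq_zero]
  by_contra hne
  have t := ((tendsto_pow_atTop_atTop_of_one_lt b1).comp
    (tendsto_id.const_mul_atTop' (show 0 < 14 by norm_num))).atTop_mul_const (abs_pos.2 hne)
  obtain ⟨j, hj, hj'⟩ := ((t.eventually_gt_atTop (3 + |val b q|)).and (eventually_ge_atTop J)).exists
  have k := congrArg abs (key j)
  rw [abs_mul, abs_of_pos (pow_pos (show 0 < b by linarith) _), DJ j hj'] at k
  simp only [Function.comp, id] at hj
  rw [← k, lt_abs] at hj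
  rcases hj with h | h <;> linarith [(rem_bd h1 a (14 * j)).1, rem_bd' h1 a (14 * j),
    (rem_bd h1 ε (14 * j)).1, rem_bd' h1 ε (14 * j), le_abs_self (val b q), neg_abs_le (val b q)]

lemma many (i k : ℕ) (hi : 1 ≤ i) (hk : 14 * 2 ^ (i + 1) ≤ k) :
    2 ^ (2 ^ i - 2) ≤ Npre b (rem b ε 0) k := by
  have p2 : 2 ≤ 2 ^ i := by simpa using Nat.pow_le_pow_right (by norm_num : 0 < 2) hi
  have pe : 2 ^ (i + 1) = 2 * 2 ^ i := by ring
  let c' : (Fin (2 ^ i - 2) → Fin 2) → ℕ → Fin 2 := fun c j =>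
    if h : j - (2 ^ i + 2) < 2 ^ i - 2 then c ⟨_, h⟩ else 0
  let W : (Fin (2 ^ i - 2) → Fin 2) → ℕ → List (Fin 2) := fun c j =>
    if j ≤ 2 ^ i then E (T j) else if j = 2 ^ i + 1 then PR else if j < 2 * 2 ^ i then RR (c' c j)
    else if j = 2 * 2 ^ i then RQ else QW (T j)
  have hT : ∀ j, 2 ^ i < j → j < 2 * 2 ^ i → T j = false := by
    intro j a1 a2
    simp only [T, decide_eq_false_iff_not, not_exists]
    rintro m rfl
    rw [← pe] at a2
    have := (Nat.pow_lt_pow_iff_right one_lt_two).1 a1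
    have := (Nat.pow_lt_pow_iff_right one_lt_two).1 a2
    omega
  have hT' : T (2 * 2 ^ i) = true := by simp only [T, decide_eq_true_iff]; exact ⟨i + 1, pe.symm⟩
  have mem : ∀ c, (fun n => wd (W c (n / 14)) (n % 14)) ∈ Exp b (rem b ε 0) := by
    intro c
    refine blocks h1 h2 h3 (W c) (fun j => if j ≤ 2 ^ i + 1 then 0 else if j ≤ 2 * 2 ^ i then r else q)
      (by simp) (2 * 2 ^ i + 1) (fun j hj => by rw [if_neg (by omega), if_neg (by omega)]) fun j => ?_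
    simp only [W]
    split_ifs <;> first | omega | skip
    · exact cR.1 _
    · rw [hT j (by omega) (by omega)]; exact cR.2.1
    · rw [hT j (by omega) (by omega)]; exact cR.2.2.1 _
    · rw [show j = 2 * 2 ^ i by assumption, hT']; exact cR.2.2.2.1
    · exact cR.2.2.2.2.1 _
  have := Set.ncard_le_ncard_of_injOn (s := univ)
    (t := {w : Fin k → Fin 2 | ∃ a ∈ Exp b (rem b ε 0), ∀ i : Fin k, a i = w i})
    (fun (c : Fin (2 ^ i - 2) → Fin 2) (n : Fin k) => wd (W c (n / 14)) (n % 14))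
    (fun c _ => ⟨_, mem c, fun _ => rfl⟩) (fun c _ c2 _ e => by
      ext j
      have hj := j.2
      have := congrFun e ⟨14 * (2 ^ i + 2 + j) + 3, by omega⟩
      simp only [show (14 * (2 ^ i + 2 + (j : ℕ)) + 3) / 14 = 2 ^ i + 2 + j by omega,
        show (14 * (2 ^ i + 2 + (j : ℕ)) + 3) % 14 = 3 by omega, W] at this
      rw [if_neg (by omega), if_neg (by omega), if_pos (by omega), if_neg (by omega),
        if_neg (by omega), if_pos (by omega), cR.2.2.2.2.2, cR.2.2.2.2.2] at this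
      simp only [c', Nat.add_sub_cancel_left, hj, dif_pos, Fin.eta] at this
      rw [this]) (toFinite _)
  simpa [Set.ncard_univ, Npre] using this
end

theorem main : ∃ b x : ℝ, 1 < b ∧ b < 2 ∧ x ∈ Set.Icc 0 (1 / (b - 1)) ∧
    (0 : EReal) < Filter.liminf (fun k : ℕ =>
      ((Real.logb 2 (H91.BetaG.Npre b x k) / k : ℝ) : EReal)) Filter.atTop ∧
    (H91.BetaG.Exp b x).Countable ∧
    ∀ m : EMetricSpace (ℕ → Fin 2), @dimH _ m (H91.BetaG.Exp b x) = 0 := by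
  obtain ⟨b, ⟨h1, h2⟩, h3⟩ : ∃ b ∈ Icc (1.905166 : ℝ) 1.905167,
      b ^ 4 - (b ^ 3 + 2 * b ^ 2 - 1) = 0 :=
    intermediate_value_Icc (f := fun b : ℝ => b ^ 4 - (b ^ 3 + 2 * b ^ 2 - 1)) (by norm_num)
      (by fun_prop) ⟨by norm_num, by norm_num⟩
  have h3 := sub_eq_zero.1 h3
  refine ⟨b, rem b ε 0, by linarith, by linarith, rem_bd h1 ε 0, ?_, count h1 h2 h3,
    fun m => (count h1 h2 h3).dimH_zero⟩
  refine lt_of_lt_of_le (show (0 : EReal) < ((1 / 112 : ℝ) : EReal) by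
    exact_mod_cast (by norm_num : (0 : ℝ) < 1 / 112)) (le_liminf_of_le (by isBoundedDefault) ?_)
  filter_upwards [eventually_ge_atTop 112] with k hk
  obtain ⟨i, hi1, hi2⟩ : ∃ i, 2 ^ (i + 3) ≤ k / 14 ∧ k / 14 < 2 ^ (i + 4) := by
    have a : 3 ≤ Nat.log 2 (k / 14) := Nat.le_log_of_pow_le one_lt_two (by omega)
    obtain ⟨i, hi⟩ := Nat.exists_eq_add_of_le' a
    exact ⟨i, hi ▸ Nat.pow_log_le_self 2 (by omega),
      (show i + 4 = (Nat.log 2 (k / 14)).succ by omega) ▸ Nat.lt_pow_succ_log_self one_lt_two _⟩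
  have m := many h1 h2 h3 (i + 2) k (by omega) (by rw [show i + 2 + 1 = i + 3 by ring]; omega)
  have p : 1 ≤ 2 ^ i := Nat.one_le_two_pow
  have e : k ≤ 112 * (2 ^ (i + 2) - 2) := by
    rw [pow_add] at hi2 ⊢; omega
  have k0 : (0 : ℝ) < k := by exact_mod_cast (show 0 < k by omega)
  rw [EReal.coe_le_coe_iff, le_div_iff₀ k0]
  have m' : (2 : ℝ) ^ (2 ^ (i + 2) - 2) ≤ Npre b (rem b ε 0) k := by exact_mod_cast m
  have l := Real.logb_le_logb_of_le one_lt_two (by positivity) m'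
  rw [Real.logb_pow, Real.logb_self_eq_one one_lt_two, mul_one] at l
  have e' : (k : ℝ) ≤ 112 * ((2 ^ (i + 2) - 2 : ℕ) : ℝ) := by exact_mod_cast e
  linarith

end H91.BetaG
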