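import Mathlib

set_option autoImplicit false

open Set

namespace H91.BetaTr

/-- The map `x ↦ β x + α (mod 1)`. -/
noncomputable def T (α β x : ℝ) : ℝ := Int.fract (β * x + α)

/-- Topological transitivity of `T` on `[0,1)`; open subsets of `[0,1)` are traces of open
subsets of `ℝ`. -/
def Trans (α β : ℝ) : Prop :=
  ∀ U V : Set ℝ, IsOpen U → IsOpen V → (U ∩ Ico 0 1).Nonempty → (V ∩ Ico 0 1).Nonempty →
    ∃ n : ℕ, ((T α β)^[n] '' (U ∩ Ico 0 1) ∩ (V ∩ Ico 0 1)).Nonempty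

lemma glue {A : Set ℝ} (hA : IsClosed A) {a b c d : ℝ} (h1 : Ioo a b ⊆ A) (h2 : Ioo c d ⊆ A)
    (h : c ≤ b) : Ioo a d ⊆ A := by
  intro z hz
  rcases lt_trichotomy z b with h3 | h3 | h3
  · exact h1 ⟨hz.1, h3⟩
  · refine hA.closure_subset (closure_mono h1 ?_)
    rw [closure_Ioo (by rw [← h3]; exact hz.1.ne)]
    exact ⟨hz.1.le, h3.le⟩
  · exact h2 ⟨h.trans_lt h3, hz.2⟩

lemma core {β y : ℝ} {A : Set ℝ} (hA : IsClosed A) (hβ : 1 < β) (hy : 0 ≤ y) (hy1 : β * y ≤ 1)
    (hY : β * (1 + y) - 1 ≤ 1 + y)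
    (H1 : ∀ s t, y ≤ s → β * t ≤ 1 + y → Ioo s t ⊆ A → Ioo (β * s) (β * t) ⊆ A)
    (H2 : ∀ s t, 1 + y ≤ β * s → t ≤ 1 + y → Ioo s t ⊆ A → Ioo (β * s - 1) (β * t - 1) ⊆ A)
    {s t : ℝ} (hs : y ≤ s) (hst : s < t) (ht : t ≤ 1 + y) (h0 : Ioo s t ⊆ A) :
    Ioo y (1 + y) ⊆ A := by
  have hβ0 : 0 < β := by linarith
  set c := (1 + y) / β with hc
  have hc1 : β * c = 1 + y := by rw [hc]; field_simp
  have fin : ∀ w, β * y < w → Ioo y w ⊆ A → Ioo y (1 + y) ⊆ A := by
    intro w hw h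
    have hw0 : 0 < w := lt_of_le_of_lt (by positivity) hw
    have h1 : ∀ k : ℕ, Ioo y (min (1 + y) (β ^ k * w)) ⊆ A := by
      intro k
      induction k with
      | zero => exact (Ioo_subset_Ioo_right (by simp)).trans h
      | succ k ih =>
        have h2 := H1 y (min c (β ^ k * w)) le_rfl
          (by rw [← hc1]; exact mul_le_mul_of_nonneg_left (min_le_left _ _) hβ0.le)
          ((Ioo_subset_Ioo_right (min_le_min (by nlinarith) le_rfl)).trans ih)
        rw [mul_min_of_nonneg _ _ hβ0.le, hc1, ← mul_assoc, ← pow_succ'] at h2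
        refine glue hA ih h2 (le_min (by linarith) ?_)
        nlinarith [one_le_pow₀ hβ.le (n := k)]
    obtain ⟨k, hk⟩ := pow_unbounded_of_one_lt ((1 + y) / w) hβ
    rw [div_lt_iff₀ hw0] at hk
    simpa [min_eq_left hk.le] using h1 k
  let K : Set (ℝ × ℝ) := {p | y ≤ p.1 ∧ p.2 ≤ 1 + y ∧ p.1 ≤ p.2 ∧ Ioo p.1 p.2 ⊆ A}
  have hK : IsCompact K := by
    refine (isCompact_Icc (a := ((y, y) : ℝ × ℝ)) (b := (1 + y, 1 + y))).of_isClosed_subset ?_ ?_
    · refine (isClosed_le continuous_const continuous_fst).inter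
        ((isClosed_le continuous_snd continuous_const).inter
        ((isClosed_le continuous_fst continuous_snd).inter ?_))
      have : {p : ℝ × ℝ | Ioo p.1 p.2 ⊆ A} =
          ⋂ z ∈ Aᶜ, ({p | z ≤ p.1} ∪ {p | p.2 ≤ z}) := by
        ext p
        simp only [mem_setOf_eq, mem_iInter, mem_union, mem_compl_iff]
        refine ⟨fun h z hz => ?_, fun h z hz => ?_⟩
        · by_contra h1; push Not at h1; exact hz (h h1)
        · by_contra h1; rcases h z h1 with h2 | h2 <;> linarith [hz.1, hz.2]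
      change IsClosed {p : ℝ × ℝ | Ioo p.1 p.2 ⊆ A}
      rw [this]
      exact isClosed_biInter fun z _ => (isClosed_le continuous_const continuous_fst).union
        (isClosed_le continuous_snd continuous_const)
    · rintro p ⟨h1, h2, h3, -⟩
      exact ⟨⟨h1, h1.trans h3⟩, ⟨h3.trans h2, h2⟩⟩
  have hst' : (s, t) ∈ K := ⟨hs, ht, hst.le, h0⟩
  rcases hy.eq_or_lt with hy0 | hy0
  · subst hy0
    obtain ⟨⟨p, q⟩, ⟨h1, h2, -, h4⟩, hmax⟩ := hK.exists_isMaxOn ⟨_, hst'⟩
      (f := fun p => p.2 - p.1) (by fun_prop)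
    simp only at h1 h2 h4
    have h5 : t - s ≤ q - p := hmax hst'
    rcases le_or_gt (β * q) (1 + 0) with h6 | h6
    · have : β * q - β * p ≤ q - p := hmax (show (β * p, β * q) ∈ K from
        ⟨by positivity, h6, by simp only; nlinarith, H1 p q h1 h6 h4⟩)
      nlinarith
    rcases le_or_gt (1 + 0) (β * p) with h7 | h7
    · have : β * q - 1 - (β * p - 1) ≤ q - p := hmax (show (β * p - 1, β * q - 1) ∈ K from
        ⟨by simp only; linarith, by simp only; nlinarith, by simp only; nlinarith, H2 p q h7 h2 h4⟩)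
      nlinarith
    have h8 := H2 c q hc1.ge h2 ((Ioo_subset_Ioo_left (by nlinarith)).trans h4)
    rw [hc1] at h8
    exact fin (β * q - 1) (by linarith) (by simpa using h8)
  obtain ⟨⟨p₀, q₀⟩, ⟨g1, g2, g3, g4⟩, hmax⟩ := hK.exists_isMaxOn ⟨_, hst'⟩
    (f := fun p => p.2 / p.1) (continuousOn_snd.div continuousOn_fst fun p hp => by
      have := hp.1; linarith)
  simp only at g1 g2 g3 g4
  set ρ := q₀ / p₀ with hρ
  have hm : ∀ u v, y ≤ u → v ≤ 1 + y → u ≤ v → Ioo u v ⊆ A → v ≤ ρ * u := fun u v a b c d => by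
    have : v / u ≤ ρ := hmax (show (u, v) ∈ K from ⟨a, b, c, d⟩)
    rwa [div_le_iff₀ (by linarith)] at this
  have hρ1 : 1 < ρ := by have := hm s t hs ht hst.le h0; nlinarith
  have push : ∀ u, y ≤ u → ρ * u ≤ 1 + y → Ioo u (ρ * u) ⊆ A → ∃ k : ℕ, y ≤ β ^ k * u ∧
      ρ * (β ^ k * u) ≤ 1 + y ∧ Ioo (β ^ k * u) (ρ * (β ^ k * u)) ⊆ A ∧
      β ^ k * u < c ∧ c < ρ * (β ^ k * u) := by
    intro u hu h1 h2
    have hu0 : 0 < u := by linarith
    by_contra hcon
    push Not at hcon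
    have h3 : ∀ k : ℕ, y ≤ β ^ k * u ∧ ρ * (β ^ k * u) ≤ 1 + y ∧
        Ioo (β ^ k * u) (ρ * (β ^ k * u)) ⊆ A := by
      intro k
      induction k with
      | zero => simpa using ⟨hu, h1, h2⟩
      | succ k ih =>
        obtain ⟨a1, a2, a3⟩ := ih
        have a4 := hcon k a1 a2 a3
        rw [pow_succ', mul_assoc]
        generalize β ^ k * u = w at a1 a2 a3 a4
        have a5 : w < c := by
          by_contra a5
          push Not at a5
          have a6 : w < ρ * w := by nlinarith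
          have a7 : 1 + y ≤ β * w := by nlinarith
          have := hm _ _ (by linarith) (by nlinarith) (by nlinarith) (H2 w (ρ * w) a7 a2 a3)
          nlinarith
        have a6 : β * (ρ * w) ≤ 1 + y := by have := a4 a5; nlinarith
        refine ⟨by nlinarith, by linarith, ?_⟩
        rw [show ρ * (β * w) = β * (ρ * w) by ring]
        exact H1 w (ρ * w) a1 a6 a3
    obtain ⟨k, hk⟩ := pow_unbounded_of_one_lt ((1 + y) / u) hβ
    rw [div_lt_iff₀ hu0] at hk
    have := (h3 k).2.1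
    nlinarith
  have hq₀ : q₀ = ρ * p₀ := by rw [hρ]; field_simp [show p₀ ≠ 0 by linarith]
  obtain ⟨k₀, h1, h2, h4, h5, h6⟩ := push p₀ g1 (hq₀ ▸ g2) (hq₀ ▸ g4)
  generalize β ^ k₀ * p₀ = p at h1 h2 h4 h5 h6
  have hp0 : 0 < p := by linarith
  have uq : ∀ u, y ≤ u → ρ * u ≤ 1 + y → Ioo u (ρ * u) ⊆ A → u < c → c < ρ * u → u = p := by
    intro u a1 a2 a3 a4 a5
    have b1 := hm u (ρ * p) a1 h2 (by linarith) (glue hA a3 h4 (by linarith))
    have b2 := hm p (ρ * u) h1 a2 (by linarith) (glue hA h4 a3 (by linarith))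
    nlinarith
  have h7 : Ioo (β * p) (1 + y) ⊆ A := by
    rw [← hc1]; exact H1 p c h1 hc1.le ((Ioo_subset_Ioo_right h6.le).trans h4)
  rcases le_or_gt β ρ with h8 | h8
  · have h9 := H2 c (1 + y) hc1.ge le_rfl
      ((Ioo_subset_Ioo_left h5.le).trans (glue hA h4 h7 (by nlinarith)))
    rw [hc1, add_sub_cancel_left] at h9
    exact fin _ (by linarith) h9
  exfalso
  have h9 : c < β * p := by nlinarith
  have i1 := H2 (β * p) (1 + y) (by nlinarith) le_rfl h7
  have i2 := H2 c (ρ * p) hc1.ge h2 ((Ioo_subset_Ioo_left h5.le).trans h4)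
  rw [hc1, add_sub_cancel_left] at i2
  have j0 : y ≤ β * (β * p) - 1 := by nlinarith
  have j1 := hm _ _ j0 hY (by nlinarith) i1
  have j2 := hm _ _ le_rfl (by nlinarith) (by nlinarith) i2
  have j3 := mul_le_mul_of_nonneg_left j2 hβ0.le
  have j4 : 0 ≤ (ρ - 1) * (β * y - 1) := by linarith
  have e1 : β * y = 1 := by
    by_contra h
    have h' : β * y - 1 < 0 := by
      rcases hy1.eq_or_lt with h' | h'
      · exact absurd h' h
      · linarith
    have := mul_neg_of_pos_of_neg (show 0 < ρ - 1 by linarith) h'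
    linarith
  have j5 : ρ * (β * y) = ρ := by rw [e1, mul_one]
  have e2 : β * (ρ * p) - 1 = ρ * y := mul_left_cancel₀ hβ0.ne' (by linarith)
  have e3 : β * (1 + y) - 1 = ρ * (β * (β * p) - 1) := by linarith
  have j6 := mul_le_mul_of_nonneg_left h2 hβ0.le
  obtain ⟨k, a1, a2, a3, a4, a5⟩ := push y le_rfl (by linarith) (e2 ▸ i2)
  obtain ⟨l, b1, b2, b3, b4, b5⟩ := push _ j0 (e3 ▸ hY) (e3 ▸ i1)
  have f1 := uq _ a1 a2 a3 a4 a5
  have f2 := uq _ b1 b2 b3 b4 b5
  have f3 : β * p = β ^ k := by rw [← f1]; linear_combination β ^ k * e1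
  have f4 : β * (ρ * p) = β ^ (l + 2) := by
    rw [← f2]; linear_combination β ^ (l + 1) * e1 - β ^ (l + 1) * e3
  have f5 : β ^ k < β ^ (l + 2) := by 
    rw [← f3, ← f4]; exact mul_lt_mul_of_pos_left (lt_mul_left hp0 hρ1) hβ0
  have f6 : β ^ (l + 2) < β ^ (k + 1) := by
    rw [← f4, pow_succ, ← f3, mul_assoc, mul_comm p]
    exact mul_lt_mul_of_pos_left (mul_lt_mul_of_pos_right h8 hp0) hβ0
  have := (pow_lt_pow_iff_right₀ hβ).mp f5
  have := (pow_lt_pow_iff_right₀ hβ).mp f6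
  omega

lemma core' {β y : ℝ} {W : Set ℝ} (hβ : 1 < β) (hy : 0 ≤ y) (hy1 : β * y ≤ 1)
    (hY : β * (1 + y) - 1 ≤ 1 + y)
    (H1 : ∀ w ∈ W, y < w → β * w < 1 + y → β * w ∈ W)
    (H2 : ∀ w ∈ W, 1 + y < β * w → w < 1 + y → β * w - 1 ∈ W)
    {s t : ℝ} (hs : y ≤ s) (hst : s < t) (ht : t ≤ 1 + y) (h0 : Ioo s t ⊆ W) :
    Ioo y (1 + y) ⊆ closure W := by
  have hβ0 : 0 < β := by linarith
  have key : ∀ d s t : ℝ, (∀ w ∈ W, s < w → w < t → β * w - d ∈ W) → Ioo s t ⊆ closure W →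
      Ioo (β * s - d) (β * t - d) ⊆ closure W := by
    intro d s t h h1 z hz
    have h2 : (z + d) / β ∈ Ioo s t :=
      ⟨by rw [lt_div_iff₀ hβ0]; linarith [hz.1], by rw [div_lt_iff₀ hβ0]; linarith [hz.2]⟩
    have h3 := isOpen_Ioo.inter_closure ⟨h2, h1 h2⟩
    have h4 := map_mem_closure (f := fun w => β * w - d) (t := W) (by fun_prop) h3
      fun w hw => h w hw.2 hw.1.1 hw.1.2
    rwa [mul_div_cancel₀ _ hβ0.ne', add_sub_cancel_right] at h4
  refine core isClosed_closure hβ hy hy1 hY (fun s t a b c => ?_) (fun s t a b c => ?_) hs hst ht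
    (h0.trans subset_closure)
  · simpa using key 0 s t (fun w hw a' b' => by
      simpa using H1 w hw (by linarith) (by nlinarith)) c
  · exact key 1 s t (fun w hw a' b' => H2 w hw (by nlinarith) (by linarith)) c

lemma open_int {U : Set ℝ} (hU : IsOpen U) (h : (U ∩ Ico 0 1).Nonempty) :
    ∃ s t, 0 ≤ s ∧ s < t ∧ t ≤ 1 ∧ Ioo s t ⊆ U := by
  obtain ⟨x, hx, h0, h1⟩ := h
  obtain ⟨ε, hε, h2⟩ := Metric.isOpen_iff.mp hU x hx
  refine ⟨x, min (x + ε) 1, h0, lt_min (by linarith) h1, min_le_right _ _, fun z hz => h2 ?_⟩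
  rw [Metric.mem_ball, Real.dist_eq, abs_lt]
  constructor <;> linarith [hz.1, hz.2, min_le_left (x + ε) 1]

theorem main : ∀ α β : ℝ, 1 < β → β ≤ 2 → 0 ≤ α → α + β ≤ 2 →
    (α ≤ 1 - 1 / β ∨ 1 + 1 / β - β ≤ α) → Trans α β := by
  intro α β hβ _ hα hαβ hC U V hU hV hU' hV'
  have hβ0 : 0 < β := by linarith
  have hβ1 : 0 < β - 1 := by linarith
  have hi : β * (1 / β) = 1 := by field_simp
  obtain ⟨s, t, hs, hst, ht, hsU⟩ := open_int hU hU'
  obtain ⟨s', t', hs', hst', ht', hsV⟩ := open_int hV hV'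
  set W : Set ℝ := ⋃ n : ℕ, (T α β)^[n] '' (U ∩ Ico 0 1) with hW
  have hW0 : Ioo s t ⊆ W := fun z hz => mem_iUnion.mpr
    ⟨0, z, ⟨hsU hz, by linarith [hz.1], by linarith [hz.2]⟩, rfl⟩
  have hWT : ∀ w ∈ W, T α β w ∈ W := by
    intro w hw
    obtain ⟨n, x, hx, rfl⟩ := mem_iUnion.mp hw
    exact mem_iUnion.mpr ⟨n + 1, x, hx, Function.iterate_succ_apply' _ _ _⟩
  have hA : ∀ w ∈ W, 0 ≤ β * w + α → β * w + α < 1 → β * w + α ∈ W := fun w hw a b => by
    have := hWT w hw
    rwa [T, Int.fract_eq_self.mpr ⟨a, b⟩] at this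
  have hB : ∀ w ∈ W, 1 ≤ β * w + α → β * w + α < 2 → β * w + α - 1 ∈ W := fun w hw a b => by
    have := hWT w hw
    rwa [T, ← Int.fract_sub_one, Int.fract_eq_self.mpr ⟨by linarith, by linarith⟩] at this
  have hd : Ioo 0 1 ⊆ closure W := by
    rcases hC with hC | hC
    · set y := α / (β - 1) with hy
      have e : y * (β - 1) = α := by rw [hy]; field_simp
      have h0 : 0 ≤ y := by positivity
      have h1 := core' (W := {w | w - y ∈ W}) hβ h0 (by nlinarith) (by nlinarith)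
        (fun w hw a b => by
          have := hA _ hw (by nlinarith) (by nlinarith)
          rwa [show β * (w - y) + α = β * w - y by linarith] at this)
        (fun w hw a b => by
          have := hB _ hw (by nlinarith) (by nlinarith)
          rwa [show β * (w - y) + α - 1 = β * w - 1 - y by linarith] at this)
        (s := s + y) (t := t + y) (by linarith) (by linarith) (by linarith)
        (fun z hz => hW0 ⟨by linarith [hz.1], by linarith [hz.2]⟩)
      intro z hz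
      have h2 := map_mem_closure (f := fun w => w - y) (t := W) (by fun_prop)
        (h1 (show z + y ∈ Ioo y (1 + y) from ⟨by linarith [hz.1], by linarith [hz.2]⟩))
        fun w hw => hw
      simpa using h2
    · set y := (2 - β - α) / (β - 1) with hy
      have e : y * (β - 1) = 2 - β - α := by rw [hy]; field_simp
      have h0 : 0 ≤ y := div_nonneg (by linarith) hβ1.le
      have h1 := core' (W := {w | 1 + y - w ∈ W}) hβ h0 (by nlinarith) (by nlinarith)
        (fun w hw a b => by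
          have := hB _ hw (by nlinarith) (by nlinarith)
          rwa [show β * (1 + y - w) + α - 1 = 1 + y - β * w by linarith] at this)
        (fun w hw a b => by
          have := hA _ hw (by nlinarith) (by nlinarith)
          rwa [show β * (1 + y - w) + α = 1 + y - (β * w - 1) by linarith] at this)
        (s := 1 + y - t) (t := 1 + y - s) (by linarith) (by linarith) (by linarith)
        (fun z hz => hW0 ⟨by linarith [hz.2], by linarith [hz.1]⟩)
      intro z hz
      have h2 := map_mem_closure (f := fun w => 1 + y - w) (t := W) (by fun_prop)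
        (h1 (show 1 + y - z ∈ Ioo y (1 + y) from ⟨by linarith [hz.2], by linarith [hz.1]⟩))
        fun w hw => hw
      simpa using h2
  obtain ⟨w, hw1, hw2⟩ := mem_closure_iff.mp
    (hd (show (s' + t') / 2 ∈ Ioo 0 1 from ⟨by linarith, by linarith⟩)) (Ioo s' t') isOpen_Ioo
    ⟨by linarith, by linarith⟩
  obtain ⟨n, hn⟩ := mem_iUnion.mp hw2
  exact ⟨n, w, hn, hsV hw1, by linarith [hw1.1], by linarith [hw1.2]⟩

end H91.BetaTr
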