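import Mathlib

set_option autoImplicit false

open Filter Topology Finset MeasureTheory AddCircle
open scoped InnerProductSpace ComplexConjugate

namespace H91.BiPois

/-- Poisson kernel at `z` and the boundary point `e^{2πix}`. -/
noncomputable def P (z : ℂ) (x : UnitAddCircle) : ℝ := (1 - ‖z‖ ^ 2) / ‖fourier 1 x - z‖ ^ 2

/-- biharmonic Poisson kernel `P log P`. -/
noncomputable def P1 (z : ℂ) (x : UnitAddCircle) : ℂ := (P z x * Real.log (P z x) : ℝ)

/-- coefficients `ν n = ν(e^{-inφ})` of an analytic functional: `limsup |ν n|^{1/|n|} ≤ 1`. -/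
def IsAF (ν : ℤ → ℂ) : Prop := ∀ ρ > (1 : ℝ), ∃ C : ℝ, ∀ n : ℤ, ‖ν n‖ ≤ C * ρ ^ n.natAbs

/-- the value `ν(g)` on `g = ∑ ĝ(n) e^{inφ}`. -/
noncomputable def act (ν : ℤ → ℂ) (g : UnitAddCircle → ℂ) : ℂ := ∑' n, fourierCoeff g n * ν (-n)

lemma weak (G : ℕ → C(UnitAddCircle, ℂ)) {M : ℝ} (hG : ∀ k x, ‖G k x‖ ≤ M) (ν : ℤ → ℂ)
    (h : ∀ m, Tendsto (fun k => fourierCoeff (G k) m) atTop (𝓝 (ν m))) :
    ∃ φ : Lp ℂ 2 (@haarAddCircle 1 _), (∀ᵐ x ∂haarAddCircle, ‖φ x‖ ≤ M) ∧
      ∀ m, fourierCoeff φ m = ν m := by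
  have hM : 0 ≤ M := (norm_nonneg _).trans (hG 0 0)
  let g : ℕ → Lp ℂ 2 (@haarAddCircle 1 _) := fun k => ContinuousMap.toLp 2 haarAddCircle ℂ (G k)
  have ge : ∀ k, g k =ᵐ[haarAddCircle] G k := fun k => ContinuousMap.coeFn_toLp _ _
  have gn : ∀ k, ‖g k‖ ≤ M := fun k => by
    simpa [measureUnivNNReal] using Lp.norm_le_of_ae_bound (f := g k) hM ((ge k).mono fun x hx => hx ▸ hG k x)
  have h' : ∀ m, Tendsto (fun k => ⟪fourierBasis m, g k⟫_ℂ) atTop (𝓝 (ν m)) := fun m => by
    simpa only [← HilbertBasis.repr_apply_apply, fourierBasis_repr, g, fourierCoeff_toLp] using h m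
  have l2 : Memℓp ν 2 := memℓp_gen' (C := M ^ 2) fun s => by
    simp only [ENNReal.toReal_ofNat, Real.rpow_ofNat]
    refine le_of_tendsto' (tendsto_finset_sum s fun m _ => (h' m).norm.pow 2) fun k => ?_
    exact (fourierBasis.orthonormal.sum_inner_products_le _).trans
      (pow_le_pow_left₀ (norm_nonneg _) (gn k) 2)
  set φ := (@fourierBasis 1 _).repr.symm ⟨ν, l2⟩ with hφ
  have e : ∀ m, fourierBasis.repr φ m = ν m := fun m => by rw [hφ, LinearIsometryEquiv.apply_symm_apply]
  refine ⟨φ, ?_, fun m => by rw [← fourierBasis_repr, e]⟩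
  have W : ∀ u, Tendsto (fun k => ⟪u, g k⟫_ℂ) atTop (𝓝 ⟪u, φ⟫_ℂ) := fun u => by
    have cl := (LipschitzWith.uniformEquicontinuous (fun k u => ⟪u, g k⟫_ℂ) ⟨M, hM⟩ fun k =>
      LipschitzWith.of_dist_le_mul fun a b => by
        rw [dist_eq_norm, dist_eq_norm, ← inner_sub_left, mul_comm]
        exact (norm_inner_le_norm _ _).trans (mul_le_mul_of_nonneg_left (gn k) (norm_nonneg _))
      ).equicontinuous.isClosed_setOf_tendsto (l := atTop) (f := fun u => ⟪u, φ⟫_ℂ) (by fun_prop)
    have hu : u ∈ closure (Submodule.span ℂ (Set.range (@fourierBasis 1 _)) : Set _) := by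
      rw [← Submodule.topologicalClosure_coe, fourierBasis.dense_span]; trivial
    refine closure_minimal (fun v hv => ?_) cl hu
    induction hv using Submodule.span_induction with
    | mem v hv =>
      obtain ⟨m, rfl⟩ := hv
      simpa only [Set.mem_setOf_eq, ← e, HilbertBasis.repr_apply_apply] using h' m
    | zero => simp
    | add a b _ _ ha hb => simpa only [Set.mem_setOf_eq, inner_add_left] using ha.add hb
    | smul c a _ ha => simpa only [Set.mem_setOf_eq, inner_smul_left] using ha.const_mul _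
  set E := {x | M < ‖φ x‖} with hE
  have Em : MeasurableSet E := measurableSet_lt measurable_const (Lp.stronglyMeasurable φ).norm.measurable
  have um := (Lp.memLp φ).indicator Em
  have i1 : Integrable (fun x => ‖φ x‖) haarAddCircle := ((Lp.memLp φ).integrable one_le_two).norm
  have i2 : Integrable (fun x => ‖φ x‖ ^ 2) haarAddCircle := (Lp.memLp φ).norm.integrable_sq
  have ii : ∀ v : Lp ℂ 2 (@haarAddCircle 1 _), ⟪um.toLp _, v⟫_ℂ =
      ∫ x in E, ⟪φ x, v x⟫_ℂ ∂haarAddCircle := fun v => by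
    rw [L2.inner_def, ← integral_indicator Em]
    refine integral_congr_ae (um.coeFn_toLp.mono fun x hx => ?_)
    simp only [hx, Set.indicator]
    split_ifs <;> simp
  have b := le_of_tendsto' (W (um.toLp _)).norm (b := ∫ x in E, M * ‖φ x‖ ∂haarAddCircle) fun k => by
    rw [ii]
    refine norm_integral_le_of_norm_le (i1.const_mul M).integrableOn
      (ae_restrict_of_ae ((ge k).mono fun x hx => ?_))
    rw [hx, mul_comm]
    exact (norm_inner_le_norm _ _).trans (mul_le_mul_of_nonneg_left (hG k x) (norm_nonneg _))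
  rw [ii] at b
  simp only [inner_self_eq_norm_sq_to_K, Complex.coe_algebraMap, ← Complex.ofReal_pow,
    integral_complex_ofReal, Complex.norm_real] at b
  have b2 : ¬ 0 < ∫ x in E, (‖φ x‖ ^ 2 - M * ‖φ x‖) ∂haarAddCircle := by
    rw [integral_sub i2.integrableOn (i1.const_mul M).integrableOn]
    linarith [le_abs_self (∫ x in E, ‖φ x‖ ^ 2 ∂haarAddCircle), Real.norm_eq_abs
      (∫ x in E, ‖φ x‖ ^ 2 ∂haarAddCircle)]
  have pos : ∀ x ∈ E, 0 < ‖φ x‖ ^ 2 - M * ‖φ x‖ := fun x hx => by
    have : M < ‖φ x‖ := hx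
    nlinarith
  rw [setIntegral_pos_iff_support_of_nonneg_ae ((ae_restrict_iff' Em).mpr
    (Eventually.of_forall fun x hx => (pos x hx).le)) (i2.sub (i1.const_mul M)).integrableOn,
    Set.inter_eq_right.mpr fun x hx => Function.mem_support.mpr (pos x hx).ne', not_lt, nonpos_iff_eq_zero] at b2
  simpa [ae_iff] using b2

lemma coef {s : ℤ → ℂ} (hs : Summable fun k => ‖s k‖) {g : UnitAddCircle → ℂ}
    (hg : ∀ y, HasSum (fun k => s k * fourier k y) (g y)) (h : C(UnitAddCircle, ℂ)) :
    HasSum (fun k => s k * fourierCoeff h (-k)) (∫ y, g y * h y ∂haarAddCircle) := by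
  have I : ∀ k, Integrable (fun y => s k * fourier k y * h y) (@haarAddCircle 1 _) := fun k =>
    Continuous.integrable_of_hasCompactSupport (by fun_prop) (HasCompactSupport.of_compactSpace _)
  have := hasSum_integral_of_summable_integral_norm I (Summable.of_nonneg_of_le
    (fun k => integral_nonneg fun _ => norm_nonneg _) (fun k => ?_) (hs.mul_right ‖h‖))
  · rw [integral_congr_ae (Eventually.of_forall fun y => ((hg y).mul_right (h y)).tsum_eq)] at this
    simpa only [fourierCoeff, neg_neg, smul_eq_mul, mul_assoc, integral_const_mul] using this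
  · refine (integral_mono_of_nonneg (Eventually.of_forall fun _ => norm_nonneg _)
      (integrable_const (‖s k‖ * ‖h‖)) (Eventually.of_forall fun y => ?_)).trans_eq (by simp)
    simp only [norm_mul, fourier_apply, Circle.norm_coe, mul_one]
    exact mul_le_mul_of_nonneg_left (h.norm_coe_le_norm y) (norm_nonneg _)

lemma coef' {s : ℤ → ℂ} (hs : Summable fun k => ‖s k‖) {g : UnitAddCircle → ℂ}
    (hg : ∀ y, HasSum (fun k => s k * fourier k y) (g y)) (m : ℤ) : fourierCoeff g m = s m := by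
  have := coef hs hg (fourier (-m))
  simp only [fourierCoeff_fourier] at this
  rw [fourierCoeff]
  simp only [smul_eq_mul, mul_comm (fourier (-m) _)]
  refine this.unique ?_
  simpa using hasSum_single (f := fun k => s k * (Pi.single (-m) 1 : ℤ → ℂ) (-k)) m
    fun k hk => by simp [hk]

lemma sym {a : ℕ → ℝ} (y : UnitAddCircle) {r : ℝ} {S : ℂ}
    (h : HasSum (fun n : ℕ => (a n : ℂ) * (r * fourier 1 y) ^ n) S) :
    HasSum (fun k : ℤ => ((a k.natAbs * r ^ k.natAbs : ℝ) : ℂ) * fourier k y)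
      ((2 * S.re - a 0 : ℝ) : ℂ) := by
  have e : ∀ n : ℕ, (fourier 1 y : ℂ) ^ n = fourier n y := fun n => by
    induction n with
    | zero => simp only [pow_zero, Nat.cast_zero, fourier_zero]
    | succ n ih => rw [pow_succ, ih, ← fourier_add]; rfl
  have h1 : HasSum (fun n : ℕ => ((a n * r ^ n : ℝ) : ℂ) * fourier n y) S := by
    convert! h using 2 with n
    rw [mul_pow, e]; push_cast; ring
  have h2 := (Complex.hasSum_conj'.mpr h1)
  have := HasSum.of_nat_of_neg (f := fun k : ℤ => ((a k.natAbs * r ^ k.natAbs : ℝ) : ℂ) * fourier k y)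
    (g := S) (g' := conj S) (by simpa only [Int.natAbs_natCast] using h1)
    (by simpa only [Int.natAbs_neg, Int.natAbs_natCast, fourier_neg, map_mul, Complex.conj_ofReal] using h2)
  convert! this using 1
  rw [Complex.add_conj]
  simp only [fourier_zero]
  simp

section
variable {r : ℝ} (h0 : 0 ≤ r) (h1 : r < 1)
include h0 h1

lemma geo : Summable fun k : ℤ => r ^ k.natAbs :=
  Summable.of_nat_of_neg (by simpa using summable_geometric_of_lt_one h0 h1)
    (by simpa using summable_geometric_of_lt_one h0 h1)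

lemma ker (y : UnitAddCircle) : 0 < ‖fourier 1 y - (r : ℂ)‖ ^ 2 ∧
    HasSum (fun k : ℤ => ((r ^ k.natAbs : ℝ) : ℂ) * fourier k y) (P r y) ∧
    HasSum (fun k : ℤ => (((k.natAbs : ℝ)⁻¹ * r ^ k.natAbs : ℝ) : ℂ) * fourier k y)
      ((Real.log (P r y) - Real.log (1 - r ^ 2) : ℝ) : ℂ) := by
  have n1 : ‖fourier 1 y‖ = 1 := Circle.norm_coe _
  have hw : ‖(r : ℂ) * fourier 1 y‖ < 1 := by rwa [norm_mul, n1, mul_one, Complex.norm_of_nonneg h0]
  have n2 : (fourier 1 y).re ^ 2 + (fourier 1 y).im ^ 2 = 1 := by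
    have := Complex.sq_norm (fourier 1 y)
    rw [n1, Complex.normSq_apply] at this; linarith
  have e : ‖fourier 1 y - (r : ℂ)‖ ^ 2 = ‖1 - r * fourier 1 y‖ ^ 2 := by
    simp only [Complex.sq_norm, Complex.normSq_apply, Complex.sub_re, Complex.sub_im,
      Complex.ofReal_re, Complex.ofReal_im, Complex.mul_re, Complex.mul_im, Complex.one_re,
      Complex.one_im]
    linear_combination (1 - r ^ 2) * n2
  have p : 0 < ‖1 - (r : ℂ) * fourier 1 y‖ := norm_pos_iff.mpr (sub_ne_zero.mpr fun h => by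
    rw [← h] at hw; simp at hw)
  have q : 0 < 1 - r ^ 2 := by nlinarith
  have hP : P r y = (1 - r ^ 2) / ‖1 - (r : ℂ) * fourier 1 y‖ ^ 2 := by
    rw [P, e, Complex.norm_of_nonneg h0]
  refine ⟨e ▸ pow_pos p 2, ?_, ?_⟩
  · have := sym (a := fun _ => 1) y (r := r) (S := (1 - r * fourier 1 y)⁻¹) (by
      simpa only [Complex.ofReal_one, one_mul] using hasSum_geometric_of_norm_lt_one hw)
    simp only [one_mul] at this
    convert! this using 2
    rw [hP, Complex.inv_re, ← Complex.sq_norm]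
    field_simp
    simp only [Complex.sq_norm, Complex.normSq_apply, Complex.sub_re, Complex.sub_im,
      Complex.ofReal_re, Complex.ofReal_im, Complex.mul_re, Complex.mul_im, Complex.one_re,
      Complex.one_im]
    linear_combination r ^ 2 * n2
  · have := sym (a := fun n => (n : ℝ)⁻¹) y (S := -Complex.log (1 - r * fourier 1 y)) (by
      simpa only [Complex.ofReal_inv, Complex.ofReal_natCast, div_eq_inv_mul] using
        Complex.hasSum_taylorSeries_neg_log hw)
    convert! this using 2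
    rw [hP, Real.log_div q.ne' (by positivity), Real.log_pow, Complex.neg_re, Complex.log_re]
    simp

lemma sm (n : ℤ) : Summable fun k : ℤ => (k.natAbs : ℝ)⁻¹ * r ^ k.natAbs * r ^ (n - k).natAbs :=
  Summable.of_nonneg_of_le (fun _ => by positivity) (fun k => (mul_le_of_le_one_right (by positivity)
    (pow_le_one₀ h0 h1.le)).trans (mul_le_of_le_one_left (by positivity) (Nat.cast_inv_le_one _)))
    (geo h0 h1)

lemma cf (n : ℤ) : fourierCoeff (P1 r) n =
    ((∑' k : ℤ, (k.natAbs : ℝ)⁻¹ * r ^ k.natAbs * r ^ (n - k).natAbs +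
      Real.log (1 - r ^ 2) * r ^ n.natAbs : ℝ) : ℂ) := by
  have cP : Continuous (P r) := continuous_const.div (by fun_prop) fun y => (ker h0 h1 y).1.ne'
  have pP : ∀ y, P r y ≠ 0 := fun y => div_ne_zero (by rw [Complex.norm_of_nonneg h0]; nlinarith)
    (ker h0 h1 y).1.ne'
  have cL : Continuous fun y => Real.log (P r y) := cP.log pP
  have c1 := coef' (s := fun k => ((r ^ k.natAbs : ℝ) : ℂ)) (by simpa [abs_of_nonneg h0] using geo h0 h1)
    fun y => (ker h0 h1 y).2.1
  have c2 := coef (s := fun k => (((k.natAbs : ℝ)⁻¹ * r ^ k.natAbs : ℝ) : ℂ))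
    (Summable.of_nonneg_of_le (fun _ => norm_nonneg _) (fun k => by
      rw [Complex.norm_of_nonneg (by positivity)]
      exact mul_le_of_le_one_left (by positivity) (Nat.cast_inv_le_one _)) (geo h0 h1))
    (fun y => (ker h0 h1 y).2.2) ⟨fun y => fourier (-n) y * P r y, by fun_prop⟩
  have c3 : ∀ k, fourierCoeff (fun y => fourier (-n) y * (P r y : ℂ)) (-k) =
      ((r ^ (n - k).natAbs : ℝ) : ℂ) := fun k => by
    rw [← c1, fourierCoeff, fourierCoeff]
    simp only [smul_eq_mul, ← mul_assoc, ← fourier_add]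
    congr 4; ring
  simp only [ContinuousMap.coe_mk, c3, ← Complex.ofReal_mul] at c2
  have c4 := c2.unique (Complex.hasSum_ofReal.mpr (sm h0 h1 n).hasSum)
  rw [Complex.ofReal_add, ← c4, Complex.ofReal_mul, ← c1, fourierCoeff, fourierCoeff,
    ← integral_const_mul, ← integral_add]
  · congr 1; ext y; simp only [P1, smul_eq_mul]; push_cast; ring
  all_goals exact Continuous.integrable_of_hasCompactSupport (by fun_prop) (HasCompactSupport.of_compactSpace _)

lemma bd (n : ℤ) : ∃ θ : ℝ, 0 ≤ θ ∧ θ ≤ n.natAbs ∧ fourierCoeff (P1 r) n =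
    (((-Real.log (1 - r ^ 2) + θ) * r ^ n.natAbs : ℝ) : ℂ) := by
  have q0 : 0 ≤ r ^ 2 := by positivity
  have q1 : r ^ 2 < 1 := by nlinarith
  have l : HasSum (fun k : ℕ => (k : ℝ)⁻¹ * r ^ k * r ^ k) (-Real.log (1 - r ^ 2)) := by
    rw [← hasSum_nat_add_iff' 1]
    have := Real.hasSum_pow_div_log_of_abs_lt_one (x := r ^ 2) (by rwa [abs_of_nonneg q0])
    convert! this using 1
    · ext k; push_cast; ring
    · simp
  have e0 : HasSum (fun k : ℤ => (k.natAbs : ℝ)⁻¹ * r ^ k.natAbs * r ^ k.natAbs)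
      (-2 * Real.log (1 - r ^ 2)) := by
    convert! HasSum.of_nat_of_neg (f := fun k : ℤ => (k.natAbs : ℝ)⁻¹ * r ^ k.natAbs * r ^ k.natAbs)
      (by simpa using l) (by simpa using l) using 1
    simp; ring
  have u : ∀ N : ℕ, HasSum (fun k : ℤ => r ^ k.natAbs * (r ^ ((N : ℤ) - k).natAbs -
      r ^ N * r ^ k.natAbs)) (N * r ^ N) := fun N => by
    have g := hasSum_geometric_of_lt_one q0 q1
    have g2 : HasSum (fun k : ℕ => (r ^ 2) ^ (k - N)) ((1 - r ^ 2)⁻¹ + N) := by
      rw [← hasSum_nat_add_iff' N, sum_congr rfl fun i hi => by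
        rw [Nat.sub_eq_zero_of_le (mem_range.mp hi).le, pow_zero]]
      simpa using g
    convert! HasSum.of_nat_of_neg_add_one (f := fun k : ℤ => r ^ k.natAbs *
      (r ^ ((N : ℤ) - k).natAbs - r ^ N * r ^ k.natAbs)) (m' := 0)
      (m := r ^ N * ((1 - r ^ 2)⁻¹ + N - (1 - r ^ 2)⁻¹)) ?_ ?_ using 1
    · ring
    · convert! (g2.sub g).mul_left (r ^ N) using 2 with k
      simp only [mul_sub, ← pow_mul, ← pow_add]
      congr 2 <;> omega
    · convert! hasSum_zero using 2 with k
      rw [← pow_add, show ((N : ℤ) - -((k : ℤ) + 1)).natAbs = N + (-((k : ℤ) + 1)).natAbs by omega,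
        sub_self, mul_zero]
  have u' : HasSum (fun k : ℤ => r ^ k.natAbs * (r ^ (n - k).natAbs -
      r ^ n.natAbs * r ^ k.natAbs)) (n.natAbs * r ^ n.natAbs) := by
    obtain ⟨N, rfl | rfl⟩ := n.eq_nat_or_neg
    · simpa using u N
    · rw [← (Equiv.neg ℤ).hasSum_iff]
      convert! u N using 2 with k
      · simp only [Function.comp, Equiv.neg_apply, Int.natAbs_neg, Int.natAbs_natCast]
        rw [show (-(N : ℤ) - -k).natAbs = ((N : ℤ) - k).natAbs by omega]
      · simp
      · simp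
  have d := (sm h0 h1 n).hasSum.sub (e0.mul_left (r ^ n.natAbs))
  have nn : ∀ k : ℤ, 0 ≤ r ^ k.natAbs * (r ^ (n - k).natAbs - r ^ n.natAbs * r ^ k.natAbs) :=
    fun k => mul_nonneg (by positivity) (sub_nonneg.mpr (by
      rw [← pow_add]; exact pow_le_pow_of_le_one h0 h1.le (by omega)))
  have d1 := hasSum_le (fun k => by
    have := mul_nonneg (by positivity : (0 : ℝ) ≤ (k.natAbs : ℝ)⁻¹) (nn k); linarith) hasSum_zero d
  have d2 := hasSum_le (fun k => by
    have := mul_le_of_le_one_left (nn k) (Nat.cast_inv_le_one k.natAbs); linarith) d u'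
  rw [cf h0 h1]
  set X := ∑' k : ℤ, (k.natAbs : ℝ)⁻¹ * r ^ k.natAbs * r ^ (n - k).natAbs
  rcases (pow_nonneg h0 n.natAbs).eq_or_lt with z | z
  · refine ⟨0, le_rfl, Nat.cast_nonneg _, ?_⟩
    rw [← z] at d1 d2 ⊢
    congr 1; linarith
  · refine ⟨X / r ^ n.natAbs + 2 * Real.log (1 - r ^ 2), ?_, ?_, ?_⟩
    · have : -2 * Real.log (1 - r ^ 2) ≤ X / r ^ n.natAbs := (le_div_iff₀ z).mpr (by linarith)
      linarith
    · have : X / r ^ n.natAbs ≤ n.natAbs - 2 * Real.log (1 - r ^ 2) := (div_le_iff₀ z).mpr (by linarith)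
      linarith
    · congr 1; field_simp; ring

end

lemma rot (r : ℝ) (a : UnitAddCircle) (n : ℤ) : fourierCoeff (P1 (r * fourier 1 a)) n =
    fourierCoeff (P1 r) n * fourier (-n) a := by
  have f : ∀ (m : ℤ) (y : UnitAddCircle), fourier m (y + a) = fourier m y * fourier m a := fun m y => by
    simp only [fourier_apply, smul_add, toCircle_add, Circle.coe_mul]
  have n1 : ‖fourier 1 a‖ = 1 := Circle.norm_coe _
  rw [fourierCoeff, fourierCoeff, ← integral_add_right_eq_self _ a, ← integral_mul_const]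
  congr 1; ext y
  have : P (r * fourier 1 a) (y + a) = P r y := by
    rw [P, P, f, ← sub_mul, norm_mul, norm_mul, n1, mul_one, mul_one]
  simp only [P1, this, f, smul_eq_mul]; ring

theorem main : ∀ ν : ℤ → ℂ, IsAF ν →
    (∃ C : ℝ, ∀ z : ℂ, ‖z‖ < 1 →
      ‖act ν (P1 z)‖ ≤ C * (1 + Real.log ((1 + ‖z‖) / (1 - ‖z‖)))) →
    ∃ φ : UnitAddCircle → ℂ, MemLp φ ⊤ haarAddCircle ∧ ∀ g : C(UnitAddCircle, ℂ),
      Summable (fun n => fourierCoeff g n * ν (-n)) ∧
        act ν g = ∫ x, g x * φ x ∂haarAddCircle := by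
  rintro ν hν ⟨C, hC⟩
  let r : ℕ → ℝ := fun k => 1 - Real.exp (-(k + 2))
  have h0 : ∀ k, 0 < r k := fun k => sub_pos.mpr (Real.exp_lt_one_iff.mpr (by linarith [k.cast_nonneg (α := ℝ)]))
  have h1 : ∀ k, r k < 1 := fun k => sub_lt_self _ (Real.exp_pos _)
  let l : ℕ → ℝ := fun k => -Real.log (1 - r k ^ 2)
  have hl : ∀ k, l k = k + 2 - Real.log (1 + r k) := fun k => by
    have : 1 - r k ^ 2 = Real.exp (-(k + 2)) * (1 + r k) := by simp only [r]; ring
    simp only [l]
    rw [this, Real.log_mul (Real.exp_pos _).ne' (by linarith [h0 k]), Real.log_exp]; ring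
  have lg : ∀ k, 0 ≤ Real.log (1 + r k) ∧ Real.log (1 + r k) ≤ 1 := fun k =>
    ⟨Real.log_nonneg (by linarith [h0 k]), by
      linarith [Real.log_le_sub_one_of_pos (show 0 < 1 + r k by linarith [h0 k]), h1 k]⟩
  have l1 : ∀ k : ℕ, (k : ℝ) + 1 ≤ l k := fun k => by linarith [hl k, (lg k).2]
  have l0 : ∀ k, 0 < l k := fun k => lt_of_lt_of_le (by positivity) (l1 k)
  choose θ t0 t1 t2 using fun k => bd (h0 k).le (h1 k)
  let s : ℕ → ℤ → ℂ := fun k m => ((l k)⁻¹ : ℝ) * (fourierCoeff (P1 (r k)) (-m) * ν m)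
  have ss : ∀ k, Summable fun m => ‖s k m‖ := fun k => by
    obtain ⟨ρ, a, b⟩ := exists_between ((one_lt_inv₀ (h0 k)).mpr (h1 k))
    obtain ⟨B, hB⟩ := hν ρ a
    have b1 : r k * ρ < 1 := by rwa [← lt_inv_mul_iff₀ (h0 k), mul_one]
    have b0 : 0 ≤ r k * ρ := mul_nonneg (h0 k).le (by linarith)
    have S : Summable fun n : ℕ => (l k + n) * (r k * ρ) ^ n := by
      simp only [add_mul]
      refine ((summable_geometric_of_lt_one b0 b1).mul_left _).add ?_
      simpa using summable_pow_mul_geometric_of_norm_lt_one 1 (r := r k * ρ)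
        (by rwa [Real.norm_of_nonneg b0])
    refine Summable.of_nonneg_of_le (fun _ => norm_nonneg _) (fun m => ?_)
      ((Summable.of_nat_of_neg (f := fun m : ℤ => (l k + m.natAbs) * (r k * ρ) ^ m.natAbs)
        (by simpa using S) (by simpa using S)).mul_left ((l k)⁻¹ * B))
    have p1 := h0 k
    have p2 := l0 k
    have p3 := t0 k (-m)
    have p4 := t1 k (-m)
    simp only [s, t2, norm_mul, Complex.norm_real, Int.natAbs_neg] at p4 ⊢
    rw [Real.norm_of_nonneg (by positivity), Real.norm_of_nonneg (add_nonneg p2.le p3),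
      Real.norm_of_nonneg (by positivity), mul_assoc (l k)⁻¹]
    refine mul_le_mul_of_nonneg_left ?_ (by positivity)
    refine (mul_le_mul (mul_le_mul_of_nonneg_right (add_le_add le_rfl p4) (by positivity)) (hB m)
      (norm_nonneg _) (mul_nonneg (add_nonneg p2.le (Nat.cast_nonneg _)) (by positivity))).trans_eq ?_
    rw [mul_pow]; ring
  have nf : ∀ k m (a : UnitAddCircle), ‖s k m * fourier m a‖ ≤ ‖s k m‖ := fun k m a => by
    simp only [norm_mul, fourier_apply, Circle.norm_coe, mul_one, le_refl]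
  obtain ⟨φ, b, e⟩ := weak (fun k => ⟨fun a => ∑' m, s k m * fourier m a,
    continuous_tsum (fun m => by fun_prop) (ss k) (nf k)⟩) (M := |C| * 4) (fun k a => by
      have n1 : ‖(r k : ℂ) * fourier 1 a‖ = r k := by
        rw [norm_mul, show ‖fourier 1 a‖ = 1 from Circle.norm_coe _, mul_one,
          Complex.norm_of_nonneg (h0 k).le]
      have := hC (r k * fourier 1 a) (n1.trans_lt (h1 k))
      rw [n1, act, ← (Equiv.neg ℤ).tsum_eq, Real.log_div (by linarith [h0 k]) (by linarith [h1 k]),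
        show 1 - r k = Real.exp (-(k + 2)) by simp [r], Real.log_exp] at this
      simp only [rot, Equiv.neg_apply, neg_neg, mul_right_comm _ (fourier _ a)] at this
      simp only [ContinuousMap.coe_mk, s, mul_assoc _ (_ * ν _), tsum_mul_left, norm_mul]
      rw [Complex.norm_of_nonneg (inv_pos.mpr (l0 k)).le, inv_mul_le_iff₀ (l0 k)]
      refine this.trans ((mul_le_mul_of_nonneg_right (le_abs_self C) (by
        linarith [(lg k).1, k.cast_nonneg (α := ℝ)])).trans ?_)
      nlinarith [abs_nonneg C, mul_le_mul_of_nonneg_left (show 1 + (Real.log (1 + r k) - -(k + 2))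
        ≤ 4 * l k by linarith [(lg k).2, l1 k, k.cast_nonneg (α := ℝ)]) (abs_nonneg C)]) ν
    fun m => by
      have c : ∀ k, fourierCoeff (fun a => ∑' m, s k m * fourier m a) m =
          (((1 + θ k (-m) / l k) * r k ^ m.natAbs : ℝ) : ℂ) * ν m := fun k => by
        rw [coef' (ss k) fun y => ((ss k).of_norm_bounded fun m => nf k m y).hasSum]
        simp only [s, t2, Int.natAbs_neg, ← mul_assoc, ← Complex.ofReal_mul]
        congr 2
        have := (l0 k).ne'
        show (l k)⁻¹ * (l k + _) * _ = _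
        field_simp
      simp only [ContinuousMap.coe_mk, c]
      have T1 : Tendsto r atTop (𝓝 1) := by
        have := (Real.tendsto_exp_neg_atTop_nhds_zero.comp (tendsto_atTop_add_const_right _ 2
          tendsto_natCast_atTop_atTop)).const_sub 1
        rwa [sub_zero] at this
      have T2 : Tendsto (fun k => θ k (-m) / l k) atTop (𝓝 0) :=
        squeeze_zero (fun k => div_nonneg (t0 _ _) (l0 k).le)
          (fun k => div_le_div_of_nonneg_right (t1 _ _) (l0 k).le)
          (tendsto_const_nhds.div_atTop (tendsto_atTop_mono (fun k => by linarith [l1 k])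
            tendsto_natCast_atTop_atTop))
      simpa using ((T2.const_add 1).mul (T1.pow m.natAbs)).ofReal.mul_const (ν m)
  refine ⟨φ, memLp_top_of_bound (Lp.aestronglyMeasurable φ) _ b, fun g => ?_⟩
  have H := fourierBasis.hasSum_inner_mul_inner
    (ContinuousMap.toLp 2 haarAddCircle ℂ (star g)) φ
  have e1 : ∀ v : Lp ℂ 2 (@haarAddCircle 1 _), ⟪ContinuousMap.toLp 2 haarAddCircle ℂ (star g), v⟫_ℂ =
      ∫ x, g x * v x ∂haarAddCircle := fun v => by
    rw [L2.inner_def]
    refine integral_congr_ae ((ContinuousMap.coeFn_toLp (p := 2) (𝕜 := ℂ) haarAddCircle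
      (star g)).mono fun x hx => ?_)
    simp only [hx]
    simp [mul_comm]
  have e2 : ∀ m, ∫ x, g x * (@fourierBasis 1 _ m) x ∂haarAddCircle = fourierCoeff g (-m) := fun m => by
    rw [fourierCoeff, neg_neg, coe_fourierBasis]
    exact integral_congr_ae ((coeFn_fourierLp 2 m).mono fun x hx => by simp only [hx, smul_eq_mul, mul_comm])
  simp only [e1, e2, ← HilbertBasis.repr_apply_apply, fourierBasis_repr, e] at H
  have H' : HasSum (fun n => fourierCoeff g n * ν (-n)) (∫ x, g x * φ x ∂haarAddCircle) := by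
    rw [← (Equiv.neg ℤ).hasSum_iff]
    simpa only [Function.comp_def, Equiv.neg_apply, neg_neg] using H
  exact ⟨H'.summable, H'.tsum_eq⟩

end H91.BiPois
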