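import Mathlib

set_option autoImplicit false

open Filter Topology
open scoped InnerProductSpace symmDiff

namespace H91BM

section general

variable {H : Type} [NormedAddCommGroup H] [InnerProductSpace ℂ H] [CompleteSpace H] {I : Type}

lemma wl_vec (U : Ultrafilter I) (g : I → H) (C : ℝ) (hC : ∀ i, ‖g i‖ ≤ C) :
    ∃ v : H, ‖v‖ ≤ C ∧ ∀ η, Tendsto (fun i => ⟪g i, η⟫_ℂ) U (𝓝 ⟪v, η⟫_ℂ) := by
  have hK := WeakDual.isCompact_closedBall (𝕜 := ℂ) (E := H) 0 C
  let G : I → WeakDual ℂ H := fun i => StrongDual.toWeakDual (InnerProductSpace.toDual ℂ H (g i))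
  obtain ⟨φ, hφ, hle⟩ := hK.ultrafilter_le_nhds (U.map G) (by
    rw [le_principal_iff]
    refine mem_map.2 (univ_mem' fun i => ?_)
    simpa [G] using hC i)
  refine ⟨(InnerProductSpace.toDual ℂ H).symm (WeakDual.toStrongDual φ), ?_, fun η => ?_⟩
  · simpa using hφ
  · have := ((WeakDual.eval_continuous η).tendsto φ).comp (show Tendsto G U (𝓝 φ) from hle)
    rw [InnerProductSpace.toDual_symm_apply]
    exact this

/-- Convergence in the weak operator topology. -/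
def WT (U : Ultrafilter I) (f : I → H →L[ℂ] H) (L : H →L[ℂ] H) : Prop :=
  ∀ ξ η, Tendsto (fun i => ⟪f i ξ, η⟫_ℂ) U (𝓝 ⟪L ξ, η⟫_ℂ)

lemma WT.uniq {U : Ultrafilter I} {f : I → H →L[ℂ] H} {L L' : H →L[ℂ] H} (h : WT U f L)
    (h' : WT U f L') : L = L' := by
  ext ξ
  exact ext_inner_right ℂ fun η => tendsto_nhds_unique (h ξ η) (h' ξ η)

lemma wl_op (U : Ultrafilter I) (f : I → H →L[ℂ] H) (C : ℝ) (h0 : 0 ≤ C) (hC : ∀ i, ‖f i‖ ≤ C) :
    ∃ L : H →L[ℂ] H, ‖L‖ ≤ C ∧ WT U f L := by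
  choose v hv hl using fun ξ => wl_vec U (fun i => f i ξ) (C * ‖ξ‖)
    (fun i => ((f i).le_opNorm ξ).trans (by gcongr; exact hC i))
  let L : H →ₗ[ℂ] H :=
    { toFun := v
      map_add' := fun x y => ext_inner_right ℂ fun η => tendsto_nhds_unique (hl (x + y) η) (by
        simpa [inner_add_left] using (hl x η).add (hl y η))
      map_smul' := fun c x => ext_inner_right ℂ fun η => tendsto_nhds_unique (hl (c • x) η) (by
        simpa [inner_smul_left, mul_comm] using (hl x η).const_mul (starRingEnd ℂ c)) }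
  exact ⟨L.mkContinuous C hv, L.mkContinuous_norm_le h0 hv, hl⟩

lemma lim_map (U : Ultrafilter I) (θ : I → (H →L[ℂ] H) →ₗ[ℂ] (H →L[ℂ] H))
    (h : ∀ i x, ‖θ i x‖ ≤ ‖x‖) : ∃ ψ : (H →L[ℂ] H) →ₗ[ℂ] (H →L[ℂ] H),
      (∀ x, ‖ψ x‖ ≤ ‖x‖) ∧ ∀ x, WT U (fun i => θ i x) (ψ x) := by
  choose v hv hl using fun x => wl_op U (fun i => θ i x) ‖x‖ (norm_nonneg _) (fun i => h i x)
  refine ⟨{ toFun := v
            map_add' := fun x y => (hl (x + y)).uniq fun ξ η => ?_
            map_smul' := fun c x => (hl (c • x)).uniq fun ξ η => ?_ }, hv, hl⟩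
  · simpa [inner_add_left] using (hl x ξ η).add (hl y ξ η)
  · simpa [inner_smul_left, mul_comm] using (hl x ξ η).const_mul (starRingEnd ℂ c)

lemma WT.left {U : Ultrafilter I} {f : I → H →L[ℂ] H} {L : H →L[ℂ] H} (h : WT U f L)
    (a : H →L[ℂ] H) : WT U (fun i => a * f i) (a * L) := fun ξ η => by
  simpa [ContinuousLinearMap.adjoint_inner_right] using h ξ (ContinuousLinearMap.adjoint a η)

lemma WT.right {U : Ultrafilter I} {f : I → H →L[ℂ] H} {L : H →L[ℂ] H} (h : WT U f L)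
    (a : H →L[ℂ] H) : WT U (fun i => f i * a) (L * a) := fun ξ η => h (a ξ) η

lemma WT.const (U : Ultrafilter I) (L : H →L[ℂ] H) : WT U (fun _ => L) L :=
  fun _ _ => tendsto_const_nhds

/-- Contractive unital bimodule maps. -/
structure Good (A : Set (H →L[ℂ] H)) (θ : (H →L[ℂ] H) →ₗ[ℂ] (H →L[ℂ] H)) : Prop where
  le : ∀ x, ‖θ x‖ ≤ ‖x‖
  l : ∀ a ∈ A, ∀ x, θ (a * x) = a * θ x
  r : ∀ a ∈ A, ∀ x, θ (x * a) = θ x * a
  one : θ 1 = 1

lemma lim_good (A : Set (H →L[ℂ] H)) (U : Ultrafilter I)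
    (θ : I → (H →L[ℂ] H) →ₗ[ℂ] (H →L[ℂ] H)) (h : ∀ i, Good A (θ i)) :
    ∃ ψ, Good A ψ ∧ ∀ x, WT U (fun i => θ i x) (ψ x) := by
  obtain ⟨ψ, h1, h2⟩ := lim_map U θ fun i => (h i).le
  refine ⟨ψ, ⟨h1, fun a ha x => (h2 _).uniq ?_, fun a ha x => (h2 _).uniq ?_,
    (h2 _).uniq ?_⟩, h2⟩
  · simp only [(h _).l a ha]; exact (h2 x).left a
  · simp only [(h _).r a ha]; exact (h2 x).right a
  · simp only [(h _).one]; exact WT.const _ _

/-- The semigroup of good maps fixing `T` and sending `T * T` to `1`. -/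
def Sg (A : Set (H →L[ℂ] H)) (T : H →L[ℂ] H) : Subsemigroup (Module.End ℂ (H →L[ℂ] H)) where
  carrier := {θ | Good A θ ∧ θ T = T ∧ θ (T * T) = 1}
  mul_mem' := by
    rintro θ θ' ⟨h, h1, -⟩ ⟨h', h1', h2'⟩
    refine ⟨⟨fun x => (h.le _).trans (h'.le _), fun a ha x => ?_, fun a ha x => ?_, ?_⟩, ?_, ?_⟩
    · rw [Module.End.mul_apply, h'.l a ha, h.l a ha]; rfl
    · rw [Module.End.mul_apply, h'.r a ha, h.r a ha]; rfl
    · rw [Module.End.mul_apply, h'.one, h.one]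
    · rw [Module.End.mul_apply, h1', h1]
    · rw [Module.End.mul_apply, h2', h.one]

lemma idem (A : Set (H →L[ℂ] H)) (T : H →L[ℂ] H) (hne : Nonempty (Sg A T)) :
    ∃ ψ ∈ Sg A T, ∀ x, ψ (ψ x) = ψ x := by
  let ev : Sg A T → (H →L[ℂ] H) → H → H → ℂ := fun θ x ξ η => ⟪θ.1 x ξ, η⟫_ℂ
  letI : TopologicalSpace (Sg A T) := TopologicalSpace.induced ev inferInstance
  have hinj : Function.Injective ev := by
    intro θ θ' h
    refine Subtype.ext (LinearMap.ext fun x => ContinuousLinearMap.ext fun ξ => ?_)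
    exact ext_inner_right ℂ fun η => congrFun (congrFun (congrFun h x) ξ) η
  have hemb : Topology.IsEmbedding ev := ⟨⟨rfl⟩, hinj⟩
  haveI : T2Space (Sg A T) := hemb.t2Space
  haveI : CompactSpace (Sg A T) := ⟨by
    rw [isCompact_iff_ultrafilter_le_nhds]
    intro U _
    obtain ⟨ψ, h1, h2⟩ := lim_good A U (fun θ => θ.1) fun θ => θ.2.1
    refine ⟨⟨ψ, h1, (h2 _).uniq ?_, (h2 _).uniq ?_⟩, trivial, ?_⟩
    · simp only [fun θ : Sg A T => θ.2.2.1]; exact WT.const _ _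
    · simp only [fun θ : Sg A T => θ.2.2.2]; exact WT.const _ _
    · rw [nhds_induced, ← map_le_iff_le_comap]
      exact tendsto_pi_nhds.2 fun x => tendsto_pi_nhds.2 fun ξ => tendsto_pi_nhds.2 fun η =>
        h2 x ξ η⟩
  obtain ⟨ψ, hψ⟩ := exists_idempotent_of_compact_t2_of_continuous_mul_left (M := Sg A T)
    fun r => by
      rw [hemb.continuous_iff]
      refine continuous_pi fun x => ?_
      exact (continuous_apply (r.1 x)).comp hemb.continuous
  exact ⟨ψ.1, ψ.2, fun x => congrArg (fun θ : Sg A T => θ.1 x) hψ⟩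

lemma mkop {ι : Type} (b : HilbertBasis ι ℂ H) (v : ι → H) (hv : Orthonormal ℂ v) :
    ∃ V : H →L[ℂ] H, (∀ i, V (b i) = v i) ∧ ‖V‖ ≤ 1 ∧ star V * V = 1 := by
  classical
  let W : H →ₗᵢ[ℂ] H := hv.orthogonalFamily.linearIsometry.comp b.repr.toLinearIsometry
  refine ⟨W.toContinuousLinearMap, fun i => ?_, W.norm_toContinuousLinearMap_le, ?_⟩
  · change hv.orthogonalFamily.linearIsometry (b.repr (b i)) = v i
    rw [b.repr_self, OrthogonalFamily.linearIsometry_apply_single]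
    simp
  · ext x
    refine ext_inner_left ℂ fun y => ?_
    rw [ContinuousLinearMap.mul_apply, ContinuousLinearMap.star_eq_adjoint,
      ContinuousLinearMap.adjoint_inner_right]
    exact W.inner_map_map y x

lemma ext_b {ι : Type} (b : HilbertBasis ι ℂ H) (S T : H →L[ℂ] H) (h : ∀ i, S (b i) = T (b i)) :
    S = T := by
  refine ContinuousLinearMap.ext_on (s := Set.range b) ?_ ?_
  · exact Submodule.dense_iff_topologicalClosure_eq_top.2 b.dense_span
  · rintro _ ⟨i, rfl⟩; exact h i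

end general

/-- The weight. -/
noncomputable def mm (F : Finset ℕ) : ℂ := if F = ∅ then 0 else (-1) ^ sInf (F : Set ℕ)

lemma mm_ev (F : Finset ℕ) : ∃ N, ∀ n ≥ N, mm (F ∆ {n}) = if F = ∅ then (-1) ^ n else mm F := by
  refine ⟨F.sup id + 1, fun n hn => ?_⟩
  have hlt : ∀ k ∈ F, k < n := fun k hk => lt_of_lt_of_le
    (Nat.lt_succ_of_le (Finset.le_sup (f := id) hk)) hn
  have e : F ∆ {n} = insert n F := by
    ext k
    simp only [Finset.mem_symmDiff, Finset.mem_singleton, Finset.mem_insert]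
    constructor
    · tauto
    · rintro (rfl | h)
      · exact Or.inr ⟨rfl, fun h => lt_irrefl _ (hlt _ h)⟩
      · exact Or.inl ⟨h, (hlt _ h).ne⟩
  rw [e, mm, if_neg (Finset.insert_ne_empty _ _)]
  split_ifs with h
  · subst h; simp
  · rw [mm, if_neg h]
    congr 1
    have hne : (F : Set ℕ).Nonempty := Finset.coe_nonempty.2 (Finset.nonempty_iff_ne_empty.2 h)
    have hm := Nat.sInf_mem hne
    refine le_antisymm (Nat.sInf_le (by simp; exact Or.inr hm)) ?_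
    have hm' := Nat.sInf_mem (s := ((insert n F : Finset ℕ) : Set ℕ)) ⟨n, by simp⟩
    rw [Finset.coe_insert] at hm' ⊢
    rcases hm' with h' | h'
    · rw [h']; exact (hlt _ hm).le
    · exact Nat.sInf_le h'

theorem cex : ∃ (H : Type) (_ : NormedAddCommGroup H) (_ : InnerProductSpace ℂ H)
    (_ : CompleteSpace H) (M A : VonNeumannAlgebra H) (ψ : (H →L[ℂ] H) →ₗ[ℂ] (H →L[ℂ] H))
    (T : H →L[ℂ] H), (∀ x, x ∈ M) ∧ (∀ x, (∀ a ∈ A, a * x = x * a) → x ∈ A) ∧
      Good (A : Set (H →L[ℂ] H)) ψ ∧ (∀ x, ψ (ψ x) = ψ x) ∧ ψ T = T ∧ ∀ w, ψ w ≠ T * T := by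
  classical
  let H : Type := lp (fun _ : Finset ℕ => ℂ) 2
  let b : HilbertBasis (Finset ℕ) ℂ H := default
  choose u hu hu1 hu2 using fun n : ℕ => mkop b (fun F => b (F ∆ {n}))
    (b.orthonormal.comp _ (symmDiff_left_injective _))
  have uu : ∀ n, u n * u n = 1 := fun n => ext_b b _ _ fun F => by
    simp [hu, symmDiff_symmDiff_cancel_right]
  have su : ∀ n, star (u n) = u n := fun n => by
    rw [← mul_one (star (u n)), ← uu n, ← mul_assoc, hu2, one_mul]
  have cu : ∀ n k, u n * u k = u k * u n := fun n k => ext_b b _ _ fun F => by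
    simp [hu, symmDiff_right_comm]
  obtain ⟨W, hW, -, -⟩ := mkop b (fun F => ((-1 : ℂ) ^ sInf (F : Set ℕ)) • b F) (by
    have := b.orthonormal
    rw [orthonormal_iff_ite] at this ⊢
    intro F G
    rw [inner_smul_left, inner_smul_right, this]
    split_ifs with h
    · subst h; simp [← mul_pow]
    · simp)
  let T : H →L[ℂ] H := W - (innerSL ℂ (b ∅)).smulRight (b ∅)
  have hT : ∀ F, T (b F) = mm F • b F := fun F => by
    have := (orthonormal_iff_ite.1 b.orthonormal) ∅ F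
    simp only [T, ContinuousLinearMap.sub_apply, hW, ContinuousLinearMap.smulRight_apply,
      innerSL_apply_apply, this, mm]
    by_cases h : F = ∅
    · subst h; simp
    · simp [h, Ne.symm h]
  let M : VonNeumannAlgebra H := ⟨⊤, Set.eq_univ_of_univ_subset Set.subset_centralizer_centralizer⟩
  let A : VonNeumannAlgebra H := ⟨StarSubalgebra.centralizer ℂ (Set.range u), by simp⟩
  have hA : ∀ a, a ∈ A ↔ ∀ n, u n * a = a * u n := fun a => by
    change a ∈ StarSubalgebra.centralizer ℂ (Set.range u) ↔ _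
    rw [StarSubalgebra.mem_centralizer_iff]
    simp [su]
  let ad : ℕ → (H →L[ℂ] H) →ₗ[ℂ] (H →L[ℂ] H) := fun n =>
    LinearMap.mulLeft ℂ (u n) ∘ₗ LinearMap.mulRight ℂ (u n)
  have ead : ∀ n x, ad n x = u n * (x * u n) := fun _ _ => rfl
  have nad : ∀ n x, ‖ad n x‖ ≤ ‖x‖ := fun n x => by
    rw [ead]
    refine (norm_mul_le _ _).trans ?_
    have := norm_mul_le x (u n)
    nlinarith [hu1 n, norm_nonneg x, norm_nonneg (u n), norm_nonneg (x * u n)]
  let s : ℕ → (H →L[ℂ] H) →ₗ[ℂ] (H →L[ℂ] H) := fun n =>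
    (1 / 2 : ℂ) • (ad (2 * n) + ad (2 * n + 1))
  have es : ∀ n x, s n x = (1 / 2 : ℂ) • (ad (2 * n) x + ad (2 * n + 1) x) := fun _ _ => rfl
  have gs : ∀ n, Good (A : Set (H →L[ℂ] H)) (s n) := fun n => by
    refine ⟨fun x => ?_, fun a ha x => ?_, fun a ha x => ?_, ?_⟩
    · rw [es, norm_smul]
      have := norm_add_le (ad (2 * n) x) (ad (2 * n + 1) x)
      have h1 := nad (2 * n) x
      have h2 := nad (2 * n + 1) x
      simp only [one_div, norm_inv, Complex.norm_ofNat]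
      linarith
    · have := (hA a).1 ha
      simp only [es, ead, mul_smul_comm, mul_add, ← mul_assoc, this]
    · have := (hA a).1 ha
      simp only [es, ead, smul_mul_assoc, add_mul, mul_assoc, this]
    · rw [es, ead, ead, one_mul, one_mul, uu, uu, ← two_smul ℂ, smul_smul]; norm_num
  have adb : ∀ (x : H →L[ℂ] H) (c : Finset ℕ → ℂ), (∀ F, x (b F) = c F • b F) → ∀ n F,
      ad n x (b F) = c (F ∆ {n}) • b F := fun x c h n F => by
    simp [ead, hu, h, symmDiff_symmDiff_cancel_right]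
  obtain ⟨φ, hφ, hl⟩ := lim_good (A : Set (H →L[ℂ] H)) (hyperfilter ℕ) s gs
  have idl : ∀ x y : H →L[ℂ] H, (∀ F, ∃ N, ∀ n ≥ N, s n x (b F) = y (b F)) → φ x = y := by
    intro x y h
    refine ext_b b _ _ fun F => ext_inner_right ℂ fun η => tendsto_nhds_unique (hl x _ η) ?_
    obtain ⟨N, hN⟩ := h F
    refine tendsto_const_nhds.congr' ?_
    have : ∀ᶠ n in (hyperfilter ℕ : Filter ℕ), N ≤ n :=
      Nat.hyperfilter_le_atTop (eventually_ge_atTop N)
    exact this.mono fun n hn => by simp only [hN n hn]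
  have hTT : ∀ F, (T * T) (b F) = (mm F * mm F) • b F := fun F => by
    simp [hT, smul_smul]
  have p1 : φ T = T := idl _ _ fun F => by
    obtain ⟨N, hN⟩ := mm_ev F
    refine ⟨N, fun n hn => ?_⟩
    rw [es, ContinuousLinearMap.smul_apply, ContinuousLinearMap.add_apply, adb T mm hT,
      adb T mm hT, hN _ (by omega), hN _ (by omega), hT, ← add_smul, smul_smul]
    congr 1
    split_ifs with h
    · simp [mm, h, pow_succ]
    · ring
  have p2 : φ (T * T) = 1 := idl _ _ fun F => by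
    obtain ⟨N, hN⟩ := mm_ev F
    refine ⟨N, fun n hn => ?_⟩
    rw [es, ContinuousLinearMap.smul_apply, ContinuousLinearMap.add_apply, adb _ _ hTT,
      adb _ _ hTT, hN _ (by omega), hN _ (by omega), ← add_smul, smul_smul]
    refine Eq.trans ?_ (one_smul ℂ _)
    congr 1
    split_ifs with h
    · simp [pow_succ]; norm_num
    · simp [mm, h, ← mul_pow]; norm_num
  obtain ⟨ψ, ⟨g1, g2, g3⟩, hψ⟩ := idem (A : Set (H →L[ℂ] H)) T ⟨⟨φ, hφ, p1, p2⟩⟩
  refine ⟨H, inferInstance, inferInstance, inferInstance, M, A, ψ, T, fun x => trivial,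
    fun x hx => (hA x).2 fun n => hx _ ((hA _).2 fun k => cu k n), g1, hψ, g2, fun w hw => ?_⟩
  have : T * T = 1 := by rw [← g3, ← hw, hψ]
  have h0 := hTT ∅
  rw [this] at h0
  simp only [mm, if_true, mul_zero, zero_smul, ContinuousLinearMap.one_apply] at h0
  exact b.orthonormal.ne_zero ∅ h0

theorem main :
    ∃ (H : Type) (_ : NormedAddCommGroup H) (_ : InnerProductSpace ℂ H) (_ : CompleteSpace H)
      (M A : VonNeumannAlgebra H) (ψ : (H →L[ℂ] H) →ₗ[ℂ] (H →L[ℂ] H)), A ≤ M ∧ (∀ x, x ∈ M) ∧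
      (∀ x ∈ M, (∀ a ∈ A, a * x = x * a) → x ∈ A) ∧ (∀ x, ‖ψ x‖ ≤ ‖x‖) ∧ (∀ x, ψ (ψ x) = ψ x) ∧
      (∀ a ∈ A, ∀ y ∈ Set.range ψ, a * y ∈ Set.range ψ ∧ y * a ∈ Set.range ψ) ∧
      ∃ a ∈ Set.range ψ, ∃ b ∈ Set.range ψ, ∃ c ∈ Set.range ψ,
        a * star b * c ∉ Set.range ψ ∧
        (1 / 2 : ℂ) • (a * star b * c + c * star b * a) ∉ Set.range ψ := by
  obtain ⟨H, _, _, _, M, A, ψ, T, hM, hA, hg, hψ, hT, hw⟩ := cex
  refine ⟨H, inferInstance, inferInstance, inferInstance, M, A, ψ, fun x _ => hM x, hM,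
    fun x _ hx => hA x hx, hg.le, hψ, ?_, T, ⟨T, hT⟩, 1, ⟨1, hg.one⟩, T, ⟨T, hT⟩, ?_, ?_⟩
  · rintro a ha _ ⟨x, rfl⟩
    exact ⟨⟨a * x, hg.l a ha x⟩, ⟨x * a, hg.r a ha x⟩⟩
  · rintro ⟨w, e⟩
    exact hw w (by simpa using e)
  · rintro ⟨w, e⟩
    refine hw w (e.trans ?_)
    rw [star_one, mul_one, ← two_smul ℂ, smul_smul]
    norm_num

end H91BM
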