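import Pool.Agent.H91.Bim

set_option autoImplicit false

namespace H91BN

variable {H : Type} [NormedAddCommGroup H] [InnerProductSpace ℂ H] [CompleteSpace H]

/-- `A` is a subalgebra of `M` containing its relative commutant. -/
def RelComm (M A : VonNeumannAlgebra H) : Prop :=
  A ≤ M ∧ ∀ x ∈ M, (∀ a ∈ A, a * x = x * a) → x ∈ A

/-- A contractive projection. -/
def Proj (ψ : (H →L[ℂ] H) → (H →L[ℂ] H)) : Prop :=
  IsLinearMap ℂ ψ ∧ (∀ x, ‖ψ x‖ ≤ ‖x‖) ∧ ∀ x, ψ (ψ x) = ψ x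

/-- `R` is an `A`-bimodule. -/
def Bimod (A : VonNeumannAlgebra H) (R : Set (H →L[ℂ] H)) : Prop :=
  ∀ a ∈ A, ∀ y ∈ R, a * y ∈ R ∧ y * a ∈ R

/-- The product `a b* c`. -/
noncomputable def tri (a b c : H →L[ℂ] H) : H →L[ℂ] H := a * star b * c

/-- `R` is closed under `a b* c`. -/
def TRO (R : Set (H →L[ℂ] H)) : Prop := ∀ a ∈ R, ∀ b ∈ R, ∀ c ∈ R, tri a b c ∈ R

/-- `R` is closed under the triple product. -/
def Trip (R : Set (H →L[ℂ] H)) : Prop :=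
  ∀ a ∈ R, ∀ b ∈ R, ∀ c ∈ R, (1 / 2 : ℂ) • (tri a b c + tri c b a) ∈ R

theorem main :
    ∃ (H : Type) (_ : NormedAddCommGroup H) (_ : InnerProductSpace ℂ H) (_ : CompleteSpace H)
      (M A : VonNeumannAlgebra H) (ψ : (H →L[ℂ] H) → (H →L[ℂ] H)), (∀ x, x ∈ M) ∧
      RelComm M A ∧ Proj ψ ∧ Bimod A (Set.range ψ) ∧
      ¬ TRO (Set.range ψ) ∧ ¬ Trip (Set.range ψ) := by
  obtain ⟨H, _, _, _, M, A, ψ, T, hM, hA, hg, hψ, hT, hw⟩ := H91BM.cex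
  refine ⟨H, inferInstance, inferInstance, inferInstance, M, A, ψ, hM, ⟨fun x _ => hM x,
    fun x _ hx => hA x hx⟩, ⟨ψ.isLinear, hg.le, hψ⟩, ?_, fun h => ?_, fun h => ?_⟩
  · rintro a ha _ ⟨x, rfl⟩
    exact ⟨⟨a * x, hg.l a ha x⟩, ⟨x * a, hg.r a ha x⟩⟩
  · obtain ⟨w, e⟩ := h T ⟨T, hT⟩ 1 ⟨1, hg.one⟩ T ⟨T, hT⟩
    exact hw w (by simpa [tri] using e)
  · obtain ⟨w, e⟩ := h T ⟨T, hT⟩ 1 ⟨1, hg.one⟩ T ⟨T, hT⟩
    refine hw w (e.trans ?_)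
    rw [tri, star_one, mul_one, ← two_smul ℂ, smul_smul]
    norm_num

end H91BN
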