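import Mathlib

set_option autoImplicit false

namespace Pool.Agent.H91.Bisym

open Filter Topology Set

section Core

variable {α : Type} [LinearOrder α]

structure Med (G : α → α → α) : Prop where
  idem : ∀ x, G x x = x
  med : ∀ x y u v, G (G x y) (G u v) = G (G x u) (G y v)
  m1 : ∀ y, StrictMono (fun x => G x y)
  m2 : ∀ x, StrictMono (G x)

variable {G : α → α → α}

def Phi (G : α → α → α) (c y s : α) : α := G (G c y) (G s c)

namespace Med

variable (h : Med G)
include h

lemma lt1 {x y : α} (hxy : x < y) : x < G x y := by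
  conv_lhs => rw [← h.idem x]
  exact h.m2 x hxy

lemma lt2 {x y : α} (hxy : x < y) : G x y < y := by
  conv_rhs => rw [← h.idem y]
  exact h.m1 y hxy

lemma mono {a b c d : α} (h1 : a ≤ c) (h2 : b ≤ d) : G a b ≤ G c d :=
  ((h.m1 b).monotone h1).trans ((h.m2 c).monotone h2)

lemma phi_symm (c y s : α) : Phi G c y s = Phi G c s y := h.med _ _ _ _

lemma phi_hom (c a b s t : α) :
    Phi G c (G a b) (G s t) = G (Phi G c a s) (Phi G c b t) := by
  unfold Phi
  have e1 : G c (G a b) = G (G c a) (G c b) := by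
    conv_lhs => rw [← h.idem c]
    exact h.med _ _ _ _
  have e2 : G (G s t) c = G (G s c) (G t c) := by
    conv_lhs => rw [← h.idem c]
    exact h.med _ _ _ _
  rw [e1, e2, h.med]

lemma phi_m1 (c s : α) : StrictMono (fun y => Phi G c y s) :=
  fun _ _ hab => h.m1 _ (h.m2 c hab)

lemma phi_mono (c : α) {a b s t : α} (h1 : a ≤ b) (h2 : s ≤ t) : Phi G c a s ≤ Phi G c b t :=
  h.mono (h.mono le_rfl h1) (h.mono h2 le_rfl)

end Med

def Small (G : α → α → α) (x0 p q : α) : Prop := ∀ x, x0 < x → Phi G x0 q x0 ≤ Phi G x0 x p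

namespace Med

variable (h : Med G) {x0 : α}
include h

lemma small_mono {p q p' q' : α} (hs : Small G x0 p q) (h1 : p ≤ p') (h2 : q' ≤ q) :
    Small G x0 p' q' := fun x hx =>
  (h.phi_mono x0 h2 le_rfl).trans ((hs x hx).trans (h.phi_mono x0 le_rfl h1))

lemma small_left {z p q : α} (hs : Small G x0 (G z p) (G z q)) : Small G x0 p q := by
  intro x hx
  have h1 := hs (G x0 x) (h.lt1 hx)
  have e1 : Phi G x0 (G z q) x0 = G (Phi G x0 z x0) (Phi G x0 q x0) := by
    rw [← h.phi_hom, h.idem]
  rw [e1, h.phi_hom, h.phi_symm x0 x0 z] at h1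
  exact (h.m2 _).le_iff_le.mp h1

lemma small_right {z p q : α} (hs : Small G x0 (G p z) (G q z)) : Small G x0 p q := by
  intro x hx
  have hx' : x0 < G x x0 := by
    conv_lhs => rw [← h.idem x0]
    exact h.m1 x0 hx
  have h1 := hs (G x x0) hx'
  have e1 : Phi G x0 (G q z) x0 = G (Phi G x0 q x0) (Phi G x0 z x0) := by
    rw [← h.phi_hom, h.idem]
  rw [e1, h.phi_hom, h.phi_symm x0 x0 z] at h1
  exact (h.m1 _).le_iff_le.mp h1

lemma small_tr {L M : α} (hs : Small G x0 L M) (w : α) : Small G x0 (G L w) (G M w) := by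
  intro x hx
  have e1 : Phi G x0 (G M w) x0 = G (Phi G x0 M x0) (Phi G x0 w x0) := by
    rw [← h.phi_hom, h.idem]
  have e2 : Phi G x0 x (G L w) = G (Phi G x0 x L) (Phi G x0 x w) := by
    rw [← h.phi_hom, h.idem]
  rw [e1, e2]
  refine h.mono (hs x hx) ?_
  rw [h.phi_symm x0 x w]
  exact h.phi_mono x0 le_rfl hx.le

lemma not_small {x1 : α} (hx : x0 < x1) : ¬ Small G x0 x0 x1 := by
  intro hs
  exact absurd (hs (G x0 x1) (h.lt1 hx)) (not_le.mpr (h.phi_m1 x0 x0 (h.lt2 hx)))

lemma step {L M : α} (hs : Small G x0 L M) (u : α) {p q : α} (hpq : p < q)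
    (hn : ¬ Small G x0 p q) : ∃ p' q', p ≤ p' ∧ q' ≤ q ∧ p' < q' ∧ ¬ Small G x0 p' q' ∧
      ∀ w ∈ Icc p' q', ¬ (G L w < u ∧ u < G M w) := by
  have hm1 : p < G p q := h.lt1 hpq
  have hm2 : G p q < q := h.lt2 hpq
  set m := G p q with hm
  have n1 : ¬ Small G x0 p m := fun hh => hn (h.small_left (z := p) (by rwa [h.idem]))
  have n2 : ¬ Small G x0 m q := fun hh => hn (h.small_right (z := q) (by rwa [h.idem]))
  have n3 : ¬ Small G x0 p (G p m) := fun hh => n1 (h.small_left (z := p) (by rwa [h.idem]))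
  have n4 : ¬ Small G x0 (G m q) q := fun hh => n2 (h.small_right (z := q) (by rwa [h.idem]))
  have n5 : ¬ Small G x0 (G p m) m := fun hh => n1 (h.small_right (z := m) (by rwa [h.idem]))
  by_cases hc : ∀ w ∈ Icc p (G p m), ¬ (G L w < u ∧ u < G M w)
  · exact ⟨p, G p m, le_rfl, ((h.lt2 hm1).trans hm2).le, h.lt1 hm1, n3, hc⟩
  · refine ⟨G m q, q, (hm1.trans (h.lt1 hm2)).le, le_rfl, h.lt2 hm2, n4, fun w' hw' hh => ?_⟩
    push Not at hc
    obtain ⟨w, hw, h1, h2⟩ := hc
    have s1 : Small G x0 (G L w) (G L w') :=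
      h.small_mono (h.small_tr hs w) le_rfl (hh.1.trans h2).le
    exact n5 (h.small_mono (h.small_left s1) hw.2 ((h.lt1 hm2).le.trans hw'.1))

end Med

variable [TopologicalSpace α] [OrderTopology α] [CompactIccSpace α]
  [TopologicalSpace.SeparableSpace α]

theorem core (h : Med G) {x0 x1 L M : α} (hx : x0 < x1) (hLM : L < M) : ¬ Small G x0 L M := by
  intro hs
  have : Nonempty α := ⟨x0⟩
  set u := TopologicalSpace.denseSeq α
  have hu : DenseRange u := TopologicalSpace.denseRange_denseSeq α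
  have hstep : ∀ (k : ℕ) (s : {s : α × α // s.1 < s.2 ∧ ¬ Small G x0 s.1 s.2}),
      ∃ t : {s : α × α // s.1 < s.2 ∧ ¬ Small G x0 s.1 s.2}, s.1.1 ≤ t.1.1 ∧ t.1.2 ≤ s.1.2 ∧
        ∀ w ∈ Icc t.1.1 t.1.2, ¬ (G L w < u k ∧ u k < G M w) := by
    intro k s
    obtain ⟨p', q', a1, a2, a3, a4, a5⟩ := h.step hs (u k) s.2.1 s.2.2
    exact ⟨⟨(p', q'), a3, a4⟩, a1, a2, a5⟩
  choose nxt hn1 hn2 hn3 using hstep
  let seq : ℕ → {s : α × α // s.1 < s.2 ∧ ¬ Small G x0 s.1 s.2} :=
    fun k => Nat.rec ⟨(x0, x1), hx, h.not_small hx⟩ (fun k s => nxt k s) k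
  have hseq : ∀ k, seq (k + 1) = nxt k (seq k) := fun k => rfl
  obtain ⟨w, hw⟩ := IsCompact.nonempty_iInter_of_sequence_nonempty_isCompact_isClosed
    (fun k => Icc (seq k).1.1 (seq k).1.2)
    (fun k => by rw [hseq]; exact Icc_subset_Icc (hn1 k _) (hn2 k _))
    (fun k => nonempty_Icc.mpr (seq k).2.1.le) isCompact_Icc (fun k => isClosed_Icc)
  have hlt : G L w < G M w := h.m1 w hLM
  obtain ⟨k, hk⟩ := hu.exists_mem_open isOpen_Ioo ⟨_, h.lt1 hlt, h.lt2 hlt⟩
  have := mem_iInter.mp hw (k + 1)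
  rw [hseq] at this
  exact hn3 k _ w this hk

end Core

section Nary

variable {α ι : Type} [LinearOrder α] [Fintype ι] [DecidableEq ι]

structure Bis (F : (ι → α) → α) : Prop where
  refl : ∀ x, F (fun _ => x) = x
  bis : ∀ M : ι → ι → α, F (fun i => F (M i)) = F (fun j => F (fun i => M i j))
  mono : ∀ (x : ι → α) (i : ι), StrictMono (fun t => F (Function.update x i t))

variable {F : (ι → α) → α}

lemma Bis.monotone (h : Bis F) : Monotone F := by
  intro x y hxy
  have : ∀ s : Finset ι, F x ≤ F (s.piecewise y x) := by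
    intro s
    induction s using Finset.induction_on with
    | empty => simp
    | insert i s hi ih =>
      rw [Finset.piecewise_insert]
      refine ih.trans ?_
      conv_lhs => rw [← Function.update_eq_self i (s.piecewise y x)]
      apply (h.mono _ i).monotone
      rw [Finset.piecewise_eq_of_notMem _ _ _ hi]
      exact hxy i
  simpa using this Finset.univ

def Gi (F : (ι → α) → α) (i : ι) (x y : α) : α := F (Function.update (fun _ => y) i x)

lemma Bis.comm (h : Bis F) (i : ι) (a b : ι → α) :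
    F (fun j => Gi F i (a j) (b j)) = Gi F i (F a) (F b) := by
  unfold Gi
  rw [h.bis (fun j => Function.update (fun _ => b j) i (a j))]
  congr 1
  funext k
  by_cases hk : k = i
  · subst hk; simp
  · simp [Function.update_of_ne hk]

lemma Bis.med [Nontrivial ι] (h : Bis F) (i : ι) : Med (Gi F i) := by
  refine ⟨fun x => ?_, fun x y u v => ?_, fun y => h.mono _ i, fun x a b hab => ?_⟩
  · unfold Gi; rw [Function.update_eq_self_iff.mpr rfl]; exact h.refl x
  · have := h.comm i (Function.update (fun _ => y) i x) (Function.update (fun _ => v) i u)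
    change _ = Gi F i (Gi F i x y) (Gi F i u v) at this
    rw [← this]
    unfold Gi
    congr 1
    funext k
    by_cases hk : k = i
    · subst hk; simp
    · simp [Function.update_of_ne hk]
  · obtain ⟨j, hj⟩ := exists_ne i
    unfold Gi
    have h1 := h.mono (Function.update (fun _ => a) i x) j hab
    simp only at h1
    rw [Function.update_eq_self_iff.mpr (by simp [Function.update_of_ne hj])] at h1
    refine h1.trans_le (h.monotone fun k => ?_)
    by_cases hk : k = j
    · subst hk; simp [Function.update_of_ne hj]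
    · rw [Function.update_of_ne hk]
      by_cases hk2 : k = i
      · subst hk2; simp
      · simp [Function.update_of_ne hk2, hab.le]

lemma Bis.phi_comm (h : Bis F) (i : ι) (c : α) (a b : ι → α) :
    Phi (Gi F i) c (F a) (F b) = F (fun j => Phi (Gi F i) c (a j) (b j)) := by
  unfold Phi
  rw [h.comm i (fun j => Gi F i c (a j)) (fun j => Gi F i (b j) c),
    h.comm i (fun _ => c) a, h.comm i b (fun _ => c), h.refl]

variable [TopologicalSpace α] [OrderTopology α] [CompactIccSpace α]
  [TopologicalSpace.SeparableSpace α] [Nontrivial ι]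

lemma Bis.right (h : Bis F) (z : ι → α) (i : ι) {M : α} (hM : F z < M) :
    ∃ x, F (Function.update z i x) < M ∧ Iic x ∈ 𝓝 (z i) := by
  by_cases hmax : ∃ x1, z i < x1
  swap
  · push Not at hmax
    refine ⟨z i, by simpa using hM, ?_⟩
    exact Filter.mem_of_superset univ_mem fun y _ => hmax y
  obtain ⟨x1, hx1⟩ := hmax
  by_contra hcon
  push Not at hcon
  have hm := h.med i
  apply core hm hx1 hM
  intro x hx
  have h1 : M ≤ F (Function.update z i x) := by
    by_contra hlt
    exact hcon x (not_le.mp hlt) (Iic_mem_nhds hx)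
  refine (hm.phi_mono _ h1 le_rfl).trans ?_
  have e1 : Phi (Gi F i) (z i) (F (Function.update z i x)) (z i)
      = F (fun j => Phi (Gi F i) (z i) (Function.update z i x j) (z i)) := by
    rw [← h.phi_comm, h.refl]
  have e2 : Phi (Gi F i) (z i) x (F z) = F (fun j => Phi (Gi F i) (z i) x (z j)) := by
    rw [← h.phi_comm, h.refl]
  rw [e1, e2]
  apply h.monotone
  intro j
  by_cases hj : j = i
  · subst hj; simp
  · simp only [Function.update_of_ne hj]
    rw [hm.phi_symm _ x]
    exact hm.phi_mono _ le_rfl hx.le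

lemma Bis.upper (h : Bis F) (z : ι → α) {M : α} (hM : F z < M) : ∀ᶠ y in 𝓝 z, F y < M := by
  have key : ∀ s : Finset ι, ∃ z' : ι → α, F z' < M ∧ (∀ j ∈ s, Iic (z' j) ∈ 𝓝 (z j)) ∧
      ∀ j ∉ s, z' j = z j := by
    intro s
    induction s using Finset.induction_on with
    | empty => exact ⟨z, hM, by simp, fun _ _ => rfl⟩
    | insert i s hi ih =>
      obtain ⟨z', h1, h2, h3⟩ := ih
      obtain ⟨x, hx1, hx2⟩ := h.right z' i h1
      refine ⟨Function.update z' i x, hx1, fun j hj => ?_, fun j hj => ?_⟩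
      · by_cases hji : j = i
        · subst hji; rw [Function.update_self, ← h3 j hi]; exact hx2
        · rw [Function.update_of_ne hji]
          exact h2 j ((Finset.mem_insert.mp hj).resolve_left hji)
      · rw [Finset.mem_insert, not_or] at hj
        rw [Function.update_of_ne hj.1, h3 j hj.2]
  obtain ⟨z', h1, h2, _⟩ := key Finset.univ
  have : ∀ᶠ y in 𝓝 z, ∀ j, y j ≤ z' j := by
    rw [Filter.eventually_all]
    intro j
    exact (continuous_apply j).continuousAt.eventually (h2 j (Finset.mem_univ j))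
  filter_upwards [this] with y hy
  exact (h.monotone hy).trans_lt h1

theorem Bis.continuous (h : Bis F) : Continuous F := by
  rw [continuous_iff_continuousAt]
  intro z
  rw [ContinuousAt, tendsto_order]
  refine ⟨fun a ha => ?_, fun a ha => h.upper z ha⟩
  have hd : Bis (α := αᵒᵈ) F := ⟨h.refl, h.bis, fun x i => (h.mono x i).dual⟩
  exact Bis.upper (α := αᵒᵈ) hd z (M := a) ha

end Nary

lemma compactIcc (I : Set ℝ) (hI : I.OrdConnected) : CompactIccSpace I := by
  constructor
  intro a b
  rw [Subtype.isCompact_iff]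
  have : Subtype.val '' Icc a b = Icc a.1 b.1 := by
    ext x
    constructor
    · rintro ⟨y, hy, rfl⟩; exact hy
    · intro hx; exact ⟨⟨x, hI.out a.2 b.2 hx⟩, hx, rfl⟩
  rw [this]; exact isCompact_Icc

end Pool.Agent.H91.Bisym
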