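import Mathlib

set_option autoImplicit false

namespace Pool.Agent.H91.Selector

open Set MeasureTheory Function
open scoped ENNReal

/-- countable or co-countable sets -/
@[reducible] def cc (Ω : Type) : MeasurableSpace Ω where
  MeasurableSet' s := s.Countable ∨ sᶜ.Countable
  measurableSet_empty := Or.inl countable_empty
  measurableSet_compl s hs := by rw [compl_compl]; exact hs.symm
  measurableSet_iUnion f hf := by
    by_cases h : ∀ i, (f i).Countable
    · exact Or.inl (countable_iUnion h)
    · push Not at h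
      obtain ⟨i, hi⟩ := h
      exact Or.inr (((hf i).resolve_left hi).mono (compl_subset_compl.mpr (subset_iUnion f i)))

lemma not_both {Ω : Type} [Uncountable Ω] {s : Set Ω} (h1 : s.Countable) (h2 : sᶜ.Countable) :
    False := by
  have := h1.union h2
  rw [union_compl_self] at this
  exact not_countable_univ this

open Classical in
noncomputable def mu (Ω : Type) [Uncountable Ω] : @Measure Ω (cc Ω) :=
  @Measure.ofMeasurable Ω (cc Ω) (fun s _ => if s.Countable then 0 else 1) (by simp) (by
    intro f hf hd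
    by_cases h : ∀ i, (f i).Countable
    · simp [countable_iUnion h, h]
    · push Not at h
      obtain ⟨i, hi⟩ := h
      have hc : (f i)ᶜ.Countable := (show (f i).Countable ∨ (f i)ᶜ.Countable from hf i).resolve_left hi
      have h1 : ¬ (⋃ i, f i).Countable := fun h => hi (h.mono (subset_iUnion f i))
      rw [tsum_eq_single i]
      · simp [h1, hi]
      · intro j hj
        have : (f j).Countable := hc.mono (subset_compl_iff_disjoint_right.mpr (hd hj))
        simp [this])

open Classical in
lemma mu_apply (Ω : Type) [Uncountable Ω] (s : Set Ω) (hs : @MeasurableSet Ω (cc Ω) s) :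
    mu Ω s = if s.Countable then 0 else 1 := @Measure.ofMeasurable_apply Ω (cc Ω) _ _ _ s hs

lemma mu_prob (Ω : Type) [Uncountable Ω] : @IsProbabilityMeasure Ω (cc Ω) (mu Ω) := by
  let := cc Ω
  constructor
  rw [mu_apply Ω _ MeasurableSet.univ, if_neg not_countable_univ]

lemma mu_complete (Ω : Type) [Uncountable Ω] : (mu Ω).IsComplete := by
  let := cc Ω
  rw [Measure.isComplete_iff]
  intro s hs
  obtain ⟨t, hst, ht, h0⟩ := exists_measurable_superset_of_null hs
  rw [mu_apply Ω t ht] at h0
  have : t.Countable := by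
    by_contra h
    simp [h] at h0
  exact Or.inl (this.mono hst)

variable {Ω : Type} [LinearOrder Ω]

abbrev X (Ω : Type) := lp (fun _ : Ω => ℝ) 1

def F (t : Ω) : Set (X Ω) := {x | ‖x‖ ≤ 1 ∧ lp.tsumCLM ℝ Ω ℝ x = 1 ∧ ∀ s < t, x s = 0}

lemma F_anti {s t : Ω} (h : s ≤ t) : F t ⊆ F s :=
  fun _ hx => ⟨hx.1, hx.2.1, fun r hr => hx.2.2 r (lt_of_lt_of_le hr h)⟩

lemma F_nonempty (t : Ω) : (F t).Nonempty := by
  refine ⟨lp.single 1 t (1 : ℝ), ?_, ?_, ?_⟩
  · rw [lp.norm_single (by norm_num)]; simp
  · rw [lp.tsumCLM_apply, tsum_eq_single t]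
    · simp
    · intro s hs; exact lp.single_apply_ne _ _ _ hs
  · intro s hs; exact lp.single_apply_ne _ _ _ hs.ne

lemma F_convex (t : Ω) : Convex ℝ (F t) := by
  intro x hx y hy a b ha hb hab
  refine ⟨?_, ?_, ?_⟩
  · have := convex_closedBall (0 : X Ω) 1 (mem_closedBall_zero_iff.mpr hx.1)
      (mem_closedBall_zero_iff.mpr hy.1) ha hb hab
    exact mem_closedBall_zero_iff.mp this
  · rw [map_add, map_smul, map_smul, hx.2.1, hy.2.1]; simpa using hab
  · intro s hs
    simp [hx.2.2 s hs, hy.2.2 s hs]

lemma F_closed (t : Ω) : IsClosed (F t) := by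
  have e : F t = {x : X Ω | ‖x‖ ≤ 1} ∩ ({x | lp.tsumCLM ℝ Ω ℝ x = 1} ∩
      ⋂ s, ⋂ (_ : s < t), {x | lp.evalCLM ℝ (fun _ : Ω => ℝ) 1 s x = 0}) := by
    ext x; simp only [F, mem_inter_iff, mem_ofPred_eq, mem_iInter]; rfl
  rw [e]
  refine (isClosed_le continuous_norm continuous_const).inter
    ((isClosed_eq (lp.tsumCLM ℝ Ω ℝ).continuous continuous_const).inter ?_)
  exact isClosed_iInter fun s => isClosed_iInter fun _ =>
    isClosed_eq (lp.evalCLM ℝ (fun _ : Ω => ℝ) 1 s).continuous continuous_const

lemma F_bdd (t : Ω) : Bornology.IsBounded (F t) :=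
  (Metric.isBounded_closedBall (x := (0 : X Ω)) (r := 1)).subset
    fun _ hx => mem_closedBall_zero_iff.mpr hx.1

lemma F_meas (hI : ∀ t : Ω, (Iio t).Countable) (G : Set (X Ω)) :
    @MeasurableSet Ω (cc Ω) {t | (F t ∩ G).Nonempty} := by
  by_cases h : ∀ t : Ω, (F t ∩ G).Nonempty
  · right
    have : {t | (F t ∩ G).Nonempty}ᶜ = ∅ := by
      ext t; simp [h t]
    rw [this]; exact countable_empty
  · left
    push Not at h
    obtain ⟨t, ht⟩ := h
    refine (hI t).mono fun s hs => ?_
    by_contra hst
    have h1 : t ≤ s := not_lt.mp hst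
    have h2 := hs.mono (inter_subset_inter_left G (F_anti h1))
    rw [ht] at h2
    exact not_nonempty_empty h2

omit [LinearOrder Ω] in
lemma X_summable (x : X Ω) : Summable (fun s => x s) :=
  .of_norm (by simpa using x.2.summable)

open Classical in
noncomputable def phi (A : Set Ω) : X Ω →L[ℝ] ℝ :=
  LinearMap.mkContinuous
    { toFun := fun x => ∑' s, A.indicator (fun s => x s) s
      map_add' := fun x y => by
        rw [← Summable.tsum_add ((X_summable x).indicator A) ((X_summable y).indicator A)]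
        congr 1; funext s
        by_cases h : s ∈ A <;> simp [h]
      map_smul' := fun c x => by
        simp only [RingHom.id_apply, smul_eq_mul]
        rw [← tsum_mul_left]
        congr 1; funext s
        by_cases h : s ∈ A <;> simp [h] }
    1 (fun x => by
      have h1 : Summable (fun s => ‖x s‖) := by simpa using x.2.summable
      have h2 : ‖x‖ = ∑' s, ‖x s‖ := by simp [lp.norm_eq_tsum_rpow]
      rw [one_mul, h2]
      apply tsum_of_norm_bounded h1.hasSum
      intro s
      exact norm_indicator_le_norm_self _ _)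

omit [LinearOrder Ω] in
lemma phi_apply (A : Set Ω) (x : X Ω) : phi A x = ∑' s, A.indicator (fun s => x s) s := rfl

lemma exists_gt (hI : ∀ t : Ω, (Iio t).Countable) [Uncountable Ω] {S : Set Ω} (hS : S.Countable) :
    ∃ b, ∀ s ∈ S, s < b := by
  have h1 : (⋃ s ∈ S, Iic s).Countable := by
    apply hS.biUnion
    intro s _
    rw [← Iio_union_right]
    exact (hI s).union (countable_singleton s)
  by_contra h
  push Not at h
  apply not_countable_univ (α := Ω)
  refine h1.mono fun b _ => ?_
  obtain ⟨s, hs, hb⟩ := h b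
  exact mem_biUnion hs hb

lemma exists_family (hI : ∀ t : Ω, (Iio t).Countable) [Uncountable Ω] (S : Ω → Set Ω)
    (h1 : ∀ t, (S t).Countable) (h2 : ∀ t, S t ⊆ Ici t) :
    ∃ T : Set Ω, ¬ T.Countable ∧ T.PairwiseDisjoint S := by
  obtain ⟨T, hT⟩ := zorn_subset {T : Set Ω | T.PairwiseDisjoint S} (by
    intro c hc hch
    refine ⟨⋃₀ c, ?_, fun s hs => subset_sUnion_of_mem hs⟩
    exact (pairwiseDisjoint_sUnion hch.directedOn).mpr fun a ha => hc ha)
  refine ⟨T, fun hc => ?_, hT.1⟩
  obtain ⟨b, hb⟩ := exists_gt hI (hc.union (hc.biUnion fun t _ => h1 t))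
  have hbT : b ∉ T := fun h => lt_irrefl b (hb b (Or.inl h))
  have h3 : (insert b T).PairwiseDisjoint S := by
    apply hT.1.insert_of_notMem hbT
    intro t ht
    rw [Set.disjoint_left]
    intro s hs hs'
    exact not_lt.mpr (h2 b hs) (hb s (Or.inr (mem_biUnion ht hs')))
  exact hbT (hT.2 h3 (subset_insert b T) (mem_insert b T))

omit [LinearOrder Ω] in
lemma split {T : Set Ω} (hT : ¬ T.Countable) :
    ∃ T0 T1 : Set Ω, T0 ⊆ T ∧ T1 ⊆ T ∧ Disjoint T0 T1 ∧ ¬ T0.Countable ∧ ¬ T1.Countable := by
  have hinf : Infinite T := by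
    by_contra h
    have : Finite T := not_infinite_iff_finite.mp h
    exact hT (Set.toFinite T).countable
  have hc : Cardinal.mk (T ⊕ T) = Cardinal.mk T := by
    simp [Cardinal.add_eq_self (Cardinal.aleph0_le_mk T)]
  obtain ⟨e⟩ := Cardinal.eq.mp hc
  have hi0 : Injective (fun a : T => (e (Sum.inl a) : Ω)) :=
    Subtype.val_injective.comp (e.injective.comp Sum.inl_injective)
  have hi1 : Injective (fun a : T => (e (Sum.inr a) : Ω)) :=
    Subtype.val_injective.comp (e.injective.comp Sum.inr_injective)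
  refine ⟨range (fun a : T => (e (Sum.inl a) : Ω)), range (fun a : T => (e (Sum.inr a) : Ω)),
    ?_, ?_, ?_, ?_, ?_⟩
  · rintro _ ⟨a, rfl⟩; exact (e _).2
  · rintro _ ⟨a, rfl⟩; exact (e _).2
  · rw [Set.disjoint_left]
    rintro _ ⟨a, rfl⟩ ⟨b, hb⟩
    have := e.injective (Subtype.val_injective hb)
    cases this
  · intro h
    apply hT
    have := h.preimage_of_injOn (f := fun a : T => (e (Sum.inl a) : Ω)) hi0.injOn
    rw [preimage_range, countable_univ_iff] at this
    exact this
  · intro h
    apply hT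
    have := h.preimage_of_injOn (f := fun a : T => (e (Sum.inr a) : Ω)) hi1.injOn
    rw [preimage_range, countable_univ_iff] at this
    exact this

lemma no_selector (hI : ∀ t : Ω, (Iio t).Countable) [Uncountable Ω] (f : Ω → X Ω)
    (hf : ∀ t, f t ∈ F t) : ∃ φ : X Ω →L[ℝ] ℝ, ¬ @Measurable Ω ℝ (cc Ω) _ (fun t => φ (f t)) := by
  obtain ⟨T, hT, hd⟩ := exists_family hI (fun t => support (fun s => f t s))
    (fun t => (X_summable (f t)).countable_support)
    (fun t s hs => not_lt.mp fun h => hs ((hf t).2.2 s h))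
  obtain ⟨T0, T1, h0, h1, hdis, hc0, hc1⟩ := split hT
  refine ⟨phi (⋃ t ∈ T1, support (fun s => f t s)), fun hm => ?_⟩
  have hm1 := hm (measurableSet_singleton (1 : ℝ))
  rcases hm1 with h | h
  · apply hc1
    refine h.mono fun t ht => ?_
    simp only [mem_preimage, mem_singleton_iff]
    rw [phi_apply, indicator_eq_self.mpr (subset_biUnion_of_mem (u := fun t => support (fun s => f t s)) ht)]
    exact (hf t).2.1
  · apply hc0
    refine h.mono fun t ht => ?_
    simp only [mem_compl_iff, mem_preimage, mem_singleton_iff]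
    have : (⋃ t ∈ T1, support (fun s => f t s)).indicator (fun s => f t s) = 0 := by
      rw [indicator_eq_zero']
      rw [Set.disjoint_iUnion₂_right]
      intro r hr
      exact hd (h0 ht) (h1 hr) (fun h => Set.disjoint_left.mp hdis ht (h ▸ hr))
    rw [phi_apply, this]
    simp

def W : Type := (Cardinal.aleph 1).ord.ToType

noncomputable instance : LinearOrder W := inferInstanceAs (LinearOrder (Cardinal.aleph 1).ord.ToType)

instance : Uncountable W := by
  rw [← Cardinal.aleph0_lt_mk_iff]
  show _ < Cardinal.mk (Cardinal.aleph 1).ord.ToType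
  rw [Cardinal.mk_ord_toType]
  exact Cardinal.aleph0_lt_aleph_one

lemma W_Iio (t : W) : (Iio t).Countable := by
  have := Cardinal.mk_Iio_lt (α := (Cardinal.aleph 1).ord.ToType) t (by simp)
  have h2 : @Set.Countable (Cardinal.aleph 1).ord.ToType {x | x < t} := by simpa using this
  exact h2

end Pool.Agent.H91.Selector
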