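import Mathlib
import Pool.Agent.H91.Selector

set_option autoImplicit false

namespace Pool.Agent.H91.BlowUp

open Filter Topology Set Module Cardinal
open Pool.Agent.H91.Selector (W W_Iio exists_gt)
open scoped ENNReal

section General

variable {E : Type} [NormedAddCommGroup E] [NormedSpace ℝ E]

lemma exists_fun (s : ℕ → E) (r : ℕ → ℝ) :
    ∃ ψ : E →ₗ[ℝ] ℝ, LinearIndependent ℝ s → ∀ n, ψ (s n) = r n := by
  by_cases hs : LinearIndependent ℝ s
  · obtain ⟨g, hg⟩ := LinearMap.exists_extend ((Basis.span hs).constr ℝ r)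
    refine ⟨g, fun _ n => ?_⟩
    have h1 := LinearMap.congr_fun hg (Basis.span hs n)
    rw [Basis.constr_basis, LinearMap.comp_apply, Submodule.subtype_apply, Basis.span_apply] at h1
    exact h1
  · exact ⟨0, fun h => absurd h hs⟩

variable {ι : Type} (B : Basis ι ℝ E) (τ : ι → W × (ℕ → E) × (ℕ → ℝ))

open Classical in
noncomputable def proj (α : W) : E →ₗ[ℝ] E := B.constr ℝ fun b => if (τ b).1 < α then B b else 0

noncomputable def phi (b : ι) : E →ₗ[ℝ] ℝ :=
  (exists_fun (τ b).2.1 (τ b).2.2).choose ∘ₗ proj B τ (τ b).1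

noncomputable def beta : E →ₗ[ℝ] E →ₗ[ℝ] ℝ := B.constr ℝ (phi B τ)

lemma phi_zero (b c : ι) (h : (τ b).1 ≤ (τ c).1) : phi B τ b (B c) = 0 := by
  simp [phi, proj, not_lt.mpr h]

def Low (α : W) : Submodule ℝ E := Submodule.span ℝ (B '' {b | (τ b).1 < α})

lemma proj_low {α : W} {x : E} (hx : x ∈ Low B τ α) : proj B τ α x = x := by
  induction hx using Submodule.span_induction with
  | mem x hx =>
    obtain ⟨b, hb, rfl⟩ := hx
    have hb' : (τ b).1 < α := hb
    simp [proj, hb']
  | zero => simp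
  | add x y _ _ hx hy => rw [map_add, hx, hy]
  | smul a x _ hx => rw [map_smul, hx]

lemma beta_low {x : E} (c : ι) (hx : x ∈ Low B τ (τ c).1) : beta B τ x (B c) = 0 := by
  induction hx using Submodule.span_induction with
  | mem x hx =>
    obtain ⟨b, hb, rfl⟩ := hx
    have hb' : (τ b).1 < (τ c).1 := hb
    rw [beta, Basis.constr_basis]
    exact phi_zero B τ b c hb'.le
  | zero => simp
  | add x y _ _ hx hy => rw [map_add, LinearMap.add_apply, hx, hy, add_zero]
  | smul a x _ hx => rw [map_smul, LinearMap.smul_apply, hx, smul_zero]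

lemma exists_level (s : ℕ → E) : ∃ α, ∀ n, s n ∈ Low B τ α := by
  have hc : (⋃ n, (fun b => (τ b).1) '' ((B.repr (s n)).support : Set ι)).Countable :=
    countable_iUnion fun n => (Finset.countable_toSet _).image _
  obtain ⟨α, hα⟩ := exists_gt W_Iio hc
  refine ⟨α, fun n => ?_⟩
  refine Submodule.span_mono (image_mono ?_) (B.mem_span_repr_support (s n))
  intro b hb
  exact hα _ (mem_iUnion.mpr ⟨n, b, hb, rfl⟩)

noncomputable def F (x : E) : ℝ := beta B τ x x

lemma F_task (hτ : Function.Surjective τ) (s : ℕ → E) (hs : LinearIndependent ℝ s) (c : ℝ) :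
    ∃ x, F B τ x = 0 ∧ ∀ n, F B τ (s n + x) = c := by
  obtain ⟨α, hα⟩ := exists_level B τ s
  obtain ⟨b, hb⟩ := hτ (α, s, fun n => c - F B τ (s n))
  have h1 : (τ b).1 = α := by rw [hb]
  have h2 : (τ b).2.1 = s := by rw [hb]
  have h3 : (τ b).2.2 = fun n => c - F B τ (s n) := by rw [hb]
  have h0 : beta B τ (B b) (B b) = 0 := by
    rw [beta, Basis.constr_basis]; exact phi_zero B τ b b le_rfl
  refine ⟨B b, h0, fun n => ?_⟩
  have h4 : beta B τ (B b) (s n) = c - F B τ (s n) := by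
    rw [beta, Basis.constr_basis, phi, LinearMap.comp_apply, h1, proj_low B τ (hα n)]
    have := (exists_fun (τ b).2.1 (τ b).2.2).choose_spec (h2 ▸ hs) n
    rw [← congrFun h3 n, ← this, ← congrFun h2 n]
  have h5 : beta B τ (s n) (B b) = 0 := beta_low B τ b (h1 ▸ hα n)
  unfold F at h4 ⊢
  simp only [map_add, LinearMap.add_apply, h0, h4, h5]
  ring

lemma F_deg (x h : E) : ∃ a : ℕ → ℝ, ∀ t : ℚ,
    F B τ (x + (t : ℝ) • h) = ∑ k ∈ Finset.range (2 + 1), a k * (t : ℝ) ^ k := by
  refine ⟨fun k => if k = 0 then beta B τ x x else if k = 1 then beta B τ x h + beta B τ h x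
    else beta B τ h h, fun t => ?_⟩
  unfold F
  simp [Finset.sum_range_succ]
  ring

lemma bilin_tendsto (β : E →ₗ[ℝ] E →ₗ[ℝ] ℝ) (V : Submodule ℝ E) [FiniteDimensional ℝ V]
    (x : ℕ → E) (hV : ∀ n, x n ∈ V) (hx : Tendsto x atTop (𝓝 0)) :
    Tendsto (fun n => β (x n) (x n)) atTop (𝓝 0) := by
  let γ : V →ₗ[ℝ] V →L[ℝ] ℝ :=
    (LinearMap.toContinuousLinearMap (𝕜 := ℝ) (E := V) (F' := ℝ)).toLinearMap ∘ₗ
      (β.domRestrict₁₂ V V)
  have hγ : Continuous γ := γ.continuous_of_finiteDimensional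
  have hc : Continuous (fun v : V => γ v v) := hγ.clm_apply continuous_id
  have hy : Tendsto (fun n => (⟨x n, hV n⟩ : V)) atTop (𝓝 0) := tendsto_subtype_rng.mpr hx
  have := (hc.tendsto 0).comp hy
  simp only [map_zero] at this
  exact this

lemma no_blowup (hτ : Function.Surjective τ) (x : ℕ → E) (hx : Tendsto x atTop (𝓝 0)) :
    ∃ y, ¬ Tendsto (fun n => |F B τ (x n + y)|) atTop atTop := by
  obtain ⟨t, ht, hsp, hli⟩ := exists_linearIndependent ℝ (range x)
  by_cases hfin : t.Finite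
  · refine ⟨0, fun h => ?_⟩
    have : FiniteDimensional ℝ (Submodule.span ℝ t) := FiniteDimensional.span_of_finite ℝ hfin
    have h1 := (bilin_tendsto (beta B τ) (Submodule.span ℝ t) x
      (fun n => hsp ▸ Submodule.subset_span (mem_range_self n)) hx).abs
    simp only [add_zero] at h
    exact not_tendsto_nhds_of_tendsto_atTop h _ h1
  · have : Infinite t := Set.infinite_coe_iff.mpr hfin
    let e := Infinite.natEmbedding t
    have hs : LinearIndependent ℝ (fun n => (e n : E)) := hli.comp e e.injective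
    choose k hk using fun n => ht (e n).2
    have hki : Function.Injective k := by
      intro a b hab
      apply e.injective
      apply Subtype.ext
      rw [← hk, ← hk, hab]
    obtain ⟨y, _, hy⟩ := F_task B τ hτ _ hs 0
    refine ⟨y, fun h => ?_⟩
    have h2 := h.comp hki.nat_tendsto_atTop
    have h3 : ((fun n => |F B τ (x n + y)|) ∘ k) = fun _ => 0 := by
      funext n; simp only [Function.comp, hk, hy, abs_zero]
    rw [h3] at h2
    exact not_tendsto_nhds_of_tendsto_atTop h2 _ tendsto_const_nhds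

lemma not_cont [Infinite ι] (hτ : Function.Surjective τ) : ¬ Continuous (F B τ) := by
  intro hc
  let e := Infinite.natEmbedding ι
  have h0 : ∀ n, B (e n) ≠ 0 := fun n => B.ne_zero _
  let u : ℕ → ℝˣ := fun n => Units.mk0 ((1 / ((n : ℝ) + 1)) * ‖B (e n)‖⁻¹)
    (mul_ne_zero (by positivity) (inv_ne_zero (norm_ne_zero_iff.mpr (h0 n))))
  have hs := (B.linearIndependent.comp e e.injective).units_smul u
  obtain ⟨y, hy0, hy⟩ := F_task B τ hτ _ hs 1
  have ht : Tendsto (u • (B ∘ e)) atTop (𝓝 0) := by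
    rw [tendsto_zero_iff_norm_tendsto_zero]
    refine tendsto_one_div_add_atTop_nhds_zero_nat.congr fun n => ?_
    have := norm_ne_zero_iff.mpr (h0 n)
    simp only [u, Pi.smul_apply', Function.comp, Units.smul_def, Units.val_mk0, norm_smul,
      norm_mul, norm_inv, Real.norm_eq_abs, abs_norm]
    rw [abs_of_pos (by positivity)]
    field_simp
  have h2 := (hc.tendsto (0 + y)).comp (ht.add_const y)
  have h3 : (F B τ ∘ fun n => (u • (B ∘ e)) n + y) = fun _ => 1 := by
    funext n; exact hy n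
  rw [h3, zero_add, hy0] at h2
  exact one_ne_zero (tendsto_nhds_unique tendsto_const_nhds h2)

end General

abbrev E := lp (fun _ : ℕ => ℝ) ∞

lemma card_E : #E ≤ 𝔠 := by
  have : #E ≤ #(ℕ → ℝ) := mk_le_of_injective (f := fun x : E => (x : ℕ → ℝ)) fun _ _ h => lp.ext h
  simpa [mk_real] using this

lemma rank_E : 𝔠 ≤ Module.rank ℝ E := by
  let v : Icc (0 : ℝ) 1 → E := fun a => ⟨fun n => a.1 ^ n, memℓp_infty ⟨1, by
    rintro _ ⟨n, rfl⟩
    simp only [norm_pow, Real.norm_eq_abs, abs_of_nonneg a.2.1]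
    exact pow_le_one₀ a.2.1 a.2.2⟩⟩
  let L : E →ₗ[ℝ] (Multiplicative ℕ → ℝ) :=
    { toFun := fun x n => x (Multiplicative.toAdd n), map_add' := fun _ _ => rfl,
      map_smul' := fun _ _ => rfl }
  have h1 := (linearIndependent_monoidHom (Multiplicative ℕ) ℝ).comp
    (fun a : Icc (0 : ℝ) 1 => powersHom ℝ a.1)
    ((powersHom ℝ).injective.comp Subtype.val_injective)
  have h2 : LinearIndependent ℝ v := LinearIndependent.of_comp L h1
  have := h2.cardinal_le_rank
  rwa [mk_Icc_real one_pos] at this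

noncomputable def B0 := Basis.ofVectorSpace ℝ E

lemma card_idx : 𝔠 ≤ #(Basis.ofVectorSpaceIndex ℝ E) := by
  rw [B0.mk_eq_rank'']; exact rank_E

instance : Infinite (Basis.ofVectorSpaceIndex ℝ E) :=
  infinite_iff.mpr (aleph0_le_continuum.trans card_idx)

lemma exists_tau : ∃ τ : Basis.ofVectorSpaceIndex ℝ E → W × (ℕ → E) × (ℕ → ℝ),
    Function.Surjective τ := by
  have h1 : #W ≤ 𝔠 := by
    show #((aleph 1).ord.ToType) ≤ _
    rw [mk_ord_toType]; exact aleph_one_le_continuum
  have h2 : #(ℕ → E) ≤ 𝔠 := by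
    rw [mk_arrow]
    simp only [lift_uzero, mk_nat]
    calc #E ^ ℵ₀ ≤ 𝔠 ^ ℵ₀ := power_le_power_right card_E
      _ = 𝔠 := continuum_power_aleph0
  have h3 : #(W × (ℕ → E) × (ℕ → ℝ)) ≤ #(Basis.ofVectorSpaceIndex ℝ E) := by
    refine le_trans ?_ card_idx
    simp only [mk_prod, lift_id]
    calc #W * (#(ℕ → E) * #(ℕ → ℝ)) ≤ 𝔠 * (𝔠 * 𝔠) := by
          gcongr; simp [mk_real]
      _ = 𝔠 := by simp
  obtain ⟨f⟩ := h3
  have : Nonempty W := inferInstance
  exact ⟨Function.invFun f, Function.invFun_surjective f.injective⟩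

end Pool.Agent.H91.BlowUp
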