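import Mathlib

set_option autoImplicit false

open Filter Topology Finset MeasureTheory
open scoped ENNReal

namespace H91.Bratteli

/-- `F v w` = number of edges from `w` to `v`; locally finite, every vertex emits and receives. -/
def Diagram (F : ℕ → ℕ → ℕ) : Prop :=
  ∀ v, {w | F v w ≠ 0}.Finite ∧ {w | F w v ≠ 0}.Finite ∧ (∃ w, F v w ≠ 0) ∧ ∃ w, F w v ≠ 0

/-- an edge is (source, range, index) with index below the number of edges. -/
def IsEdge (F : ℕ → ℕ → ℕ) (e : ℕ × ℕ × ℕ) : Prop := e.2.2 < F e.2.1 e.1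

/-- the path space of the stationary diagram. -/
abbrev Path (F : ℕ → ℕ → ℕ) :=
  {x : ℕ → ℕ × ℕ × ℕ // ∀ i, IsEdge F (x i) ∧ (x i).2.1 = (x (i + 1)).1}

/-- `e 0, …, e n` is a finite path. -/
def FinPath (F : ℕ → ℕ → ℕ) (n : ℕ) (e : ℕ → ℕ × ℕ × ℕ) : Prop :=
  (∀ i ≤ n, IsEdge F (e i)) ∧ ∀ i < n, (e i).2.1 = (e (i + 1)).1

/-- cylinder of the finite path `e 0, …, e n`. -/
def cyl (F : ℕ → ℕ → ℕ) (n : ℕ) (e : ℕ → ℕ × ℕ × ℕ) : Set (Path F) := {x | ∀ i ≤ n, x.1 i = e i}

/-- tail-invariant measure. -/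
def TailInv (F : ℕ → ℕ → ℕ) (μ : Measure (Path F)) : Prop :=
  μ ≠ 0 ∧ ∀ n e e', FinPath F n e → FinPath F n e' → (e n).2.1 = (e' n).2.1 →
    μ (cyl F n e) = μ (cyl F n e')

/-- entries of the matrix powers `F^n`. -/
noncomputable def pw (F : ℕ → ℕ → ℕ) : ℕ → ℕ → ℕ → ℝ≥0∞
  | 0, i, j => if i = j then 1 else 0
  | n + 1, i, j => ∑' t, F i t * pw F n t j

/-- irreducible and aperiodic. -/
def AperIrr (F : ℕ → ℕ → ℕ) : Prop :=
  (∀ i j, ∃ n > 0, 0 < pw F n i j) ∧ ∀ i d : ℕ, (∀ n > 0, 0 < pw F n i i → d ∣ n) → d = 1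

/-- the Perron eigenvalue is infinite. -/
def InfPerron (F : ℕ → ℕ → ℕ) : Prop :=
  ∀ i j, Tendsto (fun n : ℕ => pw F n i j ^ (n : ℝ)⁻¹) atTop (𝓝 ⊤)

/-- the tridiagonal matrix of Q2 (vertex `k` stands for `k + 1`). -/
def tri (v w : ℕ) : ℕ := if v = w then v + 2 else if v = w + 1 ∨ w = v + 1 then 1 else 0

def ex (v w : ℕ) : ℕ := if w % 2 = 0 then (if v = w + 2 ∨ v = w + 1 then 1 else 0)
  else if v = w then w else if v + 2 = w ∨ (w = 1 ∧ v = 0) then 1 else 0

variable {F : ℕ → ℕ → ℕ}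

lemma meas (n : ℕ) (e : ℕ → ℕ × ℕ × ℕ) : MeasurableSet (cyl F n e) := by
  simp only [cyl, Set.setOf_forall]
  exact MeasurableSet.iInter fun i => MeasurableSet.iInter fun _ =>
    measurableSet_eq_fun ((measurable_pi_apply i).comp measurable_subtype_coe) measurable_const

lemma pw_mul (a b i u j : ℕ) : pw F a i u * pw F b u j ≤ pw F (a + b) i j := by
  induction a generalizing i with
  | zero => rw [pw, zero_add]; split_ifs with h <;> simp [*]
  | succ a ih =>
    rw [Nat.add_right_comm, pw, pw, ← ENNReal.tsum_mul_right]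
    exact ENNReal.tsum_le_tsum fun t => by rw [mul_assoc]; gcongr; exact ih t

lemma pw_one (i j : ℕ) : (F i j : ℝ≥0∞) ≤ pw F 1 i j := by
  rw [pw]
  refine le_trans ?_ (ENNReal.le_tsum j)
  simp [pw]

def R (i j : ℕ) : Prop := ∃ n, 1 ≤ pw ex n i j

lemma R.tr {i u j : ℕ} (h : R i u) (h' : R u j) : R i j := by
  obtain ⟨a, ha⟩ := h
  obtain ⟨b, hb⟩ := h'
  exact ⟨a + b, le_trans (one_le_mul ha hb) (pw_mul a b i u j)⟩

lemma R.ed {i j : ℕ} (h : ex i j = 1) : R i j := ⟨1, le_trans (by simp [h]) (pw_one i j)⟩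

lemma Rall (i j : ℕ) : R i j := by
  have a : ∀ k, R 0 (2 * k + 1) := fun k => by
    induction k with
    | zero => exact .ed rfl
    | succ k ih => exact ih.tr (.ed (by unfold ex; split_ifs <;> omega))
  have b : ∀ k, R (2 * k) 0 := fun k => by
    induction k with
    | zero => exact ⟨0, by simp [pw]⟩
    | succ k ih => exact R.tr (.ed (by unfold ex; split_ifs <;> omega)) ih
  have c : ∀ k, R (2 * k + 1) (2 * k) := fun k => .ed (by unfold ex; split_ifs <;> omega)
  refine R.tr (u := 0) ?_ ?_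
  · obtain ⟨k, rfl | rfl⟩ := Nat.even_or_odd' i
    exacts [b k, (c k).tr (b k)]
  · obtain ⟨k, rfl | rfl⟩ := Nat.even_or_odd' j
    exacts [(a k).tr (c k), a k]

lemma low (i j k : ℕ) : ∃ c, ∀ m, ((2 * k + 1 : ℕ) : ℝ≥0∞) ^ m ≤ pw ex (c + m) i j := by
  obtain ⟨a, ha⟩ := Rall i (2 * k + 1)
  obtain ⟨b, hb⟩ := Rall (2 * k + 1) j
  have h : ∀ m, ((2 * k + 1 : ℕ) : ℝ≥0∞) ^ m ≤ pw ex m (2 * k + 1) (2 * k + 1) := fun m => by
    induction m with
    | zero => simp [pw]
    | succ m ih =>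
      refine le_trans ?_ (pw_mul m 1 _ (2 * k + 1) _)
      rw [pow_succ]
      refine mul_le_mul' ih (le_trans (le_of_eq ?_) (pw_one _ _))
      congr 1; unfold ex; split_ifs <;> omega
  refine ⟨a + b, fun m => ?_⟩
  rw [Nat.add_right_comm]
  refine le_trans ?_ (pw_mul _ b i (2 * k + 1) j)
  refine le_trans ?_ (le_mul_of_one_le_right' hb)
  exact le_trans ((h m).trans (le_mul_of_one_le_left' ha)) (pw_mul a m i _ _)

lemma uniq (n : ℕ) (e : ℕ → ℕ × ℕ × ℕ) (h : FinPath ex n e) (h' : (e n).2.1 = 2 * n + 2) :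
    ∀ i ≤ n, e i = (2 * i, 2 * i + 2, 0) := by
  have key : ∀ n, IsEdge ex (e n) → (e n).2.1 = 2 * n + 2 → e n = (2 * n, 2 * n + 2, 0) := by
    intro n h1 h2
    unfold IsEdge ex at h1
    ext
    · show (e n).1 = 2 * n
      split_ifs at h1 <;> omega
    · exact h2
    · show (e n).2.2 = 0
      split_ifs at h1 <;> omega
  induction n with
  | zero => intro i hi; obtain rfl : i = 0 := by omega
            exact key 0 (h.1 0 le_rfl) h'
  | succ n ih =>
    have k := key _ (h.1 _ le_rfl) h'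
    intro i hi
    rcases hi.eq_or_lt with rfl | hi
    · exact k
    · exact ih ⟨fun i hi => h.1 i (by omega), fun i hi => h.2 i (by omega)⟩
        (by rw [h.2 n (by omega), k]; ring) i (by omega)

lemma q1 : Diagram ex ∧ AperIrr ex ∧ InfPerron ex ∧
    ∃ μ : Measure (Path ex), IsProbabilityMeasure μ ∧ TailInv ex μ := by
  have pos : ∀ i j, ∃ c, ∀ m, 0 < pw ex (c + m) i j := fun i j => by
    obtain ⟨c, hc⟩ := low i j 0
    exact ⟨c, fun m => lt_of_lt_of_le (by simp) (hc m)⟩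
  refine ⟨fun v => ⟨(Set.finite_le_nat (v + 2)).subset fun w hw => ?_,
    (Set.finite_le_nat (v + 2)).subset fun w hw => ?_, ?_, ?_⟩, ⟨fun i j => ?_, fun i d h => ?_⟩,
    fun i j => ?_, ?_⟩
  · simp only [Set.mem_setOf_eq, ex] at *; split_ifs at hw <;> omega
  · simp only [Set.mem_setOf_eq, ex] at *; split_ifs at hw <;> omega
  · exact ⟨if v % 2 = 1 then v else if v = 0 then 1 else v - 2, by
      unfold ex; split_ifs <;> first | omega | simp_all⟩
  · exact ⟨if v % 2 = 1 then v else v + 1, by unfold ex; split_ifs <;> omega⟩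
  · obtain ⟨c, hc⟩ := pos i j
    exact ⟨c + 1, by omega, hc 1⟩
  · obtain ⟨c, hc⟩ := pos i i
    exact Nat.dvd_one.mp ((Nat.dvd_add_right (h _ (by omega) (hc 1))).mp (h _ (by omega) (hc 2)))
  · refine ENNReal.tendsto_nhds_top_iff_nat.mpr fun K => ?_
    obtain ⟨c, hc⟩ := low i j ((K + 1) ^ 2)
    filter_upwards [eventually_ge_atTop (2 * c + 1)] with n hn
    obtain ⟨m, rfl⟩ : ∃ m, n = c + m := ⟨n - c, by omega⟩
    have h1 : (K + 1) ^ (c + m) ≤ (2 * (K + 1) ^ 2 + 1) ^ m :=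
      calc (K + 1) ^ (c + m) ≤ (K + 1) ^ (2 * m) := Nat.pow_le_pow_right (by omega) (by omega)
        _ ≤ _ := by rw [pow_mul]; exact Nat.pow_le_pow_left (by omega) _
    have h2 : ((K + 1 : ℕ) : ℝ≥0∞) ^ (c + m) ≤ pw ex (c + m) i j :=
      le_trans (by exact_mod_cast h1) (hc m)
    have h3 := ENNReal.rpow_le_rpow h2 (z := ((c + m : ℕ) : ℝ)⁻¹) (by positivity)
    rw [ENNReal.pow_rpow_inv_natCast (by omega)] at h3
    exact lt_of_lt_of_le (by exact_mod_cast Nat.lt_succ_self K) h3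
  · let x : Path ex := ⟨fun i => (2 * i, 2 * i + 2, 0), fun i =>
      ⟨by unfold IsEdge ex; simp, by simp; ring⟩⟩
    have H : ∀ n e e', FinPath ex n e' → (e n).2.1 = (e' n).2.1 → x ∈ cyl ex n e →
        x ∈ cyl ex n e' := fun n e e' h1 h2 h3 i hi =>
      (uniq n e' h1 (by rw [← h2, ← h3 n le_rfl]) i hi).symm
    refine ⟨Measure.dirac x, inferInstance, IsProbabilityMeasure.ne_zero _,
      fun n e e' h1 h2 h3 => ?_⟩
    classical
    rw [Measure.dirac_apply' _ (meas _ _), Measure.dirac_apply' _ (meas _ _), Set.indicator_apply,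
      Set.indicator_apply, if_congr ⟨H n e e' h2 h3, H n e' e h1 h3.symm⟩ rfl rfl]

lemma cm (d : ℕ → ℕ → ℝ) (h0 : ∀ j k, 0 ≤ d j k) (hd : ∀ j k, d (j + 1) k = d j k - d j (k + 1))
    (M : ℝ) (hM : ∀ n c : ℕ, d 0 (c + n) * (c + 2) ^ n ≤ M) : d 0 1 = 0 := by
  have id : ∀ N m, d 0 m = ∑ k ∈ range (N + 1), (N.choose k : ℝ) * d (N - k) (m + k) := by
    intro N m
    induction N with
    | zero => simp
    | succ N ih =>
      rw [sum_choose_succ_mul (fun k j => d j (m + k)), ← sum_add_distrib, ih]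
      refine sum_congr rfl fun k hk => ?_
      rw [show N + 1 - k = N - k + 1 by have := mem_range.mp hk; omega, hd, add_assoc]; ring
  have an : Antitone (d 0) := antitone_nat_of_succ_le fun k => by linarith [h0 1 k, hd 0 k]
  have le0 : ∀ j k, d j k ≤ d 0 k := fun j k => by
    induction j with
    | zero => rfl
    | succ j ih => linarith [hd j k, h0 j (k + 1)]
  have b1 : ∀ L t : ℕ, 0 < L → 0 < t → d 0 1 ≤ d 0 0 / L + 2 ^ (L * t) * d 0 t := by
    intro L t hL ht
    obtain ⟨N, hN⟩ : ∃ N, L * t = N + 1 := ⟨L * t - 1, by have := Nat.mul_pos hL ht; omega⟩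
    have hL' : (0 : ℝ) < L := by exact_mod_cast hL
    have e0 := id (N + 1) 0
    rw [sum_range_succ'] at e0
    have e1 : ∑ k ∈ range (N + 1), (N.choose k : ℝ) * d (N - k) (1 + k) ≤ ∑ k ∈ range (N + 1),
        (((N + 1).choose (k + 1) : ℝ) * d (N + 1 - (k + 1)) (0 + (k + 1)) / L +
          (N.choose k : ℝ) * d 0 t) := sum_le_sum fun k _ => by
      rw [Nat.add_sub_add_right, zero_add, add_comm 1 k]
      have p := h0 (N - k) (k + 1)
      by_cases h : t ≤ k + 1
      · have := mul_le_mul_of_nonneg_left ((le0 (N - k) (k + 1)).trans (an h))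
          (Nat.cast_nonneg (α := ℝ) (N.choose k))
        have : 0 ≤ ((N + 1).choose (k + 1) : ℝ) * d (N - k) (k + 1) / L := by positivity
        linarith
      · have c : N.choose k * L ≤ (N + 1).choose (k + 1) := by
          have e := Nat.add_one_mul_choose_eq N k
          rw [← hN] at e
          refine Nat.le_of_mul_le_mul_right (c := k + 1) ?_ (by omega)
          rw [← hN, ← e]
          nlinarith [Nat.mul_le_mul_left (N.choose k * L) (not_le.mp h).le]
        have c' : (N.choose k : ℝ) * L ≤ (N + 1).choose (k + 1) := by exact_mod_cast c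
        have : (N.choose k : ℝ) * d (N - k) (k + 1) ≤
            ((N + 1).choose (k + 1) : ℝ) * d (N - k) (k + 1) / L := by
          rw [le_div_iff₀ hL']; nlinarith
        have := mul_nonneg (Nat.cast_nonneg (α := ℝ) (N.choose k)) (h0 0 t)
        linarith
    rw [sum_add_distrib, ← sum_div, ← sum_mul, ← Nat.cast_sum, Nat.sum_range_choose, ← id] at e1
    refine e1.trans (add_le_add (div_le_div_of_nonneg_right ?_ hL'.le)
      (mul_le_mul_of_nonneg_right ?_ (h0 _ _)))
    · have := mul_nonneg (Nat.cast_nonneg (α := ℝ) ((N + 1).choose 0)) (h0 (N + 1 - 0) (0 + 0))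
      linarith
    · rw [hN]; push_cast; exact pow_le_pow_right₀ one_le_two (by omega)
  have b2 : ∀ L : ℕ, 0 < L → d 0 1 ≤ d 0 0 / L := fun L hL => by
    set c := 2 ^ (L + 1) with hc
    have t := (tendsto_pow_atTop_nhds_zero_of_lt_one (r := (1 / 2 : ℝ)) (by norm_num)
      (by norm_num)).const_mul (2 ^ (L * c) * M) |>.const_add (d 0 0 / L)
    rw [mul_zero, add_zero] at t
    refine ge_of_tendsto' t fun n => (b1 L (c + n) hL (by positivity)).trans (add_le_add le_rfl ?_)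
    have h1 := hM n c
    have h2 : (2 : ℝ) ^ (L * n) * 2 ^ n ≤ (c + 2) ^ n := by
      rw [pow_mul, ← mul_pow, ← pow_succ]
      exact pow_le_pow_left₀ (by positivity) (by rw [hc]; push_cast; linarith) _
    rw [mul_add, pow_add, mul_assoc, mul_assoc, one_div, inv_pow, ← div_eq_mul_inv]
    refine mul_le_mul_of_nonneg_left ((le_div_iff₀ (by positivity)).mpr ?_) (by positivity)
    nlinarith [h0 0 (c + n)]
  refine le_antisymm (ge_of_tendsto (tendsto_const_div_atTop_nhds_zero_nat (d 0 0)) ?_) (h0 _ _)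
  filter_upwards [eventually_gt_atTop 0] using b2

def Sol (p : ℕ → ℕ → ℝ) : Prop :=
  (∀ n v, 0 ≤ p n v) ∧ ∀ n v, p n v = ∑ r ∈ range (v + 2), (tri r v : ℝ) * p (n + 1) r

lemma Sol.ge {p : ℕ → ℕ → ℝ} (h : Sol p) (n v r : ℕ) (hr : r < v + 2) :
    (tri r v : ℝ) * p (n + 1) r ≤ p n v := by
  rw [h.2 n v]
  exact single_le_sum (f := fun r => (tri r v : ℝ) * p (n + 1) r)
    (fun i _ => mul_nonneg (Nat.cast_nonneg _) (h.1 _ _)) (mem_range.mpr hr)

lemma Sol.a {p : ℕ → ℕ → ℝ} (h : Sol p) (n v : ℕ) : (v + 2) * p (n + 1) v ≤ p n v := by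
  simpa [tri] using h.ge n v v (by omega)

lemma Sol.b {p : ℕ → ℕ → ℝ} (h : Sol p) (n v : ℕ) : p (n + 1) v ≤ p n (v + 1) := by
  simpa [tri] using h.ge n (v + 1) v (by omega)

lemma Sol.zero {p : ℕ → ℕ → ℝ} (h : Sol p) {M : ℝ} (hM : ∀ v, p 0 v ≤ M) (v : ℕ) : p 0 v = 0 := by
  let d : ℕ → ℕ → ℕ → ℝ := fun j => Nat.rec p (fun _ q n v => q n v - q (n + 1) v) j
  have hd : ∀ j, Sol (d j) := fun j => by
    induction j with
    | zero => exact h
    | succ j ih =>
      refine ⟨fun n v => sub_nonneg.mpr ?_, fun n v => ?_⟩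
      · nlinarith [ih.a n v, ih.1 (n + 1) v, (Nat.cast_nonneg v : (0 : ℝ) ≤ v)]
      · show d j n v - d j (n + 1) v = ∑ r ∈ range (v + 2), (tri r v : ℝ) *
          (d j (n + 1) r - d j (n + 1 + 1) r)
        rw [ih.2 n v, ih.2 (n + 1) v, ← sum_sub_distrib]
        exact sum_congr rfl fun _ _ => by ring
  have h1 : ∀ v, p 1 v = 0 := fun v => cm (fun j k => d j k v) (fun j k => (hd j).1 k v)
    (fun _ _ => rfl) M fun n c => by
      have e1 : ∀ c v : ℕ, p (c + n) v ≤ p n (v + c) := fun c => by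
        induction c with
        | zero => simp
        | succ c ih =>
          intro v
          rw [Nat.add_right_comm, add_comm c 1, ← add_assoc]
          exact (h.b _ v).trans (ih _)
      have e2 : ∀ n w, p n w * (w + 2) ^ n ≤ M := fun n w => by
        induction n with
        | zero => simpa using hM w
        | succ n ih =>
          have := mul_le_mul_of_nonneg_right (h.a n w) (by positivity : (0 : ℝ) ≤ (w + 2) ^ n)
          rw [pow_succ]; linarith
      refine le_trans (mul_le_mul (e1 c v) (pow_le_pow_left₀ (by positivity) ?_ _) (by positivity)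
        (h.1 _ _)) (e2 n (v + c))
      push_cast; linarith [(Nat.cast_nonneg v : (0 : ℝ) ≤ v)]
  rw [h.2]; simp [h1]

lemma q2 (μ : Measure (Path tri)) [IsFiniteMeasure μ] : ¬ TailInv tri μ := by
  rintro ⟨h0, h⟩
  let l : ℕ → ℕ → ℕ × ℕ × ℕ := fun v _ => (v, v, 0)
  have hl : ∀ n v, FinPath tri n (l v) := fun n v => ⟨fun _ _ => by simp [IsEdge, tri, l], fun _ _ => rfl⟩
  have rc : ∀ n v, μ (cyl tri n (l v)) =
      ∑ r ∈ range (v + 2), (tri r v : ℝ≥0∞) * μ (cyl tri (n + 1) (l r)) := fun n v => by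
    let e : ℕ × ℕ → ℕ → ℕ × ℕ × ℕ := fun g i => if i ≤ n then (v, v, 0) else (v, g)
    have e1 : ∀ g, e g (n + 1) = (v, g) := fun g => if_neg (by omega)
    have u : cyl tri n (l v) = ⋃ g, cyl tri (n + 1) (e g) := by
      ext x
      refine ⟨fun hx => Set.mem_iUnion.mpr ⟨(x.1 (n + 1)).2, fun i hi => ?_⟩, fun hx i hi => ?_⟩
      · rcases hi.eq_or_lt with rfl | hi
        · rw [e1]; exact Prod.ext (by rw [← (x.2 n).2, hx n le_rfl]) rfl
        · exact (hx i (by omega)).trans (if_pos (by omega)).symm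
      · obtain ⟨g, hg⟩ := Set.mem_iUnion.mp hx
        exact (hg i (by omega)).trans (if_pos hi)
    rw [u, measure_iUnion (fun g g' hg => Set.disjoint_left.mpr fun x h1 h2 => hg (by
      have := (h1 _ le_rfl).symm.trans (h2 _ le_rfl)
      rw [e1, e1] at this
      exact (Prod.ext_iff.mp this).2)) fun _ => meas _ _, ENNReal.tsum_prod']
    have z : ∀ r k, ¬ k < tri r v → μ (cyl tri (n + 1) (e (r, k))) = 0 := fun r k hk => by
      convert measure_empty (μ := μ)
      refine Set.eq_empty_of_forall_notMem fun x hx => hk ?_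
      have := (x.2 (n + 1)).1
      rwa [hx _ le_rfl, e1] at this
    have w : ∀ r, ∑' k, μ (cyl tri (n + 1) (e (r, k))) = tri r v * μ (cyl tri (n + 1) (l r)) := by
      intro r
      rw [tsum_eq_sum (s := range (tri r v)) fun k hk => z r k (by simpa using hk),
        sum_congr rfl fun k hk => h (n + 1) _ (l r) ?_ (hl _ _) (by rw [e1]), sum_const,
        card_range, nsmul_eq_mul]
      refine ⟨fun i hi => ?_, fun i hi => ?_⟩
      · rcases hi.eq_or_lt with rfl | hi
        · rw [e1]; exact mem_range.mp hk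
        · simp [e, Nat.lt_succ_iff.mp hi, IsEdge, tri]
      · simp only [e, Nat.lt_succ_iff.mp hi, if_true]; split_ifs <;> rfl
    simp only [w]
    refine tsum_eq_sum fun r hr => ?_
    rw [show tri r v = 0 by simp only [mem_range] at hr; unfold tri; split_ifs <;> omega]
    simp
  have s : Sol fun n v => μ.real (cyl tri n (l v)) := ⟨fun _ _ => measureReal_nonneg, fun n v => by
    simp only [Measure.real]
    rw [rc, ENNReal.toReal_sum fun _ _ => by finiteness]
    simp⟩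
  have z := s.zero (M := μ.real Set.univ) fun v => measureReal_mono (Set.subset_univ _)
  refine h0 (Measure.measure_univ_eq_zero.mp (measure_mono_null
    (t := ⋃ g : {g // IsEdge tri g}, cyl tri 0 fun _ => g.1) (fun x _ => Set.mem_iUnion.mpr
      ⟨⟨x.1 0, (x.2 0).1⟩, fun i hi => by rw [Nat.le_zero.mp hi]⟩) (measure_iUnion_null fun g => ?_)))
  rw [h 0 _ (l g.1.2.1) ⟨fun _ _ => g.2, fun _ hi => absurd hi (by omega)⟩ (hl _ _) rfl]
  exact (measureReal_eq_zero_iff).mp (z _)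

theorem main : (∃ F : ℕ → ℕ → ℕ, Diagram F ∧ AperIrr F ∧ InfPerron F ∧
      ∃ μ : Measure (Path F), IsProbabilityMeasure μ ∧ TailInv F μ) ∧
    ∀ μ : Measure (Path tri), IsFiniteMeasure μ → ¬ TailInv tri μ :=
  ⟨⟨ex, q1⟩, fun μ _ => q2 μ⟩

end H91.Bratteli
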