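import Mathlib

set_option autoImplicit false

namespace Pool.Agent.H91.C0

open Filter Topology Set

abbrev c0 := ZeroAtInftyContinuousMap ℕ ℝ

lemma apply_le (x : c0) (n : ℕ) : |x n| ≤ ‖x‖ := x.toBCF.norm_coe_le_norm n

lemma norm_le (x : c0) {C : ℝ} (hC : 0 ≤ C) (h : ∀ n, |x n| ≤ C) : ‖x‖ ≤ C :=
  (BoundedContinuousFunction.norm_le (f := x.toBCF) hC).mpr h

lemma tendsto_zero (x : c0) : Tendsto x atTop (𝓝 0) := by
  have := x.zero_at_infty'
  rwa [cocompact_eq_cofinite, Nat.cofinite_eq_atTop] at this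

def mk (f : ℕ → ℝ) (h : Tendsto f atTop (𝓝 0)) : c0 :=
  ⟨⟨f, continuous_of_discreteTopology⟩, by rwa [cocompact_eq_cofinite, Nat.cofinite_eq_atTop]⟩

@[simp] lemma mk_apply (f : ℕ → ℝ) (h : Tendsto f atTop (𝓝 0)) (n : ℕ) : mk f h n = f n := rfl

lemma tendsto_of_finite (f : ℕ → ℝ) (h : (Function.support f).Finite) :
    Tendsto f atTop (𝓝 0) := by
  rw [← Nat.cofinite_eq_atTop]
  exact tendsto_cofinite_pure_iff.mpr h |>.mono_right (pure_le_nhds 0)

noncomputable def ev (n : ℕ) : c0 →L[ℝ] ℝ :=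
  LinearMap.mkContinuous
    { toFun := fun x => x n, map_add' := fun _ _ => rfl, map_smul' := fun _ _ => rfl } 1
    (fun x => by rw [one_mul]; exact apply_le x n)

@[simp] lemma ev_apply (n : ℕ) (x : c0) : ev n x = x n := rfl

lemma sum_apply {ι : Type} (s : Finset ι) (x : ι → c0) (n : ℕ) :
    (∑ i ∈ s, x i) n = ∑ i ∈ s, x i n := by
  rw [← ev_apply, map_sum]; rfl

/-- unit vector -/
def e (i : ℕ) : c0 := mk (fun n => if n = i then 1 else 0) (tendsto_of_finite _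
  ((Set.finite_singleton i).subset fun n hn => by
    by_contra h
    exact hn (if_neg h)))

lemma e_apply (i n : ℕ) : e i n = if n = i then 1 else 0 := rfl

lemma weak_tendsto {E ι : Type} [NormedAddCommGroup E] [NormedSpace ℝ E] {l : Filter ι}
    (f : ι → E) (x : E) (h : ∀ φ : E →L[ℝ] ℝ, Tendsto (fun i => φ (f i)) l (𝓝 (φ x))) :
    Tendsto (fun i => toWeakSpace ℝ E (f i)) l (𝓝 (toWeakSpace ℝ E x)) := by
  have : IsInducing (fun (x : WeakSpace ℝ E) (φ : E →L[ℝ] ℝ) => φ ((toWeakSpace ℝ E).symm x)) :=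
    ⟨rfl⟩
  rw [this.tendsto_nhds_iff, tendsto_pi_nhds]
  exact h

end Pool.Agent.H91.C0
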