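import Mathlib

set_option autoImplicit false

open Complex Filter Topology

namespace H91.CInterp

section defs
variable {A₀ A₁ B₀ B₁ : Type} [NormedAddCommGroup A₀] [NormedSpace ℂ A₀] [NormedAddCommGroup A₁]
  [NormedSpace ℂ A₁] [NormedAddCommGroup B₀] [NormedSpace ℂ B₀] [NormedAddCommGroup B₁]
  [NormedSpace ℂ B₁]

/-- `a = F(θ)` for some `F` in Calderón's space of the couple `A₁ ⊂ A₀` (inclusion `ι`) whose
norm `max (sup ‖F(it)‖₀, sup ‖F(1+it)‖₁)` is at most `r`. -/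
def Rep (ι : A₁ →L[ℂ] A₀) (θ : ℝ) (a : A₀) (r : ℝ) : Prop :=
  ∃ (F : ℂ → A₀) (G : ℝ → A₁), DiffContOnCl ℂ F (re ⁻¹' Set.Ioo 0 1) ∧
    (∃ M, ∀ z : ℂ, 0 ≤ z.re → z.re ≤ 1 → ‖F z‖ ≤ M) ∧ Continuous G ∧
    (∀ t : ℝ, F (1 + t * I) = ι (G t)) ∧ Tendsto (fun t : ℝ => F (t * I)) (cocompact ℝ) (𝓝 0) ∧
    Tendsto G (cocompact ℝ) (𝓝 0) ∧ F θ = a ∧ (∀ t : ℝ, ‖F (t * I)‖ ≤ r) ∧ ∀ t, ‖G t‖ ≤ r

/-- Membership in the complex interpolation space `[A₀, A₁]_θ`. -/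
def Mem (ι : A₁ →L[ℂ] A₀) (θ : ℝ) (a : A₀) : Prop := ∃ r, Rep ι θ a r

/-- The norm of `[A₀, A₁]_θ`. -/
noncomputable def inorm (ι : A₁ →L[ℂ] A₀) (θ : ℝ) (a : A₀) : ℝ := sInf {r | Rep ι θ a r}

/-- Conditions 1-3 on `U`. -/
def Hyp (ι : A₁ →L[ℂ] A₀) (κ : B₁ →L[ℂ] B₀) (U : A₀ → B₀) (M₀ M₁ : ℝ) : Prop :=
  (∀ a b, ‖U a - U b‖ ≤ M₀ * ‖a - b‖) ∧ (∀ a : A₁, ∃ b : B₁, U (ι a) = κ b ∧ ‖b‖ ≤ M₁ * ‖a‖) ∧
    ∀ a, ∃ L : A₀ →L[ℝ] B₀, ∀ h,
      Tendsto (fun t : ℝ => t⁻¹ • (U (a + t • h) - U a)) (𝓝[≠] 0) (𝓝 (L h))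

end defs

/-- `ℂ²` with the `ℓ¹` norm. -/
abbrev L1 := WithLp 1 (ℂ × ℂ)

noncomputable def dg (a b : ℂ) : ℂ × ℂ →L[ℂ] ℂ × ℂ :=
  (a • ContinuousLinearMap.fst ℂ ℂ ℂ).prod (b • ContinuousLinearMap.snd ℂ ℂ ℂ)

noncomputable def kB : L1 →L[ℂ] L1 :=
  (WithLp.prodContinuousLinearEquiv 1 ℂ ℂ ℂ).symm.toContinuousLinearMap ∘L dg (36 / 49) (144 / 49) ∘L
    (WithLp.prodContinuousLinearEquiv 1 ℂ ℂ ℂ).toContinuousLinearMap

noncomputable def UU : ℂ × ℂ →L[ℝ] L1 :=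
  (WithLp.prodContinuousLinearEquiv 1 ℝ ℂ ℂ).symm.toContinuousLinearMap ∘L
    (ofRealCLM ∘L reCLM ∘L (ContinuousLinearMap.fst ℝ ℂ ℂ + ContinuousLinearMap.snd ℝ ℂ ℂ)).prod
    (ofRealCLM ∘L reCLM ∘L (ContinuousLinearMap.fst ℝ ℂ ℂ - ContinuousLinearMap.snd ℝ ℂ ℂ))

lemma UU_eq (a : ℂ × ℂ) :
    UU a = WithLp.toLp 1 (((a.1.re + a.2.re : ℝ) : ℂ), ((a.1.re - a.2.re : ℝ) : ℂ)) := by
  simp [UU]

lemma kB_eq (b : L1) : kB b = WithLp.toLp 1 (36 / 49 * b.fst, 144 / 49 * b.snd) := rfl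

lemma hyp : Hyp (dg 1 (1 / 4)) kB UU 2 2 := by
  have h1 : ∀ a : ℂ × ℂ, |a.1.re| ≤ ‖a‖ ∧ |a.2.re| ≤ ‖a‖ := fun a =>
    ⟨(abs_re_le_norm _).trans (norm_fst_le a), (abs_re_le_norm _).trans (norm_snd_le a)⟩
  refine ⟨fun a b => ?_, fun a => ⟨WithLp.toLp 1 (((49 / 36 * (a.1.re + a.2.re / 4) : ℝ) : ℂ),
    ((49 / 144 * (a.1.re - a.2.re / 4) : ℝ) : ℂ)), ?_, ?_⟩, fun a => ⟨UU, fun h => ?_⟩⟩
  · rw [← map_sub, UU_eq, WithLp.prod_norm_eq_of_L1]
    obtain ⟨h2, h3⟩ := h1 (a - b)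
    simp only [WithLp.toLp_fst, WithLp.toLp_snd, norm_real, Real.norm_eq_abs]
    rw [abs_le] at h2 h3
    rcases abs_cases ((a - b).1.re + (a - b).2.re) with h | h <;>
      rcases abs_cases ((a - b).1.re - (a - b).2.re) with h' | h' <;> linarith [h.1, h'.1]
  · rw [UU_eq, kB_eq]
    congr 1
    simp only [WithLp.toLp_fst, WithLp.toLp_snd]
    ext <;> simp [dg] <;> ring
  · rw [WithLp.prod_norm_eq_of_L1]
    obtain ⟨h2, h3⟩ := h1 a
    simp only [WithLp.toLp_fst, WithLp.toLp_snd, norm_real, Real.norm_eq_abs]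
    rw [abs_le] at h2 h3
    rcases abs_cases (49 / 36 * (a.1.re + a.2.re / 4)) with h | h <;>
      rcases abs_cases (49 / 144 * (a.1.re - a.2.re / 4)) with h' | h' <;>
      linarith [h.1, h'.1, norm_nonneg a]
  · refine tendsto_const_nhds.congr' ?_
    filter_upwards [self_mem_nhdsWithin] with t ht
    rw [map_add, add_sub_cancel_left, map_smul, smul_smul, inv_mul_cancel₀ ht, one_smul]

lemma nexp (c : ℝ) (hc : 0 < c) (z : ℂ) :
    ‖exp (2 * z * Real.log c)‖ = Real.exp (2 * z.re * Real.log c) := by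
  rw [norm_exp]; congr 1
  generalize Real.log c = L
  simp

lemma exp2 (c : ℝ) (hc : 0 < c) : Real.exp (2 * 1 * Real.log c) = c ^ 2 := by
  rw [mul_one, show (2 : ℝ) = (2 : ℕ) by norm_num, Real.exp_nat_mul, Real.exp_log hc]

lemma exph (c : ℝ) (hc : 0 < c) : exp (2 * ((1 / 2 : ℝ) : ℂ) * Real.log c) = c := by
  rw [show (2 * ((1 / 2 : ℝ) : ℂ)) = 1 by push_cast; ring, one_mul, ← ofReal_exp, Real.exp_log hc]

lemma lower {r : ℝ} (h : Rep kB (1 / 2) (UU (1, 1 / 2)) r) : 49 / 24 ≤ r := by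
  obtain ⟨F, G, hF, ⟨M, hM⟩, -, hG, -, -, hθ, h0, h1⟩ := h
  have hr : 0 ≤ r := (norm_nonneg _).trans (h1 0)
  let p : L1 →L[ℂ] ℂ := ContinuousLinearMap.fst ℂ ℂ ℂ ∘L
    (WithLp.prodContinuousLinearEquiv 1 ℂ ℂ ℂ).toContinuousLinearMap
  let q : L1 →L[ℂ] ℂ := ContinuousLinearMap.snd ℂ ℂ ℂ ∘L
    (WithLp.prodContinuousLinearEquiv 1 ℂ ℂ ℂ).toContinuousLinearMap
  let g : ℂ → ℂ := fun z => exp (2 * z * Real.log (7 / 6)) • p (F z) +
    exp (2 * z * Real.log (7 / 12)) • q (F z)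
  have hg : ∀ z, ‖g z‖ ≤ Real.exp (2 * z.re * Real.log (7 / 6)) * ‖(F z).fst‖ +
      Real.exp (2 * z.re * Real.log (7 / 12)) * ‖(F z).snd‖ := by
    intro z
    refine (norm_add_le _ _).trans (le_of_eq ?_)
    rw [norm_smul, norm_smul, nexp _ (by norm_num), nexp _ (by norm_num)]; rfl
  have hd : DiffContOnCl ℂ g (HadamardThreeLines.verticalStrip 0 1) :=
    ((Differentiable.diffContOnCl (by fun_prop)).smul (p.differentiable.comp_diffContOnCl hF)).add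
      ((Differentiable.diffContOnCl (by fun_prop)).smul (q.differentiable.comp_diffContOnCl hF))
  have key := HadamardThreeLines.norm_le_interp_of_mem_verticalClosedStrip₀₁' g
    (z := ((1 / 2 : ℝ) : ℂ)) (a := r) (b := r)
    (by simp only [HadamardThreeLines.verticalClosedStrip, Set.mem_preimage, ofReal_re]; norm_num)
    hd ⟨Real.exp 2 * M, by
      rintro _ ⟨z, ⟨hz0, hz1⟩, rfl⟩
      refine (hg z).trans ?_
      have e1 : Real.log (7 / 6) ≤ 1 := (Real.log_le_sub_one_of_pos (by norm_num)).trans (by norm_num)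
      have e2 : Real.log (7 / 12) ≤ 1 :=
        (Real.log_le_sub_one_of_pos (by norm_num)).trans (by norm_num)
      have e3 := hM z hz0 hz1
      rw [WithLp.prod_norm_eq_of_L1] at e3
      calc _ ≤ Real.exp 2 * ‖(F z).fst‖ + Real.exp 2 * ‖(F z).snd‖ := by
            gcongr <;> nlinarith
        _ ≤ _ := by rw [← mul_add]; gcongr⟩
    (fun z hz => by
      have hz' : z.re = 0 := hz
      have e1 : z = (z.im : ℂ) * I := by apply Complex.ext <;> simp [hz']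
      have e2 := h0 z.im
      rw [← e1, WithLp.prod_norm_eq_of_L1] at e2
      refine (hg z).trans ?_
      simpa [hz'] using e2)
    (fun z hz => by
      have hz' : z.re = 1 := hz
      have e1 : z = 1 + (z.im : ℂ) * I := by apply Complex.ext <;> simp [hz']
      have e2 := h1 z.im
      rw [WithLp.prod_norm_eq_of_L1] at e2
      refine (hg z).trans ?_
      rw [hz', exp2 _ (by norm_num), exp2 _ (by norm_num), e1, hG, kB_eq]
      simp only [WithLp.toLp_fst, WithLp.toLp_snd, norm_mul, norm_div, norm_ofNat]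
      linarith)
  have e1 : g ((1 / 2 : ℝ) : ℂ) = ((49 / 24 : ℝ) : ℂ) := by
    simp only [g, hθ, exph _ (by norm_num : (0 : ℝ) < 7 / 6), exph _ (by norm_num : (0 : ℝ) < 7 / 12),
      UU_eq]
    simp [p, q]; norm_num
  rw [e1, ofReal_re, ← Real.rpow_add' hr (by norm_num), norm_real] at key
  norm_num at key
  exact key

lemma upper : Rep (dg 1 (1 / 4)) (1 / 2) ((1, 1 / 2) : ℂ × ℂ) (100 / 99) := by
  let w : ℂ → ℂ := fun z => exp ((z - 1 / 2) ^ 2 / 25)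
  have hw : ∀ z, ‖w z‖ = Real.exp (((z.re - 1 / 2) ^ 2 - z.im ^ 2) / 25) := by
    intro z; rw [norm_exp]; congr 1; simp [sq]
  have hw1 : ∀ z : ℂ, 0 ≤ z.re → z.re ≤ 1 → ‖w z‖ ≤ 100 / 99 := by
    intro z h0 h1
    rw [hw]
    have h2 := Real.add_one_le_exp (-(1 / 100))
    have h3 : Real.exp (1 / 100) * Real.exp (-(1 / 100)) = 1 := by rw [← Real.exp_add]; simp
    have h4 := Real.exp_pos (1 / 100)
    have h5 : ((z.re - 1 / 2) ^ 2 - z.im ^ 2) / 25 ≤ 1 / 100 := by nlinarith [sq_nonneg z.im]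
    refine le_trans (Real.exp_le_exp.mpr h5) (by nlinarith)
  have hw2 : ∀ s : ℝ, Tendsto (fun t : ℝ => ‖w (s + t * I)‖) (cocompact ℝ) (𝓝 0) := by
    intro s
    simp only [hw]
    refine Real.tendsto_exp_atBot.comp (Tendsto.atBot_div_const (by norm_num) ?_)
    simp only [add_re, ofReal_re, mul_re, I_re, I_im, ofReal_im, add_im, mul_im, mul_zero, mul_one,
      sub_zero, add_zero, zero_add, sub_eq_add_neg]
    refine tendsto_atBot_add_const_left _ _ (tendsto_neg_atTop_atBot.comp ?_)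
    have := (tendsto_pow_atTop (α := ℝ) two_ne_zero).comp (tendsto_norm_cocompact_atTop (E := ℝ))
    simpa [Function.comp_def] using this
  have hl : Real.log (1 / 2) ≤ 0 := Real.log_nonpos (by norm_num) (by norm_num)
  have hF : ∀ z : ℂ, 0 ≤ z.re → ‖w z • ((1, exp (2 * z * Real.log (1 / 2))) : ℂ × ℂ)‖ ≤ ‖w z‖ := by
    intro z hz
    rw [norm_smul, Prod.norm_def, nexp _ (by norm_num)]
    refine mul_le_of_le_one_right (norm_nonneg _) (max_le (by simp) ?_)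
    exact Real.exp_le_one_iff.mpr (by nlinarith)
  have hG : ∀ t : ℝ, ‖w (1 + t * I) • ((1, 4 * exp (2 * (1 + t * I) * Real.log (1 / 2))) : ℂ × ℂ)‖
      ≤ ‖w (1 + t * I)‖ := by
    intro t
    rw [norm_smul, Prod.norm_def, norm_mul, nexp _ (by norm_num), show (1 + t * I).re = 1 by simp,
      exp2 _ (by norm_num)]
    refine mul_le_of_le_one_right (norm_nonneg _) (max_le (by simp) ?_)
    norm_num
  refine ⟨fun z => w z • (1, exp (2 * z * Real.log (1 / 2))),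
    fun t => w (1 + t * I) • (1, 4 * exp (2 * (1 + t * I) * Real.log (1 / 2))),
    Differentiable.diffContOnCl (by fun_prop),
    ⟨_, fun z h0 h1 => (hF z h0).trans (hw1 z h0 h1)⟩, by fun_prop, fun t => ?_, ?_, ?_, ?_,
    fun t => (hF _ (by simp)).trans (hw1 _ (by simp) (by simp)),
    fun t => (hG t).trans (hw1 _ (by simp) (by simp))⟩
  · ext <;> simp [dg]
    ring
  · exact squeeze_zero_norm (fun t => hF _ (by simp)) (by simpa using hw2 0)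
  · exact squeeze_zero_norm hG (by simpa using hw2 1)
  · simp only [exph _ (by norm_num : (0 : ℝ) < 1 / 2)]
    simp [w]

theorem main : ∃ (ι : ℂ × ℂ →L[ℂ] ℂ × ℂ) (κ : L1 →L[ℂ] L1) (U : ℂ × ℂ → L1) (M₀ M₁ : ℝ)
    (a : ℂ × ℂ), Function.Injective ι ∧ Function.Injective κ ∧ Hyp ι κ U M₀ M₁ ∧
      Mem ι (1 / 2) a ∧
      ¬ (Mem κ (1 / 2) (U a) ∧ inorm κ (1 / 2) (U a) ≤ max M₀ M₁ * inorm ι (1 / 2) a) := by
  refine ⟨dg 1 (1 / 4), kB, UU, 2, 2, (1, 1 / 2), fun a b h => ?_, fun a b h => ?_, hyp,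
    ⟨_, upper⟩, fun h => ?_⟩
  · simpa [dg, Prod.ext_iff] using h
  · rw [kB_eq, kB_eq] at h
    have h1 := congrArg WithLp.fst h
    have h2 := congrArg WithLp.snd h
    simp only [WithLp.toLp_fst, WithLp.toLp_snd] at h1 h2
    exact WithLp.ofLp_injective 1 (Prod.ext (mul_left_cancel₀ (by norm_num) h1)
      (mul_left_cancel₀ (by norm_num) h2))
  · have h1 : 49 / 24 ≤ inorm kB (1 / 2) (UU (1, 1 / 2)) := le_csInf h.1 fun r hr => lower hr
    have h2 : inorm (dg 1 (1 / 4)) (1 / 2) ((1, 1 / 2) : ℂ × ℂ) ≤ 100 / 99 := by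
      refine csInf_le ⟨0, fun r hr => ?_⟩ upper
      obtain ⟨F, G, -, -, -, -, -, -, -, -, h1⟩ := hr
      exact (norm_nonneg _).trans (h1 0)
    have h3 := h.2
    rw [max_self] at h3
    linarith

end H91.CInterp
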