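import Mathlib

set_option autoImplicit false

namespace H91.Cliff
open Matrix Complex Topology
open scoped Kronecker

section defs
variable {n r : Type} [Fintype n] [DecidableEq n] [Fintype r] [DecidableEq r] {d : ℕ}

def IsClifford (g : Fin d → Matrix r r ℂ) : Prop :=
  (∀ j, (g j).IsHermitian) ∧ (∀ j, g j * g j = 1) ∧ ∀ j k, j ≠ k → g j * g k = -(g k * g j)
noncomputable def loc (g : Fin d → Matrix r r ℂ) (A : Fin d → Matrix n n ℂ) (l : Fin d → ℝ) :
    Matrix (n × r) (n × r) ℂ := ∑ j, (A j - (l j : ℂ) • 1) ⊗ₖ g j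
def spec (g : Fin d → Matrix r r ℂ) (A : Fin d → Matrix n n ℂ) : Set (Fin d → ℝ) :=
  {l | (loc g A l).det = 0}
end defs

def IsOneManifold (X : Type) [TopologicalSpace X] : Prop :=
  Nonempty X ∧ T2Space X ∧ ∀ p : X, ∃ U : Set X, IsOpen U ∧ p ∈ U ∧ Nonempty (U ≃ₜ ℝ)

def pauli : Fin 3 → Matrix (Fin 2) (Fin 2) ℂ := ![!![0, 1; 1, 0], !![0, -I; I, 0], !![1, 0; 0, -1]]
noncomputable def A1 : Matrix (Fin 4) (Fin 4) ℂ := !![0, 0, 2, 5 / 2; 0, 0, 5 / 2, 2; 2, 5 / 2, 0, 0; 5 / 2, 2, 0, 0]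
noncomputable def A2 : Matrix (Fin 4) (Fin 4) ℂ :=
  !![0, 0, 2 * I, 5 / 2 * I; 0, 0, 5 / 2 * I, 2 * I; -(2 * I), -(5 / 2 * I), 0, 0;
    -(5 / 2 * I), -(2 * I), 0, 0]
def A3 : Matrix (Fin 4) (Fin 4) ℂ := !![1, 0, 0, 0; 0, -1, 0, 0; 0, 0, 1, 0; 0, 0, 0, -1]

lemma sys (x y z : ℝ) (v : Fin 4 × Fin 2 → ℂ) : loc pauli ![A1, A2, A3] ![x, y, z] *ᵥ v = 0 ↔
    (1 - z) * v (0, 0) + 4 * v (2, 1) + 5 * v (3, 1) - (x - y * I) * v (0, 1) = 0 ∧
    -(x + y * I) * v (0, 0) - (1 - z) * v (0, 1) = 0 ∧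
    (-1 - z) * v (1, 0) + 5 * v (2, 1) + 4 * v (3, 1) - (x - y * I) * v (1, 1) = 0 ∧
    -(x + y * I) * v (1, 0) - (-1 - z) * v (1, 1) = 0 ∧
    (1 - z) * v (2, 0) - (x - y * I) * v (2, 1) = 0 ∧
    4 * v (0, 0) + 5 * v (1, 0) - (x + y * I) * v (2, 0) - (1 - z) * v (2, 1) = 0 ∧
    (-1 - z) * v (3, 0) - (x - y * I) * v (3, 1) = 0 ∧
    5 * v (0, 0) + 4 * v (1, 0) - (x + y * I) * v (3, 0) - (-1 - z) * v (3, 1) = 0 := by
  simp only [funext_iff, Prod.forall, Fin.forall_fin_succ, IsEmpty.forall_iff, and_true, and_assoc]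
  simp [loc, mulVec, dotProduct, Fintype.sum_prod_type, Fin.sum_univ_succ, pauli, A1, A2, A3,
    Matrix.sum_apply, one_apply]
  refine and_congr ?_ (and_congr ?_ (and_congr ?_ (and_congr ?_ (and_congr ?_ (and_congr ?_
    (and_congr ?_ ?_)))))) <;> apply Eq.congr_left <;> ring_nf <;> simp <;> ring_nf

lemma det1 (x y z : ℝ) : (loc pauli ![A1, A2, A3] ![x, y, z]).det = 0 ↔
    (x ^ 2 + y ^ 2 = 2 ∧ z = 0) ∨ (x = 0 ∧ y = 0 ∧ z ^ 2 = 1) := by
  rw [← exists_mulVec_eq_zero_iff]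
  simp only [sys]
  constructor
  · rintro ⟨v, hv, h1, h2, h3, h4, h5, h6, h7, h8⟩
    by_contra hc
    set P : ℝ := (1 - z) ^ 2 + x ^ 2 + y ^ 2 with hP
    set Q : ℝ := (1 + z) ^ 2 + x ^ 2 + y ^ 2 with hQ
    have hP0 : P ≠ 0 := fun h => hc (Or.inr ⟨by nlinarith, by nlinarith, by nlinarith⟩)
    have hQ0 : Q ≠ 0 := fun h => hc (Or.inr ⟨by nlinarith, by nlinarith, by nlinarith⟩)
    set G : ℝ := P * Q - 9 * (1 - z ^ 2) with hG
    set H : ℝ := 8 * z * (x ^ 2 + y ^ 2 + z ^ 2 - 1) with hH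
    have hF : G ^ 2 + H ^ 2 ≠ 0 := by
      intro h
      have g0 : G = 0 := by nlinarith
      have h0 : H = 0 := by nlinarith
      rcases mul_eq_zero.1 (hH ▸ h0) with h1 | h1
      · have : z = 0 := by linarith
        subst this
        refine hc (Or.inl ⟨?_, rfl⟩)
        have : (x ^ 2 + y ^ 2 - 2) * (x ^ 2 + y ^ 2 + 4) = 0 := by
          rw [← g0, hG, hP, hQ]; ring
        exact sub_eq_zero.1 (this |> mul_eq_zero.1 |>.resolve_right (by positivity))
      · have : x ^ 2 + y ^ 2 = 0 := by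
          have : G = -5 * (1 - z ^ 2) := by
            rw [hG, hP, hQ]; linear_combination (x ^ 2 + y ^ 2 + z ^ 2 + 3) * h1
          linarith
        exact hc (Or.inr ⟨by nlinarith, by nlinarith, by linarith⟩)
    have cP : (P : ℂ) = (1 - z) ^ 2 + (x - y * I) * (x + y * I) := by
      rw [hP]; push_cast; linear_combination (y : ℂ) ^ 2 * I_sq
    have cQ : (Q : ℂ) = (1 + z) ^ 2 + (x - y * I) * (x + y * I) := by
      rw [hQ]; push_cast; linear_combination (y : ℂ) ^ 2 * I_sq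
    have cH : (H : ℂ) = 4 * ((1 + z) * P - (1 - z) * Q) := by
      rw [hH, hP, hQ]; push_cast; ring
    have cG : (G : ℂ) = P * Q - 9 * (1 - z ^ 2) := by rw [hG]; push_cast; ring
    have e1 : P * v (0, 0) = -(1 - z) * (4 * v (2, 1) + 5 * v (3, 1)) := by
      rw [cP]; linear_combination (1 - z) * h1 - (x - y * I) * h2
    have e2 : Q * v (1, 0) = (1 + z) * (5 * v (2, 1) + 4 * v (3, 1)) := by
      rw [cQ]; linear_combination -(1 + z) * h3 - (x - y * I) * h4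
    have e3 : P * v (2, 1) = (1 - z) * (4 * v (0, 0) + 5 * v (1, 0)) := by
      rw [cP]; linear_combination -(1 - z) * h6 - (x + y * I) * h5
    have e4 : Q * v (3, 1) = -(1 + z) * (5 * v (0, 0) + 4 * v (1, 0)) := by
      rw [cQ]; linear_combination (1 + z) * h8 - (x + y * I) * h7
    have key : ∀ a b c e : ℂ, P * a = -(1 - z) * (4 * c + 5 * e) → Q * b = (1 + z) * (5 * c + 4 * e) →
        P * c = (1 - z) * (4 * a + 5 * b) → Q * e = -(1 + z) * (5 * a + 4 * b) → a = 0 ∧ b = 0 := by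
      intro a b c e e1 e2 e3 e4
      have a1 : G * a - H * c = 0 := by
        rw [cG, cH]
        linear_combination Q * e1 - 4 * (1 + z) * e3 - 5 * (1 - z) * e4
      have a2 : G * c + H * a = 0 := by
        rw [cG, cH]
        linear_combination Q * e3 + 4 * (1 + z) * e1 + 5 * (1 - z) * e2
      have b1 : G * b - H * e = 0 := by
        rw [cG, cH]
        linear_combination P * e2 + 5 * (1 + z) * e3 + 4 * (1 - z) * e4
      have b2 : G * e + H * b = 0 := by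
        rw [cG, cH]
        linear_combination P * e4 - 5 * (1 + z) * e1 - 4 * (1 - z) * e2
      have hF' : ((G : ℂ) ^ 2 + H ^ 2) ≠ 0 := by exact_mod_cast hF
      exact ⟨(mul_eq_zero.1 (by linear_combination G * a1 + H * a2)).resolve_left hF',
        (mul_eq_zero.1 (by linear_combination G * b1 + H * b2)).resolve_left hF'⟩
    obtain ⟨k1, k2⟩ := key _ _ _ _ e1 e2 e3 e4
    have P' : (P : ℂ) ≠ 0 := by exact_mod_cast hP0
    have Q' : (Q : ℂ) ≠ 0 := by exact_mod_cast hQ0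
    have k3 : v (2, 1) = 0 := by simpa [k1, k2, hP0] using e3
    have k4 : v (3, 1) = 0 := by simpa [k1, k2, hQ0] using e4
    simp only [k1, k2, k3, k4] at h1 h2 h3 h4 h5 h6 h7 h8
    have k5 : v (0, 1) = 0 := (mul_eq_zero.1 (by
      rw [cP]; linear_combination -(1 - z) * h2 - (x + y * I) * h1)).resolve_left P'
    have k6 : v (1, 1) = 0 := (mul_eq_zero.1 (by
      rw [cQ]; linear_combination (1 + z) * h4 - (x + y * I) * h3)).resolve_left Q'
    have k7 : v (2, 0) = 0 := (mul_eq_zero.1 (by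
      rw [cP]; linear_combination (1 - z) * h5 - (x - y * I) * h6)).resolve_left P'
    have k8 : v (3, 0) = 0 := (mul_eq_zero.1 (by
      rw [cQ]; linear_combination -(1 + z) * h7 - (x - y * I) * h8)).resolve_left Q'
    apply hv
    funext ⟨i, j⟩
    fin_cases i <;> fin_cases j <;> assumption
  · rintro (⟨h, rfl⟩ | ⟨rfl, rfl, h⟩)
    · have h' : (x : ℂ) ^ 2 + y ^ 2 = 2 := by exact_mod_cast h
      refine ⟨fun p => !![0, 0; 3, 3 * (x + y * I); 5 * (x - y * I), 5; 4 * (x - y * I), -4]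
        p.1 p.2, fun h0 => by simpa using congrFun h0 (1, 0), ?_⟩
      simp
      refine ⟨by ring, ?_, by ring, by ring, ?_, by ring, ?_⟩
      · linear_combination -3 * h' + 3 * (y : ℂ) ^ 2 * I_sq
      · linear_combination -5 * h' + 5 * (y : ℂ) ^ 2 * I_sq
      · linear_combination -4 * h' + 4 * (y : ℂ) ^ 2 * I_sq
    · rcases sq_eq_one_iff.1 h with rfl | rfl
      · exact ⟨Pi.single (0, 1) 1, by simp, by simp⟩
      · exact ⟨Pi.single (1, 1) 1, by simp, by simp⟩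

lemma det2 (x y z : ℝ) : (loc pauli ![A1 + 1, A3, -A2] ![x, y, z]).det = 0 ↔
    (loc pauli ![A1, A2, A3] ![x - 1, -z, y]).det = 0 := by
  let U : Matrix (Fin 2) (Fin 2) ℂ := !![1, -I; -I, 1]
  have h : ((1 : Matrix (Fin 4) (Fin 4) ℂ) ⊗ₖ U) * loc pauli ![A1 + 1, A3, -A2] ![x, y, z] =
      loc pauli ![A1, A2, A3] ![x - 1, -z, y] * ((1 : Matrix (Fin 4) (Fin 4) ℂ) ⊗ₖ U) := by
    have u1 : U * pauli 0 = pauli 0 * U := by
      ext i j; fin_cases i <;> fin_cases j <;> simp [U, pauli]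
    have u2 : U * pauli 1 = pauli 2 * U := by
      ext i j; fin_cases i <;> fin_cases j <;> simp [U, pauli]
    have u3 : U * pauli 2 = -(pauli 1 * U) := by
      ext i j; fin_cases i <;> fin_cases j <;> simp [U, pauli]
    simp only [loc, Fin.sum_univ_three, Matrix.mul_add, Matrix.add_mul, ← mul_kronecker_mul,
      Matrix.one_mul, Matrix.mul_one, u1, u2, u3]
    ext ⟨i, a⟩ ⟨j, b⟩
    simp; ring
  have h2 := congrArg det h
  have h3 : ((1 : Matrix (Fin 4) (Fin 4) ℂ) ⊗ₖ U).det ≠ 0 := by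
    simp [det_kronecker, U, det_fin_two]
  rw [det_mul, det_mul, mul_comm] at h2
  rw [mul_right_cancel₀ h3 h2]

noncomputable def AA : Fin 3 → Matrix (Fin 4 ⊕ Fin 4) (Fin 4 ⊕ Fin 4) ℂ :=
  fun j => fromBlocks (![A1, A2, A3] j) 0 0 (![A1 + 1, A3, -A2] j)

def C1 : Set (Fin 3 → ℝ) := {l | l 0 ^ 2 + l 1 ^ 2 = 2 ∧ l 2 = 0}
def C2 : Set (Fin 3 → ℝ) := {l | (l 0 - 1) ^ 2 + l 2 ^ 2 = 2 ∧ l 1 = 0}

lemma spec_eq : spec pauli AA = C1 ∪ C2 := by
  ext l
  have h : loc pauli AA l = (fromBlocks (loc pauli ![A1, A2, A3] l) 0 0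
      (loc pauli ![A1 + 1, A3, -A2] l)).submatrix (Equiv.sumProdDistrib _ _ _)
      (Equiv.sumProdDistrib _ _ _) := by
    ext ⟨i | i, a⟩ ⟨j | j, b⟩ <;> simp [loc, AA, Matrix.sum_apply, one_apply]
  have e : l = ![l 0, l 1, l 2] := by ext i; fin_cases i <;> rfl
  rw [spec, Set.mem_setOf_eq, h, det_submatrix_equiv_self, det_fromBlocks_zero₂₁, mul_eq_zero, e,
    det2, det1, det1]
  simp only [C1, C2, Set.mem_union, Set.mem_setOf_eq, cons_val, neg_sq, neg_eq_zero]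
  constructor
  · rintro ((h | ⟨h1, h2, h3⟩) | h | ⟨h1, h2, h3⟩)
    · exact Or.inl h
    · exact Or.inr ⟨by rw [h1, h3]; norm_num, h2⟩
    · exact Or.inr h
    · exact Or.inl ⟨by rw [h3, sub_eq_zero.1 h1]; norm_num, h2⟩
  · exact fun h => h.elim (fun h => .inl (.inl h)) fun h => .inr (.inl h)

lemma chart {X : Type} [TopologicalSpace X] {S D : Set X} (hD : IsClosed D) (u v : X → ℝ)
    (hu : Continuous u) (hv : Continuous v) (e : ℝ × ℝ → X) (he : Continuous e)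
    (h1 : ∀ q, u (e q) = q.1 ∧ v (e q) = q.2)
    (h2 : ∀ x, x ∈ S ∧ x ∉ D ↔ u x ^ 2 + v x ^ 2 = 2 ∧ e (u x, v x) = x) (p : S) (hp : p.1 ∉ D) :
    ∃ U : Set S, IsOpen U ∧ p ∈ U ∧ Nonempty (U ≃ₜ ℝ) := by
  obtain ⟨h3, -⟩ := (h2 p).1 ⟨p.2, hp⟩
  set a := u p
  set b := v p
  let f : ℝ → X := fun t => e ((a * (1 - t ^ 2) - 2 * b * t) / (1 + t ^ 2),
    (2 * a * t + b * (1 - t ^ 2)) / (1 + t ^ 2))
  have t0 : ∀ t : ℝ, 1 + t ^ 2 ≠ 0 := fun t => by positivity
  have hf : ∀ t, f t ∈ S ∧ f t ∉ D := fun t => (h2 _).2 ⟨by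
    simp only [f, h1]; field_simp; linear_combination (1 + t ^ 2) ^ 2 * h3, by simp only [f, h1]⟩
  have hd : ∀ t, 2 + a * u (f t) + b * v (f t) = 4 / (1 + t ^ 2) := fun t => by
    simp only [f, h1]; field_simp; linear_combination (1 - t ^ 2) * h3
  refine ⟨{x | x.1 ∉ D ∧ 2 + a * u x + b * v x ≠ 0}, (hD.isOpen_compl.preimage
    continuous_subtype_val).inter (isOpen_ne_fun (by fun_prop) continuous_const),
    ⟨hp, by nlinarith⟩, ⟨⟨⟨fun x => (a * v x - b * u x) / (2 + a * u x + b * v x),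
      fun t => ⟨⟨f t, (hf t).1⟩, (hf t).2, by rw [hd]; positivity⟩, ?_, fun t => ?_⟩, ?_, ?_⟩⟩⟩
  · rintro ⟨⟨x, hx⟩, h4, h5⟩
    obtain ⟨h6, h7⟩ := (h2 x).1 ⟨hx, h4⟩
    refine Subtype.ext (Subtype.ext (Eq.trans ?_ h7))
    simp only [f] at h5 ⊢
    obtain ⟨d, hd⟩ : ∃ d, d = 2 + a * u x + b * v x := ⟨_, rfl⟩
    rw [← hd] at h5 ⊢
    have h8 : ((a * v x - b * u x) / d) ^ 2 = 4 / d - 1 := by
      field_simp; rw [hd]; linear_combination (u x ^ 2 + v x ^ 2) * h3 + 2 * h6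
    rw [h8]; congr 2 <;> rw [add_sub_cancel] <;> field_simp <;> rw [hd]
    · linear_combination (2 * u x) * h3
    · linear_combination (2 * v x) * h3
  · simp only [hd]
    simp only [f, h1]; field_simp; linear_combination 2 * t * h3
  · exact Continuous.div (by fun_prop) (by fun_prop) fun x => x.2.2
  · refine Continuous.subtype_mk (Continuous.subtype_mk ?_ _) _
    exact he.comp ((Continuous.div (by fun_prop) (by fun_prop) t0).prodMk
      (Continuous.div (by fun_prop) (by fun_prop) t0))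

theorem main : ∃ (A : Fin 3 → Matrix (Fin 4 ⊕ Fin 4) (Fin 4 ⊕ Fin 4) ℂ)
    (g : Fin 3 → Matrix (Fin 2) (Fin 2) ℂ), (∀ j, (A j).IsHermitian) ∧ IsClifford g ∧
    IsOneManifold (spec g A) := by
  refine ⟨AA, pauli, fun j => ?_, ⟨fun j => ?_, fun j => ?_, fun j k h => ?_⟩, ?_⟩
  · have a1 : A1.IsHermitian := by ext i j; fin_cases i <;> fin_cases j <;> simp [A1]
    have a2 : A2.IsHermitian := by ext i j; fin_cases i <;> fin_cases j <;> simp [A2]
    have a3 : A3.IsHermitian := by ext i j; fin_cases i <;> fin_cases j <;> simp [A3]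
    refine IsHermitian.fromBlocks ?_ (by simp) ?_ <;> fin_cases j
    exacts [a1, a2, a3, a1.add isHermitian_one, a3, a2.neg]
  · ext a b; fin_cases j <;> fin_cases a <;> fin_cases b <;> simp [pauli]
  · ext a b; fin_cases j <;> fin_cases a <;> fin_cases b <;> simp [pauli]
  · ext a b
    fin_cases j <;> fin_cases k <;> simp at h <;> fin_cases a <;> fin_cases b <;> simp [pauli]
  have dj : ∀ l, l ∈ C1 → l ∈ C2 → False := by
    rintro l ⟨h1, h2⟩ ⟨h3, h4⟩
    rw [h4] at h1; rw [h2] at h3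
    have : l 0 = 1 / 2 := by linarith
    rw [this] at h1; norm_num at h1
  rw [spec_eq]
  refine ⟨⟨⟨![1, 1, 0], Or.inl ⟨by simp; norm_num, rfl⟩⟩⟩, inferInstance, fun p => ?_⟩
  rcases p.2 with h | h
  · refine chart (D := C2) ((isClosed_eq (by fun_prop) continuous_const).inter
      (isClosed_eq (by fun_prop) continuous_const)) (· 0) (· 1) (by fun_prop) (by fun_prop)
      (fun q => ![q.1, q.2, 0]) (by fun_prop) (by simp) (fun x => ⟨?_, fun h => ?_⟩) p (dj _ h)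
    · rintro ⟨h | h, h'⟩
      · exact ⟨h.1, by ext i; fin_cases i <;> simp [h.2]⟩
      · exact absurd h h'
    · have : x ∈ C1 := ⟨h.1, by rw [← h.2]; rfl⟩
      exact ⟨Or.inl this, dj _ this⟩
  · refine chart (D := C1) ((isClosed_eq (by fun_prop) continuous_const).inter
      (isClosed_eq (by fun_prop) continuous_const)) (fun l => l 0 - 1) (· 2) (by fun_prop)
      (by fun_prop) (fun q => ![q.1 + 1, 0, q.2]) (by fun_prop) (by simp)
      (fun x => ⟨?_, fun h => ?_⟩) p fun h' => dj _ h' h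
    · rintro ⟨h | h, h'⟩
      · exact absurd h h'
      · exact ⟨h.1, by ext i; fin_cases i <;> simp [h.2]⟩
    · have : x ∈ C2 := ⟨h.1, by rw [← h.2]; rfl⟩
      exact ⟨Or.inr this, fun h' => dj _ h' this⟩

end H91.Cliff
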