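import Mathlib

set_option autoImplicit false

namespace Pool.Agent.H91.Cubic

open Complex Metric Set

/-- divided difference of `z + a z ^ 2 + b z ^ 3` -/
def G (a b z w : ℂ) : ℂ := 1 + a * (z + w) + b * (z ^ 2 + z * w + w ^ 2)

lemma schur (c1 c2 ζ : ℂ) (h2 : ‖c2‖ < 1) (h : ‖c1 - (starRingEnd ℂ) c1 * c2‖ < 1 - ‖c2‖ ^ 2)
    (hζ : ‖ζ‖ ≤ 1) : 1 + c1 * ζ + c2 * ζ ^ 2 ≠ 0 := by
  intro h0
  have hz : ζ ≠ 0 := by rintro rfl; simp at h0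
  set t1 : ℂ := ζ⁻¹ with ht1
  set t2 : ℂ := c2 * ζ with ht2
  have e1 : c1 = -(t1 + t2) := by
    rw [ht1, ht2]; field_simp; linear_combination h0
  have e2 : c2 = t1 * t2 := by rw [ht1, ht2]; field_simp
  have n1 : 1 ≤ ‖t1‖ := by
    rw [ht1, norm_inv]; exact one_le_inv_iff₀.mpr ⟨norm_pos_iff.mpr hz, hζ⟩
  have n2 : ‖c2‖ = ‖t1‖ * ‖t2‖ := by rw [e2, norm_mul]
  have n3 : ‖t2‖ < 1 := by nlinarith [norm_nonneg t2]
  clear_value t1 t2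
  have e3 : c1 - (starRingEnd ℂ) c1 * c2
      = -(t1 * ((1 - ‖t2‖ ^ 2 : ℝ) : ℂ) - t2 * ((‖t1‖ ^ 2 - 1 : ℝ) : ℂ)) := by
    have a1 := Complex.conj_mul' t1
    have a2 := Complex.conj_mul' t2
    rw [e1, e2]
    push_cast
    simp only [map_neg, map_add]
    linear_combination t2 * a1 + t1 * a2
  have n4 := norm_sub_norm_le (t1 * ((1 - ‖t2‖ ^ 2 : ℝ) : ℂ)) (t2 * ((‖t1‖ ^ 2 - 1 : ℝ) : ℂ))
  have h5 := norm_nonneg t2
  rw [norm_mul, norm_mul, norm_real, norm_real, Real.norm_eq_abs, Real.norm_eq_abs,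
    abs_of_nonneg (by nlinarith), abs_of_nonneg (by nlinarith)] at n4
  rw [e3, norm_neg, n2] at h
  rw [n2] at h2
  have : 0 ≤ (‖t1‖ - 1) * (1 - ‖t2‖) * (1 - ‖t1‖ * ‖t2‖) :=
    mul_nonneg (mul_nonneg (by linarith) (by linarith)) (by linarith)
  nlinarith

lemma near_root (b p q z0 : ℂ) (hb : b ≠ 0) :
    ∃ z, b * z ^ 2 + p * z + q = 0 ∧ ‖b‖ * ‖z - z0‖ ^ 2 ≤ ‖b * z0 ^ 2 + p * z0 + q‖ := by
  obtain ⟨d, hd⟩ := IsAlgClosed.exists_pow_nat_eq (p ^ 2 - 4 * b * q) two_pos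
  set r1 := (-p + d) / (2 * b)
  set r2 := (-p - d) / (2 * b)
  have hf : ∀ z, b * z ^ 2 + p * z + q = b * ((r1 - z) * (r2 - z)) := by
    intro z
    simp only [r1, r2]
    field_simp
    linear_combination hd
  rw [hf z0, norm_mul, norm_mul]
  have hb' := norm_nonneg b
  rcases le_total ‖r1 - z0‖ ‖r2 - z0‖ with h | h
  · refine ⟨r1, by rw [hf]; simp, ?_⟩
    rw [sq]; gcongr
  · refine ⟨r2, by rw [hf]; simp, ?_⟩
    rw [sq]; gcongr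

lemma G_symm (a b z w : ℂ) : G a b z w = G a b w z := by unfold G; ring

lemma G_ne (a b : ℂ) (hb : b ≠ 0)
    (h : ∀ (c : ℝ) (ζ : ℂ), c ^ 2 ≤ 4 → ‖ζ‖ ≤ 1 → 1 + a * c * ζ + b * (c ^ 2 - 1) * ζ ^ 2 ≠ 0)
    (z w : ℂ) (hz : ‖z‖ ≤ 1) (hw : ‖w‖ ≤ 1) : G a b z w ≠ 0 := by
  intro h0
  have hGc : Continuous (fun p : ℂ × ℂ => G a b p.1 p.2) := by unfold G; fun_prop
  have hK : IsCompact ((closedBall (0 : ℂ) 1 ×ˢ closedBall (0 : ℂ) 1) ∩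
      {p : ℂ × ℂ | G a b p.1 p.2 = 0}) :=
    ((isCompact_closedBall _ _).prod (isCompact_closedBall _ _)).inter_right
      (isClosed_eq hGc continuous_const)
  obtain ⟨⟨z0, w0⟩, ⟨⟨hz0, hw0⟩, hG0⟩, hmin⟩ := hK.exists_isMinOn
    ⟨(z, w), ⟨by simpa using hz, by simpa using hw⟩, h0⟩
    (f := fun p : ℂ × ℂ => max ‖p.1‖ ‖p.2‖) (by fun_prop)
  simp only [mem_closedBall_zero_iff, mem_ofPred_eq] at hz0 hw0 hG0
  have hmin' : ∀ z w : ℂ, G a b z w = 0 → max ‖z0‖ ‖w0‖ ≤ max ‖z‖ ‖w‖ := by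
    intro z w hG
    by_cases hh : ‖z‖ ≤ 1 ∧ ‖w‖ ≤ 1
    · exact hmin (a := (z, w)) ⟨⟨by simpa using hh.1, by simpa using hh.2⟩, hG⟩
    · refine (max_le hz0 hw0).trans ?_
      rw [not_and_or, not_le, not_le] at hh
      rcases hh with hh | hh
      · exact le_max_of_le_left hh.le
      · exact le_max_of_le_right hh.le
  have key : ∀ z1 w1 : ℂ, G a b z1 w1 = 0 → (∀ z w : ℂ, G a b z w = 0 → ‖w1‖ ≤ max ‖z‖ ‖w‖) →
      ‖w1‖ ≤ ‖z1‖ := by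
    intro z1 w1 hG hm
    by_contra hlt
    push Not at hlt
    have hc : Continuous (fun t : ℝ => ‖G a b z1 (t * w1)‖) := by unfold G; fun_prop
    have hb' : 0 < ‖b‖ := norm_pos_iff.mpr hb
    have hp : 0 < ‖b‖ * (‖w1‖ - ‖z1‖) ^ 2 := mul_pos hb' (pow_pos (by linarith) 2)
    have h1 : ∀ᶠ t : ℝ in nhds 1, ‖G a b z1 (t * w1)‖ < ‖b‖ * (‖w1‖ - ‖z1‖) ^ 2 :=
      hc.continuousAt.eventually_lt continuousAt_const (by simpa [hG] using hp)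
    have h2 : ∀ᶠ t : ℝ in nhdsWithin 1 (Iio 1), 0 < t ∧ t < 1 ∧
        ‖G a b z1 (t * w1)‖ < ‖b‖ * (‖w1‖ - ‖z1‖) ^ 2 := by
      filter_upwards [h1.filter_mono nhdsWithin_le_nhds, self_mem_nhdsWithin,
        (lt_mem_nhds one_pos).filter_mono nhdsWithin_le_nhds] with t a1 a2 a3 using ⟨a3, a2, a1⟩
    obtain ⟨t, ht0, ht1, ht⟩ := h2.exists
    obtain ⟨r, hr1, hr2⟩ := near_root b (a + b * (t * w1)) (1 + a * (t * w1) + b * (t * w1) ^ 2) z1 hb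
    have e : ∀ z, b * z ^ 2 + (a + b * (t * w1)) * z + (1 + a * (t * w1) + b * (t * w1) ^ 2)
        = G a b z (t * w1) := by intro z; unfold G; ring
    rw [e] at hr1 hr2
    have h3 : ‖r - z1‖ < ‖w1‖ - ‖z1‖ := by
      apply lt_of_pow_lt_pow_left₀ 2 (by linarith)
      exact lt_of_mul_lt_mul_left (hr2.trans_lt ht) hb'.le
    have h4 : ‖r‖ < ‖w1‖ := by linarith [norm_sub_norm_le r z1]
    have h5 : ‖(t : ℂ) * w1‖ < ‖w1‖ := by
      rw [norm_mul, norm_real, Real.norm_eq_abs, abs_of_pos ht0]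
      nlinarith [norm_nonneg z1]
    exact absurd (hm r _ hr1) (not_le.mpr (max_lt h4 h5))
  have k1 := key z0 w0 hG0 fun z w hG => (le_max_right _ _).trans (hmin' z w hG)
  have k2 := key w0 z0 (by rw [G_symm]; exact hG0) fun z w hG => (le_max_left _ _).trans (hmin' z w hG)
  have hn : ‖z0‖ = ‖w0‖ := le_antisymm k2 k1
  obtain ⟨ζ, hζ⟩ := IsAlgClosed.exists_pow_nat_eq (z0 * w0) two_pos
  have hζn : ‖ζ‖ = ‖z0‖ := by
    apply (pow_left_inj₀ (norm_nonneg _) (norm_nonneg _) two_ne_zero).mp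
    rw [← norm_pow, hζ, norm_mul, ← hn, sq]
  by_cases hz00 : z0 = 0
  · have : w0 = 0 := by rw [← norm_eq_zero, ← hn, hz00, norm_zero]
    rw [hz00, this] at hG0
    simp [G] at hG0
  have hζ0 : ζ ≠ 0 := by rw [← norm_ne_zero_iff, hζn, norm_ne_zero_iff]; exact hz00
  set u := z0 / ζ with hu
  have hu1 : ‖u‖ = 1 := by rw [hu, norm_div, hζn, div_self (norm_ne_zero_iff.mpr hz00)]
  have hu2 : (starRingEnd ℂ) u * u = 1 := by rw [Complex.conj_mul', hu1]; simp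
  have ez : z0 = u * ζ := by rw [hu]; field_simp
  have ew : w0 = (starRingEnd ℂ) u * ζ := by
    apply mul_left_cancel₀ hz00
    rw [← hζ, ez]; linear_combination (-ζ ^ 2) * hu2
  have ec : u + (starRingEnd ℂ) u = ((2 * u.re : ℝ) : ℂ) := Complex.add_conj u
  apply h (2 * u.re) ζ _ (hζn ▸ hz0)
  · rw [← ec, ← hG0, ez, ew]
    unfold G
    linear_combination (b * ζ ^ 2) * hu2
  · have := abs_re_le_norm u
    rw [hu1, abs_le] at this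
    nlinarith [this.1, this.2]

noncomputable def a0 : ℂ := ⟨89 / 100, -1 / 10⟩
noncomputable def b0 : ℂ := ⟨27 / 100, -7 / 100⟩

lemma b0_ne : b0 ≠ 0 := by
  intro h
  have := congrArg Complex.re h
  simp [b0] at this

lemma G0_ne (z w : ℂ) (hz : ‖z‖ ≤ 1) (hw : ‖w‖ ≤ 1) : G a0 b0 z w ≠ 0 := by
  apply G_ne a0 b0 b0_ne _ z w hz hw
  intro c ζ hc hζ
  have hc0 := sq_nonneg c
  have n2 : ‖b0 * ((c : ℂ) ^ 2 - 1)‖ ^ 2 = 778 / 10000 * (c ^ 2 - 1) ^ 2 := by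
    rw [Complex.sq_norm, normSq_apply]; simp [b0, ← ofReal_pow]; ring
  have n3 : ‖b0 * ((c : ℂ) ^ 2 - 1)‖ ^ 2 < 1 := by rw [n2]; nlinarith
  apply schur (a0 * c) (b0 * ((c : ℂ) ^ 2 - 1)) ζ _ _ hζ
  · nlinarith [norm_nonneg (b0 * ((c : ℂ) ^ 2 - 1))]
  · apply lt_of_pow_lt_pow_left₀ 2 (by linarith)
    have n4 : ‖a0 * c - (starRingEnd ℂ) (a0 * c) * (b0 * ((c : ℂ) ^ 2 - 1))‖ ^ 2
        = ((c ^ 2 - 1) + 1) * ((89 / 100 - 2473 / 10000 * (c ^ 2 - 1)) ^ 2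
          + (1 / 10 - 353 / 10000 * (c ^ 2 - 1)) ^ 2) := by
      rw [Complex.sq_norm, normSq_apply]; simp [a0, b0, ← ofReal_pow]; ring
    rw [n4, n2]
    have h1 : -1 ≤ c ^ 2 - 1 := by linarith
    have h2 : c ^ 2 - 1 ≤ 3 := by linarith
    generalize c ^ 2 - 1 = k at h1 h2
    nlinarith [mul_nonneg (sub_nonneg.mpr h2) (sq_nonneg (k - 3 / 2)),
      mul_nonneg (sub_nonneg.mpr h2) (sq_nonneg (k - 2)), sq_nonneg (k - 3 / 2),
      sq_nonneg ((k - 3 / 2) * (k - 3))]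

open Polynomial in
noncomputable def P0 : ℂ[X] := X + C a0 * X ^ 2 + C b0 * X ^ 3

lemma P0_eval (z : ℂ) : P0.eval z = z + a0 * z ^ 2 + b0 * z ^ 3 := by simp [P0]

lemma P0_inj (z w : ℂ) (hz : ‖z‖ ≤ 1) (hw : ‖w‖ ≤ 1) (h : P0.eval z = P0.eval w) : z = w := by
  rw [P0_eval, P0_eval] at h
  have : (z - w) * G a0 b0 z w = 0 := by unfold G; linear_combination h
  exact sub_eq_zero.mp ((mul_eq_zero.mp this).resolve_right (G0_ne z w hz hw))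

lemma P0_deg : P0.natDegree = 3 := by
  unfold P0
  have := b0_ne
  compute_degree!

lemma P0_small : ‖P0.eval (-1)‖ < 1 / (4 * Real.cos (Real.pi / 5) ^ 2) := by
  have h5 : Real.sqrt 5 < 2.2361 := by
    rw [Real.sqrt_lt' (by norm_num)]; norm_num
  have h50 := Real.sqrt_nonneg 5
  have h1 : ‖P0.eval (-1)‖ < 0.3812 := by
    apply lt_of_pow_lt_pow_left₀ 2 (by norm_num)
    rw [P0_eval, Complex.sq_norm, normSq_apply]
    simp [a0, b0, pow_succ]; norm_num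
  refine h1.trans ?_
  rw [Real.cos_pi_div_five, lt_div_iff₀ (by positivity)]
  nlinarith

end Pool.Agent.H91.Cubic
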