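import Pool.Agent.H91.SupN

set_option autoImplicit false

namespace H91.DaugIdx
open Filter Topology Set Metric Pool.Agent.H91.C0 Pool.Agent.H91.Renorm H91.SupN

/-- relatively weakly open subset of the closed unit ball -/
def RelWO {X : Type} [NormedAddCommGroup X] [NormedSpace ℝ X] (W : Set X) : Prop :=
  ∃ U : Set (WeakSpace ℝ X), IsOpen U ∧ W = toWeakSpace ℝ X ⁻¹' U ∩ closedBall 0 1

/-- Daugavet index of thickness -/
noncomputable def T (X : Type) [NormedAddCommGroup X] [NormedSpace ℝ X] : ℝ :=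
  sInf {r | 0 < r ∧ ∃ (x : X) (W : Set X), ‖x‖ = 1 ∧ RelWO W ∧ W.Nonempty ∧ W ⊆ closedBall x r}

noncomputable def q (i : ℕ × Bool) : Seminorm ℝ (c0 × ℝ) := absS (fn i.1 1 (if i.2 then -1 else 0))

lemma hq (i : ℕ × Bool) (x : c0 × ℝ) : q i x ≤ 2 * ‖x‖ :=
  fn_le _ _ _ (by simp) (by split_ifs <;> simp) x

lemma l1 (x : c0 × ℝ) (n : ℕ) : |x.1 n| ≤ supS q 2 hq x := by
  simpa [q] using le_supS q 2 hq (n, false) x
lemma l2 (x : c0 × ℝ) (n : ℕ) : |x.1 n - x.2| ≤ supS q 2 hq x := by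
  simpa [q, sub_eq_add_neg] using le_supS q 2 hq (n, true) x
lemma l3 (x : c0 × ℝ) : |x.2| ≤ supS q 2 hq x := by
  rw [← abs_neg]
  exact lim_le x.1 _ _ fun n => by rw [← sub_eq_add_neg]; exact l2 x n
lemma l4 (x : c0 × ℝ) {M : ℝ} (h1 : ∀ n, |x.1 n| ≤ M) (h2 : ∀ n, |x.1 n - x.2| ≤ M) :
    supS q 2 hq x ≤ M := by
  refine supS_le _ _ _ ?_
  rintro ⟨n, b⟩
  cases b
  · simpa [q] using h1 n
  · simpa [q, sub_eq_add_neg] using h2 n

noncomputable def N : EqNorm ℝ (c0 × ℝ) where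
  p := supS q 2 hq
  lower := ⟨1, fun x => by
    rw [one_mul, Prod.norm_def]
    exact max_le (norm_le _ (apply_nonneg _ _) (l1 x)) (l3 x)⟩
  upper := ⟨2, fun x => supS_le _ _ _ fun i => hq i x⟩

theorem main : ∃ (X : Type) (_ : NormedAddCommGroup X) (_ : NormedSpace ℝ X),
    CompleteSpace X ∧ Nontrivial X ∧ 1 ≤ T X ∧
      ∃ W : Set X, RelWO W ∧ W.Nonempty ∧ diam W < 2 := by
  have hn : ∀ x : N.Sp, ‖x‖ = supS q 2 hq (N.eqv x) := fun x => rfl
  let o : N.Sp := N.eqv.symm (0, 1)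
  have ho : ‖o‖ = 1 := by
    apply le_antisymm
    · exact l4 (0, 1) (by simp) (by simp)
    · exact le_trans (by simp) (l3 (0, 1))
  refine ⟨N.Sp, inferInstance, inferInstance, inferInstance, ⟨⟨o, 0, fun h => ?_⟩⟩, ?_, ?_⟩
  · rw [h] at ho; simp at ho
  · refine le_csInf ⟨2, by norm_num, o, closedBall 0 1, ho, ⟨univ, isOpen_univ, by simp⟩,
      ⟨0, by simp⟩, fun y hy => ?_⟩ ?_
    · rw [mem_closedBall_zero_iff] at hy
      rw [mem_closedBall, dist_eq_norm]
      linarith [norm_sub_le y o]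
    rintro r ⟨-, x, W, -, ⟨U, hU, rfl⟩, ⟨z, hzU, hz⟩, hW⟩
    rw [mem_closedBall_zero_iff, hn] at hz
    set y := N.eqv z with hy
    obtain ⟨s, hs1, hs2⟩ : ∃ s : ℝ, |s| = 1 ∧ |s - y.2| ≤ 1 := by
      have := (l3 y).trans hz
      rw [abs_le] at this
      rcases le_total 0 y.2 with h | h
      · exact ⟨1, by simp, by rw [abs_le]; constructor <;> linarith⟩
      · exact ⟨-1, by simp, by rw [abs_le]; constructor <;> linarith⟩
    let J : c0 →L[ℝ] N.Sp := N.eqv.symm.toContinuousLinearMap ∘L ContinuousLinearMap.inl ℝ c0 ℝ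
    let w : ℕ → N.Sp := fun n => z + (s - y.1 n) • J (e n)
    have hw1 : ∀ n k, (N.eqv (w n)).1 k = if k = n then s else y.1 k := by
      intro n k
      simp only [w, J, map_add, map_smul, ← hy]
      simp [e_apply]
      split_ifs with h
      · simp [h]
      · simp
    have hw2 : ∀ n, (N.eqv (w n)).2 = y.2 := by
      intro n
      simp only [w, J, map_add, map_smul, ← hy]
      simp
    have hwB : ∀ n, w n ∈ closedBall (0 : N.Sp) 1 := by
      intro n
      rw [mem_closedBall_zero_iff, hn]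
      refine l4 _ (fun k => ?_) fun k => ?_
      · rw [hw1]; split_ifs
        · exact hs1.le
        · exact (l1 y k).trans hz
      · rw [hw1, hw2]; split_ifs
        · exact hs2
        · exact (l2 y k).trans hz
    have hlim := weak_tendsto w z (pert_weak J z _ 2 fun n => by
      have := (l1 y n).trans hz
      linarith [abs_sub s (y.1 n)])
    have h1 : ∀ᶠ n in atTop, |s - (N.eqv x).1 n| ≤ r := by
      filter_upwards [hlim.eventually (hU.mem_nhds hzU)] with n hn'
      have := hW ⟨hn', hwB n⟩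
      rw [mem_closedBall, dist_eq_norm, hn] at this
      have h2 := (l1 _ n).trans this
      rw [map_sub] at h2
      simpa [hw1] using h2
    have h2 := ((tendsto_zero (N.eqv x).1).const_sub s).abs
    rw [sub_zero, hs1] at h2
    exact le_of_tendsto h2 h1
  · let f : N.Sp →L[ℝ] ℝ := ContinuousLinearMap.snd ℝ c0 ℝ ∘L N.eqv.toContinuousLinearMap
    refine ⟨_, ⟨{u | 3 / 4 < f ((toWeakSpace ℝ N.Sp).symm u)},
      isOpen_lt continuous_const (WeakBilin.eval_continuous (topDualPairing ℝ N.Sp).flip f), rfl⟩,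
      ⟨o, ?_, by simp [ho]⟩, ?_⟩
    · show 3 / 4 < (1:ℝ)
      norm_num
    · refine (diam_le_of_forall_dist_le (C := 3 / 2) (by norm_num) ?_).trans_lt (by norm_num)
      rintro u ⟨hu1, hu⟩ v ⟨hv1, hv⟩
      rw [mem_closedBall_zero_iff, hn] at hu hv
      have hu2 : 3 / 4 < (N.eqv u).2 := hu1
      have hv2 : 3 / 4 < (N.eqv v).2 := hv1
      rw [dist_eq_norm, hn, map_sub]
      have a3 := (l3 _).trans hu
      have b3 := (l3 _).trans hv
      refine l4 _ (fun k => ?_) fun k => ?_ <;>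
      · have a1 := (l1 _ k).trans hu
        have a2 := (l2 _ k).trans hu
        have b1 := (l1 _ k).trans hv
        have b2 := (l2 _ k).trans hv
        simp only [abs_le, Prod.fst_sub, Prod.snd_sub, ZeroAtInftyContinuousMap.sub_apply] at *
        constructor <;> linarith

end H91.DaugIdx
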