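import Mathlib

set_option autoImplicit false

namespace Pool.Agent.H91.Delta

/-- `x` in the closed unit ball is a super Delta-point: for every weakly open `U` containing `x`,
the supremum of `‖x - y‖` over `y` in the unit ball intersected with `U` equals `1 + ‖x‖`. -/
def SuperDelta (𝕜 : Type) [RCLike 𝕜] {X : Type} [NormedAddCommGroup X] [NormedSpace 𝕜 X]
    (x : X) : Prop :=
  ‖x‖ ≤ 1 ∧ ∀ U : Set (WeakSpace 𝕜 X), IsOpen U → toWeakSpace 𝕜 X x ∈ U →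
    IsLUB {t : ℝ | ∃ y : X, ‖y‖ ≤ 1 ∧ toWeakSpace 𝕜 X y ∈ U ∧ t = ‖x - y‖} (1 + ‖x‖)

/-- the slice `S(f, α)` of the closed unit ball -/
def slice {𝕜 : Type} [RCLike 𝕜] {X : Type} [NormedAddCommGroup X] [NormedSpace 𝕜 X]
    (f : X →L[𝕜] 𝕜) (α : ℝ) : Set X :=
  {z | ‖z‖ ≤ 1 ∧ 1 - α < RCLike.re (f z)}

/-- convex combination of slices of the closed unit ball -/
def IsCcs (𝕜 : Type) [RCLike 𝕜] {X : Type} [NormedAddCommGroup X] [NormedSpace 𝕜 X]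
    (C : Set X) : Prop :=
  ∃ (n : ℕ) (l : Fin n → ℝ) (f : Fin n → X →L[𝕜] 𝕜) (α : Fin n → ℝ),
    1 ≤ n ∧ (∀ i, 0 ≤ l i) ∧ ∑ i, l i = 1 ∧ (∀ i, ‖f i‖ = 1) ∧ (∀ i, 0 < α i) ∧
    C = {z | ∃ w : Fin n → X, (∀ i, w i ∈ slice (f i) (α i)) ∧ z = ∑ i, ((l i : ℝ) : 𝕜) • w i}

/-- ccs Delta-point -/
def CcsDelta (𝕜 : Type) [RCLike 𝕜] {X : Type} [NormedAddCommGroup X] [NormedSpace 𝕜 X]
    (x : X) : Prop :=
  ‖x‖ = 1 ∧ ∀ C : Set X, IsCcs 𝕜 C → x ∈ C → IsLUB {t : ℝ | ∃ z ∈ C, t = ‖x - z‖} 2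

variable {𝕜 : Type} [RCLike 𝕜] {X : Type} [NormedAddCommGroup X] [NormedSpace 𝕜 X]
  {Y : Type} [NormedAddCommGroup Y] [NormedSpace 𝕜 Y]

theorem ray (x : X) (hx : ‖x‖ = 1) (h : SuperDelta 𝕜 x) (r : ℝ) (h0 : 0 < r) (h1 : r < 1) :
    SuperDelta 𝕜 ((r : 𝕜) • x) := by
  have hn : ‖(r : 𝕜) • x‖ = r := by
    rw [norm_smul, hx, RCLike.norm_ofReal, abs_of_pos h0, mul_one]
  refine ⟨by rw [hn]; exact h1.le, fun U hU hxU => ?_⟩
  set s : ℝ := (1 + r) / 2 with hs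
  have s0 : 0 < s := by positivity
  have s1 : 0 ≤ 1 - s := by linarith
  let φ : WeakSpace 𝕜 X → WeakSpace 𝕜 X := fun y =>
    (s : 𝕜) • y - ((1 - s : ℝ) : 𝕜) • toWeakSpace 𝕜 X x
  have hφ : Continuous φ := (continuous_id.const_smul _).sub continuous_const
  have e0 : (s : 𝕜) • x - ((1 - s : ℝ) : 𝕜) • x = (r : 𝕜) • x := by
    rw [← sub_smul]; congr 1; rw [hs]; push_cast; ring
  have hφx : φ (toWeakSpace 𝕜 X x) = toWeakSpace 𝕜 X ((r : 𝕜) • x) := e0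
  have hL := h.2 (φ ⁻¹' U) (hU.preimage hφ) (by rw [Set.mem_preimage, hφx]; exact hxU)
  rw [hn]
  constructor
  · rintro t ⟨y, hy, -, rfl⟩
    have := norm_sub_le ((r : 𝕜) • x) y
    linarith
  · intro b hb
    have : 1 + ‖x‖ ≤ b / s := by
      apply hL.2
      rintro t ⟨y, hy, hyU, rfl⟩
      rw [le_div_iff₀ s0]
      apply hb
      refine ⟨(s : 𝕜) • y - ((1 - s : ℝ) : 𝕜) • x, ?_, hyU, ?_⟩
      · refine (norm_sub_le _ _).trans ?_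
        rw [norm_smul, norm_smul, hx, RCLike.norm_ofReal, RCLike.norm_ofReal, abs_of_pos s0,
          abs_of_nonneg s1]
        nlinarith
      · have : (r : 𝕜) • x - ((s : 𝕜) • y - ((1 - s : ℝ) : 𝕜) • x) = (s : 𝕜) • (x - y) := by
          rw [← e0]
          have : ((1 - s : ℝ) : 𝕜) • x = ((1 - s : ℝ) : 𝕜) • x := rfl
          rw [smul_sub]; abel
        rw [this, norm_smul, RCLike.norm_ofReal, abs_of_pos s0, mul_comm]
    rw [le_div_iff₀ s0, hx] at this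
    linarith

lemma ccs_norm {C : Set X} (hC : IsCcs 𝕜 C) {z : X} (hz : z ∈ C) : ‖z‖ ≤ 1 := by
  obtain ⟨n, l, f, α, -, hl, hs, -, -, rfl⟩ := hC
  obtain ⟨w, hw, rfl⟩ := hz
  refine (norm_sum_le _ _).trans ?_
  rw [← hs]
  refine Finset.sum_le_sum fun i _ => ?_
  rw [norm_smul, RCLike.norm_ofReal, abs_of_nonneg (hl i)]
  nlinarith [(hw i).1, hl i]

lemma sub_slice (x : X) (hx : ‖x‖ = 1) (g : X →L[𝕜] 𝕜) (c : ℝ) (u : X) (hu : ‖u‖ ≤ 1)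
    (hc : c < RCLike.re (g u)) : ∃ (f : X →L[𝕜] 𝕜) (α : ℝ), ‖f‖ = 1 ∧ 0 < α ∧ u ∈ slice f α ∧
      ∀ z ∈ slice f α, c < RCLike.re (g z) := by
  rcases eq_or_ne g 0 with rfl | hg
  · obtain ⟨f, hf, -⟩ := exists_dual_vector 𝕜 x (by rw [hx]; exact one_ne_zero)
    refine ⟨f, 3, hf, by norm_num, ⟨hu, ?_⟩, fun z _ => by simpa using hc⟩
    have h1 := f.le_opNorm u
    have h2 := RCLike.abs_re_le_norm (f u)
    have h3 := neg_abs_le (RCLike.re (f u))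
    rw [hf] at h1
    linarith
  · have hp : 0 < ‖g‖ := norm_pos_iff.2 hg
    have key : ∀ z, RCLike.re (((((‖g‖⁻¹ : ℝ)) : 𝕜) • g) z) = ‖g‖⁻¹ * RCLike.re (g z) := by
      intro z
      rw [_root_.smul_apply, smul_eq_mul, RCLike.re_ofReal_mul]
    have h1 := g.le_opNorm u
    have h2 := RCLike.re_le_norm (g u)
    have h3 : c < ‖g‖ := by nlinarith
    refine ⟨((‖g‖⁻¹ : ℝ) : 𝕜) • g, 1 - ‖g‖⁻¹ * c, ?_, ?_, ⟨hu, ?_⟩, fun z hz => ?_⟩
    · rw [norm_smul, RCLike.norm_ofReal, abs_of_pos (inv_pos.2 hp), inv_mul_cancel₀ hp.ne']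
    · rw [sub_pos, inv_mul_lt_iff₀ hp]; linarith
    · rw [key, sub_sub_cancel]
      exact mul_lt_mul_of_pos_left hc (inv_pos.2 hp)
    · have := hz.2
      rw [key, sub_sub_cancel] at this
      exact lt_of_mul_lt_mul_left this (inv_pos.2 hp).le

theorem left (x : X) (hx : CcsDelta 𝕜 x) (y : Y) (hy : ‖y‖ ≤ 1) : CcsDelta 𝕜 (x, y) := by
  have hn : ‖(x, y)‖ = 1 := by rw [Prod.norm_def]; simp [hx.1, hy]
  refine ⟨hn, fun C hC hxC => ⟨?_, fun b hb => ?_⟩⟩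
  · rintro t ⟨z, hz, rfl⟩
    have := norm_sub_le (x, y) z
    linarith [ccs_norm hC hz]
  obtain ⟨n, l, f, α, h1, hl, hs, hf, hα, rfl⟩ := hC
  obtain ⟨w, hw, he⟩ := hxC
  have split : ∀ i (u : X), RCLike.re (f i (u, (w i).2)) =
      RCLike.re (((f i).comp (ContinuousLinearMap.inl 𝕜 X Y)) u) + RCLike.re (f i (0, (w i).2)) := by
    intro i u
    rw [← map_add, ContinuousLinearMap.comp_apply, ← map_add]
    simp
  have : ∀ i, ∃ (g : X →L[𝕜] 𝕜) (β : ℝ), ‖g‖ = 1 ∧ 0 < β ∧ (w i).1 ∈ slice g β ∧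
      ∀ z ∈ slice g β, 1 - α i - RCLike.re (f i (0, (w i).2)) <
        RCLike.re (((f i).comp (ContinuousLinearMap.inl 𝕜 X Y)) z) := by
    intro i
    apply sub_slice x hx.1 _ _ _ ((norm_fst_le _).trans (hw i).1)
    have := (hw i).2
    have e := split i (w i).1
    simp only [Prod.mk.eta] at e
    linarith
  choose g β hg hβ hwg hsub using this
  have hx1 : x = ∑ i, ((l i : ℝ) : 𝕜) • (w i).1 := by
    have := congrArg Prod.fst he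
    simpa [Prod.fst_sum] using this
  have hy1 : y = ∑ i, ((l i : ℝ) : 𝕜) • (w i).2 := by
    have := congrArg Prod.snd he
    simpa [Prod.snd_sum] using this
  apply (hx.2 _ ⟨n, l, g, β, h1, hl, hs, hg, hβ, rfl⟩ ⟨fun i => (w i).1, hwg, hx1⟩).2
  rintro t ⟨z, ⟨u, hu, rfl⟩, rfl⟩
  apply hb
  refine ⟨∑ i, ((l i : ℝ) : 𝕜) • (u i, (w i).2), ⟨fun i => (u i, (w i).2), fun i => ⟨?_, ?_⟩, rfl⟩, ?_⟩
  · rw [Prod.norm_def]
    exact max_le (hu i).1 ((norm_snd_le (w i)).trans (hw i).1)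
  · rw [split]; have := hsub i _ (hu i); linarith
  · rw [Prod.norm_def]
    simp [Prod.fst_sum, Prod.snd_sum, ← hy1]

theorem swap (p : X × Y) (h : CcsDelta 𝕜 p) : CcsDelta 𝕜 p.swap := by
  let e : Y × X ≃ₗᵢ[𝕜] X × Y := LinearIsometryEquiv.prodComm 𝕜 Y X
  have hp : e.symm p = p.swap := rfl
  refine ⟨by rw [← hp, e.symm.norm_map, h.1], fun C hC hxC => ⟨?_, fun b hb => ?_⟩⟩
  · rintro t ⟨z, hz, rfl⟩
    have := norm_sub_le p.swap z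
    rw [← hp, e.symm.norm_map, h.1] at this
    rw [← hp]
    linarith [ccs_norm hC hz]
  obtain ⟨n, l, f, α, h1, hl, hs, hf, hα, rfl⟩ := hC
  obtain ⟨w, hw, he⟩ := hxC
  let g : Fin n → (X × Y) →L[𝕜] 𝕜 := fun i =>
    (f i).comp e.symm.toLinearIsometry.toContinuousLinearMap
  have hg : ∀ i, ‖g i‖ = 1 := fun i => by
    rw [← hf i]; exact ContinuousLinearMap.opNorm_comp_linearIsometryEquiv (f i) e.symm
  apply (h.2 _ ⟨n, l, g, α, h1, hl, hs, hg, hα, rfl⟩ ⟨fun i => e (w i), fun i =>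
    ⟨by rw [e.norm_map]; exact (hw i).1, (hw i).2⟩, ?_⟩).2
  · rintro t ⟨z, ⟨u, hu, rfl⟩, rfl⟩
    apply hb
    refine ⟨∑ i, ((l i : ℝ) : 𝕜) • e.symm (u i), ⟨fun i => e.symm (u i), fun i =>
      ⟨by rw [e.symm.norm_map]; exact (hu i).1, (hu i).2⟩, rfl⟩, ?_⟩
    rw [← hp, ← e.symm.norm_map, map_sub, map_sum]
    simp only [map_smul]
  · have : p = e p.swap := rfl
    rw [this, he, map_sum]
    simp only [map_smul]

theorem sum (x : X) (y : Y) (hx : CcsDelta 𝕜 x) (hy : CcsDelta 𝕜 y) (a b : ℝ)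
    (ha : a ∈ Set.Icc (0 : ℝ) 1) (hb : b ∈ Set.Icc (0 : ℝ) 1) (hab : max a b = 1) :
    CcsDelta 𝕜 ((a : 𝕜) • x, (b : 𝕜) • y) := by
  rcases max_eq_iff.1 hab with ⟨rfl, -⟩ | ⟨rfl, -⟩
  · rw [RCLike.ofReal_one, one_smul]
    apply left x hx
    rw [norm_smul, hy.1, RCLike.norm_ofReal, abs_of_nonneg hb.1, mul_one]; exact hb.2
  · rw [RCLike.ofReal_one, one_smul]
    apply swap (y, (a : 𝕜) • x) (left y hy _ _)
    rw [norm_smul, hx.1, RCLike.norm_ofReal, abs_of_nonneg ha.1, mul_one]; exact ha.2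

end Pool.Agent.H91.Delta
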