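import Pool.Agent.H91.SupN

set_option autoImplicit false

namespace H91.DentDelta
open Filter Topology Set Metric Pool.Agent.H91.C0 Pool.Agent.H91.Renorm H91.SupN

/-- denting points of the closed unit ball -/
def dent (X : Type) [NormedAddCommGroup X] [NormedSpace ℝ X] : Set X :=
  {x | ‖x‖ ≤ 1 ∧ ∀ ε : ℝ, 0 < ε → ∃ (f : X →L[ℝ] ℝ) (α : ℝ), f ≠ 0 ∧ 0 < α ∧ ‖f‖ - α < f x ∧
    diam {y : X | ‖y‖ ≤ 1 ∧ ‖f‖ - α < f y} < ε}

noncomputable def d (n : ℕ) : ℝ := 1 / ((n : ℝ) + 2)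
lemma d_pos (n : ℕ) : 0 < d n := by unfold d; positivity
lemma d_le (n : ℕ) : d n ≤ 1 / 2 := by
  unfold d
  apply one_div_le_one_div_of_le (by norm_num)
  linarith [(Nat.cast_nonneg n : (0:ℝ) ≤ n)]
lemma d_lim : Tendsto d atTop (𝓝 0) :=
  tendsto_const_nhds.div_atTop (tendsto_atTop_add_const_right _ _ tendsto_natCast_atTop_atTop)

noncomputable def co (n : ℕ) : (c0 × ℝ) →L[ℝ] ℝ := fn n 1 1
lemma co_apply (n : ℕ) (x : c0 × ℝ) : co n x = x.1 n + x.2 := by simp [co]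
lemma co_bd (n : ℕ) (x : c0 × ℝ) : |co n x| ≤ 2 * ‖x‖ := fn_le n 1 1 (by simp) (by simp) x

noncomputable def q (i : {p : ℕ × ℕ // p.1 ≠ p.2} × Bool) : Seminorm ℝ (c0 × ℝ) :=
  if i.2 then absS ((1 + 3 * d i.1.1.1)⁻¹ • (co i.1.1.1 + d i.1.1.1 • co i.1.1.2))
  else absS ((1 + d i.1.1.1)⁻¹ • (co i.1.1.1 - d i.1.1.1 • co i.1.1.2))

instance : Nonempty {p : ℕ × ℕ // p.1 ≠ p.2} := ⟨⟨(0, 1), by simp⟩⟩

lemma q_le_iff (x : c0 × ℝ) (M : ℝ) : (∀ i, q i x ≤ M) ↔ ∀ j k, j ≠ k →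
    |co j x + d j * co k x| ≤ (1 + 3 * d j) * M ∧ |co j x - d j * co k x| ≤ (1 + d j) * M := by
  have h1 : ∀ j k (h : j ≠ k), q (⟨(j, k), h⟩, true) x ≤ M ↔
      |co j x + d j * co k x| ≤ (1 + 3 * d j) * M := by
    intro j k h
    have := d_pos j
    show |(1 + 3 * d j)⁻¹ * (co j x + d j * co k x)| ≤ M ↔ _
    rw [abs_mul, abs_of_pos (by positivity), inv_mul_le_iff₀ (by positivity)]
  have h2 : ∀ j k (h : j ≠ k), q (⟨(j, k), h⟩, false) x ≤ M ↔
      |co j x - d j * co k x| ≤ (1 + d j) * M := by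
    intro j k h
    have := d_pos j
    show |(1 + d j)⁻¹ * (co j x - d j * co k x)| ≤ M ↔ _
    rw [abs_mul, abs_of_pos (by positivity), inv_mul_le_iff₀ (by positivity)]
  constructor
  · intro h j k hjk
    exact ⟨(h1 j k hjk).1 (h _), (h2 j k hjk).1 (h _)⟩
  · rintro h ⟨⟨⟨j, k⟩, hjk⟩, b⟩
    cases b
    · exact (h2 j k hjk).2 (h j k hjk).2
    · exact (h1 j k hjk).2 (h j k hjk).1

lemma q_le (x : c0 × ℝ) {M : ℝ} (h : ∀ k, |co k x| ≤ M) : ∀ i, q i x ≤ M := by
  rw [q_le_iff]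
  intro j k _
  have h1 := h j
  have h2 := h k
  have h3 := d_pos j
  have h4 : 0 ≤ M := (abs_nonneg _).trans h1
  rw [abs_le] at h1 h2
  constructor <;> rw [abs_le] <;> constructor <;> nlinarith

noncomputable def p : Seminorm ℝ (c0 × ℝ) := supS q 2 fun i x => q_le x (fun k => co_bd k x) i

lemma p_ineq (x : c0 × ℝ) : ∀ j k, j ≠ k → |co j x + d j * co k x| ≤ (1 + 3 * d j) * p x ∧
    |co j x - d j * co k x| ≤ (1 + d j) * p x := (q_le_iff x _).1 fun i => le_supS q _ _ i x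
lemma p_le (x : c0 × ℝ) {M : ℝ} (h : ∀ k, |co k x| ≤ M) : p x ≤ M := supS_le _ _ _ (q_le x h)
lemma co_le (j : ℕ) (x : c0 × ℝ) : |co j x| ≤ (1 + 2 * d j) * p x := by
  obtain ⟨h1, h2⟩ := p_ineq x j (j + 1) (by omega)
  rw [abs_le] at *
  constructor <;> linarith [h1.1, h1.2, h2.1, h2.2]

noncomputable def N : EqNorm ℝ (c0 × ℝ) where
  p := p
  lower := ⟨4, fun x => by
    have hp := apply_nonneg p x
    have h1 : ∀ n, |x.1 n + x.2| ≤ 2 * p x := fun n => by
      rw [← co_apply]; nlinarith [co_le n x, d_le n]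
    have h2 := lim_le _ _ _ h1
    rw [Prod.norm_def]
    refine max_le (norm_le _ (by positivity) fun n => ?_) (by rw [Real.norm_eq_abs]; linarith)
    have h4 : |x.1 n| ≤ |x.1 n + x.2| + |x.2| := by simpa using abs_sub (x.1 n + x.2) x.2
    linarith [h1 n]⟩
  upper := ⟨2, fun x => p_le x fun k => co_bd k x⟩

noncomputable def X (j : ℕ) : c0 × ℝ := ((2 * d j) • e j, 1)
lemma co_X (j k : ℕ) : co k (X j) = if k = j then 1 + 2 * d j else 1 := by
  rw [co_apply]; simp [X, e_apply]; split_ifs <;> ring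

lemma p_X (j : ℕ) : p (X j) ≤ 1 := by
  refine supS_le _ _ _ ((q_le_iff _ _).2 fun i k hik => ?_)
  have := d_pos i; have := d_pos j; have := d_le i; have := d_le j
  rw [co_X, co_X]
  split_ifs with h1 h2
  · exact absurd (h1.trans h2.symm) hik
  · subst h1; constructor <;> rw [abs_le] <;> constructor <;> nlinarith
  · constructor <;> rw [abs_le] <;> constructor <;> nlinarith
  · constructor <;> rw [abs_le] <;> constructor <;> nlinarith

lemma X_dent (j : ℕ) : N.eqv.symm (X j) ∈ dent N.Sp := by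
  refine ⟨p_X j, fun ε hε => ?_⟩
  let f : N.Sp →L[ℝ] ℝ := co j ∘L N.eqv.toContinuousLinearMap
  have hd := d_pos j
  have hd2 := d_le j
  have hf0 : f (N.eqv.symm (X j)) = 1 + 2 * d j := by
    show co j (X j) = _
    rw [co_X, if_pos rfl]
  have hf : ‖f‖ = 1 + 2 * d j := by
    apply le_antisymm
    · exact ContinuousLinearMap.opNorm_le_bound _ (by positivity) fun x => co_le j _
    · have h1 := f.le_opNorm (N.eqv.symm (X j))
      have h2 : ‖N.eqv.symm (X j)‖ ≤ 1 := p_X j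
      rw [hf0, Real.norm_eq_abs, abs_of_pos (by positivity)] at h1
      nlinarith [norm_nonneg f]
  refine ⟨f, ε / 4 * d j, fun h => ?_, by positivity, by rw [hf, hf0]; nlinarith, ?_⟩
  · rw [h, norm_zero] at hf; linarith
  refine (diam_le_of_forall_dist_le (C := ε / 2) (by positivity) ?_).trans_lt (by linarith)
  have key : ∀ y : N.Sp, ‖y‖ ≤ 1 → ‖f‖ - ε / 4 * d j < f y → ∀ k,
      |co k (N.eqv y) - co k (X j)| ≤ ε / 4 := by
    intro y hy hfy k
    rw [hf] at hfy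
    have h0 : f y = co j (N.eqv y) := rfl
    have hy' : p (N.eqv y) ≤ 1 := hy
    rw [co_X]
    split_ifs with h
    · have := co_le j (N.eqv y)
      rw [h]
      rw [abs_le] at this ⊢
      constructor <;> nlinarith
    · obtain ⟨h1, h2⟩ := p_ineq (N.eqv y) j k (Ne.symm h)
      rw [abs_le] at h1 h2 ⊢
      constructor
      · refine le_of_mul_le_mul_left ?_ hd; nlinarith
      · refine le_of_mul_le_mul_left ?_ hd; nlinarith
  rintro u ⟨hu, hu2⟩ v ⟨hv, hv2⟩
  rw [dist_eq_norm]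
  refine p_le (N.eqv (u - v)) fun k => ?_
  have h1 := key u hu hu2 k
  have h2 := key v hv hv2 k
  rw [map_sub, map_sub]
  rw [abs_le] at *
  constructor <;> linarith [h1.1, h1.2, h2.1, h2.2]

theorem main : ∃ (X : Type) (_ : NormedAddCommGroup X) (_ : NormedSpace ℝ X) (x : X),
    CompleteSpace X ∧ ‖x‖ = 1 ∧ x ∈ closure (dent X) ∧
      ∀ U : Set (WeakSpace ℝ X), IsOpen U → toWeakSpace ℝ X x ∈ U → ∀ ε : ℝ, 0 < ε →
        ∃ y : X, ‖y‖ ≤ 1 ∧ toWeakSpace ℝ X y ∈ U ∧ 2 - ε < ‖x - y‖ := by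
  refine ⟨N.Sp, inferInstance, inferInstance, N.eqv.symm (0, 1), inferInstance, ?_, ?_, ?_⟩
  · apply le_antisymm
    · exact p_le (0, 1) fun k => by simp [co_apply]
    · have h1 : Tendsto (fun j => (1 + 2 * d j) * p (0, 1)) atTop (𝓝 (p (0, 1))) := by
        simpa using ((d_lim.const_mul 2).const_add 1).mul_const (p (0, 1))
      exact ge_of_tendsto' h1 fun j => by simpa [co_apply] using co_le j (0, 1)
  · refine mem_closure_of_tendsto (f := fun j => N.eqv.symm (X j)) (b := atTop) ?_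
      (Eventually.of_forall X_dent)
    refine (N.eqv.symm.continuous.tendsto _).comp (Tendsto.prodMk_nhds ?_ tendsto_const_nhds)
    refine squeeze_zero_norm (a := fun j => 2 * d j) (fun j => norm_le _ (by linarith [d_pos j])
      fun k => ?_) (by simpa using d_lim.const_mul 2)
    have := d_pos j
    simp only [ZeroAtInftyContinuousMap.coe_smul, Pi.smul_apply, e_apply, smul_eq_mul]
    split_ifs
    · rw [mul_one, abs_of_pos (by positivity)]
    · simp; positivity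
  · intro U hU hx ε hε
    let I : c0 →L[ℝ] N.Sp := N.eqv.symm.toContinuousLinearMap ∘L ContinuousLinearMap.inl ℝ c0 ℝ
    have hlim := weak_tendsto _ _ (pert_weak I (N.eqv.symm (0, 1)) (fun _ => -2) 2 fun n => by simp)
    obtain ⟨n, h1, h2⟩ := ((hlim.eventually (hU.mem_nhds hx)).and
      (d_lim.eventually (gt_mem_nhds (show 0 < ε / 4 by positivity)))).exists
    refine ⟨_, ?_, h1, ?_⟩
    · have : p ((0, 1) + (-2 : ℝ) • (e n, 0)) ≤ 1 := p_le _ fun k => by
        rw [co_apply]; simp [e_apply]; split_ifs <;> norm_num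
      exact this
    · rw [sub_add_cancel_left, norm_neg]
      have h3 := co_le n ((-2 : ℝ) • (e n, 0))
      have h4 : |co n ((-2 : ℝ) • (e n, 0))| = 2 := by rw [co_apply]; simp [e_apply]
      have h5 : p ((-2 : ℝ) • (e n, 0)) ≤ 2 := p_le _ fun k => by
        rw [co_apply]; simp [e_apply]; split_ifs <;> norm_num
      rw [h4] at h3
      have h6 : 2 - ε < p ((-2 : ℝ) • (e n, 0)) := by
        nlinarith [mul_le_mul_of_nonneg_left h5 (d_pos n).le]
      exact h6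

end H91.DentDelta
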