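import Mathlib

set_option autoImplicit false

namespace H91.DiamCap
open MeasureTheory Set Real Metric Filter Topology
open scoped ENNReal

/-- `μ` is a probability measure on `E` of finite logarithmic energy -/
def Adm (E : Set ℂ) (μ : Measure ℂ) : Prop :=
  IsProbabilityMeasure μ ∧ μ Eᶜ = 0 ∧ μ.prod μ {p | p.1 = p.2} = 0 ∧
    Integrable (fun p : ℂ × ℂ => log ‖p.1 - p.2‖) (μ.prod μ)
noncomputable def energy (μ : Measure ℂ) : ℝ := ∫ p : ℂ × ℂ, log ‖p.1 - p.2‖ ∂(μ.prod μ)
noncomputable def cap (E : Set ℂ) : ℝ := sSup {c | ∃ μ, Adm E μ ∧ c = exp (energy μ)}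
noncomputable def V {n : ℕ} (w : Fin n → ℂ) : ℝ :=
  ∏ j, ∏ k ∈ Finset.Ioi j, ‖w j - w k‖ ^ ((2 : ℝ) / (n * (n - 1)))
noncomputable def delta (n : ℕ) (E : Set ℂ) : ℝ :=
  sSup {d | ∃ w : Fin n → ℂ, (∀ j, w j ∈ E) ∧ d = V w}

noncomputable def W {n : ℕ} (w : Fin n → ℂ) : ℝ := ∏ i, ∏ j ∈ ({i}ᶜ : Finset _), ‖w j - w i‖
lemma W_nonneg {n : ℕ} (w : Fin n → ℂ) : 0 ≤ W w := by unfold W; positivity

lemma V_eq {n : ℕ} (w : Fin n → ℂ) : V w = W w ^ ((1 : ℝ) / (n * (n - 1))) := by
  rw [W, ← Finset.prod_prod_Ioi_mul_eq_prod_prod_off_diag (fun j i => ‖w j - w i‖),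
    ← Real.finsetProd_rpow _ _ (fun _ _ => by positivity)]
  refine Finset.prod_congr rfl fun i _ => ?_
  rw [← Real.finsetProd_rpow _ _ (fun _ _ => by positivity)]
  refine Finset.prod_congr rfl fun j _ => ?_
  rw [norm_sub_rev (w j), ← sq, ← rpow_natCast, ← rpow_mul (norm_nonneg _)]
  congr 1; push_cast; ring

lemma cnt {n : ℕ} (hn : 2 ≤ n) (c : ℝ) :
    ∑ i : Fin n, ∑ _j ∈ ({i}ᶜ : Finset (Fin n)), c = n * (n - 1) * c := by
  simp [Finset.card_compl, Nat.cast_sub (show 1 ≤ n by omega), mul_assoc]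

lemma nn {n : ℕ} (hn : 2 ≤ n) : (0 : ℝ) < n * (n - 1) := by
  have : (2 : ℝ) ≤ n := by exact_mod_cast hn
  nlinarith

lemma V_le {n : ℕ} (hn : 2 ≤ n) {w : Fin n → ℂ} {D : ℝ} (hD : 0 < D)
    (h : ∀ i j, ‖w i - w j‖ ≤ D) : V w ≤ D := by
  have : W w ≤ exp (n * (n - 1) * log D) := by
    rw [← cnt hn, exp_sum]
    refine Finset.prod_le_prod (fun _ _ => by positivity) fun i _ => ?_
    rw [exp_sum]
    exact Finset.prod_le_prod (fun _ _ => by positivity) fun j _ => by rw [exp_log hD]; exact h _ _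
  rw [V_eq]
  refine (rpow_le_rpow (W_nonneg w) this (div_nonneg zero_le_one (nn hn).le)).trans_eq ?_
  rw [← exp_mul, mul_one_div, mul_div_cancel_left₀ _ (nn hn).ne', exp_log hD]

lemma lower {n : ℕ} (hn : 2 ≤ n) {E : Set ℂ} {μ : Measure ℂ} (h : Adm E μ) :
    ∃ w : Fin n → ℂ, (∀ j, w j ∈ E) ∧ exp (energy μ) ≤ V w := by
  obtain ⟨h1, h2, h3, h4⟩ := h
  set P := Measure.infinitePi fun _ : Fin n => μ
  have mp : ∀ {i j : Fin n}, i ≠ j → MeasurePreserving (fun w : Fin n → ℂ => (w i, w j)) P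
      (μ.prod μ) := fun h => ⟨by fun_prop, Measure.infinitePi_map_eval_prod h⟩
  have hi : ∀ i : Fin n, ∀ j ∈ ({i}ᶜ : Finset (Fin n)),
      Integrable (fun w : Fin n → ℂ => log ‖w j - w i‖) P := fun i j hj =>
    (mp (show j ≠ i by simpa using hj)).integrable_comp_of_integrable h4
  have a1 : ∀ᵐ w ∂P, (∀ j, w j ∈ E) ∧ ∀ i j, i ≠ j → w i ≠ w j := by
    refine (ae_all_iff.2 fun j => ?_).and (ae_all_iff.2 fun i => ae_all_iff.2 fun j => ?_)
    · exact (measurePreserving_eval_infinitePi _ j).quasiMeasurePreserving.ae h2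
    · by_cases h : i = j
      · simp [h]
      · simp only [ne_eq, h, not_false_eq_true, forall_true_left]
        exact (mp h).quasiMeasurePreserving.ae (p := fun p => p.1 ≠ p.2) (by simpa [ae_iff] using h3)
  obtain ⟨w, hw, h5⟩ := exists_notMem_null_integral_le (μ := P)
    (integrable_finsetSum Finset.univ fun i _ => integrable_finsetSum _ (hi i)) a1
  replace hw : (∀ j, w j ∈ E) ∧ ∀ i j, i ≠ j → w i ≠ w j := not_not.1 hw
  refine ⟨w, hw.1, ?_⟩
  have e : ∫ w, ∑ i : Fin n, ∑ j ∈ ({i}ᶜ : Finset (Fin n)), log ‖w j - w i‖ ∂P =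
      n * (n - 1) * energy μ := by
    rw [integral_finsetSum _ fun i _ => integrable_finsetSum _ (hi i), ← cnt hn]
    refine Finset.sum_congr rfl fun i _ => ?_
    rw [integral_finsetSum _ (hi i)]
    refine Finset.sum_congr rfl fun j hj => ?_
    rw [energy, ← (mp (show j ≠ i by simpa using hj)).map_eq, integral_map (by fun_prop)
      (Measurable.aestronglyMeasurable (by fun_prop))]
  have e2 : W w = exp (∑ i : Fin n, ∑ j ∈ ({i}ᶜ : Finset (Fin n)), log ‖w j - w i‖) := by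
    simp only [exp_sum]
    exact Finset.prod_congr rfl fun i _ => Finset.prod_congr rfl fun j hj =>
      (exp_log (norm_pos_iff.2 (sub_ne_zero.2 (hw.2 j i (by simpa using hj))))).symm
  rw [V_eq, e2, ← exp_mul, exp_le_exp, mul_one_div, le_div_iff₀ (nn hn), mul_comm, ← e]
  exact h5

lemma bern {ι : Type} (s : Finset ι) (a : ι → ℂ) {k w : ℂ} {e t : ℝ} (he : 0 < e) (ht : 0 < t)
    (ht1 : t ≤ 1) (hw : w ∈ closedBall k e) : ∃ z ∈ closedBall k (t * e),
      t ^ s.card * ∏ i ∈ s, ‖w - a i‖ ≤ ∏ i ∈ s, ‖z - a i‖ := by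
  by_cases h : w ∈ closedBall k (t * e)
  · exact ⟨w, h, mul_le_of_le_one_left (by positivity) (pow_le_one₀ ht.le ht1)⟩
  rw [mem_closedBall_iff_norm] at h hw
  have hr : 0 < t * e := by positivity
  have h0 : 0 < ‖w - k‖ := by linarith
  have h0' := norm_pos_iff.1 h0
  obtain ⟨u, hu, hm⟩ := Complex.exists_mem_frontier_isMaxOn_norm (U := ball (0 : ℂ) 1)
    (f := fun u => ∏ i ∈ s, ((t * e : ℝ) + (k - a i) * u)) isBounded_ball ⟨0, by simp⟩
    (Differentiable.diffContOnCl (by fun_prop))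
  rw [frontier_ball _ one_ne_zero, mem_sphere_zero_iff_norm] at hu
  have hu0 : u ≠ 0 := by rintro rfl; simp at hu
  have hv : ‖((t * e : ℝ) : ℂ) / (w - k)‖ = t * e / ‖w - k‖ := by
    rw [norm_div, Complex.norm_real, norm_of_nonneg hr.le]
  refine ⟨k + (t * e : ℝ) / u, by simp [hu, abs_of_pos ht, abs_of_pos he], ?_⟩
  have := hm (show ((t * e : ℝ) : ℂ) / (w - k) ∈ closure (ball 0 1) from subset_closure
    (by rw [mem_ball_zero_iff, hv, div_lt_one h0]; linarith))
  simp only [mem_setOf_eq, Function.comp, norm_prod] at this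
  rw [← Finset.prod_const, ← Finset.prod_mul_distrib]
  refine (Finset.prod_le_prod (fun _ _ => by positivity) fun i _ => ?_).trans
    (this.trans_eq (Finset.prod_congr rfl fun i _ => ?_))
  · rw [show ((t * e : ℝ) : ℂ) + (k - a i) * ((t * e : ℝ) / (w - k)) =
      (t * e : ℝ) / (w - k) * (w - a i) by field_simp; ring, norm_mul, hv]
    gcongr
    rw [le_div_iff₀ h0]; gcongr
  · rw [show ((t * e : ℝ) : ℂ) + (k - a i) * u = u * (k + (t * e : ℝ) / u - a i) by
      field_simp; ring, norm_mul, hu, one_mul]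

lemma W_split {n : ℕ} (w : Fin n → ℂ) (j : Fin n) : W w = (∏ i ∈ ({j}ᶜ : Finset _), ‖w j - w i‖) ^ 2
    * ∏ i ∈ ({j}ᶜ : Finset _), ∏ k ∈ ({i}ᶜ : Finset _).erase j, ‖w k - w i‖ := by
  rw [sq, mul_assoc, ← Finset.prod_mul_distrib, W, Fintype.prod_eq_mul_prod_compl j]
  refine congrArg₂ _ ?_ ?_
  · exact Finset.prod_congr rfl fun i _ => norm_sub_rev _ _
  · exact Finset.prod_congr rfl fun i hi => (Finset.mul_prod_erase _ (fun k => ‖w k - w i‖)
      (by simpa [eq_comm] using hi)).symm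

lemma move {n : ℕ} {K : Set ℂ} {e t : ℝ} (he : 0 < e) (ht : 0 < t) (ht1 : t ≤ 1) (w : Fin n → ℂ)
    (hw : ∀ j, ∃ k ∈ K, w j ∈ closedBall k e) (s : Finset (Fin n)) : ∃ v : Fin n → ℂ,
    (∀ j, ∃ k ∈ K, v j ∈ closedBall k e) ∧ (∀ j ∈ s, ∃ k ∈ K, v j ∈ closedBall k (t * e)) ∧
    t ^ (2 * (n - 1) * s.card) * W w ≤ W v := by
  induction s using Finset.induction_on with
  | empty => exact ⟨w, hw, by simp, by simp⟩
  | insert j s hj ih =>
    obtain ⟨v, h1, h2, h3⟩ := ih
    obtain ⟨k, hk, h4⟩ := h1 j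
    obtain ⟨z, hz, h5⟩ := bern ({j}ᶜ : Finset (Fin n)) v he ht ht1 h4
    refine ⟨Function.update v j z, fun i => ?_, fun i hi => ?_, ?_⟩
    · by_cases h : i = j
      · subst h
        exact ⟨k, hk, by simpa using closedBall_subset_closedBall (by nlinarith) hz⟩
      · simpa [h] using h1 i
    · by_cases h : i = j
      · subst h; exact ⟨k, hk, by simpa using hz⟩
      · simpa [h] using h2 i (by simpa [h] using hi)
    · rw [Finset.card_insert_of_notMem hj, mul_add, mul_one, pow_add, mul_comm (t ^ _), mul_assoc]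
      refine (mul_le_mul_of_nonneg_left h3 (by positivity)).trans ?_
      rw [W_split v j, W_split _ j, ← mul_assoc, pow_mul', ← mul_pow]
      refine mul_le_mul (pow_le_pow_left₀ (by positivity) (le_trans ?_ (h5.trans_eq ?_)) 2)
        (le_of_eq ?_) (by positivity) (by positivity)
      · simp [Finset.card_compl]
      · exact Finset.prod_congr rfl fun i hi => by simp [show i ≠ j by simpa using hi]
      · exact Finset.prod_congr rfl fun i hi => Finset.prod_congr rfl fun l hl => by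
          simp [show i ≠ j by simpa using hi, Finset.ne_of_mem_erase hl]

noncomputable def sg (r : ℝ) (a : ℂ) : Measure ℂ :=
  ((ENNReal.ofReal (2 * π))⁻¹ • volume.restrict (Ioc 0 (2 * π))).map (circleMap a r)

instance (r : ℝ) (a : ℂ) : IsProbabilityMeasure (sg r a) := by
  have : IsProbabilityMeasure ((ENNReal.ofReal (2 * π))⁻¹ • volume.restrict (Ioc 0 (2 * π))) :=
    ⟨by simp [-ENNReal.ofReal_mul]; exact ENNReal.inv_mul_cancel (by simp [pi_pos]) ENNReal.ofReal_ne_top⟩
  exact Measure.isProbabilityMeasure_map (by fun_prop)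

lemma sg_pt {r : ℝ} (hr : 0 < r) (a z : ℂ) : sg r a {z} = 0 := by
  rw [sg, Measure.map_apply (by fun_prop) (measurableSet_singleton z), Measure.smul_apply,
    ((countable_singleton z).preimage_circleMap a hr.ne').measure_zero, smul_zero]

lemma sg_sph {r : ℝ} (hr : 0 < r) (a : ℂ) : ∀ᵐ z ∂sg r a, z ∈ sphere a r :=
  (ae_map_iff (by fun_prop) isClosed_sphere.measurableSet).2
    (.of_forall fun θ => circleMap_mem_sphere a hr.le θ)

lemma sg_int (r : ℝ) (a z : ℂ) : Integrable (fun w => log ‖w - z‖) (sg r a) := by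
  rw [sg, integrable_map_measure (Measurable.aestronglyMeasurable (by fun_prop)) (by fun_prop)]
  exact (circleIntegrable_log_norm_sub_const r).1.smul_measure (by simp [pi_pos])

lemma sg_val {r : ℝ} (hr : 0 < r) (a z : ℂ) :
    ∫ w, log ‖w - z‖ ∂sg r a = log (max r ‖a - z‖) := by
  have := circleAverage_log_norm_sub_const_eq_log_radius_add_posLog (a := z) (c := a) hr.ne'
  rw [posLog_eq_log_max_one (by positivity), ← log_mul hr.ne' (by positivity),
    mul_max_of_nonneg _ _ hr.le, mul_one, mul_inv_cancel_left₀ hr.ne'] at this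
  rw [← this, sg, integral_map (by fun_prop) (Measurable.aestronglyMeasurable (by fun_prop)),
    integral_smul_measure, circleAverage, intervalIntegral.integral_of_le (by positivity),
    ENNReal.toReal_inv, ENNReal.toReal_ofReal (by positivity)]

lemma smear {n : ℕ} (hn : 2 ≤ n) {E : Set ℂ} {D r : ℝ} (hr : 0 < r)
    (hD : ∀ x ∈ E, ∀ y ∈ E, ‖x - y‖ ≤ D) (w : Fin n → ℂ) (hw : ∀ j, sphere (w j) r ⊆ E) :
    ∃ μ, Adm E μ ∧ (r ^ n * W w) ^ ((1 : ℝ) / n ^ 2) ≤ exp (energy μ) := by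
  set μ : Measure ℂ := (n : ℝ≥0∞)⁻¹ • ∑ j, sg r (w j) with hμ
  have n0 : n ≠ 0 := by omega
  have h1 : IsProbabilityMeasure μ := ⟨by
    simp [hμ]; exact ENNReal.inv_mul_cancel (by simpa) (by simp)⟩
  have hae : ∀ p : ℂ → Prop, (∀ j, ∀ᵐ z ∂sg r (w j), p z) → ∀ᵐ z ∂μ, p z := fun p h => by
    simp only [ae_iff] at h ⊢
    simp [hμ, h]
  have h2 : ∀ᵐ z ∂μ, z ∈ E := hae _ fun j => (sg_sph hr _).mono (hw j)
  have hi : ∀ f : ℂ → ℝ, (∀ j, Integrable f (sg r (w j))) →
      Integrable f μ ∧ ∫ z, f z ∂μ = (n : ℝ)⁻¹ * ∑ j, ∫ z, f z ∂sg r (w j) := fun f h =>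
    ⟨(integrable_finsetSum_measure.2 fun j _ => h j).smul_measure (by simpa), by
      rw [hμ, integral_smul_measure, integral_finsetSum_measure fun j _ => h j]; simp⟩
  have hU : ∀ z, Integrable (fun v => log ‖z - v‖) μ ∧
      ∫ v, log ‖z - v‖ ∂μ = (n : ℝ)⁻¹ * ∑ k, log (max r ‖w k - z‖) := fun z => by
    simpa only [norm_sub_rev z, sg_val hr] using hi _ fun j => sg_int r (w j) z
  have hm : ∀ t : ℝ, log r ≤ log (max r t) := fun t => log_le_log hr (le_max_left _ _)
  have n1 : (0 : ℝ) < n := by positivity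
  have h4 : Integrable (fun p : ℂ × ℂ => log ‖p.1 - p.2‖) (μ.prod μ) := by
    have hme : StronglyMeasurable (fun p : ℂ × ℂ => log ‖p.1 - p.2‖) :=
      Measurable.stronglyMeasurable (by fun_prop)
    refine (integrable_prod_iff hme.aestronglyMeasurable).2 ⟨.of_forall fun z => (hU z).1,
      .of_bound hme.norm.integral_prod_right'.aestronglyMeasurable (2 * D - log r)
        (h2.mono fun z hz => ?_)⟩
    rw [norm_of_nonneg (integral_nonneg fun _ => norm_nonneg _)]
    refine (integral_mono_ae (hU z).1.norm ((integrable_const (2 * D)).sub (hU z).1)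
      (h2.mono fun v hv => ?_)).trans ?_
    · have := hD z hz v hv
      have := log_le_self (norm_nonneg (z - v))
      have := norm_nonneg (z - v)
      simp only [Pi.sub_apply, norm_eq_abs]
      rw [abs_le]; constructor <;> linarith
    · simp only [Pi.sub_apply]
      rw [integral_sub (integrable_const _) (hU z).1, (hU z).2, integral_const, probReal_univ,
        one_smul, sub_le_sub_iff_left, le_inv_mul_iff₀ n1]
      simpa using Finset.sum_le_sum fun k (_ : k ∈ Finset.univ) => hm ‖w k - z‖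
  have hψ : ∀ j k, Integrable (fun z => log (max r ‖w k - z‖)) (sg r (w j)) := fun j k => by
    have hc : Continuous fun z => log (max r ‖w k - z‖) :=
      Continuous.log (by fun_prop) fun z => (lt_max_of_lt_left hr).ne'
    obtain ⟨C, hC⟩ := (isCompact_sphere (w j) r).exists_bound_of_continuousOn hc.continuousOn
    exact .of_bound hc.aestronglyMeasurable C ((sg_sph hr _).mono hC)
  refine ⟨μ, ⟨h1, h2, ?_, h4⟩, ?_⟩
  · rw [Measure.prod_apply (measurableSet_eq_fun measurable_fst measurable_snd)]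
    simp [hμ, sg_pt hr]
  · have e1 : (∑ j, ∑ k, log (max r ‖w k - w j‖)) * (1 / n ^ 2) ≤ energy μ := by
      rw [energy, integral_prod _ h4]
      simp only [fun z => (hU z).2]
      rw [integral_const_mul, (hi _ fun j => integrable_finsetSum _ fun k _ => hψ j k).2,
        ← mul_assoc, mul_comm, one_div, sq, mul_inv]
      gcongr with j
      rw [integral_finsetSum _ fun k _ => hψ j k]
      gcongr with k
      have a1 : log r ≤ ∫ z, log (max r ‖w k - z‖) ∂sg r (w j) := by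
        simpa using integral_mono (integrable_const (log r)) (hψ j k) fun z => hm _
      rw [norm_sub_rev, ← sg_val hr]
      refine integral_mono_ae (sg_int _ _ _) (hψ j k) ?_
      filter_upwards [measure_eq_zero_iff_ae_notMem.1 (sg_pt hr (w j) (w k))] with z hz
      rw [norm_sub_rev (w k)]
      exact log_le_log (norm_pos_iff.2 (sub_ne_zero.2 hz)) (le_max_right _ _)
    refine le_trans ?_ (exp_le_exp.2 e1)
    rw [exp_mul]
    refine rpow_le_rpow (mul_nonneg (by positivity) (W_nonneg w)) ?_ (by positivity)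
    simp only [exp_sum, exp_log (lt_max_of_lt_left hr)]
    rw [W, ← Fin.prod_const, ← Finset.prod_mul_distrib]
    refine Finset.prod_le_prod (fun _ _ => by positivity) fun i _ => ?_
    rw [Fintype.prod_eq_mul_prod_compl i]
    gcongr <;> simp

theorem main : ∀ K : Set ℂ, IsCompact K → K.Nonempty →
    Tendsto (fun n : ℕ => delta n (cthickening (1 / n) K) / cap (cthickening (1 / n) K))
      atTop (𝓝 1) := by
  intro K hK ⟨k0, hk0⟩
  obtain ⟨R, hR, hR'⟩ := (hK.isBounded.cthickening (δ := 1)).exists_pos_norm_le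
  set D := 2 * R
  have hD : 0 < D := by positivity
  have lim : Tendsto (fun n : ℕ => ((1 - 1 / (n : ℝ)) ^ 2)⁻¹ * ((n : ℝ) ^ ((1 : ℝ) / n)) ^ 2 *
      D ^ ((1 : ℝ) / n)) atTop (𝓝 1) := by
    have a := tendsto_one_div_atTop_nhds_zero_nat (𝕜 := ℝ)
    simpa using ((((a.const_sub 1).pow 2).inv₀ (by simp)).mul ((tendsto_rpow_div.comp
      tendsto_natCast_atTop_atTop).pow 2)).mul ((continuous_const_rpow hD.ne').tendsto 0 |>.comp a)
  have key : ∀ n : ℕ, 2 ≤ n → 1 ≤ delta n (cthickening (1 / n) K) / cap (cthickening (1 / n) K) ∧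
      delta n (cthickening (1 / n) K) / cap (cthickening (1 / n) K) ≤ ((1 - 1 / (n : ℝ)) ^ 2)⁻¹ *
      ((n : ℝ) ^ ((1 : ℝ) / n)) ^ 2 * D ^ ((1 : ℝ) / n) := by
    intro n hn
    have n2 : (2 : ℝ) ≤ n := by exact_mod_cast hn
    have n0 : (0 : ℝ) < n := by linarith
    set e : ℝ := 1 / n with he
    have e0 : 0 < e := by positivity
    have e1 : e < 1 := by rw [he, div_lt_one n0]; linarith
    set E := cthickening e K
    have hE : ∀ x, x ∈ E ↔ ∃ k ∈ K, x ∈ closedBall k e := fun x => by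
      simp [E, hK.cthickening_eq_biUnion_closedBall e0.le]
    have hd : ∀ x ∈ E, ∀ y ∈ E, ‖x - y‖ ≤ D := fun x hx y hy => (norm_sub_le _ _).trans (by
      linarith [hR' x (cthickening_mono e1.le K hx), hR' y (cthickening_mono e1.le K hy)])
    have b1 : BddAbove {d | ∃ w : Fin n → ℂ, (∀ j, w j ∈ E) ∧ d = V w} :=
      ⟨D, by rintro _ ⟨w, hw, rfl⟩; exact V_le hn hD fun i j => hd _ (hw i) _ (hw j)⟩
    have l1 : ∀ c ∈ {c | ∃ μ, Adm E μ ∧ c = exp (energy μ)}, c ≤ delta n E := by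
      rintro _ ⟨μ, hμ, rfl⟩
      obtain ⟨w, hw, h⟩ := lower hn hμ
      exact h.trans (le_csSup b1 ⟨w, hw, rfl⟩)
    have sm : ∀ w : Fin n → ℂ, (∀ j, w j ∈ E) → ∃ μ, Adm E μ ∧
        ((e * e) ^ n * ((1 - e) ^ (2 * (n - 1) * n) * W w)) ^ ((1 : ℝ) / n ^ 2) ≤ exp (energy μ) := by
      intro w hw
      obtain ⟨v, -, h2, h3⟩ := move e0 (sub_pos.2 e1) (by linarith) w (fun j => (hE _).1 (hw j))
        Finset.univ
      obtain ⟨μ, hμ, h⟩ := smear hn (mul_pos e0 e0) hd v fun j z hz => by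
        obtain ⟨k, hk, h⟩ := h2 j (Finset.mem_univ j)
        refine (hE z).2 ⟨k, hk, (dist_triangle z (v j) k).trans ?_⟩
        rw [mem_sphere.1 hz]; linarith [mem_closedBall.1 h]
      rw [Finset.card_univ, Fintype.card_fin] at h3
      have := W_nonneg w
      have := sub_pos.2 e1
      exact ⟨μ, hμ, le_trans (by gcongr) h⟩
    have w0 : ∀ _j : Fin n, k0 ∈ E := fun _ => self_subset_cthickening K hk0
    obtain ⟨μ0, hμ0, -⟩ := sm (fun _ => k0) w0
    have c0 : 0 < cap E := (exp_pos _).trans_le (le_csSup ⟨_, l1⟩ ⟨μ0, hμ0, rfl⟩)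
    refine ⟨(one_le_div c0).2 (csSup_le ⟨_, μ0, hμ0, rfl⟩ l1), (div_le_iff₀ c0).2
      (csSup_le ⟨_, _, w0, rfl⟩ ?_)⟩
    rintro _ ⟨w, hw, rfl⟩
    obtain ⟨μ, hμ, h⟩ := sm w hw
    have h1 : _ ≤ cap E := h.trans (le_csSup ⟨_, l1⟩ ⟨μ, hμ, rfl⟩)
    have h2 := V_le hn hD fun i j => hd _ (hw i) _ (hw j)
    have t0 := sub_pos.2 e1
    rcases (W_nonneg w).eq_or_lt with h0 | h0
    · rw [V_eq, ← h0, zero_rpow (div_pos one_pos (nn hn)).ne']; positivity
    have v0 : 0 < V w := by rw [V_eq]; positivity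
    rw [← log_le_log_iff (by positivity) c0, log_rpow (by positivity), log_mul (by positivity)
      (by positivity), log_mul (by positivity) h0.ne', log_pow, log_pow, log_mul e0.ne' e0.ne'] at h1
    rw [← log_le_log_iff v0 hD] at h2
    rw [← log_le_log_iff v0 (by positivity), log_mul (by positivity) c0.ne', log_mul (by positivity)
      (by positivity), log_mul (by positivity) (by positivity), log_inv, log_pow, log_pow,
      log_rpow n0, log_rpow hD]
    have e2 : log (W w) = n * (n - 1) * log (V w) := by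
      rw [V_eq, log_rpow h0, ← mul_assoc, mul_one_div_cancel (nn hn).ne', one_mul]
    have e3 : log e = -log n := by rw [he, one_div, log_inv]
    have e4 : log (1 - e) ≤ 0 := log_nonpos t0.le (by linarith)
    have e5 : 1 / (n : ℝ) ^ 2 * (n * (-log n + -log n) + (2 * (n - 1) * n * log (1 - e) +
        n * (n - 1) * log (V w))) = -2 * e * log n + 2 * (1 - e) * log (1 - e) +
        (1 - e) * log (V w) := by
      generalize log (1 - e) = a
      rw [he]; field_simp; ring
    rw [e2, e3] at h1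
    push_cast [Nat.cast_sub (show 1 ≤ n by omega)] at h1 ⊢
    rw [e5] at h1
    nlinarith [mul_le_mul_of_nonneg_left h2 e0.le, mul_nonneg e0.le (neg_nonneg.2 e4)]
  exact tendsto_of_tendsto_of_tendsto_of_le_of_le' tendsto_const_nhds lim
    ((eventually_ge_atTop 2).mono fun n hn => (key n hn).1)
    ((eventually_ge_atTop 2).mono fun n hn => (key n hn).2)

end H91.DiamCap
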