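import Mathlib

set_option autoImplicit false

namespace Pool.Agent.H91.Discrete

open Set Topology

theorem core {Z Γ ι : Type} [TopologicalSpace Z] [T2Space Z] [Monoid Γ] [Countable ι]
    (act : Γ → Z → Z) (hc : ∀ g, Continuous (act g)) (h1 : ∀ z, act 1 z = z)
    (hm : ∀ g h z, act (g * h) z = act g (act h z))
    (K0 : Set Z) (hK : IsCompact K0) (hne : K0.Nonempty) (hinv : ∀ g, ∀ z ∈ K0, act g z ∈ K0)
    (B : ι → Set Z) (hB : ∀ i, IsClosed (B i)) (hcov : K0 ⊆ ⋃ i, B i) :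
    ∃ z ∈ K0, ∃ i, ∃ F : Finset Γ, ∀ g, ∃ f ∈ F, act f (act g z) ∈ B i := by
  let S : Set (Set Z) := {K | K ⊆ K0 ∧ IsClosed K ∧ K.Nonempty ∧ ∀ g, ∀ z ∈ K, act g z ∈ K}
  obtain ⟨K, -, hmin⟩ := zorn_superset_nonempty S (by
    intro c hcS hch hcn
    have : Nonempty c := hcn.to_subtype
    refine ⟨⋂₀ c, ⟨?_, ?_, ?_, ?_⟩, fun s hs => sInter_subset_of_mem hs⟩
    · obtain ⟨s, hs⟩ := hcn
      exact (sInter_subset_of_mem hs).trans (hcS hs).1
    · exact isClosed_sInter fun s hs => (hcS hs).2.1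
    · apply IsCompact.nonempty_sInter_of_directed_nonempty_isCompact_isClosed
      · intro a ha b hb
        rcases eq_or_ne a b with rfl | hab
        · exact ⟨a, ha, Subset.rfl, Subset.rfl⟩
        · rcases hch ha hb hab with h | h
          · exact ⟨a, ha, Subset.rfl, h⟩
          · exact ⟨b, hb, h, Subset.rfl⟩
      · exact fun s hs => (hcS hs).2.2.1
      · exact fun s hs => hK.of_isClosed_subset (hcS hs).2.1 (hcS hs).1
      · exact fun s hs => (hcS hs).2.1
    · intro g z hz s hs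
      exact (hcS hs).2.2.2 g z (hz s hs)) K0 ⟨Subset.rfl, hK.isClosed, hne, hinv⟩
  obtain ⟨hK0, hKc, hKn, hKi⟩ := hmin.prop
  have hKK : IsCompact K := hK.of_isClosed_subset hKc hK0
  have : CompactSpace K := isCompact_iff_compactSpace.1 hKK
  have : Nonempty K := hKn.to_subtype
  obtain ⟨i, z0, hz0⟩ := nonempty_interior_of_iUnion_of_closed (X := K)
    (f := fun i => Subtype.val ⁻¹' B i) (fun i => (hB i).preimage continuous_subtype_val) (by
      apply eq_univ_of_forall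
      intro z
      obtain ⟨i, hi⟩ := mem_iUnion.1 (hcov (hK0 z.2))
      exact mem_iUnion.2 ⟨i, hi⟩)
  obtain ⟨V, hVB, hVo, hzV⟩ := mem_interior.1 hz0
  obtain ⟨U, hUo, rfl⟩ := isOpen_induced_iff.1 hVo
  have hcover : K ⊆ ⋃ g, act g ⁻¹' U := by
    by_contra hn
    have hmem : K \ ⋃ g, act g ⁻¹' U ∈ S := by
      refine ⟨sdiff_subset.trans hK0, ?_, ?_, ?_⟩
      · exact hKc.sdiff (isOpen_iUnion fun g => hUo.preimage (hc g))
      · exact sdiff_nonempty.2 hn
      · rintro g z ⟨hz, hz'⟩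
        refine ⟨hKi g z hz, fun hh => hz' ?_⟩
        obtain ⟨k, hk⟩ := mem_iUnion.1 hh
        exact mem_iUnion.2 ⟨k * g, by simpa [hm] using hk⟩
    have := hmin.le_of_le hmem sdiff_subset z0.2
    exact this.2 (mem_iUnion.2 ⟨1, by simpa [h1] using hzV⟩)
  obtain ⟨F, hF⟩ := hKK.elim_finite_subcover _ (fun g => hUo.preimage (hc g)) hcover
  refine ⟨z0, hK0 z0.2, i, F, fun g => ?_⟩
  have hz := hKi g z0 z0.2
  obtain ⟨f, hf, hfz⟩ := mem_iUnion₂.1 (hF hz)
  exact ⟨f, hf, hVB (a := ⟨_, hKi f _ hz⟩) hfz⟩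

variable {𝕜 : Type} [RCLike 𝕜] {X : Type} [NormedAddCommGroup X] [NormedSpace 𝕜 X]

lemma cont_fr (F : X →L[𝕜] X) (s : Finset X) (h : ∀ x, F x ∈ Submodule.span 𝕜 (s : Set X)) :
    Continuous (fun x : WeakSpace 𝕜 X => F ((toWeakSpace 𝕜 X).symm x)) := by
  set V := Submodule.span 𝕜 (s : Set X)
  have : FiniteDimensional 𝕜 V := FiniteDimensional.span_of_finite 𝕜 s.finite_toSet
  let b := Module.finBasis 𝕜 V
  let φ : Fin (Module.finrank 𝕜 V) → StrongDual 𝕜 X := fun j =>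
    (LinearMap.toContinuousLinearMap (b.coord j)).comp (F.codRestrict V h)
  have e : ∀ x, F x = ∑ j, φ j x • (b j : X) := by
    intro x
    have := congrArg Subtype.val (b.sum_repr ⟨F x, h x⟩)
    refine this.symm.trans ?_
    rw [Submodule.coe_sum]
    rfl
  simp only [e]
  apply continuous_finsetSum
  intro j _
  apply Continuous.smul _ continuous_const
  exact WeakBilin.eval_continuous (topDualPairing 𝕜 X).flip (φ j)

lemma closed_convex (A : Set X) (h1 : IsClosed A) (h2 : letI := NormedSpace.restrictScalars ℝ 𝕜 X; Convex ℝ A) :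
    IsClosed ((toWeakSpace 𝕜 X).symm ⁻¹' A) := by
  let := NormedSpace.restrictScalars ℝ 𝕜 X
  have : IsScalarTower ℝ 𝕜 X := ⟨fun a b x => by
    show (a • b) • x = (algebraMap ℝ 𝕜 a) • (b • x)
    rw [Algebra.smul_def, mul_smul]⟩
  have := h2.toWeakSpace_closure 𝕜
  rw [h1.closure_eq] at this
  have e : (toWeakSpace 𝕜 X).symm ⁻¹' A = toWeakSpace 𝕜 X '' A := by
    ext x
    constructor
    · intro hx; exact ⟨_, hx, (toWeakSpace 𝕜 X).apply_symm_apply x⟩
    · rintro ⟨y, hy, rfl⟩; simpa using hy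
  rw [e, this]
  exact isClosed_closure

lemma closed_ball (c : X) (r : ℝ) :
    IsClosed ((toWeakSpace 𝕜 X).symm ⁻¹' Metric.closedBall c r) := by
  apply closed_convex _ Metric.isClosed_closedBall
  let := NormedSpace.restrictScalars ℝ 𝕜 X
  exact convex_closedBall c r

lemma closed_sub (V : Submodule 𝕜 X) (h : IsClosed (V : Set X)) :
    IsClosed ((toWeakSpace 𝕜 X).symm ⁻¹' (V : Set X)) := by
  apply closed_convex _ h
  intro x hx y hy a b _ _ _
  exact V.add_mem (V.smul_mem (algebraMap ℝ 𝕜 a) hx) (V.smul_mem (algebraMap ℝ 𝕜 b) hy)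

lemma compact_ball (hr : ∀ φ : (X →L[𝕜] 𝕜) →L[𝕜] 𝕜, ∃ x : X, ∀ f : X →L[𝕜] 𝕜, φ f = f x)
    (r : ℝ) : IsCompact ((toWeakSpace 𝕜 X).symm ⁻¹' Metric.closedBall (0 : X) r) := by
  rw [← (closed_ball (𝕜 := 𝕜) (0 : X) r).closure_eq]
  apply NormedSpace.isCompact_closure_of_isBounded
  · exact Metric.isBounded_closedBall (x := (0 : X)) (r := r)
  · intro φ _
    obtain ⟨x, hx⟩ := hr (StrongDual.toWeakDual.symm φ)
    refine ⟨toWeakSpace 𝕜 X x, ?_⟩
    apply DFunLike.ext
    intro f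
    exact (hx f).symm

lemma inv_app (k : (X →L[𝕜] X)ˣ) (x : X) : (k⁻¹).val (k.val x) = x := by
  have : (k⁻¹).val (k.val x) = ((k⁻¹).val * k.val) x := rfl
  rw [this, Units.inv_mul]; rfl

lemma app_inv (k : (X →L[𝕜] X)ˣ) (x : X) : k.val ((k⁻¹).val x) = x := by
  have : k.val ((k⁻¹).val x) = (k.val * (k⁻¹).val) x := rfl
  rw [this, Units.mul_inv]; rfl

theorem main (hr : ∀ φ : (X →L[𝕜] 𝕜) →L[𝕜] 𝕜, ∃ x : X, ∀ f : X →L[𝕜] 𝕜, φ f = f x)
    (G : Subgroup (X →L[𝕜] X)ˣ) (hC : ∃ C : ℝ, ∀ g ∈ G, ‖g.val‖ ≤ C)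
    (hF : ∀ g ∈ G, ∃ ε : 𝕜, ‖ε‖ = 1 ∧ ∃ s : Finset X, ∀ x : X,
      g.val x - ε • x ∈ Submodule.span 𝕜 (s : Set X))
    (hd : ∃ s : Finset X, ∃ δ : ℝ, 0 < δ ∧ ∀ h ∈ G, (∀ x ∈ s, ‖h.val x - x‖ < δ) → h = 1) :
    (G : Set (X →L[𝕜] X)ˣ).Finite := by
  classical
  by_contra hinf
  let g : ℕ ↪ G := Set.Infinite.natEmbedding _ hinf
  obtain ⟨C0, hC0⟩ := hC
  set C := max C0 1 with hCdef
  have hC1 : 1 ≤ C := le_max_right _ _
  have hCp : 0 < C := by linarith
  have hC : ∀ k ∈ G, ∀ x, ‖k.val x‖ ≤ C * ‖x‖ := fun k hk x =>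
    k.val.le_of_opNorm_le ((hC0 k hk).trans (le_max_left _ _)) x
  obtain ⟨s, δ, hδ, hd⟩ := hd
  obtain ⟨M, hM1, hM⟩ : ∃ M : ℝ, 1 ≤ M ∧ ∀ x ∈ s, ‖x‖ ≤ M := by
    obtain ⟨M, hM⟩ := (s.finite_toSet.image norm).bddAbove
    exact ⟨max M 1, le_max_right _ _, fun x hx => (hM ⟨x, hx, rfl⟩).trans (le_max_left _ _)⟩
  let π : FreeMonoid ℕ →* G := FreeMonoid.lift g
  let T : FreeMonoid ℕ → X →L[𝕜] X := fun γ => (π γ).val.val
  let u : WeakSpace 𝕜 X → X := (toWeakSpace 𝕜 X).symm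
  let act : FreeMonoid ℕ → (s → WeakSpace 𝕜 X) → (s → WeakSpace 𝕜 X) :=
    fun γ z i => WeakSpace.map (T γ) (z i)
  have hact : ∀ γ z i, u (act γ z i) = T γ (u (z i)) := fun _ _ _ => rfl
  have hc : ∀ γ, Continuous (act γ) := fun γ =>
    continuous_pi fun i => (WeakSpace.map (T γ)).continuous.comp (continuous_apply i)
  have h1 : ∀ z, act 1 z = z := by
    intro z; funext i
    show T 1 (u (z i)) = u (z i)
    simp [T]
  have hm : ∀ a b z, act (a * b) z = act a (act b z) := by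
    intro a b z; funext i
    show T (a * b) (u (z i)) = T a (T b (u (z i)))
    simp [T]
  let z0 : s → WeakSpace 𝕜 X := fun i => toWeakSpace 𝕜 X i
  let O : Set (s → WeakSpace 𝕜 X) := range fun γ => act γ z0
  have hO : ∀ γ (i : s), u (act γ z0 i) = T γ i := fun _ _ => rfl
  have hPc : IsCompact (Set.pi univ fun _ : s => u ⁻¹' Metric.closedBall (0 : X) (C * M)) :=
    isCompact_univ_pi fun _ => compact_ball hr _
  have hOP : closure O ⊆ Set.pi univ fun _ : s => u ⁻¹' Metric.closedBall (0 : X) (C * M) := by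
    apply closure_minimal _ hPc.isClosed
    rintro _ ⟨γ, rfl⟩ i -
    rw [mem_preimage, hO, mem_closedBall_zero_iff]
    exact (hC _ (π γ).2 _).trans (mul_le_mul_of_nonneg_left (hM i i.2) hCp.le)
  have hK : IsCompact (closure O) := hPc.of_isClosed_subset isClosed_closure hOP
  have hinv : ∀ γ, ∀ z ∈ closure O, act γ z ∈ closure O := by
    intro γ z hz
    refine map_mem_closure (hc γ) hz ?_
    rintro _ ⟨γ', rfl⟩
    exact ⟨γ * γ', hm _ _ _⟩
  let V : Submodule 𝕜 X :=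
    (Submodule.span 𝕜 (range fun p : FreeMonoid ℕ × s => T p.1 p.2)).topologicalClosure
  obtain ⟨D, hDc, hD⟩ : TopologicalSpace.IsSeparable (V : Set X) :=
    ((countable_range _).isSeparable.span (R := 𝕜)).closure
  have hOV : ∀ z ∈ closure O, ∀ i, u (z i) ∈ V := by
    intro z hz i
    have hcl : IsClosed {z : s → WeakSpace 𝕜 X | u (z i) ∈ V} :=
      (closed_sub V (Submodule.isClosed_topologicalClosure _)).preimage (continuous_apply i)
    refine closure_minimal (t := {z : s → WeakSpace 𝕜 X | u (z i) ∈ V}) ?_ hcl hz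
    rintro _ ⟨γ, rfl⟩
    exact Submodule.le_topologicalClosure _ (Submodule.subset_span ⟨(γ, i), rfl⟩)
  have : Countable D := hDc.to_subtype
  set ρ := δ / (8 * C ^ 2) with hρ
  have hρ0 : 0 < ρ := by positivity
  let B : (s → D) → Set (s → WeakSpace 𝕜 X) := fun c =>
    Set.pi univ fun i => u ⁻¹' Metric.closedBall (c i : X) ρ
  have hB : ∀ c, IsClosed (B c) := fun c => isClosed_set_pi fun i _ => closed_ball _ _
  have hcov : closure O ⊆ ⋃ c, B c := by
    intro z hz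
    have : ∀ i, ∃ d : D, u (z i) ∈ Metric.closedBall (d : X) ρ := by
      intro i
      obtain ⟨d, hd, hdd⟩ := Metric.mem_closure_iff.1 (hD (hOV z hz i)) ρ hρ0
      exact ⟨⟨d, hd⟩, hdd.le⟩
    choose c hc using this
    exact mem_iUnion.2 ⟨c, fun i _ => hc i⟩
  obtain ⟨z, hz, c, F, hFF⟩ := core act hc h1 hm (closure O) hK
    ⟨_, subset_closure ⟨1, rfl⟩⟩ hinv B hB hcov
  set η := δ / (4 * C ^ 2 * M) with hη
  have hη0 : 0 < η := by positivity
  choose ε hε sF hsF using fun n => hF (g n).val (g n).2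
  choose f hfF hf using fun n => hFF (FreeMonoid.of n)
  obtain ⟨t, htf, ht⟩ := Metric.totallyBounded_iff.1
    (isCompact_closedBall (0 : 𝕜) 1).totallyBounded (η / 2) (by positivity)
  have : ∀ n, ∃ y : t, dist (ε n) y < η / 2 := by
    intro n
    obtain ⟨y, hy, hyy⟩ := mem_iUnion₂.1 (ht (mem_closedBall_zero_iff.2 (hε n).le))
    exact ⟨⟨y, hy⟩, hyy⟩
  choose y hy using this
  have : Finite t := htf.to_subtype
  obtain ⟨n, m, hnm, he⟩ := Finite.exists_ne_map_eq_of_infinite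
    (fun n => ((⟨f n, hfF n⟩ : F), y n))
  have he1 : f n = f m := congrArg Subtype.val (congrArg Prod.fst he)
  have he2 : y n = y m := congrArg Prod.snd he
  have hεd : ‖ε n - ε m‖ ≤ η := by
    have a1 := hy n
    have a2 := hy m
    rw [← he2] at a2
    have := dist_triangle_right (ε n) (ε m) (y n)
    rw [← dist_eq_norm]; linarith
  have hεm : ε m ≠ 0 := by
    intro h0; have := hε m; rw [h0, norm_zero] at this; exact zero_ne_one this
  set e := ε n / ε m with he_def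
  have he1' : ‖e - 1‖ ≤ η := by
    have : e - 1 = (ε n - ε m) / ε m := by rw [he_def]; field_simp
    rw [this, norm_div, hε m, div_one]; exact hεd
  let h : G := (g m)⁻¹ * g n
  have hh1 : h ≠ 1 := by
    intro h0
    exact hnm (g.injective (inv_mul_eq_one.1 h0).symm)
  have happ : ∀ x, h.val.val x = ((g m).val⁻¹).val ((g n).val.val x) := fun _ => rfl
  have hcont : Continuous fun x : WeakSpace 𝕜 X => h.val.val (u x) - e • u x := by
    have c1 := cont_fr ((g n).val.val - ε n • ContinuousLinearMap.id 𝕜 X) (sF n) (hsF n)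
    have c2 := cont_fr ((g m).val.val - ε m • ContinuousLinearMap.id 𝕜 X) (sF m) (hsF m)
    have c3 := (((g m).val⁻¹).val.continuous.comp c1).sub
      ((((g m).val⁻¹).val.continuous.comp c2).const_smul e)
    refine c3.congr fun x => ?_
    show ((g m).val⁻¹).val ((g n).val.val (u x) - ε n • u x) -
      e • ((g m).val⁻¹).val ((g m).val.val (u x) - ε m • u x) = _
    rw [map_sub, map_sub, inv_app, happ, map_smul, map_smul, smul_sub, smul_smul, he_def,
      div_mul_cancel₀ _ hεm]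
    abel
  have hsm : ∀ w : X, ‖w‖ ≤ C * M → ‖e • w - w‖ ≤ δ / (4 * C) := by
    intro w hw
    have : e • w - w = (e - 1) • w := by rw [sub_smul, one_smul]
    rw [this, norm_smul]
    calc _ ≤ η * (C * M) := mul_le_mul he1' hw (norm_nonneg _) hη0.le
      _ = _ := by rw [hη]; field_simp
  have hsep : ∃ i, 3 * δ / (4 * C) ≤ ‖h.val.val (u (z i)) - e • u (z i)‖ := by
    have hcl : IsClosed (⋃ i : s, {z : s → WeakSpace 𝕜 X |
        3 * δ / (4 * C) ≤ ‖h.val.val (u (z i)) - e • u (z i)‖}) :=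
      isClosed_iUnion_of_finite fun i =>
        isClosed_le continuous_const (hcont.comp (continuous_apply i)).norm
    refine mem_iUnion.1 (closure_minimal ?_ hcl hz)
    rintro _ ⟨γ, rfl⟩
    set k := π γ
    have hk1 : (k⁻¹ * h * k).val ≠ 1 := by
      intro h0
      apply hh1
      have h2 : k⁻¹ * h * k = 1 := Subtype.ext h0
      have h3 : h = k * (k⁻¹ * h * k) * k⁻¹ := by group
      rw [h3, h2]; group
    have := mt (hd _ (k⁻¹ * h * k).2) hk1
    push Not at this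
    obtain ⟨x, hx, hxx⟩ := this
    refine mem_iUnion.2 ⟨⟨x, hx⟩, ?_⟩
    show 3 * δ / (4 * C) ≤ ‖h.val.val (k.val.val x) - e • k.val.val x‖
    have a1 : (k⁻¹ * h * k).val.val x - x =
        (k⁻¹).val.val (h.val.val (k.val.val x) - k.val.val x) := by
      rw [map_sub]
      congr 1
      exact (inv_app k.val x).symm
    rw [a1] at hxx
    have a2 := hxx.trans (hC _ (k⁻¹).2 _)
    have a3 := hsm (k.val.val x)
      ((hC _ k.2 _).trans (mul_le_mul_of_nonneg_left (hM x hx) hCp.le))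
    have a4 := norm_sub_le_norm_sub_add_norm_sub (h.val.val (k.val.val x)) (e • k.val.val x)
      (k.val.val x)
    have a5 : δ / C ≤ ‖h.val.val (k.val.val x) - k.val.val x‖ := by
      rw [div_le_iff₀ hCp]; linarith
    have a6 : 3 * δ / (4 * C) = δ / C - δ / (4 * C) := by field_simp; ring
    linarith
  obtain ⟨i, hi⟩ := hsep
  set w := u (z i)
  have hw : ‖w‖ ≤ C * M := mem_closedBall_zero_iff.1 (hOP hz i trivial)
  have b1 := hsm w hw
  have b2 := norm_sub_le_norm_sub_add_norm_sub (h.val.val w) w (e • w)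
  rw [norm_sub_rev w] at b2
  have p1 : T (f n) ((g n).val.val w) ∈ Metric.closedBall (c i : X) ρ := hf n i trivial
  have p2 : T (f m) ((g m).val.val w) ∈ Metric.closedBall (c i : X) ρ := hf m i trivial
  rw [← he1] at p2
  set k := π (f n)
  have p3 : ‖k.val.val ((g n).val.val w) - k.val.val ((g m).val.val w)‖ ≤ 2 * ρ := by
    have := dist_triangle_right (T (f n) ((g n).val.val w)) (T (f n) ((g m).val.val w)) (c i : X)
    rw [Metric.mem_closedBall] at p1 p2
    rw [← dist_eq_norm]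
    show dist (T (f n) ((g n).val.val w)) (T (f n) ((g m).val.val w)) ≤ _
    linarith
  have p4 : h.val.val w - w = ((k * g m)⁻¹).val.val
      (k.val.val ((g n).val.val w) - k.val.val ((g m).val.val w)) := by
    have q : ∀ x, ((k * g m)⁻¹).val.val x = ((g m).val⁻¹).val ((k.val⁻¹).val x) := by
      intro x; rw [mul_inv_rev]; rfl
    rw [map_sub, q, q, inv_app, inv_app, inv_app, happ]
  have p5 : ‖h.val.val w - w‖ ≤ C * (2 * ρ) := by
    rw [p4]
    exact (hC _ ((k * g m)⁻¹).2 _).trans (mul_le_mul_of_nonneg_left p3 hCp.le)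
  have p6 : C * (2 * ρ) = δ / (4 * C) := by rw [hρ]; field_simp; ring
  have p7 : 3 * δ / (4 * C) = 3 * (δ / (4 * C)) := by ring
  have p8 : 0 < δ / (4 * C) := by positivity
  linarith

end Pool.Agent.H91.Discrete
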