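import Pool.Agent.H91.Weyl
import Pool.Agent.H91.Wind

set_option autoImplicit false

namespace H91.Distort

open Complex Set Filter Topology MeasureTheory Metric
open scoped ContDiff

/-- Jacobian determinant of a real-linear map of the plane. -/
noncomputable def J (A : ℂ →L[ℝ] ℂ) : ℝ := (A 1).re * (A I).im - (A 1).im * (A I).re

/-- Hilbert-Schmidt distortion. -/
noncomputable def KK (A : ℂ →L[ℝ] ℂ) : ℝ :=
  if 0 < J A then (‖A 1‖ ^ 2 + ‖A I‖ ^ 2) / 2 / J A else 1

/-- `f` is a homeomorphism of `Ω` onto `Ω'` of finite distortion, with weak derivative `D`. -/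
structure Adm (Ω Ω' : Set ℂ) (f : ℂ → ℂ) (D : ℂ → ℂ →L[ℝ] ℂ) : Prop where
  bij : BijOn f Ω Ω'
  cont : ContinuousOn f Ω
  inv : ∃ g : ℂ → ℂ, InvOn g f Ω Ω' ∧ ContinuousOn g Ω'
  locf : LocallyIntegrableOn f Ω
  locD : LocallyIntegrableOn D Ω
  weak : ∀ φ : ℂ → ℝ, ContDiff ℝ ∞ φ → HasCompactSupport φ → tsupport φ ⊆ Ω → ∀ v : ℂ,
    ∫ x in Ω, fderiv ℝ φ x v • f x = -∫ x in Ω, φ x • D x v
  locJ : LocallyIntegrableOn (fun x => J (D x)) Ω
  dist : ∃ K : ℂ → ℝ, ∀ᵐ x ∂(volume.restrict Ω), 1 ≤ K x ∧ ‖D x‖ ^ 2 ≤ K x * J (D x)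

/-- The energy. -/
noncomputable def En (p : ℝ) (Ω : Set ℂ) (D : ℂ → ℂ →L[ℝ] ℂ) : ENNReal :=
  ∫⁻ x in Ω, ENNReal.ofReal (KK (D x) ^ p)

lemma nsq (z : ℂ) : ‖z‖ ^ 2 = z.re ^ 2 + z.im ^ 2 := by
  rw [Complex.sq_norm, Complex.normSq_apply]; ring

lemma one_le_KK (A : ℂ →L[ℝ] ℂ) : 1 ≤ KK A := by
  unfold KK
  split_ifs with h
  · rw [le_div_iff₀ h, nsq, nsq]; unfold J
    nlinarith [sq_nonneg ((A 1).re - (A I).im), sq_nonneg ((A 1).im + (A I).re)]
  · exact le_rfl

lemma cr_of_KK {A : ℂ →L[ℝ] ℂ} {K : ℝ} (h : KK A = 1) (h1 : 1 ≤ K) (h2 : ‖A‖ ^ 2 ≤ K * J A) :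
    A I = I * A 1 := by
  unfold KK at h
  split_ifs at h with hJ
  · rw [div_eq_one_iff_eq hJ.ne', nsq, nsq] at h
    unfold J at h
    have a1 : (A 1).re - (A I).im = 0 := by
      nlinarith [sq_nonneg ((A 1).re - (A I).im), sq_nonneg ((A 1).im + (A I).re)]
    have a2 : (A 1).im + (A I).re = 0 := by
      nlinarith [sq_nonneg ((A 1).re - (A I).im), sq_nonneg ((A 1).im + (A I).re)]
    apply Complex.ext <;> simp <;> linarith
  · have : ‖A‖ ^ 2 ≤ 0 := h2.trans (mul_nonpos_of_nonneg_of_nonpos (by linarith) (not_lt.mp hJ))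
    have : A = 0 := norm_eq_zero.mp (by nlinarith [norm_nonneg A])
    simp [this]

lemma holo_of_min {Ω Ω' : Set ℂ} (hΩ : IsOpen Ω) (hfin : volume Ω ≠ ⊤) {f : ℂ → ℂ}
    {D : ℂ → ℂ →L[ℝ] ℂ} (h : Adm Ω Ω' f D) {p : ℝ} (hp : 0 < p) (hE : En p Ω D ≤ volume Ω) :
    DifferentiableOn ℂ f Ω := by
  have hm := h.locD.aestronglyMeasurable
  have ha : AEMeasurable (fun x => D x 1) (volume.restrict Ω) :=
    ((ContinuousLinearMap.apply ℝ ℂ (1:ℂ)).continuous.comp_aestronglyMeasurable hm).aemeasurable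
  have hb : AEMeasurable (fun x => D x I) (volume.restrict Ω) :=
    ((ContinuousLinearMap.apply ℝ ℂ I).continuous.comp_aestronglyMeasurable hm).aemeasurable
  have hk : Measurable (fun q : ℂ × ℂ => ENNReal.ofReal ((if 0 < q.1.re * q.2.im - q.1.im * q.2.re then
      (‖q.1‖ ^ 2 + ‖q.2‖ ^ 2) / 2 / (q.1.re * q.2.im - q.1.im * q.2.re) else 1) ^ p)) := by
    refine Measurable.ennreal_ofReal (Measurable.pow_const ?_ p)
    exact Measurable.ite (measurableSet_lt measurable_const (by fun_prop)) (by fun_prop)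
      measurable_const
  have hm2 : AEMeasurable (fun x => ENNReal.ofReal (KK (D x) ^ p)) (volume.restrict Ω) := by
    have := hk.comp_aemeasurable (ha.prodMk hb)
    simp only [Function.comp_def] at this
    simp only [KK, J]
    exact this
  have h1 := ae_eq_of_ae_le_of_lintegral_le (μ := volume.restrict Ω) (f := fun _ => 1)
    (g := fun x => ENNReal.ofReal (KK (D x) ^ p))
    (Eventually.of_forall fun x => ENNReal.one_le_ofReal.mpr (Real.one_le_rpow (one_le_KK _) hp.le))
    (by rw [lintegral_const, one_mul, Measure.restrict_apply_univ]; exact hfin) hm2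
    (by rw [lintegral_const, one_mul, Measure.restrict_apply_univ]; exact hE)
  obtain ⟨K, hK⟩ := h.dist
  have h2 : ∀ᵐ x ∂(volume.restrict Ω), D x I = I * D x 1 := by
    filter_upwards [h1, hK] with x a1 a2
    refine cr_of_KK ?_ a2.1 a2.2
    by_contra hc
    have a3 := Real.one_lt_rpow (lt_of_le_of_ne (one_le_KK _) (Ne.symm hc)) hp
    have a4 := ENNReal.one_lt_ofReal.mpr a3
    exact absurd a1 a4.ne
  refine Weyl.weyl hΩ h.cont fun φ a1 a2 a3 => ?_
  rw [h.weak φ a1 a2 a3, h.weak φ a1 a2 a3, mul_neg, ← integral_const_mul]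
  congr 1
  refine integral_congr_ae (h2.mono fun x hx => ?_)
  simp only [hx, Complex.real_smul]; ring

/-- the punctured half-plane -/
def U (h : ℝ → ℝ) : Set ℂ := {w | 0 < w.re ∧ ∀ n : ℤ, w ≠ 1 + h n * I}

/-- the set of punctures -/
def A (h : ℝ → ℝ) : Set ℂ := range fun n : ℤ => 1 + (h n : ℂ) * I

lemma U_eq (h : ℝ → ℝ) : U h = {w | 0 < w.re} \ A h := by
  ext w; simp only [U, A, mem_ofPred_eq, Set.mem_sdiff, mem_range, not_exists]
  exact and_congr_right fun _ => forall_congr' fun n => ne_comm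

/-- separation -/
def Sep (h : ℝ → ℝ) : Prop := ∀ m n : ℤ, m ≠ n → 1 ≤ |h m - h n|

lemma dist_A (h : ℝ → ℝ) (m n : ℤ) : dist (1 + (h m : ℂ) * I) (1 + (h n : ℂ) * I) = |h m - h n| := by
  rw [dist_eq_norm, add_sub_add_left_eq_sub, ← sub_mul, norm_mul, Complex.norm_I, mul_one,
    ← Complex.ofReal_sub, Complex.norm_real, Real.norm_eq_abs]

lemma A_closed {h : ℝ → ℝ} (hs : Sep h) : IsClosed (A h) := by
  refine Metric.isClosed_of_pairwise_le_dist one_pos ?_
  rintro _ ⟨m, rfl⟩ _ ⟨n, rfl⟩ hne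
  rw [dist_A]; exact hs m n fun e => hne (by rw [e])

lemma H_open : IsOpen {w : ℂ | 0 < w.re} := isOpen_lt continuous_const Complex.continuous_re

lemma U_open {h : ℝ → ℝ} (hs : Sep h) : IsOpen (U h) := by
  rw [U_eq]; exact H_open.sdiff (A_closed hs)

lemma U_conn (h : ℝ → ℝ) : IsConnected (U h) := by
  let E : ℂ → ℂ := fun w => Real.exp w.re + w.im * I
  have hE : Function.Injective E := fun a b hab => by
    have h1 := congrArg Complex.re hab
    have h2 := congrArg Complex.im hab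
    simp only [E, add_re, ofReal_re, mul_re, I_re, mul_zero, ofReal_im, I_im, mul_one, sub_self,
      add_zero, add_im, mul_im, zero_add] at h1 h2
    exact Complex.ext (Real.exp_injective h1) h2
  have h1 : IsConnected (E ⁻¹' A h)ᶜ :=
    ((countable_range _).preimage hE).isConnected_compl_of_one_lt_rank (by simp)
  have h2 : E '' (E ⁻¹' A h)ᶜ = U h := by
    rw [U_eq]; ext w; constructor
    · rintro ⟨z, hz, rfl⟩
      refine ⟨?_, hz⟩
      simp only [E, mem_ofPred_eq, add_re, ofReal_re, mul_re, I_re, mul_zero, ofReal_im, I_im,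
        mul_one, sub_self, add_zero]
      exact Real.exp_pos _
    · rintro ⟨a1, a2⟩
      have e : E (Real.log w.re + w.im * I) = w := by
        apply Complex.ext
        · simp only [E, add_re, ofReal_re, mul_re, I_re, mul_zero, ofReal_im, I_im,
            mul_one, sub_self, add_zero]
          exact Real.exp_log a1
        · simp only [E, add_im, ofReal_im, mul_im, ofReal_re, I_im, I_re, mul_one, mul_zero,
            add_zero, zero_add]
      exact ⟨_, by rwa [mem_compl_iff, mem_preimage, e], e⟩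
  rw [← h2]; exact h1.image E (by fun_prop)

lemma not_sc {S : Set ℂ} (hS : IsOpen S) {g : ℂ → ℂ} (hg : ContinuousOn g S) (h0 : 0 ∉ g '' S)
    {γ : ℝ → ℂ} (hγ : Continuous γ) (hm : ∀ t, γ t ∈ S) (hp : γ (2 * Real.pi) = γ 0)
    (hv : ∀ t, g (γ t) = 1 / 2 * Complex.exp (t * I)) : ¬ IsSimplyConnected S := by
  intro h
  obtain ⟨l, hl, he⟩ := Complex.exists_continuousOn_eqOn_exp_comp h hS hg h0
  refine Pool.Agent.H91.Wind.odd_not (fun t => 1 / 2 * Complex.exp (t * I)) (fun t => ?_)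
    ⟨fun t => l (γ t), hl.comp_continuous hγ hm, fun t => (he (hm t)).trans (hv t), by simp only [hp]⟩
  push_cast; rw [add_mul, Complex.exp_add, Complex.exp_pi_mul_I]; ring

lemma loop_mem {h : ℝ → ℝ} (hs : Sep h) (h0 : h 0 = 0) (t : ℝ) :
    1 + 1 / 2 * Complex.exp (t * I) ∈ U h := by
  have hn : ‖1 / 2 * Complex.exp (t * I)‖ = 1 / 2 := by
    rw [norm_mul, Complex.norm_exp_ofReal_mul_I]; simp
  refine ⟨?_, fun n hn' => ?_⟩
  · have := (abs_le.mp (Complex.abs_re_le_norm (1 / 2 * Complex.exp (t * I)))).1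
    rw [add_re, one_re]; linarith
  · rw [add_left_cancel hn', norm_mul, Complex.norm_I, mul_one, Complex.norm_real,
      Real.norm_eq_abs] at hn
    by_cases h1 : n = 0
    · subst h1; simp [h0] at hn
    · have := hs n 0 h1
      simp only [Int.cast_zero, h0, sub_zero] at this; linarith

lemma one_notMem {h : ℝ → ℝ} (h0 : h 0 = 0) : (1:ℂ) ∉ U h := fun hm => hm.2 0 (by simp [h0])

lemma U_nsc {h : ℝ → ℝ} (hs : Sep h) (h0 : h 0 = 0) : ¬ IsSimplyConnected (U h) :=
  not_sc (U_open hs) (g := fun w => w - 1) (by fun_prop)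
    (by rintro ⟨w, hw, e⟩; rw [sub_eq_zero.mp e] at hw; exact one_notMem h0 hw)
    (γ := fun t => 1 + 1 / 2 * Complex.exp (t * I)) (by fun_prop) (loop_mem hs h0) (by simp)
    (fun t => by ring)

lemma sep_id : Sep id := fun m n h => by
  simp only [id]; rw [← Int.cast_sub, ← Int.cast_abs]; exact_mod_cast Int.one_le_abs (sub_ne_zero.mpr h)

/-- the stretching function -/
noncomputable def hh (y : ℝ) : ℝ := y + Real.arctan y

lemma hh_mono : StrictMono hh := strictMono_id.add_monotone Real.arctan_strictMono.monotone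

lemma hh_gap {a b : ℝ} (h : a < b) : b - a < hh b - hh a := by
  have := Real.arctan_strictMono h; unfold hh; linarith

lemma hh_sep' {m n : ℤ} (h : m ≠ n) : 1 < |hh m - hh n| := by
  rcases lt_or_gt_of_ne h with h1 | h1
  · have a1 : (m:ℝ) + 1 ≤ n := by exact_mod_cast h1
    have := hh_gap (show (m:ℝ) < n by linarith)
    rw [abs_sub_comm]; exact lt_of_lt_of_le (by linarith) (le_abs_self _)
  · have a1 : (n:ℝ) + 1 ≤ m := by exact_mod_cast h1
    have := hh_gap (show (n:ℝ) < m by linarith)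
    exact lt_of_lt_of_le (by linarith) (le_abs_self _)

lemma sep_hh : Sep hh := fun _ _ h => (hh_sep' h).le
lemma hh_zero : hh 0 = 0 := by simp [hh]

lemma hh_inv : ∃ g : ℝ → ℝ, Continuous g ∧ (∀ y, g (hh y) = y) ∧ ∀ y, hh (g y) = y := by
  have hc : Continuous hh := continuous_id.add Real.continuous_arctan
  have hs : Function.Surjective hh := by
    refine hc.surjective ?_ ?_
    · exact tendsto_atTop_add_right_of_le _ (-(Real.pi / 2)) tendsto_id
        fun y => (Real.neg_pi_div_two_lt_arctan y).le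
    · exact tendsto_atBot_add_right_of_ge _ (Real.pi / 2) tendsto_id
        fun y => (Real.arctan_lt_pi_div_two y).le
  let e := hh_mono.orderIsoOfSurjective hh hs
  exact ⟨e.symm, e.symm.continuous, e.symm_apply_apply, e.apply_symm_apply⟩

/-- No conformal equivalence. -/
lemma no_conf {G : ℂ → ℂ} (hd : DifferentiableOn ℂ G (U id)) (hb : BijOn G (U id) (U hh)) : False := by
  classical
  set H : Set ℂ := {w | 0 < w.re} with hH
  have hconv : Convex ℝ H := convex_halfSpace_re_gt 0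
  have hne : ∀ w : ℂ, 0 ≤ w.re → w + 1 ≠ 0 := fun w hw h => by
    have := congrArg Complex.re h; simp at this; linarith
  let k : ℂ → ℂ := fun w => 1 / (G w + 1)
  have hk : DifferentiableOn ℂ k (U id) :=
    (differentiableOn_const 1).div (hd.add_const 1) fun w hw => hne _ (hb.mapsTo hw).1.le
  have hkb : ∀ w ∈ U id, k w ∈ closedBall (1 / 2 : ℂ) (1 / 2) := by
    intro w hw
    have h1 := (hb.mapsTo hw).1
    have h2 := hne _ h1.le
    have e : k w - 1 / 2 = (1 - G w) / (2 * (G w + 1)) := by simp only [k]; field_simp; ring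
    rw [mem_closedBall, dist_eq_norm, e, norm_div, norm_mul,
      div_le_iff₀ (mul_pos (by simp) (norm_pos_iff.mpr h2))]
    have : ‖1 - G w‖ ≤ ‖G w + 1‖ := by
      refine abs_le_of_sq_le_sq' ?_ (norm_nonneg _) |>.2
      rw [nsq, nsq]; simp; nlinarith
    simpa using this
  let K : ℂ → ℂ := fun w => if w ∈ A id then limUnder (𝓝[≠] w) k else k w
  have hKU : ∀ w ∈ U id, K w = k w := fun w hw => if_neg (by rw [U_eq] at hw; exact hw.2)
  have hball : ∀ w ∈ A id, ball w 1 \ {w} ⊆ U id := by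
    rintro _ ⟨n, rfl⟩ z ⟨h1, h2⟩
    refine ⟨?_, fun m hm => ?_⟩
    · have a1 := (abs_le.mp (Complex.abs_re_le_norm (z - (1 + (id (n:ℝ) : ℝ) * I)))).1
      rw [mem_ball, dist_eq_norm] at h1
      simp at a1 h1; linarith
    · rw [hm, mem_ball, dist_A] at h1
      by_cases e : m = n
      · subst e; exact h2 hm
      · linarith [sep_id m n e]
  have hKd : DifferentiableOn ℂ K H := by
    intro w hw
    by_cases h : w ∈ A id
    · have a1 := Complex.differentiableOn_update_limUnder_of_bddAbove (ball_mem_nhds w one_pos)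
        (hk.mono (hball w h)) ⟨1, by
          rintro _ ⟨z, hz, rfl⟩
          have := norm_le_of_mem_closedBall (hkb z (hball w h hz))
          simp only [Function.comp]; norm_num at this ⊢; linarith⟩
      refine ((a1.differentiableAt (ball_mem_nhds w one_pos)).congr_of_eventuallyEq ?_).differentiableWithinAt
      filter_upwards [ball_mem_nhds w one_pos] with z hz
      by_cases e : z = w
      · subst e; simp [K, h]
      · rw [Function.update_of_ne e]; exact hKU z (hball w h ⟨hz, e⟩)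
    · have hw' : w ∈ U id := by rw [U_eq]; exact ⟨hw, h⟩
      have := (U_open sep_id).mem_nhds hw'
      refine ((hk.differentiableAt this).congr_of_eventuallyEq ?_).differentiableWithinAt
      filter_upwards [this] with z hz using hKU z hz
  have hkinj : InjOn k (U id) := fun a ha b hb' e => hb.injOn ha hb' (by
    simp only [k, one_div, inv_inj] at e; exact add_right_cancel e)
  have hUH : U id ⊆ H := fun w hw => hw.1
  have hAc : (A id).Countable := countable_range _
  have hop : ∀ s ⊆ H, IsOpen s → IsOpen (K '' s) := by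
    rcases (hKd.analyticOnNhd H_open).is_constant_or_isOpen hconv.isPreconnected with ⟨c, hc⟩ | h
    · exfalso
      have m1 := loop_mem sep_id rfl 0
      have m2 := loop_mem sep_id rfl Real.pi
      have := hkinj m1 m2 (by rw [← hKU _ m1, ← hKU _ m2, hc _ (hUH m1), hc _ (hUH m2)])
      simp at this; norm_num at this
    · exact h
  have hKinj : InjOn K H := by
    intro a ha b hb' e
    by_contra hab
    obtain ⟨V, W, hV, hW, haV, hbW, hVW⟩ := t2_separation hab
    have o1 := hop (V ∩ H) inter_subset_right (hV.inter H_open)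
    have o2 := hop (W ∩ H) inter_subset_right (hW.inter H_open)
    obtain ⟨y, ⟨⟨v, hv, e1⟩, ⟨w, hw, e2⟩⟩, hy⟩ := ((hAc.image K).dense_compl ℂ).inter_open_nonempty _
      (o1.inter o2) ⟨K a, ⟨a, ⟨haV, ha⟩, rfl⟩, ⟨b, ⟨hbW, hb'⟩, e.symm⟩⟩
    have v1 : v ∈ U id := by rw [U_eq]; exact ⟨hv.2, fun h => hy ⟨v, h, e1⟩⟩
    have w1 : w ∈ U id := by rw [U_eq]; exact ⟨hw.2, fun h => hy ⟨w, h, e2⟩⟩
    have := hkinj v1 w1 (by rw [← hKU _ v1, ← hKU _ w1, e1, e2])
    exact disjoint_left.mp hVW hv.1 (this ▸ hw.1)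
  have hKb : ∀ w ∈ H, K w ∈ ball (1 / 2 : ℂ) (1 / 2) := by
    have a1 : K '' H ⊆ closedBall (1 / 2 : ℂ) (1 / 2) := by
      have a2 : H ⊆ closure (U id) := by
        rw [U_eq]; exact (hAc.dense_compl ℂ).open_subset_closure_inter H_open
      rintro _ ⟨w, hw, rfl⟩
      have a3 := ((hKd.continuousOn w hw).mono hUH).mem_closure_image (a2 hw)
      refine closure_minimal ?_ isClosed_closedBall a3
      rintro _ ⟨z, hz, rfl⟩; rw [hKU z hz]; exact hkb z hz
    intro w hw
    rw [← interior_closedBall _ (by norm_num)]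
    exact interior_maximal a1 (hop H subset_rfl H_open) (mem_image_of_mem _ hw)
  have hK0 : ∀ w ∈ H, K w ≠ 0 := fun w hw h => by
    have := hKb w hw; rw [h] at this; simp at this
  let Gh : ℂ → ℂ := fun w => 1 / K w - 1
  have hGd : DifferentiableOn ℂ Gh H := ((differentiableOn_const 1).div hKd hK0).sub_const 1
  have hGH : ∀ w ∈ H, 0 < (Gh w).re := by
    intro w hw
    have a1 := hKb w hw
    rw [mem_ball, dist_eq_norm] at a1
    have a2 : ‖K w - 1 / 2‖ ^ 2 < (1 / 2) ^ 2 := by gcongr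
    rw [nsq] at a2
    have a3 := Complex.normSq_pos.mpr (hK0 w hw)
    simp only [Gh, one_div, sub_re, inv_re, one_re, sub_pos]
    rw [lt_div_iff₀ a3, Complex.normSq_apply]
    norm_num at a2; nlinarith
  have hGU : ∀ w ∈ U id, Gh w = G w := fun w hw => by simp [Gh, hKU w hw, k]
  have hGinj : InjOn Gh H := fun a ha b hb' e => hKinj ha hb' (by
    simp only [Gh, one_div, sub_left_inj, inv_inj] at e; exact e)
  have hGA : ∀ w ∈ A id, w ∈ H → Gh w ∈ A hh := by
    intro w h1 h2
    by_contra hc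
    obtain ⟨z, hz, e⟩ := hb.surjOn (show Gh w ∈ U hh by rw [U_eq]; exact ⟨hGH w h2, hc⟩)
    have := hGinj (hUH hz) h2 (by rw [hGU z hz, e])
    rw [this, U_eq] at hz; exact hz.2 h1
  have p1 : (1:ℂ) ∈ H := by simp [hH]
  have p2 : (1 + I : ℂ) ∈ H := by simp [hH]
  obtain ⟨m, hm⟩ := hGA 1 ⟨0, by simp⟩ p1
  obtain ⟨n, hn⟩ := hGA (1 + I) ⟨1, by simp⟩ p2
  simp only at hm hn
  have hmn : m ≠ n := by
    rintro rfl
    have := hGinj p1 p2 (hm.symm.trans hn)
    simp at this
  have c1 : ∀ ζ ∈ ball (0:ℂ) 1, 1 - ζ ≠ 0 := fun ζ hζ h => by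
    rw [← sub_eq_zero.mp h] at hζ; simp at hζ
  have c2 : ∀ ζ ∈ ball (0:ℂ) 1, (1 + ζ) / (1 - ζ) ∈ H := by
    intro ζ hζ
    have a1 : ‖ζ‖ ^ 2 < 1 ^ 2 := by gcongr; simpa using hζ
    rw [nsq] at a1
    have a3 := Complex.normSq_pos.mpr (c1 ζ hζ)
    simp only [hH, mem_ofPred_eq, Complex.div_re]
    rw [← add_div]
    refine div_pos ?_ a3
    simp; nlinarith
  have c3 : ∀ w ∈ H, Gh w + (1 - hh m * I) ≠ 0 := fun w hw h => by
    have := congrArg Complex.re h
    have := hGH w hw
    simp at *; linarith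
  let ψ : ℂ → ℂ := fun ζ => (Gh ((1 + ζ) / (1 - ζ)) - (1 + hh m * I)) /
    (Gh ((1 + ζ) / (1 - ζ)) + (1 - hh m * I))
  have d1 : DifferentiableOn ℂ (fun ζ => Gh ((1 + ζ) / (1 - ζ))) (ball 0 1) :=
    hGd.comp (DifferentiableOn.div (by fun_prop) (by fun_prop) c1) c2
  have d2 := Complex.norm_le_norm_of_mapsTo_ball (f := ψ) (R := 1) (z := I / (2 + I))
    ((d1.sub_const _).div (d1.add_const _) fun ζ hζ => c3 _ (c2 ζ hζ))
    (fun ζ hζ => by
      have a1 := hGH _ (c2 ζ hζ)
      have a2 := c3 _ (c2 ζ hζ)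
      rw [mem_closedBall_zero_iff, norm_div, div_le_one (norm_pos_iff.mpr a2)]
      refine abs_le_of_sq_le_sq' ?_ (norm_nonneg _) |>.2
      rw [nsq, nsq]; simp; nlinarith)
    (by simp [ψ, hm]) (by
      rw [norm_div, Complex.norm_I, div_lt_one (norm_pos_iff.mpr (fun h => by
        simpa using congrArg Complex.im h))]
      refine lt_of_pow_lt_pow_left₀ 2 (norm_nonneg _) ?_
      rw [nsq]; norm_num)
  have h2I : (2 + I : ℂ) ≠ 0 := fun h => by simpa using congrArg Complex.im h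
  have e1 : (1 + I / (2 + I)) / (1 - I / (2 + I)) = 1 + I := by field_simp; ring
  simp only [ψ, e1, ← hn] at d2
  have d3 := pow_le_pow_left₀ (norm_nonneg _) d2 2
  rw [norm_div, norm_div, div_pow, div_pow, nsq, nsq, nsq, nsq] at d3
  have g1 := hh_sep' hmn
  have g2 : 1 < (hh n - hh m) ^ 2 := by rw [← sq_abs, abs_sub_comm]; nlinarith
  norm_num at d3
  rw [div_le_iff₀ (by positivity)] at d3
  nlinarith


/-- the source domain -/
def Om : Set ℂ := {z | 1 / z - 1 ∈ U id}

lemma Om_ne {z : ℂ} (hz : z ∈ Om) : z ≠ 0 := by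
  rintro rfl
  have := hz.1
  simp at this; linarith

lemma U_ne {h : ℝ → ℝ} {w : ℂ} (hw : w ∈ U h) : w + 1 ≠ 0 := fun e => by
  have := congrArg Complex.re e
  have := hw.1
  simp at *; linarith

lemma inv_mem {w : ℂ} (hw : w ∈ U id) : 1 / (w + 1) ∈ Om := by
  simpa [Om] using hw

lemma Om_open : IsOpen Om := by
  have h1 : ContinuousOn (fun z : ℂ => 1 / z - 1) {0}ᶜ :=
    (continuousOn_const.div continuousOn_id fun z hz => hz).sub continuousOn_const
  have := h1.isOpen_inter_preimage isOpen_compl_singleton (U_open sep_id)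
  convert this using 1
  ext z; exact ⟨fun hz => ⟨Om_ne hz, hz⟩, fun hz => hz.2⟩

lemma psi_bij : BijOn (fun w : ℂ => 1 / (w + 1)) (U id) Om :=
  InvOn.bijOn (f' := fun z => 1 / z - 1) ⟨fun w _ => by simp, fun z _ => by simp⟩
    (fun w hw => inv_mem hw) fun z hz => hz

lemma Om_conn : IsConnected Om := by
  rw [← psi_bij.image_eq]
  exact (U_conn id).image _ (continuousOn_const.div (by fun_prop) fun w hw => U_ne hw)

lemma Om_nsc : ¬ IsSimplyConnected Om :=
  not_sc Om_open (g := fun z => 1 / z - 1 - 1)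
    (((continuousOn_const.div continuousOn_id fun z hz => Om_ne hz).sub continuousOn_const).sub
      continuousOn_const)
    (by rintro ⟨w, hw, e⟩
        have : 1 / w - 1 ∈ U id := hw
        rw [sub_eq_zero.mp e] at this; exact one_notMem rfl this)
    (γ := fun t => 1 / (1 + 1 / 2 * Complex.exp (t * I) + 1))
    (continuous_const.div (by fun_prop) fun t => U_ne (loop_mem sep_id rfl t))
    (fun t => inv_mem (loop_mem sep_id rfl t)) (by simp) (fun t => by rw [one_div_one_div]; ring)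

lemma Om_fin : volume Om ≠ ⊤ := by
  refine ((measure_mono (show Om ⊆ closedBall 0 1 from fun z hz => ?_)).trans_lt
    measure_closedBall_lt_top).ne
  have h1 := hz.1
  have h2 := Complex.re_le_norm (1 / z)
  rw [sub_re, one_re] at h1
  rw [norm_div, norm_one, le_div_iff₀ (norm_pos_iff.mpr (Om_ne hz))] at h2
  rw [mem_closedBall_zero_iff]
  nlinarith [norm_nonneg z]

/-- vertical stretching -/
noncomputable def St (g : ℝ → ℝ) (w : ℂ) : ℂ := w.re + g w.im * I

lemma St_re (g : ℝ → ℝ) (w : ℂ) : (St g w).re = w.re := by simp [St]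
lemma St_im (g : ℝ → ℝ) (w : ℂ) : (St g w).im = g w.im := by simp [St]

/-- the competitors -/
noncomputable def ff (k : ℕ) (z : ℂ) : ℂ := St hh (1 / z - 1 + k * I)

/-- derivative of the stretching function -/
noncomputable def hd (y : ℝ) : ℝ := 1 + 1 / (1 + y ^ 2)

lemma hd_1 (y : ℝ) : 1 ≤ hd y := by unfold hd; have : 0 ≤ 1 / (1 + y ^ 2) := by positivity
                                    linarith
lemma hd_2 (y : ℝ) : hd y ≤ 2 := by
  unfold hd; have : 1 / (1 + y ^ 2) ≤ 1 := by rw [div_le_one (by positivity)]; nlinarith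
  linarith

lemma ff_C1 (k : ℕ) : ContDiffOn ℝ 1 (ff k) Om := by
  have h1 : ContDiffOn ℝ 1 (fun z : ℂ => 1 / z - 1 + k * I) Om :=
    ContDiffOn.restrict_scalars ℝ (𝕜' := ℂ)
      (((contDiffOn_const.div contDiffOn_id fun z hz => Om_ne hz).sub contDiffOn_const).add
      contDiffOn_const)
  have h2 : ContDiff ℝ 1 (St hh) := by
    have a1 : ContDiff ℝ 1 hh := contDiff_id.add Real.contDiff_arctan
    exact (Complex.ofRealCLM.contDiff.comp Complex.reCLM.contDiff).add
      ((Complex.ofRealCLM.contDiff.comp (a1.comp Complex.imCLM.contDiff)).mul contDiff_const)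
  exact h2.comp_contDiffOn h1

lemma ff_deriv (k : ℕ) {z : ℂ} (hz : z ∈ Om) (v : ℂ) :
    fderiv ℝ (ff k) z v = (-v / z ^ 2).re + (hd ((1 / z - 1 + k * I).im) * (-v / z ^ 2).im : ℝ) * I := by
  have h1 : HasDerivAt (fun z : ℂ => 1 / z - 1 + k * I) (-(z ^ 2)⁻¹) z := by
    simpa only [one_div] using ((hasDerivAt_inv (Om_ne hz)).sub_const 1).add_const ((k:ℂ) * I)
  have h2 := h1.hasFDerivAt.restrictScalars ℝ
  have h3 : ∀ y, HasDerivAt hh (hd y) y := fun y => (hasDerivAt_id y).add (Real.hasDerivAt_arctan y)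
  have h4 := Complex.ofRealCLM.hasFDerivAt.comp z (Complex.reCLM.hasFDerivAt.comp z h2)
  have h5 := (Complex.ofRealCLM.hasFDerivAt.comp z ((h3 _).hasFDerivAt.comp z
    (Complex.imCLM.hasFDerivAt.comp z h2))).mul_const I
  have h6 : HasFDerivAt (ff k) _ z := h4.add h5
  rw [h6.fderiv]
  have e : -v / z ^ 2 = v * -(z ^ 2)⁻¹ := by ring
  rw [e]
  simp only [_root_.add_apply, ContinuousLinearMap.comp_apply, _root_.smul_apply,
    ContinuousLinearMap.coe_restrictScalars', ContinuousLinearMap.toSpanSingleton_apply,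
    Complex.ofRealCLM_apply, Complex.reCLM_apply, Complex.imCLM_apply, smul_eq_mul, Function.comp]
  push_cast; ring

lemma ff_J (k : ℕ) {z : ℂ} (hz : z ∈ Om) :
    J (fderiv ℝ (ff k) z) = hd ((1 / z - 1 + k * I).im) * ‖-1 / z ^ 2‖ ^ 2 := by
  have e : -I / z ^ 2 = I * (-1 / z ^ 2) := by ring
  unfold J
  rw [ff_deriv k hz, ff_deriv k hz, e, nsq]
  generalize -1 / z ^ 2 = c
  simp; ring

lemma ff_KK (k : ℕ) {z : ℂ} (hz : z ∈ Om) : KK (fderiv ℝ (ff k) z) =
    (1 + hd ((1 / z - 1 + k * I).im) ^ 2) / (2 * hd ((1 / z - 1 + k * I).im)) := by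
  have h0 : 0 < ‖-1 / z ^ 2‖ := norm_pos_iff.mpr (div_ne_zero (by simp) (pow_ne_zero _ (Om_ne hz)))
  have h1 := hd_1 ((1 / z - 1 + k * I).im)
  have e : -I / z ^ 2 = I * (-1 / z ^ 2) := by ring
  unfold KK
  rw [ff_J k hz, if_pos (by positivity), ff_deriv k hz, ff_deriv k hz, e]
  have h2 : ‖-1 / z ^ 2‖ ^ 2 ≠ 0 := by positivity
  generalize -1 / z ^ 2 = c at *
  generalize hd ((1 / z - 1 + k * I).im) = a at *
  rw [div_eq_div_iff (by positivity) (by positivity), nsq, nsq, nsq]
  simp; ring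

lemma ff_norm (k : ℕ) {z : ℂ} (hz : z ∈ Om) :
    ‖fderiv ℝ (ff k) z‖ ≤ hd ((1 / z - 1 + k * I).im) * ‖-1 / z ^ 2‖ := by
  have h1 := hd_1 ((1 / z - 1 + k * I).im)
  refine ContinuousLinearMap.opNorm_le_bound _ (by positivity) fun v => ?_
  have e : ‖-1 / z ^ 2‖ * ‖v‖ = ‖-v / z ^ 2‖ := by rw [← norm_mul]; congr 1; ring
  rw [ff_deriv k hz, mul_assoc, e]
  generalize -v / z ^ 2 = c
  generalize hd ((1 / z - 1 + k * I).im) = a at *
  refine abs_le_of_sq_le_sq' ?_ (by positivity) |>.2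
  rw [mul_pow, nsq, nsq]
  simp
  nlinarith [mul_nonneg (show 0 ≤ a ^ 2 - 1 by nlinarith) (sq_nonneg c.re)]

lemma ff_adm (k : ℕ) : Adm Om (U hh) (ff k) (fderiv ℝ (ff k)) := by
  obtain ⟨g, hg, g1, g2⟩ := hh_inv
  have s1 : ∀ w, St g (St hh w) = w := fun w => Complex.ext (by simp [St_re]) (by simp [St_im, g1])
  have s2 : ∀ w, St hh (St g w) = w := fun w => Complex.ext (by simp [St_re]) (by simp [St_im, g2])
  have s3 : ∀ n : ℤ, St hh (1 + (n:ℝ) * I) = 1 + hh n * I := fun n => by simp [St]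
  let G : ℂ → ℂ := fun w => 1 / (St g w - k * I + 1)
  have m1 : ∀ w ∈ U hh, St g w - k * I ∈ U id := fun w hw =>
    ⟨by simpa [St_re] using hw.1, fun n hn => hw.2 (n + k) (by
      rw [← s3, ← s2 w, sub_eq_iff_eq_add.mp hn]; congr 1; push_cast; simp; ring)⟩
  have inv : InvOn G (ff k) Om (U hh) := ⟨fun z _ => by simp [G, ff, s1], fun w _ => by simp [G, ff, s2]⟩
  have m2 : MapsTo (ff k) Om (U hh) := fun z hz =>
    ⟨by simpa [ff, St_re] using hz.1, fun n hn => hz.2 (n - k) (by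
      have := congrArg (St g) hn
      rw [← s3, ff, s1, s1] at this
      rw [eq_sub_of_add_eq this]; push_cast; simp; ring)⟩
  have hD := (ff_C1 k).continuousOn_fderiv_of_isOpen Om_open le_rfl
  have hD1 := hD.clm_apply (continuousOn_const (c := (1:ℂ)))
  have hDI := hD.clm_apply (continuousOn_const (c := I))
  refine ⟨inv.bijOn m2 fun w hw => inv_mem (m1 w hw), (ff_C1 k).continuousOn,
    ⟨G, inv, continuousOn_const.div (Continuous.continuousOn (by unfold St; fun_prop))
      fun w hw => U_ne (m1 w hw)⟩,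
    (ff_C1 k).continuousOn.locallyIntegrableOn Om_open.measurableSet,
    hD.locallyIntegrableOn Om_open.measurableSet, Weyl.weak_of_C1 Om_open (ff_C1 k),
    ContinuousOn.locallyIntegrableOn ?_ Om_open.measurableSet, fun _ => 2, ?_⟩
  · exact ((Complex.continuous_re.comp_continuousOn hD1).mul
      (Complex.continuous_im.comp_continuousOn hDI)).sub
      ((Complex.continuous_im.comp_continuousOn hD1).mul (Complex.continuous_re.comp_continuousOn hDI))
  · refine (ae_restrict_mem Om_open.measurableSet).mono fun z hz => ⟨one_le_two, ?_⟩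
    have h1 := hd_1 ((1 / z - 1 + k * I).im)
    have h2 := hd_2 ((1 / z - 1 + k * I).im)
    refine (pow_le_pow_left₀ (norm_nonneg _) (ff_norm k hz) 2).trans ?_
    rw [ff_J k hz, mul_pow, ← mul_assoc]
    exact mul_le_mul_of_nonneg_right (by nlinarith) (sq_nonneg _)

lemma En_lim {p : ℝ} (hp : 0 < p) :
    Tendsto (fun k => En p Om (fderiv ℝ (ff k))) atTop (𝓝 (volume Om)) := by
  let κ : ℝ → ℝ := fun y => (1 + hd y ^ 2) / (2 * hd y)
  have e : ∀ k, En p Om (fderiv ℝ (ff k)) =
      ∫⁻ z in Om, ENNReal.ofReal (κ ((1 / z - 1 + k * I).im) ^ p) := fun k =>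
    setLIntegral_congr_fun Om_open.measurableSet fun z hz => by simp only [ff_KK k hz, κ]
  have hκ : Continuous κ := by
    have : Continuous hd := continuous_const.add
      (continuous_const.div (by fun_prop) fun y => by positivity)
    exact Continuous.div (by fun_prop) (by fun_prop) fun y => by have := hd_1 y; positivity
  have hκ0 : ∀ y, 0 ≤ κ y := fun y => by have := hd_1 y; positivity
  have hκ2 : ∀ y, κ y ≤ 3 := fun y => by
    have := hd_1 y; have := hd_2 y
    rw [div_le_iff₀ (by positivity)]; nlinarith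
  have hl : Tendsto κ atTop (𝓝 1) := by
    have h1 : Tendsto hd atTop (𝓝 1) := by
      have := (tendsto_const_nhds (x := (1:ℝ))).div_atTop
        (tendsto_atTop_add_const_left atTop (1:ℝ) (tendsto_pow_atTop (α := ℝ) two_ne_zero))
      have h2 := this.const_add 1
      rw [add_zero] at h2; exact h2
    have := ((h1.pow 2).const_add 1).div (h1.const_mul 2) (by norm_num)
    norm_num at this; exact this
  simp only [e]
  have := tendsto_lintegral_of_dominated_convergence (μ := volume.restrict Om)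
    (F := fun (k : ℕ) z => ENNReal.ofReal (κ ((1 / z - 1 + k * I).im) ^ p)) (f := fun _ => 1)
    (fun _ => ENNReal.ofReal (3 ^ p))
    (fun k => Measurable.ennreal_ofReal (Measurable.pow_const (hκ.measurable.comp (by fun_prop)) p))
    (fun k => Eventually.of_forall fun z =>
      ENNReal.ofReal_le_ofReal (Real.rpow_le_rpow (hκ0 _) (hκ2 _) hp.le))
    (by rw [lintegral_const, Measure.restrict_apply_univ]
        exact ENNReal.mul_ne_top ENNReal.ofReal_ne_top Om_fin)
    (Eventually.of_forall fun z => by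
      have a1 : Tendsto (fun k : ℕ => (1 / z - 1 + k * I).im) atTop atTop := by
        simpa using tendsto_atTop_add_const_left atTop ((1 / z - 1).im) tendsto_natCast_atTop_atTop
      have a2 := ENNReal.tendsto_ofReal ((hl.comp a1).rpow_const (p := p) (Or.inl one_ne_zero))
      simpa using a2)
  simpa using this

theorem main : ∃ Ω Ω' : Set ℂ, (IsOpen Ω ∧ IsConnected Ω ∧ ¬ IsSimplyConnected Ω) ∧
    (IsOpen Ω' ∧ IsConnected Ω' ∧ ¬ IsSimplyConnected Ω') ∧ ∀ p : ℝ, 1 < p →
      (∃ g D, Adm Ω Ω' g D ∧ En p Ω D < ⊤) ∧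
      ∀ f D, Adm Ω Ω' f D → ∃ h D', Adm Ω Ω' h D' ∧ En p Ω D' < En p Ω D := by
  refine ⟨Om, U hh, ⟨Om_open, Om_conn, Om_nsc⟩, ⟨U_open sep_hh, U_conn hh, U_nsc sep_hh hh_zero⟩,
    fun p hp => ⟨?_, fun f D h => ?_⟩⟩
  · obtain ⟨k, hk⟩ := ((En_lim (zero_lt_one.trans hp)).eventually (gt_mem_nhds Om_fin.lt_top)).exists
    exact ⟨_, _, ff_adm k, hk⟩
  · have h1 : volume Om < En p Om D := by
      by_contra hc
      have h2 := holo_of_min Om_open Om_fin h (zero_lt_one.trans hp) (not_lt.mp hc)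
      exact no_conf (G := fun w => f (1 / (w + 1)))
        (h2.comp ((differentiableOn_const 1).div (by fun_prop) fun w hw => U_ne hw) psi_bij.mapsTo)
        (h.bij.comp psi_bij)
    obtain ⟨k, hk⟩ := ((En_lim (zero_lt_one.trans hp)).eventually (gt_mem_nhds h1)).exists
    exact ⟨_, _, ff_adm k, hk⟩

end H91.Distort
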