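import Pool.Agent.H91.WShift

set_option autoImplicit false

namespace H91.Drazin
open H91.WShift

section defs
variable {X : Type} [NormedAddCommGroup X] [NormedSpace ℂ X]

/-- `asc T = a` -/
def IsAsc (T : X →L[ℂ] X) (a : ℕ) : Prop := IsLeast {k | (T ^ (k + 1)).ker = (T ^ k).ker} a
/-- `dsc T = d` -/
def IsDsc (T : X →L[ℂ] X) (d : ℕ) : Prop := IsLeast {k | (T ^ (k + 1)).range = (T ^ k).range} d
def DrazinInv (T : X →L[ℂ] X) : Prop := (∃ a, IsAsc T a) ∧ ∃ d, IsDsc T d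
/-- dimension, with value `⊤` for infinite-dimensional subspaces -/
noncomputable def dim (V : Submodule ℂ X) : ℕ∞ := (Module.rank ℂ V).toENat

lemma ker_st {T : X →L[ℂ] X} {a p : ℕ} (h : IsAsc T a) (hp : a ≤ p) (u : X)
    (hu : (T ^ p) (T u) = 0) : (T ^ p) u = 0 := by
  obtain ⟨m, rfl⟩ := Nat.exists_eq_add_of_le hp
  have h1 : (T ^ m) u ∈ (T ^ (a + 1)).ker := by
    have : T ^ (a + 1) * T ^ m = T ^ (a + m) * T := by
      rw [← pow_add, ← pow_succ]; congr 1; ring
    exact (congrArg (fun S : X →L[ℂ] X => S u) this).trans hu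
  rw [h.1] at h1
  rw [pow_add]; exact h1

lemma ran_st {T : X →L[ℂ] X} {d : ℕ} (h : IsDsc T d) (m : ℕ) :
    (T ^ (d + m)).range = (T ^ d).range := by
  induction m with
  | zero => rfl
  | succ m ih =>
    rw [← h.1, ← add_assoc, pow_succ', pow_succ' T d]
    refine le_antisymm ?_ ?_
    · rintro _ ⟨v, rfl⟩
      obtain ⟨w, hw⟩ : (T ^ (d + m)) v ∈ (T ^ d).range := ih ▸ ⟨v, rfl⟩
      exact ⟨w, congrArg T hw⟩
    · rintro _ ⟨v, rfl⟩
      obtain ⟨w, hw⟩ : (T ^ d) v ∈ (T ^ (d + m)).range := ih ▸ ⟨v, rfl⟩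
      exact ⟨w, congrArg T hw⟩

lemma exAsc (T : X →L[ℂ] X) (n : ℕ) (h : ∀ v, (T ^ (n + 1)) v = 0 → (T ^ n) v = 0) :
    ∃ a, IsAsc T a := by
  have : n ∈ {k | (T ^ (k + 1)).ker = (T ^ k).ker} := by
    refine le_antisymm h fun v hv => ?_
    have hv' : (T ^ n) v = 0 := hv
    show (T ^ (n + 1)) v = 0
    rw [pow_succ', mul_apply_eq_comp, hv', map_zero]
  exact ⟨_, Nat.sInf_mem ⟨n, this⟩, fun _ hk => Nat.sInf_le hk⟩

lemma exDsc (T : X →L[ℂ] X) (n : ℕ) (h : ∀ v, ∃ w, (T ^ (n + 1)) w = (T ^ n) v) :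
    ∃ a, IsDsc T a := by
  have : n ∈ {k | (T ^ (k + 1)).range = (T ^ k).range} := by
    refine le_antisymm ?_ ?_
    · rintro _ ⟨v, rfl⟩; exact ⟨T v, by rw [pow_succ]; rfl⟩
    · rintro _ ⟨v, rfl⟩; exact h v
  exact ⟨_, Nat.sInf_mem ⟨n, this⟩, fun _ hk => Nat.sInf_le hk⟩
end defs

section hil
variable {H K : Type} [NormedAddCommGroup H] [InnerProductSpace ℂ H]
  [NormedAddCommGroup K] [InnerProductSpace ℂ K]

noncomputable def MC (A : H →L[ℂ] H) (B : K →L[ℂ] K) (C : K →L[ℂ] H) : H × K →L[ℂ] H × K :=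
  (A.coprod C).prod (B ∘L ContinuousLinearMap.snd ℂ H K)
def CondIII (A : H →L[ℂ] H) (B : K →L[ℂ] K) : Prop :=
  ∃ δ > 0, ∀ l : ℂ, l ≠ 0 → ‖l‖ < δ → dim (A - l • 1).rangeᗮ = dim (B - l • 1).ker
noncomputable def SS (A : H →L[ℂ] H) (p : ℕ) : Submodule ℂ H := A.range ⊔ (A ^ p).ker
noncomputable def TT (B : K →L[ℂ] K) (p : ℕ) : Submodule ℂ K :=
  (B.ker ⊓ (B ^ p).range).topologicalClosure
def CondE (A : H →L[ℂ] H) (B : K →L[ℂ] K) (p : ℕ) : Prop :=
  IsClosed (SS A p : Set H) ∧ dim (SS A p)ᗮ = dim (TT B p)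
def Adm (A : H →L[ℂ] H) (B : K →L[ℂ] K) (p : ℕ) (C : K →L[ℂ] H) : Prop :=
  ∃ J : TT B p ≃L[ℂ] (SS A p)ᗮ, (∀ t : TT B p, C t = J t) ∧ ∀ x ∈ (TT B p)ᗮ, C x = 0
/-- common hypotheses: `asc A = a`, `dsc B = d`, (iii), `p ≥ max(1,a,d)`, (E), `C` admissible -/
def Hyp (A : H →L[ℂ] H) (B : K →L[ℂ] K) (C : K →L[ℂ] H) (a d p : ℕ) : Prop :=
  IsAsc A a ∧ IsDsc B d ∧ CondIII A B ∧ 1 ≤ p ∧ a ≤ p ∧ d ≤ p ∧ CondE A B p ∧ Adm A B p C

variable (H K) in
def Q1Fails : Prop := ∃ (A : H →L[ℂ] H) (B : K →L[ℂ] K) (C : K →L[ℂ] H) (a d p : ℕ),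
  Hyp A B C a d p ∧ IsClosed ((A ^ (a + 1)).range : Set H) ∧ ¬ DrazinInv (MC A B C)

variable (H K) in
def Q2Holds : Prop := ∀ (A : H →L[ℂ] H) (B : K →L[ℂ] K) (C : K →L[ℂ] H) (a d p : ℕ),
  Hyp A B C a d p → IsClosed ((B ^ d).range : Set K) → DrazinInv (MC A B C)

lemma MC_apply (A : H →L[ℂ] H) (B : K →L[ℂ] K) (C : K →L[ℂ] H) (v : H × K) :
    MC A B C v = (A v.1 + C v.2, B v.2) := rfl

lemma MC_snd (A : H →L[ℂ] H) (B : K →L[ℂ] K) (C : K →L[ℂ] H) (n : ℕ) (v : H × K) :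
    ((MC A B C ^ n) v).2 = (B ^ n) v.2 := by
  induction n with
  | zero => rfl
  | succ n ih => simp only [pow_succ', mul_apply_eq_comp, MC_apply, ih]

lemma MC_fst (A : H →L[ℂ] H) (B : K →L[ℂ] K) (C : K →L[ℂ] H) (n : ℕ) (h : H) :
    (MC A B C ^ n) (h, 0) = ((A ^ n) h, 0) := by
  induction n with
  | zero => rfl
  | succ n ih => simp [pow_succ', mul_apply_eq_comp, MC_apply, ih]

theorem q2 [CompleteSpace H] : Q2Holds H K := by
  rintro A B C a d p ⟨ha, hd, -, -, hap, hdp, ⟨hS, -⟩, J, hJ, -⟩ hB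
  set M := MC A B C with hM
  have hr : ∀ m, (B ^ (p + m)).range = (B ^ d).range := by
    intro m
    obtain ⟨e, rfl⟩ := Nat.exists_eq_add_of_le hdp
    rw [add_assoc]; exact ran_st hd _
  have pw : ∀ (m n : ℕ) v, (M ^ (m + n)) v = (M ^ m) ((M ^ n) v) := fun m n v => by
    rw [pow_add]; rfl
  have sc : ∀ (n : ℕ) v, (M ^ (n + 1)) v = M ((M ^ n) v) := fun n v => by rw [pow_succ']; rfl
  constructor
  · refine exAsc M (p + p) fun v hv => ?_
    have key : ∀ j, ((M ^ (p + j)) v).2 = 0 ∧ (A ^ p) ((M ^ (p + j)) v).1 = 0 →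
        ((M ^ p) v).2 = 0 ∧ (A ^ p) ((M ^ p) v).1 = 0 := by
      intro j
      induction j with
      | zero => exact id
      | succ j ih =>
        rintro ⟨h1, h2⟩
        apply ih
        rw [← add_assoc, sc, hM, MC_apply] at h1 h2
        set w := (MC A B C ^ (p + j)) v
        have hw : w.2 ∈ TT B p := by
          refine Submodule.le_topologicalClosure _ ⟨h1, (B ^ j) v.2, ?_⟩
          rw [MC_snd, pow_add]; rfl
        have h3 : C w.2 ∈ SS A p := by
          have : C w.2 = (A w.1 + C w.2) - A w.1 := by abel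
          rw [this]
          exact Submodule.sub_mem _ (Submodule.mem_sup_right h2) (Submodule.mem_sup_left ⟨_, rfl⟩)
        have h4 : C w.2 = J ⟨_, hw⟩ := hJ ⟨_, hw⟩
        have h5 : C w.2 = 0 := by
          rw [← inner_self_eq_zero (𝕜 := ℂ)]
          exact Submodule.inner_right_of_mem_orthogonal h3 (h4 ▸ (J ⟨_, hw⟩).2)
        have h6 : J ⟨_, hw⟩ = 0 := Subtype.ext (h4.symm.trans h5)
        refine ⟨congrArg Subtype.val (J.map_eq_zero_iff.1 h6), ker_st ha hap _ ?_⟩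
        simpa [h5] using h2
    obtain ⟨h1, h2⟩ := key (p + 1) (by rw [← add_assoc, hv]; simp)
    rw [pw, show (M ^ p) v = (((M ^ p) v).1, 0) from Prod.ext rfl h1, hM, MC_fst, ← hM, h2]; rfl
  · have hT : ∀ t ∈ TT B p, B t = 0 ∧ ∀ m, ∃ s, (B ^ m) s = t := by
      intro t ht
      have h1 : TT B p ≤ B.ker ⊓ (B ^ d).range := by
        refine Submodule.topologicalClosure_minimal _ (by rw [← hr 0]; rfl) ?_
        exact B.isClosed_ker.inter hB
      refine ⟨(h1 ht).1, fun m => ?_⟩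
      obtain ⟨s, hs⟩ : t ∈ (B ^ (p + m)).range := by rw [hr]; exact (h1 ht).2
      exact ⟨(B ^ p) s, by rw [← hs, add_comm, pow_add]; rfl⟩
    have D1 : ∀ (m : ℕ) (h : H), ∃ w n, (A ^ p) n = 0 ∧ (h, (0 : K)) = (M ^ m) w + (n, 0) := by
      intro m
      induction m with
      | zero => exact fun h => ⟨(h, 0), 0, map_zero _, by simp⟩
      | succ m ih =>
        intro h
        have := hS.completeSpace_coe
        obtain ⟨y, hy, s, hs, rfl⟩ := (SS A p).exists_add_mem_mem_orthogonal h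
        obtain ⟨_, ⟨b, rfl⟩, n0, hn0, rfl⟩ := Submodule.mem_sup.1 hy
        obtain ⟨t, ht⟩ := J.surjective ⟨s, hs⟩
        have h1 : C t = s := by rw [hJ, ht]
        obtain ⟨h2, h3⟩ := hT t t.2
        obtain ⟨t', ht'⟩ := h3 m
        obtain ⟨w, n, hn, e⟩ := ih (b - ((M ^ m) (0, t')).1)
        have e2 : (M ^ m) ((0, t') + w) + (n, 0) = (b, (t : K)) := by
          rw [map_add, add_assoc, ← e]
          refine Prod.ext (by simp) ?_
          show ((M ^ m) (0, t')).2 + 0 = _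
          rw [add_zero, hM, MC_snd, ht']
        refine ⟨(0, t') + w, A n + n0, ?_, ?_⟩
        · have : (A ^ p) (A n) = A ((A ^ p) n) := by
            rw [← mul_apply_eq_comp, ← pow_succ, pow_succ']; rfl
          rw [map_add, this, hn, show (A ^ p) n0 = 0 from hn0]; simp
        · rw [sc, eq_sub_of_add_eq e2, hM, MC_apply]
          refine Prod.ext ?_ (by simp [h2])
          simp [h1]; abel
    refine exDsc M (p + p) fun v => ?_
    obtain ⟨x', hx'⟩ : (B ^ p) v.2 ∈ (B ^ (p + 1)).range := by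
      rw [hr, ← hr 0]; exact ⟨_, rfl⟩
    set v0 := v - M (0, x') with hv0
    have h1 : ((M ^ p) v0).2 = 0 := by
      rw [hM, MC_snd, hv0, Prod.snd_sub, map_sub, ← hx', hM, MC_apply, pow_succ]
      exact sub_self _
    obtain ⟨z, n, hn, e⟩ := D1 (p + 1) ((M ^ p) v0).1
    have e1 : (M ^ p) v0 = (M ^ (p + 1)) z + (n, 0) := by rw [← e]; exact Prod.ext rfl h1
    refine ⟨(0, x') + z, ?_⟩
    have e2 : v = M (0, x') + v0 := by rw [hv0]; abel
    have e3 : (M ^ p) (n, 0) = 0 := by rw [hM, MC_fst, hn]; rfl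
    rw [e2, map_add, map_add, pw p p v0, e1, map_add, e3, add_zero, ← pw, ← add_assoc, pow_succ M (p + p)]
    rfl
end hil

noncomputable def dd (m : ℕ) : ℂ := if m % 2 = 0 then 1 else 1 / ((m : ℂ) + 1)
lemma dd_ne (m : ℕ) : dd m ≠ 0 := by
  have : (m : ℂ) + 1 ≠ 0 := by exact_mod_cast Nat.succ_ne_zero m
  unfold dd; split_ifs <;> simp [this]
lemma nrm (m : ℕ) : ‖1 / ((m : ℂ) + 1)‖ = 1 / ((m : ℝ) + 1) := by
  rw [norm_div, norm_one]; congr 1; exact_mod_cast Complex.norm_natCast (m + 1)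

noncomputable def A : L2 →L[ℂ] L2 := wc (fun n => if n % 2 = 0 then 1 else 0) (fun n => n / 2)
  (fun n => by split_ifs <;> simp) (fun a ha b hb h => by simp at ha hb h; omega)
noncomputable def B : L2 →L[ℂ] L2 := wc dd (fun n => 2 * n)
  (fun n => by
    unfold dd; split_ifs
    · simp
    · rw [nrm, div_le_one (by positivity)]; simp) (fun a _ b _ h => by simpa using h)
noncomputable def E : L2 →L[ℂ] L2 := wc (fun _ => 1) (fun n => 2 * n) (by simp)
  (fun a _ b _ h => by simpa using h)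
noncomputable def C : L2 →L[ℂ] L2 := wc (fun n => if n % 2 = 0 then 0 else 1) id
  (fun n => by split_ifs <;> simp) (fun a _ b _ h => h)

lemma A_even (x : L2) (m : ℕ) : A x (2 * m) = x m := by simp [A, wc_apply]
lemma A_odd (x : L2) (m : ℕ) : A x (2 * m + 1) = 0 := by simp [A, wc_apply]
lemma B_apply (x : L2) (m : ℕ) : B x m = dd m * x (2 * m) := rfl
lemma E_apply (x : L2) (m : ℕ) : E x m = x (2 * m) := by simp [E, wc_apply]
lemma C_even (x : L2) (m : ℕ) : C x (2 * m) = 0 := by simp [C, wc_apply]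
lemma C_odd (x : L2) (m : ℕ) : C x (2 * m + 1) = x (2 * m + 1) := by simp [C, wc_apply]
lemma ext2 {x y : L2} (h1 : ∀ m, x (2 * m) = y (2 * m)) (h2 : ∀ m, x (2 * m + 1) = y (2 * m + 1)) :
    x = y := by
  ext n
  obtain ⟨m, rfl | rfl⟩ := Nat.even_or_odd' n
  exacts [h1 m, h2 m]
lemma EA (x : L2) : E (A x) = x := by ext m; rw [E_apply, A_even]
lemma kerE {x : L2} : x ∈ E.ker ↔ ∀ m, x (2 * m) = 0 :=
  ⟨fun h m => by rw [← E_apply, show E x = 0 from h]; rfl,
    fun h => by show E x = 0; ext m; rw [E_apply, h]; rfl⟩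

lemma adj (x y : L2) : inner ℂ (A x) y = inner ℂ x (E y) := by
  rw [lp.inner_eq_tsum, lp.inner_eq_tsum,
    ← Function.Injective.tsum_eq (g := fun m : ℕ => 2 * m) (fun a b h => by simpa using h)]
  · simp [A_even, E_apply]
  · intro n hn
    obtain ⟨m, rfl | rfl⟩ := Nat.even_or_odd' n
    · exact ⟨m, rfl⟩
    · simp [A_odd] at hn

lemma eig (l : ℂ) (hl : ‖l‖ < 1) (k : ℕ) : ∃ x : L2, (∀ m, x (2 * m) = l * x m) ∧
    ∀ j, x (2 * j + 1) = (Pi.single k 1 : ℕ → ℂ) j := by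
  have h : ‖l • A‖ < 1 := by
    rw [norm_smul]
    exact (mul_le_of_le_one_right (norm_nonneg _) (wc_norm _ _ _ _)).trans_lt hl
  obtain ⟨u, hu⟩ := isUnit_one_sub_of_norm_lt_one h
  set x := (u⁻¹ : (L2 →L[ℂ] L2)ˣ).1 (lp.single 2 (2 * k + 1) 1)
  have h1 : (1 - l • A) x = lp.single 2 (2 * k + 1) 1 := by
    rw [← hu, ← mul_apply_eq_comp, Units.mul_inv]; rfl
  have h2 : ∀ n, x n - l * A x n = (Pi.single (2 * k + 1) 1 : ℕ → ℂ) n := fun n => by
    have := congrArg (fun y : L2 => y n) h1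
    simpa using this
  refine ⟨x, fun m => ?_, fun j => ?_⟩
  · have := h2 (2 * m)
    rw [A_even, Pi.single_eq_of_ne (by omega)] at this
    linear_combination this
  · have := h2 (2 * j + 1)
    rw [A_odd, mul_zero, sub_zero] at this
    rw [this]; simp [Pi.single_apply]

lemma dim_top (V : Submodule ℂ L2) (h : ∀ k, ∃ x ∈ V, ∀ j, x (2 * j + 1) =
    (Pi.single k 1 : ℕ → ℂ) j) : dim V = ⊤ := by
  choose v hv h using h
  let f : V →ₗ[ℂ] (ℕ → ℂ) :=
    { toFun := fun x j => x.1 (2 * j + 1), map_add' := fun _ _ => rfl, map_smul' := fun _ _ => rfl }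
  have : LinearIndependent ℂ (fun k => (⟨v k, hv k⟩ : V)) := by
    refine LinearIndependent.of_comp f ?_
    convert Pi.linearIndependent_single_one ℕ ℂ using 1
    funext k j; exact h k j
  exact Cardinal.toENat_eq_top.2 this.aleph0_le_rank

lemma B_not : ¬ Function.Surjective B := by
  intro h
  let y : L2 := ⟨fun m => 1 / ((m : ℂ) + 1), memℓp_gen (by
    simp only [nrm, ENNReal.toReal_ofNat, Real.rpow_ofNat]
    simp only [one_div, inv_pow]
    exact_mod_cast (summable_nat_add_iff 1).2 (Real.summable_nat_pow_inv.2 one_lt_two))⟩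
  obtain ⟨x, hx⟩ := h y
  have h1 : ∀ j, x (2 * (2 * j + 1)) = 1 := by
    intro j
    have h2 : dd (2 * j + 1) * x (2 * (2 * j + 1)) = dd (2 * j + 1) * 1 := by
      rw [← B_apply, hx]; simp [y, dd]
    exact mul_left_cancel₀ (dd_ne _) h2
  obtain ⟨N, hN⟩ := exists_nat_gt (‖x‖ ^ 2)
  have := sum_le x ((Finset.range N).image fun j => 2 * (2 * j + 1))
  rw [Finset.sum_image (fun a _ b _ h => by simpa using h)] at this
  simp [h1] at this
  linarith

theorem q1 : Q1Fails L2 L2 := by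
  have hA : (A ^ 1).ker = ⊥ := by
    rw [pow_one, eq_bot_iff]; intro x hx
    show x = 0
    rw [← EA x, show A x = 0 from hx, map_zero]
  have hS : SS A 1 = A.range := by rw [SS, hA, sup_bot_eq]
  have hS2 : (SS A 1)ᗮ = E.ker := by
    rw [hS]; ext y
    rw [Submodule.mem_orthogonal]
    refine ⟨fun h => ?_, ?_⟩
    · show E y = 0
      rw [← inner_self_eq_zero (𝕜 := ℂ), ← adj]; exact h _ ⟨_, rfl⟩
    · rintro h _ ⟨x, rfl⟩
      show inner ℂ (A x) y = 0
      rw [adj, show E y = 0 from h, inner_zero_right]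
  have hcl : IsClosed (A.range : Set L2) := by
    have : (A.range : Set L2) = {x | A (E x) = x} := by
      ext x; constructor
      · rintro ⟨y, rfl⟩; exact congrArg A (EA y)
      · exact fun h => ⟨_, h⟩
    rw [this]; exact isClosed_eq (by fun_prop) continuous_id
  have hkB : ∀ x : L2, x ∈ B.ker ↔ x ∈ E.ker := fun x => by
    rw [kerE]
    refine ⟨fun h m => ?_, fun h => ?_⟩
    · have : dd m * x (2 * m) = 0 := by rw [← B_apply, show B x = 0 from h]; rfl
      exact (mul_eq_zero.1 this).resolve_left (dd_ne m)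
    · show B x = 0
      ext m; rw [B_apply, h]; simp
  have hT : TT B 1 = E.ker := by
    refine le_antisymm (Submodule.topologicalClosure_minimal _ (fun x hx => (hkB x).1 hx.1)
      E.isClosed_ker) fun y hy => ?_
    refine mem_closure_of_tendsto (lp.hasSum_single (by norm_num) y)
      (Filter.Eventually.of_forall fun s => Submodule.sum_mem _ fun n _ => ⟨(hkB _).2 ?_, ?_⟩)
    · rw [kerE] at hy ⊢
      intro m
      by_cases h : 2 * m = n
      · subst h; simp [hy]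
      · simp [h]
    · refine ⟨lp.single 2 (2 * n) (y n / dd n), ?_⟩
      ext m
      show B _ m = _
      rw [B_apply]
      by_cases h : m = n
      · subst h; simp [mul_div_cancel₀ _ (dd_ne m)]
      · simp [h]
  refine ⟨A, B, C, 0, 1, 1, ⟨⟨hA.trans (LinearMap.ker_id).symm, fun _ _ => Nat.zero_le _⟩, ⟨?_, ?_⟩,
    ⟨1, one_pos, fun l _ hl => ?_⟩, le_rfl, zero_le_one, le_rfl, ⟨hS ▸ hcl, by rw [hS2, hT]⟩,
    ContinuousLinearEquiv.ofEq _ _ (hT.trans hS2.symm), ?_, ?_⟩, hcl, ?_⟩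
  · refine le_antisymm ?_ ?_
    · rintro _ ⟨v, rfl⟩; exact ⟨B v, rfl⟩
    · rintro _ ⟨v, rfl⟩
      refine ⟨A (A (E v)), ?_⟩
      ext m
      show B (B _) m = B v m
      simp [B_apply, A_even, E_apply, dd]
  · intro k hk
    by_contra h
    obtain rfl : k = 0 := by omega
    apply B_not
    intro y
    obtain ⟨x, hx⟩ : y ∈ (B ^ (0 + 1)).range := by rw [show _ = _ from hk]; exact ⟨y, rfl⟩
    exact ⟨x, hx⟩
  · rw [dim_top, dim_top]
    · intro k
      obtain ⟨x, h1, h2⟩ := eig l hl k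
      set q := 2 * k + 1
      refine ⟨lp.single 2 q 1 + ((q : ℂ) + 1) • (x - lp.single 2 q 1), ?_, fun j => ?_⟩
      · show (B - l • 1) _ = 0
        have hq : (q : ℂ) + 1 ≠ 0 := by exact_mod_cast Nat.succ_ne_zero q
        refine ext2 (fun m => ?_) fun m => ?_
        · have a1 : 2 * (2 * m) ≠ q := by omega
          have a2 : 2 * m ≠ q := by omega
          simp [B_apply, dd, a1, a2, h1 (2 * m)]; ring
        · have a1 : 2 * (2 * m + 1) ≠ q := by omega
          by_cases h : m = k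
          · subst h
            simp [B_apply, dd, a1, h1 (2 * m + 1), h2, q]
            simp only [q] at hq; push_cast at hq; field_simp; ring
          · have a2 : 2 * m + 1 ≠ q := by omega
            simp [B_apply, a1, a2, h1 (2 * m + 1), h2, h]
      · simp [h2, q, Pi.single_apply]
    · intro k
      obtain ⟨x, h1, h2⟩ := eig ((starRingEnd ℂ) l) (by simpa using hl) k
      refine ⟨x, ?_, h2⟩
      rintro _ ⟨z, rfl⟩
      have : E x = (starRingEnd ℂ) l • x := by ext m; rw [E_apply, h1]; rfl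
      show inner ℂ (A z - l • z) x = 0
      rw [inner_sub_left, adj, this, inner_smul_left, inner_smul_right, sub_self]
  · intro t
    have := kerE.1 (hT.le t.2)
    exact ext2 (fun m => by rw [C_even]; exact (this m).symm) fun m => C_odd _ m
  · intro x hx
    refine ext2 (fun m => C_even _ m) fun m => ?_
    have := hx (lp.single 2 (2 * m + 1) 1) (by
      rw [hT, kerE]; intro j
      have : 2 * j ≠ 2 * m + 1 := by omega
      simp [this])
    rw [lp.inner_single_left] at this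
    rw [C_odd]; simpa using this
  · rintro ⟨-, d, hd, -⟩
    have hinj : Function.Injective (MC A B C) := by
      rw [injective_iff_map_eq_zero]
      rintro ⟨h, x⟩ hv
      rw [MC_apply, Prod.mk_eq_zero] at hv
      have h1 := kerE.1 ((hkB x).1 hv.2)
      have h2 : ∀ n, A h n + C x n = 0 := fun n => congrArg (fun y : L2 => y n) hv.1
      refine Prod.ext ?_ (ext2 h1 fun m => ?_)
      · ext m; simpa [A_even, C_even] using h2 (2 * m)
      · simpa [A_odd, C_odd] using h2 (2 * m + 1)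
    have hinj2 : Function.Injective (MC A B C ^ d) := by
      rw [ContinuousLinearMap.coe_pow']; exact hinj.iterate d
    apply B_not
    intro y
    obtain ⟨w, hw⟩ : (MC A B C ^ d) (0, y) ∈ (MC A B C ^ (d + 1)).range := by
      rw [show _ = _ from hd]; exact ⟨_, rfl⟩
    rw [pow_succ] at hw
    exact ⟨w.2, congrArg Prod.snd (hinj2 hw)⟩

theorem main : Q1Fails L2 L2 ∧ ∀ (H K : Type) [NormedAddCommGroup H] [InnerProductSpace ℂ H]
    [CompleteSpace H] [NormedAddCommGroup K] [InnerProductSpace ℂ K] [CompleteSpace K],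
    Q2Holds H K :=
  ⟨q1, fun _ _ _ _ _ _ _ _ => q2⟩

end H91.Drazin
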