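import Mathlib

set_option autoImplicit false
open Set
open scoped RealInnerProductSpace

namespace Pool.Agent.H91.Drs

variable {E : Type} [NormedAddCommGroup E] [InnerProductSpace ℝ E]

/-- `x` is the proximal point of `γ h` at `z`. -/
def IsProx (γ : ℝ) (h : E → ℝ) (z x : E) : Prop :=
  ∀ u, h x + 1 / (2 * γ) * ‖x - z‖ ^ 2 ≤ h u + 1 / (2 * γ) * ‖u - z‖ ^ 2

theorem lim0 {a b : ℝ} (h : ∀ t : ℝ, 0 < t → t ≤ 1 → 0 ≤ a + t * b) : 0 ≤ a := by
  by_contra hc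
  have ha := not_le.1 hc
  have h1 : 0 < -a / (|b| - a + 1) := div_pos (by linarith) (by linarith [abs_nonneg b])
  have h2 : -a / (|b| - a + 1) * (|b| - a + 1) = -a :=
    div_mul_cancel₀ _ (by linarith [abs_nonneg b])
  have h3 := h _ h1 (by nlinarith [abs_nonneg b])
  nlinarith [mul_le_mul_of_nonneg_left (le_abs_self b) h1.le]

theorem sub {γ : ℝ} (g0 : 0 < γ) {h : E → ℝ} (hc : ConvexOn ℝ univ h) {z x : E}
    (hp : IsProx γ h z x) (u : E) : γ * h x + ⟪z - x, u - x⟫ ≤ γ * h u := by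
  have := lim0 (a := γ * h u - γ * h x - ⟪z - x, u - x⟫) (b := ‖u - x‖ ^ 2 / 2) fun t t0 t1 => by
    have h1 := hp ((1 - t) • x + t • u)
    have h2 := hc.2 (mem_univ x) (mem_univ u) (sub_nonneg.2 t1) t0.le (by ring)
    rw [show (1 - t) • x + t • u - z = t • (u - x) - (z - x) by module, norm_sub_sq_real (t • (u - x)),
      norm_smul, real_inner_smul_left, real_inner_comm, norm_sub_rev x z, Real.norm_eq_abs,
      mul_pow, sq_abs] at h1
    simp only [smul_eq_mul] at h2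
    have h3 := mul_le_mul_of_nonneg_left (h1.trans (add_le_add_left h2 _)) g0.le
    have e : ∀ r : ℝ, γ * (1 / (2 * γ) * r) = r / 2 := fun r => by field_simp
    rw [mul_add, mul_add, e, e] at h3
    refine nonneg_of_mul_nonneg_right ?_ t0 |> fun h => h
    nlinarith
  linarith

variable [CompleteSpace E] {f : E → ℝ} {G : E → E} {L : ℝ}

theorem line (hd : ∀ x, HasGradientAt f (G x) x) (x d : E) (t : ℝ) :
    HasDerivAt (fun t : ℝ => f (x + t • d)) ⟪G (x + t • d), d⟫ t := by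
  have h1 : HasDerivAt (fun t : ℝ => x + t • d) d t := by
    simpa using ((hasDerivAt_id t).smul_const d).const_add x
  exact (hd (x + t • d)).hasFDerivAt.comp_hasDerivAt t h1

theorem desc (hd : ∀ x, HasGradientAt f (G x) x) (hL : ∀ x y, ‖G x - G y‖ ≤ L * ‖x - y‖)
    (x d : E) : f (x + d) ≤ f x + ⟪G x, d⟫ + L / 2 * ‖d‖ ^ 2 := by
  have h1 : ∀ t : ℝ, HasDerivAt (fun t : ℝ => f (x + t • d) - t * ⟪G x, d⟫ - L / 2 * ‖d‖ ^ 2 * t ^ 2)
      (⟪G (x + t • d), d⟫ - ⟪G x, d⟫ - L * ‖d‖ ^ 2 * t) t := fun t => by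
    refine (((line hd x d t).sub ((hasDerivAt_id t).mul_const ⟪G x, d⟫)).sub
      ((hasDerivAt_pow 2 t).const_mul (L / 2 * ‖d‖ ^ 2))).congr_deriv ?_
    simp
    ring
  obtain ⟨c, ⟨c0, -⟩, hc⟩ := exists_hasDerivAt_eq_slope _ _ zero_lt_one
    (fun t _ => (h1 t).continuousAt.continuousWithinAt) fun t _ => h1 t
  have h2 := real_inner_le_norm (G (x + c • d) - G x) d
  have h3 := mul_le_mul_of_nonneg_right (hL (x + c • d) x) (norm_nonneg d)
  rw [add_sub_cancel_left, norm_smul, Real.norm_eq_abs, abs_of_pos c0] at h3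
  rw [inner_sub_left] at h2
  simp at hc
  linarith

theorem desc' {γ : ℝ} (g0 : 0 < γ) (hc : ConvexOn ℝ univ f) (hd : ∀ x, HasGradientAt f (G x) x)
    (hL : ∀ x y, ‖G x - G y‖ ≤ L * ‖x - y‖) {w x : E} (hp : IsProx γ f w x) (d : E) :
    γ * f (x + d) ≤ γ * f x + ⟪w - x, d⟫ + γ * L / 2 * ‖d‖ ^ 2 := by
  have h : ∀ d, γ * f (x + d) ≤ γ * f x + ⟪γ • G x, d⟫ + γ * L / 2 * ‖d‖ ^ 2 := fun d => by
    have := mul_le_mul_of_nonneg_left (desc hd hL x d) g0.le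
    rw [real_inner_smul_left]
    linarith
  have h0 := lim0 (a := -‖w - x - γ • G x‖ ^ 2) (b := γ * L / 2 * ‖w - x - γ • G x‖ ^ 2)
    fun t t0 _ => by
      have h1 := (sub g0 hc hp _).trans (h (t • (w - x - γ • G x)))
      have h2 := real_inner_self_eq_norm_sq (w - x - γ • G x)
      rw [add_sub_cancel_left, real_inner_smul_right, real_inner_smul_right, norm_smul,
        Real.norm_eq_abs, mul_pow, sq_abs] at h1
      rw [inner_sub_left] at h2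
      refine nonneg_of_mul_nonneg_right ?_ t0
      nlinarith
  have h3 : w - x - γ • G x = 0 := by
    rw [← norm_eq_zero, ← sq_eq_zero_iff]
    linarith [sq_nonneg ‖w - x - γ • G x‖]
  rw [sub_eq_zero.1 h3]
  exact h d

theorem one {g : E → ℝ} {γ : ℝ} (L0 : 0 < L) (g0 : 0 < γ) (g1 : γ < (2 * √2 - 1) / L)
    (hc : ConvexOn ℝ univ f) (hg : ConvexOn ℝ univ g) (hd : ∀ x, HasGradientAt f (G x) x)
    (hL : ∀ x y, ‖G x - G y‖ ≤ L * ‖x - y‖) {v p w x y : E} (hp : IsProx γ f v p)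
    (hx : IsProx γ f w x) (hy : IsProx γ g ((2:ℝ) • x - w) y) :
    f y + g y - (f p + g p) ≤ ‖w - v‖ ^ 2 / (4 * γ) := by
  have s0 : 0 < γ * L := by positivity
  have s1 : γ * L + 1 < 2 * √2 := by linarith [(lt_div_iff₀ L0).1 g1]
  have s2 : (γ * L) ^ 2 + 2 * (γ * L) < 7 := by
    nlinarith [Real.sq_sqrt (show (0:ℝ) ≤ 2 by norm_num), Real.sqrt_nonneg 2]
  obtain ⟨a, rfl⟩ : ∃ a, v = p + a := ⟨v - p, by abel⟩
  obtain ⟨X, rfl⟩ : ∃ X, x = p + X := ⟨x - p, by abel⟩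
  obtain ⟨d, rfl⟩ : ∃ d, y = p + (1 / 2 : ℝ) • X + d := ⟨y - (p + (1 / 2 : ℝ) • X), by abel⟩
  obtain ⟨k, rfl⟩ : ∃ k, w = p + X + (a + (γ * L) • k) :=
    ⟨(γ * L)⁻¹ • (w - p - X - a), by rw [smul_inv_smul₀ s0.ne']; abel⟩
  have h1 := mul_le_mul_of_nonneg_left (hc.2 (mem_univ (p + (d + (1 / 2 : ℝ) • k)))
    (mem_univ (p + X + (d - (1 / 2 : ℝ) • k))) one_half_pos.le one_half_pos.le (by norm_num)) g0.le
  rw [show (1 / 2 : ℝ) • (p + (d + (1 / 2 : ℝ) • k)) + (1 / 2 : ℝ) • (p + X + (d - (1 / 2 : ℝ) • k))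
    = p + (1 / 2 : ℝ) • X + d by module] at h1
  have h2 := desc' g0 hc hd hL hp (d + (1 / 2 : ℝ) • k)
  have h3 := desc' g0 hc hd hL hx (d - (1 / 2 : ℝ) • k)
  have h4 := (sub g0 hc hx _).trans (desc' g0 hc hd hL hp k)
  have h5 := (sub g0 hc hp _).trans (desc' g0 hc hd hL hx (-k))
  have h6 := sub g0 hg hy p
  have h7 := sq_nonneg ‖(2 - γ * L) • d + (γ * L / 2) • k‖
  rw [show (2:ℝ) • (p + X) - (p + X + (a + (γ * L) • k)) - (p + (1 / 2 : ℝ) • X + d) =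
    (1 / 2 : ℝ) • X - d - a - (γ * L) • k by module,
    show p - (p + (1 / 2 : ℝ) • X + d) = -((1 / 2 : ℝ) • X) - d by module] at h6
  rw [show p + k - (p + X) = k - X by abel] at h4
  rw [show p + X + -k - p = X - k by abel] at h5
  rw [le_div_iff₀ (by positivity), show p + X + (a + (γ * L) • k) - (p + a) = X + (γ * L) • k by abel]
  simp only [add_sub_cancel_left, ← real_inner_self_eq_norm_sq, inner_add_left, inner_add_right,
    inner_sub_left, inner_sub_right, inner_neg_left, inner_neg_right, real_inner_smul_left,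
    real_inner_smul_right, smul_eq_mul, real_inner_comm d k, real_inner_comm X k,
    real_inner_comm X d] at h1 h2 h3 h4 h5 h6 h7 ⊢
  set s := γ * L
  have k0 : 0 ≤ ⟪k, k⟫ := real_inner_self_nonneg
  have h8 : 0 ≤ (1 - s / 2) * ⟪d, d⟫ + s / 2 * ⟪d, k⟫ + (7 * s / 8 + s ^ 2 / 4) * ⟪k, k⟫ := by
    refine nonneg_of_mul_nonneg_right ?_ (show 0 < 2 * (2 - s) by nlinarith)
    nlinarith [mul_nonneg (mul_nonneg s0.le (sub_nonneg.2 s2.le)) k0]
  linarith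

theorem main : ∀ (n : ℕ) (L γ : ℝ) (f g : EuclideanSpace ℝ (Fin n) → ℝ)
    (G : EuclideanSpace ℝ (Fin n) → EuclideanSpace ℝ (Fin n)), 0 < L → 0 < γ →
    γ < (2 * √2 - 1) / L → ConvexOn ℝ Set.univ f → ConvexOn ℝ Set.univ g →
    (∀ x, HasGradientAt f (G x) x) → (∀ x y, ‖G x - G y‖ ≤ L * ‖x - y‖) →
    ∀ ws xs w x y : EuclideanSpace ℝ (Fin n), Pool.Agent.H91.Drs.IsProx γ f ws xs →
      Pool.Agent.H91.Drs.IsProx γ f w x → Pool.Agent.H91.Drs.IsProx γ g ((2:ℝ) • x - w) y →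
      f y + g y - (f xs + g xs) ≤ ‖w - ws‖ ^ 2 / (4 * γ) :=
  fun _ _ _ _ _ _ L0 g0 g1 hc hg hd hL _ _ _ _ _ hp hx hy => one L0 g0 g1 hc hg hd hL hp hx hy

end Pool.Agent.H91.Drs
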