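import Mathlib

set_option autoImplicit false
set_option maxRecDepth 100000

namespace Pool.Agent.H91.Em

theorem gen {x0 x1 x2 x3 x4 x5 x6 x7 x8 x9 x10 x11 x12 x13 x14 : ℝ} (h0 : 0 < x0) (h1 : 0 < x1) (h2 : 0 < x2) (h3 : 0 < x3) (h4 : 0 < x4) (h5 : 0 < x5) (h6 : 0 < x6) (h7 : 0 < x7) (h8 : 0 < x8) (h9 : 0 < x9) (h10 : 0 < x10) (h11 : 0 < x11) (h12 : 0 < x12) (h13 : 0 < x13) (h14 : 0 < x14) :
    x0⁻¹ + x1⁻¹ + x2⁻¹ + x3⁻¹ - x4⁻¹ - x5⁻¹ - x6⁻¹ - x7⁻¹ - x8⁻¹ - x9⁻¹ + x10⁻¹ + x11⁻¹ + x12⁻¹ + x13⁻¹ - x14⁻¹ =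
    (x1 * x2 * x3 * x4 * x5 * x6 * x7 * x8 * x9 * x10 * x11 * x12 * x13 * x14
    + x0 * x2 * x3 * x4 * x5 * x6 * x7 * x8 * x9 * x10 * x11 * x12 * x13 * x14
    + x0 * x1 * x3 * x4 * x5 * x6 * x7 * x8 * x9 * x10 * x11 * x12 * x13 * x14
    + x0 * x1 * x2 * x4 * x5 * x6 * x7 * x8 * x9 * x10 * x11 * x12 * x13 * x14
    - x0 * x1 * x2 * x3 * x5 * x6 * x7 * x8 * x9 * x10 * x11 * x12 * x13 * x14
    - x0 * x1 * x2 * x3 * x4 * x6 * x7 * x8 * x9 * x10 * x11 * x12 * x13 * x14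
    - x0 * x1 * x2 * x3 * x4 * x5 * x7 * x8 * x9 * x10 * x11 * x12 * x13 * x14
    - x0 * x1 * x2 * x3 * x4 * x5 * x6 * x8 * x9 * x10 * x11 * x12 * x13 * x14
    - x0 * x1 * x2 * x3 * x4 * x5 * x6 * x7 * x9 * x10 * x11 * x12 * x13 * x14
    - x0 * x1 * x2 * x3 * x4 * x5 * x6 * x7 * x8 * x10 * x11 * x12 * x13 * x14
    + x0 * x1 * x2 * x3 * x4 * x5 * x6 * x7 * x8 * x9 * x11 * x12 * x13 * x14
    + x0 * x1 * x2 * x3 * x4 * x5 * x6 * x7 * x8 * x9 * x10 * x12 * x13 * x14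
    + x0 * x1 * x2 * x3 * x4 * x5 * x6 * x7 * x8 * x9 * x10 * x11 * x13 * x14
    + x0 * x1 * x2 * x3 * x4 * x5 * x6 * x7 * x8 * x9 * x10 * x11 * x12 * x14
    - x0 * x1 * x2 * x3 * x4 * x5 * x6 * x7 * x8 * x9 * x10 * x11 * x12 * x13) / (x0 * x1 * x2 * x3 * (x4 * x5 * x6 * x7 * x8 * x9 * x10 * x11 * x12 * x13 * x14)) := by
  field_simp

structure Op (α : Type) where
  add : α → α → α
  mul : α → α → α
  zero : α
  nn : α → Bool

structure Sem {α : Type} (O : Op α) (e : α → ℝ) : Prop where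
  add : ∀ p q, e (O.add p q) = e p + e q
  mul : ∀ p q, e (O.mul p q) = e p * e q
  zero : e O.zero = 0
  nn : ∀ p, O.nn p = true → 0 ≤ e p

def ladd {α : Type} (O : Op α) : List α → List α → List α
  | [], q => q
  | p, [] => p
  | a :: p, b :: q => O.add a b :: ladd O p q

def lmul {α : Type} (O : Op α) (p q : List α) : List α :=
  p.foldr (fun a r => ladd O (q.map (O.mul a)) (O.zero :: r)) []

def up {α : Type} (O : Op α) : Op (List α) := ⟨ladd O, lmul O, [], fun p => p.all O.nn⟩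

def ev {α : Type} (e : α → ℝ) (x : ℝ) (p : List α) : ℝ := p.foldr (fun a r => e a + x * r) 0

theorem Sem.up {α : Type} {O : Op α} {e : α → ℝ} (h : Sem O e) {x : ℝ} (hx : 0 ≤ x) :
    Sem (up O) (ev e x) := by
  have c : ∀ a p, ev e x (a :: p) = e a + x * ev e x p := fun _ _ => rfl
  have z : ev e x [] = 0 := rfl
  have h1 : ∀ p q, ev e x (ladd O p q) = ev e x p + ev e x q := by
    intro p
    induction p with
    | nil => intro q; simp [ladd, z]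
    | cons a p ih =>
      intro q
      cases q with
      | nil => simp [ladd, z]
      | cons b q => rw [ladd, c, c, c, h.add, ih]; ring
  have h2 : ∀ a q, ev e x (List.map (O.mul a) q) = e a * ev e x q := by
    intro a q
    induction q with
    | nil => simp [z]
    | cons b q ih => rw [List.map_cons, c, c, h.mul, ih]; ring
  refine ⟨h1, fun p q => ?_, z, fun p => ?_⟩
  · induction p with
    | nil => exact (zero_mul _).symm
    | cons a p ih =>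
      show ev e x (ladd O (q.map (O.mul a)) (O.zero :: lmul O p q)) = _
      rw [h1, h2, c, c, h.zero, show ev e x (lmul O p q) = _ from ih]
      ring
  · induction p with
    | nil => exact fun _ => le_rfl
    | cons a p ih =>
      intro hp
      have hp : O.nn a = true ∧ p.all O.nn = true := by simpa [Em.up] using hp
      rw [c]
      exact add_nonneg (h.nn a hp.1) (mul_nonneg hx (ih hp.2))

def O0 : Op ℤ := ⟨Int.add, Int.mul, 0, fun n => decide (0 ≤ n)⟩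

theorem sem0 : Sem O0 fun n => (n : ℝ) :=
  ⟨fun p q => Int.cast_add p q, fun p q => Int.cast_mul p q, Int.cast_zero,
    fun _ h => Int.cast_nonneg (of_decide_eq_true h)⟩

section
variable {α : Type} (O : Op α)
def N' (W l0 l1 l2 l3 l4 l5 l6 l7 l8 l9 l10 l11 l12 l13 l14 : α) : α := (O.add (O.add (O.add (O.add (O.add (O.add (O.add (O.add (O.add (O.add (O.add (O.add (O.add (O.add (O.mul (O.mul (O.mul (O.mul (O.mul (O.mul (O.mul (O.mul (O.mul (O.mul (O.mul (O.mul (O.mul l1 l2) l3) l4) l5) l6) l7) l8) l9) l10) l11) l12) l13) l14) (O.mul (O.mul (O.mul (O.mul (O.mul (O.mul (O.mul (O.mul (O.mul (O.mul (O.mul (O.mul (O.mul l0 l2) l3) l4) l5) l6) l7) l8) l9) l10) l11) l12) l13) l14)) (O.mul (O.mul (O.mul (O.mul (O.mul (O.mul (O.mul (O.mul (O.mul (O.mul (O.mul (O.mul (O.mul l0 l1) l3) l4) l5) l6) l7) l8) l9) l10) l11) l12) l13) l14)) (O.mul (O.mul (O.mul (O.mul (O.mul (O.mul (O.mul (O.mul (O.mul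 (O.mul (O.mul (O.mul (O.mul l0 l1) l2) l4) l5) l6) l7) l8) l9) l10) l11) l12) l13) l14)) (O.mul W (O.mul (O.mul (O.mul (O.mul (O.mul (O.mul (O.mul (O.mul (O.mul (O.mul (O.mul (O.mul (O.mul l0 l1) l2) l3) l5) l6) l7) l8) l9) l10) l11) l12) l13) l14))) (O.mul W (O.mul (O.mul (O.mul (O.mul (O.mul (O.mul (O.mul (O.mul (O.mul (O.mul (O.mul (O.mul (O.mul l0 l1) l2) l3) l4) l6) l7) l8) l9) l10) l11) l12) l13) l14))) (O.mul W (O.mul (O.mul (O.mul (O.mul (O.mul (O.mul (O.mul (O.mul (O.mul (O.mul (O.mul (O.mul (O.mul l0 l1) l2) l3) l4) l5) l7) l8) l9) l10) l11) l12) l13) l14))) (O.mul W (O.mul (O.mul (O.mul (O.mul (O.mul (O.mul (O.mul (O.mul (O.mul (O.mul (O.mul (O.mul (O.mul l0 l1) l2) l3) l4) l5) l6) l8) l9) l10) l11) l12) l13) l14))) (O.mul W (O.mul (O.mul (O.mul (O.mul (O.mul (O.mul (O.mul (O.mul (O.mul (O.mul (O.mul (O.mul (O.mul l0 l1) l2) l3) l4) l5) l6) l7) l9) l10) l11) l12) l13) l14)))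 (O.mul W (O.mul (O.mul (O.mul (O.mul (O.mul (O.mul (O.mul (O.mul (O.mul (O.mul (O.mul (O.mul (O.mul l0 l1) l2) l3) l4) l5) l6) l7) l8) l10) l11) l12) l13) l14))) (O.mul (O.mul (O.mul (O.mul (O.mul (O.mul (O.mul (O.mul (O.mul (O.mul (O.mul (O.mul (O.mul l0 l1) l2) l3) l4) l5) l6) l7) l8) l9) l11) l12) l13) l14)) (O.mul (O.mul (O.mul (O.mul (O.mul (O.mul (O.mul (O.mul (O.mul (O.mul (O.mul (O.mul (O.mul l0 l1) l2) l3) l4) l5) l6) l7) l8) l9) l10) l12) l13) l14)) (O.mul (O.mul (O.mul (O.mul (O.mul (O.mul (O.mul (O.mul (O.mul (O.mul (O.mul (O.mul (O.mul l0 l1) l2) l3) l4) l5) l6) l7) l8) l9) l10) l11) l13) l14)) (O.mul (O.mul (O.mul (O.mul (O.mul (O.mul (O.mul (O.mul (O.mul (O.mul (O.mul (O.mul (O.mul l0 l1) l2) l3) l4) l5) l6) l7) l8) l9) l10) l11) l12) l14)) (O.mul W (O.mul (O.mul (O.mul (O.mul (O.mul (O.mul (O.mul (O.mul (O.mul (O.mul (O.mul (O.mul (O.mul l0 l1) l2) l3) l4) l5) l6) l7)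 l8) l9) l10) l11) l12) l13)))
def D' (l4 l5 l6 l7 l8 l9 l10 l11 l12 l13 l14 : α) : α := (O.mul (O.mul (O.mul (O.mul (O.mul (O.mul (O.mul (O.mul (O.mul (O.mul l4 l5) l6) l7) l8) l9) l10) l11) l12) l13) l14)
def N (W A B C U : α) : α := N' O W A B C U (O.add A B) (O.add A C) (O.add A U) (O.add B C) (O.add B U) (O.add C U) (O.add (O.add A B) C) (O.add (O.add A B) U) (O.add (O.add A C) U) (O.add (O.add B C) U) (O.add (O.add (O.add A B) C) U)
def D (A B C U : α) : α := D' O (O.add A B) (O.add A C) (O.add A U) (O.add B C) (O.add B U) (O.add C U) (O.add (O.add A B) C) (O.add (O.add A B) U) (O.add (O.add A C) U) (O.add (O.add B C) U) (O.add (O.add (O.add A B) C) U)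
def sq (p : α) : α := O.mul p p
def R (n d W A B C : α) : α := O.add (sq O n) (O.mul W (O.mul
  (O.add (O.add (O.add (sq O (O.mul B C)) (sq O (O.mul A C))) (sq O (O.mul A B)))
    (sq O (O.mul (O.mul A B) C))) (sq O d)))

theorem gkey {e : α → ℝ} (s : Sem O e) {W A B C U : α} {a b c : ℝ} (ha : 0 < a) (hb : 0 < b)
    (hc : 0 < c) (eA : e A = a) (eB : e B = b) (eC : e C = c) (eU : e U = 1) (eW : e W = -1)
    (h : 0 ≤ e (R O (N O W A B C U) (D O A B C U) W A B C)) :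
    a⁻¹ ^ 2 + b⁻¹ ^ 2 + c⁻¹ ^ 2 + 1 ≤ (a⁻¹ + b⁻¹ + c⁻¹ + 1⁻¹ - (a + b)⁻¹ - (a + c)⁻¹ - (a + 1)⁻¹ - (b + c)⁻¹ - (b + 1)⁻¹ - (c + 1)⁻¹ + (a + b + c)⁻¹ + (a + b + 1)⁻¹ + (a + c + 1)⁻¹ + (b + c + 1)⁻¹ - (a + b + c + 1)⁻¹) ^ 2 := by
  simp only [R, sq, N, D, N', D', s.add, s.mul, eA, eB, eC, eU, eW] at h
  rw [gen ha hb hc one_pos (by positivity) (by positivity) (by positivity) (by positivity) (by positivity) (by positivity) (by positivity) (by positivity) (by positivity) (by positivity) (by positivity), div_pow, le_div_iff₀ (by positivity)]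
  have e1 : ∀ D : ℝ, (a⁻¹ ^ 2 + b⁻¹ ^ 2 + c⁻¹ ^ 2 + 1) * (a * b * c * 1 * D) ^ 2 =
      (b * c * (b * c) + a * c * (a * c) + a * b * (a * b) + a * b * c * (a * b * c)) * (D * D) :=
    fun D => by field_simp
  rw [e1, pow_two]
  simp only [neg_one_mul, ← sub_eq_add_neg, sub_nonneg] at h
  exact h
end

end Pool.Agent.H91.Em
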