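import Pool.Agent.H91.Em1

set_option autoImplicit false
set_option maxRecDepth 100000

namespace Pool.Agent.H91.Em

abbrev P := List (List (List ℤ))
def O : Op P := up (up (up O0))
def Nl : P := [[[], [0, 0, 0, 0, 0, 0, 0, 0, 0], [0, 0, 0, 0, 1, 4, 6, 4, 1], [0, 0, 0, 2, 12, 26, 26, 12, 2], [0, 0, 1, 12, 40, 58, 40, 12, 1], [0, 0, 4, 26, 58, 58, 26, 4], [0, 0, 6, 26, 40, 26, 6], [0, 0, 4, 12, 12, 4], [0, 0, 1, 2, 1]],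
  [[0, 0, 0, 0, 0, 0, 0, 0, 0], [0, 0, 0, 0, 1, 4, 6, 4, 1], [0, 0, 0, 4, 24, 52, 52, 24, 4], [0, 0, 4, 40, 128, 184, 128, 40, 4], [0, 1, 24, 128, 272, 272, 128, 24, 1], [0, 4, 52, 184, 272, 184, 52, 4], [0, 6, 52, 128, 128, 52, 6], [0, 4, 24, 40, 24, 4], [0, 1, 4, 4, 1]],
  [[0, 0, 0, 0, 1, 4, 6, 4, 1], [0, 0, 0, 4, 24, 52, 52, 24, 4], [0, 0, 5, 52, 168, 242, 168, 52, 5], [0, 4, 52, 242, 494, 494, 242, 52, 4], [1, 24, 168, 494, 697, 494, 168, 24, 1], [4, 52, 242, 494, 494, 242, 52, 4], [6, 52, 168, 242, 168, 52, 6], [4, 24, 52, 52, 24, 4], [1, 4, 5, 4, 1]],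
  [[0, 0, 0, 2, 12, 26, 26, 12, 2], [0, 0, 4, 40, 128, 184, 128, 40, 4], [0, 4, 52, 242, 494, 494, 242, 52, 4], [2, 40, 242, 666, 922, 666, 242, 40, 2], [12, 128, 494, 922, 922, 494, 128, 12], [26, 184, 494, 666, 494, 184, 26], [26, 128, 242, 242, 128, 26], [12, 40, 52, 40, 12], [2, 4, 4, 2]],
  [[0, 0, 1, 12, 40, 58, 40, 12, 1], [0, 1, 24, 128, 272, 272, 128, 24, 1], [1, 24, 168, 494, 697, 494, 168, 24, 1], [12, 128, 494, 922, 922, 494, 128, 12], [40, 272, 697, 922, 697, 272, 40], [58, 272, 494, 494, 272, 58], [40, 128, 168, 128, 40], [12, 24, 24, 12], [1, 1, 1]],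
  [[0, 0, 4, 26, 58, 58, 26, 4], [0, 4, 52, 184, 272, 184, 52, 4], [4, 52, 242, 494, 494, 242, 52, 4], [26, 184, 494, 666, 494, 184, 26], [58, 272, 494, 494, 272, 58], [58, 184, 242, 184, 58], [26, 52, 52, 26], [4, 4, 4]],
  [[0, 0, 6, 26, 40, 26, 6], [0, 6, 52, 128, 128, 52, 6], [6, 52, 168, 242, 168, 52, 6], [26, 128, 242, 242, 128, 26], [40, 128, 168, 128, 40], [26, 52, 52, 26], [6, 6, 6]],
  [[0, 0, 4, 12, 12, 4], [0, 4, 24, 40, 24, 4], [4, 24, 52, 52, 24, 4], [12, 40, 52, 40, 12], [12, 24, 24, 12], [4, 4, 4]],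
  [[0, 0, 1, 2, 1], [0, 1, 4, 4, 1], [1, 4, 5, 4, 1], [2, 4, 4, 2], [1, 1, 1]]]
def Dl : P := [[[], [0, 0, 0, 1, 4, 6, 4, 1], [0, 0, 2, 12, 26, 26, 12, 2], [0, 1, 12, 40, 58, 40, 12, 1], [0, 4, 26, 58, 58, 26, 4], [0, 6, 26, 40, 26, 6], [0, 4, 12, 12, 4], [0, 1, 2, 1]],
  [[0, 0, 0, 1, 4, 6, 4, 1], [0, 0, 4, 24, 52, 52, 24, 4], [0, 4, 40, 128, 184, 128, 40, 4], [1, 24, 128, 272, 272, 128, 24, 1], [4, 52, 184, 272, 184, 52, 4], [6, 52, 128, 128, 52, 6], [4, 24, 40, 24, 4], [1, 4, 4, 1]],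
  [[0, 0, 2, 12, 26, 26, 12, 2], [0, 4, 40, 128, 184, 128, 40, 4], [2, 40, 204, 428, 428, 204, 40, 2], [12, 128, 428, 624, 428, 128, 12], [26, 184, 428, 428, 184, 26], [26, 128, 204, 128, 26], [12, 40, 40, 12], [2, 4, 2]],
  [[0, 1, 12, 40, 58, 40, 12, 1], [1, 24, 128, 272, 272, 128, 24, 1], [12, 128, 428, 624, 428, 128, 12], [40, 272, 624, 624, 272, 40], [58, 272, 428, 272, 58], [40, 128, 128, 40], [12, 24, 12], [1, 1]],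
  [[0, 4, 26, 58, 58, 26, 4], [4, 52, 184, 272, 184, 52, 4], [26, 184, 428, 428, 184, 26], [58, 272, 428, 272, 58], [58, 184, 184, 58], [26, 52, 26], [4, 4]],
  [[0, 6, 26, 40, 26, 6], [6, 52, 128, 128, 52, 6], [26, 128, 204, 128, 26], [40, 128, 128, 40], [26, 52, 26], [6, 6]],
  [[0, 4, 12, 12, 4], [4, 24, 40, 24, 4], [12, 40, 40, 12], [12, 24, 12], [4, 4]],
  [[0, 1, 2, 1], [1, 4, 4, 1], [2, 4, 2], [1, 1]]]

theorem c1 : N O [[[-1]]] [[], [[1]]] [[[], [1]]] [[[0, 1]]] [[[1]]] = Nl := by decide +kernel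
theorem c2 : D O [[], [[1]]] [[[], [1]]] [[[0, 1]]] [[[1]]] = Dl := by decide +kernel
theorem c3 : O.nn (R O Nl Dl [[[-1]]] [[], [[1]]] [[[], [1]]] [[[0, 1]]]) = true := by
  decide +kernel

end Pool.Agent.H91.Em
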