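import Pool.Agent.H91.Em2

set_option autoImplicit false

namespace Pool.Agent.H91.Em

theorem key {a b c : ℝ} (ha : 0 < a) (hb : 0 < b) (hc : 0 < c) :
    a⁻¹ ^ 2 + b⁻¹ ^ 2 + c⁻¹ ^ 2 + 1 ≤ (a⁻¹ + b⁻¹ + c⁻¹ + 1⁻¹ - (a + b)⁻¹ - (a + c)⁻¹ - (a + 1)⁻¹
      - (b + c)⁻¹ - (b + 1)⁻¹ - (c + 1)⁻¹ + (a + b + c)⁻¹ + (a + b + 1)⁻¹ + (a + c + 1)⁻¹
      + (b + c + 1)⁻¹ - (a + b + c + 1)⁻¹) ^ 2 := by
  have s : Sem O _ := ((sem0.up hc.le).up hb.le).up ha.le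
  have h := s.nn _ c3
  rw [← c1, ← c2] at h
  exact gkey O s ha hb hc (by simp [ev]) (by simp [ev]) (by simp [ev]) (by simp [ev])
    (by simp [ev]) h

theorem hm {x y : ℝ} (hx : 0 < x) (hy : 0 < y) : (x + y)⁻¹ ≤ (x⁻¹ + y⁻¹) / 4 := by
  rw [← sub_nonneg, show (x⁻¹ + y⁻¹) / 4 - (x + y)⁻¹ = (x - y) ^ 2 / (4 * x * y * (x + y)) by
    field_simp; ring]
  positivity

theorem main : ∀ a b c d : ℝ, 0 < a → 0 < b → 0 < c → 0 < d →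
    √(a⁻¹ ^ 2 + b⁻¹ ^ 2 + c⁻¹ ^ 2 + d⁻¹ ^ 2) ≤ (a⁻¹ + b⁻¹ + c⁻¹ + d⁻¹)
      - ((a + b)⁻¹ + (a + c)⁻¹ + (a + d)⁻¹ + (b + c)⁻¹ + (b + d)⁻¹ + (c + d)⁻¹)
      + ((a + b + c)⁻¹ + (a + b + d)⁻¹ + (a + c + d)⁻¹ + (b + c + d)⁻¹) - (a + b + c + d)⁻¹ := by
  intro a b c d ha hb hc hd
  have k := key (div_pos ha hd) (div_pos hb hd) (div_pos hc hd)
  rw [← div_self hd.ne'] at k
  simp only [← add_div, inv_div] at k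
  simp only [div_eq_mul_inv d] at k
  refine Real.sqrt_le_iff.2 ⟨?_, le_of_mul_le_mul_left ?_ (pow_pos hd 2)⟩
  · have h1 : (a + b + c + d)⁻¹ ≤ (a + b + c)⁻¹ := inv_anti₀ (by positivity) (by linarith)
    have h2 : 0 < (a + b + d)⁻¹ + (a + c + d)⁻¹ + (b + c + d)⁻¹ := by positivity
    have h3 : 0 < a⁻¹ + b⁻¹ + c⁻¹ + d⁻¹ := by positivity
    linarith [hm ha hb, hm ha hc, hm ha hd, hm hb hc, hm hb hd, hm hc hd]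
  · have e : (d * d⁻¹) ^ 2 = d * d⁻¹ := by rw [mul_inv_cancel₀ hd.ne', one_pow]
    refine le_trans (le_of_eq ?_) (k.trans (le_of_eq ?_))
    · linear_combination e
    · ring

end Pool.Agent.H91.Em
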