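import Mathlib

set_option autoImplicit false

namespace H91.Equi
open Complex Metric Set Filter Topology MeasureTheory AddCircle Finset

instance factTwoPi : Fact (0 < 2 * Real.pi) := ⟨Real.two_pi_pos⟩

lemma exp_ne_one {n : ℤ} (hn : n ≠ 0) : exp (n * I) ≠ 1 := by
  intro h
  obtain ⟨m, hm⟩ := exp_eq_one_iff.1 h
  have h1 : (n : ℝ) = m * (2 * Real.pi) := by
    have := congrArg Complex.im hm
    simpa using this
  have hm0 : m ≠ 0 := by
    rintro rfl
    simp at h1; exact hn h1
  have : Real.pi = (n : ℝ) / ((2 * m : ℤ) : ℝ) := by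
    have : (m : ℝ) ≠ 0 := by exact_mod_cast hm0
    push_cast; field_simp; linarith
  exact (irrational_iff_ne_rational _).1 irrational_pi n (2 * m) (by omega) this

noncomputable def av (F : C(AddCircle (2 * Real.pi), ℂ)) (n : ℕ) : ℂ :=
  ((n : ℂ) + 1)⁻¹ * ∑ j ∈ range (n + 1), F ((j : ℝ) : AddCircle (2 * Real.pi))

lemma av_fourier (m : ℤ) : Tendsto (av (fourier m)) atTop
    (𝓝 (∫ x : AddCircle (2 * Real.pi), fourier m x ∂haarAddCircle)) := by
  have h0 : ∫ x : AddCircle (2 * Real.pi), fourier m x ∂haarAddCircle =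
      (Pi.single m (1 : ℂ) : ℤ → ℂ) 0 := by
    rw [← fourierCoeff_fourier (T := 2 * Real.pi) m]
    simp [fourierCoeff]
  rw [h0]
  by_cases hm : m = 0
  · subst hm
    have : av (fourier 0) = fun _ => 1 := by
      funext n
      have : (n : ℂ) + 1 ≠ 0 := by exact_mod_cast Nat.succ_ne_zero n
      simp [av, this]
    rw [this]; simp
  · rw [Pi.single_eq_of_ne (Ne.symm hm)]
    set w := exp (m * I) with hw
    have hw1 : w ≠ 1 := exp_ne_one hm
    have hwn : ‖w‖ = 1 := by
      rw [hw]; exact_mod_cast norm_exp_ofReal_mul_I (m : ℝ)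
    have h1 : ∀ j : ℕ, fourier m ((j : ℝ) : AddCircle (2 * Real.pi)) = w ^ j := by
      intro j
      rw [fourier_coe_apply, hw, ← exp_nat_mul]
      congr 1
      have : (Real.pi : ℂ) ≠ 0 := by exact_mod_cast Real.pi_ne_zero
      push_cast; field_simp
    refine squeeze_zero_norm (a := fun n : ℕ => (2 / ‖w - 1‖) * (1 / ((n : ℝ) + 1))) (fun n => ?_) ?_
    · simp only [av, h1]
      rw [geom_sum_eq hw1, norm_mul, norm_inv, norm_div, mul_comm, one_div]
      have e : ‖(n : ℂ) + 1‖ = n + 1 := by exact_mod_cast Complex.norm_natCast (n + 1)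
      rw [e]
      gcongr
      refine (norm_sub_le _ _).trans ?_
      rw [norm_pow, hwn]; norm_num
    · simpa using tendsto_one_div_add_atTop_nhds_zero_nat.const_mul (2 / ‖w - 1‖)

lemma av_all (F : C(AddCircle (2 * Real.pi), ℂ)) :
    Tendsto (av F) atTop (𝓝 (∫ x, F x ∂haarAddCircle)) := by
  have int : ∀ G : C(AddCircle (2 * Real.pi), ℂ), Integrable G haarAddCircle := fun G =>
    G.continuous.integrable_of_hasCompactSupport (HasCompactSupport.of_compactSpace _)
  have hspan : ∀ G ∈ Submodule.span ℂ (Set.range (@fourier (2 * Real.pi))),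
      Tendsto (av G) atTop (𝓝 (∫ x, G x ∂haarAddCircle)) := by
    intro G hG
    induction hG using Submodule.span_induction with
    | mem x hx => obtain ⟨m, rfl⟩ := hx; exact av_fourier m
    | zero =>
      have : av 0 = fun _ => 0 := by funext n; simp [av]
      rw [this]; simp
    | add x y _ _ hx hy =>
      have : av (x + y) = fun n => av x n + av y n := by
        funext n; simp [av, Finset.sum_add_distrib, mul_add]
      rw [this]
      simp only [ContinuousMap.add_apply]
      rw [integral_add (int x) (int y)]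
      exact hx.add hy
    | smul a x _ hx =>
      have : av (a • x) = fun n => a * av x n := by
        funext n; simp [av, ← Finset.mul_sum]; ring
      rw [this]
      simp only [ContinuousMap.smul_apply, smul_eq_mul]
      rw [integral_const_mul]
      exact hx.const_mul a
  rw [Metric.tendsto_atTop]
  intro ε hε
  have hF : F ∈ closure (Submodule.span ℂ (Set.range (@fourier (2 * Real.pi))) :
      Set C(AddCircle (2 * Real.pi), ℂ)) := by
    rw [← Submodule.topologicalClosure_coe, span_fourier_closure_eq_top]; trivial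
  obtain ⟨G, hG, hd⟩ := Metric.mem_closure_iff.1 hF (ε / 3) (by linarith)
  obtain ⟨N, hN⟩ := Metric.tendsto_atTop.1 (hspan G hG) (ε / 3) (by linarith)
  refine ⟨N, fun n hn => ?_⟩
  have hp : ∀ x, ‖F x - G x‖ ≤ dist F G := fun x => by
    rw [← dist_eq_norm]; exact ContinuousMap.dist_apply_le_dist x
  have h1 : dist (av F n) (av G n) ≤ dist F G := by
    rw [dist_eq_norm]
    unfold av
    rw [← mul_sub, ← Finset.sum_sub_distrib, norm_mul, norm_inv]
    have e : ‖(n : ℂ) + 1‖ = n + 1 := by exact_mod_cast Complex.norm_natCast (n + 1)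
    rw [e, inv_mul_le_iff₀ (by positivity)]
    refine (norm_sum_le _ _).trans ((Finset.sum_le_sum fun j _ => hp _).trans ?_)
    simp
  have h2 : dist (∫ x, G x ∂haarAddCircle) (∫ x, F x ∂haarAddCircle) ≤ dist F G := by
    rw [dist_comm, dist_eq_norm, ← integral_sub (int F) (int G)]
    simpa using norm_integral_le_of_norm_le_const (μ := haarAddCircle)
      (Eventually.of_forall hp)
  have h3 := hN n hn
  linarith [dist_triangle4 (av F n) (av G n) (∫ x, G x ∂haarAddCircle) (∫ x, F x ∂haarAddCircle)]

/-- the points `e^{ij}` are equidistributed on the unit circle -/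
theorem equi (f : ℂ → ℝ) (hf : Continuous f) :
    Tendsto (fun n : ℕ => ((n : ℝ) + 1)⁻¹ * ∑ j ∈ range (n + 1), f (exp (j * I))) atTop
      (𝓝 (Real.circleAverage f 0 1)) := by
  let F : C(AddCircle (2 * Real.pi), ℂ) := ⟨fun x => (f (fourier 1 x) : ℂ), by fun_prop⟩
  have hF : ∀ t : ℝ, F t = f (exp (t * I)) := by
    intro t
    simp only [F, ContinuousMap.coe_mk]
    rw [fourier_coe_apply]
    congr 3
    have : (Real.pi : ℂ) ≠ 0 := by exact_mod_cast Real.pi_ne_zero
    push_cast; field_simp
  have h1 := av_all F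
  have h2 : ∫ x, F x ∂haarAddCircle = (Real.circleAverage f 0 1 : ℝ) := by
    rw [integral_haarAddCircle, ← AddCircle.intervalIntegral_preimage _ 0, zero_add]
    simp only [hF, Real.circleAverage, circleMap]
    rw [intervalIntegral.integral_ofReal]
    simp
  rw [h2] at h1
  have h3 := (continuous_re.tendsto _).comp h1
  rw [ofReal_re] at h3
  refine h3.congr fun n => ?_
  simp only [Function.comp, av, hF]
  rw [← ofReal_sum, show ((n : ℂ) + 1)⁻¹ = (((n : ℝ) + 1)⁻¹ : ℝ) by push_cast; rfl, ← ofReal_mul,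
    ofReal_re]
  simp

end H91.Equi
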