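import Mathlib

set_option autoImplicit false

open Filter Topology
open scoped ENNReal

namespace H91FA

section defs

variable {A : Type} [NormedAddCommGroup A] [NormedSpace ℂ A]

/-- `A` with product `m` is a Banach algebra, `j` identifies the C*-algebra `M` isometrically
with the dual of `A`, and the unit of `M` is multiplicative on `A`. -/
structure IsF {M : Type} [CStarAlgebra M] (m : A →L[ℂ] A →L[ℂ] A) (j : M → StrongDual ℂ A) :
    Prop where
  assoc : ∀ a b c, m (m a b) c = m a (m b c)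
  norm_le : ∀ a b, ‖m a b‖ ≤ ‖a‖ * ‖b‖
  lin : IsLinearMap ℂ j
  iso : ∀ x, ‖j x‖ = ‖x‖
  surj : Function.Surjective j
  one : ∀ a b, j 1 (m a b) = j 1 a * j 1 b

/-- The normal states `P_1(A)`. -/
def P1 {M : Type} [CStarAlgebra M] (j : M → StrongDual ℂ A) : Set A :=
  {a | (∀ x : M, 0 ≤ (j (star x * x) a).re ∧ (j (star x * x) a).im = 0) ∧ j 1 a = 1}

/-- The functional `f · a : x ↦ f (a x)`. -/
noncomputable def dot (m : A →L[ℂ] A →L[ℂ] A) (f : StrongDual ℂ A) (a : A) : StrongDual ℂ A :=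
  f ∘L m a

/-- Almost periodic functionals. -/
def IsAP (m : A →L[ℂ] A →L[ℂ] A) (f : StrongDual ℂ A) : Prop := IsCompactOperator (dot m f)

/-- Weakly almost periodic functionals. -/
def IsWAP (m : A →L[ℂ] A →L[ℂ] A) (f : StrongDual ℂ A) : Prop :=
  IsCompactOperator fun a => toWeakSpace ℂ (StrongDual ℂ A) (dot m f a)

/-- A mean that is topologically left invariant on the functionals satisfying `Q`. -/
def TLIM (m : A →L[ℂ] A →L[ℂ] A) (e : StrongDual ℂ A) (P : Set A)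
    (Q : StrongDual ℂ A → Prop) : Prop :=
  ∃ μ : StrongDual ℂ (StrongDual ℂ A), ‖μ‖ = 1 ∧ μ e = 1 ∧
    ∀ f, Q f → ∀ a ∈ P, μ (dot m f a) = μ f

variable {E : Type} [AddCommGroup E] [Module ℂ E] [TopologicalSpace E]

/-- `n`-dimensional subspaces contained in `X`. -/
def Ln (n : ℕ) (X : Set E) : Set (Submodule ℂ E) :=
  {L | Module.finrank ℂ L = n ∧ (L : Set E) ⊆ X}

/-- A linear representation of `P`, with continuous orbit maps. -/
def Rep (m : A →L[ℂ] A →L[ℂ] A) (P : Set A) (T : A → E →ₗ[ℂ] E) : Prop :=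
  (∀ a ∈ P, ∀ b ∈ P, ∀ x, T (m a b) x = T a (T b x)) ∧ ∀ x, ContinuousOn (fun a => T a x) P

/-- Equicontinuity on compact sets. -/
def Equi (P : Set A) (T : A → E →ₗ[ℂ] E) : Prop :=
  ∀ K : Set E, IsCompact K → ∀ x ∈ K, ∀ V ∈ 𝓝 (0 : E), ∀ᶠ y in 𝓝[K] x, ∀ a ∈ P,
    T a y - T a x ∈ V

/-- Quasi-equicontinuity on compact sets. -/
def QEqui (P : Set A) (T : A → E →ₗ[ℂ] E) : Prop :=
  ∀ K : Set E, IsCompact K → ∀ g ∈ closure ((fun (a : A) (x : K) => T a x) '' P), Continuous g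

/-- `X` is `n`-consistent. -/
def Cons (n : ℕ) (P : Set A) (T : A → E →ₗ[ℂ] E) (X : Set E) : Prop :=
  (Ln n X).Nonempty ∧ ∀ L ∈ Ln n X, ∀ a ∈ P, L.map (T a) ∈ Ln n X

/-- `H` is a closed invariant subspace of codimension `n` with compact slices of `X`. -/
def Slice (n : ℕ) (P : Set A) (T : A → E →ₗ[ℂ] E) (X : Set E) (H : Submodule ℂ E) : Prop :=
  IsClosed (H : Set E) ∧ (∀ a ∈ P, ∀ x ∈ H, T a x ∈ H) ∧ Module.finrank ℂ (E ⧸ H) = n ∧
    ∀ x, IsCompact ({y | y - x ∈ H} ∩ X)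

/-- An invariant member of `L_n(X)`. -/
def Fix (n : ℕ) (P : Set A) (T : A → E →ₗ[ℂ] E) (X : Set E) : Prop :=
  ∃ L ∈ Ln n X, ∀ a ∈ P, L.map (T a) = L

/-- Property `(F_n^A)`. -/
def FnA (m : A →L[ℂ] A →L[ℂ] A) (P : Set A) (n : ℕ) : Prop :=
  ∀ (E : Type) [AddCommGroup E] [Module ℂ E] [Module ℝ E] [IsScalarTower ℝ ℂ E]
    [TopologicalSpace E] [IsTopologicalAddGroup E] [ContinuousSMul ℂ E] [LocallyConvexSpace ℝ E]
    [T2Space E] (T : A → E →ₗ[ℂ] E) (X : Set E) (H : Submodule ℂ E),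
    Rep m P T → Equi P T → Cons n P T X → Slice n P T X H → Fix n P T X

/-- Property `(F_n^W)`. -/
def FnW (m : A →L[ℂ] A →L[ℂ] A) (P : Set A) (n : ℕ) : Prop :=
  ∀ (E : Type) [AddCommGroup E] [Module ℂ E] [Module ℝ E] [IsScalarTower ℝ ℂ E]
    [TopologicalSpace E] [IsTopologicalAddGroup E] [ContinuousSMul ℂ E] [LocallyConvexSpace ℝ E]
    [T2Space E] (T : A → E →ₗ[ℂ] E) (X : Set E) (H : Submodule ℂ E),
    Rep m P T → QEqui P T → Cons n P T X → Slice n P T X H → Fix n P T X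

omit [NormedAddCommGroup A] [NormedSpace ℂ A] in
lemma Equi.q [IsTopologicalAddGroup E] {P : Set A} {T : A → E →ₗ[ℂ] E} (h : Equi P T) :
    QEqui P T := by
  intro K hK g hg
  refine continuous_iff_continuousAt.2 fun x => ?_
  rw [ContinuousAt, ← tendsto_sub_nhds_zero_iff, (closed_nhds_basis (0 : E)).tendsto_right_iff]
  rintro V ⟨hV, hVc⟩
  have := h K hK x x.2 V hV
  rw [nhdsWithin_eq_map_subtype_coe x.2, eventually_map] at this
  refine this.mono fun y hy => ?_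
  have hc : IsClosed {g : K → E | g y - g x ∈ V} := hVc.preimage (by fun_prop)
  refine closure_minimal ?_ hc hg
  rintro _ ⟨a, ha, rfl⟩
  exact hy a ha

lemma FnW.toA {m : A →L[ℂ] A →L[ℂ] A} {P : Set A} {n : ℕ} (h : FnW m P n) : FnA m P n :=
  fun E _ _ _ _ _ _ _ _ _ T X H h1 h2 => h E T X H h1 h2.q

/-- `dot` as an operator. -/
noncomputable def Φ (m : A →L[ℂ] A →L[ℂ] A) (f : StrongDual ℂ A) : A →L[ℂ] StrongDual ℂ A :=
  ContinuousLinearMap.compL ℂ A A ℂ f ∘L m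

lemma IsAP.wap {m : A →L[ℂ] A →L[ℂ] A} {f : StrongDual ℂ A} (h : IsAP m f) : IsWAP m f :=
  IsCompactOperator.continuous_comp h (toWeakSpaceCLM ℂ (StrongDual ℂ A)).continuous

lemma IsWAP.lim {m : A →L[ℂ] A →L[ℂ] A} {f : StrongDual ℂ A} (h : IsWAP m f) (U : Ultrafilter ℕ)
    (a : ℕ → A) (ha : ∀ n, ‖a n‖ ≤ 1) : ∃ ψ : StrongDual ℂ A,
      ∀ N : StrongDual ℂ (StrongDual ℂ A), Tendsto (fun n => N (dot m f (a n))) U (𝓝 (N ψ)) := by
  let F : A →ₗ[ℂ] WeakSpace ℂ (StrongDual ℂ A) :=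
    (toWeakSpace ℂ (StrongDual ℂ A)).toLinearMap ∘ₗ (Φ m f).toLinearMap
  obtain ⟨K, hK, hK'⟩ := IsCompactOperator.image_closedBall_subset_compact (f := F) h 1
  obtain ⟨ψ, -, hle⟩ := hK.ultrafilter_le_nhds (U.map fun n => F (a n)) (by
    rw [le_principal_iff]
    exact mem_map.2 (univ_mem' fun n => hK' ⟨a n, by simpa using ha n, rfl⟩))
  refine ⟨(toWeakSpace ℂ (StrongDual ℂ A)).symm ψ, fun N => ?_⟩
  exact ((WeakBilin.eval_continuous (topDualPairing ℂ (StrongDual ℂ A)).flip N).tendsto ψ).comp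
    (show Tendsto (fun n => F (a n)) U (𝓝 ψ) from hle)

lemma mean (U : Ultrafilter ℕ) (a : ℕ → A) (ha : ∀ n, ‖a n‖ ≤ 1) :
    ∃ μ : StrongDual ℂ (StrongDual ℂ A), ‖μ‖ ≤ 1 ∧
      ∀ f : StrongDual ℂ A, Tendsto (fun n => f (a n)) U (𝓝 (μ f)) := by
  have hK := WeakDual.isCompact_closedBall (𝕜 := ℂ) (E := StrongDual ℂ A) 0 1
  let G : ℕ → WeakDual ℂ (StrongDual ℂ A) := fun n =>
    StrongDual.toWeakDual (NormedSpace.inclusionInDoubleDual ℂ A (a n))
  obtain ⟨φ, hφ, hle⟩ := hK.ultrafilter_le_nhds (U.map G) (by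
    rw [le_principal_iff]
    refine mem_map.2 (univ_mem' fun i => ?_)
    refine mem_closedBall_zero_iff.2 ?_
    exact ((NormedSpace.inclusionInDoubleDualLi ℂ (E := A)).norm_map (a i)).le.trans (ha i))
  exact ⟨WeakDual.toStrongDual φ, mem_closedBall_zero_iff.1 hφ, fun f =>
    ((WeakDual.eval_continuous f).tendsto φ).comp (show Tendsto G U (𝓝 φ) from hle)⟩

end defs

/-- Cesaro means. -/
noncomputable def ces (g : ℕ → ℂ) (n : ℕ) : ℂ := (n : ℂ)⁻¹ * ∑ i ∈ Finset.range n, g i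

lemma ces_shift (g g' : ℕ → ℂ) (C : ℝ) (hC : ∀ n, ‖g' n‖ ≤ C) (N d : ℕ)
    (h : ∀ n ≥ N, g n = g' (n + d)) (c : ℂ) (hc : Tendsto (ces g') (hyperfilter ℕ) (𝓝 c)) :
    Tendsto (ces g) (hyperfilter ℕ) (𝓝 c) := by
  have h1 : Tendsto (fun n => g n - g' (n + d)) atTop (𝓝 0) :=
    tendsto_const_nhds.congr' ((eventually_ge_atTop N).mono fun n hn => by simp [h n hn])
  have h2 := h1.cesaro_smul
  have h3 : Tendsto (fun n : ℕ => (n : ℂ)⁻¹ * (∑ i ∈ Finset.range d, g' (n + i) -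
      ∑ i ∈ Finset.range d, g' i)) atTop (𝓝 0) := by
    refine squeeze_zero_norm (a := fun n : ℕ => (n : ℝ)⁻¹ * (d * C + d * C)) (fun n => ?_) ?_
    · rw [norm_mul, norm_inv, Complex.norm_natCast]
      gcongr
      refine (norm_sub_le _ _).trans (add_le_add ?_ ?_) <;>
      · refine (norm_sum_le _ _).trans ?_
        refine (Finset.sum_le_card_nsmul _ _ C fun i _ => hC _).trans ?_
        simp
    · simpa using tendsto_inv_atTop_nhds_zero_nat.mul_const (d * C + d * C)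
  have h4 := ((h2.add h3).mono_left Nat.hyperfilter_le_atTop).add hc
  simp only [add_zero, zero_add] at h4
  refine h4.congr fun n => ?_
  have e1 := Finset.sum_range_add g' n d
  have e2 := Finset.sum_range_add g' d n
  rw [add_comm d n, e1] at e2
  simp only [ces, Finset.sum_sub_distrib, Complex.real_smul, Complex.ofReal_inv,
    Complex.ofReal_natCast, add_comm _ d] at e2 ⊢
  linear_combination (n : ℂ)⁻¹ * e2

lemma ces_const (c : ℂ) : Tendsto (ces fun _ => c) (hyperfilter ℕ) (𝓝 c) := by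
  refine (tendsto_const_nhds.congr' ?_).mono_left Nat.hyperfilter_le_atTop
  refine (eventually_ge_atTop 1).mono fun n hn => ?_
  have : (n : ℂ) ≠ 0 := by exact_mod_cast (by omega : n ≠ 0)
  simp [ces, this]

section l1

variable {S : Type}

/-- The space `l^1(S)`. -/
abbrev L (S : Type) : Type := lp (fun _ : S => ℂ) 1

open Classical in
/-- Point masses. -/
noncomputable def dl (s : S) : L S := lp.single 1 s 1

open Classical in
lemma dl_ap (s t : S) : dl s t = if t = s then 1 else 0 := by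
  simp [dl, lp.single_apply, Pi.single_apply]

lemma norm_dl (s : S) : ‖dl s‖ = 1 := by
  classical
  rw [dl, lp.norm_single (by simp)]; simp

lemma hs_norm (a : L S) : HasSum (fun s => ‖a s‖) ‖a‖ := by
  simpa using lp.hasSum_norm (p := 1) (by simp) a

lemma hs_dl (a : L S) : HasSum (fun s => a s • dl s) a := by
  classical
  have := lp.hasSum_single (p := 1) (by simp) a
  have e : (fun s => a s • dl s) = fun s => (lp.single 1 s (a s) : L S) := ?_
  · rw [e]; exact this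
  ext s t
  simp only [lp.single_apply, Pi.single_apply, lp.coeFn_smul, Pi.smul_apply, dl_ap, smul_eq_mul]
  split_ifs <;> simp

variable {B : Type} [NormedAddCommGroup B] [NormedSpace ℂ B]

lemma hs_map (f : L S →L[ℂ] B) (a : L S) : HasSum (fun s => a s • f (dl s)) (f a) := by
  simpa using (hs_dl a).mapL f

lemma ext_l (f g : L S →L[ℂ] B) (h : ∀ s, f (dl s) = g (dl s)) : f = g := by
  ext a
  refine (hs_map f a).unique ?_
  simpa only [h] using hs_map g a

lemma le_l (f : L S →L[ℂ] B) (C : ℝ) (h : ∀ s, ‖f (dl s)‖ ≤ C) (a : L S) : ‖f a‖ ≤ C * ‖a‖ :=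
  (hs_map f a).norm_le_of_bounded ((hs_norm a).mul_left C) fun s => by
    rw [norm_smul, mul_comm]; gcongr; exact h s

lemma lift [CompleteSpace B] (v : S → B) (C : ℝ) (h : ∀ s, ‖v s‖ ≤ C) :
    ∃ f : L S →L[ℂ] B, ∀ s, f (dl s) = v s := by
  classical
  have b : ∀ (a : L S) s, ‖a s • v s‖ ≤ C * ‖a s‖ := fun a s => by
    rw [norm_smul, mul_comm]; gcongr; exact h s
  have sm : ∀ a : L S, Summable fun s => a s • v s := fun a =>
    Summable.of_norm_bounded ((hs_norm a).mul_left C).summable (b a)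
  let F : L S →ₗ[ℂ] B :=
    { toFun := fun a => ∑' s, a s • v s
      map_add' := fun a a' => by simp [add_smul, (sm a).tsum_add (sm a')]
      map_smul' := fun c a => by simp [mul_smul, (sm a).tsum_const_smul c] }
  refine ⟨F.mkContinuous C fun a =>
    (sm a).hasSum.norm_le_of_bounded ((hs_norm a).mul_left C) (b a), fun s => ?_⟩
  change ∑' t, dl s t • v t = v s
  rw [tsum_eq_single s fun t ht => by simp [dl_ap, ht]]
  simp [dl_ap]

/-- The space `l^infty(S)`. -/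
abbrev Mi (S : Type) : Type := lp (fun _ : S => ℂ) ∞

lemma conv [Semigroup S] : ∃ (m : L S →L[ℂ] L S →L[ℂ] L S) (j : Mi S → StrongDual ℂ (L S)),
    IsF m j ∧ (∀ s t, m (dl s) (dl t) = dl (s * t)) ∧ ∀ f s, j f (dl s) = f s := by
  choose l hl using fun s : S => lift (fun t => dl (s * t)) 1 fun t => (norm_dl _).le
  have l1 : ∀ s, ‖l s‖ ≤ 1 := fun s => ContinuousLinearMap.opNorm_le_bound _ zero_le_one
    (le_l _ _ fun t => by rw [hl, norm_dl])
  obtain ⟨m, hm⟩ := lift l 1 l1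
  have hm' : ∀ s t, m (dl s) (dl t) = dl (s * t) := fun s t => by rw [hm, hl]
  choose j hj using fun f : Mi S => lift (B := ℂ) f ‖f‖ (lp.norm_apply_le_norm (by simp) f)
  refine ⟨m, j, ⟨fun a b c => ?_, fun a b => ?_, ⟨fun x y => ext_l _ _ fun s => ?_,
    fun c x => ext_l _ _ fun s => ?_⟩, fun x => le_antisymm ?_ ?_, fun φ => ?_, fun a b => ?_⟩,
    hm', hj⟩
  · refine DFunLike.congr_fun (ext_l (m (m a b)) (m a ∘L m b) fun u => ?_) c
    refine DFunLike.congr_fun (ext_l (m.flip (dl u) ∘L m a) (m a ∘L m.flip (dl u)) fun t => ?_) b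
    refine DFunLike.congr_fun (ext_l (m.flip (dl u) ∘L m.flip (dl t))
      (m.flip (m (dl t) (dl u))) fun s => ?_) a
    simp [hm', mul_assoc]
  · refine ((m a).le_opNorm b).trans ?_
    gcongr
    simpa using le_l m 1 (fun s => by rw [hm]; exact l1 s) a
  · simp [hj]
  · simp [hj]
  · exact ContinuousLinearMap.opNorm_le_bound _ (norm_nonneg _)
      (le_l _ _ fun s => by rw [hj]; exact lp.norm_apply_le_norm (by simp) x s)
  · refine lp.norm_le_of_forall_le (norm_nonneg _) fun s => ?_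
    rw [← hj]
    simpa [norm_dl] using (j x).le_opNorm (dl s)
  · refine ⟨⟨fun s => φ (dl s), memℓp_infty ⟨‖φ‖, ?_⟩⟩, ext_l _ _ fun s => hj _ s⟩
    rintro _ ⟨s, rfl⟩
    simpa [norm_dl] using φ.le_opNorm (dl s)
  · refine DFunLike.congr_fun (ext_l (j 1 ∘L m a) (j 1 a • j 1) fun t => ?_) b
    refine DFunLike.congr_fun (ext_l (j 1 ∘L m.flip (dl t)) (j 1 (dl t) • j 1) fun s => ?_) a
      |>.trans (by simp [mul_comm])
    simp [hm', hj, lp.infty_coeFn_one]

end l1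

end H91FA
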