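import Pool.Agent.H91.FA1

set_option autoImplicit false

open Filter Topology
open scoped ENNReal

namespace H91FB
open H91FA

/-- Graded eventually constant maps. -/
def Sg : Type := {p : ℕ × (ℕ → ℕ) // ∀ k, p.2 k ≤ p.1 ∧ (p.1 ≤ k → p.2 k = p.2 p.1)}

instance : Semigroup Sg where
  mul p q := ⟨(p.1.1 + q.1.1, p.1.2 ∘ q.1.2), fun k => ⟨(p.2 _).1.trans (Nat.le_add_right _ _),
    fun h => by
      simp only [Function.comp]
      rw [(q.2 k).2 (le_trans (Nat.le_add_left _ _) h), (q.2 _).2 (Nat.le_add_left _ _)]⟩⟩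
  mul_assoc p q r := Subtype.ext (Prod.ext (add_assoc _ _ _) rfl)

lemma mul_val (p q : Sg) : (p * q).1 = (p.1.1 + q.1.1, p.1.2 ∘ q.1.2) := rfl

/-- Constant maps. -/
def cst (τ n : ℕ) : Sg := ⟨(n, fun _ => min τ n), fun _ => ⟨min_le_right _ _, fun _ => rfl⟩⟩

/-- Switches. -/
def sw (τ i : ℕ) : Sg := ⟨(i + τ, fun k => if i ≤ k then 0 else τ), fun k =>
  ⟨by dsimp only; split_ifs <;> omega, fun h => by
    dsimp only at h ⊢; rw [if_pos (by omega), if_pos (by omega)]⟩⟩

lemma fin_deg (N : ℕ) : {s : Sg | s.1.1 ≤ N}.Finite := by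
  let F : Sg → Fin (N + 1) × (Fin (N + 1) → Fin (N + 1)) := fun s =>
    (⟨min s.1.1 N, by omega⟩, fun k => ⟨min (s.1.2 k) N, by omega⟩)
  refine Set.Finite.of_finite_image (f := F) (Set.toFinite _) fun s hs t ht h => ?_
  simp only [Set.mem_setOf_eq] at hs ht
  have h1 : s.1.1 = t.1.1 := by
    have := congrArg (fun p => (p.1 : ℕ)) h
    simp only [F] at this
    omega
  have h2 : ∀ k ≤ N, s.1.2 k = t.1.2 k := fun k hk => by
    have := congrArg (fun p => (p.2 ⟨k, by omega⟩ : ℕ)) h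
    simp only [F] at this
    have := (s.2 k).1
    have := (t.2 k).1
    omega
  refine Subtype.ext (Prod.ext h1 (funext fun k => ?_))
  rcases le_total k N with hk | hk
  · exact h2 k hk
  · rw [(s.2 k).2 (hs.trans hk), (t.2 k).2 (ht.trans hk), ← h1, h2 _ hs]

/-- Averages of point masses. -/
noncomputable def av (u : ℕ → Sg) (n : ℕ) : L Sg := (n : ℂ)⁻¹ • ∑ i ∈ Finset.range n, dl (u i)

lemma av_le (u : ℕ → Sg) (n : ℕ) : ‖av u n‖ ≤ 1 := by
  rw [av, norm_smul, norm_inv, Complex.norm_natCast]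
  have : ‖∑ i ∈ Finset.range n, dl (u i)‖ ≤ n := (norm_sum_le _ _).trans (by simp [norm_dl])
  rcases Nat.eq_zero_or_pos n with rfl | h
  · simp
  · rw [inv_mul_le_iff₀ (by exact_mod_cast h)]; simpa using this

lemma av_ap (f : StrongDual ℂ (L Sg)) (u : ℕ → Sg) :
    (fun n => f (av u n)) = ces fun i => f (dl (u i)) := by
  ext n; simp [av, ces]

lemma dl_le (f : StrongDual ℂ (L Sg)) (s : Sg) : ‖f (dl s)‖ ≤ ‖f‖ := by
  simpa [norm_dl] using f.le_opNorm (dl s)

lemma tlim (m : L Sg →L[ℂ] L Sg →L[ℂ] L Sg) (e : StrongDual ℂ (L Sg))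
    (hm : ∀ s t, m (dl s) (dl t) = dl (s * t)) (he : ∀ s, e (dl s) = 1) (he1 : ‖e‖ ≤ 1)
    (P : Set (L Sg)) (hP : ∀ a ∈ P, e a = 1) : TLIM m e P (IsWAP m) := by
  choose μ hμ hl using fun u : ℕ → Sg => mean (hyperfilter ℕ) (av u) (av_le u)
  simp only [av_ap] at hl
  have key : ∀ f, IsWAP m f → ∀ τ, μ (cst τ) f = μ (cst 0) f := by
    intro f hf τ
    obtain ⟨ψ, hψ⟩ := hf.lim (hyperfilter ℕ) (av (sw τ)) (av_le _)
    let y : ℕ → Sg := fun k => cst k k
    have h1 : ∀ i, μ y (dot m f (dl (sw τ i))) = μ (cst 0) f := fun i => by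
      refine tendsto_nhds_unique (hl y _) (ces_shift _ _ _ (fun n => dl_le f _) i (i + τ)
        (fun n hn => ?_) _ (hl (cst 0) f))
      change f (m _ _) = _
      rw [hm]
      congr 2
      refine Subtype.ext (Prod.ext (add_comm _ _) (funext fun k => ?_))
      simp [mul_val, sw, cst, y, show i ≤ n from hn]
    have h2 : ∀ k, ψ (dl (y k)) = μ (cst τ) f := fun k => by
      have := hψ (NormedSpace.inclusionInDoubleDual ℂ _ (dl (y k)))
      have e1 : (fun n => NormedSpace.inclusionInDoubleDual ℂ _ (dl (y k))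
          (dot m f (av (sw τ) n))) = fun n => (f ∘L m.flip (dl (y k))) (av (sw τ) n) := rfl
      rw [e1, av_ap] at this
      refine tendsto_nhds_unique this (ces_shift _ _ _ (fun n => dl_le f _) (k + 1) (τ + k)
        (fun n hn => ?_) _ (hl (cst τ) f))
      change f (m _ _) = _
      rw [hm]
      congr 2
      refine Subtype.ext (Prod.ext (add_assoc _ _ _) (funext fun j => ?_))
      simp only [mul_val, sw, cst, y, Function.comp, min_self]
      rw [if_neg (by omega)]; omega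
    have h3 := hψ (μ y)
    have e2 : (fun n => μ y (dot m f (av (sw τ) n))) = fun n => (μ y ∘L Φ m f) (av (sw τ) n) := rfl
    rw [e2, av_ap] at h3
    have h4 := hl y ψ
    simp only [h2] at h4
    have h5 : (fun i => (μ y ∘L Φ m f) (dl (sw τ i))) = fun _ => μ (cst 0) f := funext h1
    rw [h5] at h3
    rw [← tendsto_nhds_unique h4 (ces_const _), tendsto_nhds_unique h3 (ces_const _)]
  have h1 : μ (cst 0) e = 1 := by
    have := hl (cst 0) e
    simp only [he] at this
    exact tendsto_nhds_unique this (ces_const _)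
  refine ⟨μ (cst 0), le_antisymm (hμ _) ?_, h1, fun f hf a ha => ?_⟩
  · have := (μ (cst 0)).le_opNorm e
    rw [h1, norm_one] at this
    nlinarith [ContinuousLinearMap.opNorm_nonneg (μ (cst 0))]
  · have : μ (cst 0) ∘L Φ m f = μ (cst 0) f • e := ext_l _ _ fun s => by
      change μ (cst 0) (dot m f (dl s)) = μ (cst 0) f * e (dl s)
      rw [he, mul_one, ← key f hf (s.1.2 0)]
      refine tendsto_nhds_unique (hl _ _) (ces_shift _ _ _ (fun n => dl_le f _) 0 s.1.1
        (fun n _ => ?_) _ (hl (cst (s.1.2 0)) f))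
      change f (m _ _) = _
      rw [hm]
      congr 2
      refine Subtype.ext (Prod.ext (add_comm _ _) (funext fun j => ?_))
      have := (s.2 0).1
      simp only [mul_val, cst, Function.comp, Nat.zero_min]
      omega
    have h2 := DFunLike.congr_fun this a
    change μ (cst 0) (dot m f a) = μ (cst 0) f * e a at h2
    rw [h2, hP a ha, mul_one]

lemma pos_norm (e : StrongDual ℂ (L Sg)) (he : ∀ s, e (dl s) = 1) (a : L Sg)
    (ha : ∀ s, (‖a s‖ : ℂ) = a s) : e a = ‖a‖ := by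
  have h1 := hs_map e a
  simp only [he, smul_eq_mul, mul_one] at h1
  have h2 := Complex.hasSum_ofReal.2 (hs_norm a)
  simp only [ha] at h2
  exact h1.unique h2

/-- The dual space with the weak-star topology. -/
def Wk (B : Type) [NormedAddCommGroup B] [NormedSpace ℂ B] : Type := StrongDual ℂ B

section wk
variable (B : Type) [NormedAddCommGroup B] [NormedSpace ℂ B]

noncomputable instance : AddCommGroup (Wk B) := inferInstanceAs (AddCommGroup (B →L[ℂ] ℂ))
noncomputable instance : Module ℂ (Wk B) := inferInstanceAs (Module ℂ (B →L[ℂ] ℂ))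
noncomputable instance : Module ℝ (Wk B) := inferInstanceAs (Module ℝ (B →L[ℂ] ℂ))
instance : IsScalarTower ℝ ℂ (Wk B) := inferInstanceAs (IsScalarTower ℝ ℂ (B →L[ℂ] ℂ))
instance : FunLike (Wk B) B ℂ := inferInstanceAs (FunLike (B →L[ℂ] ℂ) B ℂ)
instance : LinearMapClass (Wk B) ℂ B ℂ := inferInstanceAs (LinearMapClass (B →L[ℂ] ℂ) ℂ B ℂ)

/-- Evaluation. -/
def evC : Wk B →ₗ[ℂ] (B → ℂ) :=
  { toFun := fun ν f => ν f, map_add' := fun _ _ => rfl, map_smul' := fun _ _ => rfl }

/-- Evaluation, over the reals. -/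
def evR : Wk B →ₗ[ℝ] (B → ℂ) :=
  { toFun := fun ν f => ν f, map_add' := fun _ _ => rfl, map_smul' := fun _ _ => rfl }

noncomputable instance : TopologicalSpace (Wk B) := .induced (evC B) inferInstance
instance : IsTopologicalAddGroup (Wk B) := topologicalAddGroup_induced (evC B)
instance : ContinuousSMul ℂ (Wk B) := continuousSMul_induced (evC B)
instance : LocallyConvexSpace ℝ (Wk B) := LocallyConvexSpace.induced (evR B)
instance : T2Space (Wk B) := WeakDual.instT2Space (𝕜 := ℂ) (E := B)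

variable {B}

/-- The underlying functional. -/
def Wk.sd (ν : Wk B) : StrongDual ℂ B := ν

lemma evc (f : B) : Continuous fun ν : Wk B => ν f := WeakDual.eval_continuous (𝕜 := ℂ) f

end wk

lemma noF (m : L Sg →L[ℂ] L Sg →L[ℂ] L Sg) (j : Mi Sg → StrongDual ℂ (L Sg)) (hF : IsF m j)
    (hm : ∀ s t, m (dl s) (dl t) = dl (s * t)) (hj : ∀ f s, j f (dl s) = f s) :
    ¬ FnA m (P1 j) 1 := by
  classical
  intro h
  set e := j 1 with hee
  have he : ∀ s, e (dl s) = 1 := fun s => by rw [hj]; rfl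
  let w : Sg → ℝ := fun s => (1 / 2) ^ s.1.1
  have w0 : ∀ s, 0 < w s := fun s => by positivity
  have w1 : ∀ s, w s ≤ 1 := fun s => pow_le_one₀ (by norm_num) (by norm_num)
  obtain ⟨θ, hθ⟩ := lift (fun s => (w s : ℂ) • dl s) 1 fun s => by
    rw [norm_smul, norm_dl, mul_one, Complex.norm_real, Real.norm_of_nonneg (w0 s).le]
    exact w1 s
  have θm : ∀ a b, θ (m a b) = m (θ a) (θ b) := fun a b => by
    refine DFunLike.congr_fun (ext_l (θ ∘L m a) (m (θ a) ∘L θ) fun t => ?_) b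
    refine DFunLike.congr_fun (ext_l (θ ∘L m.flip (dl t)) (m.flip (θ (dl t)) ∘L θ) fun s => ?_) a
    simp [hm, hθ, smul_smul, w, mul_val, pow_add, mul_comm]
  have θc : ∀ a s, θ a s = w s * a s := fun a s => by
    refine DFunLike.congr_fun (ext_l (lp.evalCLM ℂ (fun _ : Sg => ℂ) 1 s ∘L θ)
      ((w s : ℂ) • lp.evalCLM ℂ (fun _ : Sg => ℂ) 1 s) fun t => ?_) a
    change θ (dl t) s = w s * dl t s
    rw [hθ]
    change w t * dl t s = _
    rw [dl_ap]
    split_ifs with h
    · rw [h]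
    · simp
  have Pd : ∀ s, dl s ∈ P1 j := fun s => ⟨fun x => by
    rw [hj]
    change 0 ≤ (star (x s) * x s).re ∧ (star (x s) * x s).im = 0
    rw [Complex.star_def, ← Complex.normSq_eq_conj_mul_self]
    simp [Complex.normSq_nonneg], he s⟩
  have Pp : ∀ a ∈ P1 j, ∀ s, (‖a s‖ : ℂ) = a s := fun a ha s => by
    have h1 := ha.1 (lp.single ∞ s 1)
    have h2 : j (star (lp.single ∞ s 1) * lp.single ∞ s 1) = lp.evalCLM ℂ (fun _ : Sg => ℂ) 1 s :=
      ext_l _ _ fun t => by
        rw [hj]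
        change star ((lp.single ∞ s (1 : ℂ) : Mi Sg) t) * (lp.single ∞ s (1 : ℂ) : Mi Sg) t = dl t s
        simp only [lp.single_apply, Pi.single_apply, dl_ap, eq_comm (a := s)]
        split_ifs <;> simp
    rw [h2] at h1
    change 0 ≤ (a s).re ∧ (a s).im = 0 at h1
    exact Complex.norm_of_nonneg' ⟨h1.1, h1.2.symm⟩
  have Pn : ∀ a ∈ P1 j, ‖a‖ = 1 := fun a ha => by
    have := pos_norm e he a (Pp a ha)
    rw [ha.2] at this
    exact_mod_cast this.symm
  have Pt : ∀ a ∈ P1 j, e (θ a) = ‖θ a‖ ∧ θ a ≠ 0 := fun a ha => by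
    refine ⟨pos_norm e he _ fun s => ?_, fun h0 => ?_⟩
    · rw [θc, norm_mul, Complex.norm_real, Real.norm_of_nonneg (w0 s).le, Complex.ofReal_mul,
        Pp a ha]
    · have : a = 0 := by
        ext s
        have := θc a s
        rw [h0] at this
        have h1 : (w s : ℂ) ≠ 0 := by exact_mod_cast (w0 s).ne'
        simpa [h1] using this
      have h1 := Pn a ha
      rw [this, norm_zero] at h1
      exact zero_ne_one h1
  have dle : ∀ f a, ‖dot m f a‖ ≤ ‖f‖ * ‖a‖ := fun f a =>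
    (f.opNorm_comp_le _).trans (by
      gcongr
      exact ContinuousLinearMap.opNorm_le_bound _ (norm_nonneg _) (hF.norm_le a))
  have de : ∀ a, dot m e a = e a • e := fun a => by ext b; exact hF.one a b
  let E := Wk (StrongDual ℂ (L Sg))
  let R : L Sg → StrongDual ℂ (L Sg) →L[ℂ] StrongDual ℂ (L Sg) := fun a =>
    (ContinuousLinearMap.compL ℂ _ _ ℂ).flip (m (θ a))
  let T : L Sg → E →ₗ[ℂ] E := fun a =>
    { toFun := fun ν => (ν.sd ∘L R a : StrongDual ℂ _)
      map_add' := fun _ _ => rfl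
      map_smul' := fun _ _ => rfl }
  have eT : ∀ a (ν : E) f, T a ν f = ν (dot m f (θ a)) := fun _ _ _ => rfl
  have eTe : ∀ a (ν : E), T a ν e = e (θ a) * ν e := fun a ν => by
    rw [eT, de, map_smul, smul_eq_mul]
  let X : Set E := {ν | ∀ f, ‖ν f‖ ≤ ‖ν e‖ * ‖f‖}
  let ev : E →ₗ[ℂ] ℂ := { toFun := fun ν => ν e, map_add' := fun _ _ => rfl
                          map_smul' := fun _ _ => rfl }
  have X0 : ∀ ν ∈ X, ν e = 0 → ν = 0 := fun ν hν h0 => DFunLike.ext _ _ fun f => by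
    have := hν f
    rw [h0, norm_zero, zero_mul] at this
    exact norm_le_zero_iff.1 this
  let ν₀ : E := NormedSpace.inclusionInDoubleDual ℂ _ (dl (cst 0 0))
  have n0 : ν₀ e = 1 := he _
  have inj : ∀ L ∈ Ln 1 X, ∀ a ∈ P1 j, Function.Injective (T a ∘ₗ L.subtype) := by
    intro L hL a ha
    rw [injective_iff_map_eq_zero]
    intro ν h0
    have h1 := eTe a ν
    change T a ν = 0 at h0
    rw [h0, (Pt a ha).1] at h1
    have h2 : (‖θ a‖ : ℂ) ≠ 0 := by exact_mod_cast norm_ne_zero_iff.2 (Pt a ha).2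
    exact Subtype.ext (X0 _ (hL.2 ν.2) ((mul_eq_zero.1 h1.symm).resolve_left h2))
  refine Exists.elim (h E T X (LinearMap.ker ev) ⟨fun a _ b _ ν => ?_, fun ν => ?_⟩ ?_
    ⟨⟨Submodule.span ℂ {ν₀}, finrank_span_singleton fun h0 => ?_, ?_⟩, fun L hL a ha => ⟨?_, ?_⟩⟩
    ⟨?_, fun a _ ν hν => ?_, ?_, fun x => ?_⟩) fun L₀ ⟨hL, hfix⟩ => ?_
  rotate_right
  · obtain ⟨ν, hν0, hν⟩ := finrank_eq_one_iff'.1 hL.1
    have hne : (ν : E) e ≠ 0 := fun h0 => hν0 (Subtype.ext (X0 _ (hL.2 ν.2) h0))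
    have fx : ∀ s, T (dl s) ν = (w s : ℂ) • (ν : E) := fun s => by
      have hmem : T (dl s) ν ∈ L₀ := (hfix _ (Pd s)).le (Submodule.mem_map_of_mem ν.2)
      obtain ⟨c, hc⟩ := hν ⟨_, hmem⟩
      have hc' : c • (ν : E) = T (dl s) ν := congrArg Subtype.val hc
      have h1 := eTe (dl s) ν
      rw [← hc', hθ, map_smul, he, smul_eq_mul, mul_one] at h1
      rw [← hc', mul_right_cancel₀ hne h1]
    obtain ⟨f, hf⟩ := lift (B := ℂ) (fun s : Sg => if s.1.2 0 = 1 then 1 else 0) 1
      fun s => by split_ifs <;> simp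
    have g : ∀ s, (ν : E) (dot m f (dl s)) = (ν : E) f := fun s => by
      have h1 := DFunLike.congr_fun (fx s) f
      rw [eT, hθ] at h1
      have h2 : dot m f ((w s : ℂ) • dl s) = (w s : ℂ) • dot m f (dl s) := map_smul (Φ m f) _ _
      rw [h2, map_smul] at h1
      exact mul_left_cancel₀ (by exact_mod_cast (w0 s).ne' : (w s : ℂ) ≠ 0) h1
    have g0 : dot m f (dl (cst 0 0)) = 0 := ext_l _ _ fun s => by
      change f (m _ _) = 0
      rw [hm, hf]; simp [mul_val, cst]
    have g1 : dot m f (dl (cst 1 1)) = e := ext_l _ _ fun s => by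
      change f (m _ _) = _
      rw [hm, hf, he]; simp [mul_val, cst]
    exact hne (by rw [← g1, g, ← g (cst 0 0), g0, map_zero])
  · refine DFunLike.ext _ _ fun f => ?_
    rw [eT, eT, eT, θm]
    congr 1
    ext c
    exact congrArg f (hF.assoc _ _ _)
  · refine Continuous.continuousOn (continuous_induced_rng.2 (continuous_pi fun f => ?_))
    exact (ν.sd ∘L Φ m f ∘L θ).continuous
  · intro K hK x hx V hV
    obtain ⟨C, hC⟩ := banach_steinhaus (g := fun ν : K => Wk.sd (ν : E))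
      fun f => by
        obtain ⟨C, hC⟩ := (hK.image (evc f)).isBounded.exists_norm_le
        exact ⟨C, fun ν => hC _ ⟨ν, ν.2, rfl⟩⟩
    have : Tendsto (fun p : E × L Sg => T p.2 p.1 - T p.2 x) (𝓝[K] x ×ˢ 𝓟 (P1 j)) (𝓝 0) := by
      rw [nhds_induced, tendsto_comap_iff]
      refine tendsto_pi_nhds.2 fun f => ?_
      refine NormedAddGroup.tendsto_nhds_zero.2 fun ε hε => ?_
      rw [eventually_prod_principal_iff]
      obtain ⟨N, hN⟩ := ((tendsto_pow_atTop_nhds_zero_of_lt_one (r := (1 / 2 : ℝ)) (by norm_num)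
        (by norm_num)).mul_const ((C + C) * ‖f‖)).eventually
          (ge_mem_nhds (show 0 * ((C + C) * ‖f‖) < ε / 2 by linarith)) |>.exists
      have hev : ∀ᶠ y in 𝓝[K] x, ∀ s ∈ {s : Sg | s.1.1 ≤ N},
          ‖y (dot m f (dl s)) - x (dot m f (dl s))‖ ≤ ε / 2 := by
        refine (eventually_all_finite (fin_deg N)).2 fun s _ => ?_
        refine Filter.Eventually.filter_mono nhdsWithin_le_nhds ?_
        have hc := ((evc (dot m f (dl s))).sub
          (continuous_const (y := x (dot m f (dl s))))).norm.tendsto x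
        exact hc.eventually (ge_mem_nhds (by simpa using hε))
      filter_upwards [hev, self_mem_nhdsWithin] with y hy hyK a ha
      have := le_l ((y.sd - x.sd) ∘L Φ m f ∘L θ) (ε / 2)
        (fun s => ?_) a
      · rw [Pn a ha, mul_one] at this
        exact lt_of_le_of_lt this (by linarith)
      · simp only [ContinuousLinearMap.comp_apply, hθ, map_smul, norm_smul, Complex.norm_real,
          Real.norm_of_nonneg (w0 s).le]
        by_cases hs : s.1.1 ≤ N
        · exact (mul_le_of_le_one_left (norm_nonneg _) (w1 s)).trans (hy s hs)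
        · refine le_trans ?_ hN
          have b1 : ‖Φ m f (dl s)‖ ≤ ‖f‖ := (dle f (dl s)).trans (by rw [norm_dl, mul_one])
          have c0 : 0 ≤ C := (ContinuousLinearMap.opNorm_nonneg _).trans (hC ⟨x, hx⟩)
          have b2 : ∀ z ∈ K, ‖Wk.sd z (Φ m f (dl s))‖ ≤ C * ‖f‖ := fun z hz =>
            ((Wk.sd z).le_opNorm _).trans (by gcongr; exact hC ⟨z, hz⟩)
          refine mul_le_mul (pow_le_pow_of_le_one (by norm_num) (by norm_num) (by omega)) ?_
            (norm_nonneg _) (by positivity)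
          rw [ContinuousLinearMap.sub_apply, add_mul]
          exact (norm_sub_le _ _).trans (add_le_add (b2 y hyK) (b2 x hx))
    exact eventually_prod_principal_iff.1 (this hV)
  · rw [h0] at n0; exact zero_ne_one n0
  · intro ν hν
    obtain ⟨c, rfl⟩ := Submodule.mem_span_singleton.1 hν
    intro f
    change ‖c * f (dl _)‖ ≤ ‖c * ν₀ e‖ * ‖f‖
    rw [n0, mul_one, norm_mul]
    gcongr
    exact dl_le f _
  · rw [← hL.1, ← LinearMap.finrank_range_of_inj (inj L hL a ha), LinearMap.range_comp,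
      Submodule.range_subtype]
  · rintro _ ⟨ν, hν, rfl⟩ f
    rw [eTe, eT, (Pt a ha).1, norm_mul, Complex.norm_real, norm_norm]
    refine (hL.2 hν _).trans ?_
    have := dle f (θ a)
    calc ‖ν e‖ * ‖dot m f (θ a)‖ ≤ ‖ν e‖ * (‖f‖ * ‖θ a‖) := by gcongr
      _ = _ := by ring
  · exact isClosed_eq (evc e) continuous_const
  · change T a ν e = 0
    rw [eTe, show ν e = 0 from hν, mul_zero]
  · rw [(ev.quotKerEquivOfSurjective fun c => ⟨c • ν₀, by
      change c * ν₀ e = c
      rw [n0, mul_one]⟩).finrank_eq, Module.finrank_self]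
  · refine (WeakDual.isCompact_closedBall (𝕜 := ℂ) (E := StrongDual ℂ (L Sg)) 0 ‖x e‖).of_isClosed_subset
      (IsClosed.inter ?_ ?_) fun y hy => ?_
    · exact isClosed_eq ((evc e).sub continuous_const) continuous_const
    · simp only [X, Set.setOf_forall]
      exact isClosed_iInter fun f => isClosed_le (evc f).norm
        ((evc e).norm.mul continuous_const)
    · refine mem_closedBall_zero_iff.2 (ContinuousLinearMap.opNorm_le_bound _ (norm_nonneg _)
        fun f => ?_)
      have h1 : y e - x e = 0 := hy.1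
      rw [← sub_eq_zero.1 h1]
      exact hy.2 f

theorem both : ∃ (A : Type) (_ : NormedAddCommGroup A) (_ : NormedSpace ℂ A) (_ : CompleteSpace A)
    (m : A →L[ℂ] A →L[ℂ] A) (M : Type) (_ : CStarAlgebra M) (j : M → StrongDual ℂ A),
      IsF m j ∧ TLIM m (j 1) (P1 j) (IsWAP m) ∧ ¬ FnA m (P1 j) 1 := by
  obtain ⟨m, j, hF, hm, hj⟩ := conv (S := Sg)
  exact ⟨L Sg, inferInstance, inferInstance, inferInstance, m, Mi Sg, inferInstance, j, hF,
    tlim m _ hm (fun s => by rw [hj]; rfl) (ContinuousLinearMap.opNorm_le_bound _ zero_le_one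
      (le_l _ _ fun s => by rw [hj]; exact norm_one.le)) _ fun a ha => ha.2,
    noF m j hF hm hj⟩

theorem mainA :
    ∃ (A : Type) (_ : NormedAddCommGroup A) (_ : NormedSpace ℂ A) (_ : CompleteSpace A)
      (m : A →L[ℂ] A →L[ℂ] A) (M : Type) (_ : CStarAlgebra M) (j : M → StrongDual ℂ A),
        IsF m j ∧ TLIM m (j 1) (P1 j) (IsAP m) ∧ ¬ FnA m (P1 j) 1 := by
  obtain ⟨A, _, _, _, m, M, _, j, h1, ⟨μ, h2, h3, h4⟩, h5⟩ := both
  exact ⟨A, inferInstance, inferInstance, inferInstance, m, M, inferInstance, j, h1,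
    ⟨μ, h2, h3, fun f hf => h4 f hf.wap⟩, h5⟩

theorem mainW :
    ∃ (A : Type) (_ : NormedAddCommGroup A) (_ : NormedSpace ℂ A) (_ : CompleteSpace A)
      (m : A →L[ℂ] A →L[ℂ] A) (M : Type) (_ : CStarAlgebra M) (j : M → StrongDual ℂ A),
        IsF m j ∧ TLIM m (j 1) (P1 j) (IsWAP m) ∧ ¬ FnW m (P1 j) 1 := by
  obtain ⟨A, _, _, _, m, M, _, j, h1, h2, h5⟩ := both
  exact ⟨A, inferInstance, inferInstance, inferInstance, m, M, inferInstance, j, h1, h2,
    fun h => h5 h.toA⟩

end H91FB
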