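import Mathlib

set_option autoImplicit false

open Filter Topology
open scoped InnerProductSpace TensorProduct ComplexOrder

namespace H91FP

/-- A state on a unital C*-algebra: a positive linear functional with value one at the unit. -/
def IsState {A : Type} [CStarAlgebra A] (φ : A →ₗ[ℂ] ℂ) : Prop :=
  φ 1 = 1 ∧ ∀ x, 0 ≤ (φ (star x * x)).re ∧ (φ (star x * x)).im = 0

/-- `s` is a sequence of isometries with mutually orthogonal ranges generating `A`. -/
def CuntzGen {A : Type} [CStarAlgebra A] (s : ℕ → A) : Prop :=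
  (∀ i j, star (s i) * s j = if i = j then 1 else 0) ∧
    (StarAlgebra.adjoin ℂ (Set.range s)).topologicalClosure = ⊤

/-- `(D, ρ)` with the embeddings `π n` is the reduced free product of countably many copies
of `(A, ω)`. -/
structure FreePow {A D : Type} [CStarAlgebra A] [CStarAlgebra D] (ω : A →ₗ[ℂ] ℂ)
    (ρ : D →ₗ[ℂ] ℂ) (π : ℕ → A →⋆ₐ[ℂ] D) : Prop where
  state : IsState ρ
  inj : ∀ n, Function.Injective (π n)
  res : ∀ n a, ρ (π n a) = ω a
  free : ∀ l : List (ℕ × A), l ≠ [] → l.IsChain (fun x y => x.1 ≠ y.1) →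
    (∀ x ∈ l, ω x.2 = 0) → ρ (l.map fun x => π x.1 x.2).prod = 0
  gen : (StarAlgebra.adjoin ℂ (⋃ n, Set.range (π n))).topologicalClosure = ⊤
  faithful : ∀ x : D, (∀ y : D, ρ (star (x * y) * (x * y)) = 0) → x = 0

structure GN {D : Type} [CStarAlgebra D] (ρ : D →ₗ[ℂ] ℂ) where
  H : Type
  [n : NormedAddCommGroup H]
  [i : InnerProductSpace ℂ H]
  ι : D →L[ℂ] H
  σ : D → H →L[ℂ] H
  ip : ∀ a b, ⟪ι a, ι b⟫_ℂ = ρ (star a * b)
  act : ∀ x a, σ x (ι a) = ι (x * a)
  bd : ∀ x, ‖σ x‖ ≤ ‖x‖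
  one : ‖ι 1‖ = 1

attribute [instance] GN.n GN.i

variable {A D : Type} [CStarAlgebra A] [CStarAlgebra D]

theorem gn (ρ : D →ₗ[ℂ] ℂ) (h : IsState ρ) : Nonempty (GN ρ) := by
  letI := CStarAlgebra.spectralOrder D
  haveI := CStarAlgebra.spectralOrderedRing D
  let f : D →ₚ[ℂ] ℂ := PositiveLinearMap.mk₀ ρ (fun x hx => by
    obtain ⟨y, rfl⟩ := CStarAlgebra.nonneg_iff_eq_star_mul_self.1 hx
    exact Complex.nonneg_iff.2 ⟨(h.2 y).1, (h.2 y).2.symm⟩)
  have hf : ∀ x, f x = ρ x := fun x => rfl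
  let ξ : f.GNS := (f.toPreGNS 1 : f.PreGNS)
  have hξ : ‖ξ‖ = 1 := by
    simp [ξ, PositiveLinearMap.preGNS_norm_def, hf, h.1]
  let L : D →ₗ[ℂ] f.GNS :=
    { toFun := fun a => f.gnsNonUnitalStarAlgHom a ξ
      map_add' := fun a b => by simp only [map_add]; rfl
      map_smul' := fun c a => by simp only [map_smul]; rfl }
  have hb : ∀ x, ‖f.gnsNonUnitalStarAlgHom x‖ ≤ ‖x‖ := fun x =>
    NonUnitalStarAlgHom.norm_apply_le _ x
  have hL : ∀ a, L a = (f.toPreGNS a : f.PreGNS) := fun a => by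
    change f.gnsNonUnitalStarAlgHom a ξ = _
    simp [ξ]
  refine ⟨⟨f.GNS, L.mkContinuous 1 (fun a => ?_), fun x => f.gnsNonUnitalStarAlgHom x,
    fun a b => ?_, fun x a => ?_, hb, ?_⟩⟩
  · change ‖f.gnsNonUnitalStarAlgHom a ξ‖ ≤ _
    refine (ContinuousLinearMap.le_opNorm _ _).trans ?_
    rw [hξ, mul_one, one_mul]; exact hb a
  · simp only [LinearMap.mkContinuous_apply, hL]
    rw [UniformSpace.Completion.inner_coe, PositiveLinearMap.preGNS_inner_def]
    rfl
  · simp only [LinearMap.mkContinuous_apply]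
    change f.gnsNonUnitalStarAlgHom x (f.gnsNonUnitalStarAlgHom a ξ) =
      f.gnsNonUnitalStarAlgHom (x * a) ξ
    rw [map_mul]; rfl
  · simp only [LinearMap.mkContinuous_apply, hL]
    exact hξ

namespace GN
variable {ρ : D →ₗ[ℂ] ℂ} (G : GN ρ)

lemma val (a : D) : ρ a = ⟪G.ι 1, G.ι a⟫_ℂ := by rw [G.ip]; simp

include G in
lemma herm (a : D) : ρ (star a) = (starRingEnd ℂ) (ρ a) := by
  rw [G.val a, inner_conj_symm, G.ip]; simp

lemma mul_le (x a : D) : ‖G.ι (x * a)‖ ≤ ‖x‖ * ‖G.ι a‖ := by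
  rw [← G.act]
  exact (ContinuousLinearMap.le_opNorm _ _).trans (by gcongr; exact G.bd x)

lemma le (a : D) : ‖G.ι a‖ ≤ ‖a‖ := by simpa [G.one] using G.mul_le a 1

include G in
lemma abs_le (a : D) : ‖ρ a‖ ≤ ‖a‖ := by
  rw [G.val]
  exact (norm_inner_le_norm _ _).trans (by rw [G.one, one_mul]; exact G.le a)

include G in
lemma cont : Continuous ρ := by
  have : (ρ : D → ℂ) = fun a => ⟪G.ι 1, G.ι a⟫_ℂ := funext G.val
  rw [this]; fun_prop

lemma zero_of (a : D) (h : ρ (star a * a) = 0) : G.ι a = 0 := by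
  rw [← G.ip] at h; exact inner_self_eq_zero.1 h

end GN

lemma dense_of_mul (S : Set D) (hS : (StarAlgebra.adjoin ℂ S).topologicalClosure = ⊤)
    (M : Submodule ℂ D) (h1 : (1 : D) ∈ M)
    (hm : ∀ g ∈ S, ∀ y ∈ M, g * y ∈ M ∧ star g * y ∈ M) : Dense (M : Set D) := by
  have key : ∀ x ∈ StarAlgebra.adjoin ℂ S, ∀ y ∈ M, x * y ∈ M ∧ star x * y ∈ M := by
    intro x hx
    induction hx using StarAlgebra.adjoin_induction with
    | mem x hx => exact hm x hx
    | algebraMap r =>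
      intro y hy
      rw [← algebraMap_star_comm, ← Algebra.smul_def, ← Algebra.smul_def]
      exact ⟨M.smul_mem _ hy, M.smul_mem _ hy⟩
    | add x y _ _ hx hy =>
      intro z hz
      rw [star_add, add_mul, add_mul]
      exact ⟨M.add_mem (hx z hz).1 (hy z hz).1, M.add_mem (hx z hz).2 (hy z hz).2⟩
    | mul x y _ _ hx hy =>
      intro z hz
      rw [star_mul, mul_assoc, mul_assoc]
      exact ⟨(hx _ (hy z hz).1).1, (hy _ (hx z hz).2).2⟩
    | star x _ hx =>
      intro z hz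
      rw [star_star]
      exact ⟨(hx z hz).2, (hx z hz).1⟩
  have h2 : (StarAlgebra.adjoin ℂ S : Set D) ⊆ M := fun x hx => by simpa using (key x hx 1 h1).1
  have h3 : Dense (StarAlgebra.adjoin ℂ S : Set D) := by
    rw [dense_iff_closure_eq, ← StarSubalgebra.topologicalClosure_coe, hS]; rfl
  exact h3.mono h2

def Alt (ω : A →ₗ[ℂ] ℂ) (l : List (ℕ × A)) : Prop :=
  l.IsChain (fun x y => x.1 ≠ y.1) ∧ ∀ x ∈ l, ω x.2 = 0

def wp (π : ℕ → A →⋆ₐ[ℂ] D) (l : List (ℕ × A)) : D := (l.map fun x => π x.1 x.2).prod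

@[simp] lemma wp_nil (π : ℕ → A →⋆ₐ[ℂ] D) : wp π [] = 1 := rfl
@[simp] lemma wp_cons (π : ℕ → A →⋆ₐ[ℂ] D) (x : ℕ × A) (l : List (ℕ × A)) :
    wp π (x :: l) = π x.1 x.2 * wp π l := by simp [wp]
lemma wp_append (π : ℕ → A →⋆ₐ[ℂ] D) (l l' : List (ℕ × A)) :
    wp π (l ++ l') = wp π l * wp π l' := by simp [wp]

def sr (l : List (ℕ × A)) : List (ℕ × A) := (l.map fun x => (x.1, star x.2)).reverse

lemma wp_sr (π : ℕ → A →⋆ₐ[ℂ] D) (l : List (ℕ × A)) : wp π (sr l) = star (wp π l) := by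
  induction l with
  | nil => simp [sr]
  | cons x l ih =>
    have : sr (x :: l) = sr l ++ [(x.1, star x.2)] := by simp [sr]
    rw [this, wp_append, ih]; simp [map_star]

variable {ω : A →ₗ[ℂ] ℂ} {ρ : D →ₗ[ℂ] ℂ} {π : ℕ → A →⋆ₐ[ℂ] D}

lemma alt_sr (hω : ∀ a, ω a = 0 → ω (star a) = 0) {l : List (ℕ × A)} (h : Alt ω l) :
    Alt ω (sr l) := by
  refine ⟨?_, ?_⟩
  · rw [sr, List.isChain_reverse, List.isChain_map]
    exact h.1.imp fun _ _ h => h.symm
  · intro x hx
    simp only [sr, List.mem_reverse, List.mem_map] at hx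
    obtain ⟨y, hy, rfl⟩ := hx
    exact hω _ (h.2 y hy)

lemma Alt.tail {x : ℕ × A} {l : List (ℕ × A)} (h : Alt ω (x :: l)) : Alt ω l :=
  ⟨h.1.tail, fun y hy => h.2 y (List.mem_cons_of_mem _ hy)⟩

lemma Alt.cons {l : List (ℕ × A)} (h : Alt ω l) (n : ℕ) (a : A) (ha : ω a = 0)
    (hn : ∀ y ∈ l.head?, n ≠ y.1) : Alt ω ((n, a) :: l) :=
  ⟨List.isChain_cons.2 ⟨hn, h.1⟩, fun y hy => by
    rcases List.mem_cons.1 hy with rfl | hy
    · exact ha
    · exact h.2 y hy⟩

lemma Alt.head {x : ℕ × A} {l : List (ℕ × A)} (h : Alt ω (x :: l)) :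
    ∀ y ∈ l.head?, x.1 ≠ y.1 := (List.isChain_cons.1 h.1).1

lemma center (h1 : ω 1 = 1) (n : ℕ) (a : A) (l : List (ℕ × A)) :
    π n a * wp π l = wp π ((n, a - ω a • 1) :: l) + ω a • wp π l ∧ ω (a - ω a • 1) = 0 := by
  constructor
  · simp [sub_mul]
  · simp [h1]

/-- left multiplication of an alternating word by a letter -/
lemma left_mul (h1 : ω 1 = 1) (n : ℕ) (a : A) {l : List (ℕ × A)} (h : Alt ω l) :
    ∃ (l₁ l₂ : List (ℕ × A)) (c : ℂ), Alt ω l₁ ∧ Alt ω l₂ ∧ l₁ ≠ [] ∧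
      l.length ≤ l₂.length + 1 ∧ π n a * wp π l = wp π l₁ + c • wp π l₂ := by
  by_cases hn : ∀ y ∈ l.head?, n ≠ y.1
  · obtain ⟨e1, e2⟩ := center (π := π) h1 n a l
    exact ⟨_, l, _, h.cons n _ e2 hn, h, by simp, by simp, e1⟩
  · push Not at hn
    obtain ⟨y, hy, rfl⟩ := hn
    cases l with
    | nil => simp at hy
    | cons x l =>
      obtain rfl : x = y := by simpa using hy
      obtain ⟨e1, e2⟩ := center (π := π) h1 x.1 (a * x.2) l
      refine ⟨_, l, ω (a * x.2), h.tail.cons x.1 _ e2 h.head, h.tail, by simp, by simp, ?_⟩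
      rw [← e1]; simp [mul_assoc]

namespace FreePow
variable (P : FreePow ω ρ π)
include P

lemma one : ω 1 = 1 := by rw [← P.res 0, map_one, P.state.1]

lemma zero {l : List (ℕ × A)} (h : Alt ω l) (hl : l ≠ []) : ρ (wp π l) = 0 :=
  P.free l hl h.1 h.2

lemma herm (a : A) (h : ω a = 0) : ω (star a) = 0 := by
  obtain ⟨G⟩ := gn ρ P.state
  rw [← P.res 0, map_star, G.herm, P.res, h, map_zero]

lemma dense : Dense (Submodule.span ℂ {x | ∃ l, Alt ω l ∧ wp π l = x} : Set D) := by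
  refine dense_of_mul _ P.gen _ (Submodule.subset_span ⟨[], ⟨by simp, by simp⟩, rfl⟩) ?_
  have key : ∀ n a, ∀ y ∈ Submodule.span ℂ {x | ∃ l, Alt ω l ∧ wp π l = x},
      π n a * y ∈ Submodule.span ℂ {x | ∃ l, Alt ω l ∧ wp π l = x} := by
    intro n a y hy
    induction hy using Submodule.span_induction with
    | mem x hx =>
      obtain ⟨l, hl, rfl⟩ := hx
      obtain ⟨l₁, l₂, c, h1, h2, -, -, e⟩ := left_mul (π := π) P.one n a hl
      rw [e]
      exact Submodule.add_mem _ (Submodule.subset_span ⟨_, h1, rfl⟩)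
        (Submodule.smul_mem _ _ (Submodule.subset_span ⟨_, h2, rfl⟩))
    | zero => simp
    | add x y _ _ hx hy => rw [mul_add]; exact Submodule.add_mem _ hx hy
    | smul c x _ hx => rw [mul_smul_comm]; exact Submodule.smul_mem _ _ hx
  intro g hg y hy
  obtain ⟨n, a, rfl⟩ := Set.mem_iUnion.1 hg
  rw [← map_star]
  exact ⟨key _ _ _ hy, key _ _ _ hy⟩

lemma ext {E : Type} [NormedAddCommGroup E] [NormedSpace ℂ E] (f : D →ₗ[ℂ] E)
    (hf : Continuous f) (h : ∀ l, Alt ω l → f (wp π l) = 0) (x : D) : f x = 0 := by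
  have h1 : (Submodule.span ℂ {x | ∃ l, Alt ω l ∧ wp π l = x}) ≤ LinearMap.ker f := by
    rw [Submodule.span_le]
    rintro _ ⟨l, hl, rfl⟩
    exact h l hl
  have h2 : IsClosed {x | f x = 0} := isClosed_eq hf continuous_const
  have h3 : Dense {x | f x = 0} := P.dense.mono h1
  have := h3.closure_eq
  rw [h2.closure_eq] at this
  exact (this ▸ Set.mem_univ x : x ∈ {x | f x = 0})

lemma left2 (n : ℕ) (a : A) {l : List (ℕ × A)} (h : Alt ω l) (h2 : 2 ≤ l.length) :
    ρ (π n a * wp π l) = 0 := by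
  obtain ⟨l₁, l₂, c, h1, h3, h4, h5, e⟩ := left_mul (π := π) P.one n a h
  have : l₂ ≠ [] := by rintro rfl; simp at h5; omega
  rw [e, map_add, map_smul, P.zero h1 h4, P.zero h3 this]; simp

lemma central (v : A) (hv : ∀ a, ω (v * a) = ω (a * v)) (h0 : ω v = 0) (n : ℕ) (x : D) :
    ρ (π n v * x) = ρ (x * π n v) := by
  obtain ⟨G⟩ := gn ρ P.state
  have hc := G.cont
  refine sub_eq_zero.1 (P.ext (ρ ∘ₗ LinearMap.mulLeft ℂ (π n v) - ρ ∘ₗ LinearMap.mulRight ℂ (π n v))
    ?_ ?_ x)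
  · change Continuous fun x => ρ (π n v * x) - ρ (x * π n v)
    fun_prop
  · intro l hl
    change ρ (π n v * wp π l) - ρ (wp π l * π n v) = 0
    rw [sub_eq_zero]
    match l, hl with
    | [], _ => simp
    | [x], hl =>
      by_cases hn : n = x.1
      · subst hn
        simp only [wp_cons, wp_nil, mul_one, ← map_mul, P.res, hv]
      · have hx : ω x.2 = 0 := hl.2 x (by simp)
        have e1 := P.zero (l := [(n, v), x]) (hl.cons n v h0 (by simpa using hn)) (by simp)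
        have e2 := P.zero (l := [x, (n, v)])
          (Alt.cons (l := [(n, v)]) ⟨by simp, by simpa using h0⟩ x.1 x.2 hx
            (by simpa using Ne.symm hn)) (by simp)
        simp only [wp_cons, wp_nil, mul_one] at e1 e2 ⊢
        rw [e1, e2]
    | x :: y :: l, hl =>
      rw [P.left2 n v hl (by simp)]
      have e := P.left2 n (star v) (alt_sr P.herm hl) (by simp [sr])
      rw [wp_sr, map_star, ← star_mul, G.herm] at e
      exact ((map_eq_zero _).1 e).symm

lemma orth (a b : A) (ha : ω (a * star a) = 0) (hb : ∀ x, ω (b * x) = 0) {n m : ℕ} (hnm : n ≠ m) :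
    star (π n a) * π m b = 0 := by
  obtain ⟨G⟩ := gn ρ P.state
  refine P.faithful _ fun y => ?_
  rw [← G.ip]
  refine inner_self_eq_zero.2 ?_
  refine P.ext (G.ι.toLinearMap ∘ₗ LinearMap.mulLeft ℂ (star (π n a) * π m b)) ?_ ?_ y
  · change Continuous fun y => G.ι (star (π n a) * π m b * y)
    fun_prop
  · intro l hl
    change G.ι (star (π n a) * π m b * wp π l) = 0
    obtain ⟨c, l', h1, e⟩ : ∃ c l', Alt ω ((m, c) :: l') ∧ π m b * wp π l = wp π ((m, c) :: l') := by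
      by_cases hn : ∀ y ∈ l.head?, m ≠ y.1
      · exact ⟨b, l, hl.cons m b (by simpa using hb 1) hn, by simp⟩
      · push Not at hn
        obtain ⟨y, hy, rfl⟩ := hn
        cases l with
        | nil => simp at hy
        | cons x l =>
          obtain rfl : x = y := by simpa using hy
          exact ⟨b * x.2, l, hl.tail.cons x.1 _ (hb _) hl.head, by simp [mul_assoc]⟩
    refine G.zero_of _ ?_
    have h2 : Alt ω ((n, a * star a) :: (m, c) :: l') := h1.cons n _ ha (by simpa using hnm)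
    have h3 := alt_sr P.herm h1
    have h4 : Alt ω (sr ((m, c) :: l') ++ ((n, a * star a) :: (m, c) :: l')) := by
      refine ⟨h3.1.append h2.1 ?_, ?_⟩
      · simpa [sr] using hnm.symm
      · intro x hx
        rcases List.mem_append.1 hx with hx | hx
        · exact h3.2 x hx
        · exact h2.2 x hx
    have := P.zero h4 (by simp)
    rw [wp_append, wp_sr, wp_cons π (n, a * star a)] at this
    rw [mul_assoc, e, ← this]
    simp [mul_assoc, map_star]

lemma gen' (s : ℕ → A) (hs : CuntzGen s) :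
    (StarAlgebra.adjoin ℂ (Set.range fun k : ℕ =>
      π (Nat.unpair k).1 (s (Nat.unpair k).2))).topologicalClosure = ⊤ := by
  set K := (StarAlgebra.adjoin ℂ (Set.range fun k : ℕ =>
      π (Nat.unpair k).1 (s (Nat.unpair k).2))).topologicalClosure with hK
  have hc : IsClosed (K : Set D) := StarSubalgebra.isClosed_topologicalClosure _
  have h1 : ∀ n a, π n a ∈ K := by
    intro n a
    have h2 : StarAlgebra.adjoin ℂ (Set.range s) ≤ K.comap (π n) := by
      refine StarAlgebra.adjoin_le ?_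
      rintro _ ⟨i, rfl⟩
      refine StarSubalgebra.le_topologicalClosure _ (StarAlgebra.subset_adjoin ℂ _ ⟨Nat.pair n i, ?_⟩)
      simp
    have h3 := StarSubalgebra.topologicalClosure_minimal h2
      (hc.preimage (AddMonoidHomClass.continuous_of_bound (π n) 1
        (fun a => by simpa using NonUnitalStarAlgHom.norm_apply_le (π n) a)))
    rw [hs.2] at h3
    exact h3 (StarSubalgebra.mem_top (x := a))
  have h4 : StarAlgebra.adjoin ℂ (⋃ n, Set.range (π n)) ≤ K := by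
    refine StarAlgebra.adjoin_le ?_
    intro g hg
    obtain ⟨n, a, rfl⟩ := Set.mem_iUnion.1 hg
    exact h1 n a
  have h5 := StarSubalgebra.topologicalClosure_minimal h4 hc
  rw [P.gen] at h5
  exact top_le_iff.1 h5

end FreePow

lemma state_of_norm [Nontrivial A] (f : A →L[ℂ] ℂ) (hf : ∀ a, ‖f a‖ ≤ ‖a‖) (h1 : f 1 = 1) :
    IsState (f : A →ₗ[ℂ] ℂ) := by
  letI := CStarAlgebra.spectralOrder A
  haveI := CStarAlgebra.spectralOrderedRing A
  have him : ∀ a : A, IsSelfAdjoint a → (f a).im = 0 := by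
    intro a ha
    by_contra h0
    set b := (f a).im with hb
    set t : ℝ := (‖a‖ ^ 2 + 1) / (2 * b) with ht
    have e1 : star (a + ((t : ℂ) * Complex.I) • (1 : A)) * (a + ((t : ℂ) * Complex.I) • (1 : A)) =
        a * a + ((t : ℂ) ^ 2) • (1 : A) := by
      simp only [star_add, star_smul, star_one, ha.star_eq, add_mul, mul_add, smul_mul_assoc,
        mul_smul_comm, mul_one, one_mul, star_mul', Complex.star_def, Complex.conj_ofReal,
        Complex.conj_I]
      have : (t : ℂ) * Complex.I * ((t : ℂ) * -Complex.I) = (t : ℂ) ^ 2 := by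
        have := Complex.I_mul_I
        linear_combination (-(t : ℂ) ^ 2) * this
      rw [← this]
      module
    have e2 : ‖a + ((t : ℂ) * Complex.I) • (1 : A)‖ ^ 2 ≤ ‖a‖ ^ 2 + t ^ 2 := by
      rw [sq, ← CStarRing.norm_star_mul_self, e1]
      refine (norm_add_le _ _).trans (add_le_add ((norm_mul_le _ _).trans (by rw [sq])) ?_)
      rw [norm_smul]
      have : ‖(1 : A)‖ ≤ 1 := norm_one.le
      simp only [norm_pow, Complex.norm_real, Real.norm_eq_abs, sq_abs]
      nlinarith [sq_nonneg t]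
    have e3 : |b + t| ≤ ‖a + ((t : ℂ) * Complex.I) • (1 : A)‖ := by
      refine le_trans ?_ (hf _)
      refine le_trans (le_of_eq ?_) (Complex.abs_im_le_norm _)
      simp [h1, hb]
    have e4 : (b + t) ^ 2 ≤ ‖a‖ ^ 2 + t ^ 2 := by
      refine le_trans ?_ e2
      rw [← sq_abs]
      exact pow_le_pow_left₀ (abs_nonneg _) e3 2
    have e5 : 2 * b * t = ‖a‖ ^ 2 + 1 := by rw [ht]; field_simp
    nlinarith [sq_nonneg b]
  refine ⟨h1, fun x => ⟨?_, him _ (IsSelfAdjoint.star_mul_self x)⟩⟩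
  set a := star x * x with ha
  have h0 : 0 ≤ a := star_mul_self_nonneg x
  have h2 : a ≤ algebraMap ℝ A ‖a‖ := IsSelfAdjoint.le_algebraMap_norm_self (.of_nonneg h0)
  have h3 : ‖algebraMap ℝ A ‖a‖ - a‖ ≤ ‖algebraMap ℝ A ‖a‖‖ :=
    CStarAlgebra.norm_le_norm_of_nonneg_of_le (sub_nonneg.2 h2) (sub_le_self _ h0)
  have h4 : ‖algebraMap ℝ A ‖a‖‖ ≤ ‖a‖ := by
    rw [Algebra.algebraMap_eq_smul_one, norm_smul, norm_norm]
    have : ‖(1 : A)‖ ≤ 1 := norm_one.le
    nlinarith [norm_nonneg a]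
  have h5 := (Complex.re_le_norm _).trans ((hf _).trans (h3.trans h4))
  rw [map_sub, Algebra.algebraMap_eq_smul_one, ← Complex.coe_smul, map_smul, h1] at h5
  simp at h5
  exact h5

lemma vacuum [Nontrivial A] (s : ℕ → A) (hs : CuntzGen s) :
    ∃ ω : A →ₗ[ℂ] ℂ, IsState ω ∧ ∀ i x, ω (s i * x) = 0 := by
  let N : Submodule ℂ A := Submodule.span ℂ {y | ∃ i x, s i * x = y}
  have hN : ∀ y ∈ N, ∀ᶠ k in atTop, star (s k) * y = 0 := by
    intro y hy
    induction hy using Submodule.span_induction with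
    | mem y hy =>
      obtain ⟨i, x, rfl⟩ := hy
      filter_upwards [eventually_gt_atTop i] with k hk
      rw [← mul_assoc, hs.1, if_neg hk.ne', zero_mul]
    | zero => simp
    | add x y _ _ hx hy => filter_upwards [hx, hy] with k h1 h2; rw [mul_add, h1, h2, add_zero]
    | smul c x _ hx => filter_upwards [hx] with k h1; rw [mul_smul_comm, h1, smul_zero]
  have hs1 : ∀ k, ‖s k‖ = 1 := by
    intro k
    have := CStarRing.norm_star_mul_self (x := s k)
    rw [hs.1, if_pos rfl, norm_one] at this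
    nlinarith [norm_nonneg (s k)]
  have h1 : ‖(Submodule.Quotient.mk 1 : A ⧸ N)‖ = 1 := by
    refine le_antisymm ((Submodule.Quotient.norm_mk_le N 1).trans norm_one.le) ?_
    refine le_of_forall_pos_lt_add fun ε hε => ?_
    obtain ⟨m, hm, h2⟩ := Submodule.Quotient.norm_mk_lt (Submodule.Quotient.mk 1 : A ⧸ N) hε
    refine lt_of_le_of_lt ?_ h2
    obtain ⟨k, hk⟩ := (hN _ ((Submodule.Quotient.eq N).1 hm)).exists
    rw [mul_sub, mul_one, sub_eq_zero] at hk
    have := norm_mul_le (star (s k)) m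
    rwa [hk, norm_star, hs1, one_mul] at this
  obtain ⟨g, hg, hg1⟩ := exists_dual_vector'' ℂ (Submodule.Quotient.mk 1 : A ⧸ N)
  have hb : ∀ a, ‖(g.toLinearMap ∘ₗ N.mkQ) a‖ ≤ 1 * ‖a‖ := fun a =>
    (g.le_opNorm _).trans (mul_le_mul hg (Submodule.Quotient.norm_mk_le N a) (norm_nonneg _)
      zero_le_one)
  refine ⟨_, state_of_norm ((g.toLinearMap ∘ₗ N.mkQ).mkContinuous 1 hb)
    (fun a => by simpa using hb a) (by simpa [h1] using hg1), fun i x => ?_⟩
  change g (Submodule.Quotient.mk (s i * x)) = 0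
  rw [(Submodule.Quotient.mk_eq_zero N).2 (Submodule.subset_span ⟨i, x, rfl⟩), map_zero]

end H91FP
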