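import Pool.Agent.H91.FP1

set_option autoImplicit false

open Filter Topology
open scoped InnerProductSpace TensorProduct

namespace H91FP

variable {D : Type} [CStarAlgebra D] {ρ₁ ρ₂ : D →ₗ[ℂ] ℂ}

noncomputable def La (x y : D) : D ⊗[ℂ] D →ₗ[ℂ] D ⊗[ℂ] D :=
  TensorProduct.map (LinearMap.mulLeft ℂ x) (LinearMap.mulRight ℂ y)

@[simp] lemma La_tmul (x y a b : D) : La x y (a ⊗ₜ b) = (x * a) ⊗ₜ (b * y) := rfl

lemma La_La (x y x' y' : D) (η : D ⊗[ℂ] D) : La x y (La x' y' η) = La (x * x') (y' * y) η := by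
  induction η using TensorProduct.induction_on with
  | zero => simp
  | tmul a b => simp [mul_assoc]
  | add a b ha hb => simp [ha, hb]

lemma La_one (η : D ⊗[ℂ] D) : La 1 1 η = η := by
  induction η using TensorProduct.induction_on with
  | zero => simp
  | tmul a b => simp
  | add a b ha hb => simp [ha, hb]

lemma La_add (x x' y : D) (η : D ⊗[ℂ] D) : La (x + x') y η = La x y η + La x' y η := by
  induction η using TensorProduct.induction_on with
  | zero => simp
  | tmul a b => simp [add_mul, TensorProduct.add_tmul]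
  | add a b ha hb => simp only [map_add, ha, hb]; abel

lemma La_smul (c : ℂ) (x y : D) (η : D ⊗[ℂ] D) : La (c • x) y η = c • La x y η := by
  induction η using TensorProduct.induction_on with
  | zero => simp
  | tmul a b => simp [TensorProduct.smul_tmul']
  | add a b ha hb => simp only [map_add, ha, hb, smul_add]

lemma La_zero (y : D) (η : D ⊗[ℂ] D) : La 0 y η = 0 := by
  simpa using La_smul 0 0 y η

section
variable (G₁ : GN ρ₁) (G₂ : GN ρ₂)

noncomputable def J : D ⊗[ℂ] D →ₗ[ℂ] G₁.H ⊗[ℂ] G₂.H :=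
  TensorProduct.map G₁.ι.toLinearMap G₂.ι.toLinearMap

@[simp] lemma J_tmul (a b : D) : J G₁ G₂ (a ⊗ₜ b) = G₁.ι a ⊗ₜ G₂.ι b := rfl

noncomputable def ip (η η' : D ⊗[ℂ] D) : ℂ :=
  @inner ℂ _ TensorProduct.instInnerProductSpace.toInner (J G₁ G₂ η) (J G₁ G₂ η')

lemma ip_tmul (a b a' b' : D) :
    ip G₁ G₂ (a ⊗ₜ b) (a' ⊗ₜ b') = ρ₁ (star a * a') * ρ₂ (star b * b') := by
  rw [← G₁.ip, ← G₂.ip]
  exact TensorProduct.inner_tmul ℂ _ _ _ _

lemma ip_addl (a b c : D ⊗[ℂ] D) : ip G₁ G₂ (a + b) c = ip G₁ G₂ a c + ip G₁ G₂ b c := by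
  simp [ip, inner_add_left]
lemma ip_addr (a b c : D ⊗[ℂ] D) : ip G₁ G₂ c (a + b) = ip G₁ G₂ c a + ip G₁ G₂ c b := by
  simp [ip, inner_add_right]
lemma ip_subr (a b c : D ⊗[ℂ] D) : ip G₁ G₂ c (a - b) = ip G₁ G₂ c a - ip G₁ G₂ c b := by
  simp [ip, inner_sub_right]
lemma ip_smulr (k : ℂ) (a c : D ⊗[ℂ] D) : ip G₁ G₂ c (k • a) = k * ip G₁ G₂ c a := by
  simp [ip, inner_smul_right]
@[simp] lemma ip_zerol (c : D ⊗[ℂ] D) : ip G₁ G₂ 0 c = 0 := by simp [ip]
@[simp] lemma ip_zeror (c : D ⊗[ℂ] D) : ip G₁ G₂ c 0 = 0 := by simp [ip]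
lemma ip_suml {ι : Type} (s : Finset ι) (f : ι → D ⊗[ℂ] D) (c : D ⊗[ℂ] D) :
    ip G₁ G₂ (∑ i ∈ s, f i) c = ∑ i ∈ s, ip G₁ G₂ (f i) c := by simp [ip, sum_inner]
lemma ip_sumr {ι : Type} (s : Finset ι) (f : ι → D ⊗[ℂ] D) (c : D ⊗[ℂ] D) :
    ip G₁ G₂ c (∑ i ∈ s, f i) = ∑ i ∈ s, ip G₁ G₂ c (f i) := by simp [ip, inner_sum]
lemma ip_conj (a b : D ⊗[ℂ] D) : (starRingEnd ℂ) (ip G₁ G₂ a b) = ip G₁ G₂ b a :=
  inner_conj_symm _ _
lemma ip_le (a b : D ⊗[ℂ] D) : ‖ip G₁ G₂ a b‖ ≤ ‖J G₁ G₂ a‖ * ‖J G₁ G₂ b‖ :=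
  norm_inner_le_norm _ _
lemma ip_self (a : D ⊗[ℂ] D) : ‖ip G₁ G₂ a a‖ = ‖J G₁ G₂ a‖ ^ 2 := by
  rw [ip, inner_self_eq_norm_sq_to_K]; simp

lemma adjL (x y x' y' : D) (η η' : D ⊗[ℂ] D) :
    ip G₁ G₂ (La x y η) (La x' y' η') = ip G₁ G₂ (La 1 y η) (La (star x * x') y' η') := by
  induction η using TensorProduct.induction_on with
  | zero => simp
  | add a b ha hb => simp only [map_add, ip_addl, ha, hb]
  | tmul a b =>
    induction η' using TensorProduct.induction_on with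
    | zero => simp
    | add a b ha hb => simp only [map_add, ip_addr, ha, hb]
    | tmul a' b' => simp [ip_tmul, mul_assoc]

lemma adjR (x c : D) (hc : ∀ a, ρ₂ (star c * a) = ρ₂ (a * star c)) (η η' : D ⊗[ℂ] D) :
    ip G₁ G₂ (La x c η) η' = ip G₁ G₂ η (La (star x) (star c) η') := by
  induction η using TensorProduct.induction_on with
  | zero => simp
  | add a b ha hb => simp only [map_add, ip_addl, ha, hb]
  | tmul a b =>
    induction η' using TensorProduct.induction_on with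
    | zero => simp
    | add a b ha hb => simp only [map_add, ip_addr, ha, hb]
    | tmul a' b' => simp [ip_tmul, mul_assoc, hc]

lemma normL (x y : D) (η : D ⊗[ℂ] D) :
    ‖J G₁ G₂ (La x y η)‖ ≤ ‖x‖ * ‖J G₁ G₂ (La 1 y η)‖ := by
  have : J G₁ G₂ (La x y η) = (G₁.σ x).rTensor G₂.H (J G₁ G₂ (La 1 y η)) := by
    induction η using TensorProduct.induction_on with
    | zero => simp
    | add a b ha hb => simp only [map_add, ha, hb]
    | tmul a b => simp [GN.act]
  rw [this]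
  refine (ContinuousLinearMap.le_opNorm _ _).trans ?_
  gcongr
  exact (ContinuousLinearMap.norm_rTensor_le _ _).trans (G₁.bd x)

end

/-! ### the free symmetries -/

def step (i : Fin 9) : List (Fin 9) → List (Fin 9)
  | [] => [i]
  | j :: s => if i = j then s else i :: j :: s

lemma step_chain (i : Fin 9) {s : List (Fin 9)} (h : s.IsChain (· ≠ ·)) :
    (step i s).IsChain (· ≠ ·) := by
  cases s with
  | nil => simp [step]
  | cons j s =>
    by_cases hij : i = j
    · simp only [step, if_pos hij]; exact h.tail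
    · simp only [step, if_neg hij]; exact List.isChain_cons_cons.2 ⟨hij, h⟩

lemma step_sum (s : List (Fin 9)) :
    ∑ i, (1 / 3 : ℝ) ^ (step i s).length ≤ 6 * (1 / 3 : ℝ) ^ s.length := by
  cases s with
  | nil => simp [step]; norm_num
  | cons j s =>
    have hp : 0 < (1 / 3 : ℝ) ^ s.length := by positivity
    have : ∀ i, (1 / 3 : ℝ) ^ (step i (j :: s)).length ≤
        (if i = j then (1 / 3 : ℝ) ^ s.length else 0) + (1 / 9) * (1 / 3 : ℝ) ^ s.length := by
      intro i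
      by_cases hij : i = j
      · simp only [step, if_pos hij]; linarith
      · simp only [step, if_neg hij, List.length_cons, pow_succ]; linarith
    refine (Finset.sum_le_sum fun i _ => this i).trans ?_
    rw [Finset.sum_add_distrib, Finset.sum_ite_eq']
    simp only [Finset.mem_univ, if_true, Finset.sum_const, Finset.card_univ, Fintype.card_fin,
      List.length_cons, pow_succ, nsmul_eq_mul]
    push_cast; linarith

lemma sum_succ {M : Type} [AddCommMonoid M] (n : ℕ) (F : List (Fin 9) → M) :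
    ∑ w : Fin (n + 1) → Fin 9, F (List.ofFn w) =
      ∑ i, ∑ w : Fin n → Fin 9, F (i :: List.ofFn w) := by
  rw [← (Fin.consEquiv (fun _ => Fin 9)).sum_comp, Fintype.sum_prod_type]
  simp [List.ofFn_succ, Fin.consEquiv]

lemma pull_sum (n : ℕ) (s : List (Fin 9)) :
    ∑ w : Fin n → Fin 9, (1 / 3 : ℝ) ^ ((List.ofFn w).foldr step s).length ≤
      6 ^ n * (1 / 3 : ℝ) ^ s.length := by
  induction n with
  | zero => simp
  | succ n ih =>
    rw [sum_succ n (fun l => (1 / 3 : ℝ) ^ (l.foldr step s).length), Finset.sum_comm]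
    refine (Finset.sum_le_sum fun w _ => step_sum _).trans ?_
    rw [← Finset.mul_sum, pow_succ]; linarith

lemma push_sum (n : ℕ) (s : List (Fin 9)) :
    ∑ w : Fin n → Fin 9, (1 / 3 : ℝ) ^ ((List.ofFn w).foldl (fun s i => step i s) s).length ≤
      6 ^ n * (1 / 3 : ℝ) ^ s.length := by
  induction n generalizing s with
  | zero => simp
  | succ n ih =>
    rw [sum_succ n (fun l => (1 / 3 : ℝ) ^ (l.foldl (fun s i => step i s) s).length)]
    refine (Finset.sum_le_sum fun i _ => ih (step i s)).trans ?_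
    rw [← Finset.mul_sum, pow_succ, mul_assoc]
    gcongr
    exact step_sum s

def U (u : Fin 9 → D) (s : List (Fin 9)) : D := (s.map u).prod

@[simp] lemma U_nil (u : Fin 9 → D) : U u [] = 1 := rfl
@[simp] lemma U_cons (u : Fin 9 → D) (i : Fin 9) (s : List (Fin 9)) :
    U u (i :: s) = u i * U u s := by simp [U]

structure Sym (ρ : D →ₗ[ℂ] ℂ) (u : Fin 9 → D) : Prop where
  sa : ∀ i, star (u i) = u i
  sq : ∀ i, u i * u i = 1
  cen : ∀ i a, ρ (u i * a) = ρ (a * u i)
  free : ∀ s : List (Fin 9), s ≠ [] → s.IsChain (· ≠ ·) → ρ (U u s) = 0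
  one : ρ 1 = 1

namespace Sym
variable {u : Fin 9 → D} (S : Sym ρ₂ u)
include S

lemma U_step (i : Fin 9) (s : List (Fin 9)) : U u (step i s) = u i * U u s := by
  cases s with
  | nil => simp [step]
  | cons j s =>
    by_cases hij : i = j
    · subst hij; simp [step, ← mul_assoc, S.sq]
    · simp [step, hij]

lemma U_pull (l s : List (Fin 9)) (hs : s.IsChain (· ≠ ·)) :
    U u (l.foldr step s) = U u l * U u s ∧ (l.foldr step s).IsChain (· ≠ ·) := by
  induction l with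
  | nil => simpa using hs
  | cons i l ih => exact ⟨by simp [S.U_step, ih.1, mul_assoc], step_chain i ih.2⟩

lemma U_push (l s : List (Fin 9)) (hs : s.IsChain (· ≠ ·)) :
    U u (l.foldl (fun s i => step i s) s) = star (U u l) * U u s ∧
      (l.foldl (fun s i => step i s) s).IsChain (· ≠ ·) := by
  induction l generalizing s with
  | nil => simpa using hs
  | cons i l ih =>
    have := ih (step i s) (step_chain i hs)
    exact ⟨by simp [this.1, S.U_step, mul_assoc, S.sa], this.2⟩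

lemma bound (s : List (Fin 9)) (hs : s.IsChain (· ≠ ·)) :
    ‖ρ₂ (U u s)‖ ≤ (1 / 3 : ℝ) ^ s.length := by
  by_cases h : s = []
  · subst h; simp [S.one]
  · rw [S.free s h hs]; simp

lemma unit (l : List (Fin 9)) : star (U u l) * U u l = 1 := by
  induction l with
  | nil => simp
  | cons i l ih =>
    rw [U_cons, star_mul, S.sa, mul_assoc, ← mul_assoc (u i), S.sq, one_mul, ih]

lemma dbl (n : ℕ) : ∑ w' : Fin n → Fin 9, ∑ w : Fin n → Fin 9,
    ‖ρ₂ (U u (List.ofFn w') * star (U u (List.ofFn w)))‖ ≤ (6 ^ n) ^ 2 := by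
  rw [Finset.sum_comm]
  have h : ∀ w : Fin n → Fin 9, ∑ w' : Fin n → Fin 9,
      ‖ρ₂ (U u (List.ofFn w') * star (U u (List.ofFn w)))‖ ≤
      6 ^ n * (1 / 3 : ℝ) ^ ((List.ofFn w).foldl (fun s i => step i s) []).length := by
    intro w
    refine le_trans (Finset.sum_le_sum fun w' _ => ?_) (pull_sum n _)
    have h1 := S.U_push (List.ofFn w) [] (by simp)
    have h2 := S.U_pull (List.ofFn w') _ h1.2
    have := S.bound _ h2.2
    rwa [h2.1, h1.1, U_nil, mul_one] at this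
  refine (Finset.sum_le_sum fun w _ => h w).trans ?_
  rw [← Finset.mul_sum, _root_.sq]
  gcongr
  simpa using push_sum n []

end Sym

noncomputable def T (u : Fin 9 → D) : D ⊗[ℂ] D →ₗ[ℂ] D ⊗[ℂ] D := ∑ i, La (u i) (u i)

lemma T_apply (u : Fin 9 → D) (η : D ⊗[ℂ] D) : T u η = ∑ i, La (u i) (u i) η := by
  simp [T]

section
variable (G₁ : GN ρ₁) (G₂ : GN ρ₂) {u : Fin 9 → D} (S : Sym ρ₂ u)
include S

lemma T_pow (n : ℕ) (a b : D) : (T u ^ n) (a ⊗ₜ b) =
    ∑ w : Fin n → Fin 9, (U u (List.ofFn w) * a) ⊗ₜ (b * star (U u (List.ofFn w))) := by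
  induction n with
  | zero => simp
  | succ n ih =>
    rw [sum_succ n (fun l => (U u l * a) ⊗ₜ[ℂ] (b * star (U u l))), pow_succ', Module.End.mul_apply,
      ih, T_apply]
    refine Finset.sum_congr rfl fun i _ => ?_
    rw [map_sum]
    simp [mul_assoc, S.sa]

lemma T_sym (η η' : D ⊗[ℂ] D) : ip G₁ G₂ (T u η) η' = ip G₁ G₂ η (T u η') := by
  rw [T_apply, T_apply, ip_suml, ip_sumr]
  refine Finset.sum_congr rfl fun i _ => ?_
  rw [adjR G₁ G₂ _ _ (by rw [S.sa]; exact S.cen i), S.sa]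

lemma T_pow_sym (n : ℕ) (η η' : D ⊗[ℂ] D) :
    ip G₁ G₂ ((T u ^ n) η) η' = ip G₁ G₂ η ((T u ^ n) η') := by
  induction n generalizing η' with
  | zero => simp
  | succ n ih =>
    rw [pow_succ', Module.End.mul_apply, T_sym G₁ G₂ S, ih, ← Module.End.mul_apply, ← pow_succ,
      pow_succ']

lemma growth (η η' : D ⊗[ℂ] D) :
    ∃ C : ℝ, ∀ n : ℕ, ‖ip G₁ G₂ η' ((T u ^ n) η)‖ ≤ C * 6 ^ n := by
  induction η using TensorProduct.induction_on with
  | zero => exact ⟨0, by simp⟩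
  | add a b ha hb =>
    obtain ⟨C, hC⟩ := ha
    obtain ⟨C', hC'⟩ := hb
    refine ⟨C + C', fun n => ?_⟩
    rw [map_add, ip_addr, add_mul]
    exact (norm_add_le _ _).trans (add_le_add (hC n) (hC' n))
  | tmul a b =>
    induction η' using TensorProduct.induction_on with
    | zero => exact ⟨0, by simp⟩
    | add a b ha hb =>
      obtain ⟨C, hC⟩ := ha
      obtain ⟨C', hC'⟩ := hb
      refine ⟨C + C', fun n => ?_⟩
      rw [ip_addl, add_mul]
      exact (norm_add_le _ _).trans (add_le_add (hC n) (hC' n))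
    | tmul a' b' =>
      set M := ‖G₁.ι a'‖ * ‖G₁.ι a‖ with hM
      have hM0 : 0 ≤ M := by positivity
      refine ⟨‖G₂.ι (star b * b')‖ * M, fun n => ?_⟩
      let c : (Fin n → Fin 9) → ℂ := fun w => ρ₁ (star a' * (U u (List.ofFn w) * a))
      have hc : ∀ w, ‖c w‖ ≤ M := by
        intro w
        have e : ‖G₁.ι (U u (List.ofFn w) * a)‖ ^ 2 = ‖G₁.ι a‖ ^ 2 := by
          rw [@norm_sq_eq_re_inner ℂ, @norm_sq_eq_re_inner ℂ, G₁.ip, G₁.ip, star_mul, mul_assoc,
            ← mul_assoc (star (U u _)), S.unit, one_mul]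
        have e' := (pow_left_inj₀ (norm_nonneg _) (norm_nonneg _) two_ne_zero).1 e
        simp only [c]
        rw [← G₁.ip, hM, ← e']
        exact norm_inner_le_norm _ _
      let ξ : G₂.H := ∑ w, c w • G₂.ι (star (U u (List.ofFn w)))
      have e1 : ip G₁ G₂ (a' ⊗ₜ b') ((T u ^ n) (a ⊗ₜ b)) = ⟪G₂.ι (star b * b'), ξ⟫_ℂ := by
        rw [T_pow S, ip_sumr]
        simp only [ξ, inner_sum, inner_smul_right, GN.ip, ip_tmul, c, star_mul, star_star, mul_assoc]
      have e2 : ‖ξ‖ ^ 2 ≤ (M * 6 ^ n) ^ 2 := by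
        have : ‖ξ‖ ^ 2 = ‖⟪ξ, ξ⟫_ℂ‖ := by rw [inner_self_eq_norm_sq_to_K]; simp
        rw [this, mul_pow]
        simp only [ξ, inner_sum, sum_inner, inner_smul_right, inner_smul_left, GN.ip, star_star]
        refine le_trans ?_ (mul_le_mul_of_nonneg_left (S.dbl n) (sq_nonneg M))
        rw [Finset.sum_comm, Finset.mul_sum]
        refine (norm_sum_le _ _).trans (Finset.sum_le_sum fun w _ => ?_)
        rw [norm_mul, Finset.mul_sum]
        refine (mul_le_mul (hc w) (norm_sum_le _ _) (norm_nonneg _) hM0).trans ?_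
        rw [Finset.mul_sum]
        refine Finset.sum_le_sum fun w' _ => ?_
        rw [norm_mul, RCLike.norm_conj, sq, mul_assoc M M]
        exact mul_le_mul_of_nonneg_left (mul_le_mul_of_nonneg_right (hc w') (norm_nonneg _)) hM0
      have e3 : ‖ξ‖ ≤ M * 6 ^ n := (pow_le_pow_iff_left₀ (norm_nonneg _) (by positivity)
        two_ne_zero).1 e2
      rw [e1, mul_assoc]
      exact (norm_inner_le_norm _ _).trans (by gcongr)

lemma T_le (η : D ⊗[ℂ] D) : ‖J G₁ G₂ (T u η)‖ ≤ 6 * ‖J G₁ G₂ η‖ := by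
  obtain ⟨C, hC⟩ := growth G₁ G₂ S η η
  set z := ‖J G₁ G₂ η‖ with hz
  let a : ℕ → ℝ := fun m => ‖J G₁ G₂ ((T u ^ (2 ^ m)) η)‖
  have h1 : ∀ m, a m ^ 2 = ‖ip G₁ G₂ η ((T u ^ (2 ^ (m + 1))) η)‖ := by
    intro m
    rw [← ip_self, T_pow_sym G₁ G₂ S, ← Module.End.mul_apply, ← pow_add, pow_succ, mul_two]
  have h2 : ∀ m, a m ^ 2 ≤ z * a (m + 1) := fun m => (h1 m).le.trans (ip_le G₁ G₂ _ _)
  have h0 : a 0 = ‖J G₁ G₂ (T u η)‖ := by simp [a]
  rw [← h0]
  have ha : ∀ m, 0 ≤ a m := fun m => norm_nonneg _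
  by_contra hlt
  push Not at hlt
  rcases (norm_nonneg (J G₁ G₂ η)).eq_or_lt with hz0 | hz0
  · have := h2 0
    rw [hz, ← hz0] at this hlt
    nlinarith
  rw [← hz] at hz0
  set r := a 0 / (6 * z) with hr
  have hr1 : 1 < r := by rw [hr, one_lt_div (by positivity)]; exact hlt
  have h3 : ∀ m, z * (6 * r) ^ (2 ^ m) ≤ a m := by
    intro m
    induction m with
    | zero => rw [hr]; simp only [pow_zero, pow_one]; field_simp; rfl
    | succ m ih =>
      have := (pow_le_pow_left₀ (by positivity) ih 2).trans (h2 m)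
      rw [mul_pow, sq z, mul_assoc, ← pow_mul, ← pow_succ] at this
      exact le_of_mul_le_mul_left this hz0
  have h4 : ∀ m, r ^ m ≤ C / z ^ 2 := by
    intro m
    have e := (pow_le_pow_left₀ (by positivity) (h3 m) 2).trans ((h1 m).le.trans (hC _))
    rw [mul_pow, ← pow_mul, ← pow_succ, mul_pow, mul_comm ((6 : ℝ) ^ _), ← mul_assoc] at e
    have e' := le_of_mul_le_mul_right e (by positivity)
    rw [le_div_iff₀ (by positivity), mul_comm]
    refine le_trans ?_ e'
    gcongr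
    · exact hr1.le
    · exact (Nat.lt_two_pow_self.le).trans (Nat.pow_le_pow_right two_pos (Nat.le_succ m))
  obtain ⟨m, hm⟩ := ((tendsto_pow_atTop_atTop_of_one_lt hr1).eventually_gt_atTop (C / z ^ 2)).exists
  exact absurd (h4 m) (not_le.2 hm)

end

end H91FP
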