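import Pool.Agent.H91.FP2

set_option autoImplicit false

open Filter Topology
open scoped InnerProductSpace TensorProduct

namespace H91FP

variable {D : Type} [CStarAlgebra D] {ρ₁ ρ₂ : D →ₗ[ℂ] ℂ}

structure Fock (ρ : D →ₗ[ℂ] ℂ) (t : ℕ → D) : Prop where
  rel : ∀ i j, star (t i) * t j = if i = j then 1 else 0
  vac : ∀ i x, ρ (t i * x) = 0
  one : ρ 1 = 1

noncomputable def qq (t : ℕ → D) (K : ℕ) : D := 1 - ∑ j ∈ Finset.range K, t j * star (t j)

noncomputable def ze (t : ℕ → D) (K : ℕ) : ℕ → D ⊗[ℂ] D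
  | 0 => 1 ⊗ₜ 1
  | m + 1 => t (K + m) ⊗ₜ qq t K + ∑ j ∈ Finset.range K, La (t j) (star (t j)) (ze t K m)

noncomputable def ZZ (t : ℕ → D) (K N : ℕ) : D ⊗[ℂ] D := ∑ m ∈ Finset.range (N + 1), ze t K m

section
variable (G₁ : GN ρ₁) (G₂ : GN ρ₂) {t : ℕ → D} (F : Fock ρ₁ t)
include F

lemma qq_sq (K : ℕ) : star (qq t K) * qq t K = qq t K := by
  have h1 : star (qq t K) = qq t K := by simp [qq, star_sum]
  have h2 : ∀ j ∈ Finset.range K, star (t j) * qq t K = 0 := by
    intro j hj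
    rw [qq, mul_sub, Finset.mul_sum, Finset.sum_eq_single j]
    · rw [← mul_assoc, F.rel]; simp
    · intro i _ hi; rw [← mul_assoc, F.rel, if_neg hi.symm, zero_mul]
    · intro h; exact absurd hj h
  rw [h1]
  nth_rewrite 1 [qq]
  rw [sub_mul, one_mul, Finset.sum_mul, Finset.sum_eq_zero, sub_zero]
  intro j hj
  rw [mul_assoc, h2 j hj, mul_zero]

lemma K1 (K j m : ℕ) (hj : j < K) (x y : D) :
    La (x * star (t j)) y (ze t K (m + 1)) = La x (star (t j) * y) (ze t K m) := by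
  rw [ze, map_add, map_sum, La_tmul, mul_assoc, F.rel, if_neg (by omega), Finset.sum_eq_single j]
  · rw [La_La, mul_assoc, F.rel]; simp
  · intro i _ hi
    rw [La_La, mul_assoc, F.rel, if_neg hi.symm, mul_zero, La_zero]
  · intro h; exact absurd (Finset.mem_range.2 hj) h

lemma null (j : ℕ) (x y : D) : J G₁ G₂ ((x * star (t j)) ⊗ₜ y) = 0 := by
  rw [J_tmul, G₁.zero_of, TensorProduct.zero_tmul]
  rw [star_mul, star_star, mul_assoc, F.vac]

lemma K2 (K m m' : ℕ) (y' y : D) :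
    ip G₁ G₂ (La 1 y' (t (K + m) ⊗ₜ qq t K)) (La 1 y (ze t K m')) =
      if m + 1 = m' then ρ₂ (star y' * qq t K * y) else 0 := by
  cases m' with
  | zero =>
    have := null G₁ G₂ F (K + m) 1
    simp only [ze, La_tmul, ip_tmul, one_mul, mul_one]
    rw [G₁.herm, ← mul_one (t _), F.vac]; simp
  | succ k =>
    rw [ze, map_add, ip_addr, map_sum, ip_sumr, Finset.sum_eq_zero, add_zero]
    · simp only [La_tmul, ip_tmul, one_mul, F.rel, star_mul]
      by_cases h : m = k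
      · subst h
        rw [if_pos rfl, if_pos rfl, F.one, one_mul, mul_assoc, mul_assoc, ← mul_assoc (star (qq t K)),
          qq_sq F]
      · rw [if_neg (by omega), if_neg (by omega)]; simp
    · intro j hj
      have hj' := Finset.mem_range.1 hj
      rw [← ip_conj, La_La, adjL, La_tmul, mul_one, one_mul, F.rel, if_neg (by omega)]
      simp

lemma orthn (K m m' : ℕ) (y' y : D) :
    ip G₁ G₂ (La 1 y' (ze t K m)) (La 1 y (ze t K m')) =
      if m = m' then ρ₂ (star y' * y) else 0 := by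
  have h0 : ∀ m y' y, ip G₁ G₂ (La 1 y' (ze t K (m + 1))) (La 1 y (ze t K 0)) = 0 := by
    intro m y' y
    rw [show ze t K (m + 1) = t (K + m) ⊗ₜ qq t K +
        ∑ j ∈ Finset.range K, La (t j) (star (t j)) (ze t K m) from rfl,
      map_add, ip_addl, K2 G₁ G₂ F, if_neg (by omega), zero_add, map_sum, ip_suml]
    refine Finset.sum_eq_zero fun j _ => ?_
    rw [La_La, adjL, ze, La_tmul, ip]
    have := null G₁ G₂ F j 1 (1 * y)
    simp only [one_mul, mul_one] at this ⊢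
    rw [this, inner_zero_right]
  induction m generalizing m' y' y with
  | zero =>
    cases m' with
    | zero => simp [ze, ip_tmul, F.one]
    | succ k => rw [← ip_conj, h0]; simp
  | succ m ih =>
    cases m' with
    | zero => rw [h0]; simp
    | succ k =>
      nth_rewrite 1 [ze]
      rw [map_add, ip_addl, K2 G₁ G₂ F, map_sum, ip_suml]
      have : ∀ j ∈ Finset.range K, ip G₁ G₂ (La 1 y' (La (t j) (star (t j)) (ze t K m)))
          (La 1 y (ze t K (k + 1))) =
          if m = k then ρ₂ (star y' * (t j * star (t j)) * y) else 0 := by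
        intro j hj
        rw [La_La, adjL, one_mul, mul_one, ← one_mul (star (t j)),
          K1 F K j k (Finset.mem_range.1 hj), ih]
        simp [mul_assoc]
      rw [Finset.sum_congr rfl this]
      by_cases h : m = k
      · subst h
        simp only [if_true]
        rw [← map_sum, ← map_add, ← Finset.sum_mul, ← Finset.mul_sum, ← add_mul, ← mul_add, qq]
        simp
      · simp [h]

lemma ZZ_ip (K N : ℕ) (y' y : D) :
    ip G₁ G₂ (La 1 y' (ZZ t K N)) (La 1 y (ZZ t K N)) = ((N : ℂ) + 1) * ρ₂ (star y' * y) := by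
  simp only [ZZ, map_sum, ip_suml, ip_sumr, orthn G₁ G₂ F]
  rw [Finset.sum_congr rfl (g := fun _ => ρ₂ (star y' * y))]
  · simp
  · intro m hm; rw [Finset.sum_ite_eq' , if_pos hm]

lemma ZZ_norm (K N : ℕ) (y : D) :
    ‖J G₁ G₂ (La 1 y (ZZ t K N))‖ = √((N : ℝ) + 1) * ‖G₂.ι y‖ := by
  have h := ip_self G₁ G₂ (La 1 y (ZZ t K N))
  rw [ZZ_ip G₁ G₂ F, ← G₂.ip, inner_self_eq_norm_sq_to_K, norm_mul] at h
  have e : ‖(N : ℂ) + 1‖ = (N : ℝ) + 1 := by
    exact_mod_cast Complex.norm_natCast (N + 1)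
  refine (pow_left_inj₀ (norm_nonneg _) (by positivity) two_ne_zero).1 ?_
  rw [← h, e, mul_pow, Real.sq_sqrt (by positivity)]; simp

lemma ze_norm (K m : ℕ) (y : D) : ‖J G₁ G₂ (La 1 y (ze t K m))‖ = ‖G₂.ι y‖ := by
  have h := ip_self G₁ G₂ (La 1 y (ze t K m))
  rw [orthn G₁ G₂ F, if_pos rfl, ← G₂.ip, inner_self_eq_norm_sq_to_K] at h
  refine (pow_left_inj₀ (norm_nonneg _) (by positivity) two_ne_zero).1 ?_
  rw [← h]; simp

lemma ZZ_shift (K j N : ℕ) (hj : j < K) (x y : D) :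
    La (x * star (t j)) y (ZZ t K N) = La x (star (t j) * y) (ZZ t K N) -
      La x (star (t j) * y) (ze t K N) + (x * star (t j)) ⊗ₜ y := by
  nth_rewrite 1 [ZZ]
  rw [Finset.sum_range_succ', ZZ, Finset.sum_range_succ, map_add, map_add, map_sum, map_sum,
    add_sub_cancel_right]
  simp only [K1 F K j _ hj]
  simp [ze]

end

def Good (G₁ : GN ρ₁) (G₂ : GN ρ₂) (t : ℕ → D) (K : ℕ) (x : D) : Prop :=
  ∀ y' y : D, Tendsto (fun N : ℕ => ((N : ℂ) + 1)⁻¹ *
    ip G₁ G₂ (La 1 y' (ZZ t K N)) (La x y (ZZ t K N))) atTop (𝓝 (ρ₂ (star y' * x * y)))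

section
variable {G₁ : GN ρ₁} {G₂ : GN ρ₂} {t : ℕ → D} {K : ℕ}

lemma good_one (F : Fock ρ₁ t) : Good G₁ G₂ t K 1 := by
  intro y' y
  refine tendsto_const_nhds.congr fun N => ?_
  have : ((N : ℂ) + 1) ≠ 0 := by exact_mod_cast Nat.succ_ne_zero N
  rw [ZZ_ip G₁ G₂ F, mul_one, ← mul_assoc, inv_mul_cancel₀ this, one_mul]

lemma Good.add {x x' : D} (h : Good G₁ G₂ t K x) (h' : Good G₁ G₂ t K x') :
    Good G₁ G₂ t K (x + x') := by
  intro y' y
  simp only [La_add, ip_addr, mul_add, add_mul, map_add]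
  exact (h y' y).add (h' y' y)

lemma Good.smul {x : D} (c : ℂ) (h : Good G₁ G₂ t K x) : Good G₁ G₂ t K (c • x) := by
  intro y' y
  simp only [La_smul, ip_smulr, mul_smul_comm, smul_mul_assoc, map_smul, smul_eq_mul,
    mul_left_comm _ c]
  exact (h y' y).const_mul c

lemma Good.star {x : D} (h : Good G₁ G₂ t K x) : Good G₁ G₂ t K (star x) := by
  intro y' y
  have := (Complex.continuous_conj.tendsto _).comp (h y y')
  rw [← G₂.herm] at this
  simp only [star_mul, star_star, ← mul_assoc] at this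
  refine this.congr fun N => ?_
  simp only [Function.comp, map_mul, ip_conj]
  rw [adjL, mul_one]
  simp

lemma Good.right (F : Fock ρ₁ t) {x : D} {j : ℕ} (hj : j < K) (h : Good G₁ G₂ t K x) :
    Good G₁ G₂ t K (x * Star.star (t j)) := by
  intro y' y
  have h1 := h y' (Star.star (t j) * y)
  have h2 : Tendsto (fun N : ℕ => ((N : ℂ) + 1)⁻¹ *
      ip G₁ G₂ (La 1 y' (ZZ t K N)) (La x (Star.star (t j) * y) (ze t K N))) atTop (𝓝 0) := by
    have h3 : Tendsto (fun N : ℕ => (√((N : ℝ) + 1))⁻¹ *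
        (‖G₂.ι y'‖ * (‖x‖ * ‖G₂.ι (Star.star (t j) * y)‖))) atTop (𝓝 (0 * _)) :=
      (tendsto_inv_atTop_zero.comp (Real.tendsto_sqrt_atTop.comp
        (tendsto_atTop_add_const_right _ 1 tendsto_natCast_atTop_atTop))).mul_const _
    rw [zero_mul] at h3
    refine squeeze_zero_norm (fun N => ?_) h3
    have e : ‖(N : ℂ) + 1‖ = (N : ℝ) + 1 := by
      exact_mod_cast Complex.norm_natCast (N + 1)
    have hp : 0 < √((N : ℝ) + 1) := Real.sqrt_pos.2 (by positivity)
    have e2 : (N : ℝ) + 1 = √((N : ℝ) + 1) * √((N : ℝ) + 1) :=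
      (Real.mul_self_sqrt (by positivity)).symm
    rw [norm_mul, norm_inv, e]
    have b1 := ip_le G₁ G₂ (La 1 y' (ZZ t K N)) (La x (Star.star (t j) * y) (ze t K N))
    have b2 := normL G₁ G₂ x (Star.star (t j) * y) (ze t K N)
    rw [ze_norm G₁ G₂ F] at b2
    rw [ZZ_norm G₁ G₂ F] at b1
    refine (mul_le_mul_of_nonneg_left (b1.trans (mul_le_mul_of_nonneg_left b2 (by positivity)))
      (by positivity)).trans (le_of_eq ?_)
    nth_rewrite 1 [e2]
    field_simp
  have h4 := h1.sub h2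
  rw [sub_zero, mul_assoc, ← mul_assoc x, ← mul_assoc] at h4
  refine h4.congr fun N => ?_
  rw [ZZ_shift F K j N hj, ip_addr, ip_subr, mul_add, mul_sub]
  have : ip G₁ G₂ (La 1 y' (ZZ t K N)) ((x * Star.star (t j)) ⊗ₜ y) = 0 := by
    rw [ip, null G₁ G₂ F, inner_zero_right]
  rw [this]; simp

lemma Good.left (F : Fock ρ₁ t) {x : D} {j : ℕ} (hj : j < K) (h : Good G₁ G₂ t K x) :
    Good G₁ G₂ t K (t j * x) := by
  simpa using (h.star.right F hj).star

end

def tw (t : ℕ → D) (l : List ℕ) : D := (l.map t).prod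

lemma good_dense (G₁ : GN ρ₁) (G₂ : GN ρ₂) {t : ℕ → D} (F : Fock ρ₁ t)
    (hg : (StarAlgebra.adjoin ℂ (Set.range t)).topologicalClosure = ⊤) :
    Dense {x | ∀ᶠ K in atTop, Good G₁ G₂ t K x} := by
  let M : Submodule ℂ D := Submodule.span ℂ {x | ∃ a b, tw t a * star (tw t b) = x}
  have hM : Dense (M : Set D) := by
    refine dense_of_mul _ hg M (Submodule.subset_span ⟨[], [], by simp [tw]⟩) ?_
    rintro _ ⟨j, rfl⟩ y hy
    induction hy using Submodule.span_induction with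
    | mem x hx =>
      obtain ⟨a, b, rfl⟩ := hx
      refine ⟨Submodule.subset_span ⟨j :: a, b, by simp [tw, mul_assoc]⟩, ?_⟩
      cases a with
      | nil => exact Submodule.subset_span ⟨[], b ++ [j], by simp [tw]⟩
      | cons i a =>
        have : star (t j) * (tw t (i :: a) * star (tw t b)) =
            (star (t j) * t i) * (tw t a * star (tw t b)) := by simp [tw, mul_assoc]
        rw [this, F.rel]
        split_ifs
        · rw [one_mul]; exact Submodule.subset_span ⟨a, b, rfl⟩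
        · rw [zero_mul]; exact M.zero_mem
    | zero => simp
    | add x y _ _ hx hy =>
      rw [mul_add, mul_add]; exact ⟨M.add_mem hx.1 hy.1, M.add_mem hx.2 hy.2⟩
    | smul c x _ hx =>
      rw [mul_smul_comm, mul_smul_comm]; exact ⟨M.smul_mem _ hx.1, M.smul_mem _ hx.2⟩
  refine hM.mono fun x hx => ?_
  have hl : ∀ (a : List ℕ) (x : D), (∀ᶠ K in atTop, Good G₁ G₂ t K x) →
      ∀ᶠ K in atTop, Good G₁ G₂ t K (tw t a * x) := by
    intro a x hx
    induction a with
    | nil => simpa [tw] using hx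
    | cons i a ih =>
      filter_upwards [ih, eventually_gt_atTop i] with K h1 h2
      simpa [tw, mul_assoc] using h1.left F h2
  induction hx using Submodule.span_induction with
  | mem x hx =>
    obtain ⟨a, b, rfl⟩ := hx
    refine hl a _ ?_
    filter_upwards [hl b 1 (Eventually.of_forall fun K => good_one F)] with K h
    simpa using h.star
  | zero => exact Eventually.of_forall fun K => by simpa using (good_one F).smul 0
  | add x y _ _ hx hy => filter_upwards [hx, hy] with K h1 h2 using h1.add h2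
  | smul c x _ hx => filter_upwards [hx] with K h1 using h1.smul c

theorem contra (h₁ : IsState ρ₁) (h₂ : IsState ρ₂) {t : ℕ → D} (F : Fock ρ₁ t)
    (hg : (StarAlgebra.adjoin ℂ (Set.range t)).topologicalClosure = ⊤)
    {u : Fin 9 → D} (S : Sym ρ₂ u) : False := by
  obtain ⟨G₁⟩ := gn ρ₁ h₁
  obtain ⟨G₂⟩ := gn ρ₂ h₂
  have hd := good_dense G₁ G₂ F hg
  choose x hx hx' using fun i => hd.exists_dist_lt (u i) (ε := 1 / 10) (by norm_num)
  obtain ⟨K, hK⟩ := (eventually_all.2 hx).exists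
  have hu : ∀ i, ‖G₂.ι (u i)‖ = 1 := by
    intro i
    have : ‖G₂.ι (u i)‖ ^ 2 = 1 := by
      rw [@norm_sq_eq_re_inner ℂ, G₂.ip, S.sa, S.sq, S.one]; simp
    exact (pow_eq_one_iff_of_nonneg (norm_nonneg _) two_ne_zero).1 this
  have hlim := tendsto_finset_sum Finset.univ fun i _ => hK i 1 (u i)
  have hb : ∀ N : ℕ, ‖∑ i, ((N : ℂ) + 1)⁻¹ *
      ip G₁ G₂ (La 1 1 (ZZ t K N)) (La (x i) (u i) (ZZ t K N))‖ ≤ 69 / 10 := by
    intro N
    have e : ‖(N : ℂ) + 1‖ = (N : ℝ) + 1 := by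
      exact_mod_cast Complex.norm_natCast (N + 1)
    have e2 : √((N : ℝ) + 1) * √((N : ℝ) + 1) = (N : ℝ) + 1 :=
      Real.mul_self_sqrt (by positivity)
    have hz : ‖J G₁ G₂ (ZZ t K N)‖ = √((N : ℝ) + 1) := by
      have := ZZ_norm G₁ G₂ F K N 1
      rwa [La_one, G₂.one, mul_one] at this
    rw [← Finset.mul_sum, norm_mul, norm_inv, e, La_one, inv_mul_le_iff₀ (by positivity)]
    have e3 : ∑ i, ip G₁ G₂ (ZZ t K N) (La (x i) (u i) (ZZ t K N)) =
        ip G₁ G₂ (ZZ t K N) (T u (ZZ t K N)) +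
          ∑ i, ip G₁ G₂ (ZZ t K N) (La (x i - u i) (u i) (ZZ t K N)) := by
      rw [T_apply, ip_sumr, ← Finset.sum_add_distrib]
      refine Finset.sum_congr rfl fun i _ => ?_
      rw [← ip_addr, ← La_add, add_sub_cancel]
    have b1 : ‖ip G₁ G₂ (ZZ t K N) (T u (ZZ t K N))‖ ≤ 6 * ((N : ℝ) + 1) := by
      refine (ip_le G₁ G₂ _ _).trans
        ((mul_le_mul_of_nonneg_left (T_le G₁ G₂ S _) (norm_nonneg _)).trans (le_of_eq ?_))
      rw [hz, mul_left_comm, e2]
    have b2 : ∀ i, ‖ip G₁ G₂ (ZZ t K N) (La (x i - u i) (u i) (ZZ t K N))‖ ≤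
        1 / 10 * ((N : ℝ) + 1) := by
      intro i
      refine (ip_le G₁ G₂ _ _).trans
        ((mul_le_mul_of_nonneg_left (normL G₁ G₂ _ _ _) (norm_nonneg _)).trans ?_)
      rw [hz, ZZ_norm G₁ G₂ F, hu, mul_one, mul_left_comm, e2]
      have := hx' i
      rw [dist_comm, dist_eq_norm] at this
      gcongr
    rw [e3]
    refine (norm_add_le _ _).trans ((add_le_add b1 ((norm_sum_le _ _).trans
      (Finset.sum_le_sum fun i _ => b2 i))).trans (le_of_eq ?_))
    simp; ring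
  have h1 := le_of_tendsto' hlim.norm hb
  have h2 : ∀ i, 9 / 10 ≤ (ρ₂ (star 1 * x i * u i)).re := by
    intro i
    have e : ρ₂ (star 1 * x i * u i) = 1 + ⟪G₂.ι 1, G₂.ι ((x i - u i) * u i)⟫_ℂ := by
      rw [← G₂.val, sub_mul, S.sq, map_sub, S.one]; simp
    have b : ‖⟪G₂.ι 1, G₂.ι ((x i - u i) * u i)⟫_ℂ‖ ≤ 1 / 10 := by
      refine (norm_inner_le_norm _ _).trans ?_
      rw [G₂.one, one_mul]
      refine (G₂.mul_le _ _).trans ?_
      have := hx' i
      rw [dist_comm, dist_eq_norm] at this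
      rw [hu, mul_one]; exact this.le
    have := (abs_le.1 ((Complex.abs_re_le_norm _).trans b)).1
    rw [e, Complex.add_re, Complex.one_re]; linarith
  have h3 := (Complex.re_le_norm _).trans h1
  rw [Complex.re_sum] at h3
  have h4 := (Finset.sum_le_sum fun i (_ : i ∈ Finset.univ) => h2 i).trans h3
  simp at h4
  norm_num at h4

theorem main :
    ∀ (A : Type) [CStarAlgebra A] [Nontrivial A] (s : ℕ → A), CuntzGen s →
      ∃ ω₁ ω₂ : A →ₗ[ℂ] ℂ, IsState ω₁ ∧ IsState ω₂ ∧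
        ∀ (D₁ D₂ : Type) [CStarAlgebra D₁] [CStarAlgebra D₂]
          (ρ₁ : D₁ →ₗ[ℂ] ℂ) (ρ₂ : D₂ →ₗ[ℂ] ℂ) (π₁ : ℕ → A →⋆ₐ[ℂ] D₁) (π₂ : ℕ → A →⋆ₐ[ℂ] D₂),
          FreePow ω₁ ρ₁ π₁ → FreePow ω₂ ρ₂ π₂ → IsEmpty (D₁ ≃⋆ₐ[ℂ] D₂) := by
  intro A _ _ s hs
  obtain ⟨ω, hω, hv⟩ := vacuum s hs
  let c : ℕ → A →ₗ[ℂ] A := fun i => LinearMap.mulLeft ℂ (star (s i)) ∘ₗ LinearMap.mulRight ℂ (s i)
  let ω₂ : A →ₗ[ℂ] ℂ := (1 / 2 : ℂ) • (ω ∘ₗ c 0 + ω ∘ₗ c 1)
  have e : ∀ a, ω₂ a = (1 / 2 : ℂ) * (ω (star (s 0) * (a * s 0)) + ω (star (s 1) * (a * s 1))) :=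
    fun a => rfl
  have r00 : star (s 0) * s 0 = 1 := by rw [hs.1]; simp
  have r11 : star (s 1) * s 1 = 1 := by rw [hs.1]; simp
  have r01 : star (s 0) * s 1 = 0 := by rw [hs.1]; simp
  have r10 : star (s 1) * s 0 = 0 := by rw [hs.1]; simp
  have r00' : ∀ a, star (s 0) * (s 0 * a) = a := fun a => by rw [← mul_assoc, r00, one_mul]
  have r10' : ∀ a, star (s 1) * (s 0 * a) = 0 := fun a => by rw [← mul_assoc, r10, zero_mul]
  refine ⟨ω, ω₂, hω, ⟨?_, fun x => ?_⟩, ?_⟩
  · rw [e, one_mul, one_mul, r00, r11, hω.1]; norm_num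
  · have h0 := hω.2 (x * s 0)
    have h1 := hω.2 (x * s 1)
    simp only [star_mul, mul_assoc] at h0 h1
    rw [e]
    simp only [mul_assoc, Complex.mul_re, Complex.mul_im, Complex.add_re, Complex.add_im, h0.2, h1.2]
    norm_num
    linarith [h0.1, h1.1]
  intro D₁ D₂ _ _ ρ₁ ρ₂ π₁ π₂ P₁ P₂
  refine ⟨fun θ => ?_⟩
  obtain ⟨G⟩ := gn ρ₁ P₁.state
  let v : A := (2 : ℂ) • (s 0 * star (s 0)) - 1
  have hv0 : ω₂ v = 0 := by
    rw [e]
    simp only [v, sub_mul, mul_sub, smul_mul_assoc, mul_smul_comm, mul_assoc, one_mul, r00, r11, r01,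
      r00', r10', mul_one, mul_zero, map_sub, map_smul, hω.1, r10, map_zero]
    norm_num
  have hvc : ∀ a, ω₂ (v * a) = ω₂ (a * v) := by
    intro a
    rw [e, e]
    simp only [v, sub_mul, mul_sub, smul_mul_assoc, mul_smul_comm, mul_assoc, one_mul, r00, r11, r01,
      r00', r10', mul_one, mul_zero]
  have hvs : star v = v := by simp [v]
  have hvq : v * v = 1 := by
    simp only [v, sub_mul, mul_sub, smul_mul_assoc, mul_smul_comm, mul_assoc, one_mul, r00', mul_one]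
    module
  have S : Sym ρ₂ (fun i : Fin 9 => π₂ i v) := by
    refine ⟨fun i => by rw [← map_star, hvs], fun i => by rw [← map_mul, hvq, map_one],
      fun i a => P₂.central v hvc hv0 i a, fun l hl hc => ?_, P₂.state.1⟩
    have := P₂.zero (l := l.map fun i : Fin 9 => (i.val, v)) ⟨?_, ?_⟩ (by simpa using hl)
    · simpa [wp, U, List.map_map, Function.comp_def] using this
    · rw [List.isChain_map]
      exact hc.imp fun _ _ h h' => h (Fin.ext h')
    · intro x hx
      obtain ⟨i, -, rfl⟩ := List.mem_map.1 hx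
      exact hv0
  let t : ℕ → D₁ := fun k => π₁ (Nat.unpair k).1 (s (Nat.unpair k).2)
  have hvac : ∀ i x, ρ₁ (t i * x) = 0 := by
    intro i x
    have : G.ι (star (t i)) = 0 := G.zero_of _ (by
      simp only [t]
      rw [star_star, ← map_star, ← map_mul, P₁.res, hv])
    rw [← star_star (t i), ← G.ip, this, inner_zero_left]
  have hrel : ∀ i j, star (t i) * t j = if i = j then 1 else 0 := by
    intro i j
    by_cases h : (Nat.unpair i).1 = (Nat.unpair j).1
    · simp only [t]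
      rw [h, ← map_star, ← map_mul, hs.1]
      by_cases h2 : i = j
      · simp [h2]
      · rw [if_neg h2, if_neg, map_zero]
        intro h3
        exact h2 (Nat.pairEquiv.symm.injective (Prod.ext h h3))
    · rw [if_neg (by rintro rfl; exact h rfl)]
      exact P₁.orth _ _ (hv _ _) (hv _) h
  let ρ : D₂ →ₗ[ℂ] ℂ := ρ₁ ∘ₗ (θ.symm : D₂ →ₗ[ℂ] D₁)
  have hρ : ∀ x, ρ x = ρ₁ (θ.symm x) := fun x => rfl
  refine contra (ρ₁ := ρ) (t := fun k => θ (t k)) ⟨?_, fun x => ?_⟩ P₂.state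
    ⟨fun i j => ?_, fun i x => ?_, ?_⟩ ?_ S
  · rw [hρ, map_one, P₁.state.1]
  · rw [hρ, map_mul, map_star]; exact P₁.state.2 _
  · rw [← map_star, ← map_mul, hrel]; split_ifs <;> simp
  · rw [hρ, map_mul, StarAlgEquiv.symm_apply_apply, hvac]
  · rw [hρ, map_one, P₁.state.1]
  · set K := (StarAlgebra.adjoin ℂ (Set.range fun k => θ (t k))).topologicalClosure
    have hc : IsClosed (K : Set D₂) := StarSubalgebra.isClosed_topologicalClosure _
    have h2 : StarAlgebra.adjoin ℂ (Set.range t) ≤ K.comap (θ : D₁ →⋆ₐ[ℂ] D₂) := by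
      refine StarAlgebra.adjoin_le ?_
      rintro _ ⟨i, rfl⟩
      exact StarSubalgebra.le_topologicalClosure _ (StarAlgebra.subset_adjoin ℂ _ ⟨i, rfl⟩)
    have h3 := StarSubalgebra.topologicalClosure_minimal h2
      (hc.preimage (StarAlgEquiv.isometry θ).continuous)
    rw [P₁.gen' s hs] at h3
    refine top_le_iff.1 fun y _ => ?_
    have := h3 (StarSubalgebra.mem_top (x := θ.symm y))
    simpa using this

end H91FP
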