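import Pool.Agent.H91.FP3

set_option autoImplicit false

open Filter Topology
open scoped InnerProductSpace TensorProduct

namespace H91FQ
open H91FP (IsState GN gn dense_of_mul CuntzGen FreePow)

/-- `(D, ρ)` with the maps `π n` is the reduced free product of the family `(A, ω n)`
(injectivity of the `π n` is added in `FreeFam`). -/
structure Fam {ι A D : Type} [CStarAlgebra A] [CStarAlgebra D] (ω : ι → A →ₗ[ℂ] ℂ)
    (ρ : D →ₗ[ℂ] ℂ) (π : ι → A →⋆ₐ[ℂ] D) : Prop where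
  state : IsState ρ
  res : ∀ n a, ρ (π n a) = ω n a
  free : ∀ l : List (ι × A), l ≠ [] → l.IsChain (fun x y => x.1 ≠ y.1) →
    (∀ x ∈ l, ω x.1 x.2 = 0) → ρ (l.map fun x => π x.1 x.2).prod = 0
  gen : (StarAlgebra.adjoin ℂ (⋃ n, Set.range (π n))).topologicalClosure = ⊤
  faithful : ∀ x : D, (∀ y : D, ρ (star (x * y) * (x * y)) = 0) → x = 0

/-- Reduced free product of countably many copies of `A` with states `ω n`. -/
structure FreeFam {A D : Type} [CStarAlgebra A] [CStarAlgebra D] (ω : ℕ → A →ₗ[ℂ] ℂ)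
    (ρ : D →ₗ[ℂ] ℂ) (π : ℕ → A →⋆ₐ[ℂ] D) : Prop extends Fam ω ρ π where
  inj : ∀ n, Function.Injective (π n)

/-- `(E, τ)` with the embeddings `i`, `j` is the reduced free product of `(A, ω)` and `(C, σ)`. -/
structure FreeProd {A C E : Type} [CStarAlgebra A] [CStarAlgebra C] [CStarAlgebra E]
    (ω : A → ℂ) (σ : C → ℂ) (τ : E →ₗ[ℂ] ℂ) (i : A →⋆ₐ[ℂ] E) (j : C →⋆ₐ[ℂ] E) : Prop where
  state : IsState τ
  injl : Function.Injective i
  injr : Function.Injective j
  resl : ∀ a, τ (i a) = ω a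
  resr : ∀ c, τ (j c) = σ c
  free : ∀ l : List (A ⊕ C), l ≠ [] → l.IsChain (fun x y => x.isLeft ≠ y.isLeft) →
    (∀ x ∈ l, Sum.elim ω σ x = 0) → τ (l.map (Sum.elim i j)).prod = 0
  gen : (StarAlgebra.adjoin ℂ (Set.range i ∪ Set.range j)).topologicalClosure = ⊤
  faithful : ∀ x : E, (∀ y : E, τ (star (x * y) * (x * y)) = 0) → x = 0

variable {ι A D : Type} [CStarAlgebra A] [CStarAlgebra D]

def Alt (ω : ι → A →ₗ[ℂ] ℂ) (l : List (ι × A)) : Prop :=
  l.IsChain (fun x y => x.1 ≠ y.1) ∧ ∀ x ∈ l, ω x.1 x.2 = 0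

def wp (π : ι → A →⋆ₐ[ℂ] D) (l : List (ι × A)) : D := (l.map fun x => π x.1 x.2).prod

@[simp] lemma wp_nil (π : ι → A →⋆ₐ[ℂ] D) : wp π [] = 1 := rfl
@[simp] lemma wp_cons (π : ι → A →⋆ₐ[ℂ] D) (x : ι × A) (l : List (ι × A)) :
    wp π (x :: l) = π x.1 x.2 * wp π l := by simp [wp]
lemma wp_append (π : ι → A →⋆ₐ[ℂ] D) (l l' : List (ι × A)) :
    wp π (l ++ l') = wp π l * wp π l' := by simp [wp]

def sr (l : List (ι × A)) : List (ι × A) := (l.map fun x => (x.1, star x.2)).reverse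

lemma wp_sr (π : ι → A →⋆ₐ[ℂ] D) (l : List (ι × A)) : wp π (sr l) = star (wp π l) := by
  induction l with
  | nil => simp [sr]
  | cons x l ih =>
    have : sr (x :: l) = sr l ++ [(x.1, star x.2)] := by simp [sr]
    rw [this, wp_append, ih]; simp [map_star]

variable {ω : ι → A →ₗ[ℂ] ℂ} {ρ : D →ₗ[ℂ] ℂ} {π : ι → A →⋆ₐ[ℂ] D}

lemma alt_sr (hω : ∀ n a, ω n a = 0 → ω n (star a) = 0) {l : List (ι × A)} (h : Alt ω l) :
    Alt ω (sr l) := by
  refine ⟨?_, ?_⟩
  · rw [sr, List.isChain_reverse, List.isChain_map]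
    exact h.1.imp fun _ _ h => h.symm
  · intro x hx
    simp only [sr, List.mem_reverse, List.mem_map] at hx
    obtain ⟨y, hy, rfl⟩ := hx
    exact hω _ _ (h.2 y hy)

lemma Alt.tail {x : ι × A} {l : List (ι × A)} (h : Alt ω (x :: l)) : Alt ω l :=
  ⟨h.1.tail, fun y hy => h.2 y (List.mem_cons_of_mem _ hy)⟩

lemma Alt.cons {l : List (ι × A)} (h : Alt ω l) (n : ι) (a : A) (ha : ω n a = 0)
    (hn : ∀ y ∈ l.head?, n ≠ y.1) : Alt ω ((n, a) :: l) :=
  ⟨List.isChain_cons.2 ⟨hn, h.1⟩, fun y hy => by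
    rcases List.mem_cons.1 hy with rfl | hy
    · exact ha
    · exact h.2 y hy⟩

lemma Alt.head {x : ι × A} {l : List (ι × A)} (h : Alt ω (x :: l)) :
    ∀ y ∈ l.head?, x.1 ≠ y.1 := (List.isChain_cons.1 h.1).1

lemma center (h1 : ∀ n, ω n 1 = 1) (n : ι) (a : A) (l : List (ι × A)) :
    π n a * wp π l = wp π ((n, a - ω n a • 1) :: l) + ω n a • wp π l ∧
      ω n (a - ω n a • 1) = 0 := by
  constructor
  · simp [sub_mul]
  · simp [h1]

/-- left multiplication of an alternating word by a letter -/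
lemma left_mul (h1 : ∀ n, ω n 1 = 1) (n : ι) (a : A) {l : List (ι × A)} (h : Alt ω l) :
    ∃ (l₁ l₂ : List (ι × A)) (c : ℂ), Alt ω l₁ ∧ Alt ω l₂ ∧ l₁ ≠ [] ∧
      l.length ≤ l₂.length + 1 ∧ π n a * wp π l = wp π l₁ + c • wp π l₂ := by
  by_cases hn : ∀ y ∈ l.head?, n ≠ y.1
  · obtain ⟨e1, e2⟩ := center (π := π) h1 n a l
    exact ⟨_, l, _, h.cons n _ e2 hn, h, by simp, by simp, e1⟩
  · push Not at hn
    obtain ⟨y, hy, rfl⟩ := hn
    cases l with
    | nil => simp at hy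
    | cons x l =>
      obtain rfl : x = y := by simpa using hy
      obtain ⟨e1, e2⟩ := center (π := π) h1 x.1 (a * x.2) l
      refine ⟨_, l, ω x.1 (a * x.2), h.tail.cons x.1 _ e2 h.head, h.tail, by simp, by simp, ?_⟩
      rw [← e1]; simp [mul_assoc]

namespace Fam
variable (P : Fam ω ρ π)
include P

lemma one (n : ι) : ω n 1 = 1 := by rw [← P.res n, map_one, P.state.1]

lemma zero {l : List (ι × A)} (h : Alt ω l) (hl : l ≠ []) : ρ (wp π l) = 0 :=
  P.free l hl h.1 h.2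

lemma herm (n : ι) (a : A) (h : ω n a = 0) : ω n (star a) = 0 := by
  obtain ⟨G⟩ := gn ρ P.state
  rw [← P.res n, map_star, G.herm, P.res, h, map_zero]

lemma dense : Dense (Submodule.span ℂ {x | ∃ l, Alt ω l ∧ wp π l = x} : Set D) := by
  refine dense_of_mul _ P.gen _ (Submodule.subset_span ⟨[], ⟨by simp, by simp⟩, rfl⟩) ?_
  have key : ∀ n a, ∀ y ∈ Submodule.span ℂ {x | ∃ l, Alt ω l ∧ wp π l = x},
      π n a * y ∈ Submodule.span ℂ {x | ∃ l, Alt ω l ∧ wp π l = x} := by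
    intro n a y hy
    induction hy using Submodule.span_induction with
    | mem x hx =>
      obtain ⟨l, hl, rfl⟩ := hx
      obtain ⟨l₁, l₂, c, h1, h2, -, -, e⟩ := left_mul (π := π) P.one n a hl
      rw [e]
      exact Submodule.add_mem _ (Submodule.subset_span ⟨_, h1, rfl⟩)
        (Submodule.smul_mem _ _ (Submodule.subset_span ⟨_, h2, rfl⟩))
    | zero => simp
    | add x y _ _ hx hy => rw [mul_add]; exact Submodule.add_mem _ hx hy
    | smul c x _ hx => rw [mul_smul_comm]; exact Submodule.smul_mem _ _ hx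
  intro g hg y hy
  obtain ⟨n, a, rfl⟩ := Set.mem_iUnion.1 hg
  rw [← map_star]
  exact ⟨key _ _ _ hy, key _ _ _ hy⟩

lemma ext {E : Type} [NormedAddCommGroup E] [NormedSpace ℂ E] (f : D →ₗ[ℂ] E)
    (hf : Continuous f) (h : ∀ l, Alt ω l → f (wp π l) = 0) (x : D) : f x = 0 := by
  have h1 : (Submodule.span ℂ {x | ∃ l, Alt ω l ∧ wp π l = x}) ≤ LinearMap.ker f := by
    rw [Submodule.span_le]
    rintro _ ⟨l, hl, rfl⟩
    exact h l hl
  have h2 : IsClosed {x | f x = 0} := isClosed_eq hf continuous_const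
  have h3 : Dense {x | f x = 0} := P.dense.mono h1
  have := h3.closure_eq
  rw [h2.closure_eq] at this
  exact (this ▸ Set.mem_univ x : x ∈ {x | f x = 0})

lemma left2 (n : ι) (a : A) {l : List (ι × A)} (h : Alt ω l) (h2 : 2 ≤ l.length) :
    ρ (π n a * wp π l) = 0 := by
  obtain ⟨l₁, l₂, c, h1, h3, h4, h5, e⟩ := left_mul (π := π) P.one n a h
  have : l₂ ≠ [] := by rintro rfl; simp at h5; omega
  rw [e, map_add, map_smul, P.zero h1 h4, P.zero h3 this]; simp

lemma central (n : ι) (v : A) (hv : ∀ a, ω n (v * a) = ω n (a * v)) (h0 : ω n v = 0) (x : D) :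
    ρ (π n v * x) = ρ (x * π n v) := by
  obtain ⟨G⟩ := gn ρ P.state
  have hc := G.cont
  refine sub_eq_zero.1 (P.ext (ρ ∘ₗ LinearMap.mulLeft ℂ (π n v) - ρ ∘ₗ LinearMap.mulRight ℂ (π n v))
    ?_ ?_ x)
  · change Continuous fun x => ρ (π n v * x) - ρ (x * π n v)
    fun_prop
  · intro l hl
    change ρ (π n v * wp π l) - ρ (wp π l * π n v) = 0
    rw [sub_eq_zero]
    match l, hl with
    | [], _ => simp
    | [x], hl =>
      by_cases hn : n = x.1
      · subst hn
        simp only [wp_cons, wp_nil, mul_one, ← map_mul, P.res, hv]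
      · have hx : ω x.1 x.2 = 0 := hl.2 x (by simp)
        have e1 := P.zero (l := [(n, v), x]) (hl.cons n v h0 (by simpa using hn)) (by simp)
        have e2 := P.zero (l := [x, (n, v)])
          (Alt.cons (l := [(n, v)]) ⟨by simp, by simpa using h0⟩ x.1 x.2 hx
            (by simpa using Ne.symm hn)) (by simp)
        simp only [wp_cons, wp_nil, mul_one] at e1 e2 ⊢
        rw [e1, e2]
    | x :: y :: l, hl =>
      rw [P.left2 n v hl (by simp)]
      have e := P.left2 n (star v) (alt_sr P.herm hl) (by simp [sr])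
      rw [wp_sr, map_star, ← star_mul, G.herm] at e
      exact ((map_eq_zero _).1 e).symm

lemma central' (n : ι) (v : A) (hv : ∀ a, ω n (v * a) = ω n (a * v)) (x : D) :
    ρ (π n v * x) = ρ (x * π n v) := by
  have := P.central n (v - ω n v • 1) (fun a => by simp [sub_mul, mul_sub, hv]) (by simp [P.one]) x
  simpa [sub_mul, mul_sub] using this

lemma tracial (h : ∀ n a b, ω n (a * b) = ω n (b * a)) (x y : D) : ρ (x * y) = ρ (y * x) := by
  obtain ⟨G⟩ := gn ρ P.state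
  have hc := G.cont
  let M : Submodule ℂ D :=
    { carrier := {x | ∀ y, ρ (x * y) = ρ (y * x)}
      add_mem' := fun {a b} ha hb y => by rw [add_mul, mul_add, map_add, map_add, ha y, hb y]
      zero_mem' := fun y => by simp
      smul_mem' := fun c a ha y => by rw [smul_mul_assoc, mul_smul_comm, map_smul, map_smul, ha y] }
  have key : ∀ n a, ∀ z ∈ M, π n a * z ∈ M := fun n a z hz y => by
    rw [mul_assoc, P.central' n a (h n a), mul_assoc, hz, mul_assoc]
  have hd : Dense (M : Set D) := dense_of_mul _ P.gen M (fun y => by simp) (by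
    intro g hg y hy
    obtain ⟨n, a, rfl⟩ := Set.mem_iUnion.1 hg
    rw [← map_star]
    exact ⟨key _ _ _ hy, key _ _ _ hy⟩)
  have hcl : IsClosed {x : D | ρ (x * y) = ρ (y * x)} := isClosed_eq (by fun_prop) (by fun_prop)
  exact closure_minimal (fun z (hz : z ∈ M) => hz y) hcl (hd x)

end Fam

lemma FreeProd.fam {C E : Type} [CStarAlgebra C] [CStarAlgebra E] {ω : A →ₗ[ℂ] ℂ} {σ : C →ₗ[ℂ] ℂ}
    {τ : E →ₗ[ℂ] ℂ} {i : A →⋆ₐ[ℂ] E} {j : C →⋆ₐ[ℂ] E} (P : FreeProd ω σ τ i j) :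
    Fam (fun b : Bool => bif b then ω ∘ₗ LinearMap.fst ℂ A C else σ ∘ₗ LinearMap.snd ℂ A C) τ
      (fun b : Bool => bif b then i.comp (StarAlgHom.fst ℂ A C)
        else j.comp (StarAlgHom.snd ℂ A C)) := by
  refine ⟨P.state, ?_, fun l hl hc h0 => ?_, ?_, P.faithful⟩
  · rintro (_ | _) a
    · exact P.resr _
    · exact P.resl _
  · let f : Bool × (A × C) → A ⊕ C := fun x => bif x.1 then Sum.inl x.2.1 else Sum.inr x.2.2
    have := P.free (l.map f) (by simpa using hl) ?_ ?_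
    · rw [List.map_map] at this
      rw [← this]
      congr 2
      refine List.map_congr_left ?_
      rintro ⟨_ | _, a⟩ _ <;> rfl
    · rw [List.isChain_map]
      refine hc.imp ?_
      rintro ⟨_ | _, a⟩ ⟨_ | _, b⟩ h <;> simp_all [f]
    · intro x hx
      obtain ⟨y, hy, rfl⟩ := List.mem_map.1 hx
      have := h0 y hy
      rcases y with ⟨_ | _, a⟩ <;> exact this
  · rw [← P.gen]
    congr 2
    ext x
    simp only [Set.mem_iUnion, Set.mem_union, Set.mem_range]
    constructor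
    · rintro ⟨_ | _, a, rfl⟩
      · exact Or.inr ⟨_, rfl⟩
      · exact Or.inl ⟨_, rfl⟩
    · rintro (⟨a, rfl⟩ | ⟨c, rfl⟩)
      · exact ⟨true, (a, 0), rfl⟩
      · exact ⟨false, (0, c), rfl⟩

end H91FQ
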