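import Pool.Agent.H91.FP4

set_option autoImplicit false

open Filter Topology
open scoped InnerProductSpace TensorProduct

namespace H91FQ
open H91FP

variable {D : Type} [CStarAlgebra D]

/-- free symmetries in a tracial algebra with faithful GNS representation exclude
characters -/
lemma no_char {τ χ : D →ₗ[ℂ] ℂ} (hτ : IsState τ) (hχ : IsState χ)
    (hm : ∀ x y, χ (x * y) = χ x * χ y) (tr : ∀ x y, τ (x * y) = τ (y * x))
    (hf : ∀ x : D, (∀ y : D, τ (star (x * y) * (x * y)) = 0) → x = 0)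
    {u : Fin 9 → D} (S : Sym τ u) (c : ℂ) (hc : ∀ i, χ (u i) = c) : False := by
  letI := CStarAlgebra.spectralOrder D
  haveI := CStarAlgebra.spectralOrderedRing D
  obtain ⟨G₁⟩ := gn χ hχ
  obtain ⟨G₂⟩ := gn τ hτ
  have hcc : c * c = 1 := by rw [← hc 0, ← hm, S.sq, hχ.1]
  have hc1 : ‖c‖ = 1 := by
    have := congrArg norm hcc
    rw [norm_mul, norm_one] at this
    nlinarith [norm_nonneg c]
  have h1 : ∀ i, G₁.ι (u i) = c • G₁.ι 1 := by
    intro i
    rw [← map_smul, ← sub_eq_zero, ← map_sub]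
    refine G₁.zero_of _ ?_
    rw [hm, map_sub χ (u i), map_smul, hc, hχ.1]; simp
  set h : D := ∑ i, u i with hh
  have hs : star h = h := by simp [hh, star_sum, S.sa]
  have h2 : ∀ b, ‖G₂.ι (b * h)‖ ≤ 6 * ‖G₂.ι b‖ := by
    intro b
    have := T_le G₁ G₂ S (1 ⊗ₜ b)
    have e : J G₁ G₂ (T u (1 ⊗ₜ b)) = (c • G₁.ι 1) ⊗ₜ G₂.ι (b * h) := by
      rw [T_apply, map_sum, hh, Finset.mul_sum, map_sum, TensorProduct.tmul_sum]
      simp [h1]
    rwa [e, J_tmul, TensorProduct.norm_tmul, TensorProduct.norm_tmul, norm_smul, hc1, G₁.one,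
      one_mul, one_mul, one_mul] at this
  set y : D := (36 : ℂ) • (1 : D) - h * h with hy
  have hys : IsSelfAdjoint y := by
    rw [IsSelfAdjoint, hy]; simp [hs]
  have h3 : ∀ b, 0 ≤ (τ (star b * b * y)).re := by
    intro b
    have e1 : ‖G₂.ι (b * h)‖ ^ 2 = (τ (star b * b * (h * h))).re := by
      rw [@norm_sq_eq_re_inner ℂ, G₂.ip, star_mul, hs, mul_assoc, tr]
      simp [mul_assoc]
    have e2 : ‖G₂.ι b‖ ^ 2 = (τ (star b * b)).re := by
      rw [@norm_sq_eq_re_inner ℂ, G₂.ip]; simp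
    have := pow_le_pow_left₀ (norm_nonneg _) (h2 b) 2
    rw [mul_pow, e1, e2] at this
    rw [hy, mul_sub, mul_smul_comm, mul_one, map_sub, map_smul]
    simp only [smul_eq_mul, Complex.sub_re, Complex.mul_re]
    norm_num at this ⊢
    linarith
  have hn : 0 ≤ y⁻ := CFC.negPart_nonneg y
  have hns : star y⁻ = y⁻ := (IsSelfAdjoint.of_nonneg hn).star_eq
  have h4 : 0 ≤ y⁻ * y⁻ * y⁻ := by
    have := star_left_conjugate_nonneg hn y⁻
    rwa [hns] at this
  obtain ⟨w, hw⟩ := CStarAlgebra.nonneg_iff_eq_star_mul_self.1 h4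
  have h5 : τ (star w * w) = 0 := by
    have a1 := h3 y⁻
    have : star y⁻ * y⁻ * y = -(star w * w) := by
      rw [← hw, hns]
      nth_rewrite 3 [← CFC.posPart_sub_negPart y hys]
      rw [mul_sub, mul_assoc y⁻ y⁻ y⁺, CFC.negPart_mul_posPart]; simp
    rw [this, map_neg, Complex.neg_re] at a1
    exact Complex.ext (le_antisymm (by simpa using a1) (hτ.2 w).1) (hτ.2 w).2
  have h6 : w = 0 := by
    refine hf w fun z => ?_
    have a1 : G₂.ι (star w) = 0 := G₂.zero_of _ (by rw [star_star, tr, h5])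
    have a2 : G₂.ι (star z * star w) = 0 := by rw [← G₂.act, a1, map_zero]
    have a3 := G₂.ip (star z * star w) (star z * star w)
    rw [a2, inner_zero_left] at a3
    rw [tr, star_mul]
    simpa using a3.symm
  have h7 : χ y⁻ = 0 := by
    have : χ y⁻ * χ y⁻ * χ y⁻ = 0 := by rw [← hm, ← hm, hw, h6]; simp
    simpa using this
  obtain ⟨z, hz⟩ := CStarAlgebra.nonneg_iff_eq_star_mul_self.1 (CFC.posPart_nonneg y)
  have h8 : 0 ≤ (χ y).re := by
    rw [← CFC.posPart_sub_negPart y hys, map_sub, h7, sub_zero, hz]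
    exact (hχ.2 z).1
  have h9 : χ h = 9 * c := by rw [hh, map_sum]; simp [hc]
  rw [hy, map_sub, map_smul, hm, h9, hχ.1, show 9 * c * (9 * c) = 81 * (c * c) by ring, hcc] at h8
  norm_num at h8

lemma almost {τ : D →ₗ[ℂ] ℂ} (G : GN τ) (hτ : IsState τ) (tr : ∀ x y, τ (x * y) = τ (y * x))
    (q : ℕ → D) (qs : ∀ k, star (q k) = q k) (qq : ∀ k, q k * q k = q k) (N : ℕ)
    (hs : ∑ k ∈ Finset.range N, (τ (q k)).re ≤ 3 / 4) (η : ℝ) (hη : 0 < η) :
    ∃ g : D, ‖G.ι g‖ = 1 ∧ ∀ k < N, ‖G.ι (q k * g)‖ ≤ η := by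
  letI := CStarAlgebra.spectralOrder D
  haveI := CStarAlgebra.spectralOrderedRing D
  set δ : ℝ := η ^ 2 / 4 with hδ
  have hδ0 : 0 < δ := by positivity
  set a : D := ∑ k ∈ Finset.range N, q k + (δ : ℂ) • (1 : D) with ha
  have has : star a = a := by simp [ha, star_sum, qs]
  have hu : IsUnit a := by
    refine CStarAlgebra.isUnit_of_le ((δ : ℂ) • (1 : D)) ?_ ?_
    · refine le_add_of_nonneg_left (Finset.sum_nonneg fun k _ => ?_)
      have := star_mul_self_nonneg (q k)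
      rwa [qs, qq] at this
    · rw [Complex.coe_smul]
      exact IsStrictlyPositive.smul hδ0 isStrictlyPositive_one
  obtain ⟨b, hb⟩ := hu
  set r : D := ↑b⁻¹ with hr
  have ar : a * r = 1 := by rw [← hb, hr]; simp
  have ra : r * a = 1 := by rw [← hb, hr]; simp
  have rs : star r = r := by
    have : star r * a = 1 := by rw [← has, ← star_mul, ar, star_one]
    rw [← mul_one (star r), ← ar, ← mul_assoc, this, one_mul]
  have nsq : ∀ y, ‖G.ι y‖ ^ 2 = (τ (star y * y)).re := fun y => by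
    rw [@norm_sq_eq_re_inner ℂ, G.ip]; simp
  have LE : ∀ k < N, ∀ y, ‖G.ι (q k * y)‖ ^ 2 ≤ (τ (star y * a * y)).re := by
    intro k hk y
    have e : (τ (star y * a * y)).re =
        ∑ j ∈ Finset.range N, ‖G.ι (q j * y)‖ ^ 2 + δ * ‖G.ι y‖ ^ 2 := by
      rw [ha, mul_add, add_mul, Finset.mul_sum, Finset.sum_mul, map_add, map_sum, Complex.add_re,
        Complex.re_sum, nsq]
      congr 1
      · refine Finset.sum_congr rfl fun j _ => ?_
        rw [nsq, star_mul, qs, mul_assoc, mul_assoc, ← mul_assoc (q j) (q j), qq]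
      · simp
    rw [e]
    exact (Finset.single_le_sum (f := fun j => ‖G.ι (q j * y)‖ ^ 2) (fun j _ => sq_nonneg _)
      (Finset.mem_range.2 hk)).trans (le_add_of_nonneg_right (by positivity))
  have hq : ∀ k < N, (τ (q k * r)).re ≤ (τ (q k)).re := by
    intro k hk
    have e0 : τ (q k * r) = τ (q k * (r * q k)) := by
      rw [← mul_assoc, tr (q k * r), ← mul_assoc, qq]
    have e1 := LE k hk (r * q k)
    rw [star_mul, qs, rs, mul_assoc (q k), ra, mul_one] at e1
    have e2 : (τ (q k * (r * q k))).re ≤ ‖G.ι (q k)‖ * ‖G.ι (q k * (r * q k))‖ := by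
      refine (Complex.re_le_norm _).trans (le_trans (le_of_eq ?_) (norm_inner_le_norm (𝕜 := ℂ) _ _))
      rw [G.ip, qs, ← mul_assoc (q k) (q k), qq]
    have e3 : ‖G.ι (q k)‖ ^ 2 = (τ (q k)).re := by rw [nsq, qs, qq]
    rw [e0, ← e3]
    nlinarith [sq_nonneg (‖G.ι (q k)‖ - ‖G.ι (q k * (r * q k))‖)]
  set g : D := (δ : ℂ) • r with hg
  have hg1 : 1 / 4 ≤ (τ g).re := by
    have e : g = 1 - ∑ k ∈ Finset.range N, q k * r := by
      rw [← ar, ha, add_mul, Finset.sum_mul, hg]; simp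
    rw [e, map_sub, hτ.1, map_sum, Complex.sub_re, Complex.re_sum, Complex.one_re]
    have := Finset.sum_le_sum fun k (hk : k ∈ Finset.range N) => hq k (Finset.mem_range.1 hk)
    linarith
  have hg2 : (τ g).re ≤ ‖G.ι g‖ := by
    refine (Complex.re_le_norm _).trans ?_
    rw [G.val]
    exact (norm_inner_le_norm _ _).trans (by rw [G.one, one_mul])
  have hz : 0 < ‖G.ι g‖ := by linarith
  refine ⟨((‖G.ι g‖⁻¹ : ℝ) : ℂ) • g, ?_, fun k hk => ?_⟩
  · rw [map_smul, norm_smul]; simp [hz.ne']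
  · rw [mul_smul_comm, map_smul, norm_smul, Complex.norm_real, Real.norm_of_nonneg (by positivity),
      inv_mul_le_iff₀ hz]
    have e1 := LE k hk g
    have e2 : star g * a * g = (δ : ℂ) • g := by
      rw [hg, star_smul, rs, smul_mul_assoc, ra]; simp
    rw [e2, map_smul, smul_eq_mul, Complex.re_ofReal_mul] at e1
    refine (pow_le_pow_iff_left₀ (norm_nonneg _) (by positivity) two_ne_zero).1 (e1.trans ?_)
    rw [mul_pow, hδ]
    have : (τ g).re ≤ 4 * ‖G.ι g‖ ^ 2 := by nlinarith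
    nlinarith [sq_nonneg η]

lemma exists_kill {τ : D →ₗ[ℂ] ℂ} (hτ : IsState τ) (tr : ∀ x y, τ (x * y) = τ (y * x))
    (q : ℕ → D) (qs : ∀ k, star (q k) = q k) (qq : ∀ k, q k * q k = q k)
    (hs : ∀ N, ∑ k ∈ Finset.range N, (τ (q k)).re ≤ 3 / 4) :
    ∃ χ : D →ₗ[ℂ] ℂ, IsState χ ∧ ∀ k x, χ (q k * x) = 0 := by
  obtain ⟨G⟩ := gn τ hτ
  haveI : Nontrivial D := ⟨⟨1, 0, fun h => by simpa [h] using hτ.1⟩⟩
  choose g hg hg' using fun n : ℕ => almost G hτ tr q qs qq n (hs n) (1 / ((n : ℝ) + 1))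
    (by positivity)
  let N : Submodule ℂ D := Submodule.span ℂ {y | ∃ i x, q i * x = y}
  have hN : ∀ y ∈ N, Tendsto (fun n => ⟪G.ι (g n), G.ι (y * g n)⟫_ℂ) atTop (𝓝 0) := by
    intro y hy
    induction hy using Submodule.span_induction with
    | mem y hy =>
      obtain ⟨i, x, rfl⟩ := hy
      have h0 := tendsto_one_div_add_atTop_nhds_zero_nat.mul_const ‖x‖
      rw [zero_mul] at h0
      refine squeeze_zero_norm' ?_ h0
      filter_upwards [eventually_gt_atTop i] with n hn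
      have e : ⟪G.ι (g n), G.ι (q i * x * g n)⟫_ℂ = ⟪G.ι (q i * g n), G.ι (x * g n)⟫_ℂ := by
        rw [G.ip, G.ip, star_mul, qs]; simp [mul_assoc]
      rw [e]
      refine (norm_inner_le_norm _ _).trans (mul_le_mul (hg' n i hn) ?_ (norm_nonneg _)
        (by positivity))
      simpa [hg] using G.mul_le x (g n)
    | zero => simp
    | add x y _ _ hx hy => simpa [add_mul, inner_add_right] using hx.add hy
    | smul c x _ hx => simpa [inner_smul_right] using hx.const_mul c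
  have h1 : ‖(Submodule.Quotient.mk 1 : D ⧸ N)‖ = 1 := by
    refine le_antisymm ((Submodule.Quotient.norm_mk_le N 1).trans norm_one.le) ?_
    refine le_of_forall_pos_lt_add fun ε hε => ?_
    obtain ⟨m, hm, h2⟩ := Submodule.Quotient.norm_mk_lt (Submodule.Quotient.mk 1 : D ⧸ N) hε
    refine lt_of_le_of_lt ?_ h2
    have h3 := ((hN _ ((Submodule.Quotient.eq N).1 hm)).add_const 1).norm
    rw [zero_add, norm_one] at h3
    refine le_of_tendsto' h3 fun n => ?_
    have e : ⟪G.ι (g n), G.ι ((m - 1) * g n)⟫_ℂ + 1 = ⟪G.ι (g n), G.ι (m * g n)⟫_ℂ := by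
      rw [sub_mul, one_mul, map_sub, inner_sub_right, inner_self_eq_norm_sq_to_K, hg]; simp
    rw [e]
    refine (norm_inner_le_norm _ _).trans ?_
    simpa [hg] using G.mul_le m (g n)
  obtain ⟨f, hf, hf1⟩ := exists_dual_vector'' ℂ (Submodule.Quotient.mk 1 : D ⧸ N)
  have hb : ∀ a, ‖(f.toLinearMap ∘ₗ N.mkQ) a‖ ≤ 1 * ‖a‖ := fun a =>
    (f.le_opNorm _).trans (mul_le_mul hf (Submodule.Quotient.norm_mk_le N a) (norm_nonneg _)
      zero_le_one)
  refine ⟨_, state_of_norm ((f.toLinearMap ∘ₗ N.mkQ).mkContinuous 1 hb)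
    (fun a => by simpa using hb a) (by simpa [h1] using hf1), fun i x => ?_⟩
  change f (Submodule.Quotient.mk (q i * x)) = 0
  rw [(Submodule.Quotient.mk_eq_zero N).2 (Submodule.subset_span ⟨i, x, rfl⟩), map_zero]

noncomputable def eps (k : ℕ) : ℝ := if k = 0 then 1 / 2 else (1 / 2) ^ (k + 2)

noncomputable def sg (k : ℕ) : ℂ × ℂ →ₗ[ℂ] ℂ :=
  ((1 - eps k : ℝ) : ℂ) • LinearMap.fst ℂ ℂ ℂ + ((eps k : ℝ) : ℂ) • LinearMap.snd ℂ ℂ ℂ

lemma sg_apply (k : ℕ) (x : ℂ × ℂ) : sg k x = ((1 - eps k : ℝ) : ℂ) * x.1 + (eps k : ℝ) * x.2 := rfl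

lemma eps_pos (k : ℕ) : 0 < eps k ∧ eps k < 1 := by
  unfold eps
  split_ifs
  · norm_num
  · exact ⟨by positivity, pow_lt_one₀ (by norm_num) (by norm_num) (by omega)⟩

lemma eps_sum (N : ℕ) : ∑ k ∈ Finset.range N, eps k ≤ 3 / 4 := by
  have : ∀ N : ℕ, ∑ k ∈ Finset.range (N + 1), eps k = 3 / 4 - (1 / 2) ^ (N + 2) := by
    intro N
    induction N with
    | zero => simp [eps]; norm_num
    | succ n ih => rw [Finset.sum_range_succ, ih, eps, if_neg (by omega)]; ring
  cases N with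
  | zero => norm_num
  | succ n => rw [this]; have : (0 : ℝ) < (1 / 2) ^ (n + 2) := by positivity
              linarith

lemma has_char {τ : D →ₗ[ℂ] ℂ} {π : ℕ → ℂ × ℂ →⋆ₐ[ℂ] D} (P : Fam sg τ π) :
    ∃ χ : D →ₗ[ℂ] ℂ, IsState χ ∧ ∀ x y, χ (x * y) = χ x * χ y := by
  have tr := P.tracial fun n a b => by rw [mul_comm]
  obtain ⟨χ, hχ, hk⟩ := exists_kill P.state tr (fun k => π k (0, 1))
    (fun k => by rw [← map_star]; congr 1; ext <;> simp) (fun k => by rw [← map_mul]; simp)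
    (fun N => by simpa [P.res, sg_apply] using eps_sum N)
  refine ⟨χ, hχ, fun x y => ?_⟩
  obtain ⟨G⟩ := gn χ hχ
  have hc := G.cont
  let M : Submodule ℂ D :=
    { carrier := {x | ∀ y, χ (x * y) = χ x * χ y}
      add_mem' := fun {a b} ha hb y => by rw [add_mul, map_add, map_add, ha y, hb y, add_mul]
      zero_mem' := fun y => by simp
      smul_mem' := fun c a ha y => by
        rw [smul_mul_assoc, map_smul, map_smul, ha y]; simp [mul_assoc] }
  have k0 : ∀ n (a : ℂ × ℂ) z, χ (π n a * z) = a.1 * χ z := by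
    intro n a z
    have : a = a.1 • (1 : ℂ × ℂ) + (a.2 - a.1) • ((0, 1) : ℂ × ℂ) := by ext <;> simp
    nth_rewrite 1 [this]
    rw [map_add, map_smul, map_smul, map_one, add_mul, smul_mul_assoc, smul_mul_assoc, map_add,
      map_smul, map_smul, hk, one_mul]
    simp
  have key : ∀ n a, ∀ z ∈ M, π n a * z ∈ M := fun n a z hz y => by
    rw [mul_assoc, k0, k0, hz, mul_assoc]
  have hd : Dense (M : Set D) := dense_of_mul _ P.gen M (fun y => by simp [hχ.1]) (by
    intro g hg y hy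
    obtain ⟨n, a, rfl⟩ := Set.mem_iUnion.1 hg
    rw [← map_star]
    exact ⟨key _ _ _ hy, key _ _ _ hy⟩)
  have hcl : IsClosed {x : D | χ (x * y) = χ x * χ y} := isClosed_eq (by fun_prop) (by fun_prop)
  exact closure_minimal (fun z (hz : z ∈ M) => hz y) hcl (hd x)

noncomputable def ee (n : ℤ) : C(unitInterval, ℂ) :=
  ⟨fun t => Complex.exp ((2 * Real.pi * Complex.I * n) * (t : ℝ)), by fun_prop⟩

lemma ee_mul (m n : ℤ) : ee m * ee n = ee (m + n) := by
  ext t; simp only [ee, ContinuousMap.mul_apply, ContinuousMap.coe_mk, ← Complex.exp_add]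
  congr 1; push_cast; ring

lemma ee_zero : ee 0 = 1 := by ext t; simp [ee]

lemma ee_star (n : ℤ) : star (ee n) = ee (-n) := by
  ext t
  simp [ee, ← Complex.exp_conj, map_ofNat]

lemma ee_int (n : ℤ) (hn : n ≠ 0) : ∫ t, ee n t = 0 := by
  have h := MeasureTheory.integral_subtype (measurableSet_Icc (a := (0 : ℝ)) (b := 1))
    (fun t : ℝ => Complex.exp ((2 * Real.pi * Complex.I * n) * (t : ℝ)))
  refine h.trans ?_
  have hc : (2 * Real.pi * Complex.I * n : ℂ) ≠ 0 := by
    simp [hn, Real.pi_ne_zero]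
  rw [MeasureTheory.integral_Icc_eq_integral_Ioc, ← intervalIntegral.integral_of_le zero_le_one,
    integral_exp_mul_complex hc]
  have := Complex.exp_int_mul_two_pi_mul_I n
  simp [mul_comm (2 * (Real.pi : ℂ) * Complex.I), this]

noncomputable def leb : C(unitInterval, ℂ) →ₗ[ℂ] ℂ where
  toFun f := ∫ t, f t
  map_add' f g := by
    have hi : ∀ f : C(unitInterval, ℂ), MeasureTheory.Integrable f := fun f =>
      f.continuous.integrable_of_hasCompactSupport (HasCompactSupport.of_compactSpace _)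
    exact MeasureTheory.integral_add (hi f) (hi g)
  map_smul' c f := MeasureTheory.integral_smul c f

theorem main :
    ∃ σ : ℕ → ℂ × ℂ →ₗ[ℂ] ℂ,
      (∀ k, H91FP.IsState (σ k) ∧ (∀ a b, σ k (a * b) = σ k (b * a)) ∧
        ∀ a, σ k (star a * a) = 0 → a = 0) ∧
      ∀ (A : Type) [CStarAlgebra A] (τ : A →ₗ[ℂ] ℂ) (π : ℕ → ℂ × ℂ →⋆ₐ[ℂ] A), FreeFam σ τ π →
        ∀ (B : Type) [CStarAlgebra B] (β : B →ₗ[ℂ] ℂ) (i : C(unitInterval, ℂ) →⋆ₐ[ℂ] B)
          (j : A →⋆ₐ[ℂ] B), FreeProd (fun f => ∫ t, f t) τ β i j → IsEmpty (A ≃⋆ₐ[ℂ] B) := by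
  have hre : ∀ k (a : ℂ × ℂ), sg k (star a * a) =
      (((1 - eps k) * Complex.normSq a.1 + eps k * Complex.normSq a.2 : ℝ) : ℂ) := by
    intro k a
    simp [sg_apply, Complex.normSq_eq_conj_mul_self]
  refine ⟨sg, fun k => ⟨⟨by simp [sg_apply], fun a => ?_⟩, fun a b => by rw [mul_comm],
    fun a ha => ?_⟩, ?_⟩
  · rw [hre, Complex.ofReal_re, Complex.ofReal_im]
    have := eps_pos k
    exact ⟨add_nonneg (mul_nonneg (by linarith) (Complex.normSq_nonneg _))
      (mul_nonneg this.1.le (Complex.normSq_nonneg _)), rfl⟩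
  · rw [hre, Complex.ofReal_eq_zero] at ha
    have := eps_pos k
    have h1 := mul_nonneg (sub_pos.2 this.2).le (Complex.normSq_nonneg a.1)
    have h2 := mul_nonneg this.1.le (Complex.normSq_nonneg a.2)
    have h3 : (1 - eps k) * Complex.normSq a.1 = 0 := by linarith
    have h4 : eps k * Complex.normSq a.2 = 0 := by linarith
    exact Prod.ext (Complex.normSq_eq_zero.1 ((mul_eq_zero.1 h3).resolve_left (by linarith)))
      (Complex.normSq_eq_zero.1 ((mul_eq_zero.1 h4).resolve_left this.1.ne'))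
  intro A _ τ π P B _ β i j Q
  refine ⟨fun θ => ?_⟩
  obtain ⟨χ, hχ, hm⟩ := has_char P.toFam
  have trA := P.toFam.tracial fun n a b => by rw [mul_comm]
  have trB : ∀ x y, β (x * y) = β (y * x) := (FreeProd.fam (ω := leb) Q).tracial (by
    rintro (_ | _) a b
    · exact trA _ _
    · change leb (a.1 * b.1) = leb (b.1 * a.1)
      rw [mul_comm])
  let χ' : B →ₗ[ℂ] ℂ := χ ∘ₗ (θ.symm : B →ₗ[ℂ] A)
  have hχ' : ∀ x, χ' x = χ (θ.symm x) := fun x => rfl
  have hm' : ∀ x y, χ' (x * y) = χ' x * χ' y := fun x y => by rw [hχ', map_mul, hm]; rfl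
  have h1' : χ' 1 = 1 := by rw [hχ', map_one, hχ.1]
  let v : A := π 0 (1, -1)
  have hv0 : τ v = 0 := by simp [v, P.res, sg_apply, eps]; norm_num
  have hvs : star v = v := by simp only [v]; rw [← map_star]; congr 1; ext <;> simp
  have hvq : v * v = 1 := by simp only [v]; rw [← map_mul, ← map_one (π 0)]; congr 1; simp
  let u : Fin 9 → B := fun k => i (ee (k.val + 1)) * (j v * i (ee (-(k.val + 1))))
  have im : ∀ m n z, i (ee m) * (i (ee n) * z) = i (ee (m + n)) * z := fun m n z => by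
    rw [← mul_assoc, ← map_mul, ee_mul]
  have words : ∀ s : List (Fin 9), s.IsChain (· ≠ ·) → ∀ n : ℤ,
      (∀ k ∈ s.head?, n + (k.val + 1) ≠ 0) → (s = [] → n ≠ 0) →
      ∃ f l, (Sum.inl f :: l : List (C(unitInterval, ℂ) ⊕ A)).IsChain
          (fun x y => x.isLeft ≠ y.isLeft) ∧
        (∀ x ∈ (Sum.inl f :: l : List (C(unitInterval, ℂ) ⊕ A)),
          Sum.elim (fun f => ∫ t, f t) τ x = 0) ∧
        ((Sum.inl f :: l : List (C(unitInterval, ℂ) ⊕ A)).map (Sum.elim i j)).prod =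
          i (ee n) * U u s := by
    intro s
    induction s with
    | nil =>
      intro _ n _ hn
      exact ⟨ee n, [], by simp, by simpa using ee_int n (hn rfl), by simp⟩
    | cons k s ih =>
      intro hc n hn _
      obtain ⟨f, l, h1, h2, h3⟩ := ih hc.tail (-(k.val + 1)) (fun k' hk' h =>
        (List.isChain_cons.1 hc).1 k' hk' (Fin.ext (by omega))) (fun _ => by omega)
      refine ⟨ee (n + (k.val + 1)), Sum.inr v :: Sum.inl f :: l, ?_, ?_, ?_⟩
      · exact List.isChain_cons_cons.2 ⟨by simp, List.isChain_cons_cons.2 ⟨by simp, h1⟩⟩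
      · intro x hx
        rcases List.mem_cons.1 hx with rfl | hx
        · exact ee_int _ (hn k (by simp))
        rcases List.mem_cons.1 hx with rfl | hx
        · exact hv0
        · exact h2 x hx
      · rw [List.map_cons, List.prod_cons, List.map_cons, List.prod_cons, h3, U_cons]
        simp only [u, Sum.elim_inl, Sum.elim_inr, mul_assoc, im]
  have S : Sym β u := by
    refine ⟨fun k => ?_, fun k => ?_, fun k a => trB _ _, fun s hs hc => ?_, Q.state.1⟩
    · simp only [u, star_mul, ← map_star, ee_star, hvs, neg_neg, mul_assoc]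
    · simp only [u, mul_assoc, im, neg_add_cancel, ee_zero, map_one, one_mul]
      rw [← mul_assoc (j v), ← map_mul j, hvq, map_one, one_mul, ← map_mul, ee_mul, add_neg_cancel,
        ee_zero, map_one]
    · obtain ⟨f, l, h1, h2, h3⟩ := words s hc 0 (fun k _ => by omega) (fun h => absurd h hs)
      rw [ee_zero, map_one, one_mul] at h3
      rw [← h3]
      exact Q.free _ (by simp) h1 h2
  refine no_char Q.state (χ := χ') ⟨h1', fun x => ?_⟩ hm' trB Q.faithful S (χ' (j v)) fun k => ?_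
  · rw [hχ', map_mul, map_star]; exact hχ.2 _
  · simp only [u]
    rw [hm', hm', mul_left_comm, ← hm' (i _), ← map_mul i, ee_mul, add_neg_cancel, ee_zero,
      map_one, h1', mul_one]

end H91FQ
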