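import Pool.Agent.H91.FP4

set_option autoImplicit false

open Filter Topology
open scoped InnerProductSpace TensorProduct

namespace H91FR
open H91FP H91FQ

variable {D : Type} [CStarAlgebra D]

lemma fock_center {ρ : D →ₗ[ℂ] ℂ} (h : IsState ρ) {t : ℕ → D} (F : Fock ρ t)
    (hg : (StarAlgebra.adjoin ℂ (Set.range t)).topologicalClosure = ⊤)
    (z : D) (hz : ∀ x, ρ (z * x) = ρ (x * z)) (h0 : ρ z = 0) (x : D) : ρ (z * x) = 0 := by
  obtain ⟨G⟩ := gn ρ h
  have hc := G.cont
  let M : Submodule ℂ D := Submodule.span ℂ {x | ∃ a b, tw t a * star (tw t b) = x}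
  have hM : Dense (M : Set D) := by
    refine dense_of_mul _ hg M (Submodule.subset_span ⟨[], [], by simp [tw]⟩) ?_
    rintro _ ⟨j, rfl⟩ y hy
    induction hy using Submodule.span_induction with
    | mem x hx =>
      obtain ⟨a, b, rfl⟩ := hx
      refine ⟨Submodule.subset_span ⟨j :: a, b, by simp [tw, mul_assoc]⟩, ?_⟩
      cases a with
      | nil => exact Submodule.subset_span ⟨[], b ++ [j], by simp [tw]⟩
      | cons i a =>
        have : star (t j) * (tw t (i :: a) * star (tw t b)) =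
            (star (t j) * t i) * (tw t a * star (tw t b)) := by simp [tw, mul_assoc]
        rw [this, F.rel]
        split_ifs
        · rw [one_mul]; exact Submodule.subset_span ⟨a, b, rfl⟩
        · rw [zero_mul]; exact M.zero_mem
    | zero => simp
    | add x y _ _ hx hy =>
      rw [mul_add, mul_add]; exact ⟨M.add_mem hx.1 hy.1, M.add_mem hx.2 hy.2⟩
    | smul c x _ hx =>
      rw [mul_smul_comm, mul_smul_comm]; exact ⟨M.smul_mem _ hx.1, M.smul_mem _ hx.2⟩
  have hle : M ≤ LinearMap.ker (ρ ∘ₗ LinearMap.mulLeft ℂ z) := by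
    refine Submodule.span_le.2 ?_
    rintro _ ⟨a, b, rfl⟩
    change ρ (z * (tw t a * star (tw t b))) = 0
    cases a with
    | cons i a => rw [hz]; simpa [tw, mul_assoc] using F.vac i _
    | nil =>
      cases b with
      | nil => simpa [tw] using h0
      | cons j b =>
        have := F.vac j (tw t b * star z)
        rw [← star_star (t j * _), G.herm, map_eq_zero] at this
        simpa [tw, mul_assoc] using this
  have hcl : IsClosed {x : D | ρ (z * x) = 0} := isClosed_eq (by fun_prop) (by fun_prop)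
  exact closure_minimal (fun y (hy : y ∈ M) => hle hy) hcl (hM x)

theorem main :
    ∀ (A : Type) [CStarAlgebra A] [Nontrivial A] (s : ℕ → A), H91FP.CuntzGen s →
      ∃ σ ω : A →ₗ[ℂ] ℂ, H91FP.IsState σ ∧ H91FP.IsState ω ∧
        ∀ (D : Type) [CStarAlgebra D] (ρ : D →ₗ[ℂ] ℂ) (π : ℕ → A →⋆ₐ[ℂ] D),
          H91FP.FreePow σ ρ π →
          ∀ (E : Type) [CStarAlgebra E] (τ : E →ₗ[ℂ] ℂ) (i : A →⋆ₐ[ℂ] E) (j : D →⋆ₐ[ℂ] E),
            H91FQ.FreeProd ω ρ τ i j → ¬ ∃ θ : E ≃⋆ₐ[ℂ] D, ∀ x, ρ (θ x) = τ x := by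
  intro A _ _ s hs
  obtain ⟨ω, hω, hv⟩ := vacuum s hs
  let c : ℕ → A →ₗ[ℂ] A := fun i => LinearMap.mulLeft ℂ (star (s i)) ∘ₗ LinearMap.mulRight ℂ (s i)
  let ω₂ : A →ₗ[ℂ] ℂ := (1 / 2 : ℂ) • (ω ∘ₗ c 0 + ω ∘ₗ c 1)
  have e : ∀ a, ω₂ a = (1 / 2 : ℂ) * (ω (star (s 0) * (a * s 0)) + ω (star (s 1) * (a * s 1))) :=
    fun a => rfl
  have r00 : star (s 0) * s 0 = 1 := by rw [hs.1]; simp
  have r11 : star (s 1) * s 1 = 1 := by rw [hs.1]; simp
  have r01 : star (s 0) * s 1 = 0 := by rw [hs.1]; simp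
  have r10 : star (s 1) * s 0 = 0 := by rw [hs.1]; simp
  have r00' : ∀ a, star (s 0) * (s 0 * a) = a := fun a => by rw [← mul_assoc, r00, one_mul]
  have r10' : ∀ a, star (s 1) * (s 0 * a) = 0 := fun a => by rw [← mul_assoc, r10, zero_mul]
  refine ⟨ω, ω₂, hω, ⟨?_, fun x => ?_⟩, ?_⟩
  · rw [e, one_mul, one_mul, r00, r11, hω.1]; norm_num
  · have h0 := hω.2 (x * s 0)
    have h1 := hω.2 (x * s 1)
    simp only [star_mul, mul_assoc] at h0 h1
    rw [e]
    simp only [mul_assoc, Complex.mul_re, Complex.mul_im, Complex.add_re, Complex.add_im, h0.2, h1.2]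
    norm_num
    linarith [h0.1, h1.1]
  rintro D _ ρ π P E _ τ i j Q ⟨θ, hθ⟩
  obtain ⟨G⟩ := gn ρ P.state
  let v : A := (2 : ℂ) • (s 0 * star (s 0)) - 1
  have hv0 : ω₂ v = 0 := by
    rw [e]
    simp only [v, sub_mul, mul_sub, smul_mul_assoc, mul_smul_comm, mul_assoc, one_mul, r00, r11, r01,
      mul_one, mul_zero, map_sub, map_smul, hω.1, r10, map_zero]
    norm_num
  have hvc : ∀ a, ω₂ (v * a) = ω₂ (a * v) := by
    intro a
    rw [e, e]
    simp only [v, sub_mul, mul_sub, smul_mul_assoc, mul_smul_comm, mul_assoc, one_mul, r00, r01,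
      r00', r10', mul_one, mul_zero]
  have hvq : v * v = 1 := by
    simp only [v, sub_mul, mul_sub, smul_mul_assoc, mul_smul_comm, mul_assoc, one_mul, r00', mul_one]
    module
  let t : ℕ → D := fun k => π (Nat.unpair k).1 (s (Nat.unpair k).2)
  have hvac : ∀ i x, ρ (t i * x) = 0 := by
    intro i x
    have : G.ι (star (t i)) = 0 := G.zero_of _ (by
      simp only [t]
      rw [star_star, ← map_star, ← map_mul, P.res, hv])
    rw [← star_star (t i), ← G.ip, this, inner_zero_left]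
  have hrel : ∀ i j, star (t i) * t j = if i = j then 1 else 0 := by
    intro i j
    by_cases h : (Nat.unpair i).1 = (Nat.unpair j).1
    · simp only [t]
      rw [h, ← map_star, ← map_mul, hs.1]
      by_cases h2 : i = j
      · simp [h2]
      · rw [if_neg h2, if_neg, map_zero]
        intro h3
        exact h2 (Nat.pairEquiv.symm.injective (Prod.ext h h3))
    · rw [if_neg (by rintro rfl; exact h rfl)]
      exact P.orth _ _ (hv _ _) (hv _) h
  have hcen : ∀ x, τ (i v * x) = τ (x * i v) :=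
    (FreeProd.fam Q).central true (v, 0) (fun a => hvc a.1) hv0
  have := fock_center P.state ⟨hrel, hvac, P.state.1⟩ (P.gen' s hs) (θ (i v)) (fun x => by
    rw [← θ.apply_symm_apply x, ← map_mul, ← map_mul, hθ, hθ, hcen]) (by
    rw [hθ, Q.resl, hv0]) (θ (i v))
  rw [← map_mul, ← map_mul, hvq, map_one, map_one, P.state.1] at this
  exact one_ne_zero this

end H91FR
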