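import Pool.Agent.H91.FP5
import Pool.Agent.H91.FP6

set_option autoImplicit false

open Filter Topology
open scoped InnerProductSpace TensorProduct

namespace H91FS
open H91FP H91FQ H91FR

theorem main :
    ∀ (A : Type) [CStarAlgebra A] [Nontrivial A] (s : ℕ → A), H91FP.CuntzGen s →
      ∃ σ : A →ₗ[ℂ] ℂ, H91FP.IsState σ ∧
        ∀ (D : Type) [CStarAlgebra D] (ρ : D →ₗ[ℂ] ℂ) (π : ℕ → A →⋆ₐ[ℂ] D),
          H91FP.FreePow σ ρ π →
          ∀ (E : Type) [CStarAlgebra E] (τ : E →ₗ[ℂ] ℂ) (i : C(unitInterval, ℂ) →⋆ₐ[ℂ] E)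
            (j : D →⋆ₐ[ℂ] E), H91FQ.FreeProd (fun f => ∫ t, f t) ρ τ i j →
            ¬ ∃ θ : E ≃⋆ₐ[ℂ] D, ∀ x, ρ (θ x) = τ x := by
  intro A _ _ s hs
  obtain ⟨ω, hω, hv⟩ := vacuum s hs
  refine ⟨ω, hω, ?_⟩
  rintro D _ ρ π P E _ τ i j Q ⟨θ, hθ⟩
  obtain ⟨G⟩ := gn ρ P.state
  let t : ℕ → D := fun k => π (Nat.unpair k).1 (s (Nat.unpair k).2)
  have hvac : ∀ i x, ρ (t i * x) = 0 := by
    intro i x
    have : G.ι (star (t i)) = 0 := G.zero_of _ (by
      simp only [t]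
      rw [star_star, ← map_star, ← map_mul, P.res, hv])
    rw [← star_star (t i), ← G.ip, this, inner_zero_left]
  have hrel : ∀ i j, star (t i) * t j = if i = j then 1 else 0 := by
    intro i j
    by_cases h : (Nat.unpair i).1 = (Nat.unpair j).1
    · simp only [t]
      rw [h, ← map_star, ← map_mul, hs.1]
      by_cases h2 : i = j
      · simp [h2]
      · rw [if_neg h2, if_neg, map_zero]
        intro h3
        exact h2 (Nat.pairEquiv.symm.injective (Prod.ext h h3))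
    · rw [if_neg (by rintro rfl; exact h rfl)]
      exact P.orth _ _ (hv _ _) (hv _) h
  have hcen : ∀ x, τ (i (ee 1) * x) = τ (x * i (ee 1)) :=
    (FreeProd.fam (ω := leb) Q).central true (ee 1, 0) (fun a => by
      change leb (ee 1 * a.1) = leb (a.1 * ee 1)
      rw [mul_comm]) (ee_int 1 one_ne_zero)
  have := fock_center P.state ⟨hrel, hvac, P.state.1⟩ (P.gen' s hs) (θ (i (ee 1))) (fun x => by
    rw [← θ.apply_symm_apply x, ← map_mul, ← map_mul, hθ, hθ, hcen]) (by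
    rw [hθ, Q.resl]; exact ee_int 1 one_ne_zero) (θ (i (ee (-1))))
  rw [← map_mul, ← map_mul, ee_mul, add_neg_cancel, ee_zero, map_one, map_one, P.state.1] at this
  exact one_ne_zero this

end H91FS
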