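import Pool.Agent.H91.FP3

set_option autoImplicit false

open Filter Topology
open scoped InnerProductSpace TensorProduct

namespace H91FT
open H91FP

/-- The universal property of the Cuntz algebra for the generators `s`. -/
def CuntzUniv {A : Type} [CStarAlgebra A] (s : ℕ → A) : Prop :=
  ∀ (B : Type) [CStarAlgebra B] (t : ℕ → B),
    (∀ i j, star (t i) * t j = if i = j then 1 else 0) → ∃ φ : A →⋆ₐ[ℂ] B, ∀ i, φ (s i) = t i

variable {A : Type} [CStarAlgebra A]

lemma uniq {s : ℕ → A} (hs : CuntzGen s) (f : A →ₗ[ℂ] ℂ) (hc : Continuous f)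
    (h1 : f 1 = 0) (hl : ∀ i y, f (s i * y) = 0) (hr : ∀ i y, f (y * star (s i)) = 0) (x : A) :
    f x = 0 := by
  let M : Submodule ℂ A := Submodule.span ℂ {x | ∃ a b, tw s a * star (tw s b) = x}
  have hM : Dense (M : Set A) := by
    refine dense_of_mul _ hs.2 M (Submodule.subset_span ⟨[], [], by simp [tw]⟩) ?_
    rintro _ ⟨j, rfl⟩ y hy
    induction hy using Submodule.span_induction with
    | mem x hx =>
      obtain ⟨a, b, rfl⟩ := hx
      refine ⟨Submodule.subset_span ⟨j :: a, b, by simp [tw, mul_assoc]⟩, ?_⟩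
      cases a with
      | nil => exact Submodule.subset_span ⟨[], b ++ [j], by simp [tw]⟩
      | cons i a =>
        have : star (s j) * (tw s (i :: a) * star (tw s b)) =
            (star (s j) * s i) * (tw s a * star (tw s b)) := by simp [tw, mul_assoc]
        rw [this, hs.1]
        split_ifs
        · rw [one_mul]; exact Submodule.subset_span ⟨a, b, rfl⟩
        · rw [zero_mul]; exact M.zero_mem
    | zero => simp
    | add x y _ _ hx hy =>
      rw [mul_add, mul_add]; exact ⟨M.add_mem hx.1 hy.1, M.add_mem hx.2 hy.2⟩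
    | smul c x _ hx =>
      rw [mul_smul_comm, mul_smul_comm]; exact ⟨M.smul_mem _ hx.1, M.smul_mem _ hx.2⟩
  have hle : M ≤ LinearMap.ker f := by
    refine Submodule.span_le.2 ?_
    rintro _ ⟨a, b, rfl⟩
    change f (tw s a * star (tw s b)) = 0
    cases a with
    | cons i a => simpa [tw, mul_assoc] using hl i _
    | nil =>
      cases b with
      | nil => simpa [tw] using h1
      | cons j b => simpa [tw, mul_assoc] using hr j (star (tw s b))
  have hcl : IsClosed {x : A | f x = 0} := isClosed_eq hc continuous_const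
  exact closure_minimal (fun y (hy : y ∈ M) => hle hy) hcl (hM x)

theorem main :
    ∀ (A : Type) [CStarAlgebra A] [Nontrivial A] (s : ℕ → A), H91FP.CuntzGen s → CuntzUniv s →
      ∃ (μ : A →ₗ[ℂ] ℂ) (φ₁ φ₂ : A →⋆ₐ[ℂ] A), H91FP.IsState μ ∧ (∀ a, μ (φ₁ a) = μ (φ₂ a)) ∧
        ∃ (ε : ℝ) (a : A), 0 < ε ∧
          (∀ α : A ≃⋆ₐ[ℂ] A, (∀ x, μ (α x) = μ x) → ε ≤ ‖φ₂ a - α (φ₁ a)‖) ∧
          ∀ u ∈ unitary A, (∀ x, μ (u * x * star u) = μ x) →
            ε ≤ ‖φ₂ a - u * φ₁ a * star u‖ := by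
  intro A _ _ s hs hu
  obtain ⟨ω, hω, hv⟩ := vacuum s hs
  obtain ⟨G⟩ := gn ω hω
  have hωc := G.cont
  have hv' : ∀ i y, ω (y * star (s i)) = 0 := by
    intro i y
    have := hv i (star y)
    rw [← star_star (s i * _), G.herm, map_eq_zero] at this
    simpa using this
  have r := hs.1
  have r' : ∀ i j a, star (s i) * (s j * a) = if i = j then a else 0 := fun i j a => by
    rw [← mul_assoc, r]; split_ifs <;> simp
  let V : A := (3 / 5 : ℂ) • (s 4 * s 0) + (4 / 5 : ℂ) • (s 5 * s 1)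
  let W : A := (4 / 5 : ℂ) • (s 4 * s 2) + (3 / 5 : ℂ) • (s 5 * s 3)
  have sV : star V = (3 / 5 : ℂ) • (star (s 0) * star (s 4)) +
      (4 / 5 : ℂ) • (star (s 1) * star (s 5)) := by simp [V]
  have sW : star W = (4 / 5 : ℂ) • (star (s 2) * star (s 4)) +
      (3 / 5 : ℂ) • (star (s 3) * star (s 5)) := by simp [W]
  have VV : star V * V = 1 := by
    rw [sV]; simp [V, add_mul, mul_add, mul_assoc, r', r]; module
  have WW : star W * W = 1 := by
    rw [sW]; simp [W, add_mul, mul_add, mul_assoc, r', r]; module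
  have VW : star V * W = 0 := by
    rw [sV]; simp [W, add_mul, mul_add, mul_assoc, r', r]
  have WV : star W * V = 0 := by
    rw [sW]; simp [V, add_mul, mul_add, mul_assoc, r', r]
  let t : ℕ → A := fun i => if i = 0 then V else if i = 1 then W else s (i + 4)
  have ht : ∀ i j, star (t i) * t j = if i = j then 1 else 0 := by
    intro i j
    rcases i with _ | _ | i <;> rcases j with _ | _ | j <;>
      simp [t, VV, WW, VW, WV, r] <;>
      simp [sV, sW, V, W, add_mul, mul_add, mul_assoc, r', r]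
  obtain ⟨φ₁, h₁⟩ := hu A t ht
  obtain ⟨φ₂, h₂⟩ := hu A (fun i => s (i + 4)) (fun i j => by simp [r])
  have cont : ∀ φ : A →⋆ₐ[ℂ] A, Continuous φ := fun φ =>
    AddMonoidHomClass.continuous_of_bound φ 1
      (fun a => by simpa using NonUnitalStarAlgHom.norm_apply_le φ a)
  let c : A → A → A →ₗ[ℂ] A := fun a b => LinearMap.mulLeft ℂ (star a) ∘ₗ LinearMap.mulRight ℂ b
  let μ : A →ₗ[ℂ] ℂ := (1 / 2 : ℂ) • (ω ∘ₗ c V V + ω ∘ₗ c W W)
  have e : ∀ a, μ a = (1 / 2 : ℂ) * (ω (star V * (a * V)) + ω (star W * (a * W))) :=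
    fun a => rfl
  have hμ : IsState μ := by
    refine ⟨?_, fun x => ?_⟩
    · rw [e, one_mul, one_mul, VV, WW, hω.1]; norm_num
    · have h0 := hω.2 (x * V)
      have h1 := hω.2 (x * W)
      simp only [star_mul, mul_assoc] at h0 h1
      rw [e]
      simp only [mul_assoc, Complex.mul_re, Complex.mul_im, Complex.add_re, Complex.add_im, h0.2,
        h1.2]
      norm_num
      linarith [h0.1, h1.1]
  have k₁ : ∀ y, ω (φ₁ y) = ω y := by
    intro y
    have hc := cont φ₁
    refine sub_eq_zero.1 (uniq hs (ω ∘ₗ (φ₁ : A →ₗ[ℂ] A) - ω) ?_ ?_ ?_ ?_ y)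
    · change Continuous fun y => ω (φ₁ y) - ω y
      fun_prop
    · change ω (φ₁ 1) - ω 1 = 0
      simp
    · intro i y
      change ω (φ₁ (s i * y)) - ω (s i * y) = 0
      rw [map_mul, h₁, hv]
      rcases i with _ | _ | i <;> simp [t, V, W, add_mul, mul_assoc, hv]
    · intro i y
      change ω (φ₁ (y * star (s i))) - ω (y * star (s i)) = 0
      rw [map_mul, map_star, h₁, hv']
      rcases i with _ | _ | i <;> simp [t, sV, sW, mul_add, ← mul_assoc, hv']
  have k₂ : ∀ k < 4, ∀ l < 4, ∀ y, ω (star (s k) * (φ₂ y * s l)) = if k = l then ω y else 0 := by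
    intro k hk l hl y
    have hc := cont φ₂
    have := uniq hs (ω ∘ₗ c (s k) (s l) ∘ₗ (φ₂ : A →ₗ[ℂ] A) - (if k = l then (1 : ℂ) else 0) • ω)
      ?_ ?_ ?_ ?_ y
    · change ω (star (s k) * (φ₂ y * s l)) - (if k = l then (1 : ℂ) else 0) * ω y = 0 at this
      rw [sub_eq_zero.1 this]; split_ifs <;> simp
    · change Continuous fun y =>
        ω (star (s k) * (φ₂ y * s l)) - (if k = l then (1 : ℂ) else 0) * ω y
      fun_prop
    · change ω (star (s k) * (φ₂ 1 * s l)) - (if k = l then (1 : ℂ) else 0) * ω 1 = 0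
      rw [map_one, one_mul, r]; split_ifs <;> simp
    · intro i y
      change ω (star (s k) * (φ₂ (s i * y) * s l)) -
        (if k = l then (1 : ℂ) else 0) * ω (s i * y) = 0
      rw [map_mul φ₂, h₂, hv, mul_assoc, r', if_neg (by omega)]; simp
    · intro i y
      change ω (star (s k) * (φ₂ (y * star (s i)) * s l)) -
        (if k = l then (1 : ℂ) else 0) * ω (y * star (s i)) = 0
      rw [map_mul φ₂, map_star φ₂, h₂, hv', mul_assoc, r, if_neg (by omega)]; simp
  have k₃ : ∀ i j, ∀ k < 4, ∀ l < 4, ∀ y,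
      ω (star (s k) * (star (s (i + 4)) * (φ₂ y * (s (j + 4) * s l)))) =
        if k = l then ω (star (s i) * (y * s j)) else 0 := by
    intro i j k hk l hl y
    rw [← k₂ k hk l hl, map_mul φ₂, map_mul φ₂, map_star φ₂, h₂, h₂]
    simp only [mul_assoc]
  obtain ⟨G'⟩ := gn μ hμ
  have main' : ∀ z : A, (∀ x, μ (z * x) = μ (x * z)) →
      3 / 25 ≤ ‖φ₂ (s 0 * star (s 0)) - z‖ := by
    intro z hz
    set x : A := s 4 * (s 0 * (star (s 1) * star (s 5))) with hx
    have hs1 : ∀ k, ‖s k‖ = 1 := by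
      intro k
      have := CStarRing.norm_star_mul_self (x := s k)
      rw [hs.1, if_pos rfl, norm_one] at this
      nlinarith [norm_nonneg (s k)]
    have hx1 : ‖x‖ ≤ 1 := by
      refine (norm_mul_le _ _).trans ?_
      rw [hs1, one_mul]
      refine (norm_mul_le _ _).trans ?_
      rw [hs1, one_mul]
      refine (norm_mul_le _ _).trans ?_
      rw [norm_star, norm_star, hs1, hs1, one_mul]
    set d := φ₂ (s 0 * star (s 0)) - z with hd
    have e1 : μ (d * x) - μ (x * d) = 6 / 25 := by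
      rw [hd, sub_mul, mul_sub, map_sub, map_sub, hz, map_mul φ₂, map_star φ₂, h₂, e, e, sV, sW]
      simp [hx, V, W, add_mul, mul_add, mul_assoc, r', r, hω.1]
      ring
    have b1 := (G'.abs_le (d * x)).trans (norm_mul_le _ _)
    have b2 := (G'.abs_le (x * d)).trans (norm_mul_le _ _)
    have b3 := norm_sub_le (μ (d * x)) (μ (x * d))
    rw [e1] at b3
    norm_num at b3
    nlinarith [norm_nonneg d]
  have cen : ∀ x, μ (φ₁ (s 0 * star (s 0)) * x) = μ (x * φ₁ (s 0 * star (s 0))) := by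
    intro x
    have VV' : ∀ a, star V * (V * a) = a := fun a => by rw [← mul_assoc, VV, one_mul]
    have WV' : ∀ a, star W * (V * a) = 0 := fun a => by rw [← mul_assoc, WV, zero_mul]
    rw [map_mul φ₁, map_star φ₁, h₁, e, e]
    simp only [t, if_true, mul_assoc, VV, VW, VV', WV', mul_one, mul_zero]
  refine ⟨μ, φ₁, φ₂, hμ, fun a => ?_, 3 / 25, s 0 * star (s 0), by norm_num, fun α hα => ?_,
    fun u hu hα => ?_⟩
  · have e1 : μ (φ₁ a) = (1 / 2 : ℂ) * (ω (star (s 0) * (a * s 0)) + ω (star (s 1) * (a * s 1))) := by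
      rw [e, ← k₁ (star (s 0) * _), ← k₁ (star (s 1) * _)]
      simp [map_star, h₁, t]
    rw [e1, e, sV, sW]
    have q00 := k₃ 0 0
    have q01 := k₃ 0 1
    have q10 := k₃ 1 0
    have q11 := k₃ 1 1
    norm_num at q00 q01 q10 q11
    simp [V, W, add_mul, mul_add, mul_assoc, q00, q01, q10, q11]
    ring
  · refine main' _ fun x => ?_
    rw [← α.apply_symm_apply x, ← map_mul, ← map_mul, hα, hα, cen]
  · refine main' _ fun x => ?_
    have h1 : star u * u = 1 := Unitary.star_mul_self_of_mem hu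
    have h2 : u * star u = 1 := Unitary.mul_star_self_of_mem hu
    have a1 := hα (φ₁ (s 0 * star (s 0)) * (star u * x * u))
    have a2 := hα ((star u * x * u) * φ₁ (s 0 * star (s 0)))
    rw [cen, ← a2] at a1
    simp only [mul_assoc, h2, mul_one] at a1
    rw [← mul_assoc u (star u), h2, one_mul] at a1
    simpa only [mul_assoc] using a1

end H91FT
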