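import Mathlib
set_option autoImplicit false

namespace H91.FeketeSz
open Complex Metric Set Filter Topology

/-- the class `M_{α,β}` (all three quotients are required to be defined) -/
def M (α β : ℝ) (f : ℂ → ℂ) : Prop :=
  DifferentiableOn ℂ f (ball 0 1) ∧ f 0 = 0 ∧ deriv f 0 = 1 ∧
  (∀ z ∈ ball (0:ℂ) 1, z ≠ 0 → f z ≠ 0) ∧ (∀ z ∈ ball (0:ℂ) 1, deriv f z ≠ 0) ∧
  ∀ z ∈ ball (0:ℂ) 1, z ≠ 0 → (α + β) / 2 < (α * (f z / z) + β * (z * deriv f z / f z) +
    (1 - α - β) * (1 + z * deriv (deriv f) z / deriv f z)).re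

/-- Fekete-Szego functional -/
noncomputable def Phi (f : ℂ → ℂ) (l : ℂ) : ℂ :=
  iteratedDeriv 3 f 0 / 6 - l * (iteratedDeriv 2 f 0 / 2) ^ 2

lemma deq {u v : ℂ → ℂ} (h : EqOn u v (ball 0 1)) : EqOn (deriv u) (deriv v) (ball 0 1) :=
  fun _ hz => (h.eventuallyEq_of_mem (isOpen_ball.mem_nhds hz)).deriv_eq

lemma jack {p : ℂ → ℂ} (hp : DifferentiableOn ℂ p (ball 0 1)) (h0 : 0 < (p 0).re)
    (h : ∀ z ∈ ball (0:ℂ) 1, z ≠ 0 → (p z).re = 0 → (z * deriv p z).im ≠ 0) :
    ∀ z ∈ ball (0:ℂ) 1, 0 < (p z).re := by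
  intro z1 hz1
  by_contra hn
  have hsub : closedBall (0:ℂ) ‖z1‖ ⊆ ball 0 1 := closedBall_subset_ball (mem_ball_zero_iff.1 hz1)
  have hc : ContinuousOn (fun z => (p z).re) (ball 0 1) :=
    continuous_re.comp_continuousOn hp.continuousOn
  have hK : IsCompact (closedBall (0:ℂ) ‖z1‖ ∩ (fun z => (p z).re) ⁻¹' Iic 0) :=
    (isCompact_closedBall _ _).of_isClosed_subset
      ((hc.mono hsub).preimage_isClosed_of_isClosed isClosed_closedBall isClosed_Iic)
      inter_subset_left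
  obtain ⟨z0, ⟨hz0, hz0'⟩, hmin⟩ := hK.exists_isMinOn
    ⟨z1, mem_closedBall_zero_iff.2 le_rfl, not_lt.1 hn⟩ continuous_norm.continuousOn
  have hne : z0 ≠ 0 := by
    rintro rfl
    exact absurd hz0' (not_le.2 h0)
  have hle : ‖z0‖ ≤ ‖z1‖ := mem_closedBall_zero_iff.1 hz0
  have hpos : ∀ z ∈ ball (0:ℂ) ‖z0‖, 0 ≤ (p z).re := by
    intro z hz
    by_contra hc'
    have := hmin ⟨mem_closedBall_zero_iff.2 ((mem_ball_zero_iff.1 hz).le.trans hle),
      (not_le.1 hc').le⟩
    exact absurd (mem_ball_zero_iff.1 hz) (not_lt.2 this)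
  have hsub' : closedBall (0:ℂ) ‖z0‖ ⊆ ball 0 1 := (closedBall_subset_closedBall hle).trans hsub
  have hpos' : ∀ z ∈ closedBall (0:ℂ) ‖z0‖, 0 ≤ (p z).re := by
    intro z hz
    rw [← closure_ball _ (norm_ne_zero_iff.2 hne)] at hz hsub'
    exact le_on_closure hpos continuousOn_const (hc.mono hsub') hz
  have hz0b : z0 ∈ ball (0:ℂ) 1 := hsub hz0
  have hre : (p z0).re = 0 := le_antisymm hz0' (hpos' z0 (mem_closedBall_zero_iff.2 le_rfl))
  have hd : HasDerivAt (fun t : ℝ => (p (z0 * exp (t * I))).re) ((deriv p z0 * (z0 * I)).re) 0 := by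
    have a1 : HasDerivAt (fun t : ℂ => z0 * exp (t * I)) (z0 * I) ((0:ℝ):ℂ) := by
      refine (((hasDerivAt_id' ((0:ℝ):ℂ)).mul_const I).cexp.const_mul z0).congr_deriv ?_
      simp
    have a2 : HasDerivAt p (deriv p z0) (z0 * exp (((0:ℝ):ℂ) * I)) := by
      simpa using (hp.differentiableAt (isOpen_ball.mem_nhds hz0b)).hasDerivAt
    exact (HasDerivAt.comp (h := fun t : ℂ => z0 * exp (t * I)) ((0:ℝ):ℂ) a2 a1).real_of_complex
  have hloc : IsLocalMin (fun t : ℝ => (p (z0 * exp (t * I))).re) 0 := by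
    refine Eventually.of_forall fun t => ?_
    have : (p (z0 * exp (((0:ℝ):ℂ) * I))).re = 0 := by simpa using hre
    simp only [this]
    apply hpos'
    rw [mem_closedBall_zero_iff, norm_mul, norm_exp_ofReal_mul_I, mul_one]
  have := hloc.hasDerivAt_eq_zero hd
  apply h z0 hz0b hne hre
  simp only [mul_re, mul_im, I_re, I_im] at this ⊢
  linarith

lemma bound {β : ℝ} (hβ : 0 ≤ β) {f : ℂ → ℂ} (hf : M 0 β f) : ‖Phi f (3 / 4)‖ ≤ 6 := by
  obtain ⟨hd, h0, h1, hne, hne', hre⟩ := hf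
  have hb : ball (0:ℂ) 1 ∈ 𝓝 (0:ℂ) := ball_mem_nhds _ one_pos
  have h00 : (0:ℂ) ∈ ball (0:ℂ) 1 := mem_ball_self one_pos
  set h := dslope f 0 with hh
  have hhd : DifferentiableOn ℂ h (ball 0 1) := (differentiableOn_dslope hb).2 hd
  have hfh : ∀ z, f z = z * h z := fun z => by
    have := sub_smul_dslope f 0 z
    rw [h0] at this; simpa using this.symm
  have hh0 : h 0 = 1 := by rw [hh, dslope_same, h1]
  have hhne : ∀ z ∈ ball (0:ℂ) 1, h z ≠ 0 := by
    intro z hz hc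
    by_cases hz0 : z = 0
    · rw [hz0, hh0] at hc; exact one_ne_zero hc
    · exact hne z hz hz0 (by rw [hfh, hc, mul_zero])
  have D : ∀ {u : ℂ → ℂ}, DifferentiableOn ℂ u (ball 0 1) → ∀ z ∈ ball (0:ℂ) 1,
      HasDerivAt u (deriv u z) z := fun hu z hz =>
    (hu.differentiableAt (isOpen_ball.mem_nhds hz)).hasDerivAt
  have hd1 := hd.deriv isOpen_ball
  have hd2 := hd1.deriv isOpen_ball
  have hh1 := hhd.deriv isOpen_ball
  have hh2 := hh1.deriv isOpen_ball
  have e1 : EqOn (deriv f) (fun z => h z + z * deriv h z) (ball 0 1) := by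
    intro z hz
    rw [show f = fun z => z * h z from funext hfh]
    exact (((hasDerivAt_id' z).mul (D hhd z hz)).congr_deriv (by ring)).deriv
  have e2 : EqOn (deriv (deriv f)) (fun z => 2 * deriv h z + z * deriv (deriv h) z) (ball 0 1) := by
    intro z hz
    rw [deq e1 hz]
    exact (((D hhd z hz).add ((hasDerivAt_id' z).mul (D hh1 z hz))).congr_deriv (by ring)).deriv
  have e3 : deriv (deriv (deriv f)) 0 = 3 * deriv (deriv h) 0 := by
    rw [deq e2 h00]
    exact ((((D hh1 0 h00).const_mul 2).add ((hasDerivAt_id' 0).mul (D hh2 0 h00))).congr_deriv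
      (by ring)).deriv
  set p : ℂ → ℂ := fun z => deriv f z / h z with hp
  have hpd : DifferentiableOn ℂ p (ball 0 1) := hd1.div hhd hhne
  have hp1 := hpd.deriv isOpen_ball
  have g0 : EqOn (deriv f) (fun z => p z * h z) (ball 0 1) := fun z hz => by
    simp only [hp]; rw [div_mul_cancel₀ _ (hhne z hz)]
  have g1 : EqOn (deriv (deriv f)) (fun z => deriv p z * h z + p z * deriv h z) (ball 0 1) := by
    intro z hz
    rw [deq g0 hz]
    exact ((D hpd z hz).mul (D hhd z hz)).deriv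
  have hp0 : p 0 = 1 := by simp only [hp, h1, hh0, div_one]
  have g2 : deriv (deriv (deriv f)) 0 =
      deriv (deriv p) 0 + 2 * deriv p 0 * deriv h 0 + deriv (deriv h) 0 := by
    rw [deq g1 h00]
    exact ((((D hp1 0 h00).mul (D hhd 0 h00)).add ((D hpd 0 h00).mul (D hh1 0 h00))).congr_deriv
      (by rw [hh0, hp0]; ring)).deriv
  have hpos : ∀ z ∈ ball (0:ℂ) 1, 0 < (p z).re := by
    refine jack hpd (by rw [hp0]; simp) fun z hz hz0 hr him => ?_
    have a := hre z hz hz0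
    have hpz : p z ≠ 0 := div_ne_zero (hne' z hz) (hhne z hz)
    have b0 := hhne z hz
    have b1 : z * deriv f z / f z = p z := by
      rw [hfh z]; simp only [hp]; field_simp
    have b2 : 1 + z * deriv (deriv f) z / deriv f z = p z + z * deriv p z / p z := by
      have c1 := e1 hz
      have c2 := g0 hz
      rw [g1 hz, c2]
      simp only at c1 c2 ⊢
      field_simp
      linear_combination (p z) * (c2 - c1)
    have b3 : (z * deriv p z / p z).re = 0 := by
      rw [div_re, hr, him]; simp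
    rw [b1, b2] at a
    have b4 : (1 - ((0:ℝ):ℂ) - β) = ((1 - β : ℝ) : ℂ) := by push_cast; ring
    rw [b4, add_re, add_re, re_ofReal_mul, re_ofReal_mul, re_ofReal_mul, add_re, hr, b3] at a
    linarith
  set E : ℂ → ℂ := fun z => exp (-p z) with hE
  have hEd : DifferentiableOn ℂ E (ball 0 1) := hpd.neg.cexp
  have k1 : EqOn (deriv E) (fun z => E z * (-deriv p z)) (ball 0 1) := fun z hz =>
    (D hpd z hz).neg.cexp.deriv
  have k2 : deriv (deriv E) 0 = E 0 * ((deriv p 0) ^ 2 - deriv (deriv p) 0) := by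
    rw [deq k1 h00]
    refine (((D hEd 0 h00).mul (D hp1 0 h00).neg).congr_deriv ?_).deriv
    rw [k1 h00]; simp only [Pi.neg_apply]; ring
  have hcau : ‖iteratedDeriv 2 E 0‖ ≤ (2:ℕ).factorial * 1 / (1 / 2) ^ 2 := by
    refine norm_iteratedDeriv_le_of_forall_mem_sphere_norm_le 2 (by norm_num)
      (hEd.mono ?_).diffContOnCl fun z hz => ?_
    · rw [closure_ball _ (by norm_num)]; exact closedBall_subset_ball (by norm_num)
    · rw [hE]; simp only [norm_exp, neg_re, Real.exp_le_one_iff]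
      have := hpos z (sphere_subset_closedBall.trans (closedBall_subset_ball (by norm_num)) hz)
      linarith
  have i2 : ∀ u : ℂ → ℂ, iteratedDeriv 2 u = deriv (deriv u) := fun u => by
    rw [iteratedDeriv_succ, iteratedDeriv_one]
  have i3 : iteratedDeriv 3 f = deriv (deriv (deriv f)) := by rw [iteratedDeriv_succ, i2]
  have c1 := e2 h00
  have c2 := g1 h00
  simp only [hh0, hp0] at c1 c2
  have hPhi : deriv (deriv E) 0 = E 0 * (-4 * Phi f (3 / 4)) := by
    rw [k2]; congr 1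
    unfold Phi
    rw [i3, i2]
    have d1 : deriv p 0 = deriv h 0 := by linear_combination c1 - c2
    have d2 : deriv (deriv p) 0 = 2 * deriv (deriv h) 0 - 2 * (deriv h 0) ^ 2 := by
      rw [d1] at g2; linear_combination e3 - g2
    rw [d2, d1, e3, c1]; ring
  have hE0 : ‖E 0‖ = Real.exp (-1) := by rw [hE]; simp [norm_exp, hp0]
  rw [i2, hPhi, norm_mul, hE0, norm_mul] at hcau
  have h3 : Real.exp 1 < 3 := Real.exp_one_lt_d9.trans (by norm_num)
  have h4 : Real.exp (-1) * Real.exp 1 = 1 := by rw [← Real.exp_add]; simp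
  have h5 : ‖(-4:ℂ)‖ = 4 := by simp
  rw [h5] at hcau
  norm_num [Nat.factorial] at hcau
  have h6 := Real.exp_pos (-1)
  nlinarith [norm_nonneg (Phi f (3 / 4))]

theorem main : ∃ (α β : ℝ) (l : ℂ), α + β < 2 ∧ 5 * α + 4 * β < 6 ∧ β ≠ 0 ∧ α + β ≠ 1 ∧
    ∃ B : ℝ, B < max ((2 - α - β) / (6 - 5 * α - 4 * β)) ‖1 - l‖ ∧
      ∀ f, M α β f → ‖Phi f l‖ ≤ B :=
  ⟨0, 149 / 100, 3 / 4, by norm_num, by norm_num, by norm_num, by norm_num, 6,
    lt_max_of_lt_left (by norm_num), fun _ hf => bound (by norm_num) hf⟩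

end H91.FeketeSz
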