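import Mathlib
set_option autoImplicit false

namespace H91.FloorMean

noncomputable def F (x y : ℝ) : ℝ := (⌊x⌋ + ⌊y⌋ : ℤ) + (Int.fract x + Int.fract y) / 2

lemma floor_F (x y : ℝ) : ⌊F x y⌋ = ⌊x⌋ + ⌊y⌋ := by
  unfold F
  rw [Int.floor_intCast_add]
  have h : ⌊(Int.fract x + Int.fract y) / 2⌋ = 0 := by
    rw [Int.floor_eq_zero_iff]
    constructor
    · have := Int.fract_nonneg x; have := Int.fract_nonneg y; positivity
    · have := Int.fract_lt_one x; have := Int.fract_lt_one y; linarith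
  rw [h, add_zero]

lemma fract_F (x y : ℝ) : Int.fract (F x y) = (Int.fract x + Int.fract y) / 2 := by
  have h := floor_F x y
  have : Int.fract (F x y) = F x y - ⌊F x y⌋ := rfl
  rw [this, h]; unfold F; ring

lemma symm (x y : ℝ) : F x y = F y x := by
  unfold F; rw [add_comm ⌊x⌋, add_comm (Int.fract x)]

lemma mono (y : ℝ) : StrictMono (fun x => F x y) := by
  intro a b hab
  have h1 : ⌊a⌋ ≤ ⌊b⌋ := Int.floor_le_floor hab.le
  have ha : Int.fract a = a - ⌊a⌋ := rfl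
  have hb : Int.fract b = b - ⌊b⌋ := rfl
  have h2 : (⌊a⌋ : ℝ) ≤ ⌊b⌋ := by exact_mod_cast h1
  simp only [F, ha, hb]
  push_cast
  linarith

theorem main : ∃ (I : Set ℝ) (G : I → I → I) (J : Set ℝ),
    I.OrdConnected ∧ I.Nontrivial ∧
    (∀ x y u v, G (G x y) (G u v) = G (G x u) (G y v)) ∧
    (∀ x y, G x y = G y x) ∧
    (∀ y, StrictMono (fun x => G x y)) ∧ (∀ x, StrictMono (fun y => G x y)) ∧
    J.OrdConnected ∧ J.Nontrivial ∧ J ⊂ I ∧
    (∀ x : I, (x : ℝ) ∈ J → G x x = x) ∧ ∃ x₀ : I, G x₀ x₀ ≠ x₀ := by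
  refine ⟨Set.univ, fun x y => ⟨F x y, trivial⟩, Set.Icc 0 (1/2), Set.ordConnected_univ,
    ⟨0, trivial, 1, trivial, by norm_num⟩, ?_, ?_, ?_, ?_, Set.ordConnected_Icc,
    ⟨0, by norm_num, 1/2, by norm_num, by norm_num⟩, ?_, ?_, ⟨⟨1, trivial⟩, ?_⟩⟩
  · intro x y u v
    apply Subtype.ext
    show F (F x y) (F u v) = F (F x u) (F y v)
    rw [F, F.eq_1 (F x u), floor_F, floor_F, floor_F, floor_F, fract_F, fract_F, fract_F, fract_F]
    push_cast; ring
  · intro x y; exact Subtype.ext (symm x y)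
  · intro y a b hab; exact mono y hab
  · intro x a b hab
    show F x a < F x b
    rw [symm x a, symm x b]; exact mono x hab
  · refine ⟨Set.subset_univ _, fun h => ?_⟩
    have := h (Set.mem_univ (2:ℝ))
    norm_num at this
  · rintro ⟨x, hx⟩ ⟨h0, h1⟩
    apply Subtype.ext
    show F x x = x
    have hf : ⌊x⌋ = 0 := Int.floor_eq_zero_iff.2 ⟨h0, by simp only at h1; linarith⟩
    have ha : Int.fract x = x - ⌊x⌋ := rfl
    simp only [F, ha, hf]; simp
  · intro h
    have : F 1 1 = 1 := congrArg Subtype.val h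
    simp [F] at this

end H91.FloorMean
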