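import Mathlib

set_option autoImplicit false

namespace H91.GelHil
open Metric Finset
open scoped ENNReal RealInnerProductSpace

abbrev L2 : Type := lp (fun _ : ℕ => ℝ) 2

/-- Gelfand numbers `c_n(S,F)`, valued in `[0,∞]`. -/
noncomputable def gel {X Y : Type*} [NormedAddCommGroup X] [NormedSpace ℝ X]
    [NormedAddCommGroup Y] [NormedSpace ℝ Y] (n : ℕ) (S : X →L[ℝ] Y) (F : Set X) : ℝ≥0∞ :=
  ⨅ L : Fin n → StrongDual ℝ X, ⨆ (f ∈ F) (g ∈ F) (_ : ∀ k, L k f = L k g),
    ENNReal.ofReal (‖S f - S g‖ / 2)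

/-- Hilbert numbers `h_n(S,F)`, valued in `[0,∞]`. -/
noncomputable def hil {X Y : Type*} [NormedAddCommGroup X] [NormedSpace ℝ X]
    [NormedAddCommGroup Y] [NormedSpace ℝ Y] (n : ℕ) (S : X →L[ℝ] Y) (F : Set X) : ℝ≥0∞ :=
  ⨆ (B : Y →L[ℝ] L2) (_ : ‖B‖ ≤ 1) (A : L2 →L[ℝ] X) (x ∈ F)
    (_ : ∀ a ∈ closedBall (0 : L2) 1, A a + x ∈ F),
    gel n (B ∘L S ∘L A) (closedBall (0 : L2) 1)

lemma norm_sum_sq {H : Type*} [NormedAddCommGroup H] [InnerProductSpace ℝ H] {n : ℕ}
    {v : Fin n → H} (hv : Orthonormal ℝ v) (a : Fin n → ℝ) :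
    ‖∑ i, a i • v i‖ ^ 2 = ∑ i, a i ^ 2 := by
  rw [← real_inner_self_eq_norm_sq, hv.inner_sum]
  simp [sq]

lemma spec (m : ℕ) (M : Matrix (Fin (m + 1)) (Fin (m + 1)) ℝ) :
    ∃ lam : Fin (m + 1) → ℝ, (∀ k, 0 ≤ lam k) ∧ ∏ k, lam k = M.det ^ 2 ∧
      ∀ (k : Fin (m + 1)) (L : Fin k → (EuclideanSpace ℝ (Fin (m + 1)) →ₗ[ℝ] ℝ)),
        ∃ u : EuclideanSpace ℝ (Fin (m + 1)), ‖u‖ = 1 ∧ (∀ i, L i u = 0) ∧
          lam k ≤ ∑ i, (∑ j, M i j * u j) ^ 2 := by
  set T : EuclideanSpace ℝ (Fin (m + 1)) →ₗ[ℝ] EuclideanSpace ℝ (Fin (m + 1)) :=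
    Matrix.toEuclideanLin M with hT
  have hs := T.isSymmetric_adjoint_comp_self
  have hn : Module.finrank ℝ (EuclideanSpace ℝ (Fin (m + 1))) = m + 1 := by simp
  set v := hs.eigenvectorBasis hn
  set lam := hs.eigenvalues hn
  have hq : ∀ u, ‖T u‖ ^ 2 = ∑ i, lam i * ⟪v i, u⟫ ^ 2 := by
    intro u
    have h1 : ‖T u‖ ^ 2 = ⟪u, (LinearMap.adjoint T ∘ₗ T) u⟫ := by
      rw [LinearMap.comp_apply, LinearMap.adjoint_inner_right, real_inner_self_eq_norm_sq]
    rw [h1, ← v.sum_inner_mul_inner]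
    refine Finset.sum_congr rfl fun i _ => ?_
    have h2 := hs.eigenvectorBasis_apply_self_apply hn u i
    rw [OrthonormalBasis.repr_apply_apply, OrthonormalBasis.repr_apply_apply] at h2
    rw [show ⟪v i, (LinearMap.adjoint T ∘ₗ T) u⟫ = lam i * ⟪v i, u⟫ from h2, real_inner_comm]
    ring
  have hpos : ∀ k, 0 ≤ lam k := by
    intro k
    have h1 := hq (v k)
    rw [Finset.sum_eq_single k] at h1
    · rw [real_inner_self_eq_norm_sq, v.orthonormal.1 k] at h1
      nlinarith [sq_nonneg ‖T (v k)‖]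
    · intro b _ hb
      rw [v.orthonormal.2 hb]; simp
    · simp
  refine ⟨lam, hpos, ?_, ?_⟩
  · have h1 := hs.det_eq_prod_eigenvalues hn
    have h2 : LinearMap.adjoint T = Matrix.toEuclideanLin M.conjTranspose := by
      rw [hT, Matrix.toEuclideanLin_conjTranspose_eq_adjoint]
    have h3 : LinearMap.det (LinearMap.adjoint T ∘ₗ T) = M.det ^ 2 := by
      rw [LinearMap.det_comp, h2, hT]
      simp only [Matrix.toEuclideanLin, LinearMap.det_toLpLin]
      rw [Matrix.det_conjTranspose, star_trivial, sq]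
    rw [← h3, h1]
    rfl
  · intro k L
    let Ψ : EuclideanSpace ℝ (Fin (m + 1)) →ₗ[ℝ] (Fin m → ℝ) := LinearMap.pi fun i =>
      if h : (i : ℕ) < k then L ⟨i, h⟩ else (innerSL ℝ (v i.succ)).toLinearMap
    have hk : LinearMap.ker Ψ ≠ ⊥ := LinearMap.ker_ne_bot_of_finrank_lt (by simp)
    obtain ⟨u0, hu0, hne⟩ := Submodule.exists_mem_ne_zero_of_ne_bot hk
    have hn0 : 0 < ‖u0‖ := norm_pos_iff.2 hne
    set u := ‖u0‖⁻¹ • u0 with hu
    have hu1 : ‖u‖ = 1 := by
      rw [hu, norm_smul, norm_inv, norm_norm, inv_mul_cancel₀ hn0.ne']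
    have hker : ∀ i, Ψ u i = 0 := by
      intro i
      have : Ψ u = 0 := Submodule.smul_mem _ _ hu0
      rw [this]; rfl
    refine ⟨u, hu1, ?_, ?_⟩
    · intro i
      have h1 := hker ⟨i, by omega⟩
      simp only [Ψ, LinearMap.pi_apply] at h1
      rw [dif_pos i.2] at h1
      exact h1
    · have h2 : ‖T u‖ ^ 2 = ∑ i, (∑ j, M i j * u j) ^ 2 := by
        rw [EuclideanSpace.real_norm_sq_eq]
        refine Finset.sum_congr rfl fun i _ => ?_
        simp [hT, Matrix.toEuclideanLin, Matrix.toLpLin_apply, Matrix.mulVec, dotProduct]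
      rw [← h2, hq]
      have h3 := v.sum_sq_inner_right u
      rw [hu1] at h3
      calc lam k = ∑ i, lam k * ⟪v i, u⟫ ^ 2 := by rw [← Finset.mul_sum, h3]; ring
        _ ≤ _ := by
          refine Finset.sum_le_sum fun i _ => ?_
          by_cases hi : i ≤ k
          · exact mul_le_mul_of_nonneg_right (hs.eigenvalues_antitone hn hi) (sq_nonneg _)
          · have hi' : (k : ℕ) < i := by simpa using hi
            have h1 := hker ⟨(i : ℕ) - 1, by omega⟩
            simp only [Ψ, LinearMap.pi_apply] at h1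
            rw [dif_neg (by omega)] at h1
            have e : (⟨(i : ℕ) - 1, by omega⟩ : Fin m).succ = i := by
              ext; simp; omega
            rw [e] at h1
            have : ⟪v i, u⟫ = 0 := by simpa using h1
            rw [this]; simp

variable {X Y : Type*} [NormedAddCommGroup X] [InnerProductSpace ℝ X] [CompleteSpace X]
  [NormedAddCommGroup Y] [NormedSpace ℝ Y]

lemma build (S : X →L[ℝ] Y) (m : ℕ) (c : ℝ) (hc : 0 ≤ c)
    (H : ∀ L : Fin m → StrongDual ℝ X, ∃ x, ‖x‖ ≤ 1 ∧ (∀ k, L k x = 0) ∧ c < ‖S x‖)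
    (j : ℕ) (hj : j ≤ m + 1) :
    ∃ (e : ℕ → X) (b : ℕ → StrongDual ℝ Y), ∀ i < j, ‖e i‖ = 1 ∧ ‖b i‖ ≤ 1 ∧ c ≤ b i (S (e i)) ∧
      (∀ l < i, ⟪e l, e i⟫ = 0) ∧ ∀ x, (∀ l ≤ i, ⟪e l, x⟫ = 0) → b i (S x) = 0 := by
  induction j with
  | zero => exact ⟨0, 0, by simp⟩
  | succ j ih =>
    obtain ⟨e, b, h⟩ := ih (by omega)
    obtain ⟨x, hx1, hx2, hx3⟩ := H fun k => if (k : ℕ) < j then innerSL ℝ (e k) else 0
    have hx4 : ∀ l < j, ⟪e l, x⟫ = 0 := by
      intro l hl
      have := hx2 ⟨l, by omega⟩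
      simpa [hl] using this
    obtain ⟨g, hg1, hg2⟩ := exists_dual_vector'' ℝ (S x)
    set y := (InnerProductSpace.toDual ℝ X).symm (g ∘L S) with hy
    have hy1 : ∀ z, ⟪y, z⟫ = g (S z) := fun z => InnerProductSpace.toDual_symm_apply
    set w := y - ∑ l ∈ range j, ⟪e l, y⟫ • e l with hw
    have hw1 : ∀ z, (∀ l < j, ⟪e l, z⟫ = 0) → ⟪w, z⟫ = g (S z) := by
      intro z hz
      rw [hw, inner_sub_left, sum_inner, hy1, Finset.sum_eq_zero, sub_zero]
      intro l hl
      rw [real_inner_smul_left, hz l (mem_range.1 hl), mul_zero]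
    have hw2 : ∀ l < j, ⟪e l, w⟫ = 0 := by
      intro l hl
      rw [hw, inner_sub_right, inner_sum, Finset.sum_eq_single l]
      · rw [real_inner_smul_right, real_inner_self_eq_norm_sq, (h l hl).1]; ring
      · intro i hi hil
        rw [real_inner_smul_right]
        rcases lt_or_gt_of_ne hil with h1 | h1
        · rw [real_inner_comm (e i), (h l hl).2.2.2.1 i h1, mul_zero]
        · rw [(h i (mem_range.1 hi)).2.2.2.1 l h1, mul_zero]
      · intro h1; exact absurd (mem_range.2 hl) h1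
    have hw3 : c < ‖w‖ := by
      have h1 := real_inner_le_norm w x
      rw [hw1 x hx4, hg2] at h1
      simp only [RCLike.ofReal_real_eq_id, id] at h1
      nlinarith [norm_nonneg w]
    have hw0 : 0 < ‖w‖ := lt_of_le_of_lt hc hw3
    refine ⟨Function.update e j (‖w‖⁻¹ • w), Function.update b j g, ?_⟩
    intro i hi
    rcases (Nat.lt_succ_iff.1 hi).lt_or_eq with h1 | rfl
    · obtain ⟨a1, a2, a3, a4, a5⟩ := h i h1
      rw [Function.update_of_ne h1.ne, Function.update_of_ne h1.ne]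
      refine ⟨a1, a2, a3, fun l hl => ?_, fun z hz => a5 z fun l hl => ?_⟩
      · rw [Function.update_of_ne (by omega)]; exact a4 l hl
      · have := hz l hl
        rwa [Function.update_of_ne (by omega)] at this
    · rw [Function.update_self, Function.update_self]
      have h2 : ∀ l < i, ⟪e l, ‖w‖⁻¹ • w⟫ = 0 := by
        intro l hl; rw [real_inner_smul_right, hw2 l hl, mul_zero]
      refine ⟨?_, hg1, ?_, fun l hl => ?_, fun z hz => ?_⟩
      · rw [norm_smul, norm_inv, norm_norm, inv_mul_cancel₀ hw0.ne']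
      · rw [← hw1 _ h2, real_inner_smul_right, real_inner_self_eq_norm_sq]
        have : ‖w‖⁻¹ * ‖w‖ ^ 2 = ‖w‖ := by field_simp
        rw [this]; exact hw3.le
      · rw [Function.update_of_ne hl.ne]; exact h2 l hl
      · rw [← hw1 z]
        · have := hz i le_rfl
          rw [Function.update_self, real_inner_smul_left] at this
          exact (mul_eq_zero.1 this).resolve_left (inv_ne_zero hw0.ne')
        · intro l hl
          have := hz l hl.le
          rwa [Function.update_of_ne hl.ne] at this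

noncomputable def dl (n : ℕ) (i : Fin n) : L2 := lp.single 2 (i : ℕ) (1 : ℝ)

lemma dl_on (n : ℕ) : Orthonormal ℝ (dl n) := by
  rw [orthonormal_iff_ite]
  intro i j
  unfold dl
  rw [lp.inner_single_left]
  by_cases h : i = j
  · subst h; simp
  · have : (i : ℕ) ≠ j := fun h1 => h (Fin.ext h1)
    simp [h, this]

omit [CompleteSpace X] in
lemma hil_le (S : X →L[ℝ] Y) (k : ℕ) : hil k S (closedBall 0 1) ≤ ENNReal.ofReal ‖S‖ := by
  unfold hil
  refine iSup_le fun B => iSup_le fun hB => iSup_le fun A => iSup_le fun x => iSup_le fun _ =>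
    iSup_le fun hA => ?_
  refine iInf_le_of_le 0 ?_
  refine iSup_le fun f => iSup_le fun hf => iSup_le fun g => iSup_le fun hg => iSup_le fun _ => ?_
  apply ENNReal.ofReal_le_ofReal
  have h1 := mem_closedBall_zero_iff.1 (hA f hf)
  have h2 := mem_closedBall_zero_iff.1 (hA g hg)
  have h3 : ‖A f - A g‖ ≤ 2 := by
    have : A f - A g = (A f + x) - (A g + x) := by abel
    rw [this]; linarith [norm_sub_le (A f + x) (A g + x)]
  have h4 : (B ∘L S ∘L A) f - (B ∘L S ∘L A) g = B (S (A f - A g)) := by simp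
  rw [h4]
  have h5 := B.le_opNorm (S (A f - A g))
  have h6 := S.le_opNorm (A f - A g)
  have h7 : ‖B‖ * ‖S (A f - A g)‖ ≤ ‖S (A f - A g)‖ := mul_le_of_le_one_left (norm_nonneg _) hB
  nlinarith [norm_nonneg S]

lemma key (S : X →L[ℝ] Y) (m : ℕ) (c : ℝ) (hc : 0 ≤ c)
    (H : ENNReal.ofReal c < gel m S (closedBall 0 1)) :
    ENNReal.ofReal (c / Real.sqrt (m + 1 : ℕ)) ^ (m + 1) ≤
      ∏ k ∈ range (m + 1), hil k S (closedBall 0 1) := by
  have H' : ∀ L : Fin m → StrongDual ℝ X, ∃ x, ‖x‖ ≤ 1 ∧ (∀ k, L k x = 0) ∧ c < ‖S x‖ := by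
    intro L
    have h1 := lt_of_lt_of_le H (iInf_le _ L)
    simp only [lt_iSup_iff] at h1
    obtain ⟨f, hf, g, hg, h2, h3⟩ := h1
    rw [mem_closedBall_zero_iff] at hf hg
    rw [ENNReal.ofReal_lt_ofReal_iff_of_nonneg hc] at h3
    refine ⟨(1 / 2 : ℝ) • (f - g), ?_, fun k => ?_, ?_⟩
    · rw [norm_smul]; norm_num; linarith [norm_sub_le f g]
    · simp [h2 k]
    · rw [map_smul, norm_smul, map_sub]; norm_num; linarith
  obtain ⟨e, b, h⟩ := build S m c hc H' (m + 1) le_rfl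
  set n := m + 1 with hn
  have hn0 : (0 : ℝ) < (n : ℕ) := by positivity
  set s := Real.sqrt (n : ℕ) with hs
  have hs0 : 0 < s := Real.sqrt_pos.2 hn0
  have hs2 : s ^ 2 = (n : ℕ) := Real.sq_sqrt hn0.le
  have he : Orthonormal ℝ (fun i : Fin n => e i) := by
    refine ⟨fun i => (h i i.2).1, fun i j hij => ?_⟩
    rcases lt_or_gt_of_ne (fun h1 => hij (Fin.ext h1)) with h1 | h1
    · exact (h j j.2).2.2.2.1 i h1
    · rw [real_inner_comm]; exact (h i i.2).2.2.2.1 j h1
  set M : Matrix (Fin n) (Fin n) ℝ := Matrix.of fun i j => b i (S (e j)) with hM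
  have hdet : M.det = ∏ i, M i i := by
    apply Matrix.det_of_isLowerTriangular
    intro i j hij
    have hij' : (i : ℕ) < j := by simpa using hij
    exact (h i i.2).2.2.2.2 _ fun l hl => (h j j.2).2.2.2.1 l (by omega)
  have hdet2 : c ^ n ≤ M.det := by
    rw [hdet]
    calc c ^ n = ∏ _i : Fin n, c := by simp
      _ ≤ _ := Finset.prod_le_prod (fun _ _ => hc) fun i _ => (h i i.2).2.2.1
  obtain ⟨lam, l0, l1, l2⟩ := spec m M
  let A : L2 →L[ℝ] X := ∑ j : Fin n, (innerSL ℝ (dl n j)).smulRight (e j)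
  let B : Y →L[ℝ] L2 := ∑ i : Fin n, (s⁻¹ • b i).smulRight (dl n i)
  have hA : ∀ a, A a = ∑ j : Fin n, ⟪dl n j, a⟫ • e j := by
    intro a; simp [A]
  have hB : ∀ y, B y = ∑ i : Fin n, (s⁻¹ * b i y) • dl n i := by
    intro y; simp [B]
  have hB1 : ‖B‖ ≤ 1 := by
    refine B.opNorm_le_bound zero_le_one fun y => ?_
    rw [one_mul]
    refine (sq_le_sq₀ (norm_nonneg _) (norm_nonneg _)).1 ?_
    rw [hB, norm_sum_sq (dl_on n)]
    calc _ ≤ ∑ _i : Fin n, s⁻¹ ^ 2 * ‖y‖ ^ 2 := by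
          refine Finset.sum_le_sum fun i _ => ?_
          rw [mul_pow]
          refine mul_le_mul_of_nonneg_left ?_ (sq_nonneg _)
          have h1 := (b i).le_opNorm y
          have h2 : ‖b i‖ * ‖y‖ ≤ ‖y‖ := mul_le_of_le_one_left (norm_nonneg _) (h i i.2).2.1
          rw [← sq_abs]
          exact pow_le_pow_left₀ (abs_nonneg _) (h1.trans h2) 2
      _ = ‖y‖ ^ 2 := by
          rw [Finset.sum_const, card_univ, Fintype.card_fin, nsmul_eq_mul, inv_pow, hs2]
          field_simp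
  have hA1 : ∀ a ∈ closedBall (0 : L2) 1, A a + 0 ∈ closedBall (0 : X) 1 := by
    intro a ha
    rw [mem_closedBall_zero_iff] at ha ⊢
    rw [add_zero]
    refine (sq_le_sq₀ (norm_nonneg _) zero_le_one).1 ?_
    rw [hA, norm_sum_sq he]
    have h1 := (dl_on n).sum_inner_products_le (s := univ) a
    simp only [Real.norm_eq_abs, sq_abs] at h1
    nlinarith [norm_nonneg a]
  have hk : ∀ k : Fin n, ENNReal.ofReal (Real.sqrt (lam k) / s) ≤ hil k S (closedBall 0 1) := by
    intro k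
    unfold hil
    refine le_iSup_of_le B (le_iSup_of_le hB1 (le_iSup_of_le A (le_iSup_of_le 0
      (le_iSup_of_le (by simp) (le_iSup_of_le hA1 ?_)))))
    refine le_iInf fun L => ?_
    let ι : EuclideanSpace ℝ (Fin n) →L[ℝ] L2 :=
      ∑ i : Fin n, (EuclideanSpace.proj i).smulRight (dl n i)
    have hι : ∀ u, ι u = ∑ i : Fin n, u i • dl n i := by intro u; simp [ι]
    obtain ⟨u, u1, u2, u3⟩ := l2 k fun i => (L i ∘L ι).toLinearMap
    have u4 : ‖ι u‖ ≤ 1 := by
      refine (sq_le_sq₀ (norm_nonneg _) zero_le_one).1 ?_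
      rw [hι, norm_sum_sq (dl_on n), ← EuclideanSpace.real_norm_sq_eq, u1]
    refine le_iSup_of_le (ι u) (le_iSup_of_le (mem_closedBall_zero_iff.2 u4)
      (le_iSup_of_le (-ι u) (le_iSup_of_le (mem_closedBall_zero_iff.2 (by rwa [norm_neg]))
      (le_iSup_of_le ?_ ?_))))
    · intro i
      have : L i (ι u) = 0 := u2 i
      rw [map_neg, this, neg_zero]
    · apply ENNReal.ofReal_le_ofReal
      rw [map_neg, sub_neg_eq_add, ← two_smul ℝ, norm_smul, Real.norm_two,
        mul_div_cancel_left₀ _ two_ne_zero]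
      have h1 : A (ι u) = ∑ j : Fin n, u j • e j := by
        rw [hA]
        refine Finset.sum_congr rfl fun j _ => ?_
        rw [hι, (dl_on n).inner_right_fintype]
      refine (sq_le_sq₀ (by positivity) (norm_nonneg _)).1 ?_
      rw [ContinuousLinearMap.comp_apply, ContinuousLinearMap.comp_apply, h1, hB,
        norm_sum_sq (dl_on n), div_pow, Real.sq_sqrt (l0 k), div_eq_inv_mul]
      simp only [mul_pow, ← Finset.mul_sum, inv_pow]
      refine mul_le_mul_of_nonneg_left (u3.trans_eq ?_) (by positivity)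
      refine Finset.sum_congr rfl fun i _ => ?_
      simp [hM, map_sum, mul_comm]
      rfl
  rw [← Fin.prod_univ_eq_prod_range (fun k => hil k S (closedBall 0 1)) n]
  refine le_trans ?_ (Finset.prod_le_prod' fun k _ => hk k)
  rw [← ENNReal.ofReal_prod_of_nonneg (fun _ _ => by positivity),
    ← ENNReal.ofReal_pow (by positivity)]
  apply ENNReal.ofReal_le_ofReal
  rw [Finset.prod_div_distrib, Finset.prod_const, card_univ, Fintype.card_fin, div_pow]
  refine div_le_div_of_nonneg_right ?_ (by positivity)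
  rw [← Real.sqrt_prod _ (fun k _ => l0 k), l1]
  exact Real.le_sqrt_of_sq_le (pow_le_pow_left₀ (by positivity) hdet2 2)

universe u v

theorem main : ∀ (X : Type u) (Y : Type v) [NormedAddCommGroup X] [InnerProductSpace ℝ X]
    [CompleteSpace X] [NormedAddCommGroup Y] [NormedSpace ℝ Y] [CompleteSpace Y]
    (S : X →L[ℝ] Y), (∀ k, hil k S (closedBall 0 1) ≤ ENNReal.ofReal ‖S‖) ∧
      ∀ n : ℕ, 1 ≤ n → gel (n - 1) S (closedBall 0 1) ≤
        (n : ℝ≥0∞) ^ (1 / 2 : ℝ) *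
          (∏ k ∈ range n, hil k S (closedBall 0 1)) ^ (1 / (n : ℝ)) := by
  intro X Y _ _ _ _ _ _ S
  refine ⟨hil_le S, fun n hn => ?_⟩
  obtain ⟨m, rfl⟩ : ∃ m, n = m + 1 := ⟨n - 1, by omega⟩
  rw [Nat.add_sub_cancel]
  refine ENNReal.le_of_forall_nnreal_lt fun c hc => ?_
  have h1 := key S m c c.2 (by simpa using hc)
  have hn0 : (0 : ℝ) < (m + 1 : ℕ) := by positivity
  have h2 := ENNReal.rpow_le_rpow h1 (z := 1 / ((m + 1 : ℕ) : ℝ)) (by positivity)
  rw [← ENNReal.rpow_natCast, ← ENNReal.rpow_mul, mul_one_div_cancel hn0.ne',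
    ENNReal.rpow_one] at h2
  refine le_trans (le_of_eq ?_) (mul_le_mul_right h2 _)
  rw [← ENNReal.ofReal_natCast, ENNReal.ofReal_rpow_of_nonneg hn0.le (by norm_num),
    ← Real.sqrt_eq_rpow, ← ENNReal.ofReal_mul (Real.sqrt_nonneg _),
    mul_div_cancel₀ _ (Real.sqrt_pos.2 hn0).ne', ENNReal.ofReal_coe_nnreal]

end H91.GelHil
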