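import Pool.Agent.H88.H2

set_option autoImplicit false
open MeasureTheory Filter Topology Metric Set Complex

namespace Pool.Agent.H91.Gol

open Pool.Agent.H88.PS Pool.Agent.H88.H2

structure Sch (φ : ℂ → ℂ) : Prop where
  d : DifferentiableOn ℂ φ (ball 0 1)
  m : MapsTo φ (ball 0 1) (ball 0 1)
  z : φ 0 = 0

variable {A B : ℕ → ℂ} {F G φ : ℂ → ℂ}

theorem Sch.le (h : Sch φ) {z : ℂ} (hz : ‖z‖ < 1) : ‖φ z‖ ≤ ‖z‖ :=
  norm_le_norm_of_mapsTo_ball h.d (h.m.mono_right ball_subset_closedBall) h.z hz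

theorem euler (h : Rep A F) : Rep (fun n => n * A n) fun z => z * deriv F z := by
  intro z hz
  obtain ⟨s, h1, h2⟩ := exists_between hz
  have h0 : 0 ≤ s := (norm_nonneg _).trans h1.le
  have h3 := (hasSum_deriv_of_summable_norm (F := fun n w => A n * w ^ n) (h.summ h0 h2)
    (U := ball 0 s) (fun n => by fun_prop) isOpen_ball (fun n w hw => by
      rw [norm_mul, norm_pow]
      gcongr
      exact (mem_ball_zero_iff.1 hw).le) (mem_ball_zero_iff.2 h1)).mul_left z
  have e : deriv (fun w => ∑' n, A n * w ^ n) z = deriv F z :=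
    Filter.EventuallyEq.deriv_eq (by
      filter_upwards [isOpen_ball.mem_nhds (mem_ball_zero_iff.2 hz)] with w hw
      exact (h w (mem_ball_zero_iff.1 hw)).tsum_eq)
  rw [e] at h3
  refine (congrArg (fun f => HasSum f _) ?_).mp h3
  funext n
  cases n with
  | zero => simp
  | succ n =>
    simp only [deriv_const_mul_field', deriv_pow_field, Nat.add_sub_cancel]
    ring

theorem trunc (h : Rep A F) (hM : ∀ z, ‖z‖ < 1 → ‖F z‖ ≤ 1) (g : ℕ → ℂ) (m : ℕ) :
    ∑ k ∈ Finset.range m, ‖cv A g k‖ ^ 2 ≤ ∑ k ∈ Finset.range m, ‖g k‖ ^ 2 := by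
  set g' : ℕ → ℂ := fun k => if k < m then g k else 0 with hg'
  have h1 : HasSum (fun k => ‖g' k‖ ^ 2) (∑ k ∈ Finset.range m, ‖g' k‖ ^ 2) :=
    hasSum_sum_of_ne_finset_zero fun k hk => by
      simp only [Finset.mem_range] at hk
      simp [hg', hk]
  have h2 : ∑ k ∈ Finset.range m, ‖g' k‖ ^ 2 = ∑ k ∈ Finset.range m, ‖g k‖ ^ 2 :=
    Finset.sum_congr rfl fun k hk => by simp [hg', Finset.mem_range.1 hk]
  obtain ⟨h3, h4⟩ := h.contr hM h1.summable
  rw [h1.tsum_eq, h2, one_pow, one_mul] at h4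
  refine le_trans ?_ h4
  refine le_trans (le_of_eq ?_) (h3.sum_le_tsum (Finset.range m) fun _ _ => sq_nonneg _)
  refine Finset.sum_congr rfl fun k hk => ?_
  have := Finset.mem_range.1 hk
  congr 2
  refine Finset.sum_congr rfl fun j _ => ?_
  simp only [hg']
  rw [if_pos (by omega)]

theorem shift (h : Rep A F) : ∃ F', Rep (fun k => A (k + 1)) F' ∧
    ∀ z, ‖z‖ < 1 → F z = A 0 + z * F' z := by
  have h1 : Rep (fun k => A (k + 1)) (ps fun k => A (k + 1)) := by
    intro z hz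
    refine hasSum_ps (R := 1) (fun r h0 h1 => ?_) hz
    obtain ⟨s, hs1, hs2⟩ := exists_between h1
    have hs : 0 < s := h0.trans_lt hs1
    have := ((summable_nat_add_iff 1).2 (h.summ hs.le hs2)).mul_left s⁻¹
    refine Summable.of_nonneg_of_le (fun k => by positivity) (fun k => ?_) this
    rw [pow_succ, show s⁻¹ * (‖A (k + 1)‖ * (s ^ k * s)) = ‖A (k + 1)‖ * s ^ k by field_simp]
    gcongr
  refine ⟨_, h1, fun z hz => ?_⟩
  have h2 := (h1 z hz).mul_left z
  have h3 := (hasSum_nat_add_iff' 1).2 (h z hz)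
  have h4 : (fun n => A (n + 1) * z ^ (n + 1)) = fun n => z * (A (n + 1) * z ^ n) := by
    funext n; ring
  rw [h4] at h3
  have := h3.unique h2
  simp at this
  rw [← this]; ring

theorem unshift (h : Rep A F) (h' : Rep B G) {c : ℂ} (e : ∀ z, ‖z‖ < 1 → F z = c + z * G z) :
    A 0 = c ∧ ∀ k, A (k + 1) = B k := by
  have h1 : Rep (fun k => Nat.casesOn k c B) F := by
    intro z hz
    rw [← hasSum_nat_add_iff' 1]
    have h2 := (h' z hz).mul_left z
    have h4 : (fun n => B n * z ^ (n + 1)) = fun n => z * (B n * z ^ n) := by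
      funext n; ring
    simp only [Finset.range_one, Finset.sum_singleton, pow_zero, mul_one]
    rw [e z hz, h4]
    exact (add_sub_cancel_left c (z * G z)).symm ▸ h2
  have := h.unique h1 fun _ _ => rfl
  exact ⟨congrFun this 0, fun k => congrFun this (k + 1)⟩

theorem Sch.comp (h : Sch φ) (hF : DifferentiableOn ℂ F (ball 0 1)) :
    DifferentiableOn ℂ (fun z => F (φ z)) (ball 0 1) := hF.comp h.d h.m

theorem rog (h : Sch φ) (m : ℕ) : ∀ (A B : ℕ → ℂ) (F : ℂ → ℂ), Rep A F →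
    Rep B (fun z => F (φ z)) →
    ∑ k ∈ Finset.range m, ‖B k‖ ^ 2 ≤ ∑ k ∈ Finset.range m, ‖A k‖ ^ 2 := by
  have hψ : DifferentiableOn ℂ (dslope φ 0) (ball 0 1) :=
    (differentiableOn_dslope (ball_mem_nhds _ one_pos)).2 h.d
  have hψ1 : ∀ z, ‖z‖ < 1 → ‖dslope φ 0 z‖ ≤ 1 := fun z hz => by
    have := norm_dslope_le_div_of_mapsTo_ball (R₂ := 1) h.d
      (by rw [h.z]; exact h.m.mono_right ball_subset_closedBall) (mem_ball_zero_iff.2 hz)
    simpa using this
  have hψ2 : ∀ z, φ z = z * dslope φ 0 z := fun z => by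
    have := sub_smul_dslope φ 0 z
    rw [h.z, sub_zero, sub_zero, smul_eq_mul] at this
    exact this.symm
  induction m with
  | zero => intros; simp
  | succ m ih =>
    intro A B F hA hB
    obtain ⟨F', h1, h2⟩ := shift hA
    have h3 := rep_coef (h.comp h1.diff)
    have h4 := ih _ _ _ h1 h3
    have h5 := (rep_coef hψ).mul h3
    obtain ⟨h6, h7⟩ := unshift hB h5 (c := A 0) fun z hz => by
      rw [h2 _ ((h.le hz).trans_lt hz)]
      nth_rewrite 1 [hψ2 z]
      ring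
    rw [Finset.sum_range_succ', Finset.sum_range_succ', h6]
    simp only [h7]
    linarith [trunc (rep_coef hψ) hψ1 (coef fun z => F' (φ z)) m]

theorem abel {x y w : ℕ → ℝ} (hw : ∀ k, w (k + 1) ≤ w k) (h0 : ∀ k, 0 ≤ w k)
    (h : ∀ m, ∑ k ∈ Finset.range m, x k ≤ ∑ k ∈ Finset.range m, y k) {a b : ℝ}
    (ha : HasSum (fun k => x k * w k) a) (hb : HasSum (fun k => y k * w k) b) : a ≤ b := by
  have h1 : ∀ m, w m * (∑ k ∈ Finset.range m, y k - ∑ k ∈ Finset.range m, x k) ≤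
      ∑ k ∈ Finset.range m, y k * w k - ∑ k ∈ Finset.range m, x k * w k := by
    intro m
    induction m with
    | zero => simp
    | succ m ih =>
      have h2 := mul_le_mul_of_nonneg_right (hw m) (sub_nonneg.2 (h (m + 1)))
      refine h2.trans ?_
      simp only [Finset.sum_range_succ]
      nlinarith
  refine le_of_tendsto_of_tendsto' ha.tendsto_sum_nat hb.tendsto_sum_nat fun m => ?_
  have := mul_nonneg (h0 m) (sub_nonneg.2 (h m))
  linarith [h1 m]

theorem little (h : Sch φ) (hF : DifferentiableOn ℂ F (ball 0 1)) {r : ℝ} (h0 : 0 ≤ r)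
    (h1 : r < 1) : av (fun θ => ‖F (φ (r * exp (θ * I)))‖ ^ 2) ≤
      av fun θ => ‖F (r * exp (θ * I))‖ ^ 2 := by
  have hA := rep_coef hF
  have hB := rep_coef (h.comp hF)
  refine abel (w := fun k => (r ^ 2) ^ k) (fun k => ?_) (fun k => by positivity)
    (fun m => rog h m _ _ _ hA hB) (hB.parseval h0 h1) (hA.parseval h0 h1)
  rw [pow_succ]
  exact mul_le_of_le_one_right (by positivity) (pow_le_one₀ h0 h1.le)

theorem gol (h : Sch φ) (hF : DifferentiableOn ℂ F (ball 0 1)) {r : ℝ} (h0 : 0 < r)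
    (h1 : r ≤ 1 / 2) :
    av (fun θ => ‖F (φ (r * exp (θ * I)))‖ ^ 2 * ‖deriv φ (r * exp (θ * I))‖ ^ 2) ≤
      av fun θ => ‖F (r * exp (θ * I))‖ ^ 2 := by
  have h2 : r < 1 := by linarith
  obtain ⟨H, hH⟩ := hF.isExactOn_ball
  have hd : DifferentiableOn ℂ H (ball 0 1) := fun z hz =>
    (hH z hz).differentiableAt.differentiableWithinAt
  have hA := rep_coef hd
  have hB := rep_coef (h.comp hd)
  have e0 : coef (fun z => H (φ z)) 0 = coef H 0 := by rw [hA.zero, hB.zero, h.z]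
  have p1 := (hasSum_nat_add_iff' 1).2 ((euler hA).parseval h0.le h2)
  have p2 := (hasSum_nat_add_iff' 1).2 ((euler hB).parseval h0.le h2)
  have e1 : ∀ (C : ℕ → ℂ), (fun n : ℕ => ‖((n + 1 : ℕ) : ℂ) * C (n + 1)‖ ^ 2 * (r ^ 2) ^ (n + 1))
      = fun n : ℕ => ‖C (n + 1)‖ ^ 2 * (((n:ℝ) + 1) ^ 2 * (r ^ 2) ^ (n + 1)) := by
    intro C
    funext n
    rw [norm_mul, Complex.norm_natCast]
    push_cast
    ring
  rw [e1] at p1 p2
  have h3 := abel (w := fun n => ((n:ℝ) + 1) ^ 2 * (r ^ 2) ^ (n + 1)) (fun k => ?_)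
    (fun k => by positivity) (fun m => ?_) p2 p1
  · simp only [Finset.range_one, Finset.sum_singleton, Nat.cast_zero, zero_mul, norm_zero,
      ne_eq, OfNat.ofNat_ne_zero, not_false_eq_true, zero_pow, sub_zero] at h3
    have hz : ∀ θ : ℝ, (r:ℂ) * exp (θ * I) ∈ ball (0:ℂ) 1 := fun θ =>
      mem_ball_zero_iff.2 (by rwa [norm_re h0.le])
    have e2 : (fun θ : ℝ => ‖(r:ℂ) * exp (θ * I) * deriv H (r * exp (θ * I))‖ ^ 2)
        = fun θ : ℝ => r ^ 2 * ‖F (r * exp (θ * I))‖ ^ 2 := by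
      funext θ
      rw [norm_mul, norm_re h0.le, (hH _ (hz θ)).deriv, mul_pow]
    have e3 : (fun θ : ℝ => ‖(r:ℂ) * exp (θ * I) *
        deriv (fun z => H (φ z)) (r * exp (θ * I))‖ ^ 2)
        = fun θ : ℝ => r ^ 2 * (‖F (φ (r * exp (θ * I)))‖ ^ 2 *
          ‖deriv φ (r * exp (θ * I))‖ ^ 2) := by
      funext θ
      have := ((hH _ (h.m (hz θ))).comp _
        (h.d.differentiableAt (isOpen_ball.mem_nhds (hz θ))).hasDerivAt).deriv
      rw [norm_mul, norm_re h0.le, show (fun z => H (φ z)) = H ∘ φ from rfl, this, norm_mul]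
      ring
    rw [e2, e3, av_mul, av_mul] at h3
    exact le_of_mul_le_mul_left h3 (by positivity)
  · have h4 : r ^ 2 ≤ 1 / 4 := by nlinarith
    have h5 : (0:ℝ) ≤ k := k.cast_nonneg
    push_cast
    rw [pow_succ (r ^ 2) (k + 1), ← mul_assoc, mul_right_comm]
    refine mul_le_mul_of_nonneg_right ?_ (by positivity)
    nlinarith [mul_le_mul_of_nonneg_left h4 (sq_nonneg ((k:ℝ) + 1 + 1))]
  · have := rog h (m + 1) _ _ _ hA hB
    rw [Finset.sum_range_succ', Finset.sum_range_succ', e0] at this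
    linarith

end Pool.Agent.H91.Gol
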