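import Pool.Agent.H91.Gol1

set_option autoImplicit false
open MeasureTheory Filter Topology Metric Set Complex

namespace Pool.Agent.H91.Gol

open Pool.Agent.H88.PS Pool.Agent.H88.H2

theorem av_lim {u : ℕ → ℝ → ℝ} {v : ℝ → ℝ} (hu : ∀ n, Continuous (u n)) {b : ℝ → ℝ}
    (hb : Continuous b) (h1 : ∀ n θ, |u n θ| ≤ b θ)
    (h2 : ∀ θ, Tendsto (fun n => u n θ) atTop (𝓝 (v θ))) :
    Tendsto (fun n => av (u n)) atTop (𝓝 (av v)) :=
  (intervalIntegral.tendsto_integral_filter_of_dominated_convergence b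
    (Eventually.of_forall fun n => (hu n).aestronglyMeasurable)
    (Eventually.of_forall fun n => ae_of_all _ fun θ _ => h1 n θ) (hb.intervalIntegrable _ _)
    (ae_of_all _ fun θ _ => h2 θ)).const_mul _

structure Dat (r : ℝ) (a : ℝ → ℂ) (W : ℝ → ℝ) : Prop where
  r0 : 0 < r
  ca : Continuous a
  na : ∀ θ, ‖a θ‖ ≤ r
  cW : Continuous W
  W0 : ∀ θ, 0 ≤ W θ

def Good (r : ℝ) (a : ℝ → ℂ) (W : ℝ → ℝ) (v : ℂ → ℝ) : Prop :=
  av (fun θ => v (a θ) * W θ) ≤ av fun θ => v (r * exp (θ * I))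

variable {r : ℝ} {a : ℝ → ℂ} {W : ℝ → ℝ}

theorem Dat.ma (h : Dat r a W) (θ : ℝ) : a θ ∈ closedBall (0:ℂ) r :=
  mem_closedBall_zero_iff.2 (h.na θ)

theorem Dat.mc (h : Dat r a W) (θ : ℝ) : (r:ℂ) * exp (θ * I) ∈ closedBall (0:ℂ) r :=
  mem_closedBall_zero_iff.2 (norm_re h.r0.le θ).le

theorem Dat.lim (h : Dat r a W) {v : ℕ → ℂ → ℝ} {u : ℂ → ℝ} {C : ℝ}
    (hc : ∀ n, ContinuousOn (v n) (closedBall 0 r))
    (hb : ∀ n, ∀ z ∈ closedBall (0:ℂ) r, |v n z| ≤ C)
    (hl : ∀ z ∈ closedBall (0:ℂ) r, Tendsto (fun n => v n z) atTop (𝓝 (u z)))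
    (hg : ∀ n, Good r a W (v n)) : Good r a W u := by
  refine le_of_tendsto_of_tendsto' (av_lim (b := fun θ => C * W θ)
    (u := fun n θ => v n (a θ) * W θ)
    (fun n => ((hc n).comp_continuous h.ca h.ma).mul h.cW) (continuous_const.mul h.cW)
    (fun n θ => ?_) fun θ => (hl _ (h.ma θ)).mul_const _)
    (av_lim (b := fun _ => C) (u := fun n θ => v n (r * exp (θ * I)))
    (fun n => (hc n).comp_continuous (by fun_prop) h.mc) continuous_const
    (fun n θ => hb n _ (h.mc θ)) fun θ => hl _ (h.mc θ)) hg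
  rw [abs_mul, abs_of_nonneg (h.W0 θ)]
  exact mul_le_mul_of_nonneg_right (hb n _ (h.ma θ)) (h.W0 θ)

theorem Dat.mono (h : Dat r a W) {v u : ℂ → ℝ} (hv : ContinuousOn v (closedBall 0 r))
    (hu : ContinuousOn u (closedBall 0 r)) (h1 : ∀ z ∈ closedBall (0:ℂ) r, u z ≤ v z)
    (h2 : ∀ z : ℂ, ‖z‖ = r → v z = u z) (hg : Good r a W v) : Good r a W u := by
  have e : (fun θ : ℝ => v (r * exp (θ * I))) = fun θ : ℝ => u (r * exp (θ * I)) :=
    funext fun θ => h2 _ (norm_re h.r0.le θ)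
  unfold Good at *
  rw [e] at hg
  exact le_trans (av_mono ((hu.comp_continuous h.ca h.ma).mul h.cW)
    ((hv.comp_continuous h.ca h.ma).mul h.cW) fun θ =>
      mul_le_mul_of_nonneg_right (h1 _ (h.ma θ)) (h.W0 θ)) hg

theorem cont_pow {F : ℂ → ℂ} {s : Set ℂ} (hF : ContinuousOn F s) {q : ℝ} (hq : 0 < q) :
    ContinuousOn (fun z => ‖F z‖ ^ q) s :=
  hF.norm.rpow_const fun _ _ => Or.inr hq.le

theorem Dat.approx (h : Dat r a W) {q : ℝ} (hq : 0 < q)
    (hP : ∀ P : Polynomial ℂ, Good r a W fun z => ‖P.eval z‖ ^ q) {F : ℂ → ℂ} {R : ℝ}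
    (hR : r < R) (hF : DifferentiableOn ℂ F (ball 0 R)) : Good r a W fun z => ‖F z‖ ^ q := by
  have hs := summable_norm_coef hF h.r0.le hR
  refine h.lim (v := fun n z => ‖∑ k ∈ Finset.range n, coef F k * z ^ k‖ ^ q)
    (C := (∑' k, ‖coef F k‖ * r ^ k) ^ q) (fun n => cont_pow (by fun_prop) hq)
    (fun n z hz => ?_) (fun z hz => ?_) fun n => ?_
  · rw [abs_of_nonneg (by positivity)]
    refine Real.rpow_le_rpow (norm_nonneg _) ((norm_sum_le _ _).trans ?_) hq.le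
    refine le_trans (Finset.sum_le_sum fun k _ => ?_)
      (hs.sum_le_tsum (Finset.range n) fun k _ => by have := h.r0; positivity)
    rw [norm_mul, norm_pow]
    gcongr
    exact mem_closedBall_zero_iff.1 hz
  · exact (hasSum_coef hF ((mem_closedBall_zero_iff.1 hz).trans_lt hR)).tendsto_sum_nat.norm.rpow_const
      (Or.inr hq.le)
  · have := hP (∑ k ∈ Finset.range n, Polynomial.C (coef F k) * Polynomial.X ^ k)
    simpa [Polynomial.eval_finset_sum] using this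

theorem ex_log {F : ℂ → ℂ} {R : ℝ} (hR : 0 < R) (hF : DifferentiableOn ℂ F (ball 0 R))
    (h0 : ∀ z ∈ ball (0:ℂ) R, F z ≠ 0) :
    ∃ L, DifferentiableOn ℂ L (ball 0 R) ∧ ∀ z ∈ ball (0:ℂ) R, exp (L z) = F z := by
  have h1 : DifferentiableOn ℂ (fun z => deriv F z / F z) (ball 0 R) :=
    (hF.deriv isOpen_ball).div hF h0
  obtain ⟨g, hg⟩ := h1.isExactOn_ball
  have hd : DifferentiableOn ℂ g (ball 0 R) := fun z hz =>
    (hg z hz).differentiableAt.differentiableWithinAt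
  have h2 : ∀ z ∈ ball (0:ℂ) R, F z * exp (-g z) = F 0 * exp (-g 0) := fun z hz =>
    isOpen_ball.is_const_of_deriv_eq_zero (f := fun z => F z * exp (-g z))
      (convex_ball _ _).isPreconnected (hF.mul hd.neg.cexp) (fun w hw => by
        have := ((hF.differentiableAt (isOpen_ball.mem_nhds hw)).hasDerivAt.mul
          (hg w hw).neg.cexp).deriv
        have h3 := h0 w hw
        refine Eq.trans this ?_
        simp only [Pi.neg_apply, Pi.zero_apply]
        field_simp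
        ring) hz (mem_ball_self hR)
  refine ⟨fun z => g z + log (F 0 * exp (-g 0)), hd.add_const _, fun z hz => ?_⟩
  rw [exp_add, exp_log (mul_ne_zero (h0 0 (mem_ball_self hR)) (exp_ne_zero _)), ← h2 z hz,
    exp_neg]
  have := exp_ne_zero (g z)
  field_simp

theorem Dat.free (h : Dat r a W) {p q : ℝ} (hp : 0 < p) (hq : 0 < q)
    (hP : ∀ P : Polynomial ℂ, Good r a W fun z => ‖P.eval z‖ ^ q) {F : ℂ → ℂ}
    (hF : Differentiable ℂ F) (h0 : ∀ z ∈ ball (0:ℂ) r, F z ≠ 0) :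
    Good r a W fun z => ‖F z‖ ^ p := by
  have hr := h.r0
  obtain ⟨C, hC⟩ := (isCompact_closedBall (0:ℂ) r).exists_bound_of_continuousOn
    hF.continuous.continuousOn
  have hc := hF.continuous
  set t : ℕ → ℝ := fun n => 1 - 1 / ((n:ℝ) + 2) with ht
  have t0 : ∀ n, 0 < t n ∧ t n < 1 := fun n => by
    have h1 : (0:ℝ) ≤ n := n.cast_nonneg
    have h2 : 1 / ((n:ℝ) + 2) ≤ 1 / 2 := one_div_le_one_div_of_le two_pos (by linarith)
    have h3 : 0 < 1 / ((n:ℝ) + 2) := by positivity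
    simp only [ht]
    constructor <;> linarith
  have tl : Tendsto t atTop (𝓝 1) := by
    have : Tendsto (fun n : ℕ => 1 / ((n:ℝ) + 2)) atTop (𝓝 0) :=
      tendsto_const_nhds.div_atTop (tendsto_natCast_atTop_atTop.atTop_add tendsto_const_nhds)
    have h2 := this.const_sub 1
    rw [sub_zero] at h2
    exact h2
  have nt : ∀ n (z : ℂ), ‖(t n : ℂ) * z‖ = t n * ‖z‖ := fun n z => by
    rw [norm_mul, norm_real, Real.norm_of_nonneg (t0 n).1.le]
  refine h.lim (v := fun n z => ‖F (t n * z)‖ ^ p) (C := C ^ p)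
    (fun n => cont_pow (by fun_prop) hp) (fun n z hz => ?_) (fun z _ => ?_) fun n => ?_
  · rw [abs_of_nonneg (by positivity)]
    refine Real.rpow_le_rpow (norm_nonneg _) (hC _ ?_) hp.le
    rw [mem_closedBall_zero_iff, nt] at *
    nlinarith [t0 n, norm_nonneg z]
  · have h1 : Tendsto (fun n => (t n : ℂ) * z) atTop (𝓝 z) := by
      simpa using ((continuous_ofReal.tendsto 1).comp tl).mul_const z
    exact ((hc.tendsto z).comp h1).norm.rpow_const (Or.inr hp.le)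
  · obtain ⟨t1, t2⟩ := t0 n
    have hR : r < r / t n := by rw [lt_div_iff₀ t1]; nlinarith
    obtain ⟨L, hL, hL'⟩ := ex_log (F := fun z => F (t n * z)) (hr.trans hR)
      (by fun_prop) fun z hz => h0 _ (by
        rw [mem_ball_zero_iff] at *
        rw [nt, mul_comm]
        exact (lt_div_iff₀ t1).1 hz)
    have h1 := h.approx hq hP hR (F := fun z => exp ((p / q : ℝ) * L z))
      (hL.const_mul _).cexp
    have e : ∀ z ∈ closedBall (0:ℂ) r,
        ‖exp ((p / q : ℝ) * L z)‖ ^ q = ‖F (t n * z)‖ ^ p := fun z hz => by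
      rw [← hL' z (closedBall_subset_ball hR hz), norm_exp, norm_exp, ← Real.exp_mul,
        ← Real.exp_mul, re_ofReal_mul]
      congr 1
      field_simp
    unfold Good at *
    simp only [e _ (h.ma _), e _ (h.mc _)] at h1
    exact h1

theorem factor (hr : 0 < r) (b : ℂ) : ∃ F : ℂ → ℂ, Differentiable ℂ F ∧
    (∀ z ∈ ball (0:ℂ) r, F z ≠ 0) ∧ (∀ z ∈ closedBall (0:ℂ) r, ‖z - b‖ ≤ ‖F z‖) ∧
    ∀ z : ℂ, ‖z‖ = r → ‖F z‖ = ‖z - b‖ := by
  rcases le_total r ‖b‖ with hb | hb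
  · refine ⟨fun z => z - b, by fun_prop, fun z hz h => ?_, fun _ _ => le_rfl, fun _ _ => rfl⟩
    rw [mem_ball_zero_iff, sub_eq_zero.1 h] at hz
    linarith
  · have key : ∀ z : ℂ, r ^ 2 * ‖(r:ℂ) - starRingEnd ℂ b * z / r‖ ^ 2 - r ^ 2 * ‖z - b‖ ^ 2
        = (r ^ 2 - ‖z‖ ^ 2) * (r ^ 2 - ‖b‖ ^ 2) := fun z => by
      have e : (r:ℂ) - starRingEnd ℂ b * z / r = ((r:ℂ) ^ 2 - starRingEnd ℂ b * z) / r := by
        have : (r:ℂ) ≠ 0 := ofReal_ne_zero.2 hr.ne'
        field_simp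
      rw [e, norm_div, norm_real, Real.norm_of_nonneg hr.le, div_pow, mul_div_cancel₀ _ (by positivity)]
      simp only [Complex.sq_norm]
      simp only [normSq_apply, sub_re, sub_im, mul_re, mul_im, conj_re, conj_im,
        sq, ofReal_re, ofReal_im]
      ring
    have hb2 : 0 ≤ r ^ 2 - ‖b‖ ^ 2 := by nlinarith [norm_nonneg b]
    refine ⟨fun z => r - starRingEnd ℂ b * z / r, by fun_prop, fun z hz h => ?_, fun z hz => ?_,
      fun z hz => ?_⟩
    · have h1 := congrArg norm (sub_eq_zero.1 h)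
      rw [norm_div, norm_mul, RCLike.norm_conj, norm_real, Real.norm_of_nonneg hr.le,
        eq_div_iff hr.ne'] at h1
      rw [mem_ball_zero_iff] at hz
      nlinarith [norm_nonneg z, norm_nonneg b]
    · rw [mem_closedBall_zero_iff] at hz
      have h1 : 0 ≤ r ^ 2 - ‖z‖ ^ 2 := by nlinarith [norm_nonneg z]
      have h2 := key z
      refine (sq_le_sq₀ (norm_nonneg _) (norm_nonneg _)).1
        (le_of_mul_le_mul_left ?_ (show 0 < r ^ 2 by positivity))
      nlinarith [mul_nonneg h1 hb2]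
    · have h2 := key z
      rw [hz, sub_self, zero_mul, sub_eq_zero] at h2
      exact (sq_eq_sq₀ (norm_nonneg _) (norm_nonneg _)).1
        (mul_left_cancel₀ (show r ^ 2 ≠ 0 by positivity) h2)

theorem factors (hr : 0 < r) (s : Multiset ℂ) : ∃ F : ℂ → ℂ, Differentiable ℂ F ∧
    (∀ z ∈ ball (0:ℂ) r, F z ≠ 0) ∧
    (∀ z ∈ closedBall (0:ℂ) r, ‖(s.map (z - ·)).prod‖ ≤ ‖F z‖) ∧
    ∀ z : ℂ, ‖z‖ = r → ‖F z‖ = ‖(s.map (z - ·)).prod‖ := by
  induction s using Multiset.induction_on with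
  | empty => exact ⟨fun _ => 1, by fun_prop, by simp, by simp, by simp⟩
  | cons b s ih =>
    obtain ⟨F, f1, f2, f3, f4⟩ := ih
    obtain ⟨G, g1, g2, g3, g4⟩ := factor hr b
    refine ⟨fun z => G z * F z, g1.mul f1, fun z hz => mul_ne_zero (g2 z hz) (f2 z hz),
      fun z hz => ?_, fun z hz => ?_⟩
    · rw [Multiset.map_cons, Multiset.prod_cons, norm_mul, norm_mul]
      exact mul_le_mul (g3 z hz) (f3 z hz) (norm_nonneg _) (norm_nonneg _)
    · rw [Multiset.map_cons, Multiset.prod_cons, norm_mul, norm_mul, g4 z hz, f4 z hz]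

theorem Dat.all (h : Dat r a W) {p q : ℝ} (hp : 0 < p) (hq : 0 < q)
    (hP : ∀ P : Polynomial ℂ, Good r a W fun z => ‖P.eval z‖ ^ q) {F : ℂ → ℂ} {R : ℝ}
    (hR : r < R) (hF : DifferentiableOn ℂ F (ball 0 R)) : Good r a W fun z => ‖F z‖ ^ p := by
  refine h.approx hp (fun P => ?_) hR hF
  by_cases h0 : P.leadingCoeff = 0
  · rw [Polynomial.leadingCoeff_eq_zero.1 h0]
    simp [Good, Real.zero_rpow hp.ne']
  obtain ⟨G, g1, g2, g3, g4⟩ := factors h.r0 P.roots
  have h1 := h.free hp hq hP (F := fun z => P.leadingCoeff * G z) (g1.const_mul _)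
    fun z hz => mul_ne_zero h0 (g2 z hz)
  have hc := g1.continuous
  refine h.mono (cont_pow (by fun_prop) hp) (cont_pow P.continuous.continuousOn hp)
    (fun z hz => ?_) (fun z hz => ?_) h1
  · rw [(IsAlgClosed.splits P).eval_eq_prod_roots, norm_mul, norm_mul]
    exact Real.rpow_le_rpow (by positivity)
      (mul_le_mul_of_nonneg_left (g3 z hz) (norm_nonneg _)) hp.le
  · rw [(IsAlgClosed.splits P).eval_eq_prod_roots, norm_mul, norm_mul, g4 z hz]

end Pool.Agent.H91.Gol
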