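import Pool.Agent.H91.Gol2

set_option autoImplicit false
open MeasureTheory Filter Topology Metric Set Complex

namespace Pool.Agent.H91.Gol

open Pool.Agent.H88.PS Pool.Agent.H88.H2

variable {φ F : ℂ → ℂ} {r p q : ℝ}

theorem Sch.dat0 (h : Sch φ) (h0 : 0 < r) (h1 : r < 1) {W : ℝ → ℝ} (hW : Continuous W)
    (hW0 : ∀ θ, 0 ≤ W θ) : Dat r (fun θ => φ (r * exp (θ * I))) W :=
  ⟨h0, (rep_coef h.d).cont h0.le h1, fun θ =>
    (h.le (by rwa [norm_re h0.le])).trans (norm_re h0.le θ).le, hW, hW0⟩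

theorem Sch.cW (h : Sch φ) (h0 : 0 < r) (h1 : r < 1) (hp : 0 < p) :
    Continuous fun θ : ℝ => ‖deriv φ (r * exp (θ * I))‖ ^ p :=
  ((rep_coef (h.d.deriv isOpen_ball)).cont h0.le h1).norm.rpow_const fun _ => Or.inr hp.le

theorem Sch.dat (h : Sch φ) (h0 : 0 < r) (h1 : r < 1) (hp : 0 < p) :
    Dat r (fun θ => φ (r * exp (θ * I))) fun θ => ‖deriv φ (r * exp (θ * I))‖ ^ p :=
  h.dat0 h0 h1 (h.cW h0 h1 hp) fun _ => by positivity

theorem Sch.lit (h : Sch φ) (h0 : 0 < r) (h1 : r < 1) (hq : 0 < q)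
    (hF : DifferentiableOn ℂ F (ball 0 1)) :
    Good r (fun θ => φ (r * exp (θ * I))) (fun _ => 1) fun z => ‖F z‖ ^ q := by
  refine (h.dat0 h0 h1 continuous_const fun _ => zero_le_one).all hq two_pos (fun P => ?_) h1 hF
  have := little h (F := fun z => P.eval z) P.differentiable.differentiableOn h0.le h1
  simpa only [Good, mul_one, Real.rpow_two] using this

def At (p r : ℝ) : Prop := ∀ φ F : ℂ → ℂ, Sch φ → DifferentiableOn ℂ F (ball 0 1) →
  Good r (fun θ => φ (r * exp (θ * I))) (fun θ => ‖deriv φ (r * exp (θ * I))‖ ^ p)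
    fun z => ‖F z‖ ^ p

theorem At.down (h0 : 0 < r) (h1 : r < 1) (hp : 0 < p) (hpq : p ≤ q) (h : At q r) : At p r := by
  intro φ F hφ hF
  have hq := hp.trans_le hpq
  refine (hφ.dat h0 h1 hp).all hp hq (fun P => ?_) h1 hF
  have a1 := h φ (fun z => P.eval z) hφ P.differentiable.differentiableOn
  have a2 := hφ.lit h0 h1 hq (F := fun z => P.eval z) P.differentiable.differentiableOn
  unfold Good at *
  simp only [mul_one] at a2
  have t0 : 0 ≤ p / q := by positivity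
  have t1 : 0 ≤ 1 - p / q := sub_nonneg.2 ((div_le_one hq).2 hpq)
  have c1 : Continuous fun θ : ℝ => ‖P.eval (φ (r * exp (θ * I)))‖ ^ q :=
    (P.continuous.comp (hφ.dat h0 h1 hp).ca).norm.rpow_const fun _ => Or.inr hq.le
  have c2 := c1.mul (hφ.cW h0 h1 hq)
  have a3 := av_mono (c1.mul (hφ.cW h0 h1 hp))
    ((c2.const_mul (p / q)).add (c1.const_mul (1 - p / q))) fun θ => by
      have := Real.geom_mean_le_arith_mean2_weighted t0 t1
        (Real.rpow_nonneg (norm_nonneg (deriv φ (r * exp (θ * I)))) q) zero_le_one (by ring)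
      rw [Real.one_rpow, mul_one, ← Real.rpow_mul (norm_nonneg _),
        mul_div_cancel₀ _ hq.ne'] at this
      have h2 := mul_le_mul_of_nonneg_left this
        (Real.rpow_nonneg (norm_nonneg (P.eval (φ (r * exp (θ * I))))) q)
      simp only [Pi.mul_apply, Pi.add_apply]
      linarith
  have a4 := av_add (c2.const_mul (p / q)) (c1.const_mul (1 - p / q))
  rw [av_mul, av_mul] at a4
  refine a3.trans (le_of_eq_of_le a4 ?_)
  have a5 := mul_le_mul_of_nonneg_left a1 t0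
  have a6 := mul_le_mul_of_nonneg_left a2 t1
  refine le_trans (add_le_add a5 a6) (le_of_eq ?_)
  ring

theorem at_two (h0 : 0 < r) (h1 : r ≤ 1 / 2) : At 2 r := fun φ F hφ hF => by
  simpa only [Good, Real.rpow_two] using gol hφ hF h0 h1

theorem not_at (h0 : 1 / 2 < r) (hp : 0 < p) : ¬At p r := by
  intro h
  have hφ : Sch fun z => z ^ 2 := ⟨by fun_prop, fun z hz => by
    rw [mem_ball_zero_iff] at *
    rw [norm_pow]
    exact pow_lt_one₀ (norm_nonneg _) hz two_ne_zero, by simp⟩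
  have h2 := h _ (fun _ => 1) hφ (by fun_prop)
  have e : ∀ θ : ℝ, ‖deriv (fun z : ℂ => z ^ 2) (r * exp (θ * I))‖ = 2 * r := fun θ => by
    rw [deriv_pow_field]
    simp only [Nat.cast_ofNat, Nat.add_one_sub_one, pow_one]
    rw [norm_mul, norm_re (by linarith)]
    simp
  simp only [Good, e, norm_one, Real.one_rpow, one_mul, av_const] at h2
  exact absurd h2 (not_le.2 (Real.one_lt_rpow (by linarith) hp))

theorem coef1 (hF : DifferentiableOn ℂ F (ball 0 1)) (hM : ∀ z, ‖z‖ < 1 → ‖F z‖ ≤ 1) :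
    ‖deriv F 0‖ ≤ 1 - ‖F 0‖ ^ 2 := by
  have hA := rep_coef hF
  have e0 := hA.zero
  have e1 : coef F 1 = deriv F 0 := by simp [coef]
  have key : ∀ x y : ℂ, ‖F 0 * x‖ ^ 2 + ‖F 0 * y + deriv F 0 * x‖ ^ 2 ≤ ‖x‖ ^ 2 + ‖y‖ ^ 2 := by
    intro x y
    have := trunc hA hM (fun k => if k = 0 then x else y) 2
    simpa [Finset.sum_range_succ, cv, e0, e1] using this
  set c := F 0
  set d := deriv F 0
  have hc : c * starRingEnd ℂ c = ((‖c‖ ^ 2 : ℝ) : ℂ) := by
    rw [mul_conj, Complex.sq_norm]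
  have ht : ‖c‖ ^ 2 ≤ 1 := pow_le_one₀ (norm_nonneg _) (hM 0 (by simp))
  rcases ht.eq_or_lt with ht | ht
  · have h1 := key 1 (starRingEnd ℂ c * d)
    rw [← mul_assoc, hc, ht, show ((1:ℝ):ℂ) * d + d * 1 = 2 * d by push_cast; ring] at h1
    simp only [norm_mul, mul_one, norm_one, RCLike.norm_conj, mul_pow, ht, Complex.norm_ofNat] at h1
    have : ‖d‖ ^ 2 ≤ 0 := by nlinarith
    have h2 : ‖d‖ = 0 := by nlinarith [norm_nonneg d]
    linarith
  · have h1 := key ((1 - ‖c‖ ^ 2 : ℝ) : ℂ) (starRingEnd ℂ c * d)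
    rw [← mul_assoc, hc, show ((‖c‖ ^ 2 : ℝ) : ℂ) * d + d * ((1 - ‖c‖ ^ 2 : ℝ) : ℂ) = d by
      push_cast; ring] at h1
    simp only [norm_mul, RCLike.norm_conj, mul_pow, norm_real, Real.norm_eq_abs, sq_abs] at h1
    refine le_of_pow_le_pow_left₀ two_ne_zero (by linarith) ?_
    refine le_of_mul_le_mul_left ?_ (sub_pos.2 ht)
    nlinarith

theorem mob {z w : ℂ} (hz : ‖z‖ < 1) (hw : ‖w‖ < 1) :
    1 + starRingEnd ℂ z * w ≠ 0 ∧ ‖(w + z) / (1 + starRingEnd ℂ z * w)‖ < 1 := by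
  have key : ‖1 + starRingEnd ℂ z * w‖ ^ 2 - ‖w + z‖ ^ 2 = (1 - ‖z‖ ^ 2) * (1 - ‖w‖ ^ 2) := by
    simp only [Complex.sq_norm]
    simp only [normSq_apply, add_re, add_im, mul_re, mul_im, conj_re, conj_im, one_re, one_im]
    ring
  have h1 : 0 < (1 - ‖z‖ ^ 2) * (1 - ‖w‖ ^ 2) :=
    mul_pos (by nlinarith [norm_nonneg z]) (by nlinarith [norm_nonneg w])
  have h2 : ‖w + z‖ < ‖1 + starRingEnd ℂ z * w‖ :=
    lt_of_pow_lt_pow_left₀ 2 (norm_nonneg _) (by linarith)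
  have h3 := (norm_nonneg _).trans_lt h2
  exact ⟨norm_pos_iff.1 h3, by rw [norm_div]; exact (div_lt_one h3).2 h2⟩

theorem pick (hF : DifferentiableOn ℂ F (ball 0 1)) (hM : ∀ z, ‖z‖ < 1 → ‖F z‖ ≤ 1) {z : ℂ}
    (hz : ‖z‖ < 1) : ‖deriv F z‖ * (1 - ‖z‖ ^ 2) ≤ 1 - ‖F z‖ ^ 2 := by
  set m : ℂ → ℂ := fun w => (w + z) / (1 + starRingEnd ℂ z * w) with hm
  have m0 : m 0 = z := by simp [hm]
  have md : DifferentiableOn ℂ m (ball 0 1) :=
    DifferentiableOn.div (by fun_prop) (by fun_prop) fun w hw =>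
      (mob hz (mem_ball_zero_iff.1 hw)).1
  have h1 := coef1 (F := F ∘ m) (hF.comp md fun w hw =>
    mem_ball_zero_iff.2 (mob hz (mem_ball_zero_iff.1 hw)).2) fun w hw => hM _ (mob hz hw).2
  have h2 : HasDerivAt m ((1 - ‖z‖ ^ 2 : ℝ) : ℂ) 0 := by
    have := ((hasDerivAt_id (0:ℂ)).add_const z).div
      (((hasDerivAt_id (0:ℂ)).const_mul (starRingEnd ℂ z)).const_add 1) (by simp)
    refine HasDerivAt.congr_deriv this ?_
    simp only [id, mul_zero, add_zero, mul_one, zero_add, one_pow, div_one]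
    rw [mul_conj, Complex.sq_norm]
    push_cast
    ring
  have h3 : HasDerivAt F (deriv F z) (m 0) := by
    rw [m0]
    exact (hF.differentiableAt (isOpen_ball.mem_nhds (mem_ball_zero_iff.2 hz))).hasDerivAt
  rw [(h3.comp 0 h2).deriv, Function.comp, m0, norm_mul, norm_real,
    Real.norm_of_nonneg (by nlinarith [norm_nonneg z])] at h1
  exact h1

theorem Sch.car (h : Sch φ) {z : ℂ} (hz : ‖z‖ ≤ √2 - 1) : ‖deriv φ z‖ ≤ 1 := by
  have s2 := Real.sq_sqrt (show (0:ℝ) ≤ 2 by norm_num)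
  have s0 := Real.sqrt_nonneg 2
  have n0 := norm_nonneg z
  have h1 : 2 * ‖z‖ ≤ 1 - ‖z‖ ^ 2 := by nlinarith
  have h2 : ‖z‖ < 1 := by nlinarith
  have hψ : DifferentiableOn ℂ (dslope φ 0) (ball 0 1) :=
    (differentiableOn_dslope (ball_mem_nhds _ one_pos)).2 h.d
  have hψ1 : ∀ z, ‖z‖ < 1 → ‖dslope φ 0 z‖ ≤ 1 := fun z hz => by
    have := norm_dslope_le_div_of_mapsTo_ball (R₂ := 1) h.d
      (by rw [h.z]; exact h.m.mono_right ball_subset_closedBall) (mem_ball_zero_iff.2 hz)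
    simpa using this
  have hψ2 : φ = fun z => z * dslope φ 0 z := funext fun z => by
    have := sub_smul_dslope φ 0 z
    rw [h.z, sub_zero, sub_zero, smul_eq_mul] at this
    exact this.symm
  have h3 := pick hψ hψ1 h2
  have h4 := ((hasDerivAt_id z).mul
    (hψ.differentiableAt (isOpen_ball.mem_nhds (mem_ball_zero_iff.2 h2))).hasDerivAt).deriv
  have h5 : deriv φ z = dslope φ 0 z + z * deriv (dslope φ 0) z := by
    nth_rewrite 1 [hψ2]
    refine Eq.trans h4 ?_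
    simp
  have h6 := hψ1 z h2
  rw [h5]
  refine (norm_add_le _ _).trans ?_
  rw [norm_mul]
  set s := ‖dslope φ 0 z‖
  set d := ‖deriv (dslope φ 0) z‖
  have d0 : 0 ≤ d := norm_nonneg _
  have s1 : 0 ≤ s := norm_nonneg _
  nlinarith [mul_le_mul_of_nonneg_left h1 d0]

theorem at_low (h0 : 0 < r) (h1 : r ≤ √2 - 1) (hp : 0 < p) : At p r := by
  intro φ F hφ hF
  have h2 : r < 1 := by
    have := Real.sqrt_lt_sqrt (show (0:ℝ) ≤ 2 by norm_num) (show (2:ℝ) < 2 ^ 2 by norm_num)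
    rw [Real.sqrt_sq (by norm_num)] at this
    linarith
  refine le_trans ?_ (hφ.lit h0 h2 hp hF)
  have c1 : Continuous fun θ : ℝ => ‖F (φ (r * exp (θ * I)))‖ ^ p :=
    ((rep_coef (hφ.comp hF)).cont h0.le h2).norm.rpow_const fun _ => Or.inr hp.le
  refine av_mono (c1.mul (hφ.cW h0 h2 hp)) (c1.mul continuous_const) fun θ => ?_
  exact mul_le_mul_of_nonneg_left (Real.rpow_le_one (norm_nonneg _)
    (hφ.car (by rwa [norm_re h0.le])) hp.le) (by positivity)

end Pool.Agent.H91.Gol
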