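import Pool.Agent.H91.Gol3

set_option autoImplicit false
open MeasureTheory Filter Topology Metric Set Complex

namespace Pool.Agent.H91.Gol

open Pool.Agent.H88.PS Pool.Agent.H88.H2

variable {φ F : ℂ → ℂ} {r p q : ℝ}

noncomputable def bl (c : ℝ) (z : ℂ) : ℂ := z * ((z + c) / (1 + c * z))

theorem bl_ne {c : ℝ} (h0 : 0 ≤ c) (h1 : c < 1) {z : ℂ} (hz : ‖z‖ < 1) :
    1 + (c:ℂ) * z ≠ 0 ∧ ‖(z + c) / (1 + c * z)‖ < 1 := by
  have := mob (z := c) (w := z) (by rwa [norm_real, Real.norm_of_nonneg h0]) hz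
  rwa [conj_ofReal] at this

theorem bl_sch {c : ℝ} (h0 : 0 ≤ c) (h1 : c < 1) : Sch (bl c) := by
  refine ⟨DifferentiableOn.mul (by fun_prop) (DifferentiableOn.div (by fun_prop) (by fun_prop)
    fun z hz => (bl_ne h0 h1 (mem_ball_zero_iff.1 hz)).1), fun z hz => ?_, by simp [bl]⟩
  rw [mem_ball_zero_iff] at *
  rw [bl, norm_mul]
  exact mul_lt_one_of_nonneg_of_lt_one_left (norm_nonneg _) hz (bl_ne h0 h1 hz).2.le

theorem bl_deriv {c : ℝ} {z : ℂ} (h : 1 + (c:ℂ) * z ≠ 0) :
    deriv (bl c) z = (c + 2 * z + c * z ^ 2) / (1 + c * z) ^ 2 := by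
  have := (hasDerivAt_id z).mul (((hasDerivAt_id z).add_const (c:ℂ)).div
    (((hasDerivAt_id z).const_mul (c:ℂ)).const_add 1) h)
  refine Eq.trans this.deriv ?_
  simp only [id, Pi.div_apply]
  field_simp
  ring

theorem not_big (h0 : √2 - 1 < r) (h1 : r < 1) : ∃ p, 0 < p ∧ ¬At p r := by
  have s2 := Real.sq_sqrt (show (0:ℝ) ≤ 2 by norm_num)
  have s1 : 1 < √2 := Real.lt_sqrt_of_sq_lt (by norm_num)
  have r0 : 0 < r := by linarith
  have d0 : 0 < r ^ 2 + 2 * r - 1 := by nlinarith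
  set c : ℝ := 1 - (r ^ 2 + 2 * r - 1) / 2 with hc
  have c0 : 0 ≤ c := by rw [hc]; nlinarith
  have c1 : c < 1 := by rw [hc]; linarith
  have hφ := bl_sch c0 c1
  set y : ℝ → ℝ := fun θ => ‖deriv (bl c) (r * exp (θ * I))‖ with hy
  have cy : Continuous y := ((rep_coef (hφ.d.deriv isOpen_ball)).cont r0.le h1).norm
  have y0 : 1 < y 0 := by
    have hr : ‖(r:ℂ)‖ < 1 := by rwa [norm_real, Real.norm_of_nonneg r0.le]
    simp only [hy, ofReal_zero, zero_mul, exp_zero, mul_one]
    rw [bl_deriv (bl_ne c0 c1 hr).1,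
      show ((c:ℂ) + 2 * r + c * r ^ 2) / (1 + c * r) ^ 2
        = ((c + 2 * r + c * r ^ 2) / (1 + c * r) ^ 2 : ℝ) by push_cast; rfl,
      norm_real, Real.norm_of_nonneg (by positivity), one_lt_div (by positivity)]
    have e : c + 2 * r + c * r ^ 2 - (1 + c * r) ^ 2
        = (1 - c) * ((r ^ 2 + 2 * r - 1) - (1 - c) * r ^ 2) := by ring
    have e2 : 1 - c = (r ^ 2 + 2 * r - 1) / 2 := by rw [hc]; ring
    have : 0 < (1 - c) * ((r ^ 2 + 2 * r - 1) - (1 - c) * r ^ 2) := by
      refine mul_pos (by linarith) ?_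
      rw [e2]
      nlinarith [mul_pos d0 (show 0 < 1 - r ^ 2 by nlinarith)]
    linarith
  obtain ⟨m, m1, m2⟩ := exists_between y0
  obtain ⟨ε, e0, he⟩ := Metric.eventually_nhds_iff.1
    (cy.continuousAt.eventually (lt_mem_nhds m2))
  set η := min (ε / 2) 1 with hη
  have η0 : 0 < η := lt_min (by linarith) one_pos
  have pi3 := Real.pi_gt_three
  obtain ⟨n, hn, n0⟩ := (((tendsto_pow_atTop_atTop_of_one_lt m1).eventually_gt_atTop
    (2 * Real.pi / η)).and (eventually_gt_atTop 0)).exists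
  refine ⟨n, by exact_mod_cast n0, fun h => ?_⟩
  have h2 := h _ (fun _ => 1) hφ (by fun_prop)
  simp only [Good, norm_one, one_pow, one_mul, av_const, Real.rpow_natCast] at h2
  have cn : Continuous fun θ => y θ ^ n := cy.pow n
  have h3 : ∫ θ in (0:ℝ)..η, y θ ^ n ≤ ∫ θ in (0:ℝ)..2 * Real.pi, y θ ^ n :=
    intervalIntegral.integral_mono_interval le_rfl η0.le
      (by linarith [min_le_right (ε / 2) 1])
      (ae_of_all _ fun θ => by simp only [hy, Pi.zero_apply]; positivity)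
      (cn.intervalIntegrable _ _)
  have h4 : ∫ θ in (0:ℝ)..η, m ^ n ≤ ∫ θ in (0:ℝ)..η, y θ ^ n :=
    intervalIntegral.integral_mono_on η0.le (continuous_const.intervalIntegrable _ _)
      (cn.intervalIntegrable _ _) fun θ hθ => pow_le_pow_left₀ (by linarith) (he (by
        rw [Real.dist_eq, sub_zero, abs_of_nonneg hθ.1]
        linarith [hθ.2, min_le_left (ε / 2) 1])).le n
  rw [intervalIntegral.integral_const, sub_zero, smul_eq_mul] at h4
  rw [div_lt_iff₀ η0] at hn
  rw [av, inv_mul_le_iff₀ (by positivity)] at h2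
  have h5 : ∫ θ in (0:ℝ)..2 * Real.pi, y θ ^ n ≤ 2 * Real.pi * 1 := h2
  linarith

theorem jet {A : ℕ → ℂ} (h : Rep A F) {c : ℂ} {G : ℂ → ℂ}
    (hG : DifferentiableOn ℂ G (ball 0 1)) (e : ∀ z, ‖z‖ < 1 → F z = c + z * G z) :
    A 0 = c ∧ Rep (fun k => A (k + 1)) G := by
  obtain ⟨h1, h2⟩ := unshift h (rep_coef hG) e
  exact ⟨h1, (funext h2 : (fun k => A (k + 1)) = coef G) ▸ rep_coef hG⟩

noncomputable def R14 (z : ℂ) : ℂ := ((-6081675264) * z ^ 0
  + (-76773602304) * z ^ 1
  + (-439821177600) * z ^ 2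
  + (-1535411271296) * z ^ 3
  + (-3703301138544) * z ^ 4
  + (-6625258492314) * z ^ 5
  + (-18336502676415/2) * z ^ 6
  + (-20027453652283/2) * z ^ 7
  + (-17307501278487/2) * z ^ 8
  + (-374741730709605/64) * z ^ 9
  + (-778880009337507/256) * z ^ 10
  + (-604973969962299/512) * z ^ 11
  + (-2703809930685759/8192) * z ^ 12
  + (-4090202088848631/65536) * z ^ 13
  + (-1870933382887653/262144) * z ^ 14
  + (-48790574123193/131072) * z ^ 15) / (4 + 3 * z) ^ 16

theorem not14 : ¬At 14 (497 / 1000) := by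
  intro h
  have c0 : (0:ℝ) ≤ 3 / 4 := by norm_num
  have c1 : (3 / 4 : ℝ) < 1 := by norm_num
  have r0 : (0:ℝ) < 497 / 1000 := by norm_num
  have r1 : (497 / 1000 : ℝ) < 1 := by norm_num
  have hφ := bl_sch c0 c1
  have hH : DifferentiableOn ℂ (fun w : ℂ => 2 + 3 * w + 2 * w ^ 2) (ball 0 1) := by fun_prop
  have h1 := (hφ.dat r0 r1 (show (0:ℝ) < 14 by norm_num)).all two_pos
    (show (0:ℝ) < 14 by norm_num)
    (fun P => h _ (fun z => P.eval z) hφ P.differentiable.differentiableOn) r1 hH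
  have hD : ∀ z : ℂ, ‖z‖ < 1 → 4 + 3 * z ≠ 0 := fun z hz h0 => (bl_ne c0 c1 hz).1 (by
    push_cast
    linear_combination h0 / 4)
  have hR : DifferentiableOn ℂ R14 (ball 0 1) :=
    DifferentiableOn.div (by fun_prop) (by fun_prop) fun z hz =>
      pow_ne_zero _ (hD z (mem_ball_zero_iff.1 hz))
  set u : ℂ → ℂ := fun z => (2 + 3 * bl (3 / 4) z + 2 * bl (3 / 4) z ^ 2) *
    deriv (bl (3 / 4)) z ^ 7 with hu
  have du : DifferentiableOn ℂ u (ball 0 1) :=
    (hφ.comp hH).mul ((hφ.d.deriv isOpen_ball).pow 7)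
  have hA := rep_coef du
  obtain ⟨a0, A1⟩ := jet hA (c := (2187/8192)) (G := fun z => (162567/65536) + z * ((2085669/262144) + z * ((1133433/131072) + z * R14 z)))
    (by fun_prop) fun z hz => by
      have e1 : bl (3 / 4) z = z * (4 * z + 3) / (4 + 3 * z) := by
        have := (bl_ne c0 c1 hz).1
        have := hD z hz
        simp only [bl]
        push_cast at *
        field_simp
      have e2 : deriv (bl (3 / 4)) z = 4 * (3 + 8 * z + 3 * z ^ 2) / (4 + 3 * z) ^ 2 := by
        have h2 := (bl_ne c0 c1 hz).1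
        have := hD z hz
        rw [bl_deriv h2]
        push_cast at *
        field_simp
        ring
      have := hD z hz
      simp only [hu, e1, e2, R14]
      field_simp
      ring
  obtain ⟨a1, A2⟩ := jet A1 (G := fun z => (2085669/262144) + z * ((1133433/131072) + z * R14 z)) (by fun_prop)
    fun z _ => rfl
  obtain ⟨a2, A3⟩ := jet A2 (G := fun z => (1133433/131072) + z * R14 z) (by fun_prop) fun z _ => rfl
  obtain ⟨a3, -⟩ := jet A3 hR fun z _ => rfl
  have p1 := sum_le_hasSum (Finset.range 4) (fun _ _ => by positivity) (hA.parseval r0.le r1)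
  have hB : Rep (fun n => if n = 0 then 2 else if n = 1 then 3 else if n = 2 then 2 else 0)
      fun w : ℂ => 2 + 3 * w + 2 * w ^ 2 := fun z _ => by
    have := hasSum_sum_of_ne_finset_zero (f := fun n : ℕ =>
      (if n = 0 then 2 else if n = 1 then 3 else if n = 2 then 2 else 0 : ℂ) * z ^ n)
      (s := Finset.range 3) (L := SummationFilter.unconditional ℕ) fun n hn => by
        simp only [Finset.mem_range, not_lt] at hn
        rw [if_neg (by omega), if_neg (by omega), if_neg (by omega), zero_mul]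
    simpa [Finset.sum_range_succ] using this
  have p2 := (hB.parseval r0.le r1).unique (hasSum_sum_of_ne_finset_zero (s := Finset.range 3)
    fun n hn => by
      simp only [Finset.mem_range, not_lt] at hn
      rw [if_neg (by omega), if_neg (by omega), if_neg (by omega)]
      simp)
  have e : ∀ z, ‖u z‖ ^ 2 = ‖2 + 3 * bl (3 / 4) z + 2 * bl (3 / 4) z ^ 2‖ ^ 2 *
      ‖deriv (bl (3 / 4)) z‖ ^ (14:ℝ) := fun z => by
    rw [show (14:ℝ) = (14:ℕ) by norm_num, Real.rpow_natCast]
    simp only [hu, norm_mul, norm_pow]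
    ring
  simp only [Good, Real.rpow_two] at h1
  simp only [e] at p1
  have h5 := (p1.trans h1).trans p2.le
  simp only [Finset.sum_range_succ, Finset.sum_range_zero] at h5
  simp only [zero_add] at a1 a2 a3
  rw [a0, a1, a2, a3] at h5
  norm_num at h5

end Pool.Agent.H91.Gol
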