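import Pool.Agent.H91.Gol4

set_option autoImplicit false
open MeasureTheory Filter Topology Metric Set Complex

namespace Pool.Agent.H91.Gol

/-- integral mean `M_p(r,h)` -/
noncomputable def Mp (p r : ℝ) (h : ℂ → ℂ) : ℝ :=
  ((2 * Real.pi)⁻¹ * ∫ t in (0:ℝ)..2 * Real.pi, ‖h (r * Complex.exp (t * Complex.I))‖ ^ p) ^ (1 / p)

/-- `g ≺ f` on the unit disc -/
def Sub (g f : ℂ → ℂ) : Prop :=
  DifferentiableOn ℂ f (Metric.ball 0 1) ∧ DifferentiableOn ℂ g (Metric.ball 0 1) ∧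
    ∃ φ : ℂ → ℂ, DifferentiableOn ℂ φ (Metric.ball 0 1) ∧
      Set.MapsTo φ (Metric.ball 0 1) (Metric.ball 0 1) ∧ φ 0 = 0 ∧
      ∀ z ∈ Metric.ball (0:ℂ) 1, g z = f (φ z)

/-- the radius `r_p` -/
noncomputable def rad (p : ℝ) : ℝ :=
  sSup {ρ : ℝ | ρ ∈ Set.Ioc (0:ℝ) 1 ∧ ∀ f g : ℂ → ℂ, Sub g f → ∀ r : ℝ, 0 < r → r < ρ →
    Mp p r (deriv g) ≤ Mp p r (deriv f)}

open Pool.Agent.H88.H2

variable {r p q : ℝ}

theorem mp_le (hp : 0 < p) {u v : ℂ → ℂ} : Mp p r u ≤ Mp p r v ↔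
    av (fun θ => ‖u (r * exp (θ * I))‖ ^ p) ≤ av fun θ => ‖v (r * exp (θ * I))‖ ^ p := by
  have h : ∀ w : ℂ → ℂ, 0 ≤ av fun θ => ‖w (r * exp (θ * I))‖ ^ p := fun w =>
    mul_nonneg (inv_nonneg.2 Real.two_pi_pos.le)
      (intervalIntegral.integral_nonneg Real.two_pi_pos.le fun _ _ => by positivity)
  exact Real.rpow_le_rpow_iff (h u) (h v) (one_div_pos.2 hp)

theorem at_iff (h0 : 0 < r) (h1 : r < 1) (hp : 0 < p) :
    At p r ↔ ∀ f g : ℂ → ℂ, Sub g f → Mp p r (deriv g) ≤ Mp p r (deriv f) := by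
  have hz : ∀ θ : ℝ, (r:ℂ) * exp (θ * I) ∈ ball (0:ℂ) 1 := fun θ =>
    mem_ball_zero_iff.2 (by rwa [norm_re h0.le])
  have key : ∀ f g φ : ℂ → ℂ, DifferentiableOn ℂ f (ball 0 1) → Sch φ →
      (∀ z ∈ ball (0:ℂ) 1, g z = f (φ z)) → ∀ θ : ℝ, ‖deriv g (r * exp (θ * I))‖ ^ p =
        ‖deriv f (φ (r * exp (θ * I)))‖ ^ p * ‖deriv φ (r * exp (θ * I))‖ ^ p := by
    intro f g φ hf hφ e θ
    have e1 : deriv g (r * exp (θ * I)) = deriv (f ∘ φ) (r * exp (θ * I)) :=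
      Filter.EventuallyEq.deriv_eq (by
        filter_upwards [isOpen_ball.mem_nhds (hz θ)] with w hw using e w hw)
    rw [e1, deriv_comp _ (hf.differentiableAt (isOpen_ball.mem_nhds (hφ.m (hz θ))))
      (hφ.d.differentiableAt (isOpen_ball.mem_nhds (hz θ))), norm_mul,
      Real.mul_rpow (norm_nonneg _) (norm_nonneg _)]
  constructor
  · rintro h f g ⟨hf, -, φ, f1, f2, f3, e⟩
    rw [mp_le hp]
    simp only [key f g φ hf ⟨f1, f2, f3⟩ e]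
    exact h φ _ ⟨f1, f2, f3⟩ (hf.deriv isOpen_ball)
  · intro h φ F hφ hF
    obtain ⟨H, hH⟩ := hF.isExactOn_ball
    have hd : DifferentiableOn ℂ H (ball 0 1) := fun z hz =>
      (hH z hz).differentiableAt.differentiableWithinAt
    have h2 := h H (fun z => H (φ z)) ⟨hd, hφ.comp hd, φ, hφ.d, hφ.m, hφ.z, fun _ _ => rfl⟩
    rw [mp_le hp] at h2
    simp only [key H _ φ hd hφ fun _ _ => rfl, (hH _ (hz _)).deriv,
      (hH _ (hφ.m (hz _))).deriv] at h2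
    exact h2

theorem rad_eq (hp : 0 < p) :
    rad p = sSup {ρ : ℝ | ρ ∈ Ioc (0:ℝ) 1 ∧ ∀ r, 0 < r → r < ρ → At p r} := by
  unfold rad
  congr 1
  ext ρ
  refine and_congr_right fun hρ => ⟨fun h r h0 h1 => ?_, fun h f g hs r h0 h1 => ?_⟩
  · exact (at_iff h0 (h1.trans_le hρ.2) hp).2 fun f g hs => h f g hs r h0 h1
  · exact (at_iff h0 (h1.trans_le hρ.2) hp).1 (h r h0 h1) f g hs

theorem s2 : 0 < √2 - 1 ∧ √2 - 1 < 1 / 2 := by
  have s1 : 1 < √2 := Real.lt_sqrt_of_sq_lt (by norm_num)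
  have s2 : √2 < 3 / 2 := Real.sqrt_lt' (by norm_num) |>.2 (by norm_num)
  constructor <;> linarith

theorem le_rad (hp : 0 < p) {ρ : ℝ} (h0 : 0 < ρ) (h1 : ρ ≤ 1)
    (h : ∀ r, 0 < r → r < ρ → At p r) : ρ ≤ rad p := by
  rw [rad_eq hp]
  exact le_csSup ⟨1, fun _ hx => hx.1.2⟩ ⟨⟨h0, h1⟩, h⟩

theorem rad_le (hp : 0 < p) {ρ : ℝ} (h0 : 0 ≤ ρ)
    (h : ∀ s, ρ < s → ∃ r, 0 < r ∧ r < s ∧ ¬At p r) : rad p ≤ ρ := by
  rw [rad_eq hp]
  refine Real.sSup_le (fun x hx => le_of_not_gt fun hl => ?_) h0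
  obtain ⟨r, r0, r1, r2⟩ := h x hl
  exact r2 (hx.2 r r0 r1)

theorem anti (hp : 0 < p) (hpq : p ≤ q) : rad q ≤ rad p := by
  rw [rad_eq (hp.trans_le hpq)]
  refine Real.sSup_le (fun x hx => le_rad hp hx.1.1 hx.1.2 fun r h0 h1 =>
    (hx.2 r h0 h1).down h0 (h1.trans_le hx.1.2) hp hpq) ?_
  exact s2.1.le.trans (le_rad hp s2.1 (by linarith [s2.2]) fun r h0 h1 => at_low h0 h1.le hp)

theorem main : (∀ p : ℝ, 0 < p → p ≤ 2 → rad p = 1 / 2) ∧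
    AntitoneOn rad (Set.Ioi 0) ∧ (∀ p : ℝ, 14 ≤ p → rad p ≤ 497 / 1000) ∧
    Filter.Tendsto rad Filter.atTop (nhds (√2 - 1)) := by
  refine ⟨fun p hp h2 => le_antisymm ?_ ?_, fun p hp q _ h => anti hp h, fun p hp => ?_, ?_⟩
  · refine rad_le hp (by norm_num) fun s hs => ?_
    obtain ⟨r, r1, r2⟩ := exists_between hs
    exact ⟨r, by linarith, r2, not_at r1 hp⟩
  · exact le_rad hp (by norm_num) (by norm_num) fun r h0 h1 =>
      (at_two h0 h1.le).down h0 (by linarith) hp h2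
  · exact (anti (by norm_num) hp).trans (rad_le (by norm_num) (by norm_num) fun s hs =>
      ⟨_, by norm_num, hs, not14⟩)
  · refine tendsto_order.2 ⟨fun a ha => ?_, fun a ha => ?_⟩
    · filter_upwards [eventually_gt_atTop 0] with p hp
      exact ha.trans_le (le_rad hp s2.1 (by linarith [s2.2]) fun r h0 h1 => at_low h0 h1.le hp)
    · obtain ⟨r, r1, r2⟩ := exists_between (lt_min ha (show √2 - 1 < 1 by linarith [s2.2]))
      obtain ⟨p, hp, h⟩ := not_big r1 (r2.trans_le (min_le_right _ _))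
      have r0 := s2.1.trans r1
      filter_upwards [eventually_ge_atTop p] with q hq
      exact ((anti hp hq).trans (rad_le hp r0.le fun s hs => ⟨r, r0, hs, h⟩)).trans_lt
        (r2.trans_le (min_le_left _ _))

end Pool.Agent.H91.Gol
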