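import Mathlib

set_option autoImplicit false

namespace H91.Golomb
open Filter Topology Set Real

noncomputable def a (y : ℝ) : ℝ := y / 4 + sin (π / 2 * y) / 10

lemma sin_lip (y z : ℝ) : |sin (π / 2 * y) - sin (π / 2 * z)| ≤ 2 * |y - z| := by
  refine (abs_sin_sub_sin_le _ _).trans ?_
  rw [← mul_sub, abs_mul, abs_of_pos (by positivity)]
  nlinarith [pi_lt_four, abs_nonneg (y - z)]

lemma a_lip (y z : ℝ) : |a y - a z| ≤ 1 / 2 * |y - z| := by
  have h := sin_lip y z
  have h2 := le_abs_self (y - z)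
  have h3 := neg_abs_le (y - z)
  unfold a
  rw [abs_le] at h ⊢
  constructor <;> linarith [h.1, h.2]

lemma a_mono : StrictMono a := fun y z hyz => by
  have h := sin_lip z y
  rw [abs_of_pos (sub_pos.2 hyz), abs_le] at h
  unfold a; linarith [h.1]

lemma a_cont : Continuous a := by unfold a; fun_prop

lemma a_int (y : ℝ) (m : ℕ) : a (y + 4 * m) = a y + m := by
  unfold a
  rw [show π / 2 * (y + 4 * m) = π / 2 * y + m * (2 * π) by ring, sin_add_nat_mul_two_pi]; ring

lemma a_two (y : ℝ) : a y + a (y - 2) = y / 2 - 1 / 2 := by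
  unfold a
  rw [show π / 2 * (y - 2) = π / 2 * y - π by ring, sin_sub_pi]; ring

noncomputable def Hn : ℕ → ℝ → ℝ
  | 0 => id
  | n + 1 => fun v => a (Hn n (4 * v))

lemma Hn_cont (n : ℕ) : Continuous (Hn n) := by
  induction n with
  | zero => exact continuous_id
  | succ n ih => exact a_cont.comp (ih.comp (by fun_prop))

lemma Hn_mono (n : ℕ) : Monotone (Hn n) := by
  induction n with
  | zero => exact monotone_id
  | succ n ih => exact fun x y h => a_mono.monotone (ih (by linarith))

lemma Hn_add (n : ℕ) (v : ℝ) (m : ℕ) : Hn n (v + m) = Hn n v + m := by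
  induction n generalizing v m with
  | zero => rfl
  | succ n ih =>
    show a (Hn n (4 * (v + m))) = a (Hn n (4 * v)) + m
    rw [show 4 * (v + m) = 4 * v + ((4 * m : ℕ) : ℝ) by push_cast; ring, ih, ← a_int]
    push_cast; rfl

lemma Hn_step (n : ℕ) (v : ℝ) : dist (Hn n v) (Hn (n + 1) v) ≤ 1 * (1 / 2) ^ n := by
  induction n generalizing v with
  | zero =>
    show |v - a (4 * v)| ≤ _
    have := abs_sin_le_one (π / 2 * (4 * v))
    unfold a
    rw [abs_le] at this ⊢
    constructor <;> linarith [this.1, this.2]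
  | succ n ih =>
    refine (a_lip _ _).trans ?_
    have := ih (4 * v)
    rw [Real.dist_eq] at this
    rw [pow_succ]; linarith

lemma exH : ∃ H : ℝ → ℝ, Continuous H ∧ StrictMono H ∧ Function.Surjective H ∧
    (∀ v, H (v + 1) = H v + 1) ∧ ∀ v, H v = a (H (4 * v)) := by
  choose H hH using fun v => cauchySeq_tendsto_of_complete
    (cauchySeq_of_le_geometric (1 / 2) 1 (by norm_num) fun n => Hn_step n v)
  have hd : ∀ n v, dist (Hn n v) (H v) ≤ 1 * (1 / 2) ^ n / (1 - 1 / 2) := fun n v =>
    dist_le_of_le_geometric_of_tendsto (1 / 2) 1 (by norm_num) (fun n => Hn_step n v) (hH v) n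
  have hu : TendstoUniformly Hn H atTop := by
    rw [Metric.tendstoUniformly_iff]
    intro ε hε
    have : Tendsto (fun n : ℕ => 1 * (1 / 2 : ℝ) ^ n / (1 - 1 / 2)) atTop (𝓝 0) := by
      simpa using ((tendsto_pow_atTop_nhds_zero_of_lt_one (r := (1 / 2 : ℝ)) (by norm_num)
        (by norm_num)).const_mul 1).div_const (1 - 1 / 2)
    filter_upwards [this.eventually (gt_mem_nhds hε)] with n hn v
    rw [dist_comm]; exact (hd n v).trans_lt hn
  have hc : Continuous H := hu.continuous (Frequently.of_forall Hn_cont)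
  have hm : Monotone H := fun x y h => le_of_tendsto_of_tendsto' (hH x) (hH y) fun n => Hn_mono n h
  have h2 : ∀ v, |v - H v| ≤ 2 := fun v => by
    have := hd 0 v
    norm_num at this
    exact this
  have hf : ∀ v, H v = a (H (4 * v)) := fun v =>
    tendsto_nhds_unique ((hH v).comp (tendsto_add_atTop_nat 1)) ((a_cont.tendsto _).comp (hH (4 * v)))
  refine ⟨H, hc, hm.strictMono_of_injective fun x y hxy => ?_, ?_, fun v => ?_, hf⟩
  · have h3 : ∀ n : ℕ, H (4 ^ n * x) = H (4 ^ n * y) := by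
      intro n
      induction n with
      | zero => simpa using hxy
      | succ n ih =>
        rw [hf, hf (4 ^ n * y)] at ih
        have := a_mono.injective ih
        rwa [← mul_assoc, ← mul_assoc, ← pow_succ'] at this
    by_contra hne
    have h4 : 0 < |x - y| := abs_pos.2 (sub_ne_zero.2 hne)
    obtain ⟨n, hn⟩ := pow_unbounded_of_one_lt (4 / |x - y|) (show (1:ℝ) < 4 by norm_num)
    rw [div_lt_iff₀ h4] at hn
    have h5 := h2 (4 ^ n * x)
    have h6 := h2 (4 ^ n * y)
    rw [h3] at h5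
    have h7 : |4 ^ n * (x - y)| ≤ 4 := by
      rw [abs_le] at *
      constructor <;> linarith [h5.1, h5.2, h6.1, h6.2]
    rw [abs_mul, abs_of_pos (by positivity)] at h7
    linarith
  · refine hc.surjective (tendsto_atTop_mono (f := fun v => v + -2) (fun v => ?_)
      (tendsto_atTop_add_const_right _ _ tendsto_id))
      (tendsto_atBot_mono (f := fun v => v + 2) (fun v => ?_)
      (tendsto_atBot_add_const_right _ _ tendsto_id))
    · linarith [(abs_le.1 (h2 v)).2]
    · linarith [(abs_le.1 (h2 v)).1]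
  · refine tendsto_nhds_unique (hH (v + 1)) (((hH v).add_const 1).congr fun n => ?_)
    simpa using (Hn_add n v 1).symm

theorem main : ∃ (r : ℕ) (φ : ℝ → ℝ), 2 ≤ r ∧ Continuous φ ∧ Monotone φ ∧
    (∀ x, φ (∑ j ∈ Finset.range r, φ (x - j)) = x) ∧ φ ≠ fun x => x / √r + (√r - 1) / 2 := by
  obtain ⟨H, hc, hm, hs, h1, hf⟩ := exH
  let e := hm.orderIsoOfSurjective H hs
  have he : ∀ u, e.symm (H u) = u := e.symm_apply_apply
  have h1' : ∀ v, H (v - 1) = H v - 1 := fun v => by
    have := h1 (v - 1); rw [sub_add_cancel] at this; linarith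
  have key : ∀ u, H (e.symm (H u + 1 - 1) / 2) + 1 = H (u / 2) + 1 := fun u => by
    rw [add_sub_cancel_right, he]
  refine ⟨4, fun x => H (e.symm (x - 1) / 2) + 1, by norm_num, ?_, ?_, fun x => ?_, fun h => ?_⟩
  · have := e.symm.continuous
    fun_prop
  · intro x y hxy
    have := e.symm.monotone (show x - 1 ≤ y - 1 by linarith)
    simpa using hm.monotone (by linarith)
  · obtain ⟨u, hu⟩ := hs (x - 1)
    obtain rfl : x = H u + 1 := by linarith
    have e0 : H u + 1 - ((0:ℕ):ℝ) = H u + 1 := by simp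
    have e1 : H u + 1 - ((1:ℕ):ℝ) = H (u - 1) + 1 := by rw [h1']; simp
    have e2 : H u + 1 - ((2:ℕ):ℝ) = H (u - 1 - 1) + 1 := by rw [h1', h1']; push_cast; ring
    have e3 : H u + 1 - ((3:ℕ):ℝ) = H (u - 1 - 1 - 1) + 1 := by
      rw [h1', h1', h1']; push_cast; ring
    simp only [Finset.sum_range_succ, Finset.sum_range_zero, e0, e1, e2, e3, key]
    have a1 : H (u / 2) = a (H (2 * u)) := by rw [hf]; congr 2; ring
    have a2 : H ((u - 1) / 2) = a (H (2 * u) - 2) := by
      rw [hf, show 4 * ((u - 1) / 2) = 2 * u - 1 - 1 by ring, h1', h1']; congr 1; ring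
    rw [show (u - 1 - 1) / 2 = u / 2 - 1 by ring, show (u - 1 - 1 - 1) / 2 = (u - 1) / 2 - 1 by ring,
      h1', h1', a1, a2]
    have a3 := a_two (H (2 * u))
    rw [show 0 + (a (H (2 * u)) + 1) + (a (H (2 * u) - 2) + 1) + (a (H (2 * u)) - 1 + 1) +
      (a (H (2 * u) - 2) - 1 + 1) - 1 = H (2 * u) by linarith, he]
    congr 2; ring
  · have h4 : √((4:ℕ):ℝ) = 2 := by
      rw [show ((4:ℕ):ℝ) = 2 ^ 2 by norm_num, Real.sqrt_sq (by norm_num)]
    have h5 : ∀ u, H (u / 2) = H u / 2 := fun u => by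
      have := congrFun h (H u + 1)
      simp only [key, h4] at this
      linarith
    obtain ⟨u, hu⟩ := hs 1
    have h6 := hf (u / 2 / 2)
    rw [h5, h5, show 4 * (u / 2 / 2) = u by ring, hu] at h6
    simp [a] at h6
    norm_num at h6

end H91.Golomb
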