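import Mathlib

set_option autoImplicit false

namespace H91.HHC
open Matrix

/-- the quadratic function `x^T A x + 2 b^T x + c` -/
def quad {n : ℕ} (A : Matrix (Fin n) (Fin n) ℝ) (b : Fin n → ℝ) (c : ℝ) (x : Fin n → ℝ) : ℝ :=
  x ⬝ᵥ A *ᵥ x + 2 * (b ⬝ᵥ x) + c

/-- its homogenisation `z^T Q z` at `z = (x, t)`, `Q = [[A, b], [b^T, c]]` -/
def quadH {n : ℕ} (A : Matrix (Fin n) (Fin n) ℝ) (b : Fin n → ℝ) (c : ℝ)
    (z : (Fin n → ℝ) × ℝ) : ℝ :=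
  z.1 ⬝ᵥ A *ᵥ z.1 + 2 * z.2 * (b ⬝ᵥ z.1) + c * z.2 ^ 2

/-- hidden hyperplane convexity -/
def HHC {n m : ℕ} (A : Fin m → Matrix (Fin n) (Fin n) ℝ) (b : Fin m → Fin n → ℝ)
    (c : Fin m → ℝ) : Prop :=
  ∀ H : Submodule ℝ ((Fin n → ℝ) × ℝ), Module.finrank ℝ H = n →
    Convex ℝ ((fun z i => quadH (A i) (b i) (c i) z) '' (H : Set ((Fin n → ℝ) × ℝ)))

/-- the set `S` -/
def feas {n m : ℕ} (A : Fin m → Matrix (Fin n) (Fin n) ℝ) (b : Fin m → Fin n → ℝ)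
    (c : Fin m → ℝ) : Set (Fin n → ℝ) := {x | ∀ i, quad (A i) (b i) (c i) x < 0}

/-- the aggregation `S_lam` -/
def agg {n m : ℕ} (A : Fin m → Matrix (Fin n) (Fin n) ℝ) (b : Fin m → Fin n → ℝ)
    (c : Fin m → ℝ) (l : Fin m → ℝ) : Set (Fin n → ℝ) :=
  {x | ∑ i, l i * quad (A i) (b i) (c i) x < 0}

abbrev V := Fin 6 → ℝ

lemma unit_ker (v : Fin 5 → V →ₗ[ℝ] ℝ) : ∃ e : V, e ⬝ᵥ e = 1 ∧ ∀ i, v i e = 0 := by
  have h : LinearMap.ker (LinearMap.pi v) ≠ ⊥ :=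
    LinearMap.ker_ne_bot_of_finrank_lt (by simp)
  obtain ⟨e, he, h0⟩ := Submodule.exists_mem_ne_zero_of_ne_bot h
  have hp : 0 < e ⬝ᵥ e := by
    rcases (show 0 ≤ e ⬝ᵥ e from Finset.sum_nonneg fun i _ => mul_self_nonneg _).lt_or_eq with h | h
    · exact h
    · exact absurd (dotProduct_self_eq_zero.1 h.symm) h0
  refine ⟨(√(e ⬝ᵥ e))⁻¹ • e, ?_, fun i => ?_⟩
  · rw [smul_dotProduct, dotProduct_smul, smul_eq_mul, smul_eq_mul, ← mul_assoc, ← mul_inv,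
      Real.mul_self_sqrt hp.le, inv_mul_cancel₀ hp.ne']
  · have := congrFun (LinearMap.mem_ker.1 he) i
    simp only [LinearMap.pi_apply, Pi.zero_apply] at this
    simp [this]

def D (x : V) : V →ₗ[ℝ] ℝ where
  toFun u := x ⬝ᵥ u
  map_add' u v := dotProduct_add _ _ _
  map_smul' a u := by simp

lemma realize (f1 f2 f3 f4 : V →ₗ[ℝ] ℝ) (a b c : ℝ) (ha : 0 ≤ a) (hc : 0 ≤ c)
    (h : b ^ 2 ≤ a * c) : ∃ u w : V, u ⬝ᵥ u = a ∧ w ⬝ᵥ w = c ∧ u ⬝ᵥ w = b ∧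
      (f1 u = 0 ∧ f2 u = 0 ∧ f3 u = 0 ∧ f4 u = 0) ∧
      (f1 w = 0 ∧ f2 w = 0 ∧ f3 w = 0 ∧ f4 w = 0) := by
  obtain ⟨e, he, he0⟩ := unit_ker ![f1, f2, f3, f4, 0]
  obtain ⟨d, hd, hd0⟩ := unit_ker ![f1, f2, f3, f4, D e]
  have e0 := he0 0; have e1 := he0 1; have e2 := he0 2; have e3 := he0 3
  have d0 := hd0 0; have d1 := hd0 1; have d2 := hd0 2; have d3 := hd0 3
  have d4 : e ⬝ᵥ d = 0 := hd0 4
  have d5 : d ⬝ᵥ e = 0 := by rw [dotProduct_comm]; exact d4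
  simp at e0 e1 e2 e3 d0 d1 d2 d3
  rcases ha.lt_or_eq with ha' | ha'
  · have hs := Real.sqrt_pos.2 ha'
    have h1 : 0 ≤ c - b ^ 2 / a := by
      rw [sub_nonneg, div_le_iff₀ ha']; linarith
    refine ⟨√a • e, (b / √a) • e + √(c - b ^ 2 / a) • d, ?_, ?_, ?_, by simp [*], by simp [*]⟩
    · simp [he, Real.mul_self_sqrt ha]
    · simp only [add_dotProduct, dotProduct_add, smul_dotProduct, dotProduct_smul, he, hd, d4, d5,
        smul_eq_mul, mul_one, mul_zero, add_zero, zero_add, Real.mul_self_sqrt h1]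
      rw [div_mul_div_comm, Real.mul_self_sqrt ha]; ring
    · simp only [dotProduct_add, smul_dotProduct, dotProduct_smul, he, d4,
        smul_eq_mul, mul_one, mul_zero, add_zero]
      field_simp
  · have hb : b = 0 := by rw [← ha'] at h; nlinarith [sq_nonneg b]
    refine ⟨0, √c • d, by simp [ha'], ?_, by simp [hb], by simp, by simp [d0, d1, d2, d3]⟩
    simp [hd, Real.mul_self_sqrt hc]

def X (x : Fin (6 + 6) → ℝ) : V := fun i => x (Fin.castAdd 6 i)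
def Y (x : Fin (6 + 6) → ℝ) : V := fun i => x (Fin.natAdd 6 i)

@[simp] lemma X_app (u w : V) : X (Fin.append u w) = u := by ext i; simp [X]
@[simp] lemma Y_app (u w : V) : Y (Fin.append u w) = w := by ext i; exact Fin.append_right _ _ _
lemma X_add (u w : Fin (6 + 6) → ℝ) : X (u + w) = X u + X w := rfl
lemma Y_add (u w : Fin (6 + 6) → ℝ) : Y (u + w) = Y u + Y w := rfl
lemma X_sub (u w : Fin (6 + 6) → ℝ) : X (u - w) = X u - X w := rfl
lemma Y_sub (u w : Fin (6 + 6) → ℝ) : Y (u - w) = Y u - Y w := rfl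
lemma X_smul (a : ℝ) (u : Fin (6 + 6) → ℝ) : X (a • u) = a • X u := rfl
lemma Y_smul (a : ℝ) (u : Fin (6 + 6) → ℝ) : Y (a • u) = a • Y u := rfl

noncomputable def B : Fin 3 → Matrix (Fin 6 ⊕ Fin 6) (Fin 6 ⊕ Fin 6) ℝ :=
  ![fromBlocks 1 0 0 0, fromBlocks 0 0 0 1, fromBlocks 0 ((1 / 2 : ℝ) • 1) ((1 / 2 : ℝ) • 1) 0]

noncomputable def A (i : Fin 3) : Matrix (Fin (6 + 6)) (Fin (6 + 6)) ℝ :=
  reindex finSumFinEquiv finSumFinEquiv (B i)

def cc : Fin 3 → ℝ := ![-1, -1, 0]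

lemma A_form (i : Fin 3) (x : Fin (6 + 6) → ℝ) :
    x ⬝ᵥ A i *ᵥ x = Sum.elim (X x) (Y x) ⬝ᵥ B i *ᵥ Sum.elim (X x) (Y x) := by
  have h : Sum.elim (X x) (Y x) = x ∘ finSumFinEquiv := by
    ext (i | i) <;> rfl
  rw [h, A, reindex_apply, submatrix_mulVec_equiv, Equiv.symm_symm, dotProduct_comp_equiv_symm]

lemma A0 (x : Fin (6 + 6) → ℝ) : x ⬝ᵥ A 0 *ᵥ x = X x ⬝ᵥ X x := by
  rw [A_form]; simp [B, fromBlocks_mulVec]
lemma A1 (x : Fin (6 + 6) → ℝ) : x ⬝ᵥ A 1 *ᵥ x = Y x ⬝ᵥ Y x := by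
  rw [A_form]; simp [B, fromBlocks_mulVec]
lemma A2 (x : Fin (6 + 6) → ℝ) : x ⬝ᵥ A 2 *ᵥ x = X x ⬝ᵥ Y x := by
  rw [A_form]; simp [B, fromBlocks_mulVec, smul_mulVec, dotProduct_comm (Y x) (X x)]; ring

lemma A_symm (i : Fin 3) : (A i).IsSymm := by
  have : (B i).IsSymm := by
    fin_cases i <;> simp [B, Matrix.IsSymm, fromBlocks_transpose]
  exact this.submatrix _

lemma mem_feas (x : Fin (6 + 6) → ℝ) : x ∈ feas A 0 cc ↔
    X x ⬝ᵥ X x < 1 ∧ Y x ⬝ᵥ Y x < 1 ∧ X x ⬝ᵥ Y x < 0 := by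
  simp [feas, quad, Fin.forall_fin_succ, A0, cc]
  have h1 := A1 x; have h2 := A2 x
  intro _
  constructor
  · rintro ⟨a, b⟩; exact ⟨by linarith, by linarith⟩
  · rintro ⟨a, b⟩; exact ⟨by linarith, by linarith⟩

lemma mem_agg (l : Fin 3 → ℝ) (x : Fin (6 + 6) → ℝ) : x ∈ agg A 0 cc l ↔
    l 0 * (X x ⬝ᵥ X x - 1) + l 1 * (Y x ⬝ᵥ Y x - 1) + l 2 * (X x ⬝ᵥ Y x) < 0 := by
  simp [agg, quad, Fin.sum_univ_three, A0, A1, A2, cc, sub_eq_add_neg]

lemma cs (u w : V) : (u ⬝ᵥ w) ^ 2 ≤ (u ⬝ᵥ u) * (w ⬝ᵥ w) := by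
  have := Finset.sum_mul_sq_le_sq_mul_sq Finset.univ u w
  simpa [dotProduct, sq] using this

lemma nn (u : V) : 0 ≤ u ⬝ᵥ u := Finset.sum_nonneg fun _ _ => mul_self_nonneg _

def L1 : V →ₗ[ℝ] (Fin (6 + 6) → ℝ) × ℝ where
  toFun u := (Fin.append u 0, 0)
  map_add' u v := by
    ext i
    · refine Fin.addCases (fun j => ?_) (fun j => ?_) i <;>
        simp [-Fin.natAdd_eq_addNat, Fin.append_right]
    · simp
  map_smul' a u := by
    ext i
    · refine Fin.addCases (fun j => ?_) (fun j => ?_) i <;>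
        simp [-Fin.natAdd_eq_addNat, Fin.append_right]
    · simp

def L2 : V →ₗ[ℝ] (Fin (6 + 6) → ℝ) × ℝ where
  toFun u := (Fin.append 0 u, 0)
  map_add' u v := by
    ext i
    · refine Fin.addCases (fun j => ?_) (fun j => ?_) i <;>
        simp [-Fin.natAdd_eq_addNat, Fin.append_right]
    · simp
  map_smul' a u := by
    ext i
    · refine Fin.addCases (fun j => ?_) (fun j => ?_) i <;>
        simp [-Fin.natAdd_eq_addNat, Fin.append_right]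
    · simp

lemma rot (s t : ℝ) : ∃ a b : ℝ, a ^ 2 + b ^ 2 = 1 ∧ a * t = b * s := by
  by_cases h : s ^ 2 + t ^ 2 = 0
  · have hs : s = 0 := by nlinarith [sq_nonneg s, sq_nonneg t]
    have ht : t = 0 := by nlinarith [sq_nonneg s, sq_nonneg t]
    exact ⟨1, 0, by norm_num, by simp [hs, ht]⟩
  · have hp : 0 < s ^ 2 + t ^ 2 := lt_of_le_of_ne (by positivity) (Ne.symm h)
    have hs := Real.sqrt_pos.2 hp
    refine ⟨s / √(s ^ 2 + t ^ 2), t / √(s ^ 2 + t ^ 2), ?_, by ring⟩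
    rw [div_pow, div_pow, Real.sq_sqrt hp.le]; field_simp

lemma hhc : HHC A 0 cc := by
  intro H hH
  have hlt : H < ⊤ := by
    refine lt_top_iff_ne_top.2 fun h => ?_
    rw [h] at hH; simp at hH
  obtain ⟨φ, hφ0, hφ⟩ := Submodule.exists_le_ker_of_lt_top H hlt
  have hk : H = LinearMap.ker φ := by
    refine Submodule.eq_of_le_of_finrank_eq hφ ?_
    have := Module.Dual.finrank_ker_add_one_of_ne_zero hφ0
    have h13 : Module.finrank ℝ ((Fin (6 + 6) → ℝ) × ℝ) = 6 + 6 + 1 := by simp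
    rw [h13] at this
    rw [hH]; exact (Nat.add_right_cancel this).symm
  rintro _ ⟨z1, h1, rfl⟩ _ ⟨z2, h2, rfl⟩ p q hp hq hpq
  obtain ⟨a, b, hab, hr⟩ := rot (√p * z1.2) (√q * z2.2)
  have sp := Real.mul_self_sqrt hp
  have sq' := Real.mul_self_sqrt hq
  set P := √p
  set Q := √q
  set z := (a * P) • z1 + (b * Q) • z2 with hz
  set w := (-b * P) • z1 + (a * Q) • z2 with hw
  have hzH : z ∈ H := H.add_mem (H.smul_mem _ h1) (H.smul_mem _ h2)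
  obtain ⟨u, v, hu, hv, huv, ⟨u1, u2, u3, -⟩, ⟨v1, v2, -, v4⟩⟩ :=
    realize (D (X z.1)) (D (Y z.1)) (φ ∘ₗ L1) (φ ∘ₗ L2) _ _ _ (nn (X w.1)) (nn (Y w.1)) (cs _ _)
  have hL : L1 u + L2 v ∈ H := by
    rw [hk, LinearMap.mem_ker, map_add]
    simp only [LinearMap.comp_apply] at u3 v4
    rw [u3, v4, add_zero]
  refine ⟨z + (L1 u + L2 v), H.add_mem hzH hL, ?_⟩
  have hX : X (z + (L1 u + L2 v)).1 = X z.1 + u := by simp [X_add, L1, L2]
  have hY : Y (z + (L1 u + L2 v)).1 = Y z.1 + v := by simp [Y_add, L1, L2]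
  have hT : (z + (L1 u + L2 v)).2 = z.2 := by simp [L1, L2]
  have u1' : X z.1 ⬝ᵥ u = 0 := u1
  have u2' : Y z.1 ⬝ᵥ u = 0 := u2
  have v1' : X z.1 ⬝ᵥ v = 0 := v1
  have v2' : Y z.1 ⬝ᵥ v = 0 := v2
  have zt : z.2 = a * P * z1.2 + b * Q * z2.2 := by simp [hz]
  have zX : X z.1 = (a * P) • X z1.1 + (b * Q) • X z2.1 := rfl
  have zY : Y z.1 = (a * P) • Y z1.1 + (b * Q) • Y z2.1 := rfl
  have wX : X w.1 = (-b * P) • X z1.1 + (a * Q) • X z2.1 := rfl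
  have wY : Y w.1 = (-b * P) • Y z1.1 + (a * Q) • Y z2.1 := rfl
  have tt : z.2 ^ 2 = p * z1.2 ^ 2 + q * z2.2 ^ 2 := by
    rw [zt, ← sp, ← sq']
    linear_combination (P ^ 2 * z1.2 ^ 2 + Q ^ 2 * z2.2 ^ 2) * hab
      - (a * (Q * z2.2) - b * (P * z1.2)) * hr
  have key : ∀ x1 x2 y1 y2 : V, ((a * P) • x1 + (b * Q) • x2) ⬝ᵥ ((a * P) • y1 + (b * Q) • y2) +
      ((-b * P) • x1 + (a * Q) • x2) ⬝ᵥ ((-b * P) • y1 + (a * Q) • y2) =
      p * (x1 ⬝ᵥ y1) + q * (x2 ⬝ᵥ y2) := by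
    intro x1 x2 y1 y2
    simp only [add_dotProduct, dotProduct_add, smul_dotProduct, dotProduct_smul, smul_eq_mul]
    rw [← sp, ← sq']
    linear_combination (P ^ 2 * (x1 ⬝ᵥ y1) + Q ^ 2 * (x2 ⬝ᵥ y2)) * hab
  have k0 := key (X z1.1) (X z2.1) (X z1.1) (X z2.1)
  have k1 := key (Y z1.1) (Y z2.1) (Y z1.1) (Y z2.1)
  have k2 := key (X z1.1) (X z2.1) (Y z1.1) (Y z2.1)
  rw [← zX, ← wX] at k0 k2
  rw [← zY, ← wY] at k1 k2
  ext i
  fin_cases i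
  · simp only [quadH, Fin.zero_eta, A0, hX, hT, Pi.add_apply, Pi.smul_apply, smul_eq_mul,
      add_dotProduct, dotProduct_add, dotProduct_comm u (X z.1), u1', hu, tt]
    simp [cc]; linarith
  · simp only [quadH, Fin.mk_one, A1, hY, hT, Pi.add_apply, Pi.smul_apply, smul_eq_mul,
      add_dotProduct, dotProduct_add, dotProduct_comm v (Y z.1), v2', hv, tt]
    simp [cc]; linarith
  · simp only [quadH, Fin.reduceFinMk, A2, hX, hY, hT, Pi.add_apply, Pi.smul_apply, smul_eq_mul,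
      add_dotProduct, dotProduct_add, dotProduct_comm u (Y z.1), u2', v1', huv, tt]
    simp [cc]; linarith

lemma upper (t : ℝ) (ht : 0 ≤ t) (x : Fin (6 + 6) → ℝ) (hx : x ∈ convexHull ℝ (feas A 0 cc)) :
    (t • X x + Y x) ⬝ᵥ (t • X x + Y x) < t ^ 2 + 1 := by
  refine convexHull_min (t := {x | (t • X x + Y x) ⬝ᵥ (t • X x + Y x) < t ^ 2 + 1}) ?_ ?_ hx
  · intro x hx
    obtain ⟨h1, h2, h3⟩ := (mem_feas x).1 hx
    simp only [Set.mem_setOf_eq, add_dotProduct, dotProduct_add, smul_dotProduct, dotProduct_smul,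
      smul_eq_mul, dotProduct_comm (Y x) (X x)]
    nlinarith [mul_nonneg (sq_nonneg t) (sub_pos.2 h1).le, mul_nonneg ht (neg_pos.2 h3).le]
  · intro x hx y hy p q hp hq hpq
    simp only [Set.mem_setOf_eq] at hx hy ⊢
    have e : t • X (p • x + q • y) + Y (p • x + q • y) =
        p • (t • X x + Y x) + q • (t • X y + Y y) := by
      rw [X_add, Y_add, X_smul, X_smul, Y_smul, Y_smul]; module
    rw [e]
    set u := t • X x + Y x
    set w := t • X y + Y y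
    have h := nn (u - w)
    simp only [add_dotProduct, dotProduct_add, smul_dotProduct, dotProduct_smul, smul_eq_mul,
      sub_dotProduct, dotProduct_sub, dotProduct_comm w u] at h ⊢
    obtain rfl : q = 1 - p := by linarith
    have h3 : p * (u ⬝ᵥ u) + (1 - p) * (w ⬝ᵥ w) < t ^ 2 + 1 := by
      rcases hp.lt_or_eq with h' | h'
      · nlinarith [mul_pos h' (sub_pos.2 hx), mul_nonneg hq (sub_pos.2 hy).le]
      · subst h'; simpa using hy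
    nlinarith [mul_nonneg (mul_nonneg hp hq) h]

lemma point (t e : ℝ) (ht : 0 ≤ t) (ht1 : t ≤ 1) (he : 0 ≤ e) (he1 : e ≤ 1) :
    ∃ x : Fin (6 + 6) → ℝ, X x ⬝ᵥ X x = 1 / 2 ∧ Y x ⬝ᵥ Y x = 1 - t ^ 2 / 2 ∧
      X x ⬝ᵥ Y x = e * t / 2 := by
  have h1 : t ^ 2 ≤ 1 := by nlinarith
  have h2 : e ^ 2 ≤ 1 := by nlinarith
  obtain ⟨u, w, a, b, c, -⟩ := realize 0 0 0 0 (1 / 2) (e * t / 2) (1 - t ^ 2 / 2) (by norm_num)
    (by linarith) (by nlinarith [mul_nonneg (sq_nonneg t) (sub_nonneg.2 h2)])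
  exact ⟨Fin.append u w, by simpa using a, by simpa using b, by simpa using c⟩

lemma lower (t e : ℝ) (ht : 0 < t) (he : 0 ≤ e) (he1 : e < 1) (x : Fin (6 + 6) → ℝ)
    (h1 : X x ⬝ᵥ X x = 1 / 2) (h2 : Y x ⬝ᵥ Y x = 1 - t ^ 2 / 2) (h3 : X x ⬝ᵥ Y x = e * t / 2) :
    x ∈ convexHull ℝ (feas A 0 cc) := by
  obtain ⟨u, w, a, b, c, ⟨u1, u2, -⟩, ⟨w1, w2, -⟩⟩ := realize (D (X x)) (D (Y x)) 0 0
    ((1 + e) / 4) (-((1 + e) / 4 * t)) ((1 + e) / 4 * t ^ 2) (by positivity) (by positivity)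
    (le_of_eq (by ring))
  have u1' : X x ⬝ᵥ u = 0 := u1
  have u2' : Y x ⬝ᵥ u = 0 := u2
  have w1' : X x ⬝ᵥ w = 0 := w1
  have w2' : Y x ⬝ᵥ w = 0 := w2
  have m1 : x + Fin.append u w ∈ feas A 0 cc := by
    rw [mem_feas]
    simp only [X_add, Y_add, X_app, Y_app, add_dotProduct, dotProduct_add,
      dotProduct_comm u (X x), dotProduct_comm u (Y x), dotProduct_comm w (Y x), *]
    refine ⟨by linarith, ?_, ?_⟩ <;> nlinarith [mul_pos (sub_pos.2 he1) ht,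
      mul_pos (sub_pos.2 he1) (pow_pos ht 2)]
  have m2 : x - Fin.append u w ∈ feas A 0 cc := by
    rw [mem_feas]
    simp only [X_sub, Y_sub, X_app, Y_app, sub_dotProduct, dotProduct_sub,
      dotProduct_comm u (X x), dotProduct_comm u (Y x), dotProduct_comm w (Y x), *]
    refine ⟨by linarith, ?_, ?_⟩ <;> nlinarith [mul_pos (sub_pos.2 he1) ht,
      mul_pos (sub_pos.2 he1) (pow_pos ht 2)]
  have := (convex_convexHull ℝ (feas A 0 cc)) (subset_convexHull ℝ _ m1) (subset_convexHull ℝ _ m2)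
    (a := 1 / 2) (b := 1 / 2) (by norm_num) (by norm_num) (by norm_num)
  convert! this using 1
  module

theorem main : ∃ (n m : ℕ) (A : Fin m → Matrix (Fin n) (Fin n) ℝ) (b : Fin m → Fin n → ℝ)
    (c : Fin m → ℝ), 1 ≤ n ∧ 1 ≤ m ∧ (∀ i, (A i).IsSymm) ∧ H91.HHC.HHC A b c ∧
    (H91.HHC.feas A b c).Nonempty ∧ convexHull ℝ (H91.HHC.feas A b c) ≠ Set.univ ∧
    ¬ ∃ (r : ℕ) (l : Fin r → Fin m → ℝ), (∀ j, 0 ≤ l j ∧ l j ≠ 0) ∧
      convexHull ℝ (H91.HHC.feas A b c) = ⋂ j, H91.HHC.agg A b c (l j) := by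
  have notin : ∀ t : ℝ, 0 ≤ t → ∀ x : Fin (6 + 6) → ℝ, X x ⬝ᵥ X x = 1 / 2 →
      Y x ⬝ᵥ Y x = 1 - t ^ 2 / 2 → X x ⬝ᵥ Y x = 1 * t / 2 →
      x ∉ convexHull ℝ (feas A 0 cc) := by
    intro t ht x h1 h2 h3 hx
    have := upper t ht x hx
    simp only [add_dotProduct, dotProduct_add, smul_dotProduct, dotProduct_smul,
      smul_eq_mul, dotProduct_comm (Y x) (X x), h1, h2, h3] at this
    nlinarith
  refine ⟨6 + 6, 3, A, 0, cc, by norm_num, by norm_num, A_symm, hhc, ?_, ?_, ?_⟩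
  · obtain ⟨x, h1, h2, h3⟩ := point 1 0 (by norm_num) le_rfl le_rfl (by norm_num)
    exact convexHull_nonempty_iff.1 ⟨x, lower 1 0 one_pos le_rfl one_pos x h1 h2 h3⟩
  · obtain ⟨x, h1, h2, h3⟩ := point 1 1 (by norm_num) le_rfl (by norm_num) le_rfl
    intro h
    exact notin 1 (by norm_num) x h1 h2 h3 (h ▸ Set.mem_univ x)
  · rintro ⟨r, l, hl, hE⟩
    let P : Fin r → Polynomial ℝ := fun j =>
      Polynomial.C (l j 1) * Polynomial.X ^ 2 + Polynomial.C (-l j 2) * Polynomial.X +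
        Polynomial.C (l j 0)
    have hP : ∀ j, P j ≠ 0 := by
      intro j h
      apply (hl j).2
      have c0 := congrArg (fun p => Polynomial.coeff p 0) h
      have c1 := congrArg (fun p => Polynomial.coeff p 1) h
      have c2 := congrArg (fun p => Polynomial.coeff p 2) h
      simp [P, Polynomial.coeff_X, Polynomial.coeff_C] at c0 c1 c2
      ext i; fin_cases i <;> simp [*]
    have hfin : (⋃ j, {t : ℝ | (P j).IsRoot t}).Finite :=
      Set.finite_iUnion fun j => Polynomial.finite_setOf_isRoot (hP j)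
    obtain ⟨t, ⟨ht0, ht1⟩, ht⟩ := ((Set.Ioo_infinite (zero_lt_one' ℝ)).diff hfin).nonempty
    obtain ⟨x, h1, h2, h3⟩ := point t 1 ht0.le ht1.le (by norm_num) le_rfl
    refine notin t ht0.le x h1 h2 h3 ?_
    rw [hE, Set.mem_iInter]
    intro j
    have hne : l j 1 * t ^ 2 - l j 2 * t + l j 0 ≠ 0 := by
      intro h
      apply ht
      refine Set.mem_iUnion.2 ⟨j, ?_⟩
      simp [P]; linarith
    have hge : 0 ≤ l j 1 * t ^ 2 - l j 2 * t + l j 0 := by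
      by_contra hneg
      push Not at hneg
      have l0 : 0 ≤ l j 0 := (hl j).1 0
      have l1 : 0 ≤ l j 1 := (hl j).1 1
      have hd : 0 < l j 2 * t := by nlinarith [mul_nonneg l1 (sq_nonneg t)]
      set e := (l j 1 * t ^ 2 + l j 0) / (l j 2 * t) with he
      have e0 : 0 ≤ e := by positivity
      have e1 : e < 1 := by rw [he, div_lt_one hd]; linarith
      obtain ⟨y, g1, g2, g3⟩ := point t e ht0.le ht1.le e0 e1.le
      have hy := lower t e ht0 e0 e1 y g1 g2 g3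
      rw [hE, Set.mem_iInter] at hy
      have := (mem_agg _ _).1 (hy j)
      rw [g1, g2, g3] at this
      have h4 : e * (l j 2 * t) = l j 1 * t ^ 2 + l j 0 := by rw [he]; exact div_mul_cancel₀ _ hd.ne'
      nlinarith
    rw [mem_agg, h1, h2, h3]
    have := lt_of_le_of_ne hge (Ne.symm hne)
    nlinarith

end H91.HHC
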