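import Mathlib

set_option autoImplicit false

namespace H91.HalfCircle
open Filter Topology Set Metric Complex

lemma tri {K : Set ℂ} (hK : Convex ℝ K) {A B C P : ℂ} (hA : A ∈ K) (hB : B ∈ K) (hC : C ∈ K)
    (h1 : 0 < (P - A).re * (C - A).im - (P - A).im * (C - A).re)
    (h2 : 0 < (B - A).re * (P - A).im - (B - A).im * (P - A).re)
    (h3 : (P - A).re * (C - A).im - (P - A).im * (C - A).re +
      ((B - A).re * (P - A).im - (B - A).im * (P - A).re) <
        (B - A).re * (C - A).im - (B - A).im * (C - A).re) : P ∈ interior K := by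
  set D := (B - A).re * (C - A).im - (B - A).im * (C - A).re with hD
  have hD0 : 0 < D := by linarith
  let u : ℂ → ℝ := fun P => (P - A).re * (C - A).im - (P - A).im * (C - A).re
  let v : ℂ → ℝ := fun P => (B - A).re * (P - A).im - (B - A).im * (P - A).re
  have hu : Continuous u := by fun_prop
  have hv : Continuous v := by fun_prop
  refine mem_interior.2 ⟨{w | 0 < u w} ∩ ({w | 0 < v w} ∩ {w | u w + v w < D}), ?_,
    (isOpen_lt continuous_const hu).inter ((isOpen_lt continuous_const hv).inter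
      (isOpen_lt (hu.add hv) continuous_const)), h1, h2, h3⟩
  rintro w ⟨a1, a2, a3⟩
  have b1 : 0 < u w := a1
  have b2 : 0 < v w := a2
  have b3 : u w + v w < D := a3
  have := hK.sum_mem (t := Finset.univ) (w := ![(D - u w - v w) / D, u w / D, v w / D])
    (z := ![A, B, C]) (fun i _ => by
      fin_cases i <;> simp <;> apply div_nonneg <;> linarith)
    (by simp [Fin.sum_univ_three]; field_simp; ring) (fun i _ => by fin_cases i <;> simpa)
  have e : w = ∑ i, ![(D - u w - v w) / D, u w / D, v w / D] i • ![A, B, C] i := by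
    simp only [Fin.sum_univ_three, Matrix.cons_val_zero, Matrix.cons_val_one, Matrix.cons_val]
    apply Complex.ext
    · simp only [add_re, smul_re, smul_eq_mul]
      field_simp
      simp only [u, v, hD, sub_re, sub_im]; ring
    · simp only [add_im, smul_im, smul_eq_mul]
      field_simp
      simp only [u, v, hD, sub_re, sub_im]; ring
  rwa [e]

noncomputable def pt (s : ℝ) : ℂ := ⟨(1 - s ^ 2) / (1 + s ^ 2), 2 * s / (1 + s ^ 2)⟩
noncomputable def val (s : ℝ) : ℂ :=
  ⟨-(1 + 2 * s ^ 2) / (2 + 8 * s ^ 2), -s / (2 + 8 * s ^ 2) - (s + 1 / s) / 2000⟩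

theorem main : ∃ (k : ℕ) (p α : Fin (k + 1) → ℝ) (j : Fin k), 3 ≤ k + 1 ∧ StrictMono p ∧
    (∀ l, 0 < α l) ∧ ∀ K : Set ℂ, IsClosed K → Convex ℝ K →
      frontier K ≠ (fun z : ℂ => ∑ l, (α l : ℂ) / (z - p l)) ''
        {z | ‖z - ((p j.castSucc + p j.succ) / 2 : ℝ)‖ = (p j.succ - p j.castSucc) / 2 ∧
          0 < z.im} := by
  refine ⟨2, ![-1, 1, 3], ![1 / 1000, 1 / 1000, 1], 0, le_rfl, ?_, ?_, fun K hK hK2 h => ?_⟩
  · refine Fin.strictMono_iff_lt_succ.2 fun i => ?_
    fin_cases i <;> simp <;> norm_num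
  · intro l; fin_cases l <;> simp
  have key : ∀ s : ℝ, 0 < s → val s ∈ frontier K := by
    intro s hs
    rw [h]
    refine ⟨pt s, ⟨?_, ?_⟩, ?_⟩
    · have : ‖pt s‖ ^ 2 = 1 := by
        rw [Complex.sq_norm, normSq_apply]; simp only [pt]; field_simp; ring
      have h2 : ‖pt s‖ = 1 := by nlinarith [norm_nonneg (pt s)]
      simp [h2]
    · simp only [pt]; positivity
    · simp only [Fin.sum_univ_succ, Matrix.cons_val_zero, Matrix.cons_val_succ,
        Finset.univ_eq_empty, Finset.sum_empty, add_zero]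
      have e1 : normSq (pt s - ((-1 : ℝ) : ℂ)) = 4 / (1 + s ^ 2) := by
        rw [normSq_apply]; simp [pt]; field_simp; ring
      have e2 : normSq (pt s - ((1 : ℝ) : ℂ)) = 4 * s ^ 2 / (1 + s ^ 2) := by
        rw [normSq_apply]; simp [pt]; field_simp; ring
      have e3 : normSq (pt s - ((3 : ℝ) : ℂ)) = (4 + 16 * s ^ 2) / (1 + s ^ 2) := by
        rw [normSq_apply]; simp [pt]; field_simp; ring
      apply Complex.ext
      · simp only [add_re, div_re, e1, e2, e3]
        simp [pt, val]; field_simp; ring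
      · simp only [add_im, div_im, e1, e2, e3]
        simp [pt, val]; field_simp; ring
  have hs : frontier K ⊆ K := hK.frontier_subset
  refine (key (1 / 2) (by norm_num)).2 (tri hK2 (hs (key (1 / 10) (by norm_num)))
    (hs (key 1000 (by norm_num))) (hs (key 5 (by norm_num))) ?_ ?_ ?_) <;>
  simp only [val, sub_re, sub_im] <;> norm_num

end H91.HalfCircle
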