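import Mathlib
set_option autoImplicit false

namespace H91.HiSchw
open Complex Metric Set Filter Topology

noncomputable def c : ℂ := 399 / 401
noncomputable def a : ℂ := 399 / 401 + 40 / 401 * I
noncomputable def f (z : ℂ) : ℂ := z * (1 - c * z) / (1 - a * z) ^ 2
noncomputable def F (z w : ℂ) : ℂ := log (1 + z * ((w - c) / (1 - c * w))) - log (1 - c * z)

lemma norm_c : ‖c‖ < 1 := by
  unfold c; rw [norm_div]; simp; norm_num
lemma norm_a : ‖a‖ = 1 := by
  have : ‖a‖ ^ 2 = 1 := by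
    rw [Complex.sq_norm, normSq_apply]; simp [a]; norm_num
  nlinarith [norm_nonneg a]
lemma ac : 2 * a * c - a ^ 2 = 1 := by
  unfold a c; ring_nf; rw [I_sq]; norm_num

lemma ne_of {u : ℂ} (h : ‖u‖ < 1) : 1 + u ≠ 0 := slitPlane_ne_zero (mem_slitPlane_of_norm_lt_one h)

lemma nc {z : ℂ} (hz : z ∈ ball (0:ℂ) 1) : ‖-(c * z)‖ < 1 := by
  rw [norm_neg, norm_mul]
  have := mem_ball_zero_iff.1 hz
  nlinarith [norm_c, norm_nonneg c, norm_nonneg z]
lemma hc {z : ℂ} (hz : z ∈ ball (0:ℂ) 1) : 1 - c * z ≠ 0 := by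
  rw [sub_eq_add_neg]; exact ne_of (nc hz)
lemma ha {z : ℂ} (hz : z ∈ ball (0:ℂ) 1) : 1 - a * z ≠ 0 := by
  rw [sub_eq_add_neg]; apply ne_of
  rw [norm_neg, norm_mul, norm_a, one_mul]; exact mem_ball_zero_iff.1 hz
lemma hc' {z : ℂ} (hz : z ∈ ball (0:ℂ) 1) : 1 - z * c ≠ 0 := by rw [mul_comm]; exact hc hz
lemma ha' {z : ℂ} (hz : z ∈ ball (0:ℂ) 1) : 1 - z * a ≠ 0 := by rw [mul_comm]; exact ha hz
lemma nv {z w : ℂ} (hz : z ∈ ball (0:ℂ) 1) (hw : w ∈ ball (0:ℂ) 1) :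
    ‖z * ((w - c) / (1 - c * w))‖ < 1 := by
  have h1 : ‖(w - c) / (1 - c * w)‖ ≤ 1 := by
    rw [norm_div, div_le_one (norm_pos_iff.2 (hc hw))]
    have h2 : ‖w‖ ^ 2 < 1 := by nlinarith [mem_ball_zero_iff.1 hw, norm_nonneg w]
    refine (abs_le_of_sq_le_sq' ?_ (norm_nonneg _)).2
    rw [Complex.sq_norm, normSq_apply] at h2 ⊢
    rw [Complex.sq_norm, normSq_apply]
    simp [c]
    nlinarith
  rw [norm_mul]
  nlinarith [mem_ball_zero_iff.1 hz, norm_nonneg z, norm_nonneg ((w - c) / (1 - c * w))]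
lemma hN {z w : ℂ} (hz : z ∈ ball (0:ℂ) 1) (hw : w ∈ ball (0:ℂ) 1) :
    1 - c * (z + w) + z * w ≠ 0 := by
  have h1 := ne_of (nv hz hw)
  have h2 := hc hw
  have : 1 - c * (z + w) + z * w = (1 + z * ((w - c) / (1 - c * w))) * (1 - c * w) := by
    field_simp; ring
  rw [this]; exact mul_ne_zero h1 h2

lemma fdiff {z w : ℂ} (hz : z ∈ ball (0:ℂ) 1) (hw : w ∈ ball (0:ℂ) 1) :
    f z - f w = (z - w) * (1 - c * (z + w) + z * w) / ((1 - a * z) ^ 2 * (1 - a * w) ^ 2) := by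
  have h1 := ha hz
  have h2 := ha hw
  unfold f
  rw [div_sub_div _ _ (pow_ne_zero 2 h1) (pow_ne_zero 2 h2)]
  congr 1
  linear_combination (z * w * (z - w)) * ac

lemma d1 {z w : ℂ} (hz : z ∈ ball (0:ℂ) 1) (hw : w ∈ ball (0:ℂ) 1) :
    deriv (F z) w = (z - c) / (1 - c * (z + w) + z * w) + c / (1 - c * w) := by
  have h0 := hc hw
  have h1 : HasDerivAt (fun w => 1 + z * ((w - c) / (1 - c * w)))
      (z * ((1 - c ^ 2) / (1 - c * w) ^ 2)) w := by
    refine ((((hasDerivAt_id' w).sub_const c).div (((hasDerivAt_id' w).const_mul c).const_sub 1)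
      h0).const_mul z |>.const_add 1).congr_deriv ?_
    congr 2; ring
  have h2 := (h1.clog (mem_slitPlane_of_norm_lt_one (nv hz hw))).sub_const (log (1 - c * z))
  have h3 := hN hz hw
  have h0' := hc' hw
  have h4 : 1 + z * ((w - c) / (1 - c * w)) = (1 - c * (z + w) + z * w) / (1 - c * w) := by
    field_simp; ring
  refine (h2.congr_deriv ?_).deriv
  rw [h4]; field_simp; ring

lemma d3 {z w : ℂ} (hz : z ∈ ball (0:ℂ) 1) (hw : w ∈ ball (0:ℂ) 1) :
    iteratedDeriv 2 (fun z => iteratedDeriv 1 (F z) w) z =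
      -2 * (1 - c ^ 2) * (w - c) / (1 - c * (z + w) + z * w) ^ 3 := by
  have hN' : ∀ z : ℂ, HasDerivAt (fun z => 1 - c * (z + w) + z * w) (w - c) z := fun z =>
    (((((hasDerivAt_id' z).add_const w).const_mul c).const_sub 1).add
      ((hasDerivAt_id' z).mul_const w)).congr_deriv (by ring)
  have e1 : EqOn (fun z => iteratedDeriv 1 (F z) w)
      (fun z => (z - c) / (1 - c * (z + w) + z * w) + c / (1 - c * w)) (ball 0 1) := fun z hz => by
    simp only [iteratedDeriv_one]; exact d1 hz hw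
  have e2 : EqOn (deriv fun z => iteratedDeriv 1 (F z) w)
      (fun z => (1 - c ^ 2) / (1 - c * (z + w) + z * w) ^ 2) (ball 0 1) := fun z hz => by
    rw [(e1.eventuallyEq_of_mem (isOpen_ball.mem_nhds hz)).deriv_eq]
    refine (((((hasDerivAt_id' z).sub_const c).div (hN' z) (hN hz hw)).add_const _).congr_deriv
      ?_).deriv
    congr 1; ring
  rw [iteratedDeriv_succ, iteratedDeriv_one,
    (e2.eventuallyEq_of_mem (isOpen_ball.mem_nhds hz)).deriv_eq]
  have h3 := hN hz hw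
  refine (((hasDerivAt_const z (1 - c ^ 2)).div ((hN' z).pow 2) (pow_ne_zero 2 h3)).congr_deriv
    ?_).deriv
  simp only [Pi.pow_apply]
  field_simp; ring

theorem main : ∃ (p q : ℕ) (f : ℂ → ℂ) (F : ℂ → ℂ → ℂ), 0 < p ∧ 0 < q ∧ p ≠ q ∧
    DifferentiableOn ℂ f (ball 0 1) ∧ InjOn f (ball 0 1) ∧ f 0 = 0 ∧ deriv f 0 = 1 ∧
    DifferentiableOn ℂ (fun x : ℂ × ℂ => F x.1 x.2) (ball 0 1 ×ˢ ball 0 1) ∧ F 0 0 = 0 ∧
    (∀ z ∈ ball (0:ℂ) 1, ∀ w ∈ ball (0:ℂ) 1, z ≠ w → z ≠ 0 → w ≠ 0 →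
      exp (F z w) = (f z - f w) / (z - w) * (z / f z) * (w / f w)) ∧
    ∃ z ∈ ball (0:ℂ) 1, ((p + q - 1).factorial : ℝ) <
      ‖iteratedDeriv p (fun u => iteratedDeriv q (F u) z) z‖ * (1 - ‖z‖ ^ 2) ^ (p + q) := by
  refine ⟨2, 1, f, F, by norm_num, by norm_num, by norm_num, ?_, ?_, by simp [f], ?_, ?_,
    by simp [F], ?_, 43 / 50, ?_, ?_⟩
  · exact DifferentiableOn.div (by fun_prop) (by fun_prop) fun z hz => pow_ne_zero 2 (ha hz)
  · intro z hz w hw h
    have h1 := fdiff hz hw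
    rw [h, sub_self, eq_comm, div_eq_zero_iff, mul_eq_zero] at h1
    rcases h1 with (h1 | h1) | h1
    · exact sub_eq_zero.1 h1
    · exact absurd h1 (hN hz hw)
    · exact absurd h1 (mul_ne_zero (pow_ne_zero 2 (ha hz)) (pow_ne_zero 2 (ha hw)))
  · refine ((((hasDerivAt_id' (0:ℂ)).mul (((hasDerivAt_id' (0:ℂ)).const_mul c).const_sub 1)).div
      ((((hasDerivAt_id' (0:ℂ)).const_mul a).const_sub 1).pow 2) (by simp)).congr_deriv ?_).deriv
    simp
  · rintro ⟨z, w⟩ ⟨hz, hw⟩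
    apply DifferentiableAt.differentiableWithinAt
    unfold F
    refine DifferentiableAt.sub (DifferentiableAt.clog ?_ (mem_slitPlane_of_norm_lt_one (nv hz hw)))
      (DifferentiableAt.clog (by fun_prop) ?_)
    · have := hc hw
      fun_prop (disch := assumption)
    · rw [sub_eq_add_neg]; exact mem_slitPlane_of_norm_lt_one (nc hz)
  · intro z hz w hw hzw hz0 hw0
    rw [fdiff hz hw, F, exp_sub, exp_log (ne_of (nv hz hw)), exp_log (hc hz)]
    have := ha hz; have := ha hw; have := hc hz; have := hc hw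
    have := ha' hz; have := ha' hw; have := hc' hz; have := hc' hw
    have := sub_ne_zero.2 hzw
    unfold f
    field_simp; ring
  · rw [mem_ball_zero_iff, norm_div]; simp; norm_num
  · have hz : (43 / 50 : ℂ) ∈ ball (0:ℂ) 1 := by
      rw [mem_ball_zero_iff, norm_div]; simp; norm_num
    rw [d3 hz hz]
    have e : -2 * (1 - c ^ 2) * (43 / 50 - c) / (1 - c * (43 / 50 + 43 / 50) + 43 / 50 * (43 / 50)) ^ 3
        = ((-2 * (1 - (399 / 401) ^ 2) * (43 / 50 - 399 / 401) / (1 - 399 / 401 * (43 / 50 + 43 / 50)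
          + 43 / 50 * (43 / 50)) ^ 3 : ℝ) : ℂ) := by
      unfold c; push_cast; ring
    have e2 : ‖(43 / 50 : ℂ)‖ = 43 / 50 := by rw [norm_div]; simp
    rw [e, norm_real, e2, Real.norm_eq_abs, abs_of_pos (by norm_num)]
    norm_num [Nat.factorial]

end H91.HiSchw
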