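import Mathlib

set_option autoImplicit false

namespace Pool.Agent.H91.PolyIndex

open Filter Topology Set

section General

variable (𝕜 X : Type) [RCLike 𝕜] [NormedAddCommGroup X] [NormedSpace 𝕜 X]

abbrev Pairs := {p : X × (X →L[𝕜] 𝕜) // ‖p.1‖ = 1 ∧ ‖p.2‖ = 1 ∧ p.2 p.1 = 1}

variable {𝕜 X}

noncomputable def v {k : ℕ} (A : ContinuousMultilinearMap 𝕜 (fun _ : Fin k => X) X) : ℝ :=
  ⨆ p : Pairs 𝕜 X, ‖p.1.2 (A (fun _ => p.1.1))‖

lemma v_bdd {k : ℕ} (A : ContinuousMultilinearMap 𝕜 (fun _ : Fin k => X) X) :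
    BddAbove (range fun p : Pairs 𝕜 X => ‖p.1.2 (A (fun _ => p.1.1))‖) := by
  refine ⟨‖A‖, ?_⟩
  rintro _ ⟨p, rfl⟩
  have h1 := p.1.2.le_opNorm (A (fun _ => p.1.1))
  have h2 := A.le_opNorm (fun _ => p.1.1)
  simp only [p.2.1, Finset.prod_const_one, mul_one] at h2
  rw [p.2.2.1, one_mul] at h1
  exact h1.trans h2

lemma le_v {k : ℕ} (A : ContinuousMultilinearMap 𝕜 (fun _ : Fin k => X) X) (x : X)
    (f : X →L[𝕜] 𝕜) (hx : ‖x‖ = 1) (hf : ‖f‖ = 1) (hfx : f x = 1) :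
    ‖f (A (fun _ => x))‖ ≤ v A :=
  le_ciSup (v_bdd A) (⟨(x, f), hx, hf, hfx⟩ : Pairs 𝕜 X)

lemma v_nonneg {k : ℕ} (A : ContinuousMultilinearMap 𝕜 (fun _ : Fin k => X) X) : 0 ≤ v A :=
  Real.iSup_nonneg fun _ => norm_nonneg _

lemma v_le {k : ℕ} (A : ContinuousMultilinearMap 𝕜 (fun _ : Fin k => X) X) {C : ℝ} (hC : 0 ≤ C)
    (h : ∀ (x : X) (f : X →L[𝕜] 𝕜), ‖x‖ = 1 → ‖f‖ = 1 → f x = 1 → ‖f (A (fun _ => x))‖ ≤ C) :
    v A ≤ C :=
  Real.iSup_le (fun p => h p.1.1 p.1.2 p.2.1 p.2.2.1 p.2.2.2) hC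

lemma smul_diag {k : ℕ} (A : ContinuousMultilinearMap 𝕜 (fun _ : Fin k => X) X) (c : 𝕜) (x : X) :
    A (fun _ => c • x) = c ^ k • A (fun _ => x) := by
  rw [A.map_smul_univ (fun _ => c) (fun _ => x)]; simp

/-- reduction from the ball to the sphere -/
lemma ball_of_sphere [Nontrivial X] {k : ℕ} (A : ContinuousMultilinearMap 𝕜 (fun _ : Fin k => X) X)
    {C : ℝ} (h : ∀ y : X, ‖y‖ = 1 → ‖A (fun _ => y)‖ ≤ C) (y : X) (hy : ‖y‖ ≤ 1) :
    ‖A (fun _ => y)‖ ≤ C := by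
  obtain ⟨z, hz, hyz⟩ : ∃ z : X, ‖z‖ = 1 ∧ y = ((‖y‖ : ℝ) : 𝕜) • z := by
    by_cases h0 : y = 0
    · obtain ⟨w, hw⟩ := exists_ne (0 : X)
      have hw' : ‖w‖ ≠ 0 := norm_ne_zero_iff.mpr hw
      refine ⟨((‖w‖ : ℝ) : 𝕜)⁻¹ • w, ?_, by simp [h0]⟩
      rw [norm_smul, norm_inv, RCLike.norm_ofReal, abs_norm, inv_mul_cancel₀ hw']
    · have hw' : ‖y‖ ≠ 0 := norm_ne_zero_iff.mpr h0
      refine ⟨((‖y‖ : ℝ) : 𝕜)⁻¹ • y, ?_, ?_⟩
      · rw [norm_smul, norm_inv, RCLike.norm_ofReal, abs_norm, inv_mul_cancel₀ hw']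
      · rw [smul_smul, mul_inv_cancel₀ (by exact_mod_cast hw'), one_smul]
  have h1 := h z hz
  rw [hyz, smul_diag, norm_smul, norm_pow, RCLike.norm_ofReal, abs_norm]
  have h2 : ‖y‖ ^ k ≤ 1 := pow_le_one₀ (norm_nonneg _) hy
  have h3 := norm_nonneg (A (fun _ => z))
  nlinarith

variable (𝕜 X)

def S (k : ℕ) : Set ℝ := {c : ℝ | 0 ≤ c ∧
  ∀ (A : ContinuousMultilinearMap 𝕜 (fun _ : Fin k => X) X) (y : X), ‖y‖ ≤ 1 →
    c * ‖A (fun _ => y)‖ ≤ v A}

lemma S_of_sphere [Nontrivial X] (k : ℕ) (c : ℝ) (hc : 0 ≤ c)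
    (h : ∀ (A : ContinuousMultilinearMap 𝕜 (fun _ : Fin k => X) X) (y : X), ‖y‖ = 1 →
    c * ‖A (fun _ => y)‖ ≤ v A) : c ∈ S 𝕜 X k := by
  refine ⟨hc, fun A y hy => ?_⟩
  rcases hc.eq_or_lt with h0 | h0
  · rw [← h0, zero_mul]; exact v_nonneg A
  · rw [← le_div_iff₀' h0]
    apply ball_of_sphere A _ y hy
    intro z hz
    rw [le_div_iff₀' h0]; exact h A z hz

lemma S_succ [Nontrivial X] (k : ℕ) : S 𝕜 X (k + 1) ⊆ S 𝕜 X k := by
  intro c hc
  apply S_of_sphere 𝕜 X k c hc.1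
  intro A y hy
  obtain ⟨φ, hφ, hφy⟩ := exists_dual_vector 𝕜 y (by rw [hy]; norm_num)
  let Q : ContinuousMultilinearMap 𝕜 (fun _ : Fin (k + 1) => X) X :=
    ContinuousLinearMap.uncurryLeft (𝕜 := 𝕜) (Ei := fun _ : Fin (k + 1) => X) (φ.smulRight A)
  have hQ : ∀ x : X, Q (fun _ => x) = φ x • A (fun _ => x) := fun x => rfl
  have h1 := hc.2 Q y hy.le
  rw [hQ, hφy, hy] at h1
  simp only [map_one, one_smul] at h1
  refine h1.trans (v_le Q (v_nonneg A) fun x f hx hf hfx => ?_)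
  rw [hQ, map_smul, norm_smul]
  have h2 := φ.le_opNorm x
  rw [hφ, hx, one_mul] at h2
  have h3 := le_v A x f hx hf hfx
  nlinarith [norm_nonneg (f (A fun _ => x))]

lemma zero_mem_S (k : ℕ) : 0 ∈ S 𝕜 X k := ⟨le_rfl, fun A y _ => by simpa using v_nonneg A⟩

lemma tendsto_index [Nontrivial X] (a b : ℝ) (ha : ∀ k, a ∈ S 𝕜 X k) (hb : ∀ c ∈ S 𝕜 X 1, c ≤ b) :
    ∃ L, Tendsto (fun k => sSup (S 𝕜 X k)) atTop (𝓝 L) ∧ a ≤ L ∧ L ≤ b := by
  have hsub : ∀ k, S 𝕜 X (k + 1) ⊆ S 𝕜 X 1 := by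
    intro k
    induction k with
    | zero => exact subset_rfl
    | succ k ih => exact (S_succ 𝕜 X (k + 1)).trans ih
  have hbdd : ∀ k, BddAbove (S 𝕜 X (k + 1)) := fun k => ⟨b, fun c hc => hb c (hsub k hc)⟩
  have hanti : Antitone (fun k => sSup (S 𝕜 X (k + 1))) := by
    apply antitone_nat_of_succ_le
    intro k
    exact csSup_le_csSup (hbdd k) ⟨a, ha _⟩ (S_succ 𝕜 X (k + 1))
  have hlow : ∀ k, a ≤ sSup (S 𝕜 X (k + 1)) := fun k => le_csSup (hbdd k) (ha _)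
  have hB : BddBelow (range fun k => sSup (S 𝕜 X (k + 1))) := ⟨a, by rintro _ ⟨k, rfl⟩; exact hlow k⟩
  refine ⟨_, (tendsto_add_atTop_iff_nat 1).mp (tendsto_atTop_ciInf hanti hB), le_ciInf hlow, ?_⟩
  exact (ciInf_le hB 0).trans (csSup_le ⟨a, ha _⟩ hb)

end General

def X : Submodule ℂ (Fin 3 → ℂ) where
  carrier := {z | z 0 + z 1 + z 2 = 0}
  add_mem' := by
    intro a b ha hb
    simp only [mem_ofPred_eq, Pi.add_apply] at *
    linear_combination ha + hb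
  zero_mem' := by simp
  smul_mem' := by
    intro c a ha
    simp only [mem_ofPred_eq, Pi.smul_apply, smul_eq_mul] at *
    linear_combination c * ha

instance : CompleteSpace X := FiniteDimensional.complete ℂ X

lemma X_le (z : X) (i : Fin 3) : ‖z.1 i‖ ≤ ‖z‖ := norm_le_pi_norm z.1 i

lemma X_norm_le (z : X) {C : ℝ} (hC : 0 ≤ C) (h : ∀ i, ‖z.1 i‖ ≤ C) : ‖z‖ ≤ C :=
  (pi_norm_le_iff_of_nonneg hC).mpr h

def x0 : X := ⟨![1, -1, 0], by show _ = _; simp⟩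
noncomputable def y0 : X := ⟨![1 / 2, 1 / 2, -1], by show _ = _; simp; norm_num⟩

lemma y0_norm : ‖y0‖ = 1 := by
  apply le_antisymm
  · apply X_norm_le _ zero_le_one
    intro i; fin_cases i <;> simp [y0] <;> norm_num
  · simpa [y0] using X_le y0 2

lemma x0_norm : ‖x0‖ ≤ 1 := by
  apply X_norm_le _ zero_le_one
  intro i; fin_cases i <;> simp [x0]

instance : Nontrivial X := ⟨⟨y0, 0, fun h => by
  have := y0_norm
  rw [h, norm_zero] at this
  exact zero_ne_one this⟩⟩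

noncomputable def pr (i : Fin 3) : X →L[ℂ] ℂ := (ContinuousLinearMap.proj i).comp X.subtypeL

lemma pr_apply (i : Fin 3) (z : X) : pr i z = z.1 i := rfl

lemma coord_le {k : ℕ} (A : ContinuousMultilinearMap ℂ (fun _ : Fin k => X) X) (z : X)
    (hz : ‖z‖ ≤ 1) (i : Fin 3) (hi : ‖z.1 i‖ = 1) : ‖(A (fun _ => z)).1 i‖ ≤ v A := by
  have hz1 : ‖z‖ = 1 := le_antisymm hz (hi ▸ X_le z i)
  have h0 : z.1 i ≠ 0 := by intro h; rw [h, norm_zero] at hi; exact zero_ne_one hi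
  have hf1 : ((z.1 i)⁻¹ • pr i) z = 1 := by
    simp only [_root_.smul_apply, pr_apply, smul_eq_mul]; exact inv_mul_cancel₀ h0
  have hf : ‖(z.1 i)⁻¹ • pr i‖ = 1 := by
    apply le_antisymm
    · apply ContinuousLinearMap.opNorm_le_bound _ zero_le_one
      intro w
      simp only [_root_.smul_apply, pr_apply, smul_eq_mul, norm_mul, norm_inv, hi, inv_one, one_mul]
      exact X_le w i
    · have := ((z.1 i)⁻¹ • pr i).le_opNorm z
      rwa [hf1, hz1, norm_one, mul_one] at this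
  have := le_v A z _ hz1 hf hf1
  simpa only [_root_.smul_apply, pr_apply, smul_eq_mul, norm_mul, norm_inv, hi, inv_one,
    one_mul] using this

lemma two_coords (w : X) {M : ℝ} (hM : 0 ≤ M) (i j : Fin 3) (hij : i ≠ j) (hi : ‖w.1 i‖ ≤ M)
    (hj : ‖w.1 j‖ ≤ M) : ‖w‖ ≤ 2 * M := by
  have hw : w.1 0 + w.1 1 + w.1 2 = 0 := w.2
  apply X_norm_le _ (by linarith)
  intro l
  by_cases h1 : l = i
  · rw [h1]; linarith
  by_cases h2 : l = j
  · rw [h2]; linarith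
  have : w.1 l = -(w.1 i + w.1 j) := by
    fin_cases i <;> fin_cases j <;> fin_cases l <;> simp_all <;> linear_combination hw
  rw [this, norm_neg]
  linarith [norm_add_le (w.1 i) (w.1 j)]

lemma exists_dir (i : Fin 3) : ∃ d : X, d ≠ 0 ∧ d.1 i = 0 := by
  fin_cases i
  · exact ⟨⟨![0, 1, -1], by show _ = _; simp⟩, fun h => by simpa using congrFun (congrArg Subtype.val h) 1,
      by simp⟩
  · exact ⟨⟨![1, 0, -1], by show _ = _; simp⟩, fun h => by simpa using congrFun (congrArg Subtype.val h) 0,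
      by simp⟩
  · exact ⟨⟨![1, -1, 0], by show _ = _; simp⟩, fun h => by simpa using congrFun (congrArg Subtype.val h) 0,
      by simp⟩

lemma half_mem (k : ℕ) : (1 / 2 : ℝ) ∈ S ℂ X k := by
  apply S_of_sphere ℂ X k _ (by norm_num)
  intro A y hy
  suffices ‖A (fun _ => y)‖ ≤ 2 * v A by linarith
  obtain ⟨i, hi⟩ : ∃ i, ‖y.1 i‖ = 1 := by
    by_contra h
    push Not at h
    have : ‖y.1‖ < 1 := (pi_norm_lt_iff one_pos).mpr fun i =>
      lt_of_le_of_ne (hy ▸ X_le y i) (h i)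
    exact absurd hy (ne_of_lt this)
  obtain ⟨d, hd0, hd⟩ := exists_dir i
  have two : ∀ z : X, ‖z‖ ≤ 1 → ‖z.1 i‖ = 1 → ∀ j, j ≠ i → ‖z.1 j‖ = 1 →
      ‖A (fun _ => z)‖ ≤ 2 * v A := fun z hz h1 j hj h2 =>
    two_coords _ (v_nonneg A) i j hj.symm (coord_le A z hz i h1) (coord_le A z hz j h2)
  by_cases hall : ∀ j, j ≠ i → ‖y.1 j‖ < 1
  swap
  · push Not at hall
    obtain ⟨j, hj, h1⟩ := hall
    exact two y hy.le hi j hj (le_antisymm (hy ▸ X_le y j) h1)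
  set U : Set ℂ := {w | ∀ j, j ≠ i → ‖y.1 j + w * d.1 j‖ < 1} with hU
  have hUo : IsOpen U := by
    have : U = ⋂ j, ⋂ (_ : j ≠ i), {w : ℂ | ‖y.1 j + w * d.1 j‖ < 1} := by
      ext w; simp [hU]
    rw [this]
    exact isOpen_iInter_of_finite fun j => isOpen_iInter_of_finite fun _ =>
      isOpen_lt (by fun_prop) continuous_const
  have hcl : ∀ w ∈ closure U, ‖y + w • d‖ ≤ 1 := by
    have : closure U ⊆ {w : ℂ | ‖y + w • d‖ ≤ 1} := by
      apply closure_minimal _ (isClosed_le (by fun_prop) continuous_const)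
      intro w hw
      apply X_norm_le _ zero_le_one
      intro j
      by_cases hj : j = i
      · rw [hj]; simp [hd, hi]
      · exact (hw j hj).le
    exact fun w hw => this hw
  have hUb : Bornology.IsBounded U := by
    have hdp : 0 < ‖d‖ := norm_pos_iff.mpr hd0
    refine (Metric.isBounded_closedBall (x := (0 : ℂ)) (r := 2 / ‖d‖)).subset fun w hw => ?_
    rw [mem_closedBall_zero_iff, le_div_iff₀ hdp, ← norm_smul]
    have h1 := hcl w (subset_closure hw)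
    have h2 := norm_sub_le (y + w • d) y
    rw [add_sub_cancel_left] at h2
    linarith
  have hdiff : Differentiable ℂ (fun w : ℂ => A (fun _ => y + w • d)) := by
    intro w
    have h1 : DifferentiableAt ℂ (fun w : ℂ => fun _ : Fin k => y + w • d) w := by fun_prop
    exact (A.hasFDerivAt _).differentiableAt.comp w h1
  have := Complex.norm_le_of_forall_mem_frontier_norm_le hUb hdiff.diffContOnCl (C := 2 * v A)
    (z := 0) ?_ (subset_closure (by intro j hj; simpa using hall j hj))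
  · simpa using this
  · intro w hw
    rw [hUo.frontier_eq] at hw
    have h1 := hcl w hw.1
    have h2 := hw.2
    simp only [hU, mem_ofPred_eq, not_forall, not_lt] at h2
    obtain ⟨j, hj, h3⟩ := h2
    exact two (y + w • d) h1 (by simp [hd, hi]) j hj (le_antisymm ((X_le _ j).trans h1) h3)

noncomputable def T : X →L[ℂ] X := ((1 / 2 : ℂ) • (pr 0 - pr 1)).smulRight y0

lemma T_apply (z : X) : T z = ((1 / 2 : ℂ) * (z.1 0 - z.1 1)) • y0 := rfl

lemma index_one (c : ℝ) (hc : c ∈ S ℂ X 1) : c ≤ 9 / 10 := by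
  have h1 := hc.2 ((continuousMultilinearCurryFin1 ℂ X X).symm T) x0 x0_norm
  have e : ∀ z : X, (continuousMultilinearCurryFin1 ℂ X X).symm T (fun _ => z) = T z := fun z => rfl
  have e0 : ‖T x0‖ = 1 := by
    rw [T_apply, norm_smul, y0_norm]; simp [x0]; norm_num
  rw [e, e0, mul_one] at h1
  refine h1.trans (v_le _ (by norm_num) fun z f hz hf hfz => ?_)
  rw [e, T_apply, map_smul, norm_smul]
  set g : ℝ := ‖(1 / 2 : ℂ) * (z.1 0 - z.1 1)‖ with hg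
  have hz0 := hz ▸ X_le z 0
  have hz1 := hz ▸ X_le z 1
  have hpar : ‖z.1 2‖ ^ 2 + 4 * g ^ 2 ≤ 4 := by
    have hw : z.1 0 + z.1 1 + z.1 2 = 0 := z.2
    have e2 : z.1 2 = -(z.1 0 + z.1 1) := by linear_combination hw
    have e3 : g = ‖z.1 0 - z.1 1‖ / 2 := by rw [hg, norm_mul]; simp; ring
    have := parallelogram_law_with_norm ℝ (z.1 0) (z.1 1)
    rw [e2, norm_neg, e3]
    nlinarith [norm_nonneg (z.1 0), norm_nonneg (z.1 1)]
  have hfy : ‖f y0‖ ≤ 1 := by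
    have := f.le_opNorm y0
    rwa [hf, y0_norm, one_mul] at this
  have hg0 : 0 ≤ g := norm_nonneg _
  by_cases hgl : g ≤ 9 / 10
  · nlinarith [norm_nonneg (f y0)]
  · have hz2 : ‖z.1 2‖ ≤ 9 / 10 := by nlinarith [norm_nonneg (z.1 2)]
    have hg1 : g ≤ 1 := by nlinarith [norm_nonneg (z.1 2)]
    obtain ⟨ω, hω, hωf⟩ := Complex.exists_norm_eq_mul_self (f y0)
    have h3 : ‖z + ω • y0‖ ≤ 1 + 9 / 10 := by
      apply X_norm_le _ (by norm_num)
      intro j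
      refine (norm_add_le (z.1 j) (ω • y0.1 j)).trans ?_
      rw [norm_smul, hω]
      fin_cases j <;> simp [y0] <;> linarith
    have h4 := f.le_opNorm (z + ω • y0)
    rw [hf, one_mul, map_add, map_smul, hfz, smul_eq_mul, ← hωf] at h4
    have h5 : ‖(1 : ℂ) + (‖f y0‖ : ℂ)‖ = 1 + ‖f y0‖ := by
      rw [← Complex.ofReal_one, ← Complex.ofReal_add, Complex.norm_real, Real.norm_eq_abs,
        abs_of_nonneg (by positivity)]
    rw [h5] at h4
    nlinarith [norm_nonneg (f y0)]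

end Pool.Agent.H91.PolyIndex
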