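import Mathlib
import Pool.Agent.H91.PolyIndex

set_option autoImplicit false

namespace Pool.Agent.H91.HilbIndex

open Filter Topology Set Pool.Agent.H91.PolyIndex
open scoped InnerProductSpace

variable {H : Type} [NormedAddCommGroup H] [InnerProductSpace ℂ H]

noncomputable def pn {k : ℕ} (A : ContinuousMultilinearMap ℂ (fun _ : Fin k => H) H) : ℝ :=
  ⨆ x : {x : H // ‖x‖ = 1}, ‖A (fun _ => x.1)‖

lemma le_pn {k : ℕ} (A : ContinuousMultilinearMap ℂ (fun _ : Fin k => H) H) (x : H) (hx : ‖x‖ = 1) :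
    ‖A (fun _ => x)‖ ≤ pn A := by
  refine le_ciSup (f := fun x : {x : H // ‖x‖ = 1} => ‖A (fun _ => x.1)‖) ⟨‖A‖, ?_⟩ ⟨x, hx⟩
  rintro _ ⟨y, rfl⟩
  have h2 := A.le_opNorm (fun _ => y.1)
  simpa only [y.2, Finset.prod_const_one, mul_one] using h2

lemma pn_le {k : ℕ} (A : ContinuousMultilinearMap ℂ (fun _ : Fin k => H) H) {C : ℝ} (hC : 0 ≤ C)
    (h : ∀ x : H, ‖x‖ = 1 → ‖A (fun _ => x)‖ ≤ C) : pn A ≤ C :=
  Real.iSup_le (fun x => h x.1 x.2) hC

lemma inner_le_v {k : ℕ} (A : ContinuousMultilinearMap ℂ (fun _ : Fin k => H) H) (x : H)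
    (hx : ‖x‖ = 1) : ‖⟪x, A (fun _ => x)⟫_ℂ‖ ≤ v A :=
  le_v A x (innerSL ℂ x) hx (by rw [innerSL_apply_norm, hx])
    (by simp [inner_self_eq_norm_sq_to_K, hx])

lemma inner_le_v' {k : ℕ} (A : ContinuousMultilinearMap ℂ (fun _ : Fin k => H) H) (z : H) :
    ‖⟪z, A (fun _ => z)⟫_ℂ‖ ≤ v A * ‖z‖ ^ (k + 1) := by
  by_cases h0 : z = 0
  · rw [h0]; simp
  have hz : 0 < ‖z‖ := norm_pos_iff.mpr h0
  have h1 := inner_le_v A (((‖z‖⁻¹ : ℝ) : ℂ) • z) (by
    rw [norm_smul, Complex.norm_real, norm_inv, norm_norm, inv_mul_cancel₀ hz.ne'])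
  rw [smul_diag, inner_smul_left, inner_smul_right, norm_mul, norm_mul, norm_pow,
    Complex.norm_conj, Complex.norm_real, norm_inv, norm_norm, ← mul_assoc, ← pow_succ',
    inv_pow, inv_mul_le_iff₀ (pow_pos hz _)] at h1
  linarith

lemma key {k : ℕ} (A : ContinuousMultilinearMap ℂ (fun _ : Fin k => H) H) (a b : ℝ) (ha : 0 < a)
    (hb : 0 < b) (hab : a ^ 2 + b ^ 2 = 1) (hne : a ≠ b) (x y : H) (hx : ‖x‖ = 1) (hy : ‖y‖ = 1) :
    a ^ k * b * ‖⟪y, A (fun _ => x)⟫_ℂ‖ ≤ v A := by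
  set c : ℂ := ⟪x, y⟫_ℂ with hc
  have hc1 : ‖c‖ ≤ 1 := by
    have := norm_inner_le_norm (𝕜 := ℂ) x y
    rwa [hx, hy, one_mul] at this
  set t : ℝ := a * b * ‖c‖ with ht
  have ht0 : 0 ≤ t := by positivity
  have ht1 : 4 * t ^ 2 < 1 := by
    have h1 : t ≤ a * b := by rw [ht]; nlinarith [mul_pos ha hb]
    have h2 : 0 < (a - b) ^ 2 := by
      have : a - b ≠ 0 := sub_ne_zero.mpr hne
      positivity
    nlinarith
  set D : ℝ := Real.sqrt (1 - 4 * t ^ 2) with hD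
  have hD0 : 0 < D := Real.sqrt_pos.mpr (by linarith)
  have hD2 : D ^ 2 = 1 - 4 * t ^ 2 := Real.sq_sqrt (by linarith)
  have hD1 : D ≤ 1 := by nlinarith
  set p : ℝ := Real.sqrt ((1 + D) / 2) with hp
  have hp0 : 0 < p := Real.sqrt_pos.mpr (by linarith)
  have hp2 : p ^ 2 = (1 + D) / 2 := Real.sq_sqrt (by linarith)
  have hp1 : p ≤ 1 := by nlinarith
  set q : ℂ := ((a * b / p : ℝ) : ℂ) * c with hq
  have hqn : ‖q‖ = t / p := by
    rw [hq, norm_mul, Complex.norm_real, Real.norm_eq_abs, abs_of_pos (by positivity), ht]; ring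
  have hq2 : ‖q‖ ^ 2 = (1 - D) / 2 := by
    rw [hqn, div_pow, hp2, div_eq_iff (by linarith)]; nlinarith
  have hqp : ‖q‖ < p := by
    apply lt_of_pow_lt_pow_left₀ 2 hp0.le
    rw [hq2, hp2]; linarith
  set F : ℂ → H := fun w => (a : ℂ) • x + (b * w) • y with hF
  have hne0 : ∀ w : ℂ, ‖w‖ ≤ 1 → (p : ℂ) + q * w ≠ 0 := by
    intro w hw h
    have h1 : (p : ℂ) = -(q * w) := by linear_combination h
    have h2 := congrArg norm h1
    rw [norm_neg, norm_mul, Complex.norm_real, Real.norm_eq_abs, abs_of_pos hp0] at h2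
    nlinarith [norm_nonneg q]
  have hFn : ∀ w : ℂ, ‖w‖ = 1 → ‖F w‖ = ‖(p : ℂ) + q * w‖ := by
    intro w hw
    have e1 : ‖F w‖ ^ 2 = 1 + 2 * (a * b * (c * w).re) := by
      rw [hF]
      simp only
      rw [@norm_add_sq ℂ, norm_smul, norm_smul, inner_smul_left, inner_smul_right, hx, hy, norm_mul, hw,
        Complex.norm_real, Complex.norm_real, Real.norm_eq_abs, Real.norm_eq_abs, abs_of_pos ha,
        abs_of_pos hb, ← hc]
      simp
      linear_combination hab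
    have e2 : ‖(p : ℂ) + q * w‖ ^ 2 = 1 + 2 * (a * b * (c * w).re) := by
      rw [Complex.sq_norm, Complex.normSq_add, Complex.normSq_ofReal, ← Complex.sq_norm, norm_mul,
        hw, mul_one, hq2]
      have : ((p : ℂ) * (starRingEnd ℂ) (q * w)).re = a * b * (c * w).re := by
        rw [hq]
        simp
        field_simp
      rw [this]; nlinarith
    exact (pow_left_inj₀ (norm_nonneg _) (norm_nonneg _) two_ne_zero).mp (e1.trans e2.symm)
  set G : ℂ → ℂ := fun w => ((a : ℂ) * w * innerSL ℂ x (A (fun _ => F w))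
    + b * innerSL ℂ y (A (fun _ => F w))) / ((p : ℂ) + q * w) ^ (k + 1) with hG
  have hPd : Differentiable ℂ (fun w : ℂ => A (fun _ => F w)) := by
    intro w
    have h1 : DifferentiableAt ℂ (fun w : ℂ => fun _ : Fin k => F w) w := by
      rw [hF]; fun_prop
    exact (A.hasFDerivAt _).differentiableAt.comp w h1
  have hGd : DiffContOnCl ℂ G (Metric.ball 0 1) := by
    apply DifferentiableOn.diffContOnCl
    rw [closure_ball _ one_ne_zero]
    intro w hw
    rw [mem_closedBall_zero_iff] at hw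
    apply DifferentiableAt.differentiableWithinAt
    have h0 : DifferentiableAt ℂ (fun w : ℂ => ((p : ℂ) + q * w) ^ (k + 1)) w := by fun_prop
    refine DifferentiableAt.div ?_ h0 (pow_ne_zero _ (hne0 w hw))
    have h1 := (innerSL ℂ x).differentiableAt.comp w (hPd w)
    have h2 := (innerSL ℂ y).differentiableAt.comp w (hPd w)
    exact (((differentiableAt_const _).mul differentiableAt_id).mul h1).add
      ((differentiableAt_const _).mul h2)
  have hmax := Complex.norm_le_of_forall_mem_frontier_norm_le Metric.isBounded_ball hGd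
    (C := v A) (z := 0) ?_ (subset_closure (Metric.mem_ball_self one_pos))
  · have e : G 0 = ((a : ℂ) ^ k * b * ⟪y, A (fun _ => x)⟫_ℂ) / (p : ℂ) ^ (k + 1) := by
      simp only [hG, hF, mul_zero, zero_smul, add_zero, zero_mul, zero_add, smul_diag,
        innerSL_apply_apply, inner_smul_right]
      ring
    rw [e, norm_div, norm_mul, norm_mul, norm_pow, norm_pow, Complex.norm_real, Complex.norm_real,
      Complex.norm_real, Real.norm_eq_abs, Real.norm_eq_abs, Real.norm_eq_abs, abs_of_pos ha,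
      abs_of_pos hb, abs_of_pos hp0, div_le_iff₀ (pow_pos hp0 _)] at hmax
    have h3 : p ^ (k + 1) ≤ 1 := pow_le_one₀ hp0.le hp1
    nlinarith [v_nonneg A]
  · intro w hw
    rw [frontier_ball _ one_ne_zero, mem_sphere_zero_iff_norm] at hw
    have hww : w * (starRingEnd ℂ) w = 1 := by
      rw [Complex.mul_conj, Complex.normSq_eq_norm_sq, hw]; simp
    have e : (a : ℂ) * w * innerSL ℂ x (A (fun _ => F w)) + b * innerSL ℂ y (A (fun _ => F w))
        = w * ⟪F w, A (fun _ => F w)⟫_ℂ := by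
      generalize A (fun _ => F w) = u
      simp only [hF, innerSL_apply_apply, inner_add_left, inner_smul_left, map_mul,
        Complex.conj_ofReal]
      linear_combination (-(b : ℂ) * ⟪y, u⟫_ℂ) * hww
    simp only [hG]
    rw [e, norm_div, norm_mul, hw, one_mul, norm_pow, ← hFn w hw,
      div_le_iff₀ (pow_pos (by rw [hFn w hw]; exact norm_pos_iff.mpr (hne0 w hw.le)) _)]
    exact inner_le_v' A (F w)

lemma lower {k : ℕ} (A : ContinuousMultilinearMap ℂ (fun _ : Fin k => H) H) (a b : ℝ) (ha : 0 < a)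
    (hb : 0 < b) (hab : a ^ 2 + b ^ 2 = 1) (hne : a ≠ b) : a ^ k * b * pn A ≤ v A := by
  have hc : 0 < a ^ k * b := by positivity
  rw [← le_div_iff₀' hc]
  apply pn_le _ (div_nonneg (v_nonneg A) hc.le)
  intro x hx
  rw [le_div_iff₀' hc]
  by_cases h0 : A (fun _ => x) = 0
  · rw [h0]; simpa using v_nonneg A
  have hz : 0 < ‖A (fun _ => x)‖ := norm_pos_iff.mpr h0
  have := key A a b ha hb hab hne x (((‖A (fun _ => x)‖⁻¹ : ℝ) : ℂ) • A (fun _ => x)) hx (by
    rw [norm_smul, Complex.norm_real, norm_inv, norm_norm, inv_mul_cancel₀ hz.ne'])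
  rw [inner_smul_left, norm_mul, Complex.norm_conj, Complex.norm_real, norm_inv, norm_norm,
    inner_self_eq_norm_sq_to_K, norm_pow, RCLike.norm_ofReal, abs_norm] at this
  have e : ‖A fun _ => x‖⁻¹ * ‖A fun _ => x‖ ^ 2 = ‖A fun _ => x‖ := by field_simp
  rwa [e] at this

noncomputable def ex (k : ℕ) (e1 e2 : H) : ContinuousMultilinearMap ℂ (fun _ : Fin k => H) H :=
  (ContinuousMultilinearMap.mkPiRing ℂ (Fin k) e2).compContinuousLinearMap (fun _ => innerSL ℂ e1)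

lemma ex_apply (k : ℕ) (e1 e2 x : H) : ex k e1 e2 (fun _ => x) = ⟪e1, x⟫_ℂ ^ k • e2 := by
  simp [ex]

lemma ex_pn (k : ℕ) (e1 e2 : H) (h1 : ‖e1‖ = 1) (h2 : ‖e2‖ = 1) : pn (ex k e1 e2) = 1 := by
  apply le_antisymm
  · apply pn_le _ zero_le_one
    intro x hx
    rw [ex_apply, norm_smul, norm_pow, h2, mul_one]
    apply pow_le_one₀ (norm_nonneg _)
    have := norm_inner_le_norm (𝕜 := ℂ) e1 x
    rwa [hx, h1, one_mul] at this
  · have := le_pn (ex k e1 e2) e1 h1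
    rwa [ex_apply, norm_smul, norm_pow, h2, inner_self_eq_norm_sq_to_K, h1, mul_one, norm_pow,
      RCLike.norm_ofReal, abs_one, one_pow, one_pow] at this

lemma pair_eq [CompleteSpace H] (x : H) (f : H →L[ℂ] ℂ) (hx : ‖x‖ = 1) (hf : ‖f‖ = 1)
    (hfx : f x = 1) (z : H) : f z = ⟪x, z⟫_ℂ := by
  obtain ⟨u, rfl⟩ := (InnerProductSpace.toDual ℂ H).surjective f
  rw [LinearIsometryEquiv.norm_map] at hf
  rw [InnerProductSpace.toDual_apply_apply] at hfx ⊢
  rw [(inner_eq_one_iff_of_norm_eq_one hf hx).mp hfx]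

lemma amgm (k : ℕ) (hk : 1 ≤ k) (u w : ℝ) (hu : 0 ≤ u) (_hw : 0 ≤ w) (h : u + w ≤ 1) :
    u ^ k * w ≤ ((k : ℝ) / (k + 1)) ^ k * (1 / (k + 1)) := by
  have hk0 : (0 : ℝ) < k := by exact_mod_cast hk
  rcases hu.eq_or_lt with h0 | h0
  · rw [← h0, zero_pow (by omega), zero_mul]; positivity
  set r : ℝ := u * (k + 1) / k with hr
  have hr0 : 0 < r := by positivity
  have h1 := one_add_mul_le_pow (a := (1 - r) / r) (by
    rw [le_div_iff₀ hr0]; linarith) k
  have e1 : 1 + (1 - r) / r = r⁻¹ := by field_simp; ring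
  rw [e1, inv_pow] at h1
  have h2 : (1 - r) ≤ (1 - r) / r := by
    rw [le_div_iff₀ hr0]; nlinarith [sq_nonneg (1 - r)]
  have h3 : w * (k + 1) ≤ (r ^ k)⁻¹ := by
    have e2 : (k : ℝ) * r = u * (k + 1) := by rw [hr]; field_simp
    nlinarith
  have e3 : u = r * (k / (k + 1)) := by rw [hr]; field_simp
  have h4 : r ^ k * w ≤ 1 / (k + 1) := by
    rw [le_div_iff₀ (by positivity), mul_assoc, ← le_div_iff₀' (pow_pos hr0 k), one_div]
    exact h3
  calc u ^ k * w = ((k : ℝ) / (k + 1)) ^ k * (r ^ k * w) := by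
        conv_lhs => rw [e3]
        rw [mul_pow]; ring
    _ ≤ _ := by gcongr

noncomputable def ca (k : ℕ) : ℝ := Real.sqrt ((k : ℝ) / (k + 1))
noncomputable def cb (k : ℕ) : ℝ := Real.sqrt (1 / (k + 1))

lemma c_eq (k : ℕ) : ca k ^ k * cb k = (k : ℝ) ^ ((k : ℝ) / 2) / ((k : ℝ) + 1) ^ (((k : ℝ) + 1) / 2) := by
  have hk0 : (0 : ℝ) ≤ k := Nat.cast_nonneg k
  have e1 : (k : ℝ) ^ ((k : ℝ) / 2) = Real.sqrt k ^ k := by
    rw [Real.sqrt_eq_rpow, ← Real.rpow_natCast, ← Real.rpow_mul hk0]; congr 1; ring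
  have e2 : ((k : ℝ) + 1) ^ (((k : ℝ) + 1) / 2) = Real.sqrt (k + 1) ^ (k + 1) := by
    rw [Real.sqrt_eq_rpow, ← Real.rpow_natCast, ← Real.rpow_mul (by positivity)]
    congr 1; push_cast; ring
  rw [e1, e2, ca, cb, Real.sqrt_div hk0, Real.sqrt_div zero_le_one, Real.sqrt_one, div_pow, pow_succ]
  field_simp

lemma upper [CompleteSpace H] (k : ℕ) (hk : 1 ≤ k) (e1 e2 : H) (h1 : ‖e1‖ = 1) (h2 : ‖e2‖ = 1)
    (h12 : ⟪e1, e2⟫_ℂ = 0) : v (ex k e1 e2) ≤ ca k ^ k * cb k := by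
  have hc : 0 ≤ ca k ^ k * cb k := by unfold ca cb; positivity
  apply v_le _ hc
  intro x f hx hf hfx
  rw [pair_eq x f hx hf hfx, ex_apply, inner_smul_right, norm_mul, norm_pow]
  have hon : Orthonormal ℂ ![e1, e2] := by
    rw [orthonormal_vecCons_iff]
    refine ⟨h1, ?_, ?_⟩
    · intro i; fin_cases i; simpa using h12
    · rw [orthonormal_vecCons_iff]; exact ⟨h2, fun i => i.elim0, Orthonormal.of_isEmpty _⟩
  have hb := hon.sum_inner_products_le x (s := Finset.univ)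
  simp only [Fin.sum_univ_two, Matrix.cons_val_zero, Matrix.cons_val_one, hx, one_pow] at hb
  rw [← norm_inner_symm e2 x]
  apply le_of_pow_le_pow_left₀ (n := 2) two_ne_zero hc
  have := amgm k hk _ _ (by positivity) (by positivity) hb
  rw [mul_pow, mul_pow, ← pow_mul, ← pow_mul, mul_comm k 2, pow_mul, pow_mul, ca, cb,
    Real.sq_sqrt (by positivity), Real.sq_sqrt (by positivity)]
  exact this

lemma exists_on (h : 2 ≤ Module.rank ℂ H) :
    ∃ e1 e2 : H, ‖e1‖ = 1 ∧ ‖e2‖ = 1 ∧ ⟪e1, e2⟫_ℂ = 0 := by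
  have hr : ¬ Module.rank ℂ H ≤ 1 := fun h1 => absurd (h.trans h1) (by norm_num)
  rw [rank_le_one_iff] at hr
  push Not at hr
  have unit : ∀ z : H, z ≠ 0 → ‖((‖z‖⁻¹ : ℝ) : ℂ) • z‖ = 1 := fun z hz => by
    rw [norm_smul, Complex.norm_real, norm_inv, norm_norm, inv_mul_cancel₀ (norm_ne_zero_iff.mpr hz)]
  obtain ⟨u, hu⟩ := hr 0
  have hu0 : u ≠ 0 := fun h0 => hu 0 (by rw [h0, smul_zero])
  have h1 := unit u hu0
  set e1 := ((‖u‖⁻¹ : ℝ) : ℂ) • u
  obtain ⟨w, hw⟩ := hr e1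
  have hw0 : w - ⟪e1, w⟫_ℂ • e1 ≠ 0 := fun h0 => hw _ (sub_eq_zero.mp h0).symm
  refine ⟨e1, _, h1, unit _ hw0, ?_⟩
  rw [inner_smul_right, inner_sub_right, inner_smul_right, inner_self_eq_norm_sq_to_K, h1]
  simp

noncomputable def idx (H : Type) [NormedAddCommGroup H] [InnerProductSpace ℂ H] (k : ℕ) : ℝ :=
  sInf {r : ℝ | ∃ A : ContinuousMultilinearMap ℂ (fun _ : Fin k => H) H, pn A = 1 ∧ v A = r}

lemma idx_bdd (k : ℕ) : BddBelow
    {r : ℝ | ∃ A : ContinuousMultilinearMap ℂ (fun _ : Fin k => H) H, pn A = 1 ∧ v A = r} :=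
  ⟨0, by rintro _ ⟨A, _, rfl⟩; exact v_nonneg A⟩

lemma idx_two [CompleteSpace H] (k : ℕ) (hk : 2 ≤ k) (h : 2 ≤ Module.rank ℂ H) :
    idx H k = (k : ℝ) ^ ((k : ℝ) / 2) / ((k : ℝ) + 1) ^ (((k : ℝ) + 1) / 2) := by
  obtain ⟨e1, e2, h1, h2, h12⟩ := exists_on h
  have hk0 : (2 : ℝ) ≤ k := by exact_mod_cast hk
  rw [← c_eq]
  apply le_antisymm
  · exact (csInf_le (idx_bdd k) ⟨ex k e1 e2, ex_pn k e1 e2 h1 h2, rfl⟩).trans
      (upper k (by omega) e1 e2 h1 h2 h12)
  · refine le_csInf ⟨_, ex k e1 e2, ex_pn k e1 e2 h1 h2, rfl⟩ ?_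
    rintro _ ⟨A, hA, rfl⟩
    have ha2 : ca k ^ 2 = k / (k + 1) := Real.sq_sqrt (by positivity)
    have hb2 : cb k ^ 2 = 1 / (k + 1) := Real.sq_sqrt (by positivity)
    have := lower A (ca k) (cb k) (Real.sqrt_pos.mpr (by positivity))
      (Real.sqrt_pos.mpr (by positivity)) (by rw [ha2, hb2]; field_simp) (by
        intro h
        rw [h, hb2, div_left_inj' (by positivity)] at ha2
        linarith)
    rwa [hA, mul_one] at this

lemma idx_one (k : ℕ) (h : Module.rank ℂ H = 1) : idx H k = 1 := by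
  obtain ⟨u, hu0, hu⟩ := rank_eq_one_iff.mp h
  have h1 : ‖((‖u‖⁻¹ : ℝ) : ℂ) • u‖ = 1 := by
    rw [norm_smul, Complex.norm_real, norm_inv, norm_norm, inv_mul_cancel₀ (norm_ne_zero_iff.mpr hu0)]
  set e := ((‖u‖⁻¹ : ℝ) : ℂ) • u
  have hall : ∀ A : ContinuousMultilinearMap ℂ (fun _ : Fin k => H) H, v A = pn A := by
    intro A
    apply le_antisymm
    · apply v_le _ (Real.iSup_nonneg fun _ => norm_nonneg _)
      intro x f hx hf _
      have := f.le_opNorm (A (fun _ => x))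
      rw [hf, one_mul] at this
      exact this.trans (le_pn A x hx)
    · apply pn_le _ (v_nonneg A)
      intro x hx
      refine le_trans (le_of_eq ?_) (inner_le_v A x hx)
      obtain ⟨r, hr⟩ := hu x
      obtain ⟨s, hs⟩ := hu (A (fun _ => x))
      have hr0 : r ≠ 0 := by
        intro h0; rw [h0, zero_smul] at hr; rw [← hr, norm_zero] at hx; exact zero_ne_one hx
      have : A (fun _ => x) = (s / r) • x := by
        rw [← hs, ← hr, smul_smul, div_mul_cancel₀ _ hr0]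
      rw [this, inner_smul_right, norm_smul, norm_mul, inner_self_eq_norm_sq_to_K, hx]
      simp
  have : {r : ℝ | ∃ A : ContinuousMultilinearMap ℂ (fun _ : Fin k => H) H, pn A = 1 ∧ v A = r}
      = {1} := by
    ext r
    constructor
    · rintro ⟨A, hA, rfl⟩; rw [hall, hA]; rfl
    · rintro rfl; exact ⟨ex k e e, ex_pn k e e h1 h1, by rw [hall, ex_pn k e e h1 h1]⟩
  rw [idx, this, csInf_singleton]

end Pool.Agent.H91.HilbIndex
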