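import Mathlib

set_option autoImplicit false
open MeasureTheory Filter Topology Metric Set Complex
open scoped Real

namespace Pool.Agent.H91.Hk

theorem int_ex {a s : ℝ} (ha : 0 < a) (hs : 0 < s) :
    Integrable (fun u : ℝ => Real.exp (-(s * Real.exp u)) * Real.exp (a * u)) ∧
    ∫ u : ℝ, Real.exp (-(s * Real.exp u)) * Real.exp (a * u) = (1 / s) ^ a * Real.Gamma a := by
  have hd : ∀ x ∈ (univ : Set ℝ), HasDerivWithinAt Real.exp (Real.exp x) univ x :=
    fun x _ => (Real.hasDerivAt_exp x).hasDerivWithinAt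
  have e : (fun x : ℝ => |Real.exp x| • (Real.exp x ^ (a - 1) * Real.exp (-(s * Real.exp x))))
      = fun u : ℝ => Real.exp (-(s * Real.exp u)) * Real.exp (a * u) := by
    funext x
    rw [abs_of_pos (Real.exp_pos x), smul_eq_mul, ← Real.exp_mul, ← mul_assoc, ← Real.exp_add,
      mul_comm]
    congr 2
    ring
  have h1 := integrableOn_image_iff_integrableOn_abs_deriv_smul MeasurableSet.univ hd
    Real.exp_injective.injOn fun t => t ^ (a - 1) * Real.exp (-(s * t))
  have h2 := integral_image_eq_integral_abs_deriv_smul MeasurableSet.univ hd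
    Real.exp_injective.injOn fun t => t ^ (a - 1) * Real.exp (-(s * t))
  rw [image_univ, Real.range_exp, e] at h1 h2
  rw [integrableOn_univ] at h1
  rw [Measure.restrict_univ, Real.integral_rpow_mul_exp_neg_mul_Ioi ha hs] at h2
  refine ⟨h1.1 ?_, h2.symm⟩
  have := integrableOn_rpow_mul_exp_neg_mul_rpow (p := 1) (s := a - 1) (b := s) (by linarith)
    one_pos hs
  simpa using this

theorem int_ex' (a : ℝ) {s : ℝ} (hs : 0 < s) :
    IntegrableOn (fun u : ℝ => Real.exp (-(s * Real.exp u)) * Real.exp (a * u)) (Ioi 1) := by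
  refine Integrable.mono' (int_ex (a := |a| + 1) (by positivity) hs).1.integrableOn
    (Continuous.aestronglyMeasurable (by fun_prop)) ?_
  refine (ae_restrict_iff' measurableSet_Ioi).2 (ae_of_all _ fun u hu => ?_)
  rw [Real.norm_of_nonneg (by positivity)]
  have : (1:ℝ) < u := hu
  gcongr
  linarith [le_abs_self a]

noncomputable def T (G : ℂ → ℂ) (u : ℝ) : ℂ := G (u + π * I) - G (u + (-π : ℝ) * I)

noncomputable def V (G : ℂ → ℂ) (u : ℝ) : ℂ := I * ∫ y in (-π)..π, G (u + y * I)

noncomputable def Ha (G : ℂ → ℂ) : ℂ := (∫ u in Ioi (1:ℝ), T G u) + V G 1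

theorem collapse {G : ℂ → ℂ} (hd : DifferentiableOn ℂ G {w | |w.im| ≤ π})
    (hi : IntegrableOn (T G) (Iic 1)) {C δ : ℝ} (hδ : 0 < δ)
    (hb : ∀ w : ℂ, w.re ≤ -2 → |w.im| ≤ π → ‖G w‖ ≤ C * Real.exp (δ * w.re)) :
    V G 1 = ∫ u in Iic (1:ℝ), T G u := by
  have hp := Real.pi_pos
  have c : ∀ y : ℝ, |y| ≤ π → Continuous fun u : ℝ => G (u + y * I) := fun y hy =>
    hd.continuousOn.comp_continuous (by fun_prop) fun u => by simpa using hy
  have h1 : ∀ A : ℝ, V G 1 = (∫ u in A..1, T G u) + V G A := by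
    intro A
    have := integral_boundary_rect_eq_zero_of_differentiableOn G ⟨A, -π⟩ ⟨1, π⟩ (hd.mono
      fun w hw => by
        have h2 := hw.2
        simp only [mem_preimage, uIcc_of_le (show -π ≤ π by linarith)] at h2
        exact abs_le.2 h2)
    simp only [smul_eq_mul] at this
    unfold T V
    rw [intervalIntegral.integral_sub ((c _ (abs_of_pos hp).le).intervalIntegrable _ _)
      ((c _ (by rw [abs_neg, abs_of_pos hp])).intervalIntegrable _ _)]
    linear_combination this
  have h2 : Tendsto (fun A : ℝ => V G A) atBot (𝓝 0) := by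
    have h3 : Tendsto (fun A : ℝ => C * Real.exp (δ * A) * |π - -π|) atBot (𝓝 0) := by
      have := ((Real.tendsto_exp_atBot.comp (tendsto_id.const_mul_atBot hδ)).const_mul C).mul_const
        |π - -π|
      simpa using this
    refine squeeze_zero_norm' ?_ h3
    filter_upwards [eventually_le_atBot (-2:ℝ)] with A hA
    rw [V, norm_mul, norm_I, one_mul]
    refine intervalIntegral.norm_integral_le_of_norm_le_const fun y hy => ?_
    rw [uIoc_of_le (by linarith)] at hy
    simpa using hb (A + y * I) (by simpa using hA) (by simpa using abs_le.2 ⟨hy.1.le, hy.2⟩)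
  have h4 := (intervalIntegral_tendsto_integral_Iic 1 hi tendsto_id).add h2
  rw [add_zero] at h4
  exact tendsto_nhds_unique (tendsto_const_nhds.congr h1) h4

theorem circ {f : ℂ → ℂ} (hf : Differentiable ℂ f) {ω : ℂ} (hω : ‖ω‖ ≤ 1) :
    V (fun w => exp w * (exp w - ω)⁻¹ * f (exp w)) 1 = 2 * π * I * f ω := by
  have h1 := hf.differentiableOn.circleIntegral_sub_inv_smul (c := 0) (R := Real.exp 1) (w := ω)
    (mem_ball_zero_iff.2 (hω.trans_lt (by linarith [Real.add_one_lt_exp (one_ne_zero)])))
  have hp : Function.Periodic (fun y : ℝ => exp ((1:ℝ) + y * I) * (exp ((1:ℝ) + y * I) - ω)⁻¹ *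
      f (exp ((1:ℝ) + y * I))) (2 * π) := fun y => by
    have : exp ((1:ℝ) + ((y + 2 * π : ℝ):ℂ) * I) = exp ((1:ℝ) + y * I) := by
      rw [show ((1:ℝ):ℂ) + ((y + 2 * π : ℝ):ℂ) * I = (1:ℝ) + y * I + 2 * π * I by push_cast; ring,
        exp_periodic]
    simp only [this]
  have h2 := hp.intervalIntegral_add_eq (-π) 0
  rw [show -π + 2 * π = π by ring, zero_add] at h2
  rw [V, h2, ← smul_eq_mul (a := 2 * π * I), ← h1, circleIntegral,
    ← intervalIntegral.integral_const_mul]
  congr 1
  funext y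
  rw [deriv_circleMap, circleMap_zero, exp_add, ofReal_exp]
  simp only [smul_eq_mul]
  ring

noncomputable def G (s x : ℝ) (w : ℂ) : ℂ := exp (s * exp w - x * w)

theorem G_re (s x u y : ℝ) (hy : exp (y * I) = -1) : G s x (u + y * I) =
    (Real.exp (-(s * Real.exp u)) * Real.exp (-x * u) : ℝ) * exp (-(x * y) * I) := by
  rw [G, exp_add (u:ℂ), hy]
  push_cast
  rw [← exp_add, ← exp_add]
  congr 1
  ring

theorem em : exp (((-π : ℝ):ℂ) * I) = -1 := by
  rw [ofReal_neg, neg_mul, exp_neg, exp_pi_mul_I]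
  norm_num

theorem T_G (s x u : ℝ) : T (G s x) u =
    (Real.exp (-(s * Real.exp u)) * Real.exp (-x * u) : ℝ) * (-2 * I * Real.sin (π * x)) := by
  rw [T, G_re _ _ _ _ exp_pi_mul_I, G_re _ _ _ _ em, ← mul_sub, ofReal_sin, Complex.sin]
  congr 1
  push_cast
  rw [show -((x:ℂ) * -π) * I = π * x * I by ring, show -((x:ℂ) * π) * I = -(π * x) * I by ring]
  linear_combination (exp (-(π * x) * I) - exp (π * x * I)) * I_mul_I

theorem int_TG (x : ℝ) {s : ℝ} (hs : 0 < s) : IntegrableOn (T (G s x)) (Ioi 1) := by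
  rw [funext (T_G s x)]
  exact (int_ex' (-x) hs).ofReal.mul_const _

theorem norm_G (s x : ℝ) (hs : 0 < s) (w : ℂ) :
    ‖G s x w‖ ≤ Real.exp (s * Real.exp w.re) * Real.exp (-x * w.re) := by
  rw [G, norm_exp, ← Real.exp_add, Real.exp_le_exp, sub_re, re_ofReal_mul, re_ofReal_mul]
  have := re_le_norm (exp w)
  rw [norm_exp] at this
  nlinarith

theorem hank_neg {s x : ℝ} (hs : 0 < s) (h0 : -1 < x) (h1 : x < 0) :
    Ha (G s x) = 2 * π * I * (s ^ x / Real.Gamma (x + 1) : ℝ) := by
  obtain ⟨i1, i2⟩ := int_ex (a := -x) (by linarith) hs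
  have hi : Integrable (T (G s x)) := by
    rw [funext (T_G s x)]
    exact i1.ofReal.mul_const _
  rw [Ha, collapse (G := G s x) (Differentiable.differentiableOn (by unfold G; fun_prop))
    hi.integrableOn (C := Real.exp s) (δ := -x) (by linarith) fun w hw _ =>
      (norm_G s x hs w).trans (by
        gcongr
        exact mul_le_of_le_one_right hs.le (Real.exp_le_one_iff.2 (by linarith))),
    add_comm, intervalIntegral.integral_Iic_add_Ioi hi.integrableOn hi.integrableOn,
    funext (T_G s x), integral_mul_const, integral_complex_ofReal, i2]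
  have h2 := Real.Gamma_mul_Gamma_one_sub (-x)
  have h3 : 0 < Real.sin (π * -x) := Real.sin_pos_of_pos_of_lt_pi
    (mul_pos Real.pi_pos (by linarith)) (by nlinarith [Real.pi_pos])
  have h4 := Real.Gamma_pos_of_pos (show 0 < x + 1 by linarith)
  rw [show 1 - -x = x + 1 by ring, eq_div_iff h3.ne', mul_neg, Real.sin_neg] at h2
  have h5 : (1 / s) ^ (-x) * Real.Gamma (-x) * -Real.sin (π * x)
      = π * (s ^ x / Real.Gamma (x + 1)) := by
    rw [one_div, Real.inv_rpow hs.le, Real.rpow_neg hs.le, inv_inv, ← mul_div_assoc,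
      eq_div_iff h4.ne']
    linear_combination s ^ x * h2
  have h6 := congrArg (fun r : ℝ => (r : ℂ)) h5
  simp only [ofReal_mul, ofReal_neg] at h6
  simp only [ofReal_mul]
  linear_combination 2 * I * h6

theorem hank_zero (s : ℝ) : Ha (G s 0) = 2 * π * I := by
  have h1 := circ (f := fun p => exp (s * p)) (by fun_prop) (ω := 0) (by simp)
  have e : (fun w => exp w * (exp w - 0)⁻¹ * exp (s * exp w)) = G s 0 := by
    funext w
    rw [sub_zero, mul_inv_cancel₀ (exp_ne_zero w)]
    simp [G]
  rw [e] at h1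
  rw [Ha, h1, funext (T_G s 0)]
  simp

theorem hank_rec {s : ℝ} (hs : 0 < s) (x : ℝ) : s * Ha (G s (x - 1)) = x * Ha (G s x) := by
  have hd : ∀ w, HasDerivAt (G s x) (s * G s (x - 1) w - x * G s x w) w := fun w => by
    have := (((hasDerivAt_exp w).const_mul (s:ℂ)).sub ((hasDerivAt_id w).const_mul (x:ℂ))).cexp
    refine HasDerivAt.congr_deriv this ?_
    simp only [G, Pi.sub_apply, id]
    rw [show (s:ℂ) * exp w - ((x - 1 : ℝ):ℂ) * w = (s * exp w - x * w) + w by push_cast; ring,
      exp_add]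
    ring
  have c : ∀ x : ℝ, Continuous fun y : ℝ => G s x ((1:ℝ) + y * I) := fun x => by
    unfold G; fun_prop
  have h1 : ∫ u in Ioi (1:ℝ), (s * T (G s (x - 1)) u - x * T (G s x) u) = 0 - T (G s x) 1 := by
    refine integral_Ioi_of_hasDerivAt_of_tendsto' (fun u _ => ?_)
      (((int_TG _ hs).const_mul _).sub ((int_TG _ hs).const_mul _)) ?_
    · have k : ∀ b : ℂ, HasDerivAt (fun u : ℝ => G s x (u + b))
          (s * G s (x - 1) (u + b) - x * G s x (u + b)) u := fun b =>
        ((hd (u + b)).comp_add_const _ _).comp_ofReal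
      refine HasDerivAt.congr_deriv ((k _).sub (k _)) ?_
      simp only [T]
      ring
    · rw [funext (T_G s x)]
      have h2 : Tendsto (fun u : ℝ => Real.exp (-(s * Real.exp u)) * Real.exp (-x * u)) atTop
          (𝓝 0) := by
        have h3 := (tendsto_rpow_mul_exp_neg_mul_atTop_nhds_zero (-x) s hs).comp
          Real.tendsto_exp_atTop
        refine h3.congr fun u => ?_
        simp only [Function.comp]
        rw [← Real.exp_mul, mul_comm, neg_mul, mul_comm u]
      simpa using ((continuous_ofReal.tendsto 0).comp h2).mul_const (-2 * I * Real.sin (π * x))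
  have h2 : ∫ y in (-π)..π, I * (s * G s (x - 1) ((1:ℝ) + y * I) - x * G s x ((1:ℝ) + y * I))
      = T (G s x) 1 := by
    refine intervalIntegral.integral_eq_sub_of_hasDerivAt
      (f := fun y : ℝ => G s x ((1:ℝ) + y * I)) (fun y _ => ?_)
      (Continuous.intervalIntegrable (by have := c x; have := c (x - 1); fun_prop) _ _)
    have := ((hd ((1:ℝ) + y * I)).comp (y:ℂ)
      (((hasDerivAt_id (y:ℂ)).mul_const I).const_add ((1:ℝ):ℂ))).comp_ofReal
    refine HasDerivAt.congr_deriv this ?_
    ring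
  rw [integral_sub ((int_TG _ hs).const_mul _) ((int_TG _ hs).const_mul _), integral_const_mul,
    integral_const_mul] at h1
  rw [intervalIntegral.integral_const_mul, intervalIntegral.integral_sub
    (((c _).intervalIntegrable _ _).const_mul _) (((c _).intervalIntegrable _ _).const_mul _),
    intervalIntegral.integral_const_mul, intervalIntegral.integral_const_mul] at h2
  unfold Ha V
  linear_combination h1 + h2

theorem hank {s : ℝ} (hs : 0 < s) (n : ℕ) : ∀ x : ℝ, -1 < x → x ≤ n →
    Ha (G s x) = 2 * π * I * (s ^ x / Real.Gamma (x + 1) : ℝ) := by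
  have base : ∀ x : ℝ, -1 < x → x ≤ 0 →
      Ha (G s x) = 2 * π * I * (s ^ x / Real.Gamma (x + 1) : ℝ) := fun x h0 h1 => by
    rcases h1.eq_or_lt with rfl | h1
    · simp [hank_zero]
    · exact hank_neg hs h0 h1
  induction n with
  | zero => exact fun x h0 h1 => base x h0 (by simpa using h1)
  | succ n ih =>
    intro x h0 h1
    rcases le_or_gt x 0 with h | h
    · exact base x h0 h
    have h2 := hank_rec hs x
    rw [ih (x - 1) (by linarith) (by push_cast at h1; linarith), sub_add_cancel] at h2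
    have h3 : s * (s ^ (x - 1) / Real.Gamma x) = x * (s ^ x / Real.Gamma (x + 1)) := by
      have := Real.Gamma_pos_of_pos h
      rw [Real.Gamma_add_one h.ne', Real.rpow_sub_one hs.ne']
      field_simp
    have h4 := congrArg (fun r : ℝ => (r : ℂ)) h3
    simp only [ofReal_mul] at h4
    refine mul_left_cancel₀ (ofReal_ne_zero.2 h.ne') ?_
    linear_combination 2 * π * I * h4 - h2

end Pool.Agent.H91.Hk
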