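import Pool.Agent.H91.Hk1

set_option autoImplicit false
open MeasureTheory Filter Topology Metric Set Complex
open scoped Real

namespace Pool.Agent.H91.Hk

noncomputable def g (α s : ℝ) (w : ℂ) : ℂ := exp (s * exp w) * (exp (α * w) * (exp (α * w) - I)⁻¹)

variable {α s : ℝ}

theorem geo (hα : 0 < α) (s : ℝ) {w : ℂ} (hw : 1 ≤ w.re) :
    HasSum (fun k : ℕ => I ^ k * G s (α * k) w) (g α s w) := by
  have h1 : ‖I * exp (-(α * w))‖ < 1 := by
    rw [norm_mul, norm_I, one_mul, norm_exp, neg_re, re_ofReal_mul, Real.exp_lt_one_iff]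
    nlinarith
  have h2 := (hasSum_geometric_of_norm_lt_one h1).mul_left (exp (s * exp w))
  have e : (1 - I * exp (-(α * w)))⁻¹ = exp (α * w) * (exp (α * w) - I)⁻¹ := by
    have := exp_ne_zero (α * w)
    rw [exp_neg, show 1 - I * (exp (α * w))⁻¹ = (exp (α * w))⁻¹ * (exp (α * w) - I) by field_simp,
      mul_inv, inv_inv]
  rw [e] at h2
  refine (congrArg (fun f => HasSum f _) ?_).mp h2
  funext k
  rw [G, mul_pow, ← exp_nat_mul, sub_eq_add_neg, exp_add]
  push_cast
  rw [show (k:ℂ) * -(α * w) = -(α * k * w) by ring]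
  ring

theorem series (hα : 0 < α) (hs : 0 < s) :
    HasSum (fun k : ℕ => (I * (s ^ α : ℝ)) ^ k / Gamma (α * k + 1)) (Ha (g α s) / (2 * π * I)) := by
  have q0 : 0 ≤ Real.exp (-α) := (Real.exp_pos _).le
  have q1 : Real.exp (-α) < 1 := Real.exp_lt_one_iff.2 (by linarith)
  have hq := summable_geometric_of_lt_one q0 q1
  have eq : ∀ (k : ℕ) (u : ℝ), 1 ≤ u → Real.exp (-(α * k) * u) ≤ Real.exp (-α) ^ k := fun k u hu => by
    rw [← Real.exp_nat_mul, Real.exp_le_exp]
    nlinarith [mul_nonneg hα.le k.cast_nonneg]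
  have h1 := hasSum_integral_of_dominated_convergence (μ := volume.restrict (Ioi (1:ℝ)))
    (F := fun (k : ℕ) u => I ^ k * T (G s (α * k)) u) (f := T (g α s))
    (fun k u => Real.exp (-(s * Real.exp u)) * Real.exp (0 * u) * 2 * Real.exp (-α) ^ k)
    (fun k => ((int_TG _ hs).const_mul _).aestronglyMeasurable)
    (fun k => (ae_restrict_iff' measurableSet_Ioi).2 (ae_of_all _ fun u hu => by
      rw [T_G, norm_mul, norm_pow, norm_I, one_pow, one_mul, norm_mul, norm_real,
        Real.norm_of_nonneg (by positivity), norm_mul, norm_mul, norm_I, norm_real, norm_neg,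
        Complex.norm_ofNat, zero_mul, Real.exp_zero, Real.norm_eq_abs]
      have h2 := eq k u (le_of_lt hu)
      have h3 := Real.abs_sin_le_one (π * (α * k))
      calc _ ≤ Real.exp (-(s * Real.exp u)) * Real.exp (-α) ^ k * (2 * 1 * 1) := by gcongr
        _ = _ := by ring))
    (ae_of_all _ fun u => hq.mul_left _)
    (by simp only [tsum_mul_left]; exact ((int_ex' 0 hs).mul_const _).mul_const _)
    ((ae_restrict_iff' measurableSet_Ioi).2 (ae_of_all _ fun u hu => by
      have := (geo hα s (w := u + π * I) (by simpa using le_of_lt hu)).sub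
        (geo hα s (w := u + (-π : ℝ) * I) (by simpa using le_of_lt hu))
      simpa only [T, mul_sub] using this))
  have h2 := intervalIntegral.hasSum_integral_of_dominated_convergence (μ := volume) (a := -π)
    (b := π) (F := fun (k : ℕ) (y : ℝ) => I ^ k * G s (α * k) ((1:ℝ) + y * I))
    (f := fun y => g α s ((1:ℝ) + y * I))
    (fun k _ => Real.exp (s * Real.exp 1) * Real.exp (-α) ^ k)
    (fun k => Continuous.aestronglyMeasurable (by unfold G; fun_prop))
    (fun k => ae_of_all _ fun y _ => by
      rw [norm_mul, norm_pow, norm_I, one_pow, one_mul]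
      refine (norm_G _ _ hs _).trans ?_
      rw [show (((1:ℝ):ℂ) + y * I).re = 1 by simp]
      exact mul_le_mul_of_nonneg_left (eq k 1 le_rfl) (Real.exp_pos _).le)
    (ae_of_all _ fun _ _ => hq.mul_left _) intervalIntegrable_const
    (ae_of_all _ fun y _ => geo hα s (by simp))
  have h3 := (h1.add (h2.mul_left I)).div_const (2 * π * I)
  refine (congrArg (fun f => HasSum f _) ?_).mp h3
  funext k
  have h4 := hank hs ⌈α * k⌉₊ (α * k) (by linarith [mul_nonneg hα.le k.cast_nonneg])
    (Nat.le_ceil _)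
  rw [Ha, V] at h4
  rw [integral_const_mul, intervalIntegral.integral_const_mul, div_eq_iff two_pi_I_ne_zero,
    mul_pow, ← ofReal_pow, ← Real.rpow_mul_natCast hs.le,
    show (α:ℂ) * k + 1 = ((α * k + 1 : ℝ):ℂ) by push_cast; ring, Gamma_ofReal, mul_div_assoc,
    ← ofReal_div]
  linear_combination I ^ k * h4

noncomputable def om (α : ℝ) : ℂ := exp ((π / (2 * α) : ℝ) * I)

theorem small {ζ c : ℂ} (h : ‖ζ‖ ≤ 1 / 2) (hc : ‖c‖ = 1) : ‖ζ * (ζ - c)⁻¹‖ ≤ 2 * ‖ζ‖ := by
  have h1 : 1 / 2 ≤ ‖ζ - c‖ := by
    have := norm_sub_norm_le c ζ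
    rw [norm_sub_rev] at this
    linarith
  rw [norm_mul, norm_inv, mul_comm]
  refine mul_le_mul_of_nonneg_right ?_ (norm_nonneg _)
  rw [inv_le_comm₀ (by linarith) two_pos]
  linarith

theorem residue (h0 : 2 / 3 ≤ α) (h1 : α ≤ 1) (hs : 0 < s) (hi : Integrable (T (g α s))) :
    Ha (g α s) = (∫ u, T (g α s) u) + 2 * π * I * (exp (s * om α) / α) := by
  have hp := Real.pi_pos
  have hα : (α:ℂ) ≠ 0 := ofReal_ne_zero.2 (by linarith)
  set w0 : ℂ := (π / (2 * α) : ℝ) * I with hw0
  have a0 : exp (α * w0) = I := by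
    rw [show α * w0 = π / 2 * I by rw [hw0]; push_cast; field_simp, exp_pi_div_two_mul_I]
  have t0 : 0 < π / (2 * α) := by positivity
  have t1 : π / (2 * α) ≤ 3 / 4 * π := by rw [div_le_iff₀ (by linarith)]; nlinarith
  have t2 : α * (π / (2 * α)) = π / 2 := by field_simp
  have n1 : ∀ w : ℂ, |w.im| ≤ π → w ≠ w0 → exp (α * w) - I ≠ 0 := fun w hw hne h => by
    rw [sub_eq_zero, ← a0, exp_eq_exp_iff_exists_int] at h
    obtain ⟨n, hn⟩ := h
    have h2 := congrArg im hn
    simp only [hw0, add_im, mul_im, ofReal_re, ofReal_im, I_im, I_re, mul_re, intCast_re,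
      intCast_im, re_ofNat, im_ofNat, mul_zero, zero_mul, add_zero, mul_one, sub_zero, t2] at h2
    obtain ⟨w1, w2⟩ := abs_le.1 hw
    have h3 : (n:ℝ) < 1 := by nlinarith
    have h4 : (-1:ℝ) < n := by nlinarith
    have h5 : n = 0 := by
      have h6 : n < 1 := by exact_mod_cast h3
      have h7 : -1 < n := by exact_mod_cast h4
      omega
    rw [h5, Int.cast_zero, zero_mul, add_zero] at hn
    exact hne (mul_left_cancel₀ hα hn)
  have n2 : ∀ w : ℂ, |w.im| ≤ π → w ≠ w0 → exp w - om α ≠ 0 := fun w hw hne h => by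
    rw [sub_eq_zero, om, exp_eq_exp_iff_exists_int] at h
    obtain ⟨n, hn⟩ := h
    have h2 := congrArg im hn
    simp only [add_im, mul_im, ofReal_re, ofReal_im, I_im, I_re, mul_re, intCast_re,
      intCast_im, re_ofNat, im_ofNat, mul_zero, zero_mul, add_zero, mul_one, sub_zero] at h2
    obtain ⟨w1, w2⟩ := abs_le.1 hw
    have h3 : (n:ℝ) < 1 := by nlinarith
    have h4 : (-1:ℝ) < n := by nlinarith
    have h5 : n = 0 := by
      have h6 : n < 1 := by exact_mod_cast h3
      have h7 : -1 < n := by exact_mod_cast h4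
      omega
    rw [h5, Int.cast_zero, zero_mul, add_zero] at hn
    exact hne hn
  set A : ℂ → ℂ := fun w => exp (α * w) with hA
  set N : ℂ → ℂ := fun w => α * exp (α * w) * (exp w - om α) - exp w * (exp (α * w) - I) with hN
  have dA : ∀ w, HasDerivAt A (exp (α * w) * (α * 1)) w := fun w =>
    ((hasDerivAt_id w).const_mul (α:ℂ)).cexp
  have ds : ∀ f : ℂ → ℂ, Differentiable ℂ f → Differentiable ℂ (dslope f w0) := fun f hf =>
    differentiableOn_univ.1 ((differentiableOn_dslope univ_mem).2 hf.differentiableOn)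
  have N0 : N w0 = 0 := by simp only [hN, a0, om, ← hw0]; ring
  have N1 : dslope N w0 w0 = 0 := by
    have := ((((dA w0).const_mul (α:ℂ)).mul ((hasDerivAt_exp w0).sub_const (om α))).sub
      ((hasDerivAt_exp w0).mul ((dA w0).sub_const I))).deriv
    rw [dslope_same]
    refine Eq.trans this ?_
    simp only [hA, a0, om, ← hw0]
    ring
  have A1 : ∀ w, (w - w0) * dslope A w0 w = exp (α * w) - I := fun w => by
    rw [← a0]; exact sub_smul_dslope A w0 w
  have A2 : ∀ w, (w - w0) * dslope exp w0 w = exp w - om α := fun w => sub_smul_dslope exp w0 w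
  have A3 : ∀ w, (w - w0) * ((w - w0) * dslope (dslope N w0) w0 w) = N w := fun w => by
    have e1 := sub_smul_dslope (dslope N w0) w0 w
    have e2 := sub_smul_dslope N w0 w
    rw [smul_eq_mul, N1, sub_zero] at e1
    rw [smul_eq_mul, N0, sub_zero] at e2
    rw [e1, e2]
  have D1 : ∀ w : ℂ, |w.im| ≤ π → dslope A w0 w ≠ 0 := fun w hw h => by
    by_cases e : w = w0
    · rw [e, dslope_same, (dA w0).deriv, mul_one] at h
      exact mul_ne_zero (exp_ne_zero _) hα h
    · exact n1 w hw e (by rw [← A1, h, mul_zero])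
  have D2 : ∀ w : ℂ, |w.im| ≤ π → dslope exp w0 w ≠ 0 := fun w hw h => by
    by_cases e : w = w0
    · rw [e, dslope_same, Complex.deriv_exp] at h
      exact exp_ne_zero _ h
    · exact n2 w hw e (by rw [← A2, h, mul_zero])
  set q : ℂ → ℂ := fun w => exp w * (exp w - om α)⁻¹ * (exp (s * exp w) / α) with hq
  set H : ℂ → ℂ := fun w => exp (s * exp w) * (dslope (dslope N w0) w0 w /
    (α * dslope A w0 w * dslope exp w0 w)) with hH
  have eH : ∀ w : ℂ, |w.im| ≤ π → w ≠ w0 → H w = g α s w - q w := fun w hw hne => by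
    have b1 := n1 w hw hne
    have b2 := n2 w hw hne
    have b3 := D1 w hw
    have b4 := D2 w hw
    have b5 := sub_ne_zero.2 hne
    have e : dslope (dslope N w0) w0 w / (α * dslope A w0 w * dslope exp w0 w)
        = N w / (α * (exp (α * w) - I) * (exp w - om α)) := by
      rw [← A1, ← A2, ← A3]
      field_simp
    simp only [hH]
    rw [e]
    simp only [hq, g, hN]
    field_simp
  have dN : Differentiable ℂ N := by rw [hN]; fun_prop
  have dA' : Differentiable ℂ A := fun w => (dA w).differentiableAt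
  have dH : DifferentiableOn ℂ H {w | |w.im| ≤ π} :=
    DifferentiableOn.mul (by fun_prop) (DifferentiableOn.div (ds _ (ds _ dN)).differentiableOn
      (((ds _ dA').const_mul _).mul (ds _ differentiable_exp)).differentiableOn fun w hw =>
        mul_ne_zero (mul_ne_zero hα (D1 w hw)) (D2 w hw))
  have TH : T H = T (g α s) := funext fun u => by
    rw [T, T, eH _ (by simp [abs_of_pos hp]) (fun h => by
        have := congrArg im h
        simp only [hw0, add_im, mul_im, ofReal_re, ofReal_im, I_im, I_re] at this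
        linarith),
      eH _ (by simp [abs_of_pos hp]) (fun h => by
        have := congrArg im h
        simp only [hw0, add_im, mul_im, ofReal_re, ofReal_im, I_im, I_re] at this
        linarith)]
    simp only [hq, exp_add, exp_pi_mul_I, em]
    ring
  have no : ‖om α‖ = 1 := norm_exp_ofReal_mul_I _
  have h2 := collapse dH (TH ▸ hi.integrableOn) (C := 5 * Real.exp s) (δ := 1 / 2) (by norm_num)
    fun w hw hw' => by
      have c1 : ‖exp (s * exp w)‖ ≤ Real.exp s := by
        rw [norm_exp, Real.exp_le_exp, re_ofReal_mul]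
        have := (re_le_norm (exp w)).trans (norm_exp w).le
        have h3 := Real.exp_le_one_iff.2 (show w.re ≤ 0 by linarith)
        nlinarith
      have c2 : Real.exp (1 / 2 * w.re) ≤ 1 / 2 := by
        have := Real.exp_neg_one_lt_d9
        have h3 := Real.exp_le_exp.2 (show 1 / 2 * w.re ≤ -1 by linarith)
        linarith
      have c3 : ‖exp (α * w)‖ ≤ Real.exp (1 / 2 * w.re) := by
        rw [norm_exp, Real.exp_le_exp, re_ofReal_mul]; nlinarith
      have c4 : ‖exp w‖ ≤ Real.exp (1 / 2 * w.re) := by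
        rw [norm_exp, Real.exp_le_exp]; nlinarith
      rw [eH w hw' fun h => by
        have := congrArg re h
        simp only [hw0, mul_re, ofReal_re, ofReal_im, I_im, I_re] at this
        linarith]
      refine (norm_sub_le _ _).trans ?_
      have c5 : ‖g α s w‖ ≤ Real.exp s * (2 * Real.exp (1 / 2 * w.re)) := by
        rw [g, norm_mul]
        exact mul_le_mul c1 ((small (c3.trans c2) norm_I).trans (by linarith)) (norm_nonneg _)
          (Real.exp_pos _).le
      have c6 : ‖q w‖ ≤ 2 * Real.exp (1 / 2 * w.re) * (Real.exp s * (3 / 2)) := by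
        simp only [hq]
        rw [norm_mul]
        refine mul_le_mul ((small (c4.trans c2) no).trans (by linarith)) ?_ (norm_nonneg _)
          (by positivity)
        rw [norm_div, norm_real, Real.norm_of_nonneg (by linarith), div_le_iff₀ (by linarith)]
        nlinarith [Real.exp_pos s]
      linarith
  have h3 : V q 1 = 2 * π * I * (exp (s * om α) / α) :=
    circ (f := fun p => exp (s * p) / α) (by fun_prop) no.le
  have ne : ∀ y : ℝ, ((1:ℝ):ℂ) + y * I ≠ w0 := fun y h => by
    have := congrArg re h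
    simp only [hw0, add_re, mul_re, ofReal_re, ofReal_im, I_im, I_re] at this
    linarith
  have h4 : V (g α s) 1 = V H 1 + V q 1 := by
    have c1 : ContinuousOn (fun y : ℝ => H ((1:ℝ) + y * I)) (uIcc (-π) π) :=
      dH.continuousOn.comp (by fun_prop) fun y hy => by
        rw [uIcc_of_le (by linarith)] at hy
        simpa using abs_le.2 hy
    have c2 : ContinuousOn (fun y : ℝ => q ((1:ℝ) + y * I)) (uIcc (-π) π) := by
      simp only [hq]
      refine ContinuousOn.mul (ContinuousOn.mul (by fun_prop) (ContinuousOn.inv₀ (by fun_prop)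
        fun y hy => n2 _ ?_ (ne y))) (by fun_prop)
      rw [uIcc_of_le (by linarith)] at hy
      simpa using abs_le.2 hy
    rw [V, V, V, ← mul_add, ← intervalIntegral.integral_add c1.intervalIntegrable
      c2.intervalIntegrable]
    congr 1
    refine intervalIntegral.integral_congr fun y hy => ?_
    rw [uIcc_of_le (by linarith)] at hy
    rw [eH _ (by simpa using abs_le.2 hy) (ne y), sub_add_cancel]
  rw [Ha, h4, h2, h3, TH, ← add_assoc, add_comm (∫ u in Ioi (1:ℝ), _),
    intervalIntegral.integral_Iic_add_Ioi hi.integrableOn hi.integrableOn]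

end Pool.Agent.H91.Hk
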