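import Pool.Agent.H91.Hk2
import Pool.Agent.H51.LebN

set_option autoImplicit false
open MeasureTheory Filter Topology Metric Set Complex
open scoped Real

namespace Pool.Agent.H91.Hk

variable {α s : ℝ}

noncomputable def vv (α u : ℝ) : ℝ := Real.exp (α * u)

noncomputable def NN (α u : ℝ) : ℝ :=
  (vv α u ^ 2 - 1) ^ 2 + 4 * Real.cos (α * π) ^ 2 * vv α u ^ 2

noncomputable def rho (α s u : ℝ) : ℝ :=
  Real.exp (-(s * Real.exp u)) * (Real.sin (α * π) / π * (vv α u / NN α u))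

noncomputable def K (α s u : ℝ) : ℂ :=
  rho α s u * ((2 * Real.cos (α * π) * vv α u : ℝ) - (vv α u ^ 2 - 1 : ℝ) * I)

noncomputable def J (α s : ℝ) : ℂ := ∫ u, K α s u

theorem cos_le {θ : ℝ} (h0 : 2 / 3 * π ≤ θ) (h1 : θ ≤ π) : Real.cos θ ≤ -(1 / 2) := by
  have := Real.cos_le_cos_of_nonneg_of_le_pi (by positivity) h1 h0
  rwa [show 2 / 3 * π = π - π / 3 by ring, Real.cos_pi_sub, Real.cos_pi_div_three] at this

theorem cs (h0 : 2 / 3 ≤ α) (h1 : α ≤ 1) :
    Real.cos (α * π) ≤ -(1 / 2) ∧ 0 ≤ Real.sin (α * π) := by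
  have := Real.pi_pos
  exact ⟨cos_le (by nlinarith) (by nlinarith),
    Real.sin_nonneg_of_nonneg_of_le_pi (by nlinarith) (by nlinarith)⟩

theorem NN_ge (h0 : 2 / 3 ≤ α) (h1 : α ≤ 1) (u : ℝ) : ((vv α u ^ 2 + 1) / 2) ^ 2 ≤ NN α u := by
  have := (cs h0 h1).1
  have h2 : 1 / 4 ≤ Real.cos (α * π) ^ 2 := by nlinarith
  unfold NN
  nlinarith [mul_le_mul_of_nonneg_right h2 (sq_nonneg (vv α u)), sq_nonneg (vv α u ^ 2 - 1)]

theorem NN_pos (h0 : 2 / 3 ≤ α) (h1 : α ≤ 1) (u : ℝ) : 0 < NN α u :=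
  lt_of_lt_of_le (by positivity) (NN_ge h0 h1 u)

theorem T_g (h0 : 2 / 3 ≤ α) (h1 : α ≤ 1) (s u : ℝ) : T (g α s) u = 2 * π * I * K α s u := by
  have hc := (cs h0 h1).1
  have hN := NN_pos h0 h1 u
  have hv : 0 < vv α u := Real.exp_pos _
  have e1 : exp (α * (u + π * I)) = vv α u * (Real.cos (α * π) + Real.sin (α * π) * I) := by
    rw [mul_add, exp_add, ← mul_assoc, ← ofReal_mul, ← ofReal_mul, exp_ofReal_mul_I, vv,
      ofReal_exp]
  have e2 : exp (α * (u + (-π : ℝ) * I)) =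
      vv α u * (Real.cos (α * π) - Real.sin (α * π) * I) := by
    rw [mul_add, exp_add, ← mul_assoc, ← ofReal_mul, ← ofReal_mul, exp_ofReal_mul_I, vv,
      ofReal_exp, mul_neg, Real.cos_neg, Real.sin_neg, ofReal_neg, neg_mul, sub_eq_add_neg]
  have e3 : exp (s * -(exp u)) = Real.exp (-(s * Real.exp u)) := by
    push_cast
    rw [mul_neg]
  have e4 := Real.cos_sq_add_sin_sq (α * π)
  rw [T, g, g, e1, e2, exp_add, exp_add, exp_pi_mul_I, em, mul_neg_one, e3, K, rho]
  unfold NN at *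
  generalize vv α u = v at *
  generalize Real.cos (α * π) = C at *
  generalize Real.sin (α * π) = S at *
  have b1 : (v:ℂ) * (C + S * I) - I ≠ 0 := fun h => by
    have := congrArg re h
    simp at this
    rcases this with h | h <;> linarith
  have b2 : (v:ℂ) * (C - S * I) - I ≠ 0 := fun h => by
    have := congrArg re h
    simp at this
    rcases this with h | h <;> linarith
  have e5 : (C:ℂ) ^ 2 + S ^ 2 = 1 := by exact_mod_cast e4
  have b3 : ((v:ℂ) ^ 2 - 1) ^ 2 + 4 * C ^ 2 * v ^ 2 ≠ 0 := by exact_mod_cast hN.ne'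
  have b4 : (π:ℂ) ≠ 0 := ofReal_ne_zero.2 Real.pi_ne_zero
  have e6 : ((v:ℂ) * (C + S * I) - I) * (v * (C - S * I) - I) = v ^ 2 - 1 - 2 * C * v * I := by
    linear_combination (v:ℂ) ^ 2 * e5 + (1 - v ^ 2 * S ^ 2) * I_mul_I
  have e7 : (v:ℂ) * (C + S * I) * (v * (C + S * I) - I)⁻¹ -
      v * (C - S * I) * (v * (C - S * I) - I)⁻¹ = 2 * v * S / (v ^ 2 - 1 - 2 * C * v * I) := by
    rw [← e6]
    field_simp
    linear_combination (-2 * v * S) * I_mul_I
  have b5 : (v:ℂ) ^ 2 - 1 - 2 * C * v * I ≠ 0 := e6 ▸ mul_ne_zero b1 b2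
  have e8 : I * (2 * C * v - ((v:ℂ) ^ 2 - 1) * I) * (v ^ 2 - 1 - 2 * C * v * I)
      = ((v:ℂ) ^ 2 - 1) ^ 2 + 4 * C ^ 2 * v ^ 2 := by
    linear_combination (-(4 * C ^ 2 * v ^ 2) - ((v:ℂ) ^ 2 - 1) * (v ^ 2 - 1 - 2 * C * v * I)) * I_mul_I
  have b6 : 2 * C * v - ((v:ℂ) ^ 2 - 1) * I ≠ 0 := fun h => b3 (by rw [← e8, h]; ring)
  rw [← mul_sub, e7]
  push_cast
  rw [← e8]
  generalize 2 * C * v - ((v:ℂ) ^ 2 - 1) * I = P at *
  generalize (v:ℂ) ^ 2 - 1 - 2 * C * v * I = Q at *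
  field_simp

theorem K_le (h0 : 2 / 3 ≤ α) (h1 : α ≤ 1) (hs : 0 ≤ s) (u : ℝ) :
    ‖K α s u‖ ≤ 16 * Real.sin (α * π) / π * (1 + u ^ 2)⁻¹ := by
  have hS := (cs h0 h1).2
  have hN := NN_pos h0 h1 u
  have hv : 0 < vv α u := Real.exp_pos _
  have hp := Real.pi_pos
  have e1 : ‖((2 * Real.cos (α * π) * vv α u : ℝ) : ℂ) - (vv α u ^ 2 - 1 : ℝ) * I‖
      = √(NN α u) := by
    rw [sub_eq_add_neg, ← neg_mul, ← ofReal_neg, norm_add_mul_I, NN]
    congr 1
    ring
  have e2 : (vv α u ^ 2 + 1) / 2 ≤ √(NN α u) := Real.le_sqrt_of_sq_le (NN_ge h0 h1 u)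
  have e3 : vv α u * (1 + u ^ 2) ≤ 8 * (vv α u ^ 2 + 1) := by
    have a1 : u ^ 2 / 4 ≤ (α * u) ^ 2 := by
      rw [mul_pow]; nlinarith [mul_le_mul_of_nonneg_right (show 1 / 4 ≤ α ^ 2 by nlinarith) (sq_nonneg u)]
    rcases le_total 0 (α * u) with h | h
    · have := Real.quadratic_le_exp_of_nonneg h
      rw [← vv] at this
      nlinarith
    · have := Real.quadratic_le_exp_of_nonneg (neg_nonneg.2 h)
      rw [Real.exp_neg, ← vv, neg_sq] at this
      have a2 := mul_le_mul_of_nonneg_left this hv.le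
      rw [mul_inv_cancel₀ hv.ne'] at a2
      nlinarith
  have e4 : vv α u / NN α u * √(NN α u) ≤ 16 * (1 + u ^ 2)⁻¹ := by
    have a1 := Real.sqrt_pos.2 hN
    rw [show vv α u / NN α u * √(NN α u) = vv α u / √(NN α u) by
      nth_rewrite 1 [← Real.mul_self_sqrt hN.le]; field_simp, ← div_eq_mul_inv,
      div_le_div_iff₀ a1 (by positivity)]
    linarith
  have e5 : Real.exp (-(s * Real.exp u)) ≤ 1 :=
    Real.exp_le_one_iff.2 (neg_nonpos.2 (by positivity))
  rw [K, norm_mul, e1, norm_real, rho, Real.norm_of_nonneg (by positivity)]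
  calc _ ≤ 1 * (Real.sin (α * π) / π * (vv α u / NN α u)) * √(NN α u) := by gcongr
    _ = Real.sin (α * π) / π * (vv α u / NN α u * √(NN α u)) := by ring
    _ ≤ Real.sin (α * π) / π * (16 * (1 + u ^ 2)⁻¹) := by gcongr
    _ = _ := by ring

theorem K_cont {X : Type} [TopologicalSpace X] {a b c : X → ℝ} (ha : Continuous a)
    (hb : Continuous b) (hc : Continuous c) (h : ∀ x, 2 / 3 ≤ a x ∧ a x ≤ 1) :
    Continuous fun x => K (a x) (b x) (c x) := by
  have h1 : Continuous fun x => vv (a x) (c x) / NN (a x) (c x) :=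
    Continuous.div (by unfold vv; fun_prop) (by unfold NN vv; fun_prop) fun x =>
      (NN_pos (h x).1 (h x).2 _).ne'
  have h2 : Continuous fun x => vv (a x) (c x) := by unfold vv; fun_prop
  unfold K rho
  fun_prop

theorem K_int (h0 : 2 / 3 ≤ α) (h1 : α ≤ 1) (hs : 0 ≤ s) : Integrable (K α s) :=
  Integrable.mono' (integrable_inv_one_add_sq.const_mul _)
    (K_cont continuous_const continuous_const continuous_id fun _ => ⟨h0, h1⟩).aestronglyMeasurable
    (ae_of_all _ (K_le h0 h1 hs))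

theorem J_le (h0 : 2 / 3 ≤ α) (h1 : α ≤ 1) (hs : 0 ≤ s) : ‖J α s‖ ≤ 16 * Real.sin (α * π) := by
  refine (norm_integral_le_of_norm_le (integrable_inv_one_add_sq.const_mul _)
    (ae_of_all _ (K_le h0 h1 hs))).trans (le_of_eq ?_)
  rw [integral_const_mul, integral_univ_inv_one_add_sq, div_mul_cancel₀ _ Real.pi_ne_zero]

theorem J_cont {X : Type} [TopologicalSpace X] [FirstCountableTopology X] {a b : X → ℝ}
    (ha : Continuous a) (hb : Continuous b) (h : ∀ x, 2 / 3 ≤ a x ∧ a x ≤ 1) (h' : ∀ x, 0 ≤ b x) :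
    Continuous fun x => J (a x) (b x) := by
  refine continuous_of_dominated (bound := fun u => 16 / π * (1 + u ^ 2)⁻¹)
    (fun x => (K_int (h x).1 (h x).2 (h' x)).aestronglyMeasurable)
    (fun x => ae_of_all _ fun u => (K_le (h x).1 (h x).2 (h' x) u).trans ?_)
    (integrable_inv_one_add_sq.const_mul _)
    (ae_of_all _ fun u => K_cont ha hb continuous_const h)
  have := Real.sin_le_one (a x * π)
  have := Real.pi_pos
  gcongr
  linarith

theorem J_re (h0 : 2 / 3 ≤ α) (h1 : α < 1) :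
    ∃ C, 0 < C ∧ ∀ s, 0 ≤ s → Real.exp (-(s / 4)) * C ≤ -(J α s).re := by
  have hp := Real.pi_pos
  have hc := (cs h0 h1.le).1
  have hS : 0 < Real.sin (α * π) := Real.sin_pos_of_pos_of_lt_pi (by nlinarith) (by nlinarith)
  have e : ∀ s u, -(K α s u).re = Real.exp (-(s * Real.exp u)) * -(K α 0 u).re := fun s u => by
    simp only [K, rho, re_ofReal_mul, zero_mul, neg_zero, Real.exp_zero]
    ring
  have p0 : ∀ u, 0 < -(K α 0 u).re := fun u => by
    have hN := NN_pos h0 h1.le u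
    have hv : 0 < vv α u := Real.exp_pos _
    simp only [K, rho, re_ofReal_mul, sub_re, ofReal_re, I_re, mul_zero, sub_zero]
    rw [← mul_neg]
    exact mul_pos (by positivity) (by nlinarith)
  have i : ∀ s, 0 ≤ s → Integrable fun u => -(K α s u).re := fun s hs =>
    (K_int h0 h1.le hs).re.neg
  refine ⟨∫ u in Iic (-2:ℝ), -(K α 0 u).re, ?_, fun s hs => ?_⟩
  · rw [setIntegral_pos_iff_support_of_nonneg_ae (ae_of_all _ fun u => (p0 u).le)
      (i 0 le_rfl).integrableOn,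
      show Function.support (fun u => -(K α 0 u).re) = univ from
        eq_univ_of_forall fun u => (p0 u).ne', univ_inter]
    simp
  · have e2 : -(J α s).re = ∫ u, -(K α s u).re := by
      rw [integral_neg, J]
      exact congrArg Neg.neg (integral_re (K_int h0 h1.le hs)).symm
    rw [e2, ← integral_const_mul]
    refine le_trans (setIntegral_mono_on ((i 0 le_rfl).const_mul _).integrableOn
      (i s hs).integrableOn measurableSet_Iic fun u hu => ?_)
      (setIntegral_le_integral (i s hs) (ae_of_all _ fun u => ?_))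
    · rw [e s]
      refine mul_le_mul_of_nonneg_right (Real.exp_le_exp.2 ?_) (p0 u).le
      have a1 : Real.exp u ≤ Real.exp (-1) * Real.exp (-1) := by
        rw [← Real.exp_add, Real.exp_le_exp]
        have : u ≤ -2 := hu
        linarith
      have a2 := Real.exp_neg_one_lt_d9
      have a3 := Real.exp_pos (-1)
      have a4 : Real.exp u ≤ 1 / 4 := by nlinarith
      nlinarith
    · simp only [Pi.zero_apply]
      rw [e s]
      exact mul_nonneg (Real.exp_pos _).le (p0 u).le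

theorem rep (h0 : 2 / 3 ≤ α) (h1 : α ≤ 1) (hs : 0 < s) :
    HasSum (fun k : ℕ => (I * (s ^ α : ℝ)) ^ k / Gamma (α * k + 1))
      (J α s + exp (s * om α) / α) := by
  have h2 := series (show 0 < α by linarith) hs
  rw [residue h0 h1 hs (by rw [funext (T_g h0 h1 s)]; exact (K_int h0 h1 hs.le).const_mul _),
    funext (T_g h0 h1 s), integral_const_mul, ← mul_add,
    mul_div_cancel_left₀ _ two_pi_I_ne_zero] at h2
  exact h2

end Pool.Agent.H91.Hk
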