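import Pool.Agent.H91.Hk3

set_option autoImplicit false
open MeasureTheory Filter Topology Metric Set Complex
open scoped Real

namespace Pool.Agent.H91.Hk

theorem ang {α : ℝ} (h0 : 2 / 3 ≤ α) (h1 : α ≤ 1) : 1 / 2 ≤ Real.sin (π / (2 * α)) := by
  have hp := Real.pi_pos
  have t1 : π / (2 * α) ≤ 3 / 4 * π := by rw [div_le_iff₀ (by linarith)]; nlinarith
  have t2 : π / 2 ≤ π / (2 * α) := by rw [le_div_iff₀ (by linarith)]; nlinarith
  have := Real.cos_le_cos_of_nonneg_of_le_pi (x := π / (2 * α) - π / 2) (y := π / 3)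
    (by linarith) (by linarith) (by linarith)
  rwa [Real.cos_pi_div_three, Real.cos_sub_pi_div_two] at this

theorem main : ∃ α : ℝ, 3 / 5 < α ∧ α < 1 ∧ ∃ t : ℝ,
    HasSum (fun k : ℕ => (Complex.I * t) ^ k / Complex.Gamma (α * k + 1)) 0 := by
  have hp := Real.pi_gt_three
  have hp4 := Real.pi_lt_four
  obtain ⟨C, C0, hC⟩ := J_re (α := 2 / 3) le_rfl (by norm_num)
  obtain ⟨k, hk⟩ := exists_nat_ge (|Real.log (2 / 3 * C)| + 1)
  have k1 : (1:ℝ) ≤ k := by linarith [abs_nonneg (Real.log (2 / 3 * C))]
  set M : ℝ := 2 * π * k + π / 2 with hM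
  set ε : ℝ := min (1 / 3) (Real.exp (-(2 * M)) / 64) with hε
  have e0 : 0 < ε := lt_min (by norm_num) (by positivity)
  have e1 : ε ≤ 1 / 3 := min_le_left _ _
  have e2 : ε ≤ Real.exp (-(2 * M)) / 64 := min_le_right _ _
  set p : ℝ → ℝ := fun t => max 0 (min 1 t) with hp'
  have p0 : ∀ t, 0 ≤ p t ∧ p t ≤ 1 := fun t => ⟨le_max_left _ _, max_le zero_le_one (min_le_left _ _)⟩
  have pc : Continuous p := by rw [hp']; fun_prop
  set a : (Fin 2 → ℝ) → ℝ := fun x => 2 / 3 + p (x 0) * (1 / 3 - ε) with ha
  set σ : (Fin 2 → ℝ) → ℝ := fun x => 2 * π * k - π / 2 + π * p (x 1) with hσ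
  set b : (Fin 2 → ℝ) → ℝ := fun x => σ x / Real.sin (π / (2 * a x)) with hb
  have a0 : ∀ x, 2 / 3 ≤ a x ∧ a x < 1 := fun x => by
    obtain ⟨q0, q1⟩ := p0 (x 0)
    simp only [ha]
    constructor <;> nlinarith
  have a1 : ∀ x, 2 / 3 ≤ a x ∧ a x ≤ 1 := fun x => ⟨(a0 x).1, (a0 x).2.le⟩
  have s0 : ∀ x, 4 * k ≤ σ x ∧ σ x ≤ M := fun x => by
    obtain ⟨q0, q1⟩ := p0 (x 1)
    simp only [hσ, hM]
    constructor <;> nlinarith
  have sn : ∀ x, 1 / 2 ≤ Real.sin (π / (2 * a x)) := fun x => ang (a1 x).1 (a1 x).2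
  have b0 : ∀ x, σ x ≤ b x ∧ b x ≤ 2 * M := fun x => by
    have h1 := sn x
    have h2 := Real.sin_le_one (π / (2 * a x))
    obtain ⟨q0, q1⟩ := s0 x
    simp only [hb]
    rw [le_div_iff₀ (by linarith), div_le_iff₀ (by linarith)]
    constructor <;> nlinarith
  have b1 : ∀ x, 0 < b x := fun x => by linarith [(b0 x).1, (s0 x).1]
  have ac : Continuous a := by rw [ha]; fun_prop
  have sc : Continuous σ := by rw [hσ]; fun_prop
  have tc : Continuous fun x => π / (2 * a x) :=
    continuous_const.div (by fun_prop) fun x => by linarith [(a0 x).1]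
  have bc : Continuous b := sc.div (Real.continuous_sin.comp tc) fun x => by linarith [sn x]
  set Z : (Fin 2 → ℝ) → ℂ := fun x => -(a x : ℂ) * J (a x) (b x) with hZ
  have z0 : ∀ x, 0 < (Z x).re := fun x => by
    obtain ⟨D, D0, hD⟩ := J_re (a0 x).1 (a0 x).2
    have h1 := hD _ (b1 x).le
    have h2 := mul_pos (Real.exp_pos (-(b x / 4))) D0
    simp only [hZ, neg_mul, neg_re, re_ofReal_mul]
    nlinarith [(a0 x).1]
  have zc : Continuous fun x => log (Z x) := by
    have := J_cont ac bc a1 fun x => (b1 x).le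
    exact Continuous.clog (by rw [hZ]; fun_prop) fun x => Or.inl (z0 x)
  have za : ∀ x, |(log (Z x)).im| ≤ π / 2 := fun x => by
    rw [log_im, abs_arg_le_pi_div_two_iff]; exact (z0 x).le
  obtain ⟨x, -, hx⟩ := Pool.Agent.H51.LebN.miranda 2 1 one_pos
    (fun x => ![b x * Real.cos (π / (2 * a x)) - (log (Z x)).re,
      σ x - (log (Z x)).im - 2 * π * k])
    (continuous_pi fun i => by
      fin_cases i
      · exact (bc.mul (Real.continuous_cos.comp tc)).sub (continuous_re.comp zc)
      · exact (sc.sub (continuous_im.comp zc)).sub continuous_const)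
    (fun x i hi => by
      fin_cases i
      · have h1 : a x = 2 / 3 := by
          have : x 0 = 0 := hi
          simp [ha, this, hp']
        have h2 := hC _ (b1 x).le
        have h3 : 2 / 3 * (Real.exp (-(b x / 4)) * C) ≤ ‖Z x‖ := by
          refine le_trans ?_ (re_le_norm _)
          simp only [hZ, neg_mul, neg_re, re_ofReal_mul, h1]
          linarith
        have h4 := Real.log_le_log (by positivity) h3
        rw [mul_left_comm, Real.log_mul (Real.exp_pos _).ne' (by positivity), Real.log_exp] at h4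
        have h5 : Real.cos (π / (2 * a x)) ≤ -(1 / 2) := by
          rw [h1, show π / (2 * (2 / 3)) = 3 / 4 * π by ring]
          exact cos_le (by linarith) (by linarith)
        have h6 := neg_abs_le (Real.log (2 / 3 * C))
        have h7 := (b0 x).1
        have h8 := (s0 x).1
        have h9 := mul_le_mul_of_nonneg_left h5 (b1 x).le
        show b x * Real.cos (π / (2 * a x)) - (log (Z x)).re ≤ 0
        rw [log_re]
        linarith
      · have h1 : σ x = 2 * π * k - π / 2 := by
          have : x 1 = 0 := hi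
          simp [hσ, this, hp']
        show σ x - (log (Z x)).im - 2 * π * k ≤ 0
        linarith [(abs_le.1 (za x)).1])
    (fun x i hi => by
      fin_cases i
      · have h1 : a x = 1 - ε := by
          have : x 0 = 1 := hi
          simp only [ha, this, hp', min_self, max_eq_right zero_le_one]
          ring
        have h2 := J_le (a1 x).1 (a1 x).2 (b1 x).le
        have h3 : Real.sin (a x * π) ≤ 4 * ε := by
          rw [h1, show (1 - ε) * π = π - ε * π by ring, Real.sin_pi_sub]
          exact (Real.sin_le (by positivity)).trans (by nlinarith)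
        have h4 : ‖Z x‖ ≤ Real.exp (-(2 * M)) := by
          simp only [hZ]
          rw [norm_mul, norm_neg, norm_real, Real.norm_of_nonneg (by linarith [(a0 x).1])]
          nlinarith [norm_nonneg (J (a x) (b x)), a1 x]
        have h5 := Real.log_le_log ((z0 x).trans_le (re_le_norm _)) h4
        rw [Real.log_exp] at h5
        have h6 := mul_le_mul_of_nonneg_left (Real.neg_one_le_cos (π / (2 * a x))) (b1 x).le
        show 0 ≤ b x * Real.cos (π / (2 * a x)) - (log (Z x)).re
        rw [log_re]
        linarith [(b0 x).2]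
      · have h1 : σ x = 2 * π * k + π / 2 := by
          have : x 1 = 1 := hi
          simp only [hσ, this, hp', min_self, max_eq_right zero_le_one]
          ring
        show 0 ≤ σ x - (log (Z x)).im - 2 * π * k
        linarith [(abs_le.1 (za x)).2])
  have h1 : b x * Real.cos (π / (2 * a x)) - (log (Z x)).re = 0 := congrFun hx 0
  have h2 : σ x - (log (Z x)).im - 2 * π * k = 0 := congrFun hx 1
  have h3 : b x * Real.sin (π / (2 * a x)) = σ x := div_mul_cancel₀ _ (by linarith [sn x])
  have h4 : (b x : ℂ) * om (a x) = log (Z x) + (k:ℕ) * (2 * π * I) := by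
    rw [om, exp_ofReal_mul_I]
    apply Complex.ext
    · simp only [re_ofReal_mul, add_re, ofReal_re, mul_re, I_re, I_im, ofReal_im, natCast_re,
        natCast_im, re_ofNat, im_ofNat, mul_im]
      linarith
    · simp only [im_ofReal_mul, add_im, ofReal_re, mul_re, I_re, I_im, ofReal_im, natCast_re,
        natCast_im, re_ofNat, im_ofNat, mul_im]
      linarith
  have h5 := rep (a1 x).1 (a1 x).2 (b1 x)
  have h6 : (a x : ℂ) ≠ 0 := ofReal_ne_zero.2 (by linarith [(a0 x).1])
  rw [h4, exp_add, exp_nat_mul_two_pi_mul_I, mul_one,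
    exp_log (fun h => by simpa [h] using z0 x)] at h5
  refine ⟨a x, by linarith [(a0 x).1], (a0 x).2, b x ^ a x, ?_⟩
  convert h5 using 1
  simp only [hZ]
  field_simp
  ring

end Pool.Agent.H91.Hk
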