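import Mathlib

set_option autoImplicit false

namespace H91.HyperCount
open Filter Topology Set Polynomial

instance : Countable ℚ[X] := by
  rw [← Cardinal.mk_le_aleph0_iff]
  exact Polynomial.cardinalMk_le_max.trans (by simp)

noncomputable def en : ℕ → ℚ[X] := (exists_surjective_nat ℚ[X]).choose
lemma en_surj : Function.Surjective en := (exists_surjective_nat ℚ[X]).choose_spec

noncomputable def Y (c : ℕ) : ℝ[X] := (en (Nat.unpair c).1).map (algebraMap ℚ ℝ)
noncomputable def y (b : ℕ) : ℝ[X] :=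
  if (Y (Nat.unpair b).1).natDegree < b * b then Y (Nat.unpair b).1 else 0
noncomputable def e (n : ℕ) : ℝ[X] := X ^ n - X ^ (n - n.sqrt * n.sqrt) * y n.sqrt

lemma e_deg (n : ℕ) : (e n).degree = n := by
  unfold e
  rw [degree_sub_eq_left_of_degree_lt, degree_X_pow]
  rw [degree_X_pow, y]
  split_ifs with h
  · refine degree_le_natDegree.trans_lt ?_
    have h1 := natDegree_mul_le (p := (X : ℝ[X]) ^ (n - n.sqrt * n.sqrt))
      (q := Y (Nat.unpair n.sqrt).1)
    rw [natDegree_X_pow] at h1
    have h2 := Nat.sqrt_le n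
    exact_mod_cast (by omega)
  · simp

noncomputable def B : Module.Basis ℕ ℝ ℝ[X] :=
  (Polynomial.Sequence.mk e e_deg).basis fun i =>
    isUnit_iff_ne_zero.2 (leadingCoeff_ne_zero.2 ((Polynomial.Sequence.mk e e_deg).ne_zero i))
lemma B_apply (n : ℕ) : B n = e n := Polynomial.Sequence.basis_eq_self _ _ n

lemma e_blk (b k : ℕ) (h : k ≤ b + b) : e (b * b + k) = X ^ (b * b + k) - X ^ k * y b := by
  rw [e, Nat.sqrt_add_eq b h, Nat.add_sub_cancel_left]

def W : Set (ℕ → ℝ) := {w | (∀ n, 0 ≤ w n) ∧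
  ∀ k, ∀ᶠ c in atTop, Tendsto (fun j => w (Nat.pair c j * Nat.pair c j + k)) atTop (𝓝 0)}

lemma sm (w : ℕ → ℝ) (x : ℝ[X]) : HasSum (fun n => w n * |B.repr x n|)
    (∑ n ∈ (B.repr x).support, w n * |B.repr x n|) :=
  hasSum_sum_of_ne_finset_zero fun n hn => by rw [Finsupp.notMem_support_iff.1 hn]; simp

noncomputable def p (w : W) : Seminorm ℝ ℝ[X] :=
  Seminorm.of (fun x => ∑' n, w.1 n * |B.repr x n|)
    (fun u v => by
      rw [← (sm _ u).summable.tsum_add (sm _ v).summable]
      refine (sm _ _).summable.tsum_le_tsum (fun n => ?_) ((sm _ u).summable.add (sm _ v).summable)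
      rw [← mul_add, map_add]
      exact mul_le_mul_of_nonneg_left (abs_add_le _ _) (w.2.1 n))
    (fun a x => by
      rw [← tsum_mul_left]
      congr 1; funext n
      rw [map_smul, Finsupp.smul_apply, smul_eq_mul, abs_mul, Real.norm_eq_abs]; ring)

lemma p_eq (w : W) (x : ℝ[X]) : p w x = ∑ n ∈ (B.repr x).support, w.1 n * |B.repr x n| :=
  (sm _ x).tsum_eq
lemma sum_le (w : W) (x : ℝ[X]) (s : Finset ℕ) : ∑ n ∈ s, w.1 n * |B.repr x n| ≤ p w x :=
  (sm _ x).summable.sum_le_tsum s fun n _ => mul_nonneg (w.2.1 n) (abs_nonneg _)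
lemma one_le (w : W) (x : ℝ[X]) (n : ℕ) : w.1 n * |B.repr x n| ≤ p w x := by
  simpa using sum_le w x {n}
lemma p_B (w : W) (n : ℕ) : p w (B n) = w.1 n := by
  rw [p_eq, B.repr_self, Finsupp.support_single _ one_ne_zero]; simp

lemma q_le (q : Seminorm ℝ ℝ[X]) (x : ℝ[X]) :
    q x ≤ ∑ n ∈ (B.repr x).support, q (B n) * |B.repr x n| := by
  conv_lhs => rw [← B.linearCombination_repr x, Finsupp.linearCombination_apply, Finsupp.sum]
  refine (Finset.le_sum_of_subadditive q (map_zero q).le (map_add_le_add q) _ _).trans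
    (le_of_eq (Finset.sum_congr rfl fun n _ => ?_))
  rw [map_smul_eq_mul, Real.norm_eq_abs, mul_comm]

lemma big (c k : ℕ) : ∀ᶠ j in atTop, k ≤ Nat.pair c j :=
  (eventually_ge_atTop k).mono fun j hj => hj.trans (Nat.right_le_pair c j)

def dl (n : ℕ) : W := ⟨fun m => if m = n then 1 else 0, fun m => by dsimp only; split_ifs <;> norm_num,
  fun k => Eventually.of_forall fun c => tendsto_const_nhds.congr' ((big c (n + 1)).mono
    fun j hj => (if_neg (by nlinarith)).symm)⟩

noncomputable def sh (w : W) : W := ⟨fun n => p w (X * B n), fun _ => apply_nonneg _ _, fun k =>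
  (w.2.2 (k + 1)).mono fun c hc => hc.congr' ((big c (k + 1)).mono fun j hj => by
    have : X * B (Nat.pair c j * Nat.pair c j + k) = B (Nat.pair c j * Nat.pair c j + (k + 1)) := by
      rw [B_apply, B_apply, e_blk _ _ (by omega), e_blk _ _ (by omega)]; ring
    simp only [this, p_B])⟩

lemma sparse {S : Set ℕ} (hS : S.Infinite) : ∃ S' ⊆ S, S'.Infinite ∧
    ∀ᶠ c in atTop, ∀ᶠ j in atTop, ∀ n ∈ S', n.sqrt ≠ Nat.pair c j := by
  by_cases h : ∃ c, {n ∈ S | (Nat.unpair n.sqrt).1 = c}.Infinite
  · obtain ⟨c0, h⟩ := h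
    refine ⟨_, sep_subset _ _, h, (eventually_gt_atTop c0).mono fun c hc =>
      Eventually.of_forall fun j n hn h2 => ?_⟩
    have := hn.2
    rw [h2, Nat.unpair_pair] at this
    omega
  · push Not at h
    refine ⟨S, Subset.rfl, hS, Eventually.of_forall fun c => ?_⟩
    obtain ⟨N, hN⟩ := (h c).bddAbove
    refine (big c (N + 1)).mono fun j hj n hn h2 => ?_
    have h3 : n ≤ N := hN ⟨hn, by rw [h2, Nat.unpair_pair]⟩
    have := Nat.sqrt_le_self n
    omega

theorem main : ∃ (E : Type) (_ : AddCommGroup E) (_ : Module ℝ E) (_ : UniformSpace E),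
    IsUniformAddGroup E ∧ ContinuousSMul ℝ E ∧ LocallyConvexSpace ℝ E ∧ T2Space E ∧
    CompleteSpace E ∧ Module.rank ℝ E = Cardinal.aleph0 ∧
    ∃ (T : E →L[ℝ] E) (x : E), DenseRange fun n : ℕ => (T ^ n) x := by
  let : TopologicalSpace ℝ[X] := (SeminormFamily.moduleFilterBasis p).topology
  have hp : WithSeminorms p := ⟨rfl⟩
  have := hp.topologicalAddGroup
  have := hp.continuousSMul
  let : UniformSpace ℝ[X] := IsTopologicalAddGroup.rightUniformSpace ℝ[X]
  have : IsUniformAddGroup ℝ[X] := isUniformAddGroup_of_addCommGroup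
  have : T1Space ℝ[X] := hp.T1_of_separating fun x hx => by
    obtain ⟨n, hn⟩ := Finsupp.ne_iff.1 (B.repr.map_ne_zero_iff.2 hx)
    have := one_le (dl n) x n
    simp only [dl, if_true, one_mul] at this
    exact ⟨dl n, ((abs_pos.2 hn).trans_le this).ne'⟩
  refine ⟨ℝ[X], inferInstance, inferInstance, inferInstance, inferInstance, inferInstance,
    hp.toLocallyConvexSpace, inferInstance, ⟨fun {f} hf => ?_⟩, by rw [← B.mk_eq_rank'']; simp, ?_⟩
  · have hne := hf.1
    have hc : ∀ (w : W) (ε : ℝ), 0 < ε → ∃ A ∈ f, ∀ u ∈ A, ∀ v ∈ A, p w (u - v) < ε := by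
      intro w ε hε
      have := (hp.tendsto_nhds _ _).1 ((IsUniformAddGroup.cauchy_iff_tendsto f).1 hf).2 w ε hε
      simp only [sub_zero] at this
      exact (eventually_prod_self_iff (r := fun u v => p w (u - v) < ε)).1 this
    have hco : ∀ n, ∃ a, Tendsto (fun u => B.repr u n) f (𝓝 a) := by
      intro n
      have h1 : Continuous (B.coord n) := hp.continuous_normedSpace_rng ℝ _ ⟨{dl n}, 1, fun x => by
        simpa [dl] using one_le (dl n) x n⟩
      exact CompleteSpace.complete (hf.map (⟨B.coord n, h1⟩ : ℝ[X] →L[ℝ] ℝ).uniformContinuous)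
    choose a ha using hco
    have hfin : (Function.support a).Finite := by
      by_contra hinf
      obtain ⟨S, hS1, hS2, hS3⟩ := sparse hinf
      classical
      let w : W := ⟨fun n => if n ∈ S then |a n|⁻¹ else 0, fun n => by
        dsimp only; split_ifs <;> positivity,
        fun k => hS3.mono fun c hc => tendsto_const_nhds.congr' ((hc.and (big c k)).mono
          fun j hj => (if_neg fun h => hj.1 _ h (Nat.sqrt_add_eq _ (by omega))).symm)⟩
      obtain ⟨A, hA, h⟩ := hc w (1 / 2) (by norm_num)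
      obtain ⟨u, hu⟩ := hne.nonempty_of_mem hA
      obtain ⟨n, hn1, hn2⟩ := hS2.exists_notMem_finset (B.repr u).support
      have h1 : |a n|⁻¹ * |a n| ≤ 1 / 2 := by
        refine le_of_tendsto ((ha n).abs.const_mul _) (mem_of_superset hA fun v hv => ?_)
        have := (one_le w (u - v) n).trans (h u hu v hv).le
        simpa [w, hn1, Finsupp.notMem_support_iff.1 hn2] using this
      rw [inv_mul_cancel₀ (abs_ne_zero.2 (hS1 hn1))] at h1
      linarith
    refine ⟨B.repr.symm (Finsupp.ofSupportFinite a hfin), (hp.tendsto_nhds id _).2 fun w ε hε => ?_⟩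
    obtain ⟨A, hA, h⟩ := hc w (ε / 2) (half_pos hε)
    refine mem_of_superset hA fun u hu => lt_of_le_of_lt ?_ (half_lt_self hε)
    show p w (u - _) ≤ _
    rw [p_eq]
    generalize (B.repr (u - B.repr.symm (Finsupp.ofSupportFinite a hfin))).support = s
    simp only [map_sub, LinearEquiv.apply_symm_apply, Finsupp.sub_apply, Finsupp.ofSupportFinite_coe]
    refine le_of_tendsto (tendsto_finsetSum s fun n _ =>
      (((ha n).const_sub (B.repr u n)).abs.const_mul (w.1 n))) (mem_of_superset hA fun v hv => ?_)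
    simpa using (sum_le w (u - v) s).trans (h u hu v hv).le
  · have hT : Continuous (LinearMap.mulLeft ℝ (X : ℝ[X])) :=
      hp.continuous_of_isBounded hp _ fun w => ⟨{sh w}, 1, fun x => by
        rw [one_smul, Finset.sup_singleton, p_eq (sh w)]
        exact q_le ((p w).comp (LinearMap.mulLeft ℝ X)) x⟩
    let T : ℝ[X] →L[ℝ] ℝ[X] := ⟨_, hT⟩
    have hTn : (fun n : ℕ => (T ^ n) 1) = fun n => X ^ n := by
      funext n
      induction n with
      | zero => simp
      | succ n ih => rw [pow_succ', mul_apply_eq_comp, ih, pow_succ']; rfl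
    refine ⟨T, 1, ?_⟩
    rw [hTn]
    have h1 : ∀ q : ℚ[X], q.map (algebraMap ℚ ℝ) ∈ closure (range fun n : ℕ => (X : ℝ[X]) ^ n) := by
      intro q
      obtain ⟨m, rfl⟩ := en_surj q
      rw [mem_closure_iff_nhds_basis hp.hasBasis_ball]
      rintro ⟨s, r⟩ hr
      have ht : Tendsto (Nat.pair m) atTop atTop :=
        tendsto_atTop_mono (Nat.right_le_pair m) tendsto_id
      obtain ⟨t, h2⟩ := (ht.eventually ((eventually_all_finset s).2 fun w _ => w.2.2 0)).exists
      obtain ⟨j, h3, h4⟩ := (((eventually_all_finset s).2 fun w hw =>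
        (h2 w hw).eventually (gt_mem_nhds hr)).and
        (big (Nat.pair m t) ((Y (Nat.pair m t)).natDegree + 1))).exists
      set b := Nat.pair (Nat.pair m t) j with hb
      refine ⟨_, ⟨b * b + 0, rfl⟩, ?_⟩
      have h5 : y b = (en m).map (algebraMap ℚ ℝ) := by
        rw [y, hb, Nat.unpair_pair, if_pos (by nlinarith), Y, Nat.unpair_pair]
      rw [Seminorm.mem_ball, ← h5]
      refine Seminorm.finset_sup_apply_lt hr fun w hw => ?_
      have h6 := e_blk b 0 (by omega)
      rw [pow_zero, one_mul, ← B_apply] at h6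
      rw [← h6, p_B]; exact h3 w hw
    have h2 : ∀ x : ℝ[X], x ∈ closure (range fun q : ℚ[X] => q.map (algebraMap ℚ ℝ)) := by
      intro x
      induction x using Polynomial.induction_on' with
      | add u v hu hv =>
        refine map_mem_closure₂ continuous_add hu hv ?_
        rintro _ ⟨a, rfl⟩ _ ⟨b, rfl⟩
        exact ⟨a + b, by simp⟩
      | monomial n a =>
        rw [← smul_X_eq_monomial]
        refine map_mem_closure (f := fun a : ℝ => a • (X : ℝ[X]) ^ n) (by fun_prop)
          (Rat.denseRange_cast a) ?_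
        rintro _ ⟨q, rfl⟩
        exact ⟨monomial n q, by simp [smul_X_eq_monomial]⟩
    intro x
    exact closure_minimal (by rintro _ ⟨q, rfl⟩; exact h1 q) isClosed_closure (h2 x)

end H91.HyperCount
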