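import Mathlib
import Pool.Agent.H91.PolyIndex
import Pool.Agent.H91.Renorm

set_option autoImplicit false

namespace Pool.Agent.H91.IdxRange

open Filter Topology Set Metric Pool.Agent.H91.PolyIndex Pool.Agent.H91.Renorm

variable {X : Type} [NormedAddCommGroup X] [NormedSpace ℂ X] {k : ℕ}

/-- norm of the homogeneous polynomial `x ↦ A (x, …, x)` -/
noncomputable def pn (A : ContinuousMultilinearMap ℂ (fun _ : Fin k => X) X) : ℝ :=
  ⨆ x : {x : X // ‖x‖ = 1}, ‖A (fun _ => x.1)‖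

/-- the polynomial numerical index of order `k` -/
noncomputable def idx (X : Type) [NormedAddCommGroup X] [NormedSpace ℂ X] (k : ℕ) : ℝ :=
  sInf {r : ℝ | ∃ A : ContinuousMultilinearMap ℂ (fun _ : Fin k => X) X, pn A = 1 ∧ v A = r}

variable (A : ContinuousMultilinearMap ℂ (fun _ : Fin k => X) X)

theorem le_pn (x : X) (hx : ‖x‖ = 1) : ‖A (fun _ => x)‖ ≤ pn A := by
  refine le_ciSup (f := fun x : {x : X // ‖x‖ = 1} => ‖A (fun _ => x.1)‖) ⟨‖A‖, ?_⟩ ⟨x, hx⟩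
  rintro _ ⟨y, rfl⟩
  have h2 := A.le_opNorm (fun _ => y.1)
  simpa only [y.2, Finset.prod_const_one, mul_one] using h2

theorem pn_le {C : ℝ} (hC : 0 ≤ C) (h : ∀ x : X, ‖x‖ = 1 → ‖A (fun _ => x)‖ ≤ C) : pn A ≤ C :=
  Real.iSup_le (fun x => h x.1 x.2) hC

theorem pn_nonneg : 0 ≤ pn A := Real.iSup_nonneg fun _ => norm_nonneg _

theorem unit_dec (y : X) (hy : y ≠ 0) : ∃ z : X, ‖z‖ = 1 ∧ y = (‖y‖ : ℂ) • z := by
  have hw' : ‖y‖ ≠ 0 := norm_ne_zero_iff.mpr hy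
  refine ⟨(‖y‖ : ℂ)⁻¹ • y, ?_, ?_⟩
  · rw [norm_smul, norm_inv, Complex.norm_real, norm_norm, inv_mul_cancel₀ hw']
  · rw [smul_smul, mul_inv_cancel₀ (by exact_mod_cast hw'), one_smul]

theorem zero_diag (hk : 1 ≤ k) : A (fun _ => 0) = 0 := A.map_coord_zero ⟨0, hk⟩ rfl

theorem hom_le (hk : 1 ≤ k) (y : X) : ‖A (fun _ => y)‖ ≤ pn A * ‖y‖ ^ k := by
  by_cases h0 : y = 0
  · rw [h0, zero_diag A hk, norm_zero]
    exact mul_nonneg (pn_nonneg A) (by positivity)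
  obtain ⟨z, hz, hy⟩ := unit_dec y h0
  conv_lhs => rw [hy, smul_diag, norm_smul, norm_pow, Complex.norm_real, norm_norm]
  rw [mul_comm]
  exact mul_le_mul_of_nonneg_right (le_pn A z hz) (by positivity)

theorem le_v' (x : X) (f : X →L[ℂ] ℂ) (hx : ‖x‖ = 1) (hf : ‖f‖ ≤ 1) (hfx : f x = 1) :
    ‖f (A (fun _ => x))‖ ≤ v A :=
  le_v A x f hx (le_antisymm hf (by simpa [hfx, hx] using f.le_opNorm x)) hfx

theorem v_le_pn : v A ≤ pn A := v_le A (pn_nonneg A) fun x f hx hf _ => by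
  simpa [hf] using (f.le_opNorm _).trans (mul_le_mul_of_nonneg_left (le_pn A x hx) (norm_nonneg _))

theorem diff_diag : Differentiable ℂ fun x : X => A (fun _ => x) :=
  (A.contDiff (n := 1)).differentiable (by norm_num) |>.comp (differentiable_pi.2 fun _ => differentiable_id)

theorem lip (hk : 1 ≤ k) (x y : X) (R : ℝ) (hx : ‖x‖ ≤ R) (hy : ‖y - x‖ < 1) :
    ‖A (fun _ => y) - A (fun _ => x)‖ ≤ 2 * (pn A * (R + 1) ^ k) * ‖y - x‖ := by
  have hb : ∀ z, ‖z‖ ≤ R + 1 → ‖A (fun _ => z)‖ ≤ pn A * (R + 1) ^ k := fun z hz =>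
    (hom_le A hk z).trans (mul_le_mul_of_nonneg_left (pow_le_pow_left₀ (norm_nonneg _) hz k)
      (pn_nonneg A))
  have := Complex.dist_le_div_mul_dist_of_mapsTo_ball (c := x) (R₁ := 1)
    (R₂ := 2 * (pn A * (R + 1) ^ k)) (diff_diag A).differentiableOn (fun z hz => by
      rw [mem_closedBall, dist_eq_norm]
      rw [mem_ball, dist_eq_norm] at hz
      have h1 := hb z (by linarith [norm_sub_norm_le z x])
      have h2 := hb x (by linarith)
      linarith [norm_sub_le (A fun _ => z) (A fun _ => x)]) (z := y)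
    (by rwa [mem_ball, dist_eq_norm])
  simpa [dist_eq_norm] using this

theorem step (x : X) (c : ℂ) (y : X) (hy : y = x + c • A (fun _ => x)) :
    ‖y‖ ≤ ‖x‖ + ‖c‖ * (v A * ‖y‖ ^ k + ‖A (fun _ => y) - A (fun _ => x)‖) := by
  by_cases h0 : y = 0
  · rw [h0, norm_zero]
    have := v_nonneg A
    positivity
  obtain ⟨z, hz, hyz⟩ := unit_dec y h0
  obtain ⟨g, hg, hgz⟩ := exists_dual_vector ℂ z (by rw [hz]; norm_num)
  rw [hz] at hgz
  have h1 : ‖g (A fun _ => y)‖ ≤ v A * ‖y‖ ^ k := by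
    conv_lhs => rw [hyz, smul_diag, map_smul, norm_smul, norm_pow, Complex.norm_real, norm_norm]
    rw [mul_comm]
    exact mul_le_mul_of_nonneg_right (le_v A z g hz hg (by simpa using hgz)) (by positivity)
  have h2 : ‖g y‖ = ‖y‖ := by
    conv_lhs => rw [hyz, map_smul, hgz]
    simp
  have h3 : g y = g x + c * (g (A fun _ => y) - g ((A fun _ => y) - A fun _ => x)) := by
    conv_lhs => rw [hy]
    simp
  have h4 : ∀ u, ‖g u‖ ≤ ‖u‖ := fun u => by simpa [hg] using g.le_opNorm u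
  rw [← h2, h3]
  refine (norm_add_le _ _).trans (add_le_add (h4 x) ?_)
  rw [norm_mul, ← h3, h2]
  exact mul_le_mul_of_nonneg_left ((norm_sub_le _ _).trans (add_le_add h1 (h4 _))) (norm_nonneg _)

noncomputable def rr (a : ℝ) (k : ℕ) : ℕ → ℝ
  | 0 => 1
  | j + 1 => rr a k j + a * rr a k j ^ k

theorem rr_bd (a : ℝ) (a0 : 0 ≤ a) (m j : ℕ) :
    1 ≤ rr a (m + 1) j ∧ 1 - j * m * a ≤ (rr a (m + 1) j ^ m)⁻¹ := by
  induction j with
  | zero => simp [rr]
  | succ j ih =>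
    obtain ⟨h1, h2⟩ := ih
    set r := rr a (m + 1) j
    have r0 : 0 < r := by linarith
    have p0 : 0 < r ^ m := by positivity
    have b0 : 0 ≤ a * r ^ m := by positivity
    refine ⟨by simp only [rr]; nlinarith [pow_pos r0 (m + 1)], ?_⟩
    have e : rr a (m + 1) (j + 1) = r * (1 + a * r ^ m) := by simp only [rr]; ring
    have h3 := one_add_mul_le_pow (a := -(a * r ^ m)) (n := m)
    by_cases h5 : a * r ^ m ≤ 1
    · have h4 : (1 - a * r ^ m) ^ m ≤ ((1 + a * r ^ m) ^ m)⁻¹ := by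
        rw [← inv_pow]
        refine pow_le_pow_left₀ (by linarith) ?_ m
        rw [← one_div, le_div_iff₀ (by linarith)]
        nlinarith
      have h6 := (h3 (by linarith)).trans h4
      rw [e, mul_pow, mul_inv]
      refine le_trans ?_ (mul_le_mul_of_nonneg_left h6 (by positivity))
      have : (r ^ m)⁻¹ * (1 + m * -(a * r ^ m)) = (r ^ m)⁻¹ - m * a := by field_simp; ring
      rw [this]
      push_cast
      linarith
    · rcases Nat.eq_zero_or_pos m with rfl | hm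
      · simp
      refine le_trans ?_ (by rw [e]; positivity : 0 ≤ (rr a (m + 1) (j + 1) ^ m)⁻¹)
      have h7 : (r ^ m)⁻¹ ≤ a := by
        rw [inv_le_iff_one_le_mul₀ p0]; linarith
      have h8 : a ≤ m * a := le_mul_of_one_le_left a0 (by exact_mod_cast hm)
      push_cast
      linarith

theorem harris (m : ℕ) (hm : 1 ≤ m) (A : ContinuousMultilinearMap ℂ (fun _ : Fin (m + 1) => X) X)
    (σ : ℝ) (σ0 : 0 < σ) (hσ : σ ^ m = m + 1) : pn A ≤ σ * (m + 1) * v A := by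
  have v0 := v_nonneg A
  have M0 := pn_nonneg A
  refine pn_le A (by positivity) fun x0 hx0 => ?_
  suffices H : ∀ w, v A < w → ‖A fun _ => x0‖ ≤ σ * (m + 1) * w by
    refine le_of_forall_pos_le_add fun e he => ?_
    have := H (v A + e / (σ * (m + 1))) (lt_add_of_pos_right _ (by positivity))
    rwa [mul_add, mul_div_cancel₀ _ (by positivity)] at this
  intro w hw
  have w0 : 0 < w := by linarith
  set t : ℝ := 1 / ((m + 1) * w) with ht
  have t0 : 0 < t := by positivity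
  set D := pn A * σ ^ (m + 1) with hD
  set C := v A * (D * (m + 1 : ℕ) * (σ + 1) ^ m) + 2 * (pn A * (σ + 1) ^ (m + 1)) * D with hC
  have D0 : 0 ≤ D := by positivity
  have C0 : 0 ≤ C := by positivity
  obtain ⟨n, hn⟩ := exists_nat_gt (t * D + t * C / (w - v A))
  have q0 : 0 ≤ t * C / (w - v A) := div_nonneg (by positivity) (by linarith)
  have n0 : (0 : ℝ) < n := lt_of_le_of_lt (by positivity) hn
  set h := t / n with hh
  have h0 : 0 < h := by positivity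
  have h1 : h * D < 1 := by
    rw [hh, div_mul_eq_mul_div, div_lt_one n0]; linarith
  have h2 : h * C ≤ w - v A := by
    rw [hh, div_mul_eq_mul_div, div_le_iff₀ n0, mul_comm (w - v A), ← div_le_iff₀ (by linarith)]
    linarith [mul_nonneg t0.le D0]
  have rσ : ∀ j ≤ n, rr (h * w) (m + 1) j ≤ σ := by
    intro j hj
    obtain ⟨a1, a2⟩ := rr_bd (h * w) (by positivity) m j
    refine le_of_pow_le_pow_left₀ (n := m) (by omega) σ0.le ?_
    rw [hσ, ← inv_le_inv₀ (by positivity) (by positivity)]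
    refine le_trans ?_ a2
    have a3 : (j : ℝ) * m * (h * w) ≤ n * m * (h * w) := by gcongr
    have a4 : (n : ℝ) * m * (h * w) = 1 - ((m : ℝ) + 1)⁻¹ := by rw [hh, ht]; field_simp; ring
    linarith
  let E : ℕ → ℂ → X := fun j => Nat.rec (fun _ => x0)
    (fun _ e ζ => e ζ + (ζ / n) • A (fun _ => e ζ)) j
  have hE : ∀ j ζ, E (j + 1) ζ = E j ζ + (ζ / n) • A (fun _ => E j ζ) := fun _ _ => rfl
  have Ed : ∀ j, Differentiable ℂ (E j) := by
    intro j
    induction j with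
    | zero => exact differentiable_const _
    | succ j ih => exact ih.add ((differentiable_id.div_const _).smul ((diff_diag A).comp ih))
  have E0 : ∀ j, E j 0 = x0 := by
    intro j
    induction j with
    | zero => rfl
    | succ j ih => rw [hE, ih]; simp
  have E' : ∀ j : ℕ, HasDerivAt (E j) (((j : ℂ) / n) • A (fun _ => x0)) 0 := by
    intro j
    induction j with
    | zero =>
      rw [Nat.cast_zero, zero_div, zero_smul]
      exact hasDerivAt_const (0 : ℂ) x0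
    | succ j ih =>
      have := ih.add (((hasDerivAt_id (0 : ℂ)).div_const (n : ℂ)).smul
        (((diff_diag A).comp (Ed j)) 0).hasDerivAt)
      refine this.congr_deriv ?_
      simp [E0, add_div, add_smul]
  have Eb : ∀ ζ : ℂ, ‖ζ‖ = t → ∀ j ≤ n, ‖E j ζ‖ ≤ rr (h * w) (m + 1) j := by
    intro ζ hζ j
    induction j with
    | zero => intro _; exact hx0.le
    | succ j ih =>
      intro hj
      have a1 := ih (by omega)
      have a2 := rσ j (by omega)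
      have a3 := (rr_bd (h * w) (by positivity) m j).1
      set r := rr (h * w) (m + 1) j
      have c1 : ‖ζ / n‖ = h := by rw [norm_div, hζ, Complex.norm_natCast]
      have b1 := step A _ _ _ (hE j ζ)
      have b2 : ‖E (j + 1) ζ - E j ζ‖ ≤ h * D := by
        rw [hE, add_sub_cancel_left, norm_smul, c1]
        refine mul_le_mul_of_nonneg_left ((hom_le A (by omega) _).trans ?_) h0.le
        exact mul_le_mul_of_nonneg_left (pow_le_pow_left₀ (norm_nonneg _) (a1.trans a2) _) M0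
      have b3 := (lip A (by omega) _ _ σ (a1.trans a2) (b2.trans_lt h1)).trans
        (mul_le_mul_of_nonneg_left b2 (by positivity))
      have b4 : ‖E (j + 1) ζ‖ ≤ r + h * D := by linarith [norm_sub_norm_le (E (j + 1) ζ) (E j ζ)]
      have b5 := pow_le_pow_left₀ (norm_nonneg _) b4 (m + 1)
      have b6 := (le_abs_self _).trans (abs_pow_sub_pow_le (a := r + h * D) (b := r) (n := m + 1))
      have hD0 := mul_nonneg h0.le D0
      rw [add_sub_cancel_left, abs_of_nonneg hD0, abs_of_nonneg (by linarith),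
        abs_of_nonneg (by linarith), max_eq_left (by linarith), Nat.add_sub_cancel] at b6
      have b7 : h * D * (m + 1 : ℕ) * (r + h * D) ^ m ≤ h * D * (m + 1 : ℕ) * (σ + 1) ^ m := by
        gcongr
      have b8 : 1 ≤ r ^ (m + 1) := one_le_pow₀ a3
      rw [c1] at b1
      have b9 : v A * ‖E (j + 1) ζ‖ ^ (m + 1) ≤
          v A * (r ^ (m + 1) + h * D * (m + 1 : ℕ) * (σ + 1) ^ m) :=
        mul_le_mul_of_nonneg_left (by linarith) v0
      have b10 : w - v A ≤ (w - v A) * r ^ (m + 1) := le_mul_of_one_le_right (by linarith) b8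
      have b11 : v A * ‖E (j + 1) ζ‖ ^ (m + 1) +
          ‖(A fun _ => E (j + 1) ζ) - A fun _ => E j ζ‖ ≤ w * r ^ (m + 1) := by
        rw [hC] at h2
        linarith
      have b12 := mul_le_mul_of_nonneg_left b11 h0.le
      simp only [rr]
      linarith
  have := Complex.norm_deriv_le_of_forall_mem_sphere_norm_le (c := 0) (C := σ) t0
    (Ed n).diffContOnCl fun ζ hζ => (Eb ζ (by simpa using hζ) n le_rfl).trans (rσ n le_rfl)
  rw [(E' n).deriv, div_self (by exact_mod_cast n0.ne'), one_smul, ht] at this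
  refine this.trans (le_of_eq ?_)
  field_simp

theorem idx_bdd : BddBelow {r : ℝ | ∃ A : ContinuousMultilinearMap ℂ (fun _ : Fin k => X) X,
    pn A = 1 ∧ v A = r} := ⟨0, by rintro _ ⟨A, -, rfl⟩; exact v_nonneg A⟩

noncomputable def ex (k : ℕ) (φ : X →L[ℂ] ℂ) (e : X) :
    ContinuousMultilinearMap ℂ (fun _ : Fin k => X) X :=
  (ContinuousMultilinearMap.mkPiRing ℂ (Fin k) e).compContinuousLinearMap (fun _ => φ)

theorem ex_apply (φ : X →L[ℂ] ℂ) (e x : X) : ex k φ e (fun _ => x) = φ x ^ k • e := by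
  simp [ex]

theorem ex_pn (φ : X →L[ℂ] ℂ) (e u : X) (h1 : ∀ x, ‖φ x‖ ≤ ‖x‖) (he : ‖e‖ = 1) (hu : ‖u‖ = 1)
    (hφ : φ u = 1) : pn (ex k φ e) = 1 := by
  refine le_antisymm (pn_le _ zero_le_one fun x hx => ?_) ?_
  · rw [ex_apply, norm_smul, norm_pow, he, mul_one]
    exact pow_le_one₀ (norm_nonneg _) (hx ▸ h1 x)
  · simpa [ex_apply, hφ, he] using le_pn (ex k φ e) u hu

theorem idx_ne [Nontrivial X] : {r : ℝ | ∃ A : ContinuousMultilinearMap ℂ (fun _ : Fin k => X) X,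
    pn A = 1 ∧ v A = r}.Nonempty := by
  obtain ⟨y, hy⟩ := exists_ne (0 : X)
  obtain ⟨z, hz, -⟩ := unit_dec y hy
  obtain ⟨g, hg, hgz⟩ := exists_dual_vector ℂ z (by rw [hz]; norm_num)
  exact ⟨_, ex k g z, ex_pn g z z (fun x => by simpa [hg] using g.le_opNorm x) hz hz
    (by simpa [hz] using hgz), rfl⟩

theorem idx_le (h : 0 < pn A) : idx X k ≤ v A / pn A := by
  have e : ∀ x, (((pn A)⁻¹ : ℂ) • A) (fun _ => x) = ((pn A)⁻¹ : ℂ) • A (fun _ => x) := fun _ => rfl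
  have n : ‖((pn A)⁻¹ : ℂ)‖ = (pn A)⁻¹ := by simp [abs_of_pos h]
  have h1 : pn (((pn A)⁻¹ : ℂ) • A) = 1 := by
    refine le_antisymm (pn_le _ zero_le_one fun x hx => ?_) ?_
    · rw [e, norm_smul, n, inv_mul_le_iff₀ h, mul_one]; exact le_pn A x hx
    · rw [← inv_mul_cancel₀ h.ne', inv_mul_le_iff₀ h]
      refine pn_le _ (mul_nonneg h.le (pn_nonneg _)) fun x hx => ?_
      rw [← inv_mul_le_iff₀ h, ← n, ← norm_smul, ← e]
      exact le_pn _ x hx
  refine (csInf_le idx_bdd ⟨_, h1, rfl⟩).trans (v_le _ (div_nonneg (v_nonneg A) h.le)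
    fun x f hx hf hfx => ?_)
  rw [e, map_smul, norm_smul, n, inv_mul_eq_div]
  exact div_le_div_of_nonneg_right (le_v A x f hx hf hfx) h.le

noncomputable def ω (k : ℕ) (t : ℝ) : ℝ := (1 + t ^ 2) ^ (k + 1) *
  ((2 * t + t ^ 3) + (1 + t ^ 2) * ((1 + t ^ 2 + t * 2 ^ k) ^ k + 2 * 3 ^ k * (t * 2 ^ k))) - 1

theorem compare {Y : Type} [NormedAddCommGroup Y] [NormedSpace ℂ Y] [Nontrivial Y] (hk : 1 ≤ k)
    (e : X ≃L[ℂ] Y) (t : ℝ) (t0 : 0 < t) (t1 : t ≤ 1) (t2 : t * 2 ^ k < 1)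
    (h1 : ∀ x, ‖e x‖ ≤ (1 + t ^ 2) * ‖x‖) (h2 : ∀ x, ‖x‖ ≤ (1 + t ^ 2) * ‖e x‖) :
    idx X k ≤ idx Y k + ω k t := by
  rw [← sub_le_iff_le_add]
  refine le_csInf idx_ne ?_
  rintro _ ⟨B, hB, rfl⟩
  let A : ContinuousMultilinearMap ℂ (fun _ : Fin k => X) X :=
    (e.symm : Y →L[ℂ] X).compContinuousMultilinearMap
      (B.compContinuousLinearMap fun _ => (e : X →L[ℂ] Y))
  have hA : ∀ x, e (A fun _ => x) = B fun _ => e x := fun x => e.apply_symm_apply _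
  set d := 1 + t ^ 2 with hd
  have d1 : 1 ≤ d := by nlinarith
  have d2 : d ≤ 2 := by nlinarith
  have p1 : 1 ≤ d ^ (k + 1) * pn A := by
    rw [← hB]
    refine pn_le B (mul_nonneg (by positivity) (pn_nonneg A)) fun y hy => ?_
    obtain ⟨x, rfl⟩ := e.surjective y
    rw [← hA]
    refine (h1 _).trans ?_
    have a1 := h2 x
    rw [hy, mul_one] at a1
    have a2 := (hom_le A hk x).trans (mul_le_mul_of_nonneg_left
      (pow_le_pow_left₀ (norm_nonneg _) a1 k) (pn_nonneg A))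
    refine (mul_le_mul_of_nonneg_left a2 (by linarith)).trans (le_of_eq (by ring))
  have p0 : 0 < pn A := by
    refine lt_of_le_of_ne (pn_nonneg A) fun h => ?_
    rw [← h, mul_zero] at p1
    linarith
  have vB := v_le_pn B
  have vB0 := v_nonneg B
  rw [hB] at vB
  have p2 : v A ≤ (2 * t + t ^ 3) + d * (v B * (d + t * 2 ^ k) ^ k + 2 * 3 ^ k * (t * 2 ^ k)) := by
    refine v_le A (by positivity) fun x f hx hf hfx => ?_
    obtain ⟨l, hl, hl'⟩ := Complex.exists_norm_eq_mul_self (f (A fun _ => x))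
    have c1 : ‖(t : ℂ) * l‖ = t := by simp [hl, abs_of_pos t0]
    set y := x + ((t : ℂ) * l) • A fun _ => x with hy
    have a1 : 1 + t * ‖f (A fun _ => x)‖ ≤ ‖y‖ := by
      have : f y = ((1 + t * ‖f (A fun _ => x)‖ : ℝ) : ℂ) := by
        rw [hy, map_add, hfx, map_smul, smul_eq_mul, mul_assoc, ← hl']; simp
      have b := f.le_opNorm y
      rw [this, hf, one_mul, Complex.norm_real] at b
      exact (le_abs_self _).trans b
    have a2 : e y = e x + ((t : ℂ) * l) • B fun _ => e x := by rw [hy, map_add, map_smul, hA]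
    have a3 : ‖e x‖ ≤ d := by simpa [hx] using h1 x
    have a4 : ‖e y - e x‖ ≤ t * 2 ^ k := by
      rw [a2, add_sub_cancel_left, norm_smul, c1]
      refine mul_le_mul_of_nonneg_left ((hom_le B hk _).trans ?_) t0.le
      rw [hB, one_mul]
      exact pow_le_pow_left₀ (norm_nonneg _) (a3.trans d2) k
    have a5 := (lip B hk _ _ 2 (a3.trans d2) (a4.trans_lt t2)).trans
      (mul_le_mul_of_nonneg_left a4 (by rw [hB]; positivity))
    have a6 := step B _ _ _ a2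
    have a7 : ‖e y‖ ^ k ≤ (d + t * 2 ^ k) ^ k := pow_le_pow_left₀ (norm_nonneg _)
      (by linarith [norm_sub_norm_le (e y) (e x)]) k
    have a8 := mul_le_mul_of_nonneg_left a7 vB0
    rw [hB, one_mul, show (2 : ℝ) + 1 = 3 by norm_num] at a5
    rw [c1] at a6
    have a9 : ‖e y‖ ≤ d + t * (v B * (d + t * 2 ^ k) ^ k + 2 * 3 ^ k * (t * 2 ^ k)) := by
      have := mul_le_mul_of_nonneg_left (add_le_add a8 a5) t0.le
      linarith
    have a10 := (a1.trans (h2 y)).trans (mul_le_mul_of_nonneg_left a9 (by linarith))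
    refine le_of_mul_le_mul_left ?_ t0
    have : d * d = 1 + t * (2 * t + t ^ 3) := by rw [hd]; ring
    linarith
  have p3 : v A / pn A ≤ d ^ (k + 1) * v A := by
    rw [div_le_iff₀ p0]
    nlinarith [v_nonneg A]
  have p4 := mul_le_mul_of_nonneg_left p2 (by positivity : 0 ≤ d ^ (k + 1))
  have p5 : 1 ≤ d ^ (k + 1) * (d * (d + t * 2 ^ k) ^ k) :=
    one_le_mul_of_one_le_of_one_le (one_le_pow₀ d1) (one_le_mul_of_one_le_of_one_le d1
      (one_le_pow₀ (by linarith [mul_pos t0 (by positivity : (0 : ℝ) < 2 ^ k)])))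
  have p6 := mul_nonneg (sub_nonneg.2 p5) (sub_nonneg.2 vB)
  have := idx_le A p0
  simp only [ω, ← hd]
  linarith

section ex

variable (m : ℕ) (σ : ℝ)

noncomputable def gg (a b ρ : ℝ) : ℝ :=
  (((m : ℝ) + 1) * ρ - ρ ^ (m + 1)) / m * a + ρ ^ (m + 1) / (σ * (m + 1)) * b

noncomputable def NN (a b : ℝ) : ℝ := sSup (gg m σ a b '' Icc 1 σ)

variable {m σ} (hm : 1 ≤ m) (σ1 : 1 ≤ σ) (hσ : σ ^ m = m + 1)
include σ1

theorem NN_max (a b : ℝ) : ∃ ρ ∈ Icc 1 σ, NN m σ a b = gg m σ a b ρ ∧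
    ∀ ρ' ∈ Icc 1 σ, gg m σ a b ρ' ≤ gg m σ a b ρ := by
  obtain ⟨ρ, h1, h2⟩ := isCompact_Icc.exists_isMaxOn (nonempty_Icc.2 σ1)
    (f := gg m σ a b) (by unfold gg; fun_prop)
  exact ⟨ρ, h1, IsGreatest.csSup_eq ⟨⟨ρ, h1, rfl⟩, by rintro _ ⟨r, hr, rfl⟩; exact h2 hr⟩,
    fun r hr => h2 hr⟩

theorem le_NN (a b ρ : ℝ) (h : ρ ∈ Icc 1 σ) : gg m σ a b ρ ≤ NN m σ a b := by
  obtain ⟨r, -, h1, h2⟩ := NN_max (m := m) σ1 a b
  rw [h1]; exact h2 ρ h

include hm hσ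

theorem coef (ρ : ℝ) (h : ρ ∈ Icc 1 σ) :
    0 ≤ (((m : ℝ) + 1) * ρ - ρ ^ (m + 1)) / m ∧ (((m : ℝ) + 1) * ρ - ρ ^ (m + 1)) / m ≤ 1 ∧
      0 ≤ ρ ^ (m + 1) / (σ * (m + 1)) ∧ ρ ^ (m + 1) / (σ * (m + 1)) ≤ 1 := by
  have m0 : (0 : ℝ) < m := by exact_mod_cast hm
  have r0 : 0 < ρ := by linarith [h.1]
  have a1 : ρ ^ m ≤ m + 1 := hσ ▸ pow_le_pow_left₀ r0.le h.2 m
  have a2 := one_add_mul_le_pow (a := ρ - 1) (by linarith) (m + 1)
  refine ⟨div_nonneg (by rw [pow_succ]; nlinarith) m0.le, ?_, by positivity, ?_⟩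
  · rw [div_le_one m0]
    rw [add_sub_cancel] at a2
    push_cast at a2
    linarith
  · rw [div_le_one (by positivity), ← hσ, ← pow_succ']
    exact pow_le_pow_left₀ r0.le h.2 _

theorem NN_le (a b a' b' c : ℝ) (c0 : 0 ≤ c) (ha : a ≤ c * a') (hb : b ≤ c * b') :
    NN m σ a b ≤ c * NN m σ a' b' := by
  obtain ⟨ρ, h1, h2, -⟩ := NN_max (m := m) σ1 a b
  obtain ⟨c1, -, c2, -⟩ := coef hm σ1 hσ ρ h1
  rw [h2]
  refine le_trans ?_ (mul_le_mul_of_nonneg_left (le_NN σ1 a' b' ρ h1) c0)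
  have := mul_le_mul_of_nonneg_left ha c1
  have := mul_le_mul_of_nonneg_left hb c2
  simp only [gg]
  linarith

theorem NN_bd (a b : ℝ) (a0 : 0 ≤ a) (b0 : 0 ≤ b) :
    a ≤ NN m σ a b ∧ b ≤ NN m σ a b ∧ NN m σ a b ≤ a + b := by
  have m0 : (0 : ℝ) < m := by exact_mod_cast hm
  refine ⟨le_trans ?_ (le_NN σ1 a b 1 ⟨le_rfl, σ1⟩), le_trans ?_ (le_NN σ1 a b σ ⟨σ1, le_rfl⟩), ?_⟩
  · simp only [gg, one_pow, mul_one, add_sub_cancel_right, div_self m0.ne', one_mul]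
    exact le_add_of_nonneg_right (by positivity)
  · simp only [gg, pow_succ' σ, hσ]
    rw [div_self (by positivity), mul_comm σ, sub_self]
    simp
  · obtain ⟨ρ, h1, h2, -⟩ := NN_max (m := m) σ1 a b
    obtain ⟨-, c1, -, c2⟩ := coef hm σ1 hσ ρ h1
    rw [h2]
    exact add_le_add (mul_le_of_le_one_left a0 c1) (mul_le_of_le_one_left b0 c2)

omit hσ in
theorem NN_key (a b ρ : ℝ) (b0 : 0 ≤ b) (h : ρ ∈ Icc 1 σ)
    (hmax : ∀ ρ' ∈ Icc 1 σ, gg m σ a b ρ' ≤ gg m σ a b ρ) : ρ * a ≤ gg m σ a b ρ := by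
  have m0 : (0 : ℝ) < m := by exact_mod_cast hm
  rcases h.1.eq_or_lt with e | e
  · simp only [gg, ← e, one_pow, mul_one, add_sub_cancel_right, div_self m0.ne', one_mul]
    exact le_add_of_nonneg_right (by positivity)
  have hd : HasDerivAt (gg m σ a b) ((((m : ℝ) + 1) - (m + 1) * ρ ^ m) / m * a +
      (m + 1) * ρ ^ m / (σ * (m + 1)) * b) ρ := by
    have h1 := hasDerivAt_pow (m + 1) ρ
    refine ((((((hasDerivAt_id' ρ).const_mul ((m : ℝ) + 1)).fun_sub h1).div_const m).mul_const a).fun_add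
      ((h1.div_const _).mul_const b)).congr_deriv ?_
    simp
  have h2 := IsLocalMaxOn.hasFDerivWithinAt_nonpos (IsMaxOn.localize (s := Icc 1 σ) hmax)
    hd.hasFDerivAt.hasFDerivWithinAt (y := 1 - ρ) (sub_mem_posTangentConeAt_of_segment_subset
      ((convex_Icc 1 σ).segment_subset h ⟨le_rfl, σ1⟩))
  simp only [ContinuousLinearMap.toSpanSingleton_apply, smul_eq_mul] at h2
  have h3 := nonneg_of_mul_nonpos_right h2 (by linarith)
  have h4 := mul_nonneg h3 (by positivity : 0 ≤ ρ / (m + 1))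
  have e2 : gg m σ a b ρ - ρ * a = ((((m : ℝ) + 1) - (m + 1) * ρ ^ m) / m * a +
      (m + 1) * ρ ^ m / (σ * (m + 1)) * b) * (ρ / (m + 1)) := by
    simp only [gg]; field_simp; ring
  linarith

noncomputable def sN : Seminorm ℂ (ℂ × ℂ) :=
  Seminorm.ofSMulLE (fun z => NN m σ ‖z.1‖ ‖z.2‖)
    (by
      obtain ⟨ρ, -, h2, -⟩ := NN_max (m := m) σ1 0 0
      simp only [Prod.fst_zero, Prod.snd_zero, norm_zero, h2, gg, mul_zero, add_zero])
    (fun x y => by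
      obtain ⟨ρ, h1, h2, -⟩ := NN_max (m := m) σ1 (‖x.1‖ + ‖y.1‖) (‖x.2‖ + ‖y.2‖)
      refine (NN_le hm σ1 hσ _ _ _ _ 1 zero_le_one (by simpa using norm_add_le x.1 y.1)
        (by simpa using norm_add_le x.2 y.2)).trans ?_
      rw [one_mul, h2]
      refine le_trans (le_of_eq ?_) (add_le_add (le_NN σ1 _ _ ρ h1) (le_NN σ1 _ _ ρ h1))
      simp only [gg]; ring)
    (fun c x => NN_le hm σ1 hσ _ _ _ _ _ (norm_nonneg _) (by simp) (by simp))

theorem sN_bd (z : ℂ × ℂ) : ‖z‖ ≤ sN hm σ1 hσ z ∧ sN hm σ1 hσ z ≤ 2 * ‖z‖ := by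
  obtain ⟨h1, h2, h3⟩ := NN_bd hm σ1 hσ ‖z.1‖ ‖z.2‖ (norm_nonneg _) (norm_nonneg _)
  exact ⟨max_le h1 h2, h3.trans (by linarith [norm_fst_le z, norm_snd_le z])⟩

noncomputable def fam (s : Icc (0 : ℝ) 1) : EqNorm ℂ (ℂ × ℂ) where
  p := NNReal.mk (1 - s) (sub_nonneg.2 s.2.2) • sN hm σ1 hσ +
    NNReal.mk s s.2.1 • normSeminorm ℂ (ℂ × ℂ)
  lower := ⟨1, fun z => by
    show _ ≤ 1 * ((1 - s.1) * sN hm σ1 hσ z + s.1 * ‖z‖)
    nlinarith [(sN_bd hm σ1 hσ z).1, s.2.2]⟩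
  upper := ⟨2, fun z => by
    show (1 - s.1) * sN hm σ1 hσ z + s.1 * ‖z‖ ≤ _
    nlinarith [(sN_bd hm σ1 hσ z).2, s.2.2, s.2.1, norm_nonneg z]⟩

theorem fam_norm (s : Icc (0 : ℝ) 1) (z : (fam hm σ1 hσ s).Sp) :
    ‖z‖ = (1 - s.1) * sN hm σ1 hσ ((fam hm σ1 hσ s).eqv z) + s.1 * ‖(fam hm σ1 hσ s).eqv z‖ := rfl

theorem fam_nt (s : Icc (0 : ℝ) 1) : Nontrivial (fam hm σ1 hσ s).Sp :=
  inferInstanceAs (Nontrivial (ℂ × ℂ))

theorem fam_cont : Continuous fun s => idx (fam hm σ1 hσ s).Sp (m + 1) := by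
  have hω : Tendsto (ω (m + 1)) (𝓝 0) (𝓝 0) :=
    Continuous.tendsto' (by unfold ω; fun_prop) 0 0 (by simp [ω])
  rw [Metric.continuous_iff]
  intro s ε hε
  have h1 : ∀ᶠ t in 𝓝[>] (0 : ℝ), 0 < t ∧ t ≤ 1 ∧ t * 2 ^ (m + 1) < 1 ∧ ω (m + 1) t < ε := by
    refine eventually_mem_nhdsWithin.and (mem_nhdsWithin_of_mem_nhds ?_)
    refine (eventually_le_nhds one_pos).and (Eventually.and ?_ (hω.eventually (gt_mem_nhds hε)))
    exact (Continuous.tendsto' (by fun_prop : Continuous fun t : ℝ => t * 2 ^ (m + 1)) 0 0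
      (by simp)).eventually (gt_mem_nhds one_pos)
  obtain ⟨t, t0, t1, t2, t3⟩ := h1.exists
  have key : ∀ s s' : Icc (0 : ℝ) 1, dist s s' < t ^ 2 → ∀ z : ℂ × ℂ,
      (1 - s.1) * sN hm σ1 hσ z + s.1 * ‖z‖ ≤
        (1 + t ^ 2) * ((1 - s'.1) * sN hm σ1 hσ z + s'.1 * ‖z‖) := by
    intro s s' h z
    obtain ⟨a1, a2⟩ := sN_bd hm σ1 hσ z
    have a3 := (abs_lt.1 (show |s.1 - s'.1| < t ^ 2 from h)).1
    have a4 := mul_nonneg (sub_nonneg.2 s'.2.2) (sub_nonneg.2 a1)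
    have a5 : (s'.1 - s.1) * (sN hm σ1 hσ z - ‖z‖) ≤ t ^ 2 * (sN hm σ1 hσ z - ‖z‖) :=
      mul_le_mul_of_nonneg_right (by linarith) (sub_nonneg.2 a1)
    nlinarith [sq_nonneg t]
  have cmp : ∀ s s' : Icc (0 : ℝ) 1, dist s s' < t ^ 2 →
      idx (fam hm σ1 hσ s).Sp (m + 1) ≤ idx (fam hm σ1 hσ s').Sp (m + 1) + ω (m + 1) t := by
    intro s s' h
    have := fam_nt hm σ1 hσ s'
    exact compare (by omega) ((fam hm σ1 hσ s).eqv.trans (fam hm σ1 hσ s').eqv.symm) t t0 t1 t2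
      (fun x => key s' s (by rwa [dist_comm]) _) (fun x => key s s' h _)
  refine ⟨t ^ 2, by positivity, fun s' h => ?_⟩
  have := cmp s' s h
  have := cmp s s' (by rwa [dist_comm])
  rw [Real.dist_eq, abs_lt]
  constructor <;> linarith

theorem fam_zero : idx (fam hm σ1 hσ 0).Sp (m + 1) ≤ 1 / (σ * (m + 1)) := by
  set N := fam hm σ1 hσ 0
  have hn : ∀ z : N.Sp, ‖z‖ = NN m σ ‖(N.eqv z).1‖ ‖(N.eqv z).2‖ := fun z => by
    rw [fam_norm]; simp; rfl
  let φ : N.Sp →L[ℂ] ℂ := (ContinuousLinearMap.fst ℂ ℂ ℂ).comp (N.eqv : N.Sp →L[ℂ] ℂ × ℂ)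
  have hφ : ∀ z, φ z = (N.eqv z).1 := fun _ => rfl
  have b := fun a b => NN_bd hm σ1 hσ a b
  have h1 : pn (ex (m + 1) φ (N.eqv.symm (0, 1))) = 1 := by
    refine ex_pn φ _ (N.eqv.symm (1, 0)) (fun x => ?_) ?_ ?_ (by simp [hφ])
    · rw [hn]; exact (b _ _ (norm_nonneg _) (norm_nonneg _)).1
    · rw [hn]
      obtain ⟨-, b1, b2⟩ := b 0 1 le_rfl zero_le_one
      simpa using le_antisymm (by simpa using b2) b1
    · rw [hn]
      obtain ⟨b1, -, b2⟩ := b 1 0 zero_le_one le_rfl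
      simpa using le_antisymm (by simpa using b2) b1
  refine (csInf_le idx_bdd ⟨_, h1, rfl⟩).trans (v_le _ (by positivity) fun x f hx hf hfx => ?_)
  rw [ex_apply, map_smul, norm_smul, norm_pow, hφ]
  set u := N.eqv.symm (0, 1)
  have key : ∀ h : ℝ, 0 < h → ‖(N.eqv x).1‖ ^ (m + 1) * ‖f u‖ ≤ (1 + h) ^ (m + 1) / (σ * (m + 1)) := by
    intro h h0
    obtain ⟨l, hl, hl'⟩ := Complex.exists_norm_eq_mul_self (f u)
    have a1 : 1 + h * ‖f u‖ ≤ ‖x + ((h : ℂ) * l) • u‖ := by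
      have : f (x + ((h : ℂ) * l) • u) = ((1 + h * ‖f u‖ : ℝ) : ℂ) := by
        rw [map_add, hfx, map_smul, smul_eq_mul, mul_assoc, ← hl']; simp
      have b := f.le_opNorm (x + ((h : ℂ) * l) • u)
      rw [this, hf, one_mul, Complex.norm_real] at b
      exact (le_abs_self _).trans b
    obtain ⟨ρ, r1, r2, r3⟩ := NN_max (m := m) σ1 ‖(N.eqv x).1‖ (‖(N.eqv x).2‖ + h)
    have a2 : ‖x + ((h : ℂ) * l) • u‖ ≤ 1 * NN m σ ‖(N.eqv x).1‖ (‖(N.eqv x).2‖ + h) := by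
      rw [hn]
      refine NN_le hm σ1 hσ _ _ _ _ 1 zero_le_one (by simp [u]) ?_
      simpa [u, hl, abs_of_pos h0] using norm_add_le (N.eqv x).2 (h * l)
    have a3 := le_NN (m := m) σ1 ‖(N.eqv x).1‖ ‖(N.eqv x).2‖ ρ r1
    rw [← hn, hx] at a3
    have a4 := NN_key hm σ1 _ _ ρ (by positivity) r1 r3
    obtain ⟨-, -, c1, c2⟩ := coef hm σ1 hσ ρ r1
    have a5 : gg m σ ‖(N.eqv x).1‖ (‖(N.eqv x).2‖ + h) ρ =
        gg m σ ‖(N.eqv x).1‖ ‖(N.eqv x).2‖ ρ + h * (ρ ^ (m + 1) / (σ * (m + 1))) := by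
      simp only [gg]; ring
    rw [one_mul, r2, a5] at a2
    have a6 : ‖f u‖ ≤ ρ ^ (m + 1) / (σ * (m + 1)) := le_of_mul_le_mul_left (by linarith) h0
    have a7 : ρ * ‖(N.eqv x).1‖ ≤ 1 + h := by nlinarith
    have a8 := pow_le_pow_left₀ (mul_nonneg (by linarith [r1.1]) (norm_nonneg _)) a7 (m + 1)
    refine (mul_le_mul_of_nonneg_left a6 (by positivity)).trans ?_
    rw [← mul_div_assoc, ← mul_pow, mul_comm _ ρ]
    exact div_le_div_of_nonneg_right a8 (by positivity)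
  have ht : Tendsto (fun h : ℝ => (1 + h) ^ (m + 1) / (σ * (m + 1))) (𝓝[>] 0)
      (𝓝 (1 / (σ * (m + 1)))) :=
    (Continuous.tendsto' (by fun_prop) 0 _ (by simp)).mono_left nhdsWithin_le_nhds
  exact ge_of_tendsto ht (eventually_mem_nhdsWithin.mono key)

theorem fam_one : 1 ≤ idx (fam hm σ1 hσ 1).Sp (m + 1) := by
  have := fam_nt hm σ1 hσ 1
  set N := fam hm σ1 hσ 1
  have hn : ∀ z : N.Sp, ‖z‖ = ‖N.eqv z‖ := fun z => by rw [fam_norm]; simp; rfl
  refine le_csInf idx_ne ?_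
  rintro _ ⟨A, hA, rfl⟩
  rw [← hA]
  have key : ∀ (π : ℂ × ℂ →L[ℂ] ℂ) (p q : ℂ × ℂ), (∀ z, ‖π z‖ ≤ ‖z‖) → π p = 1 → π q = 0 →
      (∀ ζ : ℂ, ‖ζ‖ = 1 → ‖ζ • p + q‖ = 1) → ∀ ζ : ℂ, ‖ζ‖ ≤ 1 →
      ‖π (N.eqv (A fun _ => N.eqv.symm (ζ • p + q)))‖ ≤ v A := by
    intro π p q h1 h2 h3 h4 ζ hζ
    refine Complex.norm_le_of_forall_mem_frontier_norm_le (U := ball (0 : ℂ) 1) isBounded_ball
      (f := fun ζ => π (N.eqv (A fun _ => N.eqv.symm (ζ • p + q))))
      (Differentiable.diffContOnCl ?_) (fun w hw => ?_) ?_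
    · exact π.differentiable.comp (N.eqv.differentiable.comp ((diff_diag A).comp
        (N.eqv.symm.differentiable.comp ((differentiable_id.smul_const p).add_const q))))
    · rw [frontier_ball _ one_ne_zero, mem_sphere_zero_iff_norm] at hw
      have := le_v' A (N.eqv.symm (w • p + q))
        (w⁻¹ • π.comp (N.eqv : N.Sp →L[ℂ] ℂ × ℂ)) (by rw [hn]; simpa using h4 w hw)
        (ContinuousLinearMap.opNorm_le_bound _ zero_le_one fun z => by
          simpa [hw, hn z] using h1 (N.eqv z))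
        (by
          have : w ≠ 0 := by rintro rfl; simp at hw
          simp [h2, h3, this])
      simpa [hw] using this
    · rw [closure_ball _ one_ne_zero]; simpa using hζ
  refine pn_le A (v_nonneg A) fun x hx => ?_
  rw [hn] at hx ⊢
  have x1 := (norm_fst_le (N.eqv x)).trans hx.le
  have x2 := (norm_snd_le (N.eqv x)).trans hx.le
  refine max_le ?_ ?_
  · simpa using key (ContinuousLinearMap.fst ℂ ℂ ℂ) (1, 0) (0, (N.eqv x).2) norm_fst_le rfl rfl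
      (fun ζ h => by simp [Prod.norm_def, h, x2]) _ x1
  · simpa using key (ContinuousLinearMap.snd ℂ ℂ ℂ) (0, 1) ((N.eqv x).1, 0) norm_snd_le rfl rfl
      (fun ζ h => by simp [Prod.norm_def, h, x1]) _ x2

end ex

theorem main (k : ℕ) (hk : 2 ≤ k) :
    {r : ℝ | ∃ (X : Type) (_ : NormedAddCommGroup X) (_ : NormedSpace ℂ X),
      CompleteSpace X ∧ Nontrivial X ∧ idx X k = r} = Icc ((k : ℝ) ^ ((k : ℝ) / (1 - k))) 1 := by
  obtain ⟨m, rfl⟩ : ∃ m, k = m + 1 := ⟨k - 1, by omega⟩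
  have hm : 1 ≤ m := by omega
  have m0 : (0 : ℝ) < m := by exact_mod_cast hm
  set σ : ℝ := ((m : ℝ) + 1) ^ ((m : ℝ)⁻¹) with hσd
  have σ1 : 1 ≤ σ := Real.one_le_rpow (by linarith) (by positivity)
  have hσ : σ ^ m = m + 1 := Real.rpow_inv_natCast_pow (by positivity) (by omega)
  have e : ((m + 1 : ℕ) : ℝ) ^ (((m + 1 : ℕ) : ℝ) / (1 - ((m + 1 : ℕ) : ℝ))) = 1 / (σ * (m + 1)) := by
    push_cast
    rw [hσd, ← Real.rpow_add_one (by positivity), one_div, ← Real.rpow_neg (by positivity)]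
    congr 1
    rw [show 1 - ((m : ℝ) + 1) = -m by ring]
    field_simp
    ring
  rw [e]
  refine Subset.antisymm ?_ fun r hr => ?_
  · rintro _ ⟨X, _, _, -, _, rfl⟩
    constructor
    · refine le_csInf idx_ne ?_
      rintro _ ⟨A, hA, rfl⟩
      rw [div_le_iff₀' (by positivity)]
      exact hA.symm.trans_le (harris m hm A σ (by linarith) hσ)
    · obtain ⟨_, A, hA, rfl⟩ := idx_ne (X := X) (k := m + 1)
      exact (csInf_le idx_bdd ⟨A, hA, rfl⟩).trans (hA ▸ v_le_pn A)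
  · obtain ⟨s, hs⟩ := intermediate_value_univ 0 1 (fam_cont hm σ1 hσ)
      ⟨(fam_zero hm σ1 hσ).trans hr.1, hr.2.trans (fam_one hm σ1 hσ)⟩
    exact ⟨_, _, _, inferInstance, fam_nt hm σ1 hσ s, hs⟩

end Pool.Agent.H91.IdxRange
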