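import Mathlib

set_option autoImplicit false

namespace Pool.Agent.H91.Mean

open Set Finset

variable {G : Type} [AddCommGroup G]

noncomputable def Av (g : G × ℕ) : (G → ℝ) →ₗ[ℝ] (G → ℝ) where
  toFun f := fun x => ((g.2 : ℝ) + 1)⁻¹ * ∑ j ∈ range (g.2 + 1), f (x + j • g.1)
  map_add' f h := by funext x; simp [sum_add_distrib, mul_add]
  map_smul' c f := by funext x; simp [← mul_sum]; ring

theorem Av_apply (g : G × ℕ) (f : G → ℝ) (x : G) :
    Av g f x = ((g.2 : ℝ) + 1)⁻¹ * ∑ j ∈ range (g.2 + 1), f (x + j • g.1) := rfl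

theorem Av_le (g : G × ℕ) (f : G → ℝ) (c : ℝ) (h : ∀ x, f x ≤ c) (x : G) : Av g f x ≤ c := by
  rw [Av_apply, inv_mul_le_iff₀ (by positivity)]
  refine (sum_le_sum fun j _ => h _).trans ?_
  simp

theorem Av_comm (g h : G × ℕ) (f : G → ℝ) : Av g (Av h f) = Av h (Av g f) := by
  funext x
  simp only [Av_apply, mul_sum]
  rw [sum_comm]
  refine sum_congr rfl fun i _ => sum_congr rfl fun j _ => ?_
  rw [add_right_comm]
  ring

noncomputable def T : List (G × ℕ) → (G → ℝ) →ₗ[ℝ] (G → ℝ)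
  | [] => LinearMap.id
  | g :: l => (Av g).comp (T l)

theorem T_le (l : List (G × ℕ)) (f : G → ℝ) (c : ℝ) (h : ∀ x, f x ≤ c) (x : G) : T l f x ≤ c := by
  induction l generalizing x with
  | nil => exact h x
  | cons g l ih => exact Av_le g _ c ih x

theorem T_ge (l : List (G × ℕ)) (f : G → ℝ) (c : ℝ) (h : ∀ x, c ≤ f x) (x : G) : c ≤ T l f x := by
  have := T_le l (-f) (-c) (fun x => by simpa using h x) x
  rw [map_neg] at this
  simpa using this

theorem T_Av (l : List (G × ℕ)) (g : G × ℕ) (f : G → ℝ) : T l (Av g f) = Av g (T l f) := by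
  induction l with
  | nil => rfl
  | cons h l ih =>
    show Av h (T l (Av g f)) = Av g (Av h (T l f))
    rw [ih, Av_comm]

theorem T_app (l m : List (G × ℕ)) (f : G → ℝ) : T (l ++ m) f = T l (T m f) := by
  induction l with
  | nil => rfl
  | cons h l ih =>
    show Av h (T (l ++ m) f) = Av h (T l (T m f))
    rw [ih]

theorem T_comm (l m : List (G × ℕ)) (f : G → ℝ) : T l (T m f) = T m (T l f) := by
  induction l with
  | nil => rfl
  | cons h l ih =>
    show Av h (T l (T m f)) = T m (Av h (T l f))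
    rw [ih, T_Av]

def Bd (f : G → ℝ) : Prop := ∃ C, ∀ x, |f x| ≤ C

def BdS (G : Type) [AddCommGroup G] : Submodule ℝ (G → ℝ) where
  carrier := {f | Bd f}
  add_mem' := by
    rintro f g ⟨C, hC⟩ ⟨D, hD⟩
    exact ⟨C + D, fun x => (abs_add_le _ _).trans (add_le_add (hC x) (hD x))⟩
  zero_mem' := ⟨0, by simp⟩
  smul_mem' := by
    rintro c f ⟨C, hC⟩
    exact ⟨|c| * C, fun x => by
      rw [Pi.smul_apply, smul_eq_mul, abs_mul]
      exact mul_le_mul_of_nonneg_left (hC x) (abs_nonneg _)⟩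

def U (f : G → ℝ) : Set ℝ := {c | ∃ l, ∀ x, T l f x ≤ c}

theorem U_ne (f : BdS G) : (U f.1).Nonempty := by
  obtain ⟨C, hC⟩ := f.2
  exact ⟨C, [], fun x => (abs_le.1 (hC x)).2⟩

theorem U_bdd (f : BdS G) : BddBelow (U f.1) := by
  obtain ⟨C, hC⟩ := f.2
  refine ⟨-C, ?_⟩
  rintro c ⟨l, hl⟩
  exact (T_ge l _ _ (fun x => (abs_le.1 (hC x)).1) 0).trans (hl 0)

theorem exists_lin : ∃ M : BdS G →ₗ[ℝ] ℝ, ∀ f : BdS G, ∀ c ∈ U f.1, M f ≤ c := by
  have hle : ∀ (t : ℝ), 0 < t → ∀ f : BdS G, sInf (U (t • f).1) ≤ t * sInf (U f.1) := by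
    intro t ht f
    rw [← div_le_iff₀' ht]
    refine le_csInf (U_ne f) ?_
    rintro c ⟨l, hl⟩
    rw [div_le_iff₀' ht]
    refine csInf_le (U_bdd _) ⟨l, fun x => ?_⟩
    rw [Submodule.coe_smul, map_smul]
    exact mul_le_mul_of_nonneg_left (hl x) ht.le
  obtain ⟨M, -, hM⟩ := exists_extension_of_le_sublinear (⊥ : BdS G →ₗ.[ℝ] ℝ)
    (fun f => sInf (U f.1))
    (fun t ht f => le_antisymm (hle t ht f) (by
      have := hle t⁻¹ (inv_pos.2 ht) (t • f)
      rw [smul_smul, inv_mul_cancel₀ ht.ne', one_smul, le_inv_mul_iff₀ ht] at this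
      exact this))
    (fun f g => by
      rw [← sub_le_iff_le_add]
      refine le_csInf (U_ne f) ?_
      rintro c ⟨l, hl⟩
      rw [sub_le_comm]
      refine le_csInf (U_ne g) ?_
      rintro d ⟨m, hm⟩
      rw [sub_le_iff_le_add']
      refine csInf_le (U_bdd _) ⟨l ++ m, fun x => ?_⟩
      rw [Submodule.coe_add, map_add, Pi.add_apply, T_app, T_app]
      refine add_le_add ?_ (T_le l _ d hm x)
      rw [T_comm]
      exact T_le m _ c hl x)
    (fun x => by
      have hx : x = 0 := Subtype.ext ((Submodule.mem_bot ℝ).1 x.2)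
      rw [hx, LinearPMap.map_zero]
      refine le_csInf (U_ne _) ?_
      rintro c ⟨l, hl⟩
      simpa using hl 0)
  exact ⟨M, fun f c hc => (hM f).trans (csInf_le (U_bdd f) hc)⟩

/-- an invariant mean on an abelian group -/
theorem exists_mean (G : Type) [AddCommGroup G] : ∃ M : (G → ℝ) → ℝ,
    (∀ f g, Bd f → Bd g → M (fun x => f x + g x) = M f + M g) ∧
    (∀ f g, Bd f → Bd g → M (fun x => f x - g x) = M f - M g) ∧
    (∀ f C, (∀ x, |f x| ≤ C) → |M f| ≤ C) ∧ (∀ c, M (fun _ => c) = c) ∧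
    ∀ f g, Bd f → M (fun x => f (g + x)) = M f := by
  classical
  obtain ⟨M, hM⟩ := exists_lin (G := G)
  have up : ∀ (f : BdS G) (c : ℝ), (∀ x, f.1 x ≤ c) → M f ≤ c := fun f c h => hM f c ⟨[], h⟩
  have lo : ∀ (f : BdS G) (c : ℝ), (∀ x, c ≤ f.1 x) → c ≤ M f := fun f c h => by
    have := up (-f) (-c) (fun x => by simpa using h x)
    rw [map_neg] at this
    linarith
  have inv : ∀ (f : BdS G) (g : G) (h : Bd fun x => f.1 (g + x)), M ⟨_, h⟩ ≤ M f := by
    intro f g h
    rw [← sub_nonpos, ← map_sub]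
    obtain ⟨C, hC⟩ := f.2
    refine le_of_forall_pos_le_add fun e he => ?_
    obtain ⟨n, hn⟩ := exists_nat_gt (2 * C / e)
    refine hM _ _ ⟨[(g, n)], fun x => ?_⟩
    show Av (g, n) _ x ≤ _
    rw [Av_apply, inv_mul_le_iff₀ (by positivity)]
    have := sum_range_sub (fun j : ℕ => f.1 (x + j • g)) (n + 1)
    have e2 : ∑ j ∈ range (n + 1), ((⟨_, h⟩ - f : BdS G) : G → ℝ) (x + j • g) =
        ∑ j ∈ range (n + 1), (f.1 (x + (j + 1) • g) - f.1 (x + j • g)) := by
      refine sum_congr rfl fun j _ => ?_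
      show f.1 (g + (x + j • g)) - f.1 (x + j • g) = _
      rw [succ_nsmul, add_comm g, add_assoc]
    rw [e2, this]
    have h1 := abs_le.1 (hC (x + (n + 1) • g))
    have h2 := abs_le.1 (hC (x + 0 • g))
    rw [div_lt_iff₀ he] at hn
    simp only
    nlinarith
  refine ⟨fun f => if h : Bd f then M ⟨f, h⟩ else 0, ?_, ?_, ?_, ?_, ?_⟩
  · intro f g hf hg
    have h : Bd fun x => f x + g x := (BdS G).add_mem hf hg
    simp only [dif_pos h, dif_pos hf, dif_pos hg, ← map_add]
    rfl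
  · intro f g hf hg
    have h : Bd fun x => f x - g x := (BdS G).sub_mem hf hg
    simp only [dif_pos h, dif_pos hf, dif_pos hg, ← map_sub]
    rfl
  · intro f C h
    have h' : Bd f := ⟨C, h⟩
    simp only [dif_pos h']
    exact abs_le.2 ⟨lo _ _ fun x => (abs_le.1 (h x)).1, up _ _ fun x => (abs_le.1 (h x)).2⟩
  · intro c
    have h' : Bd fun _ : G => c := ⟨|c|, fun _ => le_rfl⟩
    simp only [dif_pos h']
    exact le_antisymm (up _ _ fun _ => le_rfl) (lo _ _ fun _ => le_rfl)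
  · intro f g hf
    have h : Bd fun x => f (g + x) := by
      obtain ⟨C, hC⟩ := hf
      exact ⟨C, fun x => hC _⟩
    simp only [dif_pos h, dif_pos hf]
    refine le_antisymm (inv ⟨f, hf⟩ g h) ?_
    have h2 : Bd fun x => f (g + (-g + x)) := by simpa using hf
    have := inv ⟨_, h⟩ (-g) h2
    simpa using this

theorem hyers (D : G → ℝ) (η : ℝ) (h : ∀ x y, |D (x + y) - D x - D y| ≤ η) :
    ∃ A : G →+ ℝ, ∀ x, |D x - A x| ≤ η := by
  obtain ⟨M, h1, -, h3, h4, h5⟩ := exists_mean G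
  have hb : ∀ x, Bd fun w => D (x + w) - D x - D w := fun x => ⟨η, h x⟩
  refine ⟨AddMonoidHom.mk' (fun x => D x + M fun w => D (x + w) - D x - D w) fun x y => ?_,
    fun x => ?_⟩
  · have e1 := h1 _ (fun _ => D (x + y) - D x - D y) (hb (x + y)) ⟨_, fun _ => le_rfl⟩
    have e2 := h5 _ y (hb x)
    have e3 := h1 _ _ (by obtain ⟨C, hC⟩ := hb x; exact ⟨C, fun w => hC (y + w)⟩ :
      Bd fun w => D (x + (y + w)) - D x - D (y + w)) (hb y)
    have e4 : (fun w => D (x + y + w) - D (x + y) - D w + (D (x + y) - D x - D y)) =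
        fun w => D (x + (y + w)) - D x - D (y + w) + (D (y + w) - D y - D w) := by
      funext w; rw [add_assoc]; ring
    rw [h4, e4, e3] at e1
    linarith
  · simpa using h3 _ _ (h x)

structure Coc (G : Type) [AddCommGroup G] where
  c : G → G → ℝ
  symm : ∀ x y, c x y = c y x
  coc : ∀ x y z, c (x + y) z + c x y = c x (y + z) + c y z
  zero : ∀ x, c 0 x = 0

@[ext] structure Ex (C : Coc G) where
  x : G
  a : ℝ

instance (C : Coc G) : Add (Ex C) := ⟨fun p q => ⟨p.x + q.x, p.a + q.a + C.c p.x q.x⟩⟩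
instance (C : Coc G) : Zero (Ex C) := ⟨⟨0, 0⟩⟩
instance (C : Coc G) : Neg (Ex C) := ⟨fun p => ⟨-p.x, -p.a - C.c (-p.x) p.x⟩⟩

theorem add_def (C : Coc G) (p q : Ex C) : p + q = ⟨p.x + q.x, p.a + q.a + C.c p.x q.x⟩ := rfl
theorem zero_def (C : Coc G) : (0 : Ex C) = ⟨0, 0⟩ := rfl
theorem neg_def (C : Coc G) (p : Ex C) : -p = ⟨-p.x, -p.a - C.c (-p.x) p.x⟩ := rfl

instance (C : Coc G) : AddGroup (Ex C) := AddGroup.ofLeftAxioms
  (fun p q r => by
    simp only [add_def]
    ext
    · exact add_assoc _ _ _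
    · have := C.coc p.x q.x r.x
      simp only
      linarith)
  (fun p => by simp [add_def, zero_def, C.zero])
  (fun p => by
    simp only [add_def, zero_def, neg_def]
    ext
    · simp
    · simp only; ring)

instance (C : Coc G) : AddCommGroup (Ex C) where
  add_comm p q := by
    simp only [add_def]
    ext
    · exact add_comm _ _
    · simp only [C.symm p.x]; ring

theorem Coc.cob (C : Coc G) : ∃ φ : G → ℝ, ∀ x y, C.c x y = φ (x + y) - φ x - φ y := by
  let i : ℝ →+ Ex C := AddMonoidHom.mk' (fun a => ⟨0, a⟩) fun a b => by simp [add_def, C.zero]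
  have hi : Function.Injective i := fun a b h => congrArg Ex.a h
  obtain ⟨r, hr⟩ := (Module.Baer.of_divisible ℝ).extension_property_addMonoidHom i hi
    (AddMonoidHom.id ℝ)
  refine ⟨fun x => - r ⟨x, 0⟩, fun x y => ?_⟩
  have h1 : (⟨x, 0⟩ + ⟨y, 0⟩ : Ex C) = ⟨x + y, 0⟩ + i (C.c x y) := by
    show _ = (⟨x + y, 0⟩ + ⟨0, C.c x y⟩ : Ex C)
    simp [add_def, C.symm (x + y) 0, C.zero]
  have h2 := congrArg r h1
  have h3 : r (i (C.c x y)) = C.c x y := DFunLike.congr_fun hr _
  rw [map_add, map_add, h3] at h2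
  linarith

theorem add_bdd (A : G → ℝ) (hA : ∀ x y, A (x + y) = A x + A y) (hb : Bd A) (x : G) : A x = 0 := by
  obtain ⟨C, hC⟩ := hb
  let A' : G →+ ℝ := AddMonoidHom.mk' A hA
  by_contra h
  obtain ⟨n, hn⟩ := exists_nat_gt (C / |A x|)
  have h1 := hC (n • x)
  have h2 : A (n • x) = n * A x := by
    have := map_nsmul A' n x
    rwa [nsmul_eq_mul] at this
  rw [h2, abs_mul, Nat.abs_cast] at h1
  rw [div_lt_iff₀ (abs_pos.2 h)] at hn
  linarith

theorem cocycle (c : G → G → ℝ) (η : ℝ) (hs : ∀ x y, c x y = c y x)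
    (h : ∀ x y z, |c y z - c (x + y) z + c x (y + z) - c x y| ≤ η) :
    ∃ φ : G → ℝ, ∀ x y, |c x y - (φ (x + y) - φ x - φ y)| ≤ η := by
  obtain ⟨M, h1, h2, h3, h4, h5⟩ := exists_mean G
  let d : G → G → G → ℝ := fun x y z => c y z - c (x + y) z + c x (y + z) - c x y
  have hb : ∀ x y, Bd (d x y) := fun x y => ⟨η, h x y⟩
  let c' : G → G → ℝ := fun x y => c x y + M (d x y)
  have hc : ∀ x y z, c' (x + y) z + c' x y = c' x (y + z) + c' y z := by
    intro x y z
    have hb' : Bd fun w => d x y (z + w) := ⟨η, fun w => h _ _ _⟩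
    have e1 := h1 _ _ (hb (x + y) z) hb'
    have e2 := h1 _ _ (hb x (y + z)) (hb y z)
    have e3 := h1 (fun w => d x (y + z) w + d y z w) (fun _ => d x y z)
      ((BdS G).add_mem (hb _ _) (hb _ _)) ⟨_, fun _ => le_rfl⟩
    have e4 : (fun w => d (x + y) z w + d x y (z + w)) =
        fun w => d x (y + z) w + d y z w + d x y z := by
      funext w; simp only [d, add_assoc]; ring
    rw [h5 _ z (hb x y), e4, e3, e2, h4] at e1
    simp only [c', d] at e1 ⊢
    linarith
  have hsym : ∀ x y, c' x y = c' y x := by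
    intro x y
    have := add_bdd (fun x => c' x y - c' y x) (fun u v => by
      have a1 := hc u v y
      have a2 := hc u y v
      have a3 := hc y u v
      rw [add_comm y v] at a2
      rw [add_comm y u] at a3
      linarith) ⟨2 * η, fun x => by
        have a1 := abs_le.1 (h3 (d x y) _ (h x y))
        have a2 := abs_le.1 (h3 (d y x) _ (h y x))
        simp only [c', hs x y]
        rw [abs_le]
        constructor <;> linarith [a1.1, a1.2, a2.1, a2.2]⟩ x
    linarith
  obtain ⟨φ, hφ⟩ := Coc.cob ⟨fun x y => c' x y - c' 0 0, fun x y => by rw [hsym],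
    fun x y z => by linarith [hc x y z], fun x => by
      have := hc 0 0 x
      simp only [add_zero, zero_add] at this
      linarith⟩
  refine ⟨fun x => φ x - c' 0 0, fun x y => ?_⟩
  have a1 := hφ x y
  have a2 := h3 (d x y) _ (h x y)
  have : c x y - (φ (x + y) - c' 0 0 - (φ x - c' 0 0) - (φ y - c' 0 0)) = - M (d x y) := by
    simp only [c'] at a1 ⊢
    linarith
  rw [this, abs_neg]
  exact a2

end Pool.Agent.H91.Mean
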