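import Mathlib
import Pool.Agent.H91.Mean

set_option autoImplicit false

namespace Pool.Agent.H91.JN

open Set Filter Topology Pool.Agent.H91.Mean

theorem cluster {𝕜 : Type} [RCLike 𝕜] {E : Type} [NormedAddCommGroup E] [NormedSpace 𝕜 E]
    (h : ℕ → StrongDual 𝕜 E) (C : ℝ) (hC : ∀ n, ‖h n‖ ≤ C) :
    ∃ (U : Ultrafilter ℕ) (φ : StrongDual 𝕜 E), (U : Filter ℕ) ≤ atTop ∧ ‖φ‖ ≤ C ∧
      ∀ x, Tendsto (fun n => h n x) U (𝓝 (φ x)) := by
  let U : Ultrafilter ℕ := Ultrafilter.of atTop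
  have hb : ∀ n x, ‖h n x‖ ≤ C * ‖x‖ := fun n x => (h n).le_of_opNorm_le (hC n) x
  have : ∀ x, ∃ a, Tendsto (fun n => h n x) U (𝓝 a) := by
    intro x
    obtain ⟨a, -, ha⟩ := (isCompact_closedBall (0 : 𝕜) (C * ‖x‖)).ultrafilter_le_nhds
      (U.map fun n => h n x) (le_principal_iff.2 (mem_map.2 (univ_mem' fun n => by
        simpa using hb n x)))
    exact ⟨a, ha⟩
  choose f hf using this
  refine ⟨U, ContinuousLinearMap.ofTendstoOfBoundedRange f h (l := U) (tendsto_pi_nhds.2 hf)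
    (isBounded_iff_forall_norm_le.2 ⟨C, by rintro _ ⟨n, rfl⟩; exact hC n⟩),
    Ultrafilter.of_le _, ?_, hf⟩
  exact ContinuousLinearMap.opNorm_le_bound _ ((norm_nonneg _).trans (hC 0)) fun x =>
    le_of_tendsto' (hf x).norm fun n => hb n x

theorem lin_mean (G : Type) [AddCommGroup G] : ∃ M : (G → ℝ) →ₗ[ℝ] ℝ,
    (∀ f C, (∀ x, |f x| ≤ C) → |M f| ≤ C) ∧ (∀ c, M (fun _ => c) = c) ∧
    ∀ f g, Bd f → M (fun x => f (g + x)) = M f := by
  obtain ⟨M, h1, -, h3, h4, h5⟩ := exists_mean G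
  let A : BdS G →+ ℝ := AddMonoidHom.mk' (fun f => M f.1) fun f g => h1 _ _ f.2 g.2
  have hs : ∀ (c : ℝ) (f : BdS G), A (c • f) = c * A f := by
    intro c f
    obtain ⟨C, hC⟩ := f.2
    let B : ℝ →+ ℝ := AddMonoidHom.mk' (fun t => A (t • f)) fun s t => by
      simp only [add_smul, map_add]
    have hB : Continuous B := AddMonoidHomClass.continuous_of_bound B C fun t =>
      h3 _ _ fun x => by
        show |t * f.1 x| ≤ C * ‖t‖
        rw [abs_mul, mul_comm]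
        exact mul_le_mul_of_nonneg_right (hC x) (abs_nonneg _)
    have := map_real_smul B hB c 1
    simpa [B] using this
  obtain ⟨M', hM'⟩ := LinearMap.exists_extend (p := BdS G)
    ({ toFun := A, map_add' := A.map_add, map_smul' := hs } : BdS G →ₗ[ℝ] ℝ)
  have e : ∀ f, Bd f → M' f = M f := fun f hf => DFunLike.congr_fun hM' ⟨f, hf⟩
  refine ⟨M', fun f C h => ?_, fun c => ?_, fun f g hf => ?_⟩
  · rw [e f ⟨C, h⟩]; exact h3 f C h
  · rw [e _ ⟨|c|, fun _ => le_rfl⟩]; exact h4 c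
  · rw [e f hf, e _ (by obtain ⟨C, hC⟩ := hf; exact ⟨C, fun x => hC _⟩), h5 f g hf]

variable {E : Type} [NormedAddCommGroup E] [NormedSpace ℝ E]

def Has (E : Type) [NormedAddCommGroup E] [NormedSpace ℝ E] : Prop :=
  ∃ (c : ℝ) (g : ℕ → StrongDual ℝ E), 0 < c ∧ (∀ n, c ≤ ‖g n‖) ∧
    ∀ x, Tendsto (fun n => g n x) atTop (𝓝 0)

def sg (k : ℕ) (γ : ℕ → ZMod 2) : ℝ := if γ k = 0 then 1 else -1

theorem sg_abs (k : ℕ) (γ : ℕ → ZMod 2) : |sg k γ| = 1 := by
  unfold sg; split_ifs <;> simp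

theorem sg_flip (k : ℕ) (γ : ℕ → ZMod 2) : sg k (Pi.single k 1 + γ) = - sg k γ := by
  have : ∀ a : ZMod 2, (1 + a = 0 ↔ ¬ a = 0) := by decide
  unfold sg
  simp only [Pi.add_apply, Pi.single_eq_same, this]
  split_ifs <;> simp_all

theorem sg_fix (k l : ℕ) (h : l ≠ k) (γ : ℕ → ZMod 2) : sg l (Pi.single k 1 + γ) = sg l γ := by
  unfold sg
  simp [Pi.single_eq_of_ne h]

theorem has_of_tree (φ : (ℕ → ZMod 2) → StrongDual ℝ E) (C δ : ℝ) (δ0 : 0 < δ)
    (hC : ∀ γ, ‖φ γ‖ ≤ C) (x : ℕ → E) (a : ℕ → ℝ) (hx : ∀ k, ‖x k‖ ≤ 1)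
    (h : ∀ k γ, δ ≤ sg k γ * (φ γ (x k) - a k)) : Has E := by
  obtain ⟨M, h1, h2, h3⟩ := lin_mean (ℕ → ZMod 2)
  have mono : ∀ f g, Bd f → Bd g → (∀ γ, f γ ≤ g γ) → M f ≤ M g := by
    intro f g hf hg hfg
    obtain ⟨D, hD⟩ : Bd (g - f) := (BdS _).sub_mem hg hf
    have := h1 (fun γ => (g - f) γ - D / 2) (D / 2) fun γ => by
      have a1 := abs_le.1 (hD γ)
      have a2 := hfg γ
      simp only [Pi.sub_apply] at a1 ⊢
      rw [abs_le]; constructor <;> linarith [a1.2]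
    have e : (fun γ => (g - f) γ - D / 2) = g - f - fun _ => D / 2 := rfl
    rw [e, map_sub, map_sub, h2, abs_le] at this
    linarith [this.1]
  have hb : ∀ γ y, |φ γ y| ≤ C * ‖y‖ := fun γ y => (φ γ).le_of_opNorm_le (hC γ) y
  have C0 : 0 ≤ C := (norm_nonneg _).trans (hC 0)
  have orth : ∀ k l, M (sg k * sg l) = if k = l then 1 else 0 := by
    intro k l
    split_ifs with hkl
    · rw [← h2 1]
      congr 1
      funext γ
      rw [hkl, Pi.mul_apply, ← abs_mul_abs_self, sg_abs, one_mul]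
    · have := h3 (sg k * sg l) (Pi.single k 1) ⟨1, fun γ => by simp [abs_mul, sg_abs]⟩
      have e : (fun γ => (sg k * sg l) (Pi.single k 1 + γ)) = -(sg k * sg l) := by
        funext γ
        simp [sg_flip, sg_fix k l (Ne.symm hkl)]
      rw [e, map_neg] at this
      linarith
  have zero : ∀ k, M (sg k) = 0 := by
    intro k
    have := h3 (sg k) (Pi.single k 1) ⟨1, fun γ => by simp [sg_abs]⟩
    have e : (fun γ => sg k (Pi.single k 1 + γ)) = -(sg k) := by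
      funext γ
      simp [sg_flip]
    rw [e, map_neg] at this
    linarith
  let F : ℕ → StrongDual ℝ E := fun k => LinearMap.mkContinuous
    { toFun := fun y => M (sg k * fun γ => φ γ y)
      map_add' := fun y z => by
        rw [← map_add]; congr 1; funext γ; simp [mul_add]
      map_smul' := fun c y => by
        rw [← map_smul]; congr 1; funext γ; simp; ring } C
    fun y => h1 _ _ fun γ => by simpa [abs_mul, sg_abs] using hb γ y
  have hF : ∀ k y, F k y = M (sg k * fun γ => φ γ y) := fun k y => rfl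
  refine ⟨δ, F, δ0, fun k => ?_, fun y => ?_⟩
  · have h4 := mono (fun _ => δ) ((sg k * fun γ => φ γ (x k)) - a k • sg k) ⟨|δ|, fun _ => le_rfl⟩
      ((BdS _).sub_mem ⟨C * ‖x k‖, fun γ => by simpa [abs_mul, sg_abs] using hb γ _⟩
        ((BdS _).smul_mem _ ⟨1, fun γ => by simp [sg_abs]⟩)) fun γ => by
          have := h k γ
          simp only [Pi.sub_apply, Pi.mul_apply, Pi.smul_apply, smul_eq_mul]
          linarith
    rw [h2, map_sub, map_smul, zero, smul_zero, sub_zero, ← hF] at h4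
    exact h4.trans ((le_abs_self _).trans (((F k).le_opNorm _).trans
      (mul_le_of_le_one_right (norm_nonneg _) (hx k))))
  · have hs : Summable fun k => F k y ^ 2 := by
      refine summable_of_sum_range_le (c := (C * ‖y‖) ^ 2) (fun _ => sq_nonneg _) fun n => ?_
      let s : (ℕ → ZMod 2) → ℝ := ∑ k ∈ Finset.range n, F k y • sg k
      have hsb : ∀ γ, |s γ| ≤ ∑ k ∈ Finset.range n, |F k y| := fun γ => by
        simp only [s, Finset.sum_apply, Pi.smul_apply, smul_eq_mul]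
        refine (Finset.abs_sum_le_sum_abs _ _).trans (le_of_eq ?_)
        simp [abs_mul, sg_abs]
      have b1 : Bd (s * fun γ => φ γ y) := ⟨_, fun γ => by
        rw [Pi.mul_apply, abs_mul]
        exact mul_le_mul (hsb γ) (hb γ y) (abs_nonneg _) ((abs_nonneg _).trans (hsb γ))⟩
      have b2 : Bd (s * s) := ⟨_, fun γ => by
        rw [Pi.mul_apply, abs_mul]
        exact mul_le_mul (hsb γ) (hsb γ) (abs_nonneg _) ((abs_nonneg _).trans (hsb γ))⟩
      have h4 := mono ((2 : ℝ) • (s * fun γ => φ γ y) - s * s) (fun _ => (C * ‖y‖) ^ 2)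
        ((BdS _).sub_mem ((BdS _).smul_mem _ b1) b2) ⟨_, fun _ => le_rfl⟩ fun γ => by
          have a1 := sq_le_sq' (abs_le.1 (hb γ y)).1 (abs_le.1 (hb γ y)).2
          simp only [Pi.sub_apply, Pi.mul_apply, Pi.smul_apply, smul_eq_mul]
          nlinarith [sq_nonneg (s γ - φ γ y)]
      have e1 : M (s * fun γ => φ γ y) = ∑ k ∈ Finset.range n, F k y ^ 2 := by
        simp only [s, Finset.sum_mul, map_sum, smul_mul_assoc, map_smul, ← hF, smul_eq_mul, sq]
      have e2 : M (s * s) = ∑ k ∈ Finset.range n, F k y ^ 2 := by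
        simp only [s, Finset.sum_mul, Finset.mul_sum, map_sum, smul_mul_assoc, mul_smul_comm,
          map_smul, orth, smul_eq_mul, sq]
        refine Finset.sum_congr rfl fun k hk => ?_
        simp [Finset.mem_range.1 hk]
      rw [h2, map_sub, map_smul, e1, e2, smul_eq_mul] at h4
      linarith
    have := (Real.continuous_sqrt.tendsto 0).comp hs.tendsto_atTop_zero
    rw [tendsto_zero_iff_abs_tendsto_zero]
    simpa [Function.comp_def, Real.sqrt_sq_eq_abs] using this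

def Blk (g f : ℕ → StrongDual ℝ E) : Prop := ∀ k, g k ∈ convexHull ℝ (f '' Ici k)

theorem hull_mono (f : ℕ → StrongDual ℝ E) {k l : ℕ} (h : k ≤ l) :
    convexHull ℝ (f '' Ici l) ⊆ convexHull ℝ (f '' Ici k) :=
  convexHull_mono (image_mono (Ici_subset_Ici.2 h))

theorem Blk.sub {g f : ℕ → StrongDual ℝ E} (h : Blk g f) (k : ℕ) :
    convexHull ℝ (g '' Ici k) ⊆ convexHull ℝ (f '' Ici k) :=
  convexHull_min (by rintro _ ⟨n, hn, rfl⟩; exact hull_mono f hn (h n)) (convex_convexHull _ _)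

theorem Blk.trans {e g f : ℕ → StrongDual ℝ E} (h : Blk e g) (h' : Blk g f) : Blk e f :=
  fun k => h'.sub k (h k)

theorem Blk.refl (f : ℕ → StrongDual ℝ E) : Blk f f := fun k =>
  subset_convexHull _ _ ⟨k, le_refl k, rfl⟩

theorem hull_eval (f : ℕ → StrongDual ℝ E) (k : ℕ) (x : E) (s : Set ℝ) (hs : Convex ℝ s)
    (h : ∀ n ≥ k, f n x ∈ s) (g : StrongDual ℝ E) (hg : g ∈ convexHull ℝ (f '' Ici k)) :
    g x ∈ s :=
  convexHull_min (t := (ContinuousLinearMap.apply ℝ ℝ x) ⁻¹' s)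
    (by rintro _ ⟨n, hn, rfl⟩; exact h n hn)
    (hs.linear_preimage (ContinuousLinearMap.apply ℝ ℝ x).toLinearMap) hg

theorem Blk.norm {g f : ℕ → StrongDual ℝ E} (h : Blk g f) (C : ℝ) (hC : ∀ n, ‖f n‖ ≤ C) (k : ℕ) :
    ‖g k‖ ≤ C := by
  have := convexHull_min (t := Metric.closedBall (0 : StrongDual ℝ E) C)
    (by rintro _ ⟨n, -, rfl⟩; simpa using hC n) (convex_closedBall _ _) (h k)
  simpa using this

theorem Blk.tendsto {g f : ℕ → StrongDual ℝ E} (h : Blk g f) (x : E) (u : ℝ)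
    (hu : Tendsto (fun n => f n x) atTop (𝓝 u)) : Tendsto (fun n => g n x) atTop (𝓝 u) := by
  rw [Metric.tendsto_atTop] at hu ⊢
  intro ε hε
  obtain ⟨N, hN⟩ := hu ε hε
  exact ⟨N, fun n hn => hull_eval f N x (Metric.ball u ε) (convex_ball _ _) hN _
    (hull_mono f hn (h n))⟩

def Osc (g : ℕ → StrongDual ℝ E) (r : ℝ) : Prop :=
  ∀ x : E, ‖x‖ ≤ 1 → ∃ N lo, ∀ n ≥ N, g n x ∈ Icc lo (lo + r)

theorem Osc.ev {g f : ℕ → StrongDual ℝ E} {r : ℝ} (h : Osc f r) (j : ℕ)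
    (hb : ∀ k ≥ j, g k ∈ convexHull ℝ (f '' Ici k)) : Osc g r := by
  intro x hx
  obtain ⟨N, lo, hN⟩ := h x hx
  exact ⟨max N j, lo, fun n hn => hull_eval f N x _ (convex_Icc _ _) hN _
    (hull_mono f ((le_max_left _ _).trans hn) (hb n ((le_max_right _ _).trans hn)))⟩

theorem Osc.mono {f : ℕ → StrongDual ℝ E} {r s : ℝ} (h : Osc f r) (hrs : r ≤ s) : Osc f s := by
  intro x hx
  obtain ⟨N, lo, hN⟩ := h x hx
  exact ⟨N, lo, fun n hn => Icc_subset_Icc le_rfl (by linarith) (hN n hn)⟩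

theorem Osc.nonneg {f : ℕ → StrongDual ℝ E} {r : ℝ} (h : Osc f r) : 0 ≤ r := by
  obtain ⟨N, lo, hN⟩ := h 0 (by simp)
  have := hN N le_rfl
  linarith [this.1, this.2]

theorem stab (f : ℕ → StrongDual ℝ E) (C : ℝ) (hC : ∀ n, ‖f n‖ ≤ C) :
    ∃ d r, Blk d f ∧ (∀ s > r, Osc d s) ∧ ∀ e s, Blk e d → Osc e s → r ≤ s := by
  have o0 : Osc f (2 * C) := fun x hx => ⟨0, -C, fun n _ => by
    have := abs_le.1 (((f n).le_of_opNorm_le (hC n) x).trans
      (mul_le_of_le_one_right ((norm_nonneg _).trans (hC 0)) hx))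
    exact ⟨this.1, by linarith [this.2]⟩⟩
  have hs : ∀ (j : ℕ) (g : {g // Blk g f}), ∃ g' : {g // Blk g f}, Blk g'.1 g.1 ∧
      ∀ e s, Blk e g.1 → Osc e s → Osc g'.1 (s + 1 / (j + 1)) := by
    intro j g
    let S : Set ℝ := {s | ∃ e, Blk e g.1 ∧ Osc e s}
    have hne : S.Nonempty := ⟨2 * C, g.1, Blk.refl _, o0.ev 0 fun k _ => g.2 k⟩
    have hbd : BddBelow S := ⟨0, by rintro s ⟨e, -, he⟩; exact he.nonneg⟩
    obtain ⟨s, ⟨e, he, hes⟩, hs⟩ := exists_lt_of_csInf_lt hne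
      (lt_add_of_pos_right (sInf S) (by positivity : (0 : ℝ) < 1 / (j + 1)))
    exact ⟨⟨e, he.trans g.2⟩, he, fun e' s' h1 h2 => hes.mono (by
      have := csInf_le hbd (show s' ∈ S from ⟨e', h1, h2⟩)
      linarith)⟩
  choose nx h1 h2 using hs
  let g : ℕ → {g // Blk g f} := fun n => Nat.rec ⟨f, Blk.refl f⟩ nx n
  have hg : ∀ j k, j ≤ k → Blk (g k).1 (g j).1 := by
    intro j k hjk
    induction k, hjk using Nat.le_induction with
    | base => exact Blk.refl _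
    | succ k _ ih => exact (h1 k (g k)).trans ih
  let d : ℕ → StrongDual ℝ E := fun k => (g k).1 k
  have hd : Blk d f := fun k => (g k).2 k
  have key : ∀ e s, Blk e d → Osc e s → ∀ s' > s, Osc d s' := by
    intro e s he hs s' hs'
    obtain ⟨j, hj⟩ := exists_nat_one_div_lt (sub_pos.2 hs')
    have b1 : Blk (fun k => e (k + j)) (g j).1 := fun k =>
      convexHull_min (by
        rintro _ ⟨n, hn, rfl⟩
        have hn' : k + j ≤ n := hn
        exact hull_mono _ (by omega) (hg j n (by omega) n)) (convex_convexHull _ _) (he (k + j))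
    have b2 : Osc (fun k => e (k + j)) s := fun x hx => by
      obtain ⟨N, lo, hN⟩ := hs x hx
      exact ⟨N, lo, fun n hn => hN _ (by omega)⟩
    exact ((h2 j (g j) _ s b1 b2).ev (j + 1) fun k hk => hg (j + 1) k hk k).mono (by linarith)
  let S : Set ℝ := {s | Osc d s}
  have hne : S.Nonempty := ⟨2 * C, o0.ev 0 fun k _ => hd k⟩
  have hbd : BddBelow S := ⟨0, fun s hs => Osc.nonneg hs⟩
  refine ⟨d, sInf S, hd, fun s hs => ?_, fun e s he hs => ?_⟩
  · obtain ⟨s', h1, h2⟩ := exists_lt_of_csInf_lt hne hs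
    exact Osc.mono h1 h2.le
  · exact le_of_forall_gt_imp_ge_of_dense fun s' hs' => csInf_le hbd (key e s he hs s' hs')

theorem level (d : ℕ → StrongDual ℝ E) (r : ℝ) (r0 : 0 < r) (h1 : ∀ s > r, Osc d s)
    (h2 : ∀ e s, Blk e d → Osc e s → r ≤ s) (𝓜 : Set (Set ℕ)) (hf : 𝓜.Finite) (hne : 𝓜.Nonempty)
    (hi : ∀ M ∈ 𝓜, M.Infinite) : ∃ (x : E) (a : ℝ), ‖x‖ ≤ 1 ∧ ∀ M ∈ 𝓜,
      (M ∩ {n | r / 6 ≤ d n x - a}).Infinite ∧ (M ∩ {n | r / 6 ≤ -(d n x - a)}).Infinite := by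
  classical
  have hm : ∀ (M : Set ℕ) (k : ℕ), ∃ n, M ∈ 𝓜 → n ∈ M ∧ k ≤ n := by
    intro M k
    by_cases hM : M ∈ 𝓜
    · obtain ⟨n, hn, hk⟩ := (hi M hM).exists_gt k
      exact ⟨n, fun _ => ⟨hn, hk.le⟩⟩
    · exact ⟨0, fun h => absurd h hM⟩
  choose m hm using hm
  set s := hf.toFinset with hs
  have hsm : ∀ M, M ∈ s ↔ M ∈ 𝓜 := fun M => hf.mem_toFinset
  have N0 : (1 : ℝ) ≤ s.card := by
    exact_mod_cast Finset.card_pos.2 (hf.toFinset_nonempty.2 hne)
  set N : ℝ := (s.card : ℝ) with hN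
  set ε := r / (12 * N) with hε
  have ε0 : 0 < ε := by positivity
  have ε1 : N * ε = r / 12 := by rw [hε]; field_simp
  have ε2 : ε ≤ r / 12 := by nlinarith
  let G : ℕ → StrongDual ℝ E := fun k => ∑ M ∈ s, N⁻¹ • d (m M k)
  have hG : Blk G d := fun k => (convex_convexHull ℝ _).sum_mem (fun _ _ => by positivity)
    (by rw [Finset.sum_const, nsmul_eq_mul, ← hN]; field_simp)
    fun M hM => subset_convexHull _ _ ⟨_, (hm M k ((hsm M).1 hM)).2, rfl⟩
  have hGx : ∀ k x, N * G k x = ∑ M ∈ s, d (m M k) x := by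
    intro k x
    simp only [G, _root_.sum_apply, _root_.smul_apply, smul_eq_mul,
      ← Finset.mul_sum]
    field_simp
  obtain ⟨x, hx, hno⟩ : ∃ x : E, ‖x‖ ≤ 1 ∧ ∀ K lo, ∃ n ≥ K, G n x ∉ Icc lo (lo + (r - ε)) := by
    by_contra hh
    push Not at hh
    have := h2 G (r - ε) hG hh
    linarith
  obtain ⟨K0, lo, hK⟩ := h1 (r + ε) (by linarith) x hx
  have hin : ∀ k ≥ K0, ∀ M ∈ s, d (m M k) x ∈ Icc lo (lo + (r + ε)) := fun k hk M hM =>
    hK _ (le_trans hk (hm M k ((hsm M).1 hM)).2)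
  have hGin : ∀ k ≥ K0, G k x ∈ Icc lo (lo + (r + ε)) := fun k hk =>
    hull_eval d K0 x _ (convex_Icc _ _) hK _ (hull_mono d hk (hG k))
  refine ⟨x, lo + r / 2, hx, fun M hM => ⟨?_, ?_⟩⟩
  · refine Set.infinite_of_forall_exists_gt fun K => ?_
    obtain ⟨k, hk, hk'⟩ := hno (max K0 (K + 1)) lo
    have k0 : K0 ≤ k := (le_max_left _ _).trans hk
    have k1 : K + 1 ≤ k := (le_max_right _ _).trans hk
    have a1 : lo + (r - ε) < G k x := by
      by_contra h
      exact hk' ⟨(hGin k k0).1, not_lt.1 h⟩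
    refine ⟨m M k, ⟨(hm M k hM).1, ?_⟩, lt_of_lt_of_le k1 (hm M k hM).2⟩
    have a2 := Finset.single_le_sum (f := fun M => lo + (r + ε) - d (m M k) x)
      (fun M hM => sub_nonneg.2 (hin k k0 M hM).2) ((hsm M).2 hM)
    rw [Finset.sum_sub_distrib, ← hGx, Finset.sum_const, nsmul_eq_mul, ← hN] at a2
    have a3 := mul_lt_mul_of_pos_left a1 (by linarith : 0 < N)
    show r / 6 ≤ _
    nlinarith
  · refine Set.infinite_of_forall_exists_gt fun K => ?_
    obtain ⟨k, hk, hk'⟩ := hno (max K0 (K + 1)) (lo + 2 * ε)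
    have k0 : K0 ≤ k := (le_max_left _ _).trans hk
    have k1 : K + 1 ≤ k := (le_max_right _ _).trans hk
    have a1 : G k x < lo + 2 * ε := by
      by_contra h
      exact hk' ⟨not_lt.1 h, by linarith [(hGin k k0).2]⟩
    refine ⟨m M k, ⟨(hm M k hM).1, ?_⟩, lt_of_lt_of_le k1 (hm M k hM).2⟩
    have a2 := Finset.single_le_sum (f := fun M => d (m M k) x - lo)
      (fun M hM => sub_nonneg.2 (hin k k0 M hM).1) ((hsm M).2 hM)
    rw [Finset.sum_sub_distrib, ← hGx, Finset.sum_const, nsmul_eq_mul, ← hN] at a2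
    have a3 := mul_lt_mul_of_pos_left a1 (by linarith : 0 < N)
    show r / 6 ≤ _
    nlinarith

theorem tree (d : ℕ → StrongDual ℝ E) (C : ℝ) (hC : ∀ n, ‖d n‖ ≤ C) (r : ℝ) (r0 : 0 < r)
    (h1 : ∀ s > r, Osc d s) (h2 : ∀ e s, Blk e d → Osc e s → r ≤ s) : Has E := by
  let S := {s : (ℕ → ZMod 2) → Set ℕ // (range s).Finite ∧ ∀ γ, (s γ).Infinite}
  have hs : ∀ (k : ℕ) (s : S), ∃ (s' : S) (x : E) (a : ℝ), ‖x‖ ≤ 1 ∧
      ∀ γ, s'.1 γ = s.1 γ ∩ {n | r / 6 ≤ sg k γ * (d n x - a)} := by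
    intro k s
    obtain ⟨x, a, hx, h⟩ := level d r r0 h1 h2 _ s.2.1 (range_nonempty _)
      (by rintro _ ⟨γ, rfl⟩; exact s.2.2 γ)
    refine ⟨⟨fun γ => s.1 γ ∩ {n | r / 6 ≤ sg k γ * (d n x - a)}, ?_, fun γ => ?_⟩, x, a, hx,
      fun γ => rfl⟩
    · refine ((s.2.1.image (· ∩ {n | r / 6 ≤ 1 * (d n x - a)})).union
        (s.2.1.image (· ∩ {n | r / 6 ≤ -1 * (d n x - a)}))).subset ?_
      rintro _ ⟨γ, rfl⟩
      by_cases hγ : γ k = 0
      · exact Or.inl ⟨_, ⟨γ, rfl⟩, by simp only [sg, if_pos hγ]⟩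
      · exact Or.inr ⟨_, ⟨γ, rfl⟩, by simp only [sg, if_neg hγ]⟩
    · by_cases hγ : γ k = 0
      · simpa only [sg, if_pos hγ, one_mul] using (h _ ⟨γ, rfl⟩).1
      · simpa only [sg, if_neg hγ, neg_one_mul] using (h _ ⟨γ, rfl⟩).2
  choose nx x a hx h using hs
  let s : ℕ → S := fun n => Nat.rec ⟨fun _ => univ, by simp, fun _ => infinite_univ⟩ nx n
  have hanti : ∀ γ, Antitone fun n => (s n).1 γ := fun γ => antitone_nat_of_succ_le fun n => by
    show (nx n (s n)).1 γ ⊆ _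
    rw [h]; exact inter_subset_left
  have : ∀ γ, ∃ φ : StrongDual ℝ E, ‖φ‖ ≤ C ∧
      ∀ k, r / 6 ≤ sg k γ * (φ (x k (s k)) - a k (s k)) := by
    intro γ
    choose n hn using fun k => ((s k).2.2 γ).nonempty
    obtain ⟨U, φ, hU, h3, h4⟩ := cluster (fun k => d (n k)) C fun k => hC _
    refine ⟨φ, h3, fun k => ge_of_tendsto (((h4 _).sub_const _).const_mul _) (hU ?_)⟩
    filter_upwards [eventually_ge_atTop (k + 1)] with l hl
    have h5 : n l ∈ (nx k (s k)).1 γ := hanti γ hl (hn l)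
    rw [h] at h5
    exact h5.2
  choose φ hφ hφ' using this
  exact has_of_tree φ C (r / 6) (by linarith) hφ _ _ (fun k => hx k (s k)) fun k γ => hφ' γ k

theorem blk_conv (hn : ¬ Has E) (f : ℕ → StrongDual ℝ E) (C : ℝ) (hC : ∀ n, ‖f n‖ ≤ C) :
    ∃ d h, Blk d f ∧ Tendsto d atTop (𝓝 h) := by
  obtain ⟨d, r, hd, h1, h2⟩ := stab f C hC
  have hC' := hd.norm C hC
  have hr : r ≤ 0 := by
    by_contra h
    exact hn (tree d C hC' r (not_le.1 h) h1 h2)
  obtain ⟨U, φ, hU, -, h4⟩ := cluster d C hC'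
  have h5 : ∀ x : E, ‖x‖ ≤ 1 → Tendsto (fun n => d n x) atTop (𝓝 (φ x)) := by
    intro x hx
    rw [Metric.tendsto_atTop]
    intro ε hε
    obtain ⟨N, lo, hN⟩ := h1 (ε / 2) (by linarith) x hx
    have : φ x ∈ Icc lo (lo + ε / 2) :=
      isClosed_Icc.mem_of_tendsto (h4 x) (hU (eventually_atTop.2 ⟨N, hN⟩))
    refine ⟨N, fun n hn => ?_⟩
    have a1 := hN n hn
    rw [Real.dist_eq, abs_lt]
    constructor <;> linarith [a1.1, a1.2, this.1, this.2]
  have h6 : ∀ x : E, Tendsto (fun n => (d n - φ) x) atTop (𝓝 0) := by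
    intro x
    have a0 : 0 < ‖x‖ + 1 := by positivity
    have := ((h5 ((‖x‖ + 1)⁻¹ • x) (by
      rw [norm_smul, norm_inv, Real.norm_of_nonneg a0.le, inv_mul_le_iff₀ a0]
      linarith)).const_mul (‖x‖ + 1)).sub_const (φ x)
    simpa [← mul_assoc, mul_inv_cancel₀ a0.ne'] using this
  refine ⟨d, φ, hd, ?_⟩
  by_contra hh
  rw [Metric.tendsto_atTop] at hh
  push Not at hh
  obtain ⟨c, c0, hc⟩ := hh
  obtain ⟨u, hu, hu'⟩ := extraction_of_frequently_atTop (frequently_atTop.2 hc)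
  exact hn ⟨c, fun n => d (u n) - φ, c0, fun n => by simpa [dist_eq_norm] using hu' n,
    fun x => (h6 x).comp hu.tendsto_atTop⟩

theorem jn (hE : ¬ FiniteDimensional ℝ E) : Has E := by
  by_contra hn
  have hE' : ¬ FiniteDimensional ℝ (StrongDual ℝ E) := fun h =>
    hE (Module.Finite.of_injective (NormedSpace.inclusionInDoubleDualLi ℝ (E := E)).toLinearMap
      (NormedSpace.inclusionInDoubleDualLi ℝ (E := E)).injective)
  obtain ⟨C, f, -, hC, hf⟩ := exists_seq_norm_le_one_le_norm_sub hE'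
  let Φ : E → ℕ → ℝ := fun x n => f n x
  obtain ⟨t, ht, htc, htd⟩ := (TopologicalSpace.IsSeparable.of_separableSpace
    (Φ '' Metric.closedBall 0 1)).exists_countable_dense_subset
  obtain ⟨D, hD, hDc, rfl⟩ : ∃ D ⊆ Metric.closedBall (0 : E) 1, D.Countable ∧ Φ '' D = t := by
    choose! y hy using ht
    exact ⟨y '' t, by rintro _ ⟨z, hz, rfl⟩; exact (hy hz).1, htc.image _, by
      rw [image_image]; exact (image_congr fun z hz => (hy hz).2).trans (image_id _)⟩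
  have hb : ∀ n (x : E), ‖x‖ ≤ 1 → f n x ∈ Icc (-C) C := fun n x hx =>
    abs_le.1 (((f n).le_of_opNorm_le (hC n) x).trans
      (mul_le_of_le_one_right ((norm_nonneg _).trans (hC 0)) hx))
  have := hDc.to_subtype
  obtain ⟨ℓ, -, u, hu, hℓ⟩ := (isCompact_univ_pi fun _ : D => isCompact_Icc (a := -C) (b := C)).tendsto_subseq
    (x := fun n (z : D) => f n z) fun n z _ => hb n z (by simpa using hD z.2)
  have hℓ' : ∀ z : D, Tendsto (fun n => f (u n) z) atTop (𝓝 (ℓ z)) := tendsto_pi_nhds.1 hℓ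
  have conv : ∀ y : E, ‖y‖ ≤ 1 → ∃ w, Tendsto (fun n => f (u n) y) atTop (𝓝 w) := by
    intro y hy
    obtain ⟨z, hz, hzy⟩ := mem_closure_iff_seq_limit.1 (htd ⟨y, by simpa using hy, rfl⟩)
    choose z' hz' hz'' using hz
    have key : ∀ (v : ℕ → ℕ) (w : ℝ), StrictMono v →
        Tendsto (fun n => f (u (v n)) y) atTop (𝓝 w) →
        Tendsto (fun j => ℓ ⟨z' j, hz' j⟩) atTop (𝓝 w) := by
      intro v w hv hw
      obtain ⟨d, h, hd, hdh⟩ := blk_conv hn (fun n => f (u (v n))) C fun n => hC _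
      have ev : ∀ x, Tendsto (fun n => d n x) atTop (𝓝 (h x)) := fun x =>
        ((ContinuousLinearMap.apply ℝ ℝ x).continuous.tendsto h).comp hdh
      rw [← tendsto_nhds_unique (ev y) (hd.tendsto y w hw)]
      have e : ∀ j, ℓ ⟨z' j, hz' j⟩ = h (z' j) := fun j =>
        tendsto_nhds_unique (hd.tendsto _ _ ((hℓ' ⟨z' j, hz' j⟩).comp hv.tendsto_atTop)) (ev _)
      simp only [e]
      let W : Submodule ℝ (StrongDual ℝ E) :=
        { carrier := {g | Tendsto (fun j => g (z' j)) atTop (𝓝 (g y))}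
          add_mem' := fun ha hb => ha.add hb
          zero_mem' := tendsto_const_nhds
          smul_mem' := fun c g hg => hg.const_smul c }
      have hW : ∀ k, d k ∈ W := fun k => convexHull_min (t := (W : Set (StrongDual ℝ E)))
        (by
          rintro _ ⟨n, -, rfl⟩
          have := tendsto_pi_nhds.1 hzy (u (v n))
          simp only [← hz''] at this
          exact this) W.convex (hd k)
      rw [Metric.tendsto_atTop]
      intro ε hε
      obtain ⟨k, hk⟩ := Metric.tendsto_atTop.1 hdh (ε / 3) (by linarith)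
      have a1 := hk k le_rfl
      obtain ⟨N, hN⟩ := Metric.tendsto_atTop.1 (hW k) (ε / 3) (by linarith)
      refine ⟨N, fun j hj => ?_⟩
      have a2 := hN j hj
      rw [dist_eq_norm] at a1
      have a3 : ∀ x : E, ‖x‖ ≤ 1 → |d k x - h x| < ε / 3 := fun x hx =>
        lt_of_le_of_lt (((d k - h).le_opNorm x).trans
          (mul_le_of_le_one_right (norm_nonneg _) hx)) a1
      have a4 := abs_lt.1 (a3 y hy)
      have a5 := abs_lt.1 (a3 (z' j) (by simpa using hD (hz' j)))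
      rw [Real.dist_eq, abs_lt] at a2 ⊢
      constructor <;> linarith [a2.1, a2.2, a4.1, a4.2, a5.1, a5.2]
    obtain ⟨w, -, v, hv, hw⟩ := (isCompact_Icc (a := -C) (b := C)).tendsto_subseq
      (x := fun n => f (u n) y) fun n => hb _ y hy
    refine ⟨w, tendsto_of_subseq_tendsto fun ns hns => ?_⟩
    obtain ⟨ms, hms, hms'⟩ := strictMono_subseq_of_tendsto_atTop hns
    obtain ⟨w', -, v', hv', hw'⟩ := (isCompact_Icc (a := -C) (b := C)).tendsto_subseq
      (x := fun n => f (u (ns (ms n))) y) fun n => hb _ y hy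
    have := tendsto_nhds_unique (key v w hv hw) (key _ w' (hms'.comp hv') hw')
    exact ⟨ms ∘ v', this ▸ hw'⟩
  refine hn ⟨1, fun n => f (u (n + 1)) - f (u n), one_pos,
    fun n => hf (hu.injective.ne (Nat.succ_ne_self n)), fun x => ?_⟩
  have a0 : 0 < ‖x‖ + 1 := by positivity
  obtain ⟨w, hw⟩ := conv ((‖x‖ + 1)⁻¹ • x) (by
    rw [norm_smul, norm_inv, Real.norm_of_nonneg a0.le, inv_mul_le_iff₀ a0]
    linarith)
  have := (((tendsto_add_atTop_iff_nat 1).2 hw).sub hw).const_mul (‖x‖ + 1)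
  simpa [mul_sub, ← mul_assoc, mul_inv_cancel₀ a0.ne'] using this

/-- Josefson-Nissenzweig -/
theorem jn' (𝕜 : Type) [RCLike 𝕜] (E : Type) [NormedAddCommGroup E] [NormedSpace 𝕜 E]
    (hE : ¬ FiniteDimensional 𝕜 E) : ∃ g : ℕ → StrongDual 𝕜 E, (∀ n, ‖g n‖ = 1) ∧
      ∀ x, Tendsto (fun n => g n x) atTop (𝓝 0) := by
  let : NormedSpace ℝ E := NormedSpace.restrictScalars ℝ 𝕜 E
  have : IsScalarTower ℝ 𝕜 E := IsScalarTower.of_algebraMap_smul fun _ _ => rfl
  obtain ⟨c, g, c0, hc, hg⟩ := jn (E := E) fun h => hE (Module.Finite.of_restrictScalars_finite ℝ 𝕜 E)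
  have hp : ∀ n, 0 < ‖g n‖ := fun n => c0.trans_le (hc n)
  refine ⟨fun n => ((‖g n‖⁻¹ : ℝ) : 𝕜) • (g n).extendRCLike, fun n => ?_, fun x => ?_⟩
  · rw [norm_smul, StrongDual.norm_extendRCLike, RCLike.norm_ofReal, abs_inv, abs_norm,
      inv_mul_cancel₀ (hp n).ne']
  · have h1 : Tendsto (fun n => ((g n).extendRCLike x : 𝕜)) atTop (𝓝 0) := by
      simp only [StrongDual.extendRCLike_apply]
      have a := (RCLike.continuous_ofReal (K := 𝕜).tendsto 0).comp (hg x)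
      have b := (RCLike.continuous_ofReal (K := 𝕜).tendsto 0).comp (hg ((RCLike.I : 𝕜) • x))
      simpa using a.sub (b.const_mul (RCLike.I : 𝕜))
    refine squeeze_zero_norm (fun n => ?_) (by simpa using h1.norm.const_mul c⁻¹)
    rw [_root_.smul_apply, norm_smul, RCLike.norm_ofReal, abs_inv, abs_norm]
    exact mul_le_mul_of_nonneg_right (inv_anti₀ c0 (hc n)) (norm_nonneg _)

end Pool.Agent.H91.JN
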