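import Mathlib

set_option autoImplicit false

open Filter Topology

namespace H91JS

variable {A : Type} [NormedAddCommGroup A] [NormedSpace ℂ A]

/-- `m` is the Jordan product and `s` the involution of a JB*-algebra structure on `A`. -/
structure IsJB (m : A →L[ℂ] A →L[ℂ] A) (s : A → A) : Prop where
  comm : ∀ a b, m a b = m b a
  jordan : ∀ a b, m a (m (m a a) b) = m (m a a) (m a b)
  norm_le : ∀ a b, ‖m a b‖ ≤ ‖a‖ * ‖b‖
  s_add : ∀ a b, s (a + b) = s a + s b
  s_smul : ∀ (c : ℂ) a, s (c • a) = star c • s a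
  s_s : ∀ a, s (s a) = a
  s_mul : ∀ a b, s (m a b) = m (s a) (s b)
  cube : ∀ a, ‖(2 : ℂ) • m (m a (s a)) a - m (m a a) (s a)‖ = ‖a‖ ^ 3

/-- The bidual. -/
abbrev DD (A : Type) [NormedAddCommGroup A] [NormedSpace ℂ A] : Type :=
  StrongDual ℂ (StrongDual ℂ A)

/-- The canonical embedding into the bidual. -/
noncomputable def em (a : A) : DD A := NormedSpace.inclusionInDoubleDual ℂ A a

/-- The functional `b ↦ φ (m c b)`, as a function of `c`. -/
noncomputable def lt (m : A →L[ℂ] A →L[ℂ] A) (φ : StrongDual ℂ A) : A →L[ℂ] StrongDual ℂ A :=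
  ContinuousLinearMap.compL ℂ A A ℂ φ ∘L m

/-- The functional `c ↦ y (b ↦ φ (m c b))`. -/
noncomputable def rt (m : A →L[ℂ] A →L[ℂ] A) (y : DD A) (φ : StrongDual ℂ A) : StrongDual ℂ A :=
  y ∘L lt m φ

lemma rt_add (m : A →L[ℂ] A →L[ℂ] A) (x y : DD A) (φ ψ : StrongDual ℂ A) :
    x (rt m y (φ + ψ)) = x (rt m y φ) + x (rt m y ψ) := by
  rw [← map_add]; congr 1; ext c; simp [rt, lt]

lemma rt_smul (m : A →L[ℂ] A →L[ℂ] A) (x y : DD A) (c : ℂ) (φ : StrongDual ℂ A) :
    x (rt m y (c • φ)) = c • x (rt m y φ) := by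
  rw [← map_smul]; congr 1; ext c; simp [rt, lt]

lemma rt_cont (m : A →L[ℂ] A →L[ℂ] A) (x y : DD A) : Continuous fun φ => x (rt m y φ) :=
  (x ∘L (ContinuousLinearMap.compL ℂ A (StrongDual ℂ A) ℂ y) ∘L
    ((ContinuousLinearMap.compL ℂ A (A →L[ℂ] A) (StrongDual ℂ A)).flip m) ∘L
      ContinuousLinearMap.compL ℂ A A ℂ).continuous

/-- The Arens extension of the product to the bidual:
`arens m x y φ = x (c ↦ y (b ↦ φ (m c b)))`. -/
noncomputable def arens (m : A →L[ℂ] A →L[ℂ] A) (x y : DD A) : DD A where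
  toFun φ := x (rt m y φ)
  map_add' := rt_add m x y
  map_smul' := rt_smul m x y
  cont := rt_cont m x y

/-- Jordan multipliers. -/
def IsMult (m : A →L[ℂ] A →L[ℂ] A) (x : DD A) : Prop :=
  ∀ a : A, ∃ b : A, arens m x (em a) = em b

/-- J-strict convergence of `f` to `x` along the filter `l`. -/
def JLim (m : A →L[ℂ] A →L[ℂ] A) {I : Type} (l : Filter I) (f : I → DD A) (x : DD A) : Prop :=
  ∀ a : A, Tendsto (fun i => ‖arens m (em a) (f i - x)‖) l (𝓝 0)

variable {m : A →L[ℂ] A →L[ℂ] A} {s : A → A}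

lemma lin (h : IsJB m s) (a b c d : A) :
    m (m a b) (m c d) + m (m b c) (m a d) + m (m a c) (m b d) =
      m c (m (m a b) d) + m a (m (m b c) d) + m b (m (m a c) d) := by
  have h1 := h.jordan (a + b + c) d
  have h2 := h.jordan (a + b) d
  have h3 := h.jordan (a + c) d
  have h4 := h.jordan (b + c) d
  have h5 := h.jordan a d
  have h6 := h.jordan b d
  have h7 := h.jordan c d
  simp only [map_add, ContinuousLinearMap.add_apply, h.comm b a, h.comm c a, h.comm c b]
    at h1 h2 h3 h4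
  linear_combination (norm := module) (-1 / 2 : ℂ) • (h1 - h2 - h3 - h4 + h5 + h6 + h7)

lemma s_zero (h : IsJB m s) : s 0 = 0 := by
  have := h.s_smul 0 0
  simpa using this

lemma s_sub (h : IsJB m s) (a b : A) : s (a - b) = s a - s b := by
  have := h.s_add (a - b) b
  rw [sub_add_cancel] at this
  rw [this]; abel

lemma s_norm (h : IsJB m s) (a : A) : ‖s a‖ ≤ 3 * ‖a‖ := by
  have h1 := h.cube (s a)
  rw [h.s_s] at h1
  have h2 : ‖m (m (s a) a) (s a)‖ ≤ ‖s a‖ * ‖a‖ * ‖s a‖ :=
    (h.norm_le _ _).trans (by gcongr; exact h.norm_le _ _)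
  have h3 : ‖m (m (s a) (s a)) a‖ ≤ ‖s a‖ * ‖s a‖ * ‖a‖ :=
    (h.norm_le _ _).trans (by gcongr; exact h.norm_le _ _)
  have h4 := norm_sub_le ((2 : ℂ) • m (m (s a) a) (s a)) (m (m (s a) (s a)) a)
  rw [h1, norm_smul] at h4
  simp only [Complex.norm_ofNat] at h4
  by_contra hc
  push Not at hc
  have hp : 0 < ‖s a‖ := lt_of_le_of_lt (by positivity) hc
  nlinarith [mul_pos hp hp, mul_lt_mul_of_pos_left hc (mul_pos hp hp)]

lemma s_cont (h : IsJB m s) : Continuous s := by
  refine (LipschitzWith.of_dist_le_mul (K := 3) fun a b => ?_).continuous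
  rw [dist_eq_norm, dist_eq_norm, ← s_sub h]
  simpa using s_norm h (a - b)

/-- Jordan powers `a^(n+1)`. -/
noncomputable def pw (m : A →L[ℂ] A →L[ℂ] A) (a : A) : ℕ → A
  | 0 => a
  | n + 1 => m a (pw m a n)

lemma pw_rec (h : IsJB m s) (a : A) (k : ℕ) :
    m (pw m a (k + 2)) = m (pw m a (k + 1)) * m a + m (pw m a (k + 1)) * m a +
      m (m a a) * m (pw m a k) - m a * m a * m (pw m a k) - m (pw m a k) * m a * m a := by
  ext d
  have := lin h a (pw m a k) d a
  simp only [ContinuousLinearMap.sub_apply, ContinuousLinearMap.add_apply,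
    ContinuousLinearMap.mul_apply, pw]
  rw [h.comm d a, h.comm (m (pw m a k) d) (m a a), h.comm (m a d) (m (pw m a k) a),
    h.comm (pw m a k) a, h.comm d, h.comm (m a (pw m a k)) a, h.comm (m (pw m a k) d) a,
    h.comm (m a d) a] at this
  linear_combination (norm := module) -this

lemma pw_comm (h : IsJB m s) (a : A) (k : ℕ) :
    Commute (m a) (m (pw m a k)) ∧ Commute (m (m a a)) (m (pw m a k)) := by
  have c : Commute (m a) (m (m a a)) := by
    ext d; exact h.jordan a d
  induction k using Nat.twoStepInduction with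
  | zero => exact ⟨Commute.refl _, c.symm⟩
  | one => exact ⟨c, Commute.refl _⟩
  | more k h0 h1 =>
    rw [pw_rec h]
    have r := Commute.refl (m a)
    have r' := Commute.refl (m (m a a))
    refine ⟨((((h1.1.mul_right r).add_right (h1.1.mul_right r)).add_right
      (c.mul_right h0.1)).sub_right ((r.mul_right r).mul_right h0.1)).sub_right
      ((h0.1.mul_right r).mul_right r), ((((h1.2.mul_right c.symm).add_right
      (h1.2.mul_right c.symm)).add_right (r'.mul_right h0.2)).sub_right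
      ((c.symm.mul_right c.symm).mul_right h0.2)).sub_right
      ((h0.2.mul_right c.symm).mul_right c.symm)⟩

lemma pw_mul (h : IsJB m s) (a : A) (i j : ℕ) :
    m (pw m a i) (pw m a j) = pw m a (i + j + 1) := by
  induction j with
  | zero => rw [h.comm]; rfl
  | succ j ih =>
    have := congrArg (fun T : A →L[ℂ] A => T (pw m a j)) (pw_comm h a i).1.eq
    simp only [ContinuousLinearMap.mul_apply] at this
    rw [pw, ← this, ih]; rfl

/-- The closed subalgebra generated by `a`. -/
noncomputable def Cq (m : A →L[ℂ] A →L[ℂ] A) (a : A) : Submodule ℂ A :=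
  (Submodule.span ℂ (Set.range (pw m a))).topologicalClosure

lemma pw_mem (a : A) (n : ℕ) : pw m a n ∈ Cq m a :=
  Submodule.le_topologicalClosure _ (Submodule.subset_span ⟨n, rfl⟩)

lemma Cq_closed (a : A) : IsClosed (Cq m a : Set A) := Submodule.isClosed_topologicalClosure _

lemma ind {B : Type} [NormedAddCommGroup B] [NormedSpace ℂ B] (a : A) (f : A →L[ℂ] B)
    (S : Submodule ℂ B) (hS : IsClosed (S : Set B)) (hf : ∀ n, f (pw m a n) ∈ S) :
    ∀ x ∈ Cq m a, f x ∈ S := by
  have : Cq m a ≤ S.comap (f : A →ₗ[ℂ] B) := by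
    refine Submodule.topologicalClosure_minimal _ (Submodule.span_le.2 ?_)
      (hS.preimage f.continuous)
    rintro _ ⟨n, rfl⟩; exact hf n
  exact this

lemma ext' {B : Type} [NormedAddCommGroup B] [NormedSpace ℂ B] (a : A) (f g : A →L[ℂ] B)
    (hf : ∀ n, f (pw m a n) = g (pw m a n)) : ∀ x ∈ Cq m a, f x = g x := by
  intro x hx
  have := ind a (f - g) ⊥ (by simp) (fun n => by simp [hf]) x hx
  simpa [sub_eq_zero] using this

lemma Cq_mul (h : IsJB m s) (a : A) : ∀ x ∈ Cq m a, ∀ y ∈ Cq m a, m x y ∈ Cq m a := by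
  intro x hx
  refine ind a (m x) _ (Cq_closed a) fun j => ?_
  rw [h.comm]
  refine ind a (m (pw m a j)) _ (Cq_closed a) (fun i => ?_) x hx
  rw [pw_mul h]; exact pw_mem _ _

lemma Cq_assoc (h : IsJB m s) (a : A) :
    ∀ x ∈ Cq m a, ∀ y ∈ Cq m a, ∀ z ∈ Cq m a, m (m x y) z = m x (m y z) := by
  intro x hx y hy
  refine ext' a (m (m x y)) (m x ∘L m y) fun k => ?_
  refine ext' a (m.flip (pw m a k) ∘L m x) (m x ∘L m.flip (pw m a k)) (fun j => ?_) y hy
  refine ext' a (m.flip (pw m a k) ∘L m.flip (pw m a j))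
    (m.flip (m (pw m a j) (pw m a k))) (fun i => ?_) x hx
  simp only [ContinuousLinearMap.comp_apply, ContinuousLinearMap.flip_apply, pw_mul h]
  congr 1; omega

lemma Cq_s (h : IsJB m s) (a : A) (ha : s a = a) : ∀ x ∈ Cq m a, s x ∈ Cq m a := by
  have e : ∀ n, s (pw m a n) = pw m a n := by
    intro n
    induction n with
    | zero => exact ha
    | succ n ih => rw [pw, h.s_mul, ha, ih]
  intro x hx
  refine map_mem_closure (s_cont h) hx fun y hy => ?_
  induction hy using Submodule.span_induction with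
  | mem x hx => obtain ⟨n, rfl⟩ := hx; rw [e]; exact Submodule.subset_span ⟨n, rfl⟩
  | zero => rw [s_zero h]; exact Submodule.zero_mem _
  | add x y _ _ hx hy => rw [h.s_add]; exact Submodule.add_mem _ hx hy
  | smul c x _ hx => rw [h.s_smul]; exact Submodule.smul_mem _ _ hx

lemma Cq_cstar (h : IsJB m s) (a : A) (ha : s a = a) (x : A) (hx : x ∈ Cq m a) :
    ‖x‖ * ‖x‖ ≤ ‖m (s x) x‖ := by
  have h1 := h.cube x
  rw [h.comm (m x x), ← Cq_assoc h a _ (Cq_s h a ha x hx) _ hx _ hx, h.comm x (s x),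
    two_smul, add_sub_cancel_right] at h1
  have h2 := h.norm_le (m (s x) x) x
  rcases (norm_nonneg x).eq_or_lt with h0 | h0
  · rw [← h0]; simp
  · nlinarith

/-- The span of the squares. -/
def Sq (m : A →L[ℂ] A →L[ℂ] A) : Submodule ℂ A := Submodule.span ℂ {x | ∃ b, m b b = x}

lemma sa_mem [CompleteSpace A] (h : IsJB m s) (a : A) (ha : s a = a) : a ∈ Sq m := by
  let C := Cq m a
  letI i1 : NonUnitalRing C :=
    { (inferInstance : AddCommGroup C) with
      mul := fun x y => ⟨m x y, Cq_mul h a _ x.2 _ y.2⟩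
      left_distrib := fun x y z => Subtype.ext (map_add (m x) (y : A) z)
      right_distrib := fun x y z => Subtype.ext (by
        change m ((x : A) + y) z = m x z + m y z
        simp)
      zero_mul := fun x => Subtype.ext (by change m 0 x = 0; simp)
      mul_zero := fun x => Subtype.ext (map_zero (m x))
      mul_assoc := fun x y z => Subtype.ext (Cq_assoc h a _ x.2 _ y.2 _ z.2) }
  letI i2 : NonUnitalNormedRing C :=
    { i1, (inferInstance : NormedAddCommGroup C) with
      norm_mul_le := fun x y => h.norm_le x y }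
  letI i3 : StarRing C :=
    { star := fun x => ⟨s x, Cq_s h a ha _ x.2⟩
      star_involutive := fun x => Subtype.ext (h.s_s x)
      star_mul := fun x y => Subtype.ext ((h.s_mul x y).trans (h.comm _ _))
      star_add := fun x y => Subtype.ext (h.s_add x y) }
  letI i4 : NonUnitalCStarAlgebra C :=
    { i2, i3, (inferInstance : NormedSpace ℂ C) with
      toCompleteSpace := (Cq_closed a).completeSpace_coe
      norm_mul_self_le := fun x => Cq_cstar h a ha x x.2
      smul_assoc := fun c x y => Subtype.ext (by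
        change m (c • (x : A)) y = c • m x y
        simp)
      smul_comm := fun c x y => Subtype.ext (by
        change c • m x y = m x (c • (y : A))
        simp)
      star_smul := fun c x => Subtype.ext (h.s_smul c x) }
  letI := CStarAlgebra.spectralOrder C
  haveI := CStarAlgebra.spectralOrderedRing C
  have key : ∀ x : C, (x : A) ∈ Sq m := by
    intro x
    have hx : x ∈ Submodule.span ℂ {a : C | 0 ≤ a} := by
      rw [CStarAlgebra.span_nonneg]; trivial
    induction hx using Submodule.span_induction with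
    | mem x hx =>
      have hx' : 0 ≤ x := hx
      obtain ⟨b, -, rfl⟩ := (CStarAlgebra.nonneg_iff_exists_nonneg_and_eq_mul_self (a := x)).1 hx'
      exact Submodule.subset_span ⟨b, rfl⟩
    | zero => exact Submodule.zero_mem _
    | add x y _ _ hx hy => exact Submodule.add_mem _ hx hy
    | smul c x _ hx => exact Submodule.smul_mem _ _ hx
  exact key ⟨a, pw_mem a 0⟩

lemma all_mem [CompleteSpace A] (h : IsJB m s) (a : A) : a ∈ Sq m := by
  have h1 := sa_mem h (a + s a) (by rw [h.s_add, h.s_s, add_comm])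
  have h2 := sa_mem h (Complex.I • (a - s a)) (by
    rw [h.s_smul, s_sub h, h.s_s]; simp [smul_sub]; abel)
  have : a = (1 / 2 : ℂ) • (a + s a) + (-Complex.I / 2) • (Complex.I • (a - s a)) := by
    rw [smul_smul, show -Complex.I / 2 * Complex.I = 1 / 2 by
      rw [div_mul_eq_mul_div, neg_mul, Complex.I_mul_I, neg_neg]]
    module
  rw [this]
  exact Submodule.add_mem _ (Submodule.smul_mem _ _ h1) (Submodule.smul_mem _ _ h2)

/-- The action of `A` on the bidual. -/
noncomputable def act (m : A →L[ℂ] A →L[ℂ] A) (a : A) (x : DD A) : DD A := arens m (em a) x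

lemma act_apply (a : A) (x : DD A) (φ : StrongDual ℂ A) : act m a x φ = x (φ ∘L m a) := rfl

lemma em_apply (a : A) (φ : StrongDual ℂ A) : em a φ = φ a := rfl

lemma arens_apply (x y : DD A) (φ : StrongDual ℂ A) :
    arens m x y φ = x (y ∘L (ContinuousLinearMap.compL ℂ A A ℂ φ ∘L m)) := rfl

lemma arens_em (h : IsJB m s) (x : DD A) (a : A) : arens m x (em a) = act m a x := by
  ext φ
  rw [arens_apply, act_apply]
  congr 1
  ext c
  exact congrArg φ (h.comm c a)

lemma norm_em (a : A) : ‖em a‖ = ‖a‖ :=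
  (NormedSpace.inclusionInDoubleDualLi ℂ (E := A)).norm_map a

lemma act_le (h : IsJB m s) (a : A) (x : DD A) : ‖act m a x‖ ≤ ‖a‖ * ‖x‖ := by
  refine ContinuousLinearMap.opNorm_le_bound _ (by positivity) fun φ => ?_
  rw [act_apply]
  refine (x.le_opNorm _).trans ?_
  have h1 : ‖m a‖ ≤ ‖a‖ := ContinuousLinearMap.opNorm_le_bound _ (norm_nonneg _) (h.norm_le a)
  have h2 := φ.opNorm_comp_le (m a)
  have : ‖φ ∘L m a‖ ≤ ‖φ‖ * ‖a‖ := h2.trans (by gcongr)
  calc ‖x‖ * ‖φ ∘L m a‖ ≤ ‖x‖ * (‖φ‖ * ‖a‖) := by gcongr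
    _ = _ := by ring

lemma act_add (a b : A) (x : DD A) : act m (a + b) x = act m a x + act m b x := by
  ext φ; simp [act_apply]

lemma act_smul (c : ℂ) (a : A) (x : DD A) : act m (c • a) x = c • act m a x := by
  ext φ; simp [act_apply]

lemma act_zero (x : DD A) : act m 0 x = 0 := by
  ext φ; simp [act_apply]

lemma act_add' (a : A) (x y : DD A) : act m a (x + y) = act m a x + act m a y := by
  ext φ; simp [act_apply]

lemma act_smul' (c : ℂ) (a : A) (x : DD A) : act m a (c • x) = c • act m a x := by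
  ext φ; simp [act_apply]

lemma act_sub' (a : A) (x y : DD A) : act m a (x - y) = act m a x - act m a y := by
  ext φ; simp [act_apply]

lemma act_em (a b : A) : act m a (em b) = em (m a b) := by
  ext φ; rfl

lemma em_add (a b : A) : em (a + b) = em a + em b := map_add _ _ _
lemma em_sub (a b : A) : em (a - b) = em a - em b := by ext φ; simp [em_apply]
lemma em_smul (c : ℂ) (a : A) : em (c • a) = c • em a := map_smul _ _ _

lemma key (h : IsJB m s) (a p q r : A) (x y : DD A) (hp : act m (m a a) x = em p)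
    (hq : act m a x = em q) (hr : act m a y = em r) :
    act m (m a a) (arens m y x) =
      act m p y + (2 : ℂ) • act m a (act m r x) - (2 : ℂ) • em (m r q) := by
  ext φ
  have ep : ∀ ψ : StrongDual ℂ A, x (ψ ∘L m (m a a)) = ψ p := fun ψ => by
    rw [← act_apply, hp]; rfl
  have eq : ∀ ψ : StrongDual ℂ A, x (ψ ∘L m a) = ψ q := fun ψ => by
    rw [← act_apply, hq]; rfl
  have er : ∀ ψ : StrongDual ℂ A, y (ψ ∘L m a) = ψ r := fun ψ => by
    rw [← act_apply, hr]; rfl
  have e1 : x ∘L (ContinuousLinearMap.compL ℂ A A ℂ (φ ∘L m (m a a)) ∘L m) =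
      φ ∘L m p + (2 : ℂ) • ((x ∘L (ContinuousLinearMap.compL ℂ A A ℂ (φ ∘L m a) ∘L m)) ∘L m a) -
        (2 : ℂ) • ((φ ∘L m q) ∘L m a) := by
    ext c
    have e2 : (φ ∘L m (m a a)) ∘L m c = (φ ∘L m c) ∘L m (m a a) +
        (2 : ℂ) • ((φ ∘L m a) ∘L m (m a c)) - (2 : ℂ) • ((φ ∘L m (m a c)) ∘L m a) := by
      ext d
      have := congrArg φ (lin h a a c d)
      simp only [map_add] at this
      simp only [ContinuousLinearMap.comp_apply, ContinuousLinearMap.sub_apply,
        ContinuousLinearMap.add_apply, ContinuousLinearMap.smul_apply, smul_eq_mul]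
      linear_combination this
    change x ((φ ∘L m (m a a)) ∘L m c) = φ (m p c) + (2 : ℂ) • x ((φ ∘L m a) ∘L m (m a c)) -
      (2 : ℂ) • φ (m q (m a c))
    rw [e2, map_sub, map_add, map_smul, map_smul, ep, eq, h.comm p, h.comm q]
    rfl
  rw [act_apply, arens_apply, e1, map_sub, map_add, map_smul, map_smul, er, er]
  change _ = y (φ ∘L m p) + (2 : ℂ) • x ((φ ∘L m a) ∘L m r) - (2 : ℂ) • φ (m r q)
  rw [h.comm r]
  rfl

lemma two_le (x : DD A) : ‖(2 : ℂ) • x‖ ≤ 2 * ‖x‖ := by
  simpa using ContinuousLinearMap.opNorm_smul_le (2 : ℂ) x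

lemma key_le (h : IsJB m s) (a : A) (x y : DD A) (hx : IsMult m x) (hy : IsMult m y) :
    ∃ p, act m (m a a) x = em p ∧ ‖act m (m a a) (arens m y x)‖ ≤
      ‖act m p y‖ + 2 * (‖a‖ * ‖arens m (act m a y) x‖) + 2 * (‖act m a y‖ * ‖act m a x‖) := by
  obtain ⟨p, hp⟩ := hx (m a a)
  obtain ⟨q, hq⟩ := hx a
  obtain ⟨r, hr⟩ := hy a
  rw [arens_em h] at hp hq hr
  refine ⟨p, hp, ?_⟩
  rw [key h a p q r x y hp hq hr, hq, hr, norm_em, norm_em]
  refine (norm_sub_le (E := DD A) _ _).trans (add_le_add ((norm_add_le (E := DD A) _ _).trans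
    (add_le_add le_rfl ?_)) ?_)
  · refine (two_le _).trans ?_
    gcongr
    exact act_le h _ _
  · refine (two_le _).trans ?_
    rw [norm_em]
    gcongr
    exact h.norm_le _ _

lemma mult_sub (h : IsJB m s) {x y : DD A} (hx : IsMult m x) (hy : IsMult m y) :
    IsMult m (x - y) := fun a => by
  obtain ⟨p, hp⟩ := hx a
  obtain ⟨q, hq⟩ := hy a
  rw [arens_em h] at hp hq
  exact ⟨p - q, by rw [arens_em h, act_sub', hp, hq, em_sub]⟩

lemma mult_mul [CompleteSpace A] (h : IsJB m s) {x y : DD A} (hx : IsMult m x)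
    (hy : IsMult m y) : IsMult m (arens m y x) := fun a => by
  rw [arens_em h]
  have ha := all_mem h a
  induction ha using Submodule.span_induction with
  | mem _ ha =>
    obtain ⟨a, rfl⟩ := ha
    obtain ⟨p, hp⟩ := hx (m a a)
    obtain ⟨q, hq⟩ := hx a
    obtain ⟨r, hr⟩ := hy a
    obtain ⟨u, hu⟩ := hy p
    obtain ⟨v, hv⟩ := hx r
    rw [arens_em h] at hp hq hr hu hv
    exact ⟨u + (2 : ℂ) • m a v - (2 : ℂ) • m r q, by
      rw [key h a p q r x y hp hq hr, hu, hv, act_em, em_sub, em_add, em_smul, em_smul]⟩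
  | zero => exact ⟨0, by rw [act_zero]; exact (map_zero _).symm⟩
  | add a b _ _ ha hb =>
    obtain ⟨p, hp⟩ := ha
    obtain ⟨q, hq⟩ := hb
    exact ⟨p + q, by rw [act_add, hp, hq, em_add]⟩
  | smul c a _ ha =>
    obtain ⟨p, hp⟩ := ha
    exact ⟨c • p, by rw [act_smul, hp, em_smul]⟩

lemma of_sq [CompleteSpace A] (h : IsJB m s) {I : Type} (l : Filter I) (f : I → DD A)
    (hf : ∀ a, Tendsto (fun i => ‖act m (m a a) (f i)‖) l (𝓝 0)) (a : A) :
    Tendsto (fun i => ‖act m a (f i)‖) l (𝓝 0) := by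
  have ha := all_mem h a
  induction ha using Submodule.span_induction with
  | mem _ ha =>
    obtain ⟨a, rfl⟩ := ha
    exact hf a
  | zero => simp only [act_zero, ContinuousLinearMap.opNorm_zero]; exact tendsto_const_nhds
  | add a b _ _ ha hb =>
    refine squeeze_zero (fun _ => ContinuousLinearMap.opNorm_nonneg _) (fun i => ?_) (by simpa using ha.add hb)
    rw [act_add]; exact ContinuousLinearMap.opNorm_add_le _ _
  | smul c a _ ha =>
    refine squeeze_zero (fun _ => ContinuousLinearMap.opNorm_nonneg _) (fun i => ?_) (by simpa using ha.const_mul ‖c‖)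
    rw [act_smul]; exact ContinuousLinearMap.opNorm_smul_le _ _

lemma arens_sub (x y z : DD A) : arens m (x - y) z = arens m x z - arens m y z := by
  ext φ; simp [arens_apply]

lemma arens_sub' (x y z : DD A) : arens m z (x - y) = arens m z x - arens m z y := by
  ext φ; simp [arens_apply, ContinuousLinearMap.sub_comp]

lemma left0 [CompleteSpace A] (h : IsJB m s) {I : Type} (l : Filter I) (f : I → DD A)
    (hm : ∀ i, IsMult m (f i)) (x : DD A) (hx : IsMult m x)
    (hf : ∀ a, Tendsto (fun i => ‖act m a (f i)‖) l (𝓝 0)) (a : A) :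
    Tendsto (fun i => ‖act m a (arens m (f i) x)‖) l (𝓝 0) := by
  refine of_sq h l (fun i => arens m (f i) x) (fun a => ?_) a
  obtain ⟨p, hp⟩ := hx (m a a)
  rw [arens_em h] at hp
  have t : Tendsto (fun i => ‖act m p (f i)‖ + 2 * (‖a‖ * (‖act m a (f i)‖ * ‖x‖)) +
      2 * (‖act m a (f i)‖ * ‖act m a x‖)) l (𝓝 0) := by
    simpa using ((hf p).add ((((hf a).mul_const ‖x‖).const_mul ‖a‖).const_mul 2)).add
      (((hf a).mul_const ‖act m a x‖).const_mul 2)
  refine squeeze_zero (fun _ => ContinuousLinearMap.opNorm_nonneg _) (fun i => ?_) t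
  obtain ⟨p', hp', hle⟩ := key_le h a x (f i) hx (hm i)
  have : p' = p := (NormedSpace.inclusionInDoubleDualLi ℂ (E := A)).injective (hp'.symm.trans hp)
  subst this
  refine hle.trans ?_
  obtain ⟨r, hr⟩ := hm i a
  rw [arens_em h] at hr
  gcongr
  rw [hr, norm_em]
  exact act_le h r x

lemma right0 [CompleteSpace A] (h : IsJB m s) {I : Type} (l : Filter I) (f : I → DD A)
    (hm : ∀ i, IsMult m (f i)) (x : DD A) (hx : IsMult m x)
    (hf : ∀ a, Tendsto (fun i => ‖act m a (f i)‖) l (𝓝 0)) (a : A) :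
    Tendsto (fun i => ‖act m a (arens m x (f i))‖) l (𝓝 0) := by
  refine of_sq h l (fun i => arens m x (f i)) (fun a => ?_) a
  obtain ⟨r, hr⟩ := hx a
  rw [arens_em h] at hr
  have t : Tendsto (fun i => ‖act m (m a a) (f i)‖ * ‖x‖ + 2 * (‖a‖ * ‖act m r (f i)‖) +
      2 * (‖act m a x‖ * ‖act m a (f i)‖)) l (𝓝 0) := by
    simpa using (((hf (m a a)).mul_const ‖x‖).add (((hf r).const_mul ‖a‖).const_mul 2)).add
      (((hf a).const_mul ‖act m a x‖).const_mul 2)
  refine squeeze_zero (fun _ => ContinuousLinearMap.opNorm_nonneg _) (fun i => ?_) t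
  obtain ⟨p, hp, hle⟩ := key_le h a (f i) x (hm i) hx
  refine hle.trans ?_
  gcongr
  · rw [hp, norm_em]; exact act_le h p x
  · rw [hr]; exact le_rfl

lemma both0 [CompleteSpace A] (h : IsJB m s) {I : Type} (l : Filter I) (f g : I → DD A)
    (hm : ∀ i, IsMult m (f i)) (hn : ∀ i, IsMult m (g i)) (K : ℝ) (hK : ∀ i, ‖f i‖ ≤ K)
    (hL : ∀ i, ‖g i‖ ≤ K) (hf : ∀ a, Tendsto (fun i => ‖act m a (f i)‖) l (𝓝 0))
    (hg : ∀ a, Tendsto (fun i => ‖act m a (g i)‖) l (𝓝 0)) (a : A) :
    Tendsto (fun i => ‖act m a (arens m (f i) (g i))‖) l (𝓝 0) := by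
  refine of_sq h l (fun i => arens m (f i) (g i)) (fun a => ?_) a
  have t : Tendsto (fun i => ‖act m (m a a) (g i)‖ * K + 2 * (‖a‖ * (‖act m a (f i)‖ * K)) +
      2 * (‖act m a (f i)‖ * ‖act m a (g i)‖)) l (𝓝 0) := by
    simpa using (((hg (m a a)).mul_const K).add
      ((((hf a).mul_const K).const_mul ‖a‖).const_mul 2)).add (((hf a).mul (hg a)).const_mul 2)
  refine squeeze_zero (fun _ => ContinuousLinearMap.opNorm_nonneg _) (fun i => ?_) t
  obtain ⟨p, hp, hle⟩ := key_le h a (g i) (f i) (hn i) (hm i)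
  refine hle.trans ?_
  obtain ⟨r, hr⟩ := hm i a
  rw [arens_em h] at hr
  gcongr
  · rw [hp, norm_em]; exact (act_le h p _).trans (by gcongr; exact hK i)
  · rw [hr, norm_em]; exact (act_le h r _).trans (by gcongr; exact hL i)

theorem sep :
    ∀ (A : Type) [NormedAddCommGroup A] [NormedSpace ℂ A] [CompleteSpace A]
      (m : A →L[ℂ] A →L[ℂ] A) (s : A → A), IsJB m s → ∀ x : DD A, IsMult m x →
      (∀ y : DD A, IsMult m y → IsMult m (arens m x y) ∧ IsMult m (arens m y x)) ∧
      ∀ (I : Type) (l : Filter I) (f : I → DD A) (y : DD A), (∀ i, IsMult m (f i)) →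
        IsMult m y → JLim m l f y →
        JLim m l (fun i => arens m x (f i)) (arens m x y) ∧
          JLim m l (fun i => arens m (f i) x) (arens m y x) := by
  intro A _ _ _ m s h x hx
  refine ⟨fun y hy => ⟨mult_mul h hy hx, mult_mul h hx hy⟩, fun I l f y hf hy hl => ⟨?_, ?_⟩⟩
  · intro a
    simp only [← arens_sub']
    exact right0 h l _ (fun i => mult_sub h (hf i) hy) x hx hl a
  · intro a
    simp only [← arens_sub]
    exact left0 h l _ (fun i => mult_sub h (hf i) hy) x hx hl a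

theorem joint :
    ∀ (A : Type) [NormedAddCommGroup A] [NormedSpace ℂ A] [CompleteSpace A]
      (m : A →L[ℂ] A →L[ℂ] A) (s : A → A), IsJB m s →
      ∀ (I J : Type) (l : Filter I) (l' : Filter J) (f : I → DD A) (g : J → DD A) (x y : DD A),
        (∀ i, IsMult m (f i)) → (∀ j, IsMult m (g j)) → IsMult m x → IsMult m y →
        (∃ K, ∀ i, ‖f i‖ ≤ K) → (∃ K, ∀ j, ‖g j‖ ≤ K) → JLim m l f x → JLim m l' g y →
        JLim m (l ×ˢ l') (fun p : I × J => arens m (f p.1) (g p.2)) (arens m x y) := by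
  intro A _ _ _ m s h I J l l' f g x y hf hg hx hy ⟨K, hK⟩ ⟨L, hL⟩ h1 h2 a
  have u1 : ∀ a, Tendsto (fun p : I × J => ‖act m a (f p.1 - x)‖) (l ×ˢ l') (𝓝 0) :=
    fun a => (h1 a).comp tendsto_fst
  have u2 : ∀ a, Tendsto (fun p : I × J => ‖act m a (g p.2 - y)‖) (l ×ˢ l') (𝓝 0) :=
    fun a => (h2 a).comp tendsto_snd
  have t1 := both0 h (l ×ˢ l') (fun p => f p.1 - x) (fun p => g p.2 - y)
    (fun p => mult_sub h (hf _) hx) (fun p => mult_sub h (hg _) hy)
    (max (K + ‖x‖) (L + ‖y‖))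
    (fun p => ((norm_sub_le (E := DD A) _ _).trans (add_le_add (hK _) le_rfl)).trans (le_max_left _ _))
    (fun p => ((norm_sub_le (E := DD A) _ _).trans (add_le_add (hL _) le_rfl)).trans (le_max_right _ _)) u1 u2 a
  have t2 := left0 h (l ×ˢ l') (fun p => f p.1 - x) (fun p => mult_sub h (hf _) hx) y hy u1 a
  have t3 := right0 h (l ×ˢ l') (fun p => g p.2 - y) (fun p => mult_sub h (hg _) hy) x hx u2 a
  change Tendsto (fun p : I × J => ‖act m a (arens m (f p.1) (g p.2) - arens m x y)‖) _ _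
  refine squeeze_zero (fun _ => ContinuousLinearMap.opNorm_nonneg _) (fun p => ?_) (by simpa using (t1.add t2).add t3)
  have e : arens m (f p.1) (g p.2) - arens m x y = arens m (f p.1 - x) (g p.2 - y) +
      arens m (f p.1 - x) y + arens m x (g p.2 - y) := by
    ext φ
    simp only [arens_sub, arens_sub', ContinuousLinearMap.sub_apply, ContinuousLinearMap.add_apply]
    ring
  rw [e, act_add', act_add']
  exact (ContinuousLinearMap.opNorm_add_le _ _).trans
    (add_le_add (ContinuousLinearMap.opNorm_add_le _ _) le_rfl)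

end H91JS
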