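import Mathlib

set_option autoImplicit false

namespace H91.James

open Finset Filter Topology

noncomputable def w (j : ℕ) : ℝ := 1 / (j.factorial : ℝ)
def k (j : ℕ) : ℕ := j.factorial ^ 4

/-- a configuration of sample points -/
structure Cf where
  J : ℕ
  p : ℕ → ℕ → ℕ
  mono : ∀ j, Monotone (p j)
  m : ℕ

instance : Nonempty Cf := ⟨⟨0, fun _ _ => 0, fun _ => monotone_const, 0⟩⟩

variable {V : Type} [NormedAddCommGroup V] [NormedSpace ℝ V] (u : ℕ → V →L[ℝ] ℝ)

noncomputable def R (j : ℕ) (p : ℕ → ℕ) (x : ℕ → V) : ℝ :=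
  ∑ i ∈ range (k j), (w j * u j (x (p i) - x (p (i + 1)))) ^ 2
noncomputable def S (γ : Cf) (x : ℕ → V) : ℝ := ∑ j ∈ range γ.J, R u j (γ.p j) x
noncomputable def Q (γ : Cf) (x : ℕ → V) : ℝ := √(S u γ x) + ‖x γ.m‖

lemma R_nonneg (j : ℕ) (p : ℕ → ℕ) (x : ℕ → V) : 0 ≤ R u j p x := sum_nonneg fun _ _ => sq_nonneg _
lemma S_nonneg (γ : Cf) (x : ℕ → V) : 0 ≤ S u γ x := sum_nonneg fun _ _ => R_nonneg u _ _ _

lemma mink {ι : Type} (s : Finset ι) (a b : ι → ℝ) :
    √(∑ i ∈ s, (a i + b i) ^ 2) ≤ √(∑ i ∈ s, a i ^ 2) + √(∑ i ∈ s, b i ^ 2) := by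
  refine Real.sqrt_le_iff.mpr ⟨by positivity, ?_⟩
  have h1 := Real.sum_mul_le_sqrt_mul_sqrt s a b
  have h2 := Real.sq_sqrt (show 0 ≤ ∑ i ∈ s, a i ^ 2 by positivity)
  have h3 := Real.sq_sqrt (show 0 ≤ ∑ i ∈ s, b i ^ 2 by positivity)
  have e : ∑ i ∈ s, (a i + b i) ^ 2 =
      ∑ i ∈ s, a i ^ 2 + 2 * ∑ i ∈ s, a i * b i + ∑ i ∈ s, b i ^ 2 := by
    rw [mul_sum, ← sum_add_distrib, ← sum_add_distrib]; exact sum_congr rfl fun _ _ => by ring
  nlinarith

lemma S_add (γ : Cf) (x y : ℕ → V) : √(S u γ (x + y)) ≤ √(S u γ x) + √(S u γ y) := by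
  simp only [S, R, Finset.sum_sigma']
  refine le_trans (le_of_eq ?_) (mink _ _ _)
  congr 1
  refine sum_congr rfl fun t _ => ?_
  simp only [Pi.add_apply, map_sub, map_add]; ring

lemma S_smul (γ : Cf) (c : ℝ) (x : ℕ → V) : S u γ (c • x) = c ^ 2 * S u γ x := by
  simp only [S, R, mul_sum]
  refine sum_congr rfl fun j _ => sum_congr rfl fun i _ => ?_
  simp only [Pi.smul_apply, map_sub, map_smul, smul_eq_mul]; ring

lemma Q_add (γ : Cf) (x y : ℕ → V) : Q u γ (x + y) ≤ Q u γ x + Q u γ y := by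
  have h1 := S_add u γ x y
  have h2 := norm_add_le (x γ.m) (y γ.m)
  simp only [Q, Pi.add_apply]; linarith

lemma Q_smul (γ : Cf) (c : ℝ) (x : ℕ → V) : Q u γ (c • x) = |c| * Q u γ x := by
  simp only [Q, S_smul, Pi.smul_apply, norm_smul, Real.norm_eq_abs]
  rw [Real.sqrt_mul (sq_nonneg c), Real.sqrt_sq_eq_abs]; ring

lemma Q_nonneg (γ : Cf) (x : ℕ → V) : 0 ≤ Q u γ x := by unfold Q; positivity

lemma Q_cont (γ : Cf) : Continuous (Q u γ) := by unfold Q S R; fun_prop

/-- the James-type space as a submodule -/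
def Sp : Submodule ℝ (ℕ → V) where
  carrier := {x | Tendsto x atTop (𝓝 0) ∧ ∃ C, ∀ γ, Q u γ x ≤ C}
  add_mem' := by
    rintro x y ⟨hx, C, hC⟩ ⟨hy, D, hD⟩
    exact ⟨by have := hx.add hy; rw [add_zero] at this; exact this, C + D,
      fun γ => (Q_add u γ x y).trans (add_le_add (hC γ) (hD γ))⟩
  zero_mem' := ⟨tendsto_const_nhds, 0, fun γ => by simp [Q, S, R]⟩
  smul_mem' := by
    rintro c x ⟨hx, C, hC⟩
    exact ⟨by have := hx.const_smul c; rw [smul_zero] at this; exact this,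
      |c| * C, fun γ => by rw [Q_smul]; gcongr; exact hC γ⟩

/-- the James-type space -/
def G : Type := ↥(Sp u)

instance : AddCommGroup (G u) := inferInstanceAs (AddCommGroup ↥(Sp u))
instance : Module ℝ (G u) := inferInstanceAs (Module ℝ ↥(Sp u))

/-- underlying sequence -/
def val : G u →ₗ[ℝ] (ℕ → V) := (Sp u).subtype

/-- constructor -/
def mk (x : ℕ → V) (h1 : Tendsto x atTop (𝓝 0)) (h2 : ∃ C, ∀ γ, Q u γ x ≤ C) : G u :=
  (⟨x, h1, h2⟩ : ↥(Sp u))

variable {u}

@[simp] lemma val_mk (x : ℕ → V) (h1 : Tendsto x atTop (𝓝 0)) (h2 : ∃ C, ∀ γ, Q u γ x ≤ C) :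
    val u (mk u x h1 h2) = x := rfl

lemma val_inj {x y : G u} (h : val u x = val u y) : x = y := Subtype.ext h
lemma val_lim (x : G u) : Tendsto (val u x) atTop (𝓝 0) := (show ↥(Sp u) from x).2.1
lemma val_bdd (x : G u) : BddAbove (Set.range fun γ => Q u γ (val u x)) := by
  obtain ⟨C, hC⟩ := (show ↥(Sp u) from x).2.2
  exact ⟨C, by rintro _ ⟨γ, rfl⟩; exact hC γ⟩

noncomputable instance : NormedAddCommGroup (G u) :=
  AddGroupNorm.toNormedAddCommGroup
    { toFun := fun x => ⨆ γ, Q u γ (val u x)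
      map_zero' := by simp [Q, S, R]
      add_le' := fun x y => ciSup_le fun γ => by
        rw [map_add]
        exact (Q_add u γ _ _).trans (add_le_add (le_ciSup (val_bdd x) γ) (le_ciSup (val_bdd y) γ))
      neg' := fun x => by
        congr 1; funext γ
        rw [map_neg, ← neg_one_smul ℝ (val u x), Q_smul]; simp
      eq_zero_of_map_eq_zero' := fun x hx => by
        apply val_inj; funext m
        have := le_ciSup (val_bdd x) ⟨0, fun _ _ => 0, fun _ => monotone_const, m⟩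
        rw [hx] at this
        simpa [Q, S] using this }

lemma Q_le (x : G u) (γ : Cf) : Q u γ (val u x) ≤ ‖x‖ := le_ciSup (val_bdd x) γ
lemma norm_le {x : G u} {C : ℝ} (h : ∀ γ, Q u γ (val u x) ≤ C) : ‖x‖ ≤ C := ciSup_le h

noncomputable instance : NormedSpace ℝ (G u) where
  norm_smul_le c x := norm_le fun γ => by
    rw [map_smul, Q_smul, Real.norm_eq_abs]; gcongr; exact Q_le x γ

lemma coord_le (x : G u) (m : ℕ) : ‖val u x m‖ ≤ ‖x‖ := by
  simpa [Q, S] using Q_le x ⟨0, fun _ _ => 0, fun _ => monotone_const, m⟩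

lemma S_le (x : G u) (γ : Cf) : S u γ (val u x) ≤ ‖x‖ ^ 2 := by
  have h := Q_le x γ
  have h2 : √(S u γ (val u x)) ≤ ‖x‖ := by
    unfold Q at h; linarith [norm_nonneg (val u x γ.m)]
  exact (Real.sqrt_le_left (norm_nonneg _)).mp h2

instance [CompleteSpace V] : CompleteSpace (G u) := by
  refine Metric.complete_of_cauchySeq_tendsto fun f hf => ?_
  have h1 : ∀ m, CauchySeq (fun n => val u (f n) m) := fun m => by
    refine Metric.cauchySeq_iff.mpr fun ε hε => ?_
    obtain ⟨N, hN⟩ := Metric.cauchySeq_iff.mp hf ε hε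
    refine ⟨N, fun a ha b hb => lt_of_le_of_lt ?_ (hN a ha b hb)⟩
    rw [dist_eq_norm, dist_eq_norm]
    simpa using coord_le (f a - f b) m
  choose y hy using fun m => cauchySeq_tendsto_of_complete (h1 m)
  have hy' : Tendsto (fun n => val u (f n)) atTop (𝓝 y) := tendsto_pi_nhds.mpr hy
  have key : ∀ ε > 0, ∃ N, ∀ n ≥ N, ∀ γ, Q u γ (val u (f n) - y) ≤ ε := by
    intro ε hε
    obtain ⟨N, hN⟩ := Metric.cauchySeq_iff.mp hf ε hε
    refine ⟨N, fun n hn γ => ?_⟩
    have ht : Tendsto (fun m => Q u γ (val u (f n) - val u (f m))) atTop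
        (𝓝 (Q u γ (val u (f n) - y))) :=
      ((Q_cont u γ).tendsto _).comp (tendsto_const_nhds.sub hy')
    refine le_of_tendsto ht (eventually_atTop.mpr ⟨N, fun m hm => ?_⟩)
    have := hN n hn m hm
    rw [dist_eq_norm] at this
    rw [← map_sub]; exact (Q_le _ γ).trans this.le
  have hy0 : Tendsto y atTop (𝓝 0) := by
    refine Metric.tendsto_atTop.mpr fun ε hε => ?_
    obtain ⟨N, hN⟩ := key (ε / 2) (by positivity)
    obtain ⟨M, hM⟩ := Metric.tendsto_atTop.mp (val_lim (f N)) (ε / 2) (by positivity)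
    refine ⟨M, fun m hm => ?_⟩
    have a1 := hN N le_rfl ⟨0, fun _ _ => 0, fun _ => monotone_const, m⟩
    simp only [Q, S, range_zero, sum_empty, Real.sqrt_zero, zero_add, Pi.sub_apply] at a1
    have a2 := hM m hm
    rw [dist_zero_right] at a2 ⊢
    have := norm_sub_norm_le (y m) (val u (f N) m)
    rw [norm_sub_rev] at this
    linarith
  obtain ⟨N1, hN1⟩ := key 1 one_pos
  have hyb : ∃ C, ∀ γ, Q u γ y ≤ C := ⟨‖f N1‖ + 1, fun γ => by
    have e : y = val u (f N1) + (-1 : ℝ) • (val u (f N1) - y) := by simp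
    rw [e]
    refine (Q_add u γ _ _).trans (add_le_add (Q_le _ γ) ?_)
    rw [Q_smul]; simpa using hN1 N1 le_rfl γ⟩
  refine ⟨mk u y hy0 hyb, Metric.tendsto_atTop.mpr fun ε hε => ?_⟩
  obtain ⟨N, hN⟩ := key (ε / 2) (by positivity)
  refine ⟨N, fun n hn => ?_⟩
  rw [dist_eq_norm]
  refine lt_of_le_of_lt (norm_le fun γ => ?_) (half_lt_self hε)
  rw [map_sub, val_mk]; exact hN n hn γ

lemma R_smul (j : ℕ) (p : ℕ → ℕ) (y : ℕ → ℝ) (v : V) :
    R u j p (fun m => y m • v) =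
      (w j * u j v) ^ 2 * ∑ i ∈ range (k j), (y (p i) - y (p (i + 1))) ^ 2 := by
  simp only [R, mul_sum, map_sub, map_smul, smul_eq_mul]
  exact sum_congr rfl fun i _ => by ring

lemma tv {σ : ℕ → ℝ} (h : Antitone σ) (h0 : ∀ m, 0 ≤ σ m) (h1 : ∀ m, σ m ≤ 1) {p : ℕ → ℕ}
    (hp : Monotone p) (n : ℕ) : ∑ i ∈ range n, |σ (p i) - σ (p (i + 1))| ≤ 1 := by
  have : ∑ i ∈ range n, |σ (p i) - σ (p (i + 1))| = ∑ i ∈ range n, (σ (p i) - σ (p (i + 1))) :=
    sum_congr rfl fun i _ => abs_of_nonneg (sub_nonneg.mpr (h (hp (Nat.le_succ i))))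
  rw [this, Finset.sum_range_sub' (fun i => σ (p i))]
  linarith [h0 (p n), h1 (p 0)]

lemma sq_le_abs_of {a : ℝ} (h : |a| ≤ 1) : a ^ 2 ≤ |a| := by
  rw [← sq_abs]; nlinarith [abs_nonneg a]

lemma w_pos (j : ℕ) : 0 < w j := by unfold w; positivity

lemma sum_w (J : ℕ) : ∑ j ∈ range J, w j ^ 2 ≤ 4 := by
  have h1 := Real.sum_le_exp_of_nonneg zero_le_one J
  have h2 := Real.exp_one_lt_d9
  refine le_trans (sum_le_sum fun j _ => ?_) (h1.trans (by linarith))
  have : (1:ℝ) ≤ j.factorial := by exact_mod_cast Nat.factorial_pos j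
  have h3 : w j ≤ 1 := by unfold w; rw [div_le_one (by linarith)]; exact this
  have h4 := w_pos j
  have : (1:ℝ) ^ j / j.factorial = w j := by simp [w]
  rw [this]; nlinarith

/-- indicator of an initial segment -/
noncomputable def ind (t m : ℕ) : ℝ := if m < t then 1 else 0

lemma ind_anti (t : ℕ) : Antitone (ind t) := fun a b hab => by
  unfold ind; split_ifs <;> first | omega | norm_num
lemma ind_mono {s t : ℕ} (h : s ≤ t) (m : ℕ) : ind s m ≤ ind t m := by
  unfold ind; split_ifs <;> first | omega | norm_num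
lemma ind_0 (t m : ℕ) : 0 ≤ ind t m := by unfold ind; split_ifs <;> norm_num
lemma ind_1 (t m : ℕ) : ind t m ≤ 1 := by unfold ind; split_ifs <;> norm_num

/-- uniform bound on the functionals -/
def Bd (u : ℕ → V →L[ℝ] ℝ) : Prop := ∀ j v, |u j v| ≤ 2 * ‖v‖

lemma Q_step (hU : Bd u) (t : ℕ) (a : V) (γ : Cf) : Q u γ (fun m => ind t m • a) ≤ 5 * ‖a‖ := by
  have h1 : S u γ (fun m => ind t m • a) ≤ (4 * ‖a‖) ^ 2 := by
    unfold S
    have : ∀ j ∈ range γ.J, R u j (γ.p j) (fun m => ind t m • a) ≤ w j ^ 2 * (2 * ‖a‖) ^ 2 := by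
      intro j _
      rw [R_smul, mul_pow]
      have a1 : ∑ i ∈ range (k j), (ind t (γ.p j i) - ind t (γ.p j (i + 1))) ^ 2 ≤ 1 := by
        refine le_trans (sum_le_sum fun i _ => sq_le_abs_of ?_)
          (tv (ind_anti t) (ind_0 t) (ind_1 t) (γ.mono j) _)
        rw [abs_le]
        constructor <;> linarith [ind_0 t (γ.p j i), ind_1 t (γ.p j i), ind_0 t (γ.p j (i + 1)),
          ind_1 t (γ.p j (i + 1))]
      have a2 : (u j a) ^ 2 ≤ (2 * ‖a‖) ^ 2 := by
        rw [← sq_abs]; gcongr; exact hU j a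
      exact (mul_le_of_le_one_right (by positivity) a1).trans (by gcongr)
    refine (sum_le_sum this).trans ?_
    rw [← sum_mul]
    nlinarith [sum_w γ.J, sq_nonneg ‖a‖]
  have h2 := Real.sqrt_le_sqrt h1
  rw [Real.sqrt_sq (by positivity)] at h2
  have h3 : ‖ind t γ.m • a‖ ≤ ‖a‖ := by
    rw [norm_smul, Real.norm_of_nonneg (ind_0 _ _)]
    exact mul_le_of_le_one_left (norm_nonneg _) (ind_1 _ _)
  unfold Q; linarith

/-- the step vector -/
noncomputable def stp (hU : Bd u) (t : ℕ) (a : V) : G u :=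
  mk u (fun m => ind t m • a)
    (tendsto_const_nhds.congr' (eventually_atTop.mpr ⟨t, fun m hm => by
      simp [ind, not_lt.mpr hm]⟩)) ⟨_, Q_step hU t a⟩

@[simp] lemma val_stp (hU : Bd u) (t : ℕ) (a : V) (m : ℕ) : val u (stp hU t a) m = ind t m • a := rfl

lemma stp_le (hU : Bd u) (t : ℕ) (a : V) : ‖stp hU t a‖ ≤ 5 * ‖a‖ := norm_le (Q_step hU t a)

/-- the tail of a vector -/
noncomputable def tl (q : ℕ) (x : G u) : G u :=
  mk u (fun m => val u x (max m q)) ((val_lim x).comp (tendsto_atTop_mono (fun m => le_max_left m q)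
    tendsto_id)) ⟨‖x‖, fun γ => Q_le x ⟨γ.J, fun j i => max (γ.p j i) q,
      fun j => (γ.mono j).max monotone_const, max γ.m q⟩⟩

@[simp] lemma val_tl (q : ℕ) (x : G u) (m : ℕ) : val u (tl q x) m = val u x (max m q) := rfl

lemma tl_small (hU : Bd u) (x : G u) {ε : ℝ} (hε : 0 < ε) : ∀ᶠ q in atTop, ‖tl q x‖ ≤ ε := by
  have hb : BddAbove (Set.range fun γ => S u γ (val u x)) :=
    ⟨‖x‖ ^ 2, by rintro _ ⟨γ, rfl⟩; exact S_le x γ⟩
  obtain ⟨γ0, h0⟩ := exists_lt_of_lt_ciSup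
    (show (⨆ γ, S u γ (val u x)) - ε ^ 2 / 8 < ⨆ γ, S u γ (val u x) by
      have : 0 < ε ^ 2 / 8 := by positivity
      linarith)
  set A : ℝ := ∑ j ∈ range γ0.J, (k j : ℝ) * (w j * 4) ^ 2 with hA
  have hA0 : 0 ≤ A := sum_nonneg fun j _ => by positivity
  have hc : ContinuousAt (fun δ : ℝ => A * δ ^ 2) 0 := by fun_prop
  have e1 : ∀ᶠ δ in 𝓝 (0:ℝ), A * δ ^ 2 < ε ^ 2 / 8 := hc.eventually (gt_mem_nhds (by
    simp only []; rw [zero_pow two_ne_zero, mul_zero]; positivity))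
  obtain ⟨δ, ⟨hδ1, hδ2⟩, hδ⟩ := (((e1.and (gt_mem_nhds (half_pos hε))).filter_mono
    nhdsWithin_le_nhds).and (self_mem_nhdsWithin (s := Set.Ioi (0:ℝ)))).exists
  have hδ0 : 0 < δ := hδ
  obtain ⟨q0, hq0⟩ := Metric.tendsto_atTop.mp (val_lim x) δ hδ0
  refine eventually_atTop.mpr ⟨q0, fun q hq => norm_le fun γ => ?_⟩
  have hx : ∀ m, ‖val u x (max m q)‖ ≤ δ := fun m => by
    have := hq0 (max m q) (hq.trans (le_max_right _ _))
    rw [dist_zero_right] at this; exact this.le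
  let r : ℕ → ℝ := fun j => R u j (fun i => max (γ.p j i) q) (val u x)
  have hr0 : ∀ j, 0 ≤ r j := fun j => R_nonneg _ _ _ _
  have e2 : S u γ (val u (tl q x)) = ∑ j ∈ range γ.J, r j := rfl
  have e3 : ∑ j ∈ range γ.J, r j ≤ ∑ j ∈ range (γ0.J + γ.J), r j :=
    sum_le_sum_of_subset_of_nonneg (range_subset_range.mpr (Nat.le_add_left _ _)) fun j _ _ => hr0 j
  rw [sum_range_add] at e3
  have e4 : ∑ j ∈ range γ0.J, r j ≤ A * δ ^ 2 := by
    rw [hA, sum_mul]
    refine sum_le_sum fun j _ => ?_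
    have : ∀ i ∈ range (k j), (w j * u j (val u x (max (γ.p j i) q) - val u x (max (γ.p j (i + 1)) q))) ^ 2
        ≤ (w j * 4) ^ 2 * δ ^ 2 := by
      intro i _
      have a1 := hU j (val u x (max (γ.p j i) q) - val u x (max (γ.p j (i + 1)) q))
      have a2 := norm_sub_le (val u x (max (γ.p j i) q)) (val u x (max (γ.p j (i + 1)) q))
      have a3 : |u j (val u x (max (γ.p j i) q) - val u x (max (γ.p j (i + 1)) q))| ≤ 4 * δ := by
        linarith [hx (γ.p j i), hx (γ.p j (i + 1))]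
      rw [mul_pow, ← sq_abs (u j _), ← mul_pow (w j * 4), mul_assoc, mul_pow (w j)]
      gcongr
    refine (sum_le_sum this).trans ?_
    rw [sum_const, card_range, nsmul_eq_mul]; ring_nf; rfl
  have e5 := le_ciSup hb ⟨γ0.J + γ.J, fun j => if j < γ0.J then γ0.p j else fun i => max (γ.p j i) q,
    fun j => by split_ifs; exacts [γ0.mono j, (γ.mono j).max monotone_const], 0⟩
  simp only [S] at e5 h0
  rw [sum_range_add] at e5
  have e6 : ∑ j ∈ range γ0.J, R u j (if j < γ0.J then γ0.p j else fun i => max (γ.p j i) q) (val u x)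
      = ∑ j ∈ range γ0.J, R u j (γ0.p j) (val u x) :=
    sum_congr rfl fun j hj => by rw [if_pos (mem_range.mp hj)]
  have e7 : ∑ j ∈ range γ.J, R u (γ0.J + j) (if γ0.J + j < γ0.J then γ0.p (γ0.J + j) else
      fun i => max (γ.p (γ0.J + j) i) q) (val u x) = ∑ j ∈ range γ.J, r (γ0.J + j) :=
    sum_congr rfl fun j _ => by rw [if_neg (by omega)]
  rw [e6, e7] at e5
  have e8 : S u γ (val u (tl q x)) ≤ (ε / 2) ^ 2 := by rw [e2]; linarith
  have e9 := Real.sqrt_le_sqrt e8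
  rw [Real.sqrt_sq (by positivity)] at e9
  have := hx γ.m
  unfold Q; rw [val_tl]; linarith

lemma two_est {ι : Type} (s : Finset ι) (f g : ι → ℝ) (hf : ∀ i j, f i ≠ 0 → f j ≠ 0 → i = j)
    (hg : ∀ i j, g i ≠ 0 → g j ≠ 0 → i = j) :
    (∑ i ∈ s, (f i - g i)) ^ 2 ≤ 2 * ∑ i ∈ s, (f i - g i) ^ 2 := by
  classical
  set s' := s.filter (fun i => f i - g i ≠ 0) with hs'
  have e1 : ∑ i ∈ s, (f i - g i) = ∑ i ∈ s', (f i - g i) := (sum_filter_ne_zero s).symm
  have e2 : s'.card ≤ 2 := by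
    have : s' ⊆ s.filter (fun i => f i ≠ 0) ∪ s.filter (fun i => g i ≠ 0) := by
      intro i hi
      simp only [hs', mem_filter, mem_union] at hi ⊢
      by_cases h : f i = 0
      · right; refine ⟨hi.1, fun h' => hi.2 (by rw [h, h', sub_zero])⟩
      · left; exact ⟨hi.1, h⟩
    have a1 : (s.filter (fun i => f i ≠ 0)).card ≤ 1 :=
      card_le_one.mpr fun a ha b hb => hf a b (mem_filter.mp ha).2 (mem_filter.mp hb).2
    have a2 : (s.filter (fun i => g i ≠ 0)).card ≤ 1 :=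
      card_le_one.mpr fun a ha b hb => hg a b (mem_filter.mp ha).2 (mem_filter.mp hb).2
    have := (card_le_card this).trans (card_union_le _ _)
    omega
  have e3 : ∑ i ∈ s', (f i - g i) ^ 2 ≤ ∑ i ∈ s, (f i - g i) ^ 2 :=
    sum_le_sum_of_subset_of_nonneg (filter_subset _ _) fun _ _ _ => sq_nonneg _
  have e4 : (s'.card : ℝ) ≤ 2 := by exact_mod_cast e2
  rw [e1]
  refine sq_sum_le_card_mul_sum_sq.trans (mul_le_mul e4 e3 (by positivity) (by norm_num))

lemma block_sum (b : ℕ → G u) (N : ℕ) {M : ℝ} (hM : ∀ i, ‖b i‖ ≤ M)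
    (hd : ∀ m i j, val u (b i) m ≠ 0 → val u (b j) m ≠ 0 → i = j) :
    ‖∑ i ∈ range N, b i‖ ≤ 2 * √(2 * (N * M ^ 2)) := by
  refine norm_le fun γ => ?_
  have h1 : S u γ (val u (∑ i ∈ range N, b i)) ≤ 2 * ∑ i ∈ range N, S u γ (val u (b i)) := by
    simp only [S, R]
    rw [sum_comm, mul_sum]
    refine sum_le_sum fun j _ => ?_
    rw [sum_comm, mul_sum]
    refine sum_le_sum fun i _ => ?_
    have := two_est (range N) (fun l => w j * u j (val u (b l) (γ.p j i)))
      (fun l => w j * u j (val u (b l) (γ.p j (i + 1))))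
      (fun a c ha hc => hd (γ.p j i) a c (fun h => ha (by simp [h])) (fun h => hc (by simp [h])))
      (fun a c ha hc => hd (γ.p j (i + 1)) a c (fun h => ha (by simp [h])) (fun h => hc (by simp [h])))
    simp only [map_sum, Finset.sum_apply, map_sub, mul_sub, mul_sum, ← sum_sub_distrib] at this ⊢
    exact this
  have hM2 : ∀ i, ‖b i‖ ^ 2 ≤ M ^ 2 := fun i => by gcongr; exact hM i
  have h2 : ∑ i ∈ range N, S u γ (val u (b i)) ≤ N * M ^ 2 := by
    refine (sum_le_sum fun i _ => (S_le (b i) γ).trans (hM2 i)).trans ?_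
    simp
  have h3 : ‖val u (∑ i ∈ range N, b i) γ.m‖ ≤ √(2 * (N * M ^ 2)) := by
    rw [map_sum, Finset.sum_apply]
    refine (norm_sum_le _ _).trans (Real.le_sqrt_of_sq_le ?_)
    have := two_est (range N) (fun l => ‖val u (b l) γ.m‖) (fun _ => 0)
      (fun a c ha hc => hd γ.m a c (norm_ne_zero_iff.mp ha) (norm_ne_zero_iff.mp hc))
      (fun a c ha _ => absurd rfl ha)
    simp only [sub_zero] at this
    refine this.trans (mul_le_mul_of_nonneg_left ?_ (by norm_num))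
    refine (sum_le_sum fun i _ => (show ‖val u (b i) γ.m‖ ^ 2 ≤ M ^ 2 from ?_)).trans (by simp)
    gcongr; exact (coord_le _ _).trans (hM i)
  have h4 := Real.sqrt_le_sqrt (h1.trans (mul_le_mul_of_nonneg_left h2 (by norm_num)))
  unfold Q; linarith


lemma blockstep (hU : Bd u) (z : ℕ → G u) (v : V) {M η : ℝ} (hη : 0 < η) (hη1 : η ≤ 1)
    (hz : ∀ m, Tendsto (fun n => val u (z n) m) atTop (𝓝 v)) (hM : ∀ n, ‖z n‖ ≤ M)
    {φ : ℕ → ℕ} (hφ : StrictMono φ) (p : ℕ) :
    ∃ n q, ∃ b : G u, p < φ n ∧ φ n ≤ q ∧ (∀ m, val u b m ≠ 0 → p ≤ m ∧ m < q) ∧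
      ‖z n - stp hU p v - b‖ ≤ η ∧ ‖b‖ ≤ M + 5 * ‖v‖ + 1 := by
  have h1 : Tendsto (fun n => ∑ i ∈ range p, 10 * ‖val u (z n) i - v‖) atTop (𝓝 0) := by
    have := tendsto_finsetSum (range p) (fun i _ =>
      ((tendsto_iff_norm_sub_tendsto_zero.mp (hz i)).const_mul 10))
    simpa using this
  obtain ⟨n, hn1, hn2⟩ := ((h1.eventually (gt_mem_nhds (show 0 < η / 3 by positivity))).and
    (hφ.tendsto_atTop.eventually_gt_atTop p)).exists
  have h2 : Tendsto (fun q => 5 * ‖val u (z n) q‖) atTop (𝓝 0) := by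
    simpa using (val_lim (z n)).norm.const_mul 5
  obtain ⟨q, ⟨hq1, hq2⟩, hq3⟩ := (((h2.eventually (gt_mem_nhds (show 0 < η / 3 by positivity))).and
    (tl_small hU (z n) (show 0 < η / 3 by positivity))).and (eventually_ge_atTop (φ n))).exists
  let H : G u := ∑ i ∈ range p, (stp hU (i + 1) (val u (z n) i - v) - stp hU i (val u (z n) i - v))
  have hH : ‖H‖ ≤ η / 3 := by
    refine (norm_sum_le _ _).trans (le_trans (sum_le_sum fun i _ => ?_) hn1.le)
    have := stp_le hU (i + 1) (val u (z n) i - v)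
    have := stp_le hU i (val u (z n) i - v)
    linarith [norm_sub_le (stp hU (i + 1) (val u (z n) i - v)) (stp hU i (val u (z n) i - v))]
  have hHv : ∀ m, val u H m = if m < p then val u (z n) m - v else 0 := by
    intro m
    simp only [H, map_sum, map_sub, Finset.sum_apply, Pi.sub_apply, val_stp]
    have : ∀ i ∈ range p, ind (i + 1) m • (val u (z n) i - v) - ind i m • (val u (z n) i - v) =
        if m = i then val u (z n) i - v else 0 := by
      intro i _
      unfold ind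
      split_ifs <;> first | omega | simp
    rw [sum_congr rfl this, sum_ite_eq]
    simp
  let e : G u := H + tl q (z n) - stp hU p (val u (z n) q)
  have he : ‖e‖ ≤ η := by
    have a1 := stp_le hU p (val u (z n) q)
    have a2 := norm_sub_le (H + tl q (z n)) (stp hU p (val u (z n) q))
    have a3 := norm_add_le H (tl q (z n))
    simp only [e]; linarith
  refine ⟨n, q, z n - stp hU p v - e, hn2, hq3, fun m hm => ?_, by simpa using he, ?_⟩
  · by_contra hc
    apply hm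
    simp only [e, map_sub, map_add, Pi.sub_apply, Pi.add_apply, val_stp, val_tl, hHv, ind]
    by_cases h : m < p
    · rw [max_eq_right (by omega)]; simp [h]
    · rw [max_eq_left (by omega)]; simp [h]
  · have a1 := norm_sub_le (z n - stp hU p v) e
    have a2 := norm_sub_le (z n) (stp hU p v)
    linarith [hM n, stp_le hU p v]

/-- averaged indicator -/
noncomputable def sg (t : ℕ → ℕ) (N l m : ℕ) : ℝ := (1 / N : ℝ) * ∑ r ∈ range N, ind (t (l * N + r)) m
/-- alternating sum of averaged indicators -/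
noncomputable def alt (t : ℕ → ℕ) (N K m : ℕ) : ℝ :=
  ∑ l ∈ range K, (sg t N (2 * l + 1) m - sg t N (2 * l) m)

lemma sg_0 (t : ℕ → ℕ) (N l m : ℕ) : 0 ≤ sg t N l m :=
  mul_nonneg (by positivity) (sum_nonneg fun _ _ => ind_0 _ _)
lemma sg_1 (t : ℕ → ℕ) (N l m : ℕ) : sg t N l m ≤ 1 := by
  unfold sg
  have : ∑ r ∈ range N, ind (t (l * N + r)) m ≤ N :=
    (sum_le_sum fun r _ => ind_1 _ _).trans (by simp)
  refine (mul_le_mul_of_nonneg_left this (by positivity)).trans ?_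
  rw [one_div]; exact inv_mul_le_one
lemma sg_anti (t : ℕ → ℕ) (N l : ℕ) : Antitone (sg t N l) := fun _ _ h =>
  mul_le_mul_of_nonneg_left (sum_le_sum fun _ _ => ind_anti _ h) (by positivity)
lemma sg_mono {t : ℕ → ℕ} (ht : Monotone t) (N l m : ℕ) : sg t N l m ≤ sg t N (l + 1) m :=
  mul_le_mul_of_nonneg_left (sum_le_sum fun _ _ => ind_mono (ht (by nlinarith)) _) (by positivity)

lemma alt_0 {t : ℕ → ℕ} (ht : Monotone t) (N K m : ℕ) : 0 ≤ alt t N K m :=
  sum_nonneg fun l _ => sub_nonneg.mpr (sg_mono ht N _ m)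
lemma alt_1 {t : ℕ → ℕ} (ht : Monotone t) (N K m : ℕ) : alt t N K m ≤ 1 := by
  have : alt t N K m ≤ ∑ l ∈ range K, (sg t N (2 * (l + 1)) m - sg t N (2 * l) m) :=
    sum_le_sum fun l _ => sub_le_sub_right (sg_mono ht N (2 * l + 1) m) _
  rw [Finset.sum_range_sub (fun l => sg t N (2 * l) m)] at this
  linarith [sg_0 t N (2 * 0) m, sg_1 t N (2 * K) m]

lemma alt_var {t : ℕ → ℕ} (ht : Monotone t) (N K : ℕ) {p : ℕ → ℕ} (hp : Monotone p) (n : ℕ) :
    ∑ i ∈ range n, (alt t N K (p i) - alt t N K (p (i + 1))) ^ 2 ≤ 2 * min (n : ℝ) K := by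
  have h1 : ∀ i, |alt t N K (p i) - alt t N K (p (i + 1))| ≤ 1 := fun i => by
    rw [abs_le]
    constructor <;> linarith [alt_0 ht N K (p i), alt_1 ht N K (p i), alt_0 ht N K (p (i + 1)),
      alt_1 ht N K (p (i + 1))]
  have h2 : ∑ i ∈ range n, |alt t N K (p i) - alt t N K (p (i + 1))| ≤ n :=
    (sum_le_sum fun i _ => h1 i).trans (by simp)
  have h3 : ∑ i ∈ range n, |alt t N K (p i) - alt t N K (p (i + 1))| ≤ 2 * K := by
    have : ∀ i ∈ range n, |alt t N K (p i) - alt t N K (p (i + 1))| ≤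
        ∑ l ∈ range K, (|sg t N (2 * l + 1) (p i) - sg t N (2 * l + 1) (p (i + 1))| +
          |sg t N (2 * l) (p i) - sg t N (2 * l) (p (i + 1))|) := by
      intro i _
      unfold alt
      rw [← sum_sub_distrib]
      refine (abs_sum_le_sum_abs _ _).trans (sum_le_sum fun l _ => ?_)
      refine le_trans (le_of_eq ?_) (abs_sub _ _)
      congr 1; ring
    refine (sum_le_sum this).trans ?_
    rw [sum_comm]
    refine (sum_le_sum (g := fun _ => (2:ℝ)) fun l _ => ?_).trans (by simp [mul_comm])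
    rw [sum_add_distrib]
    linarith [tv (sg_anti t N (2 * l + 1)) (sg_0 t N _) (sg_1 t N _) hp n,
      tv (sg_anti t N (2 * l)) (sg_0 t N _) (sg_1 t N _) hp n]
  have h4 := sum_le_sum (s := range n) fun i _ => sq_le_abs_of (h1 i)
  have h5 : (0:ℝ) ≤ n := by positivity
  rcases le_total (n : ℝ) K with h | h
  · rw [min_eq_left h]; linarith
  · rw [min_eq_right h]; linarith

lemma alt_val {t P : ℕ → ℕ} (hP : Monotone P) (h1 : ∀ i, P i < t i) (h2 : ∀ i, t i ≤ P (i + 1))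
    {N : ℕ} (hN : 0 < N) (K i : ℕ) (hi : i < 2 * K) :
    alt t N K (P (i * N)) = if i % 2 = 1 then 1 else 0 := by
  have hs : ∀ l, sg t N l (P (i * N)) = if i ≤ l then 1 else 0 := by
    intro l
    unfold sg
    have : ∀ r ∈ range N, ind (t (l * N + r)) (P (i * N)) = if i ≤ l then 1 else 0 := by
      intro r hr
      have hr' := mem_range.mp hr
      unfold ind
      by_cases h : i ≤ l
      · rw [if_pos h, if_pos (lt_of_le_of_lt (hP (by nlinarith)) (h1 _))]
      · rw [if_neg h, if_neg (not_lt.mpr ((h2 _).trans (hP (by nlinarith))))]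
    rw [sum_congr rfl this, sum_const, card_range, nsmul_eq_mul]
    have : (N : ℝ) ≠ 0 := by exact_mod_cast hN.ne'
    field_simp
  unfold alt
  have : ∀ l ∈ range K, sg t N (2 * l + 1) (P (i * N)) - sg t N (2 * l) (P (i * N)) =
      if i / 2 = l then (if i % 2 = 1 then 1 else 0) else 0 := by
    intro l _
    rw [hs, hs]
    split_ifs <;> first | omega | simp
  rw [sum_congr rfl this, sum_ite_eq, if_pos (mem_range.mpr (by omega))]

lemma wt1 (n J : ℕ) : ∑ i ∈ range J, (if i < n + 1 then ((i.factorial : ℝ)) ^ 2 else 0) ≤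
    ((n + 1).factorial : ℝ) ^ 2 / (n + 1) := by
  have h1 : ∑ i ∈ range J, (if i < n + 1 then ((i.factorial : ℝ)) ^ 2 else 0) ≤
      ∑ i ∈ range (n + 1 + J), (if i < n + 1 then ((i.factorial : ℝ)) ^ 2 else 0) :=
    sum_le_sum_of_subset_of_nonneg (range_subset_range.mpr (Nat.le_add_left _ _))
      fun j _ _ => by positivity
  have h0 : ∑ i ∈ range J, (if n + 1 + i < n + 1 then (((n + 1 + i).factorial : ℝ)) ^ 2 else 0) = 0 :=
    sum_eq_zero (fun i _ => if_neg (by omega))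
  rw [sum_range_add, h0, add_zero] at h1
  have h2 : ∑ i ∈ range (n + 1), (if i < n + 1 then ((i.factorial : ℝ)) ^ 2 else 0) ≤
      ∑ i ∈ range (n + 1), ((n.factorial : ℝ)) ^ 2 := by
    refine sum_le_sum fun i hi => ?_
    rw [if_pos (mem_range.mp hi)]
    have : i.factorial ≤ n.factorial := Nat.factorial_le (Nat.lt_succ_iff.mp (mem_range.mp hi))
    gcongr
  refine (h1.trans h2).trans (le_of_eq ?_)
  rw [sum_const, card_range, nsmul_eq_mul, Nat.factorial_succ]
  push_cast; field_simp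

lemma wt2 (j J : ℕ) : ∑ i ∈ range J, (if j < i then 1 / ((i.factorial : ℝ)) ^ 2 else 0) ≤
    2 / ((j + 1).factorial : ℝ) ^ 2 := by
  have h1 : ∑ i ∈ range J, (if j < i then 1 / ((i.factorial : ℝ)) ^ 2 else 0) ≤
      ∑ i ∈ range (j + 1 + J), (if j < i then 1 / ((i.factorial : ℝ)) ^ 2 else 0) :=
    sum_le_sum_of_subset_of_nonneg (range_subset_range.mpr (Nat.le_add_left _ _))
      fun j _ _ => by positivity
  have h2 : ∀ m, ∑ i ∈ range (j + 1 + m), (if j < i then 1 / ((i.factorial : ℝ)) ^ 2 else 0) ≤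
      2 / ((j + 1).factorial : ℝ) ^ 2 - 2 / ((j + 1 + m).factorial : ℝ) ^ 2 := by
    intro m
    induction m with
    | zero => rw [sum_eq_zero (fun i hi => if_neg (by have := mem_range.mp hi; omega))]; simp
    | succ m ih =>
      rw [← add_assoc, sum_range_succ, if_pos (by omega), Nat.factorial_succ (j + 1 + m)]
      have a0 : (0:ℝ) < (j + 1 + m).factorial := by exact_mod_cast Nat.factorial_pos _
      have a1 : (2:ℝ) ≤ ((j + 1 + m + 1 : ℕ) : ℝ) := by exact_mod_cast (by omega)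
      have a2 : 2 / ((((j + 1 + m + 1) * (j + 1 + m).factorial : ℕ) : ℝ)) ^ 2 ≤
          1 / ((j + 1 + m).factorial : ℝ) ^ 2 := by
        rw [Nat.cast_mul, div_le_div_iff₀ (by positivity) (by positivity), mul_pow]
        have : (2:ℝ) ≤ ((j + 1 + m + 1 : ℕ) : ℝ) ^ 2 := by nlinarith
        nlinarith [sq_nonneg ((j + 1 + m).factorial : ℝ)]
      have a3 : 2 / ((j + 1 + m).factorial : ℝ) ^ 2 = 2 * (1 / ((j + 1 + m).factorial : ℝ) ^ 2) := by
        ring
      linarith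
  have := h2 J
  have : 0 ≤ 2 / ((j + 1 + J).factorial : ℝ) ^ 2 := by positivity
  linarith

lemma wt (c : ℕ → ℝ) {U : ℝ} (hc : ∀ i, |c i| ≤ U) (n J : ℕ) :
    ∑ i ∈ range J, (w i * c i) ^ 2 * min (k i : ℝ) (k (n + 1)) ≤
      ((n + 1).factorial : ℝ) ^ 2 * (c (n + 1) ^ 2 + 3 * U ^ 2 / (n + 1)) := by
  set j := n + 1 with hj
  have hf : ∀ i : ℕ, (0:ℝ) < i.factorial := fun i => by exact_mod_cast Nat.factorial_pos i
  have h1 : ∀ i ∈ range J, (w i * c i) ^ 2 * min (k i : ℝ) (k j) ≤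
      (if j = i then (j.factorial : ℝ) ^ 2 * c j ^ 2 else 0) +
      U ^ 2 * (if i < j then ((i.factorial : ℝ)) ^ 2 else 0) +
      U ^ 2 * (j.factorial : ℝ) ^ 4 * (if j < i then 1 / ((i.factorial : ℝ)) ^ 2 else 0) := by
    intro i _
    have a1 : c i ^ 2 ≤ U ^ 2 := by rw [← sq_abs]; gcongr; exact hc i
    have := hf i
    rcases lt_trichotomy i j with h | h | h
    · rw [if_neg h.ne', if_pos h, if_neg (by omega)]
      refine (mul_le_mul_of_nonneg_left (min_le_left _ _) (sq_nonneg _)).trans ?_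
      have e : (w i * c i) ^ 2 * (k i : ℝ) = c i ^ 2 * (i.factorial : ℝ) ^ 2 := by
        simp only [w, k]; push_cast; field_simp
      rw [e, zero_add, mul_zero, add_zero]; gcongr
    · subst h
      rw [if_pos rfl, if_neg (lt_irrefl _), if_neg (lt_irrefl _), min_self]
      simp only [w, k]; push_cast
      refine le_of_eq ?_
      field_simp; ring
    · rw [if_neg h.ne, if_neg (by omega), if_pos h]
      refine (mul_le_mul_of_nonneg_left (min_le_right _ _) (sq_nonneg _)).trans ?_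
      have e : (w i * c i) ^ 2 * (k j : ℝ) = c i ^ 2 * (j.factorial : ℝ) ^ 4 * (1 / (i.factorial : ℝ) ^ 2) := by
        simp only [w, k]; push_cast; field_simp
      rw [e, zero_add, mul_zero, zero_add]; gcongr
  refine (sum_le_sum h1).trans ?_
  rw [sum_add_distrib, sum_add_distrib, ← mul_sum, ← mul_sum, sum_ite_eq]
  have a1 : (if j ∈ range J then (j.factorial : ℝ) ^ 2 * c j ^ 2 else 0) ≤
      (j.factorial : ℝ) ^ 2 * c j ^ 2 := by split_ifs; exacts [le_rfl, by positivity]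
  have a2 := mul_le_mul_of_nonneg_left (wt1 n J) (sq_nonneg U)
  have a3 := mul_le_mul_of_nonneg_left (wt2 j J) (show 0 ≤ U ^ 2 * (j.factorial : ℝ) ^ 4 by positivity)
  have a4 : U ^ 2 * (j.factorial : ℝ) ^ 4 * (2 / ((j + 1).factorial : ℝ) ^ 2) ≤
      U ^ 2 * (2 * (j.factorial : ℝ) ^ 2 / (n + 1)) := by
    rw [mul_assoc]
    refine mul_le_mul_of_nonneg_left ?_ (sq_nonneg U)
    have := hf j
    have e : (j.factorial : ℝ) ^ 4 * (2 / ((j + 1).factorial : ℝ) ^ 2) =
        2 * (j.factorial : ℝ) ^ 2 / ((n:ℝ) + 2) ^ 2 := by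
      rw [Nat.factorial_succ j, hj]; push_cast; field_simp; ring
    rw [e]
    have : (0:ℝ) ≤ n := by positivity
    gcongr; nlinarith
  have e : (j.factorial : ℝ) ^ 2 * (c j ^ 2 + 3 * U ^ 2 / (n + 1)) =
      (j.factorial : ℝ) ^ 2 * c j ^ 2 + U ^ 2 * ((j.factorial : ℝ) ^ 2 / (n + 1)) +
        U ^ 2 * (2 * (j.factorial : ℝ) ^ 2 / (n + 1)) := by ring
  rw [e]; linarith

/-- averaged steps -/
noncomputable def av (hU : Bd u) (t : ℕ → ℕ) (N l : ℕ) (a : V) : G u :=
  (1 / N : ℝ) • ∑ r ∈ range N, stp hU (t (l * N + r)) a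
/-- alternating sums of averaged steps -/
noncomputable def al (hU : Bd u) (t : ℕ → ℕ) (N K : ℕ) (a : V) : G u :=
  ∑ l ∈ range K, (av hU t N (2 * l + 1) a - av hU t N (2 * l) a)

lemma val_av (hU : Bd u) (t : ℕ → ℕ) (N l : ℕ) (a : V) (m : ℕ) :
    val u (av hU t N l a) m = sg t N l m • a := by
  simp only [av, sg, map_smul, map_sum, Pi.smul_apply, Finset.sum_apply, val_stp, mul_smul, sum_smul]

lemma val_al (hU : Bd u) (t : ℕ → ℕ) (N K : ℕ) (a : V) :
    val u (al hU t N K a) = fun m => alt t N K m • a := by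
  funext m
  simp only [al, alt, map_sum, map_sub, Finset.sum_apply, Pi.sub_apply, val_av, sum_smul, sub_smul]

lemma al_upper (hU : Bd u) {t : ℕ → ℕ} (ht : Monotone t) (N n : ℕ) (v : V) :
    ‖al hU t N (k (n + 1)) v‖ ≤
      ((n + 1).factorial : ℝ) * √(2 * (u (n + 1) v ^ 2 + 12 * ‖v‖ ^ 2 / (n + 1))) + ‖v‖ := by
  refine norm_le fun γ => ?_
  rw [val_al]
  refine add_le_add ?_ ?_
  · refine Real.sqrt_le_iff.mpr ⟨by positivity, ?_⟩
    rw [mul_pow, Real.sq_sqrt (by positivity)]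
    have h1 := wt (fun i => u i v) (fun i => hU i v) n γ.J
    have h2 : S u γ (fun m => alt t N (k (n + 1)) m • v) ≤
        2 * ∑ i ∈ range γ.J, (w i * u i v) ^ 2 * min (k i : ℝ) (k (n + 1)) := by
      unfold S
      rw [mul_sum]
      refine sum_le_sum fun j _ => ?_
      rw [R_smul]
      have := mul_le_mul_of_nonneg_left (alt_var ht N (k (n + 1)) (γ.mono j) (k j))
        (sq_nonneg (w j * u j v))
      linarith
    have e : 3 * (2 * ‖v‖) ^ 2 / ((n:ℝ) + 1) = 12 * ‖v‖ ^ 2 / (n + 1) := by ring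
    rw [e] at h1
    linarith
  · rw [norm_smul, Real.norm_of_nonneg (alt_0 ht _ _ _)]
    exact mul_le_of_le_one_left (norm_nonneg _) (alt_1 ht _ _ _)

lemma R_le (x : G u) (j : ℕ) {p : ℕ → ℕ} (hp : Monotone p) : R u j p (val u x) ≤ ‖x‖ ^ 2 := by
  refine le_trans ?_ (S_le x ⟨j + 1, fun _ => p, fun _ => hp, 0⟩)
  simp only [S]
  exact single_le_sum (f := fun j => R u j p (val u x)) (fun i _ => R_nonneg _ _ _ _)
    (self_mem_range_succ j)

lemma k_pos (j : ℕ) : 0 < k j := pow_pos (Nat.factorial_pos j) _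

lemma al_lower (hU : Bd u) {t P : ℕ → ℕ} (hP : Monotone P) (h1 : ∀ i, P i < t i)
    (h2 : ∀ i, t i ≤ P (i + 1)) {N : ℕ} (hN : 0 < N) (j : ℕ) (e : V) :
    (j.factorial : ℝ) * |u j e| ≤ ‖al hU t N (k j) e‖ := by
  have h := R_le (al hU t N (k j) e) j (p := fun i => P (i * N))
    (fun a b hab => hP (Nat.mul_le_mul_right _ hab))
  rw [val_al, R_smul] at h
  have : ∀ i ∈ range (k j), (alt t N (k j) (P (i * N)) - alt t N (k j) (P ((i + 1) * N))) ^ 2 = 1 := by
    intro i hi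
    have := mem_range.mp hi
    rw [alt_val hP h1 h2 hN _ _ (by omega), alt_val hP h1 h2 hN _ _ (by omega)]
    split_ifs <;> first | omega | norm_num
  rw [sum_congr rfl this, sum_const, card_range, nsmul_eq_mul, mul_one] at h
  refine abs_le_of_sq_le_sq' ?_ (norm_nonneg _) |>.2
  refine le_trans (le_of_eq ?_) h
  have : (0:ℝ) < j.factorial := by exact_mod_cast Nat.factorial_pos j
  rw [mul_pow, sq_abs]
  simp only [w, k]; push_cast; field_simp


/-- every nonzero vector is seen by infinitely many functionals -/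
def Sees (u : ℕ → V →L[ℝ] ℝ) : Prop := ∀ v : V, v ≠ 0 → ∃ δ > 0, ∃ᶠ j in atTop, δ ≤ |u j v|

lemma fact_big (C : ℝ) : ∀ᶠ j : ℕ in atTop, C < (j.factorial : ℝ) := by
  filter_upwards [tendsto_natCast_atTop_atTop.eventually_gt_atTop C] with j hj
  exact hj.trans_le (by exact_mod_cast Nat.self_le_factorial j)

lemma lim_exists [ProperSpace V] (hU : Bd u) (hS : Sees u) (y : ℕ → V) {M : ℝ}
    (hy : ∀ γ, Q u γ y ≤ M) : ∃ v, Tendsto y atTop (𝓝 v) := by
  have hb : ∀ m, y m ∈ Metric.closedBall (0:V) M := fun m => by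
    simpa [Q, S] using hy ⟨0, fun _ _ => 0, fun _ => monotone_const, m⟩
  obtain ⟨a, -, ψ, hψ, ha⟩ := (isCompact_closedBall (0:V) M).tendsto_subseq hb
  refine ⟨a, (isCompact_closedBall (0:V) M).tendsto_nhds_of_unique_mapClusterPt
    (Eventually.of_forall hb) fun b _ hbc => ?_⟩
  by_contra hne
  obtain ⟨δ, hδ, hfr⟩ := hS (a - b) (sub_ne_zero.mpr (Ne.symm hne))
  have f1 : ∃ᶠ m in atTop, ‖y m - a‖ < δ / 8 := by
    have := (Metric.tendsto_nhds.mp ha (δ / 8) (by positivity)).frequently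
    simp only [dist_eq_norm, Function.comp] at this
    exact hψ.tendsto_atTop.frequently (p := fun m => ‖y m - a‖ < δ / 8) this
  have f2 : ∃ᶠ m in atTop, ‖y m - b‖ < δ / 8 := by
    have := mapClusterPt_iff_frequently.mp hbc (Metric.ball b (δ / 8)) (Metric.ball_mem_nhds _ (by positivity))
    simpa [dist_eq_norm] using this
  obtain ⟨p, hp, hp'⟩ := extraction_forall_of_frequently
    (P := fun i m => ‖y m - (if i % 2 = 0 then a else b)‖ < δ / 8)
    (fun i => by split_ifs; exacts [f1, f2])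
  obtain ⟨j, hj1, hj2⟩ := (hfr.and_eventually (fact_big (2 * M / δ))).exists
  have h1 := hy ⟨j + 1, fun _ => p, fun _ => hp.monotone, 0⟩
  have h2 : R u j p y ≤ S u ⟨j + 1, fun _ => p, fun _ => hp.monotone, 0⟩ y :=
    single_le_sum (f := fun j => R u j p y) (fun i _ => R_nonneg _ _ _ _) (self_mem_range_succ j)
  have h3 : ∀ i ∈ range (k j), (w j * (δ / 2)) ^ 2 ≤ (w j * u j (y (p i) - y (p (i + 1)))) ^ 2 := by
    intro i _
    have a1 := hp' i
    have a2 := hp' (i + 1)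
    have a3 : δ / 2 ≤ |u j (y (p i) - y (p (i + 1)))| := by
      by_cases h : i % 2 = 0
      · rw [if_pos h] at a1
        rw [if_neg (by omega)] at a2
        have e : u j (a - b) = u j (y (p i) - y (p (i + 1))) - u j (y (p i) - a) +
            u j (y (p (i + 1)) - b) := by simp only [map_sub]; ring
        have b1 := abs_le.mp (hU j (y (p i) - a))
        have b2 := abs_le.mp (hU j (y (p (i + 1)) - b))
        rw [e] at hj1
        rcases le_abs.mp hj1 with h' | h'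
        · exact le_abs.mpr (Or.inl (by linarith))
        · exact le_abs.mpr (Or.inr (by linarith))
      · rw [if_neg h] at a1
        rw [if_pos (by omega)] at a2
        have e : u j (a - b) = -u j (y (p i) - y (p (i + 1))) + u j (y (p i) - b) -
            u j (y (p (i + 1)) - a) := by simp only [map_sub]; ring
        have b1 := abs_le.mp (hU j (y (p i) - b))
        have b2 := abs_le.mp (hU j (y (p (i + 1)) - a))
        rw [e] at hj1
        rcases le_abs.mp hj1 with h' | h'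
        · exact le_abs.mpr (Or.inr (by linarith))
        · exact le_abs.mpr (Or.inl (by linarith))
    rw [mul_pow, mul_pow, ← sq_abs (u j _)]
    gcongr
  have h4 := sum_le_sum h3
  rw [sum_const, card_range, nsmul_eq_mul] at h4
  have hf : (0:ℝ) < j.factorial := by exact_mod_cast Nat.factorial_pos j
  have e : (k j : ℝ) * (w j * (δ / 2)) ^ 2 = (j.factorial * (δ / 2)) ^ 2 := by
    simp only [w, k]; push_cast; field_simp
  rw [e] at h4
  have h5 := Real.le_sqrt_of_sq_le (h4.trans h2)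
  rw [div_lt_iff₀ hδ] at hj2
  unfold Q at h1
  linarith [norm_nonneg (y 0)]

variable {W : Type} [NormedAddCommGroup W] [NormedSpace ℝ W] {u' : ℕ → W →L[ℝ] ℝ}

lemma main_ineq (hU : Bd u) (hU' : Bd u') (T : G u →L[ℝ] G u') (e : V) {φ : ℕ → ℕ}
    (hφ : StrictMono φ) (y : ℕ → W) (v : W)
    (hy : Tendsto (fun n => val u' (T (stp hU (φ n) e))) atTop (𝓝 y)) (hv : Tendsto y atTop (𝓝 v))
    (n : ℕ) : ∃ X : G u, ((n + 1).factorial : ℝ) * |u (n + 1) e| ≤ ‖X‖ ∧ ‖T X‖ ≤ 1 +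
      (((n + 1).factorial : ℝ) * √(2 * (u' (n + 1) v ^ 2 + 12 * ‖v‖ ^ 2 / (n + 1))) + ‖v‖) := by
  set M0 := ‖T‖ * (5 * ‖e‖) with hM0
  have hz : ∀ n, ‖T (stp hU (φ n) e)‖ ≤ M0 := fun n =>
    (T.le_opNorm _).trans (mul_le_mul_of_nonneg_left (stp_le _ _ _) (norm_nonneg _))
  have hyQ : ∀ γ, Q u' γ y ≤ M0 := fun γ =>
    le_of_tendsto' (((Q_cont u' γ).tendsto _).comp hy) fun n => (Q_le _ γ).trans (hz n)
  let g : G u' := mk u' (y - fun _ => v) (by
    have := hv.sub_const v; rw [sub_self] at this; exact this) ⟨M0 + ‖v‖, fun γ => by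
      rw [sub_eq_add_neg]
      refine (Q_add u' γ _ _).trans (add_le_add (hyQ γ) ?_)
      simp [Q, S, R]⟩
  set K := k (n + 1) with hK
  have hK0 : (0:ℝ) < K := by exact_mod_cast k_pos _
  have hK1 : (1:ℝ) ≤ K := by exact_mod_cast k_pos _
  set η : ℝ := 1 / (4 * K) with hη
  have hη0 : 0 < η := by positivity
  have hη1 : η ≤ 1 := by rw [hη, div_le_one (by positivity)]; linarith
  choose nn q b h1 h2 h3 h4 h5 using blockstep hU' (fun n => T (stp hU (φ n) e) - g) v
    (M := M0 + ‖g‖) hη0 hη1 (fun m => by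
      have := (tendsto_pi_nhds.mp hy m).sub_const (y m - v)
      simpa [g] using this)
    (fun n => (norm_sub_le _ _).trans (add_le_add (hz n) le_rfl)) hφ
  set M := M0 + ‖g‖ + 5 * ‖v‖ + 1 with hM
  have hMpos : 0 < M := by positivity
  let P : ℕ → ℕ := fun i => Nat.rec 0 (fun _ p => q p) i
  have hP : ∀ i, P (i + 1) = q (P i) := fun i => rfl
  have hPs : StrictMono P := strictMono_nat_of_lt_succ fun i => by
    rw [hP]; exact (h1 _).trans_le (h2 _)
  let t : ℕ → ℕ := fun i => φ (nn (P i))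
  obtain ⟨N, hN⟩ := exists_nat_gt (8 * M ^ 2 / η ^ 2)
  have hN0 : (0:ℝ) < N := lt_of_le_of_lt (by positivity) hN
  have hN0' : 0 < N := by exact_mod_cast hN0
  have hgrp : ∀ l, ‖T (av hU t N l e) - g - av hU' P N l v‖ ≤ 2 * η := by
    intro l
    have e1 : T (av hU t N l e) - g - av hU' P N l v =
        (1 / N : ℝ) • ∑ r ∈ range N, (T (stp hU (φ (nn (P (l * N + r)))) e) - g -
          stp hU' (P (l * N + r)) v - b (P (l * N + r))) +
        (1 / N : ℝ) • ∑ r ∈ range N, b (P (l * N + r)) := by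
      simp only [av, map_smul, map_sum, sum_sub_distrib, sum_const, card_range, t, smul_sub]
      rw [← Nat.cast_smul_eq_nsmul ℝ, smul_smul, one_div_mul_cancel hN0.ne', one_smul]
      abel
    have e2 : ‖∑ r ∈ range N, (T (stp hU (φ (nn (P (l * N + r)))) e) - g -
          stp hU' (P (l * N + r)) v - b (P (l * N + r)))‖ ≤ N * η :=
      (norm_sum_le _ _).trans ((sum_le_sum fun r _ => h4 _).trans (by simp))
    have e3 : ‖∑ r ∈ range N, b (P (l * N + r))‖ ≤ N * η := by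
      refine (block_sum (fun r => b (P (l * N + r))) N (fun r => h5 _) fun m i j hi hj => ?_).trans ?_
      · have a1 := h3 _ m hi
        have a2 := h3 _ m hj
        rw [← hP] at a1 a2
        have a3 : l * N + i < l * N + j + 1 := hPs.lt_iff_lt.mp (a1.1.trans_lt a2.2)
        have a4 : l * N + j < l * N + i + 1 := hPs.lt_iff_lt.mp (a2.1.trans_lt a1.2)
        omega
      · have : √(2 * (N * M ^ 2)) ≤ N * η / 2 := by
          refine Real.sqrt_le_iff.mpr ⟨by positivity, ?_⟩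
          rw [div_lt_iff₀ (by positivity)] at hN
          nlinarith
        linarith
    rw [e1]
    refine (norm_add_le _ _).trans ?_
    rw [norm_smul, norm_smul, Real.norm_of_nonneg (by positivity)]
    have e4 : 1 / (N:ℝ) * (N * η) = η := by field_simp
    have := mul_le_mul_of_nonneg_left e2 (show 0 ≤ 1 / (N:ℝ) by positivity)
    have := mul_le_mul_of_nonneg_left e3 (show 0 ≤ 1 / (N:ℝ) by positivity)
    linarith
  refine ⟨al hU t N K e, al_lower hU hPs.monotone (fun i => h1 _) (fun i => h2 _) hN0' _ e, ?_⟩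
  have e1 : T (al hU t N K e) = ∑ l ∈ range K,
      ((T (av hU t N (2 * l + 1) e) - g - av hU' P N (2 * l + 1) v) -
        (T (av hU t N (2 * l) e) - g - av hU' P N (2 * l) v)) + al hU' P N K v := by
    simp only [al, map_sum, map_sub]
    rw [← sum_add_distrib]
    exact sum_congr rfl fun l _ => by abel
  rw [e1]
  refine (norm_add_le _ _).trans (add_le_add ?_ (al_upper hU' hPs.monotone N n v))
  refine (norm_sum_le _ _).trans ((sum_le_sum (g := fun _ => 4 * η) fun l _ => ?_).trans ?_)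
  · linarith [hgrp (2 * l + 1), hgrp (2 * l), norm_sub_le
      (T (av hU t N (2 * l + 1) e) - g - av hU' P N (2 * l + 1) v)
      (T (av hU t N (2 * l) e) - g - av hU' P N (2 * l) v)]
  · rw [sum_const, card_range, nsmul_eq_mul, hη]
    refine le_of_eq ?_
    field_simp

lemma subseq [ProperSpace W] (hU' : Bd u') (hS : Sees u') (z : ℕ → G u') {M : ℝ} (hz : ∀ n, ‖z n‖ ≤ M) :
    ∃ φ : ℕ → ℕ, StrictMono φ ∧ ∃ y v, Tendsto (fun n => val u' (z (φ n))) atTop (𝓝 y) ∧
      Tendsto y atTop (𝓝 v) := by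
  obtain ⟨y, -, φ, hφ, hy⟩ := (isCompact_univ_pi (fun _ : ℕ => isCompact_closedBall (0:W) M)).tendsto_subseq
    (x := fun n => val u' (z n)) (fun n m _ => by simpa using (coord_le _ _).trans (hz n))
  obtain ⟨v, hv⟩ := lim_exists hU' hS y (M := M) fun γ =>
    le_of_tendsto' (((Q_cont u' γ).tendsto _).comp hy) fun n => (Q_le _ γ).trans (hz _)
  exact ⟨φ, hφ, y, v, hy, hv⟩

/-- scalar functionals -/
noncomputable def uE : ℕ → ℝ →L[ℝ] ℝ := fun _ => ContinuousLinearMap.id ℝ ℝ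
/-- angles, each repeated infinitely often -/
noncomputable def ang (j : ℕ) : ℝ := TopologicalSpace.denseSeq ℝ (Nat.unpair j).1
/-- planar functionals -/
noncomputable def uF : ℕ → ℝ × ℝ →L[ℝ] ℝ := fun j =>
  Real.cos (ang j) • ContinuousLinearMap.fst ℝ ℝ ℝ + Real.sin (ang j) • ContinuousLinearMap.snd ℝ ℝ ℝ

lemma uF_apply (j : ℕ) (v : ℝ × ℝ) : uF j v = Real.cos (ang j) * v.1 + Real.sin (ang j) * v.2 := by
  simp [uF]
lemma uE_apply (j : ℕ) (v : ℝ) : uE j v = v := rfl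

lemma bdE : Bd uE := fun j v => by rw [uE_apply, Real.norm_eq_abs]; linarith [abs_nonneg v]
lemma bdF : Bd uF := fun j v => by
  rw [uF_apply]
  have a1 : |v.1| ≤ ‖v‖ := norm_fst_le v
  have a2 : |v.2| ≤ ‖v‖ := norm_snd_le v
  have a3 := mul_le_mul (Real.abs_cos_le_one (ang j)) a1 (abs_nonneg _) zero_le_one
  have a4 := mul_le_mul (Real.abs_sin_le_one (ang j)) a2 (abs_nonneg _) zero_le_one
  have := abs_add_le (Real.cos (ang j) * v.1) (Real.sin (ang j) * v.2)
  rw [abs_mul, abs_mul] at this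
  linarith

lemma seesE : Sees uE := fun v hv => ⟨|v|, abs_pos.mpr hv, Frequently.of_forall fun _ => le_rfl⟩

lemma ang_freq {s : Set ℝ} (hs : IsOpen s) (hne : s.Nonempty) : ∃ᶠ j in atTop, ang j ∈ s := by
  obtain ⟨i, hi⟩ := (TopologicalSpace.denseRange_denseSeq ℝ).exists_mem_open hs hne
  refine frequently_atTop.mpr fun a => ⟨Nat.pair i a, Nat.right_le_pair i a, ?_⟩
  simpa [ang] using hi

lemma seesF : Sees uF := by
  intro v hv
  have : ∃ θ, Real.cos θ * v.1 + Real.sin θ * v.2 ≠ 0 := by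
    by_cases h : v.1 = 0
    · exact ⟨Real.pi / 2, by
        simp only [Real.cos_pi_div_two, Real.sin_pi_div_two, zero_mul, one_mul, zero_add]
        exact fun h2 => hv (Prod.ext h h2)⟩
    · exact ⟨0, by simpa using h⟩
  obtain ⟨θ, hθ⟩ := this
  have hp := abs_pos.mpr hθ
  refine ⟨_, half_pos hp, ?_⟩
  refine (ang_freq (s := {x | |Real.cos θ * v.1 + Real.sin θ * v.2| / 2 <
    |Real.cos x * v.1 + Real.sin x * v.2|}) (isOpen_lt (by fun_prop) (by fun_prop))
    ⟨θ, half_lt_self hp⟩).mono fun j hj => ?_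
  rw [uF_apply]; exact le_of_lt hj

lemma smallF (v : ℝ × ℝ) {ε : ℝ} (hε : 0 < ε) : ∃ᶠ j in atTop, |uF j v| < ε := by
  have : ∃ θ, Real.cos θ * v.1 + Real.sin θ * v.2 = 0 := by
    by_cases h : v.2 = 0
    · exact ⟨Real.pi / 2, by simp [h]⟩
    · refine ⟨Real.arctan (-v.1 / v.2), ?_⟩
      have h1 := Real.tan_arctan (-v.1 / v.2)
      have h2 := Real.cos_arctan_pos (-v.1 / v.2)
      rw [Real.tan_eq_sin_div_cos, div_eq_div_iff h2.ne' h] at h1
      linarith
  obtain ⟨θ, hθ⟩ := this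
  refine (ang_freq (s := {x | |Real.cos x * v.1 + Real.sin x * v.2| < ε})
    (isOpen_lt (by fun_prop) (by fun_prop)) ⟨θ, by simpa [hθ] using hε⟩).mono fun j hj => ?_
  rw [uF_apply]; exact hj

lemma succ_freq {P : ℕ → Prop} (h : ∃ᶠ j in atTop, P j) : ∃ n, P (n + 1) := by
  obtain ⟨j, hj, hp⟩ := frequently_atTop.mp h 1
  exact ⟨j - 1, by rwa [Nat.sub_add_cancel hj]⟩

lemma not_EF : ¬ ∃ (T : G uE →L[ℝ] G uF) (C : ℝ), ∀ x, ‖x‖ ≤ C * ‖T x‖ := by
  rintro ⟨T, C0, hC0⟩
  set C := |C0| + 1 with hC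
  have hCp : 0 < C := by positivity
  have hC' : ∀ x, ‖x‖ ≤ C * ‖T x‖ := fun x => (hC0 x).trans (by
    gcongr; linarith [le_abs_self C0])
  obtain ⟨φ, hφ, y, v, hy, hv⟩ := subseq bdF seesF (fun n => T (stp bdE n 1))
    (M := ‖T‖ * (5 * ‖(1:ℝ)‖)) fun n => (T.le_opNorm _).trans (by gcongr; exact stp_le _ _ _)
  have f1 : ∀ᶠ j : ℕ in atTop, 12 * ‖v‖ ^ 2 / (j : ℝ) < (1 / (4 * C)) ^ 2 :=
    (tendsto_const_div_atTop_nhds_zero_nat _).eventually (gt_mem_nhds (by positivity))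
  obtain ⟨n, ⟨a1, a2⟩, a3⟩ := succ_freq (((smallF v (show 0 < 1 / (4 * C) by positivity)).and_eventually
    f1).and_eventually (fact_big (2 * C * (1 + ‖v‖))))
  obtain ⟨X, h1, h2⟩ := main_ineq bdE bdF T 1 hφ y v hy hv n
  rw [uE_apply, abs_one, mul_one] at h1
  push_cast at a2
  have a4 : uF (n + 1) v ^ 2 ≤ (1 / (4 * C)) ^ 2 := by rw [← sq_abs]; gcongr
  have a5 : √(2 * (uF (n + 1) v ^ 2 + 12 * ‖v‖ ^ 2 / (n + 1))) ≤ 2 * (1 / (4 * C)) :=
    Real.sqrt_le_iff.mpr ⟨by positivity, by nlinarith⟩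
  have a6 := mul_le_mul_of_nonneg_left a5 (show (0:ℝ) ≤ (n + 1).factorial by positivity)
  have a7 := mul_le_mul_of_nonneg_left (h2.trans (add_le_add le_rfl (add_le_add a6 le_rfl))) hCp.le
  have e : C * (1 + (((n + 1).factorial : ℝ) * (2 * (1 / (4 * C))) + ‖v‖)) =
      C * (1 + ‖v‖) + (n + 1).factorial / 2 := by field_simp; ring
  have := hC' X
  linarith

lemma stp_comb (t : ℕ) (a b : ℝ) :
    stp bdF t (a, b) = a • stp bdF t (1, 0) + b • stp bdF t (0, 1) := by
  apply val_inj; funext m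
  simp only [map_add, map_smul, Pi.add_apply, Pi.smul_apply, val_stp]
  ext <;> simp <;> ring

lemma not_FE : ¬ ∃ (T : G uF →L[ℝ] G uE) (C : ℝ), ∀ x, ‖x‖ ≤ C * ‖T x‖ := by
  rintro ⟨T, C, hC⟩
  obtain ⟨φ, hφ, y, v, hy, hv⟩ := subseq bdE seesE (fun n => T (stp bdF n (1, 0)))
    (M := ‖T‖ * (5 * ‖((1:ℝ), (0:ℝ))‖)) fun n => (T.le_opNorm _).trans (by gcongr; exact stp_le _ _ _)
  obtain ⟨ψ, hψ, y', v', hy', hv'⟩ := subseq bdE seesE (fun n => T (stp bdF (φ n) (0, 1)))
    (M := ‖T‖ * (5 * ‖((0:ℝ), (1:ℝ))‖)) fun n => (T.le_opNorm _).trans (by gcongr; exact stp_le _ _ _)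
  obtain ⟨a, b, hab, h0⟩ : ∃ a b : ℝ, (a, b) ≠ (0 : ℝ × ℝ) ∧ a • v + b • v' = 0 := by
    by_cases h : v = 0
    · exact ⟨1, 0, by simp, by simp [h]⟩
    · exact ⟨v', -v, fun h' => h (by simpa using congrArg Prod.snd h'), by simp [mul_comm]⟩
  have hy2 : Tendsto (fun n => val uE (T (stp bdF ((φ ∘ ψ) n) (a, b)))) atTop (𝓝 (a • y + b • y')) := by
    simp only [stp_comb _ a b, map_add, map_smul]
    exact ((hy.comp hψ.tendsto_atTop).const_smul a).add (hy'.const_smul b)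
  have hv2 : Tendsto (a • y + b • y') atTop (𝓝 0) := by
    rw [← h0]; exact (hv.const_smul a).add (hv'.const_smul b)
  obtain ⟨δ, hδ, hfr⟩ := seesF _ hab
  obtain ⟨n, a1, a2⟩ := succ_freq (hfr.and_eventually (fact_big (|C| / δ)))
  obtain ⟨X, h1, h2⟩ := main_ineq bdF bdE T (a, b) (hφ.comp hψ) _ 0 hy2 hv2 n
  simp only [map_zero, norm_zero] at h2
  norm_num at h2
  have a3 := (hC X).trans (mul_le_mul_of_nonneg_right (le_abs_self C) (norm_nonneg _))
  have a4 := mul_le_mul_of_nonneg_left h2 (abs_nonneg C)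
  have a5 := mul_le_mul_of_nonneg_left a1 (show (0:ℝ) ≤ (n + 1).factorial by positivity)
  rw [div_lt_iff₀ hδ] at a2
  linarith

lemma S_pair (γ : Cf) (a b : ℕ → ℝ) :
    S uF γ (fun m => (a m, b m)) + S uF γ (fun m => (-b m, a m)) = S uE γ a + S uE γ b := by
  simp only [S, R, ← sum_add_distrib, uF_apply, uE_apply, Prod.fst_sub, Prod.snd_sub]
  refine sum_congr rfl fun j _ => sum_congr rfl fun i _ => ?_
  have := Real.cos_sq_add_sin_sq (ang j)
  linear_combination (w j ^ 2 * ((a (γ.p j i) - a (γ.p j (i + 1))) ^ 2 +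
    (b (γ.p j i) - b (γ.p j (i + 1))) ^ 2)) * this

lemma Q_pair (a b : G uE) (γ : Cf) :
    Q uF γ (fun m => (val uE a m, val uE b m)) ≤ 2 * (‖a‖ + ‖b‖) := by
  have h1 := S_pair γ (val uE a) (val uE b)
  have h2 : √(S uF γ (fun m => (val uE a m, val uE b m))) ≤ ‖a‖ + ‖b‖ := by
    refine Real.sqrt_le_iff.mpr ⟨by positivity, ?_⟩
    nlinarith [S_le a γ, S_le b γ, S_nonneg uF γ (fun m => (-val uE b m, val uE a m)),
      mul_nonneg (norm_nonneg a) (norm_nonneg b)]
  have h3 : ‖(val uE a γ.m, val uE b γ.m)‖ ≤ ‖a‖ + ‖b‖ := by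
    rw [Prod.norm_mk]
    exact max_le (by linarith [coord_le a γ.m, norm_nonneg b]) (by linarith [coord_le b γ.m, norm_nonneg a])
  unfold Q; linarith

/-- pairing two scalar sequences -/
noncomputable def pr : (G uE × G uE) →ₗ[ℝ] G uF where
  toFun x := mk uF (fun m => (val uE x.1 m, val uE x.2 m)) ((val_lim x.1).prodMk_nhds (val_lim x.2))
    ⟨_, Q_pair x.1 x.2⟩
  map_add' x y := val_inj (by funext m; simp)
  map_smul' c x := val_inj (by funext m; simp)

lemma val_pr (x : G uE × G uE) : val uF (pr x) = fun m => (val uE x.1 m, val uE x.2 m) := rfl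

lemma pr_le (x : G uE × G uE) : ‖pr x‖ ≤ 4 * ‖x‖ :=
  norm_le fun γ => (Q_pair x.1 x.2 γ).trans (by linarith [norm_fst_le x, norm_snd_le x])

lemma embed : ∃ (T : (G uE × G uE) →L[ℝ] (G uF × G uF)) (C : ℝ), ∀ x, ‖x‖ ≤ C * ‖T x‖ := by
  let A : (G uE × G uE) →L[ℝ] G uF := pr.mkContinuous 4 pr_le
  let B : (G uE × G uE) →L[ℝ] (G uE × G uE) :=
    (-ContinuousLinearMap.snd ℝ (G uE) (G uE)).prod (ContinuousLinearMap.fst ℝ (G uE) (G uE))
  refine ⟨A.prod (A.comp B), 3, fun x => ?_⟩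
  set t := ‖(A.prod (A.comp B)) x‖ with ht
  have h1 : ‖pr x‖ ≤ t := norm_fst_le ((A.prod (A.comp B)) x)
  have h2 : ‖pr (-x.2, x.1)‖ ≤ t := norm_snd_le ((A.prod (A.comp B)) x)
  have ht0 : 0 ≤ t := norm_nonneg _
  have key : ∀ γ, S uE γ (val uE x.1) + S uE γ (val uE x.2) ≤ (2 * t) ^ 2 := by
    intro γ
    have a1 := S_le (pr x) γ
    have a2 := S_le (pr (-x.2, x.1)) γ
    rw [val_pr] at a1 a2
    simp only [map_neg, Pi.neg_apply] at a2
    have a3 : ‖pr x‖ ^ 2 ≤ t ^ 2 := by gcongr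
    have a4 : ‖pr (-x.2, x.1)‖ ^ 2 ≤ t ^ 2 := by gcongr
    rw [← S_pair]; nlinarith
  have hc : ∀ m, ‖(val uE x.1 m, val uE x.2 m)‖ ≤ t := fun m => (coord_le (pr x) m).trans h1
  rw [Prod.norm_def]
  refine max_le (norm_le fun γ => ?_) (norm_le fun γ => ?_)
  · have : √(S uE γ (val uE x.1)) ≤ 2 * t :=
      Real.sqrt_le_iff.mpr ⟨by positivity, by linarith [key γ, S_nonneg uE γ (val uE x.2)]⟩
    have := (norm_fst_le (val uE x.1 γ.m, val uE x.2 γ.m)).trans (hc γ.m)
    unfold Q; linarith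
  · have : √(S uE γ (val uE x.2)) ≤ 2 * t :=
      Real.sqrt_le_iff.mpr ⟨by positivity, by linarith [key γ, S_nonneg uE γ (val uE x.1)]⟩
    have := (norm_snd_le (val uE x.1 γ.m, val uE x.2 γ.m)).trans (hc γ.m)
    unfold Q; linarith

end H91.James
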