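import Mathlib

set_option autoImplicit false

namespace H91.Jerk
open Finset

noncomputable def Δ (h ρ J : ℝ) (w : ℕ → ℝ) (i : ℕ) : ℝ :=
  (w (i - 1) - (2 + ρ) * w i + w (i + 1)) / (h * J)

/-- the set `𝒞` (only the entries `w 1, …, w n` matter) -/
def InC (n : ℕ) (h A : ℝ) (wmax w : ℕ → ℝ) : Prop :=
  w 1 = 0 ∧ w n = 0 ∧ (∀ i ∈ Icc 2 (n - 1), 0 ≤ w i ∧ w i ≤ wmax i) ∧
    ∀ i ∈ Icc 1 (n - 1), |w (i + 1) - w i| ≤ h * A

/-- feasible points of (P) with finite objective value (all `w i > 0`) -/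
def FeasP (n : ℕ) (h ρ A J : ℝ) (wmax w : ℕ → ℝ) : Prop :=
  InC n h A wmax w ∧ ∀ i ∈ Icc 2 (n - 1), 0 < w i ∧ |Δ h ρ J w i| ≤ h / √(w i)

/-- feasible points of (R); `t i ≥ h/√(w i)` forces `w i > 0` -/
def FeasR (n : ℕ) (h ρ A J : ℝ) (wmax w t : ℕ → ℝ) : Prop :=
  InC n h A wmax w ∧ ∀ i ∈ Icc 2 (n - 1), 0 < w i ∧ h / √(w i) ≤ t i ∧ |Δ h ρ J w i| ≤ t i

noncomputable def prof (k : ℕ) : ℝ := if k ≤ 11 then k + 1 else if k ≤ 13 then 25 / 2 else 26 - k
noncomputable def W (i : ℕ) : ℝ := if i ≤ 27 then prof (27 - i) else prof (i - 27)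
noncomputable def gg : ℕ → ℝ
  | 1 => 17677 / 100000 | 2 => 9622 / 100000 | 3 => 6250 / 100000 | 4 => 4472 / 100000
  | 5 => 3402 / 100000 | 6 => 2699 / 100000 | 7 => 2209 / 100000 | 8 => 1851 / 100000
  | 9 => 1581 / 100000 | 10 => 1370 / 100000 | 11 => 1202 / 100000 | _ => 0
noncomputable def G (i : ℕ) : ℝ := if i ≤ 27 then gg (27 - i) else gg (i - 27)

lemma le_inv_sqrt {d x : ℝ} (hx : 0 < x) (h : d ^ 2 * x ≤ 1) : |d| ≤ 1 / √x := by
  have h1 := Real.sqrt_pos.2 hx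
  have h2 := Real.sq_sqrt hx.le
  rw [le_div_iff₀ h1, ← sq_le_sq₀ (by positivity) zero_le_one, mul_pow, sq_abs, h2]
  simpa using h

lemma tangent {x y g : ℝ} (hx : 0 < x) (hxy : x ≤ y) (hg : 0 ≤ g) (h : 4 * g ^ 2 * y ^ 3 ≤ 1) :
    1 / √y + g * (y - x) ≤ 1 / √x := by
  have hy : 0 < y := by linarith
  have a1 := Real.sqrt_pos.2 hx
  have b1 := Real.sqrt_pos.2 hy
  have a2 := Real.sq_sqrt hx.le
  have b2 := Real.sq_sqrt hy.le
  have hab := Real.sqrt_le_sqrt hxy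
  generalize √x = a at *
  generalize √y = b at *
  subst a2 b2
  have h1 : 2 * g * b ^ 3 ≤ 1 := by
    rw [← sq_le_sq₀ (by positivity) zero_le_one]; nlinarith
  have h2 : g * (a + b) * a * b ≤ 1 := by
    have : (a + b) * a * b ≤ 2 * b ^ 3 := by nlinarith [mul_pos a1 b1]
    nlinarith
  rw [div_add' _ _ _ b1.ne', div_le_div_iff₀ b1 a1]
  nlinarith [mul_le_mul_of_nonneg_left h2 (sub_nonneg.2 hab)]

lemma Wpos : ∀ i ∈ Icc 2 52, 0 < W i := by
  intro i hi
  rw [mem_Icc] at hi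
  obtain ⟨h1, h2⟩ := hi
  interval_cases i <;> norm_num [W, prof]

lemma Gok : ∀ i ∈ Icc 2 52, 0 ≤ G i ∧ 4 * G i ^ 2 * W i ^ 3 ≤ 1 := by
  intro i hi
  rw [mem_Icc] at hi
  obtain ⟨h1, h2⟩ := hi
  interval_cases i <;> norm_num [W, prof, G, gg]

lemma Wjerk : ∀ i ∈ Icc 2 52, i ≠ 27 → Δ 1 (1 / 1000) (1919 / 1000) W i ^ 2 * W i ≤ 1 := by
  intro i hi h27
  rw [mem_Icc] at hi
  obtain ⟨h1, h2⟩ := hi
  interval_cases i <;> first | exact absurd rfl h27 | norm_num [W, prof, Δ]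

lemma WC : InC 53 1 1 W W := by
  refine ⟨by norm_num [W, prof], by norm_num [W, prof], fun i hi => ⟨(Wpos i hi).le, le_rfl⟩, ?_⟩
  intro i hi
  rw [mem_Icc] at hi
  obtain ⟨h1, h2⟩ := hi
  norm_num at h2
  interval_cases i <;> norm_num [W, prof, abs_le]

theorem main : ∃ (n : ℕ) (h ρ A J : ℝ) (wmax : ℕ → ℝ), 3 ≤ n ∧ 0 < h ∧ 0 < ρ ∧ 0 < A ∧ 0 < J ∧
    (∀ i ∈ Icc 2 (n - 1), 0 < wmax i) ∧ ∃ w t, FeasR n h ρ A J wmax w t ∧ ∃ δ > 0,
      ∀ w', FeasP n h ρ A J wmax w' →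
        ∑ i ∈ Icc 2 (n - 1), t i + δ ≤ ∑ i ∈ Icc 2 (n - 1), h / √(w' i) := by
  refine ⟨53, 1, 1 / 1000, 1, 1919 / 1000, W, by norm_num, one_pos, by norm_num, one_pos,
    by norm_num, Wpos, W, fun i => 1 / √(W i) + if i = 27 then 80 / 1919 else 0,
    ⟨WC, fun i hi => ⟨Wpos i hi, ?_, ?_⟩⟩, 1 / 10000, by norm_num, ?_⟩
  · simp only; split_ifs <;> linarith
  · simp only
    split_ifs with h
    · subst h; norm_num [W, prof, Δ, abs_le]
    · rw [add_zero]; exact le_inv_sqrt (Wpos i hi) (Wjerk i hi h)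
  · rintro w ⟨⟨-, -, h1, h2⟩, h3⟩
    have k1 : ∑ i ∈ Icc 2 52, (1 / √(W i) + G i * (W i - w i)) ≤ ∑ i ∈ Icc 2 52, 1 / √(w i) :=
      sum_le_sum fun i hi => tangent (h3 i hi).1 (h1 i hi).2 (Gok i hi).1 (Gok i hi).2
    have k2 : ∀ i, 1 ≤ i → i ≤ 52 → w (i + 1) ≤ w i + 1 ∧ w i ≤ w (i + 1) + 1 := by
      intro i a b
      have := abs_le.1 (h2 i (mem_Icc.2 ⟨a, b⟩))
      constructor <;> linarith
    have k3 : w 26 + w 28 ≤ 98 / 25 := by
      have a1 := (k2 26 (by norm_num) (by norm_num)).2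
      have a2 := (k2 27 (by norm_num) (by norm_num)).1
      have a3 := h3 27 (by decide)
      have a4 := (h1 27 (by decide)).2
      have a5 := (abs_le.1 a3.2).2
      norm_num [W, prof, Δ] at a1 a2 a4 a5
      have b1 := Real.sqrt_pos.2 a3.1
      have b2 := Real.sq_sqrt a3.1.le
      by_cases hv : w 27 ≤ 24 / 25
      · linarith
      · push Not at hv
        generalize √(w 27) = s at *
        have b3 : s ≤ 1 := by nlinarith
        have b4 : 9 / 10 ≤ s := by nlinarith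
        have b5 : s⁻¹ ≤ 1 + (1 - s ^ 2) := by
          rw [inv_le_iff_one_le_mul₀ b1]; nlinarith
        rw [div_le_iff₀ (by norm_num)] at a5
        nlinarith
    have k4 : 80 / 1919 + 1 / 10000 ≤ ∑ i ∈ Icc 2 52, G i * (W i - w i) := by
      have c := fun i (a : 1 ≤ i) (b : i ≤ 52) => (k2 i a b).1
      have d := fun i (a : 1 ≤ i) (b : i ≤ 52) => (k2 i a b).2
      have := c 28 (by norm_num) (by norm_num)
      have := c 29 (by norm_num) (by norm_num)
      have := c 30 (by norm_num) (by norm_num)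
      have := c 31 (by norm_num) (by norm_num)
      have := c 32 (by norm_num) (by norm_num)
      have := c 33 (by norm_num) (by norm_num)
      have := c 34 (by norm_num) (by norm_num)
      have := c 35 (by norm_num) (by norm_num)
      have := c 36 (by norm_num) (by norm_num)
      have := c 37 (by norm_num) (by norm_num)
      have := d 25 (by norm_num) (by norm_num)
      have := d 24 (by norm_num) (by norm_num)
      have := d 23 (by norm_num) (by norm_num)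
      have := d 22 (by norm_num) (by norm_num)
      have := d 21 (by norm_num) (by norm_num)
      have := d 20 (by norm_num) (by norm_num)
      have := d 19 (by norm_num) (by norm_num)
      have := d 18 (by norm_num) (by norm_num)
      have := d 17 (by norm_num) (by norm_num)
      have := d 16 (by norm_num) (by norm_num)
      simp only [show Icc 2 52 = Ico 2 53 from rfl, sum_Ico_eq_sum_range, sum_range_succ]
      norm_num [W, prof, G, gg] at *
      linarith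
    rw [sum_add_distrib] at k1
    rw [sum_add_distrib, sum_ite_eq', if_pos (by decide)]
    linarith

end H91.Jerk
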