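import Mathlib

set_option autoImplicit false

namespace H91.Kato
open MeasureTheory Filter Topology Set ContinuousLinearMap
open scoped ContDiff Convolution Laplacian ENNReal

lemma fatou {X : Type} [MeasurableSpace X] {μ : Measure X} {k : ℕ → X → ℝ} {l : X → ℝ}
    (hk : ∀ n, Integrable (k n) μ) (h0 : ∀ n, 0 ≤ᵐ[μ] k n)
    (hl : ∀ᵐ x ∂μ, Tendsto (fun n => k n x) atTop (𝓝 (l x))) {a : ℕ → ℝ} {A : ℝ}
    (ha : Tendsto a atTop (𝓝 A)) (h : ∀ n, ∫ x, k n x ∂μ ≤ a n) :
    Integrable l μ ∧ ∫ x, l x ∂μ ≤ A := by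
  have m : AEStronglyMeasurable l μ := aestronglyMeasurable_of_tendsto_ae _ (fun n => (hk n).1) hl
  have l0 : 0 ≤ᵐ[μ] l := by
    filter_upwards [hl, ae_all_iff.2 h0] with x h1 h2 using ge_of_tendsto' h1 h2
  have A0 : 0 ≤ A := ge_of_tendsto' ha fun n => (integral_nonneg_of_ae (h0 n)).trans (h n)
  have e : ∫⁻ x, ENNReal.ofReal (l x) ∂μ ≤ ENNReal.ofReal A := by
    calc _ = ∫⁻ x, liminf (fun n => ENNReal.ofReal (k n x)) atTop ∂μ :=
          lintegral_congr_ae (hl.mono fun x hx => (ENNReal.tendsto_ofReal hx).liminf_eq.symm)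
      _ ≤ _ := lintegral_liminf_le' fun n => (hk n).1.aemeasurable.ennreal_ofReal
      _ ≤ liminf (fun n => ENNReal.ofReal (a n)) atTop := by
          refine liminf_le_liminf (.of_forall fun n => ?_)
          rw [← ofReal_integral_eq_lintegral_ofReal (hk n) (h0 n)]
          exact ENNReal.ofReal_le_ofReal (h n)
      _ = _ := (ENNReal.tendsto_ofReal ha).liminf_eq
  have i : Integrable l μ := ⟨m, (hasFiniteIntegral_iff_ofReal l0).2 (e.trans_lt ENNReal.ofReal_lt_top)⟩
  rw [← ofReal_integral_eq_lintegral_ofReal i l0] at e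
  exact ⟨i, (ENNReal.ofReal_le_ofReal_iff A0).1 e⟩

lemma rev {X : Type} [MeasurableSpace X] {μ : Measure X} {h H : ℕ → X → ℝ} {l L : X → ℝ}
    (ih : ∀ n, Integrable (h n) μ) (iH : ∀ n, Integrable (H n) μ) (iL : Integrable L μ)
    (le : ∀ n, ∀ᵐ x ∂μ, h n x ≤ H n x)
    (hl : ∀ᵐ x ∂μ, Tendsto (fun n => h n x) atTop (𝓝 (l x)))
    (hL : ∀ᵐ x ∂μ, Tendsto (fun n => H n x) atTop (𝓝 (L x)))
    (ha : Tendsto (fun n => ∫ x, H n x ∂μ) atTop (𝓝 (∫ x, L x ∂μ)))
    (h0 : ∀ n, 0 ≤ ∫ x, h n x ∂μ) : 0 ≤ ∫ x, l x ∂μ := by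
  obtain ⟨i, e⟩ := fatou (k := fun n x => H n x - h n x) (l := fun x => L x - l x)
    (fun n => (iH n).sub (ih n)) (fun n => (le n).mono fun x hx => sub_nonneg.2 hx)
    (by filter_upwards [hl, hL] with x h1 h2 using h2.sub h1) ha
    fun n => by rw [integral_sub (iH n) (ih n)]; linarith [h0 n]
  have il : Integrable l μ := (iL.sub i).congr (.of_forall fun x => by simp)
  rw [integral_sub iL il] at e
  linarith

variable {E : Type} [NormedAddCommGroup E] [InnerProductSpace ℝ E] [FiniteDimensional ℝ E]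

noncomputable def D (e : E) (a : E → ℝ) (x : E) : ℝ := fderiv ℝ a x e

lemma D_sm (e : E) {a : E → ℝ} (ha : ContDiff ℝ ∞ a) : ContDiff ℝ ∞ (D e a) :=
  (ha.fderiv_right (m := ∞) le_rfl).clm_apply contDiff_const

lemma D_cs (e : E) {a : E → ℝ} (ha : HasCompactSupport a) : HasCompactSupport (D e a) :=
  ha.fderiv_apply ℝ e

lemma lap {a : E → ℝ} (ha : ContDiff ℝ ∞ a) :
    Δ a = fun x => ∑ i, D (stdOrthonormalBasis ℝ E i) (D (stdOrthonormalBasis ℝ E i) a) x := by
  rw [InnerProductSpace.laplacian_eq_iteratedFDeriv_stdOrthonormalBasis]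
  ext x
  refine Finset.sum_congr rfl fun i _ => ?_
  rw [iteratedFDeriv_two_apply]
  unfold D
  rw [fderiv_clm_apply ((ha.fderiv_right (m := ∞) le_rfl).differentiable (by simp) x)
    (differentiableAt_const _)]
  simp

lemma lap_c {a : E → ℝ} (ha : ContDiff ℝ ∞ a) : Continuous (Δ a) := by
  rw [lap ha]; exact continuous_finsetSum _ fun i _ => (D_sm _ (D_sm _ ha)).continuous

lemma lap_cs {a : E → ℝ} (ha : ContDiff ℝ ∞ a) (hc : HasCompactSupport a) :
    HasCompactSupport (Δ a) := by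
  rw [lap ha]
  refine hc.mono' fun x hx => by_contra fun h => hx (Finset.sum_eq_zero fun i _ => ?_)
  refine by_contra fun h' => h ?_
  have e : ∀ (b : E → ℝ) (e : E), tsupport (D e b) ⊆ tsupport b := fun b e =>
    (closure_mono (t := Function.support (fderiv ℝ b)) fun y (hy : D e b y ≠ 0) h0 =>
      hy (by simp [D, h0])).trans (tsupport_fderiv_subset ℝ)
  exact e _ _ (e _ _ (subset_tsupport _ h'))

lemma chain {S T : ℝ → ℝ} (hS : ContDiff ℝ ∞ S) (hT : ∀ t, HasDerivAt T (S t) t) (ha : Antitone S)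
    {W : E → ℝ} (hW : ContDiff ℝ ∞ W) :
    ContDiff ℝ ∞ (T ∘ W) ∧ ∀ x, Δ (T ∘ W) x ≤ S (W x) * Δ W x := by
  have cT : ContDiff ℝ ∞ T := contDiff_infty_iff_deriv.2 ⟨fun t => (hT t).differentiableAt,
    by rwa [show deriv T = S from funext fun t => (hT t).deriv]⟩
  refine ⟨cT.comp hW, fun x => ?_⟩
  rw [lap (cT.comp hW), lap hW, Finset.mul_sum]
  refine Finset.sum_le_sum fun i _ => ?_
  generalize stdOrthonormalBasis ℝ E i = e
  have dW := hW.differentiable (by simp)
  have e1 : D e (T ∘ W) = fun x => S (W x) * D e W x := by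
    ext y; rw [D, ((hT _).comp_hasFDerivAt y (dW y).hasFDerivAt).fderiv]; simp [D]
  have h2 := (((hS.differentiable (by simp) (W x)).hasDerivAt.comp_hasFDerivAt x
    (dW x).hasFDerivAt).mul ((D_sm e hW).differentiable (by simp) x).hasFDerivAt).fderiv
  rw [e1, D, show (fun x => S (W x) * D e W x) = (S ∘ W) * D e W from rfl, h2]
  have := mul_nonpos_of_nonpos_of_nonneg (ha.deriv_nonpos (x := W x)) (mul_self_nonneg (D e W x))
  simp only [D, add_apply, smul_apply, smul_eq_mul, Function.comp] at this ⊢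
  nlinarith

lemma D_refl (e x : E) {ρ : E → ℝ} (hρ : ContDiff ℝ ∞ ρ) :
    D e (fun y => ρ (x - y)) = fun y => (fun z => -D e ρ z) (x - y) := by
  ext y
  rw [D, show (fun y => ρ (x - y)) = ρ ∘ fun y => x - y from rfl,
    ((hρ.differentiable (by simp) (x - y)).hasFDerivAt.comp y
      ((hasFDerivAt_id y).const_sub x)).fderiv]
  simp [D]

lemma lap_refl (x y : E) {ρ : E → ℝ} (hρ : ContDiff ℝ ∞ ρ) :
    Δ (fun y => ρ (x - y)) y = Δ ρ (x - y) := by
  rw [lap hρ, lap (a := fun y => ρ (x - y)) (hρ.comp (contDiff_const.sub contDiff_id))]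
  refine Finset.sum_congr rfl fun i _ => ?_
  rw [D_refl _ _ hρ, D_refl _ _ (D_sm _ hρ).neg]
  simp [D]
  rfl

variable [MeasurableSpace E] [BorelSpace E]

lemma icc {a φ : E → ℝ} (ha : Continuous a) (hφ : Continuous φ) (hc : HasCompactSupport φ) :
    Integrable fun x => a x * φ x :=
  (ha.mul hφ).integrable_of_hasCompactSupport hc.mul_left

lemma ibp (e : E) {a φ : E → ℝ} (ha : ContDiff ℝ ∞ a) (hφ : ContDiff ℝ ∞ φ)
    (hc : HasCompactSupport φ) : ∫ x, a x * D e φ x = -∫ x, D e a x * φ x :=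
  integral_mul_fderiv_eq_neg_fderiv_mul_of_integrable (icc (D_sm e ha).continuous hφ.continuous hc)
    (icc ha.continuous (D_sm e hφ).continuous (D_cs e hc)) (icc ha.continuous hφ.continuous hc)
    (fun x _ => ha.differentiable (by simp) x) fun x _ => hφ.differentiable (by simp) x

lemma ibp2 {a φ : E → ℝ} (ha : ContDiff ℝ ∞ a) (hφ : ContDiff ℝ ∞ φ)
    (hc : HasCompactSupport φ) : ∫ x, a x * Δ φ x = ∫ x, Δ a x * φ x := by
  rw [lap ha, lap hφ]
  simp only [Finset.mul_sum, Finset.sum_mul]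
  rw [integral_finsetSum _ fun i _ => icc ha.continuous (D_sm _ (D_sm _ hφ)).continuous
    (D_cs _ (D_cs _ hc)), integral_finsetSum _ fun i _ =>
    icc (D_sm _ (D_sm _ ha)).continuous hφ.continuous hc]
  refine Finset.sum_congr rfl fun i _ => ?_
  rw [ibp _ ha (D_sm _ hφ) (D_cs _ hc), ibp _ (D_sm _ ha) hφ hc, neg_neg]

noncomputable def M (V ρ : E → ℝ) : E → ℝ := V ⋆[lsmul ℝ ℝ, volume] ρ

lemma M_sm {V ρ : E → ℝ} (hV : Integrable V) (hρ : ContDiff ℝ ∞ ρ) (hc : HasCompactSupport ρ) :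
    ContDiff ℝ ∞ (M V ρ) := hc.contDiff_convolution_right _ hV.locallyIntegrable hρ

lemma M_D (e : E) {V ρ : E → ℝ} (hV : Integrable V) (hρ : ContDiff ℝ ∞ ρ)
    (hc : HasCompactSupport ρ) : D e (M V ρ) = M V (D e ρ) := by
  ext x
  rw [D, M, (hc.hasFDerivAt_convolution_right _ hV.locallyIntegrable (hρ.of_le (by simp)) x).fderiv,
    convolution_precompR_apply _ hV.locallyIntegrable (hc.fderiv ℝ) (hρ.continuous_fderiv (by simp))]
  rfl

lemma M_i {V ρ : E → ℝ} (hV : Integrable V) (hρ : Continuous ρ) (hc : HasCompactSupport ρ) (x : E) :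
    Integrable fun t => V t * ρ (x - t) :=
  hc.convolutionExists_right (lsmul ℝ ℝ) hV.locallyIntegrable hρ x

lemma M_lap {V ρ : E → ℝ} (hV : Integrable V) (hρ : ContDiff ℝ ∞ ρ)
    (hc : HasCompactSupport ρ) (x : E) : Δ (M V ρ) x = ∫ t, V t * Δ ρ (x - t) := by
  rw [lap (M_sm hV hρ hc), lap hρ]
  simp only [Finset.mul_sum]
  rw [integral_finsetSum _ fun i _ => M_i hV (D_sm _ (D_sm _ hρ)).continuous (D_cs _ (D_cs _ hc)) x]
  refine Finset.sum_congr rfl fun i _ => ?_
  rw [M_D _ hV hρ hc, M_D _ hV (D_sm _ hρ) (D_cs _ hc)]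
  rfl

lemma M_abs (V : E → ℝ) {ρ : E → ℝ} (h : ∀ x, 0 ≤ ρ x) (x : E) :
    |M V ρ x| ≤ M (fun t => |V t|) ρ x := by
  refine abs_integral_le_integral_abs.trans (le_of_eq (integral_congr_ae (.of_forall fun t => ?_)))
  simp [abs_mul, abs_of_nonneg (h _)]

/-- `-Δ v + f ≥ 0` in the sense of distributions in `Ω` -/
def Sup (Ω : Set E) (v f : E → ℝ) : Prop :=
  ∀ φ : E → ℝ, ContDiff ℝ ∞ φ → HasCompactSupport φ → tsupport φ ⊆ Ω → (∀ x, 0 ≤ φ x) →
    0 ≤ ∫ x in Ω, (v x * -Δ φ x + f x * φ x)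

lemma bd {φ : E → ℝ} (hφ : ContDiff ℝ ∞ φ) (hc : HasCompactSupport φ) :
    ∃ C, ∀ x, |φ x| ≤ C ∧ |Δ φ x| ≤ C := by
  obtain ⟨A, hA⟩ := hφ.continuous.bounded_above_of_compact_support hc
  obtain ⟨B, hB⟩ := (lap_c hφ).bounded_above_of_compact_support (lap_cs hφ hc)
  exact ⟨max A B, fun x => ⟨le_max_of_le_left (hA x), le_max_of_le_right (hB x)⟩⟩

lemma kato {S T : ℝ → ℝ} (hS : ContDiff ℝ ∞ S) (hT : ∀ t, HasDerivAt T (S t) t) (ha : Antitone S)
    (S0 : ∀ t, 0 ≤ S t) (S1 : ∀ t, S t ≤ 1) (T1 : ∀ t, |T t| ≤ |t|) {Ω : Set E} (hΩ : IsOpen Ω)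
    {v f : E → ℝ} (hv : IntegrableOn v Ω) (hf : IntegrableOn f Ω) (H : Sup Ω v f) :
    Sup Ω (fun x => T (v x)) fun x => S (v x) * f x := by
  intro φ hφ hc hs h0
  obtain ⟨δ, hδ, hδ'⟩ := hc.isCompact.exists_cthickening_subset_open hΩ hs
  obtain ⟨C, hC⟩ := bd hφ hc
  have hV := (integrable_indicator_iff hΩ.measurableSet).2 hv
  have hF := (integrable_indicator_iff hΩ.measurableSet).2 hf
  set V := Ω.indicator v
  set F := Ω.indicator f
  let β : ℕ → ContDiffBump (0 : E) := fun n => ⟨δ / (n + 1) / 2, δ / (n + 1), by positivity,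
    half_lt_self (by positivity)⟩
  let ρ : ℕ → E → ℝ := fun n => (β n).normed volume
  have r1 : ∀ n, ContDiff ℝ ∞ (ρ n) := fun n => (β n).contDiff_normed
  have r2 : ∀ n, HasCompactSupport (ρ n) := fun n => (β n).hasCompactSupport_normed
  have r3 : ∀ n x, 0 ≤ ρ n x := fun n => (β n).nonneg_normed
  have ae : ∀ U : E → ℝ, Integrable U → ∀ᵐ x, Tendsto (fun n => M U (ρ n) x) atTop (𝓝 (U x)) := by
    intro U hU
    filter_upwards [ContDiffBump.ae_convolution_tendsto_right_of_locallyIntegrable (φ := β) (K := 2)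
      (l := atTop) (by simpa [β, div_eq_mul_inv] using
        (tendsto_one_div_add_atTop_nhds_zero_nat (𝕜 := ℝ)).const_mul δ)
      (.of_forall fun n => by simp only [β]; linarith) hU.locallyIntegrable] with x hx
    refine hx.congr fun n => ?_
    rw [convolution_lsmul_swap, M, convolution_lsmul]
    simp only [smul_eq_mul, mul_comm, ρ]
  have im : ∀ U : E → ℝ, Integrable U → ∀ n, Integrable (M U (ρ n)) ∧ ∫ x, M U (ρ n) x = ∫ x, U x :=
    fun U hU n => ⟨hU.integrable_convolution _ (β n).integrable_normed, by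
      rw [M, integral_convolution _ hU (β n).integrable_normed, (β n).integral_normed]; simp⟩
  have pt : ∀ n, ∀ x ∈ tsupport φ, 0 ≤ -Δ (M V (ρ n)) x + M F (ρ n) x := by
    intro n x hx
    have := H (fun y => ρ n (x - y)) ((r1 n).comp (contDiff_const.sub contDiff_id))
      ((r2 n).comp_homeomorph (Homeomorph.subLeft x)) (by
        refine (closure_minimal (fun y hy => ?_) Metric.isClosed_cthickening).trans hδ'
        have : x - y ∈ Function.support (ρ n) := hy
        rw [(β n).support_normed_eq, mem_ball_zero_iff, ← dist_eq_norm, dist_comm] at this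
        refine Metric.mem_cthickening_of_dist_le y x δ _ hx (this.le.trans ?_)
        exact div_le_self hδ.le (by simp)) fun y => r3 n _
    rw [← integral_indicator hΩ.measurableSet] at this
    rw [M_lap hV (r1 n) (r2 n), ← integral_neg, M, convolution_lsmul]
    simp only [smul_eq_mul]
    rw [← integral_add (M_i hV (lap_c (r1 n)) (lap_cs (r1 n) (r2 n)) x).fun_neg
      (M_i hF (r1 n).continuous (r2 n) x)]
    refine this.trans_eq (integral_congr_ae (.of_forall fun t => ?_))
    by_cases ht : t ∈ Ω <;> simp [V, F, ht, lap_refl _ _ (r1 n)]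
  have cT : Continuous T := continuous_iff_continuousAt.2 fun t => (hT t).continuousAt
  have T0 : T 0 = 0 := by simpa using T1 0
  have key := rev (μ := volume)
    (h := fun n x => T (M V (ρ n) x) * -Δ φ x + S (M V (ρ n) x) * M F (ρ n) x * φ x)
    (H := fun n x => C * (M (fun t => |V t|) (ρ n) x + M (fun t => |F t|) (ρ n) x))
    (l := fun x => T (V x) * -Δ φ x + S (V x) * F x * φ x) (L := fun x => C * (|V x| + |F x|))
    (fun n => (icc (cT.comp (M_sm hV (r1 n) (r2 n)).continuous) (lap_c hφ).neg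
      (lap_cs hφ hc).neg).add (icc ((hS.continuous.comp (M_sm hV (r1 n) (r2 n)).continuous).mul
      (M_sm hF (r1 n) (r2 n)).continuous) hφ.continuous hc))
    (fun n => ((im _ hV.abs n).1.add (im _ hF.abs n).1).const_mul C) ((hV.abs.add hF.abs).const_mul C)
    (fun n => .of_forall fun x => by
      have a1 := (T1 _).trans (M_abs V (r3 n) x)
      have a2 := M_abs F (r3 n) x
      have b1 : T (M V (ρ n) x) * -Δ φ x ≤ M (fun t => |V t|) (ρ n) x * C := (le_abs_self _).trans (by
        rw [abs_mul, abs_neg]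
        exact mul_le_mul a1 (hC x).2 (abs_nonneg _) ((abs_nonneg _).trans a1))
      have b2 : S (M V (ρ n) x) * M F (ρ n) x * φ x ≤ M (fun t => |F t|) (ρ n) x * C := (le_abs_self _).trans (by
        rw [abs_mul, abs_mul, abs_of_nonneg (S0 _)]
        exact mul_le_mul (mul_le_of_le_one_left (abs_nonneg _) (S1 _) |>.trans a2) (hC x).1
          (abs_nonneg _) ((abs_nonneg _).trans a2))
      linarith)
    (by
      filter_upwards [ae _ hV, ae _ hF] with x h1 h2
      exact (((cT.tendsto _).comp h1).mul_const _).add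
        ((((hS.continuous.tendsto _).comp h1).mul h2).mul_const _))
    (by
      filter_upwards [ae _ hV.abs, ae _ hF.abs] with x h1 h2
      exact (h1.add h2).const_mul C)
    (tendsto_const_nhds.congr fun n => by
      rw [integral_const_mul, integral_const_mul, integral_add hV.abs hF.abs,
        integral_add (im _ hV.abs n).1 (im _ hF.abs n).1, (im _ hV.abs n).2, (im _ hF.abs n).2])
    (fun n => by
      have sW := M_sm hV (r1 n) (r2 n)
      obtain ⟨c1, c2⟩ := chain hS hT ha sW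
      have i2 : Integrable fun x => S (M V (ρ n) x) * M F (ρ n) x * φ x :=
        icc ((hS.continuous.comp sW.continuous).mul
        (M_sm hF (r1 n) (r2 n)).continuous) hφ.continuous hc
      have e1 : ∫ x, T (M V (ρ n) x) * Δ φ x = ∫ x, Δ (T ∘ M V (ρ n)) x * φ x := ibp2 c1 hφ hc
      have i1 : Integrable fun x => -(T (M V (ρ n) x) * Δ φ x) :=
        (icc c1.continuous (lap_c hφ) (lap_cs hφ hc)).neg
      simp only [mul_neg]
      rw [integral_add i1 i2, integral_neg, e1,
        ← integral_neg, ← integral_add (icc (lap_c c1) hφ.continuous hc).fun_neg i2]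
      refine integral_nonneg fun x => ?_
      by_cases hx : x ∈ tsupport φ
      · have := mul_nonneg (S0 (M V (ρ n) x)) (pt n x hx)
        have := mul_nonneg (show 0 ≤ -Δ (T ∘ M V (ρ n)) x + S (M V (ρ n) x) * M F (ρ n) x by
          linarith [c2 x]) (h0 x)
        simp only [Pi.zero_apply]
        linarith
      · simp [image_eq_zero_of_notMem_tsupport hx])
  rw [← integral_indicator hΩ.measurableSet]
  refine key.trans_eq (integral_congr_ae (.of_forall fun t => ?_))
  by_cases ht : t ∈ Ω <;> simp [V, F, ht, T0]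

lemma closed {Ω : Set E} (hΩ : IsOpen Ω) {g : ℝ → ℝ} (hg : Continuous g) (hs : ∀ t, 0 ≤ g t * t)
    {u : ℕ → E → ℝ} {v : E → ℝ} (hu : ∀ n, IntegrableOn (u n) Ω)
    (hgu : ∀ n, IntegrableOn (fun x => g (u n x)) Ω) (H : ∀ n, Sup Ω (u n) fun x => g (u n x))
    (hv : IntegrableOn v Ω) (hgv : IntegrableOn (fun x => g (v x)) Ω)
    (h1 : Tendsto (fun n => ∫ x in Ω, |u n x|) atTop (𝓝 (∫ x in Ω, |v x|)))
    (h2 : ∀ᵐ x ∂volume.restrict Ω, Tendsto (fun n => u n x) atTop (𝓝 (v x))) :
    Sup Ω v fun x => g (v x) := by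
  intro φ hφ hc hφs h0
  obtain ⟨C, hC⟩ := bd hφ hc
  let S : ℕ → ℝ → ℝ := fun k t => Real.smoothTransition (k - t)
  let T : ℕ → ℝ → ℝ := fun k t => ∫ s in (0 : ℝ)..t, S k s
  have s1 : ∀ k, ContDiff ℝ ∞ (S k) := fun k =>
    Real.smoothTransition.contDiff.comp (contDiff_const.sub contDiff_id)
  have S0 : ∀ k t, 0 ≤ S k t := fun k t => Real.smoothTransition.nonneg _
  have S1 : ∀ k t, S k t ≤ 1 := fun k t => Real.smoothTransition.le_one _
  have hT : ∀ k t, HasDerivAt (T k) (S k t) t := fun k t =>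
    (s1 k).continuous.integral_hasStrictDerivAt 0 t |>.hasDerivAt
  have cT : ∀ k, Continuous (T k) := fun k => continuous_iff_continuousAt.2 fun t => (hT k t).continuousAt
  have T1 : ∀ k t, |T k t| ≤ |t| := fun k t => by
    simpa using intervalIntegral.norm_integral_le_of_norm_le_const (a := 0) (b := t) (f := S k)
      (C := 1) fun s _ => by rw [Real.norm_of_nonneg (S0 k s)]; exact S1 k s
  have ib : ∀ k (w : E → ℝ), IntegrableOn w Ω → IntegrableOn (fun x => g (w x)) Ω →
      IntegrableOn (fun x => T k (w x) * -Δ φ x + S k (w x) * g (w x) * φ x) Ω := by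
    intro k w a b
    refine Integrable.add (Integrable.mul_bdd (c := C) (Integrable.mono a ((cT k).comp_aestronglyMeasurable a.1)
      (.of_forall fun x => T1 k _)) (lap_c hφ).neg.aestronglyMeasurable
      (.of_forall fun x => by simpa using (hC x).2)) (Integrable.mul_bdd (c := C)
      (Integrable.bdd_mul (c := 1) b ((s1 k).continuous.comp_aestronglyMeasurable a.1)
      (.of_forall fun x => by rw [Real.norm_of_nonneg (S0 k _)]; exact S1 k _))
      hφ.continuous.aestronglyMeasurable (.of_forall fun x => (hC x).1))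
  have b1 : ∀ k t x, T k t * -Δ φ x ≤ C * |t| := fun k t x => (le_abs_self _).trans (by
    rw [abs_mul, abs_neg, mul_comm]
    exact mul_le_mul (hC x).2 (T1 k t) (abs_nonneg _) ((abs_nonneg _).trans (hC x).2))
  have iφ : IntegrableOn φ Ω := (hφ.continuous.integrable_of_hasCompactSupport hc).integrableOn
  have step : ∀ k, 0 ≤ ∫ x in Ω, (T k (v x) * -Δ φ x + S k (v x) * g (v x) * φ x) := by
    intro k
    obtain ⟨B, hB⟩ := (isCompact_Icc (a := (0 : ℝ)) (b := k)).exists_bound_of_continuousOn hg.continuousOn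
    have B0 : 0 ≤ B := (norm_nonneg _).trans (hB 0 ⟨le_rfl, by positivity⟩)
    have b2 : ∀ t, S k t * g t ≤ B := by
      intro t
      rcases lt_or_ge t 0 with h | h
      · exact (mul_nonpos_of_nonneg_of_nonpos (S0 k t) (by nlinarith [hs t])).trans B0
      rcases le_total t k with h' | h'
      · have := (le_abs_self _).trans (hB t ⟨h, h'⟩)
        nlinarith [S0 k t, S1 k t]
      · simp only [S, Real.smoothTransition.zero_of_nonpos (sub_nonpos.2 h'), zero_mul, B0]
    refine rev (H := fun n x => C * |u n x| + B * φ x) (L := fun x => C * |v x| + B * φ x)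
      (fun n => ib k _ (hu n) (hgu n)) (fun n => ((hu n).abs.const_mul C).add (iφ.const_mul B))
      ((hv.abs.const_mul C).add (iφ.const_mul B))
      (fun n => .of_forall fun x => add_le_add (b1 _ _ _) (mul_le_mul_of_nonneg_right (b2 _) (h0 x)))
      (h2.mono fun x hx => ((((cT k).tendsto _).comp hx).mul_const _).add
        (((((s1 k).continuous.tendsto _).comp hx).mul ((hg.tendsto _).comp hx)).mul_const _))
      (h2.mono fun x hx => (hx.abs.const_mul C).add_const _) ?_
      fun n => kato (s1 k) (hT k) (fun a b hab => Real.smoothTransition.monotone (by linarith))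
        (S0 k) (S1 k) (T1 k) hΩ (hu n) (hgu n) (H n) φ hφ hc hφs h0
    simp only [fun n => integral_add ((hu n).abs.const_mul C) (iφ.const_mul B),
      integral_add (hv.abs.const_mul C) (iφ.const_mul B), integral_const_mul]
    exact (h1.const_mul C).add_const _
  have iL := (hv.abs.const_mul C).add (hgv.abs.const_mul C)
  refine rev (H := fun _ x => C * |v x| + C * |g (v x)|) (fun k => ib k _ hv hgv) (fun _ => iL) iL
    (fun k => .of_forall fun x => add_le_add (b1 _ _ _) ((le_abs_self _).trans ?_))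
    (.of_forall fun x => tendsto_const_nhds.congr' ?_) (.of_forall fun x => tendsto_const_nhds)
    tendsto_const_nhds step
  · rw [abs_mul, abs_mul, abs_of_nonneg (S0 _ _), mul_comm]
    exact mul_le_mul (hC x).1 (mul_le_of_le_one_left (abs_nonneg _) (S1 _ _))
      (mul_nonneg (S0 _ _) (abs_nonneg _)) ((abs_nonneg _).trans (hC x).1)
  · filter_upwards [tendsto_natCast_atTop_atTop.eventually_ge_atTop (|v x| + 1)] with k hk
    have e : ∀ s, s ≤ |v x| → S k s = 1 := fun s h => Real.smoothTransition.one_of_one_le (by linarith)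
    have : T k (v x) = v x := by
      simp only [T]
      rw [intervalIntegral.integral_congr (g := fun _ => 1) fun s h => e s
        (h.2.trans (max_le (abs_nonneg _) (le_abs_self _)))]
      simp
    rw [this, e _ (le_abs_self _), one_mul]

theorem main : ∀ (N : ℕ) (Ω : Set (EuclideanSpace ℝ (Fin N))), IsOpen Ω → ∀ g : ℝ → ℝ,
    Continuous g → (∀ t, 0 ≤ g t * t) →
    ∀ (u : ℕ → EuclideanSpace ℝ (Fin N) → ℝ) (v : EuclideanSpace ℝ (Fin N) → ℝ),
      (∀ n, MeasureTheory.IntegrableOn (u n) Ω ∧ MeasureTheory.IntegrableOn (fun x => g (u n x)) Ω ∧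
        H91.Kato.Sup Ω (u n) fun x => g (u n x)) →
      (∃ C : ℝ, ∀ n, ∫ x in Ω, |g (u n x)| ≤ C) → MeasureTheory.IntegrableOn v Ω →
      Filter.Tendsto (fun n => ∫ x in Ω, |u n x - v x|) Filter.atTop (nhds 0) →
      MeasureTheory.IntegrableOn (fun x => g (v x)) Ω ∧ H91.Kato.Sup Ω v fun x => g (v x) := by
  intro N Ω hΩ g hg hs u v hu ⟨C, hC⟩ hv h
  have t : TendstoInMeasure (volume.restrict Ω) u atTop v := by
    refine tendstoInMeasure_of_tendsto_eLpNorm one_ne_zero (fun n => (hu n).1.1) hv.1 ?_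
    have := ENNReal.tendsto_ofReal h
    rw [ENNReal.ofReal_zero] at this
    refine this.congr fun n => ?_
    rw [eLpNorm_one_eq_lintegral_enorm, ← ofReal_integral_norm_eq_lintegral_enorm ((hu n).1.sub hv)]
    rfl
  obtain ⟨s, hs1, hs2⟩ := t.exists_seq_tendsto_ae
  have i : IntegrableOn (fun x => g (v x)) Ω :=
    (integrable_norm_iff (hg.comp_aestronglyMeasurable hv.1)).1 (fatou (k := fun n x => |g (u (s n) x)|)
      (fun n => (hu _).2.1.abs) (fun n => .of_forall fun x => abs_nonneg _)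
      (hs2.mono fun x hx => ((hg.tendsto _).comp hx).abs) tendsto_const_nhds fun n => hC _).1
  refine ⟨i, closed hΩ hg hs (fun n => (hu (s n)).1) (fun n => (hu _).2.1) (fun n => (hu _).2.2)
    hv i ?_ hs2⟩
  refine tendsto_iff_norm_sub_tendsto_zero.2 (squeeze_zero (fun _ => norm_nonneg _) (fun n => ?_)
    (h.comp hs1.tendsto_atTop))
  rw [← integral_sub (hu _).1.abs hv.abs]
  exact norm_integral_le_of_norm_le ((hu _).1.sub hv).abs
    (.of_forall fun x => abs_abs_sub_abs_le_abs_sub _ _)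

end H91.Kato
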