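import Mathlib

set_option autoImplicit false

namespace H91.Kobay
open Filter Topology Set Metric Complex

abbrev E := EuclideanSpace ℂ (Fin 2)

/-- Kobayashi pseudodistance, via chains of analytic discs -/
noncomputable def kob (D : Set E) (z w : E) : ℝ :=
  sInf {s | ∃ (n : ℕ) (p : ℕ → E) (a : ℕ → ℂ) (φ : ℕ → ℂ → E), p 0 = z ∧ p n = w ∧
    (∀ i < n, DifferentiableOn ℂ (φ i) (ball 0 1) ∧ MapsTo (φ i) (ball 0 1) D ∧ ‖a i‖ < 1 ∧
      φ i 0 = p i ∧ φ i (a i) = p (i + 1)) ∧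
    s = ∑ i ∈ Finset.range n, 1 / 2 * Real.log ((1 + ‖a i‖) / (1 - ‖a i‖))}

/-- holomorphically convex -/
def HolConv (D : Set E) : Prop :=
  ∀ K ⊆ D, IsCompact K → IsCompact {z ∈ D | ∀ (f : E → ℂ) (M : ℝ), DifferentiableOn ℂ f D →
    (∀ w ∈ K, ‖f w‖ ≤ M) → ‖f z‖ ≤ M}

def D : Set E := {z | ‖z 1‖ < 1 ∧ ‖z 0‖ < (1 - ‖z 1‖) ^ 2}

lemma D_open : IsOpen D :=
  IsOpen.and (isOpen_lt (by fun_prop) continuous_const) (isOpen_lt (by fun_prop) (by fun_prop))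

lemma nsq (z : E) : ‖z‖ ^ 2 = ‖z 0‖ ^ 2 + ‖z 1‖ ^ 2 := by
  rw [EuclideanSpace.norm_sq_eq, Fin.sum_univ_two]

lemma D_sub : D ⊆ closedBall 0 2 := fun z hz => by
  rw [mem_closedBall_zero_iff]
  have h1 := nsq z
  have h2 := norm_nonneg (z 1)
  have h3 : ‖z 0‖ ≤ 1 := by nlinarith [hz.1, hz.2]
  nlinarith [hz.1, norm_nonneg (z 0), norm_nonneg z]

lemma D_star : StarConvex ℝ 0 D := by
  intro z hz a b _ hb hab
  have hb1 : b ≤ 1 := by linarith
  have h0 := norm_nonneg (z 0)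
  have h1 := norm_nonneg (z 1)
  have e : ∀ i, ‖(a • (0:E) + b • z) i‖ = b * ‖z i‖ := fun i => by
    simp [abs_of_nonneg hb]
  have h2 : b * ‖z 1‖ ≤ ‖z 1‖ := by nlinarith
  refine ⟨by rw [e]; linarith [hz.1], ?_⟩
  rw [e, e]
  have h3 : (1 - ‖z 1‖) ^ 2 ≤ (1 - b * ‖z 1‖) ^ 2 := by gcongr; linarith [hz.1]
  nlinarith [hz.2]

lemma D_hol : HolConv D := by
  intro K hK hKc
  rcases K.eq_empty_or_nonempty with rfl | hne
  · convert isCompact_empty
    refine eq_empty_of_forall_notMem fun z hz => ?_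
    have := hz.2 (fun _ => 0) (-1) (by fun_prop) (by simp)
    simp at this; linarith
  obtain ⟨u, hu, hu2⟩ := hKc.exists_isMaxOn hne (f := fun z : E => ‖z 1‖) (by fun_prop)
  have hc : ContinuousOn (fun z : E => ‖z 0‖ / (1 - ‖z 1‖) ^ 2) K :=
    ContinuousOn.div (by fun_prop) (by fun_prop) fun z hz =>
      pow_ne_zero 2 (sub_pos.2 (hK hz).1).ne'
  obtain ⟨v, hv, hv2⟩ := hKc.exists_isMaxOn hne hc
  set r := ‖u 1‖
  set c := ‖v 0‖ / (1 - ‖v 1‖) ^ 2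
  have hr : r < 1 := (hK hu).1
  have hc1 : c < 1 := (div_lt_one (pow_pos (sub_pos.2 (hK hv).1) 2)).2 (hK hv).2
  let K' : Set E := {z | ‖z 1‖ ≤ r ∧ ‖z 0‖ ≤ c * (1 - ‖z 1‖) ^ 2}
  have hK'D : K' ⊆ D := fun z hz => ⟨hz.1.trans_lt hr, hz.2.trans_lt (by
    have : 0 < (1 - ‖z 1‖) ^ 2 := pow_pos (by linarith [hz.1]) 2
    nlinarith)⟩
  have hK'c : IsClosed K' :=
    IsClosed.and (isClosed_le (by fun_prop) continuous_const)
      (isClosed_le (by fun_prop) (by fun_prop))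
  have hK'k : IsCompact K' := (isCompact_closedBall 0 2).of_isClosed_subset hK'c (hK'D.trans D_sub)
  have e : {z ∈ D | ∀ (f : E → ℂ) (M : ℝ), DifferentiableOn ℂ f D → (∀ w ∈ K, ‖f w‖ ≤ M) →
      ‖f z‖ ≤ M} = K' ∩ ⋂ (f : E → ℂ) (M : ℝ) (_ : DifferentiableOn ℂ f D)
        (_ : ∀ w ∈ K, ‖f w‖ ≤ M), (K' ∩ (fun z => ‖f z‖) ⁻¹' Iic M) := by
    ext z
    simp only [mem_ofPred_eq, mem_inter_iff, mem_iInter, mem_preimage, mem_Iic]
    refine ⟨fun ⟨hz, h⟩ => ?_, fun ⟨hz, h⟩ => ⟨hK'D hz, fun f M a b => (h f M a b).2⟩⟩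
    have hz' : z ∈ K' := by
      refine ⟨h (fun w => w 1) r (by fun_prop) fun w hw => hu2 hw, ?_⟩
      obtain ⟨ζ, hζ, hζ2⟩ := Complex.exists_norm_eq_mul_self (z 1)
      have a1 : ∀ w ∈ D, 1 - ‖w 1‖ ≤ ‖1 - ζ * w 1‖ := fun w _ => by
        have := norm_sub_norm_le (1:ℂ) (ζ * w 1)
        rwa [norm_one, norm_mul, hζ, one_mul] at this
      have a2 : ∀ w ∈ D, 1 - ζ * w 1 ≠ 0 := fun w hw h0 => by
        have := a1 w hw
        rw [h0, norm_zero] at this; linarith [hw.1]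
      have a0 : DifferentiableOn ℂ (fun w : E => w 0 / (1 - ζ * w 1) ^ 2) D := by
        simp only [div_eq_mul_inv]
        exact DifferentiableOn.mul (by fun_prop)
          (DifferentiableOn.inv (by fun_prop) fun w hw => pow_ne_zero 2 (a2 w hw))
      have := h _ c a0 fun w hw => by
          refine le_trans ?_ (hv2 hw)
          simp only [norm_div, norm_pow]
          have := sub_pos.2 (hK hw).1
          gcongr
          exact a1 w (hK hw)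
      have a3 : ζ * z 1 = (‖z 1‖ : ℂ) := hζ2.symm
      have a4 : ‖(1:ℂ) - (‖z 1‖ : ℂ)‖ = 1 - ‖z 1‖ := by
        rw [← ofReal_one, ← ofReal_sub, norm_real, Real.norm_eq_abs, abs_of_pos (sub_pos.2 hz.1)]
      rwa [norm_div, norm_pow, a3, a4, div_le_iff₀ (pow_pos (sub_pos.2 hz.1) 2)] at this
    exact ⟨hz', fun f M a b => ⟨hz', h f M a b⟩⟩
  rw [e]
  refine hK'k.inter_right (isClosed_iInter fun f => isClosed_iInter fun M =>
    isClosed_iInter fun hf => isClosed_iInter fun _ => ?_)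
  exact (hf.continuousOn.mono hK'D).norm.preimage_isClosed_of_isClosed hK'c isClosed_Iic

noncomputable def pt (a b : ℂ) : E := WithLp.toLp 2 ![a, b]

lemma pt_cont : Continuous fun p : ℂ × ℂ => pt p.1 p.2 := by unfold pt; fun_prop

lemma pt_mem {a b : ℝ} (ha : 0 ≤ a) (hb : 0 ≤ b) : pt a b ∈ D ↔ b < 1 ∧ a < (1 - b) ^ 2 := by
  simp [D, pt, abs_of_nonneg ha, abs_of_nonneg hb]

lemma kob_le (δ : ℝ) (h0 : 0 < δ) (h1 : δ ≤ 1) :
    kob D 0 (pt 0 (1 - δ : ℝ)) ≤ 1 / 2 * (Real.log 2 - Real.log δ) := by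
  have hn : ‖((1 - δ : ℝ) : ℂ)‖ = 1 - δ := by
    rw [norm_real, Real.norm_eq_abs, abs_of_nonneg (by linarith)]
  refine le_trans (csInf_le ⟨0, ?_⟩ ⟨1, fun i => if i = 0 then 0 else pt 0 (1 - δ : ℝ),
    fun _ => (1 - δ : ℝ), fun _ l => pt 0 l, by simp, by simp, fun i hi => ⟨?_, ?_, ?_, ?_, ?_⟩,
    rfl⟩) ?_
  · rintro s ⟨n, p, a, φ, -, -, h, rfl⟩
    refine Finset.sum_nonneg fun i hi => mul_nonneg (by norm_num) (Real.log_nonneg ?_)
    have := (h i (Finset.mem_range.1 hi)).2.2.1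
    rw [le_div_iff₀ (by linarith)]
    linarith [norm_nonneg (a i)]
  · refine Differentiable.differentiableOn ?_
    have : (fun l : ℂ => pt 0 l) = fun l => l • pt 0 1 := by
      funext l; ext i; fin_cases i <;> simp [pt]
    rw [this]; fun_prop
  · intro l hl
    have := mem_ball_zero_iff.1 hl
    simp only [D, pt, mem_ofPred_eq]
    simp
    exact ⟨this, pow_pos (sub_pos.2 this) 2⟩
  · rw [hn]; linarith
  · obtain rfl : i = 0 := by omega
    ext i; fin_cases i <;> simp [pt]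
  · simp
  · rw [Finset.sum_range_one, hn, ← Real.log_div (by norm_num) h0.ne', sub_sub_cancel]
    gcongr
    linarith

theorem main : ∃ (D : Set E) (z₀ ζ₀ : E), IsOpen D ∧ IsConnected D ∧ Bornology.IsBounded D ∧
    (∀ z ∈ D, ∀ w : E, (∀ j, ‖w j‖ = ‖z j‖) → w ∈ D) ∧ HolConv D ∧ z₀ ∈ D ∧ ζ₀ ∈ frontier D ∧
    (∀ j, ζ₀ j = 0 → ∃ z ∈ D, z j = 0) ∧ ∀ U ∈ 𝓝 ζ₀, ∀ C : ℝ, ∃ z ∈ D ∩ U,
      kob D z₀ z < -(1 / 2) * Real.log (infDist z (frontier D)) + C := by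
  have h0 : (0 : E) ∈ D := by simp [D]
  have hl : Tendsto (fun δ : ℝ => pt 0 (1 - δ : ℝ)) (𝓝[>] 0) (𝓝 (pt 0 1)) := by
    have : Continuous fun δ : ℝ => pt 0 (1 - δ : ℝ) :=
      pt_cont.comp (f := fun δ : ℝ => ((0:ℂ), ((1 - δ : ℝ) : ℂ))) (by fun_prop)
    simpa using (this.tendsto 0).mono_left nhdsWithin_le_nhds
  have hD : ∀ δ ∈ Ioo (0:ℝ) 1, pt 0 (1 - δ : ℝ) ∈ D := fun δ hδ =>
    (pt_mem (a := 0) le_rfl (by linarith [hδ.2])).2 ⟨by linarith [hδ.1], by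
      rw [sub_sub_cancel]; exact pow_pos hδ.1 2⟩
  refine ⟨D, 0, pt 0 1, D_open, (D_star.isPathConnected h0).isConnected,
    isBounded_closedBall.subset D_sub, fun z hz w hw => ?_, D_hol, h0, ?_,
    fun j _ => ⟨0, h0, rfl⟩, fun U hU C => ?_⟩
  · simp only [D, mem_ofPred_eq, hw]; exact hz
  · rw [D_open.frontier_eq]
    refine ⟨mem_closure_of_tendsto hl ?_, by simp [D, pt]⟩
    filter_upwards [Ioo_mem_nhdsGT zero_lt_one] with δ hδ using hD δ hδ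
  · obtain ⟨δ, ⟨h1, h2⟩, h3⟩ := (((hl.eventually hU).and (Ioo_mem_nhdsGT zero_lt_one)).and
      (Real.tendsto_log_nhdsGT_zero.eventually (eventually_lt_atBot (2 * C - Real.log 2)))).exists
    refine ⟨_, ⟨hD δ h2, h1⟩, (kob_le δ h2.1 h2.2.le).trans_lt ?_⟩
    have hb : pt (δ ^ 2 : ℝ) (1 - δ : ℝ) ∈ frontier D := by
      rw [D_open.frontier_eq]
      refine ⟨?_, fun h => ?_⟩
      · have : Continuous fun s : ℝ => pt s (1 - δ : ℝ) :=
          pt_cont.comp (f := fun s : ℝ => ((s:ℂ), ((1 - δ : ℝ) : ℂ))) (by fun_prop)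
        refine mem_closure_of_tendsto ((this.tendsto (δ ^ 2)).mono_left
          (nhdsWithin_le_nhds (s := Iio (δ ^ 2)))) ?_
        filter_upwards [Ioo_mem_nhdsLT (pow_pos h2.1 2)] with s hs
        exact (pt_mem hs.1.le (by linarith [h2.2])).2 ⟨by linarith [h2.1], by
          rw [sub_sub_cancel]; exact hs.2⟩
      · have := ((pt_mem (by positivity) (by linarith [h2.2])).1 h).2
        rw [sub_sub_cancel] at this
        exact lt_irrefl _ this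
    have h4 : infDist (pt 0 (1 - δ : ℝ)) (frontier D) ≤ δ ^ 2 := by
      refine (infDist_le_dist_of_mem hb).trans (le_of_eq ?_)
      rw [EuclideanSpace.dist_eq, Fin.sum_univ_two]
      simp [pt, Real.sqrt_sq (sq_nonneg δ)]
    have h5 : 0 < infDist (pt 0 (1 - δ : ℝ)) (frontier D) :=
      (isClosed_frontier.notMem_iff_infDist_pos ⟨_, hb⟩).1 fun h => by
        rw [D_open.frontier_eq] at h; exact h.2 (hD δ h2)
    have h6 := Real.log_le_log h5 h4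
    rw [Real.log_pow] at h6
    rw [Nat.cast_ofNat] at h6
    linarith

end H91.Kobay
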