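import Mathlib

set_option autoImplicit false

namespace H91.Koren
open MeasureTheory Metric Set

/-- `f` lies in the Bergman space `A^p` of the unit disc -/
def Mem (p : ℝ) (f : ℂ → ℂ) : Prop :=
  DifferentiableOn ℂ f (ball 0 1) ∧ IntegrableOn (fun z => ‖f z‖ ^ p) (ball 0 1)

/-- the (quasi-)norm of `A^p` -/
noncomputable def nrm (p : ℝ) (f : ℂ → ℂ) : ℝ :=
  (1 / Real.pi * ∫ z in ball (0 : ℂ) 1, ‖f z‖ ^ p) ^ (1 / p)

/-- the Korenblum constant -/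
noncomputable def kap (p : ℝ) : ℝ :=
  sSup {c | c ∈ Ioo (0 : ℝ) 1 ∧ ∀ f g, Mem p f → Mem p g →
    (∀ z : ℂ, c < ‖z‖ → ‖z‖ < 1 → ‖f z‖ ≤ ‖g z‖) → nrm p f ≤ nrm p g}

/-- the extremal function -/
noncomputable def F (p c : ℝ) : ℝ :=
  sSup {t | ∃ f g, Mem p f ∧ Mem p g ∧ nrm p f ≤ 1 ∧ nrm p g ≤ 1 ∧
    (∀ z : ℂ, c ≤ ‖z‖ → ‖z‖ < 1 → ‖f z‖ ≤ ‖g z‖) ∧ t = nrm p f ^ p - nrm p g ^ p}

lemma I_nn (p : ℝ) (f : ℂ → ℂ) : 0 ≤ 1 / Real.pi * ∫ z in ball (0 : ℂ) 1, ‖f z‖ ^ p :=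
  mul_nonneg (by positivity) (integral_nonneg fun z => by positivity)

lemma nrm_pow {p : ℝ} (hp : 0 < p) (f : ℂ → ℂ) :
    nrm p f ^ p = 1 / Real.pi * ∫ z in ball (0 : ℂ) 1, ‖f z‖ ^ p := by
  rw [nrm, ← Real.rpow_mul (I_nn p f), one_div_mul_cancel hp.ne', Real.rpow_one]

lemma nrm_nn (p : ℝ) (f : ℂ → ℂ) : 0 ≤ nrm p f := Real.rpow_nonneg (I_nn p f) _

lemma pw (p : ℝ) (n : ℕ) (w : ℂ) : ‖w ^ n‖ ^ p = ‖w‖ ^ (n * p) := by
  rw [norm_pow, Real.rpow_natCast_mul (norm_nonneg _)]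

lemma F_le {p : ℝ} (hp : 0 < p) {n : ℕ} (hn : 0 < n) (c : ℝ) : F (n * p) c ≤ F p c := by
  have hq : 0 < n * p := by positivity
  have e : ∀ f : ℂ → ℂ, nrm p (fun z => f z ^ n) ^ p = nrm (n * p) f ^ (n * p) := by
    intro f; rw [nrm_pow hp, nrm_pow hq]; simp only [pw]
  have m : ∀ f, Mem (n * p) f → Mem p (fun z => f z ^ n) := fun f h =>
    ⟨h.1.pow n, by simpa only [pw] using h.2⟩
  have l : ∀ f, nrm (n * p) f ≤ 1 → nrm p (fun z => f z ^ n) ≤ 1 := by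
    intro f h
    have h1 : nrm (n * p) f ^ (n * p) ≤ 1 := Real.rpow_le_one (nrm_nn _ _) h hq.le
    rw [← e] at h1
    by_contra h2
    exact absurd h1 (not_le.2 (Real.one_lt_rpow (not_le.1 h2) hp))
  refine csSup_le_csSup ⟨1, ?_⟩ ⟨0, 0, 0, ?_⟩ ?_
  · rintro _ ⟨f, g, -, -, h1, -, -, rfl⟩
    have := Real.rpow_le_one (nrm_nn p f) h1 hp.le
    have := Real.rpow_nonneg (nrm_nn p g) p
    linarith
  · have h0 : Mem (n * p) 0 := ⟨differentiableOn_const 0, by simp [Real.zero_rpow hq.ne']⟩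
    have h1 : nrm (n * p) 0 ≤ 1 := by
      simp only [nrm, Pi.zero_apply, norm_zero, Real.zero_rpow hq.ne', integral_zero, mul_zero]
      rw [Real.zero_rpow (by positivity)]; norm_num
    exact ⟨h0, h0, h1, h1, fun _ _ _ => le_rfl, by simp⟩
  · rintro _ ⟨f, g, h1, h2, h3, h4, h5, rfl⟩
    refine ⟨fun z => f z ^ n, fun z => g z ^ n, m f h1, m g h2, l f h3, l g h4, ?_, by rw [e, e]⟩
    intro z a b
    rw [norm_pow, norm_pow]
    exact pow_le_pow_left₀ (norm_nonneg _) (h5 z a b) n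

lemma kap_lt {p : ℝ} (hp : 0 < p) : kap p < 1 := by
  have hc : Continuous fun z : ℂ => ‖z‖ ^ p := continuous_norm.rpow_const fun _ => Or.inr hp.le
  have hi : IntegrableOn (fun z : ℂ => ‖z‖ ^ p) (ball 0 1) :=
    (hc.continuousOn.integrableOn_compact (isCompact_closedBall 0 1)).mono_set ball_subset_closedBall
  have hv : (volume (ball (0 : ℂ) 1)).toReal = Real.pi := by simp [Complex.volume_ball]
  have hfin : volume (ball (0 : ℂ) 1) ≠ ⊤ := measure_ball_lt_top.ne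
  have hk : ∀ a : ℝ, IntegrableOn (fun _ : ℂ => a) (ball 0 1) := fun a => integrableOn_const hfin
  have hlt : ∫ z in ball (0 : ℂ) 1, ‖z‖ ^ p < Real.pi := by
    have h1 : 0 < ∫ z in ball (0 : ℂ) 1, (1 - ‖z‖ ^ p) := by
      have hpos : ∀ z ∈ ball (0 : ℂ) 1, 0 < 1 - ‖z‖ ^ p := fun z hz =>
        sub_pos.2 (Real.rpow_lt_one (norm_nonneg _) (by simpa using hz) hp)
      refine (setIntegral_pos_iff_support_of_nonneg_ae ?_ ((hk 1).sub hi)).2 ?_
      swap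
      · refine lt_of_lt_of_le (measure_ball_pos volume (0 : ℂ) one_pos) (measure_mono ?_)
        exact fun z hz => ⟨(hpos z hz).ne', hz⟩
      · exact (ae_restrict_iff' measurableSet_ball).2 (ae_of_all _ fun z hz => (hpos z hz).le)
    rw [integral_sub (hk 1) hi] at h1
    simp only [integral_const, MeasurableSet.univ, measureReal_restrict_apply, univ_inter,
      smul_eq_mul, mul_one] at h1
    rw [Measure.real, hv] at h1; linarith
  have hz : nrm p (fun z => z) < 1 := by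
    refine Real.rpow_lt_one (I_nn p _) ?_ (by positivity)
    rw [one_div, inv_mul_lt_iff₀ Real.pi_pos]; simpa using hlt
  refine lt_of_le_of_lt (Real.sSup_le ?_ (nrm_nn p _)) hz
  rintro c ⟨⟨h0, h1⟩, h⟩
  have := h (fun _ => (c : ℂ)) (fun z => z) ⟨differentiableOn_const _, hk _⟩
    ⟨differentiableOn_id, hi⟩ (fun z a _ => by simpa [abs_of_pos h0] using a.le)
  refine le_trans (le_of_eq ?_) this
  simp only [nrm, integral_const, MeasurableSet.univ, measureReal_restrict_apply, univ_inter,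
    smul_eq_mul]
  rw [Measure.real, hv, ← mul_assoc, one_div_mul_cancel Real.pi_pos.ne', one_mul,
    ← Real.rpow_mul (norm_nonneg _), mul_one_div_cancel hp.ne', Real.rpow_one]
  simp [abs_of_pos h0]

theorem main : (∀ p : ℝ, 0 < p → ∀ n : ℕ, 0 < n → ∀ c : ℝ,
      H91.Koren.F (n * p) c ≤ H91.Koren.F p c) ∧
    ∀ p : ℝ, 0 < p → ∃ q c : ℝ, p < q ∧ max (H91.Koren.kap p) (H91.Koren.kap q) < c ∧ c < 1 ∧
      H91.Koren.F q c ≤ H91.Koren.F p c := by
  refine ⟨fun p hp n hn c => F_le hp hn c, fun p hp => ?_⟩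
  obtain ⟨c, h1, h2⟩ := exists_between (max_lt (kap_lt hp) (kap_lt (p := (2 : ℕ) * p) (by positivity)))
  exact ⟨(2 : ℕ) * p, c, by push_cast; linarith, h1, h2, F_le hp two_pos c⟩

end H91.Koren
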