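import Mathlib

set_option autoImplicit false

namespace H91.Kothe
open Filter Topology Finset
open scoped NNReal

/-- the Koethe space as a subspace of `I → ℂ` -/
def lam {I : Type} (P : ℕ → I → ℝ≥0) : Submodule ℂ (I → ℂ) where
  carrier := {x | ∀ n, Summable fun i => ‖x i‖ * P n i}
  add_mem' := fun {x y} hx hy n => .of_nonneg_of_le (fun i => by positivity)
    (fun i => by rw [← add_mul]; gcongr; exact norm_add_le _ _) ((hx n).add (hy n))
  zero_mem' := fun n => by simpa using summable_zero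
  smul_mem' := fun c x hx n => by simpa [mul_assoc] using (hx n).mul_left ‖c‖

def Lam {I : Type} (P : ℕ → I → ℝ≥0) : Type := lam P
instance {I : Type} (P : ℕ → I → ℝ≥0) : AddCommGroup (Lam P) := (lam P).addCommGroup
noncomputable instance {I : Type} (P : ℕ → I → ℝ≥0) : Module ℂ (Lam P) :=
  (lam P).module

/-- the seminorms `x ↦ ∑ |x i| p i` -/
noncomputable def sn {I : Type} (P : ℕ → I → ℝ≥0) (n : ℕ) : Seminorm ℂ (Lam P) :=
  Seminorm.of (fun x => ∑' i, ‖x.1 i‖ * P n i)
    (fun x y => by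
      rw [← (x.2 n).tsum_add (y.2 n)]
      exact ((x + y).2 n).tsum_le_tsum (fun i => by
        rw [← add_mul]; gcongr; exact norm_add_le _ _) ((x.2 n).add (y.2 n)))
    (fun c x => by
      rw [← tsum_mul_left]
      exact tsum_congr fun i => by rw [← mul_assoc, ← norm_mul]; rfl)

noncomputable instance {I : Type} (P : ℕ → I → ℝ≥0) : TopologicalSpace (Lam P) :=
  (SeminormFamily.moduleFilterBasis (sn P)).topology

/-- jointly continuous commuting left and right actions -/
def Act {A X : Type} [AddCommGroup A] [Module ℂ A] [TopologicalSpace A] [AddCommGroup X]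
    [Module ℂ X] [TopologicalSpace X] (l r : A →ₗ[ℂ] X →ₗ[ℂ] X) : Prop :=
  (Continuous fun z : A × X => l z.1 z.2) ∧ (Continuous fun z : A × X => r z.1 z.2) ∧
    ∀ a b x, l a (r b x) = r b (l a x)

/-- the module and derivation identities for a product `c = a b` -/
def Rule {A X : Type} [AddCommGroup A] [Module ℂ A] [AddCommGroup X] [Module ℂ X]
    (l r : A →ₗ[ℂ] X →ₗ[ℂ] X) (D : A →ₗ[ℂ] X) (a b c : A) : Prop :=
  (∀ x, l c x = l a (l b x)) ∧ (∀ x, r c x = r b (r a x)) ∧ D c = l a (D b) + r b (D a)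

/-- every continuous derivation into a topological bimodule is a pointwise limit of a sequence
of inner derivations -/
def AC {I : Type} (P : ℕ → I → ℝ≥0) : Prop :=
  ∀ (X : Type) [AddCommGroup X] [Module ℂ X] [TopologicalSpace X] [IsTopologicalAddGroup X]
    [ContinuousSMul ℂ X] (l r : Lam P →ₗ[ℂ] X →ₗ[ℂ] X) (D : Lam P →ₗ[ℂ] X), Act l r →
    (∀ a b c : Lam P, c.1 = a.1 * b.1 → Rule l r D a b c) → Continuous D →
    ∃ x : ℕ → X, ∀ a, Tendsto (fun n => l a (x n) - r a (x n)) atTop (𝓝 (D a))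

/-- nuclear locally convex spaces, in Pietsch's form -/
def Nuclear (E : Type) [AddCommGroup E] [Module ℂ E] [TopologicalSpace E] : Prop :=
  ∀ p : Seminorm ℂ E, Continuous p → ∃ q : Seminorm ℂ E, Continuous q ∧
    ∃ (f : ℕ → E →ₗ[ℂ] ℂ) (c : ℕ → ℝ), (∀ n, 0 ≤ c n) ∧ Summable c ∧
      (∀ n x, ‖f n x‖ ≤ c n * q x) ∧ ∀ x, p x ≤ ∑' n, ‖f n x‖

section
variable {I : Type} [DecidableEq I] (P : ℕ → I → ℝ≥0)

noncomputable def e (i : I) : Lam P := ⟨Pi.single i 1, fun n =>
  summable_of_ne_finset_zero (s := {i}) fun j hj => by simp [Pi.single_eq_of_ne (by simpa using hj)]⟩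

noncomputable def tr (J : Finset I) (a : I → ℂ) : Lam P := ∑ i ∈ J, a i • e P i

lemma tr_v (J : Finset I) (a : I → ℂ) (j : I) : (tr P J a).1 j = if j ∈ J then a j else 0 := by
  have : (tr P J a).1 = ∑ i ∈ J, a i • Pi.single i (1 : ℂ) := map_sum (lam P).subtype _ _
  simp [this, Pi.single_apply]

lemma sn_v (n : ℕ) (x : Lam P) : sn P n x = ∑' i, ‖x.1 i‖ * P n i := rfl

lemma alg {X : Type} [AddCommGroup X] [Module ℂ X] (l r : Lam P →ₗ[ℂ] X →ₗ[ℂ] X)
    (D : Lam P →ₗ[ℂ] X) (h1 : ∀ a b x, l a (r b x) = r b (l a x))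
    (h2 : ∀ a b c : Lam P, c.1 = a.1 * b.1 → (∀ x, l c x = l a (l b x)) ∧
      (∀ x, r c x = r b (r a x)) ∧ D c = l a (D b) + r b (D a)) (J : Finset I) :
    ∃ x, ∀ a, l a x - r a x = D a - D (a - tr P J a.1) + r (tr P J 1) (D (a - tr P J a.1)) +
      l (tr P J 1) (D (a - tr P J a.1)) := by
  set u := tr P J 1
  refine ⟨∑ i ∈ J, l (e P i) (D (e P i)) - (D u - l u (D u)), fun a => ?_⟩
  set b := tr P J a.1
  have m1 : ∀ i, (a.1 i • e P i).1 = a.1 * (e P i).1 := fun i => by
    ext j; change a.1 i * (Pi.single i (1 : ℂ) : I → ℂ) j = a.1 j * (Pi.single i (1 : ℂ) : I → ℂ) j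
    by_cases h : j = i <;> simp [h]
  have m2 : ∀ i, (e P i).1 = (e P i).1 * (e P i).1 := fun i => by
    ext j; change (Pi.single i (1 : ℂ) : I → ℂ) j = (Pi.single i (1 : ℂ) : I → ℂ) j * (Pi.single i (1 : ℂ) : I → ℂ) j
    by_cases h : j = i <;> simp [h]
  have m3 : b.1 = a.1 * u.1 := by ext j; simp [b, u, tr_v]
  have m4 : b.1 = b.1 * u.1 := by ext j; simp only [b, u, tr_v, Pi.mul_apply]; split_ifs <;> simp
  have m5 : u.1 = u.1 * u.1 := by ext j; simp only [u, tr_v, Pi.mul_apply]; split_ifs <;> simp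
  have e1 : ∀ i, l a (l (e P i) (D (e P i))) - r a (l (e P i) (D (e P i))) = l (e P i) (D a) := by
    intro i
    have a1 := (h2 _ _ _ (m1 i)).1 (D (e P i))
    have a2 := congrArg (l (e P i)) (h2 _ _ _ ((m1 i).trans (mul_comm _ _))).2.2
    rw [map_add, ← (h2 _ _ _ (m2 i)).1, h1] at a2
    simp only [map_smul, LinearMap.smul_apply] at a1 a2
    rw [← a1, a2]; abel
  have e2 : ∑ i ∈ J, l (e P i) (D a) = l u (D a) := by simp [u, tr]
  have e3 := (h2 _ _ _ m3).2.2
  have e4 := (h2 _ _ _ (m3.trans (mul_comm _ _))).2.2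
  have e5 := (h2 _ _ _ m4).2.2
  have e6 := (h2 _ _ _ m3).1 (D u)
  have e7 := congrArg (l u) e4
  rw [map_add, ← (h2 _ _ _ m5).1, h1] at e7
  simp only [map_sub, map_sum]
  rw [sub_sub_sub_comm, ← sum_sub_distrib, sum_congr rfl fun i _ => e1 i, e2, ← e6]
  linear_combination (norm := abel) e3 - e4 - e5 + e7

end

def T : ℕ → ℕ
  | 0 => 2
  | m + 1 => (T m ^ (4 * m + 4)) ^ 2

lemma T_ge (m : ℕ) : m + 2 ≤ T m ∧ T m ≤ T (m + 1) := by
  have k : ∀ m, 2 ≤ T m → T m + 1 ≤ T (m + 1) := fun m h => by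
    have : T m ^ 1 ≤ T m ^ (4 * m + 4) := Nat.pow_le_pow_right (by omega) (by omega)
    rw [T]; nlinarith
  induction m with
  | zero => exact ⟨le_rfl, by have := k 0 le_rfl; omega⟩
  | succ m ih =>
    have := k m (by omega)
    exact ⟨by omega, by have := k (m + 1) (by omega); omega⟩

lemma T_mono : Monotone T := monotone_nat_of_le_succ fun m => (T_ge m).2

abbrev I : Type := Σ m : ℕ, Fin (T m ^ (2 * m))
def P (n : ℕ) (i : I) : ℝ≥0 := (T i.1 : ℝ≥0) ^ n
def J (m : ℕ) : Finset I := (range (m + 1)).sigma fun _ => univ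

lemma T1 (m : ℕ) : (1 : ℝ) ≤ T m := by exact_mod_cast (by have := (T_ge m).1; omega : 1 ≤ T m)

lemma ws : WithSeminorms (sn P) := ⟨rfl⟩

lemma lim {x : ℕ → Lam P} (h : ∀ n, ∃ C : ℝ, ∀ m, n ≤ m → sn P n (x m) ≤ C / T m) :
    Tendsto x atTop (𝓝 0) := by
  refine (ws.tendsto_nhds _ _).2 fun n ε hε => ?_
  obtain ⟨C, hC⟩ := h n
  have : Tendsto (fun m => C / T m) atTop (𝓝 0) := tendsto_const_nhds.div_atTop
    (tendsto_natCast_atTop_atTop.comp (tendsto_atTop_mono (fun m => by
      have := (T_ge m).1; simp only [id]; omega) tendsto_id))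
  filter_upwards [this.eventually_lt_const hε, eventually_ge_atTop n] with m h1 h2
  simpa using (hC m h2).trans_lt h1

lemma ac : AC P := by
  intro X _ _ _ _ _ l r D ⟨hl, hr, h1⟩ h2 hD
  choose x hx using fun m => alg P l r D h1 h2 (J m)
  refine ⟨x, fun a => ?_⟩
  let S : ℕ → ℝ := fun m => (T m : ℝ) ^ (4 * m + 4)
  have S0 : ∀ m, (T m : ℝ) ≤ S m := fun m => le_self_pow₀ (T1 m) (by omega)
  have S1 : ∀ m, 0 < S m := fun m => by linarith [S0 m, T1 m]
  have t1 : Tendsto (fun m => ((S m : ℂ))⁻¹ • tr P (J m) 1) atTop (𝓝 0) := by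
    refine lim fun n => ⟨1, fun m hm => ?_⟩
    have := T1 m
    rw [map_smul_eq_mul, norm_inv, Complex.norm_real, Real.norm_of_nonneg (S1 m).le, sn_v,
      tsum_eq_sum (s := J m) fun i hi => by simp [tr_v, hi], inv_mul_le_iff₀ (S1 m)]
    refine (sum_le_card_nsmul _ _ ((T m : ℝ) ^ m) fun i hi => ?_).trans ?_
    · simp only [tr_v, hi, if_true, Pi.one_apply, norm_one, one_mul, P, NNReal.coe_pow,
        NNReal.coe_natCast]
      have : i.1 ≤ m := by simpa [J, Nat.lt_succ_iff] using hi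
      exact (pow_le_pow_left₀ (by positivity) (by exact_mod_cast T_mono this) _).trans
        (pow_le_pow_right₀ (T1 m) hm)
    · have c : (J m).card ≤ T m * T m ^ (2 * m) := by
        rw [J, card_sigma]
        refine (sum_le_card_nsmul _ _ (T m ^ (2 * m)) fun k hk => ?_).trans ?_
        · have : k ≤ m := by simpa [Nat.lt_succ_iff] using hk
          simp only [card_univ, Fintype.card_fin]
          exact (Nat.pow_le_pow_left (T_mono this) _).trans
            (Nat.pow_le_pow_right (by have := (T_ge m).1; omega) (by omega))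
        · simp only [card_range, smul_eq_mul]
          exact Nat.mul_le_mul_right _ (by have := (T_ge m).1; omega)
      rw [nsmul_eq_mul, mul_one_div, le_div_iff₀ (by linarith)]
      calc _ ≤ (T m * T m ^ (2 * m) : ℝ) * T m ^ m * T m := by gcongr; exact_mod_cast c
        _ = (T m : ℝ) ^ (3 * m + 2) := by ring
        _ ≤ _ := pow_le_pow_right₀ this (by omega)
  have t2 : ∀ c : ℕ → ℂ, (∀ m, ‖c m‖ ≤ S m) →
      Tendsto (fun m => c m • (a - tr P (J m) a.1)) atTop (𝓝 0) := by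
    intro c hc
    refine lim fun n => ⟨sn P (n + 1) a, fun m _ => ?_⟩
    rw [sn_v, sn_v, ← tsum_div_const]
    refine (Subtype.prop (c m • (a - tr P (J m) a.1) : lam P) n).tsum_le_tsum (fun i => ?_)
      ((a.2 _).div_const _)
    change ‖c m * (a.1 i - (tr P (J m) a.1).1 i)‖ * _ ≤ _
    rw [tr_v]
    split_ifs with h
    · simp only [sub_self, mul_zero, norm_zero, zero_mul]; positivity
    have h1 : m + 1 ≤ i.1 := by simpa [J] using h
    have h2 : S m ^ 2 ≤ T i.1 := by
      have := T_mono h1; rw [T] at this; simp only [S]; exact_mod_cast this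
    have h3 : ‖c m‖ * T m ≤ T i.1 := by nlinarith [hc m, S0 m, norm_nonneg (c m), T1 m]
    rw [le_div_iff₀ (by linarith [T1 m]), sub_zero, norm_mul]
    simp only [P, NNReal.coe_pow, NNReal.coe_natCast]
    rw [pow_succ]
    nlinarith [mul_le_mul_of_nonneg_left h3 (show 0 ≤ ‖a.1 i‖ * (T i.1 : ℝ) ^ n by positivity)]
  have t3 := (hD.tendsto _).comp (t2 (fun m => S m) fun m => by simp [abs_of_pos (S1 m)])
  have t4 := (hD.tendsto _).comp (t2 (fun m => 1) fun m => by simpa using (T1 m).trans (S0 m))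
  have t5 := (hl.tendsto _).comp (t1.prodMk_nhds t3)
  have t6 := (hr.tendsto _).comp (t1.prodMk_nhds t3)
  have := ((tendsto_const_nhds (x := D a)).sub t4).add t6 |>.add t5
  simp only [map_zero, sub_zero, add_zero] at this
  refine this.congr fun m => ?_
  have : (S m : ℂ) ≠ 0 := by exact_mod_cast (S1 m).ne'
  rw [hx]
  simp only [Function.comp, map_smul, LinearMap.smul_apply, one_smul, smul_smul,
    mul_inv_cancel₀ this]

lemma nn : ¬ Nuclear (Lam P) := by
  intro h
  obtain ⟨q, hq, f, c, c0, c1, c2, c3⟩ := h _ (ws.continuous_seminorm 0)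
  obtain ⟨s, C, -, hC⟩ := Seminorm.bound_of_continuous ws q hq
  let d : ℕ → ℝ := fun n => c n + (1 / 2) ^ n
  have d0 : ∀ n, 0 < d n := fun n => by have := c0 n; positivity
  have d1 : Summable d := c1.add summable_geometric_two
  have d2 : ∀ n x, ‖f n x‖ ^ 2 / d n ≤ d n * q x ^ 2 := fun n x => by
    rw [div_le_iff₀ (d0 n), show d n * q x ^ 2 * d n = (d n * q x) ^ 2 by ring]
    refine pow_le_pow_left₀ (norm_nonneg _) ((c2 n x).trans ?_) 2
    exact mul_le_mul_of_nonneg_right (le_add_of_nonneg_right (by positivity)) (apply_nonneg _ _)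
  have d3 : ∀ x, Summable fun n => ‖f n x‖ ^ 2 / d n := fun x =>
    .of_nonneg_of_le (fun n => by have := d0 n; positivity) (d2 · x) (d1.mul_right _)
  let Q : Lam P → ℝ := fun x => ∑' n, ‖f n x‖ ^ 2 / d n
  have Q1 : ∀ x y, Q (x + y) + Q (x - y) = 2 * (Q x + Q y) := fun x y => by
    simp only [Q]
    rw [← (d3 _).tsum_add (d3 _), ← (d3 _).tsum_add (d3 _), ← tsum_mul_left]
    refine tsum_congr fun n => ?_
    rw [map_add, map_sub, ← add_div, ← add_div, parallelogram_law_with_norm ℂ, mul_div_assoc]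
  set σ := ∑' n, d n
  have σ0 : 0 ≤ σ := tsum_nonneg fun n => (d0 n).le
  obtain ⟨k, hk⟩ := pow_unbounded_of_one_lt (σ * (C + 1)) one_lt_two
  let n := s.sup id
  let m := n + k
  let t : ℝ := (T m : ℕ)
  have t1 : 1 ≤ t := T1 m
  set B : ℝ := (C + 1) * t ^ n
  have B0 : 0 < B := by positivity
  have Q2 : ∀ j, Q (e P ⟨m, j⟩) ≤ σ * B ^ 2 := fun j => by
    refine ((d3 _).tsum_le_tsum (d2 · _) (d1.mul_right _)).trans ?_
    rw [tsum_mul_right]
    refine mul_le_mul_of_nonneg_left (pow_le_pow_left₀ (apply_nonneg _ _) ((hC _).trans ?_) 2) σ0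
    refine mul_le_mul (by simp) (Seminorm.finset_sup_apply_le (by positivity) fun i hi => ?_)
      (apply_nonneg _ _) (by positivity)
    rw [sn_v, tsum_eq_single ⟨m, j⟩ fun i hi => by simp [e, Pi.single_eq_of_ne hi]]
    simpa [e, P] using pow_le_pow_right₀ t1 (le_sup (f := id) hi)
  have Q3 : ∀ u : Finset (Fin (T m ^ (2 * m))), ∃ a : I → ℂ, (∀ i, ‖a i‖ = 1) ∧
      Q (tr P (u.map (Function.Embedding.sigmaMk m)) a) ≤ u.card * (σ * B ^ 2) := by
    intro u
    induction u using Finset.induction_on with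
    | empty => exact ⟨1, by simp, by simp [tr, Q]⟩
    | insert j u hj ih =>
      obtain ⟨a, a1, a2⟩ := ih
      have key : ∀ z : ℂ, tr P ((insert j u).map (Function.Embedding.sigmaMk m))
          (Function.update a ⟨m, j⟩ z) = tr P (u.map (Function.Embedding.sigmaMk m)) a + z • e P ⟨m, j⟩ := by
        intro z
        rw [tr, tr, sum_map, sum_map, sum_insert hj, add_comm]
        congr 1
        · refine sum_congr rfl fun i hi => ?_
          rw [Function.update_of_ne]
          intro h; exact hj (by rwa [← (Function.Embedding.sigmaMk m).injective h])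
        · simp
      have n1 : ∀ z : ℂ, ‖z‖ = 1 → ∀ i, ‖Function.update a ⟨m, j⟩ z i‖ = 1 := fun z hz i => by
        rw [Function.update_apply]; split_ifs <;> simp [hz, a1]
      have := Q1 (tr P (u.map (Function.Embedding.sigmaMk m)) a) (e P ⟨m, j⟩)
      have := Q2 j
      rw [card_insert_of_notMem hj]; push_cast
      rcases le_total (Q (tr P (u.map (Function.Embedding.sigmaMk m)) a + e P ⟨m, j⟩))
        (Q (tr P (u.map (Function.Embedding.sigmaMk m)) a - e P ⟨m, j⟩)) with h | h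
      · exact ⟨_, n1 1 (by simp), by rw [key, one_smul]; linarith⟩
      · exact ⟨_, n1 (-1) (by simp), by rw [key, neg_one_smul, ← sub_eq_add_neg]; linarith⟩
  obtain ⟨a, a1, a2⟩ := Q3 univ
  set x := tr P (univ.map (Function.Embedding.sigmaMk m)) a
  have x1 : sn P 0 x = (t ^ m) ^ 2 := by
    rw [sn_v, tsum_eq_sum (s := univ.map (Function.Embedding.sigmaMk m)) fun i hi => by
      simp only [x, tr_v, hi]; simp, sum_congr rfl (g := fun _ => (1 : ℝ)) fun i hi => by
      simp only [x, tr_v, hi]; simp [a1, P]]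
    simp [t, ← pow_mul, mul_comm]
  have L0 : 0 < B * t ^ m := by positivity
  have x2 : ∑' n, ‖f n x‖ ≤ (B * t ^ m * σ + Q x / (B * t ^ m)) / 2 := by
    have s2 := ((d1.mul_left (B * t ^ m)).add ((d3 x).div_const (B * t ^ m))).div_const 2
    have le : ∀ n, ‖f n x‖ ≤ (B * t ^ m * d n + ‖f n x‖ ^ 2 / d n / (B * t ^ m)) / 2 := fun n => by
      have := d0 n
      rw [div_div, le_div_iff₀ two_pos, ← sub_le_iff_le_add', le_div_iff₀ (by positivity)]
      nlinarith [sq_nonneg (‖f n x‖ - B * t ^ m * d n)]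
    refine ((Summable.of_nonneg_of_le (fun _ => norm_nonneg _) le s2).tsum_le_tsum le s2).trans_eq ?_
    rw [tsum_div_const, (d1.mul_left _).tsum_add ((d3 x).div_const _), tsum_mul_left, tsum_div_const]
  have x3 : Q x / (B * t ^ m) ≤ B * t ^ m * σ := by
    rw [div_le_iff₀ L0]
    refine a2.trans_eq ?_
    simp only [card_univ, Fintype.card_fin, Nat.cast_pow]
    ring
  have x4 : t ^ m * t ^ m ≤ B * σ * t ^ m := by linarith [c3 x]
  have x5 := le_of_mul_le_mul_right x4 (by positivity)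
  have x6 : (2 : ℝ) ^ k ≤ t ^ k := pow_le_pow_left₀ two_pos.le
    (by simp only [t]; exact_mod_cast (by have := (T_ge m).1; omega : 2 ≤ T m)) k
  rw [show t ^ m = t ^ k * t ^ n by rw [← pow_add, add_comm],
    show B * σ = σ * (C + 1) * t ^ n by ring] at x5
  linarith [le_of_mul_le_mul_right x5 (by positivity)]

theorem main : ∃ (I : Type) (P : ℕ → I → NNReal), (∀ i, ∃ n, 0 < P n i) ∧
    (∀ m n, ∃ k, P m ≤ P k ∧ P n ≤ P k) ∧
    (∀ a ∈ H91.Kothe.lam P, ∀ b ∈ H91.Kothe.lam P, a * b ∈ H91.Kothe.lam P) ∧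
    H91.Kothe.AC P ∧ ¬ H91.Kothe.Nuclear (H91.Kothe.Lam P) := by
  have h : ∀ m n, m ≤ n → P m ≤ P n := fun m n h i =>
    pow_le_pow_right₀ (by exact_mod_cast T1 i.1) h
  refine ⟨I, P, fun i => ⟨0, by simp [P]⟩, fun m n => ⟨max m n, h _ _ (le_max_left _ _),
    h _ _ (le_max_right _ _)⟩, fun a ha b hb n => ?_, ac, nn⟩
  refine .of_nonneg_of_le (fun i => by positivity) (fun i => ?_)
    ((hb n).mul_left (∑' i, ‖a i‖ * P 0 i))
  rw [Pi.mul_apply, norm_mul, mul_assoc]
  refine mul_le_mul_of_nonneg_right ?_ (by positivity)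
  simpa [P] using (ha 0).le_tsum i fun j _ => by positivity

end H91.Kothe
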