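import Mathlib

set_option autoImplicit false

open Metric Matrix
open scoped ComplexOrder

namespace H91.LQR

lemma gap {n : ℕ} (y : Fin n → ℝ) {δ : ℝ} (hδ : 0 < δ) :
    ∃ r, δ ≤ r ∧ r ≤ (2 * n + 1) * δ ∧ ∀ i, δ ≤ |r - y i| := by
  obtain ⟨k, hk, hk'⟩ := Finset.exists_mem_notMem_of_card_lt_card
    (s := Finset.univ.image fun i => ⌊y i / (2 * δ)⌋₊) (t := Finset.range (n + 1))
    (Finset.card_image_le.trans_lt (by simp))
  have hk1 : (k : ℝ) ≤ n := by exact_mod_cast Nat.lt_succ_iff.mp (Finset.mem_range.mp hk)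
  have hk0 : (0 : ℝ) ≤ k := k.cast_nonneg
  refine ⟨(2 * k + 1) * δ, by nlinarith, by nlinarith, fun i => ?_⟩
  by_contra h
  obtain ⟨h1, h2⟩ := abs_lt.mp (not_le.mp h)
  refine hk' (Finset.mem_image.mpr ⟨i, Finset.mem_univ _, (Nat.floor_eq_iff ?_).mpr ⟨?_, ?_⟩⟩)
  · exact div_nonneg (by nlinarith) (by positivity)
  · rw [le_div_iff₀ (by positivity)]; linarith
  · rw [div_lt_iff₀ (by positivity)]; linarith

lemma eig {E : Type} [NormedAddCommGroup E] [InnerProductSpace ℂ E] [FiniteDimensional ℂ E]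
    {n : ℕ} (hn : Module.finrank ℂ E = n) (A Y : E →L[ℂ] E) (hY : (Y : E →ₗ[ℂ] E).IsSymmetric)
    {a : ℝ} (ha : 0 < a) (hA : ‖A‖ ≤ a) {v : E} (hv : v ≠ 0) (hYv : ‖Y v‖ ≤ 2 * a * ‖v‖) :
    ∃ l ∈ spectrum ℂ (A - Y), ‖l‖ ≤ (2 * n + 1) * (5 * a) := by
  haveI := FiniteDimensional.complete ℂ E
  by_contra h
  push Not at h
  obtain ⟨r, h1, h2, h3⟩ := gap (fun i => |hY.eigenvalues hn i|) (δ := 5 * a) (by positivity)
  have hr : 0 < r := lt_of_lt_of_le (by positivity) h1
  have res : ∀ l : ℂ, ‖l‖ ≤ r → l ∈ resolventSet ℂ (A - Y) := fun l hl => by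
    by_contra h'
    exact absurd (h l h') (not_lt.mpr (hl.trans h2))
  have inv : ∀ l : ℂ, ‖l‖ ≤ r → ∀ w, l • resolvent (A - Y) l w - (A - Y) (resolvent (A - Y) l w) = w :=
    fun l hl w => by
      have := congrArg (fun T : E →L[ℂ] E => T w) (Ring.mul_inverse_cancel _ (res l hl))
      simpa [resolvent, Algebra.algebraMap_eq_smul_one] using this
  have low : ∀ l : ℂ, ‖l‖ = r → ∀ x, 5 * a * ‖x‖ ≤ ‖l • x + Y x‖ := fun l hl x => by
    set b := hY.eigenvectorBasis hn
    rw [← b.repr.norm_map x, ← b.repr.norm_map (l • x + Y x), ← abs_of_pos (by positivity : 0 < 5 * a),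
      ← Real.norm_eq_abs, ← norm_smul]
    rw [EuclideanSpace.norm_eq, EuclideanSpace.norm_eq]
    refine Real.sqrt_le_sqrt (Finset.sum_le_sum fun i _ => pow_le_pow_left₀ (norm_nonneg _) ?_ 2)
    have e := hY.eigenvectorBasis_apply_self_apply hn x i
    simp only [ContinuousLinearMap.coe_coe] at e
    rw [map_add, map_smul, PiLp.add_apply, PiLp.smul_apply, PiLp.smul_apply, e, smul_eq_mul,
      ← add_mul, norm_smul, Real.norm_eq_abs, abs_of_pos (by positivity : 0 < 5 * a), norm_mul]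
    refine mul_le_mul_of_nonneg_right ((h3 i).trans ?_) (norm_nonneg _)
    have := abs_norm_sub_norm_le l (-(hY.eigenvalues hn i : ℂ))
    simpa [hl] using this
  have hv0 := norm_pos_iff.mpr hv
  have hAx : ∀ x, ‖A x‖ ≤ a * ‖x‖ := fun x => A.le_of_opNorm_le hA x
  have := Complex.norm_le_of_forall_mem_frontier_norm_le (U := ball (0 : ℂ) r)
    (f := fun l => resolvent (A - Y) l (-(A - Y) v)) isBounded_ball (C := 3 / 4 * ‖v‖)
    (DifferentiableOn.diffContOnCl fun l hl => by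
      rw [closure_ball _ hr.ne', mem_closedBall_zero_iff] at hl
      exact ((spectrum.hasDerivAt_resolvent_const_left (res l hl)).differentiableAt.clm_apply
        (differentiableAt_const _)).differentiableWithinAt)
    (fun l hl => by
      rw [frontier_ball _ hr.ne', mem_sphere_zero_iff_norm] at hl
      have e := inv l hl.le (-(A - Y) v)
      set x := resolvent (A - Y) l (-(A - Y) v)
      have e2 : l • x + Y x = A x + (Y v - A v) := by
        simp only [ContinuousLinearMap.sub_apply, neg_sub] at e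
        rw [← e]; abel
      have b1 := low l hl x
      rw [e2] at b1
      have b2 := norm_add_le (A x) (Y v - A v)
      have b3 := norm_sub_le (Y v) (A v)
      have b4 : a * (4 * ‖x‖) ≤ a * (3 * ‖v‖) := by linarith [hAx x, hAx v]
      have := le_of_mul_le_mul_left b4 ha
      linarith) (z := 0) (subset_closure (mem_ball_self hr))
  have e0 : resolvent (A - Y) (0 : ℂ) (-(A - Y) v) = v := by
    have := congrArg (fun T : E →L[ℂ] E => T v) (Ring.inverse_mul_cancel _ (res 0 (by simp [hr.le])))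
    simpa [resolvent] using this
  rw [e0] at this
  linarith

theorem main : ∀ (n : ℕ) (A : Matrix (Fin n) (Fin n) ℂ), Aᴴ = -A → ∃ C : ℝ,
    ∀ (m : ℕ), m < n → ∀ (B : Matrix (Fin n) (Fin m) ℂ) (X : Matrix (Fin n) (Fin n) ℂ),
      X.PosDef → Aᴴ * X + X * A - X * B * Bᴴ * X + 1 = 0 →
      ∃ l ∈ spectrum ℂ (A - B * Bᴴ * X), -l.re ≤ C := by
  intro n A hA
  let φ := toEuclideanCLM (n := Fin n) (𝕜 := ℂ)
  refine ⟨(2 * n + 1) * (5 * (‖φ A‖ + 1)), fun m hm B X hX hR => ?_⟩
  obtain ⟨u, hu⟩ := hX.isUnit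
  set Y : Matrix (Fin n) (Fin n) ℂ := ↑u⁻¹ with hY
  have h1 : Y * X = 1 := hu ▸ u.inv_mul
  have h2 : X * Y = 1 := hu ▸ u.mul_inv
  have hYh : Yᴴ = Y := by
    have := congrArg conjTranspose h1
    rw [conjTranspose_mul, hX.isHermitian.eq, conjTranspose_one] at this
    rw [← one_mul Yᴴ, ← h1, mul_assoc, this, mul_one]
  have hB : B * Bᴴ = Y * Y + A * Y - Y * A := by
    have e : X * (B * Bᴴ) * X = -A * X + X * A + 1 := by
      rw [hA] at hR
      rw [← Matrix.mul_assoc, ← sub_eq_zero, ← neg_eq_zero, ← hR]; abel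
    have : Y * (X * (B * Bᴴ) * X) * Y = B * Bᴴ := by
      rw [← mul_assoc, ← mul_assoc, h1, one_mul, mul_assoc, h2, mul_one]
    rw [← this, e]
    calc Y * (-A * X + X * A + 1) * Y = Y * Y + (Y * X) * A * Y - Y * A * (X * Y) := by noncomm_ring
      _ = _ := by rw [h1, h2, one_mul, mul_one]
  have hc : A - B * Bᴴ * X = (↑u⁻¹ : Matrix (Fin n) (Fin n) ℂ) * (A - Y) * u.val := by
    rw [hB, ← hY, hu]
    calc A - (Y * Y + A * Y - Y * A) * X = A - A * (Y * X) + Y * (A - Y) * X := by noncomm_ring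
      _ = _ := by rw [h1, mul_one, sub_self, zero_add]
  rw [hc, spectrum.units_conjugate', ← AlgEquiv.spectrum_eq φ.toAlgEquiv]
  obtain ⟨w, hw, hw0⟩ := (Submodule.ne_bot_iff _).mp
    ((Matrix.mulVecLin Bᴴ).ker_ne_bot_of_finrank_lt (by simpa using hm))
  have sY : IsSelfAdjoint (φ Y) := (show IsSelfAdjoint Y from hYh).map φ
  have sA : ContinuousLinearMap.adjoint (φ A) = -φ A := by
    rw [← ContinuousLinearMap.star_eq_adjoint, ← map_star, star_eq_conjTranspose, hA, map_neg]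
  set v : EuclideanSpace ℂ (Fin n) := WithLp.toLp 2 w
  have hv : v ≠ 0 := fun h => hw0 (congrArg WithLp.ofLp h)
  have k1 : φ Y (φ Y v) + φ A (φ Y v) - φ Y (φ A v) = 0 := by
    have : φ (B * Bᴴ) v = 0 := by
      rw [toEuclideanCLM_toLp, ← mulVec_mulVec, show Bᴴ *ᵥ w = 0 from hw, mulVec_zero]; rfl
    simpa [hB] using this
  have k2 : ‖φ Y v‖ ^ 2 ≤ 2 * (‖φ Y v‖ * ‖φ A v‖) := by
    have e := congrArg (fun x => (inner ℂ v x).re) k1
    have s := sY.isSymmetric
    simp only [inner_sub_right, inner_add_right, inner_zero_right, Complex.sub_re, Complex.add_re,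
      Complex.zero_re] at e
    have a1 := s v (φ Y v)
    have a2 := s v (φ A v)
    simp only [ContinuousLinearMap.coe_coe] at a1 a2
    rw [← a1, ← a2, ← ContinuousLinearMap.adjoint_inner_left (φ A), sA, ContinuousLinearMap.neg_apply,
      inner_neg_left, Complex.neg_re] at e
    have b1 := inner_self_eq_norm_sq (𝕜 := ℂ) (φ Y v)
    have b2 := re_inner_le_norm (𝕜 := ℂ) (φ Y v) (φ A v)
    have b3 := re_inner_le_norm (𝕜 := ℂ) (φ A v) (φ Y v)
    simp only [RCLike.re_to_complex] at b1 b2 b3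
    linarith
  have k3 : ‖φ Y v‖ ≤ 2 * (‖φ A‖ + 1) * ‖v‖ := by
    have := (φ A).le_opNorm v
    have p := norm_nonneg v
    rcases (norm_nonneg (φ Y v)).eq_or_lt with h | h
    · rw [← h]; positivity
    · nlinarith
  obtain ⟨l, hl, hl'⟩ := eig (n := n) (by simp) (φ A) (φ Y) sY.isSymmetric (by positivity)
    (le_add_of_nonneg_right zero_le_one) hv k3
  refine ⟨l, by simpa using hl, (neg_le_abs _).trans ((Complex.abs_re_le_norm l).trans hl')⟩

end H91.LQR
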