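import Mathlib

set_option autoImplicit false

namespace H91.LamBV
open Set Filter Topology
open scoped ENNReal

/-- `|f(I)|` for `I = [s, t]` -/
def inc (f : ℝ → ℝ) (I : ℝ × ℝ) : ℝ := |f I.2 - f I.1|
/-- a finite family of non-overlapping subintervals of `[a, b]` with `|f(I_i)|` non-increasing -/
def Fam (a b : ℝ) (f : ℝ → ℝ) (L : List (ℝ × ℝ)) : Prop :=
  (∀ I ∈ L, a ≤ I.1 ∧ I.1 < I.2 ∧ I.2 ≤ b) ∧
    L.Pairwise fun I J => Disjoint (Ioo I.1 I.2) (Ioo J.1 J.2) ∧ inc f J ≤ inc f I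
/-- `sum_i |f(I_i)| / lam (n + i)` -/
noncomputable def sig (lam : ℕ → ℝ) (f : ℝ → ℝ) : ℕ → List (ℝ × ℝ) → ℝ
  | _, [] => 0
  | n, I :: L => inc f I / lam n + sig lam f (n + 1) L
noncomputable def V (lam : ℕ → ℝ) (a b : ℝ) (f : ℝ → ℝ) : ℝ≥0∞ :=
  ⨆ (L : List (ℝ × ℝ)) (_ : Fam a b f L), ENNReal.ofReal (sig lam f 0 L)
noncomputable def W (lam : ℕ → ℝ) (a b : ℝ) (f : ℝ → ℝ) : ℝ≥0∞ :=
  ⨅ (δ : ℝ) (_ : 0 < δ), ⨆ (L : List (ℝ × ℝ)) (_ : Fam a b f L ∧ ∀ I ∈ L, I.2 - I.1 ≤ δ),
    ENNReal.ofReal (sig lam f 0 L)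
/-- `f` is `Λ`-singular -/
def Sing (lam : ℕ → ℝ) (a b : ℝ) (f : ℝ → ℝ) : Prop :=
  ContinuousOn f (Icc a b) ∧ V lam a b f < ⊤ ∧
    ¬ Tendsto (fun m => V (fun i => lam (i + m)) a b f) atTop (𝓝 0) ∧ W lam a b f = V lam a b f

variable {lam : ℕ → ℝ} {f : ℝ → ℝ}

lemma inc_nn (I : ℝ × ℝ) : 0 ≤ inc f I := abs_nonneg _

open Classical in
noncomputable def tau (lam : ℕ → ℝ) (f : ℝ → ℝ) (p : ℝ × ℝ → Prop) : ℕ → List (ℝ × ℝ) → ℝ
  | _, [] => 0
  | n, I :: L => (if p I then inc f I / lam n else 0) + tau lam f p (n + 1) L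

lemma tau_nn (h0 : ∀ n, 0 < lam n) (p : ℝ × ℝ → Prop) (L : List (ℝ × ℝ)) :
    ∀ n, 0 ≤ tau lam f p n L := by
  induction L with
  | nil => simp [tau]
  | cons I L ih =>
    intro n; have := ih (n + 1); have := div_nonneg (inc_nn (f := f) I) (h0 n).le
    rw [tau]; split_ifs <;> linarith

lemma shift (h0 : ∀ n, 0 < lam n) (hm : Monotone lam) {w : ℝ} (hw : 0 ≤ w) (L : List (ℝ × ℝ))
    (h : ∀ I ∈ L, inc f I ≤ w) : ∀ n, sig lam f n L - w / lam n ≤ sig lam f (n + 1) L := by
  induction L with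
  | nil => intro n; simpa [sig] using div_nonneg hw (h0 n).le
  | cons I L ih =>
    intro n
    have a := ih (fun J hJ => h J (by simp [hJ])) (n + 1)
    have b := mul_le_mul_of_nonneg_right (h I (by simp))
      (sub_nonneg.2 (inv_anti₀ (h0 n) (hm n.le_succ)))
    simp only [sig, div_eq_mul_inv] at a ⊢
    linarith

lemma filt (h0 : ∀ n, 0 < lam n) (hm : Monotone lam) (p : ℝ × ℝ → Prop) (q : ℝ × ℝ → Bool)
    (hq : ∀ I, q I = true ↔ ¬ p I) (L : List (ℝ × ℝ)) :
    ∀ m n, m ≤ n → sig lam f n L - tau lam f p n L ≤ sig lam f m (L.filter q) := by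
  induction L with
  | nil => simp [sig, tau]
  | cons I L ih =>
    intro m n h
    by_cases hp : p I
    · simpa [sig, tau, hp, hq] using ih m (n + 1) (by omega)
    · have a := ih (m + 1) (n + 1) (by omega)
      have b := div_le_div_of_nonneg_left (inc_nn (f := f) I) (h0 m) (hm h)
      simp only [sig, tau, hp, List.filter_cons, (hq I).2 hp, if_true, if_false]
      linarith

lemma excl (h0 : ∀ n, 0 < lam n) (p : ℝ × ℝ → ℝ × ℝ → Prop) (K L : List (ℝ × ℝ))
    (h : ∀ I ∈ L, K.Pairwise fun J J' => ¬ (p J I ∧ p J' I)) :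
    ∀ n, (K.map fun J => tau lam f (p J) n L).sum ≤ sig lam f n L := by
  classical
  induction L with
  | nil => simp [sig, tau]
  | cons I L ih =>
    intro n
    simp only [tau, sig, List.sum_map_add]
    refine add_le_add ?_ (ih (fun J hJ => h J (by simp [hJ])) _)
    have hI := h I (by simp)
    have c := div_nonneg (inc_nn (f := f) I) (h0 n).le
    clear h ih
    induction K with
    | nil => simpa using c
    | cons J K ih =>
      rw [List.pairwise_cons] at hI
      by_cases hp : p J I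
      · rw [List.map_cons, List.sum_cons, List.sum_eq_zero, add_zero]
        · simp [hp]
        · simp only [List.mem_map]
          rintro _ ⟨J', hJ', rfl⟩
          exact if_neg fun h => hI.1 J' hJ' ⟨hp, h⟩
      · simpa [hp] using ih hI.2

lemma tail (h0 : ∀ n, 0 < lam n) (hm : Monotone lam) {w : ℝ} (hw : 0 ≤ w) (m : ℕ)
    (L : List (ℝ × ℝ)) (h : ∀ I ∈ L, inc f I ≤ w) :
    ∀ n, sig lam f n L ≤ (m - n : ℕ) * (w / lam 0) + (L.map (inc f)).sum / lam m := by
  have c := div_nonneg hw (h0 0).le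
  induction L with
  | nil => intro n; simp only [sig, List.map_nil, List.sum_nil, zero_div, add_zero]; positivity
  | cons I L ih =>
    intro n
    have a := ih (fun J hJ => h J (by simp [hJ])) (n + 1)
    simp only [sig, List.map_cons, List.sum_cons, add_div]
    rcases lt_or_ge n m with h1 | h1
    · have : inc f I / lam n ≤ w / lam 0 := div_le_div₀ hw (h I (by simp)) (h0 0) (hm n.zero_le)
      rw [show m - n = m - (n + 1) + 1 by omega]
      have := div_nonneg (inc_nn (f := f) I) (h0 m).le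
      push_cast; linarith
    · have := div_le_div_of_nonneg_left (inc_nn (f := f) I) (h0 m) (hm h1)
      rw [show m - n = m - (n + 1) by omega]
      linarith

lemma sig_zero (L : List (ℝ × ℝ)) (h : ∀ I ∈ L, inc f I = 0) : ∀ n, sig lam f n L = 0 := by
  induction L with
  | nil => simp [sig]
  | cons I L ih => intro n; simp [sig, h I, ih fun J hJ => h J (by simp [hJ])]

theorem main : ∀ (a b : ℝ) (lam : ℕ → ℝ), (∀ n, 0 < lam n) → Monotone lam →
    Filter.Tendsto lam Filter.atTop Filter.atTop → ∀ f : ℝ → ℝ, ¬ H91.LamBV.Sing lam a b f := by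
  classical
  intro a b lam h0 hm ht f ⟨hc, hV, hn, hW⟩
  set v := (V lam a b f).toReal
  have v0 : 0 ≤ v := ENNReal.toReal_nonneg
  have up : ∀ L, Fam a b f L → sig lam f 0 L ≤ v := fun L hL =>
    (ENNReal.ofReal_le_iff_le_toReal hV.ne).1 (le_iSup₂ (f := fun L (_ : Fam a b f L) =>
      ENNReal.ofReal (sig lam f 0 L)) L hL)
  have lo : ∀ w > 0, ∃ δ > 0, (∀ s ∈ Icc a b, ∀ t ∈ Icc a b, |t - s| ≤ δ → |f t - f s| ≤ w) ∧
      ∃ L, Fam a b f L ∧ (∀ I ∈ L, I.2 - I.1 ≤ δ) ∧ (∀ I ∈ L, inc f I ≤ w) ∧ v - w ≤ sig lam f 0 L := by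
    intro w hw
    obtain ⟨δ, hδ, h⟩ := Metric.uniformContinuousOn_iff_le.1
      (isCompact_Icc.uniformContinuousOn_of_continuous hc) w hw
    have h' : ∀ s ∈ Icc a b, ∀ t ∈ Icc a b, |t - s| ≤ δ → |f t - f s| ≤ w :=
      fun s hs t ht => h t ht s hs
    refine ⟨δ, hδ, h', ?_⟩
    rcases le_or_gt (v - w) 0 with e | e
    · exact ⟨[], ⟨by simp, by simp⟩, by simp, by simp, e⟩
    have : ENNReal.ofReal (v - w) < V lam a b f := by
      rw [← ENNReal.ofReal_toReal hV.ne]
      exact (ENNReal.ofReal_lt_ofReal_iff (by linarith)).2 (by linarith)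
    obtain ⟨L, hL⟩ := lt_iSup_iff.1 (this.trans_le (hW.symm.le.trans (iInf₂_le δ hδ)))
    obtain ⟨⟨h1, h2⟩, h3⟩ := lt_iSup_iff.1 hL
    refine ⟨L, h1, h2, fun I hI => ?_, ((ENNReal.ofReal_lt_ofReal_iff_of_nonneg e.le).1 h3).le⟩
    obtain ⟨x, y, z⟩ := h1.1 I hI
    exact h' _ ⟨x, by linarith⟩ _ ⟨by linarith, z⟩ (by rw [abs_of_pos (by linarith)]; exact h2 I hI)
  have bv : ∀ K, Fam a b f K → (K.map (inc f)).sum ≤ lam 0 * v := by
    intro K hK
    refine le_of_forall_pos_le_add fun ε hε => ?_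
    have l0 := h0 0
    obtain ⟨δ, hδ, u, L, h1, h2, h3, h4⟩ := lo (ε / (K.length + 1) / (lam 0 + 3)) (by positivity)
    set w := ε / (K.length + 1) / (lam 0 + 3) with hw
    have w0 : 0 < w := by positivity
    let p : ℝ × ℝ → ℝ × ℝ → Prop := fun J I => J.1 ≤ I.1 ∧ I.2 ≤ J.2
    have e1 := excl (f := f) h0 p K L (fun I hI => hK.2.imp fun {J J'} h ⟨x, y⟩ => by
      have := (h1.1 I hI).2.1
      exact disjoint_left.1 h.1 (show (I.1 + I.2) / 2 ∈ _ from ⟨by linarith [x.1], by linarith [x.2]⟩)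
        ⟨by linarith [y.1], by linarith [y.2]⟩) 0
    have e2 : ∀ J ∈ K, inc f J ≤ lam 0 * tau lam f (p J) 0 L + ε / (K.length + 1) := by
      intro J hJ
      obtain ⟨x, y, z⟩ := hK.1 J hJ
      have t0 := mul_nonneg l0.le (tau_nn (f := f) h0 (p J) L 0)
      rw [show ε / (K.length + 1) = lam 0 * w + 3 * w by rw [hw]; field_simp]
      have lw := mul_pos l0 w0
      rcases le_or_gt (J.2 - J.1) (2 * δ) with c | c
      · have a1 := u J.1 ⟨x, by linarith⟩ ((J.1 + J.2) / 2) ⟨by linarith, by linarith⟩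
          (by rw [abs_le]; constructor <;> linarith)
        have a2 := u ((J.1 + J.2) / 2) ⟨by linarith, by linarith⟩ J.2 ⟨by linarith, z⟩
          (by rw [abs_le]; constructor <;> linarith)
        have := abs_sub_le (f J.2) (f ((J.1 + J.2) / 2)) (f J.1)
        rw [inc]; linarith
      have a1 := u J.1 ⟨x, by linarith⟩ (J.1 + δ) ⟨by linarith, by linarith⟩
          (by rw [abs_le]; constructor <;> linarith)
      have a2 := u (J.2 - δ) ⟨by linarith, by linarith⟩ J.2 ⟨by linarith, z⟩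
          (by rw [abs_le]; constructor <;> linarith)
      have a3 : inc f J ≤ inc f (J.1 + δ, J.2 - δ) + 2 * w := by
        have := abs_sub_le (f J.2) (f (J.2 - δ)) (f J.1)
        have := abs_sub_le (f (J.2 - δ)) (f (J.1 + δ)) (f J.1)
        simp only [inc]; linarith
      rcases le_total (inc f (J.1 + δ, J.2 - δ)) w with d | d
      · linarith
      have a4 := up ((J.1 + δ, J.2 - δ) :: L.filter fun I => ¬ p J I) ⟨by
        simp only [List.mem_cons, List.mem_filter]
        rintro I (rfl | h)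
        · exact ⟨by simp only; linarith, by simp only; linarith, by simp only; linarith⟩
        · exact h1.1 I h.1, List.pairwise_cons.2 ⟨fun I hI => by
          rw [List.mem_filter, decide_eq_true_eq] at hI
          refine ⟨disjoint_left.2 fun t h h' => hI.2 ?_, (h3 I hI.1).trans d⟩
          have := h2 I hI.1
          exact ⟨by linarith [h.1, h'.2], by linarith [h.2, h'.1]⟩, h1.2.filter _⟩⟩
      have a5 := shift h0 hm w0.le (L.filter fun I => ¬ p J I)
        (fun I hI => h3 I (List.mem_of_mem_filter hI)) 0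
      have a6 := filt (f := f) h0 hm (p J) (fun I => ¬ p J I) (fun I => decide_eq_true_iff) L 0 0 le_rfl
      rw [sig] at a4
      have : inc f (J.1 + δ, J.2 - δ) / lam 0 ≤ w + tau lam f (p J) 0 L + w / lam 0 := by linarith
      rw [div_le_iff₀ l0, add_mul, div_mul_cancel₀ _ l0.ne'] at this
      nlinarith
    refine (List.sum_le_sum e2).trans ?_
    rw [List.sum_map_add, List.sum_map_mul_left, List.map_const', List.sum_replicate, nsmul_eq_mul]
    refine add_le_add (mul_le_mul_of_nonneg_left (e1.trans (up L h1)) l0.le) ?_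
    rw [mul_div_assoc', div_le_iff₀ (by positivity)]; nlinarith
  have z : v ≤ 0 := by
    refine le_of_forall_pos_le_add fun ε hε => ?_
    have l0 := h0 0
    obtain ⟨m, hm'⟩ := (ht.eventually_ge_atTop (lam 0 * v / (ε / 2))).exists
    obtain ⟨δ, -, -, L, h1, -, h3, h4⟩ := lo (ε / 2 / (m / lam 0 + 1)) (by positivity)
    have a1 := tail h0 hm (by positivity) m L h3 0
    have a2 : (L.map (inc f)).sum / lam m ≤ ε / 2 := by
      rw [div_le_iff₀ (h0 m)]; rw [div_le_iff₀ (by positivity)] at hm'; linarith [bv L h1]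
    have : (m - 0 : ℕ) * (ε / 2 / (m / lam 0 + 1) / lam 0) + ε / 2 / (m / lam 0 + 1) = ε / 2 := by
      simp only [tsub_zero]; field_simp
    linarith
  refine hn (tendsto_const_nhds.congr fun m => Eq.symm ?_)
  refine le_antisymm (iSup₂_le fun L hL => ?_) (by simp)
  rw [sig_zero L fun I hI => ?_]; · simp
  have := up [I] ⟨by simpa using hL.1 I hI, by simp⟩
  simp only [sig, add_zero] at this
  have := (div_le_iff₀ (h0 0)).1 (this.trans z)
  linarith [inc_nn (f := f) I]

end H91.LamBV
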