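import Pool.Agent.H91.SignDim

set_option autoImplicit false

namespace H91.Levy2
open Set Filter Topology Finset MeasureTheory H91.SignDim Complex

/-- sum range -/
def SR (x : ℕ → ℂ) : Set ℂ :=
  {a | ∃ σ : Equiv.Perm ℕ, Tendsto (fun N => ∑ n ∈ range N, x (σ n)) atTop (𝓝 a)}
/-- achievement set -/
def Ach (x : ℕ → ℂ) : Set ℂ :=
  {a | ∃ e : ℕ → Bool, Tendsto (fun N => ∑ n ∈ range N, if e n then x n else 0) atTop (𝓝 a)}
/-- Levy vectors -/
def Lev (x : ℕ → ℂ) : Set ℂ := {u | ‖u‖ = 1 ∧ ∀ ε : ℝ, 0 < ε →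
  ¬ Summable fun n => if (1 - ε) * ‖u‖ * ‖x n‖ ≤ inner ℝ u (x n) then ‖x n‖ else 0}

lemma blocks (m : ℕ) (hm : 0 < m) (y : ℕ → ℂ) (hy : Tendsto y atTop (𝓝 0)) (a : ℂ)
    (h : Tendsto (fun j => ∑ n ∈ range (m * j), y n) atTop (𝓝 a)) :
    Tendsto (fun N => ∑ n ∈ range N, y n) atTop (𝓝 a) := by
  have d := Nat.tendsto_div_const_atTop hm.ne'
  have h2 : Tendsto (fun N => ∑ i ∈ range m, ‖y (m * (N / m) + i)‖) atTop (𝓝 (∑ i ∈ range m, 0)) :=
    tendsto_finset_sum _ fun i _ => by
      simpa using (hy.comp ((tendsto_add_atTop_nat i).comp ((tendsto_id.const_mul_atTop' hm).comp d))).norm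
  rw [Finset.sum_const_zero] at h2
  have h3 : Tendsto (fun N => ∑ i ∈ range (N % m), y (m * (N / m) + i)) atTop (𝓝 0) :=
    squeeze_zero_norm (fun N => (norm_sum_le _ _).trans (Finset.sum_le_sum_of_subset_of_nonneg
      (Finset.range_mono (Nat.mod_lt N hm).le) fun _ _ _ => norm_nonneg _)) h2
  have := (h.comp d).add h3
  rw [add_zero] at this
  refine this.congr fun N => ?_
  simp only [Function.comp]
  rw [← Finset.sum_range_add, Nat.div_add_mod]

lemma conv {h z : ℕ → ℝ} (h0 : ∀ n, 0 ≤ h n) (h1 : Tendsto h atTop (𝓝 0)) (h2 : ¬ Summable h)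
    (hz : ∀ n, |z (n + 1)| ≤ max (|z n| - h n) (h n)) : Tendsto z atTop (𝓝 0) := by
  refine Metric.tendsto_atTop.2 fun ε hε => ?_
  obtain ⟨m, hm⟩ := eventually_atTop.1 (h1.eventually (ge_mem_nhds (half_pos hε)))
  obtain ⟨N, hN⟩ := eventually_atTop.1
    (((not_summable_iff_tendsto_nat_atTop_of_nonneg h0).1 h2).eventually_ge_atTop
      (|z m| + ∑ i ∈ range m, h i))
  refine ⟨max m N, fun n hn => ?_⟩
  have := multi (u := fun n => |z n|) h0 hz hm n (le_of_max_le_left hn)
  rw [Finset.sum_Ico_eq_sub _ (le_of_max_le_left hn)] at this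
  rw [Real.dist_eq, sub_zero]
  exact this.trans_lt (max_lt (by linarith [hN n (le_of_max_le_right hn)]) (half_lt_self hε))

lemma riemann {u : ℕ → ℝ} (h0 : ∀ n, 0 ≤ u n) (h1 : Tendsto u atTop (𝓝 0)) (h2 : ¬ Summable u)
    (a : ℝ) : ∃ ρ : Equiv.Perm ℕ,
      Tendsto (fun N => ∑ j ∈ range N, (-1) ^ ρ j * u (ρ j / 2)) atTop (𝓝 a) := by
  classical
  let U : ℕ → ℝ := fun k => ∑ i ∈ range k, u i
  have hU : Tendsto U atTop atTop := (not_summable_iff_tendsto_nat_atTop_of_nonneg h0).1 h2
  obtain ⟨st, hs0, hs1⟩ : ∃ st : ℕ → ℕ × ℕ, st 0 = (0, 0) ∧ ∀ j, st (j + 1) =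
      if U (st j).1 - U (st j).2 < a then ((st j).1 + 1, (st j).2) else ((st j).1, (st j).2 + 1) :=
    ⟨fun j => Nat.rec (motive := fun _ => ℕ × ℕ) (0, 0)
      (fun _ s => if U s.1 - U s.2 < a then (s.1 + 1, s.2) else (s.1, s.2 + 1)) j, rfl, fun _ => rfl⟩
  obtain ⟨P, hP⟩ : ∃ P : ℕ → Prop, ∀ j, P j ↔ U (st j).1 - U (st j).2 < a := ⟨_, fun _ => Iff.rfl⟩
  have hs : ∀ j, st (j + 1) = if P j then ((st j).1 + 1, (st j).2) else ((st j).1, (st j).2 + 1) :=
    fun j => by rw [hs1]; simp only [hP]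
  have hc : ∀ j, st j = (Nat.count P j, Nat.count (fun j => ¬ P j) j) := by
    intro j
    induction j with
    | zero => exact hs0
    | succ j ih => rw [hs, Nat.count_succ, Nat.count_succ, ih]; split_ifs <;> rfl
  have tot : ∀ j, Nat.count P j + Nat.count (fun j => ¬ P j) j = j := fun j => by
    induction j with
    | zero => rfl
    | succ j ih => rw [Nat.count_succ, Nat.count_succ]; split_ifs <;> omega
  have Um : Monotone U := monotone_nat_of_le_succ fun k => by
    simp only [U, Finset.sum_range_succ]; linarith [h0 k]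
  have i1 : (setOf P).Infinite := by
    intro hf
    obtain ⟨C, hC⟩ : ∃ C, ∀ n, Nat.count P n ≤ C := ⟨_, Nat.count_le_card hf⟩
    obtain ⟨k, hk⟩ := (hU.eventually_gt_atTop (U C - a)).exists
    obtain ⟨b, hb⟩ := hf.bddAbove
    have c := hC (C + k + b + 1)
    have t := tot (C + k + b + 1)
    have : P (C + k + b + 1) := by
      rw [hP, hc]
      linarith [Um c, Um (show k ≤ Nat.count (fun j => ¬ P j) (C + k + b + 1) by omega)]
    have := hb (show _ ∈ setOf P from this)
    omega
  have i2 : (setOf fun j => ¬ P j).Infinite := by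
    intro hf
    obtain ⟨C, hC⟩ : ∃ C, ∀ n, Nat.count (fun j => ¬ P j) n ≤ C := ⟨_, Nat.count_le_card hf⟩
    obtain ⟨k, hk⟩ := (hU.eventually_gt_atTop (U C + a)).exists
    obtain ⟨b, hb⟩ := hf.bddAbove
    have c := hC (C + k + b + 1)
    have t := tot (C + k + b + 1)
    have : ¬ P (C + k + b + 1) := by
      rw [hP, hc, not_lt]
      linarith [Um c, Um (show k ≤ Nat.count P (C + k + b + 1) by omega)]
    have := hb (show _ ∈ setOf fun j => ¬ P j from this)
    omega
  let r : ℕ → ℕ := fun j => if P j then 2 * Nat.count P j else 2 * Nat.count (fun j => ¬ P j) j + 1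
  have hr : Function.Bijective r := by
    constructor
    · intro i j h
      simp only [r] at h
      split_ifs at h with g1 g2 g2
      · exact Nat.count_injective g1 g2 (by omega)
      · omega
      · omega
      · exact Nat.count_injective (p := fun j => ¬ P j) g1 g2 (by omega)
    · intro n
      obtain ⟨i, rfl | rfl⟩ := Nat.even_or_odd' n
      · exact ⟨Nat.nth P i, by
          simp only [r, if_pos (Nat.nth_mem_of_infinite i1 i), Nat.count_nth_of_infinite i1]⟩
      · exact ⟨Nat.nth (fun j => ¬ P j) i, by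
          simp only [r, if_neg (Nat.nth_mem_of_infinite i2 i), Nat.count_nth_of_infinite i2]⟩
  refine ⟨Equiv.ofBijective r hr, ?_⟩
  simp only [Equiv.ofBijective_apply]
  have e : ∀ N, ∑ j ∈ range N, (-1) ^ r j * u (r j / 2) = U (st N).1 - U (st N).2 := by
    intro N
    induction N with
    | zero => simp [U, hs0]
    | succ N ih =>
      rw [Finset.sum_range_succ, ih, hs, hc]
      simp only [r]
      split_ifs
      · simp only [U, Finset.sum_range_succ, pow_mul, Nat.mul_div_cancel_left _ two_pos]; ring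
      · simp only [U, Finset.sum_range_succ, pow_succ, pow_mul,
          show ∀ k, (2 * k + 1) / 2 = k from fun k => by omega]; ring
  rw [← tendsto_sub_nhds_zero_iff]
  refine conv (h := fun j => u (r j / 2)) (fun _ => h0 _)
    (h1.comp ((Nat.tendsto_div_const_atTop two_ne_zero).comp hr.1.nat_tendsto_atTop)) ?_ fun n => ?_
  · intro h
    have := ((Equiv.ofBijective r hr).summable_iff (f := fun j => u (j / 2))).1 h
    exact h2 (by simpa [Function.comp_def] using this.comp_injective (mul_right_injective₀ two_ne_zero))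
  · rw [Finset.sum_range_succ, e]
    have := h0 (r n / 2)
    have m1 := le_max_left (|U (st n).1 - U (st n).2 - a| - u (r n / 2)) (u (r n / 2))
    have m2 := le_max_right (|U (st n).1 - U (st n).2 - a| - u (r n / 2)) (u (r n / 2))
    by_cases g : P n
    · have s : (-1 : ℝ) ^ r n = 1 := by simp only [r, if_pos g, pow_mul]; simp
      rw [hP] at g
      rw [abs_of_neg (sub_neg.2 g)] at m1 m2 ⊢
      rw [s, abs_le]; constructor <;> linarith
    · have s : (-1 : ℝ) ^ r n = -1 := by simp only [r, if_neg g, pow_succ, pow_mul]; simp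
      rw [hP, not_lt] at g
      rw [abs_of_nonneg (sub_nonneg.2 g)] at m1 m2 ⊢
      rw [s, abs_le]; constructor <;> linarith

def B : ℕ → ℕ
  | 0 => 0
  | k + 1 => B k + 2 ^ (8 * B k + 2 * k)
def M (k : ℕ) : ℕ := 2 ^ (8 * B k + 2 * k)
lemma M_pos (k : ℕ) : 0 < M k := by unfold M; positivity
lemma B_succ (k : ℕ) : B (k + 1) = B k + M k := rfl
lemma mono : StrictMono B := strictMono_nat_of_lt_succ fun k => by have := M_pos k; rw [B_succ]; omega
def K (n : ℕ) : ℕ := Nat.findGreatest (fun k => B k ≤ n) n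
lemma le_K {k n : ℕ} (h : B k ≤ n) : k ≤ K n := Nat.le_findGreatest ((mono.id_le k).trans h) h
lemma B_K (n : ℕ) : B (K n) ≤ n :=
  Nat.findGreatest_spec (P := fun k => B k ≤ n) (Nat.zero_le n) (Nat.zero_le n)
lemma K_eq {k n : ℕ} (h : B k ≤ n) (h' : n < B (k + 1)) : K n = k :=
  le_antisymm (Nat.le_of_lt_succ (mono.lt_iff_lt.1 ((B_K n).trans_lt h'))) (le_K h)
lemma lt_B (n : ℕ) : n < B (K n + 1) := by
  by_contra h; have := le_K (not_lt.1 h); omega
lemma K_top : Tendsto K atTop atTop :=
  tendsto_atTop.2 fun k => eventually_atTop.2 ⟨B k, fun _ h => le_K h⟩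
noncomputable def t (k : ℕ) : ℝ := (1 / 2) ^ (8 * B k + k)
noncomputable def d (i : ℕ) : ℝ := (1 / 2) ^ K i
noncomputable def η (i : ℕ) : ℝ := t (K i) * d i
lemma t_pos (k : ℕ) : 0 < t k := by unfold t; positivity
lemma t_le (k : ℕ) : t k ≤ (1 / 2) ^ k := pow_le_pow_of_le_one (by norm_num) (by norm_num) (by omega)
lemma d_pos (i : ℕ) : 0 < d i := by unfold d; positivity
lemma η_pos (i : ℕ) : 0 < η i := mul_pos (t_pos _) (d_pos _)
lemma η_le (i : ℕ) : η i ≤ d i := mul_le_of_le_one_left (d_pos i).le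
  (pow_le_one₀ (by norm_num) (by norm_num))
lemma d_lim : Tendsto d atTop (𝓝 0) := half.comp K_top
lemma η_lim : Tendsto η atTop (𝓝 0) := squeeze_zero (fun i => (η_pos i).le) η_le d_lim
lemma t_lim : Tendsto (fun i => t (K i)) atTop (𝓝 0) :=
  squeeze_zero (fun i => (t_pos _).le) (fun i => t_le _) d_lim
lemma η_ns : ¬ Summable η := by
  intro h
  have : ∀ k, ∑ i ∈ range (B k), η i = k := by
    intro k
    induction k with
    | zero => simp [B]
    | succ k ih =>
      rw [B_succ, Finset.sum_range_add, ih, Finset.sum_congr rfl (g := fun _ => t k * (1 / 2) ^ k)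
        fun i hi => by
          have := K_eq (k := k) (n := B k + i) (by omega) (by
            rw [B_succ]; have := Finset.mem_range.1 hi; omega)
          rw [η, d, this]]
      simp only [Finset.sum_const, Finset.card_range, nsmul_eq_mul, M, t]
      push_cast
      rw [← pow_add, show 8 * B k + k + k = 8 * B k + 2 * k by ring, ← mul_pow]; simp
  obtain ⟨k, hk⟩ := exists_nat_gt (∑' i, η i)
  have := this k ▸ h.sum_le_tsum (range (B k)) fun i _ => (η_pos i).le
  linarith
lemma d_ns : ¬ Summable d := fun h => η_ns (.of_nonneg_of_le (fun i => (η_pos i).le) η_le h)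

noncomputable def y (J r : ℕ) : ℂ := (-1) ^ J * if r < 2 then (-1) ^ r * d (J / 2) + η (J / 2) * I
  else d (J / 2) + (-1) ^ r * η (J / 2) * I
noncomputable def x (n : ℕ) : ℂ := y (n / 4) (n % 4)

lemma pm (n : ℕ) : (-1 : ℂ) ^ n = 1 ∨ (-1 : ℂ) ^ n = -1 := neg_one_pow_eq_or ℂ n
lemma x_ri (n : ℕ) : |(x n).re| = d (n / 8) ∧ |(x n).im| = η (n / 8) := by
  have := abs_of_pos (d_pos (n / 8)); have := abs_of_pos (η_pos (n / 8))
  rw [x, y, Nat.div_div_eq_div_mul]
  rcases pm (n / 4) with h | h <;> rcases pm (n % 4) with h' | h' <;> rw [h, h'] <;>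
    split_ifs <;> simp [*]
lemma x_norm (n : ℕ) : d (n / 8) ≤ ‖x n‖ ∧ ‖x n‖ ≤ d (n / 8) + η (n / 8) :=
  ⟨(x_ri n).1 ▸ abs_re_le_norm _, (x_ri n).1 ▸ (x_ri n).2 ▸ norm_le_abs_re_add_abs_im _⟩
lemma x_lim : Tendsto x atTop (𝓝 0) := squeeze_zero_norm (fun n => (x_norm n).2) (by
  simpa [Function.comp_def] using (d_lim.add η_lim).comp (Nat.tendsto_div_const_atTop (n := 8) (by norm_num)))
lemma y01 (J : ℕ) : y J 0 + y J 1 = ((-1) ^ J * (2 * η (J / 2)) : ℝ) * I := by simp [y]; ring
lemma y23 (J : ℕ) : y J 2 + y J 3 = ((-1) ^ J * (2 * d (J / 2)) : ℝ) := by simp [y]; ring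
lemma x_eq (J r : ℕ) (hr : r < 4) : x (4 * J + r) = y J r := by
  rw [x, show (4 * J + r) / 4 = J by omega, show (4 * J + r) % 4 = r by omega]

lemma two {u : ℕ → ℝ} (h : ¬ Summable u) : ¬ Summable fun i => 2 * u i :=
  fun g => h ((summable_mul_left_iff two_ne_zero).1 g)

lemma comb {f g : ℕ → ℝ} {a : ℂ} (hf : Tendsto f atTop (𝓝 a.re)) (hg : Tendsto g atTop (𝓝 a.im)) :
    Tendsto (fun j => (f j : ℂ) + g j * I) atTop (𝓝 a) := by
  simpa using hf.ofReal.add (hg.ofReal.mul_const I)

lemma sr (a : ℂ) : a ∈ SR x := by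
  obtain ⟨ρ1, h1⟩ := riemann (u := fun i => 2 * d i) (fun i => by linarith [d_pos i])
    (by simpa using d_lim.const_mul 2) (two d_ns) a.re
  obtain ⟨ρ2, h2⟩ := riemann (u := fun i => 2 * η i) (fun i => by linarith [η_pos i])
    (by simpa using η_lim.const_mul 2) (two η_ns) a.im
  let σ : Equiv.Perm ℕ := ((Nat.divModEquiv 4).trans
    (Equiv.prodCongrLeft fun r : Fin 4 => if r.1 < 2 then ρ2 else ρ1)).trans (Nat.divModEquiv 4).symm
  have hσ : ∀ J r, r < 4 → x (σ (4 * J + r)) = y ((if r < 2 then ρ2 else ρ1) J) r := by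
    intro J r hr
    rw [← x_eq _ _ hr]
    simp [σ, show (J * 4 + r) / 4 = J by omega, Nat.mod_eq_of_lt hr, mul_comm]
  refine ⟨σ, blocks 4 (by norm_num) (fun n => x (σ n)) (x_lim.comp σ.injective.nat_tendsto_atTop) a
    ((comb h1 h2).congr fun j => ?_)⟩
  induction j with
  | zero => simp
  | succ j ih =>
    rw [mul_add, mul_one, Finset.sum_range_add _ (4 * j), ← ih]
    simp only [Finset.sum_range_succ, Finset.sum_range_zero, hσ j 0 (by norm_num),
      hσ j 1 (by norm_num), hσ j 2 (by norm_num), hσ j 3 (by norm_num)]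
    have a1 := y01 (ρ2 j); have a2 := y23 (ρ1 j)
    push_cast at a1 a2 ⊢
    norm_num
    linear_combination -a1 - a2

lemma ach (a : ℂ) : a ∈ Ach x := by
  have p1 : ∀ i, 0 ≤ 2 * d i := fun i => by linarith [d_pos i]
  have p2 : ∀ i, 0 ≤ 2 * η i := fun i => by linarith [η_pos i]
  obtain ⟨e1, h1⟩ := greedy _ p1 a.re
  obtain ⟨e2, h2⟩ := greedy _ p2 a.im
  have g1 := conv (z := fun n => a.re - S (fun n => 2 * d n) e1 n) p1 (by simpa using d_lim.const_mul 2) (two d_ns) h1
  have g2 := conv (z := fun n => a.im - S (fun n => 2 * η n) e2 n) p2 (by simpa using η_lim.const_mul 2) (two η_ns) h2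
  have g1' : Tendsto (S (fun i => 2 * d i) e1) atTop (𝓝 a.re) := by simpa using g1.const_sub a.re
  have g2' : Tendsto (S (fun i => 2 * η i) e2) atTop (𝓝 a.im) := by simpa using g2.const_sub a.im
  refine ⟨fun n => decide (((if n % 4 < 2 then e2 else e1) (n / 8) = 1) ↔ n % 8 < 4),
    blocks 8 (by norm_num) _ (squeeze_zero_norm (fun n => ?_) (by simpa using x_lim.norm)) a
      ((comb g1' g2').congr fun j => ?_)⟩
  · split_ifs <;> simp
  induction j with
  | zero => simp [S]
  | succ j ih =>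
    rw [mul_add, mul_one, Finset.sum_range_add, ← ih, S_succ, S_succ]
    have b1 : ∀ r, r < 8 → (8 * j + r) / 8 = j ∧ (8 * j + r) % 8 = r ∧ (8 * j + r) % 4 = r % 4 ∧
      x (8 * j + r) = y (2 * j + r / 4) (r % 4) := fun r hr =>
      ⟨by omega, by omega, by omega, by rw [x]; congr 1 <;> omega⟩
    have a1 := y01 (2 * j); have a2 := y23 (2 * j)
    have a3 := y01 (2 * j + 1); have a4 := y23 (2 * j + 1)
    simp only [Finset.sum_range_succ, Finset.sum_range_zero, b1 0 (by norm_num), b1 1 (by norm_num),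
      b1 2 (by norm_num), b1 3 (by norm_num), b1 4 (by norm_num), b1 5 (by norm_num),
      b1 6 (by norm_num), b1 7 (by norm_num)]
    simp only [show (2 * j + 1) / 2 = j by omega, show 2 * j / 2 = j by omega, pow_succ, pow_mul] at a1 a2 a3 a4
    push_cast at a1 a2 a3 a4 ⊢
    rcases Int.units_eq_one_or (e1 j) with h | h <;> rcases Int.units_eq_one_or (e2 j) with h' | h' <;>
      simp [h, h'] at a1 a2 a3 a4 ⊢
    · linear_combination -a1 - a2
    · linear_combination -a3 - a2
    · linear_combination -a1 - a4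
    · linear_combination -a3 - a4

lemma lev : Lev x = {1, -1} := by
  have key : ∀ (u : ℂ) (r : ℕ), r < 8 → ‖u‖ = 1 → (∀ i, inner ℝ u (x (8 * i + r)) = d i) → u ∈ Lev x := by
    intro u r hr hu h
    refine ⟨hu, fun ε hε g => d_ns ?_⟩
    obtain ⟨N, hN⟩ := eventually_atTop.1 (t_lim.eventually (ge_mem_nhds hε))
    have g2 := (summable_nat_add_iff N).2 (g.comp_injective (i := fun i => 8 * i + r)
      fun i j h => by simpa using h)
    refine (summable_nat_add_iff N).1 (.of_nonneg_of_le (fun i => (d_pos _).le) (fun i => ?_) g2)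
    have a := x_norm (8 * (i + N) + r)
    rw [show (8 * (i + N) + r) / 8 = i + N by omega] at a
    simp only [Function.comp]
    rw [if_pos]
    · exact a.1
    · rw [h, hu, mul_one]
      have b : η (i + N) ≤ ε * d (i + N) := mul_le_mul_of_nonneg_right (hN _ (by omega)) (d_pos _).le
      nlinarith [mul_le_mul_of_nonneg_left a.1 hε.le]
  ext u
  refine ⟨fun hu => ?_, ?_⟩
  · by_contra hne
    simp only [mem_insert_iff, mem_singleton_iff, not_or] at hne
    have h1 : |u.re| < 1 := by
      refine lt_of_le_of_ne (hu.1 ▸ abs_re_le_norm u) fun h => ?_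
      have h2 := (abs_re_eq_norm.1 (h.trans hu.1.symm))
      rcases abs_eq (zero_le_one' ℝ) |>.1 h with g | g
      exacts [hne.1 (Complex.ext g h2), hne.2 (Complex.ext (by simpa using g) (by simpa using h2))]
    have hε : 0 < (1 - |u.re|) / 2 := by linarith
    obtain ⟨N, hN⟩ := eventually_atTop.1 (t_lim.eventually (gt_mem_nhds hε))
    refine hu.2 _ hε (summable_of_ne_finset_zero (s := range (8 * N)) fun n hn => if_neg ?_)
    have a := x_norm n; have b := x_ri n
    have c : η (n / 8) < (1 - |u.re|) / 2 * d (n / 8) :=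
      mul_lt_mul_of_pos_right (hN _ (by simp at hn; omega)) (d_pos _)
    have e : inner ℝ u (x n) ≤ |u.re| * d (n / 8) + η (n / 8) := by
      have f1 : u.re * (x n).re ≤ |u.re| * d (n / 8) := by rw [← b.1, ← abs_mul]; exact le_abs_self _
      have f2 : u.im * (x n).im ≤ η (n / 8) := by
        refine (le_abs_self _).trans ?_
        rw [abs_mul, b.2]
        exact mul_le_of_le_one_left (η_pos _).le (hu.1 ▸ abs_im_le_norm u)
      simp only [Complex.inner, mul_re, conj_re, conj_im]; linarith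
    rw [hu.1, mul_one, not_le]
    nlinarith [mul_le_mul_of_nonneg_left a.1 (show 0 ≤ 1 - (1 - |u.re|) / 2 by linarith [abs_nonneg u.re])]
  · rintro (rfl | rfl)
    · refine key _ 0 (by norm_num) (by simp) fun i => ?_
      rw [show 8 * i + 0 = 4 * (2 * i) + 0 by ring, x_eq _ _ (by norm_num)]
      simp [y, Complex.inner]
    · refine key _ 1 (by norm_num) (by simp) fun i => ?_
      rw [show 8 * i + 1 = 4 * (2 * i) + 1 by ring, x_eq _ _ (by norm_num)]
      simp [y, Complex.inner]

def s1 (n : ℕ) : ℕ := 8 * (B (K (n / 8)) + (n - 8 * B (K (n / 8))) % M (K (n / 8))) +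
  (n - 8 * B (K (n / 8))) / M (K (n / 8))

lemma s1_eq (k r s : ℕ) (hr : r < 8) (hs : s < M k) : s1 (8 * B k + (M k * r + s)) = 8 * (B k + s) + r := by
  have : M k * r + s < M k * 8 := by nlinarith
  have e : K ((8 * B k + (M k * r + s)) / 8) = k := K_eq (by omega) (by rw [B_succ]; omega)
  rw [s1, e, Nat.add_sub_cancel_left, Nat.mul_add_mod, Nat.mod_eq_of_lt hs,
    Nat.mul_add_div (M_pos k), Nat.div_eq_of_lt hs, add_zero]

lemma rep (n : ℕ) : ∃ k r s, r < 8 ∧ s < M k ∧ n = 8 * B k + (M k * r + s) := by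
  have a := B_K (n / 8); have b := lt_B (n / 8)
  rw [B_succ] at b
  refine ⟨K (n / 8), (n - 8 * B (K (n / 8))) / M (K (n / 8)), (n - 8 * B (K (n / 8))) % M (K (n / 8)),
    Nat.div_lt_of_lt_mul (by omega), Nat.mod_lt _ (M_pos _), ?_⟩
  rw [Nat.div_add_mod]; omega

lemma s1_bij : Function.Bijective s1 := by
  constructor
  · intro m n h
    obtain ⟨k, r, s, h1, h2, rfl⟩ := rep m
    obtain ⟨k', r', s', h1', h2', rfl⟩ := rep n
    rw [s1_eq _ _ _ h1 h2, s1_eq _ _ _ h1' h2'] at h
    have e : B k + s = B k' + s' := by omega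
    have : k = k' := (K_eq (Nat.le_add_right _ s) (by rw [B_succ]; omega)).symm.trans
      (e ▸ K_eq (Nat.le_add_right _ s') (by rw [B_succ]; omega))
    subst this
    rw [show r = r' by omega, show s = s' by omega]
  · intro n
    have a := B_K (n / 8); have b := lt_B (n / 8)
    rw [B_succ] at b
    exact ⟨_, (s1_eq (K (n / 8)) (n % 8) (n / 8 - B (K (n / 8))) (by omega) (by omega)).trans (by omega)⟩

lemma run (k r : ℕ) (hr : r < 8) (e : ℕ → Bool) :
    |(∑ s ∈ range (M k), if e (8 * B k + (M k * r + s)) then x (s1 (8 * B k + (M k * r + s))) else 0).im|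
    = t k * |(∑ s ∈ range (M k),
      if e (8 * B k + (M k * r + s)) then x (s1 (8 * B k + (M k * r + s))) else 0).re| := by
  have c : ∀ s ∈ range (M k), x (s1 (8 * B k + (M k * r + s))) = x (8 * B k + r) := by
    intro s hs
    have hs := Finset.mem_range.1 hs
    have e1 : K (B k + s) = k := K_eq (by omega) (by rw [B_succ]; omega)
    have e2 : K (B k) = k := K_eq le_rfl (mono (Nat.lt_succ_self k))
    rw [s1_eq _ _ _ hr hs, x, x, show (8 * (B k + s) + r) % 4 = (8 * B k + r) % 4 by omega, y, y,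
      show (8 * (B k + s) + r) / 4 = 2 * (B k + s) + r / 4 by omega,
      show (8 * B k + r) / 4 = 2 * B k + r / 4 by omega,
      show (2 * (B k + s) + r / 4) / 2 = B k + s by omega, show (2 * B k + r / 4) / 2 = B k by omega]
    simp [pow_add, pow_mul, η, d, e1, e2]
  rw [Finset.sum_congr rfl fun s hs => by rw [c s hs], ← Finset.sum_filter, Finset.sum_const,
    nsmul_eq_mul, ← ofReal_natCast, im_ofReal_mul, re_ofReal_mul, abs_mul, abs_mul, (x_ri _).1,
    (x_ri _).2, η, show (8 * B k + r) / 8 = B k by omega, K_eq le_rfl (mono (Nat.lt_succ_self k))]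
  ring

lemma notall : Ach (fun n => x (s1 n)) ≠ univ := by
  let Z : (ℕ → Bool) → ℕ → ℂ := fun e N => ∑ n ∈ range N, if e n then x (s1 n) else 0
  let V : ℕ → Set ℝ := fun k0 => {v | ∃ e, Tendsto (Z e) atTop (𝓝 (v * I)) ∧
    ∀ n, 8 * B k0 ≤ n → |(Z e n).re| ≤ 1}
  have tail : ∀ e k0, (∀ n, 8 * B k0 ≤ n → |(Z e n).re| ≤ 1) → ∀ k, k0 ≤ k → ∀ j, k ≤ j →
      |(Z e (8 * B j)).im - (Z e (8 * B k)).im| ≤ 32 * (t k - t j) := by
    intro e k0 h k hk j hj
    induction j, hj using Nat.le_induction with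
    | base => simp
    | succ j hj ih =>
      have m := mono.monotone (hk.trans hj)
      have st : ∀ r ≤ 8, |(Z e (8 * B j + M j * r)).im - (Z e (8 * B j)).im| ≤ 2 * r * t j := by
        intro r hr
        induction r with
        | zero => simp
        | succ r ih2 =>
          have a := run j r (by omega) e
          have b : Z e (8 * B j + M j * (r + 1)) = Z e (8 * B j + M j * r) + ∑ s ∈ range (M j),
              if e (8 * B j + (M j * r + s)) then x (s1 (8 * B j + (M j * r + s))) else 0 := by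
            simp only [Z, mul_add, mul_one, ← add_assoc, Finset.sum_range_add]
          have c1 := h (8 * B j + M j * (r + 1)) (by omega)
          have c2 := h (8 * B j + M j * r) (by omega)
          have c3 := ih2 (by omega)
          rw [b, add_re] at c1
          rw [b, add_im]
          generalize (∑ s ∈ range (M j), if e (8 * B j + (M j * r + s)) then
            x (s1 (8 * B j + (M j * r + s))) else 0) = w at a c1
          have c4 : |w.re| ≤ 2 := by rw [abs_le] at c1 c2 ⊢; constructor <;> linarith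
          have c5 : |w.im| ≤ t j * 2 := a ▸ mul_le_mul_of_nonneg_left c4 (t_pos j).le
          push_cast
          rw [abs_le] at c3 c5 ⊢; constructor <;> linarith
      have s8 := st 8 le_rfl
      rw [show 8 * B j + M j * 8 = 8 * B (j + 1) by rw [B_succ]; ring] at s8
      have h2 : t (j + 1) ≤ t j / 2 := by
        rw [div_eq_mul_one_div (t j), t, t, ← pow_succ]
        exact pow_le_pow_of_le_one (by norm_num) (by norm_num) (by rw [B_succ]; omega)
      push_cast at s8
      rw [abs_le] at ih s8 ⊢; constructor <;> linarith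
  have hV : ∀ k0, volume (V k0) = 0 := by
    intro k0
    have lim : Tendsto (fun k : ℕ => ENNReal.ofReal (64 * (1 / 2) ^ k)) atTop (𝓝 0) := by
      simpa using ENNReal.tendsto_ofReal (half.const_mul 64)
    refine le_antisymm (ge_of_tendsto lim (eventually_atTop.2 ⟨k0, fun k hk => ?_⟩)) (by simp)
    have sub : V k0 ⊆ ⋃ p : Fin (8 * B k) → Bool, Metric.closedBall
        (∑ n : Fin (8 * B k), if p n then x (s1 n) else 0).im (32 * t k) := by
      rintro v ⟨e, h1, h2⟩
      refine mem_iUnion.2 ⟨fun n => e n, ?_⟩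
      rw [Fin.sum_univ_eq_sum_range (fun n => if e n then x (s1 n) else 0), Metric.mem_closedBall,
        Real.dist_eq]
      have h3 := (continuous_im.tendsto _).comp (h1.comp ((tendsto_id.const_mul_atTop'
        (show 0 < 8 by norm_num)).comp mono.tendsto_atTop))
      simp only [mul_im, ofReal_re, I_im, mul_one, ofReal_im, I_re, mul_zero, add_zero] at h3
      exact le_of_tendsto (h3.sub_const _).abs (eventually_atTop.2 ⟨k, fun j hj =>
        (tail e k0 h2 k hk j hj).trans (by linarith [t_pos j])⟩)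
    refine (measure_mono sub).trans ((measure_iUnion_fintype_le _ _).trans (le_of_eq ?_))
    simp only [Real.volume_closedBall, Finset.sum_const, Finset.card_univ, Fintype.card_pi,
      Fintype.card_bool, Finset.prod_const, Fintype.card_fin, nsmul_eq_mul]
    rw [← ENNReal.ofReal_natCast, ← ENNReal.ofReal_mul (by positivity), t, pow_add]
    push_cast
    congr 1
    have : (2 : ℝ) ^ (8 * B k) * (1 / 2) ^ (8 * B k) = 1 := by rw [← mul_pow]; simp
    linear_combination 64 * (1 / 2) ^ k * this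
  intro h
  have : (univ : Set ℝ) ⊆ ⋃ k0, V k0 := by
    intro v _
    obtain ⟨e, he⟩ : (v * I : ℂ) ∈ Ach fun n => x (s1 n) := h ▸ mem_univ _
    obtain ⟨N, hN⟩ := Metric.tendsto_atTop.1 ((continuous_re.tendsto _).comp he) 1 one_pos
    refine mem_iUnion.2 ⟨N, e, he, fun n hn => ?_⟩
    simpa [Real.dist_eq, Z] using (hN n (by have := mono.id_le N; simp only [id] at this; omega)).le
  simpa using measure_mono_null this (measure_iUnion_null hV)

theorem main : ∃ x : ℕ → ℂ,
    (∃ s, Filter.Tendsto (fun N => ∑ n ∈ Finset.range N, x n) Filter.atTop (nhds s)) ∧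
    ¬ Summable (fun n => ‖x n‖) ∧ H91.Levy2.SR x = Set.univ ∧ H91.Levy2.Ach x = Set.univ ∧
    (H91.Levy2.Lev x).ncard = 2 ∧
    ∃ σ : Equiv.Perm ℕ, H91.Levy2.Ach (fun n => x (σ n)) ≠ Set.univ := by
  refine ⟨x, ⟨0, blocks 8 (by norm_num) _ x_lim 0 (tendsto_const_nhds.congr fun j => ?_)⟩,
    fun h => d_ns (.of_nonneg_of_le (fun i => (d_pos i).le) (fun i => ?_)
      (h.comp_injective (mul_right_injective₀ (show 8 ≠ 0 by norm_num)))),
    eq_univ_of_forall sr, eq_univ_of_forall ach, ?_, Equiv.ofBijective s1 s1_bij, notall⟩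
  · induction j with
    | zero => simp
    | succ j ih =>
      rw [mul_add, mul_one, Finset.sum_range_add, ← ih]
      have b1 : ∀ r, r < 8 → x (8 * j + r) = y (2 * j + r / 4) (r % 4) := fun r hr => by
        rw [x]; congr 1 <;> omega
      have a1 := y01 (2 * j); have a2 := y23 (2 * j)
      have a3 := y01 (2 * j + 1); have a4 := y23 (2 * j + 1)
      simp only [Finset.sum_range_succ, Finset.sum_range_zero, b1 0 (by norm_num), b1 1 (by norm_num),
        b1 2 (by norm_num), b1 3 (by norm_num), b1 4 (by norm_num), b1 5 (by norm_num),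
        b1 6 (by norm_num), b1 7 (by norm_num)]
      simp only [show (2 * j + 1) / 2 = j by omega, show 2 * j / 2 = j by omega, pow_succ,
        pow_mul] at a1 a2 a3 a4
      push_cast at a1 a2 a3 a4 ⊢
      simp at a1 a2 a3 a4 ⊢
      linear_combination -a1 - a2 - a3 - a4
  · simpa using (x_norm (8 * i)).1
  · rw [lev]; exact Set.ncard_pair (by norm_num)

end H91.Levy2
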