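import Mathlib
set_option autoImplicit false

namespace H91.LevyGromov
open MeasureTheory Set Real Laplacian Complex
open scoped ContDiff

noncomputable def u (z : ℂ) : ℝ := -(1/8) * z.re ^ 2 + -(1/2) * z.im ^ 2

lemma u_fderiv (z : ℂ) : HasFDerivAt u ((-(1/4) * z.re) • reCLM + (-z.im) • imCLM) z := by
  have h1 := (reCLM.hasFDerivAt (x := z)).pow 2 |>.const_mul (-(1/8) : ℝ)
  have h2 := (imCLM.hasFDerivAt (x := z)).pow 2 |>.const_mul (-(1/2) : ℝ)
  have h := h1.add h2
  refine h.congr_fderiv ?_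
  ext v <;> simp <;> ring

lemma u_lap (z : ℂ) : (Δ u) z = -(5/4) := by
  rw [InnerProductSpace.laplacian_eq_iteratedFDeriv_complexPlane]
  simp only [iteratedFDeriv_two_apply]
  have h0 : fderiv ℝ u = fun z : ℂ => (-(1/4) * z.re) • reCLM + (-z.im) • imCLM :=
    funext fun z => (u_fderiv z).fderiv
  have h1 : HasFDerivAt (fun z : ℂ => (-(1/4) * z.re : ℝ)) ((-(1/4) : ℝ) • reCLM) z :=
    (reCLM.hasFDerivAt (x := z)).const_mul (-(1/4) : ℝ)
  have h2 : HasFDerivAt (fun z : ℂ => (-z.im : ℝ)) (-imCLM) z := (imCLM.hasFDerivAt (x := z)).neg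
  have h := (h1.smul_const reCLM).add (h2.smul_const imCLM)
  rw [h0]
  have h' := h.fderiv
  erw [h']
  simp
  norm_num

lemma u_smooth : ContDiff ℝ 2 u := by
  unfold u
  have h1 : ContDiff ℝ 2 (fun z : ℂ => z.re) := reCLM.contDiff
  have h2 : ContDiff ℝ 2 (fun z : ℂ => z.im) := imCLM.contDiff
  fun_prop

lemma exp_two (p : ℝ × ℝ) : rexp (2 * u (measurableEquivRealProd.symm p)) =
    rexp (-(1/4) * p.1 ^ 2) * rexp (-1 * p.2 ^ 2) := by
  rw [← Real.exp_add]; congr 1; simp [u]; ring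

lemma integ : Integrable (fun z => rexp (2 * u z)) := by
  rw [← volume_preserving_equiv_real_prod.symm.integrable_comp_emb
    measurableEquivRealProd.symm.measurableEmbedding]
  have : ((fun z => rexp (2 * u z)) ∘ measurableEquivRealProd.symm) =
      fun p : ℝ × ℝ => rexp (-(1/4) * p.1 ^ 2) * rexp (-1 * p.2 ^ 2) := funext exp_two
  rw [this]
  exact (integrable_exp_neg_mul_sq (by norm_num : (0:ℝ) < 1/4)).mul_prod
    (integrable_exp_neg_mul_sq (by norm_num : (0:ℝ) < 1))

lemma area (s : Set ℝ) : ∫ z in {z : ℂ | z.re ∈ s}, rexp (2 * u z) =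
    (∫ x in s, rexp (-(1/4) * x ^ 2)) * √π := by
  rw [← volume_preserving_equiv_real_prod.symm.setIntegral_preimage_emb
    measurableEquivRealProd.symm.measurableEmbedding]
  have hs : (measurableEquivRealProd.symm ⁻¹' {z : ℂ | z.re ∈ s}) = s ×ˢ (univ : Set ℝ) := by
    ext p; simp
  rw [hs]
  simp only [exp_two]
  rw [Measure.volume_eq_prod, setIntegral_prod_mul (fun x : ℝ => rexp (-(1/4) * x ^ 2))
    (fun y : ℝ => rexp (-1 * y ^ 2)), Measure.restrict_univ, integral_gaussian]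
  simp

lemma sq4 : √(π / (1/4)) = 2 * √π := by
  rw [show π / (1/4) = 2 ^ 2 * π by ring, Real.sqrt_mul (by norm_num), Real.sqrt_sq (by norm_num)]

lemma area1 : ∫ z in {z : ℂ | 0 < z.re}, rexp (2 * u z) = π := by
  have := area (Ioi 0)
  rw [integral_gaussian_Ioi, sq4] at this
  simp only [mem_Ioi] at this
  rw [this]
  have := Real.mul_self_sqrt pi_pos.le
  linarith

lemma area2 : ∫ z in {z : ℂ | 0 < z.re}ᶜ, rexp (2 * u z) = π := by
  have h0 := area univ
  simp only [mem_univ, setOf_true, Measure.restrict_univ] at h0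
  rw [integral_gaussian, sq4] at h0
  have hm : MeasurableSet {z : ℂ | 0 < z.re} :=
    (isOpen_lt continuous_const continuous_re).measurableSet
  have h1 := integral_add_compl hm integ
  rw [area1, h0] at h1
  have := Real.mul_self_sqrt pi_pos.le
  linarith

lemma iso : Isometry (fun t : ℝ => (t : ℂ) * I) := by
  apply Isometry.of_dist_eq
  intro a b
  rw [dist_eq_norm, ← sub_mul, norm_mul, norm_I, mul_one, ← ofReal_sub, norm_real, Real.dist_eq,
    Real.norm_eq_abs]

lemma front : frontier {z : ℂ | 0 < z.re} = range (fun t : ℝ => (t : ℂ) * I) := by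
  rw [frontier_setOf_lt_re]
  ext z
  constructor
  · intro h
    refine ⟨z.im, ?_⟩
    apply Complex.ext
    · simpa using (show z.re = 0 from h).symm
    · simp
  · rintro ⟨t, rfl⟩
    simp

lemma restr : (Measure.hausdorffMeasure 1 : Measure ℂ).restrict (frontier {z : ℂ | 0 < z.re}) =
    Measure.map (fun t : ℝ => (t : ℂ) * I) volume := by
  rw [front, ← iso.map_hausdorffMeasure (Or.inl zero_le_one), hausdorffMeasure_real]

lemma exp_one (t : ℝ) : rexp (u ((t : ℂ) * I)) = rexp (-(1/2) * t ^ 2) := by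
  simp [u]

theorem main : ∃ (u : ℂ → ℝ) (Ω : Set ℂ) (ρ : ℂ → ℝ), ContDiff ℝ 2 u ∧
    (∀ z, (Δ u) z + rexp (2 * u z) ≤ 0) ∧ Integrable (fun z => rexp (2 * u z)) ∧
    IsOpen Ω ∧ IsConnected Ω ∧ ContDiff ℝ ∞ ρ ∧ Ω = {z | 0 < ρ z} ∧
    (∀ z, ρ z = 0 → fderiv ℝ ρ z ≠ 0) ∧
    IntegrableOn (fun z => rexp (u z)) (frontier Ω) (Measure.hausdorffMeasure 1) ∧
    (∫ z in frontier Ω, rexp (u z) ∂(Measure.hausdorffMeasure 1)) ^ 2 <
      (∫ z in Ω, rexp (2 * u z)) * ∫ z in Ωᶜ, rexp (2 * u z) := by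
  have hemb : MeasurableEmbedding (fun t : ℝ => (t : ℂ) * I) :=
    iso.isClosedEmbedding.measurableEmbedding
  refine ⟨u, {z : ℂ | 0 < z.re}, fun z => z.re, u_smooth, ?_, integ,
    isOpen_lt continuous_const continuous_re, ?_, reCLM.contDiff, rfl, ?_, ?_, ?_⟩
  · intro z
    rw [u_lap]
    have : rexp (2 * u z) ≤ 1 := by
      rw [Real.exp_le_one_iff]; unfold u; nlinarith [sq_nonneg z.re, sq_nonneg z.im]
    linarith
  · exact (convex_halfSpace_re_gt 0).isConnected ⟨1, by simp⟩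
  · intro z _ h
    have h1 : fderiv ℝ (fun z : ℂ => z.re) z = reCLM := reCLM.fderiv
    rw [h1] at h
    have := congrArg (fun T : ℂ →L[ℝ] ℝ => T 1) h
    simp at this
  · rw [IntegrableOn, restr, hemb.integrable_map_iff]
    have : ((fun z => rexp (u z)) ∘ fun t : ℝ => (t : ℂ) * I) = fun t => rexp (-(1/2) * t ^ 2) :=
      funext exp_one
    rw [this]
    exact integrable_exp_neg_mul_sq (by norm_num)
  · rw [restr, hemb.integral_map, area1, area2]
    simp only [exp_one]
    rw [integral_gaussian, Real.sq_sqrt (by positivity)]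
    nlinarith [pi_gt_three]

end H91.LevyGromov
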