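import Mathlib

set_option autoImplicit false

namespace H91.Lienard
open Complex Metric Set Filter Topology

def Good (a : ℕ → ℂ) : Prop := ∀ R : ℝ, 1 ≤ R → Summable fun n => ‖a n‖ * R ^ n
noncomputable def S (a : ℕ → ℂ) (z : ℂ) : ℂ := ∑' n, a n * z ^ n
noncomputable def D (a : ℕ → ℂ) (n : ℕ) : ℂ := (n + 1) * a (n + 1)

lemma Good.d {a : ℕ → ℂ} (h : Good a) : Good (D a) := by
  intro R hR
  have h1 := (summable_nat_add_iff 1).2 (h (2 * R) (by linarith))
  refine Summable.of_nonneg_of_le (fun n => by positivity) (fun n => ?_) h1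
  have h2 : ‖D a n‖ = (n + 1) * ‖a (n + 1)‖ := by
    unfold D
    rw [norm_mul]
    congr 1
    exact_mod_cast Complex.norm_natCast (n + 1)
  have h3 : ((n : ℝ) + 1) ≤ 2 ^ (n + 1) := by
    exact_mod_cast (Nat.lt_two_pow_self (n := n + 1)).le
  have h4 : R ^ n ≤ R ^ (n + 1) := pow_le_pow_right₀ hR (by omega)
  rw [h2, mul_pow]
  have h5 : 0 ≤ R ^ n := by positivity
  calc (n + 1) * ‖a (n + 1)‖ * R ^ n = ‖a (n + 1)‖ * ((n + 1) * R ^ n) := by ring
    _ ≤ _ := mul_le_mul_of_nonneg_left (mul_le_mul h3 h4 h5 (by positivity)) (norm_nonneg _)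

lemma Good.bd (a : ℕ → ℂ) (R : ℝ) (n : ℕ) (w : ℂ) (hw : w ∈ ball (0 : ℂ) R) :
    ‖a n * w ^ n‖ ≤ ‖a n‖ * R ^ n := by
  rw [norm_mul, norm_pow]
  exact mul_le_mul_of_nonneg_left
    (pow_le_pow_left₀ (norm_nonneg _) (mem_ball_zero_iff.1 hw).le n) (norm_nonneg _)

lemma Good.summ {a : ℕ → ℂ} (h : Good a) (z : ℂ) : Summable fun n => a n * z ^ n :=
  Summable.of_norm_bounded (h (‖z‖ + 1) (by linarith [norm_nonneg z]))
    fun n => Good.bd a _ n z (by simp)

lemma Good.hasDeriv {a : ℕ → ℂ} (h : Good a) (z : ℂ) : HasDerivAt (S a) (S (D a) z) z := by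
  have hR := h (‖z‖ + 1) (by linarith [norm_nonneg z])
  have hz : z ∈ ball (0 : ℂ) (‖z‖ + 1) := by simp
  have hd : ∀ n, DifferentiableOn ℂ (fun w : ℂ => a n * w ^ n) (ball 0 (‖z‖ + 1)) :=
    fun n => by fun_prop
  have h1 := differentiableOn_tsum_of_summable_norm hR hd isOpen_ball (Good.bd a _)
  have h2 := hasSum_deriv_of_summable_norm hR hd isOpen_ball (Good.bd a _) hz
  have h3 := (h1.differentiableAt (isOpen_ball.mem_nhds hz)).hasDerivAt
  have h4 := (hasSum_nat_add_iff' 1).2 h2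
  have h5 : S (D a) z = deriv (fun w => ∑' n, a n * w ^ n) z := by
    unfold S
    refine HasSum.tsum_eq ?_
    convert! h4 using 1
    · funext n
      rw [((hasDerivAt_pow (n + 1) z).const_mul (a (n + 1))).deriv]
      simp [D]; ring
    · simp
  rw [h5]
  exact h3

noncomputable def co (p q : ℝ) : ℕ → ℝ
  | 0 => p
  | 1 => q
  | 2 => 0
  | n + 3 => 4 * co p q n / ((n + 2) * (n + 3))

lemma co_good (p q : ℝ) : Good fun n => (co p q n : ℂ) := by
  intro R hR
  obtain ⟨N, hN⟩ := exists_nat_ge (4 * (2 * R) ^ 3)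
  set b : ℕ → ℝ := fun n => |co p q n| * (2 * R) ^ n with hb
  have hb0 : ∀ n, 0 ≤ b n := fun n => by positivity
  have key : ∀ n, b n ≤ ∑ i ∈ Finset.range (N + 3), b i := by
    intro n
    induction n using Nat.strong_induction_on with
    | _ n ih =>
      by_cases hn : n < N + 3
      · exact Finset.single_le_sum (fun i _ => hb0 i) (Finset.mem_range.2 hn)
      · obtain ⟨m, rfl⟩ : ∃ m, n = m + 3 := ⟨n - 3, by omega⟩
        refine le_trans ?_ (ih m (by omega))
        have h1 : (N : ℝ) ≤ m := by exact_mod_cast (by omega : N ≤ m)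
        have h2 : (0 : ℝ) < (m + 2) * (m + 3) := by positivity
        have h3 : b (m + 3) = b m * (4 * (2 * R) ^ 3 / ((m + 2) * (m + 3))) := by
          simp only [hb, co]
          rw [abs_div, abs_mul, abs_of_pos h2, abs_of_pos (by norm_num : (0 : ℝ) < 4)]
          ring
        rw [h3]
        refine mul_le_of_le_one_right (hb0 m) ?_
        rw [div_le_one h2]
        have : (0 : ℝ) ≤ m := by positivity
        nlinarith
  refine Summable.of_nonneg_of_le (fun n => by positivity) (fun n => ?_)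
    (summable_geometric_two.mul_left (∑ i ∈ Finset.range (N + 3), b i))
  have h1 : ‖(co p q n : ℂ)‖ * R ^ n = b n * (1 / 2) ^ n := by
    simp only [hb, norm_real, Real.norm_eq_abs]
    rw [mul_assoc, ← mul_pow]
    congr 2
    ring
  rw [h1]
  exact mul_le_mul_of_nonneg_right (key n) (by positivity)

lemma ode (p q : ℝ) (z : ℂ) :
    S (D (D fun n => (co p q n : ℂ))) z = 4 * z * S (fun n => (co p q n : ℂ)) z := by
  unfold S
  rw [((co_good p q).d.d.summ z).tsum_eq_zero_add, ← tsum_mul_left]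
  have h0 : D (D fun n => (co p q n : ℂ)) 0 = 0 := by simp [D, co]
  rw [h0, zero_mul, zero_add]
  refine tsum_congr fun n => ?_
  have h1 : D (D fun n => (co p q n : ℂ)) (n + 1) = 4 * co p q n := by
    simp only [D]
    rw [show n + 1 + 1 + 1 = n + 3 from rfl, co]
    have h2 : (n : ℂ) + 2 ≠ 0 := by exact_mod_cast (by omega : n + 2 ≠ 0)
    have h3 : (n : ℂ) + 3 ≠ 0 := by exact_mod_cast (by omega : n + 3 ≠ 0)
    push_cast
    field_simp
    ring
  rw [h1]; ring

lemma S_zero (a : ℕ → ℂ) : S a 0 = a 0 := by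
  unfold S
  rw [tsum_eq_single 0] <;> simp +contextual

lemma airy (p q : ℝ) : ∃ w v : ℝ → ℝ, AnalyticOnNhd ℝ w univ ∧ AnalyticOnNhd ℝ v univ ∧
    w 0 = p ∧ v 0 = q ∧ (∀ y, HasDerivAt w (v y) y) ∧ ∀ y, HasDerivAt v (4 * y * w y) y := by
  have an : ∀ a, Good a → AnalyticOnNhd ℝ (fun y : ℝ => (S a y).re) univ := by
    intro a ha y _
    have h1 : AnalyticAt ℂ (S a) (y : ℂ) :=
      Differentiable.analyticAt (fun z => (ha.hasDeriv z).differentiableAt) _
    exact (reCLM.analyticAt _).comp (h1.restrictScalars.comp (ofRealCLM.analyticAt y))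
  have g := co_good p q
  refine ⟨_, _, an _ g, an _ g.d, by simp [S_zero, co], by simp [S_zero, co, D],
    fun y => (g.hasDeriv y).real_of_complex, fun y => ?_⟩
  have h1 := (g.d.hasDeriv y).real_of_complex
  rw [ode] at h1
  convert h1 using 1
  have : (4 : ℂ) * y = ((4 * y : ℝ) : ℂ) := by push_cast; ring
  rw [this, re_ofReal_mul]

theorem main : ∃ E : Polynomial ℝ, (∀ x, E.eval (-x) = E.eval x) ∧ 4 ≤ E.natDegree ∧
    ∃ H : ℝ × ℝ → ℝ, AnalyticOnNhd ℝ H univ ∧ (∃ p q, H p ≠ H q) ∧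
      ∀ x y : ℝ, (y - E.eval x) * deriv (fun t => H (t, y)) x -
        x * deriv (fun t => H (x, t)) y = 0 := by
  obtain ⟨w1, v1, a1, b1, c1, d1, e1, f1⟩ := airy 1 0
  obtain ⟨w2, v2, a2, b2, c2, d2, e2, f2⟩ := airy 0 1
  have hW : ∀ y, w1 y * v2 y - w2 y * v1 y = 1 := by
    intro y
    have h1 : ∀ y, HasDerivAt (fun y => w1 y * v2 y - w2 y * v1 y) 0 y := by
      intro y
      exact (((e1 y).mul (f2 y)).sub ((e2 y).mul (f1 y))).congr_deriv (by ring)
    have := is_const_of_deriv_eq_zero (fun y => (h1 y).differentiableAt) (fun y => (h1 y).deriv) y 0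
    rw [this, c1, d1, c2, d2]; norm_num
  set P : ℝ × ℝ → ℝ := fun p => v1 p.2 + 2 * p.1 ^ 2 * w1 p.2 with hP
  set Q : ℝ × ℝ → ℝ := fun p => v2 p.2 + 2 * p.1 ^ 2 * w2 p.2 with hQ
  have hne : ∀ p, P p ^ 2 + Q p ^ 2 ≠ 0 := by
    intro p h
    have h1 : P p = 0 := by nlinarith [sq_nonneg (P p), sq_nonneg (Q p)]
    have h2 : Q p = 0 := by nlinarith [sq_nonneg (P p), sq_nonneg (Q p)]
    have h3 : w1 p.2 * Q p - w2 p.2 * P p = 1 := by
      rw [← hW p.2]; simp only [hP, hQ]; ring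
    rw [h1, h2] at h3
    simp at h3
  refine ⟨Polynomial.X ^ 4, fun x => by simp; ring, by simp,
    fun p => P p ^ 2 / (P p ^ 2 + Q p ^ 2), ?_, ⟨(0, 0), (1, 0), ?_⟩, ?_⟩
  · intro p _
    have hs : ∀ g : ℝ → ℝ, AnalyticOnNhd ℝ g univ → AnalyticAt ℝ (fun p : ℝ × ℝ => g p.2) p :=
      fun g hg => (hg _ (mem_univ _)).comp analyticAt_snd
    have h1 : AnalyticAt ℝ P p :=
      (hs _ b1).add ((analyticAt_const.mul (analyticAt_fst.pow 2)).mul (hs _ a1))
    have h2 : AnalyticAt ℝ Q p :=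
      (hs _ b2).add ((analyticAt_const.mul (analyticAt_fst.pow 2)).mul (hs _ a2))
    exact (h1.pow 2).div ((h1.pow 2).add (h2.pow 2)) (hne p)
  · simp only [hP, hQ, c1, d1, c2, d2]; norm_num
  · intro x y
    have p1 : HasDerivAt (fun t => P (t, y)) (2 * (2 * x) * w1 y) x := by
      simpa [hP] using (((hasDerivAt_pow 2 x).const_mul 2).mul_const (w1 y)).const_add (v1 y)
    have q1 : HasDerivAt (fun t => Q (t, y)) (2 * (2 * x) * w2 y) x := by
      simpa [hQ] using (((hasDerivAt_pow 2 x).const_mul 2).mul_const (w2 y)).const_add (v2 y)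
    have p2 : HasDerivAt (fun t => P (x, t)) (4 * y * w1 y + 2 * x ^ 2 * v1 y) y :=
      (f1 y).add ((e1 y).const_mul (2 * x ^ 2))
    have q2 : HasDerivAt (fun t => Q (x, t)) (4 * y * w2 y + 2 * x ^ 2 * v2 y) y :=
      (f2 y).add ((e2 y).const_mul (2 * x ^ 2))
    have h1 := ((p1.pow 2).div ((p1.pow 2).add (q1.pow 2)) (hne (x, y))).deriv
    have h2 := ((p2.pow 2).div ((p2.pow 2).add (q2.pow 2)) (hne (x, y))).deriv
    have g1 : (fun t => P (t, y) ^ 2 / (P (t, y) ^ 2 + Q (t, y) ^ 2)) =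
      ((fun t => P (t, y)) ^ 2 / ((fun t => P (t, y)) ^ 2 + (fun t => Q (t, y)) ^ 2)) := rfl
    have g2 : (fun t => P (x, t) ^ 2 / (P (x, t) ^ 2 + Q (x, t) ^ 2)) =
      ((fun t => P (x, t)) ^ 2 / ((fun t => P (x, t)) ^ 2 + (fun t => Q (x, t)) ^ 2)) := rfl
    simp only []
    rw [g1, g2, h1, h2]
    simp only [Pi.pow_apply, Pi.add_apply, Polynomial.eval_pow, Polynomial.eval_X]
    have := hne (x, y)
    field_simp
    simp only [hP, hQ]
    push_cast
    ring

end H91.Lienard
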