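import Mathlib
set_option autoImplicit false

namespace H91.LocConv
open Set Metric Filter Topology

variable {X : Type*} [NormedAddCommGroup X] [NormedSpace ℝ X]

/-- modulus of convexity of power type 2 -/
def PT2 (X : Type*) [NormedAddCommGroup X] [NormedSpace ℝ X] : Prop :=
  ∃ L : ℝ, 0 < L ∧ ∀ t : ℝ, 0 ≤ t → t ≤ 2 → ∀ x y : X, ‖x‖ = 1 → ‖y‖ = 1 → t ≤ ‖x - y‖ →
    L * t ^ 2 ≤ 1 - ‖(1 / 2 : ℝ) • (x + y)‖

def Lip2 (U : Set X) (f : X → X) : Prop :=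
  ∃ M : ℝ, ∀ t : ℝ, 0 < t → ∀ x h : X, ‖h‖ ≤ t → segment ℝ (x - h) (x + h) ⊆ U →
    ‖f (x + h) - (2 : ℝ) • f x + f (x - h)‖ ≤ M * t ^ 2

def LipOpen (U : Set X) (f : X → X) : Prop :=
  ∃ c : ℝ, 0 < c ∧ ∀ x ∈ U, ∀ ε : ℝ, 0 < ε → ball x ε ⊆ U → ball (f x) (c * ε) ⊆ f '' ball x ε

def LocConvex (U : Set X) (f : X → X) : Prop :=
  ∃ c : ℝ, 0 < c ∧ ∀ ε : ℝ, 0 < ε → ε ≤ c → ∀ x ∈ U, ball x ε ⊆ U → Convex ℝ (f '' ball x ε)

def Admissible (X : Type*) [NormedAddCommGroup X] [NormedSpace ℝ X] : Prop :=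
  ∀ (U : Set X) (f : X → X), IsOpen U → LipOpen U f → Lip2 U f → LocConvex U f

lemma lemA (h : ¬ PT2 X) (L : ℝ) (hL : 0 < L) : ∃ x y : X, ‖x‖ < 1 ∧ ‖y‖ < 1 ∧
    1 - ‖(1 / 2 : ℝ) • (x + y)‖ < L * ‖x - y‖ ^ 2 := by
  unfold PT2 at h
  push Not at h
  obtain ⟨t, ht0, -, x, y, hx, hy, hxy, h⟩ := h L hL
  have h1 : 1 - ‖(1 / 2 : ℝ) • (x + y)‖ < L * ‖x - y‖ ^ 2 := h.trans_le (by gcongr)
  have hc1 : Continuous fun r : ℝ => 1 - ‖(1 / 2 : ℝ) • (r • x + r • y)‖ := by fun_prop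
  have hc2 : Continuous fun r : ℝ => L * ‖r • x - r • y‖ ^ 2 := by fun_prop
  have h2 : ∀ᶠ r : ℝ in 𝓝 1, 1 - ‖(1 / 2 : ℝ) • (r • x + r • y)‖ < L * ‖r • x - r • y‖ ^ 2 :=
    hc1.continuousAt.eventually_lt hc2.continuousAt (by simpa using h1)
  obtain ⟨r, hr, hr2⟩ := ((h2.filter_mono (nhdsWithin_le_nhds (s := Iio 1))).and
    (Ioo_mem_nhdsLT zero_lt_one)).exists
  refine ⟨r • x, r • y, ?_, ?_, hr⟩
  · rw [norm_smul, hx, Real.norm_eq_abs, abs_of_pos hr2.1, mul_one]; exact hr2.2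
  · rw [norm_smul, hy, Real.norm_eq_abs, abs_of_pos hr2.1, mul_one]; exact hr2.2

noncomputable def g (φ : X →L[ℝ] ℝ) (c v : X) (z : X) : X := z + (1 / 8 * φ (z - c) ^ 2) • v

lemma lemB (h : ¬ PT2 X) (p : X) (ε : ℝ) (hε : 0 < ε) (hε1 : ε ≤ 1) :
    ∃ (φ : X →L[ℝ] ℝ) (c v : X), ‖φ‖ ≤ 1 ∧ ‖v‖ = 1 ∧ ‖c - p‖ ≤ 1 ∧
      ¬ Convex ℝ (g φ c v '' ball p ε) := by
  obtain ⟨x, y, hx, hy, hm⟩ := lemA h (ε / 128) (by positivity)
  set m := (1 / 2 : ℝ) • (x + y) with hmdef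
  set s := ‖x - y‖ with hs
  have hs2 : s ≤ 2 := by linarith [norm_sub_le x y]
  have hs0 : 0 ≤ s := norm_nonneg _
  have hm1 : ‖m‖ < 1 := by
    rw [hmdef, norm_smul, Real.norm_eq_abs, abs_of_pos (by norm_num)]
    linarith [norm_add_le x y]
  have hss : s ^ 2 ≤ 4 := by nlinarith
  have hm0 : 0 < ‖m‖ := by nlinarith
  have hsp : 0 < s ^ 2 := by
    by_contra hn
    nlinarith
  obtain ⟨φ, hφ, hφ2⟩ := exists_dual_vector'' ℝ (x - y)
  have hφ3 : φ (x - y) = s := by simpa using hφ2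
  set v := ‖m‖⁻¹ • m with hv
  have hv1 : ‖v‖ = 1 := by rw [hv, norm_smul, norm_inv, norm_norm]; field_simp
  have hmv : m = ‖m‖ • v := by rw [hv, smul_smul, mul_inv_cancel₀ hm0.ne', one_smul]
  refine ⟨φ, p + ε • m, v, hφ, hv1, ?_, fun hc => ?_⟩
  · rw [add_sub_cancel_left, norm_smul, Real.norm_eq_abs, abs_of_pos hε]; nlinarith
  have ha : p + ε • x ∈ ball p ε := by
    rw [mem_ball, dist_eq_norm, add_sub_cancel_left, norm_smul, Real.norm_eq_abs, abs_of_pos hε]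
    nlinarith
  have hb : p + ε • y ∈ ball p ε := by
    rw [mem_ball, dist_eq_norm, add_sub_cancel_left, norm_smul, Real.norm_eq_abs, abs_of_pos hε]
    nlinarith
  obtain ⟨z, hz, hz2⟩ := hc (mem_image_of_mem _ ha) (mem_image_of_mem _ hb)
    (show (0:ℝ) ≤ 1 / 2 by norm_num) (show (0:ℝ) ≤ 1 / 2 by norm_num) (by norm_num)
  have e1 : φ (p + ε • x - (p + ε • m)) = ε * s / 2 := by
    rw [show p + ε • x - (p + ε • m) = (ε / 2) • (x - y) by rw [hmdef]; module, map_smul, hφ3,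
      smul_eq_mul]; ring
  have e2 : φ (p + ε • y - (p + ε • m)) = -(ε * s / 2) := by
    rw [show p + ε • y - (p + ε • m) = (-(ε / 2)) • (x - y) by rw [hmdef]; module, map_smul, hφ3,
      smul_eq_mul]; ring
  unfold g at hz2
  rw [e1, e2] at hz2
  set τ := ε ^ 2 * s ^ 2 / 32 - 1 / 8 * φ (z - (p + ε • m)) ^ 2 with hτ
  have e3 : z - (p + ε • m) = τ • v := by
    have : z = (1 / 2 : ℝ) • (p + ε • x + (1 / 8 * (ε * s / 2) ^ 2) • v) +
      (1 / 2 : ℝ) • (p + ε • y + (1 / 8 * (-(ε * s / 2)) ^ 2) • v) -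
        (1 / 8 * φ (z - (p + ε • m)) ^ 2) • v := by rw [← hz2]; abel
    rw [hτ]
    generalize φ (z - (p + ε • m)) = A at this ⊢
    rw [this, hmdef]; module
  have e4 : |ε * ‖m‖ + τ| < ε := by
    rw [mem_ball, dist_eq_norm] at hz
    have : z - p = (ε * ‖m‖ + τ) • v := by
      rw [add_smul, ← e3, mul_smul, ← hmv]; abel
    rwa [this, norm_smul, hv1, mul_one, Real.norm_eq_abs] at hz
  have e5 : φ (z - (p + ε • m)) ^ 2 ≤ τ ^ 2 := by
    rw [← sq_abs, ← sq_abs τ]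
    have : |φ (z - (p + ε • m))| ≤ |τ| := by
      calc |φ (z - (p + ε • m))| ≤ ‖φ‖ * ‖z - (p + ε • m)‖ := φ.le_opNorm _
        _ ≤ 1 * ‖z - (p + ε • m)‖ := by gcongr
        _ = |τ| := by rw [e3, norm_smul, hv1, Real.norm_eq_abs]; ring
    gcongr
  rw [abs_lt] at e4
  have e6 : ε ^ 2 * s ^ 2 / 32 ≤ τ + 1 / 8 * τ ^ 2 := by linarith
  have e7 : τ < ε ^ 2 * s ^ 2 / 128 := by nlinarith
  have e8 : -2 < τ := by nlinarith
  have e9 : 0 < ε ^ 2 * s ^ 2 := by positivity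
  have e10 : ε ^ 2 * s ^ 2 ≤ 4 := by nlinarith
  rcases le_total τ 0 with h0 | h0
  · nlinarith
  · nlinarith

lemma g_open [CompleteSpace X] (φ : X →L[ℝ] ℝ) (c v p : X) (hφ : ‖φ‖ ≤ 1) (hv : ‖v‖ = 1)
    (hc : ‖c - p‖ ≤ 1) (x : X) (ε : ℝ) (hx : ball x ε ⊆ ball p 1) :
    ball (g φ c v x) (1 / 2 * ε) ⊆ g φ c v '' ball x ε := by
  have hb : ∀ z ∈ ball p 1, |φ (z - c)| ≤ 2 := by
    intro z hz
    rw [mem_ball, dist_eq_norm] at hz
    calc |φ (z - c)| ≤ ‖φ‖ * ‖z - c‖ := φ.le_opNorm _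
      _ ≤ 1 * ‖z - c‖ := by gcongr
      _ ≤ 2 := by
        rw [show z - c = (z - p) - (c - p) by abel]
        linarith [norm_sub_le (z - p) (c - p)]
  have hA : ApproximatesLinearOn (g φ c v) (ContinuousLinearMap.id ℝ X) (ball p 1) (1 / 2) := by
    intro z hz w hw
    have e : g φ c v z - g φ c v w - ContinuousLinearMap.id ℝ X (z - w) =
        (1 / 8 * (φ (z - w) * (φ (z - c) + φ (w - c)))) • v := by
      have : φ (z - w) = φ (z - c) - φ (w - c) := by rw [← map_sub]; congr 1; abel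
      rw [this]; unfold g; simp only [ContinuousLinearMap.id_apply]; module
    rw [e, norm_smul, hv, mul_one, Real.norm_eq_abs, abs_mul, abs_mul, abs_of_pos (by norm_num)]
    have h1 : |φ (z - w)| ≤ ‖z - w‖ := by
      calc |φ (z - w)| ≤ ‖φ‖ * ‖z - w‖ := φ.le_opNorm _
        _ ≤ 1 * ‖z - w‖ := by gcongr
        _ = _ := one_mul _
    have h2 : |φ (z - c) + φ (w - c)| ≤ 4 := by
      linarith [abs_add_le (φ (z - c)) (φ (w - c)), hb z hz, hb w hw]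
    have h3 : |φ (z - w)| * |φ (z - c) + φ (w - c)| ≤ ‖z - w‖ * 4 := by gcongr
    push_cast
    linarith
  let R : (ContinuousLinearMap.id ℝ X).NonlinearRightInverse :=
    ⟨id, 1, fun y => by simp, fun y => rfl⟩
  intro y hy
  rw [mem_ball] at hy
  have h0 : 0 ≤ dist y (g φ c v x) := dist_nonneg
  have hsub : closedBall x (2 * dist y (g φ c v x)) ⊆ ball x ε := closedBall_subset_ball (by linarith)
  have := hA.surjOn_closedBall_of_nonlinearRightInverse R (b := x) (by positivity)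
    (hsub.trans hx)
  refine image_mono hsub (this ?_)
  rw [mem_closedBall]
  simp only [R]
  push_cast
  linarith

theorem main (X : Type*) [NormedAddCommGroup X] [NormedSpace ℝ X] [CompleteSpace X]
    (hA : Admissible X) : PT2 X := by
  by_contra h
  obtain ⟨-, -, e, -, he, -⟩ := lemB h 0 1 one_pos le_rfl
  let p : ℕ → X := fun k => (2 * (k:ℝ)) • e
  choose φ c v hφ hv hc hn using fun k : ℕ => lemB h (p k) (1 / ((k:ℝ) + 1)) (by positivity)
    (by rw [div_le_one (by positivity)]; linarith [(Nat.cast_nonneg k : (0:ℝ) ≤ k)])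
  have hdis : ∀ j k, j ≠ k → Disjoint (ball (p j) 1) (ball (p k) 1) := by
    intro j k hjk
    refine ball_disjoint_ball ?_
    rw [dist_eq_norm, ← sub_smul, norm_smul, he, mul_one, Real.norm_eq_abs, ← mul_sub, abs_mul,
      abs_two]
    have : (1:ℝ) ≤ |(j:ℝ) - k| := by
      have h1 : (1:ℤ) ≤ |(j:ℤ) - k| := Int.one_le_abs (by omega)
      exact_mod_cast h1
    linarith
  let U := ⋃ k, ball (p k) 1
  classical
  let κ : X → ℕ := fun z => if hz : ∃ k, z ∈ ball (p k) 1 then hz.choose else 0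
  have hκ : ∀ k, ∀ z ∈ ball (p k) 1, κ z = k := by
    intro k z hz
    have h1 : ∃ k, z ∈ ball (p k) 1 := ⟨k, hz⟩
    simp only [κ, dif_pos h1]
    by_contra hne
    exact disjoint_left.1 (hdis _ _ hne) h1.choose_spec hz
  let f : X → X := fun z => g (φ (κ z)) (c (κ z)) (v (κ z)) z
  have hf : ∀ k, ∀ z ∈ ball (p k) 1, f z = g (φ k) (c k) (v k) z := by
    intro k z hz; simp only [f, hκ k z hz]
  have hconn : ∀ S : Set X, IsPreconnected S → S ⊆ U → ∀ x ∈ S, ∃ k, S ⊆ ball (p k) 1 := by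
    intro S hS hSU x hx
    obtain ⟨k, hk⟩ := mem_iUnion.1 (hSU hx)
    refine ⟨k, hS.subset_left_of_subset_union (v := ⋃ j ∈ {j | j ≠ k}, ball (p j) 1) isOpen_ball
      (isOpen_biUnion fun _ _ => isOpen_ball) ?_ ?_ ⟨x, hx, hk⟩⟩
    · rw [disjoint_iUnion₂_right]
      exact fun j hj => hdis k j (Ne.symm hj)
    · intro z hz
      obtain ⟨j, hj⟩ := mem_iUnion.1 (hSU hz)
      by_cases hjk : j = k
      · left; rwa [← hjk]
      · right; exact mem_biUnion hjk hj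
  obtain ⟨δ, hδ, hconv⟩ := hA U f (isOpen_iUnion fun _ => isOpen_ball) ⟨1 / 2, by norm_num, by
    intro x _ ε hε hx
    obtain ⟨k, hk⟩ := hconn _ (convex_ball x ε).isPreconnected hx x (mem_ball_self hε)
    rw [hf k x (hk (mem_ball_self hε)), image_congr fun z hz => hf k z (hk hz)]
    exact g_open _ _ _ _ (hφ k) (hv k) (hc k) x ε hk⟩ ⟨1 / 4, by
    intro t ht x w hw hx
    obtain ⟨k, hk⟩ := hconn _ (convex_segment _ _).isPreconnected hx _ (left_mem_segment _ _ _)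
    have hmid : x ∈ segment ℝ (x - w) (x + w) := mem_segment_sub_add x w
    rw [hf k _ (hk hmid), hf k _ (hk (left_mem_segment _ _ _)),
      hf k _ (hk (right_mem_segment _ _ _))]
    have e : g (φ k) (c k) (v k) (x + w) - (2:ℝ) • g (φ k) (c k) (v k) x +
        g (φ k) (c k) (v k) (x - w) = (1 / 4 * φ k w ^ 2) • v k := by
      unfold g
      rw [show x + w - c k = (x - c k) + w by abel, show x - w - c k = (x - c k) - w by abel,
        map_add, map_sub (φ k) (x - c k) w]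
      module
    rw [e, norm_smul, hv, mul_one, Real.norm_eq_abs, abs_of_nonneg (by positivity), ← sq_abs]
    have h1 : |φ k w| ≤ t := by
      calc |φ k w| ≤ ‖φ k‖ * ‖w‖ := (φ k).le_opNorm _
        _ ≤ 1 * t := by gcongr; exact hφ k
        _ = _ := one_mul _
    gcongr⟩
  obtain ⟨k, hk⟩ := exists_nat_one_div_lt hδ
  have hsub : ball (p k) (1 / ((k:ℝ) + 1)) ⊆ ball (p k) 1 := ball_subset_ball
    (by rw [div_le_one (by positivity)]; linarith [(Nat.cast_nonneg k : (0:ℝ) ≤ k)])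
  have := hconv _ (by positivity) hk.le (p k) (mem_iUnion.2 ⟨k, mem_ball_self one_pos⟩)
    (hsub.trans (subset_iUnion (fun k => ball (p k) 1) k))
  rw [image_congr fun z hz => hf k z (hsub hz)] at this
  exact hn k this

end H91.LocConv
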