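import Mathlib

set_option autoImplicit false

namespace Pool.Agent.H91.ML

open Set Filter Topology

variable {ι : Type}

/-- weights that beat every geometric growth -/
def S (c : ι → ℝ) (e : ι → ℕ) : Prop := ∀ R : ℝ, 0 ≤ R → Summable fun i => |c i| * R ^ e i

lemma S.summable {c : ι → ℝ} {e : ι → ℕ} (h : S c e) (t : ℝ) : Summable fun i => c i * t ^ e i := by
  refine Summable.of_norm_bounded (h |t| (abs_nonneg t)) fun i => ?_
  rw [norm_mul, norm_pow]; rfl

lemma S.mono {c d : ι → ℝ} {e : ι → ℕ} (h : S c e) (hd : ∀ i, |d i| ≤ |c i|) : S d e :=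
  fun R hR => (h R hR).of_nonneg_of_le (fun i => by positivity) fun i => by
    have := hd i; gcongr

lemma S.der_bound {c : ι → ℝ} {e : ι → ℕ} (h : S c e) (R : ℝ) (hR : 0 ≤ R) :
    Summable fun i => |c i| * (e i * R ^ (e i - 1)) := by
  refine (h (2 * (R + 1)) (by positivity)).of_nonneg_of_le (fun i => by positivity) fun i => ?_
  refine mul_le_mul_of_nonneg_left ?_ (abs_nonneg _)
  rw [mul_pow]
  have h1 : (e i : ℝ) ≤ 2 ^ e i := by exact_mod_cast Nat.lt_two_pow_self.le
  have h2 : R ^ (e i - 1) ≤ (R + 1) ^ e i :=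
    (pow_le_pow_left₀ hR (by linarith) _).trans (pow_le_pow_right₀ (by linarith) (Nat.sub_le _ _))
  gcongr

lemma S.der {c : ι → ℝ} {e : ι → ℕ} (h : S c e) : S (fun i => c i * e i) fun i => e i - 1 :=
  fun R hR => (h.der_bound R hR).congr fun i => by
    rw [abs_mul, Nat.abs_cast]; ring

lemma S.hasDerivAt {c : ι → ℝ} {e : ι → ℕ} (h : S c e) (t : ℝ) :
    HasDerivAt (fun t : ℝ => ∑' i, c i * t ^ e i) (∑' i, c i * e i * t ^ (e i - 1)) t := by
  have hw : t ∈ Metric.ball (0 : ℝ) (|t| + 1) := by simp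
  have := hasDerivAt_tsum_of_isPreconnected (g := fun i z => c i * z ^ e i)
    (g' := fun i z => c i * ((e i : ℝ) * z ^ (e i - 1))) (h.der_bound (|t| + 1) (by positivity))
    Metric.isOpen_ball (convex_ball (0 : ℝ) _).isPreconnected
    (fun i y _ => (hasDerivAt_pow (e i) y).const_mul _) (fun i y hy => by
      have hy' : |y| ≤ |t| + 1 := by simpa using (le_of_lt (mem_ball_zero_iff.1 hy))
      rw [norm_mul, norm_mul, norm_pow, Real.norm_eq_abs, Real.norm_natCast, Real.norm_eq_abs]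
      gcongr) hw (h.summable t) hw
  refine this.congr_deriv (tsum_congr fun i => by ring)

lemma S.desc {c : ι → ℝ} {e : ι → ℕ} (h : S c e) (n : ℕ) :
    S (fun i => c i * (e i).descFactorial n) fun i => e i - n := by
  induction n with
  | zero => simpa using h
  | succ n ih =>
    have := ih.der
    convert this using 2 with i i
    · rw [Nat.descFactorial_succ]; push_cast; ring
    · omega

/-- the `n`-th termwise derivative -/
noncomputable def dn (c : ι → ℝ) (e : ι → ℕ) (n : ℕ) (t : ℝ) : ℝ :=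
  ∑' i, c i * (e i).descFactorial n * t ^ (e i - n)

lemma S.dn_deriv {c : ι → ℝ} {e : ι → ℕ} (h : S c e) (n : ℕ) (t : ℝ) :
    HasDerivAt (dn c e n) (dn c e (n + 1) t) t := by
  refine ((h.desc n).hasDerivAt t).congr_deriv (tsum_congr fun i => ?_)
  rw [Nat.descFactorial_succ, Nat.sub_sub]; push_cast; ring

lemma tower (F : ℕ → ℝ → ℝ) (h : ∀ n t, HasDerivAt (F n) (F (n + 1) t) t) (n : ℕ) :
    iteratedDeriv n (F 0) = F n := by
  induction n with
  | zero => simp
  | succ n ih => rw [iteratedDeriv_succ, ih]; funext t; exact (h n t).deriv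

lemma tower_smooth (F : ℕ → ℝ → ℝ) (h : ∀ n t, HasDerivAt (F n) (F (n + 1) t) t) :
    ContDiff ℝ (⊤ : ℕ∞) (F 0) := by
  refine contDiff_of_differentiable_iteratedDeriv fun m _ => ?_
  rw [tower F h]
  exact fun t => (h m t).differentiableAt

lemma gam_low (x : ℝ) (hx : 0 ≤ x) : ((⌊x⌋₊).factorial : ℝ) / 2 ≤ Real.Gamma (x + 1) := by
  have key : ∀ (m : ℕ) (μ : ℝ), 0 ≤ μ → μ ≤ 1 → (m.factorial : ℝ) / 2 ≤ Real.Gamma (m + μ + 1) := by
    intro m μ h0 h1
    induction m with
    | zero =>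
      have a1 : Real.Gamma (μ + 1 + 1) = (μ + 1) * Real.Gamma (μ + 1) :=
        Real.Gamma_add_one (by positivity)
      have a2 : Real.Gamma 2 ≤ Real.Gamma (μ + 1 + 1) :=
        Real.Gamma_strictMonoOn_Ici.monotoneOn (by simp) (by simp; linarith) (by linarith)
      rw [Real.Gamma_two] at a2
      have a3 := Real.Gamma_pos_of_pos (show 0 < μ + 1 by positivity)
      simp only [Nat.factorial_zero, Nat.cast_one, Nat.cast_zero, zero_add]
      nlinarith
    | succ m ih =>
      have h1 : (0 : ℝ) < m + μ + 1 := by positivity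
      have e : ((m + 1 : ℕ) : ℝ) + μ + 1 = (m + μ + 1) + 1 := by push_cast; ring
      rw [e, Real.Gamma_add_one h1.ne', Nat.factorial_succ]
      push_cast
      have : (0 : ℝ) < m.factorial := by positivity
      have : (0 : ℝ) ≤ m := by positivity
      nlinarith
  have := key ⌊x⌋₊ (x - ⌊x⌋₊) (by linarith [Nat.floor_le hx]) (by linarith [Nat.lt_floor_add_one x])
  rwa [add_sub_cancel] at this

lemma gam_low' (x T : ℝ) (hx : 0 ≤ x) (hT : 1 ≤ T) :
    T ^ x ≤ 2 * T * Real.exp T * Real.Gamma (x + 1) := by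
  have h1 := gam_low x hx
  have h2 := Real.pow_div_factorial_le_exp T (by linarith) ⌊x⌋₊
  rw [div_le_iff₀ (by positivity)] at h2
  have h3 : T ^ x ≤ T ^ ((⌊x⌋₊ + 1 : ℕ) : ℝ) :=
    Real.rpow_le_rpow_of_exponent_le hT (by push_cast; exact (Nat.lt_floor_add_one x).le)
  rw [Real.rpow_natCast, pow_succ] at h3
  have h4 : 0 < Real.exp T := Real.exp_pos T
  calc _ ≤ T ^ ⌊x⌋₊ * T := h3
    _ ≤ Real.exp T * (⌊x⌋₊).factorial * T := by gcongr
    _ = 2 * T * Real.exp T * (((⌊x⌋₊).factorial : ℝ) / 2) := by ring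
    _ ≤ _ := by gcongr

lemma S_gam (a b : ℝ) (ha : 0 < a) (hb : 1 ≤ b) :
    S (fun j : ℕ => 1 / Real.Gamma (a * j + b)) id := by
  intro R hR
  set T := (2 * (R + 1)) ^ (1 / a) with hT
  have hT1 : 1 ≤ T := Real.one_le_rpow (by linarith) (by positivity)
  refine (summable_geometric_two.mul_left (2 * T * Real.exp T)).of_nonneg_of_le
    (fun j => by positivity) fun j => ?_
  have h0 : 0 ≤ a * j + (b - 1) := by
    have : 0 ≤ b - 1 := by linarith
    positivity
  have h1 := gam_low' _ T h0 hT1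
  rw [show a * j + (b - 1) + 1 = a * j + b by ring] at h1
  have h2 : T ^ (a * j) ≤ T ^ (a * j + (b - 1)) :=
    Real.rpow_le_rpow_of_exponent_le hT1 (by linarith)
  have h3 : T ^ (a * j) = (2 * (R + 1)) ^ j := by
    rw [hT, ← Real.rpow_mul (by positivity), show 1 / a * (a * j) = j by field_simp,
      Real.rpow_natCast]
  have h4 : 0 < Real.Gamma (a * j + b) := Real.Gamma_pos_of_pos (by positivity)
  rw [abs_of_pos (by positivity), one_div_mul_eq_div, div_le_iff₀ h4]
  have h5 : R ^ j ≤ (R + 1) ^ j := pow_le_pow_left₀ hR (by linarith) j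
  have h6 : (1 / 2 : ℝ) ^ j * (2 * (R + 1)) ^ j = (R + 1) ^ j := by rw [← mul_pow]; congr 1; ring
  calc _ ≤ (1 / 2 : ℝ) ^ j * (2 * (R + 1)) ^ j := by rw [h6]; exact h5
    _ ≤ (1 / 2 : ℝ) ^ j * (2 * T * Real.exp T * Real.Gamma (a * j + b)) := by
        gcongr; rw [← h3]; exact h2.trans h1
    _ = _ := by ring

/-- positivity of a two-variable series on the open quadrant -/
def Pos (w : ι → ℝ) (e1 e2 : ι → ℕ) : Prop :=
  ∀ x y : ℝ, 0 < x → 0 < y → 0 ≤ ∑' i, w i * x ^ e1 i * y ^ e2 i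

lemma S.two {w : ι → ℝ} {e1 e2 : ι → ℕ} (h : S w fun i => e1 i + e2 i) (x y : ℝ) (hx : 0 ≤ x)
    (hy : 0 ≤ y) : Summable fun i => |w i| * x ^ e1 i * y ^ e2 i := by
  refine (h (x + y) (by positivity)).of_nonneg_of_le (fun i => by positivity) fun i => ?_
  rw [pow_add, mul_assoc]
  gcongr <;> linarith

lemma S.two' {w : ι → ℝ} {e1 e2 : ι → ℕ} (h : S w fun i => e1 i + e2 i) (x y : ℝ) (hx : 0 ≤ x)
    (hy : 0 ≤ y) : Summable fun i => w i * x ^ e1 i * y ^ e2 i := by
  refine Summable.of_norm_bounded (h.two x y hx hy) fun i => ?_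
  simp [abs_of_nonneg hx, abs_of_nonneg hy]

lemma Pos.swap {w : ι → ℝ} {e1 e2 : ι → ℕ} (h : Pos w e1 e2) : Pos w e2 e1 := fun x y hx hy => by
  have := h y x hy hx
  convert this using 3; ring

lemma Pos.div [Countable ι] {w : ι → ℝ} {e1 e2 : ι → ℕ} (h : Pos w e1 e2)
    (hs : S w fun i => e1 i + e2 i) (l : ℝ) (hl : 0 < l) :
    Pos (fun i => w i * (1 / (l * e1 i + 1))) e1 e2 := by
  intro x y hx hy
  have hI : ∀ i, ∫ u in Ioc (0 : ℝ) 1, u ^ (l * e1 i) = 1 / (l * e1 i + 1) := by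
    intro i
    have : 0 ≤ l * e1 i := by positivity
    rw [← intervalIntegral.integral_of_le zero_le_one, integral_rpow (Or.inl (by linarith)),
      Real.one_rpow, Real.zero_rpow (by positivity), sub_zero]
  have hint : ∀ i, MeasureTheory.IntegrableOn (fun u : ℝ => u ^ (l * e1 i)) (Ioc 0 1) := by
    intro i
    have : 0 ≤ l * e1 i := by positivity
    exact (intervalIntegral.intervalIntegrable_rpow (Or.inl this)).1
  have hs' := MeasureTheory.hasSum_integral_of_summable_integral_norm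
    (μ := MeasureTheory.volume.restrict (Ioc (0 : ℝ) 1))
    (F := fun i u => w i * x ^ e1 i * y ^ e2 i * u ^ (l * e1 i))
    (fun i => (hint i).const_mul _) (by
      refine (hs.two x y hx.le hy.le).of_nonneg_of_le
        (fun i => MeasureTheory.integral_nonneg fun u => norm_nonneg _) fun i => ?_
      have e : ∫ u in Ioc (0 : ℝ) 1, ‖w i * x ^ e1 i * y ^ e2 i * u ^ (l * e1 i)‖
          = ∫ u in Ioc (0 : ℝ) 1, |w i| * x ^ e1 i * y ^ e2 i * u ^ (l * e1 i) := by
        refine MeasureTheory.setIntegral_congr_fun measurableSet_Ioc fun u hu => ?_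
        simp only [norm_mul, norm_pow, Real.norm_eq_abs, abs_of_pos hx, abs_of_pos hy,
          abs_of_pos (Real.rpow_pos_of_pos hu.1 _)]
      rw [e, MeasureTheory.integral_const_mul, hI]
      have : 0 ≤ l * e1 i := by positivity
      have h1 : 1 / (l * e1 i + 1) ≤ 1 := by rw [div_le_one (by positivity)]; linarith
      exact mul_le_of_le_one_right (by positivity) h1)
  have e : ∀ i, w i * (1 / (l * e1 i + 1)) * x ^ e1 i * y ^ e2 i
      = ∫ u in Ioc (0 : ℝ) 1, w i * x ^ e1 i * y ^ e2 i * u ^ (l * e1 i) := by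
    intro i; rw [MeasureTheory.integral_const_mul, hI]; ring
  simp only [e]
  rw [hs'.tsum_eq]
  refine MeasureTheory.setIntegral_nonneg measurableSet_Ioc fun u hu => ?_
  have := h (x * u ^ l) y (mul_pos hx (Real.rpow_pos_of_pos hu.1 _)) hy
  refine this.trans_eq (tsum_congr fun i => ?_)
  rw [mul_pow, Real.rpow_mul hu.1.le, Real.rpow_natCast]; ring

/-- one factor of the Euler product -/
noncomputable def fac (β : ℝ) (q l : ℕ) : ℝ := (β * (l / 2) + 1 + q) / (l / 2 + 1 + q)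

lemma fac_mem (β : ℝ) (h0 : 0 ≤ β) (h1 : β ≤ 1) (q l : ℕ) : 0 ≤ fac β q l ∧ fac β q l ≤ 1 := by
  have : (0 : ℝ) ≤ l / 2 := by positivity
  refine ⟨by unfold fac; positivity, ?_⟩
  rw [fac, div_le_one (by positivity)]; nlinarith

lemma S.fac {w : ι → ℝ} {e e1 : ι → ℕ} (hs : S w e) (β : ℝ) (h0 : 0 ≤ β) (h1 : β ≤ 1) (q : ℕ) :
    S (fun i => w i * fac β q (e1 i)) e :=
  hs.mono fun i => by
    rw [abs_mul, abs_of_nonneg (fac_mem β h0 h1 q _).1]
    exact mul_le_of_le_one_right (abs_nonneg _) (fac_mem β h0 h1 q _).2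

lemma Pos.fac [Countable ι] {w : ι → ℝ} {e1 e2 : ι → ℕ} (h : Pos w e1 e2)
    (hs : S w fun i => e1 i + e2 i) (β : ℝ) (h0 : 0 ≤ β) (h1 : β ≤ 1) (q : ℕ) :
    Pos (fun i => w i * fac β q (e1 i)) e1 e2 := by
  intro x y hx hy
  have hl : (0 : ℝ) < 1 / (2 * (q + 1)) := by positivity
  have a1 := h x y hx hy
  have a2 := h.div hs _ hl x y hx hy
  have s1 := hs.two' x y hx.le hy.le
  have s2 := S.two' (w := fun i => w i * (1 / (1 / (2 * (q + 1)) * e1 i + 1))) (hs.mono fun i => by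
    have : 0 ≤ 1 / (2 * ((q : ℝ) + 1)) * e1 i := by positivity
    rw [abs_mul, abs_of_pos (a := 1 / _) (by positivity)]
    refine mul_le_of_le_one_right (abs_nonneg _) ?_
    rw [div_le_one (by positivity)]; linarith) x y hx.le hy.le
  have s3 := (s1.hasSum.mul_left β).add (s2.hasSum.mul_left (1 - β))
  have e : (fun i => w i * ML.fac β q (e1 i) * x ^ e1 i * y ^ e2 i) = fun i =>
      β * (w i * x ^ e1 i * y ^ e2 i)
        + (1 - β) * (w i * (1 / (1 / (2 * (q + 1)) * e1 i + 1)) * x ^ e1 i * y ^ e2 i) := by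
    funext i
    simp only [ML.fac]
    field_simp
    ring
  rw [e, s3.tsum_eq]
  have : 0 ≤ 1 - β := by linarith
  positivity

lemma Pos.prod [Countable ι] {w : ι → ℝ} {e1 e2 : ι → ℕ} (h : Pos w e1 e2)
    (hs : S w fun i => e1 i + e2 i) (β : ℝ) (h0 : 0 ≤ β) (h1 : β ≤ 1) (n : ℕ) :
    Pos (fun i => w i * (∏ q ∈ Finset.range n, ML.fac β q (e1 i))
      * ∏ q ∈ Finset.range n, ML.fac β q (e2 i)) e1 e2 ∧
    S (fun i => w i * (∏ q ∈ Finset.range n, ML.fac β q (e1 i))
      * ∏ q ∈ Finset.range n, ML.fac β q (e2 i)) fun i => e1 i + e2 i := by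
  induction n with
  | zero => simpa using ⟨h, hs⟩
  | succ n ih =>
    obtain ⟨p, s⟩ := ih
    have p1 := p.fac s β h0 h1 n
    have s1 := s.fac (e1 := e1) β h0 h1 n
    have p2 := (p1.swap.fac (by simpa only [add_comm] using s1) β h0 h1 n).swap
    have s2 := s1.fac (e1 := e2) β h0 h1 n
    constructor
    · convert p2 using 2; simp only [Finset.prod_range_succ]; ring
    · convert s2 using 2; simp only [Finset.prod_range_succ]; ring

end Pool.Agent.H91.ML
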