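import Pool.Agent.H91.ML1

set_option autoImplicit false

namespace Pool.Agent.H91.ML

open Set Filter Topology

variable {ι : Type}

noncomputable def aa (β : ℝ) (l : ℕ) : ℝ := Real.Gamma (l / 2 + 1) / Real.Gamma (β * (l / 2) + 1)

noncomputable def rr (β : ℝ) (n l : ℕ) : ℝ :=
  (∏ q ∈ Finset.range (n + 1), fac β q l) * ((n : ℝ) ^ ((1 - β) / 2)) ^ l

lemma rr_lim (β : ℝ) (h0 : 0 ≤ β) (l : ℕ) : Tendsto (fun n => rr β n l) atTop (𝓝 (aa β l)) := by
  have hp : 0 < Real.Gamma (β * (l / 2) + 1) := Real.Gamma_pos_of_pos (by positivity)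
  have := (Real.GammaSeq_tendsto_Gamma ((l : ℝ) / 2 + 1)).div
    (Real.GammaSeq_tendsto_Gamma (β * (l / 2) + 1)) hp.ne'
  refine this.congr' ?_
  filter_upwards [eventually_ge_atTop 1] with n hn
  have hn0 : (0 : ℝ) < n := by exact_mod_cast hn
  simp only [Pi.div_apply, Real.GammaSeq, rr, fac, Finset.prod_div_distrib]
  have p1 : 0 < ∏ j ∈ Finset.range (n + 1), ((l : ℝ) / 2 + 1 + j) :=
    Finset.prod_pos fun j _ => by positivity
  have p2 : 0 < ∏ j ∈ Finset.range (n + 1), (β * ((l : ℝ) / 2) + 1 + j) :=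
    Finset.prod_pos fun j _ => by positivity
  have e : (n : ℝ) ^ ((l : ℝ) / 2 + 1)
      = (n : ℝ) ^ (β * (l / 2) + 1) * ((n : ℝ) ^ ((1 - β) / 2)) ^ l := by
    rw [← Real.rpow_natCast, ← Real.rpow_mul hn0.le, ← Real.rpow_add hn0]
    congr 1; ring
  have p3 : 0 < (n : ℝ) ^ (β * (l / 2) + 1) := Real.rpow_pos_of_pos hn0 _
  have p4 : (0 : ℝ) < n.factorial := by positivity
  rw [e]
  field_simp

lemma rr_nonneg (β : ℝ) (h0 : 0 ≤ β) (h1 : β ≤ 1) (n l : ℕ) : 0 ≤ rr β n l :=
  mul_nonneg (Finset.prod_nonneg fun q _ => (fac_mem β h0 h1 q l).1) (by positivity)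

lemma rr_mono (β : ℝ) (h0 : 0 ≤ β) (h1 : β ≤ 1) (l n : ℕ) : rr β (n + 1) l ≤ rr β (n + 2) l := by
  have hx : 0 ≤ (1 - β) / 2 * l := by
    have : 0 ≤ 1 - β := by linarith
    positivity
  have hn : (0 : ℝ) < n + 1 := by positivity
  simp only [rr]
  rw [Finset.prod_range_succ _ (n + 2), mul_assoc]
  refine mul_le_mul_of_nonneg_left ?_ (Finset.prod_nonneg fun q _ => (fac_mem β h0 h1 q l).1)
  push_cast
  rw [← Real.rpow_natCast, ← Real.rpow_natCast, ← Real.rpow_mul hn.le,
    ← Real.rpow_mul (by positivity)]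
  set x := (1 - β) / 2 * l with hxd
  have e : ((n : ℝ) + 2) = (n + 1) * ((n + 2) / (n + 1)) := by field_simp
  have a1 : 1 / ((n : ℝ) + 2) ≤ Real.log ((n + 2) / (n + 1)) := by
    have := Real.one_sub_inv_le_log_of_pos (show 0 < ((n : ℝ) + 2) / (n + 1) by positivity)
    refine le_trans (le_of_eq ?_) this
    field_simp; ring
  have a2 : 1 + x / (n + 2) ≤ (((n : ℝ) + 2) / (n + 1)) ^ x := by
    rw [Real.rpow_def_of_pos (by positivity)]
    have := Real.add_one_le_exp (Real.log ((n + 2) / (n + 1)) * x)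
    have h := mul_le_mul_of_nonneg_right a1 hx
    rw [one_div_mul_eq_div] at h
    linarith
  have a3 : 1 ≤ fac β (n + 2) l * (1 + x / (n + 2)) := by
    simp only [fac]
    push_cast
    rw [div_mul_eq_mul_div, le_div_iff₀ (by positivity)]
    have b1 : x ≤ (β * (l / 2) + 1 + (n + 2)) * (x / (n + 2)) := by
      rw [← mul_div_assoc, le_div_iff₀ (by positivity)]
      have : 0 ≤ β * (l / 2) := by positivity
      nlinarith
    have b2 : x = l / 2 - β * (l / 2) := by rw [hxd]; ring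
    nlinarith
  have a4 : ((n : ℝ) + 2) ^ x = (n + 1) ^ x * ((n + 2) / (n + 1)) ^ x := by
    rw [← Real.mul_rpow hn.le (by positivity), ← e]
  have a5 := (fac_mem β h0 h1 (n + 2) l).1
  have a6 : 0 < ((n : ℝ) + 1) ^ x := Real.rpow_pos_of_pos hn _
  rw [a4]
  calc _ = ((n : ℝ) + 1) ^ x * 1 := by ring
    _ ≤ ((n : ℝ) + 1) ^ x * (fac β (n + 2) l * (((n : ℝ) + 2) / (n + 1)) ^ x) := by
        gcongr
        exact a3.trans (by gcongr)
    _ = _ := by ring

lemma rr_le (β : ℝ) (h0 : 0 ≤ β) (h1 : β ≤ 1) (l n : ℕ) : rr β (n + 1) l ≤ aa β l := by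
  have hm : Monotone fun n => rr β (n + 1) l := monotone_nat_of_le_succ fun n => rr_mono β h0 h1 l n
  exact hm.ge_of_tendsto ((rr_lim β h0 l).comp (tendsto_add_atTop_nat 1)) n

lemma final_pos [Countable ι] {w : ι → ℝ} {e1 e2 : ι → ℕ} (h : Pos w e1 e2)
    (hs : S w fun i => e1 i + e2 i) (β : ℝ) (h0 : 0 ≤ β) (h1 : β ≤ 1)
    (hb : Summable fun i => |w i * aa β (e1 i) * aa β (e2 i)|) :
    0 ≤ ∑' i, w i * aa β (e1 i) * aa β (e2 i) := by
  have T := tendsto_tsum_of_dominated_convergence (𝓕 := atTop)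
    (f := fun (n : ℕ) i => w i * rr β (n + 1) (e1 i) * rr β (n + 1) (e2 i))
    (g := fun i => w i * aa β (e1 i) * aa β (e2 i)) hb
    (fun i => (((rr_lim β h0 _).comp (tendsto_add_atTop_nat 1)).const_mul _).mul
      ((rr_lim β h0 _).comp (tendsto_add_atTop_nat 1)))
    (Eventually.of_forall fun n i => by
      have a1 := rr_nonneg β h0 h1 (n + 1) (e1 i)
      have a2 := rr_nonneg β h0 h1 (n + 1) (e2 i)
      have a3 := rr_le β h0 h1 (e1 i) n
      have a4 := rr_le β h0 h1 (e2 i) n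
      simp only [Real.norm_eq_abs, abs_mul, abs_of_nonneg a1, abs_of_nonneg a2,
        abs_of_nonneg (a1.trans a3), abs_of_nonneg (a2.trans a4)]
      gcongr
      exact mul_nonneg (abs_nonneg _) (a1.trans a3))
  refine ge_of_tendsto' T fun n => ?_
  have hc : 0 < ((n + 1 : ℕ) : ℝ) ^ ((1 - β) / 2) := Real.rpow_pos_of_pos (by positivity) _
  refine ((h.prod hs β h0 h1 (n + 1 + 1)).1 _ _ hc hc).trans_eq (tsum_congr fun i => ?_)
  simp only [rr]; ring

abbrev I3 := Bool × ℕ × ℕ

def e1 (i : I3) : ℕ := 2 * i.2.1 + i.1.toNat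
def e2 (i : I3) : ℕ := 2 * i.2.2 + i.1.toNat
def mm (i : I3) : ℕ := i.2.1 + i.2.2 + i.1.toNat

noncomputable def cc (G H : ℕ → ℝ) (i : I3) : ℝ :=
  (-1) ^ (i.2.1 + i.2.2) * G (e1 i) * H (e2 i)

lemma S.scale {G : ℕ → ℝ} (h : S G id) (x : ℝ) : S (fun l => G l * x ^ l) id := fun R hR =>
  (h (|x| * R) (by positivity)).congr fun l => by
    simp only [id, abs_mul, abs_pow, mul_pow]; ring

lemma S_cc {G H : ℕ → ℝ} (hG : S G id) (hH : S H id) : S (cc G H) mm := by
  intro R hR
  have s := (hG (R + 1) (by positivity)).mul_of_nonneg (hH (R + 1) (by positivity))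
    (fun l => by positivity) (fun l => by positivity)
  have inj : Function.Injective fun i : I3 => (e1 i, e2 i) := by
    rintro ⟨b, j, k⟩ ⟨b', j', k'⟩ h
    simp only [e1, e2, Prod.mk.injEq] at h
    cases b <;> cases b' <;> simp at h ⊢ <;> omega
  refine (s.comp_injective inj).of_nonneg_of_le (fun i => by positivity) fun i => ?_
  simp only [Function.comp, id, cc, abs_mul, abs_pow, abs_neg, abs_one, one_pow, one_mul]
  have : R ^ mm i ≤ (R + 1) ^ e1 i * (R + 1) ^ e2 i := by
    rw [← pow_add]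
    exact (pow_le_pow_left₀ hR (by linarith) _).trans
      (pow_le_pow_right₀ (by linarith) (by simp only [mm, e1, e2]; omega))
  calc _ ≤ |G (e1 i)| * |H (e2 i)| * ((R + 1) ^ e1 i * (R + 1) ^ e2 i) := by gcongr
    _ = _ := by ring

lemma sub_sum {G : ℕ → ℝ} (hG : S G id) (b : ℕ) (t : ℝ) :
    Summable fun j : ℕ => ‖G (2 * j + b) * (-t) ^ j‖ := by
  have inj : Function.Injective fun j : ℕ => 2 * j + b := fun a a' h => by
    simp only at h; omega
  refine ((hG (|t| + 1) (by positivity)).comp_injective inj).of_nonneg_of_le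
    (fun j => norm_nonneg _) fun j => ?_
  simp only [Function.comp, id, norm_mul, norm_pow, norm_neg, Real.norm_eq_abs]
  refine mul_le_mul_of_nonneg_left ?_ (abs_nonneg _)
  have := abs_nonneg t
  exact (pow_le_pow_left₀ this (by linarith) _).trans (pow_le_pow_right₀ (by linarith) (by omega))

lemma split {G H : ℕ → ℝ} (hG : S G id) (hH : S H id) (t : ℝ) :
    dn (cc G H) mm 0 t = (∑' j, G (2 * j) * (-t) ^ j) * (∑' j, H (2 * j) * (-t) ^ j)
      + t * ((∑' j, G (2 * j + 1) * (-t) ^ j) * ∑' j, H (2 * j + 1) * (-t) ^ j) := by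
  have s := (S_cc hG hH).summable t
  have a0 := tsum_mul_tsum_of_summable_norm (sub_sum hG 0 t) (sub_sum hH 0 t)
  have a1 := tsum_mul_tsum_of_summable_norm (sub_sum hG 1 t) (sub_sum hH 1 t)
  simp only [add_zero] at a0
  rw [a0, a1, ← tsum_mul_left]
  simp only [dn, Nat.descFactorial_zero, Nat.cast_one, mul_one, Nat.sub_zero]
  rw [s.tsum_prod, tsum_bool]
  congr 1
  · refine tsum_congr fun p => ?_
    simp only [cc, e1, e2, mm, Bool.toNat_false, add_zero]
    rw [neg_pow t, neg_pow t]; ring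
  · refine tsum_congr fun p => ?_
    simp only [cc, e1, e2, mm, Bool.toNat_true]
    rw [neg_pow t, neg_pow t]; ring

/-- weight of the tested combination of derivatives -/
noncomputable def DD (n : ℕ) (l u t : ℝ) (m : ℕ) : ℝ :=
  (-1) ^ n * (l ^ 2 * (m.descFactorial n * t ^ (m - n))
    + 2 * l * u * (m.descFactorial (n + 1) * t ^ (m - (n + 1)))
    + u ^ 2 * (m.descFactorial (n + 2) * t ^ (m - (n + 2))))

lemma comb {c : ι → ℝ} {e : ι → ℕ} (h : S c e) (n : ℕ) (l u t : ℝ) :
    HasSum (fun i => c i * DD n l u t (e i))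
      ((-1) ^ n * (l ^ 2 * dn c e n t + 2 * l * u * dn c e (n + 1) t + u ^ 2 * dn c e (n + 2) t)) := by
  have s0 := ((h.desc n).summable t).hasSum.mul_left (l ^ 2)
  have s1 := ((h.desc (n + 1)).summable t).hasSum.mul_left (2 * l * u)
  have s2 := ((h.desc (n + 2)).summable t).hasSum.mul_left (u ^ 2)
  have s := ((s0.add s1).add s2).mul_left ((-1) ^ n)
  have e' : (fun i => c i * DD n l u t (e i)) = fun i => (-1) ^ n *
      (l ^ 2 * (c i * (e i).descFactorial n * t ^ (e i - n))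
      + 2 * l * u * (c i * (e i).descFactorial (n + 1) * t ^ (e i - (n + 1)))
      + u ^ 2 * (c i * (e i).descFactorial (n + 2) * t ^ (e i - (n + 2)))) := by
    funext i; simp only [DD]; ring
  rw [e']; exact s

/-- parametric integrals -/
noncomputable def PI (K s : ℝ → ℝ) (n : ℕ) (t : ℝ) : ℝ :=
  ∫ v in (0 : ℝ)..1, K v * s v ^ n * Real.exp (-(t * s v))

lemma PI_deriv (K s : ℝ → ℝ) (hK : Continuous K) (hs : Continuous s) (n : ℕ) (t : ℝ) :
    HasDerivAt (PI K s n) (-PI K s (n + 1) t) t := by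
  have := (intervalIntegral.hasDerivAt_integral_of_dominated_loc_of_deriv_le
    (μ := MeasureTheory.volume) (a := 0) (b := 1)
    (F := fun t v => K v * s v ^ n * Real.exp (-(t * s v)))
    (F' := fun t v => -(K v * s v ^ (n + 1) * Real.exp (-(t * s v))))
    (bound := fun v => |K v| * |s v| ^ (n + 1) * Real.exp ((|t| + 1) * |s v|))
    (x₀ := t) (s := Metric.ball t 1) (Metric.ball_mem_nhds t one_pos)
    (Eventually.of_forall fun x => (by fun_prop : Continuous _).aestronglyMeasurable)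
    ((by fun_prop : Continuous _).intervalIntegrable _ _)
    ((by fun_prop : Continuous _).aestronglyMeasurable)
    (Eventually.of_forall fun v _ x hx => by
      rw [norm_neg, norm_mul, norm_mul, norm_pow, Real.norm_eq_abs, Real.norm_eq_abs,
        Real.norm_eq_abs, abs_of_pos (Real.exp_pos _)]
      gcongr
      have h1 : |x - t| < 1 := by simpa [Real.dist_eq] using hx
      have h2 : |x| ≤ |t| + 1 := by
        have := abs_sub_abs_le_abs_sub x t
        linarith
      calc _ ≤ |x * s v| := neg_le_abs _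
        _ ≤ _ := by rw [abs_mul]; gcongr)
    ((by fun_prop : Continuous _).intervalIntegrable _ _)
    (Eventually.of_forall fun v _ x _ => by
      have := (((hasDerivAt_id x).mul_const (s v)).neg.exp).const_mul (K v * s v ^ n)
      refine this.congr_deriv ?_
      simp only [id, Pi.neg_apply]; ring)).2
  refine this.congr_deriv ?_
  rw [intervalIntegral.integral_neg]; rfl

lemma PI_pos (K s : ℝ → ℝ) (hK : Continuous K) (hs : Continuous s)
    (h1 : ∀ v ∈ Icc (0 : ℝ) 1, 0 ≤ K v) (h2 : ∀ v ∈ Icc (0 : ℝ) 1, 0 ≤ s v) (n : ℕ) (l u t : ℝ) :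
    0 ≤ l ^ 2 * PI K s n t - 2 * l * u * PI K s (n + 1) t + u ^ 2 * PI K s (n + 2) t := by
  simp only [PI]
  rw [← intervalIntegral.integral_const_mul, ← intervalIntegral.integral_const_mul,
    ← intervalIntegral.integral_const_mul, ← intervalIntegral.integral_sub,
    ← intervalIntegral.integral_add]
  · refine intervalIntegral.integral_nonneg zero_le_one fun v hv => ?_
    have a1 := h1 v hv
    have a2 := h2 v hv
    have : 0 ≤ K v * s v ^ n * Real.exp (-(t * s v)) * (l - u * s v) ^ 2 := by positivity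
    refine this.trans_eq (by ring)
  all_goals exact (by fun_prop : Continuous _).intervalIntegrable _ _

end Pool.Agent.H91.ML
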