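import Pool.Agent.H91.ML2

set_option autoImplicit false

namespace Pool.Agent.H91.ML

open Set Filter Topology

noncomputable def g (l : ℕ) : ℝ := 1 / Real.Gamma (1 / 2 * l + 1)

lemma S_g : S g id := S_gam (1 / 2) 1 (by norm_num) le_rfl

lemma U_eq (s : ℝ) : ∑' j : ℕ, g (2 * j) * (-s) ^ j = Real.exp (-s) := by
  rw [Real.exp_eq_exp_ℝ, NormedSpace.exp_eq_tsum_div]
  refine tsum_congr fun j => ?_
  simp only [g]
  rw [show (1 / 2 : ℝ) * ((2 * j : ℕ) : ℝ) + 1 = j + 1 by push_cast; ring,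
    Real.Gamma_nat_eq_factorial]
  ring

noncomputable def cv (j : ℕ) : ℝ := (-1) ^ j * (1 / Real.Gamma (1 * j + 3 / 2))

lemma S_cv : S cv id := (S_gam 1 (3 / 2) one_pos (by norm_num)).mono fun j => by
  simp [cv, abs_mul]

noncomputable def V (s : ℝ) : ℝ := ∑' j : ℕ, cv j * s ^ j
noncomputable def V' (s : ℝ) : ℝ := ∑' j : ℕ, cv j * j * s ^ (j - 1)

lemma V_eq (s : ℝ) : ∑' j : ℕ, g (2 * j + 1) * (-s) ^ j = V s := by
  refine tsum_congr fun j => ?_
  simp only [g, cv]
  rw [show (1 / 2 : ℝ) * ((2 * j + 1 : ℕ) : ℝ) + 1 = 1 * j + 3 / 2 by push_cast; ring, neg_pow s]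
  ring

lemma V_deriv (s : ℝ) : HasDerivAt V (V' s) s := S_cv.hasDerivAt s

lemma V_ode (s : ℝ) : s * V' s + (s + 1 / 2) * V s = 1 / √Real.pi := by
  have s0 : HasSum (fun j : ℕ => cv j * s ^ j) (V s) := (S_cv.summable s).hasSum
  have s1 : HasSum (fun j : ℕ => cv j * j * s ^ (j - 1)) (V' s) := (S_cv.der.summable s).hasSum
  have s2 := (s1.mul_left s).add (s0.mul_left (1 / 2))
  have s3 := (s0.mul_left s).neg
  have s4 := (hasSum_nat_add_iff' 1).2 s2
  have e : (fun n : ℕ => s * (cv (n + 1) * ((n + 1 : ℕ) : ℝ) * s ^ (n + 1 - 1))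
      + 1 / 2 * (cv (n + 1) * s ^ (n + 1))) = fun n : ℕ => -(s * (cv n * s ^ n)) := by
    funext n
    have h1 : (0 : ℝ) < 1 * n + 3 / 2 := by positivity
    have h2 := Real.Gamma_pos_of_pos h1
    simp only [cv, Nat.add_sub_cancel]
    rw [show (1 : ℝ) * ((n + 1 : ℕ) : ℝ) + 3 / 2 = (1 * n + 3 / 2) + 1 by push_cast; ring,
      Real.Gamma_add_one h1.ne']
    push_cast
    field_simp
    ring
  rw [e] at s4
  have h := s4.unique s3
  have h0 : cv 0 = 2 / √Real.pi := by
    simp only [cv, pow_zero, Nat.cast_zero, mul_zero, zero_add, one_mul]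
    rw [show (3 / 2 : ℝ) = 1 / 2 + 1 by norm_num, Real.Gamma_add_one (by norm_num),
      Real.Gamma_one_half_eq]
    field_simp
  simp only [Finset.range_one, Finset.sum_singleton, Nat.cast_zero, mul_zero, zero_mul, pow_zero,
    mul_one, zero_add, h0] at h
  linear_combination h

noncomputable def W (n : ℕ) (s : ℝ) : ℝ := PI (fun _ => 2 / √Real.pi) (fun v => 1 - v ^ 2) n s

lemma W_ode (s : ℝ) : s * -W 1 s + (s + 1 / 2) * W 0 s = 1 / √Real.pi := by
  simp only [W, PI]
  rw [mul_neg, ← intervalIntegral.integral_const_mul, ← intervalIntegral.integral_const_mul,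
    ← intervalIntegral.integral_neg, ← intervalIntegral.integral_add
      ((by fun_prop : Continuous _).intervalIntegrable _ _)
      ((by fun_prop : Continuous _).intervalIntegrable _ _),
    intervalIntegral.integral_eq_sub_of_hasDerivAt
      (f := fun v => 1 / √Real.pi * (v * Real.exp (-(s * (1 - v ^ 2)))))]
  · simp
  · intro v _
    have := ((hasDerivAt_id v).mul
      ((((hasDerivAt_pow 2 v).const_sub 1).const_mul s).neg.exp)).const_mul (1 / √Real.pi)
    refine this.congr_deriv ?_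
    simp only [id, Pi.neg_apply]
    norm_num
    ring
  · exact (by fun_prop : Continuous _).intervalIntegrable _ _

lemma V_W (s : ℝ) : V s = W 0 s := by
  have key : ∀ ε r : ℝ, r * Real.exp (ε * r ^ 2) * (V (ε * r ^ 2) - W 0 (ε * r ^ 2)) = 0 := by
    intro ε r
    have hd : ∀ r : ℝ, HasDerivAt
        (fun r => r * Real.exp (ε * r ^ 2) * (V (ε * r ^ 2) - W 0 (ε * r ^ 2))) 0 r := by
      intro r
      have h0 : HasDerivAt (fun r : ℝ => ε * r ^ 2) (ε * (2 * r)) r := by
        simpa using (hasDerivAt_pow 2 r).const_mul ε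
      have h1 := (V_deriv (ε * r ^ 2)).comp r h0
      have h2 := (PI_deriv (fun _ => 2 / √Real.pi) (fun v => 1 - v ^ 2) (by fun_prop) (by fun_prop)
        0 (ε * r ^ 2)).comp r h0
      have := ((hasDerivAt_id r).mul h0.exp).mul (h1.sub h2)
      refine this.congr_deriv ?_
      have a1 := V_ode (ε * r ^ 2)
      have a2 := W_ode (ε * r ^ 2)
      simp only [W, id, Pi.mul_apply, Pi.sub_apply, Function.comp, zero_add] at a2 ⊢
      linear_combination (2 * Real.exp (ε * r ^ 2)) * (a1 - a2)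
    have := is_const_of_deriv_eq_zero (fun r => (hd r).differentiableAt) (fun r => (hd r).deriv) r 0
    simpa using this
  by_cases hs : s = 0
  · have a1 := V_ode 0
    have a2 := W_ode 0
    rw [hs]; linarith
  · have := key s 1
    simp only [one_pow, mul_one, one_mul, mul_eq_zero, (Real.exp_pos s).ne', false_or] at this
    linarith

noncomputable def KK (x y v : ℝ) : ℝ := 2 / Real.pi * (x * y / (x ^ 2 + y ^ 2 * v ^ 2))
noncomputable def ss (y v : ℝ) : ℝ := y ^ 2 * (1 - v ^ 2)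

lemma KK_cont (x y : ℝ) (hx : 0 < x) : Continuous (KK x y) := by
  unfold KK
  exact continuous_const.mul (continuous_const.div (by fun_prop) fun v => by positivity)

lemma ss_cont (y : ℝ) : Continuous (ss y) := by unfold ss; fun_prop

lemma J_ode (x y : ℝ) (hx : 0 < x) (t : ℝ) :
    -PI (KK x y) (ss y) 1 t + (x ^ 2 + y ^ 2) * PI (KK x y) (ss y) 0 t
      = x * y / √Real.pi * V (y ^ 2 * t) := by
  have := KK_cont x y hx
  have := ss_cont y
  rw [V_W]
  simp only [W, PI]
  rw [← intervalIntegral.integral_const_mul, ← intervalIntegral.integral_const_mul,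
    ← intervalIntegral.integral_neg, ← intervalIntegral.integral_add
      ((by fun_prop : Continuous _).intervalIntegrable _ _)
      ((by fun_prop : Continuous _).intervalIntegrable _ _)]
  refine intervalIntegral.integral_congr fun v _ => ?_
  have h1 : √Real.pi * √Real.pi = Real.pi := Real.mul_self_sqrt Real.pi_pos.le
  have h2 : 0 < √Real.pi := Real.sqrt_pos.2 Real.pi_pos
  simp only [KK, ss]
  rw [show y ^ 2 * t * (1 - v ^ 2) = t * (y ^ 2 * (1 - v ^ 2)) by ring]
  generalize √Real.pi = p at h1 h2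
  rw [← h1]
  field_simp
  ring

lemma J_zero (x y : ℝ) (hx : 0 < x) :
    PI (KK x y) (ss y) 0 0 = 2 / Real.pi * Real.arctan (y / x) := by
  have := KK_cont x y hx
  simp only [PI, pow_zero, mul_one, zero_mul, neg_zero, Real.exp_zero]
  rw [intervalIntegral.integral_eq_sub_of_hasDerivAt
      (f := fun v => 2 / Real.pi * Real.arctan (y / x * v))]
  · simp
  · intro v _
    have := (((hasDerivAt_id v).const_mul (y / x)).arctan).const_mul (2 / Real.pi)
    refine this.congr_deriv ?_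
    simp only [id, KK]
    field_simp
  · exact this.intervalIntegrable _ _

lemma B_eq (x y t : ℝ) : dn (cc (fun l => g l * x ^ l) fun l => g l * y ^ l) mm 0 t
    = Real.exp (-((x ^ 2 + y ^ 2) * t)) + x * y * (t * (V (x ^ 2 * t) * V (y ^ 2 * t))) := by
  rw [split (S_g.scale x) (S_g.scale y)]
  have a : ∀ z : ℝ, ∑' j : ℕ, g (2 * j) * z ^ (2 * j) * (-t) ^ j = Real.exp (-(z ^ 2 * t)) := by
    intro z
    rw [← U_eq]
    refine tsum_congr fun j => ?_
    rw [pow_mul, mul_assoc, ← mul_pow, mul_neg]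
  have b : ∀ z : ℝ, ∑' j : ℕ, g (2 * j + 1) * z ^ (2 * j + 1) * (-t) ^ j = z * V (z ^ 2 * t) := by
    intro z
    rw [← V_eq, ← tsum_mul_left]
    refine tsum_congr fun j => ?_
    rw [pow_succ, pow_mul, ← mul_neg, mul_pow]; ring
  rw [a, a, b, b, ← Real.exp_add]
  congr 1
  · congr 1; ring
  · ring

lemma B_J (x y : ℝ) (hx : 0 < x) (hy : 0 < y) (t : ℝ) :
    dn (cc (fun l => g l * x ^ l) fun l => g l * y ^ l) mm 0 t
      = PI (KK x y) (ss y) 0 t + PI (KK y x) (ss x) 0 t := by
  rw [B_eq]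
  have hd : ∀ t : ℝ, HasDerivAt (fun t => Real.exp ((x ^ 2 + y ^ 2) * t) *
      (Real.exp (-((x ^ 2 + y ^ 2) * t)) + x * y * (t * (V (x ^ 2 * t) * V (y ^ 2 * t)))
        - (PI (KK x y) (ss y) 0 t + PI (KK y x) (ss x) 0 t))) 0 t := by
    intro t
    have l : ∀ c : ℝ, HasDerivAt (fun t : ℝ => c * t) c t := fun c => by
      simpa using (hasDerivAt_id t).const_mul c
    have h1 := (V_deriv (x ^ 2 * t)).comp t (l _)
    have h2 := (V_deriv (y ^ 2 * t)).comp t (l _)
    have h3 := PI_deriv _ _ (KK_cont x y hx) (ss_cont y) 0 t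
    have h4 := PI_deriv _ _ (KK_cont y x hy) (ss_cont x) 0 t
    have := (l (x ^ 2 + y ^ 2)).exp.mul (((l (x ^ 2 + y ^ 2)).neg.exp.add
      (((hasDerivAt_id t).mul (h1.mul h2)).const_mul (x * y))).sub (h3.add h4))
    refine this.congr_deriv ?_
    have a1 := V_ode (x ^ 2 * t)
    have a2 := V_ode (y ^ 2 * t)
    have a3 := J_ode x y hx t
    have a4 := J_ode y x hy t
    simp only [id, Pi.mul_apply, Pi.sub_apply, Pi.add_apply, Pi.neg_apply, Function.comp,
      zero_add]
    linear_combination Real.exp ((x ^ 2 + y ^ 2) * t) * (x * y * V (y ^ 2 * t) * a1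
      + x * y * V (x ^ 2 * t) * a2 - a3 - a4)
  have := is_const_of_deriv_eq_zero (fun r => (hd r).differentiableAt) (fun r => (hd r).deriv) t 0
  rw [J_zero x y hx, J_zero y x hy] at this
  have h5 := Real.arctan_inv_of_pos (div_pos hy hx)
  rw [inv_div] at h5
  have h6 : 2 / Real.pi * Real.arctan (y / x) + 2 / Real.pi * Real.arctan (x / y) = 1 := by
    rw [h5]; have := Real.pi_pos; field_simp; ring
  rw [h6] at this
  simp only [mul_zero, neg_zero, Real.exp_zero, zero_mul, add_zero, sub_self, mul_eq_zero,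
    (Real.exp_pos _).ne', false_or] at this
  linarith

lemma base (n : ℕ) (l u t : ℝ) : Pos (fun i => cc g g i * DD n l u t (mm i)) e1 e2 := by
  intro x y hx hy
  have hS := S_cc (S_g.scale x) (S_g.scale y)
  have h := comb hS n l u t
  have e : (fun i => cc g g i * DD n l u t (mm i) * x ^ e1 i * y ^ e2 i)
      = fun i => cc (fun l => g l * x ^ l) (fun l => g l * y ^ l) i * DD n l u t (mm i) := by
    funext i; simp only [cc]; ring
  rw [e, h.tsum_eq]
  set F : ℕ → ℝ → ℝ := fun n t => (-1) ^ n * (PI (KK x y) (ss y) n t + PI (KK y x) (ss x) n t)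
    with hF
  have hF' : ∀ n t, HasDerivAt (F n) (F (n + 1) t) t := by
    intro n t
    have := ((PI_deriv _ _ (KK_cont x y hx) (ss_cont y) n t).add
      (PI_deriv _ _ (KK_cont y x hy) (ss_cont x) n t)).const_mul ((-1) ^ n)
    refine this.congr_deriv ?_
    simp only [hF]; ring
  have e0 : dn (cc (fun l => g l * x ^ l) fun l => g l * y ^ l) mm 0 = F 0 := by
    funext t; rw [B_J x y hx hy]; simp [hF]
  have en : ∀ n, dn (cc (fun l => g l * x ^ l) fun l => g l * y ^ l) mm n = F n := by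
    intro n
    rw [← tower _ hS.dn_deriv, e0, tower F hF']
  have k : ∀ a b : ℝ, 0 < a → 0 < b → 0 ≤ l ^ 2 * PI (KK a b) (ss b) n t
      - 2 * l * u * PI (KK a b) (ss b) (n + 1) t + u ^ 2 * PI (KK a b) (ss b) (n + 2) t := by
    intro a b ha hb
    refine PI_pos _ _ (KK_cont a b ha) (ss_cont b) (fun v _ => ?_) (fun v hv => ?_) n l u t
    · have := Real.pi_pos
      unfold KK; positivity
    · have : 0 ≤ 1 - v ^ 2 := by nlinarith [hv.1, hv.2]
      unfold ss; positivity
  have k1 := k x y hx hy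
  have k2 := k y x hy hx
  have p : ((-1 : ℝ) ^ n) * (-1) ^ n = 1 := by rw [← mul_pow]; simp
  rw [en, en, en]
  simp only [hF]
  refine (add_nonneg k1 k2).trans_eq ?_
  rw [pow_succ, pow_succ, pow_succ]
  linear_combination (-(l ^ 2 * (PI (KK x y) (ss y) n t + PI (KK y x) (ss x) n t)
    - 2 * l * u * (PI (KK x y) (ss y) (n + 1) t + PI (KK y x) (ss x) (n + 1) t)
    + u ^ 2 * (PI (KK x y) (ss y) (n + 2) t + PI (KK y x) (ss x) (n + 2) t))) * p

/-- two-parameter Mittag-Leffler function on the real line -/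
noncomputable def E (a b z : ℝ) : ℝ := ∑' k : ℕ, z ^ k / Real.Gamma (a * k + b)

/-- the square sum -/
noncomputable def f (α t : ℝ) : ℝ := E (2 * α) 1 (-t) ^ 2 + t * E (2 * α) (1 + α) (-t) ^ 2

noncomputable def G (α : ℝ) (l : ℕ) : ℝ := 1 / Real.Gamma (α * l + 1)

lemma f_eq (α : ℝ) (h0 : 0 < α) : f α = dn (cc (G α) (G α)) mm 0 := by
  funext t
  have hG : S (G α) id := S_gam α 1 h0 le_rfl
  rw [split hG hG]
  have a : ∑' j : ℕ, G α (2 * j) * (-t) ^ j = E (2 * α) 1 (-t) := by
    refine tsum_congr fun j => ?_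
    simp only [G]
    rw [show α * ((2 * j : ℕ) : ℝ) + 1 = 2 * α * j + 1 by push_cast; ring]; ring
  have b : ∑' j : ℕ, G α (2 * j + 1) * (-t) ^ j = E (2 * α) (1 + α) (-t) := by
    refine tsum_congr fun j => ?_
    simp only [G]
    rw [show α * ((2 * j + 1 : ℕ) : ℝ) + 1 = 2 * α * j + (1 + α) by push_cast; ring]; ring
  rw [a, b, f]; ring

lemma key (α : ℝ) (h0 : 0 < α) (h1 : α ≤ 1 / 2) (n : ℕ) (l u t : ℝ) :
    0 ≤ (-1) ^ n * (l ^ 2 * dn (cc (G α) (G α)) mm n t + 2 * l * u * dn (cc (G α) (G α)) mm (n + 1) t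
      + u ^ 2 * dn (cc (G α) (G α)) mm (n + 2) t) := by
  have hG : S (G α) id := S_gam α 1 h0 le_rfl
  have h := comb (S_cc hG hG) n l u t
  have ea : ∀ l : ℕ, g l * aa (2 * α) l = G α l := by
    intro l
    have := Real.Gamma_pos_of_pos (show 0 < (l : ℝ) / 2 + 1 by positivity)
    simp only [g, aa, G]
    rw [show (1 / 2 : ℝ) * l + 1 = l / 2 + 1 by ring, show 2 * α * (l / 2) + 1 = α * l + 1 by ring]
    field_simp
  have e : (fun i => cc g g i * DD n l u t (mm i) * aa (2 * α) (e1 i) * aa (2 * α) (e2 i))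
      = fun i => cc (G α) (G α) i * DD n l u t (mm i) := by
    funext i; simp only [cc, ← ea]; ring
  have hs : S (fun i => cc g g i * DD n l u t (mm i)) fun i => e1 i + e2 i := by
    intro R hR
    refine (comb (S_cc (S_g.scale R) (S_g.scale R)) n l u t).summable.abs.congr fun i => ?_
    simp only [cc, abs_mul, abs_pow, abs_of_nonneg hR]; ring
  have := final_pos (base n l u t) hs (2 * α) (by linarith) (by linarith) (by
    have := h.summable
    rw [← e] at this
    exact this.abs)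
  rwa [e, h.tsum_eq] at this

theorem main : ∀ α : ℝ, 0 < α → α ≤ 1 / 2 →
    (ContDiffOn ℝ (⊤ : ℕ∞) (f α) (Set.Ioi 0) ∧
      ∀ (n : ℕ) (t : ℝ), 0 < t → 0 ≤ (-1) ^ n * iteratedDeriv n (f α) t) ∧
    (∀ t : ℝ, 0 < t → 0 < f α t) ∧ ConvexOn ℝ (Set.Ioi 0) fun t => Real.log (f α t) := by
  intro α h0 h1
  have hG : S (G α) id := S_gam α 1 h0 le_rfl
  have hd := (S_cc hG hG).dn_deriv
  rw [f_eq α h0]
  set F := dn (cc (G α) (G α)) mm with hF
  have k0 : ∀ t, 0 ≤ F 0 t := fun t => by simpa using key α h0 h1 0 1 0 t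
  have k2 : ∀ t, F 1 t ^ 2 ≤ F 0 t * F 2 t := by
    intro t
    have := discrim_le_zero (a := F 0 t) (b := 2 * F 1 t) (c := F 2 t) fun x => by
      have := key α h0 h1 0 x 1 t
      simp only [pow_zero, one_mul, zero_add, mul_one, one_pow] at this
      linarith
    simp only [discrim] at this
    linarith
  have hl : ∀ t, 0 < F 0 t → HasDerivAt (fun t => Real.log (F 0 t)) (F 1 t / F 0 t) t :=
    fun t ht => (hd 0 t).log ht.ne'
  have hq : ∀ t, 0 < F 0 t → HasDerivAt (fun t => F 1 t / F 0 t)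
      ((F 2 t * F 0 t - F 1 t * F 1 t) / F 0 t ^ 2) t :=
    fun t ht => (hd 1 t).div (hd 0 t) ht.ne'
  have hc : Continuous (F 0) := continuous_iff_continuousAt.2 fun t => (hd 0 t).continuousAt
  have f0 : F 0 0 = 1 := by
    rw [hF, ← f_eq α h0]
    simp only [f, E, neg_zero, zero_mul, add_zero]
    rw [tsum_eq_single 0 (fun k hk => by simp [hk])]
    simp
  have mono : ∀ D : Set ℝ, Convex ℝ D → (∀ t ∈ D, 0 < F 0 t) →
      MonotoneOn (fun t => F 1 t / F 0 t) D := by
    intro D hD hp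
    refine monotoneOn_of_deriv_nonneg hD
      (fun t ht => (hq t (hp t ht)).continuousAt.continuousWithinAt)
      (fun t ht => (hq t (hp t (interior_subset ht))).differentiableAt.differentiableWithinAt)
      fun t ht => ?_
    rw [(hq t (hp t (interior_subset ht))).deriv]
    have := k2 t
    apply div_nonneg _ (sq_nonneg _)
    nlinarith
  have pos : ∀ t, 0 ≤ t → 0 < F 0 t := by
    by_contra hcon
    push Not at hcon
    obtain ⟨t0, ht0, ht1⟩ := hcon
    have hcl : IsClosed {t | 0 ≤ t ∧ F 0 t ≤ 0} :=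
      isClosed_Ici.inter (isClosed_le hc continuous_const)
    have hbd : BddBelow {t | 0 ≤ t ∧ F 0 t ≤ 0} := ⟨0, fun t ht => ht.1⟩
    obtain ⟨hT0, hT1⟩ := hcl.csInf_mem ⟨t0, ht0, ht1⟩ hbd
    set T := sInf {t | 0 ≤ t ∧ F 0 t ≤ 0}
    have hT : 0 < T := lt_of_le_of_ne hT0 fun h => by rw [← h, f0] at hT1; linarith
    have hp : ∀ t ∈ Ico 0 T, 0 < F 0 t := fun t ht =>
      lt_of_not_ge fun h => (csInf_le hbd ⟨ht.1, h⟩).not_gt ht.2
    have hm := mono _ (convex_Ico 0 T) hp
    have hdd : ∀ t, HasDerivAt (fun t => F 0 t * Real.exp (-(F 1 0 * t)))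
        (F 1 t * Real.exp (-(F 1 0 * t)) + F 0 t * (Real.exp (-(F 1 0 * t)) * -F 1 0)) t := by
      intro t
      have : HasDerivAt (fun t : ℝ => -(F 1 0 * t)) (-F 1 0) t :=
        (((hasDerivAt_id t).const_mul (F 1 0)).neg).congr_deriv (by simp)
      exact (hd 0 t).mul this.exp
    have hm2 : MonotoneOn (fun t => F 0 t * Real.exp (-(F 1 0 * t))) (Icc 0 T) := by
      refine monotoneOn_of_deriv_nonneg (convex_Icc 0 T)
        (fun t _ => (hdd t).continuousAt.continuousWithinAt)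
        (fun t _ => (hdd t).differentiableAt.differentiableWithinAt) fun t ht => ?_
      rw [interior_Icc] at ht
      rw [(hdd t).deriv]
      have a := hm ⟨le_rfl, hT⟩ ⟨ht.1.le, ht.2⟩ ht.1.le
      simp only [f0, div_one] at a
      rw [le_div_iff₀ (hp t ⟨ht.1.le, ht.2⟩)] at a
      have := Real.exp_pos (-(F 1 0 * t))
      nlinarith
    have a := hm2 ⟨le_rfl, hT.le⟩ ⟨hT.le, le_rfl⟩ hT.le
    simp only [f0, mul_zero, neg_zero, Real.exp_zero, mul_one] at a
    have := Real.exp_pos (-(F 1 0 * T))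
    nlinarith
  refine ⟨⟨(tower_smooth F hd).contDiffOn, fun n t _ => ?_⟩, fun t ht => pos t ht.le, ?_⟩
  · rw [tower F hd]
    simpa using key α h0 h1 n 1 0 t
  · have hp : ∀ t ∈ Ioi (0 : ℝ), 0 < F 0 t := fun t ht => pos t (le_of_lt ht)
    refine MonotoneOn.convexOn_of_deriv (convex_Ioi 0)
      (fun t ht => (hl t (hp t ht)).continuousAt.continuousWithinAt)
      (fun t ht => (hl t (hp t (interior_subset ht))).differentiableAt.differentiableWithinAt) ?_
    rw [interior_Ioi]
    exact (mono _ (convex_Ioi 0) hp).congr fun t ht => (hl t (hp t ht)).deriv.symm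

end Pool.Agent.H91.ML
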