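import Mathlib

set_option autoImplicit false

namespace H91.McMullen
open Complex Metric Set Filter Topology

/-- principal `2n`-th root `|a|^{1/2n} e^{i psi/2n}` -/
noncomputable def rt (n : ℕ) (a : ℂ) : ℂ :=
  ((‖a‖ ^ (1 / (2 * n : ℝ)) : ℝ) : ℂ) * exp (((arg a / (2 * n) : ℝ) : ℂ) * I)
/-- principal square root -/
noncomputable def sr (a : ℂ) : ℂ := ((√‖a‖ : ℝ) : ℂ) * exp (((arg a / 2 : ℝ) : ℂ) * I)
noncomputable def r (n : ℕ) (a z : ℂ) : ℂ := z ^ n + a / z ^ n + (rt n a - 2 * sr a)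
/-- boundedness locus: the orbit of `v_-` never hits the pole `0` (which is sent to infinity)
and stays bounded. -/
def M (n : ℕ) : Set ℂ := {a | a ≠ 0 ∧ ∃ C : ℝ, ∀ k : ℕ,
  (r n a)^[k] (rt n a - 4 * sr a) ≠ 0 ∧ ‖(r n a)^[k] (rt n a - 4 * sr a)‖ ≤ C}
def cardioid : Set ℂ := {a | ∃ θ ∈ Icc (0 : ℝ) (2 * Real.pi), a = (1 + exp (θ * I)) ^ 2 / 16}

lemma norm_sr (a : ℂ) : ‖sr a‖ = √‖a‖ := by
  unfold sr
  rw [norm_mul, norm_exp_ofReal_mul_I, mul_one, norm_real, Real.norm_eq_abs,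
    abs_of_nonneg (Real.sqrt_nonneg _)]

lemma sr_sq (a : ℂ) : sr a ^ 2 = a := by
  unfold sr
  rw [mul_pow, ← ofReal_pow, Real.sq_sqrt (norm_nonneg _), ← exp_nat_mul]
  conv_rhs => rw [← norm_mul_exp_arg_mul_I a]
  congr 2
  push_cast; ring

lemma norm_rt (n : ℕ) (a : ℂ) : ‖rt n a‖ = ‖a‖ ^ (1 / (2 * n : ℝ)) := by
  unfold rt
  rw [norm_mul, norm_exp_ofReal_mul_I, mul_one, norm_real, Real.norm_eq_abs,
    abs_of_nonneg (by positivity)]

lemma rt_le (n : ℕ) (hn : 1 ≤ n) (a : ℂ) : ‖rt n a‖ ≤ max 1 ‖sr a‖ := by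
  rw [norm_rt, norm_sr]
  have hn' : (1 : ℝ) ≤ n := by exact_mod_cast hn
  rcases le_total ‖a‖ 1 with h | h
  · exact le_max_of_le_left (Real.rpow_le_one (norm_nonneg _) h (by positivity))
  · refine le_max_of_le_right ?_
    rw [Real.sqrt_eq_rpow]
    exact Real.rpow_le_rpow_of_exponent_le h
      (one_div_le_one_div_of_le two_pos (by linarith))

lemma step (n : ℕ) (hn : 3 ≤ n) (a z : ℂ) (h3 : 3 ≤ ‖z‖) (hs : ‖sr a‖ ≤ ‖z‖) :
    ‖z‖ + 1 ≤ ‖r n a z‖ := by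
  have h1 : ‖z‖ ^ 3 ≤ ‖z‖ ^ n := pow_le_pow_right₀ (by linarith) hn
  have h2 : ‖a‖ ≤ ‖z‖ ^ 2 := by
    rw [← sr_sq a, norm_pow]; exact pow_le_pow_left₀ (norm_nonneg _) hs 2
  have h4 : ‖a / z ^ n‖ ≤ 1 := by
    rw [norm_div, norm_pow, div_le_one (by positivity)]
    nlinarith
  have h5 : ‖rt n a‖ ≤ ‖z‖ := (rt_le n (by omega) a).trans (max_le (by linarith) hs)
  have h6 : ‖rt n a - 2 * sr a‖ ≤ 3 * ‖z‖ := by
    have := norm_sub_le (rt n a) (2 * sr a)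
    rw [norm_mul] at this
    simp only [Complex.norm_ofNat] at this
    linarith
  have h7 : z ^ n = r n a z - a / z ^ n - (rt n a - 2 * sr a) := by unfold r; ring
  have h8 : ‖z ^ n‖ ≤ ‖r n a z‖ + ‖a / z ^ n‖ + ‖rt n a - 2 * sr a‖ := by
    conv_lhs => rw [h7]
    exact (norm_sub_le _ _).trans (by gcongr; exact norm_sub_le _ _)
  rw [norm_pow] at h8
  nlinarith

lemma escape (n : ℕ) (hn : 3 ≤ n) (a z : ℂ) (h3 : 3 ≤ ‖z‖) (hs : ‖sr a‖ ≤ ‖z‖) (C : ℝ) :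
    ∃ k, C < ‖(r n a)^[k] z‖ := by
  have key : ∀ k : ℕ, ‖z‖ + k ≤ ‖(r n a)^[k] z‖ := by
    intro k
    induction k with
    | zero => simp
    | succ k ih =>
      have hk : (0 : ℝ) ≤ k := by positivity
      rw [Function.iterate_succ_apply']
      have := step n hn a _ (by linarith : 3 ≤ ‖(r n a)^[k] z‖) (by linarith)
      push_cast; linarith
  obtain ⟨k, hk⟩ := exists_nat_gt C
  exact ⟨k, by linarith [key k]⟩

lemma rt_close (n : ℕ) (hn : 1 ≤ n) (a : ℂ) (δ : ℝ) (hδ : 0 < δ) (h1 : δ ≤ ‖a‖) (h2 : ‖a‖ ≤ 1)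
    (hL : -Real.log δ + Real.pi ≤ n) : ‖rt n a - 1‖ ≤ (-Real.log δ + Real.pi) / n := by
  have hn' : (1 : ℝ) ≤ n := by exact_mod_cast hn
  have ha : 0 < ‖a‖ := by linarith
  have e : rt n a = exp (((Real.log ‖a‖ / (2 * n) : ℝ) : ℂ) + ((arg a / (2 * n) : ℝ) : ℂ) * I) := by
    unfold rt
    rw [exp_add, ← ofReal_exp, Real.rpow_def_of_pos ha]
    congr 3
    ring
  have hb : ‖((Real.log ‖a‖ / (2 * n) : ℝ) : ℂ) + ((arg a / (2 * n) : ℝ) : ℂ) * I‖ ≤
      (-Real.log δ + Real.pi) / (2 * n) := by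
    refine (norm_add_le _ _).trans ?_
    rw [norm_mul, norm_I, mul_one, norm_real, norm_real, Real.norm_eq_abs, Real.norm_eq_abs,
      abs_div, abs_div, abs_of_pos (by positivity : (0 : ℝ) < 2 * n), ← add_div]
    refine div_le_div_of_nonneg_right (add_le_add ?_ (abs_arg_le_pi a)) (by positivity)
    rw [abs_of_nonpos (Real.log_nonpos ha.le h2)]
    linarith [Real.log_le_log hδ h1]
  rw [e]
  refine (norm_exp_sub_one_le (hb.trans ?_)).trans ?_
  · rw [div_le_one (by positivity)]; linarith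
  · calc _ ≤ 2 * ((-Real.log δ + Real.pi) / (2 * n)) := by gcongr
      _ = _ := by field_simp

theorem main : ∀ ε : ℝ, 0 < ε → ∃ N : ℕ, 3 ≤ N ∧ ∀ n : ℕ, N ≤ n →
    ∀ a ∈ M n, ∃ p ∈ cardioid, dist a p < ε := by
  intro ε hε
  set δ := min ε (1 / 4) with hδ
  have hδ0 : 0 < δ := lt_min hε (by norm_num)
  have hδ1 : δ ≤ 1 / 4 := min_le_right _ _
  have hδ2 : δ ≤ ε := min_le_left _ _
  set L := -Real.log δ + Real.pi with hL
  have e1 : ∀ᶠ n : ℕ in atTop, L / δ ≤ n := tendsto_natCast_atTop_atTop.eventually_ge_atTop _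
  have e2 : ∀ᶠ n : ℕ in atTop, L ≤ n := tendsto_natCast_atTop_atTop.eventually_ge_atTop _
  have e3 : ∀ᶠ n : ℕ in atTop, 7 / δ ≤ (1 + δ) ^ n :=
    (tendsto_pow_atTop_atTop_of_one_lt (by linarith)).eventually_ge_atTop _
  obtain ⟨N, hN⟩ := eventually_atTop.1 (e1.and (e2.and e3))
  refine ⟨max N 3, le_max_right _ _, fun n hn a ⟨ha0, C, hC⟩ => ?_⟩
  obtain ⟨f1, f2, f3⟩ := hN n (le_of_max_le_left hn)
  have hn3 : 3 ≤ n := le_of_max_le_right hn
  have hn0 : (0 : ℝ) < n := by exact_mod_cast (by omega : 0 < n)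
  by_cases hsmall : ‖a‖ < δ
  · refine ⟨0, ⟨Real.pi, ⟨Real.pi_pos.le, by linarith [Real.pi_pos]⟩, by simp⟩, ?_⟩
    rw [dist_zero_right]; linarith
  push Not at hsmall
  set v := rt n a - 4 * sr a with hv
  have hs1 : ‖sr a‖ < 1 := by
    by_contra h
    push Not at h
    have h1 := rt_le n (by omega) a
    rw [max_eq_right h] at h1
    have h2 : ‖4 * sr a‖ ≤ ‖rt n a‖ + ‖v‖ := by
      have : 4 * sr a = rt n a - v := by rw [hv]; ring
      rw [this]; exact norm_sub_le _ _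
    rw [norm_mul] at h2
    simp only [Complex.norm_ofNat] at h2
    obtain ⟨k, hk⟩ := escape n hn3 a v (by linarith) (by linarith) C
    linarith [(hC k).2]
  have ha1 : ‖a‖ ≤ 1 := by
    rw [← sr_sq a, norm_pow]; nlinarith [norm_nonneg (sr a)]
  have hr : ‖rt n a - 1‖ ≤ δ := by
    refine (rt_close n (by omega) a δ hδ0 hsmall ha1 f2).trans ?_
    rw [div_le_iff₀ hn0]; rw [div_le_iff₀ hδ0] at f1; linarith
  have hb : ‖rt n a - 2 * sr a‖ ≤ 3 := by
    have := norm_sub_le (rt n a) (2 * sr a)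
    have h1 := rt_le n (by omega) a
    rw [max_eq_left hs1.le] at h1
    rw [norm_mul] at this
    simp only [Complex.norm_ofNat] at this
    linarith
  have hrv : ‖r n a v‖ < 3 := by
    by_contra h
    push Not at h
    obtain ⟨k, hk⟩ := escape n hn3 a _ h (by linarith) C
    have := (hC (k + 1)).2
    rw [Function.iterate_succ_apply] at this
    linarith
  have hv0 : 0 < ‖v‖ := norm_pos_iff.2 (hC 0).1
  have h7 : 7 ≤ δ * (1 + δ) ^ n := by rw [div_le_iff₀ hδ0] at f3; linarith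
  have hp : 0 < (1 + δ) ^ n := by positivity
  have hup : ‖v‖ < 1 + δ := by
    by_contra h
    push Not at h
    have h1 : (1 + δ) ^ n ≤ ‖v‖ ^ n := pow_le_pow_left₀ (by linarith) h n
    have h4 : ‖a / v ^ n‖ ≤ 1 := by
      rw [norm_div, norm_pow, div_le_one (by positivity)]
      nlinarith
    have h6 : v ^ n = r n a v - a / v ^ n - (rt n a - 2 * sr a) := by unfold r; ring
    have h8 : ‖v ^ n‖ ≤ ‖r n a v‖ + ‖a / v ^ n‖ + ‖rt n a - 2 * sr a‖ := by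
      conv_lhs => rw [h6]
      exact (norm_sub_le _ _).trans (by gcongr; exact norm_sub_le _ _)
    rw [norm_pow] at h8
    nlinarith
  have hlo : 1 - δ < ‖v‖ := by
    by_contra h
    push Not at h
    have h1 : ‖v‖ ^ n * (1 + δ) ^ n ≤ 1 := by
      rw [← mul_pow]; exact pow_le_one₀ (by positivity) (by nlinarith)
    have h2 : ‖v‖ ^ n ≤ 1 := pow_le_one₀ hv0.le (by linarith)
    have h3 : 0 < ‖v‖ ^ n := by positivity
    have h4 : 7 ≤ ‖a / v ^ n‖ := by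
      rw [norm_div, norm_pow, le_div_iff₀ h3]
      nlinarith
    have h6 : a / v ^ n = r n a v - v ^ n - (rt n a - 2 * sr a) := by unfold r; ring
    have h8 : ‖a / v ^ n‖ ≤ ‖r n a v‖ + ‖v ^ n‖ + ‖rt n a - 2 * sr a‖ := by
      conv_lhs => rw [h6]
      exact (norm_sub_le _ _).trans (by gcongr; exact norm_sub_le _ _)
    rw [norm_pow] at h8
    linarith
  obtain ⟨θ, hθ, hθ2⟩ : ∃ θ ∈ Icc (0 : ℝ) (2 * Real.pi), (‖v‖ : ℂ) * exp (θ * I) = -v := by
    refine ⟨arg v + Real.pi, ⟨by linarith [neg_pi_lt_arg v], by linarith [arg_le_pi v]⟩, ?_⟩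
    push_cast
    rw [add_mul, exp_add, exp_pi_mul_I, ← mul_assoc, norm_mul_exp_arg_mul_I]; ring
  set u := exp (θ * I) with hu
  have hu1 : ‖u‖ = 1 := norm_exp_ofReal_mul_I θ
  refine ⟨_, ⟨θ, hθ, rfl⟩, ?_⟩
  have g1 : ‖4 * sr a - (1 + u)‖ ≤ 2 * δ := by
    have : 4 * sr a - (1 + u) = (rt n a - 1) + ((‖v‖ - 1 : ℝ) : ℂ) * u := by
      push_cast; linear_combination -hθ2 - hv
    rw [this]
    refine (norm_add_le _ _).trans ?_
    rw [norm_mul, hu1, mul_one, norm_real, Real.norm_eq_abs]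
    have : |‖v‖ - 1| ≤ δ := abs_le.2 ⟨by linarith, by linarith⟩
    linarith
  have g2 : ‖4 * sr a + (1 + u)‖ ≤ 6 := by
    refine (norm_add_le _ _).trans ?_
    have := norm_add_le 1 u
    rw [norm_mul]
    simp only [Complex.norm_ofNat, norm_one] at this ⊢
    linarith
  have g3 : a - (1 + u) ^ 2 / 16 = (4 * sr a - (1 + u)) * (4 * sr a + (1 + u)) / 16 := by
    linear_combination -sr_sq a
  rw [dist_eq_norm, g3, norm_div, norm_mul]
  simp only [Complex.norm_ofNat]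
  have := mul_le_mul g1 g2 (norm_nonneg _) (by positivity)
  linarith

end H91.McMullen
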