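import Mathlib

set_option autoImplicit false

namespace Pool.Agent.H91.Strip

open Complex Metric

/-- the half strip containing the image of the unit disc under `-log (1 - z)` -/
def H : Set ℂ := {t | -1 < t.re ∧ |t.im| < Real.pi / 2}

lemma H_convex : Convex ℝ H := by
  have h1 : Convex ℝ {t : ℂ | -1 < t.re} := convex_halfSpace_re_gt (-1)
  have h2 : Convex ℝ {t : ℂ | -(Real.pi / 2) < t.im} := convex_halfSpace_im_gt _
  have h3 : Convex ℝ {t : ℂ | t.im < Real.pi / 2} := convex_halfSpace_im_lt _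
  have : H = {t : ℂ | -1 < t.re} ∩ ({t : ℂ | -(Real.pi / 2) < t.im} ∩ {t : ℂ | t.im < Real.pi / 2}) := by
    ext t; simp [H, abs_lt]
  rw [this]
  exact h1.inter (h2.inter h3)

lemma exp_inj (g g' : ℂ → ℂ) (c : ℝ) (hc : c < 1)
    (hg : ∀ t ∈ H, HasDerivAt g (g' t) t) (hb : ∀ t ∈ H, ‖g' t - 1‖ ≤ c)
    {s t : ℂ} (hs : s ∈ H) (ht : t ∈ H) (h : exp (g s) = exp (g t)) : s = t := by
  obtain ⟨k, hk⟩ := exp_eq_exp_iff_exists_int.mp h
  have hmv := H_convex.norm_image_sub_le_of_norm_hasDerivWithin_le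
    (f := fun t => g t - t) (f' := fun t => g' t - 1) (C := c)
    (fun x hx => ((hg x hx).sub (hasDerivAt_id x)).hasDerivWithinAt) hb ht hs
  have e : g s - s - (g t - t) = k * (2 * Real.pi * I) - (s - t) := by rw [hk]; ring
  simp only [e] at hmv
  set d := s - t with hd
  have hc0 : 0 ≤ c := le_trans (norm_nonneg _) (hb s hs)
  have hdi : |d.im| < Real.pi := by
    have h1 := abs_lt.mp hs.2
    have h2 := abs_lt.mp ht.2
    rw [hd, sub_im, abs_lt]; constructor <;> linarith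
  by_cases hk0 : k = 0
  · subst hk0
    simp only [Int.cast_zero, zero_mul, zero_sub, norm_neg] at hmv
    have : ‖d‖ = 0 := by nlinarith [norm_nonneg d]
    exact sub_eq_zero.mp (norm_eq_zero.mp this)
  · exfalso
    have h1 : ‖(k : ℂ) * (2 * Real.pi * I) - d‖ ≤ ‖d‖ := by nlinarith [norm_nonneg d]
    have h2 : ‖(k : ℂ) * (2 * Real.pi * I) - d‖ ^ 2 ≤ ‖d‖ ^ 2 := by
      gcongr
    rw [Complex.sq_norm, Complex.sq_norm, normSq_apply, normSq_apply] at h2
    simp at h2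
    have hpi := Real.pi_pos
    have h3 := abs_lt.mp hdi
    rcases lt_or_gt_of_ne hk0 with h4 | h4
    · have : (k : ℝ) ≤ -1 := by exact_mod_cast (show k ≤ -1 by omega)
      have h5 : (k : ℝ) * (2 * Real.pi) ≤ -(2 * Real.pi) := by nlinarith
      nlinarith
    · have : (1 : ℝ) ≤ k := by exact_mod_cast (show 1 ≤ k by omega)
      have h5 : 2 * Real.pi ≤ (k : ℝ) * (2 * Real.pi) := by nlinarith
      nlinarith

/-- `t = -log (1 - z)` -/
noncomputable def T (z : ℂ) : ℂ := -log (1 - z)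

lemma one_sub_re {z : ℂ} (hz : ‖z‖ < 1) : 0 < (1 - z).re := by
  have := (abs_re_le_norm z)
  have h2 := le_abs_self z.re
  simp only [sub_re, one_re]; linarith

lemma one_sub_slit {z : ℂ} (hz : ‖z‖ < 1) : 1 - z ∈ slitPlane := Or.inl (one_sub_re hz)

lemma one_sub_ne {z : ℂ} (hz : ‖z‖ < 1) : 1 - z ≠ 0 := slitPlane_ne_zero (one_sub_slit hz)

lemma T_mem {z : ℂ} (hz : ‖z‖ < 1) : T z ∈ H := by
  constructor
  · simp only [T, neg_re, log_re, neg_lt_neg_iff]
    have h1 : ‖1 - z‖ < 2 := by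
      have := norm_sub_le (1 : ℂ) z
      rw [norm_one] at this; linarith
    have h2 : 0 < ‖1 - z‖ := norm_pos_iff.mpr (one_sub_ne hz)
    have h3 := Real.log_le_sub_one_of_pos h2
    linarith
  · simp only [T, neg_im, abs_neg, log_im]
    exact abs_arg_lt_pi_div_two_iff.mpr (Or.inl (one_sub_re hz))

lemma exp_neg_T {z : ℂ} (hz : ‖z‖ < 1) : exp (-T z) = 1 - z := by
  simp only [T, neg_neg]; exact exp_log (one_sub_ne hz)

lemma exp_T {z : ℂ} (hz : ‖z‖ < 1) : exp (T z) = (1 - z)⁻¹ := by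
  rw [← exp_neg_T hz, exp_neg, inv_inv]

lemma T_inj {z w : ℂ} (hz : ‖z‖ < 1) (hw : ‖w‖ < 1) (h : T z = T w) : z = w := by
  have h1 := exp_neg_T hz
  rw [h, exp_neg_T hw] at h1
  linear_combination h1

lemma T_deriv {z : ℂ} (hz : ‖z‖ < 1) : HasDerivAt T (exp (T z)) z := by
  have d1 := (((hasDerivAt_id z).const_sub 1).clog (one_sub_slit hz)).neg
  refine HasDerivAt.congr_deriv d1 ?_
  rw [exp_T hz]; simp [neg_div]

lemma T_zero : T 0 = 0 := by simp [T]

/-- the point of the disc with `T z = x` for real `x ≥ 0` -/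
noncomputable def Z (x : ℝ) : ℂ := ((1 - Real.exp (-x) : ℝ) : ℂ)

lemma Z_norm {x : ℝ} (hx : 0 ≤ x) : ‖Z x‖ = 1 - Real.exp (-x) := by
  have h1 : Real.exp (-x) ≤ 1 := Real.exp_le_one_iff.mpr (by linarith)
  rw [Z, norm_real, Real.norm_eq_abs, abs_of_nonneg (by linarith)]

lemma Z_lt {x : ℝ} (hx : 0 ≤ x) : ‖Z x‖ < 1 := by
  rw [Z_norm hx]; linarith [Real.exp_pos (-x)]

lemma T_Z (x : ℝ) : T (Z x) = x := by
  have : (1 : ℂ) - Z x = exp (-(x : ℂ)) := by
    simp [Z]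
  rw [T, this, log_exp] <;> simp [Real.pi_pos, Real.pi_pos.le]

lemma norm_exp_I_le {t : ℂ} (ht : t ∈ H) (a : ℝ) (ha : |a| ≤ 1 / 2) :
    ‖exp (I * a * t)‖ ≤ 3 := by
  rw [norm_exp]
  have h1 : (I * a * t).re ≤ 1 := by
    have e : (I * a * t).re = -(a * t.im) := by simp
    rw [e]
    have h2 : |a * t.im| ≤ 1 := by
      rw [abs_mul]
      have := ht.2
      have h3 := Real.pi_le_four
      nlinarith [abs_nonneg a, abs_nonneg t.im]
    linarith [neg_abs_le (a * t.im)]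
  have := Real.exp_one_lt_three
  linarith [Real.exp_le_exp.mpr h1]

end Pool.Agent.H91.Strip
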