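import Mathlib
import Pool.Agent.H91.Strip

set_option autoImplicit false

namespace Pool.Agent.H91.MeanValence

open Complex Metric Pool.Agent.H91.Strip

noncomputable def L : ℂ := Real.pi + Real.pi * I

noncomputable def u (t : ℂ) : ℂ := t - L * cos ((1 / 48 : ℝ) * t)

noncomputable def f (z : ℂ) : ℂ := -(exp Real.pi * exp (u (T z))) - 1

noncomputable def g (z : ℂ) : ℂ := exp (T z) - 1

lemma L_norm : ‖L‖ ≤ 8 := by
  have h := Real.pi_le_four
  have h0 := Real.pi_pos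
  refine le_trans (norm_add_le _ _) ?_
  rw [norm_mul, norm_I, norm_real, Real.norm_eq_abs, abs_of_pos h0]
  linarith

lemma u_deriv (t : ℂ) : HasDerivAt u (1 + L * (sin ((1 / 48 : ℝ) * t) * (1 / 48 : ℝ))) t := by
  have d1 := (hasDerivAt_id t).sub
    ((((hasDerivAt_id t).const_mul ((1 / 48 : ℝ) : ℂ)).ccos).const_mul L)
  refine HasDerivAt.congr_deriv d1 ?_
  simp

lemma sin_bound {t : ℂ} (ht : t ∈ H) : ‖sin ((1 / 48 : ℝ) * t)‖ ≤ 3 := by
  have h1 := norm_exp_I_le ht (1 / 48) (by norm_num [abs_of_pos])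
  have h2 := norm_exp_I_le ht (-(1 / 48)) (by norm_num [abs_of_pos])
  have e : sin ((1 / 48 : ℝ) * t)
      = (exp (I * (-(1 / 48) : ℝ) * t) - exp (I * (1 / 48 : ℝ) * t)) * I / 2 := by
    rw [Complex.sin]; push_cast; ring_nf
  rw [e, norm_div, norm_mul, norm_I]
  have := norm_sub_le (exp (I * (-(1 / 48) : ℝ) * t)) (exp (I * (1 / 48 : ℝ) * t))
  simp only [Complex.norm_ofNat]
  linarith

lemma u_bound {t : ℂ} (ht : t ∈ H) :
    ‖(1 + L * (sin ((1 / 48 : ℝ) * t) * (1 / 48 : ℝ))) - 1‖ ≤ 1 / 2 := by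
  rw [add_sub_cancel_left, norm_mul, norm_mul, norm_real, Real.norm_eq_abs,
    abs_of_pos (by norm_num : (0 : ℝ) < 1 / 48)]
  have h1 := sin_bound ht
  have h2 := L_norm
  nlinarith [norm_nonneg L, norm_nonneg (sin ((1 / 48 : ℝ) * t))]

lemma f_deriv {z : ℂ} (hz : ‖z‖ < 1) : HasDerivAt f (-(exp Real.pi * (exp (u (T z)) *
    ((1 + L * (sin ((1 / 48 : ℝ) * T z) * (1 / 48 : ℝ))) * exp (T z))))) z :=
  (((((u_deriv (T z)).comp z (T_deriv hz)).cexp).const_mul (exp Real.pi)).neg).sub_const 1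

lemma g_deriv {z : ℂ} (hz : ‖z‖ < 1) : HasDerivAt g (exp (T z) * exp (T z)) z :=
  ((T_deriv hz).cexp).sub_const 1

lemma exp_u0 : exp Real.pi * exp (u 0) = -1 := by
  rw [← exp_add]
  have : (Real.pi : ℂ) + u 0 = -(Real.pi * I) := by simp [u, L]
  rw [this, exp_neg, exp_pi_mul_I]; norm_num

lemma f_S : DifferentiableOn ℂ f (ball 0 1) ∧ Set.InjOn f (ball 0 1) ∧ f 0 = 0 ∧ deriv f 0 = 1 := by
  refine ⟨fun z hz => (f_deriv (by simpa using hz)).differentiableAt.differentiableWithinAt,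
    ?_, ?_, ?_⟩
  · intro z hz w hw h
    rw [mem_ball_zero_iff] at hz hw
    apply T_inj hz hw
    apply exp_inj u _ (1 / 2) (by norm_num) (fun t _ => u_deriv t) (fun t ht => u_bound ht)
      (T_mem hz) (T_mem hw)
    apply mul_left_cancel₀ (exp_ne_zero (Real.pi : ℂ))
    unfold f at h
    linear_combination -h
  · unfold f; rw [T_zero, exp_u0]; ring
  · rw [(f_deriv (by simp)).deriv, T_zero]
    simp only [mul_zero, sin_zero, zero_mul, add_zero, exp_zero, mul_one]
    rw [exp_u0]; ring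

lemma g_S : DifferentiableOn ℂ g (ball 0 1) ∧ Set.InjOn g (ball 0 1) ∧ g 0 = 0 ∧ deriv g 0 = 1 := by
  refine ⟨fun z hz => (g_deriv (by simpa using hz)).differentiableAt.differentiableWithinAt,
    ?_, ?_, ?_⟩
  · intro z hz w hw h
    rw [mem_ball_zero_iff] at hz hw
    unfold g at h
    rw [exp_T hz, exp_T hw] at h
    have h2 : (1 - z)⁻¹ = (1 - w)⁻¹ := by linear_combination h
    have h3 := inv_injective h2
    linear_combination -h3
  · simp [g, T_zero]
  · rw [(g_deriv (by simp)).deriv, T_zero]; simp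

noncomputable def x (n : ℕ) : ℝ := 48 * ((2 * n + 1) * Real.pi / 2)

lemma x_nonneg (n : ℕ) : 0 ≤ x n := by
  have := Real.pi_pos
  unfold x; positivity

lemma val (n : ℕ) : ((1 / (1 + Real.exp Real.pi) : ℝ) : ℂ) * f (Z (x n))
    + (1 - ((1 / (1 + Real.exp Real.pi) : ℝ) : ℂ)) * g (Z (x n)) = -1 := by
  have e1 : cos ((1 / 48 : ℝ) * (x n : ℂ)) = 0 := by
    rw [Complex.cos_eq_zero_iff]
    refine ⟨n, ?_⟩
    unfold x; push_cast; ring
  have e2 : u (x n) = x n := by unfold u; rw [e1]; ring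
  unfold f g
  rw [T_Z, e2]
  have h0 : (1 : ℂ) + exp Real.pi ≠ 0 := by
    have : (0 : ℝ) < 1 + Real.exp Real.pi := by positivity
    exact_mod_cast this.ne'
  push_cast
  field_simp
  ring

lemma Zx_inj : Function.Injective (fun n : ℕ => Z (x n)) := by
  intro a b h
  have h1 : T (Z (x a)) = T (Z (x b)) := by simp only at h; rw [h]
  rw [T_Z, T_Z] at h1
  have h2 : x a = x b := by exact_mod_cast h1
  unfold x at h2
  have := Real.pi_pos
  have h3 : (a : ℝ) = b := by nlinarith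
  exact_mod_cast h3

end Pool.Agent.H91.MeanValence
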