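import Mathlib
set_option autoImplicit false

namespace H91.Milman

noncomputable def zetaP (X : Type) [NormedAddCommGroup X] [NormedSpace ℝ X] (ε : ℝ) : ℝ :=
  sSup {r | ∃ x y : X, ‖x‖ = 1 ∧ ‖y‖ = 1 ∧ (∃ p : X →L[ℝ] ℝ, ‖p‖ = 1 ∧ p x = 1 ∧ p y = 0) ∧
    r = ‖x + ε • y‖}

noncomputable def betaP (X : Type) [NormedAddCommGroup X] [NormedSpace ℝ X] (ε : ℝ) : ℝ :=
  sSup {r | ∃ x y : X, ‖x‖ = 1 ∧ ‖y‖ = 1 ∧ r = min ‖x + ε • y‖ ‖x - ε • y‖ - 1}

def L : (ℝ × ℝ) →ₗ[ℝ] ℝ × ℝ × ℝ where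
  toFun p := (p.1, p.2, p.1 - p.2)
  map_add' a b := by ext <;> simp; ring
  map_smul' a b := by ext <;> simp; ring

lemma L_inj : Function.Injective L := fun a b h => by
  have h1 := congrArg Prod.fst h
  have h2 := congrArg (fun p => p.2.1) h
  exact Prod.ext h1 h2

abbrev X := LinearMap.range L

lemma nrm (x : X) : ‖x‖ = max |x.1.1| (max |x.1.2.1| |x.1.1 - x.1.2.1|) := by
  obtain ⟨_, ⟨a, b⟩, rfl⟩ := x
  rfl

theorem main : ∃ (X : Type) (_ : NormedAddCommGroup X) (_ : NormedSpace ℝ X) (ε : ℝ),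
    CompleteSpace X ∧ Module.finrank ℝ X = 2 ∧ 0 < ε ∧ betaP X ε < zetaP X ε - 1 := by
  refine ⟨X, inferInstance, inferInstance, 1, FiniteDimensional.complete ℝ X, ?_, one_pos, ?_⟩
  · rw [LinearMap.finrank_range_of_inj L_inj]; simp
  have h1 : betaP X 1 ≤ 1 / 2 := by
    refine Real.sSup_le ?_ (by norm_num)
    rintro r ⟨x, y, hx, hy, rfl⟩
    by_contra hc
    rw [not_le, lt_sub_iff_add_lt, lt_min_iff, one_smul, nrm, nrm] at hc
    have hx' := hx.le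
    have hy' := hy.le
    rw [nrm] at hx' hy'
    simp only [max_le_iff, abs_le] at hx' hy'
    simp only [Submodule.coe_add, Submodule.coe_sub, Prod.fst_add, Prod.snd_add, Prod.fst_sub,
      Prod.snd_sub, lt_max_iff, lt_abs] at hc
    obtain ⟨⟨a1, a2⟩, ⟨a3, a4⟩, a5, a6⟩ := hx'
    obtain ⟨⟨b1, b2⟩, ⟨b3, b4⟩, b5, b6⟩ := hy'
    obtain ⟨c1, c2⟩ := hc
    rcases c1 with (c1 | c1) | (c1 | c1) | (c1 | c1) <;>
      rcases c2 with (c2 | c2) | (c2 | c2) | (c2 | c2) <;> linarith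
  have h2 : 2 ≤ zetaP X 1 := by
    let x : X := ⟨L (1, 1), _, rfl⟩
    let y : X := ⟨L (0, 1), _, rfl⟩
    let p : X →L[ℝ] ℝ := (ContinuousLinearMap.fst ℝ ℝ (ℝ × ℝ)).comp (LinearMap.range L).subtypeL
    have hx : ‖x‖ = 1 := by rw [nrm]; simp [x, L]
    have hy : ‖y‖ = 1 := by rw [nrm]; simp [y, L]
    have hpx : p x = 1 := rfl
    refine le_csSup ⟨2, ?_⟩ ⟨x, y, hx, hy, ⟨p, ?_, hpx, rfl⟩, ?_⟩
    · rintro r ⟨x, y, hx, hy, -, rfl⟩
      rw [one_smul]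
      linarith [norm_add_le x y]
    · apply le_antisymm
      · refine ContinuousLinearMap.opNorm_le_bound _ zero_le_one fun z => ?_
        rw [one_mul, nrm]; exact le_max_left _ _
      · simpa [hpx, hx] using p.le_opNorm x
    · rw [nrm]; simp [x, y, L]; norm_num
  linarith

end H91.Milman
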