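import Mathlib
set_option autoImplicit false

namespace H91.Modular
open Filter Topology Set
open scoped ENNReal

/-- sequentially closed for modular convergence -/
def Cl {X : Type} [AddCommGroup X] (ρ : X → ℝ≥0∞) (C : Set X) : Prop :=
  ∀ (x : ℕ → X) (y : X), (∀ j, x j ∈ C) → Tendsto (fun j => ρ (x j - y)) atTop (𝓝 0) → y ∈ C

section
variable {X : Type} [NormedAddCommGroup X] [NormedSpace ℝ X] (φ : X →ₗ[ℝ] ℝ)

open Classical in
noncomputable def rho (u : X) : ℝ≥0∞ := if |φ u| ≤ 1 then ENNReal.ofReal ‖u‖ else ⊤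

lemma conv_iff (x : ℕ → X) : Tendsto (fun j => rho φ (x j)) atTop (𝓝 0) ↔
    Tendsto (fun j => ‖x j‖) atTop (𝓝 0) ∧ ∀ᶠ j in atTop, |φ (x j)| ≤ 1 := by
  constructor
  · intro h
    have h1 : ∀ᶠ j in atTop, |φ (x j)| ≤ 1 := by
      filter_upwards [h.eventually (gt_mem_nhds (show (0:ℝ≥0∞) < ⊤ by simp))] with j hj
      by_contra hc
      simp [rho, hc] at hj
    refine ⟨?_, h1⟩
    have h2 : Tendsto (fun j => ENNReal.ofReal ‖x j‖) atTop (𝓝 0) := by
      refine h.congr' ?_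
      filter_upwards [h1] with j hj
      simp [rho, hj]
    have h3 := (ENNReal.tendsto_toReal ENNReal.zero_ne_top).comp h2
    simpa [Function.comp_def] using h3
  · rintro ⟨h1, h2⟩
    have h3 := ENNReal.tendsto_ofReal h1
    rw [ENNReal.ofReal_zero] at h3
    refine h3.congr' ?_
    filter_upwards [h2] with j hj
    simp [rho, hj]

lemma cl_ev {C : Set X} (hC : Cl (rho φ) C) (x : ℕ → X) (y : X) (h : ∀ᶠ j in atTop, x j ∈ C)
    (h1 : Tendsto (fun j => rho φ (x j - y)) atTop (𝓝 0)) : y ∈ C := by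
  obtain ⟨N, hN⟩ := eventually_atTop.1 h
  exact hC (fun j => x (j + N)) y (fun j => hN _ (by omega))
    (h1.comp (tendsto_add_atTop_nat N))

lemma nonreg (v : ℕ → X) (hv : ∀ j, φ (v j) = 1) (hv0 : Tendsto (fun j => ‖v j‖) atTop (𝓝 0)) :
    ∃ (F : Set X) (x : X), Cl (rho φ) F ∧ x ∉ F ∧
      ∀ U V : Set X, Cl (rho φ) Uᶜ → Cl (rho φ) Vᶜ → x ∈ U → F ⊆ V → (U ∩ V).Nonempty := by
  have hex : ∀ n : ℕ, ∃ w : X, φ w = 3 * (n + 1) ∧ ‖w‖ ≤ 1 / ((n : ℝ) + 1) := by
    intro n
    have hp : (0:ℝ) < 1 / (3 * ((n:ℝ) + 1) ^ 2) := by positivity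
    obtain ⟨j, hj⟩ := (hv0.eventually (gt_mem_nhds hp)).exists
    refine ⟨(3 * ((n:ℝ) + 1)) • v j, by simp [hv], ?_⟩
    rw [norm_smul, Real.norm_eq_abs, abs_of_pos (by positivity)]
    calc 3 * ((n:ℝ) + 1) * ‖v j‖ ≤ 3 * ((n:ℝ) + 1) * (1 / (3 * ((n:ℝ) + 1) ^ 2)) := by gcongr
      _ = 1 / ((n : ℝ) + 1) := by field_simp
  choose w hw1 hw2 using hex
  refine ⟨range w, 0, ?_, ?_, ?_⟩
  · intro x y hx h
    obtain ⟨h1, h2⟩ := (conv_iff φ _).1 h
    obtain ⟨N, hN⟩ := eventually_atTop.1 h2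
    choose n hn using hx
    have h3 : ∀ j ≥ N, x j = x N := by
      intro j hj
      have a1 := hN j hj
      have a2 := hN N le_rfl
      rw [map_sub, ← hn, hw1, abs_le] at a1 a2
      have a3 : (n j : ℝ) < n N + 1 := by linarith
      have a4 : (n N : ℝ) < n j + 1 := by linarith
      have a5 : n j < n N + 1 := by exact_mod_cast a3
      have a6 : n N < n j + 1 := by exact_mod_cast a4
      rw [← hn, ← hn, show n j = n N by omega]
    have h4 : Tendsto (fun _ : ℕ => ‖x N - y‖) atTop (𝓝 0) := by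
      refine h1.congr' ?_
      filter_upwards [eventually_ge_atTop N] with j hj
      rw [h3 j hj]
    have h5 : ‖x N - y‖ = 0 := tendsto_nhds_unique tendsto_const_nhds h4
    rw [norm_eq_zero, sub_eq_zero] at h5
    exact ⟨n N, by rw [hn, h5]⟩
  · rintro ⟨n, hn⟩
    have := hw1 n
    rw [hn, map_zero] at this
    have : (0:ℝ) < 3 * ((n:ℝ) + 1) := by positivity
    linarith
  · intro U V hU hV h0 hF
    by_contra hne
    rw [not_nonempty_iff_eq_empty] at hne
    have hsub : U ⊆ Vᶜ := fun z hz hz' => by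
      have : z ∈ U ∩ V := ⟨hz, hz'⟩
      rw [hne] at this; exact this
    have h1 : ∃ ε > 0, ∀ y : X, ‖y‖ < ε → |φ y| ≤ 1 → y ∈ U := by
      by_contra hc
      push Not at hc
      choose y hy1 hy2 hy3 using fun n : ℕ => hc (1 / ((n:ℝ) + 1)) (by positivity)
      refine hU y 0 hy3 ?_ h0
      rw [conv_iff]
      simp only [sub_zero]
      exact ⟨squeeze_zero (fun _ => norm_nonneg _) (fun n => (hy1 n).le)
        tendsto_one_div_add_atTop_nhds_zero_nat, Eventually.of_forall hy2⟩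
    obtain ⟨ε, hε, h1⟩ := h1
    have h2 : ∀ m : ℕ, ∀ y : X, ‖y‖ < ε → |φ y| ≤ m + 1 → y ∈ Vᶜ := by
      intro m
      induction m with
      | zero => intro y a b; exact hsub (h1 y a (by simpa using b))
      | succ m ih =>
        intro y a b
        obtain ⟨t, ht1, ht2⟩ : ∃ t : ℝ, |t| ≤ 1 ∧ |φ y - t| ≤ m + 1 := by
          have hm : (0:ℝ) ≤ m := Nat.cast_nonneg m
          push_cast at b
          rw [abs_le] at b
          rcases le_total 0 (φ y) with h | h
          · exact ⟨1, by simp, by rw [abs_le]; constructor <;> linarith⟩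
          · exact ⟨-1, by simp, by rw [abs_le]; constructor <;> linarith⟩
        have hlim : Tendsto (fun j => ‖t • v j‖) atTop (𝓝 0) := by
          simp only [norm_smul]
          simpa using hv0.const_mul ‖t‖
        refine cl_ev φ hV (fun j => y - t • v j) y ?_ ?_
        · filter_upwards [hlim.eventually (gt_mem_nhds (show 0 < ε - ‖y‖ by linarith))] with j hj
          refine ih _ ?_ (by simpa [hv] using ht2)
          linarith [norm_sub_le y (t • v j)]
        · rw [conv_iff]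
          simp only [sub_sub_cancel_left, norm_neg, map_neg, abs_neg]
          exact ⟨hlim, Eventually.of_forall fun j => by simpa [hv] using ht1⟩
    obtain ⟨n, hn⟩ := exists_nat_one_div_lt hε
    refine h2 (3 * n + 2) (w n) ((hw2 n).trans_lt hn) ?_ (hF ⟨n, rfl⟩)
    rw [hw1, abs_of_pos (by positivity)]
    push_cast; linarith

lemma rho_zero (u : X) : rho φ u = 0 ↔ u = 0 := by
  constructor
  · intro h
    by_cases hc : |φ u| ≤ 1
    · simpa [rho, hc] using h
    · simp [rho, hc] at h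
  · rintro rfl; simp [rho]

lemma rho_smul (α : ℝ) (u : X) (h : |α| = 1) : rho φ (α • u) = rho φ u := by
  simp [rho, abs_mul, h, norm_smul]

lemma rho_conv (α : ℝ) (h0 : 0 ≤ α) (h1 : α ≤ 1) (u w : X) : rho φ (α • u + (1 - α) • w) ≤
    ENNReal.ofReal α * rho φ u + ENNReal.ofReal (1 - α) * rho φ w := by
  rcases h0.eq_or_lt with rfl | h0'
  · simp
  rcases h1.eq_or_lt with rfl | h1'
  · simp
  by_cases hu : |φ u| ≤ 1
  swap
  · have : ENNReal.ofReal α * rho φ u = ⊤ := by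
      simp only [rho, hu, if_false]; exact ENNReal.mul_top (by simpa using h0')
    rw [this]; simp
  by_cases hw : |φ w| ≤ 1
  swap
  · have : ENNReal.ofReal (1 - α) * rho φ w = ⊤ := by
      simp only [rho, hw, if_false]; exact ENNReal.mul_top (by simpa using h1')
    rw [this]; simp
  have h2 : |φ (α • u + (1 - α) • w)| ≤ 1 := by
    rw [map_add, map_smul, map_smul, smul_eq_mul, smul_eq_mul]
    rw [abs_le] at *
    constructor <;> nlinarith [hu.1, hu.2, hw.1, hw.2]
  simp only [rho, hu, hw, h2, if_true]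
  rw [← ENNReal.ofReal_mul h0, ← ENNReal.ofReal_mul (by linarith),
    ← ENNReal.ofReal_add (by positivity) (mul_nonneg (by linarith) (norm_nonneg _))]
  refine ENNReal.ofReal_le_ofReal ((norm_add_le _ _).trans ?_)
  rw [norm_smul, norm_smul, Real.norm_eq_abs, Real.norm_eq_abs, abs_of_nonneg h0,
    abs_of_nonneg (by linarith)]

lemma rho_left (u : X) (l : ℝ) (hl : 0 < l) :
    Tendsto (fun t : ℝ => rho φ (t • u)) (𝓝[<] l) (𝓝 (rho φ (l • u))) := by
  by_cases hc : |φ (l • u)| ≤ 1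
  · have h1 : Tendsto (fun t : ℝ => ENNReal.ofReal ‖t • u‖) (𝓝[<] l)
        (𝓝 (ENNReal.ofReal ‖l • u‖)) := by
      refine ENNReal.tendsto_ofReal (Tendsto.mono_left ?_ nhdsWithin_le_nhds)
      exact (show Continuous fun t : ℝ => ‖t • u‖ by fun_prop).tendsto l
    simp only [rho, hc, if_true]
    refine h1.congr' ?_
    filter_upwards [Ioo_mem_nhdsLT hl] with t ht
    have : |φ (t • u)| ≤ 1 := by
      rw [map_smul, smul_eq_mul, abs_mul, abs_of_pos hl] at hc
      rw [map_smul, smul_eq_mul, abs_mul, abs_of_pos ht.1]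
      nlinarith [abs_nonneg (φ u), ht.2]
    rw [if_pos this]
  · have h1 : ∀ᶠ t : ℝ in 𝓝 l, 1 < |φ (t • u)| := by
      have : Continuous fun t : ℝ => |φ (t • u)| := by
        simp only [map_smul, smul_eq_mul]; fun_prop
      exact (this.tendsto l).eventually (lt_mem_nhds (not_le.1 hc))
    simp only [rho, hc, if_false]
    refine tendsto_const_nhds.congr' ?_
    filter_upwards [nhdsWithin_le_nhds h1] with t ht
    rw [if_neg (not_le.2 ht)]

lemma rho_fin (u : X) : ∃ l : ℝ, 0 < l ∧ rho φ (l • u) < ⊤ := by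
  refine ⟨1 / (|φ u| + 1), by positivity, ?_⟩
  have : |φ ((1 / (|φ u| + 1)) • u)| ≤ 1 := by
    rw [map_smul, smul_eq_mul, abs_mul, abs_of_pos (by positivity), one_div_mul_eq_div,
      div_le_one (by positivity)]
    linarith
  simp only [rho, this, if_true]
  exact ENNReal.ofReal_lt_top

end

theorem main : ∃ (X : Type) (_ : AddCommGroup X) (_ : Module ℝ X) (ρ : X → ℝ≥0∞),
    (∀ u, ρ u = 0 ↔ u = 0) ∧ (∀ (α : ℝ) (u : X), |α| = 1 → ρ (α • u) = ρ u) ∧
    (∀ α : ℝ, 0 ≤ α → α ≤ 1 → ∀ u w : X, ρ (α • u + (1 - α) • w) ≤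
      ENNReal.ofReal α * ρ u + ENNReal.ofReal (1 - α) * ρ w) ∧
    (∀ (u : X) (l : ℝ), 0 < l → Tendsto (fun t : ℝ => ρ (t • u)) (𝓝[<] l) (𝓝 (ρ (l • u)))) ∧
    (∀ u : X, ∃ l : ℝ, 0 < l ∧ ρ (l • u) < ⊤) ∧
    ∃ (F : Set X) (x : X), Cl ρ F ∧ x ∉ F ∧
      ∀ U V : Set X, Cl ρ Uᶜ → Cl ρ Vᶜ → x ∈ U → F ⊆ V → (U ∩ V).Nonempty := by
  let b : HilbertBasis ℕ ℝ (lp (fun _ : ℕ => ℝ) 2) := default
  have hl := b.orthonormal.linearIndependent
  let X := Submodule.span ℝ (range b)
  let φ : X →ₗ[ℝ] ℝ := Finsupp.linearCombination ℝ (fun n : ℕ => (n : ℝ) + 1) ∘ₗ hl.repr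
  let e : ℕ → X := fun n => ⟨b n, Submodule.subset_span ⟨n, rfl⟩⟩
  refine ⟨X, inferInstance, inferInstance, rho φ, rho_zero φ, rho_smul φ, rho_conv φ, rho_left φ,
    rho_fin φ, nonreg φ (fun j => (1 / ((j:ℝ) + 1)) • e j) (fun j => ?_) ?_⟩
  · have : hl.repr (e j) = Finsupp.single j 1 := hl.repr_eq_single j (e j) rfl
    rw [map_smul]
    simp only [φ, LinearMap.comp_apply, this, Finsupp.linearCombination_single, smul_eq_mul]
    field_simp
  · have : ∀ j : ℕ, ‖(1 / ((j:ℝ) + 1)) • e j‖ = 1 / ((j:ℝ) + 1) := by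
      intro j
      have h1 : ‖e j‖ = 1 := b.orthonormal.1 j
      rw [norm_smul, h1, mul_one, Real.norm_eq_abs, abs_of_pos (by positivity)]
    simp only [this]
    exact tendsto_one_div_add_atTop_nhds_zero_nat

end H91.Modular
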