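import Mathlib

set_option autoImplicit false

namespace H91.MonoZero

/-- Even, real, entire. -/
def EvenRealEntire (f : ℂ → ℂ) : Prop :=
  Differentiable ℂ f ∧ (∀ z, f (-z) = f z) ∧ ∀ x : ℝ, (f x).im = 0

/-- `F` is not identically zero and has monotonic zeros in the closed first quadrant. -/
def MonoZeros (F : ℂ → ℂ) : Prop :=
  F ≠ 0 ∧ ∀ α β : ℂ, 0 ≤ α.re → 0 ≤ α.im → 0 ≤ β.re → 0 ≤ β.im → F α = 0 → F β = 0 →
    (α.re = β.re → α = β) ∧ (α.re < β.re → α.im ≤ β.im)

/-- Every nonnegative combination that is not identically zero has monotonic zeros. -/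
def Compatible {k : ℕ} (f : Fin k → ℂ → ℂ) : Prop :=
  ∀ c : Fin k → ℝ, (∀ j, 0 ≤ c j) → (fun z => ∑ j, (c j : ℂ) * f j z) ≠ 0 →
    MonoZeros fun z => ∑ j, (c j : ℂ) * f j z

lemma mono_of {F : ℂ → ℂ} (h0 : F ≠ 0)
    (h : ∀ α β, F α = 0 → F β = 0 → (α ^ 2).re = (β ^ 2).re) : MonoZeros F := by
  refine ⟨h0, fun α β h1 h2 h3 h4 h5 h6 => ?_⟩
  have h7 := h α β h5 h6
  simp only [sq, Complex.mul_re] at h7
  refine ⟨fun h8 => Complex.ext h8 ?_, fun h8 => ?_⟩
  · rw [h8] at h7
    exact (mul_self_inj h2 h4).mp (by linarith)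
  · by_contra h9
    push Not at h9
    nlinarith

/-- The functions `exp (j z²)`. -/
noncomputable def g (j : ℕ) (z : ℂ) : ℂ := Complex.exp (j * z ^ 2)

lemma pair {a b : ℕ} (hab : a ≠ b) : Compatible ![g a, g b] := by
  intro c hc h0
  refine mono_of h0 fun α β h1 h2 => ?_
  have key : ∀ z : ℂ, ∑ j, (c j : ℂ) * ![g a, g b] j z = 0 →
      c 0 * Real.exp (a * (z ^ 2).re) = c 1 * Real.exp (b * (z ^ 2).re) := by
    intro z hz
    simp only [Fin.sum_univ_two, Matrix.cons_val_zero, Matrix.cons_val_one, g] at hz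
    have := congrArg norm (eq_neg_of_add_eq_zero_left hz)
    simpa [Complex.norm_exp, abs_of_nonneg (hc 0), abs_of_nonneg (hc 1)] using this
  have e1 := key α h1
  have e2 := key β h2
  have hc0 : c 0 ≠ 0 := by
    intro h
    have : c 1 = 0 := by simpa [h] using e1
    apply h0
    ext z
    simp [h, this]
  have e3 : Real.exp (a * (α ^ 2).re + b * (β ^ 2).re) =
      Real.exp (a * (β ^ 2).re + b * (α ^ 2).re) := by
    rw [Real.exp_add, Real.exp_add]
    apply mul_left_cancel₀ hc0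
    linear_combination Real.exp (b * (β ^ 2).re) * e1 - Real.exp (b * (α ^ 2).re) * e2
  have e4 := Real.exp_injective e3
  have : (a : ℝ) - b ≠ 0 := sub_ne_zero.mpr (by exact_mod_cast hab)
  apply mul_left_cancel₀ this
  linarith

lemma sqrt_ex (s : ℝ) : ∃ x y : ℝ, 0 < x ∧ 0 < y ∧ x ^ 2 - y ^ 2 = s ∧ 2 * x * y = Real.pi := by
  have hp := Real.pi_pos
  set r := Real.sqrt (s ^ 2 + Real.pi ^ 2) with hr
  have h1 : r ^ 2 = s ^ 2 + Real.pi ^ 2 := Real.sq_sqrt (by positivity)
  have h2 : |s| < r := by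
    rw [hr]; exact Real.lt_sqrt_of_sq_lt (by rw [sq_abs]; nlinarith)
  have h3 : 0 < (r + s) / 2 := by linarith [neg_abs_le s]
  have h4 := Real.sq_sqrt h3.le
  have h5 := Real.sqrt_pos.mpr h3
  set x := Real.sqrt ((r + s) / 2)
  refine ⟨x, Real.pi / (2 * x), h5, by positivity, ?_, by field_simp⟩
  have h6 : r + s ≠ 0 := by linarith
  have h7 : Real.pi ^ 2 = (r + s) * (r - s) := by linarith
  rw [div_pow, mul_pow, h4, h7]
  field_simp
  ring

theorem main : ∃ f : Fin 3 → ℂ → ℂ, (∀ j, EvenRealEntire (f j) ∧ MonoZeros (f j)) ∧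
    (∀ i j, i < j → Compatible ![f i, f j]) ∧ ¬ Compatible f := by
  refine ⟨fun j => g j, fun j => ⟨⟨?_, ?_, ?_⟩, ?_⟩, fun i j h => pair ?_, fun h => ?_⟩
  · unfold g; fun_prop
  · intro z; simp [g]
  · intro x
    have : g j x = ((Real.exp (j * x ^ 2) : ℝ) : ℂ) := by simp [g]
    change (g j x).im = 0
    rw [this, Complex.ofReal_im]
  · refine mono_of (fun h => Complex.exp_ne_zero _ (congrFun h 0)) fun α β h => ?_
    exact absurd h (Complex.exp_ne_zero _)
  · exact (Fin.val_ne_of_ne h.ne)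
  · have h1 : ∀ z, ∑ j : Fin 3, ((![2, 3, 1] : Fin 3 → ℝ) j : ℂ) * g j z =
        (Complex.exp (z ^ 2) + 1) * (Complex.exp (z ^ 2) + 2) := by
      intro z
      simp only [Fin.sum_univ_three, g, Fin.val_zero, Fin.val_one, Fin.val_two, Complex.exp_nat_mul]
      simp; ring
    have h2 := h ![2, 3, 1] (fun j => by fin_cases j <;> simp) (fun h3 => by
      have := congrFun h3 0
      simp only [h1] at this
      norm_num at this)
    obtain ⟨x, y, hx, hy, e1, e2⟩ := sqrt_ex 0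
    obtain ⟨x', y', hx', hy', e1', e2'⟩ := sqrt_ex (Real.log 2)
    have hl : 0 < Real.log 2 := Real.log_pos one_lt_two
    have z1 : (⟨x, y⟩ : ℂ) ^ 2 = Real.pi * Complex.I := by
      apply Complex.ext <;> simp [sq] <;> nlinarith
    have z2 : (⟨x', y'⟩ : ℂ) ^ 2 = Real.log 2 + Real.pi * Complex.I := by
      generalize Real.log 2 = L at e1' ⊢
      apply Complex.ext <;> simp [sq] <;> nlinarith
    have h4 : x < x' := by
      by_contra h5
      push Not at h5
      have h6 : y ≤ y' := by nlinarith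
      nlinarith
    have h5 := (h2.2 ⟨x, y⟩ ⟨x', y'⟩ hx.le hy.le hx'.le hy'.le
      (by simp only [h1, z1, Complex.exp_pi_mul_I]; ring)
      (by
        simp only [h1, z2, Complex.exp_add, Complex.exp_pi_mul_I, ← Complex.ofReal_exp,
          Real.exp_log two_pos]
        push_cast; ring)).2 h4
    simp only at h5
    nlinarith

end H91.MonoZero
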