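import Mathlib

set_option autoImplicit false

namespace H91.MultSeq
open Polynomial Finset Filter Topology

/-- `p` has only real zeros (the zero polynomial is allowed) -/
def RR (p : ℝ[X]) : Prop := p = 0 ∨ ∀ z : ℂ, aeval z p = 0 → z.im = 0

/-- the set of `Q`-multiplier sequences -/
def MS (q : ℕ → ℝ[X]) : Set (ℕ → ℝ) := {γ | ∀ (n : ℕ) (a : ℕ → ℝ),
  RR (∑ k ∈ range (n + 1), C (a k) * q k) → RR (∑ k ∈ range (n + 1), C (a k * γ k) * q k)}

noncomputable def P (j k : ℕ) : ℝ[X] := if k ≤ j then ∑ i ∈ range (k + 1), X ^ i else X ^ k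

lemma mono {p : ℝ[X]} (hp : RR p) (z w : ℂ) (h1 : w.re = z.re) (h2 : |w.im| ≤ |z.im|) :
    ‖aeval w p‖ ≤ ‖aeval z p‖ := by
  rcases hp with rfl | hp
  · simp
  have hs := IsAlgClosed.splits (p.map (algebraMap ℝ ℂ))
  rw [← eval_map_algebraMap, ← eval_map_algebraMap, hs.eval_eq_prod_roots, hs.eval_eq_prod_roots,
    norm_mul, norm_mul]
  refine mul_le_mul_of_nonneg_left ?_ (norm_nonneg _)
  have e : ∀ u : ℂ, ‖(Multiset.map (fun r => u - r) (p.map (algebraMap ℝ ℂ)).roots).prod‖ =
      (Multiset.map (fun r => ‖u - r‖) (p.map (algebraMap ℝ ℂ)).roots).prod := by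
    intro u
    have := map_multiset_prod (normHom (α := ℂ))
      (Multiset.map (fun r => u - r) (p.map (algebraMap ℝ ℂ)).roots)
    rw [Multiset.map_map] at this
    exact this
  rw [e, e]
  refine Multiset.prod_map_le_prod_map₀ _ _ (fun _ _ => norm_nonneg _) fun r hr => ?_
  have h3 : r.im = 0 := hp r (by rw [← eval_map_algebraMap]; exact (mem_roots'.1 hr).2)
  rw [← sq_le_sq₀ (norm_nonneg _) (norm_nonneg _), Complex.sq_norm, Complex.sq_norm,
    Complex.normSq_apply, Complex.normSq_apply]
  simp only [Complex.sub_re, Complex.sub_im, h1, h3, sub_zero]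
  have := sq_le_sq.2 h2
  nlinarith

lemma closed {ι : Type*} {l : Filter ι} [l.NeBot] (p : ι → ℝ[X]) (c : ι → ℝ) (g : ℝ[X])
    (hp : ∀ᶠ s in l, RR (p s)) (h : ∀ z : ℂ, Tendsto (fun s => aeval (c s * z) (p s)) l
      (𝓝 (aeval z g))) : RR g := by
  by_contra hg
  simp only [RR, not_or, not_forall] at hg
  obtain ⟨h0, z, hz, hi⟩ := hg
  apply h0
  rw [← Polynomial.map_eq_zero (algebraMap ℝ ℂ)]
  apply Polynomial.eq_zero_of_infinite_isRoot
  have hinj : Function.Injective fun t : ℝ => (⟨z.re, t * z.im⟩ : ℂ) := by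
    intro a b hab
    exact mul_right_cancel₀ hi (congrArg Complex.im hab)
  refine ((Set.Icc_infinite (zero_lt_one' ℝ)).image hinj.injOn).mono ?_
  rintro _ ⟨t, ht, rfl⟩
  simp only [Set.mem_ofPred_eq, IsRoot.def, eval_map_algebraMap]
  rw [← norm_le_zero_iff, ← norm_zero (E := ℂ), ← hz]
  refine le_of_tendsto_of_tendsto (h _).norm (h z).norm (hp.mono fun s hs => mono hs _ _ ?_ ?_)
  · simp
  · simp only [Complex.im_ofReal_mul, abs_mul]
    refine mul_le_mul_of_nonneg_left (mul_le_of_le_one_left (abs_nonneg _) ?_) (abs_nonneg _)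
    rw [abs_of_nonneg ht.1]; exact ht.2

lemma abel (c : ℕ → ℝ) (j r : ℕ) :
    ∑ k ∈ range (j + r + 1), C (if k < j then c k - c (k + 1) else c k) * P j k =
      ∑ k ∈ range (j + r + 1), C (c k) * X ^ k := by
  induction r with
  | zero =>
    have key : ∀ m, ∑ k ∈ range m, C (c k - c (k + 1)) * (∑ i ∈ range (k + 1), X ^ i) +
        C (c m) * ∑ i ∈ range (m + 1), X ^ i = ∑ k ∈ range (m + 1), C (c k) * (X : ℝ[X]) ^ k := by
      intro m
      induction m with
      | zero => simp
      | succ m ih =>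
        rw [sum_range_succ, sum_range_succ _ (m + 1), sum_range_succ (fun k => C (c k) * _), ← ih,
          C_sub]
        ring
    rw [add_zero, ← key, sum_range_succ]
    congr 1
    · refine sum_congr rfl fun k hk => ?_
      have := mem_range.1 hk
      rw [if_pos this, P, if_pos this.le]
    · simp [P]
  | succ r ih =>
    rw [← add_assoc, sum_range_succ, ih, sum_range_succ _ (j + r + 1), if_neg (by omega), P,
      if_neg (by omega)]

lemma incl (j : ℕ) : MS (P j) ⊆ MS fun k => X ^ k := by
  intro γ hγ n a ha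
  let b : ℕ → ℝ := fun k => if k ≤ n then a k else 0
  have ext : ∀ f : ℕ → ℝ, ∑ k ∈ range (j + n + 1), C (b k * f k) * (X : ℝ[X]) ^ k =
      ∑ k ∈ range (n + 1), C (a k * f k) * X ^ k := by
    intro f
    rw [← sum_subset (range_mono (by omega : n + 1 ≤ j + n + 1))]
    · refine sum_congr rfl fun k hk => ?_
      simp only [b]; rw [if_pos (by have := mem_range.1 hk; omega)]
    · intro k _ hk
      simp only [b]; rw [if_neg (by simp at hk; omega)]; simp
  rw [← ext]
  refine closed (l := 𝓝[≠] (0 : ℝ)) (fun s => ∑ k ∈ range (j + n + 1),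
    C ((if k < j then b k * s ^ k - b (k + 1) * s ^ (k + 1) else b k * s ^ k) * γ k) * P j k)
    (fun s => s⁻¹) _ ?_ fun z => ?_
  · filter_upwards [self_mem_nhdsWithin] with s hs
    apply hγ
    rw [abel (fun k => b k * s ^ k), ext]
    have e : ∀ z : ℂ, aeval z (∑ k ∈ range (n + 1), C (a k * s ^ k) * (X : ℝ[X]) ^ k) =
        aeval (s * z) (∑ k ∈ range (n + 1), C (a k) * (X : ℝ[X]) ^ k) := by
      intro z
      simp [mul_pow, mul_assoc]
    rcases ha with ha | ha
    · left
      rw [← Polynomial.map_eq_zero (algebraMap ℝ ℂ)]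
      apply Polynomial.funext
      intro z
      rw [eval_map_algebraMap, e, ha]; simp
    · right
      intro z hz
      have := ha _ (e z ▸ hz)
      simp only [Complex.im_ofReal_mul] at this
      exact (mul_eq_zero.1 this).resolve_left hs
  · simp only [map_sum, map_mul, aeval_C, map_pow, aeval_X]
    refine tendsto_finsetSum _ fun k _ => ?_
    let F : ℝ → ℂ := fun s => ((if k < j then b k - b (k + 1) * s else b k : ℝ) : ℂ) * γ k *
      (if k ≤ j then ∑ i ∈ range (k + 1), (s : ℂ) ^ (k - i) * z ^ i else z ^ k)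
    have hF : Continuous F := by
      simp only [F]; split_ifs <;> fun_prop
    have h0 : F 0 = algebraMap ℝ ℂ (b k) * algebraMap ℝ ℂ (γ k) * z ^ k := by
      have : ∑ i ∈ range (k + 1), (0 : ℂ) ^ (k - i) * z ^ i = z ^ k := by
        rw [sum_range_succ, sum_eq_zero]
        · simp
        · intro i hi
          rw [zero_pow (by have := mem_range.1 hi; omega), zero_mul]
      simp [F, this]
    rw [← h0]
    refine ((hF.tendsto 0).mono_left nhdsWithin_le_nhds).congr' ?_
    filter_upwards [self_mem_nhdsWithin] with s hs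
    have hs' : (s : ℂ) ≠ 0 := by exact_mod_cast hs
    have e1 : (if k ≤ j then ∑ i ∈ range (k + 1), (s : ℂ) ^ (k - i) * z ^ i else z ^ k) =
        (s : ℂ) ^ k * aeval (((s⁻¹ : ℝ) : ℂ) * z) (P j k) := by
      unfold P
      split_ifs
      · simp only [map_sum, map_pow, aeval_X, mul_sum]
        refine sum_congr rfl fun i hi => ?_
        obtain ⟨d, rfl⟩ := Nat.exists_eq_add_of_le (Nat.lt_succ_iff.1 (mem_range.1 hi))
        simp only [Nat.add_sub_cancel_left, mul_pow, pow_add]
        push_cast
        rw [inv_pow]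
        field_simp
      · simp only [map_pow, aeval_X, mul_pow]
        push_cast
        rw [inv_pow]
        field_simp
    simp only [F, e1]
    split_ifs <;> simp <;> ring

lemma geom_not (m : ℕ) (hm : 2 ≤ m) : ¬ RR (∑ i ∈ range (m + 1), X ^ i) := by
  rintro (h | h)
  · have := congrArg (eval 1) h
    simp [eval_finsetSum] at this
    linarith [(Nat.cast_nonneg m : (0 : ℝ) ≤ m)]
  · have h1 := (Complex.isPrimitiveRoot_exp (m + 1) (by omega)).geom_sum_eq_zero (by omega)
    have h2 := h _ (by simpa using h1)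
    have e : 2 * (Real.pi : ℂ) * Complex.I / ((m + 1 : ℕ) : ℂ) =
        ((2 * Real.pi / (m + 1) : ℝ) : ℂ) * Complex.I := by push_cast; ring
    have h3 : (2 : ℝ) ≤ m := by exact_mod_cast hm
    have h4 : 0 < Real.sin (2 * Real.pi / (m + 1)) :=
      Real.sin_pos_of_pos_of_lt_pi (by have := Real.pi_pos; positivity) (by
        rw [div_lt_iff₀ (by linarith)]; nlinarith [Real.pi_pos])
    rw [← Complex.exp_ofReal_mul_I_im, ← e] at h4
    push_cast at h2 h4
    linarith

lemma RR_pow (c : ℝ) (m : ℕ) : RR (C c * X ^ m) := by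
  by_cases hc : c = 0
  · left; simp [hc]
  · right
    intro z hz
    simp [hc] at hz
    simp [hz.1]

lemma quad_not (p : ℝ[X]) (a b c : ℝ) (hp : p = C a * X ^ 2 + C b * X + C c) (ha : 0 < a)
    (h : b ^ 2 < 4 * a * c) : ¬ RR p := by
  have hd : 0 < 4 * a * c - b ^ 2 := by linarith
  rintro (h0 | h0)
  · have := congrArg (coeff · 2) (hp ▸ h0)
    simp at this
    linarith
  · have := h0 ⟨-b / (2 * a), √(4 * a * c - b ^ 2) / (2 * a)⟩ (by
      have hs := Real.mul_self_sqrt hd.le
      rw [hp]
      generalize √(4 * a * c - b ^ 2) = w at hs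
      apply Complex.ext
      · simp [sq]; field_simp; nlinarith
      · simp [sq]; field_simp; ring)
    exact (div_pos (Real.sqrt_pos.2 hd) (by linarith)).ne' this

lemma sep {i j : ℕ} (hj : 1 ≤ j) (hij : j < i) : MS (P i) ≠ MS (P j) := by
  intro h
  have h1 : (fun k => if k = j + 1 then (1 : ℝ) else 0) ∈ MS (P j) := by
    intro n a _
    have : ∑ k ∈ range (n + 1), C (a k * if k = j + 1 then (1 : ℝ) else 0) * P j k =
        C (if j + 1 ∈ range (n + 1) then a (j + 1) else 0) * X ^ (j + 1) := by
      have e : ∀ k, C (a k * if k = j + 1 then (1 : ℝ) else 0) * P j k =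
          if k = j + 1 then C (a (j + 1)) * X ^ (j + 1) else 0 := by
        intro k; split_ifs with hk
        · simp [hk, P]
        · simp
      simp only [e, sum_ite_eq']
      split_ifs <;> simp
    rw [this]; exact RR_pow _ _
  rw [← h] at h1
  have h2 := h1 (j + 1) (fun k => if k = j + 1 then 1 else if k = j then -1 else 0) (by
    rw [sum_range_succ, sum_range_succ, sum_eq_zero]
    · have := RR_pow 1 (j + 1)
      convert this using 1
      simp [P, hij.le, Nat.succ_le_of_lt hij, sum_range_succ _ (j + 1)]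
    · intro k hk
      have := mem_range.1 hk
      rw [if_neg (by omega), if_neg (by omega)]; simp)
  apply geom_not (j + 1) (by omega)
  convert h2 using 1
  rw [sum_range_succ _ (j + 1), sum_range_succ _ (j + 1), sum_eq_zero (s := range (j + 1))
    (f := fun k => C (_ * _) * _)]
  · simp [P, Nat.succ_le_of_lt hij, sum_range_succ _ (j + 1)]
  · intro k hk
    have := mem_range.1 hk
    have e : k ≠ j + 1 := by omega
    simp [e]

theorem main : (∀ j k, (P j k).degree = k) ∧
    (∀ i j, 1 ≤ i → 1 ≤ j → i ≠ j → MS (P i) ≠ MS (P j)) ∧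
    (⋃ j ∈ {j : ℕ | 1 ≤ j}, MS (P j)) ⊂ MS (fun k => X ^ k) := by
  refine ⟨fun j k => ?_, fun i j hi hj hij => ?_, ?_⟩
  · unfold P
    split_ifs
    · rw [sum_range_succ, degree_add_eq_right_of_degree_lt, degree_X_pow]
      rw [degree_X_pow]
      refine (degree_sum_le _ _).trans_lt ((Finset.sup_lt_iff (WithBot.bot_lt_coe _)).2 fun i hi => ?_)
      rw [degree_X_pow]; exact Nat.cast_lt.2 (mem_range.1 hi)
    · exact degree_X_pow k
  · rcases lt_or_gt_of_ne hij with h | h
    · exact (sep hi h).symm
    · exact sep hj h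
  · refine ⟨Set.iUnion₂_subset fun j _ => incl j, fun h => ?_⟩
    have h1 : (fun k => (2 : ℝ) ^ k) ∈ MS fun k => X ^ k := by
      intro n a ha
      have e : ∀ z : ℂ, aeval z (∑ k ∈ range (n + 1), C (a k * 2 ^ k) * (X : ℝ[X]) ^ k) =
          aeval (2 * z) (∑ k ∈ range (n + 1), C (a k) * (X : ℝ[X]) ^ k) := by
        intro z
        simp [mul_pow, mul_assoc]
      rcases ha with ha | ha
      · left
        rw [← Polynomial.map_eq_zero (algebraMap ℝ ℂ)]
        apply Polynomial.funext
        intro z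
        rw [eval_map_algebraMap, e, ha]; simp
      · right
        intro z hz
        simpa using ha _ ((e z).symm.trans hz)
    obtain ⟨j, hj, h2⟩ := Set.mem_iUnion₂.1 (h h1)
    rcases (show 1 ≤ j from hj).lt_or_eq with h3 | rfl
    · have h4 := h2 2 (fun k => if k = 2 then 1 else if k = 1 then -1 else 0) (by
        convert RR_pow 1 2 using 1
        simp [sum_range_succ, P, hj.out, Nat.succ_le_of_lt h3]
        ring)
      refine quad_not _ 4 2 2 ?_ (by norm_num) (by norm_num) h4
      simp [sum_range_succ, P, hj.out, Nat.succ_le_of_lt h3, map_ofNat]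
      ring
    · have h4 := h2 2 (fun k => if k = 0 then -1 else 1) (by
        right
        intro z hz
        have : z * (z + 1) = 0 := by
          simp [sum_range_succ, P] at hz
          linear_combination hz
        rcases mul_eq_zero.1 this with h5 | h5
        · simp [h5]
        · simpa using congrArg Complex.im h5)
      refine quad_not _ 4 2 1 ?_ (by norm_num) (by norm_num) h4
      simp [sum_range_succ, P, map_ofNat]
      ring

end H91.MultSeq
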