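import Mathlib

set_option autoImplicit false

namespace Pool.Agent.H91.Neumann

open BoundedContinuousFunction Filter Topology

variable (𝕜 : Type) [RCLike 𝕜]

def X := ℕ →ᵇ 𝕜

noncomputable instance : NormedAddCommGroup (X 𝕜) := inferInstanceAs (NormedAddCommGroup (ℕ →ᵇ 𝕜))
noncomputable instance : NormedSpace 𝕜 (X 𝕜) := inferInstanceAs (NormedSpace 𝕜 (ℕ →ᵇ 𝕜))
instance : CompleteSpace (X 𝕜) := inferInstanceAs (CompleteSpace (ℕ →ᵇ 𝕜))
instance : CoeFun (X 𝕜) (fun _ => ℕ → 𝕜) := ⟨fun x => (show ℕ →ᵇ 𝕜 from x)⟩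

lemma X_le (x : X 𝕜) (n : ℕ) : ‖x n‖ ≤ ‖x‖ := BoundedContinuousFunction.norm_coe_le_norm x n
lemma X_norm_le (x : X 𝕜) {C : ℝ} (hC : 0 ≤ C) (h : ∀ n, ‖x n‖ ≤ C) : ‖x‖ ≤ C :=
  (BoundedContinuousFunction.norm_le hC).mpr h
lemma X_ext {x y : X 𝕜} (h : ∀ n, x n = y n) : x = y := BoundedContinuousFunction.ext h

lemma V_bound (x : X 𝕜) (n : ℕ) : ‖x (n + 1) / ((n + 1 : ℕ) : 𝕜)‖ ≤ ‖x‖ := by
  rw [norm_div, RCLike.norm_natCast]
  have h1 := X_le 𝕜 x (n + 1)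
  have h2 : (1 : ℝ) ≤ ((n + 1 : ℕ) : ℝ) := by exact_mod_cast Nat.succ_pos n
  rw [div_le_iff₀ (by linarith)]
  nlinarith [norm_nonneg x]

noncomputable def V0 : X 𝕜 →ₗ[𝕜] X 𝕜 where
  toFun x := ofNormedAddCommGroupDiscrete (fun n => x (n + 1) / ((n + 1 : ℕ) : 𝕜)) ‖x‖ (V_bound 𝕜 x)
  map_add' x y := X_ext 𝕜 fun n => add_div (x (n + 1)) (y (n + 1)) _
  map_smul' c x := X_ext 𝕜 fun n => mul_div_assoc c (x (n + 1)) _

noncomputable def V : X 𝕜 →L[𝕜] X 𝕜 :=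
  (V0 𝕜).mkContinuous 1 (fun x => by
    rw [one_mul]
    exact X_norm_le 𝕜 _ (norm_nonneg x) (V_bound 𝕜 x))

lemma V_apply (x : X 𝕜) (n : ℕ) : V 𝕜 x n = x (n + 1) / ((n + 1 : ℕ) : 𝕜) := rfl

lemma V_pow (m : ℕ) (x : X 𝕜) (n : ℕ) :
    ‖((V 𝕜) ^ m) x n‖ ≤ ‖x‖ * (n.factorial / (n + m).factorial) := by
  induction m generalizing n with
  | zero =>
    have : (n.factorial : ℝ) ≠ 0 := by positivity
    simp [div_self this, X_le 𝕜 x n]
  | succ m ih =>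
    rw [pow_succ', mul_apply_eq_comp, V_apply, norm_div, RCLike.norm_natCast,
      div_le_iff₀ (by positivity)]
    refine le_trans (ih (n + 1)) (le_of_eq ?_)
    rw [Nat.factorial_succ n, show n + 1 + m = n + (m + 1) by ring]
    push_cast; ring

lemma V_pow_norm (m : ℕ) : ‖(V 𝕜) ^ m‖ ≤ 1 / m.factorial := by
  apply ContinuousLinearMap.opNorm_le_bound _ (by positivity)
  intro x
  apply X_norm_le 𝕜 _ (by positivity)
  intro n
  refine le_trans (V_pow 𝕜 m x n) ?_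
  rw [mul_comm]
  refine mul_le_mul_of_nonneg_right ?_ (norm_nonneg _)
  rw [div_le_div_iff₀ (by positivity) (by positivity), one_mul]
  exact_mod_cast Nat.le_of_dvd (Nat.factorial_pos _)
    (Nat.factorial_mul_factorial_dvd_factorial_add n m)

lemma unit_one_sub (μ : 𝕜) : IsUnit (1 - μ • V 𝕜) := by
  have h := FloorSemiring.tendsto_pow_div_factorial_atTop ‖μ‖
  obtain ⟨m, hm⟩ := (h.eventually (gt_mem_nhds one_pos)).exists
  have h1 : ‖(μ • V 𝕜) ^ m‖ < 1 := by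
    rw [smul_pow, norm_smul, norm_pow]
    refine lt_of_le_of_lt ?_ hm
    rw [div_eq_mul_one_div]
    gcongr
    exact V_pow_norm 𝕜 m
  have h2 : IsUnit (1 - (μ • V 𝕜) ^ m) := isUnit_one_sub_of_norm_lt_one h1
  rw [← mul_neg_geom_sum] at h2
  have hc : Commute (1 - μ • V 𝕜) (∑ i ∈ Finset.range m, (μ • V 𝕜) ^ i) := by
    apply Commute.sum_right
    intro i _
    exact (Commute.one_left _).sub_left ((Commute.refl _).pow_right i)
  exact (hc.isUnit_mul_iff.mp h2).1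

def Esub : Submodule 𝕜 (ℕ → X 𝕜) where
  carrier := {x | ∀ k, V 𝕜 (x (k + 1)) = x k}
  add_mem' := by
    intro a b ha hb k
    simp only [Pi.add_apply, map_add, ha k, hb k]
  zero_mem' := by intro k; simp
  smul_mem' := by
    intro c a ha k
    simp only [Pi.smul_apply, map_smul, ha k]

lemma Esub_closed : IsClosed (Esub 𝕜 : Set (ℕ → X 𝕜)) := by
  have : (Esub 𝕜 : Set (ℕ → X 𝕜)) = ⋂ k, {x | V 𝕜 (x (k + 1)) = x k} := by
    ext x; simp only [Set.mem_iInter]; rfl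
  rw [this]
  exact isClosed_iInter fun k => isClosed_eq (by fun_prop) (by fun_prop)

instance : CompleteSpace (Esub 𝕜) := (Esub_closed 𝕜).completeSpace_coe

lemma seminorms : ∃ p : ℕ → Seminorm 𝕜 (Esub 𝕜), WithSeminorms p := by
  have h1 := withSeminorms_pi (ι := ℕ) (E := fun _ => X 𝕜) (fun _ => norm_withSeminorms 𝕜 (X 𝕜))
  have h2 := Topology.IsInducing.withSeminorms h1 (f := (Esub 𝕜).subtype) IsInducing.subtypeVal
  exact ⟨_, h2.congr_equiv (Equiv.sigmaUnique ℕ (fun _ => Fin 1)).symm⟩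

noncomputable def U : Esub 𝕜 →L[𝕜] Esub 𝕜 where
  toFun x := ⟨fun k => x.1 (k + 1), fun k => x.2 (k + 1)⟩
  map_add' _ _ := rfl
  map_smul' _ _ := rfl
  cont := by
    apply Continuous.subtype_mk
    exact continuous_pi fun k => (continuous_apply (k + 1)).comp continuous_subtype_val

lemma U_bij (l : 𝕜) : Function.Bijective (fun x : Esub 𝕜 => x - l • U 𝕜 x) := by
  by_cases hl : l = 0
  · subst hl; simp only [zero_smul, sub_zero]; exact Function.bijective_id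
  have hu : IsUnit (V 𝕜 - l • (1 : X 𝕜 →L[𝕜] X 𝕜)) := by
    have e : V 𝕜 - l • (1 : X 𝕜 →L[𝕜] X 𝕜) = (-l) • (1 - l⁻¹ • V 𝕜) := by
      rw [smul_sub, smul_smul, neg_mul, mul_inv_cancel₀ hl, neg_smul, neg_smul, one_smul]; abel
    rw [e]
    exact (unit_one_sub 𝕜 l⁻¹).smul (Units.mk0 (-l) (neg_ne_zero.mpr hl))
  obtain ⟨W, hW⟩ := hu
  have hc : Commute (V 𝕜) W := by
    rw [hW]; exact (Commute.refl _).sub_right ((Commute.one_right _).smul_right l)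
  have hc2 : Commute (V 𝕜) (↑W⁻¹ : X 𝕜 →L[𝕜] X 𝕜) := hc.units_inv_right
  have key : ∀ (x : Esub 𝕜) (k : ℕ), (x - l • U 𝕜 x).1 k = (W : X 𝕜 →L[𝕜] X 𝕜) (x.1 (k + 1)) := by
    intro x k
    rw [hW]
    have := x.2 k
    simp only [_root_.sub_apply, _root_.smul_apply,
      one_apply_eq_self, this]
    rfl
  constructor
  · intro x y h
    have h1 : ∀ k, x.1 (k + 1) = y.1 (k + 1) := by
      intro k
      have h2 : (W : X 𝕜 →L[𝕜] X 𝕜) (x.1 (k + 1)) = (W : X 𝕜 →L[𝕜] X 𝕜) (y.1 (k + 1)) := by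
        rw [← key, ← key]; simp only at h; rw [h]
      have h3 := congrArg (↑W⁻¹ : X 𝕜 →L[𝕜] X 𝕜) h2
      rwa [← mul_apply_eq_comp, ← mul_apply_eq_comp, W.inv_mul,
        one_apply_eq_self, one_apply_eq_self] at h3
    apply Subtype.ext
    funext k
    rw [← x.2 k, ← y.2 k, h1 k]
  · intro y
    have hVW : ∀ z : X 𝕜, V 𝕜 ((↑W⁻¹ : X 𝕜 →L[𝕜] X 𝕜) z) = (↑W⁻¹ : X 𝕜 →L[𝕜] X 𝕜) (V 𝕜 z) := by
      intro z
      rw [← mul_apply_eq_comp, hc2.eq, mul_apply_eq_comp]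
    refine ⟨⟨fun k => V 𝕜 ((↑W⁻¹ : X 𝕜 →L[𝕜] X 𝕜) (y.1 k)), fun k => ?_⟩, ?_⟩
    · show V 𝕜 (V 𝕜 ((↑W⁻¹ : X 𝕜 →L[𝕜] X 𝕜) (y.1 (k + 1)))) = _
      rw [hVW (y.1 (k + 1)), y.2 k]
    · apply Subtype.ext
      funext k
      simp only
      rw [key]
      simp only
      rw [hVW, ← mul_apply_eq_comp, W.mul_inv, one_apply_eq_self, y.2 k]

noncomputable def e (k : ℕ) : X 𝕜 :=
  ofNormedAddCommGroupDiscrete (fun n => if n = k then (k.factorial : 𝕜) else 0) k.factorial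
    (fun n => by split_ifs <;> simp)

lemma e_apply (k n : ℕ) : e 𝕜 k n = if n = k then (k.factorial : 𝕜) else 0 := rfl

noncomputable def x0 : Esub 𝕜 := ⟨e 𝕜, fun k => by
  apply X_ext
  intro n
  rw [V_apply, e_apply, e_apply]
  by_cases h : n = k
  · subst h
    have : ((n + 1 : ℕ) : 𝕜) ≠ 0 := by exact_mod_cast Nat.succ_ne_zero n
    simp only [if_true, Nat.factorial_succ, Nat.cast_mul]
    field_simp
  · simp [h]⟩

lemma U_pow (m : ℕ) (x : Esub 𝕜) (k : ℕ) : ((U 𝕜 ^ m) x).1 k = x.1 (k + m) := by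
  induction m generalizing k with
  | zero => simp
  | succ m ih =>
    rw [pow_succ', mul_apply_eq_comp]
    show ((U 𝕜 ^ m) x).1 (k + 1) = _
    rw [ih, show k + 1 + m = k + (m + 1) by ring]

lemma diverges (l : 𝕜) (hl : l ≠ 0) (y : Esub 𝕜) :
    ¬ Tendsto (fun n : ℕ => ∑ k ∈ Finset.range n, l ^ k • (U 𝕜 ^ k) (x0 𝕜)) atTop (𝓝 y) := by
  intro h
  have h1 := ((tendsto_add_atTop_iff_nat 1).mpr h).sub h
  simp only [Finset.sum_range_succ, add_sub_cancel_left, sub_self] at h1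
  have hc : Continuous (fun x : Esub 𝕜 => ‖x.1 0‖) :=
    ((continuous_apply 0).comp continuous_subtype_val).norm
  have h2 := (hc.tendsto 0).comp h1
  have h3 := FloorSemiring.tendsto_pow_div_factorial_atTop ‖l‖⁻¹
  have h4 := h2.mul h3
  simp only [mul_zero] at h4
  obtain ⟨m, hm⟩ := (h4.eventually (gt_mem_nhds one_pos)).exists
  apply not_le.mpr hm
  have hl0 : 0 < ‖l‖ := norm_pos_iff.mpr hl
  have e1 : (l ^ m • (U 𝕜 ^ m) (x0 𝕜)).1 0 = l ^ m • e 𝕜 m := by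
    show l ^ m • ((U 𝕜 ^ m) (x0 𝕜)).1 0 = _
    rw [U_pow, zero_add]; rfl
  have e2 : (m.factorial : ℝ) ≤ ‖e 𝕜 m‖ := by
    have := X_le 𝕜 (e 𝕜 m) m
    rw [e_apply] at this
    simpa using this
  simp only [Function.comp]
  rw [e1, norm_smul, norm_pow, inv_pow]
  have : (0 : ℝ) < m.factorial := by positivity
  calc (1 : ℝ) = ‖l‖ ^ m * m.factorial * ((‖l‖ ^ m)⁻¹ / m.factorial) := by field_simp
    _ ≤ _ := by gcongr

end Pool.Agent.H91.Neumann
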