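import Mathlib

set_option autoImplicit false
open Set Complex
open scoped Pointwise

namespace Pool.Agent.H91.Ni

section
variable {X : Type} [NormedAddCommGroup X] [NormedSpace ℝ X]

/-- numerical radius -/
noncomputable def nr (T : X →L[ℝ] X) : ℝ :=
  sSup {r | ∃ (x : X) (f : StrongDual ℝ X), ‖x‖ = 1 ∧ ‖f‖ = 1 ∧ f x = 1 ∧ r = |f (T x)|}

/-- quotient norm modulo the skew-hermitian operators -/
noncomputable def qn (T : X →L[ℝ] X) : ℝ := sInf {r | ∃ S : X →L[ℝ] X, nr S = 0 ∧ r = ‖T + S‖}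

/-- second numerical index -/
noncomputable def n2 (X : Type) [NormedAddCommGroup X] [NormedSpace ℝ X] : ℝ :=
  sInf {r | ∃ T : X →L[ℝ] X, qn T = 1 ∧ r = nr T}

theorem le_nr (T : X →L[ℝ] X) {x : X} {f : StrongDual ℝ X} (hx : ‖x‖ = 1) (h1 : f x = 1)
    (h2 : ∀ z, |f z| ≤ ‖z‖) : |f (T x)| ≤ nr T := by
  have hf : ‖f‖ = 1 := le_antisymm (f.opNorm_le_bound zero_le_one fun z => by simpa using h2 z)
    (by simpa [h1] using f.unit_le_opNorm x hx.le)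
  refine le_csSup ⟨‖T‖, ?_⟩ ⟨x, f, hx, hf, h1, rfl⟩
  rintro _ ⟨x, f, hx, hf, -, rfl⟩
  exact (f.le_opNorm _).trans (by rw [hf, one_mul]; exact T.unit_le_opNorm x hx.le)

theorem nr_le {T : X →L[ℝ] X} {v : ℝ} (v0 : 0 ≤ v) (h : ∀ (x : X) (f : StrongDual ℝ X), ‖x‖ = 1 →
    f x = 1 → (∀ z, |f z| ≤ ‖z‖) → |f (T x)| ≤ v) : nr T ≤ v := by
  refine Real.sSup_le ?_ v0
  rintro _ ⟨x, f, hx, hf, h1, rfl⟩
  exact h x f hx h1 fun z => by simpa [hf] using f.le_opNorm z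

theorem nr_nonneg (T : X →L[ℝ] X) : 0 ≤ nr T :=
  Real.sSup_nonneg (by rintro _ ⟨x, f, -, -, -, rfl⟩; exact abs_nonneg _)

theorem nr_smul {S : X →L[ℝ] X} (h : nr S = 0) (c : ℝ) : nr (c • S) = 0 :=
  le_antisymm (nr_le le_rfl fun x f hx h1 h2 => by
    have := le_nr S hx h1 h2
    rw [h, abs_nonpos_iff] at this
    simp [this]) (nr_nonneg _)

theorem nr_zero : nr (0 : X →L[ℝ] X) = 0 :=
  le_antisymm (nr_le le_rfl fun x f _ _ _ => by simp) (nr_nonneg _)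

theorem exT {T : X →L[ℝ] X} {v N : ℝ} (N0 : 0 < N) (hv : nr T ≤ v)
    (hN : ∀ S, nr S = 0 → N ≤ ‖T + S‖) : ∃ T' : X →L[ℝ] X, qn T' = 1 ∧ nr T' ≤ v / N := by
  have h1 : N ≤ qn T := le_csInf ⟨_, 0, nr_zero, rfl⟩ (by rintro _ ⟨S, hS, rfl⟩; exact hN S hS)
  have q0 := N0.trans_le h1
  have v0 := (nr_nonneg T).trans hv
  refine ⟨(qn T)⁻¹ • T, ?_, nr_le (by positivity) fun x f hx h2 h3 => ?_⟩
  · have e : {r | ∃ S : X →L[ℝ] X, nr S = 0 ∧ r = ‖(qn T)⁻¹ • T + S‖} =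
        (qn T)⁻¹ • {r | ∃ S : X →L[ℝ] X, nr S = 0 ∧ r = ‖T + S‖} := by
      ext r
      constructor
      · rintro ⟨S, hS, rfl⟩
        refine ⟨_, ⟨qn T • S, nr_smul hS _, rfl⟩, ?_⟩
        show (qn T)⁻¹ * _ = _
        rw [← abs_of_pos (inv_pos.2 q0), ← Real.norm_eq_abs, ← norm_smul, smul_add, smul_smul,
          inv_mul_cancel₀ q0.ne', one_smul, Real.norm_eq_abs, abs_of_pos (inv_pos.2 q0)]
      · rintro ⟨_, ⟨S, hS, rfl⟩, rfl⟩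
        refine ⟨(qn T)⁻¹ • S, nr_smul hS _, ?_⟩
        show (qn T)⁻¹ * _ = _
        rw [← smul_add, norm_smul, Real.norm_eq_abs, abs_of_pos (inv_pos.2 q0)]
    rw [qn, e, Real.sInf_smul_of_nonneg (inv_pos.2 q0).le]
    exact inv_mul_cancel₀ q0.ne'
  · rw [smul_apply, map_smul, smul_eq_mul, abs_mul, abs_of_pos (inv_pos.2 q0), ← div_eq_inv_mul]
    exact div_le_div₀ v0 ((le_nr T hx h2 h3).trans hv) N0 h1

theorem n2_le {T : X →L[ℝ] X} {v N : ℝ} (N0 : 0 < N) (hv : nr T ≤ v)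
    (hN : ∀ S, nr S = 0 → N ≤ ‖T + S‖) : n2 X ≤ v / N := by
  obtain ⟨T', h1, h2⟩ := exT N0 hv hN
  refine le_trans (csInf_le ⟨0, ?_⟩ ?_) h2
  · rintro _ ⟨T, -, rfl⟩
    exact nr_nonneg T
  · exact ⟨T', h1, rfl⟩
end

theorem le_of_sq_le_sq' {a b : ℝ} (h : a ^ 2 ≤ b ^ 2) (hb : 0 ≤ b) : a ≤ b :=
  (abs_le_of_sq_le_sq' h hb).2

theorem nsq (z : ℂ) : ‖z‖ ^ 2 = z.re ^ 2 + z.im ^ 2 := by rw [Complex.sq_norm, normSq_apply]; ring

theorem inn (y z : ℂ) : innerSL ℝ y z = y.re * z.re + y.im * z.im := by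
  simp [Complex.inner]; ring

theorem cs (y z : ℂ) : |innerSL ℝ y z| ≤ ‖y‖ * ‖z‖ := abs_real_inner_le_norm y z

theorem arith {ρ a b d : ℝ} (h0 : 0 ≤ ρ) (h1 : ρ ≤ 1) (h2 : ρ * (a ^ 2 + b ^ 2) = ρ)
    (h3 : a ^ 2 + b ^ 2 ≤ 1) (h4 : |d| ≤ 1) : |ρ * (a ^ 2 - 7 * b ^ 2 + 8 * d * a)| ≤ 9 := by
  have h5 : |d * a| ≤ |a| := by rw [abs_mul]; exact mul_le_of_le_one_left (abs_nonneg _) h4
  have h6 : |a| ≤ 1 := by rw [← sq_le_one_iff_abs_le_one]; nlinarith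
  have h7 := sq_abs a
  have e : ρ * (a ^ 2 - 7 * b ^ 2 + 8 * d * a) = ρ * (8 * |a| ^ 2 - 7 + 8 * (d * a)) := by
    rw [h7]; linarith
  rw [e, abs_mul, abs_of_nonneg h0]
  refine (mul_le_of_le_one_left (abs_nonneg _) h1).trans (abs_le.2 ⟨?_, ?_⟩) <;>
    nlinarith [abs_le.1 h5, sq_nonneg (2 * |a| - 1), abs_nonneg a]

theorem dec (y w : ℂ) : (y, w) = y.re • ((1:ℂ), (0:ℂ)) + y.im • (I, 0) + w.re • (0, 1)
    + w.im • (0, I) := by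
  ext <;> simp

noncomputable def T0 : ℂ × ℂ →L[ℝ] ℂ × ℂ :=
  (reCLM ∘L .fst ℝ ℂ ℂ + (8:ℝ) • reCLM ∘L .snd ℝ ℂ ℂ).smulRight (1, 0) +
    ((-7:ℝ) • imCLM ∘L .fst ℝ ℂ ℂ).smulRight (I, 0)

theorem T0e (x : ℂ × ℂ) :
    T0 x = (x.1.re + 8 * x.2.re) • ((1:ℂ), (0:ℂ)) + (-7 * x.1.im) • (I, 0) := rfl

theorem state (x : ℂ × ℂ) (f : StrongDual ℝ (ℂ × ℂ)) (hx : ‖x‖ = 1) (h1 : f x = 1)
    (h2 : ∀ z, |f z| ≤ ‖z‖) : ∃ ρ, 0 ≤ ρ ∧ ρ ≤ 1 ∧ ρ * (x.1.re ^ 2 + x.1.im ^ 2) = ρ ∧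
      f (1, 0) = ρ * x.1.re ∧ f (I, 0) = ρ * x.1.im := by
  have e : ∀ y : ℂ, f (y, 0) = y.re * f (1, 0) + y.im * f (I, 0) := fun y => by
    rw [dec y 0]; simp only [map_add, map_smul, smul_eq_mul, zero_re, zero_im, zero_mul, add_zero]
  have x1 : ‖x.1‖ ≤ 1 := hx ▸ norm_fst_le x
  have k : ∀ y : ℂ, ‖y‖ ≤ 1 → f (y, 0) ≤ f (x.1, 0) := fun y hy => by
    have h3 := (le_abs_self _).trans (h2 (y, x.2))
    have h4 : ‖(y, x.2)‖ ≤ 1 := max_le hy (hx ▸ norm_snd_le x)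
    have h5 : f (y, x.2) = f (y, 0) + f (0, x.2) := by rw [← map_add]; simp
    have h6 : f x = f (x.1, 0) + f (0, x.2) := by rw [← map_add]; simp
    linarith
  set c : ℂ := ⟨f (1, 0), f (I, 0)⟩ with hc
  have n := nsq c
  have n1 := nsq x.1
  have s1 : f (x.1, 0) ≤ 1 := ((le_abs_self _).trans (h2 _)).trans (by simpa using x1)
  have r1 : ‖c‖ ≤ f (x.1, 0) := by
    rcases eq_or_ne c 0 with h | h
    · have := k 0 (by simp)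
      rw [e 0] at this
      simpa [h] using this
    have c0 := norm_pos_iff.2 h
    have := k ((‖c‖⁻¹ : ℝ) • c) (by rw [norm_smul, norm_inv, norm_norm, inv_mul_cancel₀ c0.ne'])
    rw [e, smul_re, smul_im, smul_eq_mul, smul_eq_mul] at this
    refine le_trans (le_of_eq ?_) this
    field_simp
    rw [n, hc]
    ring
  rw [e] at r1 s1
  have n0 := norm_nonneg c
  have x2 : x.1.re ^ 2 + x.1.im ^ 2 ≤ 1 := by nlinarith [norm_nonneg x.1]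
  change ‖c‖ ^ 2 = f (1, 0) ^ 2 + f (I, 0) ^ 2 at n
  have z : (f (1, 0) - ‖c‖ * x.1.re) ^ 2 + (f (I, 0) - ‖c‖ * x.1.im) ^ 2 ≤ 0 := by
    nlinarith [mul_le_mul_of_nonneg_left r1 n0, mul_le_mul_of_nonneg_left x2 (sq_nonneg ‖c‖)]
  have z1 : f (1, 0) = ‖c‖ * x.1.re := by nlinarith [sq_nonneg (f (I, 0) - ‖c‖ * x.1.im)]
  have z2 : f (I, 0) = ‖c‖ * x.1.im := by nlinarith [sq_nonneg (f (1, 0) - ‖c‖ * x.1.re)]
  refine ⟨‖c‖, n0, r1.trans s1, le_antisymm (mul_le_of_le_one_right n0 x2) ?_, z1, z2⟩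
  rw [z1, z2] at r1
  linarith

theorem v0 : nr T0 ≤ 9 := nr_le (by norm_num) fun x f hx h1 h2 => by
  obtain ⟨ρ, r0, r1, r2, r3, r4⟩ := state x f hx h1 h2
  have n1 := nsq x.1
  have x1 : ‖x.1‖ ≤ 1 := hx ▸ norm_fst_le x
  have := arith r0 r1 r2 (by nlinarith [norm_nonneg x.1])
    ((abs_re_le_norm x.2).trans (hx ▸ norm_snd_le x))
  rw [T0e, map_add, map_smul, map_smul, r3, r4]
  convert this using 2
  simp only [smul_eq_mul]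
  ring

theorem skew {S : ℂ × ℂ →L[ℝ] ℂ × ℂ} (hS : nr S = 0) (y w : ℂ) (hy : ‖y‖ = 1) (hw : ‖w‖ ≤ 1) :
    y.re * (S (y, w)).1.re + y.im * (S (y, w)).1.im = 0 := by
  have := le_nr S (x := (y, w)) (f := innerSL ℝ y ∘L .fst ℝ ℂ ℂ)
    (by rw [Prod.norm_def, hy]; exact max_eq_left hw)
    (by show innerSL ℝ y y = 1; rw [inn]; nlinarith [nsq y])
    fun z => (cs y z.1).trans (by rw [hy, one_mul]; exact norm_fst_le z)
  rw [hS, abs_nonpos_iff] at this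
  exact (inn _ _).symm.trans this

theorem q0 (S : ℂ × ℂ →L[ℝ] ℂ × ℂ) (hS : nr S = 0) : 7 * √21 / 3 ≤ ‖T0 + S‖ := by
  have p1 := skew hS 1 0 (by simp) (by simp)
  have p2 := skew hS I 0 (by simp) (by simp)
  have p3 := skew hS 1 1 (by simp) (by simp)
  rw [dec 1 1] at p3
  simp only [one_re, one_im, I_re, I_im, one_mul, zero_mul, add_zero, zero_add, one_smul, zero_smul,
    map_add, Prod.fst_add, add_re] at p1 p2 p3
  rw [p1, zero_add] at p3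
  have k : ∀ t : ℝ, t ^ 2 = 35 / 36 → (49 / 6 + t * (S (I, 0)).1.re) ^ 2 +
      (-7 * t + ((S (1, 0)).1.im / 6 + (S (0, 1)).1.im)) ^ 2 ≤ ‖T0 + S‖ ^ 2 := fun t ht => by
    have h1 : ‖(⟨1 / 6, t⟩ : ℂ)‖ ≤ 1 := by
      rw [← sq_le_one_iff₀ (norm_nonneg _), nsq]; simp only; linarith
    have h2 := (norm_fst_le _).trans ((T0 + S).unit_le_opNorm (⟨1 / 6, t⟩, 1)
      (max_le h1 (by simp)))
    refine le_trans (le_of_eq ?_) (pow_le_pow_left₀ (norm_nonneg _) h2 2)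
    rw [nsq, add_apply, T0e, dec ⟨1 / 6, t⟩ 1]
    simp only [map_add, map_smul, Prod.fst_add, Prod.smul_fst, add_re, add_im, smul_re, smul_im,
      smul_eq_mul, p1, p2, p3, one_re, one_im, I_re, I_im, Prod.snd_add, Prod.smul_snd, zero_re,
      zero_im]
    ring
  have s : √(35 / 36) ^ 2 = 35 / 36 := Real.sq_sqrt (by norm_num)
  have k1 := k _ s
  have k2 := k (-√(35 / 36)) (by rw [neg_sq, s])
  refine le_of_sq_le_sq' ?_ (norm_nonneg _)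
  nlinarith [Real.sq_sqrt (show (0:ℝ) ≤ 21 by norm_num), sq_nonneg (√(35 / 36) * (S (I, 0)).1.re),
    sq_nonneg ((S (1, 0)).1.im / 6 + (S (0, 1)).1.im)]

theorem up0 : n2 (ℂ × ℂ) ≤ 9 * √21 / 49 := by
  refine (n2_le (by positivity) v0 q0).trans (le_of_eq ?_)
  have := Real.sq_sqrt (show (0:ℝ) ≤ 21 by norm_num)
  field_simp
  nlinarith

end Pool.Agent.H91.Ni
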