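import Pool.Agent.H91.Ni1

set_option autoImplicit false
open Set Complex

namespace Pool.Agent.H91.Ni

abbrev X1 := WithLp 1 (ℂ × ℂ)

noncomputable abbrev pr (y w : ℂ) : X1 := WithLp.toLp 1 (y, w)

theorem nm (x : X1) : ‖x‖ = ‖x.fst‖ + ‖x.snd‖ := WithLp.prod_norm_eq_of_L1 x

theorem dec1 (x : X1) : x = x.fst.re • pr 1 0 + x.fst.im • pr I 0 + x.snd.re • pr 0 1
    + x.snd.im • pr 0 I := congrArg (WithLp.toLp 1) (dec x.fst x.snd)

noncomputable def F1 : X1 →L[ℝ] ℂ := .fst ℝ ℂ ℂ ∘L (WithLp.prodContinuousLinearEquiv 1 ℝ ℂ ℂ : X1 →L[ℝ] ℂ × ℂ)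
noncomputable def F2 : X1 →L[ℝ] ℂ := .snd ℝ ℂ ℂ ∘L (WithLp.prodContinuousLinearEquiv 1 ℝ ℂ ℂ : X1 →L[ℝ] ℂ × ℂ)

noncomputable def T1 : X1 →L[ℝ] X1 := (reCLM ∘L F1).smulRight (pr 1 0 + (8:ℝ) • pr 0 1) +
  ((-7:ℝ) • imCLM ∘L F1).smulRight (pr I 0)

theorem T1e (x : X1) :
    T1 x = x.fst.re • (pr 1 0 + (8:ℝ) • pr 0 1) + (-7 * x.fst.im) • pr I 0 := rfl

theorem state1 (x : X1) (f : StrongDual ℝ X1) (hx : ‖x‖ = 1) (h1 : f x = 1)
    (h2 : ∀ z, |f z| ≤ ‖z‖) : f (pr 1 0) ^ 2 + f (pr I 0) ^ 2 ≤ 1 ∧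
      ‖x.fst‖ * (f (pr 1 0) ^ 2 + f (pr I 0) ^ 2) = ‖x.fst‖ ∧
      x.fst.re = ‖x.fst‖ * f (pr 1 0) ∧ x.fst.im = ‖x.fst‖ * f (pr I 0) := by
  have e : ∀ y : ℂ, f (pr y 0) = y.re * f (pr 1 0) + y.im * f (pr I 0) := fun y => by
    rw [dec1 (pr y 0)]
    simp only [map_add, map_smul, smul_eq_mul]
    simp
  set c : ℂ := ⟨f (pr 1 0), f (pr I 0)⟩ with hc
  have n := nsq c
  have n1 := nsq x.fst
  have h3 := (le_abs_self _).trans (h2 (pr c 0))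
  have h4 := (le_abs_self _).trans (h2 (pr x.fst 0))
  have h5 := (le_abs_self _).trans (h2 (pr 0 x.snd))
  have h6 : f x = f (pr x.fst 0) + f (pr 0 x.snd) := by
    rw [← map_add]; congr 1; exact congrArg (WithLp.toLp 1) (by ext <;> simp)
  rw [nm] at h3 h4 h5 hx
  simp only [WithLp.toLp_fst, WithLp.toLp_snd, norm_zero, add_zero, zero_add] at h3 h4 h5
  rw [e] at h3 h4 h6
  change f (pr 1 0) * f (pr 1 0) + f (pr I 0) * f (pr I 0) ≤ _ at h3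
  change ‖c‖ ^ 2 = f (pr 1 0) ^ 2 + f (pr I 0) ^ 2 at n
  have c1 : ‖c‖ ≤ 1 := by nlinarith [norm_nonneg c]
  have c2 : f (pr 1 0) ^ 2 + f (pr I 0) ^ 2 ≤ 1 := by nlinarith [norm_nonneg c]
  have h7 : x.fst.re * f (pr 1 0) + x.fst.im * f (pr I 0) = ‖x.fst‖ := by linarith
  have z : (x.fst.re - ‖x.fst‖ * f (pr 1 0)) ^ 2 + (x.fst.im - ‖x.fst‖ * f (pr I 0)) ^ 2 ≤ 0 := by
    nlinarith [mul_le_mul_of_nonneg_left c2 (sq_nonneg ‖x.fst‖),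
      congrArg (‖x.fst‖ * ·) h7]
  have z1 : x.fst.re = ‖x.fst‖ * f (pr 1 0) := by
    nlinarith [sq_nonneg (x.fst.im - ‖x.fst‖ * f (pr I 0))]
  have z2 : x.fst.im = ‖x.fst‖ * f (pr I 0) := by
    nlinarith [sq_nonneg (x.fst.re - ‖x.fst‖ * f (pr 1 0))]
  refine ⟨c2, ?_, z1, z2⟩
  linear_combination h7 - f (pr 1 0) * z1 - f (pr I 0) * z2

theorem v1 : nr T1 ≤ 9 := nr_le (by norm_num) fun x f hx h1 h2 => by
  obtain ⟨r1, r2, r3, r4⟩ := state1 x f hx h1 h2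
  have := arith (d := f (pr 0 1)) (norm_nonneg x.fst) (by linarith [nm x, norm_nonneg x.snd]) r2 r1
    ((h2 _).trans (by simp [nm]))
  rw [T1e, map_add, map_smul, map_smul, map_add, map_smul]
  convert this using 2
  simp only [smul_eq_mul]
  linear_combination (f (pr 1 0) + 8 * f (pr 0 1)) * r3 - 7 * f (pr I 0) * r4

theorem skew1 {S : X1 →L[ℝ] X1} (hS : nr S = 0) (y d : ℂ) (hy : ‖y‖ = 1) (hd : ‖d‖ ≤ 1) :
    y.re * (S (pr y 0)).fst.re + y.im * (S (pr y 0)).fst.im +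
      (d.re * (S (pr y 0)).snd.re + d.im * (S (pr y 0)).snd.im) = 0 := by
  have := le_nr S (x := pr y 0) (f := innerSL ℝ y ∘L F1 + innerSL ℝ d ∘L F2)
    (by simp [nm, hy])
    (by show innerSL ℝ y y + innerSL ℝ d 0 = 1; rw [inn, map_zero]; nlinarith [nsq y])
    fun z => (abs_add_le _ _).trans (by
      have h1 := cs y z.fst
      have h2 := (cs d z.snd).trans (mul_le_of_le_one_left (norm_nonneg _) hd)
      rw [hy, one_mul] at h1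
      rw [nm]
      exact add_le_add h1 h2)
  rw [hS, abs_nonpos_iff] at this
  rw [← inn, ← inn]
  exact this

theorem q1 (S : X1 →L[ℝ] X1) (hS : nr S = 0) : 7 * √21 / 3 ≤ ‖T1 + S‖ := by
  have p1 := skew1 hS 1 0 (by simp) (by simp)
  have p2 := skew1 hS I 0 (by simp) (by simp)
  simp only [one_re, one_im, I_re, I_im, one_mul, zero_mul, add_zero, zero_add, zero_re,
    zero_im] at p1 p2
  have s := Real.sq_sqrt (show (0:ℝ) ≤ 21 by norm_num)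
  have k : ∀ t : ℝ, t ^ 2 = 15 / 36 → √((√21 / 6 + t * (S (pr I 0)).fst.re) ^ 2 +
      (-7 * t + √21 / 6 * (S (pr 1 0)).fst.im) ^ 2) + 8 * (√21 / 6) ≤ ‖T1 + S‖ := fun t ht => by
    have h1 : ‖(⟨√21 / 6, t⟩ : ℂ)‖ = 1 := by
      rw [← sq_eq_sq₀ (norm_nonneg _) zero_le_one, nsq]; simp only; linarith
    have h2 := (T1 + S).unit_le_opNorm (pr ⟨√21 / 6, t⟩ 0) (by simp [nm, h1])
    have a0 := skew1 hS _ 0 h1 (by simp)
    have a1 := skew1 hS _ 1 h1 (by simp)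
    simp only [one_re, one_im, zero_re, zero_im, zero_mul, one_mul, add_zero] at a0 a1
    rw [a0, zero_add] at a1
    rw [nm] at h2
    refine le_trans (add_le_add (le_of_eq ?_) ?_) h2
    · rw [← Real.sqrt_sq (norm_nonneg _), nsq, add_apply, T1e, dec1 (pr ⟨√21 / 6, t⟩ 0)]
      simp [p1, p2]
    · refine le_trans (le_of_eq ?_) (re_le_norm _)
      rw [add_apply, WithLp.add_snd, add_re, a1, T1e]
      simp
      ring
  have s' : √(15 / 36) ^ 2 = 15 / 36 := Real.sq_sqrt (by norm_num)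
  have k1 := k _ s'
  have k2 := k (-√(15 / 36)) (by rw [neg_sq, s'])
  by_contra hc
  have h0 : ∀ A : ℝ, √A + 8 * (√21 / 6) ≤ ‖T1 + S‖ → A < 21 := fun A h => by
    by_contra hA
    linarith [Real.sqrt_le_sqrt (not_lt.1 hA)]
  have h1 := h0 _ k1
  have h2 := h0 _ k2
  nlinarith [sq_nonneg (√(15 / 36) * (S (pr I 0)).fst.re), sq_nonneg (√21 / 6 * (S (pr 1 0)).fst.im)]

theorem up1 : n2 X1 ≤ 9 * √21 / 49 := by
  refine (n2_le (by positivity) v1 q1).trans (le_of_eq ?_)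
  have := Real.sq_sqrt (show (0:ℝ) ≤ 21 by norm_num)
  field_simp
  nlinarith

theorem main : Pool.Agent.H91.Ni.n2 (ℂ × ℂ) ≤ 9 * √21 / 49 ∧
    Pool.Agent.H91.Ni.n2 (WithLp 1 (ℂ × ℂ)) ≤ 9 * √21 / 49 := ⟨up0, up1⟩

end Pool.Agent.H91.Ni
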