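import Pool.Agent.H91.Ni2

set_option autoImplicit false
open Set Complex

namespace Pool.Agent.H91.Ni

theorem core0 {P N O b c v x y r : ℝ} (h1 : x ^ 2 + y ^ 2 = 1) (h2 : 1 / 2 ≤ x) (h3 : x ^ 2 ≤ 3 / 4)
    (hr : r ^ 2 = 3 / 4) (v0 : 0 ≤ v) (k0 : P + b ≤ v)
    (k1 : -(P / 4 + r * O + 3 / 4 * N) + (b / 2 + r * c) ≤ v)
    (k2 : -(P / 4 - r * O + 3 / 4 * N) + (b / 2 - r * c) ≤ v) :
    x * (x ^ 2 - y ^ 2) * P - y * O - 2 * x * y ^ 2 * N + (x * b + y * c) ≤ 7 * √21 / 27 * v := by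
  have s := Real.sq_sqrt (show (0:ℝ) ≤ 21 by norm_num)
  have s0 := Real.sqrt_nonneg 21
  have x2 : 1 / 4 ≤ x ^ 2 := by nlinarith
  have a0 : 0 ≤ x * (1 - 4 / 3 * y ^ 2) := mul_nonneg (by linarith) (by linarith)
  have a1 : (r * y) ^ 2 ≤ (2 * x * y ^ 2) ^ 2 := by
    have : 3 / 4 ≤ 4 * x ^ 2 * y ^ 2 := by
      rw [show y ^ 2 = 1 - x ^ 2 by linarith]
      nlinarith [mul_nonneg (sub_nonneg.2 x2) (sub_nonneg.2 h3)]
    rw [mul_pow, hr]
    nlinarith [mul_le_mul_of_nonneg_right this (sq_nonneg y)]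
  obtain ⟨a2, a3⟩ := abs_le_of_sq_le_sq' a1 (by positivity)
  have m0 := mul_le_mul_of_nonneg_left k0 a0
  have m1 := mul_le_mul_of_nonneg_left k1 (show 0 ≤ 2 / 3 * (2 * x * y ^ 2 + r * y) by linarith)
  have m2 := mul_le_mul_of_nonneg_left k2 (show 0 ≤ 2 / 3 * (2 * x * y ^ 2 - r * y) by linarith)
  have t : x * (1 + 4 / 3 * y ^ 2) ≤ 7 * √21 / 27 := by
    have := mul_nonneg (sq_nonneg (x - √21 / 6)) (show 0 ≤ x + √21 / 3 by positivity)
    rw [show y ^ 2 = 1 - x ^ 2 by linarith]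
    have e : (x - √21 / 6) ^ 2 * (x + √21 / 3) = x ^ 3 - 7 / 4 * x + 7 / 36 * √21 := by
      linear_combination (√21 / 108 - x / 12) * s
    linarith
  have m3 := mul_le_mul_of_nonneg_right t v0
  have e : x * (x ^ 2 - y ^ 2) * P - y * O - 2 * x * y ^ 2 * N + (x * b + y * c) =
      x * (1 - 4 / 3 * y ^ 2) * (P + b) +
      2 / 3 * (2 * x * y ^ 2 + r * y) * (-(P / 4 + r * O + 3 / 4 * N) + (b / 2 + r * c)) +
      2 / 3 * (2 * x * y ^ 2 - r * y) * (-(P / 4 - r * O + 3 / 4 * N) + (b / 2 - r * c)) := by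
    linear_combination x * P * h1 + 4 / 3 * y * (O - c) * hr
  linarith

def M (a b c : ℝ) (z w : ℂ) : ℝ :=
  a * z.re * w.re + b * (z.re * w.im + z.im * w.re) + c * z.im * w.im

theorem core1 {a b c d e v : ℝ}
    (H : ∀ z : ℂ, ‖z‖ = 1 → |M a b c z z| + |d * z.re + e * z.im| ≤ v) {z w : ℂ} (hz : ‖z‖ = 1)
    (hw : ‖w‖ = 1) (h : (z * (starRingEnd ℂ) w).re ≤ 0) :
    M a b c z w + (d * z.re + e * z.im) ≤ 7 * √21 / 27 * v := by
  have v0 : 0 ≤ v := le_trans (by positivity) (H 1 (by simp))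
  set θ := arg (z * (starRingEnd ℂ) w) / 3 with hθ
  have n : ‖z * (starRingEnd ℂ) w‖ = 1 := by simp [hz, hw]
  have n0 : z * (starRingEnd ℂ) w ≠ 0 := by rw [← norm_ne_zero_iff, n]; exact one_ne_zero
  have c3 := cos_arg n0
  have s3 := sin_arg (z * (starRingEnd ℂ) w)
  rw [n, div_one, show arg (z * (starRingEnd ℂ) w) = 3 * θ by rw [hθ]; ring] at c3 s3
  rw [Real.cos_three_mul] at c3
  rw [Real.sin_three_mul] at s3
  have x1 : 1 / 2 ≤ Real.cos θ := by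
    rw [← Real.cos_pi_div_three, ← Real.cos_abs θ]
    refine Real.cos_le_cos_of_nonneg_of_le_pi (abs_nonneg _) (by linarith [Real.pi_pos]) ?_
    rw [hθ, abs_div, abs_of_pos (show (0:ℝ) < 3 by norm_num)]
    linarith [abs_arg_le_pi (z * (starRingEnd ℂ) w)]
  have h1 := Real.cos_sq_add_sin_sq θ
  rw [← c3] at h
  set x := Real.cos θ
  set y := Real.sin θ
  have x2 : x ^ 2 ≤ 3 / 4 := by nlinarith
  have z1 := nsq z
  have w1 := nsq w
  rw [hz] at z1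
  rw [hw] at w1
  simp only [mul_re, mul_im, conj_re, conj_im] at c3 s3
  obtain ⟨p, hp⟩ : ∃ p, p = z.re * x + z.im * y := ⟨_, rfl⟩
  obtain ⟨q, hq⟩ : ∃ q, q = z.im * x - z.re * y := ⟨_, rfl⟩
  have u1 : p ^ 2 + q ^ 2 = 1 := by
    rw [hp, hq]; linear_combination (z.re ^ 2 + z.im ^ 2) * h1 - z1
  have e1 : z.re = p * x - q * y := by rw [hp, hq]; linear_combination -z.re * h1
  have e2 : z.im = p * y + q * x := by rw [hp, hq]; linear_combination -z.im * h1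
  have e3 : w.re = p * (x ^ 2 - y ^ 2) + 2 * q * x * y := by
    rw [hp, hq]
    linear_combination -z.re * c3 - z.im * s3 + w.re * z1 + (3 * z.re * x - 3 * z.im * y) * h1
  have e4 : w.im = q * (x ^ 2 - y ^ 2) - 2 * p * x * y := by
    rw [hp, hq]
    linear_combination -z.im * c3 + z.re * s3 + w.im * z1 + (3 * z.im * x + 3 * z.re * y) * h1
  have hr : √(3 / 4) ^ 2 = 3 / 4 := Real.sq_sqrt (by norm_num)
  set r := √(3 / 4)
  have un : ∀ s t : ℝ, s ^ 2 + t ^ 2 = 1 → ‖(⟨s, t⟩ : ℂ)‖ = 1 := fun s t hs => by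
    rw [← sq_eq_sq₀ (norm_nonneg _) zero_le_one, nsq]; simp only; linarith
  have k0 := (add_le_add (le_abs_self _) (le_abs_self _)).trans (H ⟨p, q⟩ (un _ _ u1))
  have k1 := (add_le_add (neg_le_abs _) (le_abs_self _)).trans (H ⟨p / 2 - q * r, q / 2 + p * r⟩
    (un _ _ (by linear_combination (1 / 4 + r ^ 2) * u1 + hr)))
  have k2 := (add_le_add (neg_le_abs _) (le_abs_self _)).trans (H ⟨p / 2 + q * r, q / 2 - p * r⟩
    (un _ _ (by linear_combination (1 / 4 + r ^ 2) * u1 + hr)))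
  have := core0 (P := M a b c ⟨p, q⟩ ⟨p, q⟩) (N := M a b c ⟨-q, p⟩ ⟨-q, p⟩)
    (O := M a b c ⟨p, q⟩ ⟨-q, p⟩) (b := d * p + e * q) (c := e * p - d * q) h1 x1 x2 hr v0 k0
    (by refine le_trans (le_of_eq ?_) k1
        simp only [M]
        linear_combination (a * q ^ 2 - 2 * b * p * q + c * p ^ 2) * hr)
    (by refine le_trans (le_of_eq ?_) k2
        simp only [M]
        linear_combination (a * q ^ 2 - 2 * b * p * q + c * p ^ 2) * hr)
  refine le_trans (le_of_eq ?_) this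
  simp only [M]
  rw [e1, e2, e3, e4]
  linear_combination -y * (b * (p ^ 2 - q ^ 2) + (c - a) * p * q) * h1

theorem nrm (g : ℂ) : ∃ w : ℂ, ‖w‖ = 1 ∧ g.re = ‖g‖ * w.re ∧ g.im = ‖g‖ * w.im := by
  rcases eq_or_ne g 0 with rfl | h
  · exact ⟨1, by simp, by simp, by simp⟩
  have c0 := norm_pos_iff.2 h
  refine ⟨(‖g‖⁻¹ : ℝ) • g, by rw [norm_smul, norm_inv, norm_norm, inv_mul_cancel₀ c0.ne'], ?_, ?_⟩
  · rw [smul_re, smul_eq_mul, mul_inv_cancel_left₀ c0.ne']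
  · rw [smul_im, smul_eq_mul, mul_inv_cancel_left₀ c0.ne']

theorem core {a b c d e v : ℝ}
    (H : ∀ z : ℂ, ‖z‖ = 1 → |M a b c z z| + |d * z.re + e * z.im| ≤ v) {z w : ℂ} (hz : ‖z‖ = 1)
    (hw : ‖w‖ ≤ 1) : M a b c z w + (d * z.re + e * z.im) ≤ 7 * √21 / 27 * v := by
  have k : ∀ w : ℂ, ‖w‖ = 1 → M a b c z w + (d * z.re + e * z.im) ≤ 7 * √21 / 27 * v := by
    intro w hw
    rcases le_total (z * (starRingEnd ℂ) w).re 0 with h | h
    · exact core1 H hz hw h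
    · have := core1 (a := -a) (b := -b) (c := -c) (w := -w) (fun z hz => by
        rw [show M (-a) (-b) (-c) z z = -M a b c z z by simp only [M]; ring, abs_neg]
        exact H z hz) hz (by rwa [norm_neg]) (by rwa [map_neg, mul_neg, neg_re, neg_nonpos])
      refine le_trans (le_of_eq ?_) this
      simp only [M, neg_re, neg_im]
      ring
  obtain ⟨u, u1, u2, u3⟩ := nrm w
  have k1 := mul_le_mul_of_nonneg_left (k u u1) (show 0 ≤ (1 + ‖w‖) / 2 by positivity)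
  have k2 := mul_le_mul_of_nonneg_left (k (-u) (by rwa [norm_neg]))
    (show 0 ≤ (1 - ‖w‖) / 2 by linarith)
  simp only [M, neg_re, neg_im] at k1 k2 ⊢
  rw [u2, u3]
  linarith

end Pool.Agent.H91.Ni
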