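import Pool.Agent.H91.Ni3

set_option autoImplicit false
open Set Complex

namespace Pool.Agent.H91.Ni

theorem le_n2 {X : Type} [NormedAddCommGroup X] [NormedSpace ℝ X] {T : X →L[ℝ] X} {N : ℝ}
    (N0 : 0 < N) (hN : ∀ S, nr S = 0 → N ≤ ‖T + S‖)
    (h : ∀ T : X →L[ℝ] X, ∃ S, nr S = 0 ∧ ‖T + S‖ ≤ 7 * √21 / 27 * nr T) :
    9 * √21 / 49 ≤ n2 X := by
  obtain ⟨T', h1, -⟩ := exT N0 le_rfl hN
  refine le_csInf ⟨_, T', h1, rfl⟩ ?_
  rintro _ ⟨T, hT, rfl⟩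
  obtain ⟨S, h2, h3⟩ := h T
  have h4 : qn T ≤ ‖T + S‖ := by
    refine csInf_le ⟨0, ?_⟩ ?_
    · rintro _ ⟨S, -, rfl⟩
      exact norm_nonneg _
    · exact ⟨S, h2, rfl⟩
  have s := Real.sq_sqrt (show (0:ℝ) ≤ 21 by norm_num)
  have := mul_le_mul_of_nonneg_left ((hT.ge.trans h4).trans h3) (show 0 ≤ 9 * √21 / 49 by positivity)
  have e : 9 * √21 / 49 * (7 * √21 / 27 * nr T) = nr T := by linear_combination nr T / 21 * s
  linarith

noncomputable def sk (A : ℂ →L[ℝ] ℂ) : ℝ := ((A 1).im - (A I).re) / 2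

noncomputable def J (a : ℝ) : ℂ →L[ℝ] ℂ := (-a) • ContinuousLinearMap.mul ℝ ℂ I

theorem Je (a : ℝ) (y : ℂ) : (J a y).re = a * y.im ∧ (J a y).im = -a * y.re := by
  constructor <;> simp [J]

theorem ex (A : ℂ →L[ℝ] ℂ) (y : ℂ) : (A y).re = y.re * (A 1).re + y.im * (A I).re ∧
    (A y).im = y.re * (A 1).im + y.im * (A I).im := by
  have : A y = y.re • A 1 + y.im • A I := by
    rw [← map_smul, ← map_smul, ← map_add]; congr 1; apply Complex.ext <;> simp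
  rw [this]
  simp

theorem eM (A : ℂ →L[ℝ] ℂ) (z y : ℂ) :
    M (A 1).re (((A 1).im + (A I).re) / 2) (A I).im z y = innerSL ℝ z (A y + J (sk A) y) := by
  rw [inn, add_re, add_im, (Je _ y).1, (Je _ y).2, (ex A y).1, (ex A y).2, M, sk]
  ring

theorem eQ (A : ℂ →L[ℝ] ℂ) (z : ℂ) :
    M (A 1).re (((A 1).im + (A I).re) / 2) (A I).im z z = innerSL ℝ z (A z) := by
  rw [inn, (ex A z).1, (ex A z).2, M]
  ring

theorem two {a b v : ℝ} (h1 : |a + b| ≤ v) (h2 : |a + -b| ≤ v) : |a| + |b| ≤ v := by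
  obtain ⟨h3, h4⟩ := abs_le.1 h1
  obtain ⟨h5, h6⟩ := abs_le.1 h2
  rcases abs_cases a with h | h <;> rcases abs_cases b with g | g <;> linarith [h.1, g.1]

theorem nrm' (g : ℂ) : ∃ w : ℂ, ‖w‖ = 1 ∧ innerSL ℝ w g = ‖g‖ := by
  obtain ⟨w, h1, h2, h3⟩ := nrm g
  have := nsq w
  rw [h1] at this
  exact ⟨w, h1, by rw [inn]; linear_combination w.re * h2 + w.im * h3 - ‖g‖ * this⟩

theorem row {A B : ℂ →L[ℝ] ℂ} {v : ℝ}
    (H : ∀ z w : ℂ, ‖z‖ = 1 → ‖w‖ ≤ 1 → |innerSL ℝ z (A z + B w)| ≤ v) {y w : ℂ} (hy : ‖y‖ ≤ 1)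
    (hw : ‖w‖ ≤ 1) : ‖A y + B w + J (sk A) y‖ ≤ 7 * √21 / 27 * v := by
  obtain ⟨z, z1, z2⟩ := nrm' (A y + B w + J (sk A) y)
  have := core (d := (B w).re) (e := (B w).im) (fun z hz => by
    have h1 := H z w hz hw
    have h2 := H z (-w) hz (by rwa [norm_neg])
    rw [map_neg, map_add, map_neg] at h2
    rw [map_add] at h1
    rw [eQ A, mul_comm _ z.re, mul_comm _ z.im, ← inn]
    exact two h1 h2) z1 hy
  rw [eM, mul_comm _ z.re, mul_comm _ z.im, ← inn, ← map_add, add_right_comm, z2] at this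
  exact this

theorem col {A C : ℂ →L[ℝ] ℂ} {v : ℝ}
    (H : ∀ z d : ℂ, ‖z‖ = 1 → ‖d‖ ≤ 1 → |innerSL ℝ z (A z) + innerSL ℝ d (C z)| ≤ v) (y : ℂ) :
    ‖A y + J (sk A) y‖ + ‖C y‖ ≤ 7 * √21 / 27 * v * ‖y‖ := by
  obtain ⟨u, u1, u2, u3⟩ := nrm y
  have e : y = ‖y‖ • u := Complex.ext (by simpa using u2) (by simpa using u3)
  obtain ⟨z, z1, z2⟩ := nrm' (A u + J (sk A) u)
  obtain ⟨d, d1, d2⟩ := nrm' (C u)
  have ed : ∀ x : ℂ, innerSL ℝ d (C 1) * x.re + innerSL ℝ d (C I) * x.im = innerSL ℝ d (C x) :=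
    fun x => by rw [inn, inn, inn, (ex C x).1, (ex C x).2]; ring
  have := core (d := innerSL ℝ d (C 1)) (e := innerSL ℝ d (C I)) (fun x hx => by
    have h2 := H x (-d) hx (by rw [norm_neg, d1])
    rw [map_neg, neg_apply] at h2
    rw [eQ A, ed]
    exact two (H x d hx d1.le) h2) u1 z1.le
  rw [show ∀ a b c, M a b c u z = M a b c z u from fun a b c => by simp only [M]; ring, eM, ed, z2,
    d2] at this
  have := mul_le_mul_of_nonneg_left this (norm_nonneg y)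
  rw [e, map_smul, map_smul, map_smul, ← smul_add, norm_smul, norm_smul, norm_smul, norm_norm, u1]
  linarith

theorem sw (z : ℂ × ℂ) : ‖(z.2, z.1)‖ = ‖z‖ := max_comm _ _

theorem lo0 (T : ℂ × ℂ →L[ℝ] ℂ × ℂ) : ∃ S, nr S = 0 ∧ ‖T + S‖ ≤ 7 * √21 / 27 * nr T := by
  set A := ContinuousLinearMap.fst ℝ ℂ ℂ ∘L T ∘L .inl ℝ ℂ ℂ
  set B := ContinuousLinearMap.fst ℝ ℂ ℂ ∘L T ∘L .inr ℝ ℂ ℂ
  set C := ContinuousLinearMap.snd ℝ ℂ ℂ ∘L T ∘L .inl ℝ ℂ ℂ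
  set D := ContinuousLinearMap.snd ℝ ℂ ℂ ∘L T ∘L .inr ℝ ℂ ℂ
  have e : ∀ y w : ℂ, T (y, w) = (A y + B w, D w + C y) := fun y w => by
    have : T (y, w) = T (y, 0) + T (0, w) := by rw [← map_add]; simp
    rw [this, add_comm (D w)]
    rfl
  have uu : ∀ z : ℂ, ‖z‖ = 1 → innerSL ℝ z z = 1 := fun z hz => by rw [inn]; nlinarith [nsq z]
  refine ⟨(J (sk A)).prodMap (J (sk D)), le_antisymm (nr_le le_rfl fun x f hx h1 h2 => ?_)
    (nr_nonneg _), ContinuousLinearMap.opNorm_le_of_unit_norm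
      (mul_nonneg (by positivity) (nr_nonneg T)) fun x hx => ?_⟩
  · obtain ⟨ρ, -, -, -, r3, r4⟩ := state x f hx h1 h2
    obtain ⟨τ, -, -, -, r5, r6⟩ := state (x.2, x.1)
      (f ∘L (ContinuousLinearEquiv.prodComm ℝ ℂ ℂ : ℂ × ℂ →L[ℝ] ℂ × ℂ)) ((sw x).trans hx) h1
      fun z => (h2 _).trans (sw z).le
    change f (0, 1) = τ * x.2.re at r5
    change f (0, I) = τ * x.2.im at r6
    change |f (J _ x.1, J _ x.2)| ≤ 0
    rw [dec, map_add, map_add, map_add, map_smul, map_smul, map_smul, map_smul, r3, r4, r5, r6,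
      (Je _ _).1, (Je _ _).2, (Je _ _).1, (Je _ _).2, abs_nonpos_iff]
    simp only [smul_eq_mul]
    ring
  · have x1 : ‖x.1‖ ≤ 1 := hx ▸ norm_fst_le x
    have x2 : ‖x.2‖ ≤ 1 := hx ▸ norm_snd_le x
    change ‖T (x.1, x.2) + (J _ x.1, J _ x.2)‖ ≤ _
    rw [e]
    refine max_le (row (fun z w hz hw => ?_) x1 x2) (row (fun z w hz hw => ?_) x2 x1)
    · have := le_nr T (x := (z, w)) (f := innerSL ℝ z ∘L .fst ℝ ℂ ℂ)
        (by rw [Prod.norm_def, hz]; exact max_eq_left hw) (uu z hz)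
        fun u => (cs z u.1).trans (by rw [hz, one_mul]; exact norm_fst_le u)
      rwa [e] at this
    · have := le_nr T (x := (w, z)) (f := innerSL ℝ z ∘L .snd ℝ ℂ ℂ)
        (by rw [Prod.norm_def, hz]; exact max_eq_right hw) (uu z hz)
        fun u => (cs z u.2).trans (by rw [hz, one_mul]; exact norm_snd_le u)
      rwa [e] at this

end Pool.Agent.H91.Ni
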