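import Pool.Agent.H91.Ni4

set_option autoImplicit false
open Set Complex

namespace Pool.Agent.H91.Ni.Ex

noncomputable def i1 : ℂ →L[ℝ] X1 :=
  ((WithLp.prodContinuousLinearEquiv 1 ℝ ℂ ℂ).symm : ℂ × ℂ →L[ℝ] X1) ∘L .inl ℝ ℂ ℂ
noncomputable def i2 : ℂ →L[ℝ] X1 :=
  ((WithLp.prodContinuousLinearEquiv 1 ℝ ℂ ℂ).symm : ℂ × ℂ →L[ℝ] X1) ∘L .inr ℝ ℂ ℂ

theorem sp (y w : ℂ) : pr y w = i1 y + i2 w := congrArg (WithLp.toLp 1)
  (show (y, w) = (y, 0) + (0, w) by simp)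

theorem lo1 (T : X1 →L[ℝ] X1) : ∃ S, nr S = 0 ∧ ‖T + S‖ ≤ 7 * √21 / 27 * nr T := by
  set A := F1 ∘L T ∘L i1
  set B := F1 ∘L T ∘L i2
  set C := F2 ∘L T ∘L i1
  set D := F2 ∘L T ∘L i2
  have uu : ∀ z : ℂ, ‖z‖ = 1 → innerSL ℝ z z = 1 := fun z hz => by rw [inn]; nlinarith [nsq z]
  have bd : ∀ z d : ℂ, ‖z‖ ≤ 1 → ‖d‖ ≤ 1 → ∀ u : X1,
      |(innerSL ℝ z ∘L F1 + innerSL ℝ d ∘L F2) u| ≤ ‖u‖ := fun z d hz hd u => by
    rw [nm]
    exact (abs_add_le _ _).trans (add_le_add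
      ((cs z u.fst).trans (mul_le_of_le_one_left (norm_nonneg _) hz))
      ((cs d u.snd).trans (mul_le_of_le_one_left (norm_nonneg _) hd)))
  refine ⟨i1 ∘L J (sk A) ∘L F1 + i2 ∘L J (sk D) ∘L F2,
    le_antisymm (nr_le le_rfl fun x f hx h1 h2 => ?_) (nr_nonneg _),
    ContinuousLinearMap.opNorm_le_bound _ (mul_nonneg (by positivity) (nr_nonneg T)) fun x => ?_⟩
  · obtain ⟨-, -, r3, r4⟩ := state1 x f hx h1 h2
    obtain ⟨-, -, r5, r6⟩ := state1 (pr x.snd x.fst) (f ∘L (i2 ∘L F1 + i1 ∘L F2))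
      (by rw [nm, add_comm]; exact (nm x).symm.trans hx)
      (by show f (i2 x.snd + i1 x.fst) = 1; rw [add_comm, ← sp]; exact h1)
      fun z => (h2 _).trans (by
        show ‖i2 z.fst + i1 z.snd‖ ≤ _
        rw [add_comm, ← sp, nm, nm z, add_comm]
        rfl)
    change x.snd.re = ‖x.snd‖ * f (i2 1 + i1 0) at r5
    change x.snd.im = ‖x.snd‖ * f (i2 I + i1 0) at r6
    rw [add_comm, ← sp] at r5 r6
    change |f (i1 (J _ x.fst) + i2 (J _ x.snd))| ≤ 0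
    rw [← sp, dec1 (pr _ _), map_add, map_add, map_add, map_smul, map_smul, map_smul, map_smul,
      abs_nonpos_iff]
    simp only [smul_eq_mul, WithLp.toLp_fst, WithLp.toLp_snd, (Je _ _).1, (Je _ _).2]
    linear_combination sk A * (f (pr 1 0) * r4 - f (pr I 0) * r3) +
      sk D * (f (pr 0 1) * r6 - f (pr 0 I) * r5)
  · have c1 := col (A := A) (C := C) (fun z d hz hd => le_nr T (x := pr z 0)
      (f := innerSL ℝ z ∘L F1 + innerSL ℝ d ∘L F2) (by simp [nm, hz])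
      (by show innerSL ℝ z z + innerSL ℝ d 0 = 1; rw [uu z hz, map_zero, add_zero])
      (bd z d hz.le hd)) x.fst
    have c2 := col (A := D) (C := B) (fun z d hz hd => by
      rw [add_comm]
      exact le_nr T (x := pr 0 z) (f := innerSL ℝ d ∘L F1 + innerSL ℝ z ∘L F2) (by simp [nm, hz])
        (by show innerSL ℝ d 0 + innerSL ℝ z z = 1; rw [uu z hz, map_zero, zero_add])
        (bd d z hd hz.le)) x.snd
    have e : T x = T (i1 x.fst) + T (i2 x.snd) := by rw [← map_add, ← sp]; rfl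
    change ‖T x + (i1 (J _ x.fst) + i2 (J _ x.snd))‖ ≤ _
    rw [← sp, e, nm, nm x]
    change ‖A x.fst + B x.snd + J _ x.fst‖ + ‖C x.fst + D x.snd + J _ x.snd‖ ≤ _
    have h1 := norm_add_le (A x.fst + J (sk A) x.fst) (B x.snd)
    have h2 := norm_add_le (C x.fst) (D x.snd + J (sk D) x.snd)
    rw [add_right_comm] at h1
    rw [← add_assoc] at h2
    linarith

theorem main : Pool.Agent.H91.Ni.n2 (ℂ × ℂ) = 9 * √21 / 49 ∧
    Pool.Agent.H91.Ni.n2 (WithLp 1 (ℂ × ℂ)) = 9 * √21 / 49 :=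
  ⟨le_antisymm up0 (le_n2 (by positivity) q0 lo0), le_antisymm up1 (le_n2 (by positivity) q1 lo1)⟩

end Pool.Agent.H91.Ni.Ex
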