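import Mathlib
set_option autoImplicit false

namespace H91.PAlphaBeta
open Complex

noncomputable def p (β : ℝ) (z : ℂ) : ℂ := ((1 + z) / (1 - z)) ^ (β : ℂ)

noncomputable def P (α β : ℝ) (z : ℂ) : ℂ :=
  ((α * ‖z‖ ^ 2 + (1 - α) * (1 - ‖z‖ ^ 2) : ℝ) : ℂ) * p β z +
    (((1 - α) * (1 - ‖z‖ ^ 2) : ℝ) : ℂ) * (z * deriv (p β) z)

theorem main (α β : ℝ) (h0 : 0 < α) (h1 : α < 2 / 3) (hβ : 0 < β) (h2 : 0 ≤ α - 2 * (1 - α) * β)
    (z : ℂ) (hz : ‖z‖ < 1) : 0 ≤ (P α β z).re := by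
  have hβ1 : β ≤ 1 := by nlinarith
  have hz1 : 1 - z ≠ 0 := by
    intro h
    have : z = 1 := by linear_combination -h
    rw [this] at hz; simp at hz
  have hz2 : 1 + z ≠ 0 := by
    intro h
    have : z = -1 := by linear_combination h
    rw [this] at hz; simp at hz
  set w := (1 + z) / (1 - z) with hw
  have hw0 : w ≠ 0 := div_ne_zero hz2 hz1
  have hsq : ‖z‖ ^ 2 = z.re ^ 2 + z.im ^ 2 := by rw [Complex.sq_norm, normSq_apply]; ring
  have hz3 : z.re ^ 2 + z.im ^ 2 < 1 := by rw [← hsq]; nlinarith [norm_nonneg z]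
  have hwre : 0 < w.re := by
    rw [hw, div_re]
    have : 0 < normSq (1 - z) := normSq_pos.2 hz1
    rw [← add_div]
    apply div_pos _ this
    simp; nlinarith
  have hw1 : w + 1 ≠ 0 := by
    intro h
    have := congrArg re h
    simp at this; linarith
  have hzw : z = (w - 1) / (w + 1) := by
    rw [eq_div_iff hw1, hw]; field_simp; ring
  have hd : HasDerivAt (p β) (β * w ^ ((β : ℂ) - 1) * (2 / (1 - z) ^ 2)) z := by
    have a : HasDerivAt (fun z : ℂ => (1 + z) / (1 - z)) (2 / (1 - z) ^ 2) z := by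
      refine (((hasDerivAt_id' z).const_add 1).div ((hasDerivAt_id' z).const_sub 1)
        hz1).congr_deriv ?_
      congr 1; ring
    exact a.cpow_const (Or.inl hwre)
  have hq : z * deriv (p β) z = p β z * (β * (w - w⁻¹) / 2) := by
    rw [hd.deriv, cpow_sub _ _ hw0, cpow_one]
    show _ = w ^ (β : ℂ) * _
    rw [hw]; field_simp; ring
  set ρ := ‖w‖ with hρ
  have hρ0 : 0 < ρ := norm_pos_iff.2 hw0
  set φ := arg w with hφ
  have hφ1 : |φ| < Real.pi / 2 := abs_arg_lt_pi_div_two_iff.2 (Or.inl hwre)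
  have hwre' : w.re = ρ * Real.cos φ := by rw [hφ, cos_arg hw0, ← hρ]; field_simp
  have hwim' : w.im = ρ * Real.sin φ := by rw [hφ, sin_arg, ← hρ]; field_simp
  have hcs := Real.cos_sq_add_sin_sq φ
  set c := Real.cos φ with hc
  set s := Real.sin φ with hs
  have hc0 : 0 < c := by
    by_contra hn
    nlinarith
  have hpre : (p β z).re = ρ ^ β * Real.cos (φ * β) := cpow_ofReal_re w β
  have hpim : (p β z).im = ρ ^ β * Real.sin (φ * β) := cpow_ofReal_im w β
  have hns : normSq w = ρ ^ 2 := by rw [hρ, Complex.sq_norm]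
  have hD : 0 < ρ ^ 2 + 1 + 2 * ρ * c := by positivity
  have hr : ‖z‖ ^ 2 = (ρ ^ 2 + 1 - 2 * ρ * c) / (ρ ^ 2 + 1 + 2 * ρ * c) := by
    rw [Complex.sq_norm, hzw, normSq_div, normSq_apply, normSq_apply]
    simp only [sub_re, add_re, one_re, sub_im, add_im, one_im, hwre', hwim']
    congr 1 <;> linear_combination ρ ^ 2 * hcs
  have hqre : (β * (w - w⁻¹) / 2 : ℂ).re = β * ((ρ - ρ⁻¹) * c) / 2 := by
    rw [div_ofNat_re, re_ofReal_mul, sub_re, inv_re, hns, hwre']; field_simp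
  have hqim : (β * (w - w⁻¹) / 2 : ℂ).im = β * ((ρ + ρ⁻¹) * s) / 2 := by
    rw [div_ofNat_im, im_ofReal_mul, sub_im, inv_im, hns, hwim']; field_simp; ring
  set C := Real.cos (φ * β) with hC
  set S := Real.sin (φ * β) with hS
  rw [abs_lt] at hφ1
  have hC0 : 0 ≤ C := by
    apply Real.cos_nonneg_of_neg_pi_div_two_le_of_le <;> nlinarith [Real.pi_pos]
  have hkey : s * (c * S - s * C) ≤ 0 := by
    have e : c * S - s * C = - Real.sin (φ - φ * β) := by rw [Real.sin_sub]; ring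
    rw [e]
    rcases le_total 0 φ with h | h
    · have a1 : 0 ≤ s := Real.sin_nonneg_of_nonneg_of_le_pi h (by linarith [Real.pi_pos])
      have a2 : 0 ≤ Real.sin (φ - φ * β) :=
        Real.sin_nonneg_of_nonneg_of_le_pi (by nlinarith) (by nlinarith [Real.pi_pos])
      nlinarith
    · have a1 : s ≤ 0 := Real.sin_nonpos_of_nonpos_of_neg_pi_le h (by linarith [Real.pi_pos])
      have a2 : Real.sin (φ - φ * β) ≤ 0 :=
        Real.sin_nonpos_of_nonpos_of_neg_pi_le (by nlinarith) (by nlinarith [Real.pi_pos])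
      nlinarith
  have e : (P α β z).re = ρ ^ β / (ρ ^ 2 + 1 + 2 * ρ * c) *
      ((α - 2 * (1 - α) * β) * (ρ ^ 2 + 1 - 2 * ρ * c) * C + (1 - α) *
        (4 * (1 - β) * ρ * c * C + 4 * β * c ^ 2 * ρ ^ 2 * C -
          2 * β * (ρ ^ 2 + 1) * (s * (c * S - s * C)))) := by
    unfold P
    rw [hq, add_re, re_ofReal_mul, re_ofReal_mul, mul_re, hqre, hqim, hpre, hpim, hr]
    have : s ^ 2 = 1 - c ^ 2 := by linarith
    field_simp
    linear_combination (-(4:ℝ) * (1 - α) * β * (ρ ^ 2 + 1) * C * ρ) * hcs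
  rw [e]
  have hc1 : c ≤ 1 := Real.cos_le_one φ
  clear_value C S c s φ ρ w
  have a1 : 0 ≤ ρ ^ 2 + 1 - 2 * ρ * c := by
    nlinarith [sq_nonneg (ρ - 1)]
  have a2 : 0 ≤ 1 - β := by linarith
  have a3 : 0 ≤ 1 - α := by linarith
  have a4 : 0 ≤ 4 * (1 - β) * ρ * c * C + 4 * β * c ^ 2 * ρ ^ 2 * C -
          2 * β * (ρ ^ 2 + 1) * (s * (c * S - s * C)) := by
    have b1 : 0 ≤ 4 * (1 - β) * ρ * c * C := by positivity
    have b2 : 0 ≤ 4 * β * c ^ 2 * ρ ^ 2 * C := by positivity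
    have b3 : 0 ≤ 2 * β * (ρ ^ 2 + 1) := by positivity
    have b4 := mul_nonneg b3 (neg_nonneg.2 hkey)
    linarith
  exact mul_nonneg (div_nonneg (Real.rpow_nonneg hρ0.le _) hD.le)
    (add_nonneg (mul_nonneg (mul_nonneg h2 a1) hC0) (mul_nonneg a3 a4))

end H91.PAlphaBeta
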