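import Mathlib

set_option autoImplicit false

namespace H91.Peano

open Complex Set Filter Topology

/-- `f` is, on the closed unit disc, a sum of monomials with nonnegative coefficients of total `S`. -/
def Pos (f : ℂ → ℂ) (S : ℝ) : Prop :=
  ∃ (ι : Type) (_ : Countable ι) (c : ι → ℝ) (n : ι → ℕ), (∀ i, 0 ≤ c i) ∧ HasSum c S ∧
    ∀ z : ℂ, ‖z‖ ≤ 1 → HasSum (fun i => (c i : ℂ) * z ^ n i) (f z)

lemma hsc {ι : Type} {f g : ι → ℂ} {a : ℂ} (h : HasSum f a)
    (e : ∀ i, g i = f i) : HasSum g a := by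
  have : g = f := funext e
  rw [this]; exact h

lemma term_le {c : ℝ} (hc : 0 ≤ c) {z : ℂ} (hz : ‖z‖ ≤ 1) (n : ℕ) : ‖(c : ℂ) * z ^ n‖ ≤ c := by
  rw [norm_mul, norm_pow, Complex.norm_real, Real.norm_of_nonneg hc]
  exact mul_le_of_le_one_right hc (pow_le_one₀ (norm_nonneg _) hz)

lemma Pos.norm_le {f : ℂ → ℂ} {S : ℝ} (h : Pos f S) {z : ℂ} (hz : ‖z‖ ≤ 1) : ‖f z‖ ≤ S := by
  obtain ⟨ι, _, c, n, h0, h1, h2⟩ := h
  exact (h2 z hz).norm_le_of_bounded h1 (fun i => term_le (h0 i) hz _)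

lemma Pos.one_eq {f : ℂ → ℂ} {S : ℝ} (h : Pos f S) : f 1 = S := by
  obtain ⟨ι, _, c, n, h0, h1, h2⟩ := h
  have := h2 1 (by simp)
  simp only [one_pow, mul_one] at this
  exact this.unique (Complex.hasSum_ofReal.mpr h1)

lemma Pos.nonneg {f : ℂ → ℂ} {S : ℝ} (h : Pos f S) : 0 ≤ S :=
  (norm_nonneg _).trans (h.norm_le (z := 0) (by simp))

lemma Pos.mul {f g : ℂ → ℂ} {S T : ℝ} (hf : Pos f S) (hg : Pos g T) :
    Pos (fun z => f z * g z) (S * T) := by
  obtain ⟨ι, _, c, n, h0, h1, h2⟩ := hf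
  obtain ⟨κ, _, d, m, k0, k1, k2⟩ := hg
  have hs : Summable (fun p : ι × κ => c p.1 * d p.2) :=
    h1.summable.mul_of_nonneg k1.summable h0 k0
  refine ⟨ι × κ, inferInstance, fun p => c p.1 * d p.2, fun p => n p.1 + m p.2,
    fun p => mul_nonneg (h0 _) (k0 _), h1.mul k1 hs, fun z hz => ?_⟩
  have hs' : Summable (fun p : ι × κ => ((c p.1 : ℂ) * z ^ n p.1) * ((d p.2 : ℂ) * z ^ m p.2)) := by
    refine Summable.of_norm_bounded hs (fun p => ?_)
    rw [norm_mul]
    exact mul_le_mul (term_le (h0 _) hz _) (term_le (k0 _) hz _) (norm_nonneg _) (h0 _)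
  have h3 := HasSum.mul (f := fun i => (c i : ℂ) * z ^ n i) (g := fun i => (d i : ℂ) * z ^ m i)
    (h2 z hz) (k2 z hz) hs'
  refine hsc h3 fun p => ?_
  push_cast; ring

lemma pos_exp {l : ℝ} (hl : 0 ≤ l) (N : ℕ) :
    Pos (fun z => Complex.exp (l * z ^ N)) (Real.exp l) := by
  refine ⟨ℕ, inferInstance, fun j => l ^ j / j.factorial, fun j => N * j, fun j => by positivity,
    ?_, fun z _ => ?_⟩
  · rw [Real.exp_eq_exp_ℝ]; exact NormedSpace.expSeries_div_hasSum_exp l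
  · have := NormedSpace.expSeries_div_hasSum_exp ((l : ℂ) * z ^ N)
    rw [← Complex.exp_eq_exp_ℂ] at this
    refine hsc this fun j => ?_
    push_cast; rw [mul_pow, ← pow_mul]; ring

lemma pos_expm1 {l : ℝ} (hl : 0 ≤ l) (N : ℕ) :
    Pos (fun z => Complex.exp (l * z ^ N) - 1) (Real.exp l - 1) := by
  refine ⟨ℕ, inferInstance, fun j => l ^ (j + 1) / (j + 1).factorial, fun j => N * (j + 1),
    fun j => by positivity, ?_, fun z _ => ?_⟩
  · have := NormedSpace.expSeries_div_hasSum_exp l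
    rw [← Real.exp_eq_exp_ℝ] at this
    have h2 := (hasSum_nat_add_iff' 1).mpr this
    simpa using h2
  · have := NormedSpace.expSeries_div_hasSum_exp ((l : ℂ) * z ^ N)
    rw [← Complex.exp_eq_exp_ℂ] at this
    have h2 := (hasSum_nat_add_iff' 1).mpr this
    simp only [Finset.range_one, Finset.sum_singleton, pow_zero, Nat.factorial_zero, Nat.cast_one,
      div_one] at h2
    refine hsc h2 fun j => ?_
    push_cast; rw [mul_pow, ← pow_mul]; ring

lemma Pos.integ {G P : ℂ → ℂ} {S : ℝ} (hG : Pos G S) (hGc : Continuous G)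
    (hP : ∀ z, HasDerivAt P (G z) z) (h0' : P 0 = 0) : ∃ T, Pos P T := by
  obtain ⟨ι, _, c, n, h0, h1, h2⟩ := hG
  have hs : Summable (fun i => c i / (n i + 1)) :=
    Summable.of_nonneg_of_le (fun i => div_nonneg (h0 i) (by positivity))
      (fun i => div_le_self (h0 i) (by linarith [(Nat.cast_nonneg (n i) : (0:ℝ) ≤ n i)]))
      h1.summable
  refine ⟨_, ι, inferInstance, fun i => c i / (n i + 1), fun i => n i + 1,
    fun i => div_nonneg (h0 i) (by positivity), hs.hasSum, fun z hz => ?_⟩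
  have hI : ∫ t in (0:ℝ)..1, z * G (t * z) = P z := by
    have hd : ∀ t ∈ uIcc (0:ℝ) 1, HasDerivAt (fun t : ℝ => P (t * z)) (z * G (t * z)) t := by
      intro t _
      have h3 : HasDerivAt (fun w : ℂ => P (w * z)) (G (t * z) * z) (t : ℂ) := by
        exact ((hP ((t : ℂ) * z)).comp (t : ℂ) ((hasDerivAt_id' (t : ℂ)).mul_const z)).congr_deriv
          (by ring)
      exact h3.comp_ofReal.congr_deriv (by ring)
    rw [intervalIntegral.integral_eq_sub_of_hasDerivAt hd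
      (Continuous.intervalIntegrable (by fun_prop) _ _)]
    simp [h0']
  have hsum := intervalIntegral.hasSum_integral_of_dominated_convergence (μ := MeasureTheory.volume)
    (a := 0) (b := 1) (F := fun i (t : ℝ) => z * ((c i : ℂ) * ((t : ℂ) * z) ^ n i))
    (f := fun t : ℝ => z * G (t * z)) (fun i _ => c i)
    (fun i => Continuous.aestronglyMeasurable (by fun_prop))
    (fun i => Eventually.of_forall fun t ht => by
      rw [uIoc_of_le zero_le_one] at ht
      have h5 : ‖(t : ℂ) * z‖ ≤ 1 := by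
        rw [norm_mul, Complex.norm_real, Real.norm_of_nonneg ht.1.le]
        exact mul_le_one₀ ht.2 (norm_nonneg _) hz
      rw [norm_mul]
      exact (mul_le_of_le_one_left (norm_nonneg _) hz).trans (term_le (h0 i) h5 _))
    (Eventually.of_forall fun t _ => h1.summable)
    (by simp)
    (Eventually.of_forall fun t ht => by
      rw [uIoc_of_le zero_le_one] at ht
      have h5 : ‖(t : ℂ) * z‖ ≤ 1 := by
        rw [norm_mul, Complex.norm_real, Real.norm_of_nonneg ht.1.le]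
        exact mul_le_one₀ ht.2 (norm_nonneg _) hz
      exact (h2 _ h5).mul_left z)
  rw [hI] at hsum
  refine hsc hsum fun i => ?_
  have e : ∀ t : ℝ, z * ((c i : ℂ) * ((t : ℂ) * z) ^ n i) =
      ((c i : ℂ) * z ^ (n i + 1)) * ((t ^ n i : ℝ) : ℂ) := by
    intro t; push_cast; ring
  simp_rw [e]
  rw [intervalIntegral.integral_const_mul, intervalIntegral.integral_ofReal, integral_pow]
  push_cast; simp; ring

lemma pos_tsum {D : ℕ → ℂ → ℂ} {T : ℕ → ℝ} (h : ∀ k, Pos (D k) (T k)) (hT : Summable T) :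
    Pos (fun z => ∑' k, D k z) (∑' k, T k) := by
  have hn := fun k z hz => (h k).norm_le (z := z) hz
  choose ι hι c n h0 h1 h2 using h
  have hs : Summable (fun p : (Σ k, ι k) => c p.1 p.2) := by
    rw [summable_sigma_of_nonneg (fun p => h0 _ _)]
    refine ⟨fun k => (h1 k).summable, ?_⟩
    simpa only [fun k => (h1 k).tsum_eq] using hT
  refine ⟨Σ k, ι k, inferInstance, fun p => c p.1 p.2, fun p => n p.1 p.2, fun p => h0 _ _,
    HasSum.sigma_of_hasSum hT.hasSum h1 hs, fun z hz => ?_⟩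
  refine HasSum.sigma_of_hasSum (g := fun k => D k z)
    (Summable.of_norm_bounded hT (fun k => hn k z hz)).hasSum (fun k => h2 k z hz) ?_
  exact Summable.of_norm_bounded hs (fun p => term_le (h0 _ _) hz _)

lemma Pos.toSeries {f : ℂ → ℂ} {S : ℝ} (h : Pos f S) :
    ∃ a : ℕ → ℂ, Summable (fun n => ‖a n‖) ∧ ∀ z : ℂ, ‖z‖ ≤ 1 → ∑' n, a n * z ^ n = f z := by
  obtain ⟨ι, _, c, n, h0, h1, h2⟩ := h
  refine ⟨fun m => ((∑' b : n ⁻¹' {m}, c b : ℝ) : ℂ), ?_, fun z hz => ?_⟩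
  · refine (h1.tsum_fiberwise n).summable.congr fun m => ?_
    rw [Complex.norm_real, Real.norm_of_nonneg (tsum_nonneg fun b => h0 _)]
  · have := (h2 z hz).tsum_fiberwise n
    rw [← this.tsum_eq]
    congr 1; funext m
    simp only []
    rw [Complex.ofReal_tsum, ← tsum_mul_right]
    congr 1; funext b
    have hb : n b = m := b.2
    rw [hb]

lemma lip {G : ℂ → ℂ} (hG : Differentiable ℂ G) :
    ∃ L : ℝ, 0 < L ∧ ∀ z w : ℂ, ‖z‖ ≤ 1 → ‖w‖ ≤ 1 → ‖G z - G w‖ ≤ L * ‖z - w‖ := by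
  have hc : Continuous (deriv G) := hG.deriv.continuous
  obtain ⟨C, hC⟩ := (isCompact_closedBall (0:ℂ) 1).exists_bound_of_continuousOn hc.continuousOn
  refine ⟨max C 1, by positivity, fun z w hz hw => ?_⟩
  exact (convex_closedBall (0:ℂ) 1).norm_image_sub_le_of_norm_deriv_le (fun x _ => hG x)
    (fun x hx => (hC x hx).trans (le_max_left _ _)) (by simpa using hw) (by simpa using hz)

lemma expm1_le (x : ℂ) : ‖Complex.exp x - 1‖ ≤ Real.exp ‖x‖ - 1 := by
  simpa using Complex.norm_exp_sub_sum_le_exp_norm_sub_sum x 1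

lemma real_a {l s : ℝ} (hs0 : 0 ≤ s) (hs1 : s ≤ 1) : Real.exp (l * s) - 1 ≤ s * Real.exp l := by
  have := convexOn_exp.2 (mem_univ l) (mem_univ 0) hs0 (sub_nonneg.mpr hs1) (by ring)
  simp only [smul_eq_mul, mul_zero, add_zero, Real.exp_zero, mul_one] at this
  rw [mul_comm l s]; linarith

lemma real_b {l t : ℝ} (hl : 0 ≤ l) (ht0 : 0 ≤ t) (ht1 : t ≤ 1) (M : ℕ) :
    (1 - t ^ M) * (Real.exp (l * t ^ (M + 1)) - 1) ≤
      t ^ M * (l * Real.exp (l / 2) + 2 * (1 - t ^ (M + 1)) * Real.exp (l * t ^ (M + 1))) := by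
  set a := t ^ M with ha
  set s := t ^ (M + 1) with hs
  have ha0 : 0 ≤ a := by positivity
  have ha1 : a ≤ 1 := pow_le_one₀ ht0 ht1
  have hsa : s ≤ a := by rw [hs, pow_succ]; exact mul_le_of_le_one_right ha0 ht1
  have hs0 : 0 ≤ s := by positivity
  have hE : 1 ≤ Real.exp (l * s) := Real.one_le_exp (by positivity)
  have hs1 : s ≤ 1 := hsa.trans ha1
  by_cases h : s ≤ 1 / 2
  · have h1 : Real.exp (l * s) - 1 ≤ l * s * Real.exp (l * s) := by
      have := Real.add_one_le_exp (-(l * s))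
      have h2 : Real.exp (-(l * s)) * Real.exp (l * s) = 1 := by rw [← Real.exp_add]; simp
      nlinarith
    have h2 : Real.exp (l * s) ≤ Real.exp (l / 2) := Real.exp_le_exp.mpr (by nlinarith)
    have h3 : l * s * Real.exp (l * s) ≤ l * a * Real.exp (l / 2) := by gcongr
    have h4 : 0 ≤ a * (2 * (1 - s) * Real.exp (l * s)) := by
      have := sub_nonneg.mpr hs1; positivity
    nlinarith
  · push Not at h
    have h1 : (1 - a) * (Real.exp (l * s) - 1) ≤ (1 - s) * Real.exp (l * s) := by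
      have := sub_nonneg.mpr hs1
      gcongr; linarith
    have h2 : 0 ≤ a * (l * Real.exp (l / 2)) := by positivity
    have h3 : 0 ≤ (1 - s) * Real.exp (l * s) := by have := sub_nonneg.mpr hs1; positivity
    nlinarith

/-- The main estimate for the increment along a radius. -/
lemma incr {F P : ℂ → ℂ} {S L l : ℝ} {M : ℕ} (hl : 0 < l) (hL : 0 ≤ L)
    (hS : ∀ z : ℂ, ‖z‖ ≤ 1 → ‖F z‖ ≤ S)
    (hLip : ∀ z w : ℂ, ‖z‖ ≤ 1 → ‖w‖ ≤ 1 → ‖F z - F w‖ ≤ L * ‖z - w‖)
    (hP : ∀ z, HasDerivAt P (F z * (Complex.exp (l * z ^ (M + 1)) - 1)) z) (hP0 : P 0 = 0)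
    {ζ : ℂ} (hζ : ‖ζ‖ = 1) :
    ‖P ζ - ζ * F ζ * (Complex.exp (l * ζ ^ (M + 1)) - 1) / (l * (M + 1) * ζ ^ (M + 1))‖ ≤
      L * Real.exp l / (M + 1) ^ 2 +
        S / (M + 1) * (l * Real.exp (l / 2) + 1 + 2 * Real.exp l / l ^ 2) := by
  have hS0 : 0 ≤ S := (norm_nonneg _).trans (hS 0 (by simp))
  set u := ζ ^ (M + 1) with hu
  have hun : ‖u‖ = 1 := by rw [hu, norm_pow, hζ, one_pow]
  have hu0 : u ≠ 0 := by intro h; rw [h] at hun; simp at hun
  have hlc : (l : ℂ) ≠ 0 := by exact_mod_cast hl.ne'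
  have hM : ((M : ℂ) + 1) ≠ 0 := by exact_mod_cast Nat.succ_ne_zero M
  have hMr : (0:ℝ) < (M : ℝ) + 1 := by positivity
  let h : ℂ → ℂ := fun w => P (w * ζ) -
    ζ * F ζ * (Complex.exp (l * w ^ (M + 1) * u) - 1) / (l * (M + 1) * u)
  let h' : ℂ → ℂ := fun w => ζ * F (w * ζ) * (Complex.exp (l * w ^ (M + 1) * u) - 1) -
    ζ * F ζ * w ^ M * Complex.exp (l * w ^ (M + 1) * u)
  have hd : ∀ w, HasDerivAt h (h' w) w := by
    intro w
    have h1 : HasDerivAt (fun w : ℂ => P (w * ζ))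
        (F (w * ζ) * (Complex.exp (l * (w * ζ) ^ (M + 1)) - 1) * ζ) w := by
      exact ((hP (w * ζ)).comp w ((hasDerivAt_id' w).mul_const ζ)).congr_deriv (by ring)
    have h2 : HasDerivAt (fun w : ℂ => (l : ℂ) * w ^ (M + 1) * u) (l * ((M + 1) * w ^ M) * u) w := by
      have := ((hasDerivAt_pow (M + 1) w).const_mul (l : ℂ)).mul_const u
      simpa using this
    have h3 := (((h2.cexp.sub_const 1).const_mul (ζ * F ζ)).div_const (l * (M + 1) * u))
    refine (h1.fun_sub h3).congr_deriv ?_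
    have e : (l : ℂ) * (w * ζ) ^ (M + 1) = l * w ^ (M + 1) * u := by rw [hu, mul_pow]; ring
    simp only [h', e]
    field_simp
  let B : ℝ → ℝ := fun t => L * Real.exp l * (t ^ (M + 2) / (M + 2) - t ^ (M + 3) / (M + 3)) +
    S / (M + 1) * ((l * Real.exp (l / 2) + 1) * t ^ (M + 1) +
      2 * ((1 - t ^ (M + 1)) * Real.exp (l * t ^ (M + 1)) / l + Real.exp (l * t ^ (M + 1)) / l ^ 2))
  let B' : ℝ → ℝ := fun t => L * Real.exp l * ((1 - t) * t ^ (M + 1)) +
    S * (t ^ M * (l * Real.exp (l / 2) + 2 * (1 - t ^ (M + 1)) * Real.exp (l * t ^ (M + 1))) + t ^ M)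
  have hB : ∀ t, HasDerivAt B (B' t) t := by
    intro t
    have p1 : HasDerivAt (fun t : ℝ => t ^ (M + 1)) ((M + 1) * t ^ M) t := by
      simpa using hasDerivAt_pow (M + 1) t
    have p2 : HasDerivAt (fun t : ℝ => t ^ (M + 2)) ((M + 2) * t ^ (M + 1)) t := by
      have := hasDerivAt_pow (M + 2) t
      push_cast at this; simpa using this
    have p3 : HasDerivAt (fun t : ℝ => t ^ (M + 3)) ((M + 3) * t ^ (M + 2)) t := by
      have := hasDerivAt_pow (M + 3) t
      push_cast at this; simpa using this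
    have e := (p1.const_mul l).exp
    have q := (((p2.div_const ((M:ℝ) + 2)).fun_sub (p3.div_const ((M:ℝ) + 3))).const_mul
      (L * Real.exp l)).fun_add (((p1.const_mul (l * Real.exp (l / 2) + 1)).fun_add
        (((((p1.const_sub 1).fun_mul e).div_const l).fun_add (e.div_const (l ^ 2))).const_mul 2)).const_mul
          (S / (M + 1)))
    refine q.congr_deriv ?_
    simp only [B']
    field_simp
    ring
  have key := image_norm_le_of_norm_deriv_right_le_deriv_boundary (f := fun t : ℝ => h t)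
    (f' := fun t : ℝ => h' t) (a := 0) (b := 1)
    (fun t _ => (hd t).comp_ofReal.continuousAt.continuousWithinAt)
    (fun t _ => (hd t).comp_ofReal.hasDerivWithinAt) (B := B) (B' := B')
    (by simp only [h, B]; simp [hP0]; positivity) hB
    (fun t ht => by
      have ht0 := ht.1
      have ht1 := ht.2.le
      have htn : ‖(t : ℂ)‖ = t := by rw [Complex.norm_real, Real.norm_of_nonneg ht0]
      have htz : ‖(t : ℂ) * ζ‖ ≤ 1 := by rw [norm_mul, htn, hζ]; linarith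
      set X := Complex.exp (l * (t : ℂ) ^ (M + 1) * u) with hX
      have hX1 : ‖X - 1‖ ≤ Real.exp (l * t ^ (M + 1)) - 1 := by
        have := expm1_le (l * (t : ℂ) ^ (M + 1) * u)
        rwa [norm_mul, norm_mul, norm_pow, htn, hun, mul_one, Complex.norm_real,
          Real.norm_of_nonneg hl.le] at this
      have e : h' t = ζ * ((F (t * ζ) - F ζ) * (X - 1) +
          F ζ * (((1 - t ^ M : ℝ) : ℂ) * (X - 1) - ((t ^ M : ℝ) : ℂ))) := by
        simp only [h', ← hX]; push_cast; ring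
      have htM0 : 0 ≤ t ^ M := by positivity
      have htM1 : 0 ≤ 1 - t ^ M := sub_nonneg.mpr (pow_le_one₀ ht0 ht1)
      have a1 : ‖F (t * ζ) - F ζ‖ ≤ L * (1 - t) := by
        have := hLip _ _ htz hζ.le
        have e2 : (t : ℂ) * ζ - ζ = -((1 - t : ℝ) : ℂ) * ζ := by push_cast; ring
        rwa [e2, norm_mul, norm_neg, hζ, mul_one, Complex.norm_real,
          Real.norm_of_nonneg (by linarith)] at this
      have a2 : ‖X - 1‖ ≤ t ^ (M + 1) * Real.exp l :=
        hX1.trans (real_a (by positivity) (pow_le_one₀ ht0 ht1))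
      have a3 : ‖((1 - t ^ M : ℝ) : ℂ) * (X - 1) - ((t ^ M : ℝ) : ℂ)‖ ≤
          t ^ M * (l * Real.exp (l / 2) + 2 * (1 - t ^ (M + 1)) * Real.exp (l * t ^ (M + 1))) +
            t ^ M := by
        refine (norm_sub_le _ _).trans (add_le_add ?_ ?_)
        · rw [norm_mul, Complex.norm_real, Real.norm_of_nonneg htM1]
          exact (mul_le_mul_of_nonneg_left hX1 htM1).trans (real_b hl.le ht0 ht1 M)
        · rw [Complex.norm_real, Real.norm_of_nonneg htM0]
      rw [e, norm_mul, hζ, one_mul]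
      refine (norm_add_le _ _).trans (add_le_add ?_ ?_)
      · rw [norm_mul]
        have := mul_le_mul a1 a2 (norm_nonneg _) (by have := sub_nonneg.mpr ht1; positivity)
        linarith
      · rw [norm_mul]
        exact mul_le_mul (hS ζ hζ.le) a3 (norm_nonneg _) hS0)
    (right_mem_Icc.mpr zero_le_one)
  simp only [h, B, ofReal_one, one_mul, one_pow, mul_one, sub_self, zero_mul, zero_div,
    zero_add] at key
  refine key.trans ?_
  have : (1 / ((M:ℝ) + 2) - 1 / ((M:ℝ) + 3)) ≤ 1 / ((M:ℝ) + 1) ^ 2 := by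
    rw [div_sub_div _ _ (by positivity) (by positivity), div_le_div_iff₀ (by positivity) (by positivity)]
    have : (0:ℝ) ≤ M := by positivity
    nlinarith
  have h5 := mul_le_mul_of_nonneg_left this (show 0 ≤ L * Real.exp l by positivity)
  have e1 : L * Real.exp l * (1 / ((M:ℝ) + 1) ^ 2) = L * Real.exp l / (M + 1) ^ 2 := by ring
  have e2 : 2 * (Real.exp l / l ^ 2) = 2 * Real.exp l / l ^ 2 := by ring
  rw [e2]; linarith


lemma params (x Λ K : ℝ) (hx : 0 < x) :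
    ∃ l : ℝ, ∃ M : ℕ, Λ ≤ l ∧ 1 ≤ l ∧ K * l ≤ M + 1 ∧ ((M : ℝ) + 1) = x * Real.exp l / l := by
  have h2 : Tendsto (fun l : ℝ => x * (Real.exp l / l ^ 2)) atTop atTop :=
    (Real.tendsto_exp_div_pow_atTop 2).const_mul_atTop hx
  have h1 : Tendsto (fun l : ℝ => x * (Real.exp l / l ^ 1)) atTop atTop :=
    (Real.tendsto_exp_div_pow_atTop 1).const_mul_atTop hx
  obtain ⟨l0, hl0⟩ := eventually_atTop.mp ((h2.eventually_ge_atTop K).and
    ((eventually_ge_atTop Λ).and (eventually_ge_atTop 1)))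
  have h01 : 1 ≤ l0 := (hl0 l0 le_rfl).2.2
  set M := ⌈x * (Real.exp l0 / l0 ^ 1)⌉₊ with hM
  obtain ⟨l1, hl1⟩ := ((h1.eventually_ge_atTop ((M : ℝ) + 1)).and (eventually_ge_atTop l0)).exists
  have hc : ContinuousOn (fun l : ℝ => x * (Real.exp l / l ^ 1)) (Icc l0 l1) := by
    refine continuousOn_const.mul (Real.continuous_exp.continuousOn.div (by fun_prop) ?_)
    intro l hl; have : 0 < l := by linarith [hl.1]
    positivity
  obtain ⟨l, hl, e⟩ := intermediate_value_Icc hl1.2 hc (show ((M : ℝ) + 1) ∈ Icc _ _ from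
    ⟨by have := Nat.le_ceil (x * (Real.exp l0 / l0 ^ 1)); linarith, hl1.1⟩)
  obtain ⟨a1, a2, a3⟩ := hl0 l hl.1
  have e' : ((M : ℝ) + 1) = x * Real.exp l / l := by rw [← e]; ring
  refine ⟨l, M, a2, a3, ?_, e'⟩
  rw [e']
  have : x * Real.exp l / l = x * (Real.exp l / l ^ 2) * l := by field_simp
  rw [this]; exact mul_le_mul_of_nonneg_right a1 (by linarith)

lemma exists_u {l β : ℝ} (hl : 4 ≤ l) (hβ : |β| ≤ 4) :
    ∃ u : ℂ, ‖u‖ = 1 ∧ ‖u - 1‖ ≤ 6 / l ∧ ∃ κ : ℝ, Real.exp l * (1 - 16 / l) ≤ κ ∧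
      κ ≤ Real.exp l ∧ Complex.exp (l * u) = κ * Complex.exp (β * I) := by
  have hl0 : 0 < l := by linarith
  set b := β / l with hb
  have hβ2 : β ^ 2 ≤ 16 := by have := abs_le.mp hβ; nlinarith
  have hb2 : b ^ 2 ≤ 16 / l ^ 2 := by rw [hb, div_pow]; gcongr
  have hb1 : b ^ 2 ≤ 1 := hb2.trans (by rw [div_le_one (by positivity)]; nlinarith)
  set a := Real.sqrt (1 - b ^ 2) with ha
  have ha2 : a ^ 2 = 1 - b ^ 2 := Real.sq_sqrt (by linarith)
  have ha0 : 0 ≤ a := Real.sqrt_nonneg _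
  have ha1 : a ≤ 1 := by nlinarith
  have ha3 : 1 - b ^ 2 ≤ a := by nlinarith
  refine ⟨a + b * I, ?_, ?_, Real.exp (l * a), ?_, ?_, ?_⟩
  · rw [Complex.norm_add_mul_I, ha2]; simp
  · have e : (a : ℂ) + b * I - 1 = ((a - 1 : ℝ) : ℂ) + b * I := by push_cast; ring
    rw [e, Complex.norm_add_mul_I]
    refine Real.sqrt_le_iff.mpr ⟨by positivity, ?_⟩
    have : (6 / l) ^ 2 = 36 / 16 * (16 / l ^ 2) := by field_simp; norm_num
    rw [this]; nlinarith
  · have e : Real.exp (l * a) = Real.exp l * Real.exp (l * a - l) := by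
      rw [← Real.exp_add]; ring_nf
    rw [e]
    refine mul_le_mul_of_nonneg_left ?_ (Real.exp_pos _).le
    have h1 := Real.add_one_le_exp (l * a - l)
    have h2 : l * b ^ 2 ≤ 16 / l := by
      have : 16 / l = l * (16 / l ^ 2) := by field_simp
      rw [this]; gcongr
    nlinarith
  · exact Real.exp_le_exp.mpr (by nlinarith)
  · rw [Complex.ofReal_exp, ← Complex.exp_add]
    congr 1
    have : (l : ℂ) ≠ 0 := by exact_mod_cast hl0.ne'
    rw [hb]; push_cast; field_simp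

lemma exists_root {ζ u : ℂ} (hζ : ‖ζ‖ = 1) (hu : ‖u‖ = 1) (M : ℕ) :
    ∃ ζ' : ℂ, ‖ζ'‖ = 1 ∧ ζ' ^ (M + 1) = u ∧ ‖ζ' - ζ‖ ≤ 4 / (M + 1) := by
  have hζ0 : ζ ≠ 0 := by intro h; rw [h] at hζ; simp at hζ
  set q := u / ζ ^ (M + 1) with hq
  have hqn : ‖q‖ = 1 := by rw [hq, norm_div, norm_pow, hζ, hu]; simp
  have hM : ((M : ℂ) + 1) ≠ 0 := by exact_mod_cast Nat.succ_ne_zero M
  refine ⟨ζ * Complex.exp (I * ((arg q / (M + 1) : ℝ) : ℂ)), ?_, ?_, ?_⟩
  · rw [norm_mul, hζ, mul_comm I, Complex.norm_exp_ofReal_mul_I, one_mul]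
  · rw [mul_pow, ← Complex.exp_nat_mul]
    have e : (((M + 1 : ℕ) : ℂ)) * (I * ((arg q / (M + 1) : ℝ) : ℂ)) = arg q * I := by
      push_cast; field_simp
    have h := Complex.norm_mul_exp_arg_mul_I q
    rw [hqn] at h
    simp only [ofReal_one, one_mul] at h
    rw [e, h, hq]; field_simp
  · have e : ζ * Complex.exp (I * ((arg q / (M + 1) : ℝ) : ℂ)) - ζ =
        ζ * (Complex.exp (I * ((arg q / (M + 1) : ℝ) : ℂ)) - 1) := by ring
    rw [e, norm_mul, hζ, one_mul]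
    refine Real.norm_exp_I_mul_ofReal_sub_one_le.trans ?_
    rw [Real.norm_eq_abs, abs_div, abs_of_pos (show (0:ℝ) < M + 1 by positivity)]
    gcongr
    exact (Complex.abs_arg_le_pi q).trans Real.pi_le_four

/-- State of the construction. -/
structure St where
  F : ℂ → ℂ
  f : ℂ → ℂ
  S : ℝ
  N : ℕ

/-- Invariant of the construction. -/
def Inv (s : St) (r c : ℝ) : Prop :=
  Differentiable ℂ s.F ∧ (∀ z, HasDerivAt s.f (s.F z) z) ∧ Pos s.F s.S ∧ 0 < s.S ∧
  (∀ z : ℂ, ‖z‖ < 1 → Real.exp (-∑ n ∈ Finset.range (s.N + 1), (n : ℝ) * ‖z‖ ^ n) ≤ ‖s.F z‖) ∧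
  ∀ w : ℂ, ‖w - 1‖ ≤ 1 → ∃ ζ : ℂ, ‖ζ‖ = 1 ∧ ‖w - s.f ζ‖ ≤ r ∧ c * s.S ≤ ‖s.F ζ‖

lemma errb {r S L l n E : ℝ} (hr : 0 < r) (hS : 0 < S) (hL : 0 < L) (hl3 : 10000 ≤ l) (hn0 : 0 < n)
    (hE0 : 0 < E) (k3' : 400 * L * l ≤ n * S) (ha0 : S * E / (l * n) = r / 2)
    (hE2 : l ^ 2 / 2 ≤ E) (hE3 : l ^ 3 / 48 * Real.exp (l / 2) ≤ E) :
    L * E / n ^ 2 + S / n * (l * Real.exp (l / 2) + 1 + 2 * E / l ^ 2) ≤ r / 100 := by
  have hl0 : 0 < l := by linarith
  have e1 : L * E / n ^ 2 = S * E / (l * n) * (L * l / (n * S)) := by field_simp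
  have e2 : L * l / (n * S) ≤ 1 / 400 := by
    rw [div_le_div_iff₀ (by positivity) (by positivity)]; linarith
  have e3 : l * Real.exp (l / 2) ≤ E / l * (48 / l) := by
    have : E / l * (48 / l) = l * (48 / l ^ 3 * E) := by field_simp
    rw [this]
    refine mul_le_mul_of_nonneg_left ?_ hl0.le
    rw [div_mul_eq_mul_div, le_div_iff₀ (by positivity)]; linarith
  have e4 : 1 ≤ E / l * (2 / l) := by
    rw [div_mul_div_comm, le_div_iff₀ (by positivity)]; nlinarith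
  have e5 : 2 * E / l ^ 2 = E / l * (2 / l) := by field_simp
  have e6 : 52 / l ≤ 0.0052 := by rw [div_le_iff₀ hl0]; linarith
  have e7 : S / n * (l * Real.exp (l / 2) + 1 + 2 * E / l ^ 2) ≤ S / n * (E / l * (52 / l)) := by
    refine mul_le_mul_of_nonneg_left ?_ (by positivity)
    have : E / l * (52 / l) = E / l * (48 / l) + E / l * (2 / l) + E / l * (2 / l) := by ring
    linarith
  have e8 : S / n * (E / l * (52 / l)) = S * E / (l * n) * (52 / l) := by field_simp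
  rw [e8, ha0] at e7
  rw [e1, ha0]
  nlinarith

lemma est1 {r S l n E c κ : ℝ} {v p X : ℂ} (hr : 0 < r) (hS : 0 < S) (hl0 : 0 < l) (hn0 : 0 < n)
    (hE0 : 0 < E) (hc : 0.9 ≤ c) (k8 : 16 / l ≤ 0.1) (ha0 : S * E / (l * n) = r / 2) (hp0 : p ≠ 0)
    (hw1 : ‖v‖ ≤ r) (hp1 : ‖p‖ ≤ S) (hp2 : c * S ≤ ‖p‖) (hκ1 : E * (1 - 16 / l) ≤ κ) (hκ2 : κ ≤ E)
    (hκ : X = κ * Complex.exp (arg (v / p) * I)) : ‖v - p * X / (l * n)‖ ≤ 0.6 * r := by
  set q := v / p with hq
  have hκ0 : 0 ≤ κ := le_trans (by nlinarith) hκ1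
  have e0 := Complex.norm_mul_exp_arg_mul_I q
  have e1 : v - p * X / (l * n) =
      p * Complex.exp (arg q * I) * ((‖q‖ - κ / (l * n) : ℝ) : ℂ) := by
    have : v = p * (‖q‖ * Complex.exp (arg q * I)) := by rw [e0, hq]; field_simp
    rw [hκ]
    conv_lhs => rw [this]
    push_cast; ring
  have e2 : ‖p‖ * ‖q‖ = ‖v‖ := by
    rw [← norm_mul, hq]; congr 1; field_simp
  rw [e1, norm_mul, norm_mul, Complex.norm_exp_ofReal_mul_I, mul_one, Complex.norm_real,
    Real.norm_eq_abs, ← abs_of_nonneg (norm_nonneg p), ← abs_mul, mul_sub, e2]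
  have e3 : ‖p‖ * (κ / (l * n)) ≤ r / 2 := by
    rw [← ha0, mul_div_assoc]; gcongr
  have e4 : 0.9 * S * (E * 0.9 / (l * n)) ≤ ‖p‖ * (κ / (l * n)) := by
    refine mul_le_mul (by nlinarith) ?_ (by positivity) (norm_nonneg _)
    gcongr; nlinarith
  have e5 : 0.9 * S * (E * 0.9 / (l * n)) = 0.81 * (S * E / (l * n)) := by ring
  rw [e5, ha0] at e4
  have := norm_nonneg v
  rw [abs_le]; constructor <;> linarith

lemma est2 {r S L l n E κ : ℝ} {ζ ζ' u A A' X : ℂ} (hS : 0 < S) (hL : 0 < L) (hl3 : 10000 ≤ l)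
    (k5 : 400 ≤ n) (hE0 : 0 < E) (k3' : 400 * L * l ≤ n * S) (ha0 : S * E / (l * n) = r / 2)
    (hE2 : l ^ 2 / 2 ≤ E) (hζ : ‖ζ‖ = 1) (hζ' : ‖ζ'‖ = 1) (hu : ‖u‖ = 1) (hA : ‖A‖ ≤ S)
    (hA' : ‖A'‖ ≤ S) (hFF : ‖A' - A‖ ≤ L * (4 / n)) (hnear : ‖ζ' - ζ‖ ≤ 4 / n)
    (hu1 : ‖u - 1‖ ≤ 6 / l) (hX : ‖X‖ = κ) (hκ2 : κ ≤ E) :
    ‖ζ' * A' * (X - 1) / (l * n * u) - ζ * A * X / (l * n)‖ ≤ r / 50 := by
  have hl0 : 0 < l := by linarith
  have hn0 : 0 < n := by linarith
  have hκ0 : 0 ≤ κ := hX ▸ norm_nonneg _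
  have hlc : (l : ℂ) ≠ 0 := by exact_mod_cast hl0.ne'
  have hnc0 : (n : ℂ) ≠ 0 := by exact_mod_cast hn0.ne'
  have hu0 : u ≠ 0 := by intro h; rw [h] at hu; simp at hu
  have e1 : ζ' * A' * (X - 1) / (l * n * u) - ζ * A * X / (l * n) =
      ((ζ' * (A' - A) + (ζ' - ζ) * A - (u - 1) * (ζ * A)) * X - ζ' * A') / (l * n * u) := by
    field_simp; ring
  have e2 : ‖ζ' * (A' - A) + (ζ' - ζ) * A - (u - 1) * (ζ * A)‖ ≤
      L * (4 / n) + 4 / n * S + 6 / l * S := by
    refine (norm_sub_le _ _).trans (add_le_add ((norm_add_le _ _).trans (add_le_add ?_ ?_)) ?_)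
    · rw [norm_mul, hζ', one_mul]; exact hFF
    · rw [norm_mul]; gcongr
    · rw [norm_mul, norm_mul, hζ, one_mul]; gcongr
  have e3 : L * (4 / n) + 4 / n * S + 6 / l * S ≤ 0.03 * S := by
    have a1 : L * (4 / n) ≤ 0.01 * S := by
      rw [mul_div_assoc', div_le_iff₀ hn0]; nlinarith
    have a2 : 4 / n ≤ 0.01 := by rw [div_le_iff₀ hn0]; linarith
    have a3 : 6 / l ≤ 0.01 := by rw [div_le_iff₀ hl0]; linarith
    nlinarith
  have e4 : ‖(ζ' * (A' - A) + (ζ' - ζ) * A - (u - 1) * (ζ * A)) * X - ζ' * A'‖ ≤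
      0.04 * (S * E) := by
    refine (norm_sub_le _ _).trans ?_
    rw [norm_mul, norm_mul, hX, hζ', one_mul]
    have a1 := mul_le_mul (e2.trans e3) hκ2 hκ0 (by positivity)
    have a3 : 100 ≤ E := by nlinarith
    nlinarith
  rw [e1, norm_div, norm_mul, norm_mul, hu, Complex.norm_real, Complex.norm_real,
    Real.norm_of_nonneg hl0.le, Real.norm_of_nonneg hn0.le, mul_one]
  have e5 : r / 50 = 0.04 * (S * E) / (l * n) := by rw [mul_div_assoc, ha0]; linarith
  rw [e5]; gcongr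

lemma ks {N a b c l n : ℝ} (hN : 0 ≤ N) (ha : 0 ≤ a) (hb : 0 ≤ b) (hc : 0 ≤ c) (hl : 1 ≤ l)
    (h : (1 + N + a + b + 400 + c) * l ≤ n) :
    l ≤ n ∧ N + 1 ≤ n ∧ a * l ≤ n ∧ b ≤ n ∧ 400 ≤ n ∧ c ≤ n := by
  refine ⟨?_, ?_, ?_, ?_, ?_, ?_⟩ <;> nlinarith

lemma est3 {c η S E κ x : ℝ} (hc1 : c ≤ 1) (hη : 0 < η) (hS : 0 < S) (hE : 0 < E) (hκ0 : 0 ≤ κ)
    (hx : 0 ≤ x) (a1 : (c - η) * S ≤ x) (a2 : E * (1 - η) ≤ κ) :
    (c - 2 * η) * (S * E) ≤ x * κ := by
  by_cases hcη : c - η ≤ 0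
  · have : (c - 2 * η) * (S * E) ≤ 0 :=
      mul_nonpos_of_nonpos_of_nonneg (by linarith) (by positivity)
    exact this.trans (by positivity)
  · push Not at hcη
    have h1 : 0 ≤ 1 - η := by linarith
    have a3 := mul_le_mul a1 a2 (by positivity) hx
    have a4 : (c - 2 * η) ≤ (c - η) * (1 - η) := by nlinarith
    have a5 := mul_le_mul_of_nonneg_right a4 (show 0 ≤ S * E by positivity)
    nlinarith

lemma step (s : St) {r c η : ℝ} (hr : 0 < r) (hc : 0.9 ≤ c) (hc1 : c ≤ 1) (hη : 0 < η)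
    (h : Inv s r c) :
    ∃ s' : St, Inv s' (0.7 * r) (c - 2 * η) ∧
      ∃ T : ℝ, T ≤ r ∧ Pos (fun z => s'.f z - s.f z) T := by
  obtain ⟨hF, hf, hP, hS, hlow, hcov⟩ := h
  obtain ⟨F, f, S, N⟩ := s
  simp only at hF hf hP hS hlow hcov
  obtain ⟨L, hL, hLip⟩ := lip hF
  obtain ⟨L', hL', hLip'⟩ := lip (G := f) (fun z => (hf z).differentiableAt)
  obtain ⟨l, M, hl1, hl2, hK, hM⟩ := params (2 * S / r) (max 10000 (16 / η))
    (1 + N + 400 * L / S + 4 * L / (η * S) + 400 + 400 * L' / r) (by positivity)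
  have hl3 : 10000 ≤ l := (le_max_left _ _).trans hl1
  have hl4 : 16 / η ≤ l := (le_max_right _ _).trans hl1
  have hl0 : 0 < l := by linarith
  set n : ℝ := (M : ℝ) + 1 with hn
  have hn0 : 0 < n := by positivity
  have hN0 : (0:ℝ) ≤ N := by positivity
  have p1 : 0 ≤ 400 * L / S := by positivity
  have p2 : 0 ≤ 4 * L / (η * S) := by positivity
  have p3 : 0 ≤ 400 * L' / r := by positivity
  obtain ⟨k1, k2, k3, k4, k5, k6⟩ := ks hN0 p1 p2 p3 hl2 hK
  have k3' : 400 * L * l ≤ n * S := by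
    rw [div_mul_eq_mul_div, div_le_iff₀ hS] at k3; exact k3
  have k4' : L * (4 / n) ≤ η * S := by
    rw [div_le_iff₀ (by positivity)] at k4
    rw [mul_div_assoc', div_le_iff₀ hn0]; linarith
  have k6' : L' * (4 / n) ≤ r / 100 := by
    rw [div_le_iff₀ hr] at k6
    rw [mul_div_assoc', div_le_iff₀ hn0]; linarith
  have k7 : 16 / l ≤ η := by
    rw [div_le_iff₀ hη] at hl4; rw [div_le_iff₀ hl0]; linarith
  have k8 : 16 / l ≤ 0.1 := by rw [div_le_iff₀ hl0]; linarith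
  set E := Real.exp l with hE
  have hE0 : 0 < E := Real.exp_pos l
  have ha0 : S * E / (l * n) = r / 2 := by rw [hM]; field_simp
  have hE2 : l ^ 2 / 2 ≤ E := by
    have := Real.pow_div_factorial_le_exp l hl0.le 2
    simpa using this
  have hE3 : l ^ 3 / 48 * Real.exp (l / 2) ≤ E := by
    have := Real.pow_div_factorial_le_exp (l / 2) (by positivity) 3
    have e : E = Real.exp (l / 2) * Real.exp (l / 2) := by rw [← Real.exp_add, hE]; ring_nf
    rw [e]
    refine mul_le_mul_of_nonneg_right ?_ (Real.exp_pos _).le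
    refine le_trans (le_of_eq ?_) this
    simp [Nat.factorial]; ring
  -- the increment
  have hGd : Differentiable ℂ (fun z => F z * (Complex.exp (l * z ^ (M + 1)) - 1)) := by fun_prop
  obtain ⟨P, hP0, hPd⟩ := hGd.isExactOn_univ.with_val_at 0 0
  have hPd' : ∀ z, HasDerivAt P (F z * (Complex.exp (l * z ^ (M + 1)) - 1)) z :=
    fun z => hPd z (mem_univ z)
  obtain ⟨T, hT⟩ := (hP.mul (pos_expm1 hl0.le (M + 1))).integ hGd.continuous hPd' hP0
  have hSn : ∀ z : ℂ, ‖z‖ ≤ 1 → ‖F z‖ ≤ S := fun z hz => hP.norm_le hz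
  have err := errb hr hS hL hl3 hn0 hE0 k3' ha0 hE2 hE3
  have hinc : ∀ ζ : ℂ, ‖ζ‖ = 1 → ‖P ζ - ζ * F ζ * (Complex.exp (l * ζ ^ (M + 1)) - 1) /
      (l * (M + 1) * ζ ^ (M + 1))‖ ≤ r / 100 :=
    fun ζ hζ => (incr hl0 hL.le hSn hLip hPd' hP0 hζ).trans err
  have hnc : ((M : ℂ) + 1) = (n : ℂ) := by rw [hn]; push_cast; ring
  have hlc : (l : ℂ) ≠ 0 := by exact_mod_cast hl0.ne'
  have hnc0 : (n : ℂ) ≠ 0 := by exact_mod_cast hn0.ne'
  refine ⟨⟨fun z => F z * Complex.exp (l * z ^ (M + 1)), fun z => f z + P z, S * E, M + 1⟩,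
    ⟨by fun_prop, fun z => ((hf z).fun_add (hPd' z)).congr_deriv (by ring),
      hP.mul (pos_exp hl0.le _), by positivity, fun z hz => ?_, fun w hw => ?_⟩, T, ?_, ?_⟩
  · simp only [norm_mul, Complex.norm_exp]
    rw [Finset.sum_range_succ, neg_add, Real.exp_add]
    refine mul_le_mul (le_trans ?_ (hlow z hz)) ?_ (Real.exp_pos _).le (norm_nonneg _)
    · refine Real.exp_le_exp.mpr (neg_le_neg (Finset.sum_le_sum_of_subset_of_nonneg ?_
        (fun i _ _ => by positivity)))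
      refine Finset.range_subset_range.mpr ?_
      have : ((N + 1 : ℕ) : ℝ) ≤ ((M + 1 : ℕ) : ℝ) := by push_cast; linarith
      exact_mod_cast this
    · refine Real.exp_le_exp.mpr ?_
      have h1 := (abs_le.mp (Complex.abs_re_le_norm ((l : ℂ) * z ^ (M + 1)))).1
      rw [norm_mul, norm_pow, Complex.norm_real, Real.norm_of_nonneg hl0.le] at h1
      have h2 : l * ‖z‖ ^ (M + 1) ≤ n * ‖z‖ ^ (M + 1) := by gcongr
      push_cast; linarith
  · obtain ⟨ζ, hζ, hw1, hw2⟩ := hcov w hw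
    set v := w - f ζ with hv
    set p := ζ * F ζ with hp
    have hpn : ‖p‖ = ‖F ζ‖ := by rw [hp, norm_mul, hζ, one_mul]
    have hFζ : ‖F ζ‖ ≤ S := hSn ζ hζ.le
    have hp0 : p ≠ 0 := by
      intro h0; rw [h0, norm_zero] at hpn
      have : 0 < c * S := by positivity
      linarith
    set q := v / p with hq
    obtain ⟨u, hu, hu1, κ, hκ1, hκ2, hκ⟩ := exists_u (l := l) (β := arg q) (by linarith)
      ((Complex.abs_arg_le_pi q).trans Real.pi_le_four)
    obtain ⟨ζ', hζ', hroot, hnear⟩ := exists_root hζ hu M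
    rw [← hn] at hnear
    rw [← hE] at hκ1 hκ2
    have hκ0 : 0 ≤ κ := le_trans (mul_nonneg hE0.le (by linarith)) hκ1
    have hu0 : u ≠ 0 := by intro h; rw [h] at hu; simp at hu
    have hX : ‖Complex.exp (l * u)‖ = κ := by
      rw [hκ, norm_mul, Complex.norm_exp_ofReal_mul_I, Complex.norm_real,
        Real.norm_of_nonneg hκ0, mul_one]
    have hFF : ‖F ζ' - F ζ‖ ≤ L * (4 / n) :=
      (hLip _ _ hζ'.le hζ.le).trans (by gcongr)
    have hff : ‖f ζ' - f ζ‖ ≤ r / 100 :=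
      ((hLip' _ _ hζ'.le hζ.le).trans (by gcongr)).trans k6'
    have hi := hinc ζ' hζ'
    rw [hroot, hnc] at hi
    refine ⟨ζ', hζ', ?_, ?_⟩
    · simp only []
      set X := Complex.exp (l * u) with hXd
      have b1 : ‖v - p * X / (l * n)‖ ≤ 0.6 * r :=
        est1 hr hS hl0 hn0 hE0 hc k8 ha0 hp0 hw1 (hpn ▸ hFζ) (hpn ▸ hw2) hκ1 hκ2 hκ
      have b2 : ‖ζ' * F ζ' * (X - 1) / (l * n * u) - p * X / (l * n)‖ ≤ r / 50 :=
        est2 hS hL hl3 k5 hE0 k3' ha0 hE2 hζ hζ' hu hFζ (hSn ζ' hζ'.le) hFF hnear hu1 hX hκ2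
      have e : w - (f ζ' + P ζ') = (v - p * X / (l * n)) - (f ζ' - f ζ) -
          (P ζ' - ζ' * F ζ' * (X - 1) / (l * n * u)) -
          (ζ' * F ζ' * (X - 1) / (l * n * u) - p * X / (l * n)) := by rw [hv]; ring
      rw [e]
      have := (norm_sub_le _ _).trans (add_le_add ((norm_sub_le _ _).trans
        (add_le_add ((norm_sub_le _ _).trans (add_le_add b1 hff)) hi)) b2)
      linarith
    · simp only []
      rw [hroot, norm_mul, hX]
      have a1 : (c - η) * S ≤ ‖F ζ'‖ := by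
        have := norm_sub_norm_le (F ζ) (F ζ')
        rw [norm_sub_rev] at this; linarith
      have a2 : E * (1 - η) ≤ κ := le_trans (by gcongr) hκ1
      exact est3 hc1 hη hS hE0 hκ0 (norm_nonneg _) a1 a2
  · have h1 := hinc 1 (by simp)
    rw [hT.one_eq, hP.one_eq, hnc] at h1
    simp only [one_pow, mul_one, one_mul] at h1
    have e : (T : ℂ) - S * (Complex.exp l - 1) / (l * n) = ((T - S * (E - 1) / (l * n) : ℝ) : ℂ) := by
      rw [hE]; push_cast; ring
    rw [e, Complex.norm_real, Real.norm_eq_abs] at h1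
    have h2 : S * (E - 1) / (l * n) ≤ S * E / (l * n) := by gcongr; linarith
    have := (abs_le.mp h1).2
    linarith
  · simpa using hT

theorem main : ∃ a : ℕ → ℂ, Summable (fun n => ‖a n‖) ∧
      (∀ z : ℂ, ‖z‖ < 1 → deriv (fun w : ℂ => ∑' n, a n * w ^ n) z ≠ 0) ∧
      MeasureTheory.volume ((fun w : ℂ => ∑' n, a n * w ^ n) '' Metric.sphere (0 : ℂ) 1) ≠ 0 := by
  let r : ℕ → ℝ := fun k => 0.7 ^ k
  let c : ℕ → ℝ := fun k => 0.9 + 0.1 * (1 / 2) ^ k
  have hstep : ∀ k, ∀ s : {s : St // Inv s (r k) (c k)}, ∃ s' : {s : St // Inv s (r (k + 1)) (c (k + 1))},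
      ∃ T : ℝ, T ≤ r k ∧ Pos (fun z => s'.1.f z - s.1.f z) T := by
    intro k s
    have h1 : (0:ℝ) < (1 / 2) ^ k := by positivity
    have h2 : ((1:ℝ) / 2) ^ k ≤ 1 := pow_le_one₀ (by norm_num) (by norm_num)
    obtain ⟨s', h3, h4⟩ := step s.1 (r := r k) (c := c k) (η := 0.025 * (1 / 2) ^ k)
      (by positivity) (by simp only [c]; linarith) (by simp only [c]; linarith) (by positivity) s.2
    refine ⟨⟨s', ?_⟩, h4⟩
    have e1 : r (k + 1) = 0.7 * r k := by simp only [r]; ring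
    have e2 : c (k + 1) = c k - 2 * (0.025 * (1 / 2) ^ k) := by simp only [c]; ring
    rw [e1, e2]; exact h3
  choose nx T hT hD using hstep
  have pid : Pos (fun z => z) 1 := ⟨Unit, inferInstance, fun _ => 1, fun _ => 1, fun _ => zero_le_one,
    by simpa using hasSum_unique (fun _ : Unit => (1:ℝ)), fun z _ => by
      simpa using hasSum_unique (fun _ : Unit => z)⟩
  have pone : Pos (fun _ => 1) 1 := ⟨Unit, inferInstance, fun _ => 1, fun _ => 0, fun _ => zero_le_one,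
    by simpa using hasSum_unique (fun _ : Unit => (1:ℝ)), fun z _ => by
      simpa using hasSum_unique (fun _ : Unit => (1:ℂ))⟩
  let s0 : {s : St // Inv s (r 0) (c 0)} := ⟨⟨fun _ => 1, fun z => z, 1, 0⟩,
    by fun_prop, fun z => hasDerivAt_id z, pone, one_pos, fun z _ => by simp,
    fun w hw => ⟨1, by simp, by simpa [r] using hw, by simp [c]; norm_num⟩⟩
  let s : (k : ℕ) → {s : St // Inv s (r k) (c k)} := fun k => Nat.rec s0 (fun k s => nx k s) k
  let D : ℕ → ℂ → ℂ := fun k => Nat.casesOn k (fun z => z) (fun k z => (s (k + 1)).1.f z - (s k).1.f z)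
  let U : ℕ → ℝ := fun k => Nat.casesOn k 1 (fun k => T k (s k))
  have hDU : ∀ k, Pos (D k) (U k) := by
    intro k; cases k with
    | zero => exact pid
    | succ k => exact hD k (s k)
  have hr : Summable r := summable_geometric_of_lt_one (by norm_num) (by norm_num)
  have hU : Summable U := by
    rw [← summable_nat_add_iff 1]
    exact Summable.of_nonneg_of_le (fun k => (hDU (k + 1)).nonneg) (fun k => hT k (s k)) hr
  have hpart : ∀ k z, ∑ j ∈ Finset.range (k + 1), D j z = (s k).1.f z := by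
    intro k z
    induction k with
    | zero => simp [D, s, s0]
    | succ k ih => rw [Finset.sum_range_succ, ih]; simp [D]
  obtain ⟨a, ha, hg⟩ := (pos_tsum hDU hU).toSeries
  set g := fun w : ℂ => ∑' n, a n * w ^ n with hgd
  have hunif : TendstoUniformlyOn (fun k => (s k).1.f) g atTop (Metric.closedBall 0 1) := by
    have h1 := tendstoUniformlyOn_tsum_nat (f := D) (s := Metric.closedBall (0:ℂ) 1) hU
      (fun k z hz => (hDU k).norm_le (by simpa using hz))
    have h2 := (h1.seq_tendstoUniformlyOn _ (tendsto_add_atTop_nat 1)).congr_right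
      (g := g) (fun z hz => (hg z (by simpa using hz)).symm)
    refine h2.congr (Eventually.of_forall fun k z _ => hpart k z)
  have hdiff : ∀ k, Differentiable ℂ (s k).1.f := fun k z => ((s k).2.2.1 z).differentiableAt
  refine ⟨a, ha, fun z hz => ?_, ?_⟩
  · have h1 := ((hunif.mono Metric.ball_subset_closedBall).tendstoLocallyUniformlyOn.deriv
      (Eventually.of_forall fun k => (hdiff k).differentiableOn) Metric.isOpen_ball).tendsto_at
      (a := z) (by simpa using hz)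
    have hs : Summable (fun n : ℕ => (n : ℝ) * ‖z‖ ^ n) := by
      simpa using summable_pow_mul_geometric_of_norm_lt_one 1 (r := ‖z‖) (by simpa using hz)
    have h2 : Real.exp (-∑' n : ℕ, (n : ℝ) * ‖z‖ ^ n) ≤ ‖deriv g z‖ := by
      refine ge_of_tendsto' h1.norm fun k => ?_
      simp only [Function.comp]
      rw [((s k).2.2.1 z).deriv]
      refine le_trans (Real.exp_le_exp.mpr (neg_le_neg ?_)) ((s k).2.2.2.2.2.1 z hz)
      exact hs.sum_le_tsum _ (fun i _ => by positivity)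
    intro h0
    rw [h0, norm_zero] at h2
    exact absurd h2 (not_le.mpr (Real.exp_pos _))
  · have hcont : ContinuousOn g (Metric.closedBall 0 1) :=
      hunif.continuousOn (Frequently.of_forall fun k => (hdiff k).continuous.continuousOn)
    have hcl : IsClosed (g '' Metric.sphere 0 1) :=
      ((isCompact_sphere 0 1).image_of_continuousOn
        (hcont.mono Metric.sphere_subset_closedBall)).isClosed
    have hsub : Metric.closedBall (1:ℂ) 1 ⊆ g '' Metric.sphere 0 1 := by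
      intro w hw
      rw [← hcl.closure_eq, Metric.mem_closure_iff]
      intro ε hε
      have e1 := Metric.tendstoUniformlyOn_iff.mp hunif (ε / 2) (by positivity)
      have e2 := (hr.tendsto_atTop_zero).eventually (gt_mem_nhds (show (0:ℝ) < ε / 2 by positivity))
      obtain ⟨k, k1, k2⟩ := (e1.and e2).exists
      obtain ⟨ζ, hζ, h1, -⟩ := (s k).2.2.2.2.2.2 w (by simpa [dist_eq_norm] using hw)
      refine ⟨g ζ, mem_image_of_mem _ (by simpa using hζ), ?_⟩
      have h2 := k1 ζ (by simp [hζ])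
      rw [← dist_eq_norm] at h1
      have := dist_triangle_right w (g ζ) ((s k).1.f ζ)
      linarith
    intro h0
    have := MeasureTheory.measure_mono_null hsub h0
    exact absurd this (Metric.measure_closedBall_pos _ _ one_pos).ne'

end H91.Peano
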