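import Mathlib

set_option autoImplicit false

open Filter Topology Finset
open scoped ZeroAtInfty

namespace H91.PerShad

/-- Periodic shadowing property of an invertible map `T`: the shadowing orbit `(T^j x)_{j ∈ ℤ}`
is written as a two-sided sequence `o` with `o (j+1) = T (o j)` and `x = o 0`. -/
def PSP {X : Type*} [NormedAddCommGroup X] (T : X → X) : Prop :=
  ∀ ε > (0 : ℝ), ∃ δ > (0 : ℝ), ∀ x : ℤ → X, (∀ j, ‖T (x j) - x (j + 1)‖ < δ) →
    (∃ q : ℕ, 1 ≤ q ∧ ∀ j, x (j + q) = x j) →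
    ∃ o : ℤ → X, (∀ j, o (j + 1) = T (o j)) ∧ (∃ q : ℕ, 1 ≤ q ∧ T^[q] (o 0) = o 0) ∧
      ∀ j, ‖x j - o j‖ < ε

/-- Local doubling. -/
def D (a : ℤ → ℝ) (N : ℕ) (n : ℤ) : Prop := ∃ k, |k - n| ≤ N ∧ 2 * a n ≤ a k

/-- The space-independent condition. -/
def W (a : ℤ → ℝ) : Prop :=
  ∃ N : ℕ, (∀ n, D a N n) ∨ ((∃ B, ∀ n, a n ≤ B) ∧ ∀ n, (N : ℤ) < |n| → D a N n)

section seq
variable {a : ℤ → ℝ} {K : ℝ} (ha : ∀ n, 0 < a n) (hK : 1 ≤ K) (h1 : ∀ n, a (n + 1) ≤ K * a n)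
  (h2 : ∀ n, a n ≤ K * a (n + 1))
include ha hK h1 h2

lemma ratio (r : ℕ) : ∀ n k : ℤ, |k - n| ≤ r → a k ≤ K ^ r * a n := by
  induction r with
  | zero =>
    intro n k h
    have : k = n := by have := abs_le.mp h; omega
    simp [this]
  | succ r ih =>
    intro n k h
    have h0 := abs_le.mp h
    have hp : 0 ≤ K ^ r := by positivity
    rcases lt_trichotomy k n with h3 | h3 | h3
    · have := ih n (k + 1) (abs_le.mpr (by omega))
      rw [pow_succ']; nlinarith [h2 k]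
    · rw [h3]; exact le_mul_of_one_le_left (ha n).le (one_le_pow₀ hK)
    · have := ih n (k - 1) (abs_le.mpr (by omega))
      have h4 := h1 (k - 1)
      rw [sub_add_cancel] at h4
      rw [pow_succ']; nlinarith

lemma path (N : ℕ) : ∃ J : ℕ, 1 ≤ J ∧ ∀ n, (∀ k, |k - n| < (J : ℤ) → D a N k) →
    4 * a n ≤ a (n + J) ∨ 4 * a n ≤ a (n - J) := by
  obtain ⟨i, hi⟩ := pow_unbounded_of_one_lt (4 * K ^ N) (one_lt_two (α := ℝ))
  refine ⟨N * i + 1, by omega, fun n hn => ?_⟩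
  set J := N * i + 1 with hJ
  have key : ∀ j : ℕ, (∃ k, (J : ℤ) ≤ |k - n| ∧ |k - n| ≤ J + N ∧ 2 ^ i * a n ≤ a k) ∨
      ∃ k, |k - n| < J ∧ |k - n| ≤ j * N ∧ 2 ^ j * a n ≤ a k := by
    intro j
    induction j with
    | zero => exact Or.inr ⟨n, by simp; omega, by simp, by simp⟩
    | succ j ih =>
      rcases ih with h | ⟨k, e1, e2, e3⟩
      · exact Or.inl h
      obtain ⟨k', e4, e5⟩ := hn k e1
      have e6 : |k' - n| ≤ |k' - k| + |k - n| := abs_sub_le _ _ _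
      have e7 : 2 ^ (j + 1) * a n ≤ a k' := by rw [pow_succ]; linarith
      rcases lt_or_ge |k' - n| J with h | h
      · exact Or.inr ⟨k', h, by push_cast; linarith, e7⟩
      · refine Or.inl ⟨k', h, by linarith, le_trans ?_ e7⟩
        have e8 : (N : ℤ) * i < N * (j + 1) := by
          rw [hJ] at h; push_cast at h; linarith
        have e9 : (i : ℤ) < j + 1 := lt_of_mul_lt_mul_left e8 (by positivity)
        exact mul_le_mul_of_nonneg_right (pow_le_pow_right₀ one_le_two (by omega)) (ha n).le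
  obtain ⟨j, hj⟩ := pow_unbounded_of_one_lt (K ^ J) (one_lt_two (α := ℝ))
  rcases key j with ⟨k, e1, e2, e3⟩ | ⟨k, e1, -, e3⟩
  · have hp : 0 < K ^ N := by positivity
    have e4 : K ^ N * (4 * a n) ≤ a k := by nlinarith [ha n]
    rcases le_abs.mp e1 with h | h
    · have := ratio ha hK h1 h2 N (n + J) k (by have := abs_le.mp e2; rw [abs_le]; omega)
      exact Or.inl (le_of_mul_le_mul_left (e4.trans this) hp)
    · have := ratio ha hK h1 h2 N (n - J) k (by have := abs_le.mp e2; rw [abs_le]; omega)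
      exact Or.inr (le_of_mul_le_mul_left (e4.trans this) hp)
  · have := ratio ha hK h1 h2 J n k e1.le
    nlinarith [ha n]

lemma decay {J n₀ : ℕ} (hJ : 1 ≤ J) {B : ℝ} (hB : ∀ n, a n ≤ B)
    (h : ∀ n : ℤ, (n₀ : ℤ) ≤ n → 4 * a n ≤ a (n + J) ∨ 4 * a n ≤ a (n - J)) :
    ∃ b : ℕ → ℝ, Summable b ∧ (∀ i, 0 ≤ b i) ∧ ∀ (i : ℕ) (l : ℤ), 0 ≤ l → a (l + i) ≤ b i * a l := by
  have e1 : ∀ n : ℤ, (n₀ : ℤ) ≤ n → 4 * a n ≤ a (n - J) := by
    intro n hn
    by_contra hc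
    have e2 : ∀ j : ℕ, 4 * a (n + j * J) ≤ a (n + (j + 1) * J) ∧ 4 ^ j * a n ≤ a (n + j * J) := by
      intro j
      induction j with
      | zero => simpa using (h n hn).resolve_right hc
      | succ j ih =>
        push_cast
        refine ⟨?_, by rw [pow_succ]; linarith [ih.1, ih.2]⟩
        rcases h (n + (j + 1) * J) (by nlinarith) with h3 | h3
        · rwa [show n + (j + 1 + 1) * J = n + (j + 1) * J + J by ring]
        · rw [show n + (j + 1) * J - J = n + j * J by ring] at h3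
          linarith [ih.1, ha (n + j * J)]
    obtain ⟨j, hj⟩ := pow_unbounded_of_one_lt (B / a n) (show (1 : ℝ) < 4 by norm_num)
    rw [div_lt_iff₀ (ha n)] at hj
    linarith [(e2 j).2, hB (n + j * J)]
  have hJ' : (1 : ℝ) ≤ J := by exact_mod_cast hJ
  set ρ : ℝ := 1 + -(1 / (2 * J)) with hρ
  have r1 : 1 / (2 * J : ℝ) ≤ 1 / 2 := one_div_le_one_div_of_le two_pos (by linarith)
  have r2 : 0 < 1 / (2 * J : ℝ) := by positivity
  have r3 : 0 < ρ := by linarith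
  have r4 : ρ < 1 := by linarith
  have r5 : 1 / 4 ≤ ρ ^ J := by
    refine le_trans ?_ (one_add_mul_le_pow (by linarith) J)
    field_simp; norm_num
  have r6 : 1 ≤ K / ρ := by rw [le_div_iff₀ r3]; linarith
  refine ⟨fun i => (K / ρ) ^ (n₀ + J) * ρ ^ i,
    (summable_geometric_of_lt_one r3.le r4).mul_left _, fun i => by positivity, fun i => ?_⟩
  induction i using Nat.strong_induction_on with
  | _ i ih =>
    intro l hl
    rcases lt_or_ge i (n₀ + J) with h3 | h3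
    · refine (ratio ha hK h1 h2 i l (l + i) (by simp)).trans
        (mul_le_mul_of_nonneg_right ?_ (ha l).le)
      calc K ^ i = (K / ρ) ^ i * ρ ^ i := by rw [← mul_pow, div_mul_cancel₀ _ r3.ne']
        _ ≤ _ := mul_le_mul_of_nonneg_right (pow_le_pow_right₀ r6 h3.le) (by positivity)
    · obtain ⟨i', rfl⟩ : ∃ i', i = i' + J := ⟨i - J, by omega⟩
      have h4 := e1 (l + (i' + J : ℕ)) (by omega)
      rw [show l + ((i' + J : ℕ) : ℤ) - J = l + i' by push_cast; ring] at h4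
      have h5 := ih i' (by omega) l hl
      have h6 : 0 ≤ (K / ρ) ^ (n₀ + J) * ρ ^ i' * a l := by have := ha l; positivity
      simp only at h5 ⊢
      rw [pow_add ρ]
      nlinarith

end seq

variable {𝕜 : Type*} [RCLike 𝕜]

/-- Translation invariant Banach sequence lattices. -/
structure SeqSp {X : Type*} [NormedAddCommGroup X] [NormedSpace 𝕜 X] (ev : X →ₗ[𝕜] ℤ → 𝕜) :
    Prop where
  inj : Function.Injective ev
  solid : ∀ (x : X) (g : ℤ → 𝕜) (C : ℝ) (s : ℤ), 0 ≤ C → (∀ n, ‖g n‖ ≤ C * ‖ev x (n + s)‖) →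
    ∃ y, ev y = g ∧ ‖y‖ ≤ C * ‖x‖
  coord : ∀ x n, ‖ev x n‖ ≤ ‖x‖
  unit : ∃ e, ev e = Pi.single 0 1 ∧ ‖e‖ ≤ 1

section abs
variable {X : Type*} [NormedAddCommGroup X] [NormedSpace 𝕜 X] {ev : X →ₗ[𝕜] ℤ → 𝕜}
  (hX : SeqSp ev) {c : ℤ → 𝕜} (hc : ∀ n, c n ≠ 0) {T : X →L[𝕜] X}
  (hT : ∀ x n, ev (T x) n = c n / c (n + 1) * ev x (n + 1))
include hX

lemma mono (x y : X) (C : ℝ) (s : ℤ) (hC : 0 ≤ C) (h : ∀ n, ‖ev y n‖ ≤ C * ‖ev x (n + s)‖) :
    ‖y‖ ≤ C * ‖x‖ := by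
  obtain ⟨z, h1, h2⟩ := hX.solid x _ C s hC h
  rwa [hX.inj h1] at h2

lemma fin_vec (g : ℤ → 𝕜) (s : Finset ℤ) :
    ∃ z, (∀ k, ev z k = if k ∈ s then g k else 0) ∧ ‖z‖ ≤ ∑ k ∈ s, ‖g k‖ := by
  classical
  obtain ⟨e, he, he'⟩ := hX.unit
  induction s using Finset.induction_on with
  | empty => exact ⟨0, by simp, by simp⟩
  | insert l s hl ih =>
    obtain ⟨z, h1, h2⟩ := ih
    obtain ⟨y, h3, h4⟩ := hX.solid e (Pi.single l (g l)) ‖g l‖ (-l) (norm_nonneg _) fun n => by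
      by_cases h : n = l
      · simp [h, he]
      · simp only [Pi.single_eq_of_ne h, norm_zero]; positivity
    refine ⟨y + z, fun k => ?_, ?_⟩
    · by_cases h : k = l
      · simp [h, h1, h3, hl]
      · simp [h, h1, h3]
    · rw [sum_insert hl]
      exact (norm_add_le _ _).trans (add_le_add (by nlinarith [norm_nonneg (g l)]) h2)

include hc hT

lemma hardy (C : ℝ) : ∃ N : ℕ, ∀ n, (∀ y, (∀ k, (N : ℤ) < |k - n| → ev y k = 0) →
    ‖y‖ ≤ C * ‖T y - y‖) → D (fun n => ‖c n‖) N n := by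
  obtain ⟨L, hL⟩ := exists_nat_gt (max (2 * C) 0)
  have hL0 : (0 : ℝ) < L := (le_max_right _ _).trans_lt hL
  have hL1 : 2 * C < L := (le_max_left _ _).trans_lt hL
  obtain ⟨j, hj⟩ : ∃ j : ℕ, (2 * (j * L) + 1) * 2 < (2 : ℝ) ^ j := by
    have h1 := (tendsto_pow_const_div_const_pow_of_one_lt 1 (one_lt_two (α := ℝ))).const_mul
      (6 * L + 2 : ℝ)
    rw [mul_zero] at h1
    obtain ⟨j, h2, h3⟩ := ((h1.eventually (gt_mem_nhds one_pos)).and (eventually_ge_atTop 1)).exists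
    refine ⟨j, ?_⟩
    rw [pow_one, ← mul_div_assoc, div_lt_one (by positivity)] at h2
    have : (1 : ℝ) ≤ j := by exact_mod_cast h3
    nlinarith
  refine ⟨j * L, fun n hn => ?_⟩
  by_contra hD
  simp only [D, not_exists, not_and, not_le] at hD
  choose z hz hz' using fun r : ℕ => fin_vec hX c (Icc (n - r) (n + r))
  have e1 : ∀ r : ℕ, r + L ≤ j * L → 2 * ‖z r‖ ≤ ‖z (r + L)‖ := by
    intro r hr
    let t : ℤ → ℝ := fun k => max 0 (min 1 ((r + L - |((k - n : ℤ) : ℝ)|) / L))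
    have t0 : ∀ k, 0 ≤ t k := fun k => le_max_left _ _
    have t1 : ∀ k, t k ≤ 1 := fun k => max_le zero_le_one (min_le_left _ _)
    have t2 : ∀ k, ((r + L : ℕ) : ℤ) ≤ |k - n| → t k = 0 := fun k hk => by
      have : ((r : ℝ) + L) ≤ |((k - n : ℤ) : ℝ)| := by exact_mod_cast hk
      exact max_eq_left ((min_le_right _ _).trans
        (div_nonpos_of_nonpos_of_nonneg (by linarith) hL0.le))
    have t3 : ∀ k, |k - n| ≤ r → t k = 1 := fun k hk => by
      have : |((k - n : ℤ) : ℝ)| ≤ r := by exact_mod_cast hk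
      have h3 : 1 ≤ (r + L - |((k - n : ℤ) : ℝ)|) / L := by rw [le_div_iff₀ hL0]; linarith
      simp only [t, min_eq_left h3]; simp
    have t4 : ∀ k, |t (k + 1) - t k| ≤ 1 / L := fun k => by
      refine (abs_max_sub_max_le_max _ _ _ _).trans (max_le (by simp) ?_)
      refine (abs_min_sub_min_le_max _ _ _ _).trans (max_le (by simp) ?_)
      rw [← sub_div, abs_div, abs_of_pos hL0]
      gcongr
      rw [sub_sub_sub_cancel_left]
      refine (abs_abs_sub_abs_le _ _).trans (le_of_eq ?_)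
      push_cast; ring_nf; simp
    obtain ⟨y, hy, -⟩ := hX.solid (z (r + L)) (fun k => (t k : 𝕜) * c k) 1 0 zero_le_one fun k => by
      rw [add_zero, hz, norm_mul, RCLike.norm_ofReal, abs_of_nonneg (t0 k)]
      split_ifs with h
      · nlinarith [t1 k, norm_nonneg (c k)]
      · rw [t2 k (by rw [mem_Icc] at h; rw [le_abs]; omega)]; simp
    have f1 : ‖z r‖ ≤ 1 * ‖y‖ := mono hX _ _ 1 0 zero_le_one fun k => by
      rw [add_zero, hz, hy]
      split_ifs with h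
      · simp only; rw [t3 k (by rw [mem_Icc] at h; rw [abs_le]; omega)]; simp
      · simp only [norm_zero]; positivity
    have f2 : ‖T y - y‖ ≤ 1 / L * ‖z (r + L)‖ := mono hX _ _ _ 0 (by positivity) fun k => by
      have : ev (T y - y) k = ((t (k + 1) - t k : ℝ) : 𝕜) * c k := by
        rw [map_sub, Pi.sub_apply, hT, hy]
        have := hc (k + 1)
        push_cast; field_simp
      rw [this, add_zero, hz, norm_mul, RCLike.norm_ofReal]
      split_ifs with h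
      · exact mul_le_mul_of_nonneg_right (t4 k) (norm_nonneg _)
      · rw [mem_Icc] at h
        rw [t2 k (by rw [le_abs]; omega), t2 (k + 1) (by rw [le_abs]; omega)]; simp
    have f3 := hn y fun k hk => by
      rw [hy]; simp only
      rw [t2 k (le_trans (by exact_mod_cast hr) hk.le)]; simp
    have f4 : ‖T y - y‖ * L ≤ ‖z (r + L)‖ := by
      rw [← le_div_iff₀ hL0]; simpa [div_eq_inv_mul] using f2
    nlinarith [norm_nonneg (T y - y)]
  have e2 : ∀ i ≤ j, 2 ^ i * ‖c n‖ ≤ ‖z (i * L)‖ := by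
    intro i hi
    induction i with
    | zero => simpa [hz] using hX.coord (z 0) n
    | succ i ih =>
      have := e1 (i * L) (by rw [← Nat.succ_mul]; exact Nat.mul_le_mul_right _ hi)
      rw [Nat.succ_mul, pow_succ]
      linarith [ih (by omega)]
  have e3 := (hz' (j * L)).trans (sum_le_card_nsmul _ _ (2 * ‖c n‖) fun k hk =>
    (hD k (by rw [mem_Icc] at hk; rw [abs_le]; omega)).le)
  rw [Int.card_Icc, show n + ((j * L : ℕ) : ℤ) + 1 - (n - ((j * L : ℕ) : ℤ)) =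
    ((2 * (j * L) + 1 : ℕ) : ℤ) by push_cast; ring, Int.toNat_natCast, nsmul_eq_mul] at e3
  push_cast at e3
  nlinarith [e2 j le_rfl, norm_pos_iff.mpr (hc n)]

omit hX in
lemma fixed {f : X} (hf : T f = f) (n : ℤ) : ev f n = ev f 0 / c 0 * c n := by
  have h1 : ∀ n, ev f n / c n = ev f (n + 1) / c (n + 1) := fun n => by
    conv_lhs => rw [← hf, hT]
    have := hc n
    field_simp
  have h2 : ev f n / c n = ev f 0 / c 0 := by
    induction n using Int.induction_on with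
    | zero => rfl
    | succ n ih => rw [← h1, ih]
    | pred n ih => rw [h1, sub_add_cancel, ih]
  rw [← h2, div_mul_cancel₀ _ (hc n)]

lemma toW (h : PSP T) : W fun n => ‖c n‖ := by
  obtain ⟨δ, hδ, h⟩ := h 1 one_pos
  have key : ∀ y, ∃ f, T f = f ∧ ‖y - f‖ ≤ 2 / δ * ‖T y - y‖ := by
    intro y
    by_cases h0 : T y - y = 0
    · exact ⟨y, sub_eq_zero.mp h0, by simp [h0]⟩
    have h1 : 0 < ‖T y - y‖ := norm_pos_iff.mpr h0
    set s : ℝ := δ / (2 * ‖T y - y‖) with hs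
    have hs0 : 0 < s := by positivity
    obtain ⟨o, o1, ⟨q, hq, o2⟩, o3⟩ := h (fun _ => (s : 𝕜) • y) (fun _ => by
      rw [map_smul, ← smul_sub, norm_smul, RCLike.norm_ofReal, abs_of_pos hs0, hs]
      field_simp; norm_num) ⟨1, le_rfl, fun _ => rfl⟩
    have o4 : ∀ i : ℕ, T^[i] (o 0) = o i := by
      intro i
      induction i with
      | zero => rfl
      | succ i ih => rw [Function.iterate_succ_apply', ih]; push_cast; rw [o1]
    have hq0 : (0 : ℝ) < q := by exact_mod_cast hq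
    refine ⟨(((s * q)⁻¹ : ℝ) : 𝕜) • ∑ i ∈ range q, o i, ?_, ?_⟩
    · rw [map_smul, map_sum]
      congr 1
      have := sum_range_succ' (fun i : ℕ => o i) q
      rw [sum_range_succ, ← o4 q, o2] at this
      push_cast at this
      simp only [← o1]
      exact (add_right_cancel this).symm
    · have : y - (((s * q)⁻¹ : ℝ) : 𝕜) • ∑ i ∈ range q, o i =
          (((s * q)⁻¹ : ℝ) : 𝕜) • ∑ i ∈ range q, ((s : 𝕜) • y - o i) := by
        rw [sum_sub_distrib, smul_sub, sum_const, card_range, ← Nat.cast_smul_eq_nsmul 𝕜, smul_smul,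
          smul_smul]
        have e1 : (s : 𝕜) ≠ 0 := by exact_mod_cast hs0.ne'
        have e2 : (q : 𝕜) ≠ 0 := by exact_mod_cast hq0.ne'
        rw [show (((s * q)⁻¹ : ℝ) : 𝕜) * q * s = 1 by push_cast; field_simp, one_smul]
      rw [this, norm_smul, RCLike.norm_ofReal, abs_of_pos (by positivity)]
      have e3 := (norm_sum_le _ _).trans (sum_le_card_nsmul (range q)
        (fun i : ℕ => ‖(s : 𝕜) • y - o i‖) 1 fun i _ => (o3 i).le)
      rw [card_range, nsmul_eq_mul, mul_one] at e3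
      refine (mul_le_mul_of_nonneg_left e3 (by positivity)).trans (le_of_eq ?_)
      rw [hs]; field_simp
  by_cases h0 : ∃ f, T f = f ∧ ev f 0 ≠ 0
  · obtain ⟨f₀, g1, g2⟩ := h0
    have g3 : 0 < ‖ev f₀ 0‖ := norm_pos_iff.mpr g2
    obtain ⟨N, hN⟩ := hardy hX hc hT (2 / δ * (1 + ‖f₀‖ / ‖ev f₀ 0‖))
    refine ⟨N, Or.inr ⟨⟨‖f₀‖ / ‖ev f₀ 0 / c 0‖, fun n => ?_⟩, fun n hn => hN n fun y hy => ?_⟩⟩
    · rw [le_div_iff₀' (norm_pos_iff.mpr (div_ne_zero g2 (hc 0))), ← norm_mul, ← fixed hc hT g1]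
      exact hX.coord _ _
    · obtain ⟨f, f1, f2⟩ := key y
      have f3 : ‖ev f 0‖ ≤ ‖y - f‖ := by
        have := hX.coord (y - f) 0
        rwa [map_sub, Pi.sub_apply, hy 0 (by simpa using hn), zero_sub, norm_neg] at this
      have f4 : ‖f‖ ≤ ‖ev f 0‖ / ‖ev f₀ 0‖ * ‖f₀‖ := mono hX _ _ _ 0 (by positivity) fun k => by
        rw [add_zero, fixed hc hT f1, fixed hc hT g1 k]
        simp only [norm_mul, norm_div]
        exact le_of_eq (by field_simp)
      have f5 : ‖y‖ ≤ ‖y - f‖ + ‖f‖ := by simpa using norm_add_le (y - f) f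
      have f6 : ‖ev f 0‖ / ‖ev f₀ 0‖ * ‖f₀‖ ≤ ‖y - f‖ * (‖f₀‖ / ‖ev f₀ 0‖) := by
        rw [div_mul_eq_mul_div, mul_div_assoc]; gcongr
      have f7 : 0 ≤ ‖f₀‖ / ‖ev f₀ 0‖ := by positivity
      nlinarith
  · push Not at h0
    obtain ⟨N, hN⟩ := hardy hX hc hT (2 / δ)
    refine ⟨N, Or.inl fun n => hN n fun y _ => ?_⟩
    obtain ⟨f, f1, f2⟩ := key y
    have : f = 0 := hX.inj (by ext k; rw [fixed hc hT f1, h0 f f1]; simp)
    simpa [this] using f2

omit hX in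
lemma iter (i : ℕ) (x : X) (n : ℤ) : ev (T^[i] x) n = c n / c (n + i) * ev x (n + i) := by
  induction i generalizing n with
  | zero => simp [hc n]
  | succ i ih =>
    rw [Function.iterate_succ_apply', hT, ih]
    have := hc (n + 1)
    push_cast
    rw [show n + 1 + i = n + (i + 1) by ring]
    field_simp

lemma caseA {J : ℕ} (h : ∀ n, 4 * ‖c n‖ ≤ ‖c (n + J)‖ ∨ 4 * ‖c n‖ ≤ ‖c (n - J)‖) : PSP T := by
  classical
  obtain ⟨H, hH0, hH⟩ : ∃ H : ℝ, 0 < H ∧ ∀ (δ : ℝ) (x : ℤ → X), (∀ j, ‖T (x j) - x (j + 1)‖ < δ) →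
      ∀ j, ‖T^[J] (x j) - x (j + J)‖ ≤ H * δ := by
    clear h
    induction J with
    | zero => exact ⟨1, one_pos, fun δ x hx j => by simpa using ((norm_nonneg _).trans_lt (hx 0)).le⟩
    | succ J ih =>
      obtain ⟨H, h0, h1⟩ := ih
      refine ⟨‖T‖ * H + 1, by positivity, fun δ x hx j => ?_⟩
      rw [Function.iterate_succ_apply']
      have e1 := norm_sub_le_norm_sub_add_norm_sub (T (T^[J] (x j))) (T (x (j + J)))
        (x (j + J + 1))
      rw [← map_sub] at e1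
      have e2 := T.le_opNorm (T^[J] (x j) - x (j + J))
      have e3 := mul_le_mul_of_nonneg_left (h1 δ x hx j) (norm_nonneg T)
      push_cast; rw [← add_assoc]
      linarith [hx (j + J)]
  intro ε hε
  refine ⟨ε / (5 * H), by positivity, fun x hx ⟨q, hq, hp⟩ =>
    ⟨fun _ => 0, fun _ => by simp, ⟨1, le_rfl, by simp⟩, ?_⟩⟩
  have e0 : H * (ε / (5 * H)) = ε / 5 := by field_simp
  obtain ⟨j₀, -, hj⟩ := exists_max_image (range q) (fun i : ℕ => ‖x i‖) ⟨0, by simp; omega⟩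
  have hS : ∀ j, ‖x j‖ ≤ ‖x j₀‖ := by
    intro j
    have h1 : Function.Periodic x (q : ℤ) := hp
    have h2 := h1.int_mul (j / q) (j % q)
    have h3 : (0 : ℤ) < q := by exact_mod_cast hq
    rw [Int.cast_id, show j % q + j / q * q = j from Int.emod_add_ediv_mul j q] at h2
    have h4 := hj (j % q).toNat (by rw [mem_range]; have := Int.emod_lt_of_pos j h3; omega)
    rwa [Int.toNat_of_nonneg (Int.emod_nonneg _ h3.ne'), ← h2] at h4
  suffices ‖x j₀‖ < ε by intro j; simpa using (hS j).trans_lt this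
  have e1 := hH _ x hx (j₀ - J)
  have e2 := hH _ x hx j₀
  rw [sub_add_cancel, e0] at e1
  rw [e0] at e2
  obtain ⟨u₁, a1, a2⟩ := hX.solid (x (j₀ - J)) (fun n => if 4 * ‖c n‖ ≤ ‖c (n + J)‖ then
    ev (T^[J] (x (j₀ - J))) n else 0) (1 / 4) J (by norm_num) fun n => by
      split_ifs with h1
      · rw [iter hc hT, norm_mul, norm_div]
        refine mul_le_mul_of_nonneg_right ?_ (norm_nonneg _)
        rw [div_le_iff₀ (norm_pos_iff.mpr (hc _))]; linarith
      · simp only [norm_zero]; positivity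
  obtain ⟨u₂, b1, b2⟩ := hX.solid (T^[J] (x (j₀ - J)) - x j₀) (fun n => if 4 * ‖c n‖ ≤ ‖c (n + J)‖
    then ev (T^[J] (x (j₀ - J)) - x j₀) n else 0) 1 0 (by norm_num) fun n => by
      split_ifs with h1 <;> simp
  obtain ⟨u₃, c1, c2⟩ := hX.solid (T^[J] (x j₀)) (fun n => if 4 * ‖c n‖ ≤ ‖c (n + J)‖
    then 0 else ev (x j₀) n) (1 / 4) (-J) (by norm_num) fun n => by
      split_ifs with h1
      · simp only [norm_zero]; positivity
      · have h2 := (h n).resolve_left h1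
        rw [iter hc hT, norm_mul, norm_div, neg_add_cancel_right, ← sub_eq_add_neg, ← mul_assoc]
        refine le_mul_of_one_le_left (norm_nonneg _) ?_
        rw [← mul_div_assoc, le_div_iff₀ (norm_pos_iff.mpr (hc _))]; linarith
  have e3 : x j₀ = u₁ - u₂ + u₃ := hX.inj (by
    ext n
    simp only [map_add, map_sub, a1, b1, c1, Pi.add_apply, Pi.sub_apply]
    split_ifs <;> simp)
  have e4 : ‖x j₀‖ ≤ ‖u₁‖ + ‖u₂‖ + ‖u₃‖ := by
    conv_lhs => rw [e3]
    exact (norm_add_le _ _).trans (by gcongr; exact norm_sub_le _ _)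
  have e5 : ‖T^[J] (x j₀)‖ ≤ ‖T^[J] (x j₀) - x (j₀ + J)‖ + ‖x (j₀ + J)‖ := by
    simpa using norm_add_le (T^[J] (x j₀) - x (j₀ + J)) (x (j₀ + J))
  linarith [hS (j₀ + J), hS (j₀ - J)]

lemma caseB [CompleteSpace X] {b : ℕ → ℝ} (hb : Summable b) (hb0 : ∀ i, 0 ≤ b i)
    (h1 : ∀ (i : ℕ) (l : ℤ), 0 ≤ l → ‖c (l + i)‖ ≤ b i * ‖c l‖)
    (h2 : ∀ (i : ℕ) (l : ℤ), l ≤ 0 → ‖c (l - i)‖ ≤ b i * ‖c l‖) : PSP T := by
  choose α α1 α2 using fun (i : ℕ) (z : X) => hX.solid z (fun k => if k + i ≤ 0 then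
    c k / c (k + i) * ev z (k + i) else 0) (b i) i (hb0 i) fun n => by
      split_ifs with h
      · rw [norm_mul, norm_div]
        gcongr
        rw [div_le_iff₀ (norm_pos_iff.mpr (hc _))]
        simpa using h2 i _ h
      · simp only [norm_zero]; exact mul_nonneg (hb0 i) (norm_nonneg _)
  choose β β1 β2 using fun (i : ℕ) (z : X) => hX.solid z (fun k => if 0 < k + -(i + 1 : ℕ) then
    c k / c (k + -(i + 1 : ℕ)) * ev z (k + -(i + 1 : ℕ)) else 0) (b (i + 1)) (-(i + 1 : ℕ))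
    (hb0 _) fun n => by
      split_ifs with h
      · rw [norm_mul, norm_div]
        gcongr
        rw [div_le_iff₀ (norm_pos_iff.mpr (hc _))]
        simpa only [neg_add_cancel_right] using h1 (i + 1) _ h.le
      · simp only [norm_zero]; exact mul_nonneg (hb0 _) (norm_nonneg _)
  have r1 : ∀ i z, T (α i z) = α (i + 1) z := fun i z => hX.inj (by
    ext k
    rw [hT, α1, α1]
    have := hc (k + 1)
    simp only [show k + 1 + i = k + (i + 1 : ℕ) by push_cast; ring]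
    split_ifs
    · field_simp
    · simp)
  have r2 : ∀ i z, T (β (i + 1) z) = β i z := fun i z => hX.inj (by
    ext k
    rw [hT, β1, β1]
    have := hc (k + 1)
    simp only [show k + 1 + -(i + 1 + 1 : ℕ) = k + -(i + 1 : ℕ) by push_cast; ring]
    split_ifs
    · field_simp
    · simp)
  have r3 : ∀ z, α 0 z + T (β 0 z) = z := fun z => hX.inj (by
    ext k
    rw [map_add, Pi.add_apply, hT, β1, α1]
    have := hc (k + 1)
    have := hc k
    simp only [show k + 1 + -(0 + 1 : ℕ) = k by push_cast; ring, Nat.cast_zero, add_zero]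
    split_ifs
    · omega
    · field_simp; simp
    · field_simp; simp
    · omega)
  have hb1 : Summable fun i => b (i + 1) := (summable_nat_add_iff 1).mpr hb
  set S := ∑' i, b i + ∑' i, b (i + 1) with hS
  have hS0 : 0 ≤ S := add_nonneg (tsum_nonneg hb0) (tsum_nonneg fun _ => hb0 _)
  intro ε hε
  refine ⟨ε / (S + 1), by positivity, fun x hx ⟨q, hq, hp⟩ => ?_⟩
  set δ := ε / (S + 1) with hδ
  set z : ℤ → X := fun j => x (j + 1) - T (x j) with hz
  have hz1 : ∀ j, ‖z j‖ ≤ δ := fun j => by rw [hz, norm_sub_rev]; exact (hx j).le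
  have a1 : ∀ (i : ℕ) j, ‖α i (z j)‖ ≤ b i * δ := fun i j =>
    (α2 _ _).trans (mul_le_mul_of_nonneg_left (hz1 _) (hb0 _))
  have b1 : ∀ (i : ℕ) j, ‖β i (z j)‖ ≤ b (i + 1) * δ := fun i j =>
    (β2 _ _).trans (mul_le_mul_of_nonneg_left (hz1 _) (hb0 _))
  have sa : ∀ j : ℤ, Summable fun i : ℕ => α i (z (j - 1 - i)) := fun j =>
    .of_norm_bounded (hb.mul_right δ) fun i => a1 _ _
  have sb : ∀ j : ℤ, Summable fun i : ℕ => β i (z (j + i)) := fun j =>
    .of_norm_bounded (hb1.mul_right δ) fun i => b1 _ _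
  set y : ℤ → X := fun j => ∑' i : ℕ, α i (z (j - 1 - i)) - ∑' i : ℕ, β i (z (j + i)) with hy
  have y1 : ∀ j, y (j + 1) = T (y j) + z j := by
    intro j
    simp only [hy]
    rw [map_sub, T.map_tsum (sa j), T.map_tsum (sb j), (sa (j + 1)).tsum_eq_zero_add,
      ((sb j).mapL T).tsum_eq_zero_add]
    simp only [r1, r2]
    have e1 : ∀ i : ℕ, j + 1 - 1 - ((i + 1 : ℕ) : ℤ) = j - 1 - i := fun i => by push_cast; ring
    have e2 : ∀ i : ℕ, j + ((i + 1 : ℕ) : ℤ) = j + 1 + i := fun i => by push_cast; ring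
    simp only [e1, e2]
    simp only [Nat.cast_zero, add_zero, sub_zero, add_sub_cancel_right]
    linear_combination (norm := abel) r3 (z j)
  have o1 : ∀ j, x (j + 1) - y (j + 1) = T (x j - y j) := fun j => by
    have h3 : z j = x (j + 1) - T (x j) := rfl
    have h4 := y1 j
    clear_value y z
    rw [h4, map_sub, h3]; abel
  refine ⟨fun j => x j - y j, o1, ⟨q, hq, ?_⟩, fun j => ?_⟩
  · have o4 : ∀ i : ℕ, T^[i] (x 0 - y 0) = x i - y i := by
      intro i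
      induction i with
      | zero => rfl
      | succ i ih => rw [Function.iterate_succ_apply', ih]; push_cast; rw [o1]
    have z2 : ∀ j, z (q + j) = z (0 + j) := fun j => by
      simp only [hz]
      rw [show (q : ℤ) + j + 1 = 0 + j + 1 + q by ring, show (q : ℤ) + j = 0 + j + q by ring, hp, hp]
    have := hp 0
    rw [zero_add] at this
    rw [o4, this]
    simp only [hy, sub_eq_add_neg, add_assoc, z2]
  · rw [sub_sub_cancel]
    have e1 := tsum_of_norm_bounded (hb.mul_right δ).hasSum fun i : ℕ => a1 i (j - 1 - i)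
    have e2 := tsum_of_norm_bounded (hb1.mul_right δ).hasSum fun i : ℕ => b1 i (j + i)
    rw [tsum_mul_right] at e1 e2
    refine (norm_sub_le _ _).trans_lt ((add_le_add e1 e2).trans_lt ?_)
    rw [← add_mul, ← hS, hδ, ← mul_div_assoc, div_lt_iff₀ (by positivity)]
    linarith

lemma ofW [CompleteSpace X] {K : ℝ} (hK : 1 ≤ K) (h1 : ∀ n, ‖c (n + 1)‖ ≤ K * ‖c n‖)
    (h2 : ∀ n, ‖c n‖ ≤ K * ‖c (n + 1)‖) (h : W fun n => ‖c n‖) : PSP T := by
  have ha : ∀ n, 0 < ‖c n‖ := fun n => norm_pos_iff.mpr (hc n)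
  obtain ⟨N, h⟩ := h
  obtain ⟨J, hJ, hp⟩ := path (a := fun n => ‖c n‖) ha hK h1 h2 N
  rcases h with h | ⟨⟨B, hB⟩, h⟩
  · exact caseA hX hc hT fun n => hp n fun k _ => h k
  obtain ⟨b, b1, b2, b3⟩ := decay (a := fun n => ‖c n‖) ha hK h1 h2 (n₀ := N + J) hJ hB
    fun n hn => hp n fun k hk => h k (by rw [abs_lt] at hk; rw [lt_abs]; omega)
  obtain ⟨b', b1', b2', b3'⟩ := decay (a := fun n => ‖c (-n)‖) (fun n => ha _) hK
    (fun n => by simpa using h2 (-(n + 1))) (fun n => by simpa using h1 (-(n + 1)))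
    (n₀ := N + J) hJ (fun n => hB _) fun n hn => by
      have := hp (-n) fun k hk => h k (by rw [abs_lt] at hk; rw [lt_abs]; omega)
      simp only [neg_add', neg_sub', sub_neg_eq_add]
      exact this.symm
  refine caseB hX hc hT (b1.add b1') (fun i => add_nonneg (b2 i) (b2' i)) (fun i l hl => ?_)
    fun i l hl => ?_
  · nlinarith [b3 i l hl, mul_nonneg (b2' i) (ha l).le]
  · have := b3' i (-l) (by omega)
    simp only [neg_add', neg_neg] at this
    nlinarith [mul_nonneg (b2 i) (ha l).le]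

end abs

/-- Coordinates of `ℓ_p(ℤ)`. -/
def evL (𝕜 : Type*) [RCLike 𝕜] (p : ENNReal) : lp (fun _ : ℤ => 𝕜) p →ₗ[𝕜] ℤ → 𝕜 where
  toFun x := x
  map_add' _ _ := rfl
  map_smul' _ _ := rfl

/-- Coordinates of `c₀(ℤ)`. -/
def evC (𝕜 : Type*) [RCLike 𝕜] : C₀(ℤ, 𝕜) →ₗ[𝕜] ℤ → 𝕜 where
  toFun x := x
  map_add' _ _ := rfl
  map_smul' _ _ := rfl

lemma seq_lp (p : ENNReal) [Fact (1 ≤ p)] (hp : p ≠ ⊤) : SeqSp (evL 𝕜 p) := by
  have hp0 : p ≠ 0 := (zero_lt_one.trans_le (Fact.out : 1 ≤ p)).ne'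
  have hp1 : 0 < p.toReal := ENNReal.toReal_pos hp0 hp
  refine ⟨fun x y h => lp.ext h, fun x g C s hC h => ?_, fun x n => lp.norm_apply_le_norm hp0 x n,
    lp.single p 0 1, ?_, ?_⟩
  · have h1 : HasSum (fun n => C ^ p.toReal * ‖x (n + s)‖ ^ p.toReal)
        (C ^ p.toReal * ‖x‖ ^ p.toReal) :=
      ((Equiv.addRight s).hasSum_iff.mpr (lp.hasSum_norm hp1 x)).mul_left _
    have h2 : ∀ n, ‖g n‖ ^ p.toReal ≤ C ^ p.toReal * ‖x (n + s)‖ ^ p.toReal := fun n => by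
      rw [← Real.mul_rpow hC (norm_nonneg _)]
      exact Real.rpow_le_rpow (norm_nonneg _) (h n) hp1.le
    have h3 : Summable fun n => ‖g n‖ ^ p.toReal :=
      .of_nonneg_of_le (fun n => by positivity) h2 h1.summable
    refine ⟨⟨g, memℓp_gen h3⟩, rfl, lp.norm_le_of_tsum_le hp1 (by positivity) ?_⟩
    rw [Real.mul_rpow hC (norm_nonneg _), ← h1.tsum_eq]
    exact h3.tsum_le_tsum h2 h1.summable
  · exact lp.coeFn_single p 0 1
  · rw [lp.norm_single (pos_iff_ne_zero.mpr hp0), norm_one]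

lemma seq_c0 : SeqSp (evC 𝕜) := by
  refine ⟨fun x y h => DFunLike.coe_injective h, fun x g C s hC h => ?_,
    fun x n => x.toBCF.norm_coe_le_norm n, ⟨⟨Pi.single 0 1, continuous_of_discreteTopology⟩, ?_⟩,
    rfl, (BoundedContinuousFunction.norm_le zero_le_one).mpr fun n => ?_⟩
  · refine ⟨⟨⟨g, continuous_of_discreteTopology⟩, squeeze_zero_norm h ?_⟩, rfl,
      (BoundedContinuousFunction.norm_le (by positivity)).mpr fun n =>
        (h n).trans (mul_le_mul_of_nonneg_left (x.toBCF.norm_coe_le_norm _) hC)⟩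
    have := ((zero_at_infty x).comp (Homeomorph.addRight s).toCocompactMap.cocompact_tendsto').norm
    simpa [evC] using this.const_mul C
  · rw [cocompact_eq_cofinite]
    refine (tendsto_cofinite_pure_iff.mpr ?_).mono_right (pure_le_nhds 0)
    exact (Set.finite_singleton 0).subset (Pi.support_single_subset)
  · change ‖(Pi.single 0 1 : ℤ → 𝕜) n‖ ≤ 1
    by_cases h : n = 0 <;> simp [h]

lemma exists_shift {X : Type*} [NormedAddCommGroup X] [NormedSpace 𝕜 X] {ev : X →ₗ[𝕜] ℤ → 𝕜}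
    (hX : SeqSp ev) {w : ℤ → 𝕜} {M : ℝ} (h : ∀ n, ‖w n‖ ≤ M) :
    ∃ T : X →L[𝕜] X, ∀ x n, ev (T x) n = w (n + 1) * ev x (n + 1) := by
  choose f f1 f2 using fun x => hX.solid x (fun n => w (n + 1) * ev x (n + 1)) M 1
    ((norm_nonneg _).trans (h 0)) fun n => by rw [norm_mul]; gcongr; exact h _
  refine ⟨LinearMap.mkContinuous ⟨⟨f, fun x y => hX.inj ?_⟩, fun a x => hX.inj ?_⟩ M f2,
    fun x n => congrFun (f1 x) n⟩
  · ext n; simp [f1, mul_add]
  · ext n; simp [f1]; ring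

lemma exists_c {w : ℤ → 𝕜} (hw : ∀ n, w n ≠ 0) :
    ∃ c : ℤ → 𝕜, (∀ n, c n ≠ 0) ∧ ∀ n, w (n + 1) = c n / c (n + 1) := by
  refine ⟨fun n => (∏ k ∈ range n.toNat, w (k + 1))⁻¹ * ∏ k ∈ range (-n).toNat, w (-k),
    fun n => mul_ne_zero (inv_ne_zero (prod_ne_zero_iff.mpr fun _ _ => hw _))
      (prod_ne_zero_iff.mpr fun _ _ => hw _), fun n => ?_⟩
  beta_reduce
  rcases le_or_gt 0 n with h | h
  · obtain ⟨m, rfl⟩ := Int.eq_ofNat_of_zero_le h
    have := prod_ne_zero_iff.mpr fun (k : ℕ) (_ : k ∈ range m) => hw (k + 1)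
    rw [show ((m : ℤ) + 1).toNat = m + 1 by omega, show (-((m : ℤ) + 1)).toNat = 0 by omega,
      show (-(m : ℤ)).toNat = 0 by omega, Int.toNat_natCast, prod_range_succ]
    field_simp
  · obtain ⟨m, rfl⟩ : ∃ m : ℕ, n = -(m + 1) := ⟨(-n - 1).toNat, by omega⟩
    have := prod_ne_zero_iff.mpr fun (k : ℕ) (_ : k ∈ range m) => hw (-k)
    rw [show (-((m : ℤ) + 1) + 1).toNat = 0 by omega, show (-(-((m : ℤ) + 1) + 1)).toNat = m by omega,
      show (-(-((m : ℤ) + 1))).toNat = m + 1 by omega, show (-((m : ℤ) + 1)).toNat = 0 by omega,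
      prod_range_succ, show -((m : ℤ) + 1) + 1 = -m by ring]
    field_simp

theorem main0 : ∀ (𝕜 : Type) [RCLike 𝕜] (p : ENNReal) [Fact (1 ≤ p)], p ≠ ⊤ →
    ∀ (w : ℤ → 𝕜) (m M : ℝ), 0 < m → (∀ n, m ≤ ‖w n‖ ∧ ‖w n‖ ≤ M) →
    ∃ (T : lp (fun _ : ℤ => 𝕜) p →L[𝕜] lp (fun _ : ℤ => 𝕜) p) (S : C₀(ℤ, 𝕜) →L[𝕜] C₀(ℤ, 𝕜)),
      (∀ x n, evL 𝕜 p (T x) n = w (n + 1) * evL 𝕜 p x (n + 1)) ∧
      (∀ x n, evC 𝕜 (S x) n = w (n + 1) * evC 𝕜 x (n + 1)) ∧ (PSP T ↔ PSP S) := by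
  intro 𝕜 _ p _ hp w m M hm hw
  obtain ⟨T, hT⟩ := exists_shift (seq_lp p hp) fun n => (hw n).2
  obtain ⟨S, hS⟩ := exists_shift seq_c0 fun n => (hw n).2
  refine ⟨T, S, hT, hS, ?_⟩
  obtain ⟨c, hc, hcw⟩ := exists_c (w := w) fun n => norm_pos_iff.mp (hm.trans_le (hw n).1)
  simp only [hcw] at hT hS
  have e : ∀ n, ‖c n‖ = ‖w (n + 1)‖ * ‖c (n + 1)‖ := fun n => by
    rw [hcw, ← norm_mul, div_mul_cancel₀ _ (hc _)]
  have hK : 1 ≤ max 1 (max M m⁻¹) := le_max_left _ _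
  have h1 : ∀ n, ‖c (n + 1)‖ ≤ max 1 (max M m⁻¹) * ‖c n‖ := fun n => by
    refine le_trans ?_ (mul_le_mul_of_nonneg_right ((le_max_right _ _).trans (le_max_right _ _))
      (norm_nonneg _))
    rw [le_inv_mul_iff₀ hm, e n]
    exact mul_le_mul_of_nonneg_right (hw _).1 (norm_nonneg _)
  have h2 : ∀ n, ‖c n‖ ≤ max 1 (max M m⁻¹) * ‖c (n + 1)‖ := fun n => by
    rw [e n]
    exact mul_le_mul_of_nonneg_right ((hw _).2.trans ((le_max_left _ _).trans (le_max_right _ _)))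
      (norm_nonneg _)
  exact ⟨fun h => ofW seq_c0 hc hS hK h1 h2 (toW (seq_lp p hp) hc hT h),
    fun h => ofW (seq_lp p hp) hc hT hK h1 h2 (toW seq_c0 hc hS h)⟩

/-- `T` is the bilateral weighted backward shift, in the coordinates `ev`. -/
def IsShift {𝕜 X : Type} [Mul 𝕜] (ev : X → ℤ → 𝕜) (w : ℤ → 𝕜) (T : X → X) : Prop :=
  ∀ x n, ev (T x) n = w (n + 1) * ev x (n + 1)

/-- the space `l_p(Z)`. -/
abbrev LP (𝕜 : Type) [RCLike 𝕜] (p : ENNReal) := lp (fun _ : ℤ => 𝕜) p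

/-- the space `c_0(Z)`. -/
abbrev CZ (𝕜 : Type) [RCLike 𝕜] := C₀(ℤ, 𝕜)

theorem main : ∀ (𝕜 : Type) [RCLike 𝕜] (p : ENNReal) [Fact (1 ≤ p)], p ≠ ⊤ →
    ∀ (w : ℤ → 𝕜) (m M : ℝ), 0 < m → (∀ n, m ≤ ‖w n‖ ∧ ‖w n‖ ≤ M) →
    ∃ (T : LP 𝕜 p → LP 𝕜 p) (S : CZ 𝕜 → CZ 𝕜),
      IsShift (fun x n => x.1 n) w T ∧ IsShift (fun x n => x.toFun n) w S ∧ (PSP T ↔ PSP S) := by
  intro 𝕜 _ p _ hp w m M hm hw
  obtain ⟨T, S, hT, hS, h⟩ := main0 𝕜 p hp w m M hm hw
  exact ⟨T, S, hT, hS, h⟩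

end H91.PerShad
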