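import Mathlib
import Pool.Agent.H91.Strip

set_option autoImplicit false

namespace Pool.Agent.H91.PrimNormal

open Complex Metric Pool.Agent.H91.Strip

noncomputable def ph (t : ℂ) : ℂ := (47 + t) / 2 - I + I * exp (I * (-(1 / 2) : ℝ) * t)

noncomputable def g (t : ℂ) : ℂ := t + I * (1 / 2 : ℝ) * t + log (ph t)

noncomputable def G (t : ℂ) : ℂ := (47 + t) * (exp (I * (1 / 2 : ℝ) * t) - 1)

lemma ph_re {t : ℂ} (ht : t ∈ H) : 20 ≤ (ph t).re := by
  have h1 := norm_exp_I_le ht (-(1 / 2)) (by norm_num [abs_of_pos])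
  have h2 : |(I * exp (I * (-(1 / 2) : ℝ) * t)).re| ≤ 3 := by
    refine le_trans (abs_re_le_norm _) ?_
    rw [norm_mul, norm_I, one_mul]; exact h1
  have h3 := ht.1
  have h4 := neg_abs_le (I * exp (I * (-(1 / 2) : ℝ) * t)).re
  unfold ph
  simp only [add_re, sub_re, div_ofNat_re, re_ofNat, I_re]
  linarith

lemma ph_slit {t : ℂ} (ht : t ∈ H) : ph t ∈ slitPlane := Or.inl (by linarith [ph_re ht])

lemma ph_deriv (t : ℂ) :
    HasDerivAt ph (1 / 2 + exp (I * (-(1 / 2) : ℝ) * t) / 2) t := by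
  have d1 := (((hasDerivAt_id t).const_add 47).div_const 2).sub_const I
  have d2 := (((hasDerivAt_id t).const_mul (I * (-(1 / 2) : ℝ))).cexp).const_mul I
  refine HasDerivAt.congr_deriv (d1.add d2) ?_
  simp only [id]
  push_cast
  linear_combination (-(1 / 2) * exp (I * -(1 / 2) * t)) * I_mul_I

lemma g_deriv {t : ℂ} (ht : t ∈ H) :
    HasDerivAt g (1 + I * (1 / 2 : ℝ) + (1 / 2 + exp (I * (-(1 / 2) : ℝ) * t) / 2) / ph t) t := by
  have d1 := (hasDerivAt_id t).add ((hasDerivAt_id t).const_mul (I * (1 / 2 : ℝ)))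
  have d2 := (ph_deriv t).clog (ph_slit ht)
  refine HasDerivAt.congr_deriv (d1.add d2) ?_
  simp

lemma g_bound {t : ℂ} (ht : t ∈ H) :
    ‖(1 + I * (1 / 2 : ℝ) + (1 / 2 + exp (I * (-(1 / 2) : ℝ) * t) / 2) / ph t) - 1‖ ≤ 3 / 5 := by
  have h1 := norm_exp_I_le ht (-(1 / 2)) (by norm_num [abs_of_pos])
  have h2 : 20 ≤ ‖ph t‖ := le_trans (ph_re ht) (re_le_norm _)
  have h3 : ‖(1 / 2 + exp (I * (-(1 / 2) : ℝ) * t) / 2)‖ ≤ 2 := by
    refine le_trans (norm_add_le _ _) ?_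
    rw [norm_div, norm_div]
    simp only [norm_one, Complex.norm_ofNat]
    linarith
  have h4 : ‖(1 / 2 + exp (I * (-(1 / 2) : ℝ) * t) / 2) / ph t‖ ≤ 1 / 10 := by
    rw [norm_div, div_le_iff₀ (by linarith)]
    linarith
  have e : (1 + I * (1 / 2 : ℝ) + (1 / 2 + exp (I * (-(1 / 2) : ℝ) * t) / 2) / ph t) - 1
      = I * (1 / 2 : ℝ) + (1 / 2 + exp (I * (-(1 / 2) : ℝ) * t) / 2) / ph t := by ring
  rw [e]
  refine le_trans (norm_add_le _ _) ?_
  have : ‖I * (1 / 2 : ℝ)‖ = 1 / 2 := by simp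
  linarith

lemma G_deriv (t : ℂ) : HasDerivAt G (I * (exp (I * (1 / 2 : ℝ) * t) * ph t)) t := by
  have d1 := ((hasDerivAt_id t).const_add 47).mul
    ((((hasDerivAt_id t).const_mul (I * (1 / 2 : ℝ))).cexp).sub_const 1)
  refine HasDerivAt.congr_deriv d1 ?_
  have e : exp (I * (1 / 2 : ℝ) * t) * exp (I * (-(1 / 2) : ℝ) * t) = 1 := by
    rw [← exp_add]; push_cast; ring_nf; simp
  simp only [id, ph]
  push_cast at e ⊢
  linear_combination (exp (I * (1 / 2) * t) - exp (I * (1 / 2) * t) * exp (I * -(1 / 2) * t))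
    * I_mul_I + e

noncomputable def f (z : ℂ) : ℂ := I * exp (g (T z))

noncomputable def F (z : ℂ) : ℂ := G (T z)

lemma f_eq {z : ℂ} (hz : ‖z‖ < 1) :
    f z = I * (exp (I * (1 / 2 : ℝ) * T z) * ph (T z)) * exp (T z) := by
  unfold f g
  rw [exp_add, exp_add, exp_log (slitPlane_ne_zero (ph_slit (T_mem hz)))]
  ring

lemma F_deriv {z : ℂ} (hz : ‖z‖ < 1) : HasDerivAt F (f z) z := by
  rw [f_eq hz]
  exact (G_deriv (T z)).comp z (T_deriv hz)

lemma f_an : AnalyticOnNhd ℂ f (ball 0 1) := by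
  apply DifferentiableOn.analyticOnNhd _ isOpen_ball
  intro z hz
  rw [mem_ball_zero_iff] at hz
  exact ((((g_deriv (T_mem hz)).comp z (T_deriv hz)).cexp).const_mul I).differentiableAt.differentiableWithinAt

lemma f_inj : Set.InjOn f (ball 0 1) := by
  intro z hz w hw h
  rw [mem_ball_zero_iff] at hz hw
  apply T_inj hz hw
  apply exp_inj g _ (3 / 5) (by norm_num) (fun t ht => g_deriv ht) (fun t ht => g_bound ht)
    (T_mem hz) (T_mem hw)
  exact mul_left_cancel₀ I_ne_zero h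

lemma F_zero : F 0 = 0 := by simp [F, G, T_zero]

lemma unbounded (C : ℝ) : ∃ z ∈ ball (0 : ℂ) 1, C < (1 - ‖z‖ ^ 2) * ‖f z‖ / (1 + ‖F z‖ ^ 2) := by
  obtain ⟨n, hn⟩ := exists_nat_gt C
  set x : ℝ := n * (4 * Real.pi) with hx
  have hpi := Real.pi_gt_three
  have hx0 : 0 ≤ x := by positivity
  have hz := Z_lt hx0
  refine ⟨Z x, by simpa using hz, ?_⟩
  have e1 : exp (I * (1 / 2 : ℝ) * (x : ℂ)) = 1 := by
    rw [← exp_nat_mul_two_pi_mul_I n]; congr 1; rw [hx]; push_cast; ring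
  have e2 : exp (I * (-(1 / 2) : ℝ) * (x : ℂ)) = 1 := by
    have : I * (-(1 / 2) : ℝ) * (x : ℂ) = -(I * (1 / 2 : ℝ) * (x : ℂ)) := by push_cast; ring
    rw [this, exp_neg, e1, inv_one]
  have e3 : F (Z x) = 0 := by simp only [F, G, T_Z, e1, sub_self, mul_zero]
  have e4 : f (Z x) = I * (((47 + x) / 2 * Real.exp x : ℝ) : ℂ) := by
    rw [f_eq hz, T_Z, e1]; unfold ph; rw [e2]; push_cast; ring
  rw [e3, e4, Z_norm hx0, norm_mul, norm_I, norm_real, Real.norm_eq_abs,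
    abs_of_nonneg (by positivity)]
  have e5 : Real.exp (-x) * Real.exp x = 1 := by rw [← Real.exp_add]; simp
  have h1 : Real.exp (-x) ≤ 1 := Real.exp_le_one_iff.mpr (by linarith)
  have e6 : (1 - (1 - Real.exp (-x)) ^ 2) * (1 * ((47 + x) / 2 * Real.exp x)) / (1 + ‖(0 : ℂ)‖ ^ 2)
      = (2 - Real.exp (-x)) * ((47 + x) / 2) := by
    simp only [norm_zero]
    linear_combination (2 - Real.exp (-x)) * ((47 + x) / 2) * e5
  rw [e6]
  have h2 : (n : ℝ) ≤ (47 + x) / 2 := by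
    have : (0 : ℝ) ≤ n := Nat.cast_nonneg n
    rw [hx]; nlinarith
  nlinarith

end Pool.Agent.H91.PrimNormal
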