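import Mathlib

set_option autoImplicit false

namespace H91.ProdRec
open Filter Topology Finset

/-- `x` (with `x j` standing for `x_{j-(2k+2)}`) is a positive solution of (E). -/
def Sol (k : ℕ) (α x : ℕ → ℝ) : Prop :=
  (∀ j, 0 < x j) ∧ ∀ n, x (n + 2 * k + 3) =
    α n / ∏ i ∈ range (k + 1), x (n + k + 2 + i) + 1 / ∏ i ∈ range (k + 1), x (n + i)

noncomputable def sol (k : ℕ) (α : ℕ → ℝ) (j : ℕ) : ℝ :=
  if h : j < 2 * k + 3 then 1 else
    α (j - (2 * k + 3)) / ∏ i : Fin (k + 1), sol k α (j - (2 * k + 3) + k + 2 + i) +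
      1 / ∏ i : Fin (k + 1), sol k α (j - (2 * k + 3) + i)
termination_by j
decreasing_by all_goals (have := i.2; omega)

lemma sol_ok (k : ℕ) (α : ℕ → ℝ) (h : ∀ n, 0 ≤ α n) : Sol k α (sol k α) := by
  constructor
  · intro j
    induction j using Nat.strong_induction_on with
    | _ j ih =>
      rw [sol]
      split_ifs with hj
      · exact one_pos
      · refine add_pos_of_nonneg_of_pos (div_nonneg (h _) (Finset.prod_nonneg fun i _ =>
          (ih _ (by have := i.2; omega)).le)) (div_pos one_pos (Finset.prod_pos fun i _ =>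
          ih _ (by have := i.2; omega)))
  · intro n
    rw [sol, dif_neg (by omega), show n + 2 * k + 3 - (2 * k + 3) = n by omega,
      Fin.prod_univ_eq_prod_range (fun i => sol k α (n + k + 2 + i)),
      Fin.prod_univ_eq_prod_range (fun i => sol k α (n + i))]

theorem main' : ∀ (k p : ℕ) (α : ℕ → ℝ), 2 ≤ p → (∀ n, α (n + p) = α n) →
    (∀ q, 0 < q → q < p → ∃ n, α (n + q) ≠ α n) → ∀ x, Sol k α x →
    ¬ ∃ y : ℕ → ℝ, (∀ j, 0 < y j) ∧ (∀ j, y (j + (k + 2)) = y j) ∧
      Tendsto (fun j => x j - y j) atTop (𝓝 0) := by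
  rintro k p α hp hper hmin x ⟨hx0, hx⟩ ⟨y, hy0, hy, hlim⟩
  have hyp : Function.Periodic y (k + 2) := hy
  have hap : Function.Periodic α p := hper
  have h1 : ∀ j, Tendsto (fun m => x (j + m * (p * (k + 2)))) atTop (𝓝 (y j)) := by
    intro j
    have t : Tendsto (fun m => j + m * (p * (k + 2))) atTop atTop :=
      tendsto_atTop_mono (fun m => by
        have : 1 ≤ p * (k + 2) := Nat.mul_pos (by omega) (by omega)
        simp only [id]; nlinarith) tendsto_id
    have := (hlim.comp t).add_const (y j)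
    rw [zero_add] at this
    refine this.congr fun m => ?_
    have e : y (j + m * (p * (k + 2))) = y j := by
      have := hyp.nat_mul (m * p) j
      simpa [mul_assoc] using this
    simp [e]
  have h2 : ∀ n, y (n + 2 * k + 3) =
      α n / ∏ i ∈ range (k + 1), y (n + k + 2 + i) + 1 / ∏ i ∈ range (k + 1), y (n + i) := by
    intro n
    refine tendsto_nhds_unique (h1 _) ?_
    have a1 := tendsto_finsetProd (range (k + 1)) fun i _ => h1 (n + k + 2 + i)
    have a2 := tendsto_finsetProd (range (k + 1)) fun i _ => h1 (n + i)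
    refine (((tendsto_const_nhds (x := α n)).div a1
      (Finset.prod_pos fun i _ => hy0 _).ne').add ((tendsto_const_nhds (x := (1 : ℝ))).div a2
      (Finset.prod_pos fun i _ => hy0 _).ne')).congr fun m => ?_
    have e : α (n + m * (p * (k + 2))) = α n := by
      have := hap.nat_mul (m * (k + 2)) n
      simpa [mul_assoc, mul_comm, mul_left_comm] using this
    have := hx (n + m * (p * (k + 2)))
    rw [e] at this
    simp only [Pi.div_apply]
    rw [show n + 2 * k + 3 + m * (p * (k + 2)) = n + m * (p * (k + 2)) + 2 * k + 3 by ring, this]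
    congr 2
    · refine Finset.prod_congr rfl fun i _ => ?_
      congr 1; ring
    · refine Finset.prod_congr rfl fun i _ => ?_
      congr 1; ring
  have h3 : ∀ n, ∏ i ∈ range (k + 2), y (n + i) = α n + 1 := by
    intro n
    have e1 : ∏ i ∈ range (k + 1), y (n + k + 2 + i) = ∏ i ∈ range (k + 1), y (n + i) :=
      Finset.prod_congr rfl fun i _ => by rw [← hy (n + i)]; congr 1; ring
    have e2 : y (n + 2 * k + 3) = y (n + (k + 1)) := by rw [← hy (n + (k + 1))]; congr 1; ring
    have := h2 n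
    have hpos : 0 < ∏ i ∈ range (k + 1), y (n + i) := Finset.prod_pos fun i _ => hy0 _
    rw [e1, e2] at this
    rw [Finset.prod_range_succ, this]
    field_simp
  obtain ⟨n, hn⟩ := hmin 1 one_pos (by omega)
  apply hn
  have a1 := h3 n
  have a2 := h3 (n + 1)
  rw [Finset.prod_range_succ'] at a1
  rw [Finset.prod_range_succ] at a2
  have e1 : ∏ i ∈ range (k + 1), y (n + 1 + i) = ∏ i ∈ range (k + 1), y (n + (i + 1)) :=
    Finset.prod_congr rfl fun i _ => by congr 1; ring
  have e2 : y (n + 1 + (k + 1)) = y (n + 0) := by rw [← hy (n + 0)]; congr 1; ring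
  rw [e1, e2, a1] at a2
  linarith

theorem main : ∀ (k p : ℕ) (α : ℕ → ℝ), (∀ n, 0 ≤ α n) → 2 ≤ p → (∀ n, α (n + p) = α n) →
    (∀ q, 0 < q → q < p → ∃ n, α (n + q) ≠ α n) → (∃ x, Sol k α x) ∧ ∀ x, Sol k α x →
    ¬ ∃ y : ℕ → ℝ, (∀ j, 0 < y j) ∧ (∀ j, y (j + (k + 2)) = y j) ∧
      Tendsto (fun j => x j - y j) atTop (𝓝 0) :=
  fun k p α h0 h1 h2 h3 => ⟨⟨_, sol_ok k α h0⟩, main' k p α h1 h2 h3⟩

end H91.ProdRec
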