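import Mathlib

set_option autoImplicit false

open Quaternion Matrix Finset Filter Topology

namespace H91.QGyro

/-- Square quaternion matrices. -/
abbrev Mat (n : ℕ) := Matrix (Fin n) (Fin n) ℍ[ℝ]

/-- `A k` is hermitian for odd `k`, skewhermitian for even `k` (`k ≤ l`), and `A l` is
invertible. -/
def Adm {n : ℕ} (l : ℕ) (A : ℕ → Mat n) : Prop :=
  (∀ k ≤ l, (Odd k → (A k)ᴴ = A k) ∧ (Even k → (A k)ᴴ = -A k)) ∧ IsUnit (A l)

/-- Every `C^l` solution of `∑ A_k x^{(k)} = 0` is bounded on `ℝ`. -/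
def Bdd {n : ℕ} (l : ℕ) (A : ℕ → Mat n) : Prop :=
  ∀ x : ℝ → Fin n → ℍ[ℝ], ContDiff ℝ l x →
    (∀ t, ∑ k ∈ range (l + 1), A k *ᵥ iteratedDeriv k x t = 0) → ∃ M, ∀ t, ‖x t‖ ≤ M

/-- Stably bounded: all admissible systems with entrywise `ε`-close coefficients are bounded. -/
def StBdd {n : ℕ} (l : ℕ) (A : ℕ → Mat n) : Prop :=
  ∃ ε > 0, ∀ A' : ℕ → Mat n, Adm l A' → (∀ k ≤ l, ∀ a b, ‖A' k a b - A k a b‖ < ε) → Bdd l A'

/-- The blocks of the companion matrix (indices from `0`). -/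
noncomputable def Cb {n : ℕ} (l : ℕ) (A : ℕ → Mat n) : Matrix (Fin l) (Fin l) (Mat n) :=
  Matrix.of fun i j => if (i : ℕ) + 1 = l then -(Ring.inverse (A l) * A j)
    else if (j : ℕ) = i + 1 then 1 else 0

/-- The blocks of `G` (indices from `0`). -/
noncomputable def Gb {n : ℕ} (l : ℕ) (A : ℕ → Mat n) : Matrix (Fin l) (Fin l) (Mat n) :=
  Matrix.of fun i j => if (i : ℕ) + j + 1 ≤ l then (-1 : ℤ) ^ (i : ℕ) • A (i + j + 1) else 0

/-- The block companion matrix `C`. -/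
noncomputable def Cm {n : ℕ} (l : ℕ) (A : ℕ → Mat n) := Matrix.comp _ _ _ _ _ (Cb l A)

/-- The matrix `G`. -/
noncomputable def Gm {n : ℕ} (l : ℕ) (A : ℕ → Mat n) := Matrix.comp _ _ _ _ _ (Gb l A)

section abs
variable {ι : Type} [Fintype ι] [DecidableEq ι]

/-- Right scalar multiplication of a column vector. -/
noncomputable def rm (x : ι → ℍ[ℝ]) (q : ℍ[ℝ]) : ι → ℍ[ℝ] := fun i => x i * q

/-- `lam` is a (right) eigenvalue of `M`. -/
def IsEig (M : Matrix ι ι ℍ[ℝ]) (lam : ℍ[ℝ]) : Prop := ∃ x, x ≠ 0 ∧ M *ᵥ x = rm x lam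

/-- The root subspace of `M` at `lam`, with exponent the size of `M`. -/
def root (M : Matrix ι ι ℍ[ℝ]) (lam : ℍ[ℝ]) : Set (ι → ℍ[ℝ]) :=
  {x | (lam.im = 0 → ((M - lam.re • 1) ^ Fintype.card ι) *ᵥ x = 0) ∧
    (lam.im ≠ 0 → ((M ^ 2 - (2 * lam.re) • M + ‖lam‖ ^ 2 • 1) ^ Fintype.card ι) *ᵥ x = 0)}

/-- The form `x^* G y`. -/
noncomputable def B (G : Matrix ι ι ℍ[ℝ]) (x y : ι → ℍ[ℝ]) : ℍ[ℝ] := star x ⬝ᵥ G *ᵥ y

/-- `x^* G x > 0` for all nonzero `x ∈ S`. -/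
def Pos (G : Matrix ι ι ℍ[ℝ]) (S : Set (ι → ℍ[ℝ])) : Prop :=
  ∀ x ∈ S, x ≠ 0 → ∃ r : ℝ, 0 < r ∧ B G x x = r

/-- `x^* G x < 0` for all nonzero `x ∈ S`. -/
def Neg (G : Matrix ι ι ℍ[ℝ]) (S : Set (ι → ℍ[ℝ])) : Prop :=
  ∀ x ∈ S, x ≠ 0 → ∃ r : ℝ, r < 0 ∧ B G x x = r

omit [DecidableEq ι] in
lemma mulVec_rm {κ : Type} (M : Matrix κ ι ℍ[ℝ]) (x : ι → ℍ[ℝ]) (q : ℍ[ℝ]) :
    M *ᵥ (fun i => x i * q) = fun i => (M *ᵥ x) i * q := by
  ext1 i; simp [mulVec, dotProduct, Finset.sum_mul, mul_assoc]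

omit [DecidableEq ι] in
lemma B_rm_right (G : Matrix ι ι ℍ[ℝ]) (x y : ι → ℍ[ℝ]) (q : ℍ[ℝ]) :
    B G x (rm y q) = B G x y * q := by
  unfold B rm; rw [mulVec_rm]; simp [dotProduct, Finset.sum_mul, mul_assoc]

omit [DecidableEq ι] in
lemma B_rm_left (G : Matrix ι ι ℍ[ℝ]) (x y : ι → ℍ[ℝ]) (q : ℍ[ℝ]) :
    B G (rm x q) y = star q * B G x y := by
  simp [B, rm, dotProduct, Finset.mul_sum, mul_assoc]

omit [DecidableEq ι] in
lemma B_star {G : Matrix ι ι ℍ[ℝ]} (hG : Gᴴ = G) (x y : ι → ℍ[ℝ]) :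
    star (B G x y) = B G y x := by
  unfold B
  rw [star_dotProduct, star_star, star_mulVec, hG, ← dotProduct_mulVec]

omit [DecidableEq ι] in
lemma B_C {G C : Matrix ι ι ℍ[ℝ]} (hG : Gᴴ = G) (hC : (G * C)ᴴ = -(G * C)) (x y : ι → ℍ[ℝ]) :
    B G x (C *ᵥ y) = -B G (C *ᵥ x) y := by
  unfold B
  rw [conjTranspose_mul, hG] at hC
  rw [star_mulVec, ← dotProduct_mulVec, mulVec_mulVec, mulVec_mulVec, hC, neg_mulVec,
    dotProduct_neg, neg_neg]

omit [DecidableEq ι] in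
lemma B_add_left (G : Matrix ι ι ℍ[ℝ]) (x y z : ι → ℍ[ℝ]) :
    B G (x + y) z = B G x z + B G y z := by simp [B, add_dotProduct]

omit [DecidableEq ι] in
lemma B_add_right (G : Matrix ι ι ℍ[ℝ]) (x y z : ι → ℍ[ℝ]) :
    B G x (y + z) = B G x y + B G x z := by simp [B, mulVec_add, dotProduct_add]

omit [Fintype ι] [DecidableEq ι] in
lemma smul_eq_rm (r : ℝ) (x : ι → ℍ[ℝ]) : r • x = rm x r := by
  ext1 i; simp [rm, Quaternion.mul_coe_eq_smul]

omit [DecidableEq ι] in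
lemma q_rm {G : Matrix ι ι ℍ[ℝ]} (x : ι → ℍ[ℝ]) (hG : Gᴴ = G) (q : ℍ[ℝ]) :
    (B G (rm x q) (rm x q)).re = normSq q * (B G x x).re := by
  rw [B_rm_left, B_rm_right]
  have h := Quaternion.star_eq_self.mp (B_star hG x x)
  rw [h]
  simp [normSq_def']
  ring

omit [DecidableEq ι] in
lemma seg {G : Matrix ι ι ℍ[ℝ]} (hG : Gᴴ = G) (S : Set (ι → ℍ[ℝ]))
    (hS : ∀ a ∈ S, ∀ b ∈ S, ∀ s t : ℝ, s • a + t • b ∈ S)
    (hno : ∀ c ∈ S, c ≠ 0 → (B G c c).re ≠ 0) {a b : ι → ℍ[ℝ]} (ha : a ∈ S) (hb : b ∈ S)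
    (ha' : (B G a a).re < 0) (hb' : 0 < (B G b b).re) : False := by
  have hc : Continuous fun t : ℝ => (B G ((1 - t) • a + t • b) ((1 - t) • a + t • b)).re := by
    refine Quaternion.continuous_re.comp ?_
    unfold B
    fun_prop
  obtain ⟨t, -, ht⟩ : (0 : ℝ) ∈ (fun t : ℝ =>
      (B G ((1 - t) • a + t • b) ((1 - t) • a + t • b)).re) '' Set.Icc 0 1 :=
    intermediate_value_Icc zero_le_one hc.continuousOn ⟨by simpa using ha'.le, by simpa using hb'.le⟩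
  refine hno _ (hS a ha b hb _ _) (fun h0 => ?_) ht
  have h1 : (1 - t) • a = (-t) • b := by rw [neg_smul]; exact eq_neg_of_add_eq_zero_left h0
  have h2 := q_rm a hG ((1 - t : ℝ) : ℍ[ℝ])
  have h3 := q_rm b hG ((-t : ℝ) : ℍ[ℝ])
  rw [← smul_eq_rm] at h2 h3
  rw [h1, h3, normSq_coe, normSq_coe] at h2
  have h4 : t = 0 := by
    by_contra h
    have : 0 < (-t) ^ 2 := by have : -t ≠ 0 := neg_ne_zero.mpr h; positivity
    nlinarith [sq_nonneg (1 - t)]
  subst h4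
  norm_num at h2
  exact ha'.ne h2.symm

lemma ker_pow (N : Matrix ι ι ℍ[ℝ]) (h : ∀ y, N *ᵥ (N *ᵥ y) = 0 → N *ᵥ y = 0) (m : ℕ) :
    ∀ x, (N ^ m) *ᵥ x = 0 → N *ᵥ x = 0 := by
  induction m with
  | zero => intro x hx; simp at hx; simp [hx]
  | succ m ih =>
    intro x hx
    rw [pow_succ, ← mulVec_mulVec] at hx
    exact h x (ih _ hx)

lemma definite {G : Matrix ι ι ℍ[ℝ]} (hG : Gᴴ = G) (S T : Set (ι → ℍ[ℝ])) (hST : S ⊆ T)
    (hT : ∀ a ∈ T, ∀ b ∈ T, ∀ s t : ℝ, s • a + t • b ∈ T)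
    (hno : ∀ c ∈ T, c ≠ 0 → (B G c c).re ≠ 0) : Pos G S ∨ Neg G S := by
  have hr : ∀ x, B G x x = ((B G x x).re : ℍ[ℝ]) := fun x =>
    Quaternion.star_eq_self.mp (B_star hG x x)
  by_contra hcon
  simp only [Pos, Neg, not_or, not_forall, not_exists, not_and] at hcon
  obtain ⟨⟨a, ha, ha0, ha'⟩, ⟨b, hb, hb0, hb'⟩⟩ := hcon
  refine seg hG T hT hno (hST ha) (hST hb) ?_ ?_
  · rcases lt_or_gt_of_ne (hno a (hST ha) ha0) with h | h
    · exact h
    · exact absurd (hr a) (ha' _ h)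
  · rcases lt_or_gt_of_ne (hno b (hST hb) hb0) with h | h
    · exact absurd (hr b) (hb' _ h)
    · exact h

lemma exists_anti (μ : ℍ[ℝ]) (h : μ.re = 0) : ∃ j : ℍ[ℝ], j ≠ 0 ∧ j * μ = -μ * j := by
  by_cases h1 : μ.imI = 0 ∧ μ.imJ = 0
  · refine ⟨⟨0, 1, 0, 0⟩, fun h2 => by simpa using congrArg QuaternionAlgebra.imI h2, ?_⟩
    ext <;> simp [h, h1.1, h1.2]
  · refine ⟨⟨0, μ.imJ, -μ.imI, 0⟩, fun h2 => h1 ⟨?_, ?_⟩, ?_⟩
    · simpa using congrArg QuaternionAlgebra.imJ h2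
    · simpa using congrArg QuaternionAlgebra.imI h2
    · ext <;> simp [h] <;> ring

lemma anti_re {μ s : ℍ[ℝ]} (h : μ.re = 0) (h0 : μ ≠ 0) (hs : s * -μ = μ * s) : s.re = 0 := by
  by_contra hne
  apply h0
  have h1 := congrArg QuaternionAlgebra.imI hs
  have h2 := congrArg QuaternionAlgebra.imJ hs
  have h3 := congrArg QuaternionAlgebra.imK hs
  simp [h] at h1 h2 h3
  ext
  · simpa using h
  · have : s.re * μ.imI = 0 := by linarith
    simpa [hne] using this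
  · have : s.re * μ.imJ = 0 := by linarith
    simpa [hne] using this
  · have : s.re * μ.imK = 0 := by linarith
    simpa [hne] using this

lemma abs_main {G C : Matrix ι ι ℍ[ℝ]} (hG : Gᴴ = G) (hC : (G * C)ᴴ = -(G * C))
    (hno : ∀ μ : ℍ[ℝ], μ.re = 0 → ∀ x, x ≠ 0 → C *ᵥ x = rm x μ → (B G x x).re ≠ 0)
    (μ : ℍ[ℝ]) (hμ : μ.re = 0) : Pos G (root C μ) ∨ Neg G (root C μ) := by
  have hB0 : ∀ y, B G 0 y = 0 := fun y => by simp [B]
  by_cases him : μ.im = 0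
  · refine definite hG _ {x | C *ᵥ x = 0} ?_ ?_ ?_
    · intro x hx
      have h1 := hx.1 him
      rw [hμ, zero_smul, sub_zero] at h1
      refine ker_pow C (fun y hy => ?_) _ x h1
      by_contra hne
      refine hno 0 rfl _ hne (by rw [hy]; ext1 i; simp [rm]) ?_
      rw [B_C hG hC, hy, hB0]; simp
    · intro a ha b hb s t
      simp only [Set.mem_setOf_eq] at ha hb ⊢
      rw [mulVec_add, mulVec_smul, mulVec_smul, ha, hb]; simp
    · intro c hc h0
      exact hno 0 rfl c h0 (by rw [hc]; ext1 i; simp [rm])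
  · have hμ0 : μ ≠ 0 := fun h => him (by simp [h])
    have hst : star μ = -μ := Quaternion.star_eq_neg.mpr hμ
    have hsq : μ * μ = -((‖μ‖ ^ 2 : ℝ) : ℍ[ℝ]) := by
      rw [← neg_eq_iff_eq_neg, ← neg_mul, ← hst, star_mul_self, normSq_eq_norm_mul_self, sq]
    set N : Matrix ι ι ℍ[ℝ] := C ^ 2 + ‖μ‖ ^ 2 • 1 with hN
    have hNa : ∀ y, N *ᵥ y = C *ᵥ (C *ᵥ y) + ‖μ‖ ^ 2 • y := fun y => by
      rw [hN, add_mulVec, smul_mulVec, one_mulVec, sq, mulVec_mulVec]
    have hE : ∀ ν : ℍ[ℝ], ν.re = 0 → ∀ a b, C *ᵥ a = rm a ν → C *ᵥ b = rm b ν →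
        (B G a a).re < 0 → 0 < (B G b b).re → False := by
      intro ν hν a b ha hb ha' hb'
      refine seg hG {x | C *ᵥ x = rm x ν} ?_ (fun c hc h0 => hno ν hν c h0 hc) ha hb ha' hb'
      intro a ha b hb s t
      simp only [Set.mem_setOf_eq] at ha hb ⊢
      rw [mulVec_add, mulVec_smul, mulVec_smul, ha, hb]
      ext1 i; simp [rm, add_mul]
    have hker : ∀ c, N *ᵥ c = 0 → c ≠ 0 → (B G c c).re ≠ 0 := by
      intro c hc h0 hq
      have hcc : C *ᵥ (C *ᵥ c) = rm c (μ * μ) := by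
        rw [hNa] at hc
        rw [eq_neg_of_add_eq_zero_left hc, hsq, smul_eq_rm]
        ext1 i; simp [rm]
      set p : ι → ℍ[ℝ] := (1 / 2 : ℝ) • (c + rm (C *ᵥ c) μ⁻¹) with hp
      set m : ι → ℍ[ℝ] := (1 / 2 : ℝ) • (c - rm (C *ᵥ c) μ⁻¹) with hm
      have hpm : c = p + m := by rw [hp, hm, ← smul_add]; ext1 i; simp [← two_smul ℝ, smul_smul]
      have hCp : C *ᵥ p = rm p μ := by
        rw [hp, mulVec_smul, mulVec_add]
        unfold rm at hcc ⊢
        rw [mulVec_rm, hcc]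
        ext1 i; simp [add_mul, mul_assoc, hμ0, add_comm]
      have hCm : C *ᵥ m = rm m (-μ) := by
        rw [hm, mulVec_smul, mulVec_sub]
        unfold rm at hcc ⊢
        rw [mulVec_rm, hcc]
        ext1 i; simp [sub_mul, mul_assoc, hμ0, ← smul_neg]
      have h1 : (B G p m).re = 0 := by
        refine anti_re hμ hμ0 ?_
        rw [← B_rm_right, ← hCm, B_C hG hC, hCp, B_rm_left, hst]; simp
      have h2 : (B G m p).re = 0 := by rw [← B_star hG]; simpa using h1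
      have h3 : (B G p p).re + (B G m m).re = 0 := by
        rw [hpm, B_add_left, B_add_right, B_add_right] at hq
        simp only [Quaternion.re_add] at hq
        linarith
      by_cases hp0 : p = 0
      · rw [hp0, zero_add] at hpm
        exact hno (-μ) (by simp [hμ]) c h0 (by rw [hpm]; exact hCm) hq
      by_cases hm0 : m = 0
      · rw [hm0, add_zero] at hpm
        exact hno μ hμ c h0 (by rw [hpm]; exact hCp) hq
      obtain ⟨j, hj0, hj⟩ := exists_anti μ hμ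
      have hCj : C *ᵥ (rm m j) = rm (rm m j) μ := by
        unfold rm at hCm ⊢
        rw [mulVec_rm, hCm]
        ext1 i; simp only [mul_assoc, hj]
      have h4 := q_rm m hG j
      have h5 : 0 < normSq j := lt_of_le_of_ne normSq_nonneg (normSq_ne_zero.mpr hj0).symm
      rcases lt_or_gt_of_ne (hno μ hμ p hp0 hCp) with h | h
      · exact hE μ hμ p _ hCp hCj h (by rw [h4]; exact mul_pos h5 (by linarith))
      · exact hE μ hμ _ p hCj hCp (by rw [h4]; exact mul_neg_of_pos_of_neg h5 (by linarith)) h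
    refine definite hG _ {x | N *ᵥ x = 0} ?_ ?_ hker
    · intro x hx
      have h1 := hx.2 him
      rw [hμ, mul_zero, zero_smul, sub_zero] at h1
      refine ker_pow N (fun y hy => ?_) _ x h1
      by_contra hne
      refine hker _ hy hne ?_
      have h2 : ∀ w, B G w (N *ᵥ y) = B G (N *ᵥ w) y := fun w => by
        rw [hNa, hNa, B_add_right, B_add_left, B_C hG hC, B_C hG hC, smul_eq_rm, smul_eq_rm,
          B_rm_right, B_rm_left, neg_neg, star_coe, coe_commutes]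
      rw [h2, hy, hB0]; simp
    · intro a ha b hb s t
      simp only [Set.mem_setOf_eq] at ha hb ⊢
      rw [mulVec_add, mulVec_smul, mulVec_smul, ha, hb]; simp

end abs

section conc
variable {n : ℕ}

/-- The vector `(v, v z, v z², …)`. -/
noncomputable def xv (l : ℕ) (v : Fin n → ℍ[ℝ]) (z : ℍ[ℝ]) : Fin l × Fin n → ℍ[ℝ] :=
  fun p => v p.2 * z ^ (p.1 : ℕ)

/-- `∑ A_k v z^k`. -/
noncomputable def rv (l : ℕ) (A : ℕ → Mat n) (v : Fin n → ℍ[ℝ]) (z : ℍ[ℝ]) : Fin n → ℍ[ℝ] :=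
  ∑ k ∈ range (l + 1), rm (A k *ᵥ v) (z ^ k)

lemma comp_mulVec {l : ℕ} (M : Matrix (Fin l) (Fin l) (Mat n)) (x : Fin l × Fin n → ℍ[ℝ])
    (i : Fin l) (a : Fin n) :
    (Matrix.comp _ _ _ _ _ M *ᵥ x) (i, a) = (∑ j, M i j *ᵥ fun b => x (j, b)) a := by
  simp [mulVec, dotProduct, Fintype.sum_prod_type, Finset.sum_apply]

lemma comp_ct {l : ℕ} (M : Matrix (Fin l) (Fin l) (Mat n)) :
    (Matrix.comp _ _ _ _ _ M)ᴴ = Matrix.comp _ _ _ _ _ Mᴴ := by
  ext1 p q; rfl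

lemma star_A {l : ℕ} {A : ℕ → Mat n} (h : Adm l A) {k : ℕ} (hk : k ≤ l) :
    star (A k) = (-1 : ℤ) ^ (k + 1) • A k := by
  rcases Nat.even_or_odd k with h1 | h1
  · rw [h1.add_one.neg_one_pow, star_eq_conjTranspose, (h.1 k hk).2 h1]; simp
  · rw [h1.add_one.neg_one_pow, star_eq_conjTranspose, (h.1 k hk).1 h1]; simp

lemma G_herm {l : ℕ} {A : ℕ → Mat n} (h : Adm l A) : (Gm l A)ᴴ = Gm l A := by
  unfold Gm
  rw [comp_ct]
  congr 1
  ext1 i j
  simp only [Gb, conjTranspose_apply, of_apply, add_comm (j : ℕ) (i : ℕ)]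
  split_ifs with h1
  · rw [star_zsmul, star_A h h1, smul_smul, ← pow_add]
    congr 1
    rw [show (j : ℕ) + (i + j + 1 + 1) = i + 2 * (j + 1) by ring, pow_add, pow_mul]; simp
  · simp

lemma GC_block {m : ℕ} {A : ℕ → Mat n} (h : Adm (m + 1) A) (i j : Fin (m + 1)) :
    (Gb (m + 1) A * Cb (m + 1) A) i j = if (i : ℕ) = 0 ∧ (j : ℕ) = 0 then -A 0
      else if (i : ℕ) ≠ 0 ∧ (j : ℕ) ≠ 0 ∧ (i : ℕ) + j ≤ m + 1 then
        (-1 : ℤ) ^ (i : ℕ) • A (i + j) else 0 := by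
  rw [mul_apply, Fin.sum_univ_castSucc]
  have h1 : Gb (m + 1) A i (Fin.last m) * Cb (m + 1) A (Fin.last m) j =
      if (i : ℕ) = 0 then -A j else 0 := by
    simp only [Gb, Cb, of_apply, Fin.val_last, if_true]
    by_cases hi : (i : ℕ) = 0
    · simp [hi, ← mul_assoc, Ring.mul_inverse_cancel _ h.2]
    · rw [if_neg (by omega), if_neg hi, zero_mul]
  have h2 : ∑ k : Fin m, Gb (m + 1) A i k.castSucc * Cb (m + 1) A k.castSucc j =
      if (j : ℕ) ≠ 0 ∧ (i : ℕ) + j ≤ m + 1 then (-1 : ℤ) ^ (i : ℕ) • A (i + j) else 0 := by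
    have h3 : ∀ k : Fin m, Cb (m + 1) A k.castSucc j = if (j : ℕ) = k + 1 then 1 else 0 := by
      intro k
      simp only [Cb, of_apply, Fin.val_castSucc]
      rw [if_neg (by omega)]
    simp only [h3]
    induction j using Fin.cases with
    | zero => simp
    | succ j =>
      rw [Finset.sum_eq_single j]
      · simp [Gb, add_assoc]
      · intro k _ hk
        rw [if_neg (by simpa [Fin.ext_iff] using fun h => hk (Fin.ext h.symm)), mul_zero]
      · simp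
  rw [h1, h2]
  have := j.2
  by_cases hi : (i : ℕ) = 0 <;> by_cases hj : (j : ℕ) = 0 <;> simp [hi, hj]

lemma GC_skew {m : ℕ} {A : ℕ → Mat n} (h : Adm (m + 1) A) :
    (Gm (m + 1) A * Cm (m + 1) A)ᴴ = -(Gm (m + 1) A * Cm (m + 1) A) := by
  have h1 : Gm (m + 1) A * Cm (m + 1) A = Matrix.comp _ _ _ _ _ (Gb (m + 1) A * Cb (m + 1) A) :=
    ((Matrix.compRingEquiv _ _ _).map_mul _ _).symm
  have h2 : (Gb (m + 1) A * Cb (m + 1) A)ᴴ = -(Gb (m + 1) A * Cb (m + 1) A) := by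
    ext1 i j
    rw [conjTranspose_apply, neg_apply, GC_block h, GC_block h]
    by_cases hi : (i : ℕ) = 0 <;> by_cases hj : (j : ℕ) = 0 <;>
      simp only [hi, hj, and_self, if_true, ne_eq, not_true, not_false_iff, false_and, and_false,
        if_false, true_and, star_zero, neg_zero]
    · rw [star_neg, star_A h (Nat.zero_le _)]; simp
    · rw [add_comm (j : ℕ) (i : ℕ)]
      split_ifs with h3
      · rw [star_zsmul, star_A h h3, smul_smul, ← pow_add, ← neg_smul]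
        congr 1
        rw [show (j : ℕ) + (i + j + 1) = i + 1 + 2 * j by ring, pow_add, pow_mul]
        simp [pow_succ]
      · simp
  rw [h1, comp_ct, h2]
  ext1 p q; rfl

lemma C_apply {m : ℕ} (A : ℕ → Mat n) (x : Fin (m + 1) × Fin n → ℍ[ℝ]) (i : Fin (m + 1))
    (a : Fin n) : (Cm (m + 1) A *ᵥ x) (i, a) = if h : (i : ℕ) = m then
      -(Ring.inverse (A (m + 1)) *ᵥ ∑ j : Fin (m + 1), A j *ᵥ fun b => x (j, b)) a
      else x (⟨i + 1, by omega⟩, a) := by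
  unfold Cm
  rw [comp_mulVec]
  split_ifs with h
  · simp [Cb, h, mulVec_sum, neg_mulVec]
  · rw [Finset.sum_eq_single (⟨i + 1, by omega⟩ : Fin (m + 1))]
    · simp [Cb, h]
    · intro k _ hk
      have : (k : ℕ) ≠ i + 1 := fun h => hk (Fin.ext h)
      simp [Cb, h, this]
    · simp

lemma rv_eq {m : ℕ} (A : ℕ → Mat n) (v : Fin n → ℍ[ℝ]) (z : ℍ[ℝ]) :
    (∑ j : Fin (m + 1), A j *ᵥ fun b => xv (m + 1) v z (j, b)) =
      rv (m + 1) A v z - A (m + 1) *ᵥ rm v (z ^ (m + 1)) := by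
  unfold rv rm xv
  rw [Finset.sum_range_succ, mulVec_rm, add_sub_cancel_right, Finset.sum_range]
  simp only [mulVec_rm]

lemma C_xv {m : ℕ} {A : ℕ → Mat n} (h : Adm (m + 1) A) (v : Fin n → ℍ[ℝ]) (z : ℍ[ℝ]) :
    Cm (m + 1) A *ᵥ xv (m + 1) v z = rm (xv (m + 1) v z) z - fun p : Fin (m + 1) × Fin n =>
      if (p.1 : ℕ) = m then (Ring.inverse (A (m + 1)) *ᵥ rv (m + 1) A v z) p.2 else 0 := by
  ext1 ⟨i, a⟩
  rw [C_apply]
  split_ifs with hi
  · rw [rv_eq, mulVec_sub, mulVec_mulVec, Ring.inverse_mul_cancel _ h.2]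
    simp [rm, xv, hi, pow_succ, mul_assoc]
  · simp [rm, xv, hi, pow_succ, mul_assoc]

lemma eig_struct {m : ℕ} {A : ℕ → Mat n} (h : Adm (m + 1) A) {x : Fin (m + 1) × Fin n → ℍ[ℝ]}
    {μ : ℍ[ℝ]} (hx : Cm (m + 1) A *ᵥ x = rm x μ) (h0 : x ≠ 0) :
    ∃ v, v ≠ 0 ∧ x = xv (m + 1) v μ ∧ rv (m + 1) A v μ = 0 := by
  have h1 : x = xv (m + 1) (fun a => x (0, a)) μ := by
    ext1 ⟨i, a⟩
    induction i using Fin.induction with
    | zero => simp [xv]
    | succ i ih =>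
      have h2 := congrFun hx (i.castSucc, a)
      rw [C_apply, dif_neg (by simp; omega)] at h2
      have h3 : x (i.succ, a) = x (i.castSucc, a) * μ := h2
      rw [h3, ih]; simp [xv, pow_succ, mul_assoc]
  refine ⟨fun a => x (0, a), fun h2 => h0 ?_, h1, ?_⟩
  · rw [h1, h2]; ext1 p; simp [xv]
  · have h2 := C_xv h (fun a => x (0, a)) μ
    rw [← h1, hx, eq_comm, sub_eq_self] at h2
    have h3 : Ring.inverse (A (m + 1)) *ᵥ rv (m + 1) A (fun a => x (0, a)) μ = 0 := by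
      ext1 a; simpa using congrFun h2 (Fin.last m, a)
    have h4 := congrArg (A (m + 1) *ᵥ ·) h3
    simpa [Ring.mul_inverse_cancel _ h.2] using h4

lemma B_last {m : ℕ} {A : ℕ → Mat n} (v w : Fin n → ℍ[ℝ]) (μ : ℍ[ℝ]) :
    B (Gm (m + 1) A) (xv (m + 1) v μ) (fun p : Fin (m + 1) × Fin n =>
      if (p.1 : ℕ) = m then w p.2 else 0) = star v ⬝ᵥ A (m + 1) *ᵥ w := by
  have h1 : ∀ i a, (Gm (m + 1) A *ᵥ fun p : Fin (m + 1) × Fin n =>
      if (p.1 : ℕ) = m then w p.2 else 0) (i, a) = if i = 0 then (A (m + 1) *ᵥ w) a else 0 := by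
    intro i a
    unfold Gm
    rw [comp_mulVec, Finset.sum_eq_single (Fin.last m)]
    · by_cases hi : i = 0
      · simp [Gb, hi]
      · have : ¬ ((i : ℕ) + m + 1 ≤ m + 1) := by
          have : (i : ℕ) ≠ 0 := fun h => hi (Fin.ext h)
          omega
        simp only [Gb, of_apply, Fin.val_last, if_neg this, if_neg hi]; simp
    · intro k _ hk
      have : (k : ℕ) ≠ m := fun h => hk (Fin.ext h)
      simp only [if_neg this]
      exact mulVec_zero _
    · simp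
  unfold B
  rw [dotProduct, Fintype.sum_prod_type]
  simp only [h1]
  rw [Finset.sum_eq_single 0]
  · simp [xv, dotProduct]
  · intro k _ hk; simp [hk]
  · simp

lemma key {m : ℕ} {A : ℕ → Mat n} (h : Adm (m + 1) A) {v : Fin n → ℍ[ℝ]} {μ : ℍ[ℝ]}
    (hμ : μ.re = 0) (hx : Cm (m + 1) A *ᵥ xv (m + 1) v μ = rm (xv (m + 1) v μ) μ) (e : ℝ) :
    (star v ⬝ᵥ rv (m + 1) A v (μ + e)).re =
      e * (B (Gm (m + 1) A) (xv (m + 1) v μ) (xv (m + 1) v (μ + e))).re := by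
  have h1 := B_C (G_herm h) (GC_skew h) (xv (m + 1) v μ) (xv (m + 1) v (μ + e))
  rw [hx, B_rm_left, C_xv h, sub_eq_add_neg, B_add_right, B_rm_right] at h1
  have h2 := B_last (m := m) (A := A) v (-(Ring.inverse (A (m + 1)) *ᵥ rv (m + 1) A v (μ + e))) μ
  rw [mulVec_neg, mulVec_mulVec, Ring.mul_inverse_cancel _ h.2, one_mulVec, dotProduct_neg] at h2
  have h3 : (-fun p : Fin (m + 1) × Fin n => if (p.1 : ℕ) = m then
      (Ring.inverse (A (m + 1)) *ᵥ rv (m + 1) A v (μ + e)) p.2 else 0) =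
      fun p : Fin (m + 1) × Fin n => if (p.1 : ℕ) = m then
      (-(Ring.inverse (A (m + 1)) *ᵥ rv (m + 1) A v (μ + e))) p.2 else 0 := by
    ext1 p; by_cases hp : (p.1 : ℕ) = m <;> simp [hp]
  rw [h3, h2] at h1
  have h4 := congrArg QuaternionAlgebra.re h1
  simp [hμ] at h4 ⊢
  linarith

lemma not_bdd {l : ℕ} {A : ℕ → Mat n} (hA : Bdd l A) {v : Fin n → ℍ[ℝ]} (hv : v ≠ 0) {z : ℍ[ℝ]}
    (hr : rv l A v z = 0) : z.re = 0 := by
  have hd : ∀ (w : Fin n → ℍ[ℝ]) (t : ℝ), HasDerivAt (fun t : ℝ => rm w (NormedSpace.exp (t • z)))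
      (rm (rm w z) (NormedSpace.exp (t • z))) t := by
    intro w t
    rw [hasDerivAt_pi]
    intro a
    simpa [rm, mul_assoc] using (hasDerivAt_exp_smul_const' (𝕂 := ℝ) z t).const_mul (w a)
  have hi : ∀ k, iteratedDeriv k (fun t : ℝ => rm v (NormedSpace.exp (t • z))) =
      fun t : ℝ => rm (rm v (z ^ k)) (NormedSpace.exp (t • z)) := by
    intro k
    induction k with
    | zero => ext1 t; ext1 a; simp [rm]
    | succ k ih =>
      rw [iteratedDeriv_succ, ih]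
      ext1 t
      rw [(hd _ t).deriv]
      ext1 a; simp [rm, pow_succ, mul_assoc]
  obtain ⟨M, hM⟩ := hA (fun t : ℝ => rm v (NormedSpace.exp (t • z)))
    (contDiff_of_differentiable_iteratedDeriv fun k _ => by
      rw [hi]; exact fun t => (hd _ t).differentiableAt) (fun t => by
      simp only [hi]
      ext1 a
      have := congrArg (· * NormedSpace.exp (t • z)) (congrFun hr a)
      unfold rm
      simp only [mulVec_rm]
      simpa [rv, rm, Finset.sum_apply, Finset.sum_mul] using this)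
  obtain ⟨a, ha⟩ := Function.ne_iff.mp hv
  have ha' : 0 < ‖v a‖ := norm_pos_iff.mpr ha
  by_contra hz
  have h1 := (norm_le_pi_norm _ a).trans (hM (M / ‖v a‖ / z.re))
  simp only [rm, norm_mul, Quaternion.norm_exp, re_smul, smul_eq_mul, div_mul_cancel₀ _ hz,
    ← Real.exp_eq_exp_ℝ, Real.norm_eq_abs, abs_of_pos (Real.exp_pos _)] at h1
  have h2 := Real.add_one_le_exp (M / ‖v a‖)
  have h3 : ‖v a‖ * (M / ‖v a‖) = M := by field_simp
  nlinarith

lemma skew_exists {v : Fin n → ℍ[ℝ]} (hv : v ≠ 0) : ∃ N : ℝ, 0 < N ∧ star v ⬝ᵥ v = N ∧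
    ∃ D : (Fin n → ℍ[ℝ]) → Mat n, Continuous D ∧ D 0 = 0 ∧
      ∀ w, (star v ⬝ᵥ w).re = 0 → (D w)ᴴ = -D w ∧ D w *ᵥ v = w := by
  obtain ⟨a, ha⟩ := Function.ne_iff.mp hv
  have hN : 0 < ∑ i, normSq (v i) := Finset.sum_pos' (fun i _ => normSq_nonneg)
    ⟨a, mem_univ _, lt_of_le_of_ne normSq_nonneg (normSq_ne_zero.mpr ha).symm⟩
  have hN' : star v ⬝ᵥ v = ((∑ i, normSq (v i) : ℝ) : ℍ[ℝ]) := by
    simp only [dotProduct, Pi.star_apply, star_mul_self]
    exact (map_sum (algebraMap ℝ ℍ[ℝ]) _ _).symm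
  set N := ∑ i, normSq (v i)
  refine ⟨N, hN, hN', fun w => Matrix.of fun i j => N⁻¹ • (w i * star (v j) - v i * star (w j)) -
    (N⁻¹) ^ 2 • (v i * (star v ⬝ᵥ w) * star (v j)), ?_, ?_, fun w hw => ⟨?_, ?_⟩⟩
  · refine continuous_matrix fun i j => ?_
    simp only [of_apply]
    fun_prop
  · ext1 i j; simp
  · have h1 : star (star v ⬝ᵥ w) = -(star v ⬝ᵥ w) := Quaternion.star_eq_neg.mpr hw
    ext1 i j
    simp only [conjTranspose_apply, of_apply, Matrix.neg_apply, star_sub, Quaternion.star_smul, star_mul,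
      star_star, h1, mul_assoc, neg_mul, mul_neg, smul_neg, smul_sub]
    abel
  · have h1 : star (star v ⬝ᵥ w) = -(star v ⬝ᵥ w) := Quaternion.star_eq_neg.mpr hw
    have h2 : star w ⬝ᵥ v = -(star v ⬝ᵥ w) := by rw [← h1, star_dotProduct]
    ext1 i
    have h3 : ∑ j, (N⁻¹ • (w i * star (v j) - v i * star (w j)) -
        (N⁻¹) ^ 2 • (v i * (star v ⬝ᵥ w) * star (v j))) * v j =
        N⁻¹ • (w i * (star v ⬝ᵥ v) - v i * (star w ⬝ᵥ v)) -
        (N⁻¹) ^ 2 • (v i * (star v ⬝ᵥ w) * (star v ⬝ᵥ v)) := by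
      generalize star v ⬝ᵥ w = q
      simp only [dotProduct, Pi.star_apply, Finset.mul_sum, sub_mul, smul_mul_assoc, mul_assoc,
        Finset.sum_sub_distrib, Finset.smul_sum, smul_sub]
    change ∑ j, _ * v j = w i
    simp only [of_apply]
    rw [h3, hN', h2]
    simp only [Quaternion.mul_coe_eq_smul, smul_sub, smul_smul, mul_neg, smul_neg]
    rw [inv_mul_cancel₀ hN.ne', show N⁻¹ ^ 2 * N = N⁻¹ by field_simp]
    simp

lemma unit_ev {f : ℝ → Mat n} (hf : Continuous f) (h : IsUnit (f 0)) :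
    ∀ᶠ e in 𝓝 (0 : ℝ), IsUnit (f e) := by
  letI : NormedRing (Mat n) := Matrix.linftyOpNormedRing
  have hc : @CompleteSpace (Mat n) (NormedRing.toMetricSpace.toUniformSpace) :=
    inferInstanceAs (CompleteSpace (Fin n → Fin n → ℍ[ℝ]))
  haveI : HasSummableGeomSeries (Mat n) := @instHasSummableGeomSeriesOfCompleteSpace _ _ hc
  exact hf.continuousAt.eventually (Units.isOpen.mem_nhds h)

lemma no_neutral {m : ℕ} {A : ℕ → Mat n} (h : Adm (m + 1) A) (hs : StBdd (m + 1) A) (μ : ℍ[ℝ])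
    (hμ : μ.re = 0) (x : Fin (m + 1) × Fin n → ℍ[ℝ]) (h0 : x ≠ 0)
    (hx : Cm (m + 1) A *ᵥ x = rm x μ) : (B (Gm (m + 1) A) x x).re ≠ 0 := by
  intro hq
  obtain ⟨v, hv, rfl, hr⟩ := eig_struct h hx h0
  obtain ⟨ε, hε, hs⟩ := hs
  obtain ⟨N, hN, hN', D, hDc, hD0, hD⟩ := skew_exists hv
  set s : ℝ → ℝ := fun e => (B (Gm (m + 1) A) (xv (m + 1) v μ) (xv (m + 1) v (μ + e))).re with hs'
  have hco : Continuous fun e : ℝ => (e : ℍ[ℝ]) := Quaternion.continuous_coe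
  have hsc : Continuous s := by
    refine Quaternion.continuous_re.comp ?_
    unfold B xv
    fun_prop
  have hs0 : s 0 = 0 := by simpa [hs'] using hq
  set w : ℝ → Fin n → ℍ[ℝ] := fun e =>
    -rv (m + 1) A v (μ + e) + (s e / N) • rm v (μ + e) with hw
  have hwc : Continuous w := by
    unfold rv rm at hw
    rw [hw]
    fun_prop
  have hw0 : w 0 = 0 := by simp [hw, hr, hs0]
  have hwre : ∀ e, (star v ⬝ᵥ w e).re = 0 := by
    intro e
    have h1 : star v ⬝ᵥ rm v (μ + e) = N * (μ + e) := by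
      rw [← hN']; simp [rm, dotProduct, Finset.sum_mul, mul_assoc]
    have h2 := key h hμ hx e
    rw [hw]
    simp only [dotProduct_add, dotProduct_neg, dotProduct_smul, h1, re_add, re_neg, h2]
    simp [hμ, hs']
    field_simp
    ring
  set A' : ℝ → ℕ → Mat n := fun e k => A k + (if k = 0 then D (w e) else 0) +
    (if k = 1 then (-(s e / N)) • 1 else 0) with hA'
  have hA'c : ∀ k, Continuous fun e => A' e k := by
    intro k
    simp only [hA']
    split_ifs <;> fun_prop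
  have hA'0 : ∀ k, A' 0 k = A k := fun k => by simp [hA', hw0, hD0, hs0]
  have e1 := unit_ev (hA'c (m + 1)) (by rw [hA'0]; exact h.2)
  have e2 : ∀ᶠ e in 𝓝 (0 : ℝ), ∀ k ∈ range (m + 2), ∀ a b, ‖A' e k a b - A k a b‖ < ε := by
    simp only [eventually_all_finset, eventually_all]
    intro k _ a b
    have h1 : Continuous fun e => ‖A' e k a b - A k a b‖ := by
      have := hA'c k
      fun_prop
    exact h1.continuousAt.eventually_lt continuousAt_const (by simpa [hA'0] using hε)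
  obtain ⟨e, ⟨he1, he2⟩, he0⟩ := (((e1.and e2).filter_mono nhdsWithin_le_nhds).and
    (self_mem_nhdsWithin (s := {0}ᶜ))).exists
  have hb := hs (A' e) ⟨fun k hk => ⟨fun ho => ?_, fun he => ?_⟩, he1⟩
    (fun k hk => he2 k (mem_range.mpr (by omega)))
  · have h1 : rv (m + 1) (A' e) v (μ + e) = 0 := by
      have h2 : rv (m + 1) (A' e) v (μ + e) = rv (m + 1) A v (μ + e) +
          (∑ k ∈ range (m + 2), if k = 0 then w e else 0) +
          ∑ k ∈ range (m + 2), if k = 1 then (-(s e / N)) • rm v (μ + e) else 0 := by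
        unfold rv
        rw [← Finset.sum_add_distrib, ← Finset.sum_add_distrib]
        refine Finset.sum_congr rfl fun k _ => ?_
        ext1 a
        simp only [hA', add_mulVec, rm, Pi.add_apply, add_mul]
        split_ifs with h3 h4 h4
        · omega
        · simp [h3, (hD _ (hwre e)).2]
        · simp [h4, smul_mulVec, rm, neg_mulVec]
        · simp
      rw [h2, Finset.sum_ite_eq', Finset.sum_ite_eq', if_pos (by simp), if_pos (by simp), hw]
      simp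
    have := not_bdd hb hv h1
    simp [hμ] at this
    exact he0 this
  · have h1 : k ≠ 0 := by rintro rfl; simp at ho
    simp only [hA', if_neg h1, add_zero, conjTranspose_add, (h.1 k hk).1 ho]
    split_ifs
    · congr 1
      ext1 i j
      by_cases hij : i = j
      · simp [hij, Quaternion.star_smul]
      · simp [hij, Ne.symm hij]
    · simp
  · have h1 : k ≠ 1 := by rintro rfl; simp at he
    simp only [hA', if_neg h1, add_zero, conjTranspose_add, (h.1 k hk).2 he]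
    split_ifs
    · rw [(hD _ (hwre e)).1, neg_add]
    · simp

end conc

theorem main : ∀ (l n : ℕ) (A : ℕ → Mat n), 1 ≤ l → Adm l A → StBdd l A →
    ∀ lam, IsEig (Cm l A) lam →
      Pos (Gm l A) (root (Cm l A) lam) ∨ Neg (Gm l A) (root (Cm l A) lam) := by
  intro l n A hl h hs lam ⟨x, h0, hx⟩
  obtain ⟨m, rfl⟩ : ∃ m, l = m + 1 := ⟨l - 1, by omega⟩
  obtain ⟨v, hv, -, hr⟩ := eig_struct h hx h0
  have hb : Bdd (m + 1) A := by
    obtain ⟨ε, hε, hs⟩ := hs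
    exact hs A h fun k _ a b => by simpa using hε
  exact abs_main (G_herm h) (GC_skew h) (no_neutral h hs) lam (not_bdd hb hv hr)

end H91.QGyro
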