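import Mathlib

set_option autoImplicit false

namespace H91.RegConv
open Finset
open scoped ComplexOrder Pointwise

noncomputable abbrev L (G : Type) := lp (fun _ : G => ℂ) 2

section gen
variable {G : Type} [Group G]

variable (G) in
/-- a left-invariant finitely additive probability on all subsets -/
def Amenable : Prop := ∃ m : Set G → ℝ, (∀ A, 0 ≤ m A) ∧ m Set.univ = 1 ∧
  (∀ A B, Disjoint A B → m (A ∪ B) = m A + m B) ∧ ∀ (g : G) (A : Set G), m (g • A) = m A

section
variable {E : Type} [NormedAddCommGroup E] [NormedSpace ℂ E] (ev : E → G → ℂ)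
/-- `T` commutes with every right translation `ρ_s f (x) = f (x s)`; `ev` reads vectors of `E`
as functions on `G` -/
def RightInv (T : E →L[ℂ] E) : Prop :=
  ∀ (s : G) (f g : E), (∀ x, ev g x = ev f (x * s)) → ∀ x, ev (T g) x = ev (T f) (x * s)
def Pos (P : E →L[ℂ] E) : Prop := ∀ f : E, (∀ x, 0 ≤ ev f x) → ∀ x, 0 ≤ ev (P f) x
def Regular (T : E →L[ℂ] E) : Prop := T ∈ Submodule.span ℂ {P | Pos ev P}
def Proper : Prop := ∃ T : E →L[ℂ] E, RightInv ev T ∧ ¬ Regular ev T
end
def val (f : L G) (x : G) : ℂ := f x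

omit [Group G] in
lemma sum_le (x : L G) (s : Finset G) : ∑ i ∈ s, ‖x i‖ ^ 2 ≤ ‖x‖ ^ 2 := by
  simpa using lp.sum_rpow_le_norm_rpow (p := 2) (by norm_num) x s

lemma aux (a : G) (x : L G) (s : Finset G) : ∑ i ∈ s, ‖x (a * i)‖ ^ 2 ≤ ‖x‖ ^ 2 := by
  classical
  refine le_trans ?_ (sum_le x (s.image (a * ·)))
  rw [Finset.sum_image (fun _ _ _ _ h => mul_left_cancel h)]

noncomputable def tr (a : G) : L G →L[ℂ] L G :=
  LinearMap.mkContinuous
    { toFun := fun x => ⟨fun n => x (a * n), memℓp_gen' (C := ‖x‖ ^ 2) fun s => by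
        simpa using aux a x s⟩
      map_add' := fun x y => rfl
      map_smul' := fun c x => rfl } 1 fun x => by
    rw [one_mul]
    refine lp.norm_le_of_forall_sum_le (p := 2) (by norm_num) (norm_nonneg _) fun s => ?_
    simpa using aux a x s

lemma tr_apply (a : G) (x : L G) (n : G) : tr a x n = x (a * n) := rfl
lemma tr_norm (a : G) : ‖tr a‖ ≤ 1 := LinearMap.mkContinuous_norm_le _ zero_le_one _
lemma tr_le (a : G) (f : L G) : ‖tr a f‖ ≤ ‖f‖ := by simpa using (tr a).le_of_opNorm_le (tr_norm a) f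

lemma step (a : G) (ha : a * a = 1) : ‖1 + Complex.I • tr a‖ ≤ 3 / 2 := by
  refine ContinuousLinearMap.opNorm_le_bound _ (by norm_num) fun f => ?_
  have h1 := parallelogram_law_with_norm ℂ f (Complex.I • tr a f)
  have h2 : f + Complex.I • tr a f = Complex.I • tr a (f - Complex.I • tr a f) := by
    ext x
    simp [tr_apply, ← mul_assoc, ha, mul_sub]; ring
  have h3 : ‖f + Complex.I • tr a f‖ ≤ ‖f - Complex.I • tr a f‖ := by
    rw [h2, norm_smul, Complex.norm_I, one_mul]; exact tr_le _ _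
  have h4 := tr_le a f
  rw [norm_smul, Complex.norm_I, one_mul] at h1
  show ‖f + Complex.I • tr a f‖ ≤ _
  refine le_of_sq_le_sq ?_ (by positivity)
  nlinarith [norm_nonneg (f + Complex.I • tr a f), norm_nonneg (tr a f), norm_nonneg f]

omit [Group G] in
lemma dom [DecidableEq G] {T : L G →L[ℂ] L G} (h : T ∈ Submodule.span ℂ {P : L G →L[ℂ] L G |
      ∀ f : L G, (∀ x, 0 ≤ f x) → ∀ x, 0 ≤ P f x}) :
    ∃ C : ℝ, ∀ F : Finset G, ∑ y ∈ F, ∑ x ∈ F, ‖T (lp.single 2 y 1) x‖ ≤ C * F.card := by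
  induction h using Submodule.span_induction with
  | mem P hP =>
    refine ⟨‖P‖, fun F => ?_⟩
    set u : L G := ∑ y ∈ F, lp.single 2 y 1 with hu
    have h0 : ∀ y x, 0 ≤ P (lp.single 2 y 1) x := fun y => hP _ fun x => by
      rw [lp.single_apply, Pi.single_apply]; split_ifs <;> simp
    have h1 : ‖u‖ ^ 2 = F.card := by
      simpa using lp.norm_sum_single (p := 2) (by norm_num) (fun _ : G => (1 : ℂ)) F
    have h2 : inner ℂ u (P u) = ((∑ y ∈ F, ∑ x ∈ F, ‖P (lp.single 2 y 1) x‖ : ℝ) : ℂ) := by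
      rw [hu, map_sum, inner_sum]; push_cast
      refine sum_congr rfl fun y _ => ?_
      rw [sum_inner]
      refine sum_congr rfl fun x _ => ?_
      rw [lp.inner_single_left, Complex.norm_of_nonneg' (h0 y x)]; simp
    have h3 := norm_inner_le_norm (𝕜 := ℂ) u (P u)
    rw [h2, Complex.norm_real] at h3
    have h4 := P.le_opNorm u
    refine (le_abs_self _).trans (h3.trans ?_)
    rw [← h1]; nlinarith [norm_nonneg u]
  | zero => exact ⟨0, by simp⟩
  | add S T _ _ h1 h2 =>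
    obtain ⟨C, h1⟩ := h1
    obtain ⟨D, h2⟩ := h2
    refine ⟨C + D, fun F => ?_⟩
    rw [add_mul]
    refine le_trans ?_ (add_le_add (h1 F) (h2 F))
    simp only [← sum_add_distrib]
    exact sum_le_sum fun y _ => sum_le_sum fun x _ => norm_add_le _ _
  | smul c T _ h1 =>
    obtain ⟨C, h1⟩ := h1
    refine ⟨‖c‖ * C, fun F => ?_⟩
    rw [mul_assoc]
    refine le_trans ?_ (mul_le_mul_of_nonneg_left (h1 F) (norm_nonneg _))
    simp only [mul_sum]
    exact sum_le_sum fun y _ => sum_le_sum fun x _ => (norm_smul c _).le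
end gen

abbrev G : Type := Equiv.Perm ℕ × (ℕ → ℤˣ)

lemma not_amen : ¬ Amenable G := by
  classical
  rintro ⟨m, -, h1, h2, h3⟩
  have key : ∀ A B : Set ℕ, A.Infinite → Aᶜ.Infinite → B.Infinite → Bᶜ.Infinite →
      m {g | g.1 0 ∈ A} = m {g | g.1 0 ∈ B} := by
    intro A B a1 a2 b1 b2
    have := a1.to_subtype; have := a2.to_subtype; have := b1.to_subtype; have := b2.to_subtype
    obtain ⟨e⟩ : Nonempty (A ≃ B) := inferInstance
    obtain ⟨e'⟩ : Nonempty ((Aᶜ : Set ℕ) ≃ (Bᶜ : Set ℕ)) := inferInstance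
    let σ : Equiv.Perm ℕ := Equiv.subtypeCongr (p := (· ∈ A)) (q := (· ∈ B)) e e'
    have hσ : ∀ n, σ n ∈ B ↔ n ∈ A := by
      intro n
      by_cases h : n ∈ A
      · simp [σ, Equiv.subtypeCongr, h]
      · simp only [σ, Equiv.subtypeCongr, h, iff_false]
        simpa [h] using (show (e' ⟨n, h⟩ : ℕ) ∉ B from (e' ⟨n, h⟩).2)
    rw [← h3 ((σ, 1) : G)⁻¹ {g | g.1 0 ∈ B}]
    congr 1; ext g
    rw [Set.mem_inv_smul_set_iff]; exact (hσ _).symm
  have inf : ∀ (r : ℕ) (A : Set ℕ), (∀ k, 3 * k + r ∈ A) → A.Infinite := fun r A h =>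
    Set.infinite_of_injective_forall_mem (f := fun k => 3 * k + r) (fun a b h => by simpa using h) h
  have u : ∀ A B : Set ℕ, Disjoint A B →
      m {g | g.1 0 ∈ A ∪ B} = m {g | g.1 0 ∈ A} + m {g | g.1 0 ∈ B} := fun A B h =>
    h2 _ _ (h.preimage fun g : G => g.1 0)
  have e1 := u {n | n % 3 = 0} {n | n % 3 = 1} (Set.disjoint_left.2 fun a h h' => by
    simp at h h'; omega)
  have e2 := u ({n | n % 3 = 0} ∪ {n | n % 3 = 1}) {n | n % 3 = 2} (Set.disjoint_left.2
    fun a h h' => by simp at h h'; omega)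
  have e3 : {g : G | g.1 0 ∈ ({n | n % 3 = 0} ∪ {n | n % 3 = 1}) ∪ {n | n % 3 = 2}} = Set.univ := by
    ext g; simp; omega
  have k1 := key {n | n % 3 = 0} {n | n % 3 = 1} (inf 0 _ (by simp)) (inf 1 _ (by simp))
    (inf 1 _ (by simp)) (inf 0 _ (by simp))
  have k2 := key {n | n % 3 = 0} {n | n % 3 = 2} (inf 0 _ (by simp)) (inf 1 _ (by simp))
    (inf 2 _ (by simp)) (inf 0 _ (by simp))
  have k3 := key {n | n % 3 = 0} ({n | n % 3 = 0} ∪ {n | n % 3 = 1}) (inf 0 _ (by simp))
    (inf 1 _ (by simp)) (inf 0 _ (by simp)) (inf 2 _ (by simp))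
  rw [e3, h1] at e2
  linarith

def e (j : ℕ) : G := (1, Pi.mulSingle j (-1))
lemma ee (j : ℕ) : e j * e j = 1 := by
  simp [e, ← Pi.mulSingle_mul]
def InH (N : ℕ) (x : G) : Prop := x.1 = 1 ∧ ∀ j, N ≤ j → x.2 j = 1
noncomputable def V : ℕ → L G →L[ℂ] L G
  | 0 => 1
  | N + 1 => (1 + Complex.I • tr (e N)) * V N
noncomputable def W (N : ℕ) : L G →L[ℂ] L G := ((3 / 5 : ℂ) ^ N) • (tr (e N) * V N)

lemma V_norm (N : ℕ) : ‖V N‖ ≤ (3 / 2) ^ N := by
  induction N with
  | zero => exact ContinuousLinearMap.norm_id_le.trans (by simp)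
  | succ N ih =>
    rw [V, pow_succ']
    exact (norm_mul_le _ _).trans (mul_le_mul (step _ (ee N)) ih (norm_nonneg _) (by norm_num))

lemma W_sum : Summable W := by
  refine Summable.of_norm_bounded (summable_geometric_of_lt_one (r := 9 / 10) (by norm_num)
    (by norm_num)) fun N => ?_
  rw [W, norm_smul, norm_pow, show (9 / 10 : ℝ) = 3 / 5 * (3 / 2) by norm_num, mul_pow]
  gcongr
  · simp
  · exact (norm_mul_le _ _).trans
      ((mul_le_of_le_one_left (norm_nonneg _) (tr_norm _)).trans (V_norm N))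

lemma V_inv (N : ℕ) : RightInv val (V N) := by
  intro s f g h
  unfold val at *
  induction N with
  | zero => exact h
  | succ N ih => intro x; simp [V, tr_apply, ih, mul_assoc]

lemma T_apply (f : L G) (x : G) : HasSum (fun N => (3 / 5 : ℂ) ^ N * V N f (e N * x))
    ((∑' N, W N) f x) :=
  (W_sum.hasSum.mapL (ContinuousLinearMap.apply ℂ _ f)).mapL (lp.evalCLM ℂ (fun _ : G => ℂ) 2 x)

lemma e_ne {N j : ℕ} (h : j ≠ N) (x : G) : (e N * x).2 j = x.2 j := by simp [e, h]
lemma e_eq (N : ℕ) (x : G) : (e N * x).2 N = -x.2 N := by simp [e]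
lemma e_fst (N : ℕ) (x : G) : (e N * x).1 = x.1 := by simp [e]

open Classical in
lemma V_ker (N : ℕ) (x : G) : ‖V N (lp.single 2 1 1) x‖ = if InH N x then 1 else 0 := by
  induction N generalizing x with
  | zero =>
    have : InH 0 x ↔ x = 1 := by simp [InH, Prod.ext_iff, funext_iff]
    rw [this]
    simp only [V, one_apply_eq_self, lp.single_apply, Pi.single_apply]; split_ifs <;> simp
  | succ N ih =>
    have h1 : V (N + 1) (lp.single 2 1 1) x = V N (lp.single 2 1 1) x +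
        Complex.I * V N (lp.single 2 1 1) (e N * x) := by simp [V, tr_apply]
    have a := ih x
    have b := ih (e N * x)
    have c1 : InH N x ↔ InH (N + 1) x ∧ x.2 N = 1 :=
      ⟨fun h => ⟨⟨h.1, fun j hj => h.2 j (by omega)⟩, h.2 N le_rfl⟩, fun h => ⟨h.1.1, fun j hj => by
        rcases hj.eq_or_lt with rfl | hj
        exacts [h.2, h.1.2 j hj]⟩⟩
    have c2 : InH N (e N * x) ↔ InH (N + 1) x ∧ x.2 N = -1 :=
      ⟨fun h => ⟨⟨e_fst N x ▸ h.1, fun j hj => e_ne (N := N) (j := j) (by omega) x ▸ h.2 j (by omega)⟩,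
        neg_eq_iff_eq_neg.1 (e_eq N x ▸ h.2 N le_rfl)⟩, fun h => ⟨(e_fst N x).trans h.1.1, fun j hj => by
        rcases hj.eq_or_lt with rfl | hj
        · rw [e_eq, h.2, neg_neg]
        · rw [e_ne hj.ne', h.1.2 j hj]⟩⟩
    rw [c1] at a; rw [c2] at b; rw [h1]
    by_cases h : InH (N + 1) x
    · rcases Int.units_eq_one_or (x.2 N) with h' | h' <;> simp [h, h'] at a b ⊢ <;> simp [a, b]
    · simp [h] at a b ⊢; simp [a, b]

open Classical in
lemma T_ker (N : ℕ) (z : G) (hz : InH N z) :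
    ‖(∑' N, W N) (lp.single 2 1 1) (e N * z)‖ = (3 / 5) ^ N := by
  rw [(T_apply _ _).unique (hasSum_single N fun M hM => ?_), ← mul_assoc, ee, one_mul, norm_mul,
    V_ker, if_pos hz]
  · simp
  · rw [mul_eq_zero, ← norm_eq_zero (a := V M _ _), V_ker, if_neg]
    · simp
    · intro h
      rcases lt_or_gt_of_ne hM with h' | h'
      · have := h.2 N h'.le
        rw [e_ne h'.ne', e_eq, hz.2 N le_rfl] at this
        exact absurd this (by decide)
      · have := h.2 M le_rfl
        rw [e_eq, e_ne h'.ne', hz.2 M h'.le] at this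
        exact absurd this (by decide)

lemma fin (N : ℕ) : ∃ F : Finset G, F.card = 2 ^ N ∧ ∀ x, x ∈ F ↔ InH N x := by
  classical
  let f : (Fin N → ℤˣ) → G := fun v => (1, fun j => if h : j < N then v ⟨j, h⟩ else 1)
  refine ⟨univ.image f, ?_, fun x => ?_⟩
  · rw [card_image_of_injective]
    · simp
    · intro v w h; funext j
      simpa [f] using congrFun (congrArg Prod.snd h) j
  · simp only [mem_image, mem_univ, true_and]
    constructor
    · rintro ⟨v, rfl⟩; exact ⟨rfl, fun j hj => dif_neg (by omega)⟩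
    · intro h
      refine ⟨fun j => x.2 j, Prod.ext h.1.symm (funext fun j => ?_)⟩
      by_cases hj : j < N
      · simp [f, hj]
      · simp [f, hj, h.2 j (by omega)]

theorem main : ∃ (G : Type) (_ : Group G), ¬ Amenable G ∧ Proper (val (G := G)) := by
  classical
  have hT : RightInv val (∑' N, W N) := fun s f g h x =>
    (T_apply g x).unique ((T_apply f (x * s)).congr_fun fun N => by
      rw [show V N g _ = V N f _ from V_inv N s f g h _, mul_assoc])
  have hT2 := hT
  unfold RightInv val at hT2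
  refine ⟨G, inferInstance, not_amen, _, hT, fun h => ?_⟩
  obtain ⟨C, hC⟩ := dom h
  obtain ⟨N, hN⟩ := pow_unbounded_of_one_lt C (show (1 : ℝ) < 2 * (3 / 5) by norm_num)
  obtain ⟨F, hF, hF'⟩ := fin (N + 1)
  obtain ⟨E, hE, hE'⟩ := fin N
  have key : ∀ y ∈ F, (2 * (3 / 5) : ℝ) ^ N ≤ ∑ x ∈ F, ‖(∑' N, W N) (lp.single 2 y 1) x‖ := by
    intro y hy
    refine le_trans ?_ (sum_le_sum_of_subset_of_nonneg (s := E.image fun z => e N * z * y) ?_
      fun _ _ _ => norm_nonneg _)
    · rw [sum_image fun a _ b _ h => by simpa using h, sum_congr rfl (g := fun _ => (3 / 5 : ℝ) ^ N)]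
      · simp [hE, mul_pow]
      · intro z hz
        rw [hT2 y⁻¹ (lp.single 2 1 1) _ fun x => by
          simp [lp.single_apply, Pi.single_apply, mul_inv_eq_one], mul_inv_cancel_right]
        exact T_ker N z ((hE' z).1 hz)
    · intro x hx
      obtain ⟨z, hz, rfl⟩ := mem_image.1 hx
      obtain ⟨a, b⟩ := (hE' z).1 hz
      obtain ⟨c, d⟩ := (hF' y).1 hy
      refine (hF' _).2 ⟨by rw [Prod.fst_mul, e_fst, a, c, mul_one], fun j hj => ?_⟩
      rw [Prod.snd_mul, Pi.mul_apply, e_ne (by omega), b j (by omega), d j hj, mul_one]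
  have := (sum_le_sum key).trans (hC F)
  rw [sum_const, nsmul_eq_mul, mul_comm] at this
  have h0 : (0 : ℝ) < F.card := by rw [hF]; positivity
  exact absurd (le_of_mul_le_mul_right this h0) (not_le.2 hN)

end H91.RegConv
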