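import Mathlib

set_option autoImplicit false

namespace Pool.Agent.H91.Retr

open Finset

variable {X : Type} [NormedAddCommGroup X] [NormedSpace ℝ X]

/-- chains in `S` with steps at most `t` -/
def Conn (S : Finset X) (t : ℝ) (a b : X) : Prop :=
  Relation.ReflTransGen (fun x y => x ∈ S ∧ y ∈ S ∧ dist x y ≤ t) a b

open Classical in
/-- minimal separation -/
noncomputable def dl (S : Finset X) : ℝ :=
  if h : S.offDiag.Nonempty then S.offDiag.inf' h (fun p => dist p.1 p.2) else 0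

noncomputable def v (S : Finset X) (a b : X) : ℝ := sInf {t | dl S ≤ t ∧ Conn S t a b}

noncomputable def w (S : Finset X) (a b : X) : ℝ := max 0 (2 * dl S - v S a b)

noncomputable def W (S : Finset X) (a : X) : ℝ := ∑ b ∈ S, w S a b

noncomputable def R (S : Finset X) (a : X) : X := ∑ b ∈ S, (w S a b / W S a) • b

omit [NormedSpace ℝ X] in
lemma dl_le (S : Finset X) {a b : X} (ha : a ∈ S) (hb : b ∈ S) (hab : a ≠ b) :
    dl S ≤ dist a b := by
  classical
  have hm : (a, b) ∈ S.offDiag := by simp [mem_offDiag, ha, hb, hab]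
  unfold dl
  rw [dif_pos ⟨_, hm⟩]
  exact inf'_le (fun p : X × X => dist p.1 p.2) hm

omit [NormedSpace ℝ X] in
lemma dl_ex (S : Finset X) (h : 2 ≤ S.card) :
    ∃ a ∈ S, ∃ b ∈ S, a ≠ b ∧ dist a b = dl S := by
  classical
  obtain ⟨a, ha, b, hb, hab⟩ := Finset.one_lt_card.1 h
  have hm : (a, b) ∈ S.offDiag := by simp [mem_offDiag, ha, hb, hab]
  obtain ⟨p, hp, he⟩ := exists_mem_eq_inf' (⟨_, hm⟩ : S.offDiag.Nonempty)
    (fun p : X × X => dist p.1 p.2)
  rw [mem_offDiag] at hp
  refine ⟨p.1, hp.1, p.2, hp.2.1, hp.2.2, ?_⟩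
  unfold dl
  rw [dif_pos ⟨_, hm⟩, he]

omit [NormedSpace ℝ X] in
lemma dl_pos (S : Finset X) (h : 2 ≤ S.card) : 0 < dl S := by
  obtain ⟨a, -, b, -, hab, he⟩ := dl_ex S h
  rw [← he]; exact dist_pos.2 hab

omit [NormedSpace ℝ X] in
lemma bdd (S : Finset X) (a b : X) : BddBelow {t | dl S ≤ t ∧ Conn S t a b} :=
  ⟨dl S, fun _ ht => ht.1⟩

omit [NormedSpace ℝ X] in
lemma ne (S : Finset X) {a b : X} (ha : a ∈ S) (hb : b ∈ S) :
    {t | dl S ≤ t ∧ Conn S t a b}.Nonempty :=
  ⟨max (dl S) (dist a b), le_max_left _ _,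
    Relation.ReflTransGen.single ⟨ha, hb, le_max_right _ _⟩⟩

omit [NormedSpace ℝ X] in
lemma v_ge (S : Finset X) {a b : X} (ha : a ∈ S) (hb : b ∈ S) : dl S ≤ v S a b :=
  le_csInf (ne S ha hb) fun _ ht => ht.1

omit [NormedSpace ℝ X] in
lemma v_self (S : Finset X) {a : X} (ha : a ∈ S) : v S a a = dl S :=
  le_antisymm (csInf_le (bdd S a a) ⟨le_rfl, Relation.ReflTransGen.refl⟩) (v_ge S ha ha)

omit [NormedSpace ℝ X] in
lemma v_eq (S : Finset X) {a a' : X} (ha : a ∈ S) (ha' : a' ∈ S) (h : dist a a' = dl S) (b : X) :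
    v S a b = v S a' b := by
  unfold v
  congr 1
  ext t
  constructor
  · rintro ⟨h1, h2⟩
    exact ⟨h1, Relation.ReflTransGen.head ⟨ha', ha, by rw [dist_comm, h]; exact h1⟩ h2⟩
  · rintro ⟨h1, h2⟩
    exact ⟨h1, Relation.ReflTransGen.head ⟨ha, ha', by rw [h]; exact h1⟩ h2⟩

omit [NormedSpace ℝ X] in
lemma conn_bound (S : Finset X) {t : ℝ} (ht : 0 ≤ t) {a b : X} (h : Conn S t a b) :
    dist a b ≤ t * S.card := by
  classical
  have key : ∀ s : ℝ, s ≤ dist a b → s ≤ t * (S.filter (fun y => dist a y < s)).card := by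
    induction h with
    | refl =>
      intro s hs
      simp only [dist_self] at hs
      exact hs.trans (by positivity)
    | @tail x y _ hxy ih =>
      intro s hs
      by_cases hsx : s ≤ dist a x
      · exact ih s hsx
      · push Not at hsx
        have h1 := ih (dist a x) le_rfl
        have h2 : (S.filter (fun y => dist a y < dist a x)).card + 1 ≤
            (S.filter (fun y => dist a y < s)).card := by
          have hn : x ∉ S.filter (fun y => dist a y < dist a x) := by simp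
          rw [← card_insert_of_notMem hn]
          apply card_le_card
          intro z hz
          rw [mem_insert] at hz
          rcases hz with rfl | hz
          · exact mem_filter.2 ⟨hxy.1, hsx⟩
          · rw [mem_filter] at hz ⊢
            exact ⟨hz.1, hz.2.trans hsx⟩
        have h3 : ((S.filter (fun y => dist a y < dist a x)).card : ℝ) + 1 ≤
            (S.filter (fun y => dist a y < s)).card := by exact_mod_cast h2
        have h4 := dist_triangle a x y
        have h5 := hxy.2.2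
        nlinarith
  have h1 := key _ le_rfl
  have h2 : ((S.filter (fun y => dist a y < dist a b)).card : ℝ) ≤ S.card := by
    exact_mod_cast card_filter_le _ _
  nlinarith

omit [NormedSpace ℝ X] in
lemma w_nonneg (S : Finset X) (a b : X) : 0 ≤ w S a b := le_max_left _ _

omit [NormedSpace ℝ X] in
lemma w_supp (S : Finset X) (h : 2 ≤ S.card) {a b : X} (ha : a ∈ S) (hb : b ∈ S)
    (hw : w S a b ≠ 0) : dist a b ≤ 2 * dl S * S.card := by
  have h1 : v S a b < 2 * dl S := by
    by_contra hc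
    push Not at hc
    apply hw
    unfold w
    exact max_eq_left (by linarith)
  obtain ⟨t, ht, htl⟩ := exists_lt_of_csInf_lt (ne S ha hb) h1
  have h2 := conn_bound S ((dl_pos S h).le.trans ht.1) ht.2
  have h3 : (0 : ℝ) ≤ S.card := by positivity
  nlinarith

omit [NormedSpace ℝ X] in
lemma W_ge (S : Finset X) {a : X} (ha : a ∈ S) : dl S ≤ W S a := by
  have h1 : w S a a ≤ W S a := single_le_sum (f := fun b => w S a b) (fun b _ => w_nonneg S a b) ha
  have h2 : dl S ≤ w S a a := by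
    unfold w
    rw [v_self S ha]
    exact le_max_of_le_right (by linarith)
  linarith

omit [NormedSpace ℝ X] in
lemma sum_one (S : Finset X) (h : 2 ≤ S.card) {a : X} (ha : a ∈ S) :
    ∑ b ∈ S, w S a b / W S a = 1 := by
  rw [← sum_div]
  exact div_self ((dl_pos S h).trans_le (W_ge S ha)).ne'

lemma R_near (S : Finset X) (h : 2 ≤ S.card) {a : X} (ha : a ∈ S) :
    dist a (R S a) ≤ 2 * dl S * S.card := by
  have hW := (dl_pos S h).trans_le (W_ge S ha)
  have e : a - R S a = ∑ b ∈ S, (w S a b / W S a) • (a - b) := by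
    simp only [smul_sub, sum_sub_distrib, ← sum_smul, sum_one S h ha, one_smul, R]
  rw [dist_eq_norm, e]
  calc _ ≤ ∑ b ∈ S, ‖(w S a b / W S a) • (a - b)‖ := norm_sum_le _ _
    _ ≤ ∑ b ∈ S, (w S a b / W S a) * (2 * dl S * S.card) := by
        apply sum_le_sum
        intro b hb
        have hn : 0 ≤ w S a b / W S a := div_nonneg (w_nonneg S a b) hW.le
        rw [norm_smul, Real.norm_of_nonneg hn]
        by_cases hw : w S a b = 0
        · simp [hw]
        · apply mul_le_mul_of_nonneg_left _ hn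
          rw [← dist_eq_norm]
          exact w_supp S h ha hb hw
    _ = _ := by rw [← sum_mul, sum_one S h ha, one_mul]

lemma R_eq (S : Finset X) {a a' : X} (ha : a ∈ S) (ha' : a' ∈ S) (h : dist a a' = dl S) :
    R S a = R S a' := by
  simp only [R, W, w, v_eq S ha ha' h]

open Classical in
lemma card_image (S : Finset X) (h : 2 ≤ S.card) : (S.image (R S)).card ≤ S.card - 1 := by
  obtain ⟨a, ha, b, hb, hab, he⟩ := dl_ex S h
  have : S.image (R S) ⊆ (S.erase a).image (R S) := by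
    intro y hy
    obtain ⟨x, hx, rfl⟩ := mem_image.1 hy
    by_cases hxa : x = a
    · subst hxa
      exact mem_image.2 ⟨b, mem_erase.2 ⟨hab.symm, hb⟩, (R_eq S ha hb he).symm⟩
    · exact mem_image.2 ⟨x, mem_erase.2 ⟨hxa, hx⟩, rfl⟩
  calc _ ≤ ((S.erase a).image (R S)).card := card_le_card this
    _ ≤ (S.erase a).card := card_image_le
    _ = _ := card_erase_of_mem ha

omit [NormedSpace ℝ X] in
lemma dl_lip (S T : Finset X) (h : 2 ≤ S.card) (σ : X → X) (d : ℝ)
    (hm : ∀ x ∈ S, σ x ∈ T) (hi : Set.InjOn σ S) (hd : ∀ x ∈ S, dist x (σ x) ≤ d) :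
    dl T ≤ dl S + 2 * d := by
  obtain ⟨a, ha, b, hb, hab, he⟩ := dl_ex S h
  have h1 := dl_le T (hm a ha) (hm b hb) (fun hc => hab (hi ha hb hc))
  have h2 := dist_triangle4 (σ a) a b (σ b)
  have h3 := hd a ha
  have h4 := hd b hb
  rw [dist_comm (σ a) a] at h2
  linarith

omit [NormedSpace ℝ X] in
lemma v_lip (S T : Finset X) (h : 2 ≤ S.card) (σ : X → X) (d : ℝ)
    (hm : ∀ x ∈ S, σ x ∈ T) (hi : Set.InjOn σ S) (hd : ∀ x ∈ S, dist x (σ x) ≤ d)
    {a b : X} (ha : a ∈ S) (hb : b ∈ S) : v T (σ a) (σ b) ≤ v S a b + 2 * d := by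
  have h0 := dl_lip S T h σ d hm hi hd
  rw [← sub_le_iff_le_add]
  apply le_csInf (ne S ha hb)
  rintro t ⟨h1, h2⟩
  rw [sub_le_iff_le_add]
  apply csInf_le (bdd T _ _)
  refine ⟨by linarith, ?_⟩
  clear hb
  induction h2 with
  | refl => exact Relation.ReflTransGen.refl
  | @tail x y _ hxy ih =>
    refine Relation.ReflTransGen.tail ih ⟨hm x hxy.1, hm y hxy.2.1, ?_⟩
    have h2 := dist_triangle4 (σ x) x y (σ y)
    have h3 := hd x hxy.1
    have h4 := hd y hxy.2.1
    have h5 := hxy.2.2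
    rw [dist_comm (σ x) x] at h2
    linarith

lemma ratio (p q P Q c C δ : ℝ) (hδ : 0 < δ) (hP : δ ≤ P) (hQ : 0 < Q) (hq0 : 0 ≤ q) (hq : q ≤ Q)
    (h1 : |q - p| ≤ c) (h2 : |P - Q| ≤ C) : |q / Q - p / P| ≤ (c + C) / δ := by
  have hP0 : 0 < P := hδ.trans_le hP
  have e : q / Q - p / P = ((q - p) + (q / Q) * (P - Q)) / P := by field_simp; ring
  have hr : q / Q ≤ 1 := (div_le_one hQ).2 hq
  have hr0 : 0 ≤ q / Q := by positivity
  have hc : 0 ≤ c := (abs_nonneg _).trans h1
  have hC : 0 ≤ C := (abs_nonneg _).trans h2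
  rw [e, abs_div, abs_of_pos hP0]
  apply div_le_div₀ (by positivity) _ hδ hP
  calc _ ≤ |q - p| + |(q / Q) * (P - Q)| := abs_add_le _ _
    _ ≤ c + C := by
        rw [abs_mul, abs_of_nonneg hr0]
        have := mul_le_mul hr h2 (abs_nonneg _) zero_le_one
        linarith

open Classical in
lemma R_lip (S : Finset X) (h : 2 ≤ S.card) (σ : X → X) (d : ℝ) (hdd : 4 * d ≤ dl S)
    (hi : Set.InjOn σ S) (hd : ∀ x ∈ S, dist x (σ x) ≤ d) {a : X} (ha : a ∈ S) :
    dist (R S a) (R (S.image σ) (σ a)) ≤ (1 + 24 * (S.card : ℝ) ^ 2 * (1 + S.card)) * d := by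
  set T := S.image σ with hT
  have hm : ∀ x ∈ S, σ x ∈ T := fun x hx => mem_image_of_mem σ hx
  have hcT : T.card = S.card := card_image_of_injOn hi
  have h' : 2 ≤ T.card := hcT ▸ h
  have hd0 : 0 ≤ d := dist_nonneg.trans (hd a ha)
  let τ : X → X := Function.invFunOn σ S
  have hτ : ∀ x ∈ S, τ (σ x) = x := fun x hx => hi.leftInvOn_invFunOn hx
  have hm' : ∀ y ∈ T, τ y ∈ S := by
    intro y hy
    obtain ⟨x, hx, rfl⟩ := mem_image.1 hy
    rw [hτ x hx]; exact hx
  have hi' : Set.InjOn τ T := by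
    intro y hy y' hy' he
    obtain ⟨x, hx, rfl⟩ := mem_image.1 (mem_coe.1 hy)
    obtain ⟨x', hx', rfl⟩ := mem_image.1 (mem_coe.1 hy')
    rw [hτ x hx, hτ x' hx'] at he
    rw [he]
  have hd' : ∀ y ∈ T, dist y (τ y) ≤ d := by
    intro y hy
    obtain ⟨x, hx, rfl⟩ := mem_image.1 hy
    rw [hτ x hx, dist_comm]; exact hd x hx
  have a1 := dl_lip S T h σ d hm hi hd
  have a2 := dl_lip T S h' τ d hm' hi' hd'
  have hδ := dl_pos S h
  have hw : ∀ b ∈ S, |w T (σ a) (σ b) - w S a b| ≤ 6 * d := by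
    intro b hb
    have b1 := v_lip S T h σ d hm hi hd ha hb
    have b2 := v_lip T S h' τ d hm' hi' hd' (hm a ha) (hm b hb)
    rw [hτ a ha, hτ b hb] at b2
    unfold w
    rw [max_comm 0, max_comm 0]
    refine (abs_max_sub_max_le_abs _ _ _).trans ?_
    rw [abs_le]; constructor <;> linarith
  have hWT : W T (σ a) = ∑ b ∈ S, w T (σ a) (σ b) := by
    unfold W
    rw [hT, sum_image hi]
  have hWW : |W S a - W T (σ a)| ≤ S.card * (6 * d) := by
    rw [hWT, W, ← sum_sub_distrib]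
    refine (abs_sum_le_sum_abs _ _).trans ?_
    calc _ ≤ ∑ b ∈ S, 6 * d := sum_le_sum fun b hb => by rw [abs_sub_comm]; exact hw b hb
      _ = _ := by rw [sum_const, nsmul_eq_mul]
  have hWT0 : 0 < W T (σ a) := (dl_pos T h').trans_le (W_ge T (hm a ha))
  have s1 := sum_one S h ha
  have s2 : ∑ b ∈ S, w T (σ a) (σ b) / W T (σ a) = 1 := by
    rw [← sum_div, ← hWT]; exact div_self hWT0.ne'
  have eT : R T (σ a) = ∑ b ∈ S, (w T (σ a) (σ b) / W T (σ a)) • σ b := by
    unfold R
    rw [hT, sum_image hi]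
  have e : R T (σ a) - R S a = ∑ b ∈ S, (w T (σ a) (σ b) / W T (σ a)) • (σ b - b) +
      ∑ b ∈ S, (w T (σ a) (σ b) / W T (σ a) - w S a b / W S a) • (b - a) := by
    rw [eT]
    simp only [smul_sub, sub_smul, sum_sub_distrib, ← sum_smul, s1, s2, R]
    abel
  have n1 : ‖∑ b ∈ S, (w T (σ a) (σ b) / W T (σ a)) • (σ b - b)‖ ≤ d := by
    calc _ ≤ ∑ b ∈ S, ‖(w T (σ a) (σ b) / W T (σ a)) • (σ b - b)‖ := norm_sum_le _ _
      _ ≤ ∑ b ∈ S, (w T (σ a) (σ b) / W T (σ a)) * d := by
          apply sum_le_sum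
          intro b hb
          have hn : 0 ≤ w T (σ a) (σ b) / W T (σ a) := div_nonneg (w_nonneg _ _ _) hWT0.le
          rw [norm_smul, Real.norm_of_nonneg hn]
          apply mul_le_mul_of_nonneg_left _ hn
          rw [← dist_eq_norm, dist_comm]
          exact hd b hb
      _ = d := by rw [← sum_mul, s2, one_mul]
  have hn1 : (1 : ℝ) ≤ S.card := by
    have : (2 : ℝ) ≤ S.card := by exact_mod_cast h
    linarith
  have n2 : ‖∑ b ∈ S, (w T (σ a) (σ b) / W T (σ a) - w S a b / W S a) • (b - a)‖ ≤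
      S.card * ((6 * d + S.card * (6 * d)) / dl S * (4 * dl S * S.card)) := by
    calc _ ≤ ∑ b ∈ S, ‖(w T (σ a) (σ b) / W T (σ a) - w S a b / W S a) • (b - a)‖ :=
          norm_sum_le _ _
      _ ≤ ∑ b ∈ S, (6 * d + S.card * (6 * d)) / dl S * (4 * dl S * S.card) := by
          apply sum_le_sum
          intro b hb
          rw [norm_smul, Real.norm_eq_abs]
          by_cases hz : w T (σ a) (σ b) = 0 ∧ w S a b = 0
          · rw [hz.1, hz.2]
            simp only [zero_div, sub_self, abs_zero, zero_mul]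
            positivity
          · have hq : w T (σ a) (σ b) ≤ W T (σ a) :=
              single_le_sum (f := fun y => w T (σ a) y) (fun y _ => w_nonneg _ _ y) (hm b hb)
            apply mul_le_mul (ratio _ _ _ _ _ _ _ hδ (W_ge S ha) hWT0 (w_nonneg _ _ _) hq
              (hw b hb) hWW) _ (norm_nonneg _) (by positivity)
            rw [← dist_eq_norm, dist_comm]
            rw [not_and_or] at hz
            rcases hz with hz | hz
            · have c1 := w_supp T h' (hm a ha) (hm b hb) hz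
              rw [hcT] at c1
              have c2 := dist_triangle4 a (σ a) (σ b) b
              have c3 := hd a ha
              have c4 := hd b hb
              rw [dist_comm (σ b) b] at c2
              have c5 : dl T ≤ 3 / 2 * dl S := by linarith
              nlinarith
            · have c1 := w_supp S h ha hb hz
              nlinarith
      _ = _ := by rw [sum_const, nsmul_eq_mul]
  rw [dist_comm, dist_eq_norm, e]
  refine (norm_add_le _ _).trans ((add_le_add n1 n2).trans (le_of_eq ?_))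
  field_simp
  ring

open Classical in
noncomputable def rF (n : ℕ) (S : Finset X) : Finset X :=
  if S.card = n then S.image (R S) else S

open Classical in
noncomputable def D (n : ℕ) (S : Finset X) : ℝ := if S.card = n then dl S else 0

lemma rF_near (n : ℕ) (hn : 2 ≤ n) (S : Finset X) :
    (∀ a ∈ S, ∃ b ∈ rF n S, dist a b ≤ 2 * D n S * n) ∧
    (∀ b ∈ rF n S, ∃ a ∈ S, dist a b ≤ 2 * D n S * n) := by
  classical
  unfold rF D
  split_ifs with h
  · have h2 : 2 ≤ S.card := h ▸ hn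
    constructor
    · intro a ha
      exact ⟨R S a, mem_image_of_mem _ ha, h ▸ R_near S h2 ha⟩
    · intro b hb
      obtain ⟨a, ha, rfl⟩ := mem_image.1 hb
      exact ⟨a, ha, h ▸ R_near S h2 ha⟩
  · constructor
    · intro a ha; exact ⟨a, ha, by simp⟩
    · intro a ha; exact ⟨a, ha, by simp⟩

lemma near_case (n : ℕ) (hn : 2 ≤ n) (S T : Finset X) (hT : T.card ≤ n) (d : ℝ) (hd0 : 0 ≤ d)
    (h1 : ∀ a ∈ S, ∃ b ∈ T, dist a b ≤ d) (hD : 4 * d < D n S) :
    (∀ x ∈ rF n S, ∃ y ∈ rF n T, dist x y ≤ (1 + 24 * (n : ℝ) ^ 2 * (1 + n)) * d) ∧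
    (∀ y ∈ rF n T, ∃ x ∈ rF n S, dist x y ≤ (1 + 24 * (n : ℝ) ^ 2 * (1 + n)) * d) := by
  classical
  have hS : S.card = n := by
    by_contra hc
    unfold D at hD
    rw [if_neg hc] at hD
    linarith
  have hD' : 4 * d < dl S := by
    unfold D at hD
    rwa [if_pos hS] at hD
  have h2 : 2 ≤ S.card := hS ▸ hn
  choose! σ hσT hσ using h1
  have hi : Set.InjOn σ S := by
    intro a ha b hb he
    by_contra hab
    have c1 := dl_le S ha hb hab
    have c2 := dist_triangle_right a b (σ a)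
    have c3 := hσ a ha
    have c4 := hσ b hb
    rw [← he] at c4
    linarith
  have hsub : S.image σ ⊆ T := by
    intro y hy
    obtain ⟨x, hx, rfl⟩ := mem_image.1 hy
    exact hσT x hx
  have hcard : (S.image σ).card = n := by rw [card_image_of_injOn hi, hS]
  have hTe : S.image σ = T := eq_of_subset_of_card_le hsub (by rw [hcard]; exact hT)
  have hTc : T.card = n := hTe ▸ hcard
  have key : ∀ a ∈ S, dist (R S a) (R T (σ a)) ≤ (1 + 24 * (n : ℝ) ^ 2 * (1 + n)) * d := by
    intro a ha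
    have := R_lip S h2 σ d hD'.le hi hσ ha
    rw [hS] at this
    convert this using 3
    convert hTe.symm
  unfold rF
  rw [if_pos hS, if_pos hTc]
  constructor
  · intro x hx
    obtain ⟨a, ha, rfl⟩ := mem_image.1 hx
    exact ⟨_, mem_image_of_mem _ (hσT a ha), key a ha⟩
  · intro y hy
    obtain ⟨b, hb, rfl⟩ := mem_image.1 hy
    rw [← hTe] at hb
    obtain ⟨a, ha, rfl⟩ := mem_image.1 hb
    exact ⟨_, mem_image_of_mem _ ha, key a ha⟩

lemma lip (n : ℕ) (hn : 2 ≤ n) (S T : Finset X) (hS : S.card ≤ n) (hT : T.card ≤ n) (d : ℝ)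
    (hd0 : 0 ≤ d) (h1 : ∀ a ∈ S, ∃ b ∈ T, dist a b ≤ d) (h2 : ∀ b ∈ T, ∃ a ∈ S, dist b a ≤ d) :
    Metric.hausdorffDist (rF n S : Set X) (rF n T : Set X) ≤
      (1 + 24 * (n : ℝ) ^ 2 * (1 + n)) * d := by
  have hL : 0 ≤ (1 + 24 * (n : ℝ) ^ 2 * (1 + n)) * d := by positivity
  by_cases c1 : 4 * d < D n S
  · obtain ⟨k1, k2⟩ := near_case n hn S T hT d hd0 h1 c1
    apply Metric.hausdorffDist_le_of_mem_dist hL k1
    intro y hy
    obtain ⟨x, hx, h⟩ := k2 y hy
    exact ⟨x, hx, by rwa [dist_comm]⟩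
  by_cases c2 : 4 * d < D n T
  · obtain ⟨k1, k2⟩ := near_case n hn T S hS d hd0 h2 c2
    apply Metric.hausdorffDist_le_of_mem_dist hL _ k1
    intro y hy
    obtain ⟨x, hx, h⟩ := k2 y hy
    exact ⟨x, hx, by rwa [dist_comm]⟩
  push Not at c1 c2
  have hn' : (2 : ℝ) ≤ n := by exact_mod_cast hn
  have e1 : 2 * D n S * n ≤ 8 * d * n := by nlinarith
  have e2 : 2 * D n T * n ≤ 8 * d * n := by nlinarith
  have e3 : 8 * d * n + d + 8 * d * n ≤ (1 + 24 * (n : ℝ) ^ 2 * (1 + n)) * d := by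
    have : 16 * (n : ℝ) ≤ 24 * (n : ℝ) ^ 2 * (1 + n) := by nlinarith
    nlinarith
  obtain ⟨s1, s2⟩ := rF_near n hn S
  obtain ⟨t1, t2⟩ := rF_near n hn T
  apply Metric.hausdorffDist_le_of_mem_dist hL
  · intro x hx
    obtain ⟨a, ha, p1⟩ := s2 x hx
    obtain ⟨b, hb, p2⟩ := h1 a ha
    obtain ⟨y, hy, p3⟩ := t1 b hb
    refine ⟨y, hy, ?_⟩
    have := dist_triangle4 x a b y
    rw [dist_comm x a] at this
    linarith
  · intro x hx
    obtain ⟨a, ha, p1⟩ := t2 x hx
    obtain ⟨b, hb, p2⟩ := h2 a ha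
    obtain ⟨y, hy, p3⟩ := s1 b hb
    refine ⟨y, hy, ?_⟩
    have := dist_triangle4 x a b y
    rw [dist_comm x a] at this
    linarith

omit [NormedSpace ℝ X] in
lemma ex_near (S T : Set X) (hS : S.Finite) (hT : T.Finite) (nS : S.Nonempty) (nT : T.Nonempty)
    (a : X) (ha : a ∈ S) : ∃ b ∈ T, dist a b ≤ Metric.hausdorffDist S T := by
  obtain ⟨b, hb, he⟩ := hT.isCompact.exists_infDist_eq_dist nT a
  refine ⟨b, hb, ?_⟩
  rw [← he]
  exact Metric.infDist_le_hausdorffDist_of_mem ha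
    (Metric.hausdorffEDist_ne_top_of_nonempty_of_bounded nS nT hS.isBounded hT.isBounded)

open Classical in
noncomputable def r (n : ℕ) (S : Set X) : Set X :=
  if h : S.Finite then (rF n h.toFinset : Set X) else S

theorem main (n : ℕ) (hn : 2 ≤ n) :
    ∃ (r : Set X → Set X) (L : ℝ),
        (∀ S : Set X, S.Nonempty → S.Finite → S.ncard ≤ n →
          (r S).Nonempty ∧ (r S).Finite ∧ (r S).ncard ≤ n - 1) ∧
        (∀ S : Set X, S.Nonempty → S.Finite → S.ncard ≤ n - 1 → r S = S) ∧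
        (∀ S T : Set X, S.Nonempty → S.Finite → S.ncard ≤ n →
          T.Nonempty → T.Finite → T.ncard ≤ n →
          Metric.hausdorffDist (r S) (r T) ≤ L * Metric.hausdorffDist S T) := by
  classical
  refine ⟨r n, 1 + 24 * (n : ℝ) ^ 2 * (1 + n), ?_, ?_, ?_⟩
  · intro S nS hS hc
    unfold r
    rw [dif_pos hS]
    rw [Set.ncard_eq_toFinset_card S hS] at hc
    refine ⟨?_, finite_toSet _, ?_⟩
    · obtain ⟨a, ha⟩ := nS
      obtain ⟨b, hb, -⟩ := (rF_near n hn hS.toFinset).1 a (hS.mem_toFinset.2 ha)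
      exact ⟨b, hb⟩
    · rw [Set.ncard_coe_finset]
      unfold rF
      split_ifs with h
      · have := card_image hS.toFinset (h ▸ hn)
        rw [h] at this
        convert this
      · omega
  · intro S nS hS hc
    unfold r
    rw [dif_pos hS]
    rw [Set.ncard_eq_toFinset_card S hS] at hc
    unfold rF
    rw [if_neg (by omega)]
    simp
  · intro S T nS hS cS nT hT cT
    unfold r
    rw [dif_pos hS, dif_pos hT]
    rw [Set.ncard_eq_toFinset_card S hS] at cS
    rw [Set.ncard_eq_toFinset_card T hT] at cT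
    apply lip n hn _ _ cS cT _ Metric.hausdorffDist_nonneg
    · intro a ha
      obtain ⟨b, hb, h⟩ := ex_near S T hS hT nS nT a (hS.mem_toFinset.1 ha)
      exact ⟨b, hT.mem_toFinset.2 hb, h⟩
    · intro a ha
      obtain ⟨b, hb, h⟩ := ex_near T S hT hS nT nS a (hT.mem_toFinset.1 ha)
      exact ⟨b, hS.mem_toFinset.2 hb, by rwa [Metric.hausdorffDist_comm]⟩

end Pool.Agent.H91.Retr
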