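import Pool.Agent.H91.ML1

set_option autoImplicit false

namespace Pool.Agent.H91.Roy

open Set Filter Topology MeasureTheory Pool.Agent.H91.ML

def Q (c : ℕ → ℝ) : Prop := ∀ (k : ℕ) (x : ℝ), 0 ≤ x → 0 ≤ (-1) ^ k * dn c id k x

structure Mom (l : ℕ → ℝ) (s : Set ℝ) (φ ρ : ℝ → ℝ) : Prop where
  ms : MeasurableSet s
  nn : ∀ t ∈ s, 0 ≤ φ t ∧ 0 ≤ ρ t
  eq : ∀ n, ∫ t in s, φ t ^ n * ρ t = l n
  pos : ∀ n, 0 < l n

variable {c l : ℕ → ℝ} {s : Set ℝ} {φ ρ : ℝ → ℝ}

lemma Mom.int (h : Mom l s φ ρ) (n : ℕ) : IntegrableOn (fun t => φ t ^ n * ρ t) s :=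
  Integrable.of_integral_ne_zero (by rw [h.eq]; exact (h.pos n).ne')

lemma Mom.step (h : Mom l s φ ρ) (hc : Q c) (hS : S (fun n => c n * l n) id) :
    Q fun n => c n * l n := by
  intro k x hx
  have h1 := integral_tsum_of_summable_integral_norm (μ := volume.restrict s)
    (F := fun (n : ℕ) t => c n * n.descFactorial k * x ^ (n - k) * (φ t ^ n * ρ t))
    (fun n => (h.int n).const_mul _) (by
      refine ((hS.desc k) x hx).congr fun n => ?_
      have e : ∫ t in s, ‖c n * n.descFactorial k * x ^ (n - k) * (φ t ^ n * ρ t)‖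
          = ∫ t in s, |c n * n.descFactorial k * x ^ (n - k)| * (φ t ^ n * ρ t) :=
        setIntegral_congr_fun h.ms fun t ht => by
          have := h.nn t ht
          rw [norm_mul, Real.norm_eq_abs,
            Real.norm_of_nonneg (mul_nonneg (pow_nonneg this.1 _) this.2)]
      rw [e, integral_const_mul, h.eq]
      simp only [id, abs_mul, abs_pow, abs_of_nonneg hx, abs_of_pos (h.pos n)]
      ring)
  have e1 : dn (fun n => c n * l n) id k x = ∑' n, ∫ t in s,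
      c n * n.descFactorial k * x ^ (n - k) * (φ t ^ n * ρ t) :=
    tsum_congr fun n => by rw [integral_const_mul, h.eq]; simp only [id]; ring
  rw [e1, h1, ← integral_const_mul]
  refine setIntegral_nonneg h.ms fun t ht => ?_
  obtain ⟨p0, r0⟩ := h.nn t ht
  have e2 : ∑' n, c n * n.descFactorial k * x ^ (n - k) * (φ t ^ n * ρ t)
      = φ t ^ k * ρ t * dn c id k (x * φ t) := by
    rw [dn, ← tsum_mul_left]
    refine tsum_congr fun n => ?_
    simp only [id]
    rcases lt_or_ge n k with h2 | h2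
    · simp [Nat.descFactorial_of_lt h2]
    · obtain ⟨m, rfl⟩ := Nat.exists_eq_add_of_le h2
      rw [Nat.add_sub_cancel_left, mul_pow, pow_add]
      ring
  rw [e2, mul_left_comm]
  exact mul_nonneg (by positivity) (hc k _ (mul_nonneg hx p0))

lemma Mom.bdd (h : Mom l s φ ρ) {M : ℝ} (hM : ∀ t ∈ s, φ t ≤ M) (M0 : 0 ≤ M) (hS : S c id) :
    S (fun n => c n * l n) id := fun R hR => by
  refine ((hS (M * R) (by positivity)).mul_left (l 0)).of_nonneg_of_le (fun n => by positivity)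
    fun n => ?_
  have h1 : l n ≤ M ^ n * l 0 := by
    rw [← h.eq, ← h.eq, ← integral_const_mul]
    refine setIntegral_mono_on (h.int n) ((h.int 0).const_mul _) h.ms fun t ht => ?_
    rw [pow_zero, one_mul]
    exact mul_le_mul_of_nonneg_right (pow_le_pow_left₀ (h.nn t ht).1 (hM t ht) n) (h.nn t ht).2
  simp only [id, abs_mul, abs_of_pos (h.pos n), mul_pow]
  calc _ ≤ |c n| * (M ^ n * l 0) * R ^ n := by gcongr
    _ = _ := by ring

lemma mom_gam {a : ℝ} (ha : 0 < a) : Mom (fun n => Real.Gamma (n / 4 + a)) (Ioi 0)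
    (fun t => t ^ (1 / 4 : ℝ)) fun t => Real.exp (-t) * t ^ (a - 1) := by
  refine ⟨measurableSet_Ioi, fun t ht => ?_, fun n => ?_,
    fun n => Real.Gamma_pos_of_pos (by positivity)⟩
  · have : 0 < t := ht
    constructor <;> positivity
  · rw [Real.Gamma_eq_integral (by positivity)]
    refine setIntegral_congr_fun measurableSet_Ioi fun t ht => ?_
    have : 0 < t := ht
    rw [← Real.rpow_mul_natCast this.le, mul_left_comm, ← Real.rpow_add this]
    congr 2
    ring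

lemma beta_int {a b : ℝ} (ha : 0 < a) (hb : 0 < b) : ∫ t in Ioo (0:ℝ) 1,
    t ^ (a - 1) * (1 - t) ^ (b - 1) = Real.Gamma a * Real.Gamma b / Real.Gamma (a + b) := by
  have h1 := Complex.Gamma_mul_Gamma_eq_betaIntegral (s := a) (t := b) (by simpa) (by simpa)
  have h2 : Complex.betaIntegral a b =
      ((∫ t in Ioo (0:ℝ) 1, t ^ (a - 1) * (1 - t) ^ (b - 1) : ℝ) : ℂ) := by
    rw [Complex.betaIntegral, intervalIntegral.integral_of_le zero_le_one,
      integral_Ioc_eq_integral_Ioo, ← integral_complex_ofReal]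
    refine setIntegral_congr_fun measurableSet_Ioo fun t ht => ?_
    rw [Complex.ofReal_mul, Complex.ofReal_cpow ht.1.le, Complex.ofReal_cpow (sub_nonneg.2 ht.2.le)]
    push_cast
    rfl
  rw [h2, ← Complex.ofReal_add, Complex.Gamma_ofReal, Complex.Gamma_ofReal,
    Complex.Gamma_ofReal] at h1
  rw [eq_div_iff (Real.Gamma_pos_of_pos (add_pos ha hb)).ne', mul_comm]
  exact_mod_cast h1.symm

lemma mom_beta {a b : ℝ} (ha : 0 < a) (hb : 0 < b) :
    Mom (fun n => Real.Gamma (n / 4 + a) * Real.Gamma b / Real.Gamma (n / 4 + a + b)) (Ioo 0 1)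
    (fun t => t ^ (1 / 4 : ℝ)) fun t => t ^ (a - 1) * (1 - t) ^ (b - 1) := by
  refine ⟨measurableSet_Ioo, fun t ht => ?_, fun n => ?_, fun n => ?_⟩
  · have := ht.1
    have := sub_pos.2 ht.2
    constructor <;> positivity
  · rw [← beta_int (by positivity) hb]
    refine setIntegral_congr_fun measurableSet_Ioo fun t ht => ?_
    rw [← Real.rpow_mul_natCast ht.1.le, ← mul_assoc, ← Real.rpow_add ht.1]
    congr 2
    ring
  · have := Real.Gamma_pos_of_pos hb
    have := Real.Gamma_pos_of_pos (show 0 < (n:ℝ) / 4 + a by positivity)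
    have := Real.Gamma_pos_of_pos (show 0 < (n:ℝ) / 4 + a + b by positivity)
    positivity

lemma mom_rat {K : ℝ} (hK : 0 < K) :
    Mom (fun n => K * 4 ^ n * (((n:ℝ) + 22 / 17) ^ 2 / ((n + 1) * (n + 2) * (n + 3)))) (Ioc 0 1)
    (fun t => 4 * t) fun t => K * (25 / 578 - 144 / 289 * t + 841 / 578 * t ^ 2) := by
  refine ⟨measurableSet_Ioc, fun t ht => ⟨by linarith [ht.1], mul_nonneg hK.le ?_⟩, fun n => ?_,
    fun n => by positivity⟩
  · nlinarith [sq_nonneg (841 * t - 144)]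
  · rw [← intervalIntegral.integral_of_le zero_le_one]
    have e : (fun t : ℝ => (4 * t) ^ n * (K * (25 / 578 - 144 / 289 * t + 841 / 578 * t ^ 2)))
        = fun t => K * 4 ^ n * (25 / 578 * t ^ n - 144 / 289 * t ^ (n + 1)
          + 841 / 578 * t ^ (n + 2)) := by
      funext t; ring
    rw [e, intervalIntegral.integral_const_mul, intervalIntegral.integral_add
      (Continuous.intervalIntegrable (by fun_prop) _ _)
      (Continuous.intervalIntegrable (by fun_prop) _ _), intervalIntegral.integral_sub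
      (Continuous.intervalIntegrable (by fun_prop) _ _)
      (Continuous.intervalIntegrable (by fun_prop) _ _)]
    simp only [intervalIntegral.integral_const_mul, integral_pow]
    congr 1
    push_cast
    simp only [one_pow, ne_eq, Nat.add_eq_zero_iff, one_ne_zero, and_false, not_false_eq_true,
      zero_pow, sub_zero]
    field_simp
    ring

noncomputable def c0 (n : ℕ) : ℝ := (-1) ^ n / n.factorial

lemma S0 : S c0 id := fun R _ => (Real.summable_pow_div_factorial R).congr fun n => by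
  simp only [c0, id, abs_div, abs_pow, abs_neg, abs_one, one_pow, Nat.abs_cast]
  ring

lemma Q0 : Q c0 := by
  intro k x _
  have h1 := tower _ S0.dn_deriv k
  have h2 := tower (fun k x => (-1) ^ k * Real.exp (-x)) (fun n t =>
    (((hasDerivAt_neg t).exp).const_mul ((-1) ^ n)).congr_deriv (by ring)) k
  have h3 : dn c0 id 0 = fun x => (-1) ^ 0 * Real.exp (-x) := by
    funext x
    rw [pow_zero, one_mul, Real.exp_eq_exp_ℝ, NormedSpace.exp_eq_tsum_div]
    refine tsum_congr fun n => ?_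
    simp only [c0, id, Nat.descFactorial_zero, Nat.cast_one, Nat.sub_zero]
    rw [neg_pow x]
    ring
  rw [← h1, h3, h2, ← mul_assoc, ← mul_pow]
  simp only [mul_neg, mul_one, neg_neg, one_pow, one_mul]
  positivity

lemma mult (n : ℕ) : Real.Gamma (n / 4 + 1 / 4) * Real.Gamma (n / 4 + 1 / 2) *
    Real.Gamma (n / 4 + 3 / 4) * Real.Gamma (n / 4 + 1) * 4 ^ n
    = n.factorial * ((2:ℝ) ^ (1 / 2 : ℝ) * √Real.pi ^ 3) := by
  have h1 := Real.Gamma_mul_Gamma_add_half ((n:ℝ) / 4 + 1 / 4)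
  have h2 := Real.Gamma_mul_Gamma_add_half ((n:ℝ) / 4 + 1 / 2)
  have h3 := Real.Gamma_mul_Gamma_add_half ((n:ℝ) / 2 + 1 / 2)
  rw [show (n:ℝ) / 4 + 1 / 4 + 1 / 2 = n / 4 + 3 / 4 by ring,
    show 2 * ((n:ℝ) / 4 + 1 / 4) = n / 2 + 1 / 2 by ring] at h1
  rw [show (n:ℝ) / 4 + 1 / 2 + 1 / 2 = n / 4 + 1 by ring,
    show 2 * ((n:ℝ) / 4 + 1 / 2) = n / 2 + 1 / 2 + 1 / 2 by ring] at h2
  rw [show 2 * ((n:ℝ) / 2 + 1 / 2) = n + 1 by ring, Real.Gamma_nat_eq_factorial] at h3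
  have h4 : (2:ℝ) ^ (1 - ((n:ℝ) / 2 + 1 / 2)) * 2 ^ (1 - ((n:ℝ) / 2 + 1 / 2 + 1 / 2)) *
      2 ^ (1 - ((n:ℝ) + 1)) * 4 ^ n = 2 ^ (1 / 2 : ℝ) := by
    rw [show (4:ℝ) ^ n = 2 ^ (2 * n : ℝ) by
      rw [Real.rpow_mul_natCast zero_le_two]; norm_num, ← Real.rpow_add two_pos,
      ← Real.rpow_add two_pos, ← Real.rpow_add two_pos]
    congr 1
    ring
  calc _ = (Real.Gamma (n / 4 + 1 / 4) * Real.Gamma (n / 4 + 3 / 4)) *
        (Real.Gamma (n / 4 + 1 / 2) * Real.Gamma (n / 4 + 1)) * 4 ^ n := by ring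
    _ = (Real.Gamma (n / 2 + 1 / 2) * Real.Gamma (n / 2 + 1 / 2 + 1 / 2)) *
        (2 ^ (1 - ((n:ℝ) / 2 + 1 / 2)) * 2 ^ (1 - ((n:ℝ) / 2 + 1 / 2 + 1 / 2)) * 4 ^ n)
        * √Real.pi ^ 2 := by rw [h1, h2]; ring
    _ = _ := by rw [h3, ← h4]; ring

noncomputable def cf (n : ℕ) : ℝ := (-1) ^ n / Real.Gamma (1 / 4 * n + 11 / 34) ^ 2

lemma Sf : S cf id := fun R hR => by
  refine ((S_gam (1 / 4) (11 / 34 + 1) (by norm_num) (by norm_num) (4 * R)
    (by positivity)).mul_left 2).of_nonneg_of_le (fun n => by positivity) fun n => ?_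
  have n0 : (0:ℝ) ≤ n := n.cast_nonneg
  have g0 := Real.Gamma_pos_of_pos (show 0 < 1 / 4 * (n:ℝ) + 11 / 34 by positivity)
  have h1 := gam_low (1 / 4 * n + 11 / 34) (by positivity)
  have h2 : (1:ℝ) ≤ (⌊1 / 4 * (n:ℝ) + 11 / 34⌋₊).factorial := by
    exact_mod_cast Nat.factorial_pos _
  have h3 : (n:ℝ) + 1 ≤ 2 ^ n := by exact_mod_cast Nat.lt_two_pow_self
  have h4 := Real.Gamma_add_one (show 1 / 4 * (n:ℝ) + 11 / 34 ≠ 0 by positivity)
  simp only [cf, id, abs_div, abs_pow, abs_neg, abs_one, one_pow, mul_pow, ← add_assoc]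
  rw [abs_of_pos g0, abs_of_pos (by linarith), ← mul_assoc, ← mul_assoc]
  refine mul_le_mul_of_nonneg_right ?_ (by positivity)
  rw [show (4:ℝ) ^ n = (2 ^ n) ^ 2 by rw [← pow_mul, mul_comm, pow_mul]; norm_num]
  have h5 : Real.Gamma (1 / 4 * n + 11 / 34 + 1) ≤ 2 ^ n * Real.Gamma (1 / 4 * n + 11 / 34) := by
    rw [h4]; exact mul_le_mul_of_nonneg_right (by linarith) g0.le
  generalize Real.Gamma (1 / 4 * n + 11 / 34 + 1) = G at *
  generalize Real.Gamma (1 / 4 * n + 11 / 34) = g at *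
  rw [mul_one_div, div_mul_eq_mul_div, div_le_div_iff₀ (by positivity) (by linarith)]
  nlinarith [mul_le_mul h5 h5 (by linarith) (by positivity)]

lemma Qf : Q cf := by
  have g1 := Real.Gamma_pos_of_pos (show (0:ℝ) < 5 / 68 by norm_num)
  have g2 := Real.Gamma_pos_of_pos (show (0:ℝ) < 11 / 34 by norm_num)
  have pi0 := Real.sqrt_pos.2 Real.pi_pos
  have m1 := mom_rat (K := 4 / ((2:ℝ) ^ (1 / 2 : ℝ) * √Real.pi ^ 3 * Real.Gamma (5 / 68) *
    Real.Gamma (11 / 34))) (by positivity)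
  have m2 := mom_beta (a := 5 / 4) (b := 5 / 68) (by norm_num) (by norm_num)
  have m3 := mom_beta (a := 1) (b := 11 / 34) (by norm_num) (by norm_num)
  have m4 := mom_gam (a := 3 / 2) (by norm_num)
  have m5 := mom_gam (a := 7 / 4) (by norm_num)
  have b : ∀ t ∈ Ioo (0:ℝ) 1, t ^ (1 / 4 : ℝ) ≤ 1 := fun t ht =>
    Real.rpow_le_one ht.1.le ht.2.le (by norm_num)
  have s1 := m1.bdd (M := 4) (fun t ht => by linarith [ht.2]) (by norm_num) S0
  have s2 := m2.bdd b zero_le_one s1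
  have s3 := m3.bdd b zero_le_one s2
  have q3 := m3.step (m2.step (m1.step Q0 s1) s2) s3
  obtain ⟨c3, hc, s3, q3⟩ : ∃ c3, _ = c3 ∧ S c3 id ∧ Q c3 := ⟨_, rfl, s3, q3⟩
  have e : (fun n : ℕ => c3 n * Real.Gamma (n / 4 + 3 / 2) * Real.Gamma (n / 4 + 7 / 4)) = cf := by
    funext n
    have n0 : (0:ℝ) ≤ n := n.cast_nonneg
    have h := mult n
    rw [← hc]
    simp only [cf, c0]
    rw [show (n:ℝ) / 4 + 5 / 4 + 5 / 68 = 1 / 4 * n + 11 / 34 + 1 by ring,
      show (n:ℝ) / 4 + 1 + 11 / 34 = 1 / 4 * n + 11 / 34 + 1 by ring,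
      show (n:ℝ) / 4 + 5 / 4 = n / 4 + 1 / 4 + 1 by ring,
      show (n:ℝ) / 4 + 3 / 2 = n / 4 + 1 / 2 + 1 by ring,
      show (n:ℝ) / 4 + 7 / 4 = n / 4 + 3 / 4 + 1 by ring,
      Real.Gamma_add_one (s := 1 / 4 * n + 11 / 34) (by positivity),
      Real.Gamma_add_one (s := n / 4 + 1 / 4) (by positivity),
      Real.Gamma_add_one (s := n / 4 + 1 / 2) (by positivity),
      Real.Gamma_add_one (s := n / 4 + 3 / 4) (by positivity)]
    have g3 := Real.Gamma_pos_of_pos (show 0 < 1 / 4 * (n:ℝ) + 11 / 34 by positivity)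
    have f0 : (0:ℝ) < n.factorial := by exact_mod_cast n.factorial_pos
    have d0 : 0 < (2:ℝ) ^ (1 / 2 : ℝ) * √Real.pi ^ 3 := by positivity
    generalize (2:ℝ) ^ (1 / 2 : ℝ) * √Real.pi ^ 3 = D at *
    have h' : D = Real.Gamma (n / 4 + 1 / 4) * Real.Gamma (n / 4 + 1 / 2) *
        Real.Gamma (n / 4 + 3 / 4) * Real.Gamma (n / 4 + 1) * 4 ^ n / n.factorial := by
      rw [h]; field_simp
    have g4 := Real.Gamma_pos_of_pos (show 0 < (n:ℝ) / 4 + 1 / 4 by positivity)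
    have g5 := Real.Gamma_pos_of_pos (show 0 < (n:ℝ) / 4 + 1 / 2 by positivity)
    have g6 := Real.Gamma_pos_of_pos (show 0 < (n:ℝ) / 4 + 3 / 4 by positivity)
    have g7 := Real.Gamma_pos_of_pos (show 0 < (n:ℝ) / 4 + 1 by positivity)
    rw [h']
    generalize Real.Gamma (n / 4 + 1 / 4) = a1 at *
    generalize Real.Gamma (n / 4 + 1 / 2) = a2 at *
    generalize Real.Gamma (n / 4 + 3 / 4) = a3 at *
    generalize Real.Gamma (n / 4 + 1) = a4 at *
    generalize Real.Gamma (1 / 4 * n + 11 / 34) = a5 at *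
    field_simp
    ring
  have s5 : S (fun n : ℕ => c3 n * Real.Gamma (n / 4 + 3 / 2) * Real.Gamma (n / 4 + 7 / 4)) id :=
    e ▸ Sf
  have s4 : S (fun n : ℕ => c3 n * Real.Gamma (n / 4 + 3 / 2)) id := fun R hR => by
    refine ((s5 R hR).mul_left 2).of_nonneg_of_le (fun n => by positivity) fun n => ?_
    have h1 := gam_low (n / 4 + 3 / 4) (by positivity)
    have h2 : (1:ℝ) ≤ (⌊(n:ℝ) / 4 + 3 / 4⌋₊).factorial := by exact_mod_cast Nat.factorial_pos _
    rw [show (n:ℝ) / 4 + 3 / 4 + 1 = n / 4 + 7 / 4 by ring] at h1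
    rw [abs_mul _ (Real.Gamma (n / 4 + 7 / 4)), abs_of_pos (m5.pos n)]
    have h3 : 0 ≤ |c3 n * Real.Gamma (n / 4 + 3 / 2)| * R ^ id n := by positivity
    nlinarith
  exact e ▸ m5.step (m4.step q3 s4) s5

/-- the Le Roy type function on the real line -/
noncomputable def F (α β γ x : ℝ) : ℝ := ∑' n : ℕ, x ^ n / Real.Gamma (α * n + β) ^ γ

theorem main : ∃ α β γ : ℝ, 0 < α ∧ 0 < β ∧ 0 < γ ∧
    (∀ x : ℝ, Summable fun n : ℕ => x ^ n / Real.Gamma (α * n + β) ^ γ) ∧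
    (ContDiffOn ℝ (⊤ : ℕ∞) (fun x => F α β γ (-x)) (Set.Ioi 0) ∧
      ∀ (k : ℕ) (x : ℝ), 0 < x → 0 ≤ (-1) ^ k * iteratedDeriv k (fun x => F α β γ (-x)) x) ∧
    ∃ z : ℝ, 0 < z ∧ z < 1 ∧ 1 < z + γ * (z ^ (β - α) - z ^ β) := by
  have e : (fun x => F (1 / 4) (11 / 34) 2 (-x)) = dn cf id 0 := by
    funext x
    refine tsum_congr fun n => ?_
    simp only [cf, id, Nat.descFactorial_zero, Nat.cast_one, Nat.sub_zero, Real.rpow_two]
    rw [neg_pow x]
    ring
  refine ⟨1 / 4, 11 / 34, 2, by norm_num, by norm_num, by norm_num, fun x => ?_, ⟨?_, ?_⟩,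
    (11 / 12) ^ 68, by positivity, by norm_num, ?_⟩
  · refine (Sf.summable (-x)).congr fun n => ?_
    simp only [cf, id, Real.rpow_two]
    rw [div_mul_eq_mul_div, ← mul_pow]
    simp
  · rw [e]; exact (tower_smooth _ Sf.dn_deriv).contDiffOn
  · intro k x hx
    rw [e, tower _ Sf.dn_deriv]
    exact Qf k x hx.le
  · rw [← Real.rpow_natCast_mul (by norm_num), ← Real.rpow_natCast_mul (by norm_num),
      show ((68:ℕ):ℝ) * (11 / 34 - 1 / 4) = (5:ℕ) by norm_num,
      show ((68:ℕ):ℝ) * (11 / 34) = (22:ℕ) by norm_num, Real.rpow_natCast, Real.rpow_natCast]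
    norm_num

end Pool.Agent.H91.Roy
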