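import Mathlib

set_option autoImplicit false

namespace H91.SchLip
open Filter Topology Metric InnerProductGeometry
open scoped ENNReal Real ComplexConjugate

section defs
variable {H : Type} [NormedAddCommGroup H] [InnerProductSpace ℂ H] [CompleteSpace H]

/-- singular values as approximation numbers -/
noncomputable def sv (X : H →L[ℂ] H) (n : ℕ) : ℝ≥0∞ :=
  ⨅ (F : H →L[ℂ] H) (_ : F.toLinearMap.rank ≤ n), ‖X - F‖ₑ
/-- Schatten norm, with value `⊤` outside the Schatten class -/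
noncomputable def schatten (p : ℝ) (X : H →L[ℂ] H) : ℝ≥0∞ := (∑' n, sv X n ^ p) ^ (1 / p)

/-- `T^n` and `(T^*)^n` -/
noncomputable def pw (T : H →L[ℂ] H) (n : ℕ) : H →L[ℂ] H := T ^ n
noncomputable def apw (T : H →L[ℂ] H) (n : ℕ) : H →L[ℂ] H := pw T.adjoint n
def IsUnitary (U : H →L[ℂ] H) : Prop := U ∈ unitary (H →L[ℂ] H)
/-- continuous functional calculus -/
noncomputable def fc (f : ℂ → ℂ) (U : H →L[ℂ] H) : H →L[ℂ] H := cfc f U
/-- compression `V^* A V` -/
noncomputable def cmp {K : Type} [NormedAddCommGroup K] [InnerProductSpace ℂ K] [CompleteSpace K]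
    (V : H →L[ℂ] K) (A : K →L[ℂ] K) : H →L[ℂ] H := V.adjoint ∘L A ∘L V

/-- `X = P f(U) |_H` for a unitary dilation `U` of `T` -/
def IsFC (f : ℂ → ℂ) (T X : H →L[ℂ] H) : Prop :=
  ∃ (K : Type) (_ : NormedAddCommGroup K) (_ : InnerProductSpace ℂ K) (_ : CompleteSpace K)
    (V : H →L[ℂ] K) (U : K →L[ℂ] K), Isometry V ∧ IsUnitary U ∧
    (∀ n : ℕ, pw T n = cmp V (pw U n)) ∧ (∀ n : ℕ, apw T n = cmp V (apw U n)) ∧
    X = cmp V (fc f U)

def LipT (f : ℂ → ℂ) : Prop :=
  ∃ C : ℝ, ∀ z w : ℂ, ‖z‖ = 1 → ‖w‖ = 1 → ‖f z - f w‖ ≤ C * ‖z - w‖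
def InDiskAlg (f : ℂ → ℂ) : Prop :=
  ∃ G : ℂ → ℂ, DiffContOnCl ℂ G (ball 0 1) ∧ ∀ z : ℂ, ‖z‖ = 1 → G z = f z

variable (H) in
def Q1 (p : ℝ) : Prop :=
  ∃ (f : ℂ → ℂ) (T1 : H →L[ℂ] H) (T0 : ℕ → H →L[ℂ] H), LipT f ∧ ¬ InDiskAlg f ∧ ‖T1‖ ≤ 1 ∧
    (∀ n, ‖T0 n‖ = 1) ∧ (∀ n, schatten p (T1 - T0 n) = 1) ∧
    ∀ (X1 : H →L[ℂ] H) (X0 : ℕ → H →L[ℂ] H), IsFC f T1 X1 → (∀ n, IsFC f (T0 n) (X0 n)) →
      ∃ b : ℕ → ℝ, StrictMono b ∧ Tendsto b atTop atTop ∧
        ∀ n, schatten p (X1 - X0 n) = ENNReal.ofReal (b n)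

omit [CompleteSpace H] in
lemma sv_proj (W : Submodule ℂ H) [FiniteDimensional ℂ W] (c : ℂ) (n : ℕ) :
    sv (c • W.starProjection) n = if n < Module.finrank ℂ W then ‖c‖ₑ else 0 := by
  split_ifs with h
  · refine le_antisymm ?_ (le_iInf₂ fun F hF => ?_)
    · refine iInf₂_le_of_le 0 (by simp) ?_
      rw [sub_zero, ← ofReal_norm, ← ofReal_norm, norm_smul]
      exact ENNReal.ofReal_le_ofReal
        (mul_le_of_le_one_right (norm_nonneg _) W.starProjection_norm_le)
    · have : FiniteDimensional ℂ F.range :=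
        Module.rank_lt_aleph0_iff.1 (hF.trans_lt (Cardinal.natCast_lt_aleph0))
      have h1 : Module.finrank ℂ F.range ≤ n := Module.finrank_le_of_rank_le hF
      obtain ⟨x, hx, hne⟩ := Submodule.exists_mem_ne_zero_of_ne_bot
        (LinearMap.ker_ne_bot_of_finrank_lt (f := F.toLinearMap.rangeRestrict ∘ₗ W.subtype)
          (h1.trans_lt h))
      have h2 : F x = 0 := congrArg Subtype.val hx
      have h3 := (c • W.starProjection - F).le_opNorm x
      simp only [sub_apply, smul_apply, h2, sub_zero, Submodule.starProjection_mem_subspace_eq_self,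
        norm_smul] at h3
      rw [← ofReal_norm, ← ofReal_norm]
      exact ENNReal.ofReal_le_ofReal (le_of_mul_le_mul_right h3 (by simpa using hne))
  · refine le_antisymm (iInf₂_le_of_le (c • W.starProjection) ?_
      (by rw [sub_self, ← ofReal_norm]; simp)) bot_le
    have : (c • W.starProjection).range ≤ W := by
      rintro _ ⟨x, rfl⟩; exact W.smul_mem _ (W.starProjection_apply_mem x)
    refine (Submodule.rank_mono this).trans ?_
    rw [← Module.finrank_eq_rank]; exact_mod_cast not_lt.1 h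

omit [CompleteSpace H] in
lemma sch_proj (W : Submodule ℂ H) [FiniteDimensional ℂ W] (c : ℂ) {p : ℝ} (hp : 0 < p) :
    schatten p (c • W.starProjection) =
      ENNReal.ofReal ((Module.finrank ℂ W : ℝ) ^ (1 / p) * ‖c‖) := by
  rw [schatten, tsum_eq_sum (s := Finset.range (Module.finrank ℂ W))]
  · rw [Finset.sum_congr rfl (g := fun _ => ‖c‖ₑ ^ p) fun n hn => by
      rw [sv_proj, if_pos (Finset.mem_range.1 hn)]]
    rw [Finset.sum_const, Finset.card_range, nsmul_eq_mul,
      ENNReal.mul_rpow_of_nonneg _ _ (by positivity), ← ENNReal.rpow_mul, mul_one_div_cancel hp.ne',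
      ENNReal.rpow_one, ENNReal.ofReal_mul (by positivity), ofReal_norm,
      ← ENNReal.ofReal_rpow_of_nonneg (by positivity) (by positivity), ENNReal.ofReal_natCast]
  · intro n hn
    rw [sv_proj, if_neg (by simpa using hn), ENNReal.zero_rpow_of_pos hp]
end defs

noncomputable def u (n : ℕ) (z : ℂ) : ℂ := (1 / (n : ℂ) ^ 2) * (z ^ n + star z ^ n)
noncomputable def F (z : ℂ) : ℂ := ∑' n, u n z

lemma F_eq (z : ℂ) (hz : ‖z‖ = 1) : F z =
    (2 * π ^ 2 * ((angle 1 z / (2 * π)) ^ 2 - angle 1 z / (2 * π) + 1 / 6) : ℝ) := by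
  have hx : angle 1 z / (2 * π) ∈ Set.Icc (0 : ℝ) 1 :=
    ⟨div_nonneg (angle_nonneg _ _) (by positivity), by
      rw [div_le_one (by positivity)]; linarith [angle_le_pi 1 z, Real.pi_pos]⟩
  have h := (hasSum_one_div_nat_pow_mul_cos one_ne_zero hx).mul_left 2
  have h2 := (Complex.hasSum_ofReal.2 h).tsum_eq
  have hz0 : z ≠ 0 := by rintro rfl; simp at hz
  rw [F]
  convert h2 using 2
  · funext n
    have e : 2 * π * n * (angle 1 z / (2 * π)) = n * |z.arg| := by
      rw [Complex.angle_one_left hz0]; field_simp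
    have e2 : Real.cos (n * |z.arg|) = Real.cos (n * z.arg) := by
      rw [← Real.cos_abs (n * z.arg), abs_mul, Nat.abs_cast]
    have e3 : z ^ n = Complex.exp ((n * z.arg : ℝ) * Complex.I) := by
      conv_lhs => rw [← Complex.norm_mul_exp_arg_mul_I z, hz]
      rw [Complex.ofReal_one, one_mul, ← Complex.exp_nat_mul]; push_cast; ring_nf
    rw [u, e, e2, ← star_pow, e3, Complex.star_def, Complex.add_conj, Complex.exp_ofReal_mul_I_re]
    push_cast; ring
  · simp [Polynomial.bernoulli, Finset.sum_range_succ, bernoulli_two, Nat.factorial]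
    ring

lemma F_lip : LipT F := by
  refine ⟨π * (π / 2), fun z w hz hw => ?_⟩
  rw [F_eq z hz, F_eq w hw, ← Complex.ofReal_sub, Complex.norm_real, Real.norm_eq_abs]
  have h1 := angle_le_angle_add_angle 1 z w
  have h2 := angle_le_angle_add_angle 1 w z
  have h3 := Complex.angle_le_mul_norm_sub hz hw
  rw [angle_comm w z] at h2
  have := angle_nonneg 1 z
  have := angle_nonneg 1 w
  have := angle_le_pi 1 z
  have := angle_le_pi 1 w
  have hp := Real.pi_pos
  set a := angle 1 z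
  set b := angle 1 w
  have e : 2 * π ^ 2 * ((a / (2 * π)) ^ 2 - a / (2 * π) + 1 / 6) -
      2 * π ^ 2 * ((b / (2 * π)) ^ 2 - b / (2 * π) + 1 / 6) = (a - b) * ((a + b) / 2 - π) := by
    field_simp; ring
  rw [e, abs_mul, mul_comm, mul_assoc]
  exact mul_le_mul (abs_le.2 ⟨by linarith, by linarith⟩) (abs_le.2 ⟨by linarith, by linarith⟩)
    (abs_nonneg _) hp.le

lemma conj_not : ¬ InDiskAlg star := by
  rintro ⟨G, hG, h⟩
  have := Complex.eqOn_closure_of_eqOn_frontier (f := fun z => z * G z) (g := fun _ => (1 : ℂ))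
    isBounded_ball (differentiable_id.diffContOnCl.smul hG) diffContOnCl_const
    (fun z hz => by
      rw [frontier_ball _ one_ne_zero, mem_sphere_zero_iff_norm] at hz
      simp [h z hz, Complex.mul_conj', hz]) (subset_closure (mem_ball_self one_pos))
  simp at this

lemma u_le (n : ℕ) (z : ℂ) (hz : ‖z‖ = 1) : ‖u n z‖ ≤ 1 / (n : ℝ) ^ 2 * 2 := by
  rw [u, norm_mul]
  gcongr
  · simp
  · exact (norm_add_le _ _).trans (by simp [hz]; norm_num)

lemma smb : Summable fun n : ℕ => 1 / (n : ℝ) ^ 2 * 2 :=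
  (Real.summable_one_div_nat_pow.2 one_lt_two).mul_right 2

lemma fc_sum {H : Type} [NormedAddCommGroup H] [InnerProductSpace ℂ H] [CompleteSpace H]
    (c : ℂ) {T X : H →L[ℂ] H} (h : IsFC (fun z => F z + c * star z) T X) :
    HasSum (fun n : ℕ => (1 / (n : ℂ) ^ 2) • (T ^ n + T.adjoint ^ n)) (X - c • T.adjoint) := by
  obtain ⟨K, _, _, _, V, U, -, hU, h1, h2, rfl⟩ := h
  simp only [apw, pw, cmp, fc, IsUnitary] at *
  have hn : IsStarNormal U := Unitary.coe_isStarNormal ⟨U, hU⟩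
  have hs : ∀ z ∈ spectrum ℂ U, ‖z‖ = 1 := fun z hz => spectrum.norm_eq_one_of_unitary hU hz
  have ht := tendstoUniformlyOn_tsum smb (fun n z hz => u_le n z (hs z hz))
  have hc : ∀ s : Finset ℕ, ContinuousOn (fun z => ∑ n ∈ s, u n z) (spectrum ℂ U) := fun s => by
    unfold u; fun_prop
  have hF : ContinuousOn F (spectrum ℂ U) := ht.continuousOn (Eventually.of_forall hc).frequently
  have h3 : HasSum (fun n : ℕ => (1 / (n : ℂ) ^ 2) • (U ^ n + star U ^ n)) (cfc F U) := by
    refine (tendsto_cfc_fun ht (Eventually.of_forall hc)).congr fun s => ?_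
    rw [show (fun z => ∑ n ∈ s, u n z) = ∑ n ∈ s, u n by ext; simp,
      cfc_sum u U s (fun n _ => by unfold u; fun_prop)]
    refine Finset.sum_congr rfl fun n _ => ?_
    unfold u
    rw [cfc_const_mul .., cfc_add .., cfc_pow_id .., cfc_pow .., cfc_star_id ..]
  let L : (K →L[ℂ] K) →L[ℂ] (H →L[ℂ] H) :=
    (ContinuousLinearMap.compL ℂ H K H V.adjoint) ∘L (ContinuousLinearMap.compL ℂ H K K).flip V
  have hL : ∀ A, L A = V.adjoint ∘L A ∘L V := fun _ => rfl
  convert h3.mapL L using 1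
  · funext n
    rw [map_smul, map_add, hL, hL, h1, h2]; rfl
  · have := h2 1
    rw [pow_one, pow_one] at this
    rw [cfc_add .., cfc_const_mul .., cfc_star_id .., ← hL, map_add, map_smul, this]
    exact add_sub_cancel_right _ _

noncomputable def g (e : ℝ) : ℝ := ∑' n : ℕ, 1 / (n : ℝ) ^ 2 * (2 * (1 - (1 - e) ^ n))

lemma g_sum {e : ℝ} (h0 : 0 ≤ e) (h1 : e ≤ 1) :
    Summable fun n : ℕ => 1 / (n : ℝ) ^ 2 * (2 * (1 - (1 - e) ^ n)) := by
  refine Summable.of_nonneg_of_le (fun n => ?_) (fun n => ?_) smb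
  · have := pow_le_one₀ (n := n) (sub_nonneg.2 h1) (by linarith)
    have := sub_nonneg.2 this
    positivity
  · have := pow_nonneg (sub_nonneg.2 h1) n
    gcongr; linarith

lemma g_low (M : ℕ) {e : ℝ} (h0 : 0 < e) (h1 : e ≤ 1) (h2 : (M + 1) * e ≤ 1 / 2) :
    ∑ i ∈ Finset.range M, (1 / (i + 1) : ℝ) ≤ g e / e := by
  have hp : ∀ n : ℕ, 0 ≤ 1 - (1 - e) ^ n := fun n =>
    sub_nonneg.2 (pow_le_one₀ (sub_nonneg.2 h1) (by linarith))
  have := (g_sum h0.le h1).sum_le_tsum (Finset.range (M + 1)) fun n _ => by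
    have := hp n; positivity
  rw [le_div_iff₀ h0, Finset.sum_mul]
  refine le_trans ?_ this
  rw [Finset.sum_range_succ']
  simp only [Nat.cast_zero, pow_zero, sub_self, mul_zero, add_zero]
  refine Finset.sum_le_sum fun i hi => ?_
  have hi' : (i : ℝ) ≤ M := by exact_mod_cast (Finset.mem_range.1 hi).le
  have h3 : (i + 1) * e ≤ 2 * (1 - (1 - e) ^ (i + 1)) := by
    rw [← mul_neg_geom_sum, sub_sub_cancel]
    have : ∑ j ∈ Finset.range (i + 1), (1 / 2 : ℝ) ≤ ∑ j ∈ Finset.range (i + 1), (1 - e) ^ j := by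
      refine Finset.sum_le_sum fun j hj => ?_
      have hj' : (j : ℝ) ≤ i := by exact_mod_cast Nat.lt_succ_iff.1 (Finset.mem_range.1 hj)
      have := one_add_mul_le_pow (a := -e) (by linarith) j
      rw [← sub_eq_add_neg] at this
      nlinarith
    simp at this
    nlinarith
  push_cast
  calc 1 / ((i : ℝ) + 1) * e = 1 / (i + 1) ^ 2 * ((i + 1) * e) := by field_simp
    _ ≤ _ := by gcongr

theorem main : ∀ (H : Type) [NormedAddCommGroup H] [InnerProductSpace ℂ H] [CompleteSpace H],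
    ¬ FiniteDimensional ℂ H → ∀ p : ℝ, 0 < p → Q1 H p := by
  intro H _ _ _ hH p hp
  obtain ⟨c, hc0, hc1⟩ : ∃ c : ℝ, 0 ≤ c ∧ ¬ InDiskAlg fun z => F z + c * star z := by
    by_contra! h
    obtain ⟨G, hG, h1⟩ := h 0 le_rfl
    obtain ⟨G', hG', h2⟩ := h 1 zero_le_one
    exact conj_not ⟨G' - G, hG'.sub hG, fun z hz => by simp [h1 z hz, h2 z hz]⟩
  have hW : ∀ N : ℕ, ∃ W : Submodule ℂ H, FiniteDimensional ℂ W ∧ Module.finrank ℂ W = N := by
    intro N
    have : (N : Cardinal) ≤ Module.rank ℂ H :=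
      Cardinal.natCast_lt_aleph0.le.trans (not_lt.1 fun h => hH (Module.rank_lt_aleph0_iff.1 h))
    obtain ⟨v, hv⟩ := exists_linearIndependent_of_le_rank this
    exact ⟨_, FiniteDimensional.span_of_finite ℂ (Set.finite_range v),
      by simpa using finrank_span_eq_card hv⟩
  choose W hW1 hW2 using hW
  let e : ℕ → ℝ := fun m => ((m + 1 : ℕ) : ℝ) ^ (-(1 / p))
  have he0 : ∀ m, 0 < e m := fun m => by positivity
  have he1 : ∀ m, e m ≤ 1 := fun m =>
    Real.rpow_le_one_of_one_le_of_nonpos (by simp) (by simp [hp.le])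
  have he2 : ∀ m, ((m + 1 : ℕ) : ℝ) ^ (1 / p) = (e m)⁻¹ := fun m => by
    simp only [e]; rw [Real.rpow_neg (by positivity), inv_inv]
  have he3 : Tendsto e atTop (𝓝 0) := (tendsto_rpow_neg_atTop (by positivity)).comp
    (tendsto_natCast_atTop_atTop.comp (tendsto_add_atTop_nat 1))
  have hb : Tendsto (fun m => g (e m) / e m + c) atTop atTop := by
    refine tendsto_atTop_add_const_right _ _ (tendsto_atTop.2 fun B => ?_)
    obtain ⟨M, hM⟩ := (tendsto_atTop.1 Real.tendsto_sum_range_one_div_nat_succ_atTop B).exists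
    have := (he3.const_mul ((M : ℝ) + 1)).eventually_le_const (show _ < (1 / 2 : ℝ) by simp)
    exact this.mono fun m hm => hM.trans (g_low M (he0 m) (he1 m) hm)
  obtain ⟨φ, hφ, hφ2⟩ := strictMono_subseq_of_tendsto_atTop hb
  let P : ℕ → H →L[ℂ] H := fun m => (W (m + 1)).starProjection
  refine ⟨_, 1, fun n => 1 - (e (φ n) : ℂ) • P (φ n), ?_, hc1,
    ContinuousLinearMap.norm_id_le, fun n => ?_, fun n => ?_, fun X1 X0 h1 h2 =>
    ⟨_, hφ2, hb.comp hφ.tendsto_atTop, fun n => ?_⟩⟩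
  · obtain ⟨C, hC⟩ := F_lip
    refine ⟨C + c, fun z w hz hw => ?_⟩
    rw [add_sub_add_comm, ← mul_sub, ← star_sub, add_mul]
    refine (norm_add_le _ _).trans (add_le_add (hC z w hz hw) ?_)
    simp [abs_of_nonneg hc0, -star_sub, -map_sub]
  · beta_reduce
    set m := φ n
    apply le_antisymm
    · have : 1 - (e m : ℂ) • P m = ((1 - e m : ℝ) : ℂ) • (1 : H →L[ℂ] H) +
          (e m : ℂ) • (W (m + 1))ᗮ.starProjection := by
        rw [Submodule.starProjection_orthogonal']; push_cast; module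
      rw [this]
      refine (norm_add_le _ _).trans ?_
      have a1 : ‖(1 : H →L[ℂ] H)‖ ≤ 1 := ContinuousLinearMap.norm_id_le
      have a2 := (W (m + 1))ᗮ.starProjection_norm_le
      rw [norm_smul, norm_smul, Complex.norm_real, Complex.norm_real, Real.norm_of_nonneg (he0 m).le,
        Real.norm_of_nonneg (sub_nonneg.2 (he1 m))]
      nlinarith [he0 m, he1 m]
    · have : (W (m + 1))ᗮ ≠ ⊥ := by
        intro h
        rw [Submodule.orthogonal_eq_bot_iff] at h
        have := hW1 (m + 1)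
        rw [h] at this
        exact hH (Module.Finite.equiv Submodule.topEquiv)
      obtain ⟨x, hx, hne⟩ := Submodule.exists_mem_ne_zero_of_ne_bot this
      have h3 := (1 - (e m : ℂ) • P m).le_opNorm x
      have h4 : P m x = 0 := (Submodule.starProjection_apply_eq_zero_iff _).2 hx
      simp only [sub_apply, smul_apply, h4, smul_zero, sub_zero, one_apply_eq_self] at h3
      exact le_of_mul_le_mul_right (by rwa [one_mul]) (norm_pos_iff.2 hne)
  · rw [sub_sub_cancel, sch_proj _ _ hp, hW2, he2, Complex.norm_real,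
      Real.norm_of_nonneg (he0 _).le, inv_mul_cancel₀ (he0 _).ne', ENNReal.ofReal_one]
  · simp only [Function.comp]
    set m := φ n
    have hsa : (P m).adjoint = P m := isSelfAdjoint_starProjection (W (m + 1))
    have hid : P m * P m = P m := (W (m + 1)).isIdempotentElem_starProjection
    have hT : (1 - (e m : ℂ) • P m).adjoint = 1 - (e m : ℂ) • P m := by
      rw [map_sub, map_smulₛₗ, hsa, Complex.conj_ofReal, ContinuousLinearMap.adjoint_one]
    have hpow : ∀ k : ℕ, (1 - (e m : ℂ) • P m) ^ k = 1 - (1 - (1 - (e m : ℂ)) ^ k) • P m := by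
      intro k
      induction k with
      | zero => simp
      | succ k ih =>
        rw [pow_succ, ih]
        simp only [sub_mul, mul_sub, one_mul, mul_one, smul_mul_assoc, mul_smul_comm, hid, pow_succ]
        module
    have s1 := (fc_sum c h1).sub (fc_sum c (T := 1 - (e m : ℂ) • P m) (h2 n))
    have s2 := (Complex.hasSum_ofReal.2 (g_sum (he0 m).le (he1 m)).hasSum).smul_const (P m)
    simp only [hT, hpow, ContinuousLinearMap.adjoint_one, one_pow] at s1
    have s3 : X1 - (c : ℂ) • 1 - (X0 n - (c : ℂ) • (1 - (e m : ℂ) • P m)) = (g (e m) : ℂ) • P m := by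
      refine s1.unique ?_
      refine HasSum.congr_fun s2 fun k => ?_
      push_cast; module
    have s4 : X1 - X0 n = ((g (e m) + c * e m : ℝ) : ℂ) • P m := by
      push_cast
      rw [add_smul, ← s3]; module
    have hg : 0 ≤ g (e m) := tsum_nonneg fun k => by
      have := sub_nonneg.2 (pow_le_one₀ (n := k) (sub_nonneg.2 (he1 m)) (by linarith [he0 m]))
      positivity
    have := he0 m
    rw [s4, sch_proj _ _ hp, hW2, he2, Complex.norm_real, Real.norm_of_nonneg (by positivity)]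
    congr 1; field_simp

end H91.SchLip
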