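import Mathlib
import Pool.Agent.H91.Strip

set_option autoImplicit false

namespace Pool.Agent.H91.SchwPre

open Complex Metric Pool.Agent.H91.Strip

lemma U_open : IsOpen {z : ℂ | 1 < ‖z‖} := isOpen_lt continuous_const continuous_norm

lemma schw (F F1 P P1 : ℂ → ℂ) (h1 : ∀ z : ℂ, 1 < ‖z‖ → HasDerivAt F (F1 z) z)
    (h2 : ∀ z : ℂ, 1 < ‖z‖ → HasDerivAt F1 (F1 z * P z) z) (hne : ∀ z : ℂ, 1 < ‖z‖ → F1 z ≠ 0)
    (h3 : ∀ z : ℂ, 1 < ‖z‖ → HasDerivAt P (P1 z) z) (z : ℂ) (hz : 1 < ‖z‖) :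
    deriv (deriv F) z / deriv F z = P z ∧
      deriv (fun w => deriv (deriv F) w / deriv F w) z = P1 z := by
  have a : ∀ z : ℂ, 1 < ‖z‖ → deriv (deriv F) z / deriv F z = P z := by
    intro z hz
    have e : deriv F =ᶠ[nhds z] F1 := by
      filter_upwards [U_open.mem_nhds hz] with x hx using (h1 x hx).deriv
    rw [e.deriv_eq, (h2 z hz).deriv, (h1 z hz).deriv]
    have := hne z hz
    field_simp
  refine ⟨a z hz, ?_⟩
  have e : (fun w => deriv (deriv F) w / deriv F w) =ᶠ[nhds z] P := by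
    filter_upwards [U_open.mem_nhds hz] with x hx using a x hx
  rw [e.deriv_eq, (h3 z hz).deriv]

noncomputable def t (w : ℂ) : ℂ := T w⁻¹
noncomputable def t1 (w : ℂ) : ℂ := -(w⁻¹ * (w - 1)⁻¹)
noncomputable def p (w : ℂ) : ℂ := -w⁻¹ - (w - 1)⁻¹
noncomputable def p1 (w : ℂ) : ℂ := w⁻¹ ^ 2 + (w - 1)⁻¹ ^ 2

lemma ne0 {w : ℂ} (hw : 1 < ‖w‖) : w ≠ 0 := by
  intro h; rw [h, norm_zero] at hw; linarith

lemma ne1 {w : ℂ} (hw : 1 < ‖w‖) : w - 1 ≠ 0 := by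
  intro h
  have : w = 1 := by linear_combination h
  rw [this, norm_one] at hw; linarith

lemma inv_lt {w : ℂ} (hw : 1 < ‖w‖) : ‖w⁻¹‖ < 1 := by
  rw [norm_inv]; exact inv_lt_one_of_one_lt₀ hw

lemma t_mem {w : ℂ} (hw : 1 < ‖w‖) : t w ∈ H := T_mem (inv_lt hw)

lemma t_ne {w : ℂ} (hw : 1 < ‖w‖) : t w ≠ 0 := by
  intro h
  have := T_inj (inv_lt hw) (w := 0) (by simp) (by rw [T_zero]; exact h)
  exact ne0 hw (inv_eq_zero.mp this)

lemma t_inj {z w : ℂ} (hz : 1 < ‖z‖) (hw : 1 < ‖w‖) (h : t z = t w) : z = w :=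
  inv_injective (T_inj (inv_lt hz) (inv_lt hw) h)

lemma t_deriv {w : ℂ} (hw : 1 < ‖w‖) : HasDerivAt t (t1 w) w := by
  have d := (T_deriv (inv_lt hw)).comp w (hasDerivAt_inv (ne0 hw))
  refine HasDerivAt.congr_deriv d ?_
  rw [exp_T (inv_lt hw)]
  have := ne0 hw
  have := ne1 hw
  unfold t1
  field_simp

lemma inv1_deriv {w : ℂ} (hw : 1 < ‖w‖) :
    HasDerivAt (fun w : ℂ => (w - 1)⁻¹) (-((w - 1)⁻¹ ^ 2)) w := by
  have d := ((hasDerivAt_id w).sub_const 1).inv (ne1 hw)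
  refine HasDerivAt.congr_deriv d ?_
  simp [neg_div]

lemma t1_deriv {w : ℂ} (hw : 1 < ‖w‖) : HasDerivAt t1 (t1 w * p w) w := by
  have d := ((hasDerivAt_inv (ne0 hw)).mul (inv1_deriv hw)).neg
  refine HasDerivAt.congr_deriv d ?_
  have := ne0 hw
  have := ne1 hw
  unfold t1 p
  field_simp
  ring

lemma p_deriv {w : ℂ} (hw : 1 < ‖w‖) : HasDerivAt p (p1 w) w := by
  have d := ((hasDerivAt_inv (ne0 hw)).neg).sub (inv1_deriv hw)
  refine HasDerivAt.congr_deriv d ?_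
  unfold p1
  simp

lemma t1_ne {w : ℂ} (hw : 1 < ‖w‖) : t1 w ≠ 0 := by
  unfold t1
  exact neg_ne_zero.mpr (mul_ne_zero (inv_ne_zero (ne0 hw)) (inv_ne_zero (ne1 hw)))

lemma weight_le {w : ℂ} (hw : 1 < ‖w‖) : (‖w‖ ^ 2 - 1) * ‖t1 w‖ ≤ 2 := by
  unfold t1
  rw [norm_neg, norm_mul, norm_inv, norm_inv]
  have h1 : ‖w‖ - 1 ≤ ‖w - 1‖ := by simpa using norm_sub_norm_le w 1
  have h0 : 0 < ‖w - 1‖ := by linarith
  have h2 : 0 < ‖w‖ := by linarith
  rw [← mul_inv, ← div_eq_mul_inv, div_le_iff₀ (by positivity)]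
  nlinarith

lemma comp (φ φ1 Q Q1 : ℂ → ℂ) (h1 : ∀ s ∈ H, s ≠ 0 → HasDerivAt φ (φ1 s) s)
    (h2 : ∀ s ∈ H, s ≠ 0 → HasDerivAt φ1 (φ1 s * Q s) s) (hne : ∀ s ∈ H, s ≠ 0 → φ1 s ≠ 0)
    (h3 : ∀ s ∈ H, s ≠ 0 → HasDerivAt Q (Q1 s) s) (z : ℂ) (hz : 1 < ‖z‖) :
    deriv (deriv (φ ∘ t)) z / deriv (φ ∘ t) z = Q (t z) * t1 z + p z ∧
      deriv (fun w => deriv (deriv (φ ∘ t)) w / deriv (φ ∘ t) w) z
        - (1 / 2 : ℂ) * (deriv (deriv (φ ∘ t)) z / deriv (φ ∘ t) z) ^ 2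
        = (Q1 (t z) - Q (t z) ^ 2 / 2) * t1 z ^ 2 + (p1 z - p z ^ 2 / 2) := by
  have := schw (φ ∘ t) (fun z => φ1 (t z) * t1 z) (fun z => Q (t z) * t1 z + p z)
    (fun z => (Q1 (t z) * t1 z * t1 z + Q (t z) * (t1 z * p z)) + p1 z)
    (fun z hz => (h1 _ (t_mem hz) (t_ne hz)).comp z (t_deriv hz))
    (fun z hz => by
      have d := ((h2 _ (t_mem hz) (t_ne hz)).comp z (t_deriv hz)).mul (t1_deriv hz)
      refine HasDerivAt.congr_deriv d ?_
      simp only [Function.comp]; ring)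
    (fun z hz => mul_ne_zero (hne _ (t_mem hz) (t_ne hz)) (t1_ne hz))
    (fun z hz => (((h3 _ (t_mem hz) (t_ne hz)).comp z (t_deriv hz)).mul (t1_deriv hz)).add
      (p_deriv hz)) z hz
  refine ⟨this.1, ?_⟩
  rw [this.2, this.1]; ring

noncomputable def f : ℂ → ℂ := (fun s : ℂ => s⁻¹) ∘ t

lemma f_spec (z : ℂ) (hz : 1 < ‖z‖) :
    deriv (deriv f) z / deriv f z = -2 * (t z)⁻¹ * t1 z + p z ∧
      deriv (fun w => deriv (deriv f) w / deriv f w) z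
        - (1 / 2 : ℂ) * (deriv (deriv f) z / deriv f z) ^ 2 = (p1 z - p z ^ 2 / 2) := by
  have := comp (fun s : ℂ => s⁻¹) (fun s => -(s⁻¹ ^ 2)) (fun s => -2 * s⁻¹) (fun s => 2 * s⁻¹ ^ 2)
    (fun s _ hs => HasDerivAt.congr_deriv (hasDerivAt_inv hs) (by simp))
    (fun s _ hs => HasDerivAt.congr_deriv (((hasDerivAt_inv hs).pow 2).neg) (by
      simp; field_simp))
    (fun s _ hs => neg_ne_zero.mpr (pow_ne_zero _ (inv_ne_zero hs)))
    (fun s _ hs => HasDerivAt.congr_deriv ((hasDerivAt_inv hs).const_mul (-2)) (by simp)) z hz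
  refine ⟨this.1, ?_⟩
  have h2 := this.2
  unfold f
  rw [h2]; ring

lemma t_small {z : ℂ} (hz : 2 < ‖z‖) : ‖t z - z⁻¹‖ ≤ ‖z⁻¹‖ ^ 2 ∧ ‖z⁻¹‖ < 1 / 2 := by
  have h1 : ‖z⁻¹‖ < 1 / 2 := by
    rw [norm_inv, one_div]; exact inv_strictAnti₀ (by norm_num) hz
  refine ⟨?_, h1⟩
  have h2 := norm_log_one_add_sub_self_le (z := -z⁻¹) (by rw [norm_neg]; linarith)
  have e : t z - z⁻¹ = -(log (1 + -z⁻¹) - -z⁻¹) := by
    unfold t T; rw [sub_eq_add_neg 1]; ring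
  rw [e, norm_neg]
  rw [norm_neg] at h2
  have h3 : (1 - ‖z⁻¹‖)⁻¹ ≤ 2 := by
    rw [inv_le_comm₀ (by linarith) (by norm_num)]; linarith
  nlinarith [sq_nonneg ‖z⁻¹‖]

lemma f_bdd {z : ℂ} (hz : 2 < ‖z‖) : ‖f z - z‖ ≤ 2 := by
  obtain ⟨h1, h2⟩ := t_small hz
  have hz1 : 1 < ‖z‖ := by linarith
  have h0 := t_ne hz1
  have h00 := ne0 hz1
  have hu : 0 < ‖z⁻¹‖ := norm_pos_iff.mpr (inv_ne_zero h00)
  have h3 : ‖z⁻¹‖ / 2 ≤ ‖t z‖ := by
    have := norm_sub_norm_le z⁻¹ (t z)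
    rw [norm_sub_rev] at this
    nlinarith
  have e : f z - z = -((t z - z⁻¹) / (t z * z⁻¹)) := by
    simp only [f, Function.comp]; field_simp; ring
  rw [e, norm_neg, norm_div, norm_mul, div_le_iff₀ (by have := norm_pos_iff.mpr h0; positivity)]
  nlinarith

lemma f_S : DifferentiableOn ℂ f {z : ℂ | 1 < ‖z‖} ∧ Set.InjOn f {z : ℂ | 1 < ‖z‖} ∧
    ∃ C : ℝ, ∀ z : ℂ, 2 < ‖z‖ → ‖f z - z‖ ≤ C := by
  refine ⟨fun z hz => ?_, fun z hz w hw h => t_inj hz hw (inv_injective h), 2, fun z hz => f_bdd hz⟩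
  exact ((hasDerivAt_inv (t_ne hz)).comp z (t_deriv hz)).differentiableAt.differentiableWithinAt

noncomputable def tau (n : ℕ) : ℂ := ((n + 64 : ℝ) : ℂ) + 4 * I
noncomputable def A (n : ℕ) : ℂ := 2 * Real.pi * I / tau n

lemma tau_norm (n : ℕ) : (n + 64 : ℝ) ≤ ‖tau n‖ := by
  have := re_le_norm (tau n)
  simpa [tau] using this

lemma tau_ne (n : ℕ) : tau n ≠ 0 := by
  have := tau_norm n
  have h : (0 : ℝ) ≤ n := Nat.cast_nonneg n
  exact norm_pos_iff.mp (by linarith)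

lemma A_ne (n : ℕ) : A n ≠ 0 := div_ne_zero two_pi_I_ne_zero (tau_ne n)

lemma A_norm (n : ℕ) : ‖A n‖ ≤ 8 / (n + 64) := by
  have h : (0 : ℝ) ≤ n := Nat.cast_nonneg n
  have h1 := tau_norm n
  have h2 : ‖(2 * Real.pi * I : ℂ)‖ ≤ 8 := by
    have := Real.pi_le_four
    simp [abs_of_pos Real.pi_pos]; linarith
  unfold A
  rw [norm_div]
  gcongr

lemma exp_A_inj (n : ℕ) {s r : ℂ} (hs : |s.im| < Real.pi / 2) (hr : |r.im| < Real.pi / 2)
    (h : exp (A n * s) = exp (A n * r)) : s = r := by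
  obtain ⟨k, hk⟩ := exp_eq_exp_iff_exists_int.mp h
  have e : s = r + k * tau n := by
    apply mul_left_cancel₀ (A_ne n)
    rw [hk]; unfold A
    have := tau_ne n
    field_simp
  have e2 : s.im = r.im + k * 4 := by rw [e]; simp [tau]
  have h1 := abs_lt.mp hs
  have h2 := abs_lt.mp hr
  have h3 := Real.pi_le_four
  have h4 : (k : ℝ) < 1 := by linarith
  have h5 : (-1 : ℝ) < k := by linarith
  have h6 : k < 1 := by exact_mod_cast h4
  have h7 : -1 < k := by exact_mod_cast h5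
  have : k = 0 := by omega
  rw [e, this]; simp

lemma E_ne (n : ℕ) {s : ℂ} (hs : s ∈ H) (h0 : s ≠ 0) : exp (A n * s) - 1 ≠ 0 := by
  intro h
  apply h0
  apply exp_A_inj n hs.2 (by simp [Real.pi_pos])
  rw [mul_zero, exp_zero]; linear_combination h

noncomputable def F (n : ℕ) : ℂ → ℂ := (fun s : ℂ => A n / (exp (A n * s) - 1)) ∘ t

lemma E_deriv (n : ℕ) (s : ℂ) : HasDerivAt (fun s => exp (A n * s)) (exp (A n * s) * A n) s := by
  simpa using ((hasDerivAt_id s).const_mul (A n)).cexp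

lemma phi_deriv (n : ℕ) {s : ℂ} (hs : s ∈ H) (h0 : s ≠ 0) :
    HasDerivAt (fun s : ℂ => A n / (exp (A n * s) - 1))
      (-(A n ^ 2 * exp (A n * s)) / (exp (A n * s) - 1) ^ 2) s := by
  have d := (hasDerivAt_const s (A n)).div ((E_deriv n s).sub_const 1) (E_ne n hs h0)
  refine HasDerivAt.congr_deriv d ?_
  ring

lemma F_spec (n : ℕ) (z : ℂ) (hz : 1 < ‖z‖) :
    deriv (deriv (F n)) z / deriv (F n) z
      = -(A n * (exp (A n * t z) + 1)) / (exp (A n * t z) - 1) * t1 z + p z ∧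
      deriv (fun w => deriv (deriv (F n)) w / deriv (F n) w) z
        - (1 / 2 : ℂ) * (deriv (deriv (F n)) z / deriv (F n) z) ^ 2
        = -(A n ^ 2 / 2) * t1 z ^ 2 + (p1 z - p z ^ 2 / 2) := by
  have := comp (fun s : ℂ => A n / (exp (A n * s) - 1))
    (fun s => -(A n ^ 2 * exp (A n * s)) / (exp (A n * s) - 1) ^ 2)
    (fun s => -(A n * (exp (A n * s) + 1)) / (exp (A n * s) - 1))
    (fun s => 2 * A n ^ 2 * exp (A n * s) / (exp (A n * s) - 1) ^ 2)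
    (fun s hs h0 => phi_deriv n hs h0)
    (fun s hs h0 => by
      have hE := E_ne n hs h0
      have d := (((E_deriv n s).const_mul (A n ^ 2)).neg).div (((E_deriv n s).sub_const 1).pow 2)
        (pow_ne_zero 2 hE)
      refine HasDerivAt.congr_deriv d ?_
      simp only [Pi.neg_apply, Pi.pow_apply]
      field_simp
      push_cast
      ring)
    (fun s hs h0 => div_ne_zero (neg_ne_zero.mpr (mul_ne_zero (pow_ne_zero _ (A_ne n))
      (exp_ne_zero _))) (pow_ne_zero 2 (E_ne n hs h0)))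
    (fun s hs h0 => by
      have hE := E_ne n hs h0
      have d := ((((E_deriv n s).add_const 1).const_mul (A n)).neg).div
        ((E_deriv n s).sub_const 1) hE
      refine HasDerivAt.congr_deriv d ?_
      simp only [Pi.neg_apply]
      field_simp
      ring) z hz
  refine ⟨this.1, ?_⟩
  have h2 := this.2
  unfold F
  rw [h2]
  have hE := E_ne n (t_mem hz) (t_ne hz)
  congr 2
  field_simp
  ring

lemma F_S (n : ℕ) : DifferentiableOn ℂ (F n) {z : ℂ | 1 < ‖z‖} ∧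
    Set.InjOn (F n) {z : ℂ | 1 < ‖z‖} ∧ ∃ C : ℝ, ∀ z : ℂ, 2 < ‖z‖ → ‖F n z - z‖ ≤ C := by
  refine ⟨fun z hz => ?_, fun z hz w hw h => ?_, 2 * ‖A n‖ + 2, fun z hz => ?_⟩
  · exact ((phi_deriv n (t_mem hz) (t_ne hz)).comp z
      (t_deriv hz)).differentiableAt.differentiableWithinAt
  · apply t_inj hz hw
    apply exp_A_inj n (t_mem hz).2 (t_mem hw).2
    have h1 := E_ne n (t_mem hz) (t_ne hz)
    have h2 := E_ne n (t_mem hw) (t_ne hw)
    have h3 := A_ne n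
    simp only [F, Function.comp] at h
    field_simp at h
    linear_combination -h
  · have hz1 : 1 < ‖z‖ := by linarith
    obtain ⟨h1, h2⟩ := t_small hz
    have h3 : ‖t z‖ ≤ 1 := by
      have := norm_sub_norm_le (t z) z⁻¹
      nlinarith [norm_nonneg z⁻¹]
    have hn : (0 : ℝ) ≤ n := Nat.cast_nonneg n
    have h4 : ‖A n‖ ≤ 1 / 2 := by
      refine le_trans (A_norm n) ?_
      rw [div_le_iff₀ (by linarith)]; linarith
    set x := A n * t z with hx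
    have h5 : ‖x‖ ≤ 1 / 2 := by
      rw [hx, norm_mul]; nlinarith [norm_nonneg (A n), norm_nonneg (t z)]
    have h6 := norm_exp_sub_one_sub_id_le (x := x) (by linarith)
    have hx0 : x ≠ 0 := mul_ne_zero (A_ne n) (t_ne hz1)
    have hxp : 0 < ‖x‖ := norm_pos_iff.mpr hx0
    have h7 : ‖x‖ / 2 ≤ ‖exp x - 1‖ := by
      have := norm_sub_norm_le x (exp x - 1)
      rw [norm_sub_rev x] at this
      nlinarith
    have hE := E_ne n (t_mem hz1) (t_ne hz1)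
    have ht := t_ne hz1
    have hA := A_ne n
    have e : F n z - z = -(A n * ((exp x - 1 - x) / (x * (exp x - 1)))) + (f z - z) := by
      simp only [F, f, Function.comp, hx]
      field_simp
      ring
    have h8 : ‖(exp x - 1 - x) / (x * (exp x - 1))‖ ≤ 2 := by
      rw [norm_div, norm_mul, div_le_iff₀ (by nlinarith)]
      nlinarith
    rw [e]
    refine le_trans (norm_add_le _ _) ?_
    rw [norm_neg, norm_mul]
    nlinarith [f_bdd hz, norm_nonneg (A n)]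

lemma d2_small (ε : ℝ) (hε : 0 < ε) : ∃ N : ℕ, ∀ n : ℕ, N ≤ n → ∀ z : ℂ, 1 < ‖z‖ →
    (‖z‖ ^ 2 - 1) ^ 2 *
      ‖(deriv (fun w => deriv (deriv (F n)) w / deriv (F n) w) z
          - (1 / 2 : ℂ) * (deriv (deriv (F n)) z / deriv (F n) z) ^ 2)
        - (deriv (fun w => deriv (deriv f) w / deriv f w) z
          - (1 / 2 : ℂ) * (deriv (deriv f) z / deriv f z) ^ 2)‖ ≤ ε := by
  obtain ⟨N, hN⟩ := exists_nat_gt (2 / ε)
  refine ⟨N, fun n hn z hz => ?_⟩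
  rw [(F_spec n z hz).2, (f_spec z hz).2, add_sub_cancel_right, norm_mul, norm_neg, norm_div,
    norm_pow, norm_pow]
  simp only [Complex.norm_ofNat]
  have h1 := weight_le hz
  have h0 : 0 ≤ (‖z‖ ^ 2 - 1) * ‖t1 z‖ := mul_nonneg (by nlinarith) (norm_nonneg _)
  have h2 : ((‖z‖ ^ 2 - 1) * ‖t1 z‖) ^ 2 ≤ 4 := by nlinarith
  have hn' : (N : ℝ) ≤ n := by exact_mod_cast hn
  have hn0 : (0 : ℝ) ≤ n := Nat.cast_nonneg n
  have h3 := A_norm n
  have h4 : ‖A n‖ ^ 2 ≤ (8 / (n + 64)) ^ 2 := by gcongr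
  have h5 : (8 / (n + 64 : ℝ)) ^ 2 ≤ ε / 2 := by
    rw [div_pow, div_le_iff₀ (by positivity)]
    rw [div_lt_iff₀ hε] at hN
    have : 2 < n * ε := by nlinarith
    nlinarith
  calc (‖z‖ ^ 2 - 1) ^ 2 * (‖A n‖ ^ 2 / 2 * ‖t1 z‖ ^ 2)
      = ((‖z‖ ^ 2 - 1) * ‖t1 z‖) ^ 2 * (‖A n‖ ^ 2 / 2) := by ring
    _ ≤ 4 * (ε / 2 / 2) := by gcongr; linarith
    _ = ε := by ring

lemma d1_big (n : ℕ) : ∃ z : ℂ, 1 < ‖z‖ ∧ 1 / 16 < (‖z‖ ^ 2 - 1) *
    ‖deriv (deriv (F n)) z / deriv (F n) z - deriv (deriv f) z / deriv f z‖ := by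
  have hn0 : (0 : ℝ) ≤ n := Nat.cast_nonneg n
  set R : ℝ := n + 64 with hR
  have hR0 : 0 < R := by linarith
  have hc1 : Real.exp (-R) < 1 := Real.exp_lt_one_iff.mpr (by linarith)
  have hc0 := Real.exp_pos (-R)
  set w : ℝ := (1 - Real.exp (-R))⁻¹ with hw
  have hw1 : 1 < w := by rw [hw]; exact one_lt_inv_iff₀.mpr ⟨by linarith, by linarith⟩
  have hnw : ‖(w : ℂ)‖ = w := by rw [norm_real, Real.norm_eq_abs, abs_of_pos (by linarith)]
  have hz : 1 < ‖(w : ℂ)‖ := by rw [hnw]; exact hw1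
  have ht : t w = R := by
    have : ((w : ℂ))⁻¹ = Z R := by rw [hw, Z]; push_cast; simp
    rw [t, this, T_Z]
  refine ⟨w, hz, ?_⟩
  rw [(F_spec n w hz).1, (f_spec w hz).1, ht, add_sub_add_right_eq_sub, ← sub_mul, norm_mul,
    mul_comm ‖_ - _‖, ← mul_assoc]
  have h1 : 1 ≤ (‖(w : ℂ)‖ ^ 2 - 1) * ‖t1 w‖ := by
    have e : t1 w = ((-(w⁻¹ * (w - 1)⁻¹) : ℝ) : ℂ) := by unfold t1; push_cast; ring
    rw [e, hnw, norm_real, Real.norm_eq_abs, abs_neg,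
      abs_of_pos (by have : 0 < w - 1 := by linarith
                     positivity)]
    have : 0 < w - 1 := by linarith
    rw [← mul_inv, ← div_eq_mul_inv, le_div_iff₀ (by positivity)]
    nlinarith
  set ζ : ℂ := -(4 * I * A n) with hζ
  have e1 : exp (A n * R) = exp ζ := by
    have : A n * R = ζ + 2 * Real.pi * I := by
      have h := tau_ne n
      have e : (R : ℂ) = tau n - 4 * I := by rw [tau, hR]; ring
      rw [hζ, e]; unfold A; field_simp; ring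
    rw [this, exp_add, exp_two_pi_mul_I, mul_one]
  have hA := A_norm n
  have hAp : 0 < ‖A n‖ := norm_pos_iff.mpr (A_ne n)
  have hζn : ‖ζ‖ = 4 * ‖A n‖ := by rw [hζ]; simp
  have hA2 : ‖A n‖ ≤ 1 / 8 := by
    refine le_trans hA ?_
    rw [div_le_iff₀ (by linarith)]; linarith
  have h2 := norm_exp_sub_one_le (x := ζ) (by linarith)
  have hE : exp ζ - 1 ≠ 0 := by
    rw [← e1]; exact E_ne n (s := R) ⟨by simp; linarith, by simp [Real.pi_pos]⟩ (by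
      exact_mod_cast hR0.ne')
  have hEp := norm_pos_iff.mpr hE
  have h3 : 1 ≤ ‖exp ζ + 1‖ := by
    have := norm_sub_norm_le (2 : ℂ) (-(exp ζ - 1))
    have e : (2 : ℂ) - -(exp ζ - 1) = exp ζ + 1 := by ring
    rw [e, norm_neg] at this
    simp only [Complex.norm_ofNat] at this
    linarith
  have h4 : 1 / 8 ≤ ‖-(A n * (exp ζ + 1)) / (exp ζ - 1)‖ := by
    rw [norm_div, norm_neg, norm_mul, le_div_iff₀ hEp]
    nlinarith
  have h5 : ‖-2 * (R : ℂ)⁻¹‖ ≤ 1 / 32 := by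
    rw [norm_mul, norm_neg, norm_inv, norm_real, Real.norm_eq_abs, abs_of_pos hR0]
    simp only [Complex.norm_ofNat]
    rw [← div_eq_mul_inv, div_le_iff₀ hR0]; linarith
  rw [e1]
  have h6 := norm_sub_norm_le (-(A n * (exp ζ + 1)) / (exp ζ - 1)) (-2 * (R : ℂ)⁻¹)
  nlinarith

end Pool.Agent.H91.SchwPre
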