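import Mathlib
set_option autoImplicit false

namespace H91.SecondIdx

/-- numerical radius -/
noncomputable def v {X : Type*} [NormedAddCommGroup X] [NormedSpace ℝ X] (T : X →L[ℝ] X) : ℝ :=
  sSup {r : ℝ | ∃ (x : X) (f : X →L[ℝ] ℝ), ‖x‖ = 1 ∧ ‖f‖ = 1 ∧ f x = 1 ∧ r = |f (T x)|}

/-- quotient norm modulo the skew-hermitian operators -/
noncomputable def qn {X : Type*} [NormedAddCommGroup X] [NormedSpace ℝ X] (T : X →L[ℝ] X) : ℝ :=
  sInf {r : ℝ | ∃ S : X →L[ℝ] X, v S = 0 ∧ r = ‖T - S‖}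

/-- second numerical index -/
noncomputable def n2 (X : Type*) [NormedAddCommGroup X] [NormedSpace ℝ X] : ℝ :=
  sSup {k : ℝ | 0 ≤ k ∧ ∀ T : X →L[ℝ] X, k * qn T ≤ v T}

section
variable {X : Type*} [NormedAddCommGroup X] [NormedSpace ℝ X]

lemma le_v (T : X →L[ℝ] X) {x : X} {f : X →L[ℝ] ℝ} (hx : ‖x‖ = 1) (hf : ‖f‖ = 1) (h : f x = 1) :
    |f (T x)| ≤ v T := by
  refine le_csSup ⟨‖T‖, ?_⟩ ⟨x, f, hx, hf, h, rfl⟩
  rintro r ⟨x, f, hx, hf, -, rfl⟩
  calc |f (T x)| ≤ ‖f‖ * ‖T x‖ := f.le_opNorm _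
    _ ≤ 1 * (‖T‖ * ‖x‖) := by rw [hf]; gcongr; exact T.le_opNorm _
    _ = ‖T‖ := by rw [hx]; ring

lemma v_le (T : X →L[ℝ] X) {c : ℝ} (hc : 0 ≤ c)
    (h : ∀ (x : X) (f : X →L[ℝ] ℝ), ‖x‖ = 1 → ‖f‖ = 1 → f x = 1 → |f (T x)| ≤ c) : v T ≤ c := by
  refine Real.sSup_le ?_ hc
  rintro r ⟨x, f, hx, hf, h1, rfl⟩
  exact h x f hx hf h1

lemma v_nonneg (T : X →L[ℝ] X) : 0 ≤ v T := by
  refine Real.sSup_nonneg ?_
  rintro r ⟨x, f, -, -, -, rfl⟩
  exact abs_nonneg _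

lemma v_zero : v (0 : X →L[ℝ] X) = 0 :=
  le_antisymm (v_le _ le_rfl fun x f _ _ _ => by simp) (v_nonneg _)

lemma qn_le (T S : X →L[ℝ] X) (hS : v S = 0) : qn T ≤ ‖T - S‖ := by
  refine csInf_le ⟨0, ?_⟩ ⟨S, hS, rfl⟩
  rintro r ⟨S, -, rfl⟩
  exact norm_nonneg _

lemma le_qn (T : X →L[ℝ] X) {c : ℝ} (h : ∀ S : X →L[ℝ] X, v S = 0 → c ≤ ‖T - S‖) : c ≤ qn T := by
  refine le_csInf ⟨_, 0, v_zero, rfl⟩ ?_
  rintro r ⟨S, hS, rfl⟩
  exact h S hS

lemma bdd [Nontrivial X] : BddAbove {k : ℝ | 0 ≤ k ∧ ∀ T : X →L[ℝ] X, k * qn T ≤ v T} := by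
  refine ⟨1, ?_⟩
  rintro k ⟨hk, h⟩
  obtain ⟨x, hx⟩ := exists_norm_eq X zero_le_one
  obtain ⟨f, hf, hfx⟩ := exists_dual_vector ℝ x (by rw [hx]; norm_num)
  rw [hx] at hfx
  have hfx' : f x = 1 := by simpa using hfx
  have h1 : v (ContinuousLinearMap.id ℝ X) ≤ 1 := v_le _ zero_le_one fun x f _ _ h => by simp [h]
  have h2 : 1 ≤ qn (ContinuousLinearMap.id ℝ X) := by
    refine le_qn _ fun S hS => ?_
    have h3 := le_v S hx hf hfx'
    rw [hS] at h3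
    have h4 : f (S x) = 0 := abs_nonpos_iff.1 h3
    have h5 : f ((ContinuousLinearMap.id ℝ X - S) x) = 1 := by simp [hfx', h4]
    calc (1:ℝ) = |f ((ContinuousLinearMap.id ℝ X - S) x)| := by rw [h5]; simp
      _ ≤ ‖f‖ * ‖(ContinuousLinearMap.id ℝ X - S) x‖ := f.le_opNorm _
      _ ≤ 1 * (‖ContinuousLinearMap.id ℝ X - S‖ * ‖x‖) := by
          rw [hf]; gcongr; exact ContinuousLinearMap.le_opNorm _ _
      _ = _ := by rw [hx]; ring
  have := h (ContinuousLinearMap.id ℝ X)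
  nlinarith

end

/-- abstract compression lemma -/
lemma compress {X Y : Type*} [NormedAddCommGroup X] [NormedSpace ℝ X] [NormedAddCommGroup Y]
    [NormedSpace ℝ Y] [Nontrivial Y] (J : Y →L[ℝ] X) (P : X →L[ℝ] Y) (hJ : ∀ y, ‖J y‖ = ‖y‖)
    (hP : ∀ x, ‖P x‖ ≤ ‖x‖) (hPJ : ∀ y, P (J y) = y)
    (habs : ∀ x y, ‖y‖ = ‖P x‖ → ‖x - J (P x) + J y‖ = ‖x‖) : n2 X ≤ n2 Y := by
  refine csSup_le_csSup bdd ⟨0, le_rfl, fun T => by simpa using v_nonneg T⟩ ?_
  rintro k ⟨hk, h⟩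
  refine ⟨hk, fun T => ?_⟩
  have h1 := h (J ∘L T ∘L P)
  have h2 : qn T ≤ qn (J ∘L T ∘L P) := by
    refine le_qn _ fun S hS => ?_
    have hv : v (P ∘L S ∘L J) = 0 := by
      refine le_antisymm (v_le _ le_rfl fun y g hy hg hgy => ?_) (v_nonneg _)
      have hn : ‖g ∘L P‖ = 1 := by
        apply le_antisymm
        · refine ContinuousLinearMap.opNorm_le_bound _ zero_le_one fun x => ?_
          calc ‖g (P x)‖ ≤ ‖g‖ * ‖P x‖ := g.le_opNorm _
            _ ≤ 1 * ‖x‖ := by rw [hg]; gcongr; exact hP x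
        · have := (g ∘L P).le_opNorm (J y)
          simpa [hPJ, hgy, hJ, hy] using this
      have := le_v S (x := J y) (f := g ∘L P) (by rw [hJ, hy]) hn (by simp [hPJ, hgy])
      rw [hS] at this
      simpa using this
    refine (qn_le T _ hv).trans ?_
    refine ContinuousLinearMap.opNorm_le_bound _ (norm_nonneg _) fun y => ?_
    have e : (T - P ∘L S ∘L J) y = P ((J ∘L T ∘L P - S) (J y)) := by simp [hPJ]
    rw [e]
    refine (hP _).trans ?_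
    rw [← hJ y]
    exact ContinuousLinearMap.le_opNorm _ _
  have h3 : v (J ∘L T ∘L P) ≤ v T := by
    refine v_le _ (v_nonneg T) fun x f hx hf hfx => ?_
    set y := P x with hy
    set g : Y →L[ℝ] ℝ := f ∘L J with hg
    show |g (T y)| ≤ v T
    by_cases hy0 : y = 0
    · simp [hy0, v_nonneg]
    by_cases hg0 : g = 0
    · simp [hg0, v_nonneg]
    have hyp : 0 < ‖y‖ := norm_pos_iff.2 hy0
    have hgp : 0 < ‖g‖ := norm_pos_iff.2 hg0
    have hy1 : ‖y‖ ≤ 1 := hx ▸ hP x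
    have hg1 : ‖g‖ ≤ 1 := by
      refine ContinuousLinearMap.opNorm_le_bound _ zero_le_one fun z => ?_
      calc ‖f (J z)‖ ≤ ‖f‖ * ‖J z‖ := f.le_opNorm _
        _ = 1 * ‖z‖ := by rw [hf, hJ]
    have key : ∀ z, ‖z‖ = ‖y‖ → g z ≤ g y := by
      intro z hz
      have h4 := habs x z hz
      have h5 : f (x - J (P x) + J z) ≤ 1 := by
        calc f (x - J (P x) + J z) ≤ ‖f (x - J (P x) + J z)‖ := Real.le_norm_self _
          _ ≤ ‖f‖ * ‖x - J (P x) + J z‖ := f.le_opNorm _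
          _ = 1 := by rw [h4, hf, hx]; ring
      rw [map_add, map_sub, hfx] at h5
      show f (J z) ≤ f (J (P x))
      linarith
    have hgy0 : 0 ≤ g y := by
      have := key (-y) (norm_neg _)
      rw [map_neg] at this; linarith
    have key2 : ‖g‖ ≤ g y / ‖y‖ := by
      refine ContinuousLinearMap.opNorm_le_of_unit_norm (by positivity) fun z hz => ?_
      have a1 := key (‖y‖ • z) (by rw [norm_smul, hz]; simp)
      have a2 := key (-(‖y‖ • z)) (by rw [norm_neg, norm_smul, hz]; simp)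
      rw [map_neg, map_smul, smul_eq_mul] at a2
      rw [map_smul, smul_eq_mul] at a1
      have a3 : |g z| * ‖y‖ = |g z * ‖y‖| := by rw [abs_mul, abs_of_pos hyp]
      rw [Real.norm_eq_abs, le_div_iff₀ hyp, a3]
      rw [abs_le]; constructor <;> linarith
    have key3 : g y = ‖g‖ * ‖y‖ := by
      apply le_antisymm
      · exact (Real.le_norm_self _).trans (g.le_opNorm y)
      · rwa [le_div_iff₀ hyp] at key2
    have h6 := le_v T (x := ‖y‖⁻¹ • y) (f := ‖g‖⁻¹ • g)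
      (by rw [norm_smul, norm_inv, norm_norm]; field_simp)
      (by rw [norm_smul, norm_inv, norm_norm]; field_simp)
      (by simp only [_root_.smul_apply, map_smul, smul_eq_mul, key3]; field_simp)
    simp only [_root_.smul_apply, map_smul, smul_eq_mul, abs_mul, abs_inv, abs_norm] at h6
    have h7 : |g (T y)| = ‖y‖ * ‖g‖ * (‖y‖⁻¹ * (‖g‖⁻¹ * |g (T y)|)) := by field_simp
    rw [h7]
    calc ‖y‖ * ‖g‖ * (‖y‖⁻¹ * (‖g‖⁻¹ * |g (T y)|)) ≤ 1 * 1 * v T := by gcongr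
      _ = v T := by ring
  calc k * qn T ≤ k * qn (J ∘L T ∘L P) := by gcongr
    _ ≤ v T := h1.trans h3

theorem main (Y W : Type*) [NormedAddCommGroup Y] [NormedSpace ℝ Y] [CompleteSpace Y]
    [Nontrivial Y] [NormedAddCommGroup W] [NormedSpace ℝ W] [CompleteSpace W] [Nontrivial W] :
    n2 (WithLp 2 (Y × W)) ≤ min (n2 Y) (n2 W) := by
  have hn : ∀ x : WithLp 2 (Y × W), ‖x‖ = √(‖x.fst‖ ^ 2 + ‖x.snd‖ ^ 2) := fun x =>
    WithLp.prod_norm_eq_of_L2 x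
  let e := WithLp.prodContinuousLinearEquiv 2 ℝ Y W
  refine le_min ?_ ?_
  · refine compress (e.symm.toContinuousLinearMap ∘L ContinuousLinearMap.inl ℝ Y W)
      (ContinuousLinearMap.fst ℝ Y W ∘L e.toContinuousLinearMap) (fun y => ?_) (fun x => ?_)
      (fun y => rfl) (fun x y h => ?_)
    · rw [hn]; simp [e]
    · rw [hn]
      exact Real.le_sqrt_of_sq_le (by simp [e])
    · rw [hn, hn]; simp [e] at h ⊢; rw [h]
  · refine compress (e.symm.toContinuousLinearMap ∘L ContinuousLinearMap.inr ℝ Y W)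
      (ContinuousLinearMap.snd ℝ Y W ∘L e.toContinuousLinearMap) (fun y => ?_) (fun x => ?_)
      (fun y => rfl) (fun x y h => ?_)
    · rw [hn]; simp [e]
    · rw [hn]
      exact Real.le_sqrt_of_sq_le (by simp [e])
    · rw [hn, hn]; simp [e] at h ⊢; rw [h]

end H91.SecondIdx
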