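import Mathlib

set_option autoImplicit false

namespace H91.Shear
open Filter Topology Set Metric

/-- normal Loewner chain on the unit bidisc (the unit ball of `ℂ × ℂ` for the max norm) -/
def Chain (f : ℝ → ℂ × ℂ → ℂ × ℂ) : Prop :=
  (∀ t : ℝ, 0 ≤ t → DifferentiableOn ℂ (f t) (ball 0 1) ∧ InjOn (f t) (ball 0 1) ∧ f t 0 = 0 ∧
    fderiv ℂ (f t) 0 = (Real.exp t : ℂ) • ContinuousLinearMap.id ℂ (ℂ × ℂ)) ∧
  (∀ s t : ℝ, 0 ≤ s → s ≤ t → f s '' ball 0 1 ⊆ f t '' ball 0 1) ∧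
  ∀ τ : ℕ → ℝ, (∀ n, 0 ≤ τ n) → ∃ (φ : ℕ → ℕ) (G : ℂ × ℂ → ℂ × ℂ), StrictMono φ ∧
    TendstoLocallyUniformlyOn (fun n z => (Real.exp (-τ (φ n)) : ℂ) • f (τ (φ n)) z) G atTop
      (ball 0 1)

/-- the class `S^0(U^2, M)` -/
def S0 (M : ℝ) (g : ℂ × ℂ → ℂ × ℂ) : Prop :=
  (∃ f, Chain f ∧ f 0 = g) ∧ ∀ z ∈ ball (0 : ℂ × ℂ) 1, ‖g z‖ ≤ M

def sh (a : ℝ) (z : ℂ × ℂ) : ℂ × ℂ := (z.1 + a * z.2 ^ 2, z.2)

lemma sh_mem (a : ℝ) (h0 : 0 ≤ a) (h1 : a ≤ 1) : S0 2 (sh a) := by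
  have hd : HasFDerivAt (sh a) (ContinuousLinearMap.id ℂ (ℂ × ℂ)) 0 := by
    have h2 := (((hasFDerivAt_snd (𝕜 := ℂ) (p := (0 : ℂ × ℂ))).pow 2).const_mul (a : ℂ))
    have h3 := ((hasFDerivAt_fst (𝕜 := ℂ) (p := (0 : ℂ × ℂ))).add h2).prodMk
      (hasFDerivAt_snd (𝕜 := ℂ) (p := (0 : ℂ × ℂ)))
    refine h3.congr_fderiv ?_
    ext <;> simp
  refine ⟨⟨fun t z => (Real.exp t : ℂ) • sh a z, ⟨fun t _ => ⟨?_, ?_, ?_, ?_⟩, ?_, ?_⟩, ?_⟩, ?_⟩
  · unfold sh; fun_prop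
  · intro z _ w _ h
    have h2 : sh a z = sh a w :=
      smul_right_injective _ (Complex.ofReal_ne_zero.2 (Real.exp_pos t).ne') h
    have h3 : z.2 = w.2 := (Prod.ext_iff.1 h2).2
    have h4 : z.1 + a * z.2 ^ 2 = w.1 + a * w.2 ^ 2 := congrArg Prod.fst h2
    rw [h3] at h4
    exact Prod.ext (add_right_cancel h4) h3
  · simp [sh]
  · exact (hd.const_smul (Real.exp t : ℂ)).fderiv
  · rintro s t _ hst _ ⟨z, hz, rfl⟩
    set l := Real.exp (s - t) with hl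
    have hl0 : 0 < l := Real.exp_pos _
    have hl1 : l ≤ 1 := Real.exp_le_one_iff.2 (by linarith)
    rw [mem_ball_zero_iff, Prod.norm_def, max_lt_iff] at hz
    refine ⟨(l * z.1 + ((a * (l * (1 - l)) : ℝ) : ℂ) * z.2 ^ 2, l * z.2), ?_, ?_⟩
    · rw [mem_ball_zero_iff, Prod.norm_def, max_lt_iff]
      have h5 : 0 ≤ l * (1 - l) := mul_nonneg hl0.le (by linarith)
      constructor
      · refine (norm_add_le _ _).trans_lt ?_
        rw [norm_mul, norm_mul, Complex.norm_real, Complex.norm_real, norm_pow, Real.norm_eq_abs,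
          Real.norm_eq_abs, abs_of_pos hl0, abs_of_nonneg (mul_nonneg h0 h5)]
        have h6 : ‖z.2‖ ^ 2 ≤ 1 := by nlinarith [norm_nonneg z.2]
        have h7 : a * (l * (1 - l)) * ‖z.2‖ ^ 2 ≤ 1 * (l * (1 - l)) * 1 := by gcongr
        nlinarith [sq_nonneg (1 - l)]
      · simp only
        rw [norm_mul, Complex.norm_real, Real.norm_eq_abs, abs_of_pos hl0]
        nlinarith [norm_nonneg z.2]
    · have h8 : (Real.exp s : ℂ) = Real.exp t * l := by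
        rw [hl, ← Complex.ofReal_mul, ← Real.exp_add]; congr 2; ring
      simp only [sh, h8, Prod.smul_mk, smul_eq_mul]
      push_cast
      ext <;> simp only <;> ring
  · intro τ _
    refine ⟨id, sh a, strictMono_id, ?_⟩
    have : (fun n z => (Real.exp (-τ (id n)) : ℂ) • (Real.exp (τ (id n)) : ℂ) • sh a z) =
        fun _ : ℕ => sh a := by
      funext n z
      rw [smul_smul, ← Complex.ofReal_mul, ← Real.exp_add]; simp
    rw [this]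
    exact TendstoUniformlyOn.tendstoLocallyUniformlyOn
      (fun u hu => Eventually.of_forall fun _ _ _ => refl_mem_uniformity hu)
  · funext z; simp
  · intro z hz
    rw [mem_ball_zero_iff, Prod.norm_def, max_lt_iff] at hz
    rw [Prod.norm_def]
    refine max_le ((norm_add_le _ _).trans ?_) (by simp only [sh]; linarith)
    rw [norm_mul, Complex.norm_real, norm_pow, Real.norm_eq_abs, abs_of_nonneg h0]
    have h6 : ‖z.2‖ ^ 2 ≤ 1 := by nlinarith [norm_nonneg z.2]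
    nlinarith [sq_nonneg ‖z.2‖]

theorem main : ∃ (M l : ℝ) (g h : ℂ × ℂ → ℂ × ℂ), 1 < M ∧ 0 < l ∧ l < 1 ∧ S0 M g ∧ S0 M h ∧
    (∃ z ∈ ball (0 : ℂ × ℂ) 1, g z ≠ h z) ∧
    ∀ z : ℂ × ℂ, (z.1 + (1 - 1 / (M : ℂ)) * z.2 ^ 2, z.2) = l • g z + (1 - l) • h z := by
  refine ⟨2, 1 / 2, sh 1, sh 0, by norm_num, by norm_num, by norm_num,
    sh_mem 1 (by norm_num) le_rfl, sh_mem 0 le_rfl (by norm_num), ⟨(0, 1 / 2), ?_, ?_⟩, fun z => ?_⟩
  · rw [mem_ball_zero_iff, Prod.norm_def]; simp; norm_num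
  · simp [sh]
  · ext <;> simp [sh] <;> ring

end H91.Shear
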