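import Mathlib

set_option autoImplicit false

namespace Pool.Agent.H91.SigmaMean

open Complex Metric

/-- Laurent coefficients of `z * P (z⁻¹ ^ m)`. -/
noncomputable def co (P : ℂ → ℂ) (m : ℕ) (n : ℕ) : ℂ :=
  if (n + 1) % m = 0 then (((n + 1) / m).factorial : ℂ)⁻¹ * iteratedDeriv ((n + 1) / m) P 0 else 0

lemma hasSum_co (P : ℂ → ℂ) (hP : DifferentiableOn ℂ P (ball 0 1)) (h0 : P 0 = 1)
    (m : ℕ) (hm : 1 ≤ m) (z : ℂ) (hz : 1 < ‖z‖) :
    HasSum (fun n : ℕ => co P m n * z⁻¹ ^ n) (z * P (z⁻¹ ^ m) - z) := by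
  have hz0 : z ≠ 0 := by
    intro h; rw [h, norm_zero] at hz; linarith
  have hv : z⁻¹ ^ m ∈ ball (0 : ℂ) 1 := by
    rw [mem_ball_zero_iff, norm_pow, norm_inv]
    exact pow_lt_one₀ (by positivity) (inv_lt_one_of_one_lt₀ hz) (by omega)
  have h1 := hasSum_taylorSeries_on_ball hP hv
  rw [← hasSum_nat_add_iff' 1] at h1
  have h2 := h1.mul_left z
  simp only [Finset.range_one, Finset.sum_singleton, Nat.factorial_zero, Nat.cast_one, inv_one,
    pow_zero, iteratedDeriv_zero, h0, smul_eq_mul, mul_one, sub_zero] at h2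
  have hinj : Function.Injective (fun k : ℕ => m * k + (m - 1)) := by
    intro a b hab
    simp only at hab
    have : m * a = m * b := by omega
    exact Nat.eq_of_mul_eq_mul_left (by omega) this
  rw [← hinj.hasSum_iff]
  · rw [mul_sub, mul_one] at h2
    have : ((fun n : ℕ => co P m n * z⁻¹ ^ n) ∘ fun k : ℕ => m * k + (m - 1)) = fun k : ℕ =>
        z * ((((k + 1).factorial : ℕ) : ℂ)⁻¹ * ((z⁻¹ ^ m) ^ (k + 1) * iteratedDeriv (k + 1) P 0)) := ?_
    · rw [this]; exact h2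
    funext k
    have e1 : m * k + (m - 1) + 1 = m * (k + 1) := by
      rw [mul_add, mul_one]; omega
    simp only [Function.comp, co, e1, Nat.mul_mod_right, if_true]
    rw [Nat.mul_div_cancel_left _ (by omega : 0 < m)]
    have e2 : (z⁻¹ ^ m) ^ (k + 1) = z⁻¹ ^ (m * k + (m - 1)) * z⁻¹ := by
      rw [← pow_mul, ← pow_succ, e1]
    rw [e2]
    field_simp
  · intro n hn
    have : ¬ (n + 1) % m = 0 := by
      intro h
      apply hn
      obtain ⟨c, hc⟩ := Nat.dvd_of_mod_eq_zero h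
      have hc0 : c ≠ 0 := by
        intro h'; rw [h'] at hc; omega
      refine ⟨c - 1, ?_⟩
      obtain ⟨d, rfl⟩ := Nat.exists_eq_succ_of_ne_zero hc0
      simp only [Nat.succ_eq_add_one, Nat.add_sub_cancel]
      rw [Nat.succ_eq_add_one, mul_add, mul_one] at hc
      omega
    simp [co, this]

lemma re_pos_of_norm {w : ℂ} (hw : ‖w‖ < 1) : 0 < (1 + w).re := by
  have := (abs_re_le_norm w)
  have h2 := neg_abs_le w.re
  simp only [add_re, one_re]; linarith

lemma slit_of_norm {w : ℂ} (hw : ‖w‖ < 1) : 1 + w ∈ slitPlane := Or.inl (re_pos_of_norm hw)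

lemma im_log_lt {w : ℂ} (hw : ‖w‖ < 1) : |(log (1 + w)).im| < Real.pi / 2 := by
  rw [log_im]
  exact abs_arg_lt_pi_div_two_iff.mpr (Or.inl (re_pos_of_norm hw))

/-- the logarithm of `f z / z` as a function of `v = z⁻¹ ^ 2` -/
noncomputable def L (s v : ℂ) : ℂ := log (1 + -(s * v)) + log (1 + s * v / 2) / 2

noncomputable def P (s v : ℂ) : ℂ := exp (L s v)

noncomputable def f (s z : ℂ) : ℂ := z * P s (z⁻¹ ^ 2)

noncomputable def Q (x : ℂ) : ℂ := exp (log (1 + -x) / 2 + log (1 + -(x / 4)) / 4)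

lemma P_diff (s : ℂ) (hs : ‖s‖ = 1) : DifferentiableOn ℂ (P s) (ball 0 1) := by
  intro v hv
  rw [mem_ball_zero_iff] at hv
  apply DifferentiableAt.differentiableWithinAt
  have h1 : 1 + -(s * v) ∈ slitPlane := slit_of_norm (by simpa [hs] using hv)
  have h2 : 1 + s * v / 2 ∈ slitPlane := slit_of_norm (by simp [hs]; linarith)
  unfold P L
  apply DifferentiableAt.cexp
  apply DifferentiableAt.add
  · exact DifferentiableAt.clog (by fun_prop) h1
  · apply DifferentiableAt.div_const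
    exact DifferentiableAt.clog (by fun_prop) h2

lemma Q_diff : DifferentiableOn ℂ Q (ball 0 1) := by
  intro v hv
  rw [mem_ball_zero_iff] at hv
  apply DifferentiableAt.differentiableWithinAt
  have h1 : 1 + -v ∈ slitPlane := slit_of_norm (by simpa using hv)
  have h2 : 1 + -(v / 4) ∈ slitPlane := slit_of_norm (by simp; linarith)
  unfold Q
  apply DifferentiableAt.cexp
  apply DifferentiableAt.add
  · apply DifferentiableAt.div_const
    exact DifferentiableAt.clog (by fun_prop) h1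
  · apply DifferentiableAt.div_const
    exact DifferentiableAt.clog (by fun_prop) h2

lemma P_zero (s : ℂ) : P s 0 = 1 := by simp [P, L]
lemma Q_zero : Q 0 = 1 := by simp [Q]

lemma inv_sq_lt {z : ℂ} (hz : 1 < ‖z‖) : ‖z⁻¹ ^ 2‖ < 1 := by
  rw [norm_pow, norm_inv]
  exact pow_lt_one₀ (by positivity) (inv_lt_one_of_one_lt₀ hz) (by omega)

lemma P_sq (s : ℂ) (hs : ‖s‖ = 1) (v : ℂ) (hv : ‖v‖ < 1) :
    P s v ^ 2 = (1 - s * v) ^ 2 * (1 + s * v / 2) := by
  have h1 : 1 + -(s * v) ≠ 0 := slitPlane_ne_zero (slit_of_norm (by simpa [hs] using hv))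
  have h2 : 1 + s * v / 2 ≠ 0 := slitPlane_ne_zero (slit_of_norm (by simp [hs]; linarith))
  unfold P L
  rw [← exp_nat_mul]
  have : ((2 : ℕ) : ℂ) * (log (1 + -(s * v)) + log (1 + s * v / 2) / 2)
      = log (1 + -(s * v)) + log (1 + -(s * v)) + log (1 + s * v / 2) := by
    push_cast; ring
  rw [this, exp_add, exp_add, exp_log h1, exp_log h2]
  ring

lemma f_ne (s z : ℂ) (hz : 1 < ‖z‖) : f s z ≠ 0 := by
  have hz0 : z ≠ 0 := by
    intro h; rw [h, norm_zero] at hz; linarith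
  exact mul_ne_zero hz0 (exp_ne_zero _)

lemma f_diff (s : ℂ) (hs : ‖s‖ = 1) : DifferentiableOn ℂ (f s) {z | 1 < ‖z‖} := by
  intro z hz
  have hz' : 1 < ‖z‖ := hz
  have hz0 : z ≠ 0 := by
    intro h; rw [h, norm_zero] at hz'; linarith
  apply DifferentiableAt.differentiableWithinAt
  unfold f
  apply DifferentiableAt.mul differentiableAt_id
  have h1 : DifferentiableAt ℂ (P s) (z⁻¹ ^ 2) :=
    (P_diff s hs).differentiableAt (isOpen_ball.mem_nhds (by simpa using inv_sq_lt hz'))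
  have h2 : DifferentiableAt ℂ (fun z : ℂ => z⁻¹ ^ 2) z := by fun_prop (disch := assumption)
  exact DifferentiableAt.comp (g := P s) z h1 h2

lemma f_inj (s : ℂ) (hs : ‖s‖ = 1) (hs2 : s ^ 2 = 1) : Set.InjOn (f s) {z | 1 < ‖z‖} := by
  intro z hz w hw h
  have hz' : 1 < ‖z‖ := hz
  have hw' : 1 < ‖w‖ := hw
  have hz0 : z ≠ 0 := by
    intro h; rw [h, norm_zero] at hz'; linarith
  have hw0 : w ≠ 0 := by
    intro h; rw [h, norm_zero] at hw'; linarith
  have h2 : f s z ^ 2 = f s w ^ 2 := by rw [h]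
  unfold f at h2
  rw [mul_pow, mul_pow, P_sq s hs _ (inv_sq_lt hz'), P_sq s hs _ (inv_sq_lt hw')] at h2
  set a := z⁻¹ ^ 2 with ha
  set b := w⁻¹ ^ 2 with hb
  have hza : z ^ 2 * a = 1 := by rw [ha]; field_simp
  have hwb : w ^ 2 * b = 1 := by rw [hb]; field_simp
  have ha1 : ‖a‖ < 1 := inv_sq_lt hz'
  have hb1 : ‖b‖ < 1 := inv_sq_lt hw'
  have key : (z ^ 2 - w ^ 2) * (1 + -(s * (a * b * (a + b)) / 2)) = 0 := by
    have e1 : z ^ 2 * ((1 - s * a) ^ 2 * (1 + s * a / 2)) = z ^ 2 - 3 * s / 2 + s * a ^ 2 / 2 := by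
      have : z ^ 2 * ((1 - s * a) ^ 2 * (1 + s * a / 2))
        = z ^ 2 - 3 * s / 2 * (z ^ 2 * a) + s * s ^ 2 * a ^ 2 / 2 * (z ^ 2 * a) := by ring
      rw [this, hza, hs2]; ring
    have e2 : w ^ 2 * ((1 - s * b) ^ 2 * (1 + s * b / 2)) = w ^ 2 - 3 * s / 2 + s * b ^ 2 / 2 := by
      have : w ^ 2 * ((1 - s * b) ^ 2 * (1 + s * b / 2))
        = w ^ 2 - 3 * s / 2 * (w ^ 2 * b) + s * s ^ 2 * b ^ 2 / 2 * (w ^ 2 * b) := by ring
      rw [this, hwb, hs2]; ring
    rw [e1, e2] at h2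
    have e3 : (z ^ 2 - w ^ 2) * (a * b) = b - a := by
      have : (z ^ 2 - w ^ 2) * (a * b) = (z ^ 2 * a) * b - (w ^ 2 * b) * a := by ring
      rw [this, hza, hwb]; ring
    linear_combination h2 - s * (a + b) / 2 * e3
  have hne : 1 + -(s * (a * b * (a + b)) / 2) ≠ 0 := by
    apply slitPlane_ne_zero
    apply slit_of_norm
    rw [norm_neg, norm_div, norm_mul, hs, one_mul, norm_mul, norm_mul]
    have h3 : ‖a + b‖ < 2 := by linarith [norm_add_le a b]
    have h4 : ‖a‖ * ‖b‖ ≤ 1 := by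
      nlinarith [norm_nonneg a, norm_nonneg b]
    have h5 : ‖a‖ * ‖b‖ * ‖a + b‖ ≤ ‖a + b‖ := by
      nlinarith [norm_nonneg (a + b)]
    simp only [Complex.norm_ofNat]
    linarith
  have h3 : z ^ 2 - w ^ 2 = 0 := (mul_eq_zero.mp key).resolve_right hne
  have h4 : (z - w) * (z + w) = 0 := by linear_combination h3
  rcases mul_eq_zero.mp h4 with h5 | h5
  · exact sub_eq_zero.mp h5
  · exfalso
    have hzw : z = -w := by linear_combination h5
    have : f s z = - f s w := by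
      rw [hzw]; unfold f; simp [inv_neg]
    rw [h] at this
    apply f_ne s w hw'
    linear_combination this / 2

lemma log_L (s : ℂ) (hs : ‖s‖ = 1) (v : ℂ) (hv : ‖v‖ < 1) : log (P s v) = L s v := by
  have h1 := im_log_lt (w := -(s * v)) (by simpa [hs] using hv)
  have h2 := im_log_lt (w := s * v / 2) (by simp [hs]; linarith)
  rw [abs_lt] at h1 h2
  have hpi := Real.pi_pos
  unfold P
  apply log_exp
  · unfold L; simp only [add_im, div_ofNat_im]; linarith
  · unfold L; simp only [add_im, div_ofNat_im]; linarith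

lemma log_add_log {w : ℂ} (hw : ‖w‖ < 1) : log (1 + -w) + log (1 + w) = log (1 + -(w ^ 2)) := by
  have h1 := im_log_lt (w := -w) (by simpa using hw)
  have h2 := im_log_lt (w := w) hw
  have n1 : 1 + -w ≠ 0 := slitPlane_ne_zero (slit_of_norm (by simpa using hw))
  have n2 : 1 + w ≠ 0 := slitPlane_ne_zero (slit_of_norm hw)
  rw [abs_lt] at h1 h2
  have : (1 + -(w ^ 2)) = exp (log (1 + -w) + log (1 + w)) := by
    rw [exp_add, exp_log n1, exp_log n2]; ring
  rw [this, log_exp]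
  · simp only [add_im]; linarith
  · simp only [add_im]; linarith

lemma mean_eq (z : ℂ) (hz : 1 < ‖z‖) :
    (f 1 z / z) ^ ((1 - (1 / 2 : ℝ) : ℝ) : ℂ) * (f (-1) z / z) ^ (((1 / 2 : ℝ) : ℝ) : ℂ)
      = Q (z⁻¹ ^ 4) := by
  have hz0 : z ≠ 0 := by
    intro h; rw [h, norm_zero] at hz; linarith
  have hv := inv_sq_lt hz
  set v := z⁻¹ ^ 2 with hvdef
  have e1 : f 1 z / z = P 1 v := by unfold f; field_simp; rw [hvdef]; simp
  have e2 : f (-1) z / z = P (-1) v := by unfold f; field_simp; rw [hvdef]; simp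
  have e3 : z⁻¹ ^ 4 = v ^ 2 := by rw [hvdef]; ring
  have n1 : P 1 v ≠ 0 := exp_ne_zero _
  have n2 : P (-1) v ≠ 0 := exp_ne_zero _
  rw [e1, e2, e3, cpow_def_of_ne_zero n1, cpow_def_of_ne_zero n2]
  rw [log_L 1 (by simp) v hv, log_L (-1) (by simp) v hv, ← exp_add]
  unfold Q L
  congr 1
  have a1 := log_add_log hv
  have a2 := log_add_log (w := v / 2) (by simp; linarith)
  have e4 : (v / 2) ^ 2 = v ^ 2 / 4 := by ring
  rw [e4] at a2
  rw [← a1, ← a2]
  simp only [one_mul, neg_mul, neg_neg, neg_div]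
  push_cast
  ring

lemma Q_deriv (x : ℂ) (hx : ‖x‖ < 1) :
    HasDerivAt Q (Q x * (-(1 - x)⁻¹ / 2 - (4 - x)⁻¹ / 4)) x := by
  have h1 : 1 + -x ∈ slitPlane := slit_of_norm (by simpa using hx)
  have h2 : 1 + -(x / 4) ∈ slitPlane := slit_of_norm (by simp; linarith)
  have d1 : HasDerivAt (fun x : ℂ => 1 + -x) (-1) x := by
    simpa using ((hasDerivAt_id x).neg).const_add 1
  have d2 : HasDerivAt (fun x : ℂ => 1 + -(x / 4)) (-(1 / 4)) x := by
    simpa using (((hasDerivAt_id x).div_const 4).neg).const_add 1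
  have d3 := (((d1.clog h1).div_const 2).add ((d2.clog h2).div_const 4)).cexp
  refine HasDerivAt.congr_deriv d3 ?_
  have n1 := slitPlane_ne_zero h1
  have n2 := slitPlane_ne_zero h2
  have n3 : (1 - x) ≠ 0 := by simpa [sub_eq_add_neg] using n1
  have n4 : (4 - x) ≠ 0 := by
    intro h; apply n2; linear_combination h / 4
  unfold Q
  congr 1
  have : 1 + -(x / 4) = (4 - x) / 4 := by ring
  rw [this, ← sub_eq_add_neg]
  field_simp
  ring

lemma Q_d1 : iteratedDeriv 1 Q 0 = -9 / 16 := by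
  rw [iteratedDeriv_one, (Q_deriv 0 (by simp)).deriv, Q_zero]; norm_num

lemma Q_d2 : iteratedDeriv 2 Q 0 = -51 / 256 := by
  rw [iteratedDeriv_succ, iteratedDeriv_one]
  have h : deriv Q =ᶠ[nhds 0] fun x => Q x * (-(1 - x)⁻¹ / 2 - (4 - x)⁻¹ / 4) := by
    filter_upwards [isOpen_ball.mem_nhds (mem_ball_self (x := (0 : ℂ)) one_pos)] with x hx
    exact (Q_deriv x (by simpa using hx)).deriv
  rw [h.deriv_eq]
  have d1 : HasDerivAt (fun x : ℂ => (1 - x)⁻¹) 1 0 := by
    have := ((hasDerivAt_id (0 : ℂ)).const_sub 1).inv (by simp)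
    refine HasDerivAt.congr_deriv this ?_
    simp
  have d2 : HasDerivAt (fun x : ℂ => (4 - x)⁻¹) (1 / 16) 0 := by
    have := ((hasDerivAt_id (0 : ℂ)).const_sub 4).inv (by simp)
    refine HasDerivAt.congr_deriv this ?_
    simp; norm_num
  have d3 := (Q_deriv 0 (by simp)).mul ((d1.neg.div_const 2).sub (d2.div_const 4))
  have := d3.deriv
  rw [show (fun x : ℂ => Q x * (-(1 - x)⁻¹ / 2 - (4 - x)⁻¹ / 4)) =
    (Q * ((fun x : ℂ => (-fun x : ℂ => (1 - x)⁻¹) x / 2) - fun x : ℂ => (4 - x)⁻¹ / 4)) from rfl, this]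
  simp [Q_zero]; norm_num

lemma sum_gt : 1 < ∑ n ∈ Finset.range 8, (n : ℝ) * ‖co Q 4 n‖ ^ 2 := by
  have c3 : co Q 4 3 = -9 / 16 := by simp [co, Q_d1]
  have c7 : co Q 4 7 = -51 / 512 := by simp [co, Q_d2]; norm_num
  have c0 : co Q 4 0 = 0 := by simp [co]
  have c1 : co Q 4 1 = 0 := by simp [co]
  have c2 : co Q 4 2 = 0 := by simp [co]
  have c4 : co Q 4 4 = 0 := by simp [co]
  have c5 : co Q 4 5 = 0 := by simp [co]
  have c6 : co Q 4 6 = 0 := by simp [co]
  simp only [Finset.sum_range_succ, Finset.range_zero, Finset.sum_empty, c0, c1, c2, c3, c4, c5,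
    c6, c7, norm_div, norm_neg, Complex.norm_ofNat, norm_zero]
  norm_num

end Pool.Agent.H91.SigmaMean
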