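import Mathlib

set_option autoImplicit false

namespace H91.SignDim
open Set Filter Topology Finset MeasureTheory
open scoped ENNReal NNReal

/-- sign sequences whose series converges to `L` -/
def E (a : ℕ → ℝ × ℝ) (L : ℝ × ℝ) : Set (ℕ → ℤˣ) :=
  {e | Tendsto (fun N => ∑ n ∈ range N, ((e n : ℤ) : ℝ) • a n) atTop (𝓝 L)}

def A : ℕ → ℕ
  | 0 => 0
  | k + 1 => (k + 2) * (A k + 2 ^ (A k + 1 + k))
def c (k : ℕ) : ℕ := A k + 2 ^ (A k + 1 + k)
lemma c_pos (k : ℕ) : A k < c k := by have : 0 < 2 ^ (A k + 1 + k) := by positivity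
                                      unfold c; omega
lemma cA (k : ℕ) : c k + (k + 1) ≤ A (k + 1) := by
  have := c_pos k
  change _ ≤ (k + 2) * c k
  nlinarith
lemma mono : StrictMono A := strictMono_nat_of_lt_succ fun k => by have := c_pos k; have := cA k; omega
def K (n : ℕ) : ℕ := Nat.findGreatest (fun k => A k ≤ n) n
lemma le_K {k n : ℕ} (h : A k ≤ n) : k ≤ K n := Nat.le_findGreatest ((mono.id_le k).trans h) h
lemma A_K (n : ℕ) : A (K n) ≤ n :=
  Nat.findGreatest_spec (P := fun k => A k ≤ n) (Nat.zero_le n) (Nat.zero_le n)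
lemma K_eq {k n : ℕ} (h : A k ≤ n) (h' : n < A (k + 1)) : K n = k :=
  le_antisymm (Nat.le_of_lt_succ (mono.lt_iff_lt.1 ((A_K n).trans_lt h'))) (le_K h)
lemma K_mono : Monotone K := fun m _ h => le_K ((A_K m).trans h)
lemma K_top : Tendsto K atTop atTop :=
  tendsto_atTop.2 fun k => eventually_atTop.2 ⟨A k, fun _ h => le_K h⟩
def F (n : ℕ) : Prop := c (K n) ≤ n
instance : DecidablePred F := fun n => inferInstanceAs (Decidable (c (K n) ≤ n))
noncomputable def θ (n : ℕ) : ℝ := (1 / 2) ^ (A (K n) + 1)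
noncomputable def δ (n : ℕ) : ℝ := if F n then 0 else (1 / 2) ^ K n
noncomputable def R : ℕ → ℝ
  | 0 => 4
  | n + 1 => if F n then R n / 2 else R n
noncomputable def w (n : ℕ) : ℝ := if F n then R n / 2 else 0
noncomputable def a (n : ℕ) : ℝ × ℝ := (δ n, θ n * δ n + w n)

lemma θ_anti : Antitone θ := fun m n h => pow_le_pow_of_le_one (by norm_num) (by norm_num)
  (Nat.succ_le_succ (mono.monotone (K_mono h)))
lemma θ_pos (n : ℕ) : 0 < θ n := by unfold θ; positivity
lemma θ_le (n : ℕ) : θ n ≤ 1 / 2 := (θ_anti (Nat.zero_le n)).trans (by simp [θ, K, A])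
lemma half : Tendsto (fun n : ℕ => (1 / 2 : ℝ) ^ n) atTop (𝓝 0) :=
  tendsto_pow_atTop_nhds_zero_of_lt_one (by norm_num) (by norm_num)
lemma θ_lim : Tendsto θ atTop (𝓝 0) :=
  half.comp ((tendsto_add_atTop_nat 1).comp (mono.tendsto_atTop.comp K_top))
lemma δ_bd (n : ℕ) : 0 ≤ δ n ∧ δ n ≤ (1 / 2) ^ K n := by
  unfold δ; split_ifs
  exacts [⟨le_rfl, by positivity⟩, ⟨by positivity, le_rfl⟩]
lemma δ_bd' {k n : ℕ} (h : A k ≤ n) : δ n ≤ (1 / 2) ^ k :=
  (δ_bd n).2.trans (pow_le_pow_of_le_one (by norm_num) (by norm_num) (le_K h))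
lemma R_ge (n : ℕ) : (1 / 2) ^ n ≤ R n := by
  induction n with
  | zero => simp [R]
  | succ n ih =>
    have : (0 : ℝ) < (1 / 2) ^ n := by positivity
    rw [R, pow_succ]; split_ifs <;> linarith
lemma R_pos (n : ℕ) : 0 < R n := lt_of_lt_of_le (by positivity) (R_ge n)
lemma R_w (n : ℕ) : R (n + 1) = R n - w n := by rw [R, w]; split_ifs <;> ring
lemma w_bd (n : ℕ) : 0 ≤ w n ∧ w n ≤ R (n + 1) := by
  have := R_pos n
  rw [R, w]; split_ifs <;> constructor <;> linarith
lemma R_anti : Antitone R := antitone_nat_of_succ_le fun n => by rw [R_w]; linarith [(w_bd n).1]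
lemma R_lim : Tendsto R atTop (𝓝 0) := by
  have h : ∀ k, R (A k) ≤ 4 * (1 / 2) ^ k := by
    intro k
    induction k with
    | zero => simp [A, R]
    | succ k ih =>
      have h1 := cA k; have h2 := c_pos k
      have : F (c k) := by rw [F, K_eq h2.le (by omega)]
      have h3 : R (c k + 1) = R (c k) / 2 := by rw [R, if_pos this]
      have := R_anti h2.le
      have := R_anti (show c k + 1 ≤ A (k + 1) by omega)
      rw [pow_succ]; linarith
  refine squeeze_zero (fun n => (R_pos n).le) (fun n => (R_anti (A_K n)).trans (h _)) ?_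
  simpa using (half.comp K_top).const_mul 4

lemma cap (k : ℕ) : (2 : ℝ) ^ (A k + 1) ≤ ∑ n ∈ Finset.Ico (A k) (A (k + 1)), δ n ∧
    ∑ n ∈ Finset.Ico (A k) (A (k + 1)), δ n ≤ (2 : ℝ) ^ (A k + 1) := by
  have h1 := cA k; have h2 := c_pos k
  rw [← Finset.sum_Ico_consecutive _ h2.le (by omega), Finset.sum_congr rfl (g := fun _ => (1 / 2) ^ k),
    Finset.sum_eq_zero (s := Finset.Ico (c k) _)]
  · simp [c, pow_add]
  · intro n hn; rw [Finset.mem_Ico] at hn
    rw [δ, if_pos (by rw [F, K_eq (by omega) hn.2]; exact hn.1)]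
  · intro n hn; rw [Finset.mem_Ico] at hn
    have := K_eq hn.1 (by omega)
    rw [δ, if_neg (by rw [F, this]; omega), this]

noncomputable def S (h : ℕ → ℝ) (e : ℕ → ℤˣ) (N : ℕ) : ℝ := ∑ n ∈ range N, ((e n : ℤ) : ℝ) * h n
lemma S_succ (h : ℕ → ℝ) (e : ℕ → ℤˣ) (N : ℕ) : S h e (N + 1) = S h e N + (e N : ℤ) * h N :=
  Finset.sum_range_succ _ _
lemma abs_e (u : ℤˣ) : |((u : ℤ) : ℝ)| = 1 := by rcases Int.units_eq_one_or u with rfl | rfl <;> simp

lemma mem_E (L : ℝ × ℝ) (e : ℕ → ℤˣ) : e ∈ E a L ↔ Tendsto (S δ e) atTop (𝓝 L.1) ∧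
    Tendsto (fun N => S (fun n => θ n * δ n) e N + S w e N) atTop (𝓝 L.2) := by
  rw [E, mem_setOf_eq, Prod.tendsto_iff]
  simp [S, a, Prod.fst_sum, Prod.snd_sum, mul_add, Finset.sum_add_distrib, S]
  intro _; rfl

lemma S_le (h : ℕ → ℝ) (h0 : ∀ n, 0 ≤ h n) (e : ℕ → ℤˣ) {m n : ℕ} (hmn : m ≤ n) :
    |S h e n - S h e m| ≤ ∑ i ∈ Finset.Ico m n, h i := by
  rw [S, S, ← Finset.sum_Ico_eq_sub _ hmn]
  exact (Finset.abs_sum_le_sum_abs _ _).trans (le_of_eq (Finset.sum_congr rfl fun i _ => by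
    rw [abs_mul, abs_e, one_mul, abs_of_nonneg (h0 i)]))

lemma sum_w {m n : ℕ} (h : m ≤ n) : ∑ i ∈ Finset.Ico m n, w i = R m - R n := by
  induction n, h using Nat.le_induction with
  | base => simp
  | succ n h ih => rw [Finset.sum_Ico_succ_top h, ih, R_w]; ring

lemma abel (e : ℕ → ℤˣ) (x : ℝ) (m : ℕ) (h : ∀ n, m ≤ n → |S δ e n - x| ≤ 1) (n : ℕ) (hn : m ≤ n) :
    |S (fun n => θ n * δ n) e n - S (fun n => θ n * δ n) e m| ≤ 2 * θ m := by
  have : |S (fun n => θ n * δ n) e n - θ n * (S δ e n - x) -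
      (S (fun n => θ n * δ n) e m - θ m * (S δ e m - x))| ≤ θ m - θ n := by
    induction n, hn using Nat.le_induction with
    | base => simp
    | succ n hn ih =>
      have a1 := θ_anti (Nat.le_succ n)
      have a2 := abs_le.1 (h (n + 1) (by omega))
      rw [abs_le] at ih ⊢
      rw [S_succ] at a2
      rw [S_succ, S_succ]
      constructor <;> nlinarith [ih.1, ih.2, a2.1, a2.2]
  have b1 := abs_le.1 (h n hn); have b2 := abs_le.1 (h m le_rfl)
  rw [abs_le] at this ⊢
  constructor <;> nlinarith [θ_pos n, θ_pos m, this.1, this.2]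

lemma greedy (h : ℕ → ℝ) (h0 : ∀ n, 0 ≤ h n) (z : ℝ) : ∃ e : ℕ → ℤˣ,
    ∀ n, |z - S h e (n + 1)| ≤ max (|z - S h e n| - h n) (h n) := by
  let u : ℕ → ℝ := fun n =>
    Nat.rec (motive := fun _ => ℝ) z (fun n y => if 0 ≤ y then y - h n else y + h n) n
  refine ⟨fun n : ℕ => if (0 : ℝ) ≤ u n then (1 : ℤˣ) else -1, fun n => ?_⟩
  have e : ∀ n, z - S h (fun n => if 0 ≤ u n then 1 else -1) n = u n := by
    intro n
    induction n with
    | zero => simp [S, u]
    | succ n ih =>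
      rw [S_succ, ← sub_sub, ih]
      change _ = if 0 ≤ u n then u n - h n else u n + h n
      split_ifs <;> simp
  rw [e, e]
  change |if 0 ≤ u n then u n - h n else u n + h n| ≤ _
  have := h0 n
  have m1 := le_max_left (|u n| - h n) (h n); have m2 := le_max_right (|u n| - h n) (h n)
  split_ifs with g
  · rw [abs_of_nonneg g] at *; rw [abs_le]; constructor <;> linarith
  · rw [abs_of_neg (not_le.1 g)] at *; rw [abs_le]; constructor <;> linarith

lemma multi {h u : ℕ → ℝ} (h0 : ∀ n, 0 ≤ h n) (hu : ∀ n, u (n + 1) ≤ max (u n - h n) (h n))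
    {m : ℕ} {H : ℝ} (hH : ∀ n, m ≤ n → h n ≤ H) (n : ℕ) (hn : m ≤ n) :
    u n ≤ max (u m - ∑ i ∈ Finset.Ico m n, h i) H := by
  induction n, hn using Nat.le_induction with
  | base => simp
  | succ n hn ih =>
    rw [Finset.sum_Ico_succ_top hn]
    refine (hu n).trans (max_le ?_ ((hH n hn).trans (le_max_right _ _)))
    rcases le_max_iff.1 ih with g | g
    · exact le_max_of_le_left (by linarith)
    · exact le_max_of_le_right (by linarith [h0 n])

lemma onto (L : ℝ × ℝ) : (E a L).Nonempty := by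
  obtain ⟨k0, hk0⟩ := exists_nat_ge (|L.1| + |L.2|)
  have p1 : ∀ n, 0 ≤ θ n * δ n := fun n => mul_nonneg (θ_pos n).le (δ_bd n).1
  have d1 : ∀ n, δ n ≤ 1 := fun n => by simpa using δ_bd' (k := 0) (Nat.zero_le n)
  have blk : ∀ k, ∑ n ∈ Finset.Ico (A k) (A (k + 1)), θ n * δ n = 1 := by
    intro k
    rw [Finset.sum_congr rfl (g := fun n => (1 / 2) ^ (A k + 1) * δ n) fun n hn => by
      rw [Finset.mem_Ico] at hn; rw [θ, K_eq hn.1 hn.2], ← Finset.mul_sum,
      le_antisymm (cap k).2 (cap k).1, ← mul_pow]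
    simp
  have tot : ∀ k, ∑ n ∈ Finset.Ico 0 (A k), θ n * δ n = k := by
    intro k
    induction k with
    | zero => simp [A]
    | succ k ih =>
      rw [← Finset.sum_Ico_consecutive _ (Nat.zero_le (A k)) (mono (Nat.lt_succ_self k)).le, ih, blk]
      push_cast; ring
  obtain ⟨e1, he1⟩ := greedy _ p1 L.2
  have q1 := multi (u := fun n => |L.2 - S _ e1 n|) p1 he1 (m := 0) (H := 1)
    (fun n _ => by nlinarith [θ_le n, d1 n, (δ_bd n).1, θ_pos n]) (A k0) (Nat.zero_le _)
  rw [tot] at q1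
  have q1' : |L.2 - S (fun n => θ n * δ n) e1 (A k0)| ≤ 1 :=
    q1.trans (max_le (by simp [S]; linarith [abs_nonneg L.1]) le_rfl)
  let h2 : ℕ → ℝ := fun n => if n < A k0 then 0 else δ n
  have p2 : ∀ n, 0 ≤ h2 n := fun n => by simp only [h2]; split_ifs; exacts [le_rfl, (δ_bd n).1]
  obtain ⟨e2, he2⟩ := greedy h2 p2 (L.1 - S δ e1 (A k0))
  let e' : ℕ → ℤˣ := fun n => if n < A k0 then e1 n else e2 n
  have s0 : ∀ h, S h e' (A k0) = S h e1 (A k0) := fun h =>
    Finset.sum_congr rfl fun n hn => by simp only [e', if_pos (Finset.mem_range.1 hn)]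
  have s1 : ∀ n, A k0 ≤ n → L.1 - S δ e1 (A k0) - S h2 e2 n = L.1 - S δ e' n := by
    intro n hn
    induction n, hn using Nat.le_induction with
    | base =>
      rw [s0, show S h2 e2 (A k0) = 0 from Finset.sum_eq_zero fun n hn => by
        simp only [h2, if_pos (Finset.mem_range.1 hn), mul_zero], sub_zero]
    | succ n hn ih =>
      rw [S_succ, S_succ, ← sub_sub, ih]
      simp only [h2, e', if_neg (not_lt.2 hn)]; ring
  have q2 : ∀ k, k0 ≤ k → ∀ n, A k ≤ n → |L.1 - S δ e' n| ≤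
      max (|L.1 - S δ e' (A k)| - ∑ i ∈ Finset.Ico (A k) n, δ i) ((1 / 2) ^ k) := by
    intro k hk n hn
    have hk' := mono.monotone hk
    have := multi (u := fun n => |L.1 - S δ e1 (A k0) - S h2 e2 n|) p2 he2 (m := A k)
      (H := (1 / 2) ^ k) (fun n hn => by
        simp only [h2, if_neg (not_lt.2 (hk'.trans hn))]; exact δ_bd' hn) n hn
    rwa [s1 n (hk'.trans hn), s1 _ hk', Finset.sum_congr rfl (g := δ) fun i hi => by
      simp only [h2, if_neg (not_lt.2 (hk'.trans (Finset.mem_Ico.1 hi).1))]] at this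
  have q3 : ∀ k, k0 ≤ k → |L.1 - S δ e' (A k)| ≤ 2 ^ (A k + 1) := by
    intro k hk
    induction k, hk using Nat.le_induction with
    | base =>
      have b1 := S_le δ (fun n => (δ_bd n).1) e' (Nat.zero_le (A k0))
      have b2 : ∑ i ∈ Finset.Ico 0 (A k0), δ i ≤ A k0 := by
        simpa using Finset.sum_le_card_nsmul (Finset.Ico 0 (A k0)) δ 1 fun n _ => d1 n
      have b3 : (k0 : ℝ) ≤ A k0 := by exact_mod_cast mono.id_le k0
      have b4 : (A k0 : ℝ) ≤ 2 ^ A k0 := by exact_mod_cast Nat.lt_two_pow_self.le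
      simp only [S, Finset.range_zero, Finset.sum_empty, sub_zero] at b1
      refine (abs_sub _ _).trans ?_
      rw [pow_succ, S]; linarith [abs_nonneg L.2]
    | succ k hk ih =>
      refine (q2 k hk _ (mono (Nat.lt_succ_self k)).le).trans (max_le ?_ ?_)
      · linarith [(cap k).1, show (0 : ℝ) < 2 ^ (A (k + 1) + 1) by positivity]
      · exact (pow_le_one₀ (by norm_num) (by norm_num)).trans (one_le_pow₀ (by norm_num))
  have q4 : ∀ k, k0 ≤ k → ∀ n, A (k + 1) ≤ n → |L.1 - S δ e' n| ≤ (1 / 2) ^ k := by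
    intro k hk n hn
    have hk' := (mono (Nat.lt_succ_self k)).le
    refine (q2 k hk n (hk'.trans hn)).trans (max_le ?_ le_rfl)
    have := Finset.sum_le_sum_of_subset_of_nonneg (Finset.Ico_subset_Ico_right (a := A k) hn)
      fun i _ _ => (δ_bd i).1
    linarith [q3 k hk, (cap k).1, show (0 : ℝ) < (1 / 2) ^ k by positivity]
  have q5 : ∀ m, A (k0 + 1) ≤ m → ∀ n, m ≤ n →
      |S (fun n => θ n * δ n) e' n - S (fun n => θ n * δ n) e' m| ≤ 2 * θ m := fun m hm =>
    abel e' L.1 m fun n hn => by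
      rw [abs_sub_comm]
      exact (q4 k0 le_rfl n (hm.trans hn)).trans (pow_le_one₀ (by norm_num) (by norm_num))
  obtain ⟨Y, hY⟩ := cauchySeq_tendsto_of_complete (cauchySeq_of_le_tendsto_0'
    (s := fun n => S (fun n => θ n * δ n) e' (n + A (k0 + 1))) (fun n => 2 * θ (n + A (k0 + 1)))
    (fun n m h => by rw [Real.dist_eq, abs_sub_comm]; exact q5 _ (by omega) _ (by omega))
    (by simpa using (θ_lim.comp (tendsto_add_atTop_nat _)).const_mul 2))
  rw [tendsto_add_atTop_iff_nat] at hY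
  have q6 : |Y - S (fun n => θ n * δ n) e' (A (k0 + 1))| ≤ 2 * θ (A (k0 + 1)) :=
    le_of_tendsto ((hY.sub_const _).abs) (eventually_atTop.2 ⟨_, q5 _ le_rfl⟩)
  have q7 := S_le _ p1 e' (mono (Nat.lt_succ_self k0)).le
  rw [blk, s0] at q7
  obtain ⟨e3, he3⟩ := greedy w (fun n => (w_bd n).1) (L.2 - Y)
  have q8 : ∀ n, |L.2 - Y - S w e3 n| ≤ R n := by
    intro n
    induction n with
    | zero =>
      rw [abs_le] at q1' q6 q7 ⊢
      simp only [S, Finset.range_zero, Finset.sum_empty, sub_zero, R] at *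
      constructor <;> linarith [θ_le (A (k0 + 1))]
    | succ n ih => exact (he3 n).trans (max_le (by rw [R_w]; linarith) (w_bd n).2)
  refine ⟨fun n => if F n then e3 n else e' n, (mem_E _ _).2 ⟨?_, ?_⟩⟩
  · have : S δ (fun n => if F n then e3 n else e' n) = S δ e' := by
      ext N; exact Finset.sum_congr rfl fun n _ => by by_cases h : F n <;> simp [δ, h]
    rw [this, Metric.tendsto_atTop]
    intro ε hε
    obtain ⟨k, g1, g2⟩ := ((half.eventually (gt_mem_nhds hε)).and (eventually_ge_atTop k0)).exists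
    exact ⟨A (k + 1), fun n hn => by
      rw [Real.dist_eq, abs_sub_comm]; exact (q4 k g2 n hn).trans_lt g1⟩
  · have t1 : S (fun n => θ n * δ n) (fun n => if F n then e3 n else e' n) =
        S (fun n => θ n * δ n) e' := by
      ext N; exact Finset.sum_congr rfl fun n _ => by by_cases h : F n <;> simp [δ, h]
    have t2 : S w (fun n => if F n then e3 n else e' n) = S w e3 := by
      ext N; exact Finset.sum_congr rfl fun n _ => by by_cases h : F n <;> simp [w, h]
    rw [t1, t2]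
    have t3 : Tendsto (S w e3) atTop (𝓝 (L.2 - Y)) :=
      tendsto_iff_dist_tendsto_zero.2 (squeeze_zero (fun _ => dist_nonneg)
        (fun n => by rw [Real.dist_eq, abs_sub_comm]; exact q8 n) R_lim)
    simpa using hY.add t3

def mi (e : ℕ → ℤˣ) : ℕ → ℤ
  | 0 => 0
  | n + 1 => if F n then 2 * mi e n + e n else mi e n

lemma mi_eq (e : ℕ → ℤˣ) (n : ℕ) : S w e n = mi e n * R n := by
  induction n with
  | zero => simp [S, mi]
  | succ n ih => rw [S_succ, ih, mi, R, w]; split_ifs <;> push_cast <;> ring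

lemma mi_par (e e' : ℕ → ℤˣ) (n : ℕ) : (mi e n - mi e' n) % 2 = 0 := by
  induction n with
  | zero => simp [mi]
  | succ n ih =>
    rw [mi, mi]; split_ifs
    · rcases Int.units_eq_one_or (e n) with h | h <;> rcases Int.units_eq_one_or (e' n) with h' | h' <;>
        simp only [h, h', Units.val_one, Units.val_neg] <;> omega
    · exact ih

lemma mi_inj (e e' : ℕ → ℤˣ) (N : ℕ) (h : mi e N = mi e' N) : ∀ n < N, F n → e n = e' n := by
  induction N with
  | zero => simp
  | succ N ih =>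
    have p := mi_par e e' N
    rw [mi, mi] at h
    intro n hn hF
    split_ifs at h with g
    · have : mi e N = mi e' N ∧ e N = e' N := by
        rcases Int.units_eq_one_or (e N) with h1 | h1 <;>
          rcases Int.units_eq_one_or (e' N) with h' | h' <;>
          simp only [h1, h', Units.val_one, Units.val_neg] at h ⊢ <;>
          first | exact ⟨by omega, trivial⟩ | omega
      rcases (Nat.lt_succ_iff.1 hn).eq_or_lt with rfl | h2
      exacts [this.2, ih this.1 n h2 hF]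
    · rcases (Nat.lt_succ_iff.1 hn).eq_or_lt with rfl | h2
      exacts [absurd hF g, ih h n h2 hF]

lemma near {L : ℝ × ℝ} {e : ℕ → ℤˣ} (he : e ∈ E a L) {k : ℕ}
    (h : ∀ n, A k ≤ n → |S δ e n - L.1| ≤ 1) :
    |L.2 - (S (fun n => θ n * δ n) e (A k) + S w e (A k))| ≤ 2 * R (A k) := by
  refine le_of_tendsto ((((mem_E _ _).1 he).2.sub_const _).abs) (eventually_atTop.2 ⟨A k, fun n hn => ?_⟩)
  have a1 := abs_le.1 (abel e L.1 _ h n hn)
  have a2 := S_le w (fun n => (w_bd n).1) e hn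
  rw [sum_w hn, abs_le] at a2
  have a3 : 2 * θ (A k) ≤ R (A k) := by
    rw [θ, K_eq le_rfl (mono (Nat.lt_succ_self k)), pow_succ]; linarith [R_ge (A k)]
  rw [abs_le]; constructor <;> linarith [R_pos n]

lemma dim0 {X : Type} [MetricSpace X] (f : X → ℕ → ℤˣ)
    (hf : ∀ x y n, (∀ i < n, f x i = f y i) → dist x y ≤ (1 / 2) ^ n) (L : ℝ × ℝ) :
    dimH {x | f x ∈ E a L} = 0 := by
  borelize X
  let P : ℕ → Set X := fun k0 => {x | f x ∈ E a L ∧ ∀ n, A k0 ≤ n → |S δ (f x) n - L.1| ≤ 1}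
  have hP : {x | f x ∈ E a L} ⊆ ⋃ k0, P k0 := by
    intro x hx
    obtain ⟨N, hN⟩ := Metric.tendsto_atTop.1 ((mem_E _ _).1 hx).1 1 one_pos
    exact mem_iUnion.2 ⟨N, hx, fun n hn => (hN n ((mono.id_le N).trans hn)).le⟩
  refine le_antisymm ((dimH_mono hP).trans ?_) (by simp)
  rw [dimH_iUnion]
  refine iSup_le fun k0 => dimH_le fun d hd => ?_
  by_contra hpos
  have d0 : (0 : ℝ) < d := by simpa [pos_iff_ne_zero] using hpos
  let t : ∀ k, (Fin (c k) → ℤˣ) × ZMod 5 → Set X := fun k p =>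
    {x ∈ P k0 | (fun i : Fin (c k) => f x i) = p.1 ∧ (mi (f x) (A (k + 1)) : ZMod 5) = p.2}
  have ht : ∀ k, k0 ≤ k → ∀ p, Metric.ediam (t k p) ≤ ENNReal.ofReal ((1 / 2) ^ A (k + 1)) := by
    intro k hk p
    refine Metric.ediam_le_of_forall_dist_le ?_
    rintro x ⟨hx, x1, x2⟩ y ⟨hy, y1, y2⟩
    have hc : ∀ i < A (k + 1), ¬ F i → f x i = f y i := by
      intro i hi hF
      have : i < c k := by
        by_contra g
        exact hF (by rw [F, K_eq (by have := c_pos k; omega) hi]; omega)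
      exact congrFun (x1.trans y1.symm) ⟨i, this⟩
    have hk' := mono.monotone (show k0 ≤ k + 1 by omega)
    have n1 := abs_le.1 (near hx.1 fun n hn => hx.2 n (hk'.trans hn))
    have n2 := abs_le.1 (near hy.1 fun n hn => hy.2 n (hk'.trans hn))
    have e : S (fun n => θ n * δ n) (f x) (A (k + 1)) = S (fun n => θ n * δ n) (f y) (A (k + 1)) :=
      Finset.sum_congr rfl fun n hn => by
        by_cases h : F n
        · simp [δ, h]
        · rw [hc n (Finset.mem_range.1 hn) h]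
    rw [mi_eq] at n1 n2
    have r0 := R_pos (A (k + 1))
    have m1 : (mi (f x) (A (k + 1)) : ℝ) - mi (f y) (A (k + 1)) ≤ 4 :=
      le_of_mul_le_mul_right (by linarith [n1.1, n2.2]) r0
    have m2 : (mi (f y) (A (k + 1)) : ℝ) - mi (f x) (A (k + 1)) ≤ 4 :=
      le_of_mul_le_mul_right (by linarith [n1.2, n2.1]) r0
    have m3 := (ZMod.intCast_eq_intCast_iff' _ _ _).1 (x2.trans y2.symm)
    have m1' : mi (f x) (A (k + 1)) - mi (f y) (A (k + 1)) ≤ 4 := by exact_mod_cast m1
    have m2' : mi (f y) (A (k + 1)) - mi (f x) (A (k + 1)) ≤ 4 := by exact_mod_cast m2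
    refine hf x y _ fun i hi => ?_
    by_cases h : F i
    · exact mi_inj _ _ _ (by push_cast at m3; omega) i hi h
    · exact hc i hi h
  have tA : Tendsto (fun k => A (k + 1)) atTop atTop :=
    mono.tendsto_atTop.comp (tendsto_add_atTop_nat 1)
  have h1 := Measure.hausdorffMeasure_le_liminf_sum (d : ℝ) (P k0)
    (fun k => ENNReal.ofReal ((1 / 2) ^ A (k + 1)))
    (by simpa using ENNReal.tendsto_ofReal (half.comp tA)) t (eventually_atTop.2 ⟨k0, ht⟩)
    (Eventually.of_forall fun k x hx => mem_iUnion.2 ⟨(_, _), hx, rfl, rfl⟩)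
  rw [hd] at h1
  obtain ⟨k1, hk1⟩ := exists_nat_ge (1 / (d : ℝ))
  refine absurd (h1.trans (liminf_le_of_frequently_le' (x := 5) (Eventually.frequently
    (eventually_atTop.2 ⟨max k0 k1, fun k hk => ?_⟩)))) (by simp)
  refine (Finset.sum_le_card_nsmul _ _ (ENNReal.ofReal ((1 / 2) ^ c k)) fun p _ => ?_).trans ?_
  · refine (ENNReal.rpow_le_rpow (ht k (le_of_max_le_left hk) p) d0.le).trans ?_
    rw [ENNReal.ofReal_rpow_of_nonneg (by positivity) d0.le, ← Real.rpow_natCast_mul (by norm_num),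
      ← Real.rpow_natCast]
    refine ENNReal.ofReal_le_ofReal (Real.rpow_le_rpow_of_exponent_ge (by norm_num) (by norm_num) ?_)
    have g1 : (k1 : ℝ) ≤ k := by exact_mod_cast le_of_max_le_right hk
    rw [div_le_iff₀ d0] at hk1
    have : (A (k + 1) : ℝ) = (k + 2) * c k := by rw [A]; push_cast; simp [c]
    rw [this]
    nlinarith [mul_nonneg (c k).cast_nonneg (show (0 : ℝ) ≤ (k + 2) * d - 1 by nlinarith)]
  · simp only [Finset.card_univ, Fintype.card_prod, Fintype.card_pi, Fintype.card_units_int,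
      Finset.prod_const, Fintype.card_fin, ZMod.card, nsmul_eq_mul]
    rw [← ENNReal.ofReal_natCast, ← ENNReal.ofReal_mul (by positivity)]
    push_cast
    rw [mul_right_comm, ← mul_pow]; simp

theorem main : ∃ a : ℕ → ℝ × ℝ, Filter.Tendsto a Filter.atTop (nhds 0) ∧
    (∀ L, (H91.SignDim.E a L).Nonempty) ∧ ∀ m : MetricSpace (ℕ → ℤˣ),
      (∀ x y, x ≠ y → m.dist x y = (1 / 2) ^ (PiNat.firstDiff x y + 1)) →
      ∀ L, @dimH _ m.toEMetricSpace (H91.SignDim.E a L) = 0 := by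
  have hδ : Tendsto δ atTop (𝓝 0) :=
    squeeze_zero (fun n => (δ_bd n).1) (fun n => (δ_bd n).2) (half.comp K_top)
  have hw : Tendsto w atTop (𝓝 0) := squeeze_zero (fun n => (w_bd n).1) (fun n => (w_bd n).2)
    (R_lim.comp (tendsto_add_atTop_nat 1))
  refine ⟨a, (Prod.tendsto_iff _ _).2 ⟨hδ, by simpa [a] using (θ_lim.mul hδ).add hw⟩, onto,
    fun m hm L => @dim0 _ m id (fun x y n h => ?_) L⟩
  by_cases e : x = y
  · rw [e, dist_self]; positivity
  · rw [hm x y e]
    exact pow_le_pow_of_le_one (by norm_num) (by norm_num)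
      (((PiNat.mem_cylinder_iff_le_firstDiff e n).1 h).trans (Nat.le_succ _))

end H91.SignDim
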