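import Pool.Agent.H91.SignDim

set_option autoImplicit false

namespace H91.SignPow
open Set Filter Topology Finset MeasureTheory H91.SignDim
open scoped ENNReal NNReal

lemma upper {X : Type} [MetricSpace X] (f : X → ℕ → ℤˣ)
    (hf : ∀ x y n, (∀ i < n, f x i = f y i) → dist x y ≤ (1 / 2) ^ n) (s : Set X) : dimH s ≤ 1 := by
  borelize X
  refine dimH_le_of_hausdorffMeasure_ne_top (d := 1) (ne_top_of_le_ne_top ENNReal.one_ne_top ?_)
  have ht : ∀ n (p : Fin n → ℤˣ), Metric.ediam {x | (fun i : Fin n => f x i) = p} ≤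
      ENNReal.ofReal ((1 / 2) ^ n) := fun n p => Metric.ediam_le_of_forall_dist_le
    fun x hx y hy => hf x y n fun i hi => congrFun (hx.trans hy.symm) ⟨i, hi⟩
  refine (Measure.hausdorffMeasure_le_liminf_sum _ s (fun n : ℕ => ENNReal.ofReal ((1 / 2) ^ n))
    (by simpa using ENNReal.tendsto_ofReal half) _ (Eventually.of_forall ht)
    (Eventually.of_forall fun k x _ => mem_iUnion.2 ⟨_, rfl⟩)).trans
    (liminf_le_of_frequently_le' (Eventually.frequently (Eventually.of_forall fun n => ?_)))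
  refine (Finset.sum_le_card_nsmul _ _ (ENNReal.ofReal ((1 / 2) ^ n)) fun p _ => by
    simpa using ht n p).trans ?_
  simp only [Finset.card_univ, Fintype.card_pi, Fintype.card_units_int,
    Finset.prod_const, Fintype.card_fin, nsmul_eq_mul]
  rw [← ENNReal.ofReal_natCast, ← ENNReal.ofReal_mul (by positivity)]
  push_cast
  rw [← mul_pow]; simp

def bit (u : ℤˣ) : Fin 2 := if u = 1 then 0 else 1
def sg (b : Fin 2) : ℤˣ := if b = 0 then 1 else -1
lemma bit_sg : ∀ b, bit (sg b) = b := by decide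
def G (r : ℕ) (e : ℕ → ℤˣ) (j : ℕ) : Fin 2 :=
  bit (e ((r + 2) * (j / r)) * e ((r + 2) * (j / r) + 1 + j % r))

lemma fill (r : ℕ) (hr : 0 < r) (x : ℕ → Fin 2) : ∃ u : ℕ → ℤˣ, (∀ e : ℕ → ℤˣ,
    (∀ n, n % (r + 2) ≠ r + 1 → e n = u n) → G r e = x) ∧
    ∀ N, |∑ n ∈ range N, (if n % (r + 2) = r + 1 then 0 else ((u n : ℤ) : ℝ))| ≤ 2 * (r + 2) := by
  let v : ℕ → ℤˣ := fun n =>
    if n % (r + 2) = 0 then 1 else sg (x (r * (n / (r + 2)) + (n % (r + 2) - 1)))
  let s : ℕ → ℝ := fun k => ∑ i ∈ range (r + 2),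
    (if ((r + 2) * k + i) % (r + 2) = r + 1 then 0 else ((v ((r + 2) * k + i) : ℤ) : ℝ))
  have ab : ∀ (p : Prop) [Decidable p] (u : ℤˣ), |(if p then 0 else ((u : ℤ) : ℝ))| ≤ 1 := by
    intro p _ u; split_ifs; simp; exact (abs_e u).le
  have sb : ∀ k, |s k| ≤ r + 2 := fun k => (Finset.abs_sum_le_sum_abs _ _).trans (by
    simpa using Finset.sum_le_card_nsmul (range (r + 2)) _ 1 fun i _ => ab _ _)
  obtain ⟨e, he⟩ := greedy (fun k => |s k|) (fun k => abs_nonneg _) 0
  let η : ℕ → ℤˣ := fun k => e k * if 0 ≤ s k then 1 else -1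
  have hη : ∀ k, ((η k : ℤ) : ℝ) * s k = (e k : ℤ) * |s k| := fun k => by
    simp only [η]; split_ifs with h
    · simp [abs_of_nonneg h]
    · simp [abs_of_neg (not_le.1 h)]
  refine ⟨fun n => η (n / (r + 2)) * v n, fun e' h => ?_, fun N => ?_⟩
  · ext1 j
    have a1 := Nat.mod_lt j hr
    have b1 : ((r + 2) * (j / r)) % (r + 2) = 0 := Nat.mul_mod_right _ _
    have b2 : ((r + 2) * (j / r) + 1 + j % r) % (r + 2) = 1 + j % r := by
      rw [add_assoc, Nat.mul_add_mod, Nat.mod_eq_of_lt (by omega)]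
    have b3 : ((r + 2) * (j / r)) / (r + 2) = j / r := Nat.mul_div_cancel_left _ (by omega)
    have b4 : ((r + 2) * (j / r) + 1 + j % r) / (r + 2) = j / r := by
      rw [add_assoc, Nat.mul_add_div (by omega),
        Nat.div_eq_of_lt (show 1 + j % r < r + 2 by omega), add_zero]
    rw [G, h _ (by omega), h _ (by omega)]
    simp only [v, b1, b2, b3, b4, if_true, mul_one, if_neg (show 1 + j % r ≠ 0 by omega),
      Nat.add_sub_cancel_left, Nat.div_add_mod, ← mul_assoc, Int.units_mul_self, one_mul, bit_sg]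
  · have T : ∀ k, ∑ n ∈ range ((r + 2) * k), (if n % (r + 2) = r + 1 then 0 else
        (((η (n / (r + 2)) * v n : ℤˣ) : ℤ) : ℝ)) = S (fun k => |s k|) e k := by
      intro k
      induction k with
      | zero => simp [S]
      | succ k ih =>
        rw [mul_add, mul_one, Finset.sum_range_add, ih, S_succ, ← hη, Finset.mul_sum]
        congr 1
        refine Finset.sum_congr rfl fun i hi => ?_
        rw [Nat.mul_add_div (by omega), Nat.div_eq_of_lt (Finset.mem_range.1 hi), add_zero]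
        split_ifs <;> simp
    have B : ∀ k, |S (fun k => |s k|) e k| ≤ r + 2 := by
      intro k
      induction k with
      | zero => simp [S]; positivity
      | succ k ih =>
        have := he k
        simp only [zero_sub, abs_neg] at this
        exact this.trans (max_le (by linarith [abs_nonneg (s k)]) (sb k))
    rw [← Nat.div_add_mod N (r + 2), Finset.sum_range_add, T, two_mul]
    refine (abs_add_le _ _).trans (add_le_add (B _) ((Finset.abs_sum_le_sum_abs _ _).trans ?_))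
    refine (Finset.sum_le_card_nsmul _ _ 1 fun i _ => ab _ _).trans ?_
    simp only [Finset.card_range, nsmul_eq_mul, mul_one]
    exact_mod_cast (Nat.mod_lt N (by omega : 0 < r + 2)).le

/-- the terms `(n^(-p), n^(-q))`, `n = 1, 2, ...` -/
noncomputable def a (p q : ℝ) (n : ℕ) : ℝ × ℝ := (((n : ℝ) + 1) ^ (-p), ((n : ℝ) + 1) ^ (-q))

lemma coord {p : ℝ} (hp : 0 < p) (r : ℕ) (u : ℕ → ℤˣ)
    (hu : ∀ N, |∑ n ∈ range N, (if n % (r + 2) = r + 1 then 0 else ((u n : ℤ) : ℝ))| ≤ 2 * (r + 2)) :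
    ∃ U : ℝ, ∀ (e' : ℕ → ℤˣ) (l : ℝ),
      Tendsto (fun N => ∑ n ∈ range N, ((e' n : ℤ) : ℝ) * ((n : ℝ) + 1) ^ (-p)) atTop
        (𝓝 ((l - U) / ((r : ℝ) + 2) ^ (-p))) →
      Tendsto (fun N => ∑ n ∈ range N, (((if n % (r + 2) = r + 1 then e' (n / (r + 2)) else u n : ℤˣ) : ℤ) : ℝ)
        * ((n : ℝ) + 1) ^ (-p)) atTop (𝓝 l) := by
  have h1 : Antitone fun n : ℕ => ((n : ℝ) + 1) ^ (-p) := fun m n h =>
    Real.rpow_le_rpow_of_nonpos (by positivity) (by simpa using h) (by linarith)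
  have h2 : Tendsto (fun n : ℕ => ((n : ℝ) + 1) ^ (-p)) atTop (𝓝 0) :=
    (tendsto_rpow_neg_atTop hp).comp (tendsto_natCast_atTop_atTop.atTop_add tendsto_const_nhds)
  obtain ⟨U, hU⟩ := cauchySeq_tendsto_of_complete
    (h1.cauchySeq_series_mul_of_tendsto_zero_of_bounded h2 fun N => (Real.norm_eq_abs _).trans_le (hu N))
  refine ⟨U, fun e' l h => ?_⟩
  have c0 : 0 < ((r : ℝ) + 2) ^ (-p) := by positivity
  have h3 := hU.add ((h.comp (Nat.tendsto_div_const_atTop (n := r + 2) (by omega))).const_mul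
    (((r : ℝ) + 2) ^ (-p)))
  rw [mul_div_cancel₀ _ c0.ne', add_sub_cancel] at h3
  refine h3.congr fun N => ?_
  simp only [Function.comp]
  induction N with
  | zero => simp
  | succ N ih =>
    rw [Finset.sum_range_succ, Finset.sum_range_succ, ← ih]
    have d := Nat.div_add_mod N (r + 2)
    by_cases g : N % (r + 2) = r + 1
    · have : (N + 1) / (r + 2) = N / (r + 2) + 1 := by
        rw [show N + 1 = (r + 2) * (N / (r + 2) + 1) by rw [mul_add]; omega]
        exact Nat.mul_div_cancel_left _ (by omega)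
      have e : (N : ℝ) + 1 = (r + 2) * ((N / (r + 2) : ℕ) + 1) := by
        exact_mod_cast (show N + 1 = (r + 2) * (N / (r + 2) + 1) by rw [mul_add]; omega)
      rw [this, Finset.sum_range_succ, if_pos g, if_pos g, e,
        Real.mul_rpow (by positivity) (by positivity)]
      simp; ring
    · have : (N + 1) / (r + 2) = N / (r + 2) := by
        have := Nat.mod_lt N (by omega : 0 < r + 2)
        rw [show N + 1 = (r + 2) * (N / (r + 2)) + (N % (r + 2) + 1) by omega,
          Nat.mul_add_div (by omega),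
          Nat.div_eq_of_lt (show N % (r + 2) + 1 < r + 2 by omega), add_zero]
      rw [this, if_neg g, if_neg g]
      simp; ring

lemma mem_a (p q : ℝ) (L : ℝ × ℝ) (e : ℕ → ℤˣ) : e ∈ E (a p q) L ↔
    Tendsto (fun N => ∑ n ∈ range N, ((e n : ℤ) : ℝ) * ((n : ℝ) + 1) ^ (-p)) atTop (𝓝 L.1) ∧
    Tendsto (fun N => ∑ n ∈ range N, ((e n : ℤ) : ℝ) * ((n : ℝ) + 1) ^ (-q)) atTop (𝓝 L.2) := by
  rw [E, mem_setOf_eq, Prod.tendsto_iff]
  simp [a, Prod.fst_sum, Prod.snd_sum]

lemma lower {p q : ℝ} (hp : 0 < p) (hq : 0 < q) (H : ∀ L, (E (a p q) L).Nonempty)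
    {X : Type} [MetricSpace X] (f : X → ℕ → ℤˣ) (hs : Function.Surjective f)
    (hf : ∀ x y, x ≠ y → ∃ n, dist x y = (1 / 2) ^ (n + 1) ∧ ∀ i < n, f x i = f y i)
    (L : ℝ × ℝ) (r : ℕ) (hr : 0 < r) :
    ((r / (r + 2) : ℝ≥0) : ℝ≥0∞) ≤ dimH {x | f x ∈ E (a p q) L} := by
  have r0 : (0 : ℝ) < r := by exact_mod_cast hr
  have hol : HolderWith (2 ^ (r + 1)) (r / (r + 2)) fun x => Real.ofDigits (G r (f x)) := by
    intro x y
    by_cases e : x = y
    · simp [e]
    obtain ⟨n, h1, h2⟩ := hf x y e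
    have := Real.abs_ofDigits_sub_ofDigits_le (x := G r (f x)) (y := G r (f y))
      (n := r * (n / (r + 2))) fun j hj => by
        have a1 := Nat.mod_lt j hr
        have a2 : j / r + 1 ≤ n / (r + 2) := (Nat.div_lt_iff_lt_mul hr).2 (by rwa [mul_comm])
        have a3 := Nat.mul_le_mul_left (r + 2) a2
        have a4 := Nat.mul_div_le n (r + 2)
        rw [mul_add] at a3
        rw [G, G, h2 _ (by omega), h2 _ (by omega)]
    rw [edist_nndist, edist_nndist, ← ENNReal.coe_rpow_of_nonneg _ (by positivity),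
      ← ENNReal.coe_mul, ENNReal.coe_le_coe, ← NNReal.coe_le_coe]
    push_cast
    rw [Real.dist_eq, h1]
    refine this.trans ?_
    rw [one_div, inv_pow, ← Real.rpow_natCast, ← Real.rpow_natCast, ← Real.rpow_natCast,
      ← Real.rpow_neg (by positivity), ← Real.rpow_neg (by norm_num), ← Real.rpow_mul (by norm_num),
      ← Real.rpow_add (by norm_num)]
    refine Real.rpow_le_rpow_of_exponent_le (by norm_num) ?_
    have a5 : (n : ℝ) + 1 ≤ (r + 2) * ((n / (r + 2) : ℕ) + 1) := by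
      exact_mod_cast Nat.lt_mul_div_succ n (by omega : 0 < r + 2)
    have a6 : ((n : ℝ) + 1) * (r / (r + 2)) ≤ r * ((n / (r + 2) : ℕ) + 1) := by
      rw [← mul_div_assoc, div_le_iff₀ (by positivity)]; nlinarith
    push_cast; linarith
  have r1 : (0 : ℝ≥0) < r / (r + 2) := by positivity
  have h1 := hol.dimH_image_le r1 {x | f x ∈ E (a p q) L}
  have h2 : Set.Ico (0 : ℝ) 1 ⊆ (fun x => Real.ofDigits (G r (f x))) '' {x | f x ∈ E (a p q) L} := by
    intro t ht
    obtain ⟨u, u1, u2⟩ := fill r hr (Real.digits t 2)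
    obtain ⟨U, hU⟩ := coord hp r u u2
    obtain ⟨V, hV⟩ := coord hq r u u2
    obtain ⟨e', he'⟩ := H ((L.1 - U) / ((r : ℝ) + 2) ^ (-p), (L.2 - V) / ((r : ℝ) + 2) ^ (-q))
    obtain ⟨x, hx⟩ := hs fun n => if n % (r + 2) = r + 1 then e' (n / (r + 2)) else u n
    rw [mem_a] at he'
    refine ⟨x, ?_, ?_⟩
    · rw [mem_setOf_eq, hx, mem_a]; exact ⟨hU e' _ he'.1, hV e' _ he'.2⟩
    · simp only [hx]
      rw [u1 _ fun n hn => if_neg hn, Real.ofDigits_digits one_lt_two ht]
  have h3 : dimH (Set.Ico (0 : ℝ) 1) = 1 := by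
    rw [Real.dimH_of_nonempty_interior (by simp)]; simp
  have h4 := (h3.symm.le.trans (dimH_mono h2)).trans h1
  rwa [ENNReal.le_div_iff_mul_le (Or.inl (by exact_mod_cast r1.ne')) (Or.inl ENNReal.coe_ne_top),
    one_mul] at h4

theorem main : ∀ p q : ℝ, 0 < p → 0 < q →
    (∀ L, (H91.SignDim.E (H91.SignPow.a p q) L).Nonempty) → ∀ m : MetricSpace (ℕ → ℤˣ),
      (∀ x y, x ≠ y → m.dist x y = (1 / 2) ^ (PiNat.firstDiff x y + 1)) →
      ∀ L, @dimH _ m.toEMetricSpace (H91.SignDim.E (H91.SignPow.a p q) L) = 1 := by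
  intro p q hp hq H m hm L
  refine le_antisymm (@upper _ m id (fun x y n h => ?_) _)
    (ENNReal.le_of_forall_nnreal_lt fun s hs => ?_)
  · by_cases e : x = y
    · rw [e, dist_self]; positivity
    · rw [hm x y e]
      exact pow_le_pow_of_le_one (by norm_num) (by norm_num)
        (((PiNat.mem_cylinder_iff_le_firstDiff e n).1 h).trans (Nat.le_succ _))
  have s1 : (s : ℝ) < 1 := by exact_mod_cast hs
  obtain ⟨r, hr⟩ := exists_nat_gt (2 / (1 - (s : ℝ)))
  have r0 : (0 : ℝ) < r := lt_trans (div_pos two_pos (by linarith)) hr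
  refine le_trans (ENNReal.coe_le_coe.2 ?_) (@lower p q hp hq H _ m id Function.surjective_id
    (fun x y e => ⟨_, hm x y e, fun i hi => PiNat.apply_eq_of_lt_firstDiff hi⟩) L r
    (by exact_mod_cast r0))
  rw [← NNReal.coe_le_coe]; push_cast
  rw [div_lt_iff₀ (by linarith)] at hr
  rw [le_div_iff₀ (by positivity)]; nlinarith

end H91.SignPow
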