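import Mathlib

set_option autoImplicit false

namespace Pool.Agent.H91.SkewHerm

open Filter Topology Set
open scoped ENNReal FourierTransform

abbrev Y := lp (fun _ : ℕ × ℝ => ℝ) ∞

lemma Y_le (F : Y) (p : ℕ × ℝ) : |F p| ≤ ‖F‖ := lp.norm_apply_le_norm (by simp) F p

lemma Y_norm_le (F : Y) {C : ℝ} (hC : 0 ≤ C) (h : ∀ p, |F p| ≤ C) : ‖F‖ ≤ C :=
  lp.norm_le_of_forall_le hC h

def Decay (F : ℕ × ℝ → ℝ) : Prop :=
  ∀ ε > 0, ∃ (N : ℕ) (R : ℝ), ∀ p : ℕ × ℝ, (N ≤ p.1 ∨ R ≤ |p.2|) → |F p| ≤ ε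

def Xs : Submodule ℝ Y where
  carrier := {F | Decay F ∧ ∀ n x, HasDerivAt (fun y => F (n, y)) (F (n + 1, x)) x}
  add_mem' := by
    intro a b ha hb
    refine ⟨fun ε hε => ?_, fun n x => (ha.2 n x).add (hb.2 n x)⟩
    obtain ⟨N1, R1, h1⟩ := ha.1 (ε / 2) (by linarith)
    obtain ⟨N2, R2, h2⟩ := hb.1 (ε / 2) (by linarith)
    refine ⟨max N1 N2, max R1 R2, fun p hp => ?_⟩
    have e1 := h1 p (hp.imp (le_trans (le_max_left _ _)) (le_trans (le_max_left _ _)))
    have e2 := h2 p (hp.imp (le_trans (le_max_right _ _)) (le_trans (le_max_right _ _)))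
    have := abs_add_le (a p) (b p)
    show |a p + b p| ≤ ε
    linarith
  zero_mem' := ⟨fun ε hε => ⟨0, 0, fun p _ => by simpa using hε.le⟩,
    fun n x => by simpa using hasDerivAt_const x (0 : ℝ)⟩
  smul_mem' := by
    intro c a ha
    refine ⟨fun ε hε => ?_, fun n x => (ha.2 n x).const_mul c⟩
    obtain ⟨N, R, h⟩ := ha.1 (ε / (|c| + 1)) (by positivity)
    refine ⟨N, R, fun p hp => ?_⟩
    have := h p hp
    show |c * a p| ≤ ε
    rw [le_div_iff₀ (by positivity)] at this
    rw [abs_mul]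
    nlinarith [abs_nonneg (a p)]

lemma Xs_closed : IsClosed (Xs : Set Y) := by
  apply IsSeqClosed.isClosed
  intro u F hu hF
  have hunif : ∀ ε > 0, ∀ᶠ k in atTop, ∀ p, |F p - u k p| < ε := by
    intro ε hε
    filter_upwards [Metric.tendsto_nhds.mp hF ε hε] with k hk p
    rw [dist_comm, dist_eq_norm] at hk
    exact lt_of_le_of_lt (Y_le (F - u k) p) hk
  constructor
  · intro ε hε
    obtain ⟨k, hk⟩ := (hunif (ε / 2) (by linarith)).exists
    obtain ⟨N, R, h⟩ := (hu k).1 (ε / 2) (by linarith)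
    refine ⟨N, R, fun p hp => ?_⟩
    have h1 := h p hp
    have h2 := hk p
    have := abs_add_le (F p - u k p) (u k p)
    rw [sub_add_cancel] at this
    linarith
  · intro n x
    apply hasDerivAt_of_tendstoUniformly (l := atTop) (f := fun k y => u k (n, y))
      (f' := fun k y => u k (n + 1, y)) (g' := fun y => F (n + 1, y))
    · rw [Metric.tendstoUniformly_iff]
      intro ε hε
      filter_upwards [hunif ε hε] with k hk y
      rw [Real.dist_eq]; exact hk _
    · exact Eventually.of_forall fun k y => (hu k).2 n y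
    · intro y
      rw [Metric.tendsto_nhds]
      intro ε hε
      filter_upwards [hunif ε hε] with k hk
      rw [dist_comm, Real.dist_eq]; exact hk _

def X : Type := Xs

noncomputable instance : NormedAddCommGroup X := inferInstanceAs (NormedAddCommGroup Xs)
noncomputable instance : NormedSpace ℝ X := inferInstanceAs (NormedSpace ℝ Xs)
instance : CompleteSpace X := Xs_closed.completeSpace_coe

def val (F : X) : ℕ × ℝ → ℝ := fun p => (show Xs from F).1 p

lemma val_le (F : X) (p : ℕ × ℝ) : |val F p| ≤ ‖F‖ := Y_le _ p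
lemma norm_le (F : X) {C : ℝ} (hC : 0 ≤ C) (h : ∀ p, |val F p| ≤ C) : ‖F‖ ≤ C := Y_norm_le _ hC h
lemma val_decay (F : X) : Decay (val F) := (show Xs from F).2.1
lemma val_deriv (F : X) (n : ℕ) (x : ℝ) :
    HasDerivAt (fun y => val F (n, y)) (val F (n + 1, x)) x := (show Xs from F).2.2 n x
lemma val_add (F G : X) (p : ℕ × ℝ) : val (F + G) p = val F p + val G p := rfl
lemma val_sub (F G : X) (p : ℕ × ℝ) : val (F - G) p = val F p - val G p := rfl
lemma val_smul (c : ℝ) (F : X) (p : ℕ × ℝ) : val (c • F) p = c * val F p := rfl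
lemma X_ext {F G : X} (h : ∀ p, val F p = val G p) : F = G := Subtype.ext (lp.ext (funext h))

def mk (f : ℕ × ℝ → ℝ) (C : ℝ) (hC : ∀ p, |f p| ≤ C) (hd : Decay f)
    (h : ∀ n x, HasDerivAt (fun y => f (n, y)) (f (n + 1, x)) x) : X :=
  (⟨⟨f, memℓp_infty ⟨C, by rintro _ ⟨p, rfl⟩; exact hC p⟩⟩, hd, h⟩ : Xs)

lemma val_mk (f : ℕ × ℝ → ℝ) (C : ℝ) (hC : ∀ p, |f p| ≤ C) (hd : Decay f)
    (h : ∀ n x, HasDerivAt (fun y => f (n, y)) (f (n + 1, x)) x) : val (mk f C hC hd h) = f := rfl

noncomputable def ev (p : ℕ × ℝ) : X →L[ℝ] ℝ :=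
  LinearMap.mkContinuous
    { toFun := fun F => val F p, map_add' := fun _ _ => rfl, map_smul' := fun _ _ => rfl } 1
    (fun F => by rw [one_mul]; exact val_le F p)

noncomputable def D0 (F : X) : X := mk (fun p => val F (p.1 + 1, p.2)) ‖F‖ (fun _ => val_le F _)
  (fun ε hε => by
    obtain ⟨N, R, h⟩ := val_decay F ε hε
    exact ⟨N, R, fun p hp => h (p.1 + 1, p.2) (hp.imp (fun h => Nat.le_succ_of_le h) id)⟩)
  (fun n x => val_deriv F (n + 1) x)

noncomputable def D : X →L[ℝ] X :=
  LinearMap.mkContinuous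
    { toFun := D0, map_add' := fun _ _ => X_ext fun _ => rfl,
      map_smul' := fun _ _ => X_ext fun _ => rfl } 1
    (fun F => by rw [one_mul]; exact norm_le _ (norm_nonneg F) fun p => val_le F _)

lemma val_D (F : X) (p : ℕ × ℝ) : val (D F) p = val F (p.1 + 1, p.2) := rfl

noncomputable def tr (t : ℝ) (F : X) : X := mk (fun p => val F (p.1, p.2 + t)) ‖F‖ (fun _ => val_le F _)
  (fun ε hε => by
    obtain ⟨N, R, h⟩ := val_decay F ε hε
    refine ⟨N, R + |t|, fun p hp => h (p.1, p.2 + t) (hp.imp id fun h => ?_)⟩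
    have := abs_sub (p.2 + t) t
    rw [add_sub_cancel_right] at this
    show R ≤ |p.2 + t|
    linarith)
  (fun n x => (val_deriv F n (x + t)).comp_add_const x t)

lemma val_tr (t : ℝ) (F : X) (p : ℕ × ℝ) : val (tr t F) p = val F (p.1, p.2 + t) := rfl

lemma tr_norm (t : ℝ) (F : X) : ‖tr t F‖ ≤ ‖F‖ := norm_le _ (norm_nonneg F) fun _ => val_le F _

lemma tr_zero (F : X) : tr 0 F = F := X_ext fun p => by rw [val_tr, add_zero]

lemma taylor (F : X) (n : ℕ) (x s : ℝ) :
    |val F (n, x + s) - val F (n, x) - s * val F (n + 1, x)| ≤ ‖F‖ * s ^ 2 := by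
  have h1 : ∀ y, |val F (n + 1, y) - val F (n + 1, x)| ≤ ‖F‖ * |y - x| := fun y =>
    convex_univ.norm_image_sub_le_of_norm_hasDerivWithin_le (f := fun y => val F (n + 1, y))
      (f' := fun y => val F (n + 2, y)) (fun y _ => (val_deriv F (n + 1) y).hasDerivWithinAt)
      (fun y _ => val_le F _) (mem_univ x) (mem_univ y)
  have h2 := (convex_closedBall x |s|).norm_image_sub_le_of_norm_hasDerivWithin_le
    (f := fun y => val F (n, y) - y * val F (n + 1, x))
    (f' := fun y => val F (n + 1, y) - val F (n + 1, x)) (C := ‖F‖ * |s|)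
    (fun y _ => by
      have := (val_deriv F n y).sub ((hasDerivAt_id y).mul_const (val F (n + 1, x)))
      rw [one_mul] at this
      exact this.hasDerivWithinAt)
    (fun y hy => by
      rw [Metric.mem_closedBall, Real.dist_eq] at hy
      exact (h1 y).trans (mul_le_mul_of_nonneg_left hy (norm_nonneg _)))
    (Metric.mem_closedBall_self (abs_nonneg s))
    (show x + s ∈ Metric.closedBall x |s| by simp)
  simp only [add_sub_cancel_left, Real.norm_eq_abs] at h2
  rw [mul_assoc, abs_mul_abs_self, ← sq] at h2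
  convert h2 using 2
  ring

lemma tr_deriv (F : X) (t : ℝ) : HasDerivAt (fun s => tr s F) (D (tr t F)) t := by
  rw [hasDerivAt_iff_isLittleO]
  have h1 : (fun s => tr s F - tr t F - (s - t) • D (tr t F)) =O[𝓝 t] fun s => (s - t) ^ 2 := by
    apply Asymptotics.IsBigO.of_bound ‖F‖
    apply Eventually.of_forall
    intro s
    apply norm_le _ (by positivity)
    intro p
    have := taylor F p.1 (p.2 + t) (s - t)
    rw [show p.2 + t + (s - t) = p.2 + s by ring] at this
    rw [Real.norm_eq_abs, abs_of_nonneg (sq_nonneg (s - t))]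
    exact this
  refine h1.trans_isLittleO ?_
  have h2 : Tendsto (fun s : ℝ => s - t) (𝓝 t) (𝓝 0) := by
    have : Continuous (fun s : ℝ => s - t) := by fun_prop
    simpa using this.tendsto t
  exact (Asymptotics.isLittleO_pow_id (𝕜 := ℝ) (by norm_num : 1 < 2)).comp_tendsto h2

lemma skew (F : X) (φ : X →L[ℝ] ℝ) (hF : ‖F‖ = 1) (hφ : ‖φ‖ = 1) (h : φ F = 1) : φ (D F) = 0 := by
  have h1 := φ.hasFDerivAt.comp_hasDerivAt (0 : ℝ) (tr_deriv F 0)
  rw [tr_zero] at h1
  apply IsLocalMax.hasDerivAt_eq_zero _ h1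
  apply Eventually.of_forall
  intro s
  simp only [Function.comp, tr_zero, h]
  have := φ.le_opNorm (tr s F)
  rw [hφ, one_mul, Real.norm_eq_abs] at this
  linarith [le_abs_self (φ (tr s F)), tr_norm s F]

lemma tr_exp (F : X) : (fun s => tr s F) = fun s : ℝ => (NormedSpace.exp (s • D)) F := by
  apply ODE_solution_unique_univ (v := fun _ G => D G) (s := fun _ => univ) (K := ‖D‖₊) (t₀ := 0)
  · intro t; exact D.lipschitz.lipschitzOnWith
  · intro t; exact ⟨tr_deriv F t, mem_univ _⟩
  · intro t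
    refine ⟨?_, mem_univ _⟩
    have h1 := hasDerivAt_exp_smul_const' (𝕂 := ℝ) D t
    exact (ContinuousLinearMap.apply ℝ X F).hasFDerivAt.comp_hasDerivAt t h1
  · simp [tr_zero]

lemma val_analytic (F : X) (n : ℕ) : AnalyticOnNhd ℝ (fun y => val F (n, y)) univ := by
  intro y _
  have e : (fun y => val F (n, y)) = fun s : ℝ => ev (n, 0) ((NormedSpace.exp (s • D)) F) := by
    funext s
    rw [← congrFun (tr_exp F) s]
    show _ = val (tr s F) (n, 0)
    rw [val_tr, zero_add]
  rw [e]
  have h1 : AnalyticAt ℝ (fun s : ℝ => s • D) y := by fun_prop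
  have h2 := (NormedSpace.exp_analytic (𝕂 := ℝ) (y • D)).comp (f := fun s : ℝ => s • D) h1
  exact (((ev (n, 0)).comp (ContinuousLinearMap.apply ℝ X F)).analyticAt _).comp h2

lemma attain (F : X) (hF : ‖F‖ = 1) (N : ℕ) (R : ℝ)
    (h : ∀ p : ℕ × ℝ, (N ≤ p.1 ∨ R ≤ |p.2|) → |val F p| ≤ 1 / 2) :
    ∃ p : ℕ × ℝ, p.1 < N ∧ |p.2| ≤ R ∧ |val F p| = 1 := by
  have hK : IsCompact (Iio N ×ˢ Icc (-R) R) := (Set.finite_Iio N).isCompact.prod isCompact_Icc
  have hc : Continuous (fun p : ℕ × ℝ => |val F p|) := by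
    apply Continuous.abs
    rw [continuous_prod_of_discrete_left]
    intro n
    exact continuous_iff_continuousAt.mpr fun x => (val_deriv F n x).continuousAt
  have hmem : ∀ p : ℕ × ℝ, p ∉ Iio N ×ˢ Icc (-R) R → |val F p| ≤ 1 / 2 := by
    intro p hp
    apply h
    by_contra hh
    push Not at hh
    exact hp ⟨hh.1, abs_le.mp hh.2.le⟩
  rcases (Iio N ×ˢ Icc (-R) R).eq_empty_or_nonempty with he | he
  · have := norm_le F (C := 1 / 2) (by norm_num) fun p => hmem p (by rw [he]; exact notMem_empty p)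
    linarith
  · obtain ⟨p, hp, hmax⟩ := hK.exists_isMaxOn he hc.continuousOn
    refine ⟨p, hp.1, abs_le.mpr hp.2, le_antisymm (hF ▸ val_le F p) ?_⟩
    have := norm_le F (C := max (1 / 2) |val F p|) (by positivity) fun q => by
      by_cases hq : q ∈ Iio N ×ˢ Icc (-R) R
      · exact le_max_of_le_right (hmax hq)
      · exact le_max_of_le_left (hmem q hq)
    rw [hF, le_max_iff] at this
    rcases this with h1 | h1
    · linarith
    · exact h1

lemma no_plane (f g : X) (h : ∀ a b : ℝ, ‖a • f + b • g‖ ^ 2 = a ^ 2 + b ^ 2) : False := by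
  have hle : ∀ p, val f p ^ 2 + val g p ^ 2 ≤ 1 := by
    intro p
    have h1 := val_le (val f p • f + val g p • g) p
    have h2 := h (val f p) (val g p)
    rw [val_add, val_smul, val_smul, abs_of_nonneg (by nlinarith)] at h1
    have h3 : (val f p * val f p + val g p * val g p) ^ 2 ≤ ‖val f p • f + val g p • g‖ ^ 2 := by
      gcongr; nlinarith
    rw [h2] at h3
    nlinarith [sq_nonneg (val f p), sq_nonneg (val g p)]
  obtain ⟨N1, R1, h1⟩ := val_decay f (1 / 4) (by norm_num)
  obtain ⟨N2, R2, h2⟩ := val_decay g (1 / 4) (by norm_num)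
  set N := max N1 N2
  set R := max R1 R2
  have hsmall : ∀ p : ℕ × ℝ, (N ≤ p.1 ∨ R ≤ |p.2|) → |val f p| ≤ 1 / 4 ∧ |val g p| ≤ 1 / 4 :=
    fun p hp => ⟨h1 p (hp.imp (le_trans (le_max_left _ _)) (le_trans (le_max_left _ _))),
      h2 p (hp.imp (le_trans (le_max_right _ _)) (le_trans (le_max_right _ _)))⟩
  have key : ∀ k : ℕ, ∃ p : ℕ × ℝ, p.1 < N ∧ |p.2| ≤ R ∧ val f p ^ 2 + val g p ^ 2 = 1 ∧
      val g p = k * val f p := by
    intro k
    set c : ℝ := (Real.sqrt (1 + k ^ 2))⁻¹ with hc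
    have hc2 : c ^ 2 * (1 + k ^ 2) = 1 := by
      rw [hc, inv_pow, Real.sq_sqrt (by positivity)]; field_simp
    have hc0 : 0 ≤ c := by positivity
    have hk0 : (0 : ℝ) ≤ k := Nat.cast_nonneg k
    have ha : c ≤ 1 := by nlinarith [sq_nonneg (c * k)]
    have hb : c * k ≤ 1 := by nlinarith [sq_nonneg c, mul_nonneg hc0 hk0]
    have hn : ‖c • f + (c * k) • g‖ = 1 := by
      have := h c (c * k)
      have h3 : ‖c • f + (c * k) • g‖ ^ 2 = 1 ^ 2 := by rw [this]; linarith
      exact (pow_left_inj₀ (norm_nonneg _) zero_le_one two_ne_zero).mp h3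
    obtain ⟨p, hp1, hp2, hp3⟩ := attain _ hn N R (fun p hp => by
      obtain ⟨e1, e2⟩ := hsmall p hp
      rw [val_add, val_smul, val_smul]
      refine (abs_add_le _ _).trans ?_
      rw [abs_mul, abs_mul, abs_of_nonneg hc0, abs_of_nonneg (mul_nonneg hc0 hk0)]
      nlinarith [abs_nonneg (val f p), abs_nonneg (val g p), mul_nonneg hc0 hk0])
    rw [val_add, val_smul, val_smul] at hp3
    have h4 : (c * val f p + c * k * val g p) ^ 2 = 1 := by rw [← sq_abs, hp3]; norm_num
    have h5 := hle p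
    have hcpos : 0 < c := by positivity
    have h6 : (c * (val g p - k * val f p)) ^ 2 + 1 = val f p ^ 2 + val g p ^ 2 := by
      rw [← h4]; linear_combination (val f p ^ 2 + val g p ^ 2) * hc2
    have h7 : c * (val g p - k * val f p) = 0 := by
      apply pow_eq_zero_iff (n := 2) two_ne_zero |>.mp
      nlinarith [sq_nonneg (c * (val g p - k * val f p))]
    refine ⟨p, hp1, hp2, by rw [h7] at h6; linarith, ?_⟩
    have := (mul_eq_zero.mp h7).resolve_left hcpos.ne'
    linarith
  choose P hP1 hP2 hP3 hP4 using key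
  have hinj : Function.Injective P := by
    intro a b hab
    have e1 := hP4 a
    have e2 := hP4 b
    have e3 := hP3 a
    rw [← hab] at e2
    have hf0 : val f (P a) ≠ 0 := by
      intro h0; rw [e1, h0] at e3; norm_num at e3
    have : (a : ℝ) = b := mul_right_cancel₀ hf0 (e1.symm.trans e2)
    exact_mod_cast this
  have hinf : ∃ n, {x : ℝ | |x| ≤ R ∧ val f (n, x) ^ 2 + val g (n, x) ^ 2 = 1}.Infinite := by
    by_contra hfin
    push Not at hfin
    have : (⋃ n ∈ Iio N, (fun x => (n, x)) ''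
        {x : ℝ | |x| ≤ R ∧ val f (n, x) ^ 2 + val g (n, x) ^ 2 = 1}).Finite :=
      (Set.finite_Iio N).biUnion fun n _ => (hfin n).image _
    apply Set.infinite_of_injective_forall_mem hinj _ this
    intro k
    exact mem_biUnion (hP1 k) ⟨(P k).2, ⟨hP2 k, hP3 k⟩, rfl⟩
  obtain ⟨n, hn⟩ := hinf
  obtain ⟨x0, _, hx0⟩ := hn.exists_accPt_of_subset_isCompact (isCompact_Icc (a := -R) (b := R))
    (fun x hx => abs_le.mp hx.1)
  rw [accPt_iff_frequently_nhdsNE] at hx0
  have han : AnalyticOnNhd ℝ (fun x => val f (n, x) ^ 2 + val g (n, x) ^ 2) univ :=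
    ((val_analytic f n).pow 2).add ((val_analytic g n).pow 2)
  have := han.eqOn_of_preconnected_of_frequently_eq (g := fun _ => (1 : ℝ)) analyticOnNhd_const
    isPreconnected_univ (mem_univ x0) (hx0.mono fun x hx => hx.2) (mem_univ |R|)
  obtain ⟨e1, e2⟩ := hsmall (n, |R|) (Or.inr (by simpa using le_abs_self R))
  simp only at this
  rw [← sq_abs (val f _), ← sq_abs (val g _)] at this
  nlinarith [abs_nonneg (val f (n, |R|)), abs_nonneg (val g (n, |R|))]

noncomputable def hh (n : ℕ) : ℝ → ℂ :=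
  (Icc (0 : ℝ) (1 / 16)).indicator fun v => (-2 * Real.pi * Complex.I * v) ^ n

lemma hh_int (n : ℕ) : MeasureTheory.Integrable (hh n) := by
  unfold hh
  rw [MeasureTheory.integrable_indicator_iff measurableSet_Icc]
  exact (by fun_prop : Continuous fun v : ℝ =>
    (-2 * Real.pi * Complex.I * v) ^ n).integrableOn_Icc

lemma hh_int' (n : ℕ) : MeasureTheory.Integrable (fun x : ℝ => x • hh n x) := by
  have : (fun x : ℝ => x • hh n x) = (Icc (0 : ℝ) (1 / 16)).indicator
      fun v => v • (-2 * Real.pi * Complex.I * v) ^ n := by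
    funext x
    by_cases hx : x ∈ Icc (0 : ℝ) (1 / 16)
    · simp only [hh, indicator_of_mem hx]
    · simp only [hh, indicator_of_notMem hx, smul_zero]
  rw [this, MeasureTheory.integrable_indicator_iff measurableSet_Icc]
  exact (by fun_prop : Continuous fun v : ℝ =>
    v • (-2 * Real.pi * Complex.I * v) ^ n).integrableOn_Icc

lemma hh_succ (n : ℕ) : (fun x : ℝ => (-2 * Real.pi * Complex.I * x) • hh n x) = hh (n + 1) := by
  funext x
  by_cases hx : x ∈ Icc (0 : ℝ) (1 / 16)
  · simp only [hh, indicator_of_mem hx, smul_eq_mul]; ring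
  · simp only [hh, indicator_of_notMem hx, smul_zero]

lemma hh_bound (n : ℕ) (w : ℝ) : ‖𝓕 (hh n) w‖ ≤ (1 / 2) ^ n := by
  rw [Real.fourier_eq]
  refine (MeasureTheory.norm_integral_le_integral_norm _).trans ?_
  have h1 : ∫ v, (Icc (0 : ℝ) (1 / 16)).indicator (fun _ => (1 / 2 : ℝ) ^ n) v ≤ (1 / 2) ^ n := by
    rw [MeasureTheory.integral_indicator measurableSet_Icc]
    simp only [MeasureTheory.integral_const, smul_eq_mul]
    norm_num
  refine le_trans (MeasureTheory.integral_mono_of_nonneg (Eventually.of_forall fun _ => norm_nonneg _)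
    ?_ (Eventually.of_forall fun v => ?_)) h1
  · rw [MeasureTheory.integrable_indicator_iff measurableSet_Icc]
    exact continuous_const.integrableOn_Icc
  · simp only [Circle.norm_smul]
    by_cases hx : v ∈ Icc (0 : ℝ) (1 / 16)
    · simp only [hh, indicator_of_mem hx, norm_pow]
      gcongr
      have := Real.pi_le_four
      have h0 := Real.pi_pos
      simp [abs_of_pos h0, abs_of_nonneg hx.1]
      nlinarith [hx.1, hx.2]
    · simp only [hh, indicator_of_notMem hx, norm_zero, le_refl]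

noncomputable def F0 : X := mk (fun p => (𝓕 (hh p.1) p.2).re) 1
  (fun p => (Complex.abs_re_le_norm _).trans ((hh_bound _ _).trans
    (pow_le_one₀ (by norm_num) (by norm_num))))
  (fun ε hε => by
    obtain ⟨N, hN⟩ := exists_pow_lt_of_lt_one hε (show (1 / 2 : ℝ) < 1 by norm_num)
    have h1 : ∀ᶠ x in cocompact ℝ, ∀ n ∈ Finset.range N, ‖𝓕 (hh n) x‖ ≤ ε := by
      rw [Filter.eventually_all_finset]
      intro n _
      have := (Real.zero_at_infty_fourier (hh n)).norm
      rw [norm_zero] at this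
      exact this.eventually (ge_mem_nhds hε)
    rw [Filter.hasBasis_cocompact.eventually_iff] at h1
    obtain ⟨K, hK, h2⟩ := h1
    obtain ⟨R, hR⟩ := hK.isBounded.subset_ball 0
    refine ⟨N, R, fun p hp => (Complex.abs_re_le_norm _).trans ?_⟩
    by_cases hn : N ≤ p.1
    · exact (hh_bound _ _).trans ((pow_le_pow_of_le_one (by norm_num) (by norm_num) hn).trans hN.le)
    · refine h2 (fun hx => ?_) p.1 (Finset.mem_range.mpr (not_le.mp hn))
      have := hR hx
      rw [mem_ball_zero_iff, Real.norm_eq_abs] at this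
      exact absurd (hp.resolve_left hn) (not_le.mpr this))
  (fun n x => by
    have := Real.hasDerivAt_fourier (hh_int n) (hh_int' n) x
    rw [hh_succ] at this
    exact Complex.reCLM.hasFDerivAt.comp_hasDerivAt x this)

lemma D_ne : D ≠ 0 := by
  intro h
  have h1 : ∀ x, val F0 (1, x) = 0 := fun x => by
    have := val_D F0 (0, x)
    rw [h] at this
    exact this.symm
  have h2 : ∀ x y, val F0 (0, x) = val F0 (0, y) :=
    is_const_of_deriv_eq_zero (f := fun y => val F0 (0, y))
      (fun x => (val_deriv F0 0 x).differentiableAt) (fun x => by rw [(val_deriv F0 0 x).deriv, h1])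
  have h3 : val F0 (0, 0) = 1 / 16 := by
    show (𝓕 (hh 0) 0).re = 1 / 16
    rw [Real.fourier_eq]
    simp only [inner_zero_right, neg_zero, AddChar.map_zero_eq_one, one_smul, hh, pow_zero]
    rw [MeasureTheory.integral_indicator measurableSet_Icc]
    simp
  obtain ⟨N, R, h4⟩ := val_decay F0 (1 / 32) (by norm_num)
  have := h4 (0, |R|) (Or.inr (by simpa using le_abs_self R))
  rw [h2 |R| 0, h3] at this
  norm_num at this

end Pool.Agent.H91.SkewHerm
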