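import Mathlib

set_option autoImplicit false

namespace H91.SlitCIA
open Complex Metric Set

/-- Convex in the direction of the imaginary axis: every vertical line meets `G` in a
connected (possibly empty) set. -/
def CIA (G : Set ℂ) : Prop := ∀ c : ℝ, IsPreconnected (G ∩ {w | w.re = c})

def Qd : Set ℂ := {u | 0 < u.re ∧ 0 < u.im}

noncomputable def z0 : ℂ := ⟨-15, 8⟩
noncomputable def z1 : ℂ := ⟨-15, -8⟩
noncomputable def mo (z : ℂ) : ℂ := (z0 - z1 * z) / (1 - z)
noncomputable def sq' (z : ℂ) : ℂ := (mo z) ^ (2⁻¹ : ℂ)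
noncomputable def F (z : ℂ) : ℂ := (sq' z) ^ 3

lemma ne1 {z : ℂ} (hz : ‖z‖ < 1) : (1 - z) ≠ 0 := by
  intro h
  have : z = 1 := by linear_combination -h
  rw [this] at hz; simp at hz

lemma nsq_lt {z : ℂ} (hz : ‖z‖ < 1) : z.re * z.re + z.im * z.im < 1 := by
  have h1 : normSq z < 1 := by
    rw [Complex.normSq_eq_norm_sq]; nlinarith [norm_nonneg z]
  simpa [normSq_apply] using h1

lemma mo_im {z : ℂ} (hz : ‖z‖ < 1) : 0 < (mo z).im := by
  have h1 := nsq_lt hz
  have h2 : 0 < normSq (1 - z) := normSq_pos.2 (ne1 hz)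
  unfold mo
  rw [Complex.div_im, ← sub_div]
  apply div_pos _ h2
  simp [z0, z1]
  nlinarith

lemma sq_sq (z : ℂ) : (sq' z) ^ 2 = mo z := by
  unfold sq'
  exact Complex.cpow_ofNat_inv_pow _ 2

lemma sq_mem {z : ℂ} (hz : ‖z‖ < 1) : sq' z ∈ Qd := by
  have h1 := mo_im hz
  have h2 : 0 ≤ (sq' z).re := by
    unfold sq'
    rw [Complex.cpow_inv_two_re]; exact Real.sqrt_nonneg _
  have h3 : (mo z).im = 2 * ((sq' z).re * (sq' z).im) := by
    rw [← sq_sq z]; simp [sq]; ring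
  have h4 : 0 < (sq' z).re * (sq' z).im := by linarith
  have h5 : 0 < (sq' z).re := by
    rcases h2.lt_or_eq with h | h
    · exact h
    · rw [← h] at h4; simp at h4
  exact ⟨h5, by
    by_contra h6
    push Not at h6
    nlinarith⟩

lemma cube_inj {u v : ℂ} (hu : u ∈ Qd) (hv : v ∈ Qd) (h : u ^ 3 = v ^ 3) : u = v := by
  have h1 : (u - v) * (u ^ 2 + u * v + v ^ 2) = 0 := by linear_combination h
  rcases mul_eq_zero.1 h1 with h2 | h2
  · linear_combination h2
  · exfalso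
    have h3 := congrArg Complex.im h2
    simp [sq] at h3
    obtain ⟨a, b⟩ := hu
    obtain ⟨c, d⟩ := hv
    have := mul_pos a b
    have := mul_pos c d
    have := mul_pos a d
    have := mul_pos b c
    nlinarith

lemma sq_inj {u v : ℂ} (hu : u ∈ Qd) (hv : v ∈ Qd) (h : u ^ 2 = v ^ 2) : u = v := by
  have h1 : (u - v) * (u + v) = 0 := by linear_combination h
  rcases mul_eq_zero.1 h1 with h2 | h2
  · linear_combination h2
  · exfalso
    have h3 := congrArg Complex.im h2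
    simp at h3
    linarith [hu.2, hv.2]

lemma mo_inv {z : ℂ} (hz : ‖z‖ < 1) : z * (mo z - z1) = mo z - z0 := by
  have := ne1 hz
  unfold mo
  field_simp
  ring

lemma F_inj {z w : ℂ} (hz : ‖z‖ < 1) (hw : ‖w‖ < 1) (h : F z = F w) : z = w := by
  have h1 := cube_inj (sq_mem hz) (sq_mem hw) h
  have h2 : mo z = mo w := by rw [← sq_sq, ← sq_sq, h1]
  have h3 := mo_inv hz
  have h4 := mo_inv hw
  rw [← h2] at h4
  have h5 : mo z - z1 ≠ 0 := by
    intro h6
    have := congrArg Complex.im h6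
    simp [z1] at this
    linarith [mo_im hz]
  apply mul_right_cancel₀ h5
  rw [h3, h4]

lemma memF {u : ℂ} (hu : u ∈ Qd) {r : ℝ} (hr0 : 0 < r) (hr : r ≤ 1) :
    u ^ 3 ∈ F '' ball 0 r ↔ normSq (u ^ 2 - z0) < r ^ 2 * normSq (u ^ 2 - z1) := by
  have him : 0 < (u ^ 2).im := by
    simp [sq]; nlinarith [mul_pos hu.1 hu.2]
  have h5 : u ^ 2 - z1 ≠ 0 := by
    intro h6
    have := congrArg Complex.im h6
    simp only [sub_im, z1, zero_im] at this
    linarith
  have hp : 0 < normSq (u ^ 2 - z1) := normSq_pos.2 h5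
  constructor
  · rintro ⟨z, hz, h⟩
    rw [mem_ball_zero_iff] at hz
    have hz1 : ‖z‖ < 1 := lt_of_lt_of_le hz hr
    have h1 := cube_inj (sq_mem hz1) hu h
    have h2 : mo z = u ^ 2 := by rw [← sq_sq, h1]
    have h3 := mo_inv hz1
    rw [h2] at h3
    rw [← h3, map_mul]
    apply mul_lt_mul_of_pos_right _ hp
    rw [Complex.normSq_eq_norm_sq]
    nlinarith [norm_nonneg z]
  · intro h
    set z := (u ^ 2 - z0) / (u ^ 2 - z1) with hzd
    have hz : ‖z‖ < r := by
      have : normSq z < r ^ 2 := by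
        rw [hzd, map_div₀, div_lt_iff₀ hp]; exact h
      rw [Complex.normSq_eq_norm_sq] at this
      exact lt_of_pow_lt_pow_left₀ 2 hr0.le this
    have hz1 : ‖z‖ < 1 := lt_of_lt_of_le hz hr
    refine ⟨z, mem_ball_zero_iff.2 hz, ?_⟩
    have h2 : mo z = u ^ 2 := by
      unfold mo
      rw [div_eq_iff (ne1 hz1), hzd]
      field_simp
      ring
    have h3 : sq' z = u := sq_inj (sq_mem hz1) hu (by rw [sq_sq, h2])
    unfold F; rw [h3]

lemma exists_root {w : ℂ} (hw : w.re < 0 ∨ 0 < w.im) : ∃ u ∈ Qd, u ^ 3 = w := by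
  have hw0 : w ≠ 0 := by
    rintro rfl
    simp at hw
  have hn : 0 < ‖w‖ := norm_pos_iff.2 hw0
  obtain ⟨θ, h0, h1, h2⟩ : ∃ θ : ℝ, 0 < θ ∧ θ < 3 * (Real.pi / 2) ∧
      (‖w‖ : ℂ) * exp (θ * I) = w := by
    have hpi := Real.pi_pos
    by_cases ha : 0 < arg w
    · exact ⟨arg w, ha, by linarith [arg_le_pi w], norm_mul_exp_arg_mul_I w⟩
    · push Not at ha
      have him : w.im ≤ 0 := by
        by_contra hc
        push Not at hc
        have h7 : 0 ≤ arg w := arg_nonneg_iff.2 hc.le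
        have h8 : arg w = 0 := le_antisymm ha h7
        rw [arg_eq_zero_iff] at h8
        linarith [h8.2]
      have hre : w.re < 0 := by
        rcases hw with h | h
        · exact h
        · linarith
      have h9 : arg w < -(Real.pi / 2) := by
        by_contra hc
        push Not at hc
        have : |arg w| ≤ Real.pi / 2 := abs_le.2 ⟨hc, by linarith⟩
        rw [abs_arg_le_pi_div_two_iff] at this
        linarith
      refine ⟨arg w + 2 * Real.pi, by linarith [neg_pi_lt_arg w], by linarith, ?_⟩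
      push_cast
      rw [add_mul, exp_add, exp_two_pi_mul_I, mul_one]
      exact norm_mul_exp_arg_mul_I w
  have hρ : 0 < ‖w‖ ^ ((3 : ℝ)⁻¹) := Real.rpow_pos_of_pos hn _
  refine ⟨((‖w‖ ^ ((3 : ℝ)⁻¹) : ℝ) : ℂ) * exp (((θ / 3 : ℝ) : ℂ) * I), ⟨?_, ?_⟩, ?_⟩
  · rw [re_ofReal_mul, exp_ofReal_mul_I_re]
    exact mul_pos hρ (Real.cos_pos_of_mem_Ioo ⟨by linarith [Real.pi_pos], by linarith⟩)
  · rw [im_ofReal_mul, exp_ofReal_mul_I_im]
    exact mul_pos hρ (Real.sin_pos_of_pos_of_lt_pi (by linarith) (by linarith [Real.pi_pos]))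
  · rw [mul_pow, ← exp_nat_mul, ← ofReal_pow]
    have : (‖w‖ ^ ((3 : ℝ)⁻¹)) ^ 3 = ‖w‖ := by
      have := Real.rpow_inv_natCast_pow hn.le (n := 3) (by norm_num)
      simpa using this
    rw [this, ← h2]
    congr 2
    · rw [h2]
    · push_cast; ring

lemma F_image : F '' ball 0 1 = {w | w.re < 0 ∨ 0 < w.im} := by
  ext w
  constructor
  · rintro ⟨z, hz, rfl⟩
    rw [mem_ball_zero_iff] at hz
    obtain ⟨a, b⟩ := sq_mem hz
    unfold F
    set u := sq' z
    by_contra hc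
    simp only [mem_ofPred_eq, not_or, not_lt] at hc
    obtain ⟨h1, h2⟩ := hc
    have e1 : (u ^ 3).re = u.re * (u.re ^ 2 - 3 * u.im ^ 2) := by simp [pow_succ]; ring
    have e2 : (u ^ 3).im = u.im * (3 * u.re ^ 2 - u.im ^ 2) := by simp [pow_succ]; ring
    rw [e1] at h1
    rw [e2] at h2
    have h3 : 0 ≤ u.re ^ 2 - 3 * u.im ^ 2 := by
      by_contra h5
      push Not at h5
      nlinarith [mul_pos a (neg_pos.2 h5)]
    have h4 : 3 * u.re ^ 2 - u.im ^ 2 ≤ 0 := by
      by_contra h5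
      push Not at h5
      nlinarith [mul_pos b h5]
    nlinarith [sq_pos_of_pos a, sq_pos_of_pos b]
  · intro hw
    obtain ⟨u, hu, rfl⟩ := exists_root hw
    rw [memF hu one_pos le_rfl]
    have := mul_pos hu.1 hu.2
    simp [normSq_apply, z0, z1, sq]
    nlinarith

lemma sq_diff {z : ℂ} (hz : ‖z‖ < 1) : DifferentiableAt ℂ sq' z := by
  unfold sq'
  apply DifferentiableAt.cpow_const
  · unfold mo
    have := ne1 hz
    fun_prop (disch := assumption)
  · exact Or.inr (mo_im hz).ne'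

lemma F_diff {z : ℂ} (hz : ‖z‖ < 1) : DifferentiableAt ℂ F z := (sq_diff hz).pow 3

lemma sq_zero : sq' 0 = ⟨1, 4⟩ := by
  apply sq_inj (sq_mem (by simp)) ⟨by norm_num, by norm_num⟩
  rw [sq_sq]
  apply Complex.ext <;> simp [mo, z0, sq] <;> norm_num

lemma F_zero : F 0 = ⟨-47, -52⟩ := by
  unfold F; rw [sq_zero]
  apply Complex.ext <;> simp [pow_succ] <;> norm_num

lemma F_deriv : deriv F 0 ≠ 0 := by
  have h1 := (sq_diff (z := 0) (by simp)).hasDerivAt
  set s := deriv sq' 0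
  have h2 : HasDerivAt mo (((2 : ℕ) : ℂ) * sq' 0 ^ (2 - 1) * s) 0 := by
    have := h1.pow 2
    have e : (sq' ^ 2) = mo := by funext z; exact sq_sq z
    rwa [e] at this
  have h3 : HasDerivAt mo (((0 - z1 * 1) * (1 - 0) - (z0 - z1 * 0) * (0 - 1)) / (1 - 0) ^ 2) 0 := by
    unfold mo
    exact ((hasDerivAt_const _ _).sub ((hasDerivAt_id (0 : ℂ)).const_mul z1)).div
      ((hasDerivAt_const _ _).sub (hasDerivAt_id (0 : ℂ))) (by simp)
  have h4 := h2.unique h3
  have hs : s ≠ 0 := by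
    intro h
    rw [h] at h4
    have := congrArg Complex.im h4
    simp [z0, z1] at this
    norm_num at this
  have h5 : HasDerivAt F (((3 : ℕ) : ℂ) * sq' 0 ^ (3 - 1) * s) 0 := h1.pow 3
  rw [h5.deriv]
  have : sq' 0 ≠ 0 := by
    rw [sq_zero]; intro h; have := congrArg Complex.re h; simp at this
  exact mul_ne_zero (mul_ne_zero (by norm_num) (pow_ne_zero _ this)) hs

lemma pt (x q : ℝ) (hx : 0 < x) (hq : 0 < q) :
    ∃ y : ℝ, 0 < y ∧ y ^ 2 = q ∧ (⟨x, y⟩ : ℂ) ∈ Qd ∧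
      ((⟨x, y⟩ : ℂ) ^ 3).re = x * (x ^ 2 - 3 * q) ∧ ((⟨x, y⟩ : ℂ) ^ 3).im = y * (3 * x ^ 2 - q) ∧
      normSq ((⟨x, y⟩ : ℂ) ^ 2 - z0) = (x ^ 2 - q + 15) ^ 2 + 4 * x ^ 2 * q - 32 * x * y + 64 ∧
      normSq ((⟨x, y⟩ : ℂ) ^ 2 - z1) = (x ^ 2 - q + 15) ^ 2 + 4 * x ^ 2 * q + 32 * x * y + 64 := by
  have h : Real.sqrt q ^ 2 = q := Real.sq_sqrt hq.le
  have h0 := Real.sqrt_pos.2 hq
  refine ⟨Real.sqrt q, h0, h, ⟨hx, h0⟩, ?_, ?_, ?_, ?_⟩
  all_goals
    generalize Real.sqrt q = y at h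
    subst h
    simp [pow_succ, normSq_apply, z0, z1]
    ring

lemma F_not : ¬ IsPreconnected (F '' ball 0 (93 / 100) ∩ {w | w.re = -2}) := by
  intro h
  have h1 : OrdConnected (Complex.im '' (F '' ball 0 (93 / 100) ∩ {w | w.re = -2})) :=
    (h.image _ continuous_im.continuousOn).ordConnected
  obtain ⟨y1, p1, q1, m1, r1, i1, a1, b1⟩ := pt 1 1 one_pos one_pos
  obtain ⟨y2, p2, q2, m2, r2, i2, a2, b2⟩ := pt (1 / 6) (433 / 108) (by norm_num) (by norm_num)
  obtain ⟨y3, p3, q3, m3, r3, i3, a3, b3⟩ := pt (1 / 20) (16001 / 1200) (by norm_num) (by norm_num)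
  have e1 : y1 = 1 := by nlinarith
  have e2 : y2 < 201 / 100 := by nlinarith
  have e3 : 365 / 100 < y3 := by nlinarith
  have k1 : ((⟨1, y1⟩ : ℂ) ^ 3).im ∈ Complex.im '' (F '' ball 0 (93 / 100) ∩ {w | w.re = -2}) := by
    refine ⟨_, ⟨(memF m1 (by norm_num) (by norm_num)).2 ?_, ?_⟩, rfl⟩
    · rw [a1, b1, e1]; norm_num
    · simp only [mem_ofPred_eq]; rw [r1]; norm_num
  have k3 : ((⟨1 / 20, y3⟩ : ℂ) ^ 3).im ∈
      Complex.im '' (F '' ball 0 (93 / 100) ∩ {w | w.re = -2}) := by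
    refine ⟨_, ⟨(memF m3 (by norm_num) (by norm_num)).2 ?_, ?_⟩, rfl⟩
    · rw [a3, b3]; nlinarith
    · simp only [mem_ofPred_eq]; rw [r3]; norm_num
  have k2 := h1.out k3 k1 (show ((⟨1 / 6, y2⟩ : ℂ) ^ 3).im ∈ Icc _ _ from
    ⟨by rw [i3, i2]; nlinarith, by rw [i2, i1]; nlinarith⟩)
  obtain ⟨w, ⟨hw1, hw2⟩, hw3⟩ := k2
  have : w = (⟨1 / 6, y2⟩ : ℂ) ^ 3 := by
    apply Complex.ext _ hw3
    rw [r2]; simp only [mem_ofPred_eq] at hw2; rw [hw2]; norm_num
  rw [this, memF m2 (by norm_num) (by norm_num), a2, b2] at hw1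
  nlinarith

lemma convex_aux (a : ℝ) : Convex ℝ {w : ℂ | w.re < a} ∧ Convex ℝ {w : ℂ | w.re = a} ∧
    Convex ℝ {w : ℂ | a < w.im} ∧ Convex ℝ {w : ℂ | w.im < a} :=
  ⟨convex_halfSpace_re_lt a, by
    have := (convex_halfSpace_re_le a).inter (convex_halfSpace_re_ge a)
    convert this using 1
    ext w; simp [le_antisymm_iff], convex_halfSpace_im_gt a, convex_halfSpace_im_lt a⟩

theorem main : ∃ f : ℂ → ℂ, AnalyticOnNhd ℂ f (ball 0 1) ∧ InjOn f (ball 0 1) ∧ f 0 = 0 ∧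
    deriv f 0 = 1 ∧ CIA (f '' ball 0 1) ∧
    (∀ p ∈ f '' ball 0 1 \ {w | w.im = 0},
      (0 : ℂ) ∈ frontier (connectedComponentIn (f '' ball 0 1 \ {w | w.im = 0}) p)) ∧
    ∃ r : ℝ, 0 < r ∧ r < 1 ∧ ¬ CIA (f '' ball 0 r) := by
  set D := deriv F 0 with hD
  have hD0 : D ≠ 0 := F_deriv
  set l : ℝ := ‖D‖ with hl
  have hl0 : 0 < l := norm_pos_iff.2 hD0
  have hlc : (l : ℂ) ≠ 0 := by exact_mod_cast hl0.ne'
  set μ : ℂ := (l : ℂ) / D with hμ
  have hμn : ‖μ‖ = 1 := by
    rw [hμ, norm_div, norm_real, Real.norm_eq_abs, abs_of_pos hl0, ← hl, div_self hl0.ne']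
  have hμ0 : μ ≠ 0 := by intro h; rw [h] at hμn; simp at hμn
  have hn : ∀ z : ℂ, ‖μ * z‖ = ‖z‖ := by intro z; rw [norm_mul, hμn, one_mul]
  set f : ℂ → ℂ := fun z => (F (μ * z) - F 0) / l with hf
  have hmem : ∀ (r : ℝ) (w : ℂ), w ∈ f '' ball 0 r ↔ l * w + F 0 ∈ F '' ball 0 r := by
    intro r w
    constructor
    · rintro ⟨z, hz, rfl⟩
      refine ⟨μ * z, by rw [mem_ball_zero_iff] at hz ⊢; rwa [hn], ?_⟩
      simp only [hf]; field_simp; ring
    · rintro ⟨z, hz, h⟩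
      refine ⟨z / μ, ?_, ?_⟩
      · rw [mem_ball_zero_iff] at hz ⊢
        rwa [norm_div, hμn, div_one]
      · simp only [hf]
        rw [mul_div_cancel₀ _ hμ0, h]; field_simp; ring
  have ha : 0 < 47 / l := by positivity
  have hb : 0 < 52 / l := by positivity
  have hG : f '' ball 0 1 = {w | w.re < 47 / l ∨ 52 / l < w.im} := by
    ext w
    rw [hmem, F_image, F_zero]
    simp only [mem_ofPred_eq, add_re, add_im, re_ofReal_mul, im_ofReal_mul, lt_div_iff₀ hl0,
      div_lt_iff₀ hl0]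
    constructor <;> rintro (h | h) <;> first | (left; linarith) | (right; linarith)
  refine ⟨f, ?_, ?_, by simp [hf], ?_, ?_, ?_, 93 / 100, by norm_num, by norm_num, ?_⟩
  · apply DifferentiableOn.analyticOnNhd _ isOpen_ball
    intro z hz
    rw [mem_ball_zero_iff] at hz
    have h1 : DifferentiableAt ℂ (fun z => F (μ * z)) z :=
      (F_diff (by rwa [hn])).comp z (by fun_prop)
    exact ((h1.sub_const _).div_const _).differentiableWithinAt
  · intro z hz w hw h
    rw [mem_ball_zero_iff] at hz hw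
    have h1 : F (μ * z) = F (μ * w) := by
      simp only [hf] at h
      field_simp at h
      linear_combination h
    exact mul_left_cancel₀ hμ0 (F_inj (by rwa [hn]) (by rwa [hn]) h1)
  · have h0 : HasDerivAt F D (μ * 0) := by
      rw [mul_zero]; exact (F_diff (by simp)).hasDerivAt
    have h1 : HasDerivAt (fun z => F (μ * z)) (D * (μ * 1)) 0 :=
      h0.comp (0 : ℂ) ((hasDerivAt_id (0 : ℂ)).const_mul μ)
    have h2 : HasDerivAt f (D * (μ * 1) / l) 0 := (h1.sub_const _).div_const _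
    rw [h2.deriv, hμ]; field_simp
  · intro c
    rw [hG]
    by_cases hc : c < 47 / l
    · have : {w : ℂ | w.re < 47 / l ∨ 52 / l < w.im} ∩ {w | w.re = c} = {w | w.re = c} := by
        ext w; simp only [mem_inter_iff, mem_ofPred_eq]
        exact ⟨fun h => h.2, fun h => ⟨Or.inl (h ▸ hc), h⟩⟩
      rw [this]; exact (convex_aux c).2.1.isPreconnected
    · have : {w : ℂ | w.re < 47 / l ∨ 52 / l < w.im} ∩ {w | w.re = c} =
          {w | 52 / l < w.im} ∩ {w | w.re = c} := by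
        ext w; simp only [mem_inter_iff, mem_ofPred_eq]
        exact ⟨fun h => ⟨h.1.resolve_left (h.2 ▸ hc), h.2⟩, fun h => ⟨Or.inr h.1, h.2⟩⟩
      rw [this]; exact ((convex_aux _).2.2.1.inter (convex_aux c).2.1).isPreconnected
  · rw [hG]
    set a := 47 / l
    set b := 52 / l
    set S := {w : ℂ | w.re < a ∨ b < w.im} \ {w | w.im = 0} with hS
    intro p hp
    have key : ∀ U : Set ℂ, IsPreconnected U → p ∈ U → U ⊆ S → (0 : ℂ) ∈ closure U →
        (0 : ℂ) ∈ frontier (connectedComponentIn S p) := by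
      intro U h1 h2 h3 h4
      refine ⟨closure_mono (h1.subset_connectedComponentIn h2 h3) h4, fun h5 => ?_⟩
      exact (connectedComponentIn_subset S p (interior_subset h5)).2 rfl
    rcases lt_or_gt_of_ne hp.2 with h | h
    · apply key ({w | w.re < a} ∩ {w | w.im < 0})
        ((convex_aux a).1.inter (convex_aux 0).2.2.2).isPreconnected
      · exact ⟨hp.1.resolve_right (by simp only [not_lt]; linarith), h⟩
      · rintro w ⟨h1, h2⟩; exact ⟨Or.inl h1, ne_of_lt h2⟩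
      · rw [Metric.mem_closure_iff]
        intro ε hε
        refine ⟨((-(ε / 2) : ℝ) : ℂ) * I, ⟨by simpa using ha, by simpa using hε⟩, ?_⟩
        rw [dist_comm, dist_zero_right, norm_mul, norm_I, mul_one, norm_real, Real.norm_eq_abs,
          abs_neg, abs_of_pos (by linarith)]
        linarith
    · apply key (({w | w.re < a} ∩ {w | 0 < w.im}) ∪ {w | b < w.im})
      · apply IsPreconnected.union (((b + 1 : ℝ) : ℂ) * I)
        · exact ⟨by simpa using ha, by simp; linarith⟩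
        · simp
        · exact ((convex_aux a).1.inter (convex_aux 0).2.2.1).isPreconnected
        · exact (convex_aux b).2.2.1.isPreconnected
      · rcases hp.1 with h1 | h1
        · exact Or.inl ⟨h1, h⟩
        · exact Or.inr h1
      · rintro w (⟨h1, h2⟩ | h1)
        · exact ⟨Or.inl h1, ne_of_gt h2⟩
        · exact ⟨Or.inr h1, ne_of_gt (lt_trans hb h1)⟩
      · rw [Metric.mem_closure_iff]
        intro ε hε
        refine ⟨((ε / 2 : ℝ) : ℂ) * I, Or.inl ⟨by simpa using ha, by simpa using hε⟩, ?_⟩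
        rw [dist_comm, dist_zero_right, norm_mul, norm_I, mul_one, norm_real, Real.norm_eq_abs,
          abs_of_pos (by linarith)]
        linarith
  · intro h
    apply F_not
    have h1 := (h (45 / l)).image (fun w => (l : ℂ) * w + F 0) (by fun_prop)
    convert h1 using 1
    ext w
    constructor
    · rintro ⟨h2, h3⟩
      refine ⟨(w - F 0) / l, ⟨?_, ?_⟩, by field_simp; ring⟩
      · rw [hmem]
        convert h2 using 1
        field_simp; ring
      · simp only [mem_ofPred_eq] at h3 ⊢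
        rw [div_ofReal_re, sub_re, h3, F_zero]; norm_num
    · rintro ⟨v, ⟨h2, h3⟩, rfl⟩
      refine ⟨(hmem _ _).1 h2, ?_⟩
      simp only [mem_ofPred_eq] at h3 ⊢
      rw [add_re, re_ofReal_mul, h3, F_zero]; field_simp; norm_num

end H91.SlitCIA
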