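import Mathlib

set_option autoImplicit false

namespace H91.Spg
open Set Filter Topology
open scoped NNReal ENNReal

/-- parameters: the pair `(r, t)` for each coordinate `i` and letter `a` -/
abbrev Par (d : ℕ) (n : Fin d → ℕ) : Type := (i : Fin d) → Fin (n i) → ℝ × ℝ
def sim (p : ℝ × ℝ) (x : ℝ) : ℝ := p.1 * x + p.2
/-- `phi_{w 0} o ... o phi_{w (m-1)}` -/
def comp {d : ℕ} {n : Fin d → ℕ} (Φ : Par d n) (w : ℕ → (i : Fin d) → Fin (n i)) :
    ℕ → (Fin d → ℝ) → Fin d → ℝ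
  | 0 => fun x => x
  | m + 1 => fun x => comp Φ w m fun i => sim (Φ i (w m i)) (x i)
def Lim {d : ℕ} {n : Fin d → ℕ} (E : Set ((i : Fin d) → Fin (n i))) (Φ : Par d n) :
    Set (Fin d → ℝ) :=
  {x | ∃ w, (∀ k, w k ∈ E) ∧ Tendsto (fun m => comp Φ w m 0) atTop (𝓝 x)}
noncomputable def HD {d : ℕ} {n : Fin d → ℕ} (E : Set ((i : Fin d) → Fin (n i))) (Φ : Par d n) :
    ℝ := (dimH (Lim E Φ)).toReal
def Adm {d : ℕ} {n : Fin d → ℕ} (Φ : Par d n) : Prop :=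
  ∀ i a, 0 < |(Φ i a).1| ∧ |(Φ i a).1| < 1 ∧ MapsTo (sim (Φ i a)) (Icc 0 1) (Icc 0 1)
def SBar (d : ℕ) (n : Fin d → ℕ) : Set (Par d n) :=
  {Φ | Adm Φ ∧ ∀ i a b, a ≠ b → Disjoint (sim (Φ i a) '' Icc 0 1) (sim (Φ i b) '' Icc 0 1)}
def RA {d : ℕ} {n : Fin d → ℕ} (F : Par d n → ℝ) (S : Set (Par d n)) : Prop :=
  ∀ p ∈ S, ∃ U ∈ 𝓝 p, ∃ G : Par d n → ℝ, AnalyticOnNhd ℝ G U ∧ EqOn F G (S ∩ U)

lemma hol {X Y : Type} [MetricSpace X] [MetricSpace Y] (x : (ℕ → Fin 2) → X)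
    (y : (ℕ → Fin 2) → Y) {a b : ℝ} (ha : 0 < a) (κ : ℝ≥0) (hκ : 0 < κ) (hb : b ≤ a ^ (κ : ℝ))
    (hb0 : 0 ≤ b)
    (hx : ∀ v w n, v n ≠ w n → (∀ i < n, v i = w i) → a ^ n / 4 ≤ dist (x v) (x w))
    (hy : ∀ v w n, (∀ i < n, v i = w i) → dist (y v) (y w) ≤ b ^ n) :
    dimH (range y) ≤ dimH (range x) / κ := by
  classical
  have key : ∀ v w, dist (y v) (y w) ≤ 4 ^ (κ : ℝ) * dist (x v) (x w) ^ (κ : ℝ) := by
    intro v w
    by_cases e : v = w
    · simp only [e, dist_self]; positivity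
    have hn := Function.ne_iff.1 e
    have h1 := hx v w _ (Nat.find_spec hn) fun i hi => not_not.1 (Nat.find_min hn hi)
    refine (hy v w _ fun i hi => not_not.1 (Nat.find_min hn hi)).trans ?_
    rw [← Real.mul_rpow (by norm_num) dist_nonneg]
    refine (pow_le_pow_left₀ hb0 hb _).trans ?_
    rw [← Real.rpow_natCast, ← Real.rpow_mul ha.le, mul_comm, Real.rpow_mul ha.le, Real.rpow_natCast]
    exact Real.rpow_le_rpow (by positivity) (by linarith) κ.2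
  let g := Function.invFun x
  have hg : ∀ v, y (g (x v)) = y v := fun v => by
    have := key (g (x v)) v
    rw [Function.invFun_eq (f := x) ⟨v, rfl⟩, dist_self, Real.zero_rpow (by exact_mod_cast hκ.ne'),
      mul_zero] at this
    exact dist_le_zero.1 this
  have H : HolderOnWith (4 ^ (κ : ℝ)) κ (y ∘ g) (range x) := by
    rintro _ ⟨v, rfl⟩ _ ⟨w, rfl⟩
    simp only [Function.comp, hg]
    rw [edist_nndist, edist_nndist, ← ENNReal.coe_rpow_of_nonneg _ (by positivity),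
      ← ENNReal.coe_mul, ENNReal.coe_le_coe, ← NNReal.coe_le_coe]
    push_cast
    exact key v w
  refine le_trans (dimH_mono ?_) (H.dimH_image_le hκ)
  rintro _ ⟨v, rfl⟩
  exact ⟨_, ⟨v, rfl⟩, hg v⟩

noncomputable def c (u : ℝ) (w : ℕ → Fin 2) : ℝ := ∑' k, u ^ k * (((w k : ℕ) : ℝ) / 2)

lemma sm {u : ℝ} (h0 : 0 ≤ u) (h1 : u < 1) (w : ℕ → Fin 2) :
    Summable fun k => u ^ k * (((w k : ℕ) : ℝ) / 2) := by
  refine .of_nonneg_of_le (fun k => by positivity) (fun k => mul_le_of_le_one_right (by positivity) ?_)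
    (summable_geometric_of_lt_one h0 h1)
  have : ((w k : ℕ) : ℝ) ≤ 2 := by exact_mod_cast (w k).2.le
  linarith

lemma c_bd {u : ℝ} (h0 : 0 ≤ u) (h1 : u < 1) (w : ℕ → Fin 2) : 0 ≤ c u w ∧ (1 - u) * c u w ≤ 1 / 2 := by
  refine ⟨tsum_nonneg fun k => by positivity, ?_⟩
  have : c u w ≤ ∑' k, u ^ k * (1 / 2) := by
    refine (sm h0 h1 w).tsum_le_tsum (fun k => ?_) ((summable_geometric_of_lt_one h0 h1).mul_right _)
    have : ((w k : ℕ) : ℝ) ≤ 1 := by exact_mod_cast Nat.lt_succ_iff.1 (w k).2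
    gcongr
  rw [tsum_mul_right, tsum_geometric_of_lt_one h0 h1] at this
  have h := mul_le_mul_of_nonneg_left this (sub_pos.2 h1).le
  rwa [← mul_assoc, mul_inv_cancel₀ (sub_pos.2 h1).ne', one_mul] at h

lemma c_sp {u : ℝ} (h0 : 0 ≤ u) (h1 : u < 1) (w : ℕ → Fin 2) (n : ℕ) :
    c u w = ∑ k ∈ Finset.range n, u ^ k * (((w k : ℕ) : ℝ) / 2) + u ^ n * c u fun k => w (k + n) := by
  rw [c, ← (sm h0 h1 w).sum_add_tsum_nat_add n, c, ← tsum_mul_left]
  congr 2; ext k; ring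

lemma c_df {u : ℝ} (h0 : 0 ≤ u) (h1 : u < 1) (v w : ℕ → Fin 2) (n : ℕ) (h : ∀ i < n, v i = w i) :
    dist (c u v) (c u w) = u ^ n * |(c u fun k => v (k + n)) - c u fun k => w (k + n)| := by
  rw [Real.dist_eq, c_sp h0 h1 v n, c_sp h0 h1 w n,
    Finset.sum_congr rfl fun k hk => by rw [h k (Finset.mem_range.1 hk)], add_sub_add_left_eq_sub,
    ← mul_sub, abs_mul, abs_of_nonneg (by positivity)]

lemma c_up {u : ℝ} (h0 : 0 ≤ u) (h1 : u ≤ 1 / 2) (v w : ℕ → Fin 2) (n : ℕ) (h : ∀ i < n, v i = w i) :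
    dist (c u v) (c u w) ≤ u ^ n := by
  rw [c_df h0 (by linarith) v w n h]
  refine mul_le_of_le_one_right (by positivity) ?_
  have a := c_bd h0 (by linarith) fun k => v (k + n)
  have b := c_bd h0 (by linarith) fun k => w (k + n)
  rw [abs_le]; constructor <;> nlinarith

lemma c_lo {u : ℝ} (h0 : 0 ≤ u) (h1 : u ≤ 1 / 3) (v w : ℕ → Fin 2) (n : ℕ) (hn : v n ≠ w n)
    (h : ∀ i < n, v i = w i) : u ^ n / 4 ≤ dist (c u v) (c u w) := by
  rw [c_df h0 (by linarith) v w n h, div_eq_mul_one_div, c_sp h0 (by linarith) _ 1,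
    c_sp h0 (by linarith) (fun k => w (k + n)) 1]
  refine mul_le_mul_of_nonneg_left ?_ (by positivity)
  have a := c_bd h0 (by linarith) fun k => v (k + 1 + n)
  have b := c_bd h0 (by linarith) fun k => w (k + 1 + n)
  simp only [Finset.sum_range_one, zero_add, pow_zero, one_mul, pow_one]
  revert hn
  generalize v n = p, w n = q
  intro hn
  rw [le_abs]
  fin_cases p <;> fin_cases q <;> simp at hn ⊢
  · right; nlinarith
  · left; nlinarith

noncomputable def ρ (u : ℝ) (i : Fin 2) : ℝ := if i = 0 then u else 1 / 4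
noncomputable def γ (u : ℝ) : Par 2 fun _ => 2 := fun i a => (ρ u i, ((a : ℕ) : ℝ) / 2)
def E : Set (Fin 2 → Fin 2) := {a | a 0 = a 1}
noncomputable def x (u : ℝ) (w : ℕ → Fin 2) (i : Fin 2) : ℝ := c (ρ u i) w

lemma ρ_bd {u : ℝ} (hu : u ∈ Ioo (0 : ℝ) (1 / 3)) (i : Fin 2) : 0 < ρ u i ∧ ρ u i < 1 / 3 := by
  unfold ρ; split_ifs
  · exact hu
  · norm_num

lemma lim {u : ℝ} (hu : u ∈ Ioo (0 : ℝ) (1 / 3)) : Lim E (γ u) = range (x u) := by
  have e : ∀ (w : ℕ → Fin 2 → Fin 2) m y i, comp (γ u) w m y i =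
      ∑ k ∈ Finset.range m, ρ u i ^ k * (((w k i : ℕ) : ℝ) / 2) + ρ u i ^ m * y i := by
    intro w m
    induction m with
    | zero => simp [comp]
    | succ m ih => intro y i; simp only [comp, ih, Finset.sum_range_succ, sim, γ]; ring
  have t : ∀ w : ℕ → Fin 2 → Fin 2, Tendsto (fun m => comp (γ u) w m 0) atTop
      (𝓝 fun i => c (ρ u i) fun k => w k i) := fun w => tendsto_pi_nhds.2 fun i => by
    have h1 : ρ u i < 1 := by linarith [(ρ_bd hu i).2]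
    simp only [e, Pi.zero_apply, mul_zero, add_zero]
    exact (sm (ρ_bd hu i).1.le h1 fun k => w k i).hasSum.tendsto_sum_nat
  ext y
  constructor
  · rintro ⟨w, hw, hy⟩
    refine ⟨fun k => w k 0, ?_⟩
    rw [tendsto_nhds_unique hy (t w)]
    ext i; fin_cases i
    · rfl
    · exact congrArg (c _) (funext hw)
  · rintro ⟨w, rfl⟩
    exact ⟨fun k _ => w k, fun _ => rfl, t _⟩

lemma x_up {u : ℝ} (hu : u ∈ Ioo (0 : ℝ) (1 / 3)) (v w : ℕ → Fin 2) (n : ℕ)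
    (h : ∀ i < n, v i = w i) : dist (x u v) (x u w) ≤ (max u (1 / 4)) ^ n := by
  refine (dist_pi_le_iff (by positivity)).2 fun i => ?_
  refine (c_up (ρ_bd hu i).1.le (by linarith [(ρ_bd hu i).2]) v w n h).trans
    (pow_le_pow_left₀ (ρ_bd hu i).1.le ?_ _)
  unfold ρ; split_ifs <;> simp

lemma x_lo {u : ℝ} (hu : u ∈ Ioo (0 : ℝ) (1 / 3)) (i : Fin 2) (v w : ℕ → Fin 2) (n : ℕ)
    (hn : v n ≠ w n) (h : ∀ i < n, v i = w i) : ρ u i ^ n / 4 ≤ dist (x u v) (x u w) :=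
  (c_lo (ρ_bd hu i).1.le (ρ_bd hu i).2.le v w n hn h).trans (dist_le_pi_dist (x u v) (x u w) i)

lemma fin (s : Set (Fin 2 → ℝ)) : dimH s ≠ ⊤ := by
  refine ne_top_of_le_ne_top ?_ (dimH_mono (subset_univ s))
  rw [Real.dimH_univ_pi_fin]; simp

lemma bad (S : Set (Par 2 fun _ => 2)) (hS : ∀ u ∈ Ioo (0 : ℝ) (1 / 3), γ u ∈ S) :
    ¬ RA (HD E) S := by
  intro H
  have q : (1 / 4 : ℝ) ∈ Ioo (0 : ℝ) (1 / 3) := by norm_num
  obtain ⟨U, hU, G, hG, e⟩ := H _ (hS _ q)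
  have aγ : AnalyticAt ℝ γ (1 / 4) := by
    refine analyticAt_pi_iff.2 fun i => analyticAt_pi_iff.2 fun a => AnalyticAt.prod ?_ analyticAt_const
    unfold ρ; split_ifs
    exacts [analyticAt_id, analyticAt_const]
  have a := ((hG _ (mem_of_mem_nhds hU)).comp aγ).sub
    (analyticAt_const (v := (dimH (range (x (1 / 4)))).toReal))
  have ev : ∀ᶠ u in 𝓝 (1 / 4 : ℝ), u ∈ Ioo (0 : ℝ) (1 / 3) ∧ G (γ u) = (dimH (range (x u))).toReal := by
    filter_upwards [aγ.continuousAt.preimage_mem_nhds hU, Ioo_mem_nhds q.1 q.2] with u h1 h2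
    exact ⟨h2, by rw [← e ⟨hS u h2, h1⟩, HD, lim h2]⟩
  have z := a.frequently_zero_iff_eventually_zero.1 <| by
    refine (Eventually.frequently (f := 𝓝[<] (1 / 4 : ℝ)) ?_).filter_mono (nhdsLT_le_nhdsNE _)
    filter_upwards [mem_nhdsWithin_of_mem_nhds ev, self_mem_nhdsWithin] with u ⟨h1, h2⟩ h3
    have h4 : max u (1 / 4) = 1 / 4 := max_eq_right (le_of_lt h3)
    have b1 := hol (x u) (x (1 / 4)) (a := 1 / 4) (b := max (1 / 4) (1 / 4)) (by norm_num) 1 one_pos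
      (by simp) (by norm_num) (x_lo h1 1) (x_up q)
    have b2 := hol (x (1 / 4)) (x u) (a := 1 / 4) (b := max u (1 / 4)) (by norm_num) 1 one_pos
      (by rw [h4]; simp) (by positivity) (x_lo q 1) (x_up h1)
    simp only [ENNReal.coe_one, div_one] at b1 b2
    simp only [Pi.sub_apply, Function.comp, h2, le_antisymm b1 b2, sub_self]
  obtain ⟨u, ⟨⟨h1, h2⟩, h5⟩, h3⟩ := (((ev.and z).filter_mono nhdsWithin_le_nhds).and
    (self_mem_nhdsWithin (s := Ioi (1 / 4 : ℝ)))).exists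
  simp only [Pi.sub_apply, Function.comp, h2, sub_eq_zero] at h5
  rw [ENNReal.toReal_eq_toReal_iff' (fin _) (fin _)] at h5
  have l0 : Real.log u < 0 := Real.log_neg h1.1 (by linarith [h1.2])
  have l1 : Real.log (1 / 4) < Real.log u := Real.log_lt_log (by norm_num) h3
  have k1 : 1 < Real.log (1 / 4) / Real.log u := by rw [one_lt_div_of_neg l0]; exact l1
  obtain ⟨κ, hκ⟩ : ∃ κ : ℝ≥0, (κ : ℝ) = Real.log (1 / 4) / Real.log u := ⟨⟨_, by linarith⟩, rfl⟩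
  have k2 : 1 < κ := by rw [← NNReal.coe_lt_coe, hκ]; exact k1
  have b1 := hol (x u) (x (1 / 4)) (a := u) (b := max (1 / 4) (1 / 4)) h1.1
    κ (one_pos.trans k2)
    (by
      rw [max_self, Real.rpow_def_of_pos h1.1, hκ, mul_div_cancel₀ _ l0.ne,
        Real.exp_log (by norm_num)]) (by norm_num) (x_lo h1 0) (x_up q)
  have b2 := hol (x (1 / 4)) (c (1 / 2)) (a := 1 / 4) (b := 1 / 2) (by norm_num) (1 / 2)
    (by norm_num) (by
      rw [show (1 / 4 : ℝ) = (1 / 2) ^ (2 : ℝ) by norm_num, ← Real.rpow_mul (by norm_num)]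
      simp) (by norm_num) (x_lo q 1) (c_up (by norm_num) le_rfl)
  have b3 : 1 ≤ dimH (range (c (1 / 2))) := by
    rw [← show dimH (Set.Ico (0 : ℝ) 1) = 1 by
      rw [Real.dimH_of_nonempty_interior (by simp)]; simp]
    refine dimH_mono fun t ht => ⟨Real.digits t 2, ?_⟩
    rw [← Real.ofDigits_digits one_lt_two ht, Real.ofDigits_digits one_lt_two ht, c]
    refine Eq.trans ?_ (Real.ofDigits_digits one_lt_two ht)
    refine tsum_congr fun k => ?_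
    simp [Real.ofDigitsTerm, pow_succ]; ring
  have n0 : dimH (range (x (1 / 4))) ≠ 0 := fun h => by
    rw [h, ENNReal.zero_div] at b2; simpa using b3.trans b2
  rw [h5] at b1
  refine b1.not_gt (ENNReal.div_lt_of_lt_mul ?_)
  simpa using ENNReal.mul_lt_mul_right n0 (fin _) (show (1 : ℝ≥0∞) < κ by exact_mod_cast k2)

theorem main : ∃ (d : ℕ) (n : Fin d → ℕ) (E : Set ((i : Fin d) → Fin (n i))), E.Nonempty ∧
    ∀ S : Set (H91.Spg.Par d n), H91.Spg.SBar d n ⊆ S → ¬ H91.Spg.RA (H91.Spg.HD E) S := by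
  have h : ∀ u ∈ Ioo (0 : ℝ) (1 / 3), γ u ∈ SBar 2 fun _ => 2 := by
    intro u hu
    refine ⟨fun i a => ?_, fun i a b hab => ?_⟩
    · obtain ⟨h0, h1⟩ := ρ_bd hu i
      have : ((a : ℕ) : ℝ) ≤ 1 := by exact_mod_cast Nat.lt_succ_iff.1 a.2
      simp only [γ, abs_of_pos h0]
      refine ⟨h0, by linarith, fun t ht => ⟨?_, ?_⟩⟩ <;> simp only [sim]
      · have := ht.1; positivity
      · nlinarith [ht.2]
    · obtain ⟨h0, h1⟩ := ρ_bd hu i
      refine disjoint_left.2 ?_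
      rintro _ ⟨s, hs, rfl⟩ ⟨t, ht, e⟩
      fin_cases a <;> fin_cases b <;> simp [sim, γ] at hab e <;> nlinarith [hs.1, hs.2, ht.1, ht.2]
  exact ⟨2, fun _ => 2, E, ⟨0, rfl⟩, fun S hS => bad _ fun u hu => hS (h u hu)⟩

end H91.Spg
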