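import Mathlib

set_option autoImplicit false

namespace H91.Starlike

open Complex Set Filter Topology Metric MeasureTheory
open scoped ComplexConjugate

section crit
variable {g : ℂ → ℂ} (hg : DifferentiableOn ℂ g (ball 0 1))
  (hp : ∀ z ∈ ball (0:ℂ) 1, -1 < (z * deriv g z).re)
include hg hp

theorem crit_inj : InjOn (fun z => z * exp (g z)) (ball 0 1) := by
  let F : ℂ → ℂ := fun w => w + g (exp w)
  have hm : ∀ w : ℂ, w.re < 0 → exp w ∈ ball (0:ℂ) 1 := fun w hw => by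
    rw [mem_ball_zero_iff, Complex.norm_exp]; exact Real.exp_lt_one_iff.mpr hw
  have hF : ∀ w : ℂ, w.re < 0 → HasDerivAt F (1 + exp w * deriv g (exp w)) w := fun w hw =>
    ((hasDerivAt_id' w).fun_add ((hg.differentiableAt (isOpen_ball.mem_nhds (hm w hw))).hasDerivAt.comp w
      (Complex.hasDerivAt_exp w))).congr_deriv (by ring)
  have hinj : ∀ a b : ℂ, a.re < 0 → b.re < 0 → F a = F b → a = b := by
    intro a b ha hb e
    by_contra hne
    have h0 : a - b ≠ 0 := sub_ne_zero.mpr hne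
    have h1 : ∀ t ∈ Icc (0:ℝ) 1, (b + t * (a - b)).re < 0 := fun t ht => by
      have : (b + t * (a - b)).re = (1 - t) * b.re + t * a.re := by simp; ring
      rw [this]
      rcases ht.1.eq_or_lt with h | h
      · subst h; simpa using hb
      · nlinarith [ht.2]
    have h2 : ∀ t ∈ Icc (0:ℝ) 1, HasDerivAt (fun t : ℝ => (F (b + t * (a - b)) / (a - b)).re)
        (1 + exp (b + t * (a - b)) * deriv g (exp (b + t * (a - b)))).re t := by
      intro t ht
      have a1 : HasDerivAt (fun s : ℂ => F (b + s * (a - b)) / (a - b))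
          (1 + exp (b + t * (a - b)) * deriv g (exp (b + t * (a - b)))) (t : ℂ) :=
        (((hF _ (h1 t ht)).comp (t:ℂ) (((hasDerivAt_id' (t:ℂ)).mul_const (a - b)).const_add b)).div_const
          (a - b)).congr_deriv (by field_simp)
      exact a1.real_of_complex
    obtain ⟨c, hc, hc'⟩ := exists_hasDerivAt_eq_slope _ _ zero_lt_one
      (fun t ht => (h2 t ht).continuousAt.continuousWithinAt) (fun t ht => h2 t (Ioo_subset_Icc_self ht))
    have := hp _ (hm _ (h1 c (Ioo_subset_Icc_self hc)))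
    simp only [ofReal_one, one_mul, add_sub_cancel, ofReal_zero, zero_mul, add_zero, e, sub_self,
      zero_div, add_re, one_re] at hc'
    linarith
  intro z1 h1 z2 h2 e
  simp only at e
  by_cases a1 : z1 = 0
  · subst a1
    exact (show z2 = 0 by simpa using e.symm).symm
  by_cases a2 : z2 = 0
  · subst a2
    simpa using e
  have l : ∀ z ∈ ball (0:ℂ) 1, z ≠ 0 → (log z).re < 0 := fun z hz h0 => by
    rw [Complex.log_re]; exact Real.log_neg (norm_pos_iff.mpr h0) (mem_ball_zero_iff.mp hz)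
  have e1 : exp (F (log z1)) = exp (F (log z2)) := by
    simp only [F, Complex.exp_add, Complex.exp_log a1, Complex.exp_log a2, e]
  obtain ⟨n, hn⟩ := Complex.exp_eq_exp_iff_exists_int.mp e1
  have e2 : exp (log z2 + n * (2 * Real.pi * I)) = z2 := by
    rw [Complex.exp_add, Complex.exp_log a2, Complex.exp_int_mul_two_pi_mul_I, mul_one]
  have := hinj (log z1) (log z2 + n * (2 * Real.pi * I)) (l z1 h1 a1) (by simpa using l z2 h2 a2) (by
    rw [hn]; simp only [F, e2, Complex.exp_log a2]; ring)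
  rw [← Complex.exp_log a1, this, e2]

theorem crit_star : StarConvex ℝ 0 ((fun z => z * exp (g z)) '' ball 0 1) := by
  set f : ℂ → ℂ := fun z => z * exp (g z) with hf
  have hfd : DifferentiableOn ℂ f (ball 0 1) := differentiableOn_id.mul hg.cexp
  rintro _ ⟨z0, hz0, rfl⟩ a b ha hb hab
  rw [smul_zero, zero_add]
  by_cases h0 : z0 = 0
  · exact ⟨0, by simp, by simp [hf, h0]⟩
  have hf0 : f z0 ≠ 0 := mul_ne_zero h0 (Complex.exp_ne_zero _)
  have hsub : closedBall (0:ℂ) ‖z0‖ ⊆ ball 0 1 := closedBall_subset_ball (mem_ball_zero_iff.mp hz0)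
  have hK : IsClosed (f '' closedBall (0:ℂ) ‖z0‖) :=
    ((isCompact_closedBall _ _).image_of_continuousOn (hfd.continuousOn.mono hsub)).isClosed
  let S : Set ℝ := {t | ((1 - t : ℝ) : ℂ) * f z0 ∈ f '' closedBall (0:ℂ) ‖z0‖}
  have hS : IsClosed S := hK.preimage (by fun_prop)
  have key : Icc (0:ℝ) 1 ⊆ S := by
    refine IsClosed.Icc_subset_of_forall_exists_gt (hS.inter isClosed_Icc)
      ⟨z0, by simp, by simp⟩ ?_
    rintro t ⟨⟨z, hz, e⟩, ht⟩ y hy
    have ht1 : 0 < 1 - t := by linarith [ht.2]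
    have ht2 : ((1 - t : ℝ) : ℂ) ≠ 0 := by exact_mod_cast ht1.ne'
    have hz1 : z ≠ 0 := by
      rintro rfl
      simp only [hf, zero_mul] at e
      exact mul_ne_zero ht2 hf0 e.symm
    have hzb := hsub hz
    have hq := hp z hzb
    set q := 1 + z * deriv g z with hqd
    have hq0 : 0 < q.re := by rw [hqd, add_re, one_re]; linarith
    have hq1 : q ≠ 0 := fun h => by rw [h] at hq0; simp at hq0
    have d1 : HasDerivAt f (exp (g z) * q) z :=
      ((hasDerivAt_id' z).fun_mul (hg.differentiableAt (isOpen_ball.mem_nhds hzb)).hasDerivAt.cexp).congr_deriv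
        (by rw [hqd]; ring)
    have d2 : HasStrictDerivAt f (exp (g z) * q) z := by
      rw [← d1.deriv]
      exact ((hfd.analyticOnNhd isOpen_ball z hzb).contDiffAt (n := 1)).hasStrictDerivAt one_ne_zero
    have d3 : exp (g z) * q ≠ 0 := mul_ne_zero (Complex.exp_ne_zero _) hq1
    set φ := d2.localInverse f _ z d3 with hφ
    have i1 : ∀ᶠ w in 𝓝 (f z), f (φ w) = w := (d2.hasStrictFDerivAt_equiv d3).eventually_right_inverse
    have i2 : φ (f z) = z := (d2.hasStrictFDerivAt_equiv d3).localInverse_apply_image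
    have i3 : HasDerivAt φ (exp (g z) * q)⁻¹ (f z) := (d2.to_localInverse d3).hasDerivAt
    have c0 : HasDerivAt (fun s : ℂ => f z - s * f z0) (-f z0) ((0:ℝ):ℂ) :=
      (((hasDerivAt_id' _).mul_const (f z0)).const_sub (f z)).congr_deriv (by ring)
    have c1 : HasDerivAt (fun s : ℝ => φ (f z - s * f z0)) ((exp (g z) * q)⁻¹ * -f z0) 0 :=
      (HasDerivAt.comp_of_eq ((0:ℝ):ℂ) i3 c0 (by simp)).comp_ofReal
    have c2 := c1.norm_sq.tendsto_slope_zero_right
    have c3 : 2 * inner ℝ (φ (f z - ((0:ℝ):ℂ) * f z0)) ((exp (g z) * q)⁻¹ * -f z0) < 0 := by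
      have e1 : f z0 = z * exp (g z) / ((1 - t : ℝ) : ℂ) := by
        rw [eq_div_iff ht2, mul_comm]; exact e.symm
      have e2 : (exp (g z) * q)⁻¹ * -f z0 * conj z = -(((‖z‖ ^ 2 / (1 - t) : ℝ) : ℂ) * q⁻¹) := by
        rw [e1, Complex.ofReal_div, Complex.ofReal_pow, ← Complex.mul_conj']
        have := Complex.exp_ne_zero (g z)
        field_simp
      simp only [ofReal_zero, zero_mul, sub_zero, i2, Complex.inner, e2, neg_re, re_ofReal_mul, inv_re]
      have := Complex.normSq_pos.mpr hq1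
      have : 0 < ‖z‖ ^ 2 / (1 - t) * (q.re / Complex.normSq q) := by
        have := norm_pos_iff.mpr hz1
        positivity
      linarith
    have c4 : ∀ᶠ s : ℝ in 𝓝[>] 0, f (φ (f z - s * f z0)) = f z - s * f z0 := by
      have : Tendsto (fun s : ℝ => f z - s * f z0) (𝓝 0) (𝓝 (f z)) := by
        have : Continuous fun s : ℝ => f z - s * f z0 := by fun_prop
        simpa using this.tendsto 0
      exact (this.eventually i1).filter_mono nhdsWithin_le_nhds
    obtain ⟨s, ⟨s1, s2⟩, s3⟩ := (((c2.eventually (gt_mem_nhds c3)).and c4).and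
      (Ioo_mem_nhdsGT (show (0:ℝ) < y - t from sub_pos.mpr hy))).exists
    refine ⟨t + s, ⟨φ (f z - s * f z0), ?_, ?_⟩, by linarith [s3.1], by linarith [s3.2]⟩
    · simp only [zero_add, ofReal_zero, zero_mul, sub_zero, i2, smul_eq_mul] at s1
      have s4 := (mul_neg_iff.mp s1).resolve_right (fun h => absurd h.1 (not_lt.mpr (inv_pos.mpr s3.1).le))
      rw [mem_closedBall_zero_iff] at hz ⊢
      exact (abs_le_of_sq_le_sq' (by linarith [s4.2]) (norm_nonneg z)).2.trans hz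
    · rw [s2, e]; push_cast; ring
  obtain ⟨z, hz, e⟩ := key (show a ∈ Icc (0:ℝ) 1 from ⟨ha, by linarith⟩)
  refine ⟨z, hsub hz, ?_⟩
  rw [e, show 1 - a = b by linarith]; rfl

end crit

lemma le_mem_nhds' {a : ℝ} (ha : 0 < a) : ∀ᶠ δ : ℝ in 𝓝[>] 0, δ ≤ a :=
  (eventually_le_nhds ha).filter_mono nhdsWithin_le_nhds

lemma logb {a : ℝ} {w : ℂ} (ha : 0 < a) (ha1 : a ≤ 1) (h1 : a ≤ ‖w‖) (h2 : ‖w‖ ≤ 2) :
    ‖log w‖ ≤ -Real.log a + 5 := by
  refine (Complex.norm_le_abs_re_add_abs_im _).trans ?_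
  rw [Complex.log_re, Complex.log_im]
  have a1 := (Complex.abs_arg_le_pi w).trans Real.pi_le_four
  have a2 := Real.log_le_log ha h1
  have a3 := Real.log_le_sub_one_of_pos (ha.trans_le h1)
  have a4 := Real.log_nonpos ha.le ha1
  have : |Real.log ‖w‖| ≤ -Real.log a + 1 := abs_le.mpr ⟨by linarith, by linarith⟩
  linarith

lemma onept {ξ : ℂ} (hξ : ‖ξ‖ = 1) {h δ e m : ℝ} (hh : 0 < h) (hδ : 0 < δ) (hδ1 : δ ≤ 1) (he : 0 < e)
    (hm : 0 < m) : ∃ τ : ℂ → ℂ, ContinuousOn τ (closedBall 0 1) ∧ DifferentiableOn ℂ τ (ball 0 1) ∧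
      τ 0 = 0 ∧ (∀ z ∈ ball (0:ℂ) 1, -m ≤ (z * deriv τ z).re) ∧ (τ ξ).re = h ∧
      (∀ z ∈ closedBall (0:ℂ) 1, ‖τ z‖ ≤ h + e) ∧
      ∀ z ∈ closedBall (0:ℂ) 1, δ ≤ ‖z - ξ‖ → ‖τ z‖ ≤ e := by
  have hl : 0 < -Real.log (δ / 2) := neg_pos.mpr (Real.log_neg (by positivity) (by linarith))
  set B := -Real.log (δ / 2) with hB
  set Λ := B + h * (B + 5) / e + h / m with hΛ
  have p1 : 0 < h * (B + 5) / e := by positivity
  have p2 : 0 < h / m := by positivity
  have hΛ0 : 0 < Λ := by positivity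
  set η := Real.exp (-Λ) with hη
  have hη0 : 0 < η := Real.exp_pos _
  have hη1 : η ≤ δ / 2 := by
    rw [← Real.exp_log (show 0 < δ / 2 by positivity)]
    exact Real.exp_le_exp.mpr (by linarith)
  set c := h / Λ with hc
  have hc0 : 0 < c := by positivity
  have c1 : c * (B + 5) ≤ e := by
    rw [hc, div_mul_eq_mul_div, div_le_iff₀ hΛ0]
    have : h * (B + 5) / e * e = h * (B + 5) := by field_simp
    nlinarith
  have c2 : c ≤ m := by
    rw [hc, div_le_iff₀ hΛ0]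
    have : h / m * m = h := by field_simp
    nlinarith
  set a : ℂ := ((1 - η : ℝ) : ℂ) * conj ξ with ha
  have han : ‖a‖ = 1 - η := by
    rw [ha, norm_mul, Complex.norm_real, Complex.norm_conj, hξ, mul_one, Real.norm_of_nonneg (by linarith)]
  have n1 : ∀ z ∈ closedBall (0:ℂ) 1, ‖a * z‖ ≤ 1 - η := fun z hz => by
    rw [norm_mul, han]
    exact mul_le_of_le_one_right (by linarith) (mem_closedBall_zero_iff.mp hz)
  have n2 : ∀ z ∈ closedBall (0:ℂ) 1, 1 - a * z ∈ slitPlane := fun z hz => by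
    rw [sub_eq_add_neg]
    exact mem_slitPlane_of_norm_lt_one (by rw [norm_neg]; linarith [n1 z hz])
  have n3 : ∀ z ∈ closedBall (0:ℂ) 1, η ≤ ‖1 - a * z‖ ∧ ‖1 - a * z‖ ≤ 2 := fun z hz => by
    have := norm_sub_norm_le (1:ℂ) (a * z)
    have := norm_sub_le (1:ℂ) (a * z)
    have := n1 z hz
    simp only [norm_one] at *
    constructor <;> linarith
  have hd : ∀ z ∈ closedBall (0:ℂ) 1, HasDerivAt (fun z => -(c:ℂ) * log (1 - a * z))
      (c * (a / (1 - a * z))) z := fun z hz =>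
    (((((hasDerivAt_id' z).const_mul a).const_sub 1).clog (n2 z hz)).const_mul (-(c:ℂ))).congr_deriv
      (by ring)
  have nn : ∀ z, ‖-(c:ℂ) * log (1 - a * z)‖ = c * ‖log (1 - a * z)‖ := fun z => by
    rw [norm_mul, norm_neg, Complex.norm_real, Real.norm_of_nonneg hc0.le]
  refine ⟨fun z => -(c:ℂ) * log (1 - a * z), fun z hz => (hd z hz).continuousAt.continuousWithinAt,
    fun z hz => (hd z (ball_subset_closedBall hz)).differentiableAt.differentiableWithinAt, by simp,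
    fun z hz => ?_, ?_, fun z hz => ?_, fun z hz hf => ?_⟩
  · have hz' := ball_subset_closedBall hz
    rw [(hd z hz').deriv]
    have e1 : z * (c * (a / (1 - a * z))) = c * ((a * z) / (1 - a * z)) := by ring
    have a1 : 0 < ‖1 - a * z‖ := hη0.trans_le (n3 z hz').1
    have a2 := n1 z hz'
    rw [e1, re_ofReal_mul]
    generalize a * z = w at *
    have a3 : -1 ≤ (w / (1 - w)).re := by
      have a4 := Complex.normSq_pos.mpr (norm_pos_iff.mp a1)
      have a5 := Complex.re_le_norm w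
      rw [Complex.div_re, ← add_div, le_div_iff₀ a4, Complex.normSq_apply]
      simp; nlinarith
    nlinarith
  · have : 1 - a * ξ = (η : ℂ) := by
      rw [ha, mul_assoc, mul_comm (conj ξ), Complex.mul_conj', hξ]; push_cast; ring
    simp only [this, neg_mul, neg_re, re_ofReal_mul, Complex.log_re, Complex.norm_real,
      Real.norm_of_nonneg hη0.le]
    rw [hη, Real.log_exp, hc]; field_simp
  · rw [nn]
    have := logb hη0 (by linarith) (n3 z hz).1 (n3 z hz).2
    rw [hη, Real.log_exp, neg_neg] at this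
    have e1 : c * Λ = h := by rw [hc]; field_simp
    nlinarith
  · rw [nn]
    have a1 : δ / 2 ≤ ‖1 - a * z‖ := by
      have e1 : (1 - a * z) * ξ = -(z - ξ) + η * z := by
        have := Complex.mul_conj' ξ
        rw [hξ] at this
        rw [ha]; push_cast at this ⊢
        linear_combination (-(1 - (η:ℂ)) * z) * this
      have e2 : ‖1 - a * z‖ = ‖-(z - ξ) + η * z‖ := by rw [← e1, norm_mul, hξ, mul_one]
      have a2 := norm_sub_norm_le (-(z - ξ)) (-(η * z))
      rw [sub_neg_eq_add, norm_neg, norm_neg, norm_mul, Complex.norm_real,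
        Real.norm_of_nonneg hη0.le] at a2
      have a3 := mul_le_of_le_one_right hη0.le (mem_closedBall_zero_iff.mp hz)
      linarith
    have := logb (by positivity) (by linarith) a1 (n3 z hz).2
    exact (mul_le_mul_of_nonneg_left this hc0.le).trans c1

lemma layer {g : ℂ → ℂ} (hg : ContinuousOn g (closedBall 0 1)) (C : Finset ℂ) (hC : ∀ ξ ∈ C, ‖ξ‖ = 1)
    {h e m ρ : ℝ} (hh : 0 < h) (he : 0 < e) (hm : 0 < m) (hρ : 0 < ρ) :
    ∃ (G : ℂ → ℂ) (u : ℂ), ‖u‖ = 1 ∧ ‖u - 1‖ ≤ ρ ∧ ContinuousOn G (closedBall 0 1) ∧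
      DifferentiableOn ℂ G (ball 0 1) ∧ G 0 = 0 ∧ (∀ z ∈ ball (0:ℂ) 1, -m ≤ (z * deriv G z).re) ∧
      (∀ z ∈ closedBall (0:ℂ) 1, ‖G z‖ ≤ h + e) ∧
      ∀ ξ ∈ C, ‖g (ξ * u) - g ξ‖ ≤ e ∧ ‖G ξ‖ ≤ e ∧ |(G (ξ * u)).re - h| ≤ e := by
  classical
  have t1 : Tendsto (fun d : ℝ => exp (d * I)) (𝓝[>] 0) (𝓝 1) := by
    have : Continuous fun d : ℝ => exp (d * I) := by fun_prop
    simpa using (this.tendsto 0).mono_left nhdsWithin_le_nhds
  have t2 : ∀ ξ : ℂ, Tendsto (fun d : ℝ => ξ * exp (d * I)) (𝓝[>] 0) (𝓝 ξ) := fun ξ => by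
    simpa using t1.const_mul ξ
  have e1 : ∀ᶠ d : ℝ in 𝓝[>] 0, ‖exp (d * I) - 1‖ ≤ ρ :=
    (tendsto_iff_norm_sub_tendsto_zero.mp t1).eventually (ge_mem_nhds hρ)
  have e2 : ∀ᶠ d : ℝ in 𝓝[>] 0, ∀ ξ ∈ C, ‖g (ξ * exp (d * I)) - g ξ‖ ≤ e := by
    refine (eventually_all_finset C).mpr fun ξ hξ => ?_
    have := (hg ξ (by simp [hC ξ hξ])).tendsto.comp (tendsto_nhdsWithin_iff.mpr ⟨t2 ξ,
      Eventually.of_forall fun d => by simp [hC ξ hξ, Complex.norm_exp_ofReal_mul_I]⟩)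
    exact (tendsto_iff_norm_sub_tendsto_zero.mp this).eventually (ge_mem_nhds he)
  have e3 : ∀ᶠ d : ℝ in 𝓝[>] 0, ∀ ξ ∈ C, ∀ x ∈ C, ξ * exp (d * I) ≠ x := by
    refine (eventually_all_finset C).mpr fun ξ hξ => (eventually_all_finset C).mpr fun x _ => ?_
    by_cases hx : ξ = x
    · subst hx
      filter_upwards [Ioo_mem_nhdsGT Real.pi_pos] with d hd h0
      have h1 : ξ ≠ 0 := fun h => by simpa [h] using hC ξ hξ
      have h2 := congrArg Complex.im ((mul_eq_left₀ h1).mp h0)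
      rw [Complex.exp_ofReal_mul_I_im, one_im] at h2
      exact (Real.sin_pos_of_pos_of_lt_pi hd.1 hd.2).ne' h2
    · exact (t2 ξ).eventually_ne hx
  obtain ⟨d, ⟨d1, d2⟩, d3⟩ := ((e1.and e2).and e3).exists
  set u := exp (d * I) with hu
  have hun : ‖u‖ = 1 := Complex.norm_exp_ofReal_mul_I d
  have hu0 : u ≠ 0 := Complex.exp_ne_zero _
  have e4 : ∀ᶠ δ : ℝ in 𝓝[>] 0, ∀ ξ ∈ C, ∀ x ∈ C, (δ ≤ ‖x - ξ * u‖ ∧ (x ≠ ξ → 2 * δ ≤ ‖x * u - ξ * u‖)) := by
    refine (eventually_all_finset C).mpr fun ξ hξ => (eventually_all_finset C).mpr fun x hx => ?_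
    refine Eventually.and ((le_mem_nhds' (norm_pos_iff.mpr (sub_ne_zero.mpr (d3 ξ hξ x hx).symm))))
      ?_
    by_cases h : x = ξ
    · exact Eventually.of_forall fun _ h' => absurd h h'
    · have : 0 < ‖x * u - ξ * u‖ / 2 := half_pos (norm_pos_iff.mpr (sub_ne_zero.mpr
        fun h' => h (mul_right_cancel₀ hu0 h')))
      filter_upwards [le_mem_nhds' this] with δ hδ _
      linarith
  obtain ⟨δ, δ1, δ2⟩ := (e4.and (Ioo_mem_nhdsGT one_pos)).exists
  set N : ℝ := (C.card : ℝ) with hN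
  have hN0 : 0 ≤ N := by positivity
  have key : ∀ ξ : ℂ, ∃ τ : ℂ → ℂ, ξ ∈ C → (ContinuousOn τ (closedBall 0 1) ∧
      DifferentiableOn ℂ τ (ball 0 1) ∧
      τ 0 = 0 ∧ (∀ z ∈ ball (0:ℂ) 1, -(m / (N + 1)) ≤ (z * deriv τ z).re) ∧ (τ (ξ * u)).re = h ∧
      (∀ z ∈ closedBall (0:ℂ) 1, ‖τ z‖ ≤ h + e / (N + 1)) ∧
      ∀ z ∈ closedBall (0:ℂ) 1, δ ≤ ‖z - ξ * u‖ → ‖τ z‖ ≤ e / (N + 1)) := by
    intro ξ
    by_cases hξ : ξ ∈ C
    · obtain ⟨τ, hτ⟩ := onept (ξ := ξ * u) (by rw [norm_mul, hC ξ hξ, hun, mul_one]) hh δ2.1 δ2.2.le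
        (show 0 < e / (N + 1) by positivity) (show 0 < m / (N + 1) by positivity)
      exact ⟨τ, fun _ => hτ⟩
    · exact ⟨0, fun h => absurd h hξ⟩
  choose τ hτ using key
  have sm : ∀ x : ℝ, 0 < x → N * (x / (N + 1)) ≤ x := fun x hx => by
    rw [mul_div_assoc', div_le_iff₀ (by positivity)]; nlinarith
  refine ⟨fun z => ∑ ξ ∈ C, τ ξ z, u, hun, d1, continuousOn_finsetSum _ fun ξ hξ => (hτ ξ hξ).1,
    DifferentiableOn.fun_sum fun ξ hξ => (hτ ξ hξ).2.1,
    Finset.sum_eq_zero fun ξ hξ => (hτ ξ hξ).2.2.1, fun z hz => ?_, fun z hz => ?_,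
    fun x hx => ⟨d2 x hx, ?_, ?_⟩⟩
  · rw [deriv_fun_sum fun ξ hξ => (hτ ξ hξ).2.1.differentiableAt (isOpen_ball.mem_nhds hz),
      Finset.mul_sum, Complex.re_sum]
    refine le_trans ?_ (Finset.sum_le_sum fun ξ hξ => (hτ ξ hξ).2.2.2.1 z hz)
    rw [Finset.sum_const, nsmul_eq_mul]; linarith [sm m hm]
  · refine (norm_sum_le _ _).trans ((Finset.sum_le_sum (g := fun ξ => e / (N + 1) +
      h * (if ‖z - ξ * u‖ < δ then 1 else 0)) fun ξ hξ => ?_).trans ?_)
    · split_ifs with h1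
      · linarith [(hτ ξ hξ).2.2.2.2.2.1 z hz]
      · linarith [(hτ ξ hξ).2.2.2.2.2.2 z hz (not_lt.mp h1)]
    · rw [Finset.sum_add_distrib, Finset.sum_const, nsmul_eq_mul, ← Finset.mul_sum, Finset.sum_boole]
      have a1 : (C.filter (fun ξ => ‖z - ξ * u‖ < δ)).card ≤ 1 := by
        refine Finset.card_le_one.mpr fun a ha b hb => ?_
        by_contra hab
        have b1 := Finset.mem_filter.mp ha
        have b2 := Finset.mem_filter.mp hb
        have b3 := (δ1 b b2.1 a b1.1).2 hab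
        have b4 := norm_sub_le (z - b * u) (z - a * u)
        rw [show z - b * u - (z - a * u) = a * u - b * u by ring] at b4
        linarith [b1.2, b2.2]
      have a2 : ((C.filter (fun ξ => ‖z - ξ * u‖ < δ)).card : ℝ) ≤ 1 := by exact_mod_cast a1
      nlinarith [sm e he]
  · refine (norm_sum_le _ _).trans ((Finset.sum_le_sum fun ξ hξ =>
      (hτ ξ hξ).2.2.2.2.2.2 x (by simp [hC x hx]) (δ1 ξ hξ x hx).1).trans ?_)
    rw [Finset.sum_const, nsmul_eq_mul]; exact sm e he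
  · rw [Complex.re_sum, ← Finset.add_sum_erase _ _ hx, (hτ x hx).2.2.2.2.1, add_sub_cancel_left]
    refine (Finset.abs_sum_le_sum_abs _ _).trans ((Finset.sum_le_sum (g := fun _ => e / (N + 1))
      fun ξ hξ => ?_).trans ?_)
    · have b1 := Finset.mem_erase.mp hξ
      refine (Complex.abs_re_le_norm _).trans ((hτ ξ b1.2).2.2.2.2.2.2 _ (by simp [hC x hx, hun]) ?_)
      linarith [(δ1 ξ b1.2 x hx).2 b1.1.symm, δ2.1]
    · rw [Finset.sum_const, nsmul_eq_mul]
      refine le_trans (mul_le_mul_of_nonneg_right ?_ (by positivity)) (sm e he)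
      rw [hN]; exact_mod_cast Finset.card_erase_le


/-- the closed arc starting at angle `p.1` of length `p.2` -/
def arc (p : ℝ × ℝ) : Set ℂ := (fun t : ℝ => exp (t * I)) '' Icc p.1 (p.1 + p.2)

/-- zero logarithmic measure -/
def ZeroLog (E : Set ℂ) : Prop :=
  ∀ ε : ℝ, 0 < ε → ∃ S : Set (ℝ × ℝ), S.Countable ∧ (∀ p ∈ S, 0 < p.2 ∧ p.2 < 1) ∧
    E ⊆ (⋃ p ∈ S, arc p) ∧
    ∑' p : S, ENNReal.ofReal (1 / Real.log (1 / (p : ℝ × ℝ).2)) < ENNReal.ofReal ε

open Classical in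
/-- logarithmic kernel shifted by `log 2` -/
noncomputable def ker (x y : ℂ) : ENNReal :=
  if x = y then ⊤ else ENNReal.ofReal (Real.log (2 / ‖x - y‖))

/-- zero logarithmic capacity: no probability measure carried by `E` has finite energy -/
def CapZero (E : Set ℂ) : Prop :=
  ∀ μ : Measure ℂ, IsProbabilityMeasure μ → μ Eᶜ = 0 → ∫⁻ x, ∫⁻ y, ker x y ∂μ ∂μ = ⊤

/-- normalised bounded star-like function -/
def NBS (f : ℂ → ℂ) : Prop :=
  DifferentiableOn ℂ f (ball 0 1) ∧ InjOn f (ball 0 1) ∧ f 0 = 0 ∧ deriv f 0 = 1 ∧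
    StarConvex ℝ 0 (f '' ball 0 1) ∧ Bornology.IsBounded (f '' ball 0 1)

lemma arc_diam {p : ℝ × ℝ} {x y : ℂ} (hx : x ∈ arc p) (hy : y ∈ arc p) : ‖x - y‖ ≤ p.2 := by
  obtain ⟨s, hs, rfl⟩ := hx
  obtain ⟨t, ht, rfl⟩ := hy
  have e : exp (s * I) - exp (t * I) = exp (t * I) * (exp (I * ((s - t : ℝ) : ℂ)) - 1) := by
    rw [mul_sub, ← Complex.exp_add]; congr 1; · congr 1; push_cast; ring
    · ring
  simp only []
  rw [e, norm_mul, Complex.norm_exp_ofReal_mul_I, one_mul]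
  refine Real.norm_exp_I_mul_ofReal_sub_one_le.trans ?_
  rw [Real.norm_eq_abs, abs_le]; constructor <;> linarith [hs.1, hs.2, ht.1, ht.2]

lemma mem_arc {x ξ : ℂ} (hx : ‖x‖ = 1) (hξ : ‖ξ‖ = 1) {r : ℝ} (h : ‖x - ξ‖ ≤ r) :
    x ∈ arc (arg ξ - 2 * r, 4 * r) := by
  have x0 : x ≠ 0 := fun h => by simp [h] at hx
  have ξ0 : ξ ≠ 0 := fun h => by simp [h] at hξ
  have a1 := Complex.angle_le_mul_norm_sub hx hξ
  rw [Complex.angle_eq_abs_arg x0 ξ0] at a1
  have a2 : |arg (x / ξ)| ≤ 2 * r := a1.trans (mul_le_mul (by linarith [Real.pi_le_four]) h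
    (norm_nonneg _) (by norm_num))
  refine ⟨arg ξ + arg (x / ξ), ⟨by linarith [(abs_le.mp a2).1], by linarith [(abs_le.mp a2).2]⟩, ?_⟩
  have b1 := Complex.norm_mul_exp_arg_mul_I ξ
  have b2 := Complex.norm_mul_exp_arg_mul_I (x / ξ)
  rw [norm_div, hx, hξ] at b2
  rw [hξ] at b1
  simp only [ofReal_one, one_mul, div_one] at b1 b2
  simp only []
  push_cast
  rw [add_mul, Complex.exp_add, b1, b2]; field_simp

theorem capZero_of_zeroLog {E : Set ℂ} (h : ZeroLog E) : CapZero E := by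
  intro μ _ hE
  by_contra hc
  have hk : Measurable (fun q : ℂ × ℂ => ker q.1 q.2) :=
    Measurable.ite (measurableSet_eq_fun measurable_fst measurable_snd) measurable_const (by fun_prop)
  have hU := ae_lt_top (hk.lintegral_prod_right' (ν := μ)) hc
  have h1 : ∀ M : ℕ, μ ({x | ∫⁻ y, ker x y ∂μ ≤ M} ∩ E) = 0 := by
    intro M
    refine le_antisymm (ENNReal.le_of_forall_pos_le_add fun ε hε _ => ?_) zero_le
    obtain ⟨S, s1, s2, s3, s4⟩ := h (ε / (M + 1)) (by positivity)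
    have a1 : {x | ∫⁻ y, ker x y ∂μ ≤ M} ∩ E ⊆ ⋃ p ∈ S, ({x | ∫⁻ y, ker x y ∂μ ≤ M} ∩ arc p) := by
      rintro x ⟨b1, b2⟩
      obtain ⟨p, hp, b3⟩ := mem_iUnion₂.mp (s3 b2)
      exact mem_iUnion₂.mpr ⟨p, hp, b1, b3⟩
    have a2 : ∀ p : S, μ ({x | ∫⁻ y, ker x y ∂μ ≤ M} ∩ arc p) ≤
        M * ENNReal.ofReal (1 / Real.log (1 / (p : ℝ × ℝ).2)) := by
      rintro ⟨p, hp⟩
      rcases ({x | ∫⁻ y, ker x y ∂μ ≤ M} ∩ arc p).eq_empty_or_nonempty with b | ⟨x, b1, b2⟩
      · simp only [b, measure_empty, zero_le]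
      have l0 : 0 < Real.log (1 / p.2) := Real.log_pos (one_lt_one_div (s2 p hp).1 (s2 p hp).2)
      have b3 := (mul_meas_ge_le_lintegral₀ (μ := μ) (f := fun y => ker x y)
        (hk.comp measurable_prodMk_left).aemeasurable (ENNReal.ofReal (Real.log (1 / p.2)))).trans b1
      have b4 : μ ({x | ∫⁻ y, ker x y ∂μ ≤ M} ∩ arc p) ≤
          μ {y | ENNReal.ofReal (Real.log (1 / p.2)) ≤ ker x y} := by
        refine measure_mono fun y hy => ?_
        simp only [mem_ofPred_eq, ker]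
        split_ifs with e
        · exact le_top
        · have c1 := norm_pos_iff.mpr (sub_ne_zero.mpr e)
          have c2 := arc_diam b2 hy.2
          refine ENNReal.ofReal_le_ofReal (Real.log_le_log (by have := (s2 p hp).1; positivity) ?_)
          rw [div_le_div_iff₀ (s2 p hp).1 c1]; linarith
      refine b4.trans ?_
      simp only []
      rw [one_div (Real.log _), ENNReal.ofReal_inv_of_pos l0, ← div_eq_mul_inv,
        ENNReal.le_div_iff_mul_le (Or.inl (ENNReal.ofReal_pos.mpr l0).ne') (Or.inl ENNReal.ofReal_ne_top),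
        mul_comm]
      exact b3
    refine ((measure_mono a1).trans (measure_biUnion_le μ s1 _)).trans
      ((ENNReal.tsum_le_tsum a2).trans ?_)
    rw [ENNReal.tsum_mul_left, zero_add]
    refine (mul_le_mul_right s4.le _).trans ?_
    rw [← ENNReal.ofReal_natCast, ← ENNReal.ofReal_mul (by positivity), ← ENNReal.ofReal_coe_nnreal]
    refine ENNReal.ofReal_le_ofReal ?_
    rw [mul_div_assoc', div_le_iff₀ (by positivity)]
    have : (0:ℝ) ≤ ε := ε.2
    nlinarith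
  have h2 : ∀ᵐ x ∂μ, False := by
    filter_upwards [hU, (show ∀ᵐ x ∂μ, x ∈ E from hE),
      ae_all_iff.mpr fun M => measure_eq_zero_iff_ae_notMem.mp (h1 M)] with x a1 a2 a3
    obtain ⟨M, hM⟩ := ENNReal.exists_nat_gt a1.ne
    exact a3 M ⟨hM.le, a2⟩
  exact h2.exists.elim fun _ h => h

/-- state of the construction -/
structure St where
  g : ℂ → ℂ
  C : Finset ℂ
  ρ : ℝ

/-- invariant of the construction -/
def Inv (n : ℕ) (s : St) : Prop :=
  ContinuousOn s.g (closedBall 0 1) ∧ DifferentiableOn ℂ s.g (ball 0 1) ∧ s.g 0 = 0 ∧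
  (∀ z ∈ ball (0:ℂ) 1, -(1 / 2 - (1 / 2) ^ (n + 1) : ℝ) ≤ (z * deriv s.g z).re) ∧
  (∀ ξ ∈ s.C, ‖ξ‖ = 1) ∧
  (∀ y ∈ Icc (0.3:ℝ) 1.7, ∃ ξ ∈ s.C, 0.3 * (2 / 3) ^ n ≤ y - (s.g ξ).re ∧
    y - (s.g ξ).re ≤ 1.7 * (2 / 3) ^ n) ∧
  0 < s.ρ ∧ 8 * s.ρ < 1 ∧ s.C.card * (1 / Real.log (1 / (8 * s.ρ))) ≤ 1 / (n + 1)

lemma radius (N : ℕ) {a b : ℝ} (ha : 0 < a) (hb : 0 < b) :
    ∃ ρ : ℝ, 0 < ρ ∧ ρ ≤ a ∧ 8 * ρ < 1 ∧ N * (1 / Real.log (1 / (8 * ρ))) ≤ b := by
  have h1 : Real.exp (-(N / b + 1)) < 1 := Real.exp_lt_one_iff.mpr (by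
    have : 0 ≤ N / b := by positivity
    linarith)
  refine ⟨min a (Real.exp (-(N / b + 1)) / 8), by positivity, min_le_left _ _,
    by linarith [min_le_right a (Real.exp (-(N / b + 1)) / 8)], ?_⟩
  have h2 : N / b + 1 ≤ Real.log (1 / (8 * min a (Real.exp (-(N / b + 1)) / 8))) := by
    rw [one_div, Real.log_inv, le_neg, Real.log_le_iff_le_exp (by positivity)]
    linarith [min_le_right a (Real.exp (-(N / b + 1)) / 8)]
  have h3 : 0 < N / b + 1 := by positivity
  rw [mul_one_div, div_le_iff₀ (h3.trans_le h2)]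
  have : b * (N / b + 1) = N + b := by field_simp
  nlinarith

lemma step (n : ℕ) (s : St) (h : Inv n s) : ∃ s' : St, Inv (n + 1) s' ∧ s.C ⊆ s'.C ∧
    (∀ x ∈ s'.C, ∃ ξ ∈ s.C, ‖x - ξ‖ ≤ s.ρ) ∧ s'.ρ ≤ s.ρ / 2 ∧
    ∀ z ∈ closedBall (0:ℂ) 1, ‖s'.g z - s.g z‖ ≤ 2 * (2 / 3) ^ n := by
  classical
  obtain ⟨h1, h2, h3, h4, h5, h6, h7, h8, h9⟩ := h
  have p0 : (0:ℝ) < (2 / 3) ^ n := by positivity
  obtain ⟨G, u, g1, g2, g3, g4, g5, g6, g7, g8⟩ := layer h1 s.C h5 (h := (2 / 3) ^ (n + 1))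
    (e := 0.05 * (2 / 3) ^ n) (m := (1 / 2) ^ (n + 1 + 1)) (by positivity) (by positivity)
    (by positivity) h7
  obtain ⟨ρ, r1, r2, r3, r4⟩ := radius (s.C ∪ s.C.image (· * u)).card (half_pos h7)
    (show (0:ℝ) < 1 / ((n + 1 : ℕ) + 1) by positivity)
  refine ⟨⟨fun z => s.g z + G z, s.C ∪ s.C.image (· * u), ρ⟩, ⟨h1.add g3, h2.add g4,
    by simp [h3, g5], fun z hz => ?_, fun x hx => ?_, fun y hy => ?_, r1, r3, r4⟩,
    Finset.subset_union_left, fun x hx => ?_, r2, fun z hz => ?_⟩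
  · simp only []
    rw [deriv_fun_add (h2.differentiableAt (isOpen_ball.mem_nhds hz))
      (g4.differentiableAt (isOpen_ball.mem_nhds hz)), mul_add, add_re]
    have e : ((1:ℝ) / 2) ^ (n + 1) = 2 * (1 / 2) ^ (n + 1 + 1) := by ring
    linarith [h4 z hz, g6 z hz]
  · rcases Finset.mem_union.mp hx with a | a
    · exact h5 x a
    · obtain ⟨ξ, hξ, rfl⟩ := Finset.mem_image.mp a
      rw [norm_mul, h5 ξ hξ, g1, mul_one]
  · obtain ⟨ξ, hξ, a1, a2⟩ := h6 y hy
    obtain ⟨b1, b2, b3⟩ := g8 ξ hξ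
    rw [pow_succ] at b3 ⊢
    by_cases c : y - (s.g ξ).re ≤ (2 / 3) ^ n
    · refine ⟨ξ, Finset.mem_union_left _ hξ, ?_⟩
      have := abs_le.mp ((Complex.abs_re_le_norm _).trans b2)
      simp only [add_re]
      constructor <;> linarith
    · refine ⟨ξ * u, Finset.mem_union_right _ (Finset.mem_image_of_mem _ hξ), ?_⟩
      have d1 := abs_le.mp ((Complex.abs_re_le_norm _).trans b1)
      have d2 := abs_le.mp b3
      rw [sub_re] at d1
      simp only [add_re]
      constructor <;> linarith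
  · rcases Finset.mem_union.mp hx with a | a
    · exact ⟨x, a, by simpa using h7.le⟩
    · obtain ⟨ξ, hξ, rfl⟩ := Finset.mem_image.mp a
      refine ⟨ξ, hξ, ?_⟩
      rw [← mul_sub_one, norm_mul, h5 ξ hξ, one_mul]; exact g2
  · have := g7 z hz
    rw [pow_succ] at this
    simp only [add_sub_cancel_left]; linarith

theorem main : ∃ (f b : ℂ → ℂ) (E : Set ℂ), NBS f ∧ IsCompact E ∧ E ⊆ sphere 0 1 ∧
    (∀ ξ ∈ E, Tendsto (fun r : ℝ => f (r * ξ)) (𝓝[<] 1) (𝓝 (b ξ))) ∧ ZeroLog E ∧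
    0 < Measure.hausdorffMeasure 1 (b '' E) := by
  obtain ⟨ρ0, r1, -, r3, r4⟩ := radius ({1} : Finset ℂ).card one_pos
    (show (0:ℝ) < 1 / ((0 : ℕ) + 1) by positivity)
  let s0 : {s : St // Inv 0 s} := ⟨⟨fun _ => 0, {1}, ρ0⟩, continuousOn_const, differentiableOn_const _,
    rfl, fun z _ => by simp, by simp, fun y hy => ⟨1, by simp, by simpa using hy.1, by simpa using hy.2⟩,
    r1, r3, r4⟩
  choose nx h0 h1 h2 h3 h4 using step
  let s : (n : ℕ) → {s : St // Inv n s} := fun n => Nat.rec s0 (fun n s => ⟨nx n s.1 s.2, h0 n s.1 s.2⟩) n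
  have hC : Monotone fun n => (s n).1.C := monotone_nat_of_le_succ fun n => h1 n (s n).1 (s n).2
  have hnear : ∀ n m, ∀ x ∈ (s (n + m)).1.C, ∃ ξ ∈ (s n).1.C,
      ‖x - ξ‖ ≤ 2 * (s n).1.ρ - 2 * (s (n + m)).1.ρ := by
    intro n m
    induction m with
    | zero => exact fun x hx => ⟨x, hx, by simp⟩
    | succ m ih =>
      intro x hx
      obtain ⟨y, hy, a1⟩ := h2 (n + m) (s (n + m)).1 (s (n + m)).2 x hx
      obtain ⟨ξ, hξ, a2⟩ := ih y hy
      have a3 : (s (n + (m + 1))).1.ρ ≤ (s (n + m)).1.ρ / 2 := h3 (n + m) (s (n + m)).1 (s (n + m)).2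
      refine ⟨ξ, hξ, ?_⟩
      have := norm_sub_le_norm_sub_add_norm_sub x y ξ
      linarith
  let D : ℕ → ℂ → ℂ := fun k z => (s (k + 1)).1.g z - (s k).1.g z
  let g : ℂ → ℂ := fun z => ∑' k, D k z
  have hsum : Summable fun n : ℕ => 2 * ((2:ℝ) / 3) ^ n :=
    (summable_geometric_of_lt_one (by norm_num) (by norm_num)).mul_left 2
  have hunif : TendstoUniformlyOn (fun k => (s k).1.g) g atTop (closedBall 0 1) := by
    refine (tendstoUniformlyOn_tsum_nat (f := D) hsum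
      (fun k z hz => h4 k (s k).1 (s k).2 z hz)).congr (Eventually.of_forall fun k z _ => ?_)
    have := Finset.sum_range_sub (fun k => (s k).1.g z) k
    simp only [D]; rw [this]; simp [s, s0]
  have gc : ContinuousOn g (closedBall 0 1) :=
    hunif.continuousOn (Frequently.of_forall fun k => (s k).2.1)
  have hl := (hunif.mono ball_subset_closedBall).tendstoLocallyUniformlyOn
  have gd : DifferentiableOn ℂ g (ball 0 1) :=
    hl.differentiableOn (Eventually.of_forall fun k => (s k).2.2.1) isOpen_ball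
  have g0 : g 0 = 0 := by
    have := hunif.tendsto_at (show (0:ℂ) ∈ closedBall 0 1 by simp)
    simp only [fun k => (s k).2.2.2.1] at this
    exact tendsto_nhds_unique this tendsto_const_nhds
  have gp : ∀ z ∈ ball (0:ℂ) 1, -1 < (z * deriv g z).re := by
    intro z hz
    have a1 := (hl.deriv (Eventually.of_forall fun k => (s k).2.2.1) isOpen_ball).tendsto_at hz
    have a2 := (Complex.continuous_re.tendsto _).comp (a1.const_mul z)
    refine lt_of_lt_of_le (show (-1:ℝ) < -(1 / 2) by norm_num) (ge_of_tendsto' a2 fun k => ?_)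
    have := (s k).2.2.2.2.1 z hz
    have : (0:ℝ) < (1 / 2) ^ (k + 1) := by positivity
    simp only [Function.comp]; linarith
  set f : ℂ → ℂ := fun z => z * exp (g z) with hf
  have fc : ContinuousOn f (closedBall 0 1) := continuousOn_id.mul gc.cexp
  set E := closure (⋃ n, ((s n).1.C : Set ℂ)) with hE
  have hEs : E ⊆ sphere 0 1 := closure_minimal (iUnion_subset fun n x hx => by
    simpa using (s n).2.2.2.2.2.1 x hx) isClosed_sphere
  have hEc : IsCompact E := (isCompact_sphere 0 1).of_isClosed_subset isClosed_closure hEs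
  refine ⟨f, f, E, ⟨differentiableOn_id.mul gd.cexp, crit_inj gd gp, by simp [hf], ?_, crit_star gd gp,
    ((isCompact_closedBall 0 1).image_of_continuousOn fc).isBounded.subset
      (image_mono ball_subset_closedBall)⟩, hEc, hEs, fun ξ hξ => ?_, fun ε hε => ?_, ?_⟩
  · have := ((hasDerivAt_id' (0:ℂ)).fun_mul
      (gd.differentiableAt (ball_mem_nhds 0 one_pos)).hasDerivAt.cexp).deriv
    rw [hf, this]; simp [g0]
  · have a1 : ‖ξ‖ = 1 := by simpa using hEs hξ
    refine (fc ξ (by simp [a1])).tendsto.comp (tendsto_nhdsWithin_iff.mpr ⟨?_, ?_⟩)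
    · have : Continuous fun r : ℝ => (r : ℂ) * ξ := by fun_prop
      simpa using (this.tendsto 1).mono_left nhdsWithin_le_nhds
    · filter_upwards [Ioo_mem_nhdsLT (show (0:ℝ) < 1 from one_pos)] with r hr
      rw [mem_closedBall_zero_iff, norm_mul, a1, mul_one, Complex.norm_real, Real.norm_of_nonneg hr.1.le]
      exact hr.2.le
  · classical
    obtain ⟨n, hn⟩ := exists_nat_one_div_lt hε
    obtain ⟨-, -, -, -, i5, -, i7, i8, i9⟩ := (s n).2
    set ρ := (s n).1.ρ with hρ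
    let S := (s n).1.C.image fun ξ => (arg ξ - 2 * (2 * ρ), 4 * (2 * ρ))
    have hS : ∀ p ∈ S, p.2 = 8 * ρ := fun p hp => by
      obtain ⟨ξ, -, rfl⟩ := Finset.mem_image.mp hp; ring
    refine ⟨S, S.countable_toSet, fun p hp => by rw [hS p hp]; exact ⟨by positivity, i8⟩, fun x hx => ?_, ?_⟩
    · have a1 : E ⊆ ⋃ ξ ∈ (s n).1.C, closedBall ξ (2 * ρ) := by
        refine closure_minimal (iUnion_subset fun m y hy => ?_)
          (isClosed_biUnion_finset fun ξ _ => isClosed_closedBall)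
        obtain ⟨ξ, hξ, a2⟩ := hnear n m y (hC (Nat.le_add_left m n) hy)
        refine mem_iUnion₂.mpr ⟨ξ, hξ, ?_⟩
        rw [mem_closedBall, dist_eq_norm]
        linarith [(s (n + m)).2.2.2.2.2.2.2.1]
      obtain ⟨ξ, hξ, a2⟩ := mem_iUnion₂.mp (a1 hx)
      exact mem_iUnion₂.mpr ⟨_, Finset.mem_image_of_mem _ hξ,
        mem_arc (by simpa using hEs hx) (i5 ξ hξ) (by simpa [dist_eq_norm] using a2)⟩
    · have l0 : 0 < Real.log (1 / (8 * ρ)) := Real.log_pos (one_lt_one_div (by positivity) i8)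
      rw [Finset.tsum_subtype' S (fun p => ENNReal.ofReal (1 / Real.log (1 / p.2))),
        Finset.sum_congr rfl (fun p hp => by rw [hS p hp]), Finset.sum_const, nsmul_eq_mul,
        ← ENNReal.ofReal_natCast, ← ENNReal.ofReal_mul (by positivity), ENNReal.ofReal_lt_ofReal_iff hε]
      refine lt_of_le_of_lt (le_trans (mul_le_mul_of_nonneg_right ?_ (by positivity)) i9) hn
      exact_mod_cast Finset.card_image_le
  · have hre : ∀ y ∈ Icc (0.3:ℝ) 1.7, ∃ ξ ∈ E, (g ξ).re = y := by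
      intro y hy
      have a1 : IsClosed ((fun z => (g z).re) '' E) := (hEc.image_of_continuousOn
        (Complex.continuous_re.comp_continuousOn (gc.mono (hEs.trans sphere_subset_closedBall)))).isClosed
      suffices y ∈ (fun z => (g z).re) '' E by simpa using this
      rw [← a1.closure_eq, Metric.mem_closure_iff]
      intro ε hε
      have e1 := Metric.tendstoUniformlyOn_iff.mp hunif (ε / 2) (by positivity)
      have e2 := hsum.tendsto_atTop_zero.eventually (gt_mem_nhds (show (0:ℝ) < ε / 2 by positivity))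
      obtain ⟨k, k1, k2⟩ := (e1.and e2).exists
      obtain ⟨ξ, hξ, b1, b2⟩ := (s k).2.2.2.2.2.2.1 y hy
      have b3 : ξ ∈ E := subset_closure (mem_iUnion.mpr ⟨k, hξ⟩)
      have b4 := k1 ξ (sphere_subset_closedBall (hEs b3))
      rw [dist_eq_norm] at b4
      have b5 := abs_le.mp (Complex.abs_re_le_norm (g ξ - (s k).1.g ξ))
      rw [sub_re] at b5
      have : (0:ℝ) < (2 / 3) ^ k := by positivity
      refine ⟨_, mem_image_of_mem _ b3, ?_⟩
      rw [Real.dist_eq, abs_lt]; constructor <;> linarith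
    have hsub : Icc (Real.exp 0.3) (Real.exp 1.7) ⊆ norm '' (f '' E) := by
      intro t ht
      have t0 : 0 < t := (Real.exp_pos _).trans_le ht.1
      obtain ⟨ξ, hξ, e⟩ := hre (Real.log t) ⟨(Real.le_log_iff_exp_le t0).mpr ht.1,
        (Real.log_le_iff_le_exp t0).mpr ht.2⟩
      refine ⟨f ξ, mem_image_of_mem _ hξ, ?_⟩
      have a1 : ‖ξ‖ = 1 := by simpa using hEs hξ
      simp only [hf, norm_mul, a1, one_mul, Complex.norm_exp, e, Real.exp_log t0]
    have a1 := lipschitzWith_one_norm.hausdorffMeasure_image_le zero_le_one (f '' E)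
    rw [hausdorffMeasure_real] at a1
    have a2 := (measure_mono hsub).trans a1
    rw [Real.volume_Icc] at a2
    refine lt_of_lt_of_le (ENNReal.ofReal_pos.mpr (sub_pos.mpr (Real.exp_lt_exp.mpr
      (show (0.3:ℝ) < 1.7 by norm_num)))) (by simpa using a2)

end H91.Starlike
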