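import Mathlib
set_option autoImplicit false

namespace H91.Stretch
open Set

/-- optimal Lipschitz constant -/
noncomputable def Lip {n m : ℕ} (f : EuclideanSpace ℝ (Fin n) → EuclideanSpace ℝ (Fin m)) : ℝ :=
  sInf {L : ℝ | 0 ≤ L ∧ ∀ x y, ‖f x - f y‖ ≤ L * ‖x - y‖}

lemma ident {E : Type*} [NormedAddCommGroup E] [InnerProductSpace ℝ E] (x y x' y' : E) :
    2 * (‖x - y'‖ ^ 2 + ‖y - x'‖ ^ 2) = ‖(x + y) - (x' + y')‖ ^ 2 + 2 * ‖x - y‖ ^ 2 +
      2 * ‖x' - y'‖ ^ 2 - ‖(x - y) - (x' - y')‖ ^ 2 := by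
  have h1 := parallelogram_law_with_norm ℝ (x - y') (y - x')
  have h2 := parallelogram_law_with_norm ℝ (x - y) (x' - y')
  rw [show x - y' + (y - x') = (x + y) - (x' + y') by abel,
    show x - y' - (y - x') = (x - y) + (x' - y') by abel] at h1
  nlinarith

lemma key {E F : Type*} [NormedAddCommGroup E] [InnerProductSpace ℝ E] [NormedAddCommGroup F]
    [InnerProductSpace ℝ F] (f : E → F) (L : ℝ) (hL : 0 < L) (hf : ∀ x y, ‖f x - f y‖ ≤ L * ‖x - y‖)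
    (x y x' y' : E) (h : ‖f x - f y‖ = L * ‖x - y‖) (h' : ‖f x' - f y'‖ = L * ‖x' - y'‖) :
    ‖(x - y) - (x' - y')‖ ≤ ‖(x + y) - (x' + y')‖ + ‖(f x - f y) - (f x' - f y')‖ / L := by
  have h1 := ident x y x' y'
  have h2 := ident (f x) (f y) (f x') (f y')
  have h3 : ‖f x - f y'‖ ^ 2 ≤ (L * ‖x - y'‖) ^ 2 := by gcongr; exact hf _ _
  have h4 : ‖f y - f x'‖ ^ 2 ≤ (L * ‖y - x'‖) ^ 2 := by gcongr; exact hf _ _
  rw [h, h'] at h2
  set a := ‖(x - y) - (x' - y')‖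
  set b := ‖(x + y) - (x' + y')‖
  set c := ‖(f x - f y) - (f x' - f y')‖
  have hb : 0 ≤ b := norm_nonneg _
  have hc : 0 ≤ c := norm_nonneg _
  have h5 : (L * a) ^ 2 ≤ (L * b + c) ^ 2 := by
    have : L ^ 2 * (2 * (‖x - y'‖ ^ 2 + ‖y - x'‖ ^ 2)) = L ^ 2 * (b ^ 2 + 2 * ‖x - y‖ ^ 2 +
      2 * ‖x' - y'‖ ^ 2 - a ^ 2) := by rw [h1]
    nlinarith [sq_nonneg ‖f x + f y - (f x' + f y')‖, mul_nonneg (mul_nonneg hL.le hb) hc]
  have h6 : L * a ≤ L * b + c := (abs_le_of_sq_le_sq' h5 (by positivity)).2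
  have : a = L * a / L := by field_simp
  rw [this, div_le_iff₀ hL, add_mul, div_mul_cancel₀ _ hL.ne']
  linarith

theorem main (n m : ℕ) (f : EuclideanSpace ℝ (Fin n) → EuclideanSpace ℝ (Fin m))
    (hf : ∃ K, LipschitzWith K f) (hc : ∃ x y, f x ≠ f y) :
    ∃ (ψ : EuclideanSpace ℝ (Fin (n + m)) → EuclideanSpace ℝ (Fin n) × EuclideanSpace ℝ (Fin n))
      (K : NNReal), LipschitzWith K ψ ∧
      {p : EuclideanSpace ℝ (Fin n) × EuclideanSpace ℝ (Fin n) |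
        ‖f p.1 - f p.2‖ = Lip f * ‖p.1 - p.2‖} ⊆ range ψ := by
  obtain ⟨K, hK⟩ := hf
  have hne : {L : ℝ | 0 ≤ L ∧ ∀ x y, ‖f x - f y‖ ≤ L * ‖x - y‖}.Nonempty :=
    ⟨K, K.2, fun x y => by simpa [dist_eq_norm] using hK.dist_le_mul x y⟩
  have hlip : ∀ x y, ‖f x - f y‖ ≤ Lip f * ‖x - y‖ := by
    intro x y
    by_cases hxy : x = y
    · simp [hxy]
    have hp : 0 < ‖x - y‖ := norm_pos_iff.2 (sub_ne_zero.2 hxy)
    rw [← div_le_iff₀ hp]
    refine le_csInf hne fun L hL => ?_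
    rw [div_le_iff₀ hp]; exact hL.2 x y
  have hL : 0 < Lip f := by
    obtain ⟨x, y, hxy⟩ := hc
    have h1 : 0 < ‖f x - f y‖ := norm_pos_iff.2 (sub_ne_zero.2 hxy)
    have h2 := hlip x y
    by_contra hn
    nlinarith [norm_nonneg (x - y), mul_nonneg (neg_nonneg.2 (not_lt.1 hn)) (norm_nonneg (x - y))]
  set L := Lip f
  set Γ := {p : EuclideanSpace ℝ (Fin n) × EuclideanSpace ℝ (Fin n) |
        ‖f p.1 - f p.2‖ = L * ‖p.1 - p.2‖} with hΓ
  let G : EuclideanSpace ℝ (Fin n) × EuclideanSpace ℝ (Fin n) →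
      EuclideanSpace ℝ (Fin n) × EuclideanSpace ℝ (Fin m) := fun p => (p.1 + p.2, f p.1 - f p.2)
  have hG : ∀ p ∈ Γ, ∀ q ∈ Γ, dist p q ≤ (1 + 1 / L) * dist (G p) (G q) := by
    rintro ⟨x, y⟩ hp ⟨x', y'⟩ hq
    have h1 := key f L hL hlip x y x' y' hp hq
    have h2 : ‖(x + y) - (x' + y')‖ ≤ dist (G (x, y)) (G (x', y')) := by
      rw [Prod.dist_eq, dist_eq_norm]; exact le_max_left _ _
    have h3 : ‖(f x - f y) - (f x' - f y')‖ ≤ dist (G (x, y)) (G (x', y')) := by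
      rw [Prod.dist_eq, dist_eq_norm, dist_eq_norm]; exact le_max_right _ _
    set D := dist (G (x, y)) (G (x', y'))
    have hD : 0 ≤ D := dist_nonneg
    have h4 : ‖(f x - f y) - (f x' - f y')‖ / L ≤ 1 / L * D := by
      rw [one_div_mul_eq_div]; gcongr
    have h5 : 0 ≤ 1 / L * D := by positivity
    have a1 : ‖(2:ℝ) • (x - x')‖ ≤ ‖(x + y) - (x' + y')‖ + ‖(x - y) - (x' - y')‖ := by
      rw [show (2:ℝ) • (x - x') = ((x + y) - (x' + y')) + ((x - y) - (x' - y')) by module]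
      exact norm_add_le _ _
    have a2 : ‖(2:ℝ) • (y - y')‖ ≤ ‖(x + y) - (x' + y')‖ + ‖(x - y) - (x' - y')‖ := by
      rw [show (2:ℝ) • (y - y') = ((x + y) - (x' + y')) - ((x - y) - (x' - y')) by module]
      exact norm_sub_le _ _
    rw [norm_smul, Real.norm_eq_abs, abs_two] at a1 a2
    rw [Prod.dist_eq, dist_eq_norm, dist_eq_norm]
    refine max_le ?_ ?_ <;> simp only <;> nlinarith
  have hlo : LipschitzOnWith (Real.toNNReal (1 + 1 / L)) (Function.invFunOn G Γ) (G '' Γ) := by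
    refine LipschitzOnWith.of_dist_le' ?_
    rintro a ⟨p, hp, rfl⟩ b ⟨q, hq, rfl⟩
    have h1 := Function.invFunOn_pos (f := G) (s := Γ) (b := G p) ⟨p, hp, rfl⟩
    have h2 := Function.invFunOn_pos (f := G) (s := Γ) (b := G q) ⟨q, hq, rfl⟩
    have := hG _ h1.1 _ h2.1
    rwa [h1.2, h2.2] at this
  obtain ⟨g, hg, hge⟩ := hlo.extend_finite_dimension
  let e := EuclideanSpace.finAddEquivProd (𝕜 := ℝ) (n := n) (m := m)
  refine ⟨g ∘ e, _, hg.comp e.toContinuousLinearMap.lipschitz, fun p hp => ⟨e.symm (G p), ?_⟩⟩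
  have h1 := Function.invFunOn_pos (f := G) (s := Γ) (b := G p) ⟨p, hp, rfl⟩
  have h2 := hG _ h1.1 _ hp
  rw [h1.2, dist_self, mul_zero] at h2
  simp only [Function.comp_apply, ContinuousLinearEquiv.apply_symm_apply]
  rw [← hge ⟨p, hp, rfl⟩]
  exact dist_le_zero.1 h2

end H91.Stretch
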