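import Pool.Agent.H91.SupN

set_option autoImplicit false

namespace H91.StrictDaug
open Filter Topology Set Metric Pool.Agent.H91.C0 Pool.Agent.H91.Renorm H91.SupN

abbrev l2 := lp (fun _ : ℕ => ℝ) 2

lemma bd (y : c0) (n : ℕ) : ‖y n / 2 ^ n‖ ^ (2 : ENNReal).toReal ≤ ‖y‖ ^ 2 * (1 / 2) ^ n := by
  have h1 := apply_le y n
  have h2 : (1:ℝ) ≤ 2 ^ n := one_le_pow₀ (by norm_num)
  simp only [ENNReal.toReal_ofNat, Real.rpow_ofNat, norm_div, norm_pow, Real.norm_eq_abs, abs_two,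
    div_pow, one_pow, mul_one_div]
  gcongr
  nlinarith

lemma sm (y : c0) : Summable fun n => ‖y n / 2 ^ n‖ ^ (2 : ENNReal).toReal :=
  Summable.of_nonneg_of_le (fun _ => by positivity) (bd y) (summable_geometric_two.mul_left _)

noncomputable def T : c0 →L[ℝ] l2 :=
  LinearMap.mkContinuous
    { toFun := fun y => ⟨fun n => y n / 2 ^ n, memℓp_gen (sm y)⟩
      map_add' := fun x y => by ext n; simp [add_div]
      map_smul' := fun a y => by ext n; simp [mul_div_assoc] } 2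
    (fun y => by
      refine lp.norm_le_of_tsum_le (by simp) (by positivity) ?_
      refine ((sm y).tsum_le_tsum (bd y) (summable_geometric_two.mul_left _)).trans ?_
      rw [tsum_mul_left, tsum_geometric_two]
      simp only [ENNReal.toReal_ofNat, Real.rpow_ofNat]
      nlinarith [sq_nonneg ‖y‖])

lemma T_apply (y : c0) (n : ℕ) : T y n = y n / 2 ^ n := rfl

lemma T_e (n : ℕ) : ‖T (e n)‖ = (1 / 2) ^ n := by
  have : T (e n) = lp.single 2 n ((1 / 2 : ℝ) ^ n) := by
    ext k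
    rw [T_apply, e_apply, lp.single_apply]
    by_cases h : k = n
    · subst h; simp
    · simp [h]
  rw [this, lp.norm_single (by norm_num)]
  simp

abbrev H := WithLp 2 (l2 × ℝ)

noncomputable def J : (c0 × ℝ) →L[ℝ] H :=
  (WithLp.prodContinuousLinearEquiv 2 ℝ l2 ℝ).symm.toContinuousLinearMap ∘L
    (T.prodMap (ContinuousLinearMap.id ℝ ℝ))

lemma J_norm (x : c0 × ℝ) : ‖J x‖ = √(‖T x.1‖ ^ 2 + ‖x.2‖ ^ 2) := WithLp.prod_norm_eq_of_L2 _

lemma J_inj : Function.Injective J := by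
  refine (injective_iff_map_eq_zero J).2 fun x hx => ?_
  have h1 : T x.1 = 0 := congrArg (fun h : H => h.fst) hx
  have h2 : x.2 = 0 := congrArg (fun h : H => h.snd) hx
  refine Prod.ext ?_ h2
  ext n
  have := T_apply x.1 n
  rw [h1] at this
  simpa using this.symm

noncomputable def d (n : ℕ) : ℝ := 1 / ((n : ℝ) + 1)
lemma d_pos (n : ℕ) : 0 < d n := by unfold d; positivity
lemma d_le (n : ℕ) : d n ≤ 1 := by
  unfold d; rw [div_le_one (by positivity)]; linarith [(Nat.cast_nonneg n : (0:ℝ) ≤ n)]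
lemma d_lim : Tendsto d atTop (𝓝 0) := tendsto_one_div_add_atTop_nhds_zero_nat

noncomputable def q (n : ℕ) : Seminorm ℝ (c0 × ℝ) :=
  absS (fn n (1 - d n) (1 - d n)) + (normSeminorm ℝ H).comp (d n • J).toLinearMap

lemma q_apply (n : ℕ) (x : c0 × ℝ) : q n x = (1 - d n) * |x.1 n + x.2| + d n * ‖J x‖ := by
  show |(1 - d n) * x.1 n + (1 - d n) * x.2| + ‖d n • J x‖ = _
  rw [← mul_add, abs_mul, abs_of_nonneg (sub_nonneg.2 (d_le n)), norm_smul, Real.norm_eq_abs,
    abs_of_pos (d_pos n)]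

lemma co_le (n : ℕ) (x : c0 × ℝ) : |x.1 n + x.2| ≤ 2 * ‖x‖ := by
  simpa using fn_le n 1 1 (by simp) (by simp) x

lemma hq (n : ℕ) (x : c0 × ℝ) : q n x ≤ (2 + ‖J‖) * ‖x‖ := by
  rw [q_apply]
  have h1 := co_le n x
  have h2 := J.le_opNorm x
  have h3 := d_pos n
  have h4 := d_le n
  nlinarith [abs_nonneg (x.1 n + x.2), norm_nonneg (J x)]

noncomputable def p : Seminorm ℝ (c0 × ℝ) := supS q _ hq
lemma le_p (n : ℕ) (x : c0 × ℝ) : q n x ≤ p x := le_supS q _ hq n x
lemma q0 (x : c0 × ℝ) : q 0 x = ‖J x‖ := by rw [q_apply]; simp [d]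
lemma snd_le (x : c0 × ℝ) : |x.2| ≤ ‖J x‖ := by
  rw [J_norm]; exact Real.le_sqrt_of_sq_le (by simp)

noncomputable def N : EqNorm ℝ (c0 × ℝ) where
  p := p
  lower := ⟨3, fun x => by
    have h0 : ‖J x‖ ≤ p x := q0 x ▸ le_p 0 x
    have h1 := (snd_le x).trans h0
    have hp := apply_nonneg p x
    rw [Prod.norm_def]
    refine max_le (norm_le _ (by positivity) fun n => ?_) (by rw [Real.norm_eq_abs]; linarith)
    rcases n with _ | n
    · have h2 : ‖T x.1 0‖ ≤ ‖T x.1‖ := lp.norm_apply_le_norm (by norm_num) _ _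
      have h3 : ‖T x.1‖ ≤ ‖J x‖ := by
        rw [J_norm]; exact Real.le_sqrt_of_sq_le (le_add_of_nonneg_right (sq_nonneg _))
      rw [T_apply] at h2
      simp at h2
      linarith
    · have h2 := le_p (n + 1) x
      rw [q_apply] at h2
      have h3 : d (n + 1) ≤ 1 / 2 := by
        unfold d
        apply one_div_le_one_div_of_le (by norm_num)
        push_cast; linarith [(Nat.cast_nonneg n : (0:ℝ) ≤ n)]
      have h4 : |x.1 (n + 1)| ≤ |x.1 (n + 1) + x.2| + |x.2| := by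
        simpa using abs_sub (x.1 (n + 1) + x.2) x.2
      nlinarith [abs_nonneg (x.1 (n + 1) + x.2), mul_nonneg (d_pos (n + 1)).le (norm_nonneg (J x))]⟩
  upper := ⟨_, fun x => supS_le _ _ _ fun i => hq i x⟩

lemma attain (w : c0 × ℝ) : ∃ n, q n w = p w := by
  by_contra hc
  push Not at hc
  have h1 : ∀ n, q n w < p w := fun n => (le_p n w).lt_of_ne (hc n)
  have h2 : Tendsto (fun n => q n w) atTop (𝓝 |w.2|) := by
    simp only [q_apply]
    have := (((d_lim.const_sub 1).mul ((tendsto_zero w.1).add_const w.2).abs).add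
      (d_lim.mul_const ‖J w‖))
    simpa using this
  have h3 : |w.2| < p w := (snd_le w).trans_lt (q0 w ▸ h1 0)
  obtain ⟨c, hc1, hc2⟩ := exists_between h3
  obtain ⟨M, hM⟩ := eventually_atTop.1 (h2.eventually (gt_mem_nhds hc1))
  obtain ⟨k, -, hk⟩ := (Finset.range (M + 1)).exists_max_image (fun n => q n w) ⟨0, by simp⟩
  have : p w ≤ max c (q k w) := by
    refine supS_le _ _ _ fun n => ?_
    rcases le_total M n with h | h
    · exact le_max_of_le_left (hM n h).le
    · exact le_max_of_le_right (hk n (by simp; omega))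
  exact absurd this (not_le.2 (max_lt hc2 (h1 k)))

theorem main : ∃ (X : Type) (_ : NormedAddCommGroup X) (_ : NormedSpace ℝ X) (x : X),
    CompleteSpace X ∧ (∀ u v : X, ‖u‖ = 1 → ‖v‖ = 1 → ‖u + v‖ = 2 → u = v) ∧ ‖x‖ = 1 ∧
      ∀ (f : X →L[ℝ] ℝ) (α ε : ℝ), ‖f‖ = 1 → 0 < α → 0 < ε →
        ∃ y : X, ‖y‖ ≤ 1 ∧ 1 - α < f y ∧ 2 - ε < ‖x - y‖ := by
  have hn : ∀ x : N.Sp, ‖x‖ = p (N.eqv x) := fun x => rfl
  have hJ1 : ‖J (0, 1)‖ = 1 := by rw [J_norm]; simp
  refine ⟨N.Sp, inferInstance, inferInstance, N.eqv.symm (0, 1), inferInstance, ?_, ?_, ?_⟩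
  · intro u v hu hv huv
    obtain ⟨n, h⟩ := attain (N.eqv (u + v))
    have a1 := le_p n (N.eqv u)
    have a2 := le_p n (N.eqv v)
    rw [← hn, huv, map_add] at h
    rw [← hn] at a1 a2
    rw [q_apply] at h a1 a2
    have a3 : |(N.eqv u + N.eqv v).1 n + (N.eqv u + N.eqv v).2| ≤
        |(N.eqv u).1 n + (N.eqv u).2| + |(N.eqv v).1 n + (N.eqv v).2| := by
      refine le_trans (le_of_eq ?_) (abs_add_le _ _)
      congr 1; simp; ring
    have a4 : ‖J (N.eqv u) + J (N.eqv v)‖ = ‖J (N.eqv u)‖ + ‖J (N.eqv v)‖ := by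
      refine le_antisymm (norm_add_le _ _) ?_
      rw [map_add] at h
      have a5 := mul_le_mul_of_nonneg_left a3 (sub_nonneg.2 (d_le n))
      refine le_of_mul_le_mul_left ?_ (d_pos n)
      linarith
    have a5 : SameRay ℝ (J (N.eqv u)) (J (N.eqv v)) := sameRay_iff_norm_add.2 a4
    have a6 : SameRay ℝ u v :=
      (Function.Injective.sameRay_map_iff (f := J ∘L N.eqv.toContinuousLinearMap)
        (J_inj.comp N.eqv.injective)).1 a5
    exact a6.eq_of_norm_eq (hu.trans hv.symm)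
  · apply le_antisymm
    · refine supS_le q _ hq (x := (0, 1)) fun n => ?_
      rw [q_apply, hJ1]; simp
    · exact le_trans (by rw [q0, hJ1]) (le_p 0 (0, 1))
  · intro f α ε hf hα hε
    obtain ⟨z, hz, hfz⟩ : ∃ z : N.Sp, ‖z‖ < 1 ∧ 1 - α < f z := by
      obtain ⟨z, hz, h⟩ := f.exists_lt_apply_of_lt_opNorm (r := 1 - α) (by linarith)
      rw [Real.norm_eq_abs, lt_abs] at h
      rcases h with h | h
      · exact ⟨z, hz, h⟩
      · exact ⟨-z, by simpa using hz, by simpa using h⟩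
    set y := N.eqv z with hy
    let c : ℕ → ℝ := fun n => -1 - (y.1 n + y.2)
    have hc : ∀ n, |c n| ≤ 1 + 2 * ‖y‖ := fun n => by
      have := abs_sub (-1) (y.1 n + y.2)
      simp only [abs_neg, abs_one] at this
      linarith [co_le n y]
    let I : c0 →L[ℝ] N.Sp := N.eqv.symm.toContinuousLinearMap ∘L ContinuousLinearMap.inl ℝ c0 ℝ
    let w : ℕ → N.Sp := fun n => z + c n • I (e n)
    have hw0 : ∀ n, N.eqv (w n) = y + c n • (e n, 0) := by
      intro n; simp only [w, I, map_add, map_smul, ← hy]; simp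
    have hw1 : ∀ n k, (N.eqv (w n)).1 k + (N.eqv (w n)).2 =
        if k = n then -1 else y.1 k + y.2 := by
      intro n k
      rw [hw0]
      simp [e_apply]
      split_ifs with h
      · simp [h, c]; ring
      · simp
    have hw2 : ∀ n, ‖J (N.eqv (w n))‖ ≤ ‖J y‖ + (1 + 2 * ‖y‖) * (1 / 2) ^ n := by
      intro n
      rw [hw0, map_add, map_smul]
      refine (norm_add_le _ _).trans ?_
      have : ‖J (e n, 0)‖ = (1 / 2) ^ n := by rw [J_norm, T_e]; simp
      rw [norm_smul, this, Real.norm_eq_abs]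
      gcongr; exact hc n
    have l1 : Tendsto (fun n : ℕ => (1 + 2 * ‖y‖) * (1 / 2 : ℝ) ^ n) atTop (𝓝 0) := by
      simpa using (tendsto_pow_atTop_nhds_zero_of_lt_one (r := (1 / 2 : ℝ)) (by norm_num)
        (by norm_num)).const_mul (1 + 2 * ‖y‖)
    obtain ⟨n, ⟨h1, h2⟩, h3⟩ := (((l1.eventually (gt_mem_nhds (sub_pos.2 hz))).and
      ((pert_weak I z c _ hc f).eventually (lt_mem_nhds hfz))).and
      (d_lim.eventually (gt_mem_nhds (half_pos hε)))).exists
    refine ⟨w n, ?_, h2, ?_⟩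
    · refine supS_le q _ hq (x := N.eqv (w n)) fun k => ?_
      have a1 := le_p k y
      have a0 : ‖J y‖ ≤ p y := q0 y ▸ le_p 0 y
      rw [hy, ← hn, ← hy] at a1 a0
      have a2 := hw2 n
      have a3 := d_pos k
      have a4 := d_le k
      have a5 : 0 ≤ (1 + 2 * ‖y‖) * (1 / 2 : ℝ) ^ n := by positivity
      rw [q_apply] at a1 ⊢
      rw [hw1]
      split_ifs
      · simp only [abs_neg, abs_one]; nlinarith
      · nlinarith
    · have a1 := le_p n (N.eqv (N.eqv.symm (0, 1) - w n))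
      rw [← hn, q_apply] at a1
      have a2 : (N.eqv (N.eqv.symm (0, 1) - w n)).1 n + (N.eqv (N.eqv.symm (0, 1) - w n)).2 = 2 := by
        have := hw1 n n
        rw [if_pos rfl] at this
        rw [map_sub]; simp; linarith
      rw [a2, abs_two] at a1
      nlinarith [mul_nonneg (d_pos n).le (norm_nonneg (J (N.eqv (N.eqv.symm (0, 1) - w n))))]

end H91.StrictDaug
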