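import Mathlib
import Pool.Agent.H91.Renorm

set_option autoImplicit false

namespace Pool.Agent.H91.StrongSub

open Filter Topology Set Asymptotics
open scoped RealInnerProductSpace ENNReal

section General

variable {H : Type} [NormedAddCommGroup H] [InnerProductSpace ℝ H]

lemma hasDerivAt_abs_cube (s : ℝ) : HasDerivAt (fun s : ℝ => |s| ^ 3) (3 * (|s| * s)) s := by
  have h := hasDerivAt_abs_rpow s (p := 3) (by norm_num)
  have e : (fun x : ℝ => |x| ^ (3 : ℝ)) = fun x : ℝ => |x| ^ 3 := by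
    funext x; exact_mod_cast Real.rpow_natCast |x| 3
  rw [e] at h
  refine h.congr_deriv ?_
  norm_num; ring

lemma hasDerivAt_norm_cube (g x : H) :
    HasDerivAt (fun a : ℝ => ‖g + a • x‖ ^ 3) (3 * (‖g‖ * ⟪g, x⟫)) 0 := by
  have h := hasFDerivAt_norm_rpow (g + (0 : ℝ) • x) (p := 3) (by norm_num)
  have h1 : HasDerivAt (fun a : ℝ => g + a • x) x 0 := by
    simpa using ((hasDerivAt_id (0 : ℝ)).smul_const x).const_add g
  have h2 := h.comp_hasDerivAt (0 : ℝ) h1
  have e : ((fun x : H => ‖x‖ ^ (3 : ℝ)) ∘ fun a : ℝ => g + a • x)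
      = fun a : ℝ => ‖g + a • x‖ ^ 3 := by
    funext a; exact_mod_cast Real.rpow_natCast ‖g + a • x‖ 3
  rw [e] at h2
  refine h2.congr_deriv ?_
  norm_num; ring

lemma geo_summable (C : ℝ) : Summable (fun n : ℕ => C * (1 / 2 : ℝ) ^ n) :=
  summable_geometric_two.mul_left C

lemma half_pow_le (n : ℕ) : (1 / 2 : ℝ) ^ n ≤ 1 := pow_le_one₀ (by norm_num) (by norm_num)

variable (b : ℕ → H →ₗ[ℝ] ℝ) (hb : ∀ n w, |b n w| ≤ 2 * ‖w‖ * (1 / 2) ^ n)

include hb in
lemma b_le (n : ℕ) (w : H) : |b n w| ≤ 2 * ‖w‖ := by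
  have := hb n w
  have h2 := half_pow_le n
  nlinarith [norm_nonneg w]

include hb in
lemma cube_summable (w : H) : Summable (fun n => |b n w| ^ 3) := by
  refine Summable.of_nonneg_of_le (fun n => by positivity) (fun n => ?_)
    (geo_summable ((2 * ‖w‖) ^ 2 * (2 * ‖w‖)))
  have h1 := b_le b hb n w
  have h2 := hb n w
  calc |b n w| ^ 3 = |b n w| ^ 2 * |b n w| := by ring
    _ ≤ (2 * ‖w‖) ^ 2 * (2 * ‖w‖ * (1 / 2) ^ n) := by gcongr
    _ = _ := by ring

include hb in
lemma first_order (g x : H)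
    (h : ∀ a : ℝ, ‖g‖ ^ 3 + ∑' n, |b n g| ^ 3 ≤ ‖g + a • x‖ ^ 3 + ∑' n, |b n (g + a • x)| ^ 3) :
    ‖g‖ * ⟪g, x⟫ + ∑' n, |b n g| * b n g * b n x = 0 := by
  have h1 := hasDerivAt_norm_cube g x
  have h2 : HasDerivAt (fun a : ℝ => ∑' n, |b n g + a * b n x| ^ 3)
      (∑' n, 3 * (|b n g + 0 * b n x| * (b n g + 0 * b n x)) * b n x) 0 := by
    apply hasDerivAt_tsum_of_isPreconnected
      (u := fun n : ℕ => (3 * (2 * ‖g‖ + 2 * ‖x‖) ^ 2 * (2 * ‖x‖)) * (1 / 2 : ℝ) ^ n)
      (t := Ioo (-1) 1) (y₀ := 0) (g := fun n a => |b n g + a * b n x| ^ 3)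
      (g' := fun n a => 3 * (|b n g + a * b n x| * (b n g + a * b n x)) * b n x)
      (geo_summable _) isOpen_Ioo isPreconnected_Ioo
    · intro n y _
      have d : HasDerivAt (fun a : ℝ => b n g + a * b n x) (b n x) y := by
        simpa using ((hasDerivAt_id y).mul_const (b n x)).const_add (b n g)
      exact (hasDerivAt_abs_cube _).comp y d
    · intro n y hy
      have e1 : |b n g + y * b n x| ≤ 2 * ‖g‖ + 2 * ‖x‖ := by
        refine le_trans (abs_add_le _ _) ?_
        rw [abs_mul]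
        have : |y| ≤ 1 := abs_le.mpr ⟨hy.1.le, hy.2.le⟩
        have h3 := b_le b hb n g
        have h4 := b_le b hb n x
        nlinarith [abs_nonneg (b n x), abs_nonneg y]
      have e2 := hb n x
      rw [Real.norm_eq_abs, abs_mul, abs_mul, abs_mul, abs_abs]
      calc |3| * (|b n g + y * b n x| * |b n g + y * b n x|) * |b n x|
          = 3 * |b n g + y * b n x| ^ 2 * |b n x| := by rw [abs_of_pos (by norm_num : (0 : ℝ) < 3)]; ring
        _ ≤ 3 * (2 * ‖g‖ + 2 * ‖x‖) ^ 2 * (2 * ‖x‖ * (1 / 2) ^ n) := by gcongr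
        _ = _ := by ring
    · simp
    · simpa using cube_summable b hb g
    · simp
  have h3 := h1.add h2
  have h4 : IsLocalMin ((fun a : ℝ => ‖g + a • x‖ ^ 3) + fun a : ℝ => ∑' n, |b n g + a * b n x| ^ 3) 0 := by
    apply Filter.Eventually.of_forall
    intro a
    have := h a
    simp only [map_add, map_smul, smul_eq_mul] at this
    simpa using this
  have h5 := h4.hasDerivAt_eq_zero h3
  simp only [zero_mul, add_zero, mul_assoc, tsum_mul_left] at h5 ⊢
  linarith

/-- a difference quotient that sees jumps of the second derivative -/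
def D (φ : ℝ → ℝ) (t d : ℝ) : ℝ := φ (t + 2 * d) - 2 * φ (t + d) + 2 * φ (t - d) - φ (t - 2 * d)

lemma D_smooth (φ : ℝ → ℝ) (hφ : ContDiff ℝ 2 φ) (t : ℝ) :
    Tendsto (fun d => D φ t d / d ^ 2) (𝓝[>] 0) (𝓝 0) := by
  have h := taylor_isLittleO_univ (x₀ := t) (n := 2) hφ
  obtain ⟨c0, c1, c2, hc⟩ : ∃ c0 c1 c2 : ℝ, ∀ x, taylorWithinEval φ 2 univ t x
      = c0 + c1 * (x - t) + c2 * (x - t) ^ 2 := by
    refine ⟨φ t, iteratedDerivWithin 1 φ univ t, iteratedDerivWithin 2 φ univ t / 2, fun x => ?_⟩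
    rw [taylor_within_apply]
    simp [Finset.sum_range_succ]; ring
  simp only [hc] at h
  have key : ∀ k : ℝ, (fun d : ℝ => φ (t + k * d) - (c0 + c1 * (k * d) + c2 * (k * d) ^ 2))
      =o[𝓝 0] fun d : ℝ => d ^ 2 := by
    intro k
    have ht : Tendsto (fun d : ℝ => t + k * d) (𝓝 0) (𝓝 t) := by
      have : Continuous (fun d : ℝ => t + k * d) := by fun_prop
      simpa using this.tendsto 0
    have h2 := h.comp_tendsto ht
    have h3 : ((fun x : ℝ => (x - t) ^ 2) ∘ fun d : ℝ => t + k * d) =O[𝓝 0] fun d : ℝ => d ^ 2 := by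
      have : ((fun x : ℝ => (x - t) ^ 2) ∘ fun d : ℝ => t + k * d) = fun d => k ^ 2 * d ^ 2 := by
        funext d; simp; ring
      rw [this]
      exact (isBigO_refl _ _).const_mul_left _
    refine (h2.trans_isBigO h3).congr_left ?_
    intro d; simp
  have h5 := (((key 2).sub ((key 1).const_mul_left 2)).add ((key (-1)).const_mul_left 2)).sub
    (key (-2))
  have h6 : (fun d => D φ t d) =o[𝓝 0] fun d : ℝ => d ^ 2 := by
    refine h5.congr_left ?_
    intro d
    simp only [D, one_mul, neg_mul, ← sub_eq_add_neg]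
    ring
  exact h6.tendsto_div_nhds_zero.mono_left nhdsWithin_le_nhds

def psi (s : ℝ) : ℝ := |s| * s

lemma psi_far (s d : ℝ) (h : 2 * |d| ≤ |s|) :
    psi (s + 2 * d) - 2 * psi (s + d) + 2 * psi (s - d) - psi (s - 2 * d) = 0 := by
  have h1 := le_abs_self d
  have h2 := neg_abs_le d
  have h3 := abs_nonneg d
  unfold psi
  rcases le_total 0 s with hs | hs
  · rw [abs_of_nonneg hs] at h
    rw [abs_of_nonneg (by linarith), abs_of_nonneg (by linarith), abs_of_nonneg (by linarith),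
      abs_of_nonneg (by linarith)]
    ring
  · rw [abs_of_nonpos hs] at h
    rw [abs_of_nonpos (by linarith), abs_of_nonpos (by linarith), abs_of_nonpos (by linarith),
      abs_of_nonpos (by linarith)]
    ring

lemma psi_bound (s d : ℝ) :
    |psi (s + 2 * d) - 2 * psi (s + d) + 2 * psi (s - d) - psi (s - 2 * d)| ≤ 96 * d ^ 2 := by
  rcases le_total (2 * |d|) |s| with h | h
  · rw [psi_far s d h]; simp; positivity
  · have hb : ∀ r : ℝ, |r| ≤ 4 * |d| → |psi r| ≤ 16 * d ^ 2 := by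
      intro r hr
      unfold psi
      rw [abs_mul, abs_abs, ← sq_abs d]
      nlinarith [abs_nonneg r, abs_nonneg d]
    have h0 := abs_nonneg d
    have e2 : |2 * d| = 2 * |d| := by rw [abs_mul]; simp
    have a1 := hb (s + 2 * d) (by linarith [abs_add_le s (2 * d)])
    have a2 := hb (s + d) (by linarith [abs_add_le s d])
    have a3 := hb (s - d) (by linarith [abs_sub s d])
    have a4 := hb (s - 2 * d) (by linarith [abs_sub s (2 * d)])
    rw [abs_le] at a1 a2 a3 a4 ⊢
    constructor <;> linarith [a1.1, a1.2, a2.1, a2.2, a3.1, a3.2, a4.1, a4.2]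

include hb in
lemma jump (u v x : H) (hne : ∀ t : ℝ, u + t • v ≠ 0)
    (h : ∀ t : ℝ, ‖u + t • v‖ * ⟪u + t • v, x⟫
      + ∑' n, |b n (u + t • v)| * b n (u + t • v) * b n x = 0)
    (n0 : ℕ) (t0 : ℝ) (h0 : b n0 u + t0 * b n0 v = 0)
    (huniq : ∀ m, m ≠ n0 → b m u + t0 * b m v = 0 → b m v = 0) :
    psi (b n0 v) * b n0 x = 0 := by
  set A : ℝ → ℝ := fun t => ‖u + t • v‖ * ⟪u + t • v, x⟫ with hA
  have hAc : ContDiff ℝ 2 A := by
    have h1 : ContDiff ℝ 2 (fun t : ℝ => u + t • v) := by fun_prop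
    exact (h1.norm ℝ hne).mul (h1.inner ℝ contDiff_const)
  set φ : ℕ → ℝ → ℝ := fun n t => psi (b n u + t * b n v) * b n x with hφ
  have hsum : ∀ t, Summable (fun n => φ n t) := by
    intro t
    refine Summable.of_norm_bounded (geo_summable ((2 * ‖u + t • v‖) ^ 2 * (2 * ‖x‖))) fun n => ?_
    have h1 := b_le b hb n (u + t • v)
    have h2 := hb n x
    simp only [map_add, map_smul, smul_eq_mul] at h1
    simp only [hφ, psi, Real.norm_eq_abs, abs_mul, abs_abs]
    calc |b n u + t * b n v| * |b n u + t * b n v| * |b n x|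
        = |b n u + t * b n v| ^ 2 * |b n x| := by ring
      _ ≤ (2 * ‖u + t • v‖) ^ 2 * (2 * ‖x‖ * (1 / 2) ^ n) := by gcongr
      _ = _ := by ring
  have hz : ∀ t, ∑' n, φ n t = -A t := by
    intro t
    have := h t
    simp only [map_add, map_smul, smul_eq_mul] at this
    simp only [hφ, psi, hA]
    linarith
  have hD : ∀ d, ∑' n, D (φ n) t0 d / d ^ 2 = -(D A t0 d / d ^ 2) := by
    intro d
    rw [tsum_div_const]
    have : ∑' n, D (φ n) t0 d = -D A t0 d := by
      unfold D
      rw [Summable.tsum_sub (((hsum _).sub ((hsum _).mul_left 2)).add ((hsum _).mul_left 2)) (hsum _),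
        Summable.tsum_add ((hsum _).sub ((hsum _).mul_left 2)) ((hsum _).mul_left 2),
        Summable.tsum_sub (hsum _) ((hsum _).mul_left 2), tsum_mul_left, tsum_mul_left,
        hz, hz, hz, hz]
      ring
    rw [this]; ring
  have hDφ : ∀ n d, D (φ n) t0 d = (psi (b n u + t0 * b n v + 2 * (d * b n v))
      - 2 * psi (b n u + t0 * b n v + d * b n v) + 2 * psi (b n u + t0 * b n v - d * b n v)
      - psi (b n u + t0 * b n v - 2 * (d * b n v))) * b n x := by
    intro n d
    simp only [D, hφ]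
    rw [show b n u + (t0 + 2 * d) * b n v = b n u + t0 * b n v + 2 * (d * b n v) by ring,
      show b n u + (t0 + d) * b n v = b n u + t0 * b n v + d * b n v by ring,
      show b n u + (t0 - d) * b n v = b n u + t0 * b n v - d * b n v by ring,
      show b n u + (t0 - 2 * d) * b n v = b n u + t0 * b n v - 2 * (d * b n v) by ring]
    ring
  have hlim : Tendsto (fun d => ∑' n, D (φ n) t0 d / d ^ 2) (𝓝[>] 0)
      (𝓝 (∑' n, if n = n0 then 4 * (psi (b n0 v) * b n0 x) else 0)) := by
    apply tendsto_tsum_of_dominated_convergence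
      (bound := fun n : ℕ => (96 * (2 * ‖v‖) ^ 2 * (2 * ‖x‖)) * (1 / 2 : ℝ) ^ n) (geo_summable _)
    · intro n
      by_cases hn : n = n0
      · subst hn
        simp only [if_true]
        apply tendsto_const_nhds.congr'
        filter_upwards [self_mem_nhdsWithin] with d hd
        have hd0 : 0 < d := hd
        rw [hDφ, h0]
        simp only [psi, zero_add, zero_sub, abs_neg, abs_mul, abs_of_pos hd0, abs_two]
        field_simp
        ring
      · simp only [hn, if_false]
        apply tendsto_const_nhds.congr'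
        by_cases hs : b n u + t0 * b n v = 0
        · have := huniq n hn hs
          apply Eventually.of_forall
          intro d
          simp only
          rw [hDφ, psi_far _ _ (by simp [this])]; simp
        · have hc : Tendsto (fun d : ℝ => 2 * |d * b n v|) (𝓝[>] 0) (𝓝 0) := by
            have : Continuous (fun d : ℝ => 2 * |d * b n v|) := by fun_prop
            simpa using (this.tendsto 0).mono_left nhdsWithin_le_nhds
          filter_upwards [hc.eventually (ge_mem_nhds (abs_pos.mpr hs))] with d hd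
          rw [hDφ, psi_far _ _ hd]; simp
    · filter_upwards [self_mem_nhdsWithin] with d hd n
      have hd0 : 0 < d := hd
      rw [hDφ, Real.norm_eq_abs, abs_div, abs_mul, abs_of_pos (pow_pos hd0 2),
        div_le_iff₀ (pow_pos hd0 2)]
      have h1 := psi_bound (b n u + t0 * b n v) (d * b n v)
      have h2 := hb n x
      have h3 : (b n v) ^ 2 ≤ (2 * ‖v‖) ^ 2 := by
        rw [← sq_abs]; gcongr; exact b_le b hb n v
      calc _ ≤ 96 * (d * b n v) ^ 2 * (2 * ‖x‖ * (1 / 2) ^ n) := by gcongr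
        _ = 96 * d ^ 2 * (b n v) ^ 2 * (2 * ‖x‖ * (1 / 2) ^ n) := by ring
        _ ≤ 96 * d ^ 2 * (2 * ‖v‖) ^ 2 * (2 * ‖x‖ * (1 / 2) ^ n) := by gcongr
        _ = _ := by ring
  simp only [hD] at hlim
  have h7 := tendsto_nhds_unique hlim (D_smooth A hAc t0).neg
  rw [tsum_ite_eq] at h7
  linarith

end General

lemma eventually_unique (τ : ℕ → ℝ) (h1 : ∀ᶠ n in atTop, |τ (n + 1)| < |τ n|)
    (h2 : Tendsto τ atTop (𝓝 0)) : ∀ᶠ n in atTop, ∀ m, m ≠ n → τ m ≠ τ n := by
  obtain ⟨N, hN⟩ := eventually_atTop.mp h1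
  have hanti : StrictAnti (fun k => |τ (k + N)|) := by
    apply strictAnti_nat_of_succ_lt
    intro k
    have := hN (k + N) (by omega)
    rwa [show k + N + 1 = k + 1 + N by ring] at this
  have h3 : ∀ᶠ n in atTop, ∀ m ∈ Finset.range N, τ m ≠ τ n := by
    rw [Filter.eventually_all_finset]
    intro m _
    by_cases hm : τ m = 0
    · filter_upwards [h1] with n hn
      rw [hm]
      intro h
      rw [← h, abs_zero] at hn
      exact absurd hn (not_lt.mpr (abs_nonneg _))
    · filter_upwards [h2.eventually_ne (Ne.symm hm)] with n hn using hn.symm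
  filter_upwards [h3, eventually_ge_atTop N] with n hn hnN m hm
  by_cases hmN : m < N
  · exact hn m (Finset.mem_range.mpr hmN)
  · intro h
    have : m - N = n - N := by
      apply hanti.injective
      simp only
      rw [Nat.sub_add_cancel (by omega), Nat.sub_add_cancel hnN, h]
    omega

abbrev H := lp (fun _ : ℕ => ℝ) 2

lemma H_le (w : H) (k : ℕ) : |w k| ≤ ‖w‖ := lp.norm_apply_le_norm (by norm_num) w k

noncomputable def lam (n : ℕ) : ℝ := (1 / 2) ^ (n + 1)

lemma lam_pos (n : ℕ) : 0 < lam n := by unfold lam; positivity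

lemma lam_le (n : ℕ) : lam n ≤ 1 / 2 := by
  unfold lam; rw [pow_succ]; nlinarith [half_pow_le n]

lemma lam_tendsto : Tendsto lam atTop (𝓝 0) :=
  (tendsto_add_atTop_iff_nat 1).mpr
    (tendsto_pow_atTop_nhds_zero_of_lt_one (by norm_num) (by norm_num))

lemma term_le (w : H) (n k j : ℕ) : ‖w j * lam n ^ k‖ ≤ ‖w‖ * (1 / 2) ^ k := by
  rw [Real.norm_eq_abs, abs_mul, abs_of_pos (pow_pos (lam_pos n) k)]
  have := H_le w j
  have h2 := lam_le n
  have h3 := lam_pos n
  gcongr

lemma F_summable (w : H) (n : ℕ) : Summable (fun k => w k * lam n ^ k) :=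
  Summable.of_norm_bounded (geo_summable ‖w‖) fun k => term_le w n k k

noncomputable def F (w : H) (n : ℕ) : ℝ := ∑' k, w k * lam n ^ k

lemma tail_le (w : H) (n i : ℕ) : |∑' k, w (k + i) * lam n ^ k| ≤ 2 * ‖w‖ := by
  have := tsum_of_norm_bounded (hasSum_geometric_two.mul_left ‖w‖) (fun k => term_le w n k (k + i))
  rw [Real.norm_eq_abs] at this
  linarith

lemma F_tendsto (w : H) (i : ℕ) (hi : ∀ k < i, w k = 0) :
    Tendsto (fun n => F w n / lam n ^ i) atTop (𝓝 (w i)) := by
  have e : ∀ n, F w n / lam n ^ i = w i + lam n * ∑' k, w (k + (i + 1)) * lam n ^ k := by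
    intro n
    have h0 := (lam_pos n).ne'
    unfold F
    rw [← (F_summable w n).sum_add_tsum_nat_add (i + 1), Finset.sum_range_succ,
      Finset.sum_eq_zero (fun k hk => by rw [hi k (Finset.mem_range.mp hk), zero_mul])]
    have : ∑' k, w (k + (i + 1)) * lam n ^ (k + (i + 1))
        = lam n ^ (i + 1) * ∑' k, w (k + (i + 1)) * lam n ^ k := by
      rw [← tsum_mul_left]; congr 1; funext k; ring
    rw [this]
    field_simp
    ring
  simp only [e]
  have : Tendsto (fun n => lam n * ∑' k, w (k + (i + 1)) * lam n ^ k) atTop (𝓝 0) := by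
    apply squeeze_zero_norm (a := fun n => lam n * (2 * ‖w‖))
    · intro n
      rw [Real.norm_eq_abs, abs_mul, abs_of_pos (lam_pos n)]
      exact mul_le_mul_of_nonneg_left (tail_le w n _) (lam_pos n).le
    · simpa using lam_tendsto.mul_const (2 * ‖w‖)
  simpa using this.const_add (w i)

noncomputable def b (n : ℕ) : H →ₗ[ℝ] ℝ where
  toFun w := (1 / 2) ^ n * F w n
  map_add' x y := by
    unfold F
    rw [← mul_add, ← Summable.tsum_add (F_summable x n) (F_summable y n)]
    congr 2; funext k; simp [add_mul]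
  map_smul' c x := by
    unfold F
    simp only [RingHom.id_apply, smul_eq_mul]
    rw [mul_left_comm c, ← tsum_mul_left (a := c)]
    congr 2; funext k; simp [mul_assoc]

lemma b_apply (n : ℕ) (w : H) : b n w = (1 / 2) ^ n * F w n := rfl

lemma hb (n : ℕ) (w : H) : |b n w| ≤ 2 * ‖w‖ * (1 / 2) ^ n := by
  rw [b_apply, abs_mul, abs_of_pos (by positivity : (0 : ℝ) < (1 / 2) ^ n), mul_comm]
  have := tail_le w n 0
  simp only [add_zero] at this
  unfold F
  gcongr

lemma exists_ord (w : H) (hw : w ≠ 0) : ∃ i, w i ≠ 0 ∧ ∀ k < i, w k = 0 := by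
  have h : ∃ i, w i ≠ 0 := by
    by_contra h
    push Not at h
    exact hw (lp.ext (funext h))
  classical
  exact ⟨Nat.find h, Nat.find_spec h, fun k hk => not_not.mp (Nat.find_min h hk)⟩

lemma F_ne (w : H) (i : ℕ) (hi : ∀ k < i, w k = 0) (h : w i ≠ 0) : ∀ᶠ n in atTop, F w n ≠ 0 := by
  filter_upwards [(F_tendsto w i hi).eventually_ne h] with n hn h0
  rw [h0, zero_div] at hn
  exact hn rfl

lemma exists_point (u v x : H) (hx : x ≠ 0) (i j : ℕ) (hij : j < i) (hu : u i ≠ 0)
    (hu0 : ∀ k < i, u k = 0) (hv : v j ≠ 0) (hv0 : ∀ k < j, v k = 0) :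
    ∃ (n0 : ℕ) (t0 : ℝ), b n0 u + t0 * b n0 v = 0 ∧
      (∀ m, m ≠ n0 → b m u + t0 * b m v = 0 → b m v = 0) ∧ psi (b n0 v) * b n0 x ≠ 0 := by
  obtain ⟨l, hl, hl0⟩ := exists_ord x hx
  obtain ⟨d, rfl⟩ : ∃ d, i = j + (d + 1) := ⟨i - j - 1, by omega⟩
  set τ : ℕ → ℝ := fun n => -(F u n / F v n) with hτ
  set c : ℝ := |u (j + (d + 1)) / v j| with hc
  have hc0 : 0 < c := abs_pos.mpr (div_ne_zero hu hv)
  have hr : Tendsto (fun n => |τ n| / lam n ^ (d + 1)) atTop (𝓝 c) := by
    have := ((F_tendsto u _ hu0).div (F_tendsto v j hv0) hv).abs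
    refine this.congr fun n => ?_
    have h0 := lam_pos n
    simp only [hτ, Pi.div_apply, abs_neg]
    rw [← abs_of_pos (pow_pos h0 (d + 1)), ← abs_div]
    congr 1
    by_cases hF : F v n = 0
    · simp [hF]
    · field_simp
      ring
  have hlo := hr.eventually (lt_mem_nhds (show 3 / 4 * c < c by linarith))
  have hhi := ((tendsto_add_atTop_iff_nat 1).mpr hr).eventually
    (gt_mem_nhds (show c < 5 / 4 * c by linarith))
  have h1 : ∀ᶠ n in atTop, |τ (n + 1)| < |τ n| := by
    filter_upwards [hlo, hhi] with n h1 h2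
    have h0 := pow_pos (lam_pos n) (d + 1)
    rw [lt_div_iff₀ h0] at h1
    rw [div_lt_iff₀ (pow_pos (lam_pos _) _)] at h2
    have e : lam (n + 1) ^ (d + 1) ≤ lam n ^ (d + 1) * (1 / 2) := by
      have : lam (n + 1) = lam n * (1 / 2) := by unfold lam; rw [pow_succ]
      rw [this, mul_pow, pow_succ (1 / 2 : ℝ)]
      have := half_pow_le d
      nlinarith
    nlinarith
  have h2 : Tendsto τ atTop (𝓝 0) := by
    rw [tendsto_zero_iff_abs_tendsto_zero]
    have h3 := hr.mul (lam_tendsto.pow (d + 1))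
    simp only [ne_eq, Nat.add_eq_zero_iff, one_ne_zero, and_false, not_false_eq_true, zero_pow,
      mul_zero] at h3
    refine h3.congr fun n => ?_
    have h0 := (pow_pos (lam_pos n) (d + 1)).ne'
    simp only [Function.comp]
    field_simp
  obtain ⟨n, hn1, hn2, hn3⟩ := ((eventually_unique τ h1 h2).and
    ((F_ne v j hv0 hv).and (F_ne x l hl0 hl))).exists
  have hp : ∀ n : ℕ, (1 / 2 : ℝ) ^ n ≠ 0 := fun n => by positivity
  refine ⟨n, τ n, ?_, ?_, ?_⟩
  · simp only [b_apply, hτ]; field_simp; ring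
  · intro m hm h
    by_contra hne
    apply hn1 m hm
    have hF : F v m ≠ 0 := by
      intro h0; apply hne; rw [b_apply, h0, mul_zero]
    simp only [b_apply] at h
    have h4 : F u m + τ n * F v m = 0 := by
      apply mul_left_cancel₀ (hp m); linear_combination h
    show -(F u m / F v m) = τ n
    field_simp
    linear_combination -h4
  · have h5 : b n v ≠ 0 := mul_ne_zero (hp n) hn2
    exact mul_ne_zero (mul_ne_zero (abs_ne_zero.mpr h5) h5) (mul_ne_zero (hp n) hn3)

instance : Fact (1 ≤ (3 : ℝ≥0∞)) := ⟨by norm_num⟩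

abbrev L3 := lp (fun _ : ℕ => ℝ) 3

lemma rpow3 (a : ℝ) : a ^ (3 : ℝ≥0∞).toReal = a ^ 3 := by
  have : (3 : ℝ≥0∞).toReal = ((3 : ℕ) : ℝ) := by norm_num
  rw [this, Real.rpow_natCast]

noncomputable def T : H →ₗ[ℝ] L3 where
  toFun w := ⟨fun n => b n w, by
    apply memℓp_gen
    simp only [rpow3, Real.norm_eq_abs]
    exact cube_summable b hb w⟩
  map_add' x y := lp.ext (funext fun n => map_add (b n) x y)
  map_smul' c x := lp.ext (funext fun n => map_smul (b n) c x)

noncomputable def J : H →ₗ[ℝ] WithLp 3 (H × L3) :=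
  (WithLp.linearEquiv 3 ℝ (H × L3)).symm.toLinearMap ∘ₗ (LinearMap.id.prod T)

lemma J_norm (w : H) : ‖J w‖ ^ 3 = ‖w‖ ^ 3 + ∑' n, |b n w| ^ 3 := by
  have h := WithLp.prod_norm_eq_add (p := 3) (by norm_num) (J w)
  have h2 := lp.norm_rpow_eq_tsum (p := 3) (by norm_num) (T w)
  have e1 : (J w).fst = w := rfl
  have e2 : (J w).snd = T w := rfl
  rw [e1, e2, h2] at h
  simp only [rpow3, Real.norm_eq_abs] at h
  rw [h, ← rpow3, ← Real.rpow_mul (by positivity)]
  norm_num
  rfl

noncomputable def N : Renorm.EqNorm ℝ H where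
  p := (normSeminorm ℝ (WithLp 3 (H × L3))).comp J
  lower := ⟨1, fun w => by
    rw [one_mul]
    show ‖w‖ ≤ ‖J w‖
    apply le_of_pow_le_pow_left₀ (n := 3) (by norm_num) (norm_nonneg _)
    rw [J_norm]
    have : 0 ≤ ∑' n, |b n w| ^ 3 := tsum_nonneg fun n => by positivity
    linarith⟩
  upper := ⟨3, fun w => by
    show ‖J w‖ ≤ 3 * ‖w‖
    apply le_of_pow_le_pow_left₀ (n := 3) (by norm_num) (by positivity)
    rw [J_norm]
    have h1 : ∑' n, |b n w| ^ 3 ≤ ((2 * ‖w‖) ^ 2 * (2 * ‖w‖)) * 2 := by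
      rw [← (hasSum_geometric_two.mul_left _).tsum_eq]
      refine Summable.tsum_le_tsum (fun n => ?_) (cube_summable b hb w) (geo_summable _)
      have h1 := b_le b hb n w
      have h2 := hb n w
      calc |b n w| ^ 3 = |b n w| ^ 2 * |b n w| := by ring
        _ ≤ (2 * ‖w‖) ^ 2 * (2 * ‖w‖ * (1 / 2) ^ n) := by gcongr
        _ = _ := by ring
    have : 0 ≤ ‖w‖ ^ 3 := by positivity
    nlinarith⟩

lemma H_inf : ¬ FiniteDimensional ℝ H := by
  intro h
  have h1 : LinearIndependent ℝ (fun i : ℕ => (lp.single 2 i (1 : ℝ) : H)) := by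
    have : Orthonormal ℝ (fun i : ℕ => (lp.single 2 i (1 : ℝ) : H)) := by
      rw [orthonormal_iff_ite]
      intro i j
      rw [lp.inner_single_left, lp.single_apply]
      by_cases hij : i = j
      · subst hij; simp
      · simp [hij]
    exact this.linearIndependent
  exact Module.Finite.not_linearIndependent_of_infinite _ h1

lemma main (G : Submodule ℝ H) (hG : 2 ≤ Module.rank ℝ G) (x : H) (hx : x ≠ 0)
    (h : ∀ g ∈ G, ∀ a : ℝ, ‖J g‖ ≤ ‖J (g + a • x)‖) : False := by
  have hr : ¬ Module.rank ℝ G ≤ 1 := fun h1 => absurd (hG.trans h1) (by norm_num)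
  rw [rank_le_one_iff] at hr
  push Not at hr
  have hex : ∃ j, ∃ w ∈ G, w j ≠ 0 := by
    obtain ⟨w, hw⟩ := hr 0
    have hw0 : (w : H) ≠ 0 := by
      intro h0; apply hw 0; rw [smul_zero]; exact (Subtype.ext h0).symm
    obtain ⟨i, hi, _⟩ := exists_ord w hw0
    exact ⟨i, w, w.2, hi⟩
  classical
  obtain ⟨v, hvG, hv⟩ := Nat.find_spec hex
  set j := Nat.find hex with hj
  have hmin : ∀ w ∈ G, ∀ k < j, w k = 0 := by
    intro w hw k hk
    by_contra hne
    exact Nat.find_min hex hk ⟨w, hw, hne⟩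
  obtain ⟨w, hw⟩ := hr ⟨v, hvG⟩
  set u : H := w - ((w : H) j / v j) • v with hu
  have huG : u ∈ G := G.sub_mem w.2 (G.smul_mem _ hvG)
  have hu0 : u ≠ 0 := by
    intro h0
    apply hw ((w : H) j / v j)
    apply Subtype.ext
    exact (sub_eq_zero.mp h0).symm
  have huj : u j = 0 := by
    simp only [hu, lp.coeFn_sub, lp.coeFn_smul, Pi.sub_apply, Pi.smul_apply, smul_eq_mul]
    field_simp; ring
  obtain ⟨i, hi, hi0⟩ := exists_ord u hu0
  have hij : j < i := by
    rcases lt_trichotomy j i with h1 | h1 | h1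
    · exact h1
    · exact absurd (h1 ▸ huj) hi
    · exact absurd (hmin u huG i h1) hi
  obtain ⟨n0, t0, h1, h2, h3⟩ := exists_point u v x hx i j hij hi hi0 hv (hmin v hvG)
  apply h3
  apply jump b hb u v x _ _ n0 t0 h1 h2
  · intro t ht
    have h4 : (u + t • v) j = 0 := by rw [ht]; rfl
    simp only [lp.coeFn_add, lp.coeFn_smul, Pi.add_apply, Pi.smul_apply, smul_eq_mul, huj,
      zero_add, mul_eq_zero, hv, or_false] at h4
    rw [h4, zero_smul, add_zero] at ht
    exact hu0 ht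
  · intro t
    apply first_order b hb
    intro a
    rw [← J_norm, ← J_norm]
    have := h (u + t • v) (G.add_mem huG (G.smul_mem _ hvG)) a
    gcongr

end Pool.Agent.H91.StrongSub
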