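import Pool.Agent.H91.C0
import Pool.Agent.H91.Renorm

set_option autoImplicit false

namespace H91.SupN
open Filter Topology Set Pool.Agent.H91.C0 Pool.Agent.H91.Renorm

lemma e_weak (φ : c0 →L[ℝ] ℝ) : Tendsto (fun n => φ (e n)) atTop (𝓝 0) := by
  have h : Summable fun n => |φ (e n)| := by
    refine summable_of_sum_range_le (c := ‖φ‖) (fun _ => abs_nonneg _) fun N => ?_
    let s : ℕ → ℝ := fun n => if 0 ≤ φ (e n) then 1 else -1
    have h1 : ∑ n ∈ Finset.range N, |φ (e n)| = φ (∑ n ∈ Finset.range N, s n • e n) := by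
      rw [map_sum]
      refine Finset.sum_congr rfl fun n _ => ?_
      rw [map_smul, smul_eq_mul]
      simp only [s]
      split_ifs with h
      · rw [abs_of_nonneg h, one_mul]
      · rw [abs_of_neg (not_le.1 h)]; ring
    have h2 : ‖∑ n ∈ Finset.range N, s n • e n‖ ≤ 1 := by
      refine norm_le _ zero_le_one fun k => ?_
      rw [sum_apply]
      simp only [ZeroAtInftyContinuousMap.coe_smul, Pi.smul_apply, e_apply, smul_eq_mul, mul_ite,
        mul_one, mul_zero, Finset.sum_ite_eq]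
      simp only [s]
      split_ifs <;> simp
    rw [h1]
    calc _ ≤ ‖φ‖ * ‖∑ n ∈ Finset.range N, s n • e n‖ := (Real.le_norm_self _).trans (φ.le_opNorm _)
      _ ≤ ‖φ‖ * 1 := by gcongr
      _ = _ := mul_one _
  exact tendsto_zero_iff_abs_tendsto_zero _ |>.2 h.tendsto_atTop_zero

/-- perturbing one far coordinate is weakly small -/
lemma pert_weak {E : Type} [NormedAddCommGroup E] [NormedSpace ℝ E] (J : c0 →L[ℝ] E) (z : E)
    (c : ℕ → ℝ) (C : ℝ) (hc : ∀ n, |c n| ≤ C) (φ : E →L[ℝ] ℝ) :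
    Tendsto (fun n => φ (z + c n • J (e n))) atTop (𝓝 (φ z)) := by
  have h1 := e_weak (φ ∘L J)
  have h2 : Tendsto (fun n => c n * φ (J (e n))) atTop (𝓝 0) := by
    refine squeeze_zero_norm (a := fun n => C * |φ (J (e n))|) (fun n => ?_) ?_
    · rw [Real.norm_eq_abs, abs_mul]; gcongr; exact hc n
    · simpa using h1.abs.const_mul C
  simpa using h2.const_add (φ z)

section
variable {X ι : Type} [NormedAddCommGroup X] [NormedSpace ℝ X] [Nonempty ι]
  (q : ι → Seminorm ℝ X) (C : ℝ) (hq : ∀ i x, q i x ≤ C * ‖x‖)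

/-- supremum of a bounded family of seminorms -/
noncomputable def supS : Seminorm ℝ X :=
  Seminorm.of (fun x => ⨆ i, q i x)
    (fun x y => ciSup_le fun i => (map_add_le_add (q i) x y).trans (add_le_add
      (le_ciSup (f := fun i => q i x) ⟨C * ‖x‖, by rintro _ ⟨i, rfl⟩; exact hq i x⟩ i)
      (le_ciSup (f := fun i => q i y) ⟨C * ‖y‖, by rintro _ ⟨i, rfl⟩; exact hq i y⟩ i)))
    (fun a x => by
      simp only [map_smul_eq_mul]
      exact (Real.mul_iSup_of_nonneg (norm_nonneg a) _).symm)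

lemma le_supS (i : ι) (x : X) : q i x ≤ supS q C hq x :=
  le_ciSup (f := fun i => q i x) ⟨C * ‖x‖, by rintro _ ⟨i, rfl⟩; exact hq i x⟩ i

lemma supS_le {x : X} {M : ℝ} (h : ∀ i, q i x ≤ M) : supS q C hq x ≤ M := ciSup_le h

end

/-- seminorm `|f x|` -/
noncomputable def absS {X : Type} [NormedAddCommGroup X] [NormedSpace ℝ X] (f : X →L[ℝ] ℝ) :
    Seminorm ℝ X := (normSeminorm ℝ ℝ).comp f.toLinearMap

@[simp] lemma absS_apply {X : Type} [NormedAddCommGroup X] [NormedSpace ℝ X] (f : X →L[ℝ] ℝ)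
    (x : X) : absS f x = |f x| := rfl

/-- renorming of `c0 × ℝ` by functionals `a n * y n + b n * t` -/
noncomputable def fn (n : ℕ) (a b : ℝ) : (c0 × ℝ) →L[ℝ] ℝ :=
  a • (ev n ∘L ContinuousLinearMap.fst ℝ c0 ℝ) + b • ContinuousLinearMap.snd ℝ c0 ℝ

@[simp] lemma fn_apply (n : ℕ) (a b : ℝ) (x : c0 × ℝ) : fn n a b x = a * x.1 n + b * x.2 := rfl

lemma fn_le (n : ℕ) (a b : ℝ) (ha : |a| ≤ 1) (hb : |b| ≤ 1) (x : c0 × ℝ) :
    absS (fn n a b) x ≤ 2 * ‖x‖ := by
  rw [absS_apply, fn_apply]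
  have h1 : |x.1 n| ≤ ‖x‖ := (apply_le _ _).trans (norm_fst_le x)
  have h2 : |x.2| ≤ ‖x‖ := norm_snd_le x
  calc _ ≤ |a * x.1 n| + |b * x.2| := abs_add_le _ _
    _ = |a| * |x.1 n| + |b| * |x.2| := by rw [abs_mul, abs_mul]
    _ ≤ 1 * ‖x‖ + 1 * ‖x‖ := by gcongr
    _ = _ := by ring

lemma lim_le (y : c0) (t M : ℝ) (h : ∀ n, |y n + t| ≤ M) : |t| ≤ M := by
  have := ((tendsto_zero y).add_const t).abs
  rw [zero_add] at this
  exact le_of_tendsto' this h

end H91.SupN
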