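import Mathlib

set_option autoImplicit false

namespace Pool.Agent.H91.Sz

open Polynomial Finset

/-- the functional attached to a sequence -/
noncomputable def L (e : ℕ → ℂ) : ℂ[X] →ₗ[ℂ] ℂ :=
  Polynomial.lsum fun i => LinearMap.mulRight ℂ (e i)

lemma L_monomial (e : ℕ → ℂ) (i : ℕ) (a : ℂ) : L e (monomial i a) = a * e i := by
  simp [L, Polynomial.lsum_apply]

lemma L_X (e : ℕ → ℂ) (q : ℂ[X]) : L e (X * q) = L (fun i => e (i + 1)) q := by
  induction q using Polynomial.induction_on' with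
  | add p q hp hq => rw [mul_add, map_add, map_add, hp, hq]
  | monomial n a => rw [X_mul_monomial, L_monomial, L_monomial]

lemma L_lin (e f : ℕ → ℂ) (ζ : ℂ) (q : ℂ[X]) :
    L (fun i => e i + ζ * f i) q = L e q + ζ * L f q := by
  induction q using Polynomial.induction_on' with
  | add p q hp hq => simp only [map_add, hp, hq]; ring
  | monomial n a => simp only [L_monomial]; ring

lemma L_step (e : ℕ → ℂ) (ζ : ℂ) (q : ℂ[X]) :
    L e ((1 + C ζ * X) * q) = L (fun i => e i + ζ * e (i + 1)) q := by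
  rw [L_lin, add_mul, one_mul, map_add, mul_assoc, C_mul', map_smul, L_X, smul_eq_mul]

noncomputable def P (n : ℕ) (e : ℕ → ℂ) (w : ℂ) : ℂ :=
  ∑ i ∈ range (n + 1), (n.choose i : ℂ) * e i * w ^ i

noncomputable def Pp (n : ℕ) (e : ℕ → ℂ) : ℂ[X] :=
  ∑ i ∈ range (n + 1), monomial i ((n.choose i : ℂ) * e i)

lemma Pp_eval (n : ℕ) (e : ℕ → ℂ) (w : ℂ) : (Pp n e).eval w = P n e w := by
  simp [Pp, P, eval_finset_sum]

lemma Pp_deg (n : ℕ) (e : ℕ → ℂ) : (Pp n e).natDegree ≤ n := by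
  refine natDegree_sum_le_of_forall_le _ _ fun i hi => ?_
  exact (natDegree_monomial_le _).trans (Nat.lt_succ_iff.1 (mem_range.1 hi))

lemma P_succ (n : ℕ) (e : ℕ → ℂ) (w : ℂ) :
    P (n + 1) e w = P n e w + w * P n (fun i => e (i + 1)) w := by
  simp only [P]
  rw [sum_range_succ' _ (n + 1), mul_sum]
  have h : ∑ i ∈ range (n + 1), (n.choose i : ℂ) * e i * w ^ i
      = ∑ i ∈ range (n + 1), (n.choose (i + 1) : ℂ) * e (i + 1) * w ^ (i + 1) + e 0 := by
    rw [sum_range_succ' _ n, sum_range_succ _ n]; simp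
  rw [h, add_right_comm, ← sum_add_distrib]
  congr 1
  · refine sum_congr rfl fun i _ => ?_
    rw [Nat.choose_succ_succ]; push_cast; ring
  · simp

lemma P_lin (n : ℕ) (e f : ℕ → ℂ) (ζ w : ℂ) :
    P n (fun i => e i + ζ * f i) w = P n e w + ζ * P n f w := by
  simp only [P, mul_sum, ← sum_add_distrib]
  exact sum_congr rfl fun i _ => by ring

lemma Pp_der (n : ℕ) (e : ℕ → ℂ) (w : ℂ) :
    (derivative (Pp (n + 1) e)).eval w = (n + 1) * P n (fun i => e (i + 1)) w := by
  simp only [Pp, P, derivative_sum, derivative_monomial, eval_finset_sum, eval_monomial]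
  rw [sum_range_succ', mul_sum]
  simp only [Nat.cast_zero, mul_zero, zero_mul, add_zero, Nat.add_sub_cancel]
  refine sum_congr rfl fun i _ => ?_
  have := Nat.add_one_mul_choose_eq n i
  have h : ((n : ℂ) + 1) * n.choose i = ((n + 1).choose (i + 1) : ℂ) * (i + 1) := by
    exact_mod_cast this
  push_cast
  linear_combination (-(e (i + 1) * w ^ i)) * h

noncomputable def pr (l : List ℂ) : ℂ[X] := (l.map fun γ => 1 + C γ * X).prod

lemma pr_cons (γ : ℂ) (l : List ℂ) : pr (γ :: l) = (1 + C γ * X) * pr l := by simp [pr]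

lemma factor (n : ℕ) : ∀ q : ℂ[X], q.natDegree ≤ n → (∀ w : ℂ, ‖w‖ < 1 → q.eval w ≠ 0) →
    ∃ (c : ℂ) (l : List ℂ), c ≠ 0 ∧ l.length = n ∧ (∀ γ ∈ l, ‖γ‖ ≤ 1) ∧ q = C c * pr l := by
  induction n with
  | zero =>
    intro q hq h
    refine ⟨q.coeff 0, [], ?_, rfl, by simp, ?_⟩
    · have := h 0 (by simp)
      rwa [← coeff_zero_eq_eval_zero] at this
    · simpa [pr] using eq_C_of_natDegree_le_zero hq
  | succ n ih =>
    intro q hq h
    by_cases h0 : q.natDegree ≤ n
    · obtain ⟨c, l, h1, h2, h3, h4⟩ := ih q h0 h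
      refine ⟨c, 0 :: l, h1, by simp [h2], ?_, by rw [pr_cons, h4]; simp⟩
      intro γ hγ
      rcases List.mem_cons.1 hγ with rfl | hγ
      · simp
      · exact h3 γ hγ
    · have hd : 0 < q.degree := natDegree_pos_iff_degree_pos.1 (by omega)
      obtain ⟨r, hr⟩ := Complex.exists_root hd
      have hr1 : 1 ≤ ‖r‖ := by
        by_contra hc
        exact h r (lt_of_not_ge hc) hr
      have hr0 : r ≠ 0 := by rintro rfl; simp at hr1; linarith
      obtain ⟨q1, hq1⟩ := dvd_iff_isRoot.2 hr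
      have hq0 : q ≠ 0 := by rintro rfl; simp at h0
      have hq10 : q1 ≠ 0 := by rintro rfl; simp at hq1; exact hq0 hq1
      have hd1 : q1.natDegree ≤ n := by
        rw [hq1, natDegree_mul (X_sub_C_ne_zero r) hq10, natDegree_X_sub_C] at hq
        omega
      obtain ⟨c, l, h1, h2, h3, h4⟩ := ih q1 hd1 fun w hw h' => h w hw (by rw [hq1]; simp [h'])
      refine ⟨-r * c, (-r⁻¹) :: l, mul_ne_zero (neg_ne_zero.2 hr0) h1, by simp [h2], ?_, ?_⟩
      · intro γ hγ
        rcases List.mem_cons.1 hγ with rfl | hγ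
        · rw [norm_neg, norm_inv]; exact inv_le_one_of_one_le₀ hr1
        · exact h3 γ hγ
      · rw [pr_cons, hq1, h4]
        have : C r * C r⁻¹ = (1 : ℂ[X]) := by rw [← C_mul, mul_inv_cancel₀ hr0, C_1]
        simp only [map_mul, map_neg]
        linear_combination (-(X * C c * pr l)) * this

lemma nsq (u v : ℂ) (h : Complex.normSq u ≤ Complex.normSq v) : ‖u‖ ≤ ‖v‖ := by
  rw [Complex.normSq_eq_norm_sq, Complex.normSq_eq_norm_sq] at h
  exact le_of_pow_le_pow_left₀ two_ne_zero (norm_nonneg _) h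

lemma key1 (γ z : ℂ) (hγ : ‖γ‖ ≤ 1) (hz : ‖z‖ < 1) :
    ‖γ + (starRingEnd ℂ) z‖ ≤ ‖1 + γ * z‖ := by
  have h1 : Complex.normSq γ ≤ 1 := by
    rw [Complex.normSq_eq_norm_sq]; nlinarith [norm_nonneg γ]
  have h2 : Complex.normSq z ≤ 1 := by
    rw [Complex.normSq_eq_norm_sq]; nlinarith [norm_nonneg z]
  apply nsq
  simp only [Complex.normSq_apply, Complex.add_re, Complex.add_im, Complex.mul_re, Complex.mul_im,
    Complex.conj_re, Complex.conj_im, Complex.one_re, Complex.one_im] at *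
  nlinarith [mul_nonneg (sub_nonneg.2 h1) (sub_nonneg.2 h2)]

lemma key2 (ζ z : ℂ) (hζ : ‖ζ‖ < 1) (hz : ‖z‖ < 1) :
    ‖ζ - z‖ < ‖1 - (starRingEnd ℂ) z * ζ‖ := by
  have h1 : Complex.normSq ζ < 1 := by
    rw [Complex.normSq_eq_norm_sq]; nlinarith [norm_nonneg ζ]
  have h2 : Complex.normSq z < 1 := by
    rw [Complex.normSq_eq_norm_sq]; nlinarith [norm_nonneg z]
  apply lt_of_pow_lt_pow_left₀ 2 (norm_nonneg _)
  rw [← Complex.normSq_eq_norm_sq, ← Complex.normSq_eq_norm_sq]
  simp only [Complex.normSq_apply, Complex.sub_re, Complex.sub_im, Complex.mul_re, Complex.mul_im,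
    Complex.conj_re, Complex.conj_im, Complex.one_re, Complex.one_im] at *
  nlinarith [mul_pos (sub_pos.2 h1) (sub_pos.2 h2)]

lemma lag_list (ζ z : ℂ) (hz : ‖z‖ < 1) (l : List ℂ) (hl : ∀ γ ∈ l, ‖γ‖ ≤ 1) :
    ‖(1 - (starRingEnd ℂ) z * z) * (l.length * (pr l).eval z + (ζ - z) * (derivative (pr l)).eval z)
      - l.length * (1 - (starRingEnd ℂ) z * ζ) * (pr l).eval z‖
      ≤ l.length * ‖ζ - z‖ * ‖(pr l).eval z‖ := by
  induction l with
  | nil => simp [pr]
  | cons γ l ih =>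
    have h1 := ih fun x hx => hl x (List.mem_cons_of_mem _ hx)
    have h2 := key1 γ z (hl γ List.mem_cons_self) hz
    rw [pr_cons]
    simp only [derivative_mul, derivative_add, derivative_one, derivative_C, derivative_X, eval_mul,
      eval_add, eval_one, eval_C, eval_X, zero_mul, mul_one, zero_add, List.length_cons]
    push_cast
    set q := (pr l).eval z
    set q' := (derivative (pr l)).eval z
    set n : ℕ := l.length
    have e : (1 - (starRingEnd ℂ) z * z) * (((n : ℂ) + 1) * ((1 + γ * z) * q)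
        + (ζ - z) * (γ * q + (1 + γ * z) * q'))
        - ((n : ℂ) + 1) * (1 - (starRingEnd ℂ) z * ζ) * ((1 + γ * z) * q)
        = (1 + γ * z) * ((1 - (starRingEnd ℂ) z * z) * (n * q + (ζ - z) * q')
          - n * (1 - (starRingEnd ℂ) z * ζ) * q) + (ζ - z) * (γ + (starRingEnd ℂ) z) * q := by ring
    rw [e]
    refine (norm_add_le _ _).trans ?_
    simp only [norm_mul]
    have h3 := mul_le_mul_of_nonneg_left h1 (norm_nonneg (1 + γ * z))
    have h4 : ‖ζ - z‖ * ‖γ + (starRingEnd ℂ) z‖ * ‖q‖ ≤ ‖ζ - z‖ * ‖1 + γ * z‖ * ‖q‖ := by gcongr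
    nlinarith

/-- no zero in the open unit disc -/
def N (n : ℕ) (e : ℕ → ℂ) : Prop := ∀ w : ℂ, ‖w‖ < 1 → P n e w ≠ 0

lemma N_step (n : ℕ) (e : ℕ → ℂ) (h : N (n + 1) e) (ζ : ℂ) (hζ : ‖ζ‖ < 1) :
    N n fun i => e i + ζ * e (i + 1) := by
  intro z hz h0
  obtain ⟨c, l, h1, h2, h3, h4⟩ := factor (n + 1) (Pp (n + 1) e) (Pp_deg _ _)
    fun w hw => by rw [Pp_eval]; exact h w hw
  have e1 := Pp_eval (n + 1) e z
  have e2 := Pp_der n e z
  have hne := h z hz
  rw [P_lin] at h0
  have e3 := P_succ n e z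
  rw [h4] at e1 e2
  simp only [derivative_mul, derivative_C, zero_mul, zero_add, eval_mul, eval_C] at e1 e2
  have k := lag_list ζ z hz l h3
  rw [h2] at k
  push_cast at k
  have e4 : ((n : ℂ) + 1) * (pr l).eval z + (ζ - z) * (derivative (pr l)).eval z = 0 := by
    apply mul_left_cancel₀ h1
    linear_combination ((n : ℂ) + 1) * e1 + (ζ - z) * e2 + ((n : ℂ) + 1) * e3 + ((n : ℂ) + 1) * h0
  have hq : (pr l).eval z ≠ 0 := by
    intro h'; rw [h', mul_zero] at e1; exact hne e1.symm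
  rw [e4, mul_zero, zero_sub, norm_neg, norm_mul, norm_mul] at k
  have hn : ‖(n : ℂ) + 1‖ = n + 1 := by exact_mod_cast Complex.norm_natCast (n + 1)
  rw [hn] at k
  have k2 := key2 ζ z hζ hz
  have hq' : 0 < ‖(pr l).eval z‖ := norm_pos_iff.2 hq
  have hn' : (0 : ℝ) < n + 1 := by positivity
  have := mul_lt_mul_of_pos_right (mul_lt_mul_of_pos_left k2 hn') hq'
  linarith

lemma gws (l : List ℂ) : ∀ e : ℕ → ℂ, N l.length e → (∀ γ ∈ l, ‖γ‖ < 1) → L e (pr l) ≠ 0 := by
  induction l with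
  | nil =>
    intro e h _
    have := h 0 (by simp)
    have e1 : pr [] = monomial 0 1 := by simp [pr]
    rw [e1, L_monomial]
    simpa [P] using this
  | cons γ l ih =>
    intro e h hl
    rw [pr_cons, L_step]
    exact ih _ (N_step _ e h γ (hl γ List.mem_cons_self))
      fun x hx => hl x (List.mem_cons_of_mem _ hx)

lemma pr_scale (w : ℂ) (l : List ℂ) : (pr l).comp (C w * X) = pr (l.map fun γ => γ * w) := by
  induction l with
  | nil => simp [pr]
  | cons γ l ih =>
    rw [List.map_cons, pr_cons, pr_cons, mul_comp, ih]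
    simp [mul_assoc]

/-- composition theorem of Szego for the unit disc -/
theorem N_mul (n : ℕ) (e f : ℕ → ℂ) (he : N n e) (hf : N n f) : N n fun i => e i * f i := by
  intro w hw
  obtain ⟨c, l, h1, h2, h3, h4⟩ := factor n (Pp n f) (Pp_deg _ _)
    fun w hw => by rw [Pp_eval]; exact hf w hw
  have e1 : P n (fun i => e i * f i) w = L e ((Pp n f).comp (C w * X)) := by
    simp only [Pp, P, Polynomial.sum_comp, map_sum]
    refine sum_congr rfl fun i _ => ?_
    rw [monomial_comp, mul_pow (C w) X, ← C_pow, ← mul_assoc (C _), ← C_mul, C_mul_X_pow_eq_monomial,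
      L_monomial]
    ring
  rw [e1, h4, mul_comp, C_comp, pr_scale, C_mul', map_smul, smul_eq_mul]
  refine mul_ne_zero h1 (gws _ e (by simpa [h2] using he) ?_)
  intro γ hγ
  obtain ⟨x, hx, rfl⟩ := List.mem_map.1 hγ
  rw [norm_mul]
  have := h3 x hx
  nlinarith [norm_nonneg x, norm_nonneg w]

lemma N_one (n : ℕ) : N n fun _ => 1 := by
  intro w hw
  have : P n (fun _ => 1) w = (w + 1) ^ n := by
    rw [add_pow]; exact sum_congr rfl fun i _ => by ring
  rw [this]
  refine pow_ne_zero _ fun h => ?_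
  have : w = -1 := by linear_combination h
  rw [this] at hw; simp at hw

lemma N_prod {ι : Type} (n : ℕ) (s : Finset ι) (e : ι → ℕ → ℂ) (h : ∀ k ∈ s, N n (e k)) :
    N n fun i => ∏ k ∈ s, e k i := by
  classical
  induction s using Finset.induction_on with
  | empty => simpa using N_one n
  | insert a s ha ih =>
    simp only [prod_insert ha]
    exact N_mul n _ _ (h a (mem_insert_self _ _)) (ih fun k hk => h k (mem_insert_of_mem hk))

end Pool.Agent.H91.Sz
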