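import Pool.Agent.H91.Sz1

set_option autoImplicit false

namespace Pool.Agent.H91.Sz

open Finset

/-- rising factorial -/
noncomputable def po (w : ℂ) (k : ℕ) : ℂ := ∏ l ∈ range k, (w + l)

lemma po_zero (w : ℂ) : po w 0 = 1 := by simp [po]
lemma po_succ (w : ℂ) (k : ℕ) : po w (k + 1) = po w k * (w + k) := by simp [po, prod_range_succ]
lemma po_succ' (w : ℂ) (k : ℕ) : po w (k + 1) = w * po (w + 1) k := by
  simp only [po]
  rw [prod_range_succ', mul_comm]
  simp only [Nat.cast_zero, add_zero]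
  congr 1
  exact prod_congr rfl fun l _ => by push_cast; ring
lemma po_add (w : ℂ) (k m : ℕ) : po w (k + m) = po w k * po (w + k) m := by
  simp only [po]
  rw [prod_range_add]
  congr 1
  exact prod_congr rfl fun l _ => by push_cast; ring

noncomputable def T (n : ℕ) (g : ℕ → ℂ) (w : ℂ) : ℂ := P n (fun i => g (n - i)) w

lemma T_zero (g : ℕ → ℂ) (w : ℂ) : T 0 g w = g 0 := by simp [T, P]

lemma T_succ (n : ℕ) (g : ℕ → ℂ) (w : ℂ) :
    T (n + 1) g w = T n (fun j => g (j + 1)) w + w * T n g w := by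
  simp only [T]
  rw [P_succ]
  congr 1
  · simp only [P]
    refine sum_congr rfl fun i hi => ?_
    rw [Nat.succ_sub (Nat.lt_succ_iff.1 (mem_range.1 hi))]
  · simp only [Nat.add_sub_add_right]

lemma T_mul (n : ℕ) (g : ℕ → ℂ) (w : ℂ) :
    T (n + 1) (fun j => j * g j) w = (n + 1) * T n (fun j => g (j + 1)) w := by
  simp only [T, P]
  rw [sum_range_succ, mul_sum]
  simp only [Nat.sub_self, Nat.cast_zero, zero_mul, mul_zero, add_zero]
  refine sum_congr rfl fun i hi => ?_
  have hi' := Nat.lt_succ_iff.1 (mem_range.1 hi)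
  have h := Nat.choose_mul_succ_eq n i
  have h' : (n.choose i : ℂ) * (n + 1) = ((n + 1).choose i : ℂ) * ((n + 1 - i : ℕ) : ℂ) := by
    exact_mod_cast h
  rw [Nat.succ_sub hi'] at *
  linear_combination (-(g (n - i + 1) * w ^ i)) * h'

lemma T_lin (n : ℕ) (g h : ℕ → ℂ) (ζ w : ℂ) :
    T n (fun j => g j + ζ * h j) w = T n g w + ζ * T n h w := P_lin _ _ _ _ _

lemma T_smul (n : ℕ) (h : ℕ → ℂ) (ζ w : ℂ) : T n (fun j => ζ * h j) w = ζ * T n h w := by
  simp only [T, P, mul_sum]
  exact sum_congr rfl fun i _ => by ring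

lemma Y_succ (n : ℕ) (β w : ℂ) :
    T (n + 1) (po β) w = β * T n (po (β + 1)) w + w * T n (po β) w := by
  rw [T_succ, ← T_smul n (po (β + 1)) β]
  simp only [po_succ']

lemma Y_diff (n : ℕ) (β w : ℂ) :
    T (n + 1) (po (β + 1)) w = T (n + 1) (po β) w + (n + 1) * T n (po (β + 1)) w := by
  have h := T_mul n (fun j => po (β + 1) (j - 1)) w
  simp only [Nat.add_sub_cancel] at h
  rw [← h, ← one_mul (T (n + 1) (fun j : ℕ => (j : ℂ) * po (β + 1) (j - 1)) w), ← T_lin]
  congr 1
  funext j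
  rcases j with _ | j
  · simp [po_zero]
  · rw [po_succ, po_succ', Nat.add_sub_cancel]; push_cast; ring

/-- the Bessel factor -/
lemma Y_small (M : ℕ) (lam w : ℂ) (h : 3 * ‖lam‖ + 6 * ‖w‖ < M) : T M (po (M + lam)) w ≠ 0 := by
  set β : ℂ := M + lam with hβ
  have hl := norm_nonneg lam
  have hw := norm_nonneg w
  have b1 : ‖β‖ ≤ M + ‖lam‖ := (norm_add_le _ _).trans (by simp)
  have b2 : ∀ n : ℕ, (M : ℝ) - ‖lam‖ ≤ ‖β + n‖ := by
    intro n
    have e : ((M + n : ℕ) : ℂ) = (β + n) - lam := by rw [hβ]; push_cast; ring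
    have := norm_sub_le (β + n) lam
    rw [← e, Complex.norm_natCast] at this
    push_cast at this
    have : (0 : ℝ) ≤ n := by positivity
    linarith
  have inv : ∀ n : ℕ, T n (po (β + 1)) w ≠ 0 ∧ ‖T n (po β) w‖ ≤ 2 * ‖T n (po (β + 1)) w‖ := by
    intro n
    induction n with
    | zero => simp [T_zero, po_zero]
    | succ n ih =>
      obtain ⟨h1, h2⟩ := ih
      have e1 := Y_succ n β w
      have e2 := Y_diff n β w
      set u := T n (po β) w
      set v := T n (po (β + 1)) w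
      have hv := norm_pos_iff.2 h1
      have k1 : ‖T (n + 1) (po β) w‖ ≤ (‖β‖ + 2 * ‖w‖) * ‖v‖ := by
        rw [e1]
        refine (norm_add_le _ _).trans ?_
        rw [norm_mul, norm_mul]; nlinarith
      have k2 : (M - ‖lam‖ - 2 * ‖w‖) * ‖v‖ ≤ ‖T (n + 1) (po (β + 1)) w‖ := by
        have e : (β + (n + 1 : ℕ)) * v = T (n + 1) (po (β + 1)) w - w * u := by
          rw [e2, e1]; push_cast; ring
        have := norm_sub_le (T (n + 1) (po (β + 1)) w) (w * u)
        rw [← e, norm_mul, norm_mul] at this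
        have := b2 (n + 1)
        nlinarith
      constructor
      · intro h0
        rw [h0, norm_zero] at k2
        nlinarith
      · nlinarith
  rcases M with _ | n
  · simp [T_zero, po_zero]
  · obtain ⟨h1, h2⟩ := inv n
    intro h0
    rw [Y_succ] at h0
    have e : β * T n (po (β + 1)) w = -(w * T n (po β) w) := by linear_combination h0
    have e' := congrArg norm e
    rw [norm_neg, norm_mul, norm_mul] at e'
    have := b2 0
    simp only [Nat.cast_zero, add_zero] at this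
    have hv := norm_pos_iff.2 h1
    nlinarith

lemma po_ne (b : ℂ) (hb : ∀ m : ℕ, b ≠ -m) (k : ℕ) : po b k ≠ 0 :=
  prod_ne_zero_iff.2 fun l _ h => hb l (by linear_combination h)

/-- the lower parameters -/
lemma X_small (M : ℕ) (b w : ℂ) (hb : ∀ m : ℕ, b ≠ -m) (h : ‖w‖ * (3 * ‖b‖ + 4 * M) ≤ 1 / 2) :
    T M (fun j => (po b j)⁻¹) w ≠ 0 := by
  have hw := norm_nonneg w
  have hb0 := norm_nonneg b
  have e1 : ∀ n, T (n + 1) (fun j => (po b j)⁻¹) w
      = T n (fun j => (po b (j + 1))⁻¹) w + w * T n (fun j => (po b j)⁻¹) w := fun n => T_succ _ _ _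
  have e2 : ∀ n : ℕ, (b + (n + 1 : ℕ)) * T (n + 1) (fun j => (po b (j + 1))⁻¹) w
      = T (n + 1) (fun j => (po b j)⁻¹) w + (n + 1) * w * T n (fun j => (po b (j + 1))⁻¹) w := by
    intro n
    have k1 := T_mul n (fun j => (po b (j + 1))⁻¹) w
    have k2 := T_succ n (fun j => (po b (j + 1))⁻¹) w
    have k3 := T_lin (n + 1) (fun j : ℕ => (j : ℂ) * (po b (j + 1))⁻¹) (fun j => (po b (j + 1))⁻¹) b w
    have k4 : (fun j : ℕ => (j : ℂ) * (po b (j + 1))⁻¹ + b * (po b (j + 1))⁻¹)
        = fun j => (po b j)⁻¹ := by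
      funext j
      have := po_ne b hb j
      have : b + j ≠ 0 := fun h => hb j (by linear_combination h)
      rw [po_succ]; field_simp; ring
    rw [k4] at k3
    push_cast
    linear_combination -k3 - k1 + ((n : ℂ) + 1) * k2
  have inv : ∀ n : ℕ, n ≤ M → T n (fun j => (po b (j + 1))⁻¹) w ≠ 0 ∧
      2 * ‖w‖ * ‖T n (fun j => (po b j)⁻¹) w‖ ≤ ‖T n (fun j => (po b (j + 1))⁻¹) w‖ := by
    intro n
    induction n with
    | zero =>
      intro _
      have hb1 : b ≠ 0 := by simpa using hb 0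
      have : (0 : ℝ) ≤ M := by positivity
      simp only [T_zero, po_succ, po_zero, Nat.cast_zero, add_zero, one_mul, inv_one, norm_one,
        mul_one, norm_inv]
      refine ⟨inv_ne_zero hb1, ?_⟩
      rw [← one_div, le_div_iff₀ (norm_pos_iff.2 hb1)]
      nlinarith
    | succ n ih =>
      intro hn
      obtain ⟨h1, h2⟩ := ih (by omega)
      have f1 := e1 n
      have f2 := e2 n
      have hn' : (n : ℝ) + 1 ≤ M := by exact_mod_cast hn
      have hn0 : (0 : ℝ) ≤ n := by positivity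
      set u := T n (fun j => (po b j)⁻¹) w
      set v := T n (fun j => (po b (j + 1))⁻¹) w
      set u' := T (n + 1) (fun j => (po b j)⁻¹) w
      set v' := T (n + 1) (fun j => (po b (j + 1))⁻¹) w
      have hv := norm_pos_iff.2 h1
      have k1 : ‖u'‖ ≤ 3 / 2 * ‖v‖ := by
        rw [f1]
        refine (norm_add_le _ _).trans ?_
        rw [norm_mul]; nlinarith
      have k2 : (1 / 2 - (n + 1) * ‖w‖) * ‖v‖ ≤ (‖b‖ + (n + 1)) * ‖v'‖ := by
        have e : v = (b + (n + 1 : ℕ)) * v' - w * u - ((n + 1 : ℕ) : ℂ) * w * v := by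
          rw [f2, f1]; push_cast; ring
        have a1 := norm_sub_le ((b + (n + 1 : ℕ)) * v' - w * u) (((n + 1 : ℕ) : ℂ) * w * v)
        have a2 := norm_sub_le ((b + (n + 1 : ℕ)) * v') (w * u)
        have a3 := norm_add_le b ((n + 1 : ℕ) : ℂ)
        rw [← e] at a1
        simp only [norm_mul, Complex.norm_natCast] at a1 a2 a3
        push_cast at a1 a2 a3
        have a4 := mul_le_mul_of_nonneg_right a3 (norm_nonneg v')
        nlinarith
      have k3 : (n + 1) * ‖w‖ ≤ 1 / 8 := by nlinarith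
      constructor
      · intro h0
        rw [h0, norm_zero] at k2
        nlinarith
      · have hp : 0 < ‖b‖ + (n + 1) := by positivity
        refine le_of_mul_le_mul_left (le_trans ?_ k2) hp
        have k4 : (‖b‖ + (n + 1)) * (3 * ‖w‖) ≤ 1 / 2 - (n + 1) * ‖w‖ := by nlinarith
        have k5 : 2 * ‖w‖ * ‖u'‖ ≤ 3 * ‖w‖ * ‖v‖ := by nlinarith
        calc _ ≤ (‖b‖ + (n + 1)) * (3 * ‖w‖ * ‖v‖) := mul_le_mul_of_nonneg_left k5 hp.le
          _ = (‖b‖ + (n + 1)) * (3 * ‖w‖) * ‖v‖ := by ring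
          _ ≤ _ := mul_le_mul_of_nonneg_right k4 hv.le
  rcases M with _ | n
  · simp [T_zero, po_zero]
  · obtain ⟨h1, h2⟩ := inv n (by omega)
    intro h0
    rw [e1] at h0
    have e : T n (fun j => (po b (j + 1))⁻¹) w = -(w * T n (fun j => (po b j)⁻¹) w) := by
      linear_combination h0
    have e' := congrArg norm e
    rw [norm_neg, norm_mul] at e'
    have hv := norm_pos_iff.2 h1
    nlinarith

lemma hs_congr {f g : ℕ → ℂ} {a b : ℂ} (h : HasSum f a) (h1 : ∀ k, g k = f k) (h2 : b = a) :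
    HasSum g b := by
  rw [h2, funext h1]; exact h

/-- the Kummer series -/
lemma kummer (w : ℂ) (n : ℕ) : ∀ β : ℂ,
    HasSum (fun k : ℕ => (-w) ^ k / k.factorial * po (β - k) n) (Complex.exp (-w) * T n (po β) w) := by
  induction n with
  | zero =>
    intro β
    simp only [po_zero, T_zero, mul_one]
    rw [Complex.exp_eq_exp_ℂ]
    exact NormedSpace.expSeries_div_hasSum_exp (-w)
  | succ n ih =>
    intro β
    have s1 := (ih (β + 1)).mul_left β
    have s2 := (ih β).mul_left w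
    have s3 : HasSum (fun k : ℕ => -(k : ℂ) * ((-w) ^ k / k.factorial * po (β + 1 - k) n))
        (w * (Complex.exp (-w) * T n (po β) w)) := by
      rw [← hasSum_nat_add_iff' 1]
      simp only [range_one, sum_singleton, Nat.cast_zero, neg_zero, zero_mul, sub_zero]
      refine hs_congr s2 (fun k => ?_) rfl
      have h1 : ((k : ℂ) + 1) ≠ 0 := by exact_mod_cast Nat.succ_ne_zero k
      have h2 : (k.factorial : ℂ) ≠ 0 := by exact_mod_cast k.factorial_ne_zero
      rw [Nat.factorial_succ]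
      push_cast
      rw [show β + 1 - (k + 1) = β - k by ring]
      field_simp
      ring
    have s4 := s1.add s3
    rw [Y_succ]
    refine hs_congr s4 (fun k => ?_) (by ring)
    rw [po_succ', show β - k + 1 = β + 1 - k by ring]
    ring

lemma delta (a : ℂ) (ha : ∀ m : ℕ, a ≠ -m) : ∃ δ : ℝ, 0 < δ ∧ δ ≤ 1 ∧ ∀ m : ℕ, δ * (m + 1) ≤ ‖a + m‖ := by
  have fin : ∀ M : ℕ, ∃ δ : ℝ, 0 < δ ∧ ∀ m : ℕ, m < M → δ * (m + 1) ≤ ‖a + m‖ := by
    intro M
    induction M with
    | zero => exact ⟨1, one_pos, by simp⟩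
    | succ M ih =>
      obtain ⟨δ, h0, h⟩ := ih
      have h1 : 0 < ‖a + M‖ := norm_pos_iff.2 fun h => ha M (by linear_combination h)
      refine ⟨min δ (‖a + M‖ / (M + 1)), lt_min h0 (by positivity), fun m hm => ?_⟩
      rcases Nat.lt_succ_iff_lt_or_eq.1 hm with hm | rfl
      · exact (mul_le_mul_of_nonneg_right (min_le_left _ _) (by positivity)).trans (h m hm)
      · exact (le_div_iff₀ (by positivity)).1 (min_le_right _ _)
  obtain ⟨M, hM⟩ := exists_nat_ge (2 * ‖a‖ + 1)
  obtain ⟨δ, h0, h⟩ := fin M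
  refine ⟨min δ (1 / 2), lt_min h0 (by norm_num), (min_le_right _ _).trans (by norm_num), fun m => ?_⟩
  by_cases hm : m < M
  · exact (mul_le_mul_of_nonneg_right (min_le_left _ _) (by positivity)).trans (h m hm)
  · have h1 : (M : ℝ) ≤ m := by exact_mod_cast not_lt.1 hm
    have h2 := norm_sub_le (a + m) a
    rw [add_sub_cancel_left, Complex.norm_natCast] at h2
    have h3 := mul_le_mul_of_nonneg_right (min_le_right δ (1 / 2)) (show (0 : ℝ) ≤ m + 1 by positivity)
    linarith

lemma po_norm (w : ℂ) (k : ℕ) : ‖po w k‖ = ∏ l ∈ range k, ‖w + l‖ := by simp [po, norm_prod]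

lemma pow_le_exp (x : ℝ) (hx : 0 ≤ x) (k m : ℕ) (hm : x ≤ m) : x ^ k ≤ 3 ^ m * k.factorial := by
  have h := Real.pow_div_factorial_le_exp x hx k
  rw [div_le_iff₀ (by positivity)] at h
  refine h.trans (mul_le_mul_of_nonneg_right ?_ (by positivity))
  calc Real.exp x ≤ Real.exp m := Real.exp_le_exp.2 hm
    _ = Real.exp 1 ^ m := by rw [← Real.exp_nat_mul, mul_one]
    _ ≤ 3 ^ m := pow_le_pow_left₀ (Real.exp_pos 1).le (by linarith [Real.exp_one_lt_d9]) m

lemma po_up (a : ℂ) (k n : ℕ) (hn : n ≤ k) :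
    ‖po (a - k) n‖ ≤ ∏ l ∈ range n, ((‖a‖ + 1) * ((k : ℝ) - l)) := by
  rw [po_norm]
  refine prod_le_prod (fun _ _ => norm_nonneg _) fun l hl => ?_
  have hl' : l + 1 ≤ k := by have := mem_range.1 hl; omega
  have h1 : (l : ℝ) + 1 ≤ k := by exact_mod_cast hl'
  have e : a - k + l = a - ((k - l : ℕ) : ℂ) := by rw [Nat.cast_sub (by omega)]; ring
  rw [e]
  refine (norm_sub_le _ _).trans ?_
  rw [Complex.norm_natCast, Nat.cast_sub (by omega)]
  nlinarith [norm_nonneg a]

lemma prod_fact (k : ℕ) : ∏ l ∈ range k, ((l : ℝ) + 1) = k.factorial := by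
  rw [← prod_range_add_one_eq_factorial]; push_cast; rfl

lemma kbound (a : ℂ) (δ : ℝ) (h0 : 0 < δ) (h1 : δ ≤ 1) (h : ∀ m : ℕ, δ * (m + 1) ≤ ‖a + m‖)
    (n k : ℕ) : δ ^ k * (‖po (a - k) n‖ * (n : ℝ) ^ k)
      ≤ (9 * (‖a‖ + 1)) ^ k * (k.factorial * ‖po a n‖) := by
  have ha := norm_nonneg a
  have hf : (0 : ℝ) < k.factorial := by positivity
  rcases le_total k n with hk | hk
  · have e : po (a - k) n * po (a - k + n) k = po (a - k) k * po a n := by
      rw [← po_add, add_comm n k, po_add, sub_add_cancel]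
    have e' := congrArg norm e
    rw [norm_mul, norm_mul] at e'
    have b1 : ‖po (a - k) k‖ ≤ (‖a‖ + 1) ^ k * k.factorial := by
      refine (po_up a k k le_rfl).trans (le_of_eq ?_)
      rw [prod_mul_distrib, prod_const, card_range, ← prod_fact, ← prod_range_reflect]
      congr 1
      refine prod_congr rfl fun l hl => ?_
      have := mem_range.1 hl
      rw [Nat.cast_sub (by omega), Nat.cast_sub (by omega)]; push_cast; ring
    have b2 : δ ^ k * ((n : ℝ) ^ k * k.factorial) ≤ (k : ℝ) ^ k * ‖po (a - k + n) k‖ := by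
      rw [po_norm, ← prod_fact]
      have c1 : δ ^ k * ((n : ℝ) ^ k * ∏ l ∈ range k, ((l : ℝ) + 1))
          = ∏ l ∈ range k, (δ * (n * ((l : ℝ) + 1))) := by
        simp only [prod_mul_distrib, prod_const, card_range]
      have c2 : (k : ℝ) ^ k * ∏ l ∈ range k, ‖a - k + n + l‖
          = ∏ l ∈ range k, (k * ‖a - k + n + l‖) := by
        simp only [prod_mul_distrib, prod_const, card_range]
      rw [c1, c2]
      refine prod_le_prod (fun _ _ => by positivity) fun l hl => ?_
      have hl' : l + 1 ≤ k := mem_range.1 hl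
      have d1 := h (n - k + l)
      have e1 : a + ((n - k + l : ℕ) : ℂ) = a - k + n + l := by
        push_cast [Nat.cast_sub hk]; ring
      rw [e1] at d1
      push_cast [Nat.cast_sub hk] at d1
      have d2 : (l : ℝ) + 1 ≤ k := by exact_mod_cast hl'
      have d3 : (k : ℝ) ≤ n := by exact_mod_cast hk
      have d4 : (n : ℝ) * (l + 1) ≤ k * (n - k + l + 1) := by nlinarith
      have d5 : (0 : ℝ) ≤ k := by positivity
      calc _ ≤ δ * (k * (n - k + l + 1)) := mul_le_mul_of_nonneg_left d4 h0.le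
        _ = k * (δ * (n - k + l + 1)) := by ring
        _ ≤ _ := mul_le_mul_of_nonneg_left d1 d5
    have b3 := pow_le_exp k (by positivity) k k le_rfl
    have b4 : (3 : ℝ) ^ k ≤ 9 ^ k := pow_le_pow_left₀ (by norm_num) (by norm_num) k
    refine le_of_mul_le_mul_right ?_ hf
    calc _ = δ ^ k * ((n : ℝ) ^ k * k.factorial) * ‖po (a - k) n‖ := by ring
      _ ≤ (k : ℝ) ^ k * ‖po (a - k + n) k‖ * ‖po (a - k) n‖ := by gcongr
      _ = (k : ℝ) ^ k * (‖po (a - k) k‖ * ‖po a n‖) := by rw [← e']; ring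
      _ ≤ (9 ^ k * k.factorial) * ((‖a‖ + 1) ^ k * k.factorial * ‖po a n‖) := by
          gcongr
          exact b3.trans (by gcongr)
      _ = _ := by rw [mul_pow]; ring
  · have d3 : (n : ℝ) ≤ k := by exact_mod_cast hk
    have b1 : ‖po (a - k) n‖ ≤ (‖a‖ + 1) ^ k * (k : ℝ) ^ n := by
      refine (po_up a k n hk).trans ?_
      rw [prod_mul_distrib, prod_const, card_range]
      refine mul_le_mul (pow_le_pow_right₀ (by linarith) hk) ?_ (prod_nonneg fun l hl => ?_)
        (by positivity)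
      · rw [← card_range n, ← prod_const, card_range]
        refine prod_le_prod (fun l hl => ?_) fun l _ => ?_
        · have : (l : ℝ) ≤ n := by exact_mod_cast (mem_range.1 hl).le
          linarith
        · have : (0 : ℝ) ≤ l := by positivity
          linarith
      · have : (l : ℝ) ≤ n := by exact_mod_cast (mem_range.1 hl).le
        linarith
    have b2 : δ ^ k * n.factorial ≤ ‖po a n‖ := by
      calc _ ≤ δ ^ n * n.factorial := 
            mul_le_mul_of_nonneg_right (pow_le_pow_of_le_one h0.le h1 hk) (by positivity)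
        _ = ∏ l ∈ range n, (δ * ((l : ℝ) + 1)) := by
          rw [prod_mul_distrib, prod_const, card_range, prod_fact]
        _ ≤ _ := by
          rw [po_norm]; exact prod_le_prod (fun _ _ => by positivity) fun l _ => h l
    have b3 := pow_le_exp k (by positivity) n k le_rfl
    have b4 := pow_le_exp n (by positivity) k k d3
    calc _ ≤ δ ^ k * (((‖a‖ + 1) ^ k * (3 ^ k * n.factorial)) * (3 ^ k * k.factorial)) := by
          gcongr
          exact b1.trans (by gcongr)
      _ = (9 * (‖a‖ + 1)) ^ k * (k.factorial * (δ ^ k * n.factorial)) := by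
          rw [mul_pow, show (9 : ℝ) = 3 * 3 by norm_num, mul_pow]; ring
      _ ≤ _ := by gcongr

/-- the upper parameters -/
lemma Y_kummer (a : ℂ) (ha : ∀ m : ℕ, a ≠ -m) :
    ∃ ε : ℝ, 0 < ε ∧ ∀ (n : ℕ) (w : ℂ), ‖w‖ ≤ ε * n → T n (po a) w ≠ 0 := by
  obtain ⟨δ, h0, h1, h⟩ := delta a ha
  have hA : 0 < 9 * (‖a‖ + 1) := by positivity
  refine ⟨δ / (3 * (9 * (‖a‖ + 1))), by positivity, fun n w hw hz => ?_⟩
  have s := kummer w n a
  rw [hz, mul_zero, ← hasSum_nat_add_iff' 1] at s
  simp only [range_one, sum_singleton, pow_zero, Nat.factorial_zero, Nat.cast_one, div_one,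
    Nat.cast_zero, sub_zero, one_mul, zero_sub] at s
  have hp : 0 < ‖po a n‖ := norm_pos_iff.2 (po_ne a ha n)
  have g : HasSum (fun k : ℕ => ‖po a n‖ / 3 * (1 / 3 : ℝ) ^ k) (‖po a n‖ / 3 * (1 - 1 / 3)⁻¹) :=
    (hasSum_geometric_of_lt_one (by norm_num) (by norm_num)).mul_left _
  have := s.norm_le_of_bounded g fun k => by
    have kb := kbound a δ h0 h1 h n (k + 1)
    have hf : (0 : ℝ) < (k + 1).factorial := by positivity
    rw [norm_mul, norm_div, norm_pow, norm_neg, Complex.norm_natCast, div_mul_eq_mul_div,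
      div_le_iff₀ hf]
    have hq : 0 < (9 * (‖a‖ + 1)) ^ (k + 1) := by positivity
    refine le_of_mul_le_mul_left ?_ hq
    calc _ ≤ (9 * (‖a‖ + 1)) ^ (k + 1) * ((δ / (3 * (9 * (‖a‖ + 1))) * n) ^ (k + 1)
          * ‖po (a - ((k + 1 : ℕ) : ℂ)) n‖) := by gcongr
      _ = (1 / 3) ^ (k + 1) * (δ ^ (k + 1) * (‖po (a - ((k + 1 : ℕ) : ℂ)) n‖ * (n : ℝ) ^ (k + 1))) := by
          rw [← mul_assoc, ← mul_pow, show 9 * (‖a‖ + 1) * (δ / (3 * (9 * (‖a‖ + 1))) * n)
            = 1 / 3 * (δ * n) by field_simp, mul_pow, mul_pow]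
          ring
      _ ≤ (1 / 3) ^ (k + 1) * ((9 * (‖a‖ + 1)) ^ (k + 1) * ((k + 1).factorial * ‖po a n‖)) := by
          gcongr
      _ = _ := by ring
  rw [norm_neg] at this
  norm_num at this
  linarith

end Pool.Agent.H91.Sz
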