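import Pool.Agent.H91.Sz2

set_option autoImplicit false

namespace Pool.Agent.H91.Sz

open Finset

/-- coefficient of `z ^ j` in the terminating hypergeometric series -/
noncomputable def A {p q : ℕ} (lam : ℂ) (a : Fin p → ℂ) (b : Fin q → ℂ) (n j : ℕ) : ℂ :=
  po (-n) j * po (n + lam) j * (∏ k, po (a k) j) / (∏ k, po (b k) j) / j.factorial

lemma N_of (n : ℕ) (g : ℕ → ℂ) (ρ : ℝ) (hρ : 0 < ρ) (h : ∀ w : ℂ, ‖w‖ < ρ → T n g w ≠ 0) :
    N n fun i => g (n - i) * (ρ : ℂ) ^ i := by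
  intro w hw
  have : P n (fun i => g (n - i) * (ρ : ℂ) ^ i) w = T n g (ρ * w) := by
    simp only [T, P]
    exact sum_congr rfl fun i _ => by ring
  rw [this]
  apply h
  rw [norm_mul, Complex.norm_real, Real.norm_eq_abs, abs_of_pos hρ]
  nlinarith

lemma T_at_zero (n : ℕ) (g : ℕ → ℂ) : T n g 0 = g n := by
  simp only [T, P]
  rw [sum_range_succ']
  simp

lemma Y_lam (lam : ℂ) : ∃ ε : ℝ, 0 < ε ∧ ∀ n : ℕ, 1 ≤ n → po (n + lam) n ≠ 0 →
    ∀ w : ℂ, ‖w‖ < ε * n → T n (po (n + lam)) w ≠ 0 := by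
  have fin : ∀ M : ℕ, ∃ ε : ℝ, 0 < ε ∧ ∀ n : ℕ, n < M → po (n + lam) n ≠ 0 →
      ∀ w : ℂ, ‖w‖ < ε * n → T n (po (n + lam)) w ≠ 0 := by
    intro M
    induction M with
    | zero => exact ⟨1, one_pos, by simp⟩
    | succ M ih =>
      obtain ⟨ε, h0, h⟩ := ih
      by_cases hM : po (M + lam) M = 0
      · refine ⟨ε, h0, fun n hn h1 => ?_⟩
        rcases Nat.lt_succ_iff_lt_or_eq.1 hn with hn | rfl
        · exact h n hn h1
        · exact absurd hM h1
      · have hc : Continuous (T M (po (M + lam))) := by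
          unfold T P; fun_prop
        have := hc.continuousAt.eventually_ne (x := 0) (y := 0) (by rwa [T_at_zero])
        obtain ⟨r, hr, hr'⟩ := Metric.eventually_nhds_iff.1 this
        refine ⟨min ε (r / (M + 1)), lt_min h0 (by positivity), fun n hn h1 w hw => ?_⟩
        rcases Nat.lt_succ_iff_lt_or_eq.1 hn with hn | rfl
        · exact h n hn h1 w (hw.trans_le
            (mul_le_mul_of_nonneg_right (min_le_left _ _) (by positivity)))
        · apply hr'
          rw [dist_zero_right]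
          have a1 := (le_div_iff₀ (show (0 : ℝ) < n + 1 by positivity)).1 (min_le_right ε (r / (n + 1)))
          have a2 : 0 < min ε (r / (n + 1)) := lt_min h0 (by positivity)
          nlinarith
  obtain ⟨M, hM⟩ := exists_nat_ge (6 * ‖lam‖)
  obtain ⟨ε, h0, h⟩ := fin M
  refine ⟨min ε (1 / 12), lt_min h0 (by norm_num), fun n _ h1 w hw => ?_⟩
  by_cases hn : n < M
  · exact h n hn h1 w (hw.trans_le (mul_le_mul_of_nonneg_right (min_le_left _ _) (by positivity)))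
  · apply Y_small
    have a1 : (M : ℝ) ≤ n := by exact_mod_cast not_lt.1 hn
    have a2 := mul_le_mul_of_nonneg_right (min_le_right ε (1 / 12)) (show (0 : ℝ) ≤ n by positivity)
    linarith

lemma po_neg (n j : ℕ) : po (-n) j = (-1) ^ j * (n.choose j : ℂ) * j.factorial := by
  induction j with
  | zero => simp [po_zero]
  | succ j ih =>
    rw [po_succ, ih, Nat.factorial_succ]
    by_cases hj : j ≤ n
    · have h : (n.choose (j + 1) : ℂ) * (j + 1) = n.choose j * (n - j) := by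
        have := Nat.choose_succ_right_eq n j
        rw [← Nat.cast_sub hj]
        exact_mod_cast this
      push_cast
      linear_combination ((-1) ^ j * (j.factorial : ℂ)) * h
    · rw [Nat.choose_eq_zero_of_lt (by omega), Nat.choose_eq_zero_of_lt (by omega)]
      simp

theorem main : ∀ (p q : ℕ) (lam : ℂ) (a : Fin p → ℂ) (b : Fin q → ℂ),
    (∀ k, ∀ m : ℕ, a k ≠ -m) → (∀ k, ∀ m : ℕ, b k ≠ -m) →
    ∃ M : ℝ, ∀ n : ℕ, 1 ≤ n → A lam a b n n ≠ 0 → ∀ z : ℂ,
      ∑ j ∈ Finset.range (n + 1), A lam a b n j * z ^ j = 0 →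
        ‖z‖ ≤ M * (n : ℝ) ^ ((q : ℤ) - p - 1) := by
  intro p q lam a b ha hb
  obtain ⟨ε, hε, h1⟩ := Y_lam lam
  choose α hα h2 using fun k => Y_kummer (a k) (ha k)
  set β : Fin q → ℝ := fun k => 1 / (2 * (3 * ‖b k‖ + 4)) with hβ
  have hβ0 : ∀ k, 0 < β k := fun k => by simp only [hβ]; positivity
  have hA : 0 < ∏ k, α k := prod_pos fun k _ => hα k
  have hB : 0 < ∏ k, β k := prod_pos fun k _ => hβ0 k
  refine ⟨(ε * (∏ k, α k) * ∏ k, β k)⁻¹, fun n hn hAn z hz => ?_⟩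
  have hn0 : (0 : ℝ) < n := by exact_mod_cast hn
  have hn1 : (1 : ℝ) ≤ n := by exact_mod_cast hn
  have hl : po (n + lam) n ≠ 0 := by
    intro h; apply hAn; simp [A, h]
  have N1 := N_of n _ (ε * n) (by positivity) (h1 n hn hl)
  have N2 := N_prod n univ _ fun k _ => N_of n _ (α k * n) (mul_pos (hα k) hn0)
    fun w hw => h2 k n w hw.le
  have N3 := N_prod n univ _ fun k _ => N_of n (fun j => (po (b k) j)⁻¹) (β k / n)
    (div_pos (hβ0 k) hn0) fun w hw => X_small n (b k) w (hb k) (by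
      have c1 : 0 < 3 * ‖b k‖ + 4 := by positivity
      have c2 : β k * (3 * ‖b k‖ + 4) = 1 / 2 := by simp only [hβ]; field_simp
      rw [lt_div_iff₀ hn0] at hw
      have c3 : ‖w‖ * n * (3 * ‖b k‖ + 4) ≤ β k * (3 * ‖b k‖ + 4) := by gcongr
      have c4 : ‖w‖ * (3 * ‖b k‖) * 1 ≤ ‖w‖ * (3 * ‖b k‖) * n := by gcongr
      nlinarith)
  have N4 := N_mul n _ _ (N_mul n _ _ N1 N2) N3
  set ρ : ℝ := ε * n * (∏ k, (α k * n)) * ∏ k, (β k / n) with hρ
  have hρ0 : 0 < ρ := by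
    have := prod_pos (s := univ) fun k _ => mul_pos (hα k) hn0
    have := prod_pos (s := univ) fun k _ => div_pos (hβ0 k) hn0
    positivity
  have eρ : (ε * (∏ k, α k) * ∏ k, β k)⁻¹ * (n : ℝ) ^ ((q : ℤ) - p - 1) = ρ⁻¹ := by
    rw [hρ, prod_mul_distrib, prod_div_distrib β, prod_const, prod_const, card_univ, card_univ,
      Fintype.card_fin, Fintype.card_fin, zpow_sub₀ hn0.ne', zpow_sub₀ hn0.ne', zpow_natCast,
      zpow_natCast, zpow_one]
    field_simp
  rw [eρ]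
  by_contra hc
  push Not at hc
  have hz0 : 0 < ‖z‖ := (inv_pos.2 hρ0).trans hc
  have hz1 : z ≠ 0 := norm_pos_iff.1 hz0
  have hρ1 : (ρ : ℂ) ≠ 0 := by exact_mod_cast hρ0.ne'
  refine N4 (-(ρ * z)⁻¹) ?_ ?_
  · rw [norm_neg, norm_inv, norm_mul, Complex.norm_real, Real.norm_eq_abs, abs_of_pos hρ0]
    apply inv_lt_one_of_one_lt₀
    rw [inv_lt_iff_one_lt_mul₀ hρ0] at hc
    linarith
  · have hz2 : (-z) ^ n ≠ 0 := pow_ne_zero _ (neg_ne_zero.2 hz1)
    apply mul_left_cancel₀ hz2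
    rw [mul_zero, ← hz, ← sum_range_reflect]
    simp only [P]
    rw [mul_sum]
    refine sum_congr rfl fun i hi => ?_
    have hi' := Nat.lt_succ_iff.1 (mem_range.1 hi)
    obtain ⟨j, rfl⟩ := Nat.exists_eq_add_of_le hi'
    have e1 : i + j + 1 - 1 - i = j := by omega
    have e2 : i + j - i = j := by omega
    rw [e1]
    simp only [e2, A, po_neg, prod_mul_distrib, prod_pow, prod_inv_distrib]
    have e3 : (ρ : ℂ) = ((ε * (i + j : ℕ) : ℝ) : ℂ) * (∏ k, ((α k * (i + j : ℕ) : ℝ) : ℂ))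
        * ∏ k, ((β k / (i + j : ℕ) : ℝ) : ℂ) := by
      rw [hρ]; push_cast; rfl
    have e4 : (i + j).choose j = (i + j).choose i := Nat.choose_symm_add.symm
    have e5 : (j.factorial : ℂ) ≠ 0 := by exact_mod_cast j.factorial_ne_zero
    have e6 : (-z) ^ (i + j) * (-(ρ * z)⁻¹) ^ i * (ρ : ℂ) ^ i = (-1) ^ j * z ^ j := by
      rw [pow_add, mul_right_comm ((-z) ^ i), ← mul_pow, mul_right_comm, ← mul_pow,
        show -z * -(ρ * z)⁻¹ * ρ = 1 by field_simp, one_pow, one_mul, neg_pow]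
    rw [e4, mul_div_assoc, div_eq_mul_inv, div_eq_mul_inv]
    set Cc := ((i + j).choose i : ℂ)
    set u := po (((i + j : ℕ) : ℂ) + lam) j
    set v := ∏ k, po (a k) j
    set x := (∏ k, po (b k) j)⁻¹
    have e7 : (j.factorial : ℂ) * (j.factorial : ℂ)⁻¹ = 1 := mul_inv_cancel₀ e5
    rw [e3, mul_pow, mul_pow] at e6
    rw [e3]
    linear_combination (Cc * u * v * x) * e6 - (Cc * u * v * x * (-1) ^ j * z ^ j) * e7

end Pool.Agent.H91.Sz
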