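import Pool.Agent.H91.AlmostIdeal

set_option autoImplicit false

namespace H91.TBasis
open Filter Topology Set Pool.Agent.H91.C0 H91.AlmostIdeal

/-- consistent matrix -/
def Consistent (t : ℕ → ℕ → ℝ) : Prop :=
  (∀ n, Summable fun m => |t n m|) ∧ (∃ C, ∀ n, ∑' m, |t n m| ≤ C) ∧
    (∀ m, Tendsto (fun n => t n m) atTop (𝓝 0)) ∧ Tendsto (fun n => ∑' m, t n m) atTop (𝓝 1)

/-- `α` expands `y` in the sense of a `T`-basis -/
def Exp {E : Type} [NormedAddCommGroup E] [NormedSpace ℝ E] (t : ℕ → ℕ → ℝ) (x : ℕ → E) (y : E)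
    (α : ℕ → ℝ) : Prop :=
  ∃ σ : ℕ → E, (∀ n, Tendsto (fun m => ∑ j ∈ Finset.range m, t n j •
    ∑ i ∈ Finset.range (j + 1), α i • x i) atTop (𝓝 (σ n))) ∧ Tendsto σ atTop (𝓝 y)

noncomputable def g (n b : ℕ) : ℝ := if n ≤ b then (1 / 2) ^ (b - n + 1) else 0
noncomputable def t (n j : ℕ) : ℝ := if j % 2 = 1 then g n (j / 2) else 0

lemma g_nonneg (n b : ℕ) : 0 ≤ g n b := by unfold g; split_ifs <;> positivity
lemma t_nonneg (n j : ℕ) : 0 ≤ t n j := by unfold t; split_ifs; exacts [g_nonneg _ _, le_rfl]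
lemma t_odd (n b : ℕ) : t n (2 * b + 1) = g n b := by
  unfold t; rw [if_pos (by omega)]; congr 1; omega
lemma t_even (n b : ℕ) : t n (2 * b) = 0 := by unfold t; rw [if_neg (by omega)]
lemma t_zero {n j : ℕ} (h : j < 2 * n) : t n j = 0 := by
  unfold t g; split_ifs <;> first | rfl | omega

lemma g_sum (n : ℕ) : HasSum (g n) 1 := by
  rw [← hasSum_nat_add_iff' n, Finset.sum_eq_zero fun i hi => by
    unfold g; rw [if_neg (by simpa using hi)], sub_zero]
  have : (fun k => g n (k + n)) = fun k => 1 / 2 / 2 ^ k := by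
    funext k; unfold g; rw [if_pos (by omega), Nat.add_sub_cancel, pow_succ]; simp; ring
  rw [this]; exact hasSum_geometric_two' 1

lemma t_sum (n : ℕ) : HasSum (t n) 1 := by
  have := HasSum.even_add_odd (f := t n) (m := 0) (m' := 1)
    (by simp only [t_even]; exact hasSum_zero) (by simp only [t_odd]; exact g_sum n)
  simpa using this

lemma cons : Consistent t := by
  have h : ∀ n m, |t n m| = t n m := fun n m => abs_of_nonneg (t_nonneg n m)
  refine ⟨fun n => by simp only [h]; exact (t_sum n).summable,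
    ⟨1, fun n => by simp only [h, (t_sum n).tsum_eq, le_refl]⟩, fun m => ?_, ?_⟩
  · refine tendsto_const_nhds.congr' ((eventually_gt_atTop m).mono fun n hn => ?_)
    exact (t_zero (by omega)).symm
  · simp only [(t_sum _).tsum_eq]; exact tendsto_const_nhds

noncomputable def x (i : ℕ) : c0 :=
  if i % 2 = 1 then e (i - 1) + ((1 / 4 : ℝ) ^ (i / 2)) • e i else e i

noncomputable def S (α : ℕ → ℝ) (j : ℕ) : c0 := ∑ i ∈ Finset.range (j + 1), α i • x i

noncomputable def Y (α : ℕ → ℝ) (k : ℕ) : ℝ :=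
  if k % 2 = 1 then (1 / 4) ^ (k / 2) * α k else α k + α (k + 1)

lemma S_apply (α : ℕ → ℝ) (b k : ℕ) :
    (∑ i ∈ Finset.range (2 * b), α i • x i) k = if k < 2 * b then Y α k else 0 := by
  induction b with
  | zero => simp
  | succ b ih =>
    rw [show 2 * (b + 1) = 2 * b + 1 + 1 by ring, Finset.sum_range_succ, Finset.sum_range_succ]
    simp only [ZeroAtInftyContinuousMap.add_apply, ih, ZeroAtInftyContinuousMap.smul_apply]
    rw [x, x, if_neg (show ¬ (2 * b) % 2 = 1 by omega), if_pos (show (2 * b + 1) % 2 = 1 by omega)]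
    simp only [ZeroAtInftyContinuousMap.add_apply, ZeroAtInftyContinuousMap.smul_apply, e_apply,
      Nat.add_sub_cancel, smul_eq_mul]
    rcases lt_trichotomy k (2 * b) with h | h | h
    · simp [h, h.ne, show k ≠ 2 * b + 1 by omega, show k < 2 * b + 1 + 1 by omega]
    · subst h; simp [Y]
    · by_cases h2 : k = 2 * b + 1
      · subst h2
        have : (2 * b + 1) % 2 = 1 := by omega
        simp [Y, this, mul_comm]
      · simp [h.ne', h2, show ¬ k < 2 * b by omega, show ¬ k < 2 * b + 1 + 1 by omega]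

lemma tS (α : ℕ → ℝ) (n j k : ℕ) :
    (t n j • S α j) k = t n j * (if k < j + 1 then Y α k else 0) := by
  by_cases h : j % 2 = 1
  · have : j + 1 = 2 * ((j + 1) / 2) := by omega
    rw [ZeroAtInftyContinuousMap.smul_apply, S, this, S_apply, smul_eq_mul]
  · simp [t, h]

lemma uniq {y : c0} {α : ℕ → ℝ} (h : Exp t x y α) (k : ℕ) : y k = Y α k := by
  obtain ⟨σ, h1, h2⟩ := h
  have h3 : ∀ n, k < n → σ n k = Y α k := by
    intro n hn
    have a1 := ((ev k).continuous.tendsto _).comp (h1 n)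
    have a2 := ((t_sum n).mul_right (Y α k)).tendsto_sum_nat
    rw [one_mul] at a2
    refine tendsto_nhds_unique a1 (a2.congr fun m => ?_)
    rw [Function.comp_apply, ev_apply, sum_apply]
    refine Finset.sum_congr rfl fun j _ => ?_
    have := tS α n j k
    rw [S] at this
    rw [this]
    split_ifs with h
    · rfl
    · rw [t_zero (by omega)]; simp
  exact tendsto_nhds_unique (((ev k).continuous.tendsto _).comp h2)
    (tendsto_const_nhds.congr' ((eventually_gt_atTop k).mono fun n hn => (h3 n hn).symm))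

lemma Y_inj {α β : ℕ → ℝ} (h : ∀ k, Y α k = Y β k) : α = β := by
  have h1 : ∀ k, k % 2 = 1 → α k = β k := fun k hk => by
    have := h k
    simp only [Y, hk, if_true] at this
    exact mul_left_cancel₀ (by positivity) this
  funext k
  by_cases hk : k % 2 = 1
  · exact h1 k hk
  · have := h k
    simp only [Y, hk, if_false] at this
    rw [h1 (k + 1) (by omega)] at this
    linarith

noncomputable def co (y : c0) (i : ℕ) : ℝ :=
  if i % 2 = 1 then 4 ^ (i / 2) * y i else y i - 4 ^ (i / 2) * y (i + 1)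

lemma Y_co (y : c0) (k : ℕ) : Y (co y) k = y k := by
  unfold Y co
  by_cases hk : k % 2 = 1
  · simp [hk]
  · rw [if_neg hk, if_neg hk, if_pos (by omega), show (k + 1) / 2 = k / 2 by omega]; ring

lemma exi (y : c0) : Exp t x y (co y) := by
  have h1 : ∀ n j, t n j • S (co y) j = t n j • tr y (j + 1) := fun n j => by
    ext k
    rw [tS, Y_co, ZeroAtInftyContinuousMap.smul_apply, tr_apply, smul_eq_mul]
  have h2 : ∀ n, Summable fun j => t n j • tr y (j + 1) := fun n => by
    refine Summable.of_norm_bounded ((t_sum n).summable.mul_right ‖y‖) fun j => ?_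
    rw [norm_smul, Real.norm_eq_abs, abs_of_nonneg (t_nonneg n j)]
    refine mul_le_mul_of_nonneg_left (norm_le _ (norm_nonneg _) fun k => ?_) (t_nonneg n j)
    rw [tr_apply]; split_ifs
    · exact apply_le y k
    · simp
  refine ⟨fun n => ∑' j, t n j • tr y (j + 1), fun n => ?_, ?_⟩
  · exact (h2 n).hasSum.tendsto_sum_nat.congr fun m =>
      Finset.sum_congr rfl fun j _ => (h1 n j).symm
  · rw [Metric.tendsto_atTop]
    intro ε hε
    obtain ⟨M, hM⟩ := Metric.tendsto_atTop.1 (tr_lim y) (ε / 2) (half_pos hε)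
    refine ⟨M, fun n hn => ?_⟩
    have a1 := (h2 n).hasSum.sub ((t_sum n).smul_const y)
    rw [one_smul] at a1
    have a2 := (t_sum n).mul_right (ε / 2)
    rw [dist_eq_norm]
    refine (a1.norm_le_of_bounded a2 fun j => ?_).trans_lt (by linarith)
    have a3 : t n j • tr y (j + 1) - t n j • y = t n j • (tr y (j + 1) - y) := by
      ext k; simp [mul_sub]
    rw [a3, norm_smul, Real.norm_eq_abs, abs_of_nonneg (t_nonneg n j)]
    by_cases hj : j < 2 * n
    · rw [t_zero hj]; simp
    · refine mul_le_mul_of_nonneg_left ?_ (t_nonneg n j)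
      rw [← dist_eq_norm]; exact (hM _ (by omega)).le

theorem main : ∃ (t : ℕ → ℕ → ℝ) (E : Type) (_ : NormedAddCommGroup E) (_ : NormedSpace ℝ E)
    (x : ℕ → E), CompleteSpace E ∧ Consistent t ∧ (∀ y, ∃! α, Exp t x y α) ∧
      ∃ (y : E) (α : ℕ → ℝ) (n : ℕ), Exp t x y α ∧ ¬ ∃ s : E, Tendsto
        (fun m => ∑ i ∈ Finset.range m, ((∑' j, t n (j + i)) * α i) • x i) atTop (𝓝 s) := by
  let y : c0 := mk (fun k => (1 / 2) ^ (k / 2)) ((tendsto_pow_atTop_nhds_zero_of_lt_one
    (by norm_num) (by norm_num)).comp (Nat.tendsto_div_const_atTop (by norm_num)))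
  refine ⟨t, c0, inferInstance, inferInstance, x, inferInstance, cons,
    fun y => ⟨co y, exi y, fun α h => Y_inj fun k => by rw [← uniq h, Y_co]⟩,
    y, co y, 0, exi y, ?_⟩
  rintro ⟨s, hs⟩
  have h1 := (hs.comp (tendsto_add_atTop_nat 1)).sub hs
  simp only [Function.comp_apply, Finset.sum_range_succ, add_sub_cancel_left, sub_self] at h1
  obtain ⟨M, hM⟩ := Metric.tendsto_atTop.1 h1 (1 / 2) (by norm_num)
  have h2 := hM (2 * M + 1) (by omega)
  rw [dist_zero_right] at h2
  have h3 := (apply_le _ (2 * M)).trans_lt h2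
  have h4 : t 0 (0 + (2 * M + 1)) ≤ ∑' j, t 0 (j + (2 * M + 1)) :=
    ((summable_nat_add_iff _).2 (t_sum 0).summable).le_tsum 0 fun _ _ => t_nonneg _ _
  rw [zero_add, t_odd, g, if_pos (by omega)] at h4
  have h5 : (2 * M + 1) % 2 = 1 := by omega
  have h6 : (2 * M + 1) / 2 = M := by omega
  have h7 : co y (2 * M + 1) = 2 ^ M := by
    simp only [co, h5, if_true, h6, y, mk_apply]
    rw [← mul_pow]; norm_num
  have h8 : x (2 * M + 1) (2 * M) = 1 := by simp [x, h5, e_apply]
  rw [ZeroAtInftyContinuousMap.smul_apply, h7, h8, smul_eq_mul, mul_one] at h3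
  have h9 : (1 / 2 : ℝ) ^ (M - 0 + 1) * 2 ^ M = 1 / 2 := by
    rw [Nat.sub_zero, pow_succ, mul_right_comm, ← mul_pow]; norm_num
  have h10 := mul_le_mul_of_nonneg_right h4 (show (0:ℝ) ≤ 2 ^ M by positivity)
  linarith [le_abs_self ((∑' j, t 0 (j + (2 * M + 1))) * 2 ^ M)]

end H91.TBasis
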