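import Pool.Agent.H91.WShift

set_option autoImplicit false

namespace H91.ToepSpec
open H91.WShift Polynomial Complex Metric

/-- the `k`-th Fourier coefficient of `F` on the unit circle -/
noncomputable def fc (F : ℂ → ℂ) (k : ℤ) : ℂ :=
  fourierCoeff (fun t : AddCircle (1 : ℝ) => F (fourier 1 t)) k

/-- the standard orthonormal basis of `ℓ²(ℕ)` -/
noncomputable def e (n : ℕ) : L2 := lp.single 2 n 1

/-- `T` is the Toeplitz operator with symbol `F`, where `H²` is identified with `H` by sending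
`zⁿ` to `b n`: the matrix of `T` has the entries `F^(m-n)`. -/
def IsToeplitz {H : Type} [NormedAddCommGroup H] [InnerProductSpace ℂ H] (b : ℕ → H)
    (F : ℂ → ℂ) (T : H →L[ℂ] H) : Prop :=
  ∀ m n : ℕ, inner ℂ (b m) (T (b n)) = fc F ((m : ℤ) - n)

noncomputable def T : L2 →L[ℂ] L2 := S + (1 / 4 : ℂ) • R
noncomputable def pp : ℂ[X] := X - C (11 / 40) * X ^ 3 + C (3 / 50) * X ^ 5

lemma T_zero (x : L2) : T x 0 = 1 / 4 * x 1 := by simp [T, S_zero, R_apply]
lemma T_succ (x : L2) (n : ℕ) : T x (n + 1) = x n + 1 / 4 * x (n + 2) := by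
  simp [T, S_succ, R_apply]

lemma circ (z : ℂ) (hz : ‖z‖ = 1) : z + 1 / (4 * z) = ⟨5 / 4 * z.re, 3 / 4 * z.im⟩ := by
  have h : 1 / (4 * z) = 1 / 4 * (starRingEnd ℂ) z := by
    rw [← Complex.inv_eq_conj hz]; ring
  rw [h]
  apply Complex.ext <;> simp <;> ring

lemma bd_circ (z : ℂ) (hz : ‖z‖ = 1) : ‖pp.eval (z + 1 / (4 * z))‖ ≤ 181 / 200 := by
  rw [circ z hz, ← sq_le_sq₀ (norm_nonneg _) (by norm_num), Complex.sq_norm]
  have h1 : z.im ^ 2 = 1 - z.re ^ 2 := by
    have := Complex.sq_norm z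
    rw [hz, normSq_apply] at this
    nlinarith
  have h2 : normSq (pp.eval ⟨5 / 4 * z.re, 3 / 4 * z.im⟩) =
      2031214761 / 2621440000 + 1515421 / 4096000 * z.re ^ 2 - 2532569 / 2048000 * (z.re ^ 2) ^ 2 +
      121727 / 128000 * (z.re ^ 2) ^ 3 - 3 / 50 * (z.re ^ 2) ^ 4 + 9 / 2500 * (z.re ^ 2) ^ 5 := by
    generalize z.re = x at *
    generalize z.im = y at *
    simp [pp, normSq_apply, pow_succ]
    have e4 : y ^ 4 = (1 - x ^ 2) ^ 2 := by rw [← h1]; ring
    have e6 : y ^ 6 = (1 - x ^ 2) ^ 3 := by rw [← h1]; ring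
    have e8 : y ^ 8 = (1 - x ^ 2) ^ 4 := by rw [← h1]; ring
    have e10 : y ^ 10 = (1 - x ^ 2) ^ 5 := by rw [← h1]; ring
    ring_nf
    rw [h1, e4, e6, e8, e10]
    ring
  rw [h2]
  have h3 : 0 ≤ z.re ^ 2 := sq_nonneg _
  have h4 : z.re ^ 2 ≤ 1 := by nlinarith [sq_nonneg z.im]
  generalize z.re ^ 2 = s at *
  have h5 : s ^ 5 ≤ s ^ 4 := pow_le_pow_of_le_one h3 h4 (by norm_num)
  nlinarith [mul_nonneg (sub_nonneg.2 h4) (sq_nonneg (s - 1 / 5)), mul_nonneg h3 (sub_nonneg.2 h4),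
    mul_nonneg h3 (sq_nonneg (s - 1 / 5)), mul_nonneg (mul_nonneg h3 h3) (sub_nonneg.2 h4),
    mul_nonneg (mul_nonneg h3 (sub_nonneg.2 h4)) (sq_nonneg (s - 1 / 5)), pow_nonneg h3 4]

lemma bd_ann (z : ℂ) (h1 : 1 / 4 ≤ ‖z‖) (h2 : ‖z‖ ≤ 1) :
    ‖pp.eval (z + 1 / (4 * z))‖ ≤ 181 / 200 := by
  have hb : ∀ w : ℂ, ‖w‖ = 1 / 4 ∨ ‖w‖ = 1 → ‖pp.eval (w + 1 / (4 * w))‖ ≤ 181 / 200 := by
    rintro w (h | h)
    · have hw : w ≠ 0 := by rintro rfl; norm_num at h
      have := bd_circ (1 / (4 * w)) (by simp [h])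
      rwa [show 1 / (4 * w) + 1 / (4 * (1 / (4 * w))) = w + 1 / (4 * w) by field_simp; ring] at this
    · exact bd_circ w h
  set U : Set ℂ := {w | 1 / 4 < ‖w‖ ∧ ‖w‖ < 1}
  have hUo : IsOpen U := (isOpen_lt continuous_const continuous_norm).inter
    (isOpen_lt continuous_norm continuous_const)
  have hcl : closure U ⊆ {w | 1 / 4 ≤ ‖w‖ ∧ ‖w‖ ≤ 1} :=
    closure_minimal (fun w hw => ⟨hw.1.le, hw.2.le⟩) ((isClosed_le continuous_const
      continuous_norm).inter (isClosed_le continuous_norm continuous_const))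
  have key : ∀ w : ℂ, 1 / 4 ≤ ‖w‖ → ‖w‖ ≤ 1 → w ∉ U → ‖w‖ = 1 / 4 ∨ ‖w‖ = 1 := by
    intro w a b c
    by_contra h
    push Not at h
    exact c ⟨lt_of_le_of_ne a h.1.symm, lt_of_le_of_ne b h.2⟩
  by_cases hz : z ∈ U
  · refine Complex.norm_le_of_forall_mem_frontier_norm_le
      (f := fun w => pp.eval (w + 1 / (4 * w))) (U := U)
      ((isBounded_ball (x := 0) (r := 1)).subset fun w hw => mem_ball_zero_iff.2 hw.2) ?_ ?_
      (subset_closure hz)
    · refine DifferentiableOn.diffContOnCl fun w hw => ?_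
      have hw0 : 4 * w ≠ 0 := by
        have := (hcl hw).1
        refine mul_ne_zero (by norm_num) ?_
        rintro rfl; norm_num at this
      refine ((pp.differentiable _).comp w ?_).differentiableWithinAt
      fun_prop (disch := assumption)
    · intro w hw
      rw [hUo.frontier_eq] at hw
      exact hb w (key w (hcl hw.1).1 (hcl hw.1).2 hw.2)
  · exact hb z (key z h1 h2 hz)

lemma spec_out (z : ℂ) (hz : 1 < ‖z‖) : z + 1 / (4 * z) ∉ spectrum ℂ T := by
  have hz0 : z ≠ 0 := by rintro rfl; norm_num at hz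
  rw [spectrum.notMem_iff]
  have e : algebraMap ℂ (L2 →L[ℂ] L2) (z + 1 / (4 * z)) - T =
      algebraMap ℂ _ z * ((1 - (1 / (4 * z)) • R) * (1 - (1 / z) • S)) := by
    rw [Algebra.algebraMap_eq_smul_one, Algebra.algebraMap_eq_smul_one, T]
    simp only [mul_sub, sub_mul, smul_mul_assoc, mul_smul_comm, one_mul, mul_one, RS, smul_sub,
      smul_smul]
    match_scalars <;> field_simp <;> ring
  rw [e]
  refine ((IsUnit.mk0 z hz0).map _).mul (IsUnit.mul ?_ ?_) <;>
    refine isUnit_one_sub_of_norm_lt_one ?_ <;> rw [norm_smul]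
  · refine (mul_le_of_le_one_right (norm_nonneg _) R_norm).trans_lt ?_
    rw [norm_div, norm_mul, norm_one, div_lt_one (by simpa using hz0)]
    simp; linarith
  · refine (mul_le_of_le_one_right (norm_nonneg _) S_norm).trans_lt ?_
    rw [norm_div, norm_one, div_lt_one (by positivity)]; exact hz

theorem main' : ∃ (P Q p : ℂ[X]) (T : L2 →L[ℂ] L2) (M : ℝ),
    (∀ z : Circle, Q.eval (z : ℂ) ≠ 0) ∧
    Function.Injective (fun z : Circle => P.eval (z : ℂ) / Q.eval (z : ℂ)) ∧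
    IsToeplitz e (fun z => P.eval z / Q.eval z) T ∧
    (∀ w ∈ spectrum ℂ T, ‖p.eval w‖ ≤ M) ∧ M < ‖aeval T p‖ := by
  have hF : ∀ z : ℂ, z ≠ 0 → (X ^ 2 + C (1 / 4) : ℂ[X]).eval z / (X : ℂ[X]).eval z =
      z + 1 / (4 * z) := by
    intro z hz; simp; field_simp
  refine ⟨X ^ 2 + C (1 / 4), X, pp, T, 181 / 200, fun z => by simp, fun z w h => ?_, ?_, ?_, ?_⟩
  · simp only [hF _ (Circle.coe_ne_zero _), circ _ (Circle.norm_coe _), Complex.mk.injEq] at h
    exact Circle.ext (Complex.ext (by linarith [h.1]) (by linarith [h.2]))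
  · intro m n
    unfold e fc
    rw [lp.inner_single_left, RCLike.inner_apply, map_one, mul_one]
    have e : (fun t : AddCircle (1 : ℝ) => (X ^ 2 + C (1 / 4) : ℂ[X]).eval (fourier 1 t) /
        (X : ℂ[X]).eval (fourier 1 t)) = ⇑(fourier (T := 1) 1) + fun t => 1 / 4 * fourier (-1) t := by
      funext t
      have hn : ‖fourier 1 t‖ = 1 := by rw [fourier_apply]; exact Circle.norm_coe _
      rw [hF _ (by intro h; simp [h] at hn), Pi.add_apply, fourier_neg, ← Complex.inv_eq_conj hn]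
      ring
    have int : ∀ G : AddCircle (1 : ℝ) → ℂ, Continuous G →
        MeasureTheory.Integrable G AddCircle.haarAddCircle := fun G hG =>
      hG.integrable_of_hasCompactSupport (HasCompactSupport.of_compactSpace _)
    simp only
    rw [e, fourierCoeff.add (int _ (by fun_prop)) (int _ (by fun_prop)), Pi.add_apply,
      fourierCoeff.const_mul, fourierCoeff_fourier, fourierCoeff_fourier]
    cases m with
    | zero =>
      rw [T_zero]
      simp only [lp.single_apply, Pi.single_apply]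
      split_ifs <;> first | omega | simp
    | succ m =>
      rw [T_succ]
      simp only [lp.single_apply, Pi.single_apply]
      split_ifs <;> first | omega | simp
  · intro w hw
    obtain ⟨z, hz⟩ : ∃ z : ℂ, z ^ 2 - w * z + 1 / 4 = 0 := by
      obtain ⟨s, hs⟩ := IsAlgClosed.exists_pow_nat_eq (w ^ 2 - 1) two_pos
      exact ⟨(w + s) / 2, by linear_combination hs / 4⟩
    have hz0 : z ≠ 0 := by rintro rfl; norm_num at hz
    have e1 : w = z + 1 / (4 * z) := by field_simp; linear_combination -4 * hz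
    have e2 : w = 1 / (4 * z) + 1 / (4 * (1 / (4 * z))) := by rw [e1]; field_simp; ring
    have a1 : ‖z‖ ≤ 1 := not_lt.1 fun h => spec_out z h (e1 ▸ hw)
    have a2 : ‖1 / (4 * z)‖ ≤ 1 := not_lt.1 fun h => spec_out _ h (e2 ▸ hw)
    rw [e1]
    refine bd_ann z ?_ a1
    rw [norm_div, norm_mul, norm_one, div_le_one (by simpa using hz0)] at a2
    simp at a2; linarith
  · set e0 : L2 := lp.single 2 0 1 with he
    have h0 : ‖e0‖ = 1 := by rw [he, lp.norm_single (by norm_num)]; simp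
    have h1 := (aeval T pp).le_opNorm e0
    rw [h0, mul_one] at h1
    have h2 := sum_le (aeval T pp e0) {1, 3}
    have c0 : e0 0 = 1 := by simp [he]
    have c1 : ∀ n, e0 (n + 1) = 0 := by intro n; simp [he]
    have t1 : ∀ x : L2, T x 1 = x 0 + 1 / 4 * x 2 := fun x => T_succ x 0
    have t2 : ∀ x : L2, T x 2 = x 1 + 1 / 4 * x 3 := fun x => T_succ x 1
    have t3 : ∀ x : L2, T x 3 = x 2 + 1 / 4 * x 4 := fun x => T_succ x 2
    have t4 : ∀ x : L2, T x 4 = x 3 + 1 / 4 * x 5 := fun x => T_succ x 3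
    have t5 : ∀ x : L2, T x 5 = x 4 + 1 / 4 * x 6 := fun x => T_succ x 4
    have t6 : ∀ x : L2, T x 6 = x 5 + 1 / 4 * x 7 := fun x => T_succ x 5
    have t7 : ∀ x : L2, T x 7 = x 6 + 1 / 4 * x 8 := fun x => T_succ x 6
    have e : ∀ n, aeval T pp e0 n = T e0 n - 11 / 40 * T (T (T e0)) n +
        3 / 50 * T (T (T (T (T e0)))) n := by
      intro n
      simp [pp, pow_succ, Algebra.algebraMap_eq_smul_one]
    have w1 : aeval T pp e0 1 = ((141 / 160 : ℝ) : ℂ) := by
      rw [e]; simp only [T_zero, t1, t2, t3, t4, t5, c0, c1]; norm_num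
    have w3 : aeval T pp e0 3 = ((-43 / 200 : ℝ) : ℂ) := by
      rw [e]; simp only [T_zero, t1, t2, t3, t4, t5, t6, t7, c0, c1]; norm_num
    rw [Finset.sum_pair (by norm_num), w1, w3, norm_real, norm_real, Real.norm_eq_abs,
      Real.norm_eq_abs, sq_abs, sq_abs] at h2
    nlinarith [norm_nonneg (aeval T pp e0)]

/-- some polynomial violates von Neumann's inequality on the spectrum of `T` -/
def Violates {H : Type} [NormedAddCommGroup H] [NormedSpace ℂ H] (T : H →L[ℂ] H) : Prop :=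
  ∃ (p : ℂ[X]) (M : ℝ), (∀ w ∈ spectrum ℂ T, ‖p.eval w‖ ≤ M) ∧ M < ‖aeval T p‖

/-- the Toeplitz operator with symbol `F` exists as a bounded operator and its spectrum is not a
spectral set for it -/
def BadSymbol {H : Type} [NormedAddCommGroup H] [InnerProductSpace ℂ H] (b : ℕ → H)
    (F : ℂ → ℂ) : Prop :=
  ∃ T : H →L[ℂ] H, IsToeplitz b F T ∧ Violates T

theorem main : ∃ P Q : ℂ[X], (∀ z : Circle, Q.eval (z : ℂ) ≠ 0) ∧
    Function.Injective (fun z : Circle => P.eval (z : ℂ) / Q.eval (z : ℂ)) ∧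
    BadSymbol e (fun z => P.eval z / Q.eval z) := by
  obtain ⟨P, Q, p, T, M, h1, h2, h3, h4⟩ := main'
  exact ⟨P, Q, h1, h2, T, h3, p, M, h4⟩

end H91.ToepSpec
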