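import Mathlib

set_option autoImplicit false

namespace H91.Tsir

open Finset Filter Topology

/-- admissible trees -/
inductive Tr
  | leaf (i : ℕ) : Tr
  | node (k : ℕ) (p : ℕ → ℕ) (hp : Monotone p) (hk : k ≤ p 0) (ch : ℕ → Tr) : Tr

instance : Nonempty Tr := ⟨.leaf 0⟩

/-- the seminorm of a tree -/
noncomputable def Q : Tr → (ℕ → ℝ) → ℝ
  | .leaf i, y => |y i|
  | .node k p _ _ ch, y =>
      1 / 2 * ∑ l ∈ range k, Q (ch l) ((Set.Ico (p l) (p (l + 1))).indicator y)

lemma Q_add (γ : Tr) : ∀ x y, Q γ (x + y) ≤ Q γ x + Q γ y := by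
  induction γ with
  | leaf i => intro x y; exact abs_add_le _ _
  | node k p hp hk ch ih =>
    intro x y
    simp only [Q]
    rw [← mul_add, ← sum_add_distrib]
    refine mul_le_mul_of_nonneg_left (sum_le_sum fun l _ => ?_) (by norm_num)
    rw [Set.indicator_add']; exact ih l _ _

lemma Q_smul (γ : Tr) (c : ℝ) : ∀ x, Q γ (c • x) = |c| * Q γ x := by
  induction γ with
  | leaf i => intro x; simp [Q, abs_mul]
  | node k p hp hk ch ih =>
    intro x
    simp only [Q]
    have : ∀ l, (Set.Ico (p l) (p (l + 1))).indicator (c • x) =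
        c • (Set.Ico (p l) (p (l + 1))).indicator x := fun l => by
      funext n; by_cases h : n ∈ Set.Ico (p l) (p (l + 1)) <;> simp [h]
    simp only [this, ih, ← mul_sum]; ring

lemma Q_mono (γ : Tr) : ∀ x y : ℕ → ℝ, (∀ n, |x n| ≤ |y n|) → Q γ x ≤ Q γ y := by
  induction γ with
  | leaf i => intro x y h; exact h i
  | node k p hp hk ch ih =>
    intro x y h
    simp only [Q]
    refine mul_le_mul_of_nonneg_left (sum_le_sum fun l _ => ih l _ _ fun n => ?_) (by norm_num)
    by_cases hn : n ∈ Set.Ico (p l) (p (l + 1)) <;> simp [hn, h n]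

lemma Q_zero (γ : Tr) : Q γ 0 = 0 := by simpa using Q_smul γ 0 0

lemma Q_nonneg (γ : Tr) (x : ℕ → ℝ) : 0 ≤ Q γ x := by
  rw [← Q_zero γ]; exact Q_mono γ _ _ fun n => by simp

lemma Q_cont (γ : Tr) : Continuous (Q γ) := by
  induction γ with
  | leaf i => exact (continuous_apply i).abs
  | node k p hp hk ch ih =>
    refine continuous_const.mul (continuous_finsetSum _ fun l _ => (ih l).comp ?_)
    refine continuous_pi fun n => ?_
    by_cases hn : n ∈ Set.Ico (p l) (p (l + 1))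
    · simp only [Set.indicator_of_mem hn]; exact continuous_apply n
    · simp only [Set.indicator_of_notMem hn]; exact continuous_const

lemma sum_ind {p : ℕ → ℕ} (hp : Monotone p) (k i : ℕ) :
    ∑ l ∈ range k, (if p l ≤ i ∧ i < p (l + 1) then (1:ℝ) else 0) ≤ 1 := by
  have : ∀ l ∈ range k, (if p l ≤ i ∧ i < p (l + 1) then (1:ℝ) else 0) =
      (if i < p (l + 1) then (1:ℝ) else 0) - (if i < p l then 1 else 0) := by
    intro l _
    have : p l ≤ p (l + 1) := hp (Nat.le_succ l)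
    split_ifs <;> first | omega | simp
  rw [sum_congr rfl this, Finset.sum_range_sub (fun l => if i < p l then (1:ℝ) else 0)]
  split_ifs <;> norm_num

lemma Q_single (i : ℕ) (γ : Tr) : ∀ y : ℕ → ℝ, (∀ n, n ≠ i → y n = 0) → Q γ y ≤ |y i| := by
  induction γ with
  | leaf j =>
    intro y h
    by_cases hj : j = i
    · subst hj; exact le_rfl
    · simp [Q, h j hj]
  | node k p hp hk ch ih =>
    intro y h
    simp only [Q]
    have h1 : ∀ l ∈ range k, Q (ch l) ((Set.Ico (p l) (p (l + 1))).indicator y) ≤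
        (if p l ≤ i ∧ i < p (l + 1) then (1:ℝ) else 0) * |y i| := by
      intro l _
      refine (ih l _ fun n hn => ?_).trans ?_
      · simp [Set.indicator, h n hn]
      · simp only [Set.indicator, Set.mem_Ico]; split_ifs <;> simp
    have h2 := sum_le_sum h1
    rw [← sum_mul] at h2
    have h3 := mul_le_mul_of_nonneg_right (sum_ind hp k i) (abs_nonneg (y i))
    linarith [abs_nonneg (y i)]

/-- Tsirelson space as a submodule -/
def Sp : Submodule ℝ (ℕ → ℝ) where
  carrier := {x | ∃ C, ∀ γ, Q γ x ≤ C}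
  add_mem' := by
    rintro x y ⟨C, hC⟩ ⟨D, hD⟩
    exact ⟨C + D, fun γ => (Q_add γ x y).trans (add_le_add (hC γ) (hD γ))⟩
  zero_mem' := ⟨0, fun γ => (Q_zero γ).le⟩
  smul_mem' := by
    rintro c x ⟨C, hC⟩
    exact ⟨|c| * C, fun γ => by rw [Q_smul]; gcongr; exact hC γ⟩

/-- Tsirelson space -/
def T : Type := ↥Sp

noncomputable instance : AddCommGroup T := inferInstanceAs (AddCommGroup ↥Sp)
noncomputable instance : Module ℝ T := inferInstanceAs (Module ℝ ↥Sp)

/-- underlying sequence -/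
def val : T →ₗ[ℝ] (ℕ → ℝ) := Sp.subtype

/-- constructor -/
def mk (x : ℕ → ℝ) (h2 : ∃ C, ∀ γ, Q γ x ≤ C) : T := (⟨x, h2⟩ : ↥Sp)

@[simp] lemma val_mk (x : ℕ → ℝ) (h2 : ∃ C, ∀ γ, Q γ x ≤ C) : val (mk x h2) = x := rfl

lemma val_inj {x y : T} (h : val x = val y) : x = y := Subtype.ext h
lemma val_bdd (x : T) : BddAbove (Set.range fun γ => Q γ (val x)) := by
  obtain ⟨C, hC⟩ := (show ↥Sp from x).2
  exact ⟨C, by rintro _ ⟨γ, rfl⟩; exact hC γ⟩

noncomputable instance : NormedAddCommGroup T :=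
  AddGroupNorm.toNormedAddCommGroup
    { toFun := fun x => ⨆ γ, Q γ (val x)
      map_zero' := by simp [Q_zero]
      add_le' := fun x y => ciSup_le fun γ => by
        rw [map_add]
        exact (Q_add γ _ _).trans (add_le_add (le_ciSup (val_bdd x) γ) (le_ciSup (val_bdd y) γ))
      neg' := fun x => by
        congr 1; funext γ
        rw [map_neg, ← neg_one_smul ℝ (val x), Q_smul]; simp
      eq_zero_of_map_eq_zero' := fun x hx => by
        apply val_inj; funext m
        have := le_ciSup (val_bdd x) (.leaf m)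
        rw [hx] at this
        simpa [Q] using this }

lemma Q_le (x : T) (γ : Tr) : Q γ (val x) ≤ ‖x‖ := le_ciSup (val_bdd x) γ
lemma norm_le {x : T} {C : ℝ} (h : ∀ γ, Q γ (val x) ≤ C) : ‖x‖ ≤ C := ciSup_le h
lemma lt_norm {x : T} {C : ℝ} (h : C < ‖x‖) : ∃ γ, C < Q γ (val x) := exists_lt_of_lt_ciSup h

noncomputable instance : NormedSpace ℝ T where
  norm_smul_le c x := norm_le fun γ => by
    rw [map_smul, Q_smul, Real.norm_eq_abs]; gcongr; exact Q_le x γ

lemma coord_le (x : T) (m : ℕ) : |val x m| ≤ ‖x‖ := Q_le x (.leaf m)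

lemma norm_mono {x y : T} (h : ∀ n, |val x n| ≤ |val y n|) : ‖x‖ ≤ ‖y‖ :=
  norm_le fun γ => (Q_mono γ _ _ h).trans (Q_le y γ)

/-- coordinate projections -/
noncomputable def pj (s : Set ℕ) : T →L[ℝ] T :=
  LinearMap.mkContinuous
    { toFun := fun x => mk (s.indicator (val x)) ⟨‖x‖, fun γ => (Q_mono γ _ _ fun n => by
        by_cases h : n ∈ s <;> simp [h]).trans (Q_le x γ)⟩
      map_add' := fun x y => val_inj (by simp [Set.indicator_add'])
      map_smul' := fun c x => val_inj (by funext n; by_cases h : n ∈ s <;> simp [h]) }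
    1 (fun x => by
      rw [one_mul]; exact norm_mono fun n => by by_cases h : n ∈ s <;> simp [h])

lemma val_pj (s : Set ℕ) (x : T) : val (pj s x) = s.indicator (val x) := rfl

lemma pj_mono {s t : Set ℕ} (h : s ⊆ t) (x : T) : ‖pj s x‖ ≤ ‖pj t x‖ := norm_mono fun n => by
  rw [val_pj, val_pj]
  by_cases hn : n ∈ s
  · simp [hn, h hn]
  · simp [hn]

lemma pj_le (s : Set ℕ) (x : T) : ‖pj s x‖ ≤ ‖x‖ := norm_mono fun n => by
  rw [val_pj]; by_cases hn : n ∈ s <;> simp [hn]

lemma lower (x : T) {k : ℕ} {p : ℕ → ℕ} (hp : Monotone p) (hk : k ≤ p 0) :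
    1 / 2 * ∑ l ∈ range k, ‖pj (Set.Ico (p l) (p (l + 1))) x‖ ≤ ‖x‖ := by
  refine le_of_forall_pos_le_add fun ε hε => ?_
  have hη : 0 < ε / (k + 1) := by positivity
  choose ch hch using fun l => lt_norm (sub_lt_self ‖pj (Set.Ico (p l) (p (l + 1))) x‖ hη)
  have h1 := Q_le x (.node k p hp hk ch)
  simp only [Q] at h1
  have h2 := sum_le_sum (s := range k) fun l _ => (hch l).le
  simp only [sum_sub_distrib, sum_const, card_range, nsmul_eq_mul, val_pj] at h2
  have h3 : (k : ℝ) * (ε / (k + 1)) ≤ ε := by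
    rw [mul_div_assoc', div_le_iff₀ (by positivity)]; nlinarith
  linarith

lemma upper {x : T} {C : ℝ} (h1 : ∀ n, |val x n| ≤ C)
    (h2 : ∀ (k : ℕ) (p : ℕ → ℕ), Monotone p → k ≤ p 0 →
      1 / 2 * ∑ l ∈ range k, ‖pj (Set.Ico (p l) (p (l + 1))) x‖ ≤ C) : ‖x‖ ≤ C := by
  refine norm_le fun γ => ?_
  cases γ with
  | leaf i => exact h1 i
  | node k p hp hk ch =>
    refine le_trans ?_ (h2 k p hp hk)
    simp only [Q]
    exact mul_le_mul_of_nonneg_left (sum_le_sum fun l _ => Q_le (pj _ x) _) (by norm_num)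

lemma tail_small (x : T) : Tendsto (fun m => ‖pj (Set.Ici m) x‖) atTop (𝓝 0) := by
  by_contra hc
  obtain ⟨δ, hδ, hfr⟩ : ∃ δ > 0, ∀ m, δ < ‖pj (Set.Ici m) x‖ := by
    rw [Metric.tendsto_atTop] at hc
    push Not at hc
    obtain ⟨ε, hε, h⟩ := hc
    refine ⟨ε / 2, half_pos hε, fun m => ?_⟩
    obtain ⟨n, hn, h'⟩ := h m
    rw [dist_zero_right, norm_norm] at h'
    exact ((half_lt_self hε).trans_le h').trans_le (pj_mono (Set.Ici_subset_Ici.mpr hn) x)
  have hq : ∀ m, ∃ q, m ≤ q ∧ δ ≤ ‖pj (Set.Ico m q) x‖ := by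
    intro m
    obtain ⟨γ, hγ⟩ := lt_norm (hfr m)
    have ht : Tendsto (fun q => val (pj (Set.Ico m q) x)) atTop (𝓝 (val (pj (Set.Ici m) x))) := by
      refine tendsto_pi_nhds.mpr fun n => tendsto_const_nhds.congr' ?_
      filter_upwards [eventually_gt_atTop n] with q hq
      simp [val_pj, Set.indicator, hq]
    obtain ⟨q, h1, h2⟩ := (((((Q_cont γ).tendsto _).comp ht).eventually (lt_mem_nhds hγ)).and
      (eventually_ge_atTop m)).exists
    exact ⟨q, h2, h1.le.trans (Q_le _ γ)⟩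
  choose q h1 h2 using hq
  obtain ⟨k, hk⟩ := exists_nat_gt (2 * ‖x‖ / δ)
  let P : ℕ → ℕ := fun i => Nat.rec k (fun _ p => q p) i
  have h3 := lower x (k := k) (p := P) (monotone_nat_of_le_succ fun i => h1 _) le_rfl
  have h4 : ∑ l ∈ range k, δ ≤ ∑ l ∈ range k, ‖pj (Set.Ico (P l) (P (l + 1))) x‖ :=
    sum_le_sum fun l _ => h2 (P l)
  rw [sum_const, card_range, nsmul_eq_mul] at h4
  rw [div_lt_iff₀ hδ] at hk
  linarith

lemma split (m : ℕ) (x : T) : pj (Set.Iio m) x + pj (Set.Ici m) x = x := by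
  apply val_inj; funext n
  simp only [map_add, Pi.add_apply, val_pj, Set.indicator, Set.mem_Iio, Set.mem_Ici]
  split_ifs <;> first | omega | simp

lemma split' {m q : ℕ} (h : m ≤ q) (x : T) :
    pj (Set.Ico m q) x + pj (Set.Ici q) x = pj (Set.Ici m) x := by
  apply val_inj; funext n
  simp only [map_add, Pi.add_apply, val_pj, Set.indicator, Set.mem_Ico, Set.mem_Ici]
  split_ifs <;> first | omega | simp

lemma seven_fourths (u : ℕ → T) {P : ℕ → ℕ} (hP : StrictMono P) (hu : ∀ i, ‖u i‖ ≤ 1)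
    (hs : ∀ i n, val (u i) n ≠ 0 → P i ≤ n ∧ n < P (i + 1)) {N : ℕ} (hN : 2 * (P 1 + 1) ≤ N) :
    ‖u 0 + (1 / N : ℝ) • ∑ i ∈ range N, u (i + 1)‖ ≤ 7 / 4 := by
  have hN0 : (0:ℝ) < N := by exact_mod_cast (by omega)
  have hav : ‖(1 / N : ℝ) • ∑ i ∈ range N, u (i + 1)‖ ≤ 1 := by
    rw [norm_smul, Real.norm_of_nonneg (by positivity)]
    have : ‖∑ i ∈ range N, u (i + 1)‖ ≤ N :=
      (norm_sum_le _ _).trans ((sum_le_sum fun i _ => hu _).trans (by simp))
    rw [one_div, inv_mul_le_iff₀ hN0]; linarith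
  set a := (1 / N : ℝ) • ∑ i ∈ range N, u (i + 1) with ha
  refine upper (fun n => ?_) fun k p hp hk => ?_
  · rw [map_add, Pi.add_apply]
    by_cases h : n < P 1
    · have : val a n = 0 := by
        simp only [ha, map_smul, map_sum, Pi.smul_apply, Finset.sum_apply]
        rw [sum_eq_zero, smul_zero]
        intro i _
        by_contra hc
        have := hP.monotone (show 1 ≤ i + 1 by omega)
        have := (hs _ _ hc).1
        omega
      rw [this, add_zero]; linarith [coord_le (u 0) n, hu 0]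
    · have : val (u 0) n = 0 := by
        by_contra hc; exact h (hs _ _ hc).2
      rw [this, zero_add]; linarith [coord_le a n]
  · have t1 : ∑ l ∈ range k, ‖pj (Set.Ico (p l) (p (l + 1))) (u 0 + a)‖ ≤
        ∑ l ∈ range k, ‖pj (Set.Ico (p l) (p (l + 1))) (u 0)‖ +
          ∑ l ∈ range k, ‖pj (Set.Ico (p l) (p (l + 1))) a‖ := by
      rw [← sum_add_distrib]
      exact sum_le_sum fun l _ => by rw [map_add]; exact norm_add_le _ _
    by_cases h : P 1 ≤ p 0
    · have t2 : ∑ l ∈ range k, ‖pj (Set.Ico (p l) (p (l + 1))) (u 0)‖ = 0 := by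
        refine sum_eq_zero fun l _ => norm_eq_zero.mpr (val_inj ?_)
        funext n
        simp only [val_pj, Set.indicator, Set.mem_Ico, map_zero, Pi.zero_apply]
        split_ifs with h1
        · by_contra hc
          have := (hs _ _ hc).2
          have := hp (Nat.zero_le l)
          simp only [zero_add] at *
          omega
        · rfl
      linarith [lower a hp hk]
    · let c : ℕ → ℝ := fun i => ∑ l ∈ range (k + 1),
        (if P (i + 1) ≤ p l ∧ p l < P (i + 1 + 1) then (1:ℝ) else 0)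
      have hc0 : ∀ i, 0 ≤ c i := fun i => sum_nonneg fun l _ => by split_ifs <;> norm_num
      have t2 : ∀ i, ∑ l ∈ range k, ‖pj (Set.Ico (p l) (p (l + 1))) (u (i + 1))‖ ≤ 1 + c i := by
        intro i
        by_cases hb : ∃ l ∈ range (k + 1), P (i + 1) ≤ p l ∧ p l < P (i + 1 + 1)
        · obtain ⟨l, hl, hl'⟩ := hb
          have := single_le_sum (f := fun l => (if P (i + 1) ≤ p l ∧ p l < P (i + 1 + 1) then (1:ℝ) else 0))
            (fun l _ => by split_ifs <;> norm_num) hl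
          simp only [if_pos hl'] at this
          have h3 : 1 ≤ c i := this
          linarith [lower (u (i + 1)) hp hk, hu (i + 1)]
        · push Not at hb
          refine le_trans (sum_le_sum fun l hl => ?_) ((sum_ind hp k (P (i + 1))).trans (by linarith [hc0 i]))
          split_ifs with h1
          · exact (pj_le _ _).trans (hu _)
          · refine le_of_eq (norm_eq_zero.mpr (val_inj ?_))
            funext n
            simp only [val_pj, Set.indicator, Set.mem_Ico, map_zero, Pi.zero_apply]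
            split_ifs with h2
            · by_contra hc
              have a1 := hs _ _ hc
              have a2 := hb l (mem_range.mpr (by have := mem_range.mp hl; omega))
              have a3 := hb (l + 1) (mem_range.mpr (by have := mem_range.mp hl; omega))
              omega
            · rfl
      have t3 : ∑ i ∈ range N, c i ≤ k + 1 := by
        simp only [c]
        rw [sum_comm]
        refine (sum_le_sum fun l _ => sum_ind (p := fun i => P (i + 1))
          (fun a b hab => hP.monotone (by omega)) N (p l)).trans (by simp)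
      have t4 : ∑ l ∈ range k, ‖pj (Set.Ico (p l) (p (l + 1))) a‖ ≤ 1 / N * (N + (k + 1)) := by
        have : ∀ l ∈ range k, ‖pj (Set.Ico (p l) (p (l + 1))) a‖ ≤
            1 / N * ∑ i ∈ range N, ‖pj (Set.Ico (p l) (p (l + 1))) (u (i + 1))‖ := by
          intro l _
          rw [ha, map_smul, map_sum, norm_smul, Real.norm_of_nonneg (by positivity)]
          gcongr; exact norm_sum_le _ _
        refine (sum_le_sum this).trans ?_
        rw [← mul_sum, sum_comm]
        gcongr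
        refine (sum_le_sum fun i _ => t2 i).trans ?_
        rw [sum_add_distrib]; simp only [sum_const, card_range, nsmul_eq_mul, mul_one]; linarith
      have t5 : 1 / (N:ℝ) * (N + (k + 1)) ≤ 3 / 2 := by
        have : ((2 * (k + 1) : ℕ) : ℝ) ≤ N := by exact_mod_cast (by omega)
        push_cast at this
        rw [one_div, inv_mul_le_iff₀ hN0]; linarith
      linarith [lower (u 0) hp hk, hu 0]

lemma shrinking (φ : StrongDual ℝ T) :
    Tendsto (fun m => ‖φ.comp (pj (Set.Ici m))‖) atTop (𝓝 0) := by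
  have hanti : Antitone (fun m => ‖φ.comp (pj (Set.Ici m))‖) := by
    intro a b hab
    refine ContinuousLinearMap.opNorm_le_bound _ (norm_nonneg _) fun x => ?_
    have e : pj (Set.Ici b) x = pj (Set.Ici a) (pj (Set.Ici b) x) := by
      apply val_inj; funext n
      simp only [val_pj, Set.indicator, Set.mem_Ici]
      split_ifs <;> first | omega | rfl
    rw [ContinuousLinearMap.comp_apply, e]
    exact ((φ.comp (pj (Set.Ici a))).le_opNorm _).trans (by gcongr; exact pj_le _ _)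
  have hb : BddBelow (Set.range fun m => ‖φ.comp (pj (Set.Ici m))‖) :=
    ⟨0, by rintro _ ⟨m, rfl⟩; exact norm_nonneg _⟩
  have ht := tendsto_atTop_ciInf hanti hb
  set δ := ⨅ m, ‖φ.comp (pj (Set.Ici m))‖ with hδ
  have hδ0 : 0 ≤ δ := le_ciInf fun m => norm_nonneg _
  rcases hδ0.eq_or_lt with h | h
  · rwa [← h] at ht
  exfalso
  obtain ⟨m0, hm0⟩ := (ht.eventually (gt_mem_nhds (show δ < 21 / 20 * δ by linarith))).exists
  have hq : ∀ m, ∃ q, ∃ u : T, m < q ∧ ‖u‖ ≤ 1 ∧ (∀ n, val u n ≠ 0 → m ≤ n ∧ n < q) ∧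
      19 / 20 * δ ≤ φ u := by
    intro m
    have h1 : 19 / 20 * δ < ‖φ.comp (pj (Set.Ici m))‖ :=
      lt_of_lt_of_le (by linarith) (ciInf_le hb m)
    obtain ⟨x, hx, hx'⟩ := ContinuousLinearMap.exists_lt_apply_of_lt_opNorm _ h1
    obtain ⟨y, hy, hy'⟩ : ∃ y : T, ‖y‖ ≤ 1 ∧ 19 / 20 * δ < φ (pj (Set.Ici m) y) := by
      rcases lt_abs.mp hx' with h2 | h2
      · exact ⟨x, hx.le, h2⟩
      · exact ⟨-x, by rw [norm_neg]; exact hx.le, by simpa using h2⟩
    have h2 : Tendsto (fun q => φ (pj (Set.Ici m) y) - φ (pj (Set.Ici q) y)) atTop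
        (𝓝 (φ (pj (Set.Ici m) y))) := by
      have := (φ.continuous.tendsto (0 : T)).comp (tendsto_zero_iff_norm_tendsto_zero.mpr (tail_small y))
      simpa using this.const_sub (φ (pj (Set.Ici m) y))
    obtain ⟨q, h3, h4⟩ := ((h2.eventually (lt_mem_nhds hy')).and (eventually_gt_atTop m)).exists
    refine ⟨q, pj (Set.Ico m q) y, h4, (pj_le _ _).trans hy, fun n hn => ?_, ?_⟩
    · by_contra hc; exact hn (Set.indicator_of_notMem (show n ∉ Set.Ico m q from hc) (val y))
    · rw [← split' h4.le y, map_add] at h3; linarith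
  choose q u h1 h2 h3 h4 using hq
  let P : ℕ → ℕ := fun i => Nat.rec m0 (fun _ p => q p) i
  have hP : StrictMono P := strictMono_nat_of_lt_succ fun i => h1 _
  set N := 2 * (P 1 + 1) with hN
  have hN0 : (0:ℝ) < N := by exact_mod_cast (by omega)
  have h5 := seven_fourths (fun i => u (P i)) hP (fun i => h2 _) (fun i => h3 _) (N := N) le_rfl
  set x := u (P 0) + (1 / N : ℝ) • ∑ i ∈ range N, u (P (i + 1)) with hx
  have h6 : pj (Set.Ici m0) x = x := by
    have : ∀ i, pj (Set.Ici m0) (u (P i)) = u (P i) := by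
      intro i
      apply val_inj; funext n
      simp only [val_pj, Set.indicator, Set.mem_Ici]
      split_ifs with h7
      · rfl
      · by_contra hc
        have a1 := (h3 _ n (Ne.symm hc)).1
        have a2 : m0 ≤ P i := hP.monotone (Nat.zero_le i)
        omega
    simp only [hx, map_add, map_smul, map_sum, this]
  have h7 : φ x ≤ 21 / 20 * δ * (7 / 4) := by
    have := (φ.comp (pj (Set.Ici m0))).le_opNorm x
    rw [ContinuousLinearMap.comp_apply, h6] at this
    exact (le_abs_self _).trans (this.trans (mul_le_mul hm0.le h5 (norm_nonneg _) (by positivity)))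
  have h8 : ∑ i ∈ range N, 19 / 20 * δ ≤ ∑ i ∈ range N, φ (u (P (i + 1))) := sum_le_sum fun i _ => h4 _
  rw [sum_const, card_range, nsmul_eq_mul] at h8
  have h9 : 19 / 20 * δ ≤ 1 / N * ∑ i ∈ range N, φ (u (P (i + 1))) := by
    rw [one_div, le_inv_mul_iff₀ hN0]; exact h8
  simp only [hx, map_add, map_smul, map_sum, smul_eq_mul] at h7
  linarith [h4 (P 0)]

/-- unit vectors -/
noncomputable def e (i : ℕ) : T := mk (Pi.single i 1) ⟨1, fun γ => by
  simpa using Q_single i γ (Pi.single i 1) fun n hn => by simp [hn]⟩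

/-- coordinate functionals -/
noncomputable def co (i : ℕ) : StrongDual ℝ T :=
  LinearMap.mkContinuous ((LinearMap.proj i).comp val) 1 fun x => by simpa using coord_le x i

lemma co_apply (i : ℕ) (x : T) : co i x = val x i := rfl

lemma val_sum (c : ℕ → ℝ) (m : ℕ) : val (∑ i ∈ range m, c i • e i) = (Set.Iio m).indicator c := by
  funext n
  simp [map_sum, Finset.sum_apply, e, Pi.single_apply, Set.indicator]

lemma head_eq (m : ℕ) (x : T) : pj (Set.Iio m) x = ∑ i ∈ range m, val x i • e i :=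
  val_inj (by rw [val_sum, val_pj])

lemma reflT (Φ : StrongDual ℝ (StrongDual ℝ T)) : ∃ y : T, ∀ φ, Φ φ = φ y := by
  let c : ℕ → ℝ := fun i => Φ (co i)
  have h1 : ∀ (m : ℕ) (φ : StrongDual ℝ T),
      φ (∑ i ∈ range m, c i • e i) = Φ (φ.comp (pj (Set.Iio m))) := by
    intro m φ
    have : φ.comp (pj (Set.Iio m)) = ∑ i ∈ range m, φ (e i) • co i := by
      ext x
      simp only [ContinuousLinearMap.comp_apply, head_eq, map_sum, map_smul, smul_eq_mul,
        _root_.sum_apply, _root_.smul_apply, co_apply]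
      exact sum_congr rfl fun i _ => mul_comm _ _
    rw [this]
    simp only [map_sum, map_smul, smul_eq_mul, c]
    exact sum_congr rfl fun i _ => mul_comm _ _
  have h2 : ∀ m, ‖∑ i ∈ range m, c i • e i‖ ≤ ‖Φ‖ := fun m =>
    NormedSpace.norm_le_dual_bound ℝ _ (ContinuousLinearMap.opNorm_nonneg Φ) fun φ => by
      rw [h1]
      refine (Φ.le_opNorm _).trans (mul_le_mul_of_nonneg_left ?_ (norm_nonneg _))
      exact ContinuousLinearMap.opNorm_le_bound _ (norm_nonneg _) fun x =>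
        (φ.le_opNorm _).trans (by gcongr; exact pj_le _ _)
  have ht : Tendsto (fun m => val (∑ i ∈ range m, c i • e i)) atTop (𝓝 c) := by
    refine tendsto_pi_nhds.mpr fun n => tendsto_const_nhds.congr' ?_
    filter_upwards [eventually_gt_atTop n] with q hq
    rw [val_sum, Set.indicator_of_mem (show n ∈ Set.Iio q from hq)]
  let y : T := mk c ⟨‖Φ‖, fun γ =>
    le_of_tendsto' (((Q_cont γ).tendsto _).comp ht) fun m => (Q_le _ γ).trans (h2 m)⟩
  refine ⟨y, fun φ => ?_⟩
  have a1 : ∀ m, Φ φ - φ y = Φ (φ.comp (pj (Set.Ici m))) - φ (pj (Set.Ici m) y) := by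
    intro m
    have b1 : φ = φ.comp (pj (Set.Iio m)) + φ.comp (pj (Set.Ici m)) := by
      ext x
      simp only [_root_.add_apply, ContinuousLinearMap.comp_apply]
      rw [← map_add, split]
    have b2 : φ y = φ (pj (Set.Iio m) y) + φ (pj (Set.Ici m) y) := by rw [← map_add, split]
    have b3 : φ (pj (Set.Iio m) y) = Φ (φ.comp (pj (Set.Iio m))) := by rw [head_eq, ← h1]; rfl
    have b4 : Φ φ = Φ (φ.comp (pj (Set.Iio m))) + Φ (φ.comp (pj (Set.Ici m))) := by
      rw [← map_add, ← b1]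
    linarith
  have a2 := ((Φ.continuous.tendsto 0).comp (tendsto_zero_iff_norm_tendsto_zero.mpr (shrinking φ))).sub
    ((φ.continuous.tendsto 0).comp (tendsto_zero_iff_norm_tendsto_zero.mpr (tail_small y)))
  simp only [Function.comp, ← a1, map_zero, sub_zero] at a2
  exact sub_eq_zero.mp (tendsto_nhds_unique tendsto_const_nhds a2)

lemma reflDual : Function.Surjective (NormedSpace.inclusionInDoubleDual ℝ (StrongDual ℝ T)) := by
  intro Ψ
  refine ⟨Ψ.comp (NormedSpace.inclusionInDoubleDual ℝ T), ?_⟩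
  ext Φ
  obtain ⟨y, hy⟩ := reflT Φ
  have : Φ = NormedSpace.inclusionInDoubleDual ℝ T y := by ext φ; exact hy φ
  rw [NormedSpace.dual_def, hy, this]; rfl

lemma not_fd : ¬ FiniteDimensional ℝ (StrongDual ℝ T) := by
  intro h
  refine Module.Finite.not_linearIndependent_of_infinite (R := ℝ) co ?_
  refine linearIndependent_iff'.mpr fun s g hg i hi => ?_
  have := congrArg (fun φ : StrongDual ℝ T => φ (e i)) hg
  simpa [_root_.sum_apply, co_apply, e, Pi.single_apply, hi] using this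

lemma count (y : T) {m : ℕ → ℕ} (hm : StrictMono m) {s : ℝ} (hs : 0 < s) (F : Finset ℕ)
    (hF : ∀ k ∈ F, s < ‖pj (Set.Ico (m k) (m (k + 1))) y‖) : (F.card : ℝ) ≤ 4 * ‖y‖ / s + 1 := by
  classical
  let P : ℕ → Prop := fun k => k ∈ F ∨ F.sup id < k
  have hinf : (Set.ofPred P).Infinite :=
    (Set.Ioi_infinite (F.sup id)).mono fun k hk => Or.inr hk
  have h1 : ∀ l < F.card, Nat.nth P l ∈ F := by
    intro l hl
    rcases Nat.nth_mem_of_infinite hinf l with h | h
    · exact h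
    · exfalso
      have a1 := Nat.count_nth_of_infinite hinf l
      rw [Nat.count_eq_card_filter_range] at a1
      refine absurd hl (not_lt.mpr (le_of_le_of_eq (card_le_card fun k hk => ?_) a1))
      exact mem_filter.mpr ⟨mem_range.mpr ((le_sup (f := id) hk).trans_lt h), Or.inl hk⟩
  have h2 := Nat.nth_strictMono hinf
  set h := F.card / 2 with hh
  have h3 := lower y (k := h) (p := fun l => m (Nat.nth P (h + l)))
    (fun a b hab => hm.monotone (h2.monotone (by omega))) ((h2.id_le _).trans (hm.id_le _))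
  have h4 : ∑ l ∈ range h, s ≤ ∑ l ∈ range h,
      ‖pj (Set.Ico (m (Nat.nth P (h + l))) (m (Nat.nth P (h + (l + 1))))) y‖ := by
    refine sum_le_sum fun l hl => (hF _ (h1 (h + l) (by have := mem_range.mp hl; omega))).le.trans ?_
    exact pj_mono (Set.Ico_subset_Ico_right (hm.monotone (h2 (by omega)))) y
  rw [sum_const, card_range, nsmul_eq_mul] at h4
  have h5 : (F.card : ℝ) ≤ 2 * h + 1 := by exact_mod_cast (by omega)
  have h6 : (h : ℝ) * 2 ≤ 4 * ‖y‖ / s := by rw [le_div_iff₀ hs]; linarith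
  linarith


open MeasureTheory

variable {Ω : Type} [MeasurableSpace Ω] {μ : Measure Ω} [IsProbabilityMeasure μ]

lemma bc {s : ℕ → Set Ω} (h : Summable fun k => μ.real (s k)) : ∀ᵐ t ∂μ, ∀ᶠ k in atTop, t ∉ s k := by
  refine ae_eventually_notMem ?_
  have : ∑' k, μ (s k) = ENNReal.ofReal (∑' k, μ.real (s k)) := by
    rw [ENNReal.ofReal_tsum_of_nonneg (fun k => measureReal_nonneg) h]
    exact tsum_congr fun k => (ofReal_measureReal).symm
  rw [this]; exact ENNReal.ofReal_ne_top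

lemma geo_ind (x : ℝ) (hx : 0 ≤ x) (J : ℕ) :
    ∑ j ∈ range J, (if (2:ℝ) ^ j ≤ x then (2:ℝ) ^ j else 0) ≤ 2 * x := by
  have : ∀ J, ∑ j ∈ range J, (if (2:ℝ) ^ j ≤ x then (2:ℝ) ^ j else 0) ≤ min (2 * x) (2 ^ J) := by
    intro J
    induction J with
    | zero => simp [hx]
    | succ J ih =>
      rw [sum_range_succ]
      have a1 := ih.trans (min_le_left _ _)
      have a2 := ih.trans (min_le_right _ _)
      have a3 : (0:ℝ) < 2 ^ J := by positivity
      split_ifs with h
      · exact le_min (by linarith) (by rw [pow_succ]; linarith)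
      · exact le_min (by linarith) (by rw [pow_succ]; linarith)
  exact (this J).trans (min_le_left _ _)

lemma distr (h : ℕ → Ω → ℝ) (hm : ∀ n, Measurable (h n)) (h0 : ∀ n t, 0 ≤ h n t)
    (hi : ∀ n, Integrable (h n) μ) {C : ℝ} (hC : ∀ n, ∫ t, h n t ∂μ ≤ C) :
    ∃ ψ : ℕ → ℕ, StrictMono ψ ∧ ∃ τ : ℕ → ℝ, (∀ j, 0 ≤ τ j) ∧
      (∀ J, ∑ j ∈ range J, 2 ^ j * τ j ≤ 2 * C) ∧
      ∀ k : ℕ, ∀ᶠ n in atTop, ∀ j : ℕ,
        μ.real {t | (2:ℝ) ^ j ≤ h (ψ n) t} ≤ τ j + (C + 1) * (1 / 2) ^ k := by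
  obtain ⟨τ, hτ, ψ, hψ, ht⟩ := (isCompact_univ_pi (fun _ : ℕ => isCompact_Icc (a := (0:ℝ)) (b := 1))).tendsto_subseq
    (x := fun n j => μ.real {t | (2:ℝ) ^ j ≤ h n t})
    (fun n j _ => ⟨measureReal_nonneg, measureReal_le_one⟩)
  have ht' := tendsto_pi_nhds.mp ht
  have hC0 : 0 ≤ C := (integral_nonneg (h0 0)).trans (hC 0)
  refine ⟨ψ, hψ, τ, fun j => (hτ j trivial).1, fun J => ?_, fun k => ?_⟩
  · refine le_of_tendsto' (tendsto_finsetSum (range J) fun j _ => (ht' j).const_mul (2 ^ j)) fun n => ?_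
    have hs : ∀ j : ℕ, MeasurableSet {t | (2:ℝ) ^ j ≤ h (ψ n) t} := fun j =>
      measurableSet_le measurable_const (hm _)
    have e : ∀ j ∈ range J, (2:ℝ) ^ j * μ.real {t | (2:ℝ) ^ j ≤ h (ψ n) t} =
        ∫ t, {t | (2:ℝ) ^ j ≤ h (ψ n) t}.indicator (fun _ => (2:ℝ) ^ j) t ∂μ := by
      intro j _
      rw [integral_indicator_const _ (hs j), smul_eq_mul, mul_comm]
    have hI : ∀ j ∈ range J, Integrable
        ({t | (2:ℝ) ^ j ≤ h (ψ n) t}.indicator (fun _ => (2:ℝ) ^ j)) μ :=
      fun j _ => (integrable_const _).indicator (hs j)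
    simp only [Function.comp]
    rw [sum_congr rfl e, ← integral_finsetSum _ hI]
    refine (integral_mono (integrable_finsetSum _ hI) ((hi (ψ n)).const_mul 2) fun t => ?_).trans ?_
    · simpa [Set.indicator] using geo_ind _ (h0 (ψ n) t) J
    · rw [integral_const_mul]; linarith [hC (ψ n)]
  · have hp : (0:ℝ) < (1 / 2) ^ k := by positivity
    have := (eventually_all_finset (range k)).mpr fun j _ =>
      (ht' j).eventually (gt_mem_nhds (lt_add_of_pos_right (τ j) hp))
    filter_upwards [this] with n hn j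
    by_cases hj : j < k
    · have := hn j (mem_range.mpr hj)
      simp only [Function.comp] at this
      nlinarith
    · have a1 := (mul_meas_ge_le_integral_of_nonneg (Eventually.of_forall (h0 (ψ n))) (hi _)
        (2 ^ j)).trans (hC _)
      have a2 : (2:ℝ) ^ k ≤ 2 ^ j := pow_le_pow_right₀ (by norm_num) (not_lt.mp hj)
      have a3 : (2:ℝ) ^ k * (1 / 2) ^ k = 1 := by rw [← mul_pow]; norm_num
      have a4 : 0 ≤ μ.real {t | (2:ℝ) ^ j ≤ h (ψ n) t} := measureReal_nonneg
      have a5 : 2 ^ k * μ.real {t | (2:ℝ) ^ j ≤ h (ψ n) t} ≤ C := le_trans (by gcongr) a1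
      have a6 := mul_le_mul_of_nonneg_right a5 hp.le
      have a7 := (hτ j trivial).1
      nlinarith

lemma bc2 (h : ℕ → Ω → ℝ) (τ : ℕ → ℝ) (hτ : ∀ j, 0 ≤ τ j) {A D B ε : ℝ} (hD : 0 ≤ D) (hB : 0 ≤ B)
    (hε : 0 < ε) (hA : ∀ J, ∑ j ∈ range J, 2 ^ j * τ j ≤ A)
    (hh : ∀ k j : ℕ, μ.real {t | (2:ℝ) ^ j ≤ h k t} ≤ τ j + D * (1 / 2) ^ k)
    (a : ℕ → ℝ) (ha : ∀ k, 0 ≤ a k)
    (hc : ∀ s > 0, ∀ F : Finset ℕ, (∀ k ∈ F, s < a k) → (F.card : ℝ) ≤ B / s + 1) :
    ∀ᵐ t ∂μ, ∀ᶠ k in atTop, h k t * a k ≤ ε := by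
  classical
  have hj : ∀ k, ∃ j : ℕ, 0 < a k → a k ≤ ε → 2 ^ j * a k ≤ ε ∧ ε / 2 ^ (j + 1) < a k := by
    intro k
    by_cases h1 : 0 < a k ∧ a k ≤ ε
    · obtain ⟨j, h2, h3⟩ := exists_nat_pow_near ((one_le_div h1.1).mpr h1.2) (one_lt_two (α := ℝ))
      refine ⟨j, fun _ _ => ⟨(le_div_iff₀ h1.1).mp h2, ?_⟩⟩
      rw [div_lt_iff₀ h1.1] at h3
      rw [div_lt_iff₀ (by positivity)]; linarith
    · exact ⟨0, fun b c => absurd ⟨b, c⟩ h1⟩
  choose j hj using hj
  have hs : Summable fun k => μ.real {t | ε < h k t * a k} := by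
    refine summable_of_sum_range_le (c := (B / ε + 1) + (2 * B / ε + 1) * A + D * 2)
      (fun k => measureReal_nonneg) fun K => ?_
    have h1 : ∀ k ∈ range K, μ.real {t | ε < h k t * a k} ≤ (if ε < a k then 1 else 0) +
        (if 0 < a k ∧ a k ≤ ε then τ (j k) else 0) + D * (1 / 2) ^ k := by
      intro k _
      have b0 : 0 ≤ D * (1 / 2) ^ k := by positivity
      by_cases b1 : ε < a k
      · rw [if_pos b1, if_neg (fun b => absurd b.2 (not_le.mpr b1))]
        linarith [measureReal_le_one (μ := μ) (s := {t | ε < h k t * a k})]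
      · rw [if_neg b1, zero_add]
        by_cases b2 : 0 < a k
        · rw [if_pos ⟨b2, not_lt.mp b1⟩]
          refine le_trans (measureReal_mono fun t ht => ?_) (hh k (j k))
          have b3 := (hj k b2 (not_lt.mp b1)).1
          exact (lt_of_mul_lt_mul_right (b3.trans_lt ht) b2.le).le
        · have b3 : a k = 0 := le_antisymm (not_lt.mp b2) (ha k)
          rw [if_neg (fun b => b2 b.1)]
          have : {t | ε < h k t * a k} = ∅ := by
            ext t; simp [b3, hε.le]
          rw [this]; simpa using b0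
    refine (sum_le_sum h1).trans ?_
    rw [sum_add_distrib, sum_add_distrib, ← mul_sum]
    refine add_le_add (add_le_add ?_ ?_) (mul_le_mul_of_nonneg_left (sum_geometric_two_le K) hD)
    · rw [sum_boole]
      exact hc ε hε _ fun k hk => (mem_filter.mp hk).2
    · rw [← sum_filter]
      set G := (range K).filter (fun k => 0 < a k ∧ a k ≤ ε) with hG
      rw [← sum_fiberwise_of_maps_to (t := range (G.sup j + 1)) (g := j)
        (fun k hk => mem_range.mpr (Nat.lt_succ_of_le (le_sup hk)))]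
      refine le_trans (sum_le_sum fun i _ => ?_) ((mul_sum _ _ _).symm.le.trans
        (mul_le_mul_of_nonneg_left (hA (G.sup j + 1)) (by positivity)))
      rw [sum_congr rfl (fun k hk => by rw [(mem_filter.mp hk).2]), sum_const, nsmul_eq_mul]
      have b1 := hc (ε / 2 ^ (i + 1)) (by positivity) (G.filter (fun k => j k = i)) fun k hk => by
        have c1 := mem_filter.mp hk
        have c2 := (mem_filter.mp c1.1).2
        rw [← c1.2]; exact (hj k c2.1 c2.2).2
      have b2 : (1:ℝ) ≤ 2 ^ i := one_le_pow₀ (by norm_num)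
      have b3 : B / (ε / 2 ^ (i + 1)) + 1 ≤ (2 * B / ε + 1) * 2 ^ i := by
        have : B / (ε / 2 ^ (i + 1)) = 2 * B / ε * 2 ^ i := by field_simp; ring
        rw [this]; linarith
      rw [← mul_assoc]
      exact mul_le_mul_of_nonneg_right (b1.trans b3) (hτ i)
  filter_upwards [bc hs] with t ht
  exact ht.mono fun k hk => not_lt.mp hk

theorem D1 (f : ℕ → Ω → StrongDual ℝ T) (hf : ∀ n, StronglyMeasurable (f n)) {C : NNReal}
    (hC : ∀ n, eLpNorm (f n) 1 μ ≤ (C : ENNReal))
    (hm : ∀ φ : StrongDual ℝ (StrongDual ℝ T),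
      TendstoInMeasure μ (fun n t => φ (f n t)) atTop (fun _ => (0 : ℝ))) :
    ∃ g : ℕ → ℕ, StrictMono g ∧ ∀ φ : StrongDual ℝ (StrongDual ℝ T),
      ∀ᵐ t ∂μ, Tendsto (fun k => φ (f (g k) t)) atTop (𝓝 0) := by
  have hi : ∀ n, Integrable (f n) μ := fun n => memLp_one_iff_integrable.mp
    ⟨(hf n).aestronglyMeasurable, (hC n).trans_lt ENNReal.coe_lt_top⟩
  have hI : ∀ n, ∫ t, ‖f n t‖ ∂μ ≤ C := fun n => by
    rw [integral_norm_eq_lintegral_enorm (hf n).aestronglyMeasurable, ← eLpNorm_one_eq_lintegral_enorm]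
    simpa using ENNReal.toReal_mono ENNReal.coe_ne_top (hC n)
  obtain ⟨ψ, hψ, τ, hτ, hA, hD⟩ := distr (μ := μ) (fun n t => ‖f n t‖) (fun n => (hf n).norm.measurable)
    (fun n t => norm_nonneg _) (fun n => (hi n).norm) hI
  have hstep : ∀ k : ℕ, ∀ s : ℕ × ℕ, ∃ s' : ℕ × ℕ, s.1 < s'.1 ∧ s.2 < s'.2 ∧
      μ.real (⋃ i ∈ range s.2, {t | (1 / 2 : ℝ) ^ k / (s.2 + 1) ≤ |f (ψ s'.1) t (e i)|}) ≤ (1 / 2) ^ k ∧
      (∀ j : ℕ, μ.real {t | (2:ℝ) ^ j ≤ ‖f (ψ s'.1) t‖} ≤ τ j + (C + 1) * (1 / 2) ^ k) ∧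
      μ.real {t | (1 / 2 : ℝ) ^ k ≤ ‖(f (ψ s'.1) t).comp (pj (Set.Ici s'.2))‖} ≤ (1 / 2) ^ k := by
    rintro k ⟨n0, m⟩
    have hp : (0:ℝ) < (1 / 2) ^ k := by positivity
    have h1 : Tendsto (fun n => ∑ i ∈ range m,
        μ.real {t | (1 / 2 : ℝ) ^ k / (m + 1) ≤ |f (ψ n) t (e i)|}) atTop (𝓝 0) := by
      have := tendsto_finsetSum (range m) fun i _ => (tendstoInMeasure_iff_measureReal_norm.mp
        (hm (NormedSpace.inclusionInDoubleDual ℝ T (e i))) ((1 / 2 : ℝ) ^ k / (m + 1))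
          (by positivity)).comp hψ.tendsto_atTop
      simpa [NormedSpace.dual_def] using this
    obtain ⟨n, ⟨h2, h3⟩, h4⟩ := (((h1.eventually (gt_mem_nhds hp)).and (hD k)).and
      (eventually_gt_atTop n0)).exists
    have h5 : TendstoInMeasure μ (fun q t => (f (ψ n) t).comp (pj (Set.Ici q))) atTop (fun _ => 0) := by
      refine tendstoInMeasure_of_tendsto_ae (fun q => ?_) (Eventually.of_forall fun t =>
        tendsto_zero_iff_norm_tendsto_zero.mpr (shrinking _))
      have hc : Continuous fun φ : StrongDual ℝ T => φ.comp (pj (Set.Ici q)) := by fun_prop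
      exact (hc.comp_stronglyMeasurable (hf _)).aestronglyMeasurable
    have h6 := tendstoInMeasure_iff_measureReal_norm.mp h5 _ hp
    simp only [sub_zero] at h6
    obtain ⟨q, h7, h8⟩ := ((h6.eventually (gt_mem_nhds hp)).and (eventually_gt_atTop m)).exists
    exact ⟨(n, q), h4, h8, (measureReal_biUnion_finset_le _ _).trans h2.le, h3, h7.le⟩
  choose nx h1 h2 h3 h4 h5 using hstep
  let s : ℕ → ℕ × ℕ := fun k => Nat.rec (0, 0) (fun k s => nx k s) k
  have hs : ∀ k, s (k + 1) = nx k (s k) := fun k => rfl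
  have hn : StrictMono fun k => (s (k + 1)).1 := strictMono_nat_of_lt_succ fun k => h1 _ _
  have hm' : StrictMono fun k => (s k).2 := strictMono_nat_of_lt_succ fun k => h2 _ _
  refine ⟨fun k => ψ (s (k + 1)).1, hψ.comp hn, fun φ => ?_⟩
  obtain ⟨y, hy⟩ := reflT φ
  have g1 := bc (Summable.of_nonneg_of_le (fun k => measureReal_nonneg) (fun k => h3 k (s k))
    summable_geometric_two)
  have g2 := bc (Summable.of_nonneg_of_le (fun k => measureReal_nonneg) (fun k => h5 k (s k))
    summable_geometric_two)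
  have g3 := ae_all_iff.mpr fun r : ℕ => bc2 (μ := μ) (fun k t => ‖f (ψ (nx k (s k)).1) t‖) τ hτ
    (D := C + 1) (B := 4 * ‖y‖) (ε := 1 / (r + 1)) (by positivity) (by positivity) (by positivity) hA
    (fun k => h4 k (s k)) (fun k => ‖pj (Set.Ico (s k).2 (s (k + 1)).2) y‖) (fun k => norm_nonneg _)
    (fun c hc F hF => count y hm' hc F hF)
  filter_upwards [g1, g2, g3] with t t1 t2 t3
  simp only [hy, hs]
  refine Metric.tendsto_nhds.mpr fun ε hε => ?_
  obtain ⟨r, hr⟩ := exists_nat_one_div_lt (half_pos hε)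
  have t4 : Tendsto (fun k : ℕ => 2 * ‖y‖ * (1 / 2 : ℝ) ^ k) atTop (𝓝 0) := by
    simpa using (tendsto_pow_atTop_nhds_zero_of_lt_one (r := (1 / 2 : ℝ)) (by norm_num)
      (by norm_num)).const_mul (2 * ‖y‖)
  filter_upwards [t1, t2, t3 r, t4.eventually (gt_mem_nhds (half_pos hε))] with k k1 k2 k3 k4
  set F := f (ψ (nx k (s k)).1) t with hF
  have e1 : F y = F (pj (Set.Iio (s k).2) y) + (F (pj (Set.Ico (s k).2 (s (k + 1)).2) y) +
      F (pj (Set.Ici (s (k + 1)).2) y)) := by
    rw [← map_add, ← map_add, split' (hm' (Nat.lt_succ_self k)).le, split]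
  have hp : (0:ℝ) < (1 / 2) ^ k := by positivity
  have e2 : |F (pj (Set.Iio (s k).2) y)| ≤ ‖y‖ * (1 / 2) ^ k := by
    rw [head_eq, map_sum]
    refine (abs_sum_le_sum_abs _ _).trans ((sum_le_sum (g := fun _ => ‖y‖ * ((1 / 2) ^ k / ((s k).2 + 1)))
      fun i hi => ?_).trans ?_)
    · rw [map_smul, smul_eq_mul, abs_mul]
      simp only [Set.mem_iUnion, not_exists, Set.mem_ofPred_eq, not_le] at k1
      exact mul_le_mul (coord_le y i) (k1 i hi).le (abs_nonneg _) (norm_nonneg _)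
    · rw [sum_const, card_range, nsmul_eq_mul, mul_left_comm]
      refine mul_le_mul_of_nonneg_left ?_ (norm_nonneg _)
      rw [mul_div_assoc', div_le_iff₀ (by positivity)]; nlinarith
  have e3 : |F (pj (Set.Ico (s k).2 (s (k + 1)).2) y)| ≤ 1 / (r + 1) := (F.le_opNorm _).trans k3
  have e4 : |F (pj (Set.Ici (s (k + 1)).2) y)| ≤ ‖y‖ * (1 / 2) ^ k := by
    simp only [Set.mem_ofPred_eq, not_le] at k2
    refine ((F.comp (pj (Set.Ici (s (k + 1)).2))).le_opNorm y).trans ?_
    rw [mul_comm]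
    exact mul_le_mul_of_nonneg_left k2.le (norm_nonneg _)
  rw [Real.dist_0_eq_abs, e1]
  have := abs_add_le (F (pj (Set.Iio (s k).2) y)) (F (pj (Set.Ico (s k).2 (s (k + 1)).2) y) +
      F (pj (Set.Ici (s (k + 1)).2) y))
  have := abs_add_le (F (pj (Set.Ico (s k).2 (s (k + 1)).2) y)) (F (pj (Set.Ici (s (k + 1)).2) y))
  linarith

end H91.Tsir
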