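import Mathlib

set_option autoImplicit false

namespace Pool.Agent.H91.Tur

open Set

/-- Bessel function of the first kind of real order `μ`, for `x > 0` -/
noncomputable def J (μ x : ℝ) : ℝ :=
  ∑' m : ℕ, (-1) ^ m / (m.factorial * Real.Gamma (m + μ + 1)) * (x / 2) ^ (2 * (m : ℝ) + μ)

/-- the Turan ratio -/
noncomputable def Phi (ν x : ℝ) : ℝ := (J ν x ^ 2 - J (ν - 1) x * J (ν + 1) x) / J ν x ^ 2

noncomputable def ps (c : ℕ → ℝ) (w : ℝ) : ℝ := ∑' n, c n * w ^ n

lemma ps_summable (c : ℕ → ℝ) (C : ℝ) (hc : ∀ n, |c n| ≤ C / n.factorial) (w : ℝ) :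
    Summable fun n => c n * w ^ n := by
  refine Summable.of_norm_bounded ((Real.summable_pow_div_factorial |w|).mul_left C) fun n => ?_
  rw [norm_mul, norm_pow, Real.norm_eq_abs, Real.norm_eq_abs]
  calc |c n| * |w| ^ n ≤ C / n.factorial * |w| ^ n :=
        mul_le_mul_of_nonneg_right (hc n) (by positivity)
    _ = _ := by ring

lemma ps_deriv (c : ℕ → ℝ) (C : ℝ) (hc : ∀ n, |c n| ≤ C / n.factorial) (w : ℝ) :
    HasDerivAt (ps c) (ps (fun n => (n + 1) * c (n + 1)) w) w := by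
  set R := ‖w‖ + 1 with hR
  have hR0 : 0 < R := by positivity
  have hu : Summable fun n : ℕ => C * ((n : ℝ) * R ^ (n - 1) / n.factorial) := by
    refine Summable.mul_left C ?_
    rw [← summable_nat_add_iff 1]
    refine (Real.summable_pow_div_factorial R).congr fun n => ?_
    rw [Nat.factorial_succ, Nat.add_sub_cancel]
    push_cast
    have : ((n : ℝ) + 1) ≠ 0 := by positivity
    have : ((n.factorial : ℝ)) ≠ 0 := by positivity
    field_simp
  have hb : ∀ (n : ℕ) (y : ℝ), y ∈ Metric.ball (0 : ℝ) R →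
      ‖c n * ((n : ℝ) * y ^ (n - 1))‖ ≤ C * ((n : ℝ) * R ^ (n - 1) / n.factorial) := by
    intro n y hy
    have hy' : ‖y‖ ≤ R := by simpa using (le_of_lt (mem_ball_zero_iff.1 hy))
    rw [norm_mul, norm_mul, norm_pow, Real.norm_eq_abs, Real.norm_natCast]
    calc |c n| * (n * ‖y‖ ^ (n - 1)) ≤ C / n.factorial * (n * R ^ (n - 1)) :=
          mul_le_mul (hc n) (by gcongr) (by positivity) ((abs_nonneg _).trans (hc n))
      _ = _ := by ring
  have hw : w ∈ Metric.ball (0 : ℝ) R := by simp [hR]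
  have := hasDerivAt_tsum_of_isPreconnected (g := fun n z => c n * z ^ n)
    (g' := fun n z => c n * ((n : ℝ) * z ^ (n - 1))) hu Metric.isOpen_ball
    (convex_ball (0 : ℝ) R).isPreconnected
    (fun n y _ => (hasDerivAt_pow n y).const_mul _) hb hw (ps_summable c C hc w) hw
  refine this.congr_deriv (Eq.symm ?_)
  have hs : Summable fun n : ℕ => c n * ((n : ℝ) * w ^ (n - 1)) :=
    Summable.of_norm_bounded hu fun n => hb n w hw
  rw [hs.tsum_eq_zero_add]
  simp only [ps, Nat.cast_zero, zero_mul, mul_zero, zero_add, Nat.add_sub_cancel]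
  refine tsum_congr fun n => ?_
  push_cast; ring

noncomputable def c (μ : ℝ) (m : ℕ) : ℝ := (-1) ^ m / (m.factorial * Real.Gamma (m + μ + 1))

lemma gam_ge (μ : ℝ) (hμ : 0 ≤ μ) (m : ℕ) : Real.Gamma (μ + 1) ≤ Real.Gamma (m + μ + 1) := by
  induction m with
  | zero => simp
  | succ m ih =>
    have h1 : (0 : ℝ) < m + μ + 1 := by positivity
    have e : ((m + 1 : ℕ) : ℝ) + μ + 1 = (m + μ + 1) + 1 := by push_cast; ring
    rw [e, Real.Gamma_add_one h1.ne']
    have := Real.Gamma_pos_of_pos h1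
    have h2 : (0 : ℝ) ≤ m := by positivity
    nlinarith

lemma c_le (μ : ℝ) (hμ : 0 ≤ μ) (m : ℕ) : |c μ m| ≤ (1 / Real.Gamma (μ + 1)) / m.factorial := by
  have h0 : 0 < Real.Gamma (μ + 1) := Real.Gamma_pos_of_pos (by positivity)
  have h1 := gam_ge μ hμ m
  have h2 : (0 : ℝ) < m.factorial := by positivity
  have h3 : 0 < Real.Gamma (m + μ + 1) := by linarith
  rw [c, abs_div, abs_pow, abs_neg, abs_one, one_pow, abs_of_pos (by positivity), div_div]
  apply one_div_le_one_div_of_le (by positivity)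
  nlinarith

noncomputable def F (μ : ℝ) : ℝ → ℝ := ps (c μ)

lemma F_deriv (μ : ℝ) (hμ : 0 ≤ μ) (w : ℝ) : HasDerivAt (F μ) (-F (μ + 1) w) w := by
  refine (ps_deriv (c μ) _ (c_le μ hμ) w).congr_deriv ?_
  simp only [F, ps]
  rw [← tsum_neg]
  refine tsum_congr fun n => ?_
  have e : ((n + 1 : ℕ) : ℝ) + μ + 1 = n + (μ + 1) + 1 := by push_cast; ring
  have h3 : 0 < Real.Gamma (n + (μ + 1) + 1) := Real.Gamma_pos_of_pos (by positivity)
  have h2 : (0 : ℝ) < n.factorial := by positivity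
  simp only [c]
  rw [e, Nat.factorial_succ]
  push_cast
  field_simp
  ring

lemma F_rec (ν : ℝ) (hν : 0 < ν) (w : ℝ) : F (ν - 1) w = ν * F ν w - w * F (ν + 1) w := by
  have s1 := (ps_summable _ _ (c_le ν hν.le) w).hasSum.mul_left ν
  have s2 := (ps_summable _ _ (c_le (ν + 1) (by linarith)) w).hasSum.mul_left w
  have s3 : HasSum (fun n : ℕ => (n : ℝ) * c ν n * w ^ n)
      (-(w * ∑' n, c (ν + 1) n * w ^ n)) := by
    rw [← hasSum_nat_add_iff' 1]
    simp only [Finset.range_one, Finset.sum_singleton, Nat.cast_zero, zero_mul, sub_zero]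
    convert s2.neg using 2 with n
    have e : ((n + 1 : ℕ) : ℝ) + ν + 1 = n + (ν + 1) + 1 := by push_cast; ring
    have h3 : 0 < Real.Gamma (n + (ν + 1) + 1) := Real.Gamma_pos_of_pos (by positivity)
    have h2 : (0 : ℝ) < n.factorial := by positivity
    simp only [c]
    rw [e, Nat.factorial_succ]
    push_cast
    field_simp
    ring
  have s4 := s1.add s3
  simp only [F, ps]
  refine Eq.trans (tsum_congr fun n => ?_) (s4.tsum_eq.trans (by ring))
  have h1 : (0 : ℝ) < n + ν := by positivity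
  have h3 : 0 < Real.Gamma (n + ν) := Real.Gamma_pos_of_pos h1
  have h2 : (0 : ℝ) < n.factorial := by positivity
  have e : (n : ℝ) + (ν - 1) + 1 = n + ν := by ring
  simp only [c]
  rw [e, Real.Gamma_add_one h1.ne']
  field_simp
  ring

lemma F_zero (μ : ℝ) (hμ : 0 ≤ μ) : 0 < F μ 0 := by
  have h0 : 0 < Real.Gamma (μ + 1) := Real.Gamma_pos_of_pos (by positivity)
  simp only [F, ps]
  rw [tsum_eq_single 0]
  · simp [c, h0]
  · intro n hn; simp [hn]

lemma J_eq (μ x : ℝ) (hx : 0 < x) : J μ x = (x / 2) ^ μ * F μ (x ^ 2 / 4) := by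
  simp only [J, F, ps]
  rw [← tsum_mul_left]
  refine tsum_congr fun n => ?_
  have h : 0 < x / 2 := by positivity
  rw [Real.rpow_add h, show (2 * (n : ℝ)) = ((2 * n : ℕ) : ℝ) by push_cast; ring,
    Real.rpow_natCast, pow_mul, show (x / 2) ^ 2 = x ^ 2 / 4 by ring]
  simp only [c]; ring

noncomputable def A (ν x : ℝ) : ℝ := F ν (x ^ 2 / 4)
noncomputable def B (ν x : ℝ) : ℝ := F (ν + 1) (x ^ 2 / 4)
noncomputable def K (ν x : ℝ) : ℝ := x ^ (2 * ν)
noncomputable def Q (ν x : ℝ) : ℝ := A ν x ^ 2 - ν * A ν x * B ν x + x ^ 2 / 4 * B ν x ^ 2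

lemma sq_deriv (x : ℝ) : HasDerivAt (fun x : ℝ => x ^ 2 / 4) (x / 2) x := by
  have := (hasDerivAt_pow 2 x).div_const 4
  refine this.congr_deriv ?_
  norm_num; ring

lemma A_deriv (ν : ℝ) (hν : 0 < ν) (x : ℝ) : HasDerivAt (A ν) (-(x / 2) * B ν x) x := by
  have := (F_deriv ν hν.le (x ^ 2 / 4)).comp x (sq_deriv x)
  refine this.congr_deriv ?_
  simp only [B]; ring

lemma B_cont (ν : ℝ) (hν : 0 < ν) : Continuous (B ν) :=
  continuous_iff_continuousAt.2 fun x =>
    ((F_deriv (ν + 1) (by linarith) (x ^ 2 / 4)).comp x (sq_deriv x)).continuousAt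

lemma A_cont (ν : ℝ) (hν : 0 < ν) : Continuous (A ν) :=
  continuous_iff_continuousAt.2 fun x => (A_deriv ν hν x).continuousAt

lemma B_deriv (ν : ℝ) (hν : 0 < ν) (x : ℝ) (hx : 0 < x) :
    HasDerivAt (B ν) (2 * (A ν x - (ν + 1) * B ν x) / x) x := by
  have := (F_deriv (ν + 1) (by linarith) (x ^ 2 / 4)).comp x (sq_deriv x)
  refine this.congr_deriv ?_
  have h := F_rec (ν + 1) (by linarith) (x ^ 2 / 4)
  rw [add_sub_cancel_right] at h
  simp only [A, B]
  rw [h]; field_simp; ring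

lemma K_deriv (ν x : ℝ) (hx : 0 < x) : HasDerivAt (K ν) (2 * ν * K ν x / x) x := by
  have := Real.hasDerivAt_rpow_const (x := x) (p := 2 * ν) (Or.inl hx.ne')
  refine this.congr_deriv ?_
  simp only [K]
  rw [Real.rpow_sub_one hx.ne']; ring

lemma K_pos (ν x : ℝ) (hx : 0 < x) : 0 < K ν x := Real.rpow_pos_of_pos hx _

lemma K_cont (ν : ℝ) (hν : 0 < ν) : Continuous (K ν) :=
  Real.continuous_rpow_const (by linarith)

lemma J_zero_iff (ν x : ℝ) (hx : 0 < x) : J ν x = 0 ↔ A ν x = 0 := by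
  have : 0 < (x / 2) ^ ν := Real.rpow_pos_of_pos (by positivity) _
  rw [J_eq ν x hx, mul_eq_zero, or_iff_right this.ne']; rfl

lemma Phi_eq (ν : ℝ) (hν : 0 < ν) (x : ℝ) (hx : 0 < x) : Phi ν x = Q ν x / A ν x ^ 2 := by
  have h : 0 < x / 2 := by positivity
  have h1 : 0 < (x / 2) ^ ν := Real.rpow_pos_of_pos h _
  simp only [Phi, Q, A, B]
  rw [J_eq ν x hx, J_eq (ν - 1) x hx, J_eq (ν + 1) x hx, F_rec ν hν, Real.rpow_sub_one h.ne',
    Real.rpow_add_one h.ne']
  by_cases hA : F ν (x ^ 2 / 4) = 0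
  · simp [hA]
  · field_simp
    ring

end Pool.Agent.H91.Tur
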