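import Pool.Agent.H91.Tur1

set_option autoImplicit false

namespace Pool.Agent.H91.Tur

open Set

noncomputable def D (ν x : ℝ) : ℝ := x ^ 2 * K ν x * Q ν x
noncomputable def ph (ν x : ℝ) : ℝ := Q ν x / A ν x ^ 2
noncomputable def s (ν x : ℝ) : ℝ := ν - x ^ 2 / 2 * B ν x / A ν x
noncomputable def G (ν x : ℝ) : ℝ := 1 - ph ν x * (1 + s ν x)
noncomputable def H (ν x : ℝ) : ℝ := x ^ 2 * K ν x * A ν x ^ 2 * G ν x

lemma Q_cont (ν : ℝ) (hν : 0 < ν) : Continuous (Q ν) := by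
  have := A_cont ν hν
  have := B_cont ν hν
  unfold Q; fun_prop

lemma Q_deriv (ν : ℝ) (hν : 0 < ν) (x : ℝ) (hx : 0 < x) :
    HasDerivAt (Q ν) (2 * (A ν x ^ 2 - (1 + ν) * Q ν x) / x) x := by
  have hA := A_deriv ν hν x
  have hB := B_deriv ν hν x hx
  have := ((hA.pow 2).sub ((hA.const_mul ν).mul hB)).add ((sq_deriv x).mul (hB.pow 2))
  refine this.congr_deriv ?_
  simp only [Q, Pi.pow_apply]
  norm_num
  field_simp
  ring

lemma x2_deriv (x : ℝ) : HasDerivAt (fun x : ℝ => x ^ 2) (2 * x) x := by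
  simpa using hasDerivAt_pow 2 x

lemma D_deriv (ν : ℝ) (hν : 0 < ν) (x : ℝ) (hx : 0 < x) :
    HasDerivAt (D ν) (2 * x * K ν x * A ν x ^ 2) x := by
  have := ((x2_deriv x).mul (K_deriv ν x hx)).mul (Q_deriv ν hν x hx)
  refine this.congr_deriv ?_
  simp only [Pi.mul_apply]
  field_simp
  ring

lemma D_cont (ν : ℝ) (hν : 0 < ν) : Continuous (D ν) := by
  have := Q_cont ν hν
  have := K_cont ν hν
  unfold D; fun_prop

lemma A_small (ν : ℝ) (hν : 0 < ν) : ∃ ε > 0, ∀ x, 0 ≤ x → x ≤ ε → 0 < A ν x := by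
  have h0 : 0 < A ν 0 := by simpa [A] using F_zero ν hν.le
  have := (A_cont ν hν).continuousAt.eventually (lt_mem_nhds h0)
  obtain ⟨ε, hε, h⟩ := Metric.eventually_nhds_iff.1 this
  refine ⟨ε / 2, by positivity, fun x h1 h2 => h ?_⟩
  rw [Real.dist_eq, sub_zero, abs_of_nonneg h1]; linarith

lemma Q_pos (ν : ℝ) (hν : 0 < ν) (x : ℝ) (hx : 0 < x) : 0 < Q ν x := by
  obtain ⟨ε, hε, hA⟩ := A_small ν hν
  have hm : MonotoneOn (D ν) (Ici 0) := by
    refine monotoneOn_of_deriv_nonneg (convex_Ici 0) (D_cont ν hν).continuousOn ?_ ?_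
    · intro y hy
      rw [interior_Ici] at hy
      exact (D_deriv ν hν y hy).differentiableAt.differentiableWithinAt
    · intro y hy
      rw [interior_Ici] at hy
      rw [(D_deriv ν hν y hy).deriv]
      have := K_pos ν y hy
      have : 0 < y := hy
      positivity
  have hs : StrictMonoOn (D ν) (Icc 0 ε) := by
    refine strictMonoOn_of_deriv_pos (convex_Icc 0 ε) (D_cont ν hν).continuousOn ?_
    intro y hy
    rw [interior_Icc] at hy
    rw [(D_deriv ν hν y hy.1).deriv]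
    have := K_pos ν y hy.1
    have := hA y hy.1.le hy.2.le
    have : 0 < y := hy.1
    positivity
  have h1 : 0 < min x ε := lt_min hx hε
  have h2 := hs ⟨le_rfl, hε.le⟩ ⟨h1.le, min_le_right _ _⟩ h1
  have h3 := hm (mem_Ici.2 h1.le) (mem_Ici.2 hx.le) (min_le_left x ε)
  have h4 : D ν 0 = 0 := by simp [D]
  have h5 : 0 < x ^ 2 * K ν x * Q ν x := by
    have : D ν x = x ^ 2 * K ν x * Q ν x := rfl
    linarith
  have := K_pos ν x hx
  exact (pos_iff_pos_of_mul_pos h5).1 (by positivity)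

lemma ph_deriv (ν : ℝ) (hν : 0 < ν) (x : ℝ) (hx : 0 < x) (hA : A ν x ≠ 0) :
    HasDerivAt (ph ν) (2 * G ν x / x) x := by
  have := (Q_deriv ν hν x hx).div ((A_deriv ν hν x).pow 2) (pow_ne_zero 2 hA)
  refine this.congr_deriv ?_
  simp only [G, ph, s, Pi.pow_apply]
  norm_num
  field_simp
  ring

lemma s_deriv (ν : ℝ) (hν : 0 < ν) (x : ℝ) (hx : 0 < x) (hA : A ν x ≠ 0) :
    HasDerivAt (s ν) (-(x * ph ν x)) x := by
  have := (((((x2_deriv x).div_const 2).mul (B_deriv ν hν x hx)).div (A_deriv ν hν x)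
    hA).const_sub ν)
  refine this.congr_deriv ?_
  simp only [ph, Q, Pi.mul_apply]
  field_simp
  ring

lemma H_deriv (ν : ℝ) (hν : 0 < ν) (x : ℝ) (hx : 0 < x) (hA : A ν x ≠ 0) :
    HasDerivAt (H ν) (x ^ 3 * K ν x * A ν x ^ 2 * ph ν x ^ 2) x := by
  have hG := ((ph_deriv ν hν x hx hA).mul ((s_deriv ν hν x hx hA).const_add 1)).const_sub 1
  have := (((x2_deriv x).mul (K_deriv ν x hx)).mul ((A_deriv ν hν x).pow 2)).mul hG
  refine this.congr_deriv ?_
  have e : B ν x = 2 * (ν - s ν x) * A ν x / x ^ 2 := by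
    simp only [s]; field_simp; ring
  simp only [G, Pi.mul_apply, Pi.pow_apply]
  norm_num
  rw [e]
  field_simp
  ring

lemma ph_pos (ν : ℝ) (hν : 0 < ν) (x : ℝ) (hx : 0 < x) (hA : A ν x ≠ 0) : 0 < ph ν x :=
  div_pos (Q_pos ν hν x hx) (by positivity)

lemma ph_s (ν x : ℝ) (hA : A ν x ≠ 0) : x ^ 2 * (1 - ph ν x) = ν ^ 2 - s ν x ^ 2 := by
  simp only [ph, s, Q]; field_simp; ring

lemma deriv_Phi (ν : ℝ) (hν : 0 < ν) (x : ℝ) (hx : 0 < x) (hA : A ν x ≠ 0) :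
    deriv (Phi ν) x = 0 ↔ G ν x = 0 := by
  have e : Phi ν =ᶠ[nhds x] ph ν := by
    filter_upwards [lt_mem_nhds hx] with y hy using Phi_eq ν hν y hy
  rw [e.deriv_eq, (ph_deriv ν hν x hx hA).deriv]
  constructor
  · intro h
    field_simp at h
    simpa using h
  · intro h; simp [h]

/-- uniqueness of the critical point -/
lemma crit_unique (ν : ℝ) (hν : 0 < ν) (a b : ℝ) (ha : 0 < a)
    (hz : ∀ x ∈ Ioo a b, A ν x ≠ 0) (p q : ℝ) (hp : p ∈ Ioo a b) (hq : q ∈ Ioo a b)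
    (h1 : G ν p = 0) (h2 : G ν q = 0) : p = q := by
  have hs : StrictMonoOn (H ν) (Ioo a b) := by
    refine strictMonoOn_of_deriv_pos (convex_Ioo a b) ?_ ?_
    · intro y hy
      exact (H_deriv ν hν y (ha.trans hy.1) (hz y hy)).continuousAt.continuousWithinAt
    · intro y hy
      rw [interior_Ioo] at hy
      have hy0 := ha.trans hy.1
      rw [(H_deriv ν hν y hy0 (hz y hy)).deriv]
      have := K_pos ν y hy0
      have := ph_pos ν hν y hy0 (hz y hy)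
      have := hz y hy
      positivity
  exact hs.injOn hp hq (by simp [H, h1, h2])

/-- existence of a critical point with value below one -/
lemma crit_exists (ν : ℝ) (hν : 0 < ν) (a b : ℝ) (ha : 0 < a) (hab : a < b)
    (h1 : A ν a = 0) (h2 : A ν b = 0) (hz : ∀ x ∈ Ioo a b, A ν x ≠ 0) :
    ∃ p ∈ Ioo a b, G ν p = 0 ∧ ph ν p < 1 := by
  have hAc := A_cont ν hν
  have hQc := Q_cont ν hν
  have hKc := K_cont ν hν
  -- a zero of s
  obtain ⟨w, hw, hw0⟩ := exists_hasDerivAt_eq_zero (f := fun x => K ν x * A ν x ^ 2)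
    (f' := fun x => 2 * K ν x * A ν x ^ 2 * s ν x / x) hab (by fun_prop) (by simp [h1, h2])
    (by
      intro x hx
      have hx0 := ha.trans hx.1
      have := (K_deriv ν x hx0).mul ((A_deriv ν hν x).pow 2)
      refine this.congr_deriv ?_
      have := hz x hx
      simp only [s, Pi.pow_apply]
      norm_num
      field_simp
      ring)
  have hw1 := ha.trans hw.1
  have hsw : s ν w = 0 := by
    have k1 := K_pos ν w hw1
    have k2 := hz w hw
    field_simp at hw0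
    simpa [k1.ne', k2] using hw0
  have hpw : ph ν w < 1 := by
    have h := ph_s ν w (hz w hw)
    rw [hsw] at h
    have : 0 < w ^ 2 * (1 - ph ν w) := by rw [h]; nlinarith
    have := (pos_iff_pos_of_mul_pos this).1 (by positivity)
    linarith
  set g : ℝ → ℝ := fun x => A ν x ^ 2 / Q ν x with hg
  have hgc : ContinuousOn g (Icc a b) :=
    (hAc.pow 2).continuousOn.div hQc.continuousOn fun x hx => (Q_pos ν hν x (ha.trans_le hx.1)).ne'
  obtain ⟨p, hp, hmax⟩ := isCompact_Icc.exists_isMaxOn (nonempty_Icc.2 hab.le) hgc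
  have hgi : ∀ x, g x = (ph ν x)⁻¹ := fun x => by simp [hg, ph]
  have hgw : 1 < g w := by
    rw [hgi]; exact (one_lt_inv₀ (ph_pos ν hν w hw1 (hz w hw))).2 hpw
  have hgp : 1 < g p := hgw.trans_le (hmax (Ioo_subset_Icc_self hw))
  have hp' : p ∈ Ioo a b := by
    refine ⟨lt_of_le_of_ne hp.1 ?_, lt_of_le_of_ne hp.2 ?_⟩
    · rintro rfl; simp [hg, h1] at hgp; linarith
    · rintro rfl; simp [hg, h2] at hgp; linarith
  have hp0 := ha.trans hp'.1
  have hpp := ph_pos ν hν p hp0 (hz p hp')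
  refine ⟨p, hp', ?_, ?_⟩
  · have hl : IsLocalMax g p := hmax.isLocalMax (Icc_mem_nhds hp'.1 hp'.2)
    have hd := (ph_deriv ν hν p hp0 (hz p hp')).inv hpp.ne'
    have hd' : HasDerivAt g (-(2 * G ν p / p) / ph ν p ^ 2) p := by
      have e : g = (ph ν)⁻¹ := funext hgi
      rw [e]; exact hd
    have := hl.hasDerivAt_eq_zero hd'
    field_simp at this
    simpa using this
  · rw [hgi] at hgp
    exact (one_lt_inv₀ hpp).1 hgp

lemma crit_rel (ν : ℝ) (hν : 0 < ν) (p : ℝ) (hp : 0 < p) (hA : A ν p ≠ 0) (hG : G ν p = 0) :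
    p ^ 2 * (1 - ph ν p) = ν ^ 2 - ((ph ν p)⁻¹ - 1) ^ 2 := by
  have h0 := ph_pos ν hν p hp hA
  have : s ν p = (ph ν p)⁻¹ - 1 := by
    simp only [G] at hG
    field_simp
    linarith
  rw [ph_s ν p hA, this]

lemma alg_low (ν p β : ℝ) (hν : 0 < ν) (hp : 0 < p) (h0 : 0 < β) (h1 : β < 1)
    (h : p ^ 2 * (1 - β) = ν ^ 2 - (β⁻¹ - 1) ^ 2) : 1 / (ν + 1) < β := by
  have h2 : 0 < p ^ 2 * (1 - β) := mul_pos (by positivity) (by linarith)
  have h3 : β⁻¹ - 1 < ν := by nlinarith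
  rw [one_div]
  exact inv_lt_of_inv_lt₀ h0 (by linarith)

lemma alg_mono (ν p q β γ : ℝ) (hp : 0 < p) (hpq : p < q) (h0 : 0 < β) (h1 : β < 1)
    (h0' : 0 < γ) (h : p ^ 2 * (1 - β) = ν ^ 2 - (β⁻¹ - 1) ^ 2)
    (h' : q ^ 2 * (1 - γ) = ν ^ 2 - (γ⁻¹ - 1) ^ 2) : β < γ := by
  by_contra hc
  push Not at hc
  have h3 : β⁻¹ ≤ γ⁻¹ := inv_anti₀ h0' hc
  have h4 : 1 < β⁻¹ := (one_lt_inv₀ h0).2 h1
  have h5 : (β⁻¹ - 1) ^ 2 ≤ (γ⁻¹ - 1) ^ 2 := by nlinarith
  have h6 : p ^ 2 < q ^ 2 := by nlinarith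
  have h7 : p ^ 2 * (1 - β) < q ^ 2 * (1 - β) := mul_lt_mul_of_pos_right h6 (by linarith)
  have h8 : q ^ 2 * (1 - β) ≤ q ^ 2 * (1 - γ) := mul_le_mul_of_nonneg_left (by linarith) (by positivity)
  linarith

/-- zeros beyond every bound -/
lemma zero_unbounded (ν : ℝ) (hν : 0 < ν) (M : ℝ) : ∃ x, M < x ∧ A ν x = 0 := by
  by_contra hc
  push Not at hc
  set a := max M (2 * ν + 2) with ha
  have ha1 : 2 * ν + 2 ≤ a := le_max_right _ _
  have hd : ∀ x, a < x → HasDerivAt (fun x => Real.arctan (s ν x / x) + x / 2)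
      (1 / (1 + (s ν x / x) ^ 2) * ((-(x * ph ν x) * x - s ν x * 1) / x ^ 2) + 1 / 2) x := by
    intro x hx
    have hx0 : 0 < x := by linarith
    have hA := hc x ((le_max_left _ _).trans_lt hx)
    exact (((s_deriv ν hν x hx0 hA).div (hasDerivAt_id x) hx0.ne').arctan).add
      ((hasDerivAt_id x).div_const 2)
  have hm : AntitoneOn (fun x => Real.arctan (s ν x / x) + x / 2) (Ioi a) := by
    refine antitoneOn_of_deriv_nonpos (convex_Ioi a) ?_ ?_ ?_
    · exact fun x hx => (hd x hx).continuousAt.continuousWithinAt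
    · intro x hx
      rw [interior_Ioi] at hx
      exact (hd x hx).differentiableAt.differentiableWithinAt
    · intro x hx
      rw [interior_Ioi] at hx
      rw [(hd x hx).deriv]
      have hx' : a < x := hx
      have hx0 : 0 < x := by linarith
      have hA := hc x ((le_max_left _ _).trans_lt hx)
      have h := ph_s ν x hA
      have e : 1 / (1 + (s ν x / x) ^ 2) * ((-(x * ph ν x) * x - s ν x * 1) / x ^ 2) + 1 / 2
          = (2 * ν ^ 2 - x ^ 2 - s ν x ^ 2 - 2 * s ν x) / (2 * (x ^ 2 + s ν x ^ 2)) := by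
        have : -(x * ph ν x) * x = ν ^ 2 - s ν x ^ 2 - x ^ 2 := by linarith
        rw [this]; field_simp; ring
      rw [e]
      apply div_nonpos_of_nonpos_of_nonneg _ (by positivity)
      nlinarith [sq_nonneg (s ν x + 1)]
  have h := hm (show a + 1 ∈ Ioi a by simp) (show a + 9 ∈ Ioi a by simp) (by linarith)
  have h1 := Real.arctan_lt_pi_div_two (s ν (a + 1) / (a + 1))
  have h2 := Real.neg_pi_div_two_lt_arctan (s ν (a + 9) / (a + 9))
  have h3 := Real.pi_lt_four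
  simp only at h
  linarith

lemma zero_finite (ν : ℝ) (hν : 0 < ν) (M : ℝ) : {x | 0 < x ∧ A ν x = 0 ∧ x ≤ M}.Finite := by
  obtain ⟨ε, hε, hA⟩ := A_small ν hν
  have e : {x | 0 < x ∧ A ν x = 0 ∧ x ≤ M} = Icc ε M ∩ A ν ⁻¹' {0} := by
    ext x
    simp only [mem_setOf_eq, mem_inter_iff, mem_Icc, mem_preimage, mem_singleton_iff]
    constructor
    · rintro ⟨h1, h2, h3⟩
      refine ⟨⟨?_, h3⟩, h2⟩
      by_contra hc
      exact (hA x h1.le (le_of_not_ge hc)).ne' h2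
    · rintro ⟨⟨h1, h2⟩, h3⟩
      exact ⟨hε.trans_le h1, h3, h2⟩
  rw [e]
  have hc : IsCompact (Icc ε M ∩ A ν ⁻¹' {0}) :=
    isCompact_Icc.inter_right (isClosed_singleton.preimage (A_cont ν hν))
  refine hc.finite (isDiscrete_iff_discreteTopology.2 (discreteTopology_subtype_iff.2 ?_))
  rintro x ⟨hx, hx0⟩
  have hx0' : A ν x = 0 := hx0
  have hxp : 0 < x := hε.trans_le hx.1
  have hB : B ν x ≠ 0 := by
    intro hB
    have := Q_pos ν hν x hxp
    simp [Q, hx0', hB] at this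
  have hne := (A_deriv ν hν x).eventually_ne (c := 0) (by
    have : -(x / 2) ≠ 0 := by linarith
    exact mul_ne_zero this hB)
  rw [Filter.inf_principal_eq_bot]
  filter_upwards [hne] with y hy
  exact fun h => hy h.2

lemma enum (Z : Set ℝ) (h1 : ∀ M, ∃ x ∈ Z, M < x) (h2 : ∀ M, {x | x ∈ Z ∧ x ≤ M}.Finite) :
    ∃ j : ℕ → ℝ, StrictMono j ∧ range j = Z := by
  have nx : ∀ M : ℝ, ∃ y ∈ Z, M < y ∧ ∀ z ∈ Z, M < z → y ≤ z := by
    intro M
    obtain ⟨x, hx, hMx⟩ := h1 M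
    have hf : {y | y ∈ Z ∧ M < y ∧ y ≤ x}.Finite := (h2 x).subset fun y hy => ⟨hy.1, hy.2.2⟩
    obtain ⟨y, hy, hmin⟩ := exists_min_image _ id hf ⟨x, hx, hMx, le_rfl⟩
    refine ⟨y, hy.1, hy.2.1, fun z hz hMz => ?_⟩
    by_cases hzx : z ≤ x
    · exact hmin z ⟨hz, hMz, hzx⟩
    · exact hy.2.2.trans (le_of_not_ge hzx)
  choose f hfZ hflt hfmin using nx
  obtain ⟨x0, hx0, -⟩ := h1 0
  obtain ⟨y0, hy0, hmin0⟩ := exists_min_image _ id (h2 x0) ⟨x0, hx0, le_rfl⟩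
  have hy0' : ∀ z ∈ Z, y0 ≤ z := by
    intro z hz
    by_cases hzx : z ≤ x0
    · exact hmin0 z ⟨hz, hzx⟩
    · exact hy0.2.trans (le_of_not_ge hzx)
  set j : ℕ → ℝ := fun n => f^[n] y0 with hj
  have hs : ∀ n, j (n + 1) = f (j n) := fun n => Function.iterate_succ_apply' f n y0
  have hm : StrictMono j := strictMono_nat_of_lt_succ fun n => by rw [hs]; exact hflt _
  have hZ : ∀ n, j n ∈ Z := by
    rintro (_ | n)
    · exact hy0.1
    · rw [hs]; exact hfZ _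
  refine ⟨j, hm, Subset.antisymm (range_subset_iff.2 hZ) fun z hz => ?_⟩
  by_contra hc
  have hlt : ∀ n, j n < z := by
    intro n
    induction n with
    | zero => exact lt_of_le_of_ne (hy0' z hz) fun h => hc ⟨0, h⟩
    | succ n ih =>
      refine lt_of_le_of_ne ?_ fun h => hc ⟨n + 1, h⟩
      rw [hs]; exact hfmin _ z hz ih
  exact infinite_range_of_injective hm.injective
    ((h2 z).subset (range_subset_iff.2 fun n => ⟨hZ n, (hlt n).le⟩))

theorem main : ∀ ν : ℝ, 0 < ν →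
    (∃ j : ℕ → ℝ, StrictMono j ∧ range j = {x | 0 < x ∧ J ν x = 0}) ∧
    ∀ j : ℕ → ℝ, StrictMono j → range j = {x | 0 < x ∧ J ν x = 0} →
      (∀ n, ∃! a, a ∈ Ioo (j n) (j (n + 1)) ∧ deriv (Phi ν) a = 0) ∧
      ∀ α β : ℕ → ℝ, (∀ n, α n ∈ Ioo (j n) (j (n + 1)) ∧ deriv (Phi ν) (α n) = 0) →
        β 0 = 1 / (ν + 1) → (∀ n, β (n + 1) = Phi ν (α n)) → StrictMono β := by
  intro ν hν
  constructor
  · refine enum _ (fun M => ?_) (fun M => ?_)
    · obtain ⟨x, h1, h2⟩ := zero_unbounded ν hν (max M 0)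
      have hx : 0 < x := (le_max_right _ _).trans_lt h1
      exact ⟨x, ⟨hx, (J_zero_iff ν x hx).2 h2⟩, (le_max_left _ _).trans_lt h1⟩
    · exact (zero_finite ν hν M).subset fun x hx =>
        ⟨hx.1.1, (J_zero_iff ν x hx.1.1).1 hx.1.2, hx.2⟩
  intro j hm hr
  have hj : ∀ n, 0 < j n ∧ A ν (j n) = 0 := by
    intro n
    have : j n ∈ {x | 0 < x ∧ J ν x = 0} := hr ▸ mem_range_self n
    exact ⟨this.1, (J_zero_iff ν _ this.1).1 this.2⟩
  have hz : ∀ n, ∀ x ∈ Ioo (j n) (j (n + 1)), A ν x ≠ 0 := by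
    intro n x hx h0
    have hx0 := (hj n).1.trans hx.1
    have : x ∈ range j := by rw [hr]; exact ⟨hx0, (J_zero_iff ν x hx0).2 h0⟩
    obtain ⟨k, rfl⟩ := this
    have h1 := hm.lt_iff_lt.1 hx.1
    have h2 := hm.lt_iff_lt.1 hx.2
    omega
  have hex := fun n => crit_exists ν hν (j n) (j (n + 1)) (hj n).1 (hm (Nat.lt_succ_self n))
    (hj n).2 (hj (n + 1)).2 (hz n)
  have hun := fun n => crit_unique ν hν (j n) (j (n + 1)) (hj n).1 (hz n)
  have hd : ∀ n, ∀ x ∈ Ioo (j n) (j (n + 1)), deriv (Phi ν) x = 0 ↔ G ν x = 0 :=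
    fun n x hx => deriv_Phi ν hν x ((hj n).1.trans hx.1) (hz n x hx)
  constructor
  · intro n
    obtain ⟨p, hp, h1, -⟩ := hex n
    exact ⟨p, ⟨hp, (hd n p hp).2 h1⟩, fun q hq => hun n q p hq.1 hp ((hd n q hq.1).1 hq.2) h1⟩
  intro α β hα h0 hβ
  have hp : ∀ n, 0 < α n := fun n => (hj n).1.trans (hα n).1.1
  have hG : ∀ n, G ν (α n) = 0 := fun n => (hd n _ (hα n).1).1 (hα n).2
  have hA : ∀ n, A ν (α n) ≠ 0 := fun n => hz n _ (hα n).1
  have h1 : ∀ n, ph ν (α n) < 1 := by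
    intro n
    obtain ⟨p, hp, h1, h2⟩ := hex n
    rwa [hun n _ p (hα n).1 hp (hG n) h1]
  have hb : ∀ n, β (n + 1) = ph ν (α n) := fun n => (hβ n).trans (Phi_eq ν hν _ (hp n))
  have hrel := fun n => crit_rel ν hν _ (hp n) (hA n) (hG n)
  have hpos := fun n => ph_pos ν hν _ (hp n) (hA n)
  refine strictMono_nat_of_lt_succ ?_
  rintro (_ | n)
  · rw [h0, hb]
    exact alg_low ν _ _ hν (hp 0) (hpos 0) (h1 0) (hrel 0)
  · rw [hb, hb]
    exact alg_mono ν _ _ _ _ (hp n) ((hα n).1.2.trans (hα (n + 1)).1.1) (hpos n) (h1 n)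
      (hpos (n + 1)) (hrel n) (hrel (n + 1))

end Pool.Agent.H91.Tur
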