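import Mathlib

set_option autoImplicit false

namespace Pool.Agent.H91.UZ

open Set Filter Topology

theorem bump0 : ∃ (χ : ℝ → ℝ), ContDiff ℝ 2 χ ∧ HasCompactSupport χ ∧
    (∀ u, |u| ≤ 1 / 2 → χ u = 1) ∧ ∀ u, 1 ≤ |u| → χ u = 0 := by
  let b : ContDiffBump (0 : ℝ) := ⟨1 / 2, 1, by norm_num, by norm_num⟩
  refine ⟨b, b.contDiff, b.hasCompactSupport, fun u hu => b.one_of_mem_closedBall ?_,
    fun u hu => b.zero_of_le_dist ?_⟩
  · simpa [b] using hu
  · simpa [b] using hu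

theorem bd2 (φ : ℝ → ℝ) (h : ContDiff ℝ 2 φ) (hc : HasCompactSupport φ) :
    ∃ (φ1 φ2 : ℝ → ℝ) (C : ℝ), ∀ u, HasDerivAt φ (φ1 u) u ∧ HasDerivAt φ1 (φ2 u) u ∧
      |φ u| ≤ C ∧ |φ1 u| ≤ C ∧ |φ2 u| ≤ C := by
  have h1 : ContDiff ℝ 1 (deriv φ) := h.deriv'
  obtain ⟨C0, h0⟩ := h.continuous.bounded_above_of_compact_support hc
  obtain ⟨C1, h1'⟩ := h1.continuous.bounded_above_of_compact_support hc.deriv
  obtain ⟨C2, h2⟩ := (h1.continuous_deriv le_rfl).bounded_above_of_compact_support hc.deriv.deriv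
  refine ⟨deriv φ, deriv (deriv φ), max C0 (max C1 C2), fun u =>
    ⟨(h.differentiable (by norm_num) u).hasDerivAt,
    (h1.differentiable (by norm_num) u).hasDerivAt, (h0 u).trans (le_max_left _ _),
    (h1' u).trans ((le_max_left _ _).trans (le_max_right _ _)),
    (h2 u).trans ((le_max_right _ _).trans (le_max_right _ _))⟩⟩

theorem lin3 (p q w p' q' w' : ℝ → ℝ) (hp : ∀ u, HasDerivAt p (p' u) u)
    (hq : ∀ u, HasDerivAt q (q' u) u) (hw : ∀ u, HasDerivAt w (w' u) u) (x r s a b c y : ℝ)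
    (r0 : r ≠ 0) :
    HasDerivAt (fun y => s * r * (a * p ((y - x) / r) + b * q ((y - x) / r) + c * w ((y - x) / r)))
      (s * (a * p' ((y - x) / r) + b * q' ((y - x) / r) + c * w' ((y - x) / r))) y := by
  have hl : HasDerivAt (fun y => (y - x) / r) (1 / r) y :=
    ((hasDerivAt_id y).sub_const x).div_const r
  have h1 : HasDerivAt (fun y => p ((y - x) / r)) (p' ((y - x) / r) * (1 / r)) y :=
    (hp ((y - x) / r)).comp y hl
  have h2 : HasDerivAt (fun y => q ((y - x) / r)) (q' ((y - x) / r) * (1 / r)) y :=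
    (hq ((y - x) / r)).comp y hl
  have h3 : HasDerivAt (fun y => w ((y - x) / r)) (w' ((y - x) / r) * (1 / r)) y :=
    (hw ((y - x) / r)).comp y hl
  refine ((((h1.const_mul a).fun_add (h2.const_mul b)).fun_add (h3.const_mul c)).const_mul
    (s * r)).congr_deriv ?_
  field_simp

theorem bump : ∃ K : ℝ, 0 ≤ K ∧ ∀ x r a b c ε : ℝ, 0 < r → r ≤ 1 → |a| ≤ ε * r ^ 2 → |b| ≤ ε * r →
    |c| ≤ ε → ∃ t t1 t2 : ℝ → ℝ, (∀ y, HasDerivAt t (t1 y) y) ∧ (∀ y, HasDerivAt t1 (t2 y) y) ∧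
      (∀ y, ‖t y‖ ≤ K * ε) ∧ (∀ y, ‖t1 y‖ ≤ K * ε) ∧ (∀ y, ‖t2 y‖ ≤ K * ε) ∧
      (∀ y, |y - x| ≤ r / 2 → t y = a + b * (y - x) + c * (y - x) ^ 2) ∧
      ∀ y, r ≤ |y - x| → t y = 0 := by
  obtain ⟨χ, h, hc, h1, h0⟩ := bump0
  obtain ⟨p1, p2, C0, H0⟩ := bd2 χ h hc
  have hc1 : HasCompactSupport (fun u => u * χ u) := hc.mul_left
  have hc2 : HasCompactSupport (fun u => u ^ 2 * χ u) := hc.mul_left
  obtain ⟨q1, q2, C1, H1⟩ := bd2 _ (by fun_prop) hc1
  obtain ⟨w1, w2, C2, H2⟩ := bd2 _ (by fun_prop) hc2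
  have c0 : 0 ≤ C0 := (abs_nonneg _).trans (H0 0).2.2.1
  have c1 : 0 ≤ C1 := (abs_nonneg _).trans (H1 0).2.2.1
  have c2 : 0 ≤ C2 := (abs_nonneg _).trans (H2 0).2.2.1
  refine ⟨C0 + C1 + C2, by positivity, fun x r a b c ε r0 r1 ha hb hc' => ?_⟩
  have ha' : |a / r ^ 2| ≤ ε := by
    rw [abs_div, abs_of_pos (by positivity : 0 < r ^ 2), div_le_iff₀ (by positivity)]; exact ha
  have hb' : |b / r| ≤ ε := by
    rw [abs_div, abs_of_pos r0, div_le_iff₀ r0]; exact hb
  have hε : 0 ≤ ε := (abs_nonneg _).trans hc'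
  have key : ∀ s p q w : ℝ, 0 ≤ s → s ≤ 1 → |p| ≤ C0 → |q| ≤ C1 → |w| ≤ C2 →
      ‖s * (a / r ^ 2 * p + b / r * q + c * w)‖ ≤ (C0 + C1 + C2) * ε := by
    intro s p q w s0 s1 hp hq hw
    rw [Real.norm_eq_abs, abs_mul, abs_of_nonneg s0]
    refine (mul_le_of_le_one_left (abs_nonneg _) s1).trans ((abs_add_three _ _ _).trans ?_)
    rw [abs_mul, abs_mul, abs_mul]
    have := mul_le_mul ha' hp (abs_nonneg _) hε
    have := mul_le_mul hb' hq (abs_nonneg _) hε
    have := mul_le_mul hc' hw (abs_nonneg _) hε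
    linarith
  have d1 := fun y => lin3 _ _ _ _ _ _ (fun u => (H0 u).1) (fun u => (H1 u).1) (fun u => (H2 u).1)
    x r (1 * r) (a / r ^ 2) (b / r) c y r0.ne'
  have d2 := fun y => lin3 _ _ _ _ _ _ (fun u => (H0 u).2.1) (fun u => (H1 u).2.1)
    (fun u => (H2 u).2.1) x r 1 (a / r ^ 2) (b / r) c y r0.ne'
  refine ⟨_, _, _, d1, d2, fun y => ?_, fun y => ?_, fun y => ?_, fun y hy => ?_, fun y hy => ?_⟩
  · have := key (1 * r * r) _ _ _ (by positivity) (by nlinarith) (H0 ((y - x) / r)).2.2.1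
      (H1 ((y - x) / r)).2.2.1 (H2 ((y - x) / r)).2.2.1
    exact this
  · have := key (1 * r) _ _ _ (by positivity) (by linarith) (H0 ((y - x) / r)).2.2.2.1
      (H1 ((y - x) / r)).2.2.2.1 (H2 ((y - x) / r)).2.2.2.1
    exact this
  · have := key 1 _ _ _ zero_le_one le_rfl (H0 ((y - x) / r)).2.2.2.2
      (H1 ((y - x) / r)).2.2.2.2 (H2 ((y - x) / r)).2.2.2.2
    exact this
  · have : χ ((y - x) / r) = 1 := h1 _ (by
      rw [abs_div, abs_of_pos r0, div_le_iff₀ r0]; linarith)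
    simp only [this]
    field_simp
  · have : χ ((y - x) / r) = 0 := h0 _ (by
      rw [abs_div, abs_of_pos r0, le_div_iff₀ r0]; linarith)
    simp [this]

structure St where
  l : ℝ
  u : ℝ
  A : ℝ
  B : ℝ
  C : ℝ
  t : ℝ

def St.Q (s : St) (x : ℝ) : ℝ := s.A + s.B * x + s.C * x ^ 2
def St.Q' (s : St) (x : ℝ) : ℝ := s.B + 2 * s.C * x

def Ch (g : ℝ → ℝ) (s s' : St) (x r τ : ℝ) : Prop :=
  s.l ≤ x - r ∧ x + r ≤ s.u ∧ x - r / 2 ≤ s'.l ∧ s'.l ≤ s'.u ∧ s'.u ≤ x + r / 2 ∧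
    |s'.Q x - s.Q x| ≤ s.t * r ^ 2 ∧ |s'.Q' x - s.Q' x| ≤ s.t * r ∧ |s'.C - s.C| ≤ s.t ∧
    s'.t ≤ τ ∧ ∀ y ∈ Icc s'.l s'.u, |s'.Q y - g y| ≤ τ

def pre (β : ℕ → Bool) : ℕ → List Bool
  | 0 => []
  | n + 1 => β n :: pre β n

theorem pre_len (β : ℕ → Bool) (n : ℕ) : (pre β n).length = n := by
  induction n with
  | zero => rfl
  | succ n ih => simp [pre, ih]

theorem scheme (g : ℝ → ℝ) (P : St → Prop) (h0 : ∀ τ > 0, ∃ s, P s ∧ s.t ≤ τ)
    (hs : ∀ s, P s → ∀ τ > 0, ∃ (r : ℝ) (x : Bool → ℝ) (s' : Bool → St), 0 < r ∧ r ≤ 1 ∧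
      x false + r < x true - r ∧ ∀ i, P (s' i) ∧ Ch g s (s' i) (x i) r τ) :
    ∃ f : ℝ → ℝ, Differentiable ℝ f ∧ Differentiable ℝ (deriv f) ∧
      ¬ Set.Countable {x : ℝ | f x = g x} := by
  classical
  let e : List Bool × Bool → ℝ := fun v => (1 / 2) ^ Encodable.encode v
  have he : Summable e := summable_geometric_two_encode
  let θ : List Bool → ℝ := fun w => min (e (w, false)) (e (w, true))
  have θ0 : ∀ w, 0 < θ w := fun w => by simp only [θ, e]; positivity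
  have θe : ∀ w i, θ w ≤ e (w, i) := fun w i => by
    cases i
    · exact min_le_left _ _
    · exact min_le_right _ _
  let τ : List Bool → ℝ := fun w =>
    min (min (θ (false :: w)) (θ (true :: w))) (1 / ((w.length : ℝ) + 1))
  have τ0 : ∀ w, 0 < τ w := fun w => lt_min (lt_min (θ0 _) (θ0 _)) (by positivity)
  have τθ : ∀ w i, τ w ≤ θ (i :: w) := fun w i => by
    cases i
    · exact (min_le_left _ _).trans (min_le_left _ _)
    · exact (min_le_left _ _).trans (min_le_right _ _)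
  choose! r x s' hr using hs
  obtain ⟨s0, p0, t0⟩ := h0 _ (θ0 [])
  let S : List Bool → St := fun w => List.rec s0 (fun i w s => s' s (τ w) i) w
  have hS : ∀ i w, S (i :: w) = s' (S w) (τ w) i := fun i w => rfl
  have hP : ∀ w, P (S w) := by
    intro w
    induction w with
    | nil => exact p0
    | cons i w ih => exact ((hr _ ih _ (τ0 w)).2.2.2 i).1
  let R : List Bool → ℝ := fun w => r (S w) (τ w)
  let X : List Bool → Bool → ℝ := fun w => x (S w) (τ w)
  have hR : ∀ w, 0 < R w ∧ R w ≤ 1 ∧ X w false + R w < X w true - R w := fun w =>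
    ⟨(hr _ (hP w) _ (τ0 w)).1, (hr _ (hP w) _ (τ0 w)).2.1, (hr _ (hP w) _ (τ0 w)).2.2.1⟩
  have hC : ∀ w i, Ch g (S w) (S (i :: w)) (X w i) (R w) (τ w) := fun w i =>
    ((hr _ (hP w) _ (τ0 w)).2.2.2 i).2
  have ht : ∀ w, (S w).t ≤ θ w := by
    intro w
    cases w with
    | nil => exact t0
    | cons i w => exact (hC w i).2.2.2.2.2.2.2.2.1.trans (τθ w i)
  have hdis : ∀ w w' i i', w.length = w'.length → ∀ y, |y - X w i| ≤ R w →
      |y - X w' i'| ≤ R w' → w = w' ∧ i = i' := by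
    intro w
    induction w with
    | nil =>
      intro w' i i' hl y h1 h2
      obtain rfl : [] = w' := (List.length_eq_zero_iff.1 hl.symm).symm
      refine ⟨rfl, ?_⟩
      have := (hR []).2.2
      rw [abs_le] at h1 h2
      cases i <;> cases i' <;> first | rfl | (exfalso; linarith [h1.1, h1.2, h2.1, h2.2])
    | cons j v ih =>
      intro w' i i' hl y h1 h2
      cases w' with
      | nil => simp at hl
      | cons j' v' =>
        obtain ⟨a1, a2, -⟩ := hC (j :: v) i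
        obtain ⟨b1, b2, -⟩ := hC (j' :: v') i'
        obtain ⟨-, -, a3, -, a4, -⟩ := hC v j
        obtain ⟨-, -, b3, -, b4, -⟩ := hC v' j'
        have a5 := (hR v).1
        have b5 := (hR v').1
        have h3 := (hR (j :: v)).2.2
        rw [abs_le] at h1 h2
        obtain ⟨rfl, rfl⟩ := ih v' j j' (by simpa using hl) y
          (abs_le.2 ⟨by linarith [h1.1], by linarith [h1.2]⟩)
          (abs_le.2 ⟨by linarith [h2.1], by linarith [h2.2]⟩)
        refine ⟨rfl, ?_⟩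
        cases i <;> cases i' <;> first | rfl | (exfalso; linarith [h1.1, h1.2, h2.1, h2.2])
  obtain ⟨K, K0, hK⟩ := bump
  have hT := fun v : List Bool × Bool => hK (X v.1 v.2) (R v.1) _ _ _ (S v.1).t (hR v.1).1
    (hR v.1).2.1 (hC v.1 v.2).2.2.2.2.2.1 (hC v.1 v.2).2.2.2.2.2.2.1 (hC v.1 v.2).2.2.2.2.2.2.2.1
  choose T T1 T2 d1 d2 n0 n1 n2 hin hout using hT
  have hb : ∀ v : List Bool × Bool, K * (S v.1).t ≤ K * e v := fun v =>
    mul_le_mul_of_nonneg_left ((ht _).trans (θe v.1 v.2)) K0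
  have hu := he.mul_left K
  have s0' : ∀ y, Summable fun v => T v y := fun y =>
    Summable.of_norm_bounded hu fun v => (n0 v y).trans (hb v)
  have s1' : ∀ y, Summable fun v => T1 v y := fun y =>
    Summable.of_norm_bounded hu fun v => (n1 v y).trans (hb v)
  have D1 : ∀ y, HasDerivAt (fun z => s0.Q z + ∑' v, T v z) (s0.Q' y + ∑' v, T1 v y) y := by
    intro y
    refine HasDerivAt.add ?_ (hasDerivAt_tsum hu d1 (fun v y => (n1 v y).trans (hb v)) (s0' 0) y)
    refine ((((hasDerivAt_id y).const_mul s0.B).const_add s0.A).add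
      ((hasDerivAt_pow 2 y).const_mul s0.C)).congr_deriv ?_
    simp [St.Q']; ring
  have D2 : ∀ y, HasDerivAt (fun z => s0.Q' z + ∑' v, T1 v z) (2 * s0.C * 1 + ∑' v, T2 v y) y :=
    fun y => (((hasDerivAt_id y).const_mul (2 * s0.C)).const_add s0.B).add
      (hasDerivAt_tsum hu d2 (fun v y => (n2 v y).trans (hb v)) (s1' 0) y)
  refine ⟨fun z => s0.Q z + ∑' v, T v z, fun y => (D1 y).differentiableAt, ?_, ?_⟩
  · rw [show deriv (fun z => s0.Q z + ∑' v, T v z) = fun z => s0.Q' z + ∑' v, T1 v z from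
      funext fun y => (D1 y).deriv]
    exact fun y => (D2 y).differentiableAt
  have hpt : ∀ β : ℕ → Bool, ∃ y, ∀ n, y ∈ Icc (S (pre β (n + 1))).l (S (pre β (n + 1))).u := by
    intro β
    have := IsCompact.nonempty_iInter_of_sequence_nonempty_isCompact_isClosed
      (fun n => Icc (S (pre β (n + 1))).l (S (pre β (n + 1))).u) (fun n => by
        obtain ⟨a1, a2, a3, -, a4, -⟩ := hC (pre β (n + 1)) (β (n + 1))
        have := (hR (pre β (n + 1))).1
        exact Icc_subset_Icc (by simp only [pre] at *; linarith) (by simp only [pre] at *; linarith))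
      (fun n => nonempty_Icc.2 (hC (pre β n) (β n)).2.2.2.1) isCompact_Icc fun _ => isClosed_Icc
    obtain ⟨y, hy⟩ := this
    exact ⟨y, mem_iInter.1 hy⟩
  choose Y hY using hpt
  have hYb : ∀ β n, |Y β - X (pre β n) (β n)| ≤ R (pre β n) / 2 := by
    intro β n
    obtain ⟨-, -, a3, -, a4, -⟩ := hC (pre β n) (β n)
    have := hY β n
    simp only [pre] at this
    exact abs_le.2 ⟨by linarith [this.1], by linarith [this.2]⟩
  have hYb' : ∀ β n, |Y β - X (pre β n) (β n)| ≤ R (pre β n) := fun β n =>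
    (hYb β n).trans (by linarith [(hR (pre β n)).1])
  have hinj : Function.Injective Y := by
    intro β β' h
    funext n
    exact (hdis _ _ _ _ (by rw [pre_len, pre_len]) _ (hYb' β n) (h ▸ hYb' β' n)).2
  have hmem : ∀ β, s0.Q (Y β) + ∑' v, T v (Y β) = g (Y β) := by
    intro β
    let ι : ℕ → List Bool × Bool := fun n => (pre β n, β n)
    have hι : Function.Injective ι := fun m n h => by
      have := congrArg (fun v : List Bool × Bool => v.1.length) h
      simpa [ι, pre_len] using this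
    have hsup : Function.support (fun v => T v (Y β)) ⊆ range ι := by
      rintro ⟨w, i⟩ hv
      have h1 : |Y β - X w i| ≤ R w := by
        by_contra h
        exact hv (hout (w, i) _ (not_le.1 h).le)
      obtain ⟨h2, h3⟩ := hdis _ _ _ _ (pre_len β w.length).symm _ h1 (hYb' β _)
      exact ⟨w.length, Prod.ext h2.symm h3.symm⟩
    rw [← hι.tsum_eq hsup]
    have h1 := (((s0' (Y β)).comp_injective hι).hasSum.tendsto_sum_nat).const_add (s0.Q (Y β))
    have h2 : ∀ n, s0.Q (Y β) + ∑ k ∈ Finset.range n, ((fun v => T v (Y β)) ∘ ι) k =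
        (S (pre β n)).Q (Y β) := by
      intro n
      induction n with
      | zero => simp [pre, S]
      | succ n ih =>
        rw [Finset.sum_range_succ, ← add_assoc, ih]
        simp only [Function.comp, ι, hin (pre β n, β n) _ (hYb β n), pre, St.Q, St.Q']
        ring
    simp only [h2] at h1
    refine tendsto_nhds_unique h1 ?_
    rw [← tendsto_add_atTop_iff_nat 1, tendsto_iff_norm_sub_tendsto_zero]
    refine squeeze_zero (fun _ => norm_nonneg _) (fun n => ?_) tendsto_one_div_add_atTop_nhds_zero_nat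
    have := (hC (pre β n) (β n)).2.2.2.2.2.2.2.2.2 _ (hY β n)
    refine this.trans ((min_le_right _ _).trans ?_)
    rw [pre_len]
  intro hc
  have h1 : (range Y).Countable := hc.mono (by rintro _ ⟨β, rfl⟩; exact hmem β)
  have h2 : (univ : Set (ℕ → Bool)).Countable := by
    have := h1.preimage_of_injOn (f := Y) hinj.injOn
    simpa using this
  have h3 : Countable (ℕ → Bool) := countable_univ_iff.1 h2
  obtain ⟨F, hF⟩ := exists_surjective_nat (ℕ → Bool)
  obtain ⟨n, hn⟩ := hF fun n => !(F n n)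
  simpa using congrFun hn n

theorem child (φ φ' : ℝ → ℝ) (hd : ∀ x, HasDerivAt φ (φ' x) x) (a b : ℝ)
    (hn : ∀ u v, a ≤ u → u < v → v ≤ b → ¬ MonotoneOn φ' (Icc u v))
    (p δ κ σ η : ℝ) (δ0 : 0 < δ) (η0 : 0 < η) (ha : a ≤ p) (hb : p + δ ≤ b)
    (hs : ∀ x ∈ Icc p (p + δ), κ + σ * x ≤ φ x) (hp : φ p = κ + σ * p) (hp' : φ' p = σ) :
    ∃ u x y κ' σ', p < x ∧ x < y ∧ y < u ∧ u ≤ p + δ ∧ (∀ z ∈ Icc p u, κ' + σ' * z ≤ φ z) ∧
      φ x = κ' + σ' * x ∧ φ y = κ' + σ' * y ∧ φ' x = σ' ∧ φ' y = σ' ∧ |σ' - σ| ≤ η ∧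
      |κ' + σ' * p - (κ + σ * p)| ≤ η ∧ ∀ z ∈ Icc p u, |κ' + σ' * z - φ z| ≤ 3 * η := by
  let ψ : ℝ → ℝ := fun x => φ x - κ - σ * x
  have hψ : ∀ x, HasDerivAt ψ (φ' x - σ) x := fun x => by
    simpa using ((hd x).sub_const κ).fun_sub ((hasDerivAt_id' x).const_mul σ)
  have hc : Continuous ψ := continuous_iff_continuousAt.2 fun x => (hψ x).continuousAt
  have ψp : ψ p = 0 := by simp [ψ, hp]
  have hlo : ∀ c > 0, ∃ d > 0, ∀ x, |x - p| < d → |ψ x| ≤ c * |x - p| := by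
    intro c c0
    have := (hψ p).isLittleO.def c0
    rw [hp', sub_self, ψp] at this
    obtain ⟨d, d0, hd⟩ := Metric.eventually_nhds_iff.1 this
    exact ⟨d, d0, fun x hx => by simpa using hd hx⟩
  obtain ⟨d, d0, hd1⟩ := hlo η η0
  set v := min (min δ 1) (d / 2) with hv
  have v0 : 0 < v := by positivity
  have v1 : v ≤ δ := (min_le_left _ _).trans (min_le_left _ _)
  have v2 : v ≤ 1 := (min_le_left _ _).trans (min_le_right _ _)
  have v3 : v ≤ d / 2 := min_le_right _ _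
  have ψ0 : ∀ x ∈ Icc p (p + v), 0 ≤ ψ x := fun x hx => by
    have := hs x ⟨hx.1, by linarith [hx.2]⟩
    simp only [ψ]; linarith
  have ψ1 : ∀ x ∈ Icc p (p + v), ψ x ≤ η * (x - p) := fun x hx => by
    have := hd1 x (by rw [abs_of_nonneg (by linarith [hx.1])]; linarith [hx.2])
    rw [abs_of_nonneg (by linarith [hx.1] : 0 ≤ x - p)] at this
    exact (le_abs_self _).trans this
  obtain ⟨u, hu, ψu⟩ : ∃ u ∈ Icc p (p + v), 0 < ψ u := by
    by_contra hh
    push Not at hh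
    have hz : ∀ x ∈ Ioo p (p + v), φ' x = σ := by
      intro x hx
      have h1 : ψ =ᶠ[𝓝 x] fun _ => 0 := by
        filter_upwards [Icc_mem_nhds hx.1 hx.2] with z hz using le_antisymm (hh z hz) (ψ0 z hz)
      have := (hψ x).unique ((hasDerivAt_const x (0 : ℝ)).congr_of_eventuallyEq h1)
      linarith
    refine hn (p + v / 3) (p + 2 * v / 3) (by linarith) (by linarith) (by linarith) ?_
    intro x hx y hy _
    rw [hz x ⟨by linarith [hx.1], by linarith [hx.2]⟩, hz y ⟨by linarith [hy.1], by linarith [hy.2]⟩]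
  have pu : p < u := lt_of_le_of_ne hu.1 (fun e => by rw [← e, ψp] at ψu; exact lt_irrefl _ ψu)
  set s0 := ψ u / (u - p) with hs0
  have s00 : 0 < s0 := div_pos ψu (by linarith)
  have s01 : s0 ≤ η := by rw [hs0, div_le_iff₀ (by linarith)]; exact ψ1 u hu
  have s02 : s0 * (u - p) = ψ u := div_mul_cancel₀ _ (by linarith)
  let Mn : ℝ → ℝ → Prop := fun s m => m ∈ Icc p u ∧ ∀ x ∈ Icc p u, ψ m - s * m ≤ ψ x - s * x
  have hex : ∀ s, ∃ m, Mn s m := fun s => by
    obtain ⟨m, hm, hm'⟩ := (isCompact_Icc (a := p) (b := u)).exists_isMinOn ⟨p, le_rfl, pu.le⟩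
      (f := fun x => ψ x - s * x) (by fun_prop)
    exact ⟨m, hm, fun x hx => hm' hx⟩
  have hint : ∀ s m, 0 < s → s < s0 → Mn s m → p < m ∧ m < u ∧ φ' m = σ + s := by
    intro s m s0' s1 hm
    have h1 : p < m := by
      refine lt_of_le_of_ne hm.1.1 fun e => ?_
      obtain ⟨d', d0', hd'⟩ := hlo (s / 2) (by linarith)
      set w := min (d' / 2) (u - p) with hw
      have w0 : 0 < w := lt_min (by linarith) (by linarith)
      have w1 : w ≤ d' / 2 := min_le_left _ _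
      have w2 : w ≤ u - p := min_le_right _ _
      have a1 := hm.2 (p + w) ⟨by linarith, by linarith⟩
      have a2 := hd' (p + w) (by rw [add_sub_cancel_left, abs_of_pos w0]; linarith)
      rw [add_sub_cancel_left, abs_of_pos w0] at a2
      rw [← e, ψp] at a1
      have := le_abs_self (ψ (p + w))
      nlinarith
    have h2 : m < u := by
      refine lt_of_le_of_ne hm.1.2 fun e => ?_
      have a1 := hm.2 p ⟨le_rfl, pu.le⟩
      rw [e, ψp] at a1
      nlinarith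
    refine ⟨h1, h2, ?_⟩
    have h3 : IsLocalMin (fun x => ψ x - s * x) m :=
      mem_of_superset (Icc_mem_nhds h1 h2) hm.2
    have := h3.hasDerivAt_eq_zero ((hψ m).fun_sub ((hasDerivAt_id' m).const_mul s))
    linarith
  have hord : ∀ s m s' m', Mn s m → Mn s' m' → 0 ≤ (s' - s) * (m' - m) := by
    intro s m s' m' h h'
    have := h.2 m' h'.1
    have := h'.2 m h.1
    linarith
  obtain ⟨x1, hx1⟩ := hex (s0 / 3)
  obtain ⟨x2, hx2⟩ := hex (2 * s0 / 3)
  obtain ⟨b1, b2, b3⟩ := hint _ _ (by linarith) (by linarith) hx1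
  obtain ⟨c1, c2, c3⟩ := hint _ _ (by linarith) (by linarith) hx2
  have x12 : x1 < x2 := by
    have := hord _ _ _ _ hx1 hx2
    refine lt_of_le_of_ne (by nlinarith) fun e => ?_
    rw [e] at b3
    linarith
  obtain ⟨w, hw, hw'⟩ : ∃ w ∈ Icc x1 x2, ∀ s ∈ Icc (s0 / 3) (2 * s0 / 3), ¬ Mn s w := by
    by_contra hh
    push Not at hh
    refine hn x1 x2 (by linarith) x12 (by linarith [hu.2]) fun w hw w' hw' hww => ?_
    rcases hww.eq_or_lt with e | e
    · rw [e]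
    obtain ⟨s, hs, hm⟩ := hh w hw
    obtain ⟨s', hs', hm'⟩ := hh w' hw'
    rw [(hint s w (by linarith [hs.1]) (by linarith [hs.2]) hm).2.2,
      (hint s' w' (by linarith [hs'.1]) (by linarith [hs'.2]) hm').2.2]
    have := hord _ _ _ _ hm hm'
    nlinarith
  have hcl : ∀ K : Set ℝ, IsCompact K → IsClosed {s | ∃ m ∈ K, Mn s m} := by
    intro K hK
    have h1 : IsClosed {z : ℝ × ℝ | Mn z.1 z.2} := by
      have : {z : ℝ × ℝ | Mn z.1 z.2} = Prod.snd ⁻¹' Icc p u ∩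
          ⋂ x ∈ Icc p u, {z : ℝ × ℝ | ψ z.2 - z.1 * z.2 ≤ ψ x - z.1 * x} := by
        ext z; simp [Mn]
      rw [this]
      exact (isClosed_Icc.preimage continuous_snd).inter
        (isClosed_biInter fun x _ => isClosed_le (by fun_prop) (by fun_prop))
    have : CompactSpace K := isCompact_iff_compactSpace.1 hK
    have h2 := isClosedMap_fst_of_compactSpace (X := ℝ) (Y := K) _
      (h1.preimage (by fun_prop : Continuous fun z : ℝ × K => (z.1, (z.2 : ℝ))))
    convert h2 using 1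
    ext s
    simp
  obtain ⟨s, hs, ⟨x, hx, hmx⟩, ⟨y, hy, hmy⟩⟩ := isPreconnected_closed_iff.1
    (isPreconnected_Icc (a := s0 / 3) (b := 2 * s0 / 3)) _ _ (hcl _ (isCompact_Icc (a := p) (b := w)))
    (hcl _ (isCompact_Icc (a := w) (b := u))) (fun s _ => by
      obtain ⟨m, hm⟩ := hex s
      rcases le_total m w with h | h
      · exact Or.inl ⟨m, ⟨hm.1.1, h⟩, hm⟩
      · exact Or.inr ⟨m, ⟨h, hm.1.2⟩, hm⟩)
    ⟨s0 / 3, ⟨le_rfl, by linarith⟩, x1, ⟨b1.le, hw.1⟩, hx1⟩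
    ⟨2 * s0 / 3, ⟨by linarith, le_rfl⟩, x2, ⟨hw.2, c2.le⟩, hx2⟩
  have xw : x < w := lt_of_le_of_ne hx.2 fun e => hw' s hs (e ▸ hmx)
  have wy : w < y := lt_of_le_of_ne hy.1 fun e => hw' s hs (e ▸ hmy)
  have s1 : 0 < s := by linarith [hs.1]
  have s2 : s < s0 := by linarith [hs.2]
  obtain ⟨e1, e2, e3⟩ := hint s x s1 s2 hmx
  obtain ⟨f1, f2, f3⟩ := hint s y s1 s2 hmy
  have g1 := hmx.2 y hmy.1
  have g2 := hmy.2 x hmx.1
  have hbd : ∀ z ∈ Icc p u, |ψ z| ≤ η := fun z hz => by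
    have h1 : z ∈ Icc p (p + v) := ⟨hz.1, hz.2.trans hu.2⟩
    rw [abs_of_nonneg (ψ0 z h1)]
    refine (ψ1 z h1).trans (mul_le_of_le_one_right η0.le (by linarith [h1.2]))
  have hbs : ∀ z ∈ Icc p u, |s * (z - x)| ≤ η := fun z hz => by
    rw [abs_mul, abs_of_pos s1]
    have : |z - x| ≤ 1 := abs_le.2 ⟨by linarith [hz.1, hu.2], by linarith [hz.2, hu.2]⟩
    nlinarith [abs_nonneg (z - x)]
  refine ⟨u, x, y, κ + ψ x - s * x, σ + s, e1, by linarith, f2, by linarith [hu.2],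
    fun z hz => ?_, ?_, ?_, e3, f3, ?_, ?_, fun z hz => ?_⟩
  · have := hmx.2 z hz
    simp only [ψ] at this ⊢
    linarith
  · simp only [ψ]; ring
  · simp only [ψ] at g1 g2 ⊢
    linarith
  · rw [add_sub_cancel_left, abs_of_pos s1]; linarith
  · have a1 := hmx.2 p ⟨le_rfl, pu.le⟩
    have a2 := ψ0 x ⟨e1.le, by linarith [hu.2]⟩
    have a3 := abs_le.1 (hbs p ⟨le_rfl, pu.le⟩)
    rw [ψp] at a1
    rw [abs_le]
    constructor <;> linarith [a3.1, a3.2]
  · have a1 := abs_le.1 (hbd z hz)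
    have a2 := abs_le.1 (hbd x hmx.1)
    have a3 := abs_le.1 (hbs z hz)
    simp only [ψ] at a1 a2 ⊢
    rw [abs_le]
    constructor <;> linarith [a1.1, a1.2, a2.1, a2.2, a3.1, a3.2]

def Goal (g : ℝ → ℝ) : Prop := ∃ f : ℝ → ℝ, Differentiable ℝ f ∧ Differentiable ℝ (deriv f) ∧
  ¬ Set.Countable {x : ℝ | f x = g x}

theorem caseA (φ φ' : ℝ → ℝ) (hd : ∀ x, HasDerivAt φ (φ' x) x) (a b : ℝ)
    (hn : ∀ u v, a ≤ u → u < v → v ≤ b → ¬ MonotoneOn φ' (Icc u v))
    (hna : ¬ AntitoneOn φ' (Icc a b)) : Goal φ := by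
  let P : St → Prop := fun s => a ≤ s.l ∧ s.u ≤ b ∧ s.C = 0 ∧ 0 < s.t ∧ ∃ x y, s.l < x ∧ x < y ∧
    y < s.u ∧ (∀ z ∈ Icc s.l s.u, s.A + s.B * z ≤ φ z) ∧ φ x = s.A + s.B * x ∧
    φ y = s.A + s.B * y ∧ φ' x = s.B ∧ φ' y = s.B
  refine scheme φ P (fun τ τ0 => ?_) (fun s hs τ τ0 => ?_)
  · obtain ⟨y, hy, z, hz, hyz, h⟩ : ∃ y ∈ Icc a b, ∃ z ∈ Icc a b, y ≤ z ∧ φ' y < φ' z := by
      by_contra hh
      push Not at hh
      exact hna fun y hy z hz hyz => hh y hy z hz hyz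
    have yz : y < z := lt_of_le_of_ne hyz fun e => by rw [e] at h; exact lt_irrefl _ h
    set σ := (φ' y + φ' z) / 2 with hσ
    have hψ : ∀ x, HasDerivAt (fun x => φ x - σ * x) (φ' x - σ * 1) x := fun x =>
      (hd x).fun_sub ((hasDerivAt_id' x).const_mul σ)
    obtain ⟨p, hp, hm⟩ := (isCompact_Icc (a := y) (b := z)).exists_isMinOn ⟨y, le_rfl, hyz⟩
      (f := fun x => φ x - σ * x) fun x _ => (hψ x).continuousAt.continuousWithinAt
    have p1 : y < p := by
      refine lt_of_le_of_ne hp.1 fun e => ?_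
      have h1 := hm.localize.hasFDerivWithinAt_nonneg (hψ p).hasFDerivAt.hasFDerivWithinAt
        (y := z - p) (sub_mem_posTangentConeAt_of_segment_subset
          ((convex_Icc y z).segment_subset hp ⟨hyz, le_rfl⟩))
      simp only [ContinuousLinearMap.toSpanSingleton_apply, smul_eq_mul] at h1
      rw [← e] at h1
      nlinarith
    have p2 : p < z := by
      refine lt_of_le_of_ne hp.2 fun e => ?_
      have h1 := hm.localize.hasFDerivWithinAt_nonneg (hψ p).hasFDerivAt.hasFDerivWithinAt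
        (y := y - p) (sub_mem_posTangentConeAt_of_segment_subset
          ((convex_Icc y z).segment_subset hp ⟨le_rfl, hyz⟩))
      simp only [ContinuousLinearMap.toSpanSingleton_apply, smul_eq_mul] at h1
      rw [e] at h1
      nlinarith
    have p3 := (hm.isLocalMin (Icc_mem_nhds p1 p2)).hasDerivAt_eq_zero (hψ p)
    obtain ⟨u, x, y', κ', σ', h1, h2, h3, h4, h5, h6, h7, h8, h9, -⟩ := child φ φ' hd a b hn p
      (z - p) (φ p - σ * p) σ 1 (by linarith) one_pos (by linarith [hy.1]) (by linarith [hz.2])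
      (fun x hx => by
        have : φ p - σ * p ≤ φ x - σ * x := hm ⟨by linarith [hx.1], by linarith [hx.2]⟩
        linarith) (by ring) (by linarith)
    exact ⟨⟨p, u, κ', σ', 0, τ⟩, ⟨by linarith [hy.1], by linarith [hz.2], rfl, τ0, x, y', h1, h2,
      h3, h5, h6, h7, h8, h9⟩, le_rfl⟩
  obtain ⟨q1, q2, q3, q4, x, y, q5, q6, q7, q8, q9, q10, q11, q12⟩ := hs
  set r := min (min ((y - x) / 3) 1) (min (x - s.l) (s.u - y)) with hr
  have r0 : 0 < r := lt_min (lt_min (by linarith) one_pos) (lt_min (by linarith) (by linarith))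
  have r1 : r ≤ (y - x) / 3 := (min_le_left _ _).trans (min_le_left _ _)
  have r2 : r ≤ 1 := (min_le_left _ _).trans (min_le_right _ _)
  have r3 : r ≤ x - s.l := (min_le_right _ _).trans (min_le_left _ _)
  have r4 : r ≤ s.u - y := (min_le_right _ _).trans (min_le_right _ _)
  set η := min (s.t * r ^ 2) (τ / 3) with hη
  have η0 : 0 < η := lt_min (by positivity) (by linarith)
  have η1 : η ≤ s.t * r ^ 2 := min_le_left _ _
  have η2 : η ≤ τ / 3 := min_le_right _ _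
  have η3 : s.t * r ^ 2 ≤ s.t * r := mul_le_mul_of_nonneg_left (by nlinarith) q4.le
  have key : ∀ p, s.l ≤ p - r → p + r ≤ s.u → φ p = s.A + s.B * p → φ' p = s.B →
      ∃ s', P s' ∧ Ch φ s s' p r τ := by
    intro p p1 p2 p3 p4
    obtain ⟨u, x', y', κ', σ', h1, h2, h3, h4, h5, h6, h7, h8, h9, h10, h11, h12⟩ :=
      child φ φ' hd a b hn p (r / 2) s.A s.B η (by linarith) η0 (by linarith) (by linarith)
        (fun z hz => q8 z ⟨by linarith [hz.1], by linarith [hz.2]⟩) p3 p4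
    refine ⟨⟨p, u, κ', σ', 0, τ⟩, ⟨by linarith, by linarith, rfl, τ0, x', y', h1, h2, h3, h5, h6,
      h7, h8, h9⟩, p1, p2, by linarith, by linarith, h4, ?_, ?_, ?_, le_rfl, fun z hz => ?_⟩
    · simpa [St.Q, q3] using h11.trans η1
    · simpa [St.Q', q3] using h10.trans (η1.trans η3)
    · simpa [q3] using q4.le
    · simpa [St.Q] using (h12 z hz).trans (by linarith : 3 * η ≤ τ)
  obtain ⟨s0, h0⟩ := key x (by linarith) (by linarith) q9 q11
  obtain ⟨s1, h1⟩ := key y (by linarith) (by linarith) q10 q12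
  refine ⟨r, fun i => if i then y else x, fun i => if i then s1 else s0, r0, r2, ?_, fun i => ?_⟩
  · simp only [Bool.false_eq_true, if_false, if_true]; linarith
  · cases i
    · exact h0
    · exact h1

def Tw (g' : ℝ → ℝ) (u v lo hi : ℝ) : Prop := u < v ∧ lo ≤ hi ∧
  MonotoneOn (fun x => g' x - lo * x) (Icc u v) ∧ AntitoneOn (fun x => g' x - hi * x) (Icc u v)

theorem refine_tw (g' : ℝ → ℝ) (H : ∀ c u v, u < v → ∃ u' v', u ≤ u' ∧ u' < v' ∧ v' ≤ v ∧
      (MonotoneOn (fun x => g' x - c * x) (Icc u' v') ∨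
        AntitoneOn (fun x => g' x - c * x) (Icc u' v')))
    (u v lo hi : ℝ) (h : Tw g' u v lo hi) (τ : ℝ) (τ0 : 0 < τ) :
    ∃ u' v' lo' hi', u ≤ u' ∧ v' ≤ v ∧ lo ≤ lo' ∧ hi' ≤ hi ∧ hi' - lo' ≤ τ ∧ Tw g' u' v' lo' hi' := by
  have key : ∀ n : ℕ, ∃ u' v' lo' hi', u ≤ u' ∧ v' ≤ v ∧ lo ≤ lo' ∧ hi' ≤ hi ∧
      hi' - lo' ≤ (hi - lo) * (1 / 2) ^ n ∧ Tw g' u' v' lo' hi' := by
    intro n
    induction n with
    | zero => exact ⟨u, v, lo, hi, le_rfl, le_rfl, le_rfl, le_rfl, by simp, h⟩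
    | succ n ih =>
      obtain ⟨u', v', lo', hi', h1, h2, h3, h4, h5, h6, h7, h8, h9⟩ := ih
      obtain ⟨a, b, a1, a2, a3, h | h⟩ := H ((lo' + hi') / 2) u' v' h6
      · exact ⟨a, b, (lo' + hi') / 2, hi', by linarith, by linarith, by linarith, h4,
          by rw [pow_succ]; linarith, a2, by linarith, h, h9.mono (Icc_subset_Icc a1 a3)⟩
      · exact ⟨a, b, lo', (lo' + hi') / 2, by linarith, by linarith, h3, by linarith,
          by rw [pow_succ]; linarith, a2, by linarith, h8.mono (Icc_subset_Icc a1 a3), h⟩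
  have h0 : 0 < hi - lo + 1 := by linarith [h.2.1]
  obtain ⟨n, hn⟩ := exists_pow_lt_of_lt_one (div_pos τ0 h0) (by norm_num : (1 / 2 : ℝ) < 1)
  obtain ⟨u', v', lo', hi', h1, h2, h3, h4, h5, h6⟩ := key n
  refine ⟨u', v', lo', hi', h1, h2, h3, h4, h5.trans ?_, h6⟩
  rw [lt_div_iff₀ h0] at hn
  have : (0 : ℝ) < (1 / 2) ^ n := by positivity
  nlinarith

theorem Q_deriv (s : St) (y : ℝ) : HasDerivAt s.Q (s.Q' y) y := by
  refine ((((hasDerivAt_id y).const_mul s.B).const_add s.A).add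
    ((hasDerivAt_pow 2 y).const_mul s.C)).congr_deriv ?_
  simp [St.Q']; ring

theorem taylor (g g' : ℝ → ℝ) (hd : ∀ x, HasDerivAt g (g' x) x) (s : St) (lo hi m : ℝ)
    (h : Tw g' s.l s.u lo hi) (hm : m ∈ Icc s.l s.u) (hC : s.C = lo / 2) (h0 : s.Q m = g m)
    (h1 : s.Q' m = g' m) :
    (∀ y ∈ Icc s.l s.u, |s.Q' y - g' y| ≤ (hi - lo) * (s.u - s.l)) ∧
      ∀ y ∈ Icc s.l s.u, |s.Q y - g y| ≤ (hi - lo) * (s.u - s.l) * (s.u - s.l) := by
  have hl : 0 ≤ hi - lo := by linarith [h.2.1]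
  have a : ∀ y ∈ Icc s.l s.u, |s.Q' y - g' y| ≤ (hi - lo) * (s.u - s.l) := by
    intro y hy
    have e : s.Q' y = g' m + lo * (y - m) := by rw [← h1]; simp only [St.Q', hC]; ring
    rw [e, abs_le]
    rcases le_total m y with h2 | h2
    · have a1 := h.2.2.1 hm hy h2
      have a2 := h.2.2.2 hm hy h2
      have a3 : (hi - lo) * (y - m) ≤ (hi - lo) * (s.u - s.l) :=
        mul_le_mul_of_nonneg_left (by linarith [hy.2, hm.1]) hl
      have a4 := mul_nonneg hl (by linarith [h.1] : 0 ≤ s.u - s.l)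
      simp only at a1 a2
      constructor <;> linarith
    · have a1 := h.2.2.1 hy hm h2
      have a2 := h.2.2.2 hy hm h2
      have a3 : (hi - lo) * (m - y) ≤ (hi - lo) * (s.u - s.l) :=
        mul_le_mul_of_nonneg_left (by linarith [hy.1, hm.2]) hl
      have a4 := mul_nonneg hl (by linarith [h.1] : 0 ≤ s.u - s.l)
      simp only at a1 a2
      constructor <;> linarith
  refine ⟨a, fun y hy => ?_⟩
  have := (convex_Icc s.l s.u).norm_image_sub_le_of_norm_hasDerivWithin_le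
    (f := fun y => s.Q y - g y) (f' := fun y => s.Q' y - g' y)
    (fun x _ => ((Q_deriv s x).fun_sub (hd x)).hasDerivWithinAt) a hm hy
  simp only [h0, sub_self, sub_zero, Real.norm_eq_abs] at this
  refine this.trans (mul_le_mul_of_nonneg_left ?_ (mul_nonneg hl (by linarith [h.1])))
  exact abs_le.2 ⟨by linarith [hy.1, hm.2], by linarith [hy.2, hm.1]⟩

theorem caseB (g g' : ℝ → ℝ) (hd : ∀ x, HasDerivAt g (g' x) x)
    (H : ∀ c u v, u < v → ∃ u' v', u ≤ u' ∧ u' < v' ∧ v' ≤ v ∧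
      (MonotoneOn (fun x => g' x - c * x) (Icc u' v') ∨
        AntitoneOn (fun x => g' x - c * x) (Icc u' v')))
    (u v lo hi : ℝ) (h : Tw g' u v lo hi) (h1 : v - u ≤ 1) : Goal g := by
  let P : St → Prop := fun s => s.u - s.l ≤ 1 ∧ ∃ lo hi, Tw g' s.l s.u lo hi ∧ s.C = lo / 2 ∧
    s.Q s.l = g s.l ∧ s.Q' s.l = g' s.l ∧ 75 * (hi - lo) ≤ s.t
  have mk : ∀ u v lo hi τ : ℝ, Tw g' u v lo hi → v - u ≤ 1 → 0 < τ → ∃ (s : St) (lo' hi' : ℝ), u ≤ s.l ∧ s.u ≤ v ∧
      lo ≤ lo' ∧ hi' ≤ hi ∧ s.t = τ ∧ s.u - s.l ≤ 1 ∧ Tw g' s.l s.u lo' hi' ∧ s.C = lo' / 2 ∧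
      s.Q s.l = g s.l ∧ s.Q' s.l = g' s.l ∧ 75 * (hi' - lo') ≤ s.t := by
    intro u v lo hi τ h h1 τ0
    obtain ⟨u', v', lo', hi', a1, a2, a3, a4, a5, a6⟩ := refine_tw g' H u v lo hi h (τ / 75)
      (by linarith)
    refine ⟨⟨u', v', g u' - g' u' * u' + lo' / 2 * u' ^ 2, g' u' - lo' * u', lo' / 2, τ⟩, lo', hi',
      a1, a2, a3, a4, rfl, by simp only; linarith, a6, rfl, ?_, ?_, by simp only; linarith⟩
    · simp only [St.Q]; ring
    · simp only [St.Q']; ring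
  refine scheme g P (fun τ τ0 => ?_) (fun s hs τ τ0 => ?_)
  · obtain ⟨s, lo', hi', -, -, -, -, a5, a6, a7⟩ := mk u v lo hi τ h h1 τ0
    exact ⟨s, ⟨a6, lo', hi', a7⟩, a5.le⟩
  obtain ⟨q1, lo, hi, q2, q3, q4, q5, q6⟩ := hs
  obtain ⟨t1, t2⟩ := taylor g g' hd s lo hi s.l q2 ⟨le_rfl, q2.1.le⟩ q3 q4 q5
  set r := (s.u - s.l) / 5 with hr
  have r0 : 0 < r := by linarith [q2.1]
  have hL : s.u - s.l = 5 * r := by linarith
  have hl : 0 ≤ hi - lo := by linarith [q2.2.1]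
  have key : ∀ p, s.l ≤ p - r → p + r ≤ s.u → ∃ s', P s' ∧ Ch g s s' p r τ := by
    intro p p1 p2
    obtain ⟨s', lo', hi', a1, a2, a3, a4, a5, a6, a7, a8, a9, a10, a11⟩ :=
      mk (p - r / 2) (p + r / 2) lo hi τ ⟨by linarith, q2.2.1,
        q2.2.2.1.mono (Icc_subset_Icc (by linarith) (by linarith)),
        q2.2.2.2.mono (Icc_subset_Icc (by linarith) (by linarith))⟩ (by linarith) τ0
    have m1 : s'.l ∈ Icc s.l s.u := ⟨by linarith, by linarith [a7.1]⟩
    have b1 := t1 _ m1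
    have b2 := t2 _ m1
    rw [← a10, abs_sub_comm, hL] at b1
    rw [← a9, abs_sub_comm, hL] at b2
    have b3 : |s'.C - s.C| ≤ (hi - lo) / 2 := by
      rw [a8, q3, abs_le]; constructor <;> linarith [a7.2.1]
    have b4 : |p - s'.l| ≤ r := abs_le.2 ⟨by linarith [a7.1], by linarith⟩
    have b5 : |(s'.C - s.C) * (p - s'.l)| ≤ (hi - lo) / 2 * r := by
      rw [abs_mul]; exact mul_le_mul b3 b4 (abs_nonneg _) (by linarith)
    have b6 : |(s'.C - s.C) * (p - s'.l) * (p - s'.l)| ≤ (hi - lo) / 2 * r * r := by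
      rw [abs_mul]; exact mul_le_mul b5 b4 (abs_nonneg _) (by positivity)
    have b7 : |(s'.Q' s'.l - s.Q' s'.l) * (p - s'.l)| ≤ (hi - lo) * (5 * r) * r := by
      rw [abs_mul]; exact mul_le_mul b1 b4 (abs_nonneg _) (by positivity)
    have c1 := mul_le_mul_of_nonneg_right q6 (sq_nonneg r)
    have c2 := mul_le_mul_of_nonneg_right q6 r0.le
    have c3 := mul_nonneg hl (sq_nonneg r)
    have c4 := mul_nonneg hl r0.le
    refine ⟨s', ⟨a6, lo', hi', a7, a8, a9, a10, a11⟩, p1, p2, a1, a7.1.le, a2, ?_, ?_, by linarith,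
      a5.le, fun y hy => ?_⟩
    · have e : s'.Q p - s.Q p = (s'.Q s'.l - s.Q s'.l) + (s'.Q' s'.l - s.Q' s'.l) * (p - s'.l) +
          (s'.C - s.C) * (p - s'.l) * (p - s'.l) := by simp only [St.Q, St.Q']; ring
      rw [e]
      refine (abs_add_three _ _ _).trans ?_
      nlinarith
    · have e : s'.Q' p - s.Q' p = (s'.Q' s'.l - s.Q' s'.l) + (s'.C - s.C) * (p - s'.l) +
          (s'.C - s.C) * (p - s'.l) := by simp only [St.Q']; ring
      rw [e]
      refine (abs_add_three _ _ _).trans ?_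
      nlinarith
    · refine ((taylor g g' hd s' lo' hi' s'.l a7 ⟨le_rfl, a7.1.le⟩ a8 a9 a10).2 y hy).trans ?_
      have d1 : 0 ≤ hi' - lo' := by linarith [a7.2.1]
      have d2 : 0 ≤ s'.u - s'.l := by linarith [a7.1]
      have d3 := mul_le_of_le_one_right d1 a6
      have d4 := mul_le_of_le_one_right (mul_nonneg d1 d2) a6
      linarith
  obtain ⟨s0, h0⟩ := key (s.l + 5 * r / 4) (by linarith) (by linarith)
  obtain ⟨s1, h1⟩ := key (s.l + 15 * r / 4) (by linarith) (by linarith)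
  refine ⟨r, fun i => if i then s.l + 15 * r / 4 else s.l + 5 * r / 4,
    fun i => if i then s1 else s0, r0, by linarith, ?_, fun i => ?_⟩
  · simp only [Bool.false_eq_true, if_false, if_true]; linarith
  · cases i
    · exact h0
    · exact h1

theorem Goal.aff {g : ℝ → ℝ} (e c : ℝ) (he : e * e = 1)
    (h : Goal fun x => e * (g x - c / 2 * x ^ 2)) : Goal g := by
  obtain ⟨f, h1, h2, h3⟩ := h
  have hd : ∀ x, HasDerivAt (fun x => e * f x + c / 2 * x ^ 2) (e * deriv f x + c * x) x := by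
    intro x
    refine (((h1 x).hasDerivAt.const_mul e).fun_add
      ((hasDerivAt_pow 2 x).const_mul (c / 2))).congr_deriv ?_
    simp; ring
  refine ⟨_, fun x => (hd x).differentiableAt, ?_, fun hc => h3 (hc.mono fun x hx => ?_)⟩
  · rw [show deriv (fun x => e * f x + c / 2 * x ^ 2) = fun x => e * deriv f x + c * x from
      funext fun x => (hd x).deriv]
    fun_prop
  · have hx' : f x = e * (g x - c / 2 * x ^ 2) := hx
    show e * f x + c / 2 * x ^ 2 = g x
    rw [hx', ← mul_assoc, he]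
    ring

theorem main (g : ℝ → ℝ) (hg : Differentiable ℝ g) : Goal g := by
  by_contra hn
  set g' := deriv g
  have hd : ∀ x, HasDerivAt g (g' x) x := fun x => (hg x).hasDerivAt
  have hφ : ∀ e c x : ℝ, HasDerivAt (fun x => e * (g x - c / 2 * x ^ 2)) (e * (g' x - c * x)) x := by
    intro e c x
    refine (((hd x).fun_sub ((hasDerivAt_pow 2 x).const_mul (c / 2))).const_mul e).congr_deriv ?_
    simp; left; ring
  have H1 : ∀ c a b, ¬ AntitoneOn (fun x => g' x - c * x) (Icc a b) → ∃ u v, a ≤ u ∧ u < v ∧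
      v ≤ b ∧ MonotoneOn (fun x => g' x - c * x) (Icc u v) := by
    intro c a b h
    by_contra hh
    push Not at hh
    exact hn (Goal.aff 1 c (by norm_num) (caseA _ _ (hφ 1 c) a b (by simpa using hh)
      (by simpa using h)))
  have H2 : ∀ c a b, ¬ MonotoneOn (fun x => g' x - c * x) (Icc a b) → ∃ u v, a ≤ u ∧ u < v ∧
      v ≤ b ∧ AntitoneOn (fun x => g' x - c * x) (Icc u v) := by
    intro c a b h
    by_contra hh
    push Not at hh
    refine hn (Goal.aff (-1) c (by norm_num) (caseA _ _ (hφ (-1) c) a b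
      (fun u v h1 h2 h3 h4 => hh u v h1 h2 h3 fun x hx y hy hxy => ?_)
      fun h4 => h fun x hx y hy hxy => ?_))
    · have := h4 hx hy hxy
      simp only at this ⊢
      linarith
    · have := h4 hx hy hxy
      simp only at this ⊢
      linarith
  obtain ⟨u, v, a1, a2, a3, a4⟩ := H2 (g' 1 - g' 0 + 1) 0 1 fun h => by
    have := h (left_mem_Icc.2 zero_le_one) (right_mem_Icc.2 zero_le_one) zero_le_one
    simp only at this
    linarith
  obtain ⟨u', v', b1, b2, b3, b4⟩ := H1 ((g' v - g' u) / (v - u) - 1) u v fun h => by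
    have := h (left_mem_Icc.2 a2.le) (right_mem_Icc.2 a2.le) a2.le
    have e : (g' v - g' u) / (v - u) * (v - u) = g' v - g' u := div_mul_cancel₀ _ (by linarith)
    simp only at this
    nlinarith
  have a5 := a4.mono (Icc_subset_Icc b1 b3)
  refine hn (caseB g g' hd (fun c a b hab => ?_) u' v' _ _ ⟨b2, ?_, b4, a5⟩ (by linarith))
  · by_cases h : AntitoneOn (fun x => g' x - c * x) (Icc a b)
    · exact ⟨a, b, le_rfl, hab, le_rfl, Or.inr h⟩
    · obtain ⟨u, v, h1, h2, h3, h4⟩ := H1 c a b h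
      exact ⟨u, v, h1, h2, h3, Or.inl h4⟩
  · have c1 := b4 (left_mem_Icc.2 b2.le) (right_mem_Icc.2 b2.le) b2.le
    have c2 := a5 (left_mem_Icc.2 b2.le) (right_mem_Icc.2 b2.le) b2.le
    simp only at c1 c2
    nlinarith

end Pool.Agent.H91.UZ
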