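import Mathlib

set_option autoImplicit false

namespace H91.VarExp
open Filter Topology Set

noncomputable def rho (p a : ℕ → ℝ) : ENNReal := ∑' j, ENNReal.ofReal (|a j| ^ p j)

def ell (p : ℕ → ℝ) : Set (ℕ → ℝ) := {a | ∃ l : ℝ, 0 < l ∧ rho p (l • a) < ⊤}

/-- `ρ`-closed subsets of `ell p` -/
def Cl (p : ℕ → ℝ) (C : Set (ℕ → ℝ)) : Prop :=
  C ⊆ ell p ∧ ∀ (x : ℕ → ℕ → ℝ) (y : ℕ → ℝ), (∀ k, x k ∈ C) → y ∈ ell p →
    Tendsto (fun k => rho p (x k - y)) atTop (𝓝 0) → y ∈ C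

def P (j : ℕ) : ℝ := ((j + 1 : ℕ) : ℝ)

noncomputable def tail (N : ℕ) : ENNReal := ∑' j, ENNReal.ofReal ((3 / 4) ^ (j + N))

lemma tail0 : ∑' j : ℕ, ENNReal.ofReal ((3 / 4) ^ j) ≠ ⊤ := by
  rw [← ENNReal.ofReal_tsum_of_nonneg (fun _ => by positivity)
    (summable_geometric_of_lt_one (by norm_num) (by norm_num))]
  exact ENNReal.ofReal_ne_top

lemma tail_lim : Tendsto tail atTop (𝓝 0) :=
  ENNReal.tendsto_sum_nat_add (fun j => ENNReal.ofReal ((3 / 4) ^ j)) tail0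

lemma rho_le {a : ℕ → ℝ} {N : ℕ} (h0 : ∀ j < N, a j = 0) (h1 : ∀ j, |a j| ≤ 3 / 4) :
    rho P a ≤ tail N := by
  unfold rho
  rw [← Summable.sum_add_tsum_nat_add' (k := N) ENNReal.summable, Finset.sum_eq_zero, zero_add]
  · refine ENNReal.tsum_le_tsum fun j => ENNReal.ofReal_le_ofReal ?_
    rw [P, Real.rpow_natCast]
    calc |a (j + N)| ^ (j + N + 1) ≤ (3 / 4) ^ (j + N + 1) := by gcongr; exact h1 _
      _ ≤ (3 / 4) ^ (j + N) := pow_le_pow_of_le_one (by norm_num) (by norm_num) (by omega)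
  · intro j hj
    rw [h0 j (Finset.mem_range.1 hj), P, Real.rpow_natCast]; simp

lemma mem_ell {a : ℕ → ℝ} (h : ∀ j, |a j| ≤ 2) : a ∈ ell P := by
  refine ⟨3 / 8, by norm_num, (rho_le (N := 0) (by simp) fun j => ?_).trans_lt ?_⟩
  · rw [Pi.smul_apply, smul_eq_mul, abs_mul, abs_of_pos (by norm_num)]; linarith [h j]
  · exact lt_top_iff_ne_top.2 (by simpa [tail] using tail0)

lemma coord {a : ℕ → ℝ} (h : rho P a < 1) (j : ℕ) : |a j| < 1 := by
  have h1 := (ENNReal.le_tsum (f := fun j => ENNReal.ofReal (|a j| ^ P j)) j).trans_lt h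
  rw [ENNReal.ofReal_lt_one, P, Real.rpow_natCast] at h1
  exact (pow_lt_one_iff_of_nonneg (abs_nonneg _) (by omega)).1 h1

lemma zero_of {a : ℕ → ℝ} (h : rho P a = 0) : a = 0 := by
  funext j
  have h1 := (ENNReal.le_tsum (f := fun j => ENNReal.ofReal (|a j| ^ P j)) j).trans h.le
  rw [nonpos_iff_eq_zero, ENNReal.ofReal_eq_zero, P, Real.rpow_natCast] at h1
  have h2 : |a j| ^ (j + 1) = 0 := le_antisymm h1 (by positivity)
  simpa using h2

noncomputable def X (s : ℕ × Finset ℕ) (j : ℕ) : ℝ :=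
  if j < s.1 then (if j ∈ s.2 then 3 / 4 else 0)
  else if (Nat.unpair j).1 = Encodable.encode s then 3 / 2 else -(3 / 4)

lemma X_bd (s : ℕ × Finset ℕ) (j : ℕ) : |X s j| ≤ 2 := by
  unfold X; split_ifs <;> norm_num [abs_le]

lemma X_cl : Cl P (range X) := by
  refine ⟨by rintro _ ⟨s, rfl⟩; exact mem_ell (X_bd s), fun x y hx _ h => ?_⟩
  choose s hs using hx
  obtain ⟨K, hK⟩ := eventually_atTop.1 (h.eventually (gt_mem_nhds zero_lt_one))
  have h1 : ∀ k ≥ K, x k = x K := by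
    intro k hk
    rw [← hs, ← hs]
    by_contra hne
    have hne' : Encodable.encode (s k) ≠ Encodable.encode (s K) := fun h' =>
      hne (by rw [Encodable.encode_injective h'])
    set j := Nat.pair (Encodable.encode (s k)) ((s k).1 + (s K).1) with hj
    have a0 := Nat.right_le_pair (Encodable.encode (s k)) ((s k).1 + (s K).1)
    have a1 := coord (hK k hk) j
    have a2 := coord (hK K le_rfl) j
    rw [← hs, Pi.sub_apply, X, if_neg (by omega), hj, Nat.unpair_pair] at a1 a2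
    rw [if_pos rfl] at a1
    rw [if_neg hne'] at a2
    rw [abs_lt] at a1 a2
    linarith [a1.1, a1.2, a2.1, a2.2]
  have h2 : Tendsto (fun _ : ℕ => rho P (x K - y)) atTop (𝓝 0) :=
    h.congr' ((eventually_ge_atTop K).mono fun k hk => by simp only [h1 k hk])
  have h3 := zero_of (tendsto_nhds_unique tendsto_const_nhds h2)
  exact ⟨s K, by rw [hs, sub_eq_zero.1 h3]⟩

lemma ball_sub {U : Set (ℕ → ℝ)} (hU : Cl P (ell P \ U)) {x : ℕ → ℝ} (hx : x ∈ ell P)
    (hxU : x ∈ U) : ∃ m : ℕ, ∀ z ∈ ell P, rho P (z - x) ≤ (m : ENNReal)⁻¹ → z ∈ U := by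
  by_contra hc
  push Not at hc
  choose z hz1 hz2 hz3 using hc
  exact (hU.2 z x (fun k => ⟨hz1 k, hz3 k⟩) hx (tendsto_of_tendsto_of_tendsto_of_le_of_le
    tendsto_const_nhds ENNReal.tendsto_inv_nat_nhds_zero (fun _ => zero_le) hz2)).2 hxU

lemma small (m : ℕ) : ∀ᶠ N in atTop, tail N ≤ (m : ENNReal)⁻¹ :=
  tail_lim.eventually (ge_mem_nhds (ENNReal.inv_pos.2 (ENNReal.natCast_ne_top m)))

theorem main : ∃ (p : ℕ → ℝ) (F : Set (ℕ → ℝ)) (x : ℕ → ℝ), (∀ n, 1 ≤ p n) ∧ Cl p F ∧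
    x ∈ ell p ∧ x ∉ F ∧ ∀ U V : Set (ℕ → ℝ), U ⊆ ell p → V ⊆ ell p → Cl p (ell p \ U) →
      Cl p (ell p \ V) → x ∈ U → F ⊆ V → (U ∩ V).Nonempty := by
  have h0 : (0 : ℕ → ℝ) ∈ ell P := mem_ell (by simp)
  refine ⟨P, range X, 0, fun n => by simp [P], X_cl, h0, ?_, fun U V hUl _ hU hV hx hF => ?_⟩
  · rintro ⟨s, hs⟩
    have := congrFun hs s.1
    rw [X, if_neg (lt_irrefl _)] at this
    split_ifs at this <;> norm_num at this
  obtain ⟨m0, hm0⟩ := ball_sub hU h0 hx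
  obtain ⟨N0, hN0⟩ := (small m0).exists
  let y : (ℕ → Bool) → ℕ → ℝ := fun A j => if N0 ≤ j ∧ A j = true then 3 / 4 else 0
  have hy0 : ∀ A j, 0 ≤ y A j := fun A j => by simp only [y]; split_ifs <;> norm_num
  have hy1 : ∀ A j, y A j ≤ 3 / 4 := fun A j => by simp only [y]; split_ifs <;> norm_num
  have hyl : ∀ A, y A ∈ ell P := fun A => mem_ell fun j => by
    rw [abs_le]; constructor <;> linarith [hy0 A j, hy1 A j]
  have hyU : ∀ A, y A ∈ U := fun A => hm0 _ (hyl A) ((rho_le (N := N0) (fun j hj => by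
    simp [y, not_le.2 hj]) fun j => by
      rw [sub_zero, abs_le]; constructor <;> linarith [hy0 A j, hy1 A j]).trans hN0)
  let S : ℕ → Set (ℕ → Bool) := fun m =>
    {A | ∀ z ∈ ell P, rho P (z - y A) ≤ (m : ENNReal)⁻¹ → z ∈ U}
  obtain ⟨m, A0, hA0⟩ := nonempty_interior_of_iUnion_of_closed (f := fun m => closure (S m))
    (fun _ => isClosed_closure) (eq_univ_of_forall fun A => by
      obtain ⟨m, hm⟩ := ball_sub hU (hyl A) (hyU A)
      exact mem_iUnion.2 ⟨m, subset_closure hm⟩)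
  rw [mem_interior_iff_mem_nhds, nhds_pi, Filter.mem_pi] at hA0
  obtain ⟨I, hI, t, ht, hIt⟩ := hA0
  obtain ⟨N1, hN1⟩ := hI.bddAbove
  obtain ⟨N, ⟨hN, hNa⟩, hNb⟩ := (((small m).and (eventually_gt_atTop N1)).and
    (eventually_ge_atTop N0)).exists
  let s : ℕ × Finset ℕ := (N, (Finset.range N).filter fun j => N0 ≤ j ∧ A0 j = true)
  let B : ℕ → Bool := fun j => if j < N then A0 j
    else decide ((Nat.unpair j).1 = Encodable.encode s)
  have hB : B ∈ closure (S m) := hIt fun i hi => by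
    have : i < N := (hN1 hi).trans_lt hNa
    simp only [B, if_pos this]
    exact mem_of_mem_nhds (ht i)
  have hw0 : ∀ j < N, (X s - y B) j = 0 := fun j hj => by
    simp [X, y, B, s, hj]
  have hw1 : ∀ j, |(X s - y B) j| ≤ 3 / 4 := fun j => by
    by_cases hj : j < N
    · rw [hw0 j hj]; norm_num
    · have : N0 ≤ j := by omega
      simp only [Pi.sub_apply, X, y, B, s, hj, if_false, this, true_and, decide_eq_true_eq]
      split_ifs <;> norm_num [abs_le]
  have hA : ∀ k : ℕ, ∃ A ∈ S m, ∀ j < k, A j = B j := by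
    intro k
    have ho : IsOpen (⋂ j ∈ Finset.range k, {A : ℕ → Bool | A j = B j}) :=
      isOpen_biInter_finset fun j _ => 
        (isOpen_discrete {B j}).preimage (f := fun A : ℕ → Bool => A j) (continuous_apply j)
    obtain ⟨A, h1, h2⟩ := mem_closure_iff.1 hB _ ho (by simp)
    exact ⟨A, h2, by simpa using h1⟩
  choose A hA1 hA2 using hA
  let z : ℕ → ℕ → ℝ := fun k => y (A k) + (X s - y B)
  have hzl : ∀ k, z k ∈ ell P := fun k => mem_ell fun j => by
    have := hw1 j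
    rw [abs_le] at this ⊢
    simp only [z, Pi.add_apply]
    constructor <;> linarith [hy0 (A k) j, hy1 (A k) j]
  have hzU : ∀ k, z k ∈ U := fun k => hA1 k _ (hzl k) (by
    simp only [z, add_sub_cancel_left]; exact (rho_le hw0 hw1).trans hN)
  by_contra hne
  refine (hV.2 z (X s) (fun k => ⟨hzl k, fun h => hne ⟨_, hzU k, h⟩⟩) (mem_ell (X_bd s)) ?_).2
    (hF ⟨s, rfl⟩)
  refine tendsto_of_tendsto_of_tendsto_of_le_of_le tendsto_const_nhds tail_lim
    (fun _ => zero_le) fun k => rho_le (fun j hj => ?_) fun j => ?_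
  · simp [z, y, hA2 k j hj]
  · simp only [z, Pi.sub_apply, Pi.add_apply]
    rw [abs_le]
    constructor <;> linarith [hy0 (A k) j, hy1 (A k) j, hy0 B j, hy1 B j]

end H91.VarExp
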