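import Pool.Agent.H99.PH1

set_option autoImplicit false

namespace H91.VarFT
open MeasureTheory Set FourierTransform Pool.Agent.H99.PH
open scoped ENNReal NNReal Convolution

def IsExp (p : ℝ → ℝ≥0∞) : Prop := Measurable p ∧ ∀ x, 1 ≤ p x
noncomputable def rho (p : ℝ → ℝ≥0∞) (f : ℝ → ℂ) : ℝ≥0∞ :=
  (∫⁻ x in {x | p x = ∞}ᶜ, ‖f x‖ₑ ^ (p x).toReal) +
    eLpNormEssSup f (volume.restrict {x | p x = ∞})
noncomputable def nrm (p : ℝ → ℝ≥0∞) (f : ℝ → ℂ) : ℝ≥0∞ :=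
  ⨅ (l : ℝ) (_ : 0 < l) (_ : rho p (fun x => f x / l) ≤ 1), ENNReal.ofReal l
def MemV (p : ℝ → ℝ≥0∞) (f : ℝ → ℂ) : Prop := ∃ l : ℝ, 0 < l ∧ rho p (fun x => f x / l) < ∞
def Bdd (p q : ℝ → ℝ≥0∞) : Prop :=
  ∃ C : ℝ≥0, ∀ f : ℝ → ℂ, Integrable f → MemV p f → nrm q (𝓕 f) ≤ C * nrm p f
noncomputable def pm (p : ℝ → ℝ≥0∞) : ℝ≥0∞ := essInf p volume
noncomputable def cj (a : ℝ≥0∞) : ℝ≥0∞ := (1 - a⁻¹)⁻¹
noncomputable def rr (p : ℝ → ℝ≥0∞) (x : ℝ) : ℝ≥0∞ := ((pm p)⁻¹ - (p x)⁻¹)⁻¹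
noncomputable def ss (p q : ℝ → ℝ≥0∞) (x : ℝ) : ℝ≥0∞ := ((q x)⁻¹ - (cj (pm p))⁻¹)⁻¹

lemma CS {F G : ℝ → ℝ≥0∞} (hF : Measurable F) (hG : Measurable G) :
    (∫⁻ t, F t * G t) ^ 2 ≤ (∫⁻ t, F t ^ 2) * ∫⁻ t, G t ^ 2 := by
  have := ENNReal.lintegral_mul_le_Lp_mul_Lq volume Real.HolderConjugate.two_two hF.aemeasurable
    hG.aemeasurable
  refine (pow_le_pow_left' this 2).trans_eq ?_
  rw [mul_pow, ← ENNReal.rpow_natCast, ← ENNReal.rpow_natCast, ← ENNReal.rpow_mul,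
    ← ENNReal.rpow_mul]
  norm_num

lemma ton {a : ℝ → ℝ≥0∞} (ha : Measurable a) :
    ∫⁻ x, ∫⁻ t, a t * a (x - t) = (∫⁻ t, a t) * ∫⁻ t, a t := by
  rw [lintegral_lintegral_swap (by fun_prop), ← lintegral_mul_const _ ha]
  refine lintegral_congr fun t => ?_
  rw [lintegral_const_mul _ (by fun_prop), lintegral_sub_right_eq_self a]

lemma four {f : ℝ → ℂ} (hf : Integrable f) :
    ∫⁻ x, ‖𝓕 f x‖ₑ ^ 4 ≤ ∫⁻ x, (∫⁻ t, ‖f t‖ₑ * ‖f (x - t)‖ₑ) ^ 2 := by
  rcases eq_top_or_lt_top (∫⁻ x, (∫⁻ t, ‖f t‖ₑ * ‖f (x - t)‖ₑ) ^ 2) with h | h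
  · exact h ▸ le_top
  have hi := hf.integrable_convolution (ContinuousLinearMap.mul ℂ ℂ) hf
  set g := f ⋆[ContinuousLinearMap.mul ℂ ℂ] f
  have h1 : ∫⁻ x, ‖g x‖ₑ ^ 2 ≤ ∫⁻ x, (∫⁻ t, ‖f t‖ₑ * ‖f (x - t)‖ₑ) ^ 2 :=
    lintegral_mono fun x => pow_le_pow_left' ((enorm_integral_le_lintegral_enorm _).trans_eq
      (by simp)) 2
  have e : ∀ u : ℝ → ℂ, eLpNorm u 2 volume ^ 2 = ∫⁻ x, ‖u x‖ₑ ^ 2 := fun u => by
    rw [eLpNorm_eq_lintegral_rpow_enorm_toReal (by simp) (by simp), ← ENNReal.rpow_natCast,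
      ← ENNReal.rpow_mul]
    norm_num
  have h2 : MemLp g 2 volume := ⟨hi.1, by
    have := h1.trans_lt h
    rw [← e] at this
    exact lt_top_iff_ne_top.2 fun h => by simp [h] at this⟩
  have h3 := FP_dir hi h2
  have h4 := (ENNReal.toReal_eq_toReal_iff' h2.2.ne h3.r.2.ne).1 h3.norm
  refine le_trans (le_of_eq ?_) h1
  rw [← e, h4, e]
  refine lintegral_congr fun x => ?_
  rw [Real.fourier_mul_convolution_eq hf hf, enorm_mul]; ring

def I (k : ℕ) : Set ℝ := Ioc (4 ^ k) (4 ^ k + 1)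
def E : Set ℝ := ⋃ k, I k
lemma mE : MeasurableSet E := MeasurableSet.iUnion fun _ => measurableSet_Ioc

lemma small (x : ℝ) : volume {t | t ∈ E ∧ x - t ∈ E} ≤ 2 := by
  have key : ∀ t, t ∈ E ∧ x - t ∈ E →
      ∃ m : ℕ, 4 ^ m < x ∧ x ≤ 4 ^ (m + 1) ∧ (t ∈ I m ∨ x - t ∈ I m) := by
    rintro t ⟨h1, h2⟩
    obtain ⟨k, hk⟩ := mem_iUnion.1 h1
    obtain ⟨l, hl⟩ := mem_iUnion.1 h2
    have a1 : (1 : ℝ) ≤ 4 ^ k := one_le_pow₀ (by norm_num)
    have a2 : (1 : ℝ) ≤ 4 ^ l := one_le_pow₀ (by norm_num)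
    rcases le_total k l with h | h <;> have := pow_le_pow_right₀ (show (1 : ℝ) ≤ 4 by norm_num) h
    · exact ⟨l, by linarith [hk.1, hl.1], by rw [pow_succ]; linarith [hk.2, hl.2], Or.inr hl⟩
    · exact ⟨k, by linarith [hk.1, hl.1], by rw [pow_succ]; linarith [hk.2, hl.2], Or.inl hk⟩
  rcases {t | t ∈ E ∧ x - t ∈ E}.eq_empty_or_nonempty with h | ⟨t0, h⟩
  · simp [h]
  obtain ⟨m, h1, h2, -⟩ := key t0 h
  refine (measure_mono (t := I m ∪ Ico (x - (4 ^ m + 1)) (x - 4 ^ m)) fun t ht => ?_).trans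
    ((measure_union_le _ _).trans (by simp [I]; norm_num))
  obtain ⟨n, h3, h4, h5⟩ := key t ht
  have a := (pow_lt_pow_iff_right₀ (show (1 : ℝ) < 4 by norm_num)).1 (h1.trans_le h4)
  have b := (pow_lt_pow_iff_right₀ (show (1 : ℝ) < 4 by norm_num)).1 (h3.trans_le h2)
  obtain rfl : m = n := by omega
  exact h5.imp id fun h => ⟨by linarith [h.2], by linarith [h.1]⟩

lemma E_top : volume E = ∞ := by
  rw [E, measure_iUnion (f := I) _ fun _ => measurableSet_Ioc]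
  · simp [I]
  · refine (pairwise_disjoint_on I).2 fun k l h => disjoint_left.2 fun x h1 h2 => ?_
    have := pow_le_pow_right₀ (show (1 : ℝ) ≤ 4 by norm_num) (show k + 1 ≤ l from h)
    have a1 : (1 : ℝ) ≤ 4 ^ k := one_le_pow₀ (by norm_num)
    rw [pow_succ] at this
    linarith [h1.2, h2.1]

lemma partA {a : ℝ → ℝ≥0∞} (ha : Measurable a) (h0 : ∀ t ∉ E, a t = 0) (h : ∫⁻ t, a t ^ 2 ≤ 1) :
    ∫⁻ x, (∫⁻ t, a t * a (x - t)) ^ 2 ≤ 2 := by
  have : ∀ x, (∫⁻ t, a t * a (x - t)) ^ 2 ≤ 2 * ∫⁻ t, a t ^ 2 * a (x - t) ^ 2 := by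
    intro x
    have hm : MeasurableSet {t | t ∈ E ∧ x - t ∈ E} := mE.inter (mE.preimage (by fun_prop))
    have := CS (F := {t | t ∈ E ∧ x - t ∈ E}.indicator 1) (G := fun t => a t * a (x - t))
      (measurable_one.indicator hm) (by fun_prop)
    refine le_trans (le_of_eq ?_) (this.trans (mul_le_mul' (le_trans (le_of_eq ?_) (small x))
      (by simp only [mul_pow, le_refl])))
    · congr 1
      refine lintegral_congr fun t => ?_
      by_cases h1 : t ∈ E <;> by_cases h2 : x - t ∈ E <;> simp [h1, h2, h0]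
    · rw [← lintegral_indicator_one hm]
      exact lintegral_congr fun t => by
        by_cases h : t ∈ {t | t ∈ E ∧ x - t ∈ E} <;> simp [indicator_of_mem, indicator_of_notMem, h]
  refine (lintegral_mono this).trans ?_
  rw [lintegral_const_mul' _ _ (by simp), ton (a := fun t => a t ^ 2) (by fun_prop)]
  simpa using mul_le_mul' (le_refl 2) (mul_le_mul' h h)

lemma partB {a : ℝ → ℝ≥0∞} (ha : Measurable a) (h : ∫⁻ t, a t ^ (4 / 3 : ℝ) ≤ 1) :
    ∫⁻ x, (∫⁻ t, a t * a (x - t)) ^ 2 ≤ 2 := by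
  have : ∀ x, (∫⁻ t, a t * a (x - t)) ^ 2 ≤
      2 * ∫⁻ t, a t ^ (4 / 3 : ℝ) * a (x - t) ^ (4 / 3 : ℝ) := by
    intro x
    have := CS (F := fun t => (a t * a (x - t)) ^ (1 / 3 : ℝ))
      (G := fun t => (a t * a (x - t)) ^ (2 / 3 : ℝ)) (by fun_prop) (by fun_prop)
    refine le_trans (le_of_eq ?_) (this.trans (mul_le_mul' ?_ (le_of_eq ?_)))
    · congr 1
      refine lintegral_congr fun t => ?_
      rw [← ENNReal.rpow_add_of_nonneg _ _ (by norm_num) (by norm_num)]; norm_num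
    · refine (lintegral_mono (g := fun t => a t ^ (4 / 3 : ℝ) + a (x - t) ^ (4 / 3 : ℝ))
        fun t => ?_).trans ?_
      · rcases le_total (a t) (a (x - t)) with h' | h'
        · refine le_trans ?_ le_add_self
          calc _ ≤ ((a (x - t) * a (x - t)) ^ (1 / 3 : ℝ)) ^ 2 := by gcongr
            _ = _ := by simp only [← sq, ← ENNReal.rpow_natCast, ← ENNReal.rpow_mul]; norm_num
        · refine le_trans ?_ le_self_add
          calc _ ≤ ((a t * a t) ^ (1 / 3 : ℝ)) ^ 2 := by gcongr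
            _ = _ := by simp only [← sq, ← ENNReal.rpow_natCast, ← ENNReal.rpow_mul]; norm_num
      · rw [lintegral_add_left (by fun_prop),
          lintegral_sub_left_eq_self (fun t => a t ^ (4 / 3 : ℝ))]
        exact (add_le_add h h).trans_eq one_add_one_eq_two
    · refine lintegral_congr fun t => ?_
      rw [← ENNReal.mul_rpow_of_nonneg _ _ (by norm_num), ← ENNReal.rpow_natCast,
        ← ENNReal.rpow_mul]; norm_num
  refine (lintegral_mono this).trans ?_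
  rw [lintegral_const_mul' _ _ (by simp), ton (a := fun t => a t ^ (4 / 3 : ℝ)) (by fun_prop)]
  simpa using mul_le_mul' (le_refl 2) (mul_le_mul' h h)

lemma int_ch' {a : ℝ → ℂ} (ha : Integrable a) (x : ℝ) : Integrable fun t => a t * ch x (-t) :=
  ha.mul_bdd (c := 1) ((ch_cont' x).comp continuous_neg).aestronglyMeasurable
    (.of_forall fun _ => (norm_ch _ _).le)

open Classical in
noncomputable def P (x : ℝ) : ℝ≥0∞ := if x ∈ E then 2 else 4 / 3

lemma P_ne : {x | P x = ∞} = ∅ := by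
  ext x; by_cases h : x ∈ E <;> simp [P, h, ENNReal.div_eq_top]

lemma core {u : ℝ → ℂ} (hu : Integrable u) (h : rho P u ≤ 1) : ∫⁻ x, ‖𝓕 u x‖ₑ ^ 4 ≤ 64 := by
  rw [rho, P_ne, compl_empty, Measure.restrict_univ] at h
  replace h := le_self_add.trans h
  wlog hm : Measurable u generalizing u
  · have e := hu.1.aemeasurable.ae_eq_mk
    rw [show 𝓕 u = 𝓕 (hu.1.aemeasurable.mk u) from funext fun x => Real.fourier_congr_ae e x]
    exact this (hu.congr e) (le_trans (le_of_eq (lintegral_congr_ae (e.mono fun x hx => by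
      simp only [hx]))) h) hu.1.aemeasurable.measurable_mk
  have a1 := (four (hu.indicator mE)).trans (partA (a := fun t => ‖E.indicator u t‖ₑ)
    (hm.indicator mE).enorm (fun t ht => by simp [ht]) (le_trans (lintegral_mono fun t => by
      by_cases ht : t ∈ E <;> simp [ht, P]) h))
  have a2 := (four (hu.indicator mE.compl)).trans (partB (a := fun t => ‖Eᶜ.indicator u t‖ₑ)
    (hm.indicator mE.compl).enorm (le_trans (lintegral_mono fun t => by
      by_cases ht : t ∈ E <;> simp [ht, P]) h))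
  have e : ∀ x, 𝓕 u x = 𝓕 (E.indicator u) x + 𝓕 (Eᶜ.indicator u) x := fun x => by
    rw [fdir_eq, fdir_eq, fdir_eq, ← integral_add (int_ch' (hu.indicator mE) x)
      (int_ch' (hu.indicator mE.compl) x)]
    congr 1; funext t; by_cases ht : t ∈ E <;> simp [ht]
  refine (lintegral_mono (g := fun x => 16 * (‖𝓕 (E.indicator u) x‖ₑ ^ 4 +
    ‖𝓕 (Eᶜ.indicator u) x‖ₑ ^ 4)) fun x => ?_).trans ?_
  · simp only [e x]
    refine (pow_le_pow_left' (enorm_add_le _ _) 4).trans ?_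
    generalize ‖𝓕 (E.indicator u) x‖ₑ = a
    generalize ‖𝓕 (Eᶜ.indicator u) x‖ₑ = b
    rcases le_total a b with h | h
    · calc _ ≤ (b + b) ^ 4 := by gcongr
        _ = 16 * b ^ 4 := by ring
        _ ≤ _ := by gcongr; exact le_add_self
    · calc _ ≤ (a + a) ^ 4 := by gcongr
        _ = 16 * a ^ 4 := by ring
        _ ≤ _ := by gcongr; exact le_self_add
  · rw [lintegral_const_mul' _ _ (by simp), lintegral_add_left
      ((fourier_cont (hu.indicator mE)).measurable.enorm.pow_const 4)]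
    exact (mul_le_mul' le_rfl (add_le_add a1 a2)).trans_eq (by norm_num)

lemma pmP : pm P = 4 / 3 := by
  have h : ∀ x, 4 / 3 ≤ P x := fun x => by
    unfold P; split_ifs
    · exact ENNReal.div_le_of_le_mul (by norm_num)
    · rfl
  refine le_antisymm ?_ (le_essInf_of_ae_le _ (.of_forall h))
  by_contra hc
  have := ae_lt_of_lt_essInf (not_le.1 hc)
  have h2 : volume (Ioo (0 : ℝ) 1) = 0 := measure_mono_null (fun x hx => by
    have : x ∉ E := fun h => by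
      obtain ⟨k, hk⟩ := mem_iUnion.1 h
      linarith [hk.1, hx.2, one_le_pow₀ (n := k) (show (1 : ℝ) ≤ 4 by norm_num)]
    simp [P, this]) this
  simp at h2

theorem main : ∃ p q : ℝ → ℝ≥0∞, IsExp p ∧ IsExp q ∧ Bdd p q ∧ (∀ x, pm p ≤ p x) ∧
    (∀ x, q x ≤ cj (pm p)) ∧ IsExp (rr p) ∧ IsExp (ss p q) ∧ ¬ MemV (rr p) fun _ => 1 := by
  have hP : Measurable P := Measurable.ite mE measurable_const measurable_const
  have h43 : (4 / 3 : ℝ≥0∞)⁻¹ = ((3 / 4 : ℝ≥0) : ℝ≥0∞) := by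
    rw [ENNReal.inv_div (by simp) (by simp)]; simp
  have hc : cj (4 / 3) = 4 := by
    rw [cj, h43, ← ENNReal.coe_one, ← ENNReal.coe_sub, show (1 - 3 / 4 : ℝ≥0) = 4⁻¹ from
      tsub_eq_of_eq_add (by norm_num)]; simp
  have hr : ∀ x ∈ E, rr P x = 4 := fun x hx => by
    rw [rr, pmP, P, if_pos hx, h43, show (2 : ℝ≥0∞)⁻¹ = (2⁻¹ : ℝ≥0) by simp, ← ENNReal.coe_sub,
      show (3 / 4 - 2⁻¹ : ℝ≥0) = 4⁻¹ from tsub_eq_of_eq_add (by norm_num)]; simp
  have hr' : ∀ x ∉ E, rr P x = ∞ := fun x hx => by rw [rr, pmP, P, if_neg hx]; simp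
  have h1 : ∀ x, 4 / 3 ≤ P x := fun x => by
    unfold P; split_ifs
    · exact ENNReal.div_le_of_le_mul (by norm_num)
    · rfl
  refine ⟨P, fun _ => 4, ⟨hP, fun x => le_trans ?_ (h1 x)⟩, ⟨measurable_const, by simp⟩,
    ⟨3, fun f hf _ => ?_⟩, fun x => pmP ▸ h1 x, fun x => by rw [pmP, hc],
    ⟨by unfold rr; fun_prop, fun x => ?_⟩, ⟨measurable_const, fun x => by simp [ss, pmP, hc]⟩, ?_⟩
  · rw [ENNReal.le_div_iff_mul_le (by simp) (by simp)]; norm_num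
  · rw [mul_comm, ← ENNReal.div_le_iff (by simp) (by simp)]
    refine le_iInf fun l => le_iInf₂ fun hl h => ?_
    rw [ENNReal.div_le_iff (by simp) (by simp)]
    refine (iInf_le_of_le (l * 3) (iInf₂_le_of_le (by positivity) ?_ le_rfl)).trans_eq
      (by rw [ENNReal.ofReal_mul hl.le]; simp)
    have h2 := core (hf.div_const _) h
    have e : ∀ x, 𝓕 f x / (l * 3 : ℝ) = 𝓕 (fun x => f x / l) x * (3⁻¹ : ℝ) := fun x => by
      rw [fdir_eq, fdir_eq]
      simp only [div_mul_eq_mul_div, integral_div]; push_cast; field_simp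
    rw [rho, show {x : ℝ | (4 : ℝ≥0∞) = ∞} = ∅ by simp]
    simp only [e, compl_empty, Measure.restrict_univ, Measure.restrict_empty,
      eLpNormEssSup_measure_zero, add_zero, ENNReal.toReal_ofNat, ENNReal.rpow_ofNat, enorm_mul,
      mul_pow]
    rw [lintegral_mul_const' _ _ (by finiteness)]
    refine (mul_le_mul' h2 le_rfl).trans ?_
    rw [← ofReal_norm, ← ENNReal.ofReal_pow (norm_nonneg _), ← ENNReal.ofReal_ofNat,
      ← ENNReal.ofReal_mul (by norm_num), ENNReal.ofReal_le_one]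
    simp; norm_num
  · by_cases hx : x ∈ E
    · rw [hr x hx]; simp
    · rw [hr' x hx]; simp
  · rintro ⟨l, hl, h⟩
    have e : {x | rr P x = ∞}ᶜ = E := by
      ext x; by_cases hx : x ∈ E
      · simp [hx, hr x hx]
      · simp [hx, hr' x hx]
    rw [rho, e, setLIntegral_congr_fun mE (g := fun _ => ‖(1 / l : ℂ)‖ₑ ^ (4 : ℝ))
      fun x hx => by simp [hr x hx], setLIntegral_const, E_top, ENNReal.mul_top] at h
    · simp at h
    · simp [hl.ne']

end H91.VarFT
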