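import Mathlib

set_option autoImplicit false

namespace H91.Varisolv
open Metric Set

variable {A Q : Type*} [Fintype Q]

/-- local solvency of degree `m` at `a₀` -/
def Solvent (g : A → Q → ℝ) (m : ℕ) (a₀ : A) : Prop :=
  ∀ t : Fin m → Q, Function.Injective t → ∀ ε > 0, ∃ δ > 0, ∀ γ : Fin m → ℝ,
    (∀ i, |g a₀ (t i) - γ i| < δ) → ∃ a, (∀ i, g a (t i) = γ i) ∧ ‖g a - g a₀‖ < ε

def Varisolvent (g : A → Q → ℝ) : Prop :=
  ∃ p : A → ℕ, (∃ a b, p a ≠ p b) ∧ (∀ a, 1 ≤ p a ∧ p a ≤ Fintype.card Q) ∧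
    ∀ a₀, Solvent g (p a₀) a₀ ∧ ∀ a, a ≠ a₀ → {q | g a₀ q - g a q = 0}.ncard ≤ p a₀ - 1

lemma zeros {g : A → Q → ℝ} {a b : A} {m : ℕ} {t : Fin m → Q} (ht : Function.Injective t)
    (h : ∀ i, g a (t i) = g b (t i)) : m ≤ {q | g a q - g b q = 0}.ncard := by
  have h1 : (range t).ncard = m := by rw [Set.ncard_range_of_injective ht]; simp
  rw [← h1]
  refine Set.ncard_le_ncard ?_ (Set.toFinite _)
  rintro _ ⟨i, rfl⟩
  simp [h i]

theorem main' (g : A → Q → ℝ) (hg : Varisolvent g) (hc : IsConnected (range g)) :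
    ¬ IsClosed (range g) := by
  intro hcl
  obtain ⟨p, ⟨a1, a2, h12⟩, hp, hs⟩ := hg
  obtain ⟨aM, haM⟩ : ∃ a, ∀ b, p b ≤ p a := by
    have hb : BddAbove (range p) := ⟨Fintype.card Q, by rintro _ ⟨a, rfl⟩; exact (hp a).2⟩
    obtain ⟨a, ha⟩ := Nat.sSup_mem (range_nonempty_iff_nonempty.2 ⟨a1⟩) hb
    exact ⟨a, fun b => ha ▸ le_csSup hb ⟨b, rfl⟩⟩
  obtain ⟨m, hm⟩ : ∃ m, p aM = m + 1 := ⟨p aM - 1, by have := (hp aM).1; omega⟩
  obtain ⟨t, ht⟩ : ∃ t : Fin (m + 1) → Q, Function.Injective t := by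
    obtain ⟨e⟩ := Function.Embedding.nonempty_of_card_le (α := Fin (m + 1)) (β := Q)
      (by simpa [← hm] using (hp aM).2)
    exact ⟨e, e.injective⟩
  have ht' : Function.Injective fun i : Fin m => t i.succ := ht.comp (Fin.succ_injective m)
  -- two distinct functions agreeing at `m` nodes both have maximal degree
  have hmax : ∀ a b, g a ≠ g b → (∀ i : Fin m, g a (t i.succ) = g b (t i.succ)) → p a = m + 1 := by
    intro a b hab h
    have h1 := zeros ht' h
    have h2 := (hs a).2 b (fun e => hab (by rw [e]))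
    have h3 := (hp a).1
    have h4 := haM a
    omega
  have hsol : ∀ a, p a = m + 1 → ∀ ε > 0, ∃ δ > 0, ∀ x : Q → ℝ, ‖x - g a‖ < δ →
      ∃ b, (∀ i : Fin m, g b (t i.succ) = x (t i.succ)) ∧ x (t 0) < g b (t 0) ∧
        ‖g b - g a‖ < ε := by
    intro a ha ε hε
    obtain ⟨δ, hδ, h⟩ := (ha ▸ (hs a).1 : Solvent g (m + 1) a) t ht ε hε
    refine ⟨δ / 2, by linarith, fun x hx => ?_⟩
    have hx' : ∀ q, |g a q - x q| < δ / 2 := fun q => by
      rw [abs_sub_comm]; exact (norm_le_pi_norm (x - g a) q).trans_lt hx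
    obtain ⟨b, h1, h2⟩ := h (Fin.cons (x (t 0) + δ / 2) fun i => x (t i.succ)) (by
      intro i
      refine Fin.cases ?_ (fun i => ?_) i
      · have := abs_lt.1 (hx' (t 0))
        simp only [Fin.cons_zero]
        exact abs_lt.2 ⟨by linarith, by linarith⟩
      · simp only [Fin.cons_succ]; linarith [hx' (t i.succ)])
    refine ⟨b, fun i => by simpa using h1 i.succ, ?_, h2⟩
    have := h1 0
    simp only [Fin.cons_zero] at this
    linarith
  have hfar : ∀ a, p a = m + 1 → ∃ b, (∀ i : Fin m, g b (t i.succ) = g a (t i.succ)) ∧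
      ‖g b - g a‖ = 1 := by
    intro a ha
    by_contra hne
    push Not at hne
    set C := range g ∩ {x | ∀ i : Fin m, x (t i.succ) = g a (t i.succ)} ∩ closedBall (g a) 1
    have hC : IsCompact C := by
      refine (isCompact_closedBall _ _).inter_left (hcl.inter ?_)
      simp only [ofPred_forall]
      exact isClosed_iInter fun i => isClosed_eq (continuous_apply _) continuous_const
    obtain ⟨x, ⟨⟨⟨b, rfl⟩, hb1⟩, hb2⟩, hx⟩ := hC.exists_isMaxOn
      ⟨g a, ⟨⟨a, rfl⟩, fun _ => rfl⟩, by simp⟩ (continuous_apply (t 0)).continuousOn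
    rw [mem_closedBall, dist_eq_norm] at hb2
    have hb3 : ‖g b - g a‖ < 1 := lt_of_le_of_ne hb2 (hne b hb1)
    have hpb : ∃ b', g b' = g b ∧ p b' = m + 1 := by
      by_cases e : g b = g a
      · exact ⟨a, e.symm, ha⟩
      · exact ⟨b, rfl, hmax b a e hb1⟩
    obtain ⟨b', e, hb'⟩ := hpb
    obtain ⟨δ, hδ, h⟩ := hsol b' hb' (1 - ‖g b - g a‖) (by linarith)
    obtain ⟨c, c1, c2, c3⟩ := h (g b) (by simpa [e] using hδ)
    have : g c ∈ C := by
      refine ⟨⟨⟨c, rfl⟩, fun i => (c1 i).trans (hb1 i)⟩, ?_⟩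
      rw [mem_closedBall, dist_eq_norm]
      rw [e] at c3
      linarith [norm_sub_le_norm_sub_add_norm_sub (g c) (g b) (g a)]
    exact absurd (hx this) (not_le.2 c2)
  set U := g '' {a | p a = m + 1} with hU
  -- `U` is closed
  have hUc : IsClosed U := by
    rw [← isSeqClosed_iff_isClosed]
    intro u x hu hx
    obtain ⟨b, rfl⟩ : x ∈ range g :=
      hcl.mem_of_tendsto hx (Filter.Eventually.of_forall fun n => image_subset_range _ _ (hu n))
    choose a ha hau using hu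
    choose c hc1 hc2 using fun n => hfar (a n) (ha n)
    have hbd : Bornology.IsBounded (range fun n => g (c n) - g (a n)) :=
      (isBounded_closedBall (x := 0) (r := 1)).subset (by
        rintro _ ⟨n, rfl⟩; simp [hc2 n])
    obtain ⟨y, _, φ, hφ, hy⟩ := tendsto_subseq_of_bounded hbd (fun n => ⟨n, rfl⟩)
    have h1 : Filter.Tendsto (fun n => g (c (φ n))) Filter.atTop (nhds (y + g b)) := by
      refine (hy.add (hx.comp hφ.tendsto_atTop)).congr fun n => ?_
      simp [hau]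
    obtain ⟨d, hd⟩ : y + g b ∈ range g :=
      hcl.mem_of_tendsto h1 (Filter.Eventually.of_forall fun n => ⟨_, rfl⟩)
    have h2 : ‖y‖ = 1 := by
      refine tendsto_nhds_unique hy.norm ?_
      simp only [Function.comp, hc2]; exact tendsto_const_nhds
    refine ⟨b, hmax b d (fun e => ?_) fun i => ?_, rfl⟩
    · rw [← e, right_eq_add] at hd
      simp [hd] at h2
    · have h3 : y (t i.succ) = 0 := by
        refine tendsto_nhds_unique (tendsto_pi_nhds.1 hy (t i.succ)) ?_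
        simp only [Function.comp, Pi.sub_apply, hc1, sub_self]; exact tendsto_const_nhds
      rw [hd]; simp [h3]
  -- the rest is closed as well
  have hV : range g ∩ closure (range g \ U) ⊆ range g \ U := by
    rintro x ⟨hx, hx2⟩
    refine ⟨hx, ?_⟩
    rintro ⟨a, ha, rfl⟩
    obtain ⟨δ, hδ, h⟩ := hsol a ha 1 one_pos
    obtain ⟨_, ⟨⟨b, rfl⟩, hb⟩, hd⟩ := Metric.mem_closure_iff.1 hx2 δ hδ
    obtain ⟨c, c1, c2, _⟩ := h (g b) (by rwa [dist_comm, dist_eq_norm] at hd)
    exact hb ⟨b, hmax b c (fun e => by simp [e] at c2) fun i => (c1 i).symm, rfl⟩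
  obtain ⟨a0, ha0⟩ : ∃ a, p a ≠ m + 1 := by
    by_contra h
    push Not at h
    exact h12 (by rw [h, h])
  have h0 : g a0 ∉ U := by
    rintro ⟨a, ha, e⟩
    have h1 := zeros (g := g) (a := a0) (b := a) ht fun i => by rw [e]
    have h2 := (hs a0).2 a (by rintro rfl; exact ha0 ha)
    have := haM a0
    omega
  obtain ⟨x, hx, hx1, hx2⟩ := isPreconnected_closed_iff.1 hc.2 U (closure (range g \ U)) hUc
    isClosed_closure (fun x hx => by
      by_cases h : x ∈ U
      · exact Or.inl h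
      · exact Or.inr (subset_closure ⟨hx, h⟩))
    ⟨g aM, ⟨aM, rfl⟩, aM, hm, rfl⟩ ⟨g a0, ⟨a0, rfl⟩, subset_closure ⟨⟨a0, rfl⟩, h0⟩⟩
  exact (hV ⟨hx, hx2⟩).2 hx1

universe u v

theorem main : ∀ (A : Type u) (Q : Type v) [Fintype Q] (g : A → Q → ℝ), Varisolvent g →
    IsConnected (range g) → ¬ IsClosed (range g) :=
  fun _ _ _ g => main' g

end H91.Varisolv
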