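import Mathlib
import Pool.Agent.H91.C0

set_option autoImplicit false

namespace Pool.Agent.H91.VecRange

open Filter Topology Set MeasureTheory Pool.Agent.H91.C0
open scoped ENNReal NNReal

section

variable {α : Type} [MeasurableSpace α] {E : Type} [NormedAddCommGroup E]

lemma exhaust (ν : VectorMeasure α E) (F : ℕ → Set α) (hF : Antitone F)
    (hm : ∀ n, MeasurableSet (F n)) (h0 : ∀ B, MeasurableSet B → B ⊆ ⋂ n, F n → ν B = 0)
    (ε : ℝ) (hε : 0 < ε) : ∃ n, ∀ B, MeasurableSet B → B ⊆ F n → ‖ν B‖ ≤ ε := by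
  by_contra hcon
  push Not at hcon
  have step : ∀ n, ∃ m U, n < m ∧ MeasurableSet U ∧ U ⊆ F n \ F m ∧ ε < ‖ν U‖ := by
    intro n
    obtain ⟨B, hB, hBF, hlt⟩ := hcon n
    have h1 := VectorMeasure.tendsto_vectorMeasure_iInter_atTop_nat (v := ν)
      (s := fun m => B ∩ F m) (fun a b hab => inter_subset_inter_right _ (hF hab))
      (fun m => hB.inter (hm m))
    rw [h0 _ (MeasurableSet.iInter fun m => hB.inter (hm m))
      (iInter_mono fun m => inter_subset_right)] at h1
    have h2 : Tendsto (fun m => ‖ν B - ν (B ∩ F m)‖) atTop (𝓝 ‖ν B‖) := by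
      simpa using (h1.const_sub (ν B)).norm
    obtain ⟨m, hm1, hm2⟩ := ((h2.eventually (lt_mem_nhds hlt)).and (eventually_gt_atTop n)).exists
    refine ⟨m, B \ F m, hm2, hB.diff (hm m), sdiff_subset_sdiff_left hBF, ?_⟩
    rw [← VectorMeasure.of_sdiff (hB.inter (hm m)) hB inter_subset_left] at hm1
    rwa [show B \ (B ∩ F m) = B \ F m by ext; simp] at hm1
  choose g U hg hU1 hU2 hU3 using step
  let n : ℕ → ℕ := fun i => g^[i] 0
  have hn : ∀ i, n (i + 1) = g (n i) := fun i => Function.iterate_succ_apply' g i 0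
  have hmono : StrictMono n := strictMono_nat_of_lt_succ fun i => by rw [hn]; exact hg _
  have hdisj : Pairwise (Function.onFun Disjoint fun i => U (n i)) := by
    rw [pairwise_disjoint_on]
    intro i j hij
    rw [Set.disjoint_left]
    intro x hx hx'
    apply (hU2 _ hx).2
    rw [← hn]
    exact hF (hmono.monotone hij) (hU2 _ hx').1
  have h3 := (ν.m_iUnion (fun i => hU1 (n i)) hdisj).summable.tendsto_atTop_zero.norm
  rw [norm_zero] at h3
  obtain ⟨i, hi⟩ := (h3.eventually (gt_mem_nhds hε)).exists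
  exact absurd (hU3 (n i)) (not_lt.mpr hi.le)

lemma unif_ac (ν : VectorMeasure α E) (μ : Measure α)
    (h0 : ∀ B, MeasurableSet B → μ B = 0 → ν B = 0) (ε : ℝ) (hε : 0 < ε) :
    ∃ δ : ℝ≥0∞, 0 < δ ∧ ∀ A, MeasurableSet A → μ A < δ → ‖ν A‖ ≤ ε := by
  by_contra hcon
  push Not at hcon
  choose A hA1 hA2 hA3 using fun n : ℕ => hcon ((2⁻¹ : ℝ≥0∞) ^ n) (ENNReal.pow_pos (by simp) n)
  have hs : ∑' i, μ (A i) ≠ ∞ := by
    refine ne_top_of_le_ne_top ?_ (ENNReal.tsum_le_tsum fun i => (hA2 i).le)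
    rw [ENNReal.tsum_geometric]; simp
  have h1 := measure_limsup_atTop_eq_zero hs
  rw [limsup_eq_iInf_iSup_of_nat] at h1
  obtain ⟨n, hn⟩ := exhaust ν (fun n => ⋃ i ≥ n, A i)
    (fun a b hab => biUnion_subset_biUnion_left fun i hi => le_trans hab hi)
    (fun n => MeasurableSet.biUnion (to_countable _) fun i _ => hA1 i)
    (fun B hB hsub => h0 B hB (measure_mono_null hsub h1)) ε hε
  exact absurd (hn (A n) (hA1 n) (subset_biUnion_of_mem (u := A) (le_refl n))) (not_le.mpr (hA3 n))

lemma jordan_le (s : SignedMeasure α) (A : Set α) (hA : MeasurableSet A) (C : ℝ)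
    (h : ∀ B, MeasurableSet B → B ⊆ A → |s B| ≤ C) :
    s.toJordanDecomposition.posPart.real A ≤ C ∧ s.toJordanDecomposition.negPart.real A ≤ C := by
  obtain ⟨S, hS, h1, h2⟩ := s.toJordanDecomposition.mutuallySingular
  have a1 := s.apply_eq_posPart_real_sub_negPart_real (hA.diff hS)
  have a2 := s.apply_eq_posPart_real_sub_negPart_real (hA.inter hS)
  have b1 : s.toJordanDecomposition.negPart.real (A \ S) = 0 := by
    rw [measureReal_def, measure_mono_null (sdiff_subset_compl A S) h2]; rfl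
  have b2 : s.toJordanDecomposition.posPart.real (A ∩ S) = 0 := by
    rw [measureReal_def, measure_mono_null inter_subset_right h1]; rfl
  have c1 := measureReal_inter_add_sdiff (μ := s.toJordanDecomposition.posPart) (s := A) hS
  have c2 := measureReal_inter_add_sdiff (μ := s.toJordanDecomposition.negPart) (s := A) hS
  have d1 := abs_le.mp (h _ (hA.diff hS) sdiff_subset)
  have d2 := abs_le.mp (h _ (hA.inter hS) inter_subset_left)
  constructor <;> linarith [d1.2, d2.1]

lemma int_bdd (P : Measure α) [IsFiniteMeasure P] (ψ : α → ℝ) (hψ : Measurable ψ) (C : ℝ)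
    (hb : ∀ x, |ψ x| ≤ C) : Integrable ψ P :=
  Integrable.of_bound hψ.aestronglyMeasurable C (Eventually.of_forall hb)

lemma int_le (P : Measure α) [IsFiniteMeasure P] (ψ : α → ℝ) (hψ : Measurable ψ)
    (hb : ∀ x, |ψ x| ≤ 1) (η : ℝ) (hη : 0 ≤ η) :
    |∫ x, ψ x ∂P| ≤ η * P.real univ + P.real {x | η ≤ |ψ x|} := by
  have hA : MeasurableSet {x | η ≤ |ψ x|} := measurableSet_le measurable_const hψ.abs
  refine abs_integral_le_integral_abs.trans ?_
  rw [← integral_indicator_one hA, mul_comm η, ← smul_eq_mul, ← integral_const,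
    ← integral_add (integrable_const _) ((integrable_const _).indicator hA)]
  refine integral_mono (int_bdd P _ hψ.abs 1 (by simpa using hb))
    ((integrable_const _).add ((integrable_const _).indicator hA)) fun x => ?_
  by_cases hx : η ≤ |ψ x|
  · simp only [indicator_of_mem (show x ∈ {x | η ≤ |ψ x|} from hx), Pi.one_apply]
    linarith [hb x]
  · simp only [indicator_of_notMem (show x ∉ {x | η ≤ |ψ x|} from hx)]
    linarith [not_le.mp hx]

noncomputable def avg (S : ℕ → Set α) : ℕ → ℕ → α → ℝ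
  | 0, s => (S s).indicator 1
  | n + 1, s => fun x => (avg S n s x + avg S n (s + 2 ^ n) x) / 2

lemma avg_meas (S : ℕ → Set α) (hS : ∀ i, MeasurableSet (S i)) (n s : ℕ) :
    Measurable (avg S n s) := by
  induction n generalizing s with
  | zero => exact measurable_one.indicator (hS s)
  | succ n ih => exact ((ih _).add (ih _)).div_const 2

omit [MeasurableSpace α] in
lemma avg_mem (S : ℕ → Set α) (n s : ℕ) (x : α) : 0 ≤ avg S n s x ∧ avg S n s x ≤ 1 := by
  induction n generalizing s with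
  | zero => by_cases hx : x ∈ S s <;> simp [avg, hx]
  | succ n ih =>
    have h1 := ih s
    have h2 := ih (s + 2 ^ n)
    simp only [avg]
    constructor <;> linarith [h1.1, h1.2, h2.1, h2.2]

omit [MeasurableSpace α] in
lemma avg_abs (S : ℕ → Set α) (n s : ℕ) (x : α) : |avg S n s x| ≤ 1 := by
  rw [abs_of_nonneg (avg_mem S n s x).1]; exact (avg_mem S n s x).2

lemma avg_I (P Q : Measure α) [IsFiniteMeasure P] [IsFiniteMeasure Q] (S : ℕ → Set α)
    (hS : ∀ i, MeasurableSet (S i)) (c : ℝ) (n s : ℕ)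
    (h : ∀ i, s ≤ i → i < s + 2 ^ n → P.real (S i) - Q.real (S i) = c) :
    ∫ x, avg S n s x ∂P - ∫ x, avg S n s x ∂Q = c := by
  induction n generalizing s with
  | zero =>
    simp only [avg]
    rw [integral_indicator_one (hS s), integral_indicator_one (hS s)]
    exact h s le_rfl (by simp)
  | succ n ih =>
    have h1 := ih s fun i a b => h i a (by rw [pow_succ]; omega)
    have h2 := ih (s + 2 ^ n) fun i a b => h i (by omega) (by rw [pow_succ]; omega)
    have i1 := fun (R : Measure α) [IsFiniteMeasure R] (t : ℕ) =>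
      int_bdd R _ (avg_meas S hS n t) 1 (avg_abs S n t)
    simp only [avg]
    rw [integral_div, integral_div, integral_add (i1 P _) (i1 P _), integral_add (i1 Q _) (i1 Q _)]
    linarith

lemma avg_sq (μ : Measure α) [IsFiniteMeasure μ] (S : ℕ → Set α) (hS : ∀ i, MeasurableSet (S i))
    (θ : ℝ) (M : ℕ)
    (h : ∀ n s, s + 2 ^ (n + 1) ≤ M → θ ≤ ∫ x, (avg S n (s + 2 ^ n) x - avg S n s x) ^ 2 ∂μ)
    (n s : ℕ) (hs : s + 2 ^ n ≤ M) : ∫ x, avg S n s x ^ 2 ∂μ ≤ μ.real univ - n * θ / 4 := by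
  have isq : ∀ n t, Integrable (fun x => avg S n t x ^ 2) μ := fun n t =>
    int_bdd μ _ ((avg_meas S hS n t).pow_const 2) 1 fun x => by
      rw [abs_pow]; exact pow_le_one₀ (abs_nonneg _) (avg_abs S n t x)
  induction n generalizing s with
  | zero =>
    simp only [Nat.cast_zero, zero_mul, zero_div, sub_zero]
    rw [← mul_one (μ.real univ), ← smul_eq_mul, ← integral_const]
    refine integral_mono (isq 0 s) (integrable_const _) fun x => ?_
    have := avg_mem S 0 s x
    simp only; nlinarith [this.1, this.2]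
  | succ n ih =>
    have h1 := ih s (by rw [pow_succ] at hs; omega)
    have h2 := ih (s + 2 ^ n) (by rw [pow_succ] at hs; omega)
    have h3 := h n s hs
    have idf : Integrable (fun x => (avg S n (s + 2 ^ n) x - avg S n s x) ^ 2) μ :=
      int_bdd μ _ (((avg_meas S hS n _).sub (avg_meas S hS n _)).pow_const 2) 1 fun x => by
        have a := avg_mem S n s x
        have b := avg_mem S n (s + 2 ^ n) x
        rw [abs_pow]
        exact pow_le_one₀ (abs_nonneg _) (abs_le.mpr ⟨by linarith [a.2, b.1], by linarith [a.1, b.2]⟩)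
    have e : (fun x => avg S (n + 1) s x ^ 2) = fun x => (avg S n s x ^ 2 + avg S n (s + 2 ^ n) x ^ 2) / 2
        - (avg S n (s + 2 ^ n) x - avg S n s x) ^ 2 / 4 := by
      funext x; simp only [avg]; ring
    have iad : Integrable (fun x => (avg S n s x ^ 2 + avg S n (s + 2 ^ n) x ^ 2) / 2) μ :=
      ((isq n _).add (isq n _)).div_const 2
    rw [e, integral_sub iad (idf.div_const 4), integral_div,
      integral_div, integral_add (isq n _) (isq n _)]
    push_cast
    linarith

end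

noncomputable def xx (N i : ℕ) : c0 :=
  mk (fun k => if (Nat.unpair k).1 = N ∧ (Nat.unpair k).2 ≤ i then 1 else 0) (tendsto_of_finite _
    (((Set.finite_Iic i).image (Nat.pair N)).subset fun k hk => by
      have : (Nat.unpair k).1 = N ∧ (Nat.unpair k).2 ≤ i := by
        by_contra h
        exact hk (if_neg h)
      exact ⟨_, this.2, by rw [← this.1, Nat.pair_unpair]⟩))

lemma xx_apply (N i k : ℕ) :
    xx N i k = if (Nat.unpair k).1 = N ∧ (Nat.unpair k).2 ≤ i then 1 else 0 := rfl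

abbrev Idx := {p : ℕ × ℕ // p.2 < 2 ^ p.1}

def K : Set c0 := insert 0 (range fun p : Idx => xx p.1.1 p.1.2)

lemma xx_weak (φ : c0 →L[ℝ] ℝ) : Tendsto (fun p : Idx => φ (xx p.1.1 p.1.2)) cofinite (𝓝 (φ 0)) := by
  rw [map_zero, Metric.tendsto_nhds]
  intro ε hε
  have hT : {N : ℕ | ∃ i, ε ≤ |φ (xx N i)|}.Finite := by
    by_contra hinf
    obtain ⟨M, hM⟩ := exists_nat_gt (‖φ‖ / ε)
    obtain ⟨F, hF, hc⟩ := Set.Infinite.exists_subset_card_eq hinf M
    choose! ι hι using fun N (hN : N ∈ F) => hF hN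
    set y : c0 := ∑ N ∈ F, (SignType.sign (φ (xx N (ι N))) : ℝ) • xx N (ι N) with hy
    have h1 : ‖y‖ ≤ 1 := by
      apply norm_le _ zero_le_one
      intro k
      rw [hy, sum_apply]
      have hz : ∀ N, N ≠ (Nat.unpair k).1 →
          ((SignType.sign (φ (xx N (ι N))) : ℝ) • xx N (ι N)) k = 0 := by
        intro N hN
        rw [ZeroAtInftyContinuousMap.smul_apply, xx_apply, if_neg (fun h => hN h.1.symm), smul_zero]
      by_cases hk : (Nat.unpair k).1 ∈ F
      · rw [Finset.sum_eq_single_of_mem _ hk fun N _ hN => hz N hN,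
          ZeroAtInftyContinuousMap.smul_apply, smul_eq_mul, abs_mul, xx_apply]
        have a : ∀ t : SignType, |(t : ℝ)| ≤ 1 := by
          intro t; cases t <;> simp
        split_ifs <;> simp [a]
      · rw [Finset.sum_eq_zero fun N hN => hz N (fun h => hk (h ▸ hN))]; simp
    have h2 : M * ε ≤ φ y := by
      rw [hy, map_sum, ← hc, ← nsmul_eq_mul]
      apply Finset.card_nsmul_le_sum
      intro N hN
      rw [map_smul, smul_eq_mul, sign_mul_self]
      exact hι N hN
    have h3 := φ.le_opNorm y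
    rw [div_lt_iff₀ hε] at hM
    have h4 := le_abs_self (φ y)
    rw [Real.norm_eq_abs] at h3
    nlinarith [norm_nonneg φ]
  rw [eventually_cofinite]
  have : (⋃ N ∈ {N : ℕ | ∃ i, ε ≤ |φ (xx N i)|}, ({N} ×ˢ Iio (2 ^ N) : Set (ℕ × ℕ))).Finite :=
    hT.biUnion fun N _ => (finite_singleton N).prod (finite_Iio _)
  refine (this.preimage Subtype.val_injective.injOn).subset fun p hp => ?_
  simp only [mem_ofPred_eq, dist_zero_right, Real.norm_eq_abs, not_lt] at hp
  exact mem_biUnion (x := p.1.1) ⟨_, hp⟩ ⟨rfl, p.2⟩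

lemma K_compact : IsCompact (toWeakSpace ℝ c0 '' K) := by
  rw [K, image_insert_eq, ← range_comp]
  exact (weak_tendsto _ _ xx_weak).isCompact_insert_range_of_cofinite

lemma K_not {α : Type} [MeasurableSpace α] (ν : VectorMeasure α c0)
    (hK : K ⊆ range (fun s : Set α => ν s)) : False := by
  set C : ℝ := ((ν.bound : ℝ≥0) : ℝ) with hC
  have hC0 : 0 ≤ C := NNReal.coe_nonneg _
  let s : ℕ → SignedMeasure α := fun k => ν.mapRange (ev k : c0 →+ ℝ) (ev k).continuous
  have hs : ∀ k B, s k B = ν B k := fun k B => rfl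
  let P : ℕ → Measure α := fun k => (s k).toJordanDecomposition.posPart
  let Q : ℕ → Measure α := fun k => (s k).toJordanDecomposition.negPart
  have hPQ : ∀ k, (P k).real univ ≤ C ∧ (Q k).real univ ≤ C := fun k =>
    jordan_le (s k) univ MeasurableSet.univ C fun B _ _ =>
      (apply_le _ k).trans VectorMeasure.norm_apply_le_bound
  let μ : Measure α := Measure.sum fun k => ((2⁻¹ : ℝ≥0∞) ^ k) • (P k + Q k)
  have hμ : IsFiniteMeasure μ := by
    constructor
    rw [Measure.sum_apply _ MeasurableSet.univ]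
    have : ∀ k, (((2⁻¹ : ℝ≥0∞) ^ k) • (P k + Q k)) univ
        ≤ 2⁻¹ ^ k * (ENNReal.ofReal C + ENNReal.ofReal C) := by
      intro k
      rw [Measure.smul_apply, Measure.add_apply, smul_eq_mul]
      gcongr
      · rw [← ofReal_measureReal (μ := P k)]; exact ENNReal.ofReal_le_ofReal (hPQ k).1
      · rw [← ofReal_measureReal (μ := Q k)]; exact ENNReal.ofReal_le_ofReal (hPQ k).2
    refine (ENNReal.tsum_le_tsum this).trans_lt ?_
    rw [ENNReal.tsum_mul_right, ENNReal.tsum_geometric]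
    apply ENNReal.mul_lt_top <;> simp
  have h0 : ∀ B, MeasurableSet B → μ B = 0 → ν B = 0 := by
    intro B hB h
    rw [Measure.sum_apply _ hB, ENNReal.tsum_eq_zero] at h
    ext k
    have := h k
    rw [Measure.smul_apply, smul_eq_mul, mul_eq_zero] at this
    have h2 := this.resolve_left (ENNReal.pow_pos (by simp) k).ne'
    exact (s k).null_of_totalVariation_zero h2
  obtain ⟨δ, hδ, hac⟩ := unif_ac ν μ h0 (1 / 8) (by norm_num)
  obtain ⟨δ', hδ', hδ''⟩ : ∃ δ' : ℝ, 0 < δ' ∧ ENNReal.ofReal δ' ≤ δ := by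
    by_cases ht : δ = ∞
    · exact ⟨1, one_pos, by simp [ht]⟩
    · exact ⟨δ.toReal, ENNReal.toReal_pos hδ.ne' ht, by rw [ENNReal.ofReal_toReal ht]⟩
  set η : ℝ := 1 / (8 * (C + 1)) with hη
  have hη0 : 0 < η := by positivity
  have hηC : η * C ≤ 1 / 8 := by
    rw [hη, div_mul_eq_mul_div, div_le_iff₀ (by positivity)]; linarith
  have L3 : ∀ ψ : α → ℝ, Measurable ψ → (∀ x, |ψ x| ≤ 1) → ∀ j,
      ∫ x, ψ x ∂(P j) - ∫ x, ψ x ∂(Q j) = 1 → η ^ 2 * δ' ≤ ∫ x, ψ x ^ 2 ∂μ := by
    intro ψ hψ hb j hj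
    by_contra hlt
    have hA : MeasurableSet {x | η ≤ |ψ x|} := measurableSet_le measurable_const hψ.abs
    have m1 := mul_meas_ge_le_integral_of_nonneg (μ := μ) (f := fun x => ψ x ^ 2)
      (Eventually.of_forall fun x => sq_nonneg _)
      (int_bdd μ _ (hψ.pow_const 2) 1 fun x => by
        rw [abs_pow]; exact pow_le_one₀ (abs_nonneg _) (hb x)) (η ^ 2)
    have e : {x | η ^ 2 ≤ ψ x ^ 2} = {x | η ≤ |ψ x|} := by
      ext x; simp only [mem_ofPred_eq]; rw [sq_le_sq, abs_of_pos hη0]
    rw [e] at m1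
    have m2 : μ.real {x | η ≤ |ψ x|} < δ' := by
      by_contra h
      have := mul_le_mul_of_nonneg_left (not_lt.mp h) (sq_nonneg η)
      linarith [not_le.mp hlt]
    have m3 : μ {x | η ≤ |ψ x|} < δ := by
      refine lt_of_lt_of_le ?_ hδ''
      rw [← ofReal_measureReal (μ := μ)]
      exact (ENNReal.ofReal_lt_ofReal_iff hδ').mpr m2
    have m4 := jordan_le (s j) _ hA (1 / 8) fun B hB hsub =>
      (apply_le _ j).trans (hac B hB ((measure_mono hsub).trans_lt m3))
    have m5 := abs_le.mp (int_le (P j) ψ hψ hb η hη0.le)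
    have m6 := abs_le.mp (int_le (Q j) ψ hψ hb η hη0.le)
    have m7 := mul_le_mul_of_nonneg_left (hPQ j).1 hη0.le
    have m8 := mul_le_mul_of_nonneg_left (hPQ j).2 hη0.le
    linarith [m4.1, m4.2, m5.2, m6.1]
  set θ := η ^ 2 * δ' with hθ
  have hθ0 : 0 < θ := by positivity
  obtain ⟨N, hN⟩ := exists_nat_gt (4 * μ.real univ / θ)
  have hE : ∀ i, ∃ S : Set α, MeasurableSet S ∧ (i < 2 ^ N → ν S = xx N i) := by
    intro i
    by_cases hi : i < 2 ^ N
    · obtain ⟨S, hS⟩ := hK (Or.inr ⟨⟨(N, i), hi⟩, rfl⟩)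
      refine ⟨S, ?_, fun _ => hS⟩
      by_contra hm
      have h1 : ν S = 0 := ν.not_measurable hm
      have h2 : xx N i (Nat.pair N 0) = 0 := by
        have : xx N i = 0 := hS.symm.trans h1
        rw [this]; rfl
      simp [xx_apply] at h2
    · exact ⟨∅, MeasurableSet.empty, fun h => absurd h hi⟩
  choose S hS1 hS2 using hE
  have hval : ∀ j i, i < 2 ^ N → (P (Nat.pair N j)).real (S i) - (Q (Nat.pair N j)).real (S i)
      = if j ≤ i then 1 else 0 := by
    intro j i hi
    rw [← (s _).apply_eq_posPart_real_sub_negPart_real (hS1 i), hs, hS2 i hi, xx_apply]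
    simp
  have := avg_sq μ S hS1 θ (2 ^ N) (fun n t ht => by
    have hp : 0 < 2 ^ n := Nat.pos_of_ne_zero (by positivity)
    rw [pow_succ] at ht
    apply L3 (fun x => avg S n (t + 2 ^ n) x - avg S n t x) ((avg_meas S hS1 n _).sub (avg_meas S hS1 n _)) _ (Nat.pair N (t + 2 ^ n))
    · have a1 := avg_I (P (Nat.pair N (t + 2 ^ n))) (Q (Nat.pair N (t + 2 ^ n))) S hS1 1 n (t + 2 ^ n)
        fun i a b => by rw [hval _ i (by omega), if_pos a]
      have a2 := avg_I (P (Nat.pair N (t + 2 ^ n))) (Q (Nat.pair N (t + 2 ^ n))) S hS1 0 n t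
        fun i a b => by rw [hval _ i (by omega), if_neg (by omega)]
      have i1 := fun (R : Measure α) [IsFiniteMeasure R] (t : ℕ) =>
        int_bdd R _ (avg_meas S hS1 n t) 1 (avg_abs S n t)
      rw [integral_sub (i1 _ _) (i1 _ _), integral_sub (i1 _ _) (i1 _ _)]
      linarith
    · intro x
      have a := avg_mem S n t x
      have b := avg_mem S n (t + 2 ^ n) x
      exact abs_le.mpr ⟨by linarith [a.2, b.1], by linarith [a.1, b.2]⟩) N 0 (by simp)
  have h5 : 0 ≤ ∫ x, avg S N 0 x ^ 2 ∂μ := integral_nonneg fun x => sq_nonneg _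
  rw [div_lt_iff₀ hθ0] at hN
  linarith

end Pool.Agent.H91.VecRange
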