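import Mathlib

set_option autoImplicit false

namespace H91.VolProd
open MeasureTheory ProbabilityTheory Set Real
open scoped ENNReal NNReal

noncomputable def polar (f : ℝ → ℝ) (y : ℝ) : ℝ := ⨅ x : {x // 0 < f x}, exp (-(x * y)) / f x
noncomputable def vp (f : ℝ → ℝ) : ℝ≥0∞ :=
  (∫⁻ x, ENNReal.ofReal (f x)) * ∫⁻ y, ENNReal.ofReal (polar f y)
/-- Fokker-Planck (adjoint Ornstein-Uhlenbeck) flow at time `t > 0`, by the Mehler kernel -/
noncomputable def flow (f : ℝ → ℝ) (t x : ℝ) : ℝ :=
  ∫ z, f z * gaussianPDFReal (exp (-t) * z) (1 - exp (-t) ^ 2).toNNReal x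
def BaryZero (g : ℝ → ℝ) : Prop :=
  Integrable g ∧ 0 < ∫ y, g y ∧ Integrable (fun y => y * g y) ∧ ∫ y, y * g y = 0

lemma mass {f : ℝ → ℝ} (hf : Measurable f) (h0 : ∀ x, 0 ≤ f x) (hi : Integrable f) {t : ℝ}
    (hv : (1 - exp (-t) ^ 2).toNNReal ≠ 0) :
    ∫⁻ x, ENNReal.ofReal (flow f t x) = ∫⁻ x, ENNReal.ofReal (f x) := by
  have : ∀ x, ENNReal.ofReal (flow f t x) = ∫⁻ z, ENNReal.ofReal (f z) *
      ENNReal.ofReal (gaussianPDFReal (exp (-t) * z) (1 - exp (-t) ^ 2).toNNReal x) := by
    intro x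
    rw [flow, ofReal_integral_eq_lintegral_ofReal]
    · simp only [ENNReal.ofReal_mul (h0 _)]
    · refine hi.mul_bdd (c := (√(2 * π * (1 - exp (-t) ^ 2).toNNReal))⁻¹)
        (Measurable.aestronglyMeasurable (by fun_prop)) (.of_forall fun z => ?_)
      rw [norm_of_nonneg (gaussianPDFReal_nonneg _ _ _), gaussianPDFReal]
      refine mul_le_of_le_one_right (by positivity) (exp_le_one_iff.2 ?_)
      exact div_nonpos_of_nonpos_of_nonneg (neg_nonpos.2 (sq_nonneg _)) (by positivity)
    · exact .of_forall fun z => mul_nonneg (h0 z) (gaussianPDFReal_nonneg _ _ _)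
  simp only [this]
  rw [lintegral_lintegral_swap (Measurable.aemeasurable (by fun_prop))]
  refine lintegral_congr fun z => ?_
  rw [lintegral_const_mul _ (by fun_prop), lintegral_gaussianPDFReal_eq_one _ hv, mul_one]

def S (L e : ℝ) : Set ℝ := Icc (-L) (1 - L) ∪ Icc (L - e) L
noncomputable def F (L e : ℝ) : ℝ → ℝ := (S L e).indicator 1

lemma mS (L e : ℝ) : MeasurableSet (S L e) := measurableSet_Icc.union measurableSet_Icc

lemma flow_eq {L e : ℝ} (h : 1 + e < 2 * L) (t x : ℝ) : flow (F L e) t x =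
    (∫ z in Icc (-L) (1 - L), gaussianPDFReal (exp (-t) * z) (1 - exp (-t) ^ 2).toNNReal x) +
    ∫ z in Icc (L - e) L, gaussianPDFReal (exp (-t) * z) (1 - exp (-t) ^ 2).toNNReal x := by
  have hc : Continuous fun z => gaussianPDFReal (exp (-t) * z) (1 - exp (-t) ^ 2).toNNReal x := by
    unfold gaussianPDFReal; fun_prop
  rw [← setIntegral_union _ measurableSet_Icc hc.integrableOn_Icc hc.integrableOn_Icc,
    ← integral_indicator (measurableSet_Icc.union measurableSet_Icc), flow]
  · congr 1; funext z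
    change _ = (S L e).indicator _ z
    by_cases hz : z ∈ S L e <;> simp [F, hz]
  · exact disjoint_left.2 fun z h1 h2 => by linarith [h1.2, h2.1]

lemma low {L e : ℝ} (h : 1 + e < 2 * L) (hL : 1 ≤ L) (t x : ℝ) (v : ℝ≥0)
    (hv : (1 - exp (-t) ^ 2).toNNReal = v) :
    (√(2 * π * v))⁻¹ * exp (-(|x| + exp (-t) * L) ^ 2 / (2 * v)) ≤ flow (F L e) t x := by
  rw [flow_eq h, hv]
  refine le_add_of_le_of_nonneg ?_ (integral_nonneg fun z => gaussianPDFReal_nonneg _ _ _)
  have hc : Continuous fun z => gaussianPDFReal (exp (-t) * z) v x := by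
    unfold gaussianPDFReal; fun_prop
  refine le_trans (le_of_eq ?_) (setIntegral_ge_of_const_le_real
    (c := (√(2 * π * v))⁻¹ * exp (-(|x| + exp (-t) * L) ^ 2 / (2 * v))) measurableSet_Icc (by simp)
    (fun z hz => ?_) hc.integrableOn_Icc)
  · simp
  · rw [gaussianPDFReal]
    rw [← sq_abs (x - _)]
    gcongr
    refine (abs_sub _ _).trans ?_
    rw [abs_mul, abs_of_pos (exp_pos _)]
    gcongr
    exact abs_le.2 ⟨hz.1, by linarith [hz.2]⟩

lemma kb (m x y : ℝ) (hy : y ≤ 2) (hy0 : 0 ≤ y) :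
    gaussianPDFReal m (3 / 4) x ≤ exp (m * y + 3 / 2 - x * y) := by
  rw [gaussianPDFReal]
  refine (mul_le_of_le_one_left (exp_pos _).le (inv_le_one_of_one_le₀ (one_le_sqrt.2 ?_))).trans
    (exp_le_exp.2 ?_)
  · push_cast; linarith [pi_gt_three]
  · push_cast; rw [div_le_iff₀ (by norm_num)]
    nlinarith [sq_nonneg (x - m - 3 / 4 * y), mul_self_le_mul_self hy0 hy]

lemma up {L : ℝ} (hL : 1 ≤ L) (x y : ℝ) (hy : y ∈ Icc (1 : ℝ) 2) :
    flow (F L (exp (-(2 * L)))) (log 2) x ≤ 2 * exp (2 - L / 2 - x * y) := by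
  have h1 : exp (-(2 * L)) < 1 := exp_lt_one_iff.2 (by linarith)
  have h2 : exp (-log 2) = 1 / 2 := by rw [exp_neg, exp_log two_pos, one_div]
  have h3 : (1 - (1 / 2 : ℝ) ^ 2).toNNReal = 3 / 4 := by
    ext; rw [Real.coe_toNNReal _ (by norm_num)]; norm_num
  rw [flow_eq (by linarith), h2, h3, two_mul (exp _)]
  have hc : Continuous fun z => gaussianPDFReal (1 / 2 * z) (3 / 4) x := by
    unfold gaussianPDFReal; fun_prop
  refine add_le_add ?_ ?_
  · refine (setIntegral_mono_on hc.integrableOn_Icc (continuous_const.integrableOn_Icc)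
      measurableSet_Icc fun z hz => (kb _ x y hy.2 (by linarith [hy.1])).trans
        (exp_le_exp.2 (?_ : _ ≤ 2 - L / 2 - x * y))).trans (by simp)
    nlinarith [hz.2, hy.1]
  · refine (setIntegral_mono_on hc.integrableOn_Icc (continuous_const.integrableOn_Icc)
      measurableSet_Icc fun z hz => (kb _ x y hy.2 (by linarith [hy.1])).trans
        (exp_le_exp.2 (?_ : _ ≤ L + 3 / 2 - x * y))).trans ?_
    · nlinarith [hz.2, hy.1, hy.2]
    · simp only [integral_const, MeasurableSet.univ, measureReal_restrict_apply, univ_inter,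
        volume_real_Icc, sub_sub_cancel, smul_eq_mul, max_eq_left (exp_pos _).le, ← exp_add]
      exact exp_le_exp.2 (by linarith)

lemma polar_F {L e : ℝ} (hL : 1 ≤ L) (he : 0 ≤ e) (he1 : e ≤ 1) (y : ℝ) :
    polar (F L e) y = exp (-(L * |y|)) := by
  have h1 : ∀ x, 0 < F L e x ↔ x ∈ S L e := fun x => by by_cases h : x ∈ S L e <;> simp [F, h]
  have h2 : ∀ x ∈ S L e, F L e x = 1 := fun x h => by simp [F, h]
  refine IsLeast.csInf_eq ⟨?_, ?_⟩
  · rcases le_total 0 y with h | h
    · have : L ∈ S L e := Or.inr ⟨by linarith, le_rfl⟩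
      exact ⟨⟨L, (h1 _).2 this⟩, by simp [h2 _ this, abs_of_nonneg h]⟩
    · have : -L ∈ S L e := Or.inl ⟨le_rfl, by linarith⟩
      exact ⟨⟨-L, (h1 _).2 this⟩, by simp [h2 _ this, abs_of_nonpos h]⟩
  · rintro _ ⟨⟨x, hx⟩, rfl⟩
    have h3 := (h1 x).1 hx
    have h4 : |x| ≤ L := by
      rcases h3 with h | h <;> exact abs_le.2 ⟨by linarith [h.1], by linarith [h.2]⟩
    simp only [h2 x h3, div_one]
    refine exp_le_exp.2 (neg_le_neg ((le_abs_self _).trans ?_))
    rw [abs_mul]; gcongr

lemma iexp {b : ℝ} (hb : 0 < b) : Integrable fun y : ℝ => exp (-(b * |y|)) := by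
  rw [← integrableOn_univ, ← Iic_union_Ioi (a := 0)]
  refine IntegrableOn.union ((integrableOn_exp_mul_Iic hb 0).congr_fun (fun y hy => ?_)
    measurableSet_Iic) ((exp_neg_integrableOn_Ioi 0 hb).congr_fun (fun y hy => ?_)
    measurableSet_Ioi)
  · simp [abs_of_nonpos (show y ≤ 0 from hy)]
  · simp [abs_of_pos (show 0 < y from hy)]

theorem main : ∃ f : ℝ → ℝ, Measurable f ∧ (∀ x, 0 ≤ f x) ∧ Integrable f ∧ 0 < ∫ x, f x ∧
    BaryZero (polar f) ∧ ∃ t1 t2 : ℝ, 0 < t1 ∧ t1 < t2 ∧ vp (flow f t2) < vp (flow f t1) := by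
  have hg : Integrable fun y : ℝ => 3 * exp 2 * exp (-(1 / 8) * y ^ 2) :=
    (integrable_exp_neg_mul_sq (by norm_num)).const_mul _
  set B := ∫ y : ℝ, 3 * exp 2 * exp (-(1 / 8) * y ^ 2)
  have hB : 0 ≤ B := integral_nonneg fun y => by positivity
  set L := 4 * B + 4 with hL
  have h1 : exp (-(2 * L)) < 1 := exp_lt_one_iff.2 (by linarith)
  have h0 := exp_pos (-(2 * L))
  set e := exp (-(2 * L))
  have hm : Measurable (F L e) := measurable_one.indicator (mS _ _)
  have hp : ∀ x, 0 ≤ F L e x := fun x => indicator_nonneg (fun _ _ => zero_le_one) x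
  have hi : Integrable (F L e) := (integrable_indicator_iff (mS _ _)).2
    (continuous_one.integrableOn_Icc.union continuous_one.integrableOn_Icc)
  have hpos : 0 < ∫ x, F L e x := by
    rw [integral_pos_iff_support_of_nonneg hp hi]
    refine lt_of_lt_of_le (by simp) (measure_mono (s := Icc (-L) (1 - L)) fun x hx => ?_)
    simp [F, show x ∈ S L e from Or.inl hx]
  have hP : polar (F L e) = fun y => exp (-(L * |y|)) :=
    funext (polar_F (by linarith) h0.le h1.le)
  have s2 : exp (-log (2 * L)) = 1 / (2 * L) := by rw [exp_neg, exp_log (by linarith), one_div]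
  have s1 : exp (-log 2) = 1 / 2 := by rw [exp_neg, exp_log two_pos, one_div]
  have s3 : 1 / (2 * L) ≤ 1 / 2 := by gcongr; linarith
  have s4 : 0 < 1 / (2 * L) := by positivity
  refine ⟨F L e, hm, hp, hi, hpos, ⟨?_, ?_, ?_, ?_⟩, log 2, log (2 * L), log_pos one_lt_two,
    log_lt_log two_pos (by linarith), ?_⟩
  · rw [hP]; exact iexp (by linarith)
  · rw [hP]; exact integral_exp_pos (iexp (by linarith))
  · rw [hP]
    refine (iexp (b := L - 1) (by linarith)).mono' (by fun_prop) (.of_forall fun y => ?_)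
    rw [norm_mul, norm_eq_abs, norm_of_nonneg (exp_pos _).le,
      show -((L - 1) * |y|) = |y| + -(L * |y|) by ring, exp_add]
    gcongr; linarith [add_one_le_exp |y|]
  · have := integral_neg_eq_self (fun y => y * exp (-(L * |y|))) volume
    simp only [abs_neg, neg_mul, integral_neg] at this
    simp only [hP]; linarith
  · rw [vp, vp, mass hm hp hi, mass hm hp hi, ← ofReal_integral_eq_lintegral_ofReal hi
      (.of_forall hp)]
    · refine ENNReal.mul_lt_mul_right (by simpa using hpos) ENNReal.ofReal_ne_top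
        (lt_of_le_of_lt (b := ENNReal.ofReal B) ?_
          (lt_of_lt_of_le (b := ENNReal.ofReal (B + 1 / 2)) ?_ ?_))
      · rw [ofReal_integral_eq_lintegral_ofReal hg (.of_forall fun y => by positivity)]
        refine lintegral_mono fun y => ENNReal.ofReal_le_ofReal ?_
        have hv : ((1 - exp (-log (2 * L)) ^ 2).toNNReal : ℝ) = 1 - (1 / (2 * L)) ^ 2 := by
          rw [s2, Real.coe_toNNReal _ (by nlinarith)]
        have h2 := low (L := L) (e := e) (by linarith) (by linarith) (log (2 * L)) (y / 4) _ rfl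
        rw [hv] at h2
        have h3 : 3⁻¹ * exp (-(y ^ 2 / 8 + 2)) ≤ flow (F L e) (log (2 * L)) (y / 4) := by
          refine le_trans (mul_le_mul (inv_anti₀ (sqrt_pos.2 ?_) (sqrt_le_iff.2 ⟨by norm_num, ?_⟩))
            (exp_le_exp.2 ?_) (exp_pos _).le (by positivity)) h2
          · exact mul_pos (by positivity) (by nlinarith)
          · nlinarith [pi_le_four, pi_pos, mul_pos pi_pos (pow_pos s4 2)]
          · rw [s2, one_div_mul_eq_div, le_div_iff₀ (by nlinarith),
              show L / (2 * L) = 1 / 2 by rw [div_eq_iff (by linarith)]; ring]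
            have : (1 / (2 * L)) ^ 2 ≤ 1 / 4 := by nlinarith
            nlinarith [sq_abs (y / 4), sq_nonneg (|y / 4| - 1 / 2), sq_nonneg y]
        refine (ciInf_le ⟨0, ?_⟩ ⟨y / 4, lt_of_lt_of_le (by positivity) h3⟩).trans ?_
        · rintro _ ⟨x, rfl⟩; exact div_nonneg (exp_pos _).le x.2.le
        · refine (div_le_div_of_nonneg_left (exp_pos _).le (by positivity) h3).trans_eq ?_
          rw [div_eq_iff (by positivity), show -(y / 4 * y) = 2 + -(1 / 8) * y ^ 2 +
            -(y ^ 2 / 8 + 2) by ring, exp_add, exp_add]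
          ring
      · exact (ENNReal.ofReal_lt_ofReal_iff (by linarith)).2 (by linarith)
      · refine le_trans ?_ (setLIntegral_le_lintegral (Icc 1 2) _)
        refine le_trans (by simp; norm_num) (setLIntegral_mono' (f := fun _ =>
          ENNReal.ofReal (B + 1 / 2)) measurableSet_Icc fun y hy => ENNReal.ofReal_le_ofReal ?_)
        have : Nonempty {x // 0 < flow (F L e) (log 2) x} := ⟨⟨0, lt_of_lt_of_le (by
          have : 0 < (1 - exp (-log 2) ^ 2).toNNReal := by rw [s1]; norm_num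
          positivity) (low (by linarith) (by linarith) _ _ _ rfl)⟩⟩
        refine le_ciInf fun x => ?_
        rw [le_div_iff₀ x.2]
        refine (mul_le_mul_of_nonneg_left (up (by linarith) x y hy) (by linarith)).trans ?_
        rw [show -(x * y : ℝ) = 2 * B + (2 - L / 2 - x * y) by linarith, exp_add]
        nlinarith [add_one_le_exp (2 * B), exp_pos (2 - L / 2 - x * y)]
    · rw [s1]; norm_num
    · rw [s2]; simp only [ne_eq, toNNReal_eq_zero, not_le]; nlinarith

end H91.VolProd
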