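import Mathlib

set_option autoImplicit false

open Filter Topology Finset BoundedContinuousFunction
open scoped ENNReal

namespace H91.WBS

section defs
variable {X : Type} [NormedAddCommGroup X] [NormedSpace ℝ X]

/-- `ca`. -/
noncomputable def ca (x : ℕ → X) : ℝ≥0∞ := ⨅ n, ⨆ (k) (l) (_ : n ≤ k) (_ : n ≤ l), ‖x k - x l‖ₑ

/-- `cca`: `ca` of the Cesaro means. -/
noncomputable def cca (x : ℕ → X) : ℝ≥0∞ :=
  ca fun k => ((k + 1 : ℕ) : ℝ)⁻¹ • ∑ i ∈ range (k + 1), x i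

/-- weak convergence of `x` to `a`. -/
def WTo (x : ℕ → X) (a : X) : Prop :=
  ∀ f : X →L[ℝ] ℝ, Tendsto (fun k => f (x k)) atTop (𝓝 (f a))

/-- `wu` of a sequence with weak limit `a`. -/
noncomputable def wu (x : ℕ → X) (a : X) : ℝ≥0∞ :=
  sInf {ε | 0 < ε ∧ ∃ n : ℕ, ∀ f : X →L[ℝ] ℝ, ‖f‖ ≤ 1 → {k | ε < ‖f (x k - a)‖ₑ}.encard ≤ n}

/-- `wbs`. -/
noncomputable def wbs (A : Set X) : ℝ≥0∞ :=
  ⨆ (x : ℕ → X) (a : X) (_ : ∀ k, x k ∈ A) (_ : WTo x a),
    ⨅ (φ : ℕ → ℕ) (_ : StrictMono φ), cca (x ∘ φ)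

/-- `swu`. -/
noncomputable def swu (A : Set X) : ℝ≥0∞ :=
  ⨆ (x : ℕ → X) (a : X) (_ : ∀ k, x k ∈ A) (_ : WTo x a),
    ⨅ (φ : ℕ → ℕ) (_ : StrictMono φ), wu (x ∘ φ) a

end defs

def S := {F : Finset ℕ // ∀ k ∈ F, F.card ≤ k}
instance : TopologicalSpace S := ⊥
instance : DiscreteTopology S := ⟨rfl⟩

noncomputable def e (k : ℕ) : S →ᵇ ℝ :=
  ofNormedAddCommGroupDiscrete (fun F => if k ∈ F.1 then 1 else 0) 1 fun i => by split_ifs <;> simp

lemma avg {M : Set ℕ} (hM : M.Infinite) (N : ℕ) : ∀ a : ℕ, 0 < a → ∃ (s : Finset ℕ) (w : ℕ → ℝ),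
    (∀ k ∈ s, k ∈ M ∧ a ≤ k) ∧ (∀ k, 0 ≤ w k ∧ w k ≤ (a : ℝ)⁻¹) ∧ ∑ k ∈ s, w k = N ∧
      ∀ F : S, ∑ k ∈ s with k ∈ F.1, w k ≤ 2 := by
  induction N with
  | zero => exact fun a _ => ⟨∅, 0, by simp, by simp, by simp, by simp⟩
  | succ N ih =>
    intro a ha
    obtain ⟨B, hB, hc⟩ := (hM.diff (Set.finite_lt_nat a)).exists_subset_card_eq a
    obtain ⟨s, w, h1, h2, h3, h4⟩ := ih (B.sup id + a + 1) (by omega)
    have lt : ∀ k ∈ B, k ≤ B.sup id := fun k hk => le_sup (f := id) hk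
    have dj : Disjoint B s := disjoint_left.mpr fun k hk hk' => by
      have := lt k hk; have := (h1 k hk').2; omega
    have a0 : (0 : ℝ) < a := by exact_mod_cast ha
    have eB : ∀ t ⊆ B, ∑ k ∈ t, (if k ∈ B then (a : ℝ)⁻¹ else w k) = t.card * (a : ℝ)⁻¹ :=
      fun t ht => by rw [sum_congr rfl fun k hk => if_pos (ht hk), sum_const, nsmul_eq_mul]
    have es : ∀ t ⊆ s, ∑ k ∈ t, (if k ∈ B then (a : ℝ)⁻¹ else w k) = ∑ k ∈ t, w k :=
      fun t ht => sum_congr rfl fun k hk => if_neg (disjoint_right.mp dj (ht hk))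
    refine ⟨B ∪ s, fun k => if k ∈ B then (a : ℝ)⁻¹ else w k, fun k hk => ?_, fun k => ?_, ?_,
      fun F => ?_⟩
    · rcases mem_union.mp hk with h | h
      · exact ⟨(hB h).1, not_lt.mp (hB h).2⟩
      · exact ⟨(h1 k h).1, by have := (h1 k h).2; omega⟩
    · beta_reduce
      split_ifs
      · exact ⟨by positivity, le_rfl⟩
      · exact ⟨(h2 k).1, (h2 k).2.trans (inv_anti₀ a0 (Nat.cast_le.mpr (by omega)))⟩
    · rw [sum_union dj, eB _ subset_rfl, es _ subset_rfl, hc, h3, mul_inv_cancel₀ a0.ne']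
      push_cast; ring
    · rw [filter_union, sum_union (dj.mono (filter_subset _ _) (filter_subset _ _)),
        eB _ (filter_subset _ _), es _ (filter_subset _ _)]
      rcases (B.filter (· ∈ F.1)).eq_empty_or_nonempty with h | ⟨k, hk⟩
      · rw [h]; simpa using h4 F
      have b1 : ((B.filter (· ∈ F.1)).card : ℝ) * (a : ℝ)⁻¹ ≤ 1 :=
        mul_inv_le_one_of_le₀ (Nat.cast_le.mpr (hc ▸ card_filter_le _ _)) a0.le
      have b2 := sum_le_card_nsmul (s.filter (· ∈ F.1)) w _ fun k _ => (h2 k).2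
      have b3 : (s.filter (· ∈ F.1)).card ≤ B.sup id + a + 1 := by
        have := card_le_card (s := s.filter (· ∈ F.1)) (t := F.1) fun k hk => (mem_filter.mp hk).2
        have := F.2 k (mem_filter.mp hk).2
        have := lt k (mem_filter.mp hk).1
        omega
      rw [nsmul_eq_mul] at b2
      linarith [mul_inv_le_one_of_le₀ (Nat.cast_le (α := ℝ).mpr b3) (Nat.cast_nonneg _)]

lemma up (f : (S →ᵇ ℝ) →L[ℝ] ℝ) {c : ℝ} (hc : 0 < c) : ∀ᶠ k in atTop, f (e k) < c := by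
  rw [← Nat.cofinite_eq_atTop, eventually_cofinite]
  by_contra h
  obtain ⟨N, hN⟩ := exists_nat_gt (‖f‖ * 2 / c)
  obtain ⟨s, w, h1, h2, h3, h4⟩ := avg h N 1 one_pos
  have b1 : ‖∑ k ∈ s, w k • e k‖ ≤ 2 := (norm_le zero_le_two).mpr fun F => by
    rw [BoundedContinuousFunction.sum_apply]
    simp only [e, BoundedContinuousFunction.smul_apply, coe_ofNormedAddCommGroupDiscrete,
      smul_eq_mul, mul_ite, mul_one, mul_zero, ← sum_filter]
    rw [Real.norm_of_nonneg (sum_nonneg fun k _ => (h2 k).1)]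
    exact h4 F
  have b2 := (le_abs_self _).trans (f.le_of_opNorm_le_of_le le_rfl b1)
  rw [map_sum] at b2
  have b3 := sum_le_sum (s := s) (f := fun k => w k * c) (g := fun k => f (w k • e k)) fun k hk => by
    rw [map_smul]; exact mul_le_mul_of_nonneg_left (not_lt.mp (h1 k hk).1) (h2 k).1
  rw [← sum_mul, h3] at b3
  rw [div_lt_iff₀ hc] at hN
  linarith

theorem main : ∃ (X : Type) (_ : NormedAddCommGroup X) (_ : NormedSpace ℝ X) (_ : CompleteSpace X)
    (A : Set X), Bornology.IsBounded A ∧ wbs A ≤ 1 ∧ 1 ≤ swu A ∧ wbs A < 2 * swu A := by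
  have e01 : ∀ k F, 0 ≤ e k F ∧ e k F ≤ 1 := fun k F => by
    simp only [e, coe_ofNormedAddCommGroupDiscrete]; split_ifs <;> norm_num
  have h1 : wbs (Set.range e) ≤ 1 := by
    refine iSup_le fun x => iSup_le fun a => iSup_le fun hx => iSup_le fun _ =>
      iInf₂_le_of_le id strictMono_id (iInf_le_of_le 0 (iSup_le fun k => iSup_le fun l =>
        iSup_le fun _ => iSup_le fun _ => ?_))
    have m : ∀ (k : ℕ) (F : S), 0 ≤ (((k + 1 : ℕ) : ℝ)⁻¹ • ∑ i ∈ range (k + 1), (x ∘ id) i) F ∧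
        (((k + 1 : ℕ) : ℝ)⁻¹ • ∑ i ∈ range (k + 1), (x ∘ id) i) F ≤ 1 := fun k F => by
      have b : ∀ i, 0 ≤ (x ∘ id) i F ∧ (x ∘ id) i F ≤ 1 := fun i => by
        obtain ⟨j, hj⟩ := hx i
        simpa only [Function.comp, id, ← hj] using e01 j F
      rw [BoundedContinuousFunction.smul_apply, BoundedContinuousFunction.sum_apply, smul_eq_mul]
      refine ⟨mul_nonneg (by positivity) (sum_nonneg fun i _ => (b i).1), inv_mul_le_one_of_le₀
        (by simpa using sum_le_card_nsmul (range (k + 1)) _ 1 fun i _ => (b i).2) (by positivity)⟩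
    rw [← ofReal_norm_eq_enorm, ENNReal.ofReal_le_one]
    refine (norm_le zero_le_one).mpr fun F => ?_
    rw [BoundedContinuousFunction.sub_apply, Real.norm_eq_abs, abs_le]
    constructor <;> linarith [m k F, m l F]
  have h2 : 1 ≤ swu (Set.range e) := by
    refine le_iSup_of_le e (le_iSup_of_le 0 (le_iSup_of_le (fun k => ⟨k, rfl⟩) (le_iSup_of_le
      (fun f => ?_) (le_iInf₂ fun φ hφ => le_sInf ?_))))
    · rw [map_zero]
      refine tendsto_order.mpr ⟨fun c hc => ?_, fun c hc => up f hc⟩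
      filter_upwards [up (-f) (neg_pos.mpr hc)] with k hk
      simpa using hk
    · rintro ε ⟨_, n, hn⟩
      by_contra h
      let F : S := ⟨(Ioc n (2 * n + 1)).image φ, fun k hk => by
        obtain ⟨j, hj, rfl⟩ := mem_image.mp hk
        have := hφ.id_le j
        have := card_image_le (s := Ioc n (2 * n + 1)) (f := φ)
        simp only [Nat.card_Ioc, mem_Ioc, id] at *
        omega⟩
      have := (Set.encard_le_encard (s := ↑(Ioc n (2 * n + 1))) fun j hj => ?_).trans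
        (hn (evalCLM ℝ F) (ContinuousLinearMap.opNorm_le_bound _ zero_le_one fun f => by
          simpa using f.norm_coe_le_norm F))
      · rw [Set.encard_coe_eq_coe_finsetCard, Nat.card_Ioc, Nat.cast_le] at this
        omega
      · have : φ j ∈ F.1 := mem_image_of_mem _ hj
        simpa [e, this] using not_le.mp h
  refine ⟨S →ᵇ ℝ, inferInstance, inferInstance, inferInstance, Set.range e,
    isBounded_iff_forall_norm_le.mpr ⟨1, ?_⟩, h1, h2,
    h1.trans_lt (lt_of_lt_of_le (by norm_num) (mul_le_mul_right h2 2))⟩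
  rintro _ ⟨k, rfl⟩
  exact (norm_le zero_le_one).mpr fun F => abs_le.mpr ⟨by linarith [e01 k F], (e01 k F).2⟩

end H91.WBS
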