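import Mathlib
import Pool.Agent.H91.JN

set_option autoImplicit false

namespace Pool.Agent.H91.WMP

open Set Filter Topology BoundedContinuousFunction

def HasWMP (𝕜 : Type) [RCLike 𝕜] (E F : Type) [NormedAddCommGroup E] [NormedSpace 𝕜 E]
    [NormedAddCommGroup F] [NormedSpace 𝕜 F] : Prop :=
  ∀ T : E →L[𝕜] F, (∃ x : ℕ → E, (∀ n, ‖x n‖ = 1) ∧
    Tendsto (fun n => ‖T (x n)‖) atTop (𝓝 ‖T‖) ∧
    ¬ ∀ f : StrongDual 𝕜 E, Tendsto (fun n => f (x n)) atTop (𝓝 0)) →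
    ∃ x : E, ‖x‖ = 1 ∧ ‖T x‖ = ‖T‖

variable {𝕜 : Type} [RCLike 𝕜] {E : Type} [NormedAddCommGroup E] [NormedSpace 𝕜 E]

theorem unit_pt (f : StrongDual 𝕜 E) (r : ℝ) (r0 : 0 ≤ r) (h : r < ‖f‖) :
    ∃ x : E, ‖x‖ = 1 ∧ r < ‖f x‖ := by
  lift r to NNReal using r0
  obtain ⟨x, h1, h2⟩ := f.exists_nnnorm_eq_one_lt_apply_of_lt_opNNNorm (r := r) h
  exact ⟨x, by simpa using congrArg NNReal.toReal h1, h2⟩

theorem case1 (h : StrongDual 𝕜 E) (g : ℕ → StrongDual 𝕜 E) (b η : ℝ) (η0 : 0 < η) (b0 : 0 ≤ b)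
    (hb : ∀ n, ‖g n‖ ≤ b) (hg : ∀ x, Tendsto (fun n => g n x) atTop (𝓝 0))
    (hN : ∀ n, max ‖h‖ b + η ≤ ‖h + g n‖) : ¬ HasWMP 𝕜 E (ℕ →ᵇ 𝕜) := by
  intro hW
  let c : ℕ → ℝ := fun n => 1 - 1 / ((n : ℝ) + 1)
  have c0 : ∀ n, 0 ≤ c n := fun n => by
    simp only [c]; rw [sub_nonneg, div_le_one (by positivity)]; linarith [(Nat.cast_nonneg n : (0 : ℝ) ≤ n)]
  have c1 : ∀ n, c n < 1 := fun n => by simp only [c]; rw [sub_lt_self_iff]; positivity
  have ct : Tendsto c atTop (𝓝 1) := by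
    simpa only [sub_zero] using tendsto_one_div_add_atTop_nhds_zero_nat.const_sub (1 : ℝ)
  have N0 : ∀ n, 0 < ‖h + g n‖ := fun n =>
    lt_of_lt_of_le (by have := le_max_right ‖h‖ b; linarith) (hN n)
  let f : ℕ → StrongDual 𝕜 E := fun n => ((c n / ‖h + g n‖ : ℝ) : 𝕜) • (h + g n)
  have fx : ∀ n x, ‖f n x‖ = c n / ‖h + g n‖ * ‖(h + g n) x‖ := fun n x => by
    rw [_root_.smul_apply, norm_smul, RCLike.norm_ofReal,
      abs_of_nonneg (div_nonneg (c0 n) (N0 n).le)]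
  have fb : ∀ n x, ‖f n x‖ ≤ c n * ‖x‖ := fun n x => by
    rw [fx]
    refine (mul_le_mul_of_nonneg_left ((h + g n).le_opNorm x)
      (div_nonneg (c0 n) (N0 n).le)).trans (le_of_eq ?_)
    have := (N0 n).ne'
    field_simp
  have fb' : ∀ x n, ‖f n x‖ ≤ ‖x‖ := fun x n =>
    (fb n x).trans (mul_le_of_le_one_left (norm_nonneg _) (c1 n).le)
  let T : E →L[𝕜] (ℕ →ᵇ 𝕜) := LinearMap.mkContinuous
    { toFun := fun x => ofNormedAddCommGroupDiscrete (fun n => f n x) ‖x‖ (fb' x)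
      map_add' := fun x y => by ext n; exact map_add (f n) x y
      map_smul' := fun a x => by ext n; exact map_smul (f n) a x } 1
    fun x => (norm_le (by positivity)).2 fun n => by rw [one_mul]; exact fb' x n
  have Tx : ∀ x n, T x n = f n x := fun _ _ => rfl
  have T1 : ‖T‖ ≤ 1 := LinearMap.mkContinuous_norm_le _ zero_le_one _
  have hx : ∀ n, ∃ x : E, ‖x‖ = 1 ∧ c n * ‖h + g n‖ < ‖(h + g n) x‖ := fun n =>
    unit_pt _ _ (mul_nonneg (c0 n) (N0 n).le) (mul_lt_of_lt_one_left (N0 n) (c1 n))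
  choose x x1 hx using hx
  have lo : ∀ n, c n * c n ≤ ‖T (x n)‖ := fun n => by
    refine le_trans ?_ ((T (x n)).norm_coe_le_norm n)
    rw [Tx, fx]
    refine le_trans (le_of_eq ?_) (mul_le_mul_of_nonneg_left (hx n).le (div_nonneg (c0 n) (N0 n).le))
    have := (N0 n).ne'
    field_simp
  have up : ∀ n, ‖T (x n)‖ ≤ ‖T‖ := fun n => by simpa [x1] using T.le_opNorm (x n)
  have cc : Tendsto (fun n => c n * c n) atTop (𝓝 1) := by simpa using ct.mul ct
  have Te : ‖T‖ = 1 := le_antisymm T1 (le_of_tendsto' cc fun n => (lo n).trans (up n))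
  obtain ⟨y, y1, hy⟩ := hW T ⟨x, x1, by
    rw [Te]
    exact tendsto_of_tendsto_of_tendsto_of_le_of_le cc tendsto_const_nhds lo
      fun n => (up n).trans T1, fun hh => by
      have h1 : ∀ n, c n * (b + η) - b ≤ ‖h (x n)‖ := fun n => by
        have a1 := hx n
        have a2 : ‖(h + g n) (x n)‖ ≤ ‖h (x n)‖ + ‖g n (x n)‖ := norm_add_le _ _
        have a3 : ‖g n (x n)‖ ≤ b := by simpa [x1] using (g n).le_of_opNorm_le (hb n) (x n)
        have a4 : c n * (b + η) ≤ c n * ‖h + g n‖ := mul_le_mul_of_nonneg_left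
          (le_trans (by have := le_max_right ‖h‖ b; linarith) (hN n)) (c0 n)
        linarith
      have := le_of_tendsto_of_tendsto' ((ct.mul_const (b + η)).sub_const b) (hh h).norm h1
      simp at this
      linarith⟩
  have q0 : 0 < ‖h‖ + η := by positivity
  obtain ⟨K, hK⟩ := eventually_atTop.1 ((hg y).norm.eventually (gt_mem_nhds
    (by simpa using half_pos η0 : ‖(0 : 𝕜)‖ < η / 2)))
  have cm : Monotone c := fun m n hmn => by
    simp only [c]
    exact sub_le_sub_left (one_div_le_one_div_of_le (by positivity) (by simpa using hmn)) _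
  have hq : ‖T y‖ ≤ max (c K) ((‖h‖ + η / 2) / (‖h‖ + η)) := by
    refine (norm_le ((c0 K).trans (le_max_left _ _))).2 fun n => ?_
    rw [Tx]
    rcases le_total n K with hn | hn
    · exact (fb n y).trans (by rw [y1, mul_one]; exact (cm hn).trans (le_max_left _ _))
    · refine le_trans ?_ (le_max_right _ _)
      rw [fx]
      have a2 : ‖(h + g n) y‖ ≤ ‖h y‖ + ‖g n y‖ := norm_add_le _ _
      have a3 : ‖h y‖ ≤ ‖h‖ := by simpa [y1] using h.le_opNorm y
      have a4 := hK n hn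
      have a5 : c n / ‖h + g n‖ ≤ 1 / (‖h‖ + η) := div_le_div₀ zero_le_one (c1 n).le q0
        (le_trans (by have := le_max_left ‖h‖ b; linarith) (hN n))
      refine (mul_le_mul a5 (by linarith : _ ≤ ‖h‖ + η / 2) (norm_nonneg _) (by positivity)).trans
        (le_of_eq (by ring))
  rw [hy, Te] at hq
  exact absurd hq (not_le.2 (max_lt (c1 K) ((div_lt_one q0).2 (by linarith))))

theorem case2 (g : ℕ → StrongDual 𝕜 E) (g1 : ∀ n, ‖g n‖ = 1)
    (hg : ∀ x, Tendsto (fun n => g n x) atTop (𝓝 0))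
    (H : ∀ (h : StrongDual 𝕜 E) (b η : ℝ), 0 ≤ b → 0 < η →
      ∀ᶠ n in atTop, ‖h + (b : 𝕜) • g n‖ < max ‖h‖ b + η) : ¬ HasWMP 𝕜 E 𝕜 := by
  intro hW
  let ε : ℕ → ℝ := fun n => (1 / 2) ^ n / 4
  let a : ℕ → ℝ := fun n => 2 - 4 * ε n
  have ε0 : ∀ n, 0 < ε n := fun n => by positivity
  have ε1 : ∀ n, ε n ≤ 1 / 4 := fun n => by
    have : (1 / 2 : ℝ) ^ n ≤ 1 := pow_le_one₀ (by norm_num) (by norm_num)
    simp only [ε]; linarith
  have εs : ∀ n, ε (n + 1) = ε n / 2 := fun n => by simp only [ε, pow_succ]; ring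
  let I : ℕ → StrongDual 𝕜 E × List (StrongDual 𝕜 E) × List E → Prop := fun n s =>
    ‖s.1‖ ≤ a n + ε n ∧ a n - ε n ≤ ‖s.1‖ ∧ ∀ v ∈ s.2.1, ‖v + s.1‖ ≤ a n + ε n
  have step : ∀ n (s : StrongDual 𝕜 E × List (StrongDual 𝕜 E) × List E), I n s →
      ∃ (x : E) (s' : StrongDual 𝕜 E × List (StrongDual 𝕜 E) × List E), ‖x‖ = 1 ∧
        a n - 2 * ε n ≤ ‖s.1 x‖ ∧ s'.2.1 = ((ε n / 2 : ℝ) : 𝕜) • s.1 :: s.2.1 ∧
        s'.2.2 = x :: s.2.2 ∧ (∀ y ∈ s'.2.2, ‖s'.1 y - s.1 y‖ ≤ ε (n + 1)) ∧ I (n + 1) s' := by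
    rintro n ⟨h, V, X⟩ ⟨i1, i2, i3⟩
    simp only at i1 i2 i3
    have e0 := ε0 n
    have e1 := ε1 n
    have e2 := εs n
    obtain ⟨x, x1, hx⟩ := unit_pt h (a n - 2 * ε n) (by simp only [a]; linarith) (by linarith)
    have A0 : 0 ≤ a (n + 1) := by simp only [a]; linarith
    have key : ∀ u : StrongDual 𝕜 E, ‖u‖ ≤ a (n + 1) →
        ∀ᶠ k in atTop, ‖u + (a (n + 1) : 𝕜) • g k‖ ≤ a (n + 1) + ε (n + 1) := fun u hu =>
      (H u _ _ A0 (ε0 (n + 1))).mono fun k hk => by rw [max_eq_right hu] at hk; exact hk.le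
    have b1 : ‖h‖ ≤ a (n + 1) := by simp only [a] at i1 ⊢; linarith
    have k1 := key h b1
    have k2 := key (-h) (by rwa [norm_neg])
    have k3 : ∀ᶠ k in atTop, ∀ v ∈ {v | v ∈ ((ε n / 2 : ℝ) : 𝕜) • h :: V},
        ‖v + h + (a (n + 1) : 𝕜) • g k‖ ≤ a (n + 1) + ε (n + 1) := by
      refine (eventually_all_finite (List.finite_toSet _)).2 fun v hv => key _ ?_
      rcases List.mem_cons.1 hv with rfl | hv
      · refine (norm_add_le _ _).trans ?_
        rw [norm_smul, RCLike.norm_ofReal, abs_of_pos (by linarith)]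
        simp only [a] at i1 ⊢
        nlinarith
      · refine (i3 v hv).trans ?_
        simp only [a]; linarith
    have k4 : ∀ᶠ k in atTop, ∀ y ∈ {y | y ∈ x :: X}, ‖(a (n + 1) : 𝕜) * g k y‖ ≤ ε (n + 1) := by
      refine (eventually_all_finite (List.finite_toSet _)).2 fun y _ => ?_
      exact (((hg y).const_mul (a (n + 1) : 𝕜)).norm.eventually (gt_mem_nhds
        (by simpa using ε0 (n + 1)))).mono fun k hk => hk.le
    obtain ⟨k, ⟨⟨k1, k2⟩, k3⟩, k4⟩ := (((k1.and k2).and k3).and k4).exists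
    refine ⟨x, ⟨h + (a (n + 1) : 𝕜) • g k, _, _⟩, x1, hx.le, rfl, rfl, fun y hy => ?_, k1, ?_,
      fun v hv => ?_⟩
    · simpa using k4 y hy
    · have c1 := norm_add_le (h + (a (n + 1) : 𝕜) • g k) (-h + (a (n + 1) : 𝕜) • g k)
      have c2 : h + (a (n + 1) : 𝕜) • g k + (-h + (a (n + 1) : 𝕜) • g k) =
          ((2 * a (n + 1) : ℝ) : 𝕜) • g k := by
        generalize a (n + 1) = t
        ext z
        simp only [RCLike.ofReal_mul, RCLike.ofReal_ofNat, _root_.add_apply, _root_.neg_apply,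
          _root_.smul_apply, smul_eq_mul]
        ring
      rw [c2, norm_smul, g1, RCLike.norm_ofReal, abs_of_nonneg (by linarith)] at c1
      simp only
      linarith
    · simpa only [add_assoc] using k3 v hv
  choose! X nx x1 h1 h2 h3 h4 h5 using step
  let s : ℕ → StrongDual 𝕜 E × List (StrongDual 𝕜 E) × List E := fun n =>
    Nat.rec (g 0, [], []) nx n
  have hI : ∀ n, I n (s n) := by
    intro n
    induction n with
    | zero => simp only [I, s, a, ε]; norm_num [g1]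
    | succ n ih => exact h5 n _ ih
  have mV : ∀ m n, m + 1 ≤ n → ((ε m / 2 : ℝ) : 𝕜) • (s m).1 ∈ (s n).2.1 := by
    intro m n hn
    induction n, hn using Nat.le_induction with
    | base => show _ ∈ (nx m (s m)).2.1; rw [h2 m _ (hI m)]; exact List.mem_cons_self
    | succ n _ ih =>
      show _ ∈ (nx n (s n)).2.1
      rw [h2 n _ (hI n)]; exact List.mem_cons_of_mem _ ih
  have mX : ∀ m n, m ≤ n → X m (s m) ∈ (s (n + 1)).2.2 := by
    intro m n hn
    induction n, hn using Nat.le_induction with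
    | base => show _ ∈ (nx m (s m)).2.2; rw [h3 m _ (hI m)]; exact List.mem_cons_self
    | succ n _ ih =>
      show _ ∈ (nx (n + 1) (s (n + 1))).2.2
      rw [h3 _ _ (hI _)]; exact List.mem_cons_of_mem _ ih
  have lo : ∀ m n, m ≤ n → a m - 3 * ε m + ε n ≤ ‖(s n).1 (X m (s m))‖ := by
    intro m n hn
    induction n, hn using Nat.le_induction with
    | base => linarith [h1 m _ (hI m)]
    | succ n hn ih =>
      have b1 : ‖(s (n + 1)).1 (X m (s m)) - (s n).1 (X m (s m))‖ ≤ ε (n + 1) :=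
        h4 n _ (hI n) _ (mX m n hn)
      have b2 := norm_sub_norm_le ((s n).1 (X m (s m))) ((s (n + 1)).1 (X m (s m)))
      rw [norm_sub_rev] at b2
      linarith [εs n]
  have a2 : ∀ n, a n + ε n ≤ 2 := fun n => by simp only [a]; linarith [ε0 n]
  obtain ⟨U, φ, hU, φ2, hφ⟩ := JN.cluster (fun n => (s n).1) 2 fun n => (hI n).1.trans (a2 n)
  have lo' : ∀ m, 2 - 7 * ε m ≤ ‖φ (X m (s m))‖ := fun m =>
    ge_of_tendsto (hφ _).norm (hU (by
      filter_upwards [eventually_ge_atTop m] with n hn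
      have := lo m n hn
      simp only [a] at this
      linarith [ε0 n]))
  have up : ∀ m, ‖φ (X m (s m))‖ ≤ ‖φ‖ := fun m => by
    simpa [x1 m _ (hI m)] using φ.le_opNorm (X m (s m))
  have εt : Tendsto (fun m => 2 - 7 * ε m) atTop (𝓝 2) := by
    simpa only [zero_div, mul_zero, sub_zero] using
      (((tendsto_pow_atTop_nhds_zero_of_lt_one (by norm_num : (0 : ℝ) ≤ 1 / 2)
      (by norm_num)).div_const 4).const_mul 7).const_sub 2
  have φe : ‖φ‖ = 2 := le_antisymm φ2 (le_of_tendsto' εt fun m => (lo' m).trans (up m))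
  have mt : Tendsto (fun m => ‖φ (X m (s m))‖) atTop (𝓝 2) :=
    tendsto_of_tendsto_of_tendsto_of_le_of_le εt tendsto_const_nhds lo' fun m => (up m).trans φ2
  obtain ⟨y, y1, hy⟩ := hW φ ⟨fun m => X m (s m), fun m => x1 m _ (hI m), by rw [φe]; exact mt,
    fun hh => by simpa using tendsto_nhds_unique (hh φ).norm mt⟩
  have key : ∀ m, RCLike.re (starRingEnd 𝕜 (φ y) * (s m).1 y) ≤ 0 := by
    intro m
    have b1 : ‖((ε m / 2 : ℝ) : 𝕜) * (s m).1 y + φ y‖ ≤ ‖φ y‖ := by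
      rw [hy, φe]
      refine le_of_tendsto ((hφ y).const_add _).norm (hU ?_)
      filter_upwards [eventually_ge_atTop (m + 1)] with n hn
      have := ((((ε m / 2 : ℝ) : 𝕜) • (s m).1 + (s n).1).le_of_opNorm_le
        (((hI n).2.2 _ (mV m n hn)).trans (a2 n)) y)
      simpa [y1] using this
    have b2 := RCLike.re_le_norm (starRingEnd 𝕜 (φ y) * (((ε m / 2 : ℝ) : 𝕜) * (s m).1 y + φ y))
    rw [norm_mul, RCLike.norm_conj, mul_add, map_add, RCLike.conj_mul, mul_left_comm,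
      RCLike.re_ofReal_mul] at b2
    have b3 := mul_le_mul_of_nonneg_left b1 (norm_nonneg (φ y))
    have b4 : RCLike.re ((‖φ y‖ : 𝕜) ^ 2) = ‖φ y‖ * ‖φ y‖ := by
      rw [← RCLike.ofReal_pow, RCLike.ofReal_re, sq]
    have := ε0 m
    nlinarith
  have := le_of_tendsto' ((RCLike.continuous_re.tendsto _).comp
    ((hφ y).const_mul (starRingEnd 𝕜 (φ y)))) key
  rw [RCLike.conj_mul, ← RCLike.ofReal_pow, RCLike.ofReal_re, hy, φe] at this
  norm_num at this

theorem main (h1 : HasWMP 𝕜 E 𝕜) (h2 : HasWMP 𝕜 E (ℕ →ᵇ 𝕜)) : FiniteDimensional 𝕜 E := by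
  by_contra hE
  obtain ⟨g, g1, hg⟩ := JN.jn' 𝕜 E hE
  refine case2 g g1 hg (fun h b η b0 η0 => ?_) h1
  by_contra hh
  obtain ⟨u, hu, hu'⟩ := extraction_of_frequently_atTop (not_eventually.1 hh)
  refine case1 h (fun n => (b : 𝕜) • g (u n)) b η η0 b0 (fun n => ?_) (fun x => ?_)
    (fun n => not_lt.1 (hu' n)) h2
  · rw [norm_smul, g1, RCLike.norm_ofReal, abs_of_nonneg b0, mul_one]
  · simpa using ((hg x).comp hu.tendsto_atTop).const_mul (b : 𝕜)

end Pool.Agent.H91.WMP
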