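import Mathlib

set_option autoImplicit false

namespace H91.WOH

/-- Weakly octahedral. -/
def WeakOcta (X : Type*) [NormedAddCommGroup X] [NormedSpace ℝ X] : Prop :=
  ∀ E : Submodule ℝ X, FiniteDimensional ℝ E → ∀ f : StrongDual ℝ X, ‖f‖ ≤ 1 → ∀ ε > (0 : ℝ),
    ∃ y : X, ‖y‖ = 1 ∧ ∀ x ∈ E, (1 - ε) * (|f x| + ‖y‖) ≤ ‖x + y‖

/-- Property (P). -/
def PropP (X : Type*) [NormedAddCommGroup X] [NormedSpace ℝ X] : Prop :=
  ∀ ε > (0 : ℝ), ∀ n : ℕ, 1 ≤ n → ∀ x : Fin n → X, (∀ i, ‖x i‖ = 1) →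
    ∀ f : StrongDual ℝ X, ‖f‖ ≤ 1 → ∃ y : X, ‖y‖ = 1 ∧ ∀ i, (1 - ε) * (|f (x i)| + 1) ≤ ‖x i + y‖

variable {X : Type*} [NormedAddCommGroup X] [NormedSpace ℝ X]

lemma finset_form (h : PropP X) {ε : ℝ} (hε : 0 < ε) (s : Finset X) (hs : s.Nonempty)
    (h1 : ∀ x ∈ s, ‖x‖ = 1) (f : StrongDual ℝ X) (hf : ‖f‖ ≤ 1) :
    ∃ y : X, ‖y‖ = 1 ∧ ∀ x ∈ s, (1 - ε) * (|f x| + 1) ≤ ‖x + y‖ := by
  obtain ⟨y, hy, hy'⟩ := h ε hε s.card hs.card_pos (fun i => (s.equivFin.symm i : X))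
    (fun i => h1 _ (s.equivFin.symm i).2) f hf
  refine ⟨y, hy, fun x hx => ?_⟩
  simpa using hy' (s.equivFin ⟨x, hx⟩)

lemma step {f : StrongDual ℝ X} (hf : ‖f‖ ≤ 1) {a w y : X} {δ η : ℝ} (hδ : 0 < δ) (hη : 0 < η)
    (hδ1 : δ ≤ 1 / 2) (ha : ‖a‖ = 1) (hw : δ * ‖w‖ ≤ 1 / 2) (hy : ‖y‖ = 1)
    (h : (1 - η) * (|f (‖a + δ • w‖⁻¹ • (a + δ • w))| + 1) ≤ ‖‖a + δ • w‖⁻¹ • (a + δ • w) + y‖) :
    |f (a + δ • w)| - 1 + δ - 3 * η ≤ δ * ‖w + y‖ := by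
  set z := a + δ • w with hz
  have h0 : ‖δ • w‖ ≤ 1 / 2 := by rwa [norm_smul, Real.norm_of_nonneg hδ.le]
  have h1 : 1 / 2 ≤ ‖z‖ := by
    have := norm_sub_le z (δ • w)
    rw [hz, add_sub_cancel_right, ← hz] at this
    linarith
  have h2 : ‖z‖ ≤ 3 / 2 := by have := norm_add_le a (δ • w); linarith
  have h3 : |f z| ≤ ‖z‖ := by
    have := f.le_opNorm z
    rw [Real.norm_eq_abs] at this
    nlinarith [norm_nonneg z]
  have hz0 : 0 < ‖z‖ := by linarith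
  have h4 : ‖z‖ * ‖‖z‖⁻¹ • z + y‖ = ‖a + δ • (w + y) + (‖z‖ - δ) • y‖ := by
    rw [← Real.norm_of_nonneg hz0.le, ← norm_smul, Real.norm_of_nonneg hz0.le, smul_add, smul_smul,
      mul_inv_cancel₀ hz0.ne', one_smul]
    congr 1
    rw [smul_add, sub_smul, hz]; abel
  have h5 : ‖a + δ • (w + y) + (‖z‖ - δ) • y‖ ≤ 1 + δ * ‖w + y‖ + (‖z‖ - δ) := by
    refine (norm_add₃_le).trans (le_of_eq ?_)
    rw [ha, norm_smul, norm_smul, hy, Real.norm_of_nonneg hδ.le, Real.norm_of_nonneg (by linarith),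
      mul_one]
  have h6 : ‖z‖ * |f (‖z‖⁻¹ • z)| = |f z| := by
    rw [map_smul, smul_eq_mul, abs_mul, abs_of_pos (inv_pos.mpr hz0), ← mul_assoc,
      mul_inv_cancel₀ hz0.ne', one_mul]
  have h7 := mul_le_mul_of_nonneg_left h hz0.le
  have h8 : ‖z‖ * ((1 - η) * (|f (‖z‖⁻¹ • z)| + 1)) = (1 - η) * (|f z| + ‖z‖) := by
    rw [← h6]; ring
  nlinarith

lemma core (h : PropP X) (E : Submodule ℝ X) [FiniteDimensional ℝ E] (f : StrongDual ℝ X)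
    (hf : ‖f‖ = 1) {ε : ℝ} (hε : 0 < ε) :
    ∃ y : X, ‖y‖ = 1 ∧ ∀ x ∈ E, (1 - ε) * (|f x| + 1) ≤ ‖x + y‖ := by
  classical
  set δ : ℝ := min (1 / 2) (ε / 4) with hδ
  have hδ0 : 0 < δ := by positivity
  have hδ1 : δ ≤ 1 / 2 := min_le_left _ _
  have hδ2 : δ ≤ ε / 4 := min_le_right _ _
  set η : ℝ := δ * (ε / 8) with hη
  have hη0 : 0 < η := by positivity
  obtain ⟨a, ha, hfa⟩ : ∃ a : X, ‖a‖ = 1 ∧ 1 - η ≤ f a := by
    obtain ⟨b, hb, hfb⟩ := f.exists_lt_apply_of_lt_opNorm (r := max (1 - η) 0)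
      (by rw [hf]; exact max_lt (by linarith) one_pos)
    have hb0 : b ≠ 0 := by rintro rfl; simp at hfb
    have hb1 : 0 < ‖b‖ := norm_pos_iff.mpr hb0
    have h1 : 1 ≤ ‖b‖⁻¹ := (one_le_inv₀ hb1).mpr hb.le
    have h2 := (le_max_left _ _).trans_lt hfb
    rw [Real.norm_eq_abs] at h2
    rcases le_total 0 (f b) with h3 | h3
    · refine ⟨‖b‖⁻¹ • b, norm_smul_inv_norm hb0, ?_⟩
      rw [abs_of_nonneg h3] at h2
      rw [map_smul, smul_eq_mul]; nlinarith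
    · refine ⟨-(‖b‖⁻¹ • b), by rw [norm_neg]; exact norm_smul_inv_norm hb0, ?_⟩
      rw [abs_of_nonpos h3] at h2
      rw [map_neg, map_smul, smul_eq_mul]; nlinarith
  obtain ⟨t, ht1, ht2, ht3⟩ := finite_cover_balls_of_compact
    (isCompact_closedBall (0 : E) (2 / ε)) (by positivity : 0 < ε / 4)
  have hw : ∀ w ∈ t, δ * ‖(w : X)‖ ≤ 1 / 2 := by
    intro w hw
    have h1 : ‖(w : X)‖ ≤ 2 / ε := by simpa using ht1 hw
    calc δ * ‖(w : X)‖ ≤ ε / 4 * (2 / ε) := by gcongr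
      _ = 1 / 2 := by field_simp; norm_num
  have hn : ∀ (b : X), ‖b‖ = 1 → ∀ w ∈ t, ‖‖b + δ • (w : X)‖⁻¹ • (b + δ • (w : X))‖ = 1 := by
    intro b hb w hw'
    refine norm_smul_inv_norm fun h0 => ?_
    have h1 := congrArg norm (eq_neg_of_add_eq_zero_left h0)
    rw [hb, norm_neg, norm_smul, Real.norm_of_nonneg hδ0.le] at h1
    linarith [hw w hw']
  obtain ⟨y, hy, hy'⟩ := finset_form h hη0 (insert a
    (ht2.toFinset.image (fun w : E => ‖a + δ • (w : X)‖⁻¹ • (a + δ • (w : X))) ∪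
      ht2.toFinset.image (fun w : E => ‖-a + δ • (w : X)‖⁻¹ • (-a + δ • (w : X)))))
    (Finset.insert_nonempty _ _) (by
      simp only [Finset.mem_insert, Finset.mem_union, Finset.mem_image, Set.Finite.mem_toFinset]
      rintro x (rfl | ⟨w, hw', rfl⟩ | ⟨w, hw', rfl⟩)
      exacts [ha, hn a ha w hw', hn (-a) (by rwa [norm_neg]) w hw']) f hf.le
  simp only [Finset.mem_insert, Finset.mem_union, Finset.mem_image, Set.Finite.mem_toFinset] at hy'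
  refine ⟨y, hy, fun x hx => ?_⟩
  have hfx : ∀ x, |f x| ≤ ‖x‖ := fun x => by simpa [hf] using f.le_opNorm x
  by_cases hε1 : 1 ≤ ε
  · exact le_trans (mul_nonpos_of_nonpos_of_nonneg (by linarith) (by positivity)) (norm_nonneg _)
  push Not at hε1
  by_cases hR : ‖x‖ ≤ 2 / ε
  · obtain ⟨w, hwt, hxw⟩ : ∃ w ∈ t, ‖x - (w : X)‖ < ε / 4 := by
      have := ht3 (show (⟨x, hx⟩ : E) ∈ Metric.closedBall 0 (2 / ε) by simpa using hR)
      simp only [Set.mem_iUnion, Metric.mem_ball, dist_eq_norm] at this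
      obtain ⟨w, h1, h2⟩ := this
      exact ⟨w, h1, h2⟩
    have s1 := step hf.le hδ0 hη0 hδ1 ha (hw w hwt) hy (hy' _ (Or.inr (Or.inl ⟨w, hwt, rfl⟩)))
    have s2 := step hf.le hδ0 hη0 hδ1 (by rwa [norm_neg] : ‖-a‖ = 1) (hw w hwt) hy
      (hy' _ (Or.inr (Or.inr ⟨w, hwt, rfl⟩)))
    have s3 := le_abs_self (f (a + δ • (w : X)))
    have s4 := neg_le_abs (f (-a + δ • (w : X)))
    simp only [map_add, map_neg, map_smul, smul_eq_mul] at s1 s2 s3 s4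
    have s5 : δ * (|f w| + 1 - ε / 2) ≤ δ * ‖(w : X) + y‖ := by
      rcases abs_cases (f w) with h1 | h1 <;> rw [h1.1] <;> nlinarith
    have s6 := le_of_mul_le_mul_left s5 hδ0
    have s7 : ‖(w : X) + y‖ ≤ ‖x + y‖ + ‖x - w‖ := by
      have := norm_sub_le (x + y) (x - w)
      rwa [show x + y - (x - w) = w + y by abel] at this
    have s8 : |f x| ≤ |f w| + ‖x - w‖ := by
      have h1 := abs_add_le (f w) (f (x - w))
      rw [← map_add, add_sub_cancel] at h1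
      linarith [hfx (x - w)]
    nlinarith [abs_nonneg (f x)]
  · push Not at hR
    rw [div_lt_iff₀ hε] at hR
    have h1 := norm_sub_le (x + y) y
    rw [add_sub_cancel_right] at h1
    nlinarith [hfx x]

theorem main : ∀ (X : Type*) [NormedAddCommGroup X] [NormedSpace ℝ X] [CompleteSpace X]
    [Nontrivial X], WeakOcta X ↔ PropP X := by
  intro X _ _ _ _
  refine ⟨fun h ε hε n _ x _ f hf => ?_, fun h E hE f hf ε hε => ?_⟩
  · obtain ⟨y, hy, hy'⟩ := h (Submodule.span ℝ (Set.range x))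
      (FiniteDimensional.span_of_finite ℝ (Set.finite_range x)) f hf ε hε
    exact ⟨y, hy, fun i => by simpa [hy] using hy' (x i) (Submodule.subset_span ⟨i, rfl⟩)⟩
  · obtain ⟨g, hg, hg'⟩ : ∃ g : StrongDual ℝ X, ‖g‖ = 1 ∧ ∀ x, |f x| ≤ |g x| := by
      by_cases h0 : f = 0
      · obtain ⟨x, hx⟩ := exists_ne (0 : X)
        obtain ⟨g, hg, -⟩ := exists_dual_vector ℝ x (norm_ne_zero_iff.mpr hx)
        exact ⟨g, hg, fun x => by simp [h0]⟩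
      · have h1 : 0 < ‖f‖ := norm_pos_iff.mpr h0
        refine ⟨‖f‖⁻¹ • f, norm_smul_inv_norm h0, fun x => ?_⟩
        rw [ContinuousLinearMap.smul_apply, smul_eq_mul, abs_mul, abs_of_pos (inv_pos.mpr h1)]
        exact le_mul_of_one_le_left (abs_nonneg _) ((one_le_inv₀ h1).mpr hf)
    obtain ⟨y, hy, hy'⟩ := core h E g hg hε
    refine ⟨y, hy, fun x hx => ?_⟩
    by_cases hε1 : 1 ≤ ε
    · exact le_trans (mul_nonpos_of_nonpos_of_nonneg (by linarith) (by positivity)) (norm_nonneg _)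
    · refine le_trans ?_ (hy' x hx)
      rw [hy]
      exact mul_le_mul_of_nonneg_left (by linarith [hg' x]) (by linarith)

end H91.WOH
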