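import Mathlib

set_option autoImplicit false

namespace H91.WShift
open Finset

noncomputable abbrev L2 := lp (fun _ : ℕ => ℂ) 2

lemma sum_le (x : L2) (s : Finset ℕ) : ∑ i ∈ s, ‖x i‖ ^ 2 ≤ ‖x‖ ^ 2 := by
  have := lp.sum_rpow_le_norm_rpow (p := 2) (by norm_num) x s
  simpa using this

lemma aux (d : ℕ → ℂ) (σ : ℕ → ℕ) (hd : ∀ n, ‖d n‖ ≤ 1) (hσ : Set.InjOn σ {n | d n ≠ 0})
    (x : L2) (s : Finset ℕ) : ∑ i ∈ s, ‖d i * x (σ i)‖ ^ 2 ≤ ‖x‖ ^ 2 := by
  classical
  rw [← Finset.sum_filter_of_ne (p := fun i => d i ≠ 0) (by intro i _ h h0; simp [h0] at h)]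
  refine le_trans ?_ (sum_le x ((s.filter fun i => d i ≠ 0).image σ))
  rw [Finset.sum_image (s := s.filter fun i => d i ≠ 0) (g := σ)
    (fun a ha b hb h => hσ (mem_filter.1 ha).2 (mem_filter.1 hb).2 h)]
  refine Finset.sum_le_sum fun i _ => pow_le_pow_left₀ (norm_nonneg _) ?_ 2
  rw [norm_mul]; exact mul_le_of_le_one_left (norm_nonneg _) (hd i)

/-- weighted composition operator `x ↦ (d n * x (σ n))` -/
noncomputable def wc (d : ℕ → ℂ) (σ : ℕ → ℕ) (hd : ∀ n, ‖d n‖ ≤ 1)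
    (hσ : Set.InjOn σ {n | d n ≠ 0}) : L2 →L[ℂ] L2 :=
  LinearMap.mkContinuous
    { toFun := fun x => ⟨fun n => d n * x (σ n), memℓp_gen' (C := ‖x‖ ^ 2) fun s => by
        simpa using aux d σ hd hσ x s⟩
      map_add' := fun x y => by ext n; simp [mul_add]
      map_smul' := fun c x => by ext n; simp; ring } 1 fun x => by
    rw [one_mul]
    refine lp.norm_le_of_forall_sum_le (p := 2) (by norm_num) (norm_nonneg _) fun s => ?_
    simpa using aux d σ hd hσ x s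

lemma wc_apply (d σ hd hσ) (x : L2) (n : ℕ) : wc d σ hd hσ x n = d n * x (σ n) := rfl

lemma wc_norm (d σ hd hσ) : ‖wc d σ hd hσ‖ ≤ 1 :=
  LinearMap.mkContinuous_norm_le _ zero_le_one _

noncomputable def S : L2 →L[ℂ] L2 := wc (fun n => if n = 0 then 0 else 1) (fun n => n - 1)
  (fun n => by split_ifs <;> simp) (fun a ha b hb h => by simp at ha hb h; omega)
noncomputable def R : L2 →L[ℂ] L2 := wc (fun _ => 1) (fun n => n + 1) (by simp)
  (fun a _ b _ h => by simpa using h)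

lemma S_zero (x : L2) : S x 0 = 0 := by simp [S, wc_apply]
lemma S_succ (x : L2) (n : ℕ) : S x (n + 1) = x n := by simp [S, wc_apply]
lemma R_apply (x : L2) (n : ℕ) : R x n = x (n + 1) := by simp [R, wc_apply]
lemma RS : R * S = 1 := by ext x n; simp [R_apply, S_succ]
lemma S_norm : ‖S‖ ≤ 1 := wc_norm _ _ _ _
lemma R_norm : ‖R‖ ≤ 1 := wc_norm _ _ _ _

end H91.WShift
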