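import Mathlib

set_option autoImplicit false

namespace H91.WSlice
open Set MeasureTheory Pointwise

/-- `W_g(x) = sum_k b^(-alpha k) g(b^k x)` -/
noncomputable def W (b : ℕ) (α : ℝ) (g : ℝ → ℝ) (x : ℝ) : ℝ :=
  ∑' k : ℕ, (b : ℝ) ^ (-α * k) * g ((b : ℝ) ^ k * x)
/-- the graph of `W_g` over `[0,1]` in the Euclidean plane -/
def Gr (b : ℕ) (α : ℝ) (g : ℝ → ℝ) : Set (EuclideanSpace ℝ (Fin 2)) :=
  {p | p 0 ∈ Icc (0 : ℝ) 1 ∧ p 1 = W b α g (p 0)}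
/-- `P_theta(x,y) = x cos theta + y sin theta` -/
noncomputable def Pr (θ : ℝ) (p : EuclideanSpace ℝ (Fin 2)) : ℝ :=
  p 0 * Real.cos θ + p 1 * Real.sin θ
/-- all non-vertical non-empty slices have Hausdorff dimension `1 - alpha` -/
def Good (b : ℕ) (α : ℝ) (g : ℝ → ℝ) : Prop :=
  ∀ θ ∈ Ico 0 (2 * Real.pi), Real.sin θ ≠ 0 → ∀ t ∈ Pr θ '' Gr b α g,
    dimH (Gr b α g ∩ Pr θ ⁻¹' {t}) = ENNReal.ofReal (1 - α)
/-- shy sets -/
def Shy {X : Type} [NormedAddCommGroup X] [MeasurableSpace X] (A : Set X) : Prop :=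
  ∃ (μ : Measure X) (B : Set X), MeasurableSet B ∧ A ⊆ B ∧
    (∃ K : Set X, IsCompact K ∧ 0 < μ K ∧ μ K < ⊤) ∧ ∀ x : X, μ ((fun y => x + y) '' B) = 0

lemma cont {b : ℕ} (hb : 2 ≤ b) {α : ℝ} (hα : 0 < α) {g : ℝ → ℝ} (hg : Continuous g)
    (hp : Function.Periodic g 1) : Continuous (W b α g) := by
  obtain ⟨C, hC⟩ := isBounded_iff_forall_norm_le.1 (hp.isBounded_of_continuous one_ne_zero hg)
  have hb1 : (1 : ℝ) < b := by exact_mod_cast hb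
  refine continuous_tsum (u := fun k => ((b : ℝ) ^ (-α)) ^ k * C) (fun k => by fun_prop)
    ((summable_geometric_of_lt_one (by positivity)
      (Real.rpow_lt_one_of_one_lt_of_neg hb1 (by linarith))).mul_right _) fun k x => ?_
  rw [norm_mul, Real.rpow_mul (by positivity), Real.rpow_natCast, Real.norm_of_nonneg (by positivity)]
  exact mul_le_mul_of_nonneg_left (hC _ ⟨_, rfl⟩) (by positivity)

lemma notgood {b : ℕ} (hb : 2 ≤ b) {α : ℝ} (hα : 0 < α) {g : ℝ → ℝ} (hg : Continuous g)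
    (hp : Function.Periodic g 1) : ∃ θ ∈ Ico 0 (2 * Real.pi), Real.sin θ ≠ 0 ∧
      ∃ p ∈ Gr b α g, Gr b α g ∩ Pr θ ⁻¹' {Pr θ p} = {p} := by
  have hW := cont hb hα hg hp
  obtain ⟨m, -, hm⟩ := isCompact_Icc.exists_isMinOn (nonempty_Icc.2 zero_le_one) hW.continuousOn
  set R := 1 - W b α g m
  obtain ⟨a, ha, hx⟩ := isCompact_Icc.exists_isMaxOn (nonempty_Icc.2 zero_le_one)
    (f := fun x => x ^ 2 + (W b α g x + R) ^ 2) (by fun_prop)
  have hc : 0 < W b α g a + R := by have := hm ha; simp only [mem_setOf_eq] at this; simp only [R]; linarith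
  set z : ℂ := ⟨a, W b α g a + R⟩
  have hz : z ≠ 0 := fun h => hc.ne' (congrArg Complex.im h)
  have hn : 0 < ‖z‖ := norm_pos_iff.2 hz
  refine ⟨z.arg, ⟨Complex.arg_nonneg_iff.2 hc.le, by linarith [Complex.arg_le_pi z, Real.pi_pos]⟩,
    by rw [Complex.sin_arg]; exact (div_pos hc hn).ne', !₂[a, W b α g a], ⟨ha, rfl⟩, ?_⟩
  refine eq_singleton_iff_unique_mem.2 ⟨⟨⟨ha, rfl⟩, rfl⟩, fun p ⟨⟨h0, h1⟩, h2⟩ => ?_⟩
  have h3 := hx h0
  simp only [mem_preimage, Pr, mem_singleton_iff, Complex.sin_arg, Complex.cos_arg hz, z, h1] at h2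
  simp only [mem_setOf_eq] at h3
  simp at h2
  field_simp at h2
  rw [div_left_inj' hn.ne'] at h2
  have h4 : p 0 = a := by
    have : (p 0 - a) ^ 2 ≤ 0 := by nlinarith [sq_nonneg (W b α g (p 0) - W b α g a)]
    nlinarith [sq_nonneg (p 0 - a)]
  ext i; fin_cases i
  · simpa using h4
  · simpa [h4] using h1

theorem main : ∀ (b : ℕ) (α : ℝ), 2 ≤ b → 0 < α → α < 1 →
    (∀ g : ℝ → ℝ, Continuous g → Function.Periodic g 1 → ¬ H91.WSlice.Good b α g) ∧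
    ∀ (X : Type) [NormedAddCommGroup X] [MeasurableSpace X] [BorelSpace X] (ι : X → ℝ → ℝ),
      (∀ x, (∃ L, LipschitzWith L (ι x)) ∧ Function.Periodic (ι x) 1) →
      ¬ ∃ A : Set X, H91.WSlice.Shy Aᶜ ∧ ∀ x ∈ A, H91.WSlice.Good b α (ι x) := by
  intro b α hb h0 h1
  have key : ∀ g : ℝ → ℝ, Continuous g → Function.Periodic g 1 → ¬ Good b α g := by
    intro g hg hp h
    obtain ⟨θ, hθ, hs, p, hp, e⟩ := notgood hb h0 hg hp
    have := h θ hθ hs _ ⟨p, hp, rfl⟩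
    rw [e, dimH_singleton] at this
    exact (ENNReal.ofReal_pos.2 (by linarith)).ne this
  refine ⟨key, fun X _ _ _ ι hι ⟨A, ⟨μ, B, _, hB, ⟨K, _, hK, _⟩, hμ⟩, hA⟩ => ?_⟩
  refine hK.ne' (measure_mono_null (fun y _ => ?_) (hμ 0))
  refine ⟨y, hB fun hy => ?_, zero_add y⟩
  obtain ⟨⟨L, hL⟩, hp⟩ := hι y
  exact key _ hL.continuous hp (hA y hy)

end H91.WSlice
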