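import Mathlib

set_option autoImplicit false

namespace H91.Weyl

open Complex Set Filter Topology MeasureTheory Metric
open scoped Convolution ContDiff

/-- Weyl's lemma for continuous weak solutions of the Cauchy-Riemann equations. -/
theorem weyl {Ω : Set ℂ} (hΩ : IsOpen Ω) {f : ℂ → ℂ} (hf : ContinuousOn f Ω)
    (hw : ∀ φ : ℂ → ℝ, ContDiff ℝ ∞ φ → HasCompactSupport φ → tsupport φ ⊆ Ω →
      ∫ x in Ω, fderiv ℝ φ x I • f x = I * ∫ x in Ω, fderiv ℝ φ x 1 • f x) :
    DifferentiableOn ℂ f Ω := by
  intro z0 hz0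
  obtain ⟨ε, hε, hb⟩ := Metric.isOpen_iff.mp hΩ z0 hz0
  set r := ε / 4 with hr
  have hr0 : 0 < r := by positivity
  have hsub : closedBall z0 (3 * r) ⊆ Ω := (closedBall_subset_ball (by linarith)).trans hb
  let χ : ContDiffBump z0 := ⟨2 * r, 3 * r, by positivity, by linarith⟩
  let F : ℂ → ℂ := fun x => χ x • f x
  have hts : tsupport F ⊆ closedBall z0 (3 * r) :=
    (tsupport_smul_subset_left _ _).trans (by rw [χ.tsupport_eq])
  have hFc : Continuous F :=
    (χ.continuous.continuousOn.smul hf).continuous_of_tsupport_subset hΩ (hts.trans hsub)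
  have hFs : HasCompactSupport F :=
    (isCompact_closedBall z0 (3 * r)).of_isClosed_subset (isClosed_tsupport _) hts
  have hFf : ∀ x ∈ closedBall z0 (2 * r), F x = f x := fun x hx => by
    simp only [F]; rw [χ.one_of_mem_closedBall hx, one_smul]
  let ρ : ℕ → ContDiffBump (0:ℂ) := fun n => ⟨r / (n + 1) / 2, r / (n + 1), by positivity,
    half_lt_self (by positivity)⟩
  let L : ℂ →L[ℝ] ℝ →L[ℝ] ℂ := (ContinuousLinearMap.lsmul ℝ ℝ).flip
  let g : ℕ → ℂ → ℂ := fun n => F ⋆[L, volume] (ρ n).normed volume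
  have hg : ∀ n, DifferentiableOn ℂ (g n) (ball z0 r) := by
    intro n x hx
    have hc : ContDiff ℝ ∞ ((ρ n).normed volume) := (ρ n).contDiff_normed
    have hc1 : ContDiff ℝ 1 ((ρ n).normed volume) := (ρ n).contDiff_normed
    have hd := (ρ n).hasCompactSupport_normed.hasFDerivAt_convolution_right L
      (hFc.locallyIntegrable (μ := volume)) hc1 x
    let φ : ℂ → ℝ := fun t => (ρ n).normed volume (x - t)
    have hφ1 : ContDiff ℝ ∞ φ := hc.comp (contDiff_const.sub contDiff_id)
    have hφ3 : tsupport φ ⊆ closedBall z0 (2 * r) := by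
      refine closure_minimal (fun t ht => ?_) isClosed_closedBall
      have h1 : x - t ∈ Function.support ((ρ n).normed volume) := ht
      rw [(ρ n).support_normed_eq, mem_ball, dist_zero_right] at h1
      have h2 : (ρ n).rOut ≤ r := div_le_self hr0.le (by linarith [(Nat.cast_nonneg n : (0:ℝ) ≤ n)])
      rw [mem_ball] at hx
      rw [mem_closedBall]
      have := dist_triangle_left t z0 x
      rw [dist_eq_norm x t] at this
      linarith
    have hφ2 : HasCompactSupport φ :=
      (isCompact_closedBall z0 (2 * r)).of_isClosed_subset (isClosed_tsupport _) hφ3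
    have hφ4 : tsupport φ ⊆ Ω := hφ3.trans ((closedBall_subset_closedBall (by linarith)).trans hsub)
    have key : ∀ v, fderiv ℝ (g n) x v = -∫ t in Ω, fderiv ℝ φ t v • f t := by
      intro v
      rw [hd.fderiv, convolution_precompR_apply L hFc.locallyIntegrable
        ((ρ n).hasCompactSupport_normed.fderiv ℝ) (hc1.continuous_fderiv one_ne_zero), convolution_def,
        setIntegral_eq_integral_of_forall_compl_eq_zero (fun t ht => by
          rw [fderiv_of_notMem_tsupport ℝ (fun h => ht (hφ4 h))]; simp), ← integral_neg]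
      congr 1; funext t
      have h1 : HasFDerivAt φ ((fderiv ℝ ((ρ n).normed volume) (x - t)).comp
          (-ContinuousLinearMap.id ℝ ℂ)) t :=
        (hc1.differentiable one_ne_zero _).hasFDerivAt.comp t ((hasFDerivAt_id t).const_sub x)
      have h2 : fderiv ℝ φ t v = -fderiv ℝ ((ρ n).normed volume) (x - t) v := by
        rw [h1.fderiv]; simp
      by_cases ht : t ∈ tsupport φ
      · rw [← hFf t (hφ3 ht), h2]; simp [L]
      · have h3 : fderiv ℝ φ t v = 0 := by rw [fderiv_of_notMem_tsupport ℝ ht]; simp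
        have h4 : fderiv ℝ ((ρ n).normed volume) (x - t) v = 0 := by linarith
        rw [h3, h4]; simp
    refine (differentiableAt_complex_iff_differentiableAt_real.mpr
      ⟨hd.differentiableAt, ?_⟩).differentiableWithinAt
    rw [key, key, hw φ hφ1 hφ2 hφ4]; simp
  have hu : TendstoUniformly g F atTop := by
    refine Metric.tendstoUniformly_iff.mpr fun η hη => ?_
    obtain ⟨δ, hδ, hδ'⟩ := Metric.uniformContinuous_iff.mp
      (hFs.uniformContinuous_of_continuous hFc) (η / 2) (half_pos hη)
    have h1 : Tendsto (fun n : ℕ => r / ((n:ℝ) + 1)) atTop (𝓝 0) :=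
      tendsto_const_nhds.div_atTop (tendsto_natCast_atTop_atTop.atTop_add tendsto_const_nhds)
    filter_upwards [h1.eventually (gt_mem_nhds hδ)] with n hn x
    have h2 := (ρ n).dist_normed_convolution_le (μ := volume) (x₀ := x) (ε := η / 2)
      hFc.aestronglyMeasurable (fun y hy => (hδ' ((mem_ball.mp hy).trans hn)).le)
    have e : g n = (ρ n).normed volume ⋆[ContinuousLinearMap.lsmul ℝ ℝ, volume] F :=
      convolution_flip _
    rw [dist_comm, e]; linarith
  have hF : DifferentiableOn ℂ F (ball z0 r) :=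
    (hu.tendstoUniformlyOn.tendstoLocallyUniformlyOn).differentiableOn (Eventually.of_forall hg)
      isOpen_ball
  refine ((hF.differentiableAt (ball_mem_nhds z0 hr0)).congr_of_eventuallyEq ?_).differentiableWithinAt
  filter_upwards [closedBall_mem_nhds z0 (show 0 < 2 * r by positivity)] with x hx
  exact (hFf x hx).symm

/-- Classical derivatives are weak derivatives. -/
theorem weak_of_C1 {Ω : Set ℂ} (hΩ : IsOpen Ω) {f : ℂ → ℂ} (hf : ContDiffOn ℝ 1 f Ω)
    (φ : ℂ → ℝ) (h1 : ContDiff ℝ ∞ φ) (h2 : HasCompactSupport φ) (h3 : tsupport φ ⊆ Ω) (v : ℂ) :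
    ∫ x in Ω, fderiv ℝ φ x v • f x = -∫ x in Ω, φ x • fderiv ℝ f x v := by
  have hc1 : ContDiff ℝ 1 φ := h1.of_le (by simp)
  have hD : ContinuousOn (fun x => fderiv ℝ f x v) Ω :=
    (hf.continuousOn_fderiv_of_isOpen hΩ le_rfl).clm_apply continuousOn_const
  have I0 : ∀ (ψ : ℂ → ℝ) (G : ℂ → ℂ), Continuous ψ → tsupport ψ ⊆ tsupport φ → ContinuousOn G Ω →
      Integrable (fun x => ψ x • G x) := by
    intro ψ G a1 a2 a3
    have a4 : tsupport (fun x => ψ x • G x) ⊆ tsupport φ := (tsupport_smul_subset_left _ _).trans a2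
    exact ((a1.continuousOn.smul a3).continuous_of_tsupport_subset hΩ
      (a4.trans h3)).integrable_of_hasCompactSupport
      (IsCompact.of_isClosed_subset h2 (isClosed_tsupport _) a4)
  have key := integral_smul_fderiv_eq_neg_fderiv_smul_of_integrable (μ := volume) (𝕜 := ℝ)
    (f := φ) (g := f) (v := v)
    (I0 _ _ ((hc1.continuous_fderiv one_ne_zero).clm_apply continuous_const)
      (tsupport_fderiv_apply_subset ℝ v) hf.continuousOn)
    (I0 _ _ h1.continuous subset_rfl hD) (I0 _ _ h1.continuous subset_rfl hf.continuousOn)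
    (fun x _ => hc1.differentiable one_ne_zero x)
    (fun x hx => (hf.differentiableOn one_ne_zero).differentiableAt (hΩ.mem_nhds (h3 hx)))
  rw [setIntegral_eq_integral_of_forall_compl_eq_zero (fun t ht => by
      rw [fderiv_of_notMem_tsupport ℝ (fun h => ht (h3 h))]; simp),
    setIntegral_eq_integral_of_forall_compl_eq_zero (fun t ht => by
      rw [image_eq_zero_of_notMem_tsupport (fun h => ht (h3 h))]; simp), key, neg_neg]

end H91.Weyl
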