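import Mathlib

set_option autoImplicit false

namespace H91.Witt
open scoped TensorProduct
open Polynomial

/-- the uniform structure defined by all submultiplicative seminorms -/
@[reducible] noncomputable def am (A : Type) [Ring A] [Algebra ℂ A] : UniformSpace A :=
  ⨅ p : {p : Seminorm ℂ A // ∀ x y, p (x * y) ≤ p x * p y},
    p.1.toAddGroupSeminorm.toSeminormedAddCommGroup.toPseudoMetricSpace.toUniformSpace

/-- the Arens-Michael envelope -/
abbrev Env (A : Type) [Ring A] [Algebra ℂ A] : Type := @UniformSpace.Completion A (am A)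

/-- the enveloping map -/
noncomputable def iota (A : Type) [Ring A] [Algebra ℂ A] (x : A) : Env A :=
  @UniformSpace.Completion.coe' A (am A) x

lemma uc {A B : Type} [Ring A] [Algebra ℂ A] [Ring B] [Algebra ℂ B] (f : A →ₐ[ℂ] B) :
    @UniformContinuous A B (am A) (am B) f := by
  refine uniformContinuous_iInf_rng.2 fun p => uniformContinuous_iInf_dom
    (i := ⟨p.1.comp f.toLinearMap, fun x y => by simpa using p.2 (f x) (f y)⟩) ?_
  letI := p.1.toAddGroupSeminorm.toSeminormedAddCommGroup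
  letI := (p.1.comp f.toLinearMap).toAddGroupSeminorm.toSeminormedAddCommGroup
  exact (Isometry.of_dist_eq fun x y => by
    rw [dist_eq_norm, dist_eq_norm, ← map_sub]; rfl).uniformContinuous

lemma ker {A : Type} [Ring A] [Algebra ℂ A] (p : Seminorm ℂ A) (a b : A) (h : p (a - b) = 0) :
    (b, a) ∈ (@uniformity A
      p.toAddGroupSeminorm.toSeminormedAddCommGroup.toPseudoMetricSpace.toUniformSpace).ker := by
  letI := p.toAddGroupSeminorm.toSeminormedAddCommGroup
  refine inseparable_iff_ker_uniformity.1 (Metric.inseparable_iff.2 ?_)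
  rw [dist_comm, dist_eq_norm]
  exact h

def R {A : Type} [Ring A] [Algebra ℂ A] (x : ℕ → A) : Prop := ∀ k : ℕ,
  x 1 * x k - x k * x 1 = ((k : ℂ) - 1) • x k ∧
  x 0 * x (k + 1) - x (k + 1) * x 0 = ((k : ℂ) + 1) • x k ∧
  x 2 * x k - x k * x 2 = ((k : ℂ) - 2) • x (k + 1)

abbrev F := FreeAlgebra ℂ ℕ
noncomputable abbrev g : ℕ → F := FreeAlgebra.ι ℂ

def rel (a b : F) : Prop := ∃ k : ℕ,
  (a = g 1 * g k - g k * g 1 ∧ b = ((k : ℂ) - 1) • g k) ∨
  (a = g 0 * g (k + 1) - g (k + 1) * g 0 ∧ b = ((k : ℂ) + 1) • g k) ∨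
  (a = g 2 * g k - g k * g 2 ∧ b = ((k : ℂ) - 2) • g (k + 1))

def H0 : Type := RingQuot rel
noncomputable instance : Ring H0 := RingQuot.instRing rel
noncomputable instance : Algebra ℂ H0 := RingQuot.instAlgebra rel
noncomputable def mk : F →ₐ[ℂ] H0 := RingQuot.mkAlgHom ℂ rel
lemma mk_rel {a b : F} (h : rel a b) : mk a = mk b := RingQuot.mkAlgHom_rel ℂ h
noncomputable def x (k : ℕ) : H0 := mk (g k)

lemma Rx : R x := fun k => by
  refine ⟨?_, ?_, ?_⟩
  · simpa [x] using mk_rel ⟨k, Or.inl ⟨rfl, rfl⟩⟩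
  · simpa [x] using mk_rel ⟨k, Or.inr (Or.inl ⟨rfl, rfl⟩)⟩
  · simpa [x] using mk_rel ⟨k, Or.inr (Or.inr ⟨rfl, rfl⟩)⟩

noncomputable def L {A : Type} [Ring A] [Algebra ℂ A] (y : ℕ → A) (h : R y) : H0 →ₐ[ℂ] A :=
  RingQuot.liftAlgHom ℂ ⟨FreeAlgebra.lift ℂ y, by
    rintro _ _ ⟨k, ⟨rfl, rfl⟩ | ⟨rfl, rfl⟩ | ⟨rfl, rfl⟩⟩
    · simpa using (h k).1
    · simpa using (h k).2.1
    · simpa using (h k).2.2⟩

lemma L_x {A : Type} [Ring A] [Algebra ℂ A] (y : ℕ → A) (h : R y) (k : ℕ) : L y h (x k) = y k :=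
  (RingQuot.liftAlgHom_mkAlgHom_apply ℂ _ _ _).trans (FreeAlgebra.lift_ι_apply _ _)

lemma ind {P : H0 → Prop} (h1 : P 1) (ha : ∀ a b, P a → P b → P (a + b))
    (hs : ∀ (c : ℂ) a, P a → P (c • a)) (hx : ∀ k a, P a → P (x k * a)) (a : H0) : P a := by
  obtain ⟨a, rfl⟩ : ∃ b, mk b = a := RingQuot.mkAlgHom_surjective ℂ rel a
  suffices ∀ b, P b → P (mk a * b) by simpa using this 1 h1
  induction a using FreeAlgebra.induction with
  | grade0 r => intro b hb; simpa [Algebra.smul_def] using hs r b hb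
  | grade1 k => exact hx k
  | mul a c i j => intro b hb; simpa [mul_assoc] using i _ (j b hb)
  | add a c i j => intro b hb; simpa [add_mul] using ha _ _ (i b hb) (j b hb)

structure Pres (H : Type) [Ring H] [Algebra ℂ H] where
  x : ℕ → H
  Rx : R x
  L : ∀ {A : Type} [Ring A] [Algebra ℂ A] (y : ℕ → A), R y → (H →ₐ[ℂ] A)
  L_x : ∀ {A : Type} [Ring A] [Algebra ℂ A] (y : ℕ → A) (h : R y) (k : ℕ), L y h (x k) = y k
  ind : ∀ {P : H → Prop} (_h1 : P 1) (_ha : ∀ a b, P a → P b → P (a + b))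
    (_hs : ∀ (c : ℂ) a, P a → P (c • a)) (_hx : ∀ k a, P a → P (x k * a)) (a : H), P a

noncomputable def W0 : Pres H0 := ⟨x, Rx, L, L_x, ind⟩

namespace Pres
variable {H : Type} [Ring H] [Algebra ℂ H] (W : Pres H)

lemma hext {A : Type} [Semiring A] [Algebra ℂ A] {f f' : H →ₐ[ℂ] A} (h : ∀ k, f (W.x k) = f' (W.x k)) :
    f = f' := AlgHom.ext fun a => by
  induction a using W.ind with
  | _h1 => simp
  | _ha a b i j => simp [i, j]
  | _hs c a i => simp [i]
  | _hx k a i => simp [i, h]

noncomputable def com : H →ₐ[ℂ] H ⊗[ℂ] H := W.L (fun k => W.x k ⊗ₜ[ℂ] (1 : H) + (1 : H) ⊗ₜ[ℂ] W.x k) fun k => by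
  have key : ∀ a b c : H, ∀ z : ℂ, a * b - b * a = z • c →
      (a ⊗ₜ[ℂ] 1 + 1 ⊗ₜ a) * (b ⊗ₜ 1 + 1 ⊗ₜ b) - (b ⊗ₜ 1 + 1 ⊗ₜ b) * (a ⊗ₜ 1 + 1 ⊗ₜ a) =
        z • (c ⊗ₜ[ℂ] (1 : H) + (1 : H) ⊗ₜ c) := by
    intro a b c z h
    rw [smul_add, TensorProduct.smul_tmul', ← TensorProduct.tmul_smul, ← h]
    simp only [add_mul, mul_add, Algebra.TensorProduct.tmul_mul_tmul, mul_one, one_mul,
      TensorProduct.sub_tmul, TensorProduct.tmul_sub]
    abel
  exact ⟨key _ _ _ _ (W.Rx k).1, key _ _ _ _ (W.Rx k).2.1, key _ _ _ _ (W.Rx k).2.2⟩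

noncomputable def cou : H →ₐ[ℂ] ℂ := W.L (fun _ => 0) fun k => by simp

noncomputable def ant : H →ₐ[ℂ] Hᵐᵒᵖ := W.L (fun k => MulOpposite.op (-W.x k)) fun k => by
  have key : ∀ a b c : H, ∀ z : ℂ, a * b - b * a = z • c →
      MulOpposite.op (-a) * MulOpposite.op (-b) - MulOpposite.op (-b) * MulOpposite.op (-a) =
        z • MulOpposite.op (-c) := by
    intro a b c z h
    rw [← MulOpposite.op_smul, smul_neg, ← h]; simp
  exact ⟨key _ _ _ _ (W.Rx k).1, key _ _ _ _ (W.Rx k).2.1, key _ _ _ _ (W.Rx k).2.2⟩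

noncomputable def S : H →ₗ[ℂ] H := (MulOpposite.opLinearEquiv ℂ).symm.toLinearMap ∘ₗ W.ant.toLinearMap

lemma S1 : W.S 1 = 1 := by simp [S]
lemma Sx (k : ℕ) (a : H) : W.S (W.x k * a) = -(W.S a * W.x k) := by simp [S, ant, W.L_x]

@[reducible] noncomputable def bi : Bialgebra ℂ H := .ofAlgHom W.com W.cou
  (W.hext fun k => by simp [com, W.L_x, TensorProduct.add_tmul, TensorProduct.tmul_add,
    Algebra.TensorProduct.one_def, add_assoc])
  (W.hext fun k => by simp [com, cou, W.L_x]) (W.hext fun k => by simp [com, cou, W.L_x])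

@[reducible] noncomputable def hopf : HopfAlgebra ℂ H :=
  { W.bi with
    antipode := W.S
    mul_antipode_rTensor_comul := by
      ext a
      change LinearMap.mul' ℂ H (W.S.rTensor H (W.com a)) = algebraMap ℂ H (W.cou a)
      induction a using W.ind with
      | _h1 => simp [Algebra.TensorProduct.one_def, W.S1]
      | _ha a b i j => simp [i, j]
      | _hs c a i => simp only [map_smul, i]; simp [Algebra.smul_def]
      | _hx k a i =>
        rw [map_mul, map_mul W.cou, show W.com (W.x k) = _ from W.L_x _ _ k,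
          show W.cou (W.x k) = _ from W.L_x _ _ k, zero_mul, map_zero]
        generalize W.com a = t
        induction t with
        | zero => simp
        | tmul b c => simp [add_mul, W.Sx, mul_assoc]
        | add s t i j => simp only [mul_add, map_add, i, j, add_zero]
    mul_antipode_lTensor_comul := by
      ext a
      change LinearMap.mul' ℂ H (W.S.lTensor H (W.com a)) = algebraMap ℂ H (W.cou a)
      induction a using W.ind with
      | _h1 => simp [Algebra.TensorProduct.one_def, W.S1]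
      | _ha a b i j => simp [i, j]
      | _hs c a i => simp only [map_smul, i]; simp [Algebra.smul_def]
      | _hx k a i =>
        have : ∀ t : H ⊗[ℂ] H, LinearMap.mul' ℂ H (W.S.lTensor H ((W.x k ⊗ₜ 1 + 1 ⊗ₜ W.x k) * t)) =
            W.x k * LinearMap.mul' ℂ H (W.S.lTensor H t) - LinearMap.mul' ℂ H (W.S.lTensor H t) * W.x k := by
          intro t
          induction t with
          | zero => simp
          | tmul b c => simp [add_mul, W.Sx, mul_assoc, sub_eq_add_neg]
          | add s t i j => rw [mul_add, map_add, map_add, i, j]; simp only [mul_add, map_add, add_mul]; abel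
        rw [map_mul, map_mul W.cou, show W.com (W.x k) = _ from W.L_x _ _ k, show W.cou (W.x k) = _ from W.L_x _ _ k,
          this, i, Algebra.commutes]
        simp }

include W in
lemma fg : Algebra.FiniteType ℂ H := by
  classical
  refine ⟨⟨(Finset.range 4).image W.x, eq_top_iff.2 fun a _ => ?_⟩⟩
  have h : ∀ k, W.x k ∈ Algebra.adjoin ℂ (((Finset.range 4).image W.x : Finset H) : Set H) := by
    have h0 : ∀ k < 4, W.x k ∈ Algebra.adjoin ℂ (((Finset.range 4).image W.x : Finset H) : Set H) :=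
      fun k hk => Algebra.subset_adjoin (by simpa using ⟨k, hk, rfl⟩)
    intro k
    induction k with
    | zero => exact h0 0 (by norm_num)
    | succ k ih =>
      rcases lt_or_ge k 3 with hk | hk
      · exact h0 _ (by omega)
      have : (k : ℂ) - 2 ≠ 0 := sub_ne_zero.2 (by exact_mod_cast (by omega : k ≠ 2))
      rw [← inv_smul_smul₀ this (W.x (k + 1)), ← (W.Rx k).2.2]
      exact Subalgebra.smul_mem _ (sub_mem (mul_mem (h0 2 (by norm_num)) ih)
        (mul_mem ih (h0 2 (by norm_num)))) _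
  induction a using W.ind with
  | _h1 => exact one_mem _
  | _ha a b i j => exact add_mem (i trivial) (j trivial)
  | _hs c a i => exact Subalgebra.smul_mem _ (i trivial) _
  | _hx k a i => exact mul_mem (h k) (i trivial)

lemma nz : W.x 0 ≠ 0 := by
  have h : R fun k => (LinearMap.mulLeft ℂ (X ^ k : ℂ[X])) ∘ₗ (derivative : ℂ[X] →ₗ[ℂ] ℂ[X]) := by
    intro k
    refine ⟨?_, ?_, ?_⟩ <;> refine LinearMap.ext fun f => ?_ <;> cases k <;>
      simp [derivative_X_pow, smul_eq_C_mul, map_ofNat] <;> ring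
  intro e
  have := W.L_x _ h 0
  rw [e, map_zero] at this
  simpa using LinearMap.congr_fun this X

lemma kill (p : Seminorm ℂ H) (hp : ∀ a b, p (a * b) ≤ p a * p b) (a : H) :
    p (a - algebraMap ℂ H (W.cou a)) = 0 := by
  have c : ∀ a b, p (a * b - b * a) ≤ 2 * p a * p b := fun a b => by
    linarith [map_sub_le_add p (a * b) (b * a), hp a b, hp b a]
  have h : ∀ k, p (W.x k) = 0 := by
    intro k
    obtain ⟨n, hn⟩ := exists_nat_gt (2 * p (W.x 1) + k)
    have k0 : (k : ℝ) < n := by linarith [apply_nonneg p (W.x 1)]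
    refine Nat.decreasingInduction (motive := fun k _ => p (W.x k) = 0) (fun k _ ih => ?_) ?_
      (show k ≤ n + 1 by have : k < n := by exact_mod_cast k0
                         omega)
    · have := c (W.x 0) (W.x (k + 1))
      rw [(W.Rx k).2.1, map_smul_eq_mul, ih, mul_zero] at this
      exact le_antisymm (nonpos_of_mul_nonpos_right this
        (norm_pos_iff.2 (Nat.cast_add_one_ne_zero k))) (apply_nonneg _ _)
    · have := c (W.x 1) (W.x (n + 1))
      rw [(W.Rx _).1, map_smul_eq_mul] at this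
      simp only [Nat.cast_add, Nat.cast_one, add_sub_cancel_right, Complex.norm_natCast] at this
      have : (0 : ℝ) ≤ k := by positivity
      nlinarith [apply_nonneg p (W.x (n + 1))]
  refine le_antisymm ?_ (apply_nonneg _ _)
  induction a using W.ind with
  | _h1 => simp
  | _ha a b i j =>
    rw [map_add, map_add, add_sub_add_comm]; linarith [map_add_le_add p (a - algebraMap ℂ H (W.cou a)) (b - algebraMap ℂ H (W.cou b))]
  | _hs c a i =>
    rw [map_smul, smul_eq_mul, map_mul, ← Algebra.smul_def, ← smul_sub, map_smul_eq_mul]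
    exact mul_nonpos_of_nonneg_of_nonpos (norm_nonneg _) i
  | _hx k a i => simpa [cou, W.L_x, h] using hp (W.x k) a

end Pres

theorem main : ∃ (A B : Type) (_ : Ring A) (_ : Ring B) (_ : HopfAlgebra ℂ A) (_ : HopfAlgebra ℂ B),
    Algebra.FiniteType ℂ A ∧ Algebra.FiniteType ℂ B ∧ IsEmpty (A ≃ₐ[ℂ] B) ∧
    ∃ (f : A →ₐc[ℂ] B) (e : H91.Witt.Env A ≃ₜ H91.Witt.Env B),
      ∀ a, e (H91.Witt.iota A a) = H91.Witt.iota B (f a) := by
  obtain ⟨H, _, _, ⟨W⟩⟩ : ∃ (H : Type) (_ : Ring H) (_ : Algebra ℂ H), Nonempty (Pres H) :=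
    ⟨H0, _, _, ⟨W0⟩⟩
  letI := W.hopf
  refine ⟨H, ℂ, inferInstance, inferInstance, W.hopf, inferInstance, W.fg, inferInstance,
    ⟨fun e => W.nz (e.injective ?_)⟩, Bialgebra.counitBialgHom ℂ H, ?_⟩
  · have := congrArg e (W.Rx 0).2.1
    simpa [mul_comm] using this.symm
  letI := am H
  letI := am ℂ
  have u1 := uc W.cou
  have u2 := uc (Algebra.ofId ℂ H)
  refine ⟨⟨⟨UniformSpace.Completion.map W.cou, UniformSpace.Completion.map (Algebra.ofId ℂ H),
    fun a => ?_, fun a => ?_⟩, UniformSpace.Completion.continuous_map,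
    UniformSpace.Completion.continuous_map⟩, fun a => UniformSpace.Completion.map_coe u1 a⟩
  · refine UniformSpace.Completion.induction_on a (isClosed_eq
      (UniformSpace.Completion.continuous_map.comp UniformSpace.Completion.continuous_map)
      continuous_id) fun a => ?_
    rw [UniformSpace.Completion.map_coe u1, UniformSpace.Completion.map_coe u2]
    refine (Inseparable.map ?_ (UniformSpace.Completion.continuous_coe H)).eq
    rw [inseparable_iff_ker_uniformity, iInf_uniformity, Filter.ker_iInf, Set.mem_iInter]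
    intro p
    exact ker _ _ _ (W.kill p.1 p.2 a)
  · refine UniformSpace.Completion.induction_on a (isClosed_eq
      (UniformSpace.Completion.continuous_map.comp UniformSpace.Completion.continuous_map)
      continuous_id) fun a => ?_
    rw [UniformSpace.Completion.map_coe u2, UniformSpace.Completion.map_coe u1]
    simp

end H91.Witt
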