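import Mathlib

set_option autoImplicit false
open MeasureTheory ProbabilityTheory Filter Topology Set
open scoped ENNReal unitInterval

namespace Pool.Agent.H91.Wm

variable {𝕜 : Type} [RCLike 𝕜] [MeasurableSpace 𝕜] [BorelSpace 𝕜] [SecondCountableTopology 𝕜]

omit [BorelSpace 𝕜] [SecondCountableTopology 𝕜] in
def GS (ν : Measure 𝕜) : Prop :=
  ∀ L : StrongDual ℝ 𝕜, charFunDual ν L = Complex.exp (-‖L‖ ^ 2 / 2)

omit [MeasurableSpace 𝕜] [BorelSpace 𝕜] [SecondCountableTopology 𝕜] in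
theorem norm_comp (L : StrongDual ℝ 𝕜) (c : 𝕜) :
    ‖L.comp (ContinuousLinearMap.mul ℝ 𝕜 c)‖ = ‖c‖ * ‖L‖ := by
  have h : ∀ (L : StrongDual ℝ 𝕜) (c : 𝕜),
      ‖L.comp (ContinuousLinearMap.mul ℝ 𝕜 c)‖ ≤ ‖c‖ * ‖L‖ := fun L c =>
    ContinuousLinearMap.opNorm_le_bound _ (by positivity) fun x =>
      (L.le_opNorm (c * x)).trans (le_of_eq (by rw [norm_mul]; ring))
  refine le_antisymm (h L c) ?_
  rcases eq_or_ne c 0 with rfl | hc
  · simp
  have h2 := h (L.comp (ContinuousLinearMap.mul ℝ 𝕜 c)) c⁻¹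
  have e : (L.comp (ContinuousLinearMap.mul ℝ 𝕜 c)).comp (ContinuousLinearMap.mul ℝ 𝕜 c⁻¹) = L := by
    ext x
    simp [hc]
  rw [e, norm_inv, le_inv_mul_iff₀ (norm_pos_iff.2 hc)] at h2
  exact h2

variable {ν : Measure 𝕜} [IsProbabilityMeasure ν]

omit [IsProbabilityMeasure ν] [SecondCountableTopology 𝕜] in
theorem GS.mul (h : GS ν) (c : 𝕜) (L : StrongDual ℝ 𝕜) :
    charFunDual (ν.map fun x => c * x) L = Complex.exp (-(‖c‖ * ‖L‖ : ℝ) ^ 2 / 2) := by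
  rw [← norm_comp, ← h, ← charFunDual_map]
  rfl

theorem GS.seq (h : GS ν) : ∃ X : ℕ → I → 𝕜, (∀ n, Measurable (X n)) ∧
    ∀ (t : Finset ℕ) (c : ℕ → 𝕜), volume.map (fun ω => ∑ n ∈ t, c n * X n ω) =
      ν.map fun x => ((√(∑ n ∈ t, ‖c n‖ ^ 2) : ℝ) : 𝕜) * x := by
  obtain ⟨f, hf, e⟩ := (Measure.infinitePi fun _ : ℕ => ν).exists_measurable_map_eq
  refine ⟨fun n ω => f ω n, fun n => by fun_prop, fun t c => ?_⟩
  have e1 : volume.map (fun ω => ∑ n ∈ t, c n * f ω n) =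
      (Measure.infinitePi fun _ : ℕ => ν).map fun y => ∑ n ∈ t, c n * y n := by
    rw [← e, Measure.map_map (by fun_prop) hf]
    rfl
  rw [e1]
  refine Measure.ext_of_charFunDual (funext fun L => ?_)
  have hi := iIndepFun_infinitePi (P := fun _ : ℕ => ν) (X := fun n x => c n * x)
    fun n => by fun_prop
  rw [iIndepFun.charFunDual_map_fun_finsetSum_eq_prod (X := fun n (y : ℕ → 𝕜) => c n * y n)
    (fun n _ => Measurable.aemeasurable (by fun_prop)) (hi.restrict t), Finset.prod_apply, h.mul]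
  have e2 : ∀ n, (Measure.infinitePi fun _ : ℕ => ν).map (fun y => c n * y n)
      = ν.map fun x => c n * x := fun n => by
    nth_rewrite 2 [← Measure.infinitePi_map_eval (fun _ : ℕ => ν) n]
    rw [Measure.map_map (by fun_prop) (by fun_prop)]
    rfl
  simp only [e2, h.mul]
  rw [← Complex.exp_sum, RCLike.norm_ofReal, abs_of_nonneg (Real.sqrt_nonneg _)]
  congr 1
  norm_cast
  rw [mul_pow, Real.sq_sqrt (by positivity), Finset.sum_mul, ← Finset.sum_neg_distrib,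
    Finset.sum_div]
  exact Finset.sum_congr rfl fun n _ => by ring

theorem GS.add (h : GS ν) : (ν.prod ν).map (fun p => p.1 + p.2) =
    ν.map fun x => ((√2 : ℝ) : 𝕜) * x := by
  refine Measure.ext_of_charFunDual (funext fun L => ?_)
  have e : (fun p : 𝕜 × 𝕜 => p.1 + p.2) =
      ⇑(ContinuousLinearMap.fst ℝ 𝕜 𝕜 + ContinuousLinearMap.snd ℝ 𝕜 𝕜) := rfl
  rw [e, charFunDual_map, charFunDual_prod, h.mul,
    show (L.comp (ContinuousLinearMap.fst ℝ 𝕜 𝕜 + ContinuousLinearMap.snd ℝ 𝕜 𝕜)).comp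
      (.inl ℝ 𝕜 𝕜) = L by ext x; simp,
    show (L.comp (ContinuousLinearMap.fst ℝ 𝕜 𝕜 + ContinuousLinearMap.snd ℝ 𝕜 𝕜)).comp
      (.inr ℝ 𝕜 𝕜) = L by ext x; simp, h, ← Complex.exp_add, RCLike.norm_ofReal,
    abs_of_nonneg (Real.sqrt_nonneg _)]
  congr 1
  norm_cast
  rw [mul_pow, Real.sq_sqrt zero_le_two]
  ring

omit [SecondCountableTopology 𝕜] in
theorem GS.unb (h : GS ν) (τ : ℝ) : ¬∀ᵐ x ∂ν, ‖x‖ ≤ τ := by
  intro hb
  have e : ν.map (RCLike.reCLM (K := 𝕜)) = gaussianReal 0 1 := by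
    refine Measure.ext_of_charFun (funext fun t => ?_)
    rw [charFun_map_eq_charFunDual_smul, h, charFun_gaussianReal, norm_smul, RCLike.reCLM_norm]
    congr 1
    simp only [Real.norm_eq_abs, mul_one, Complex.ofReal_zero, mul_zero, zero_mul, NNReal.coe_one,
      Complex.ofReal_one, one_mul, zero_sub, neg_div]
    norm_cast
    rw [sq_abs]
  have h1 : ∀ᵐ y ∂(ν.map (RCLike.reCLM (K := 𝕜))), y ≤ τ :=
    (ae_map_iff (Measurable.aemeasurable (by fun_prop)) measurableSet_Iic).2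
      (hb.mono fun x hx => (RCLike.re_le_norm x).trans hx)
  rw [e] at h1
  have h2 := (gaussianReal_absolutelyContinuous' 0 one_ne_zero).ae_le h1
  rw [mem_ae_iff] at h2
  have h3 : {y : ℝ | y ≤ τ}ᶜ = Ioi τ := by ext y; simp
  exact absurd (h3 ▸ h2) (by simp)

theorem GS.strict [IsGaussian ν] (h : GS ν) {ρ τ : ℝ} (hρ : 2 < ρ) (s0 : 0 ≤ τ)
    (hτ : ∫ x, ‖x‖ ^ ρ ∂ν = τ ^ ρ) :
    ∃ a : 𝕜, (‖a‖ ^ 2 + τ ^ 2) ^ (ρ / 2) < ∫ x, ‖a + x‖ ^ ρ ∂ν := by
  by_contra hc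
  simp only [not_exists, not_lt] at hc
  have r0 : ENNReal.ofReal ρ ≠ 0 := by simp; linarith
  have e0 : (ENNReal.ofReal ρ).toReal = ρ := ENNReal.toReal_ofReal (by linarith)
  have m1 := IsGaussian.memLp_id ν (ENNReal.ofReal ρ) ENNReal.ofReal_ne_top
  have i1 : Integrable (fun x => ‖x‖ ^ ρ) ν := by
    simpa only [e0, id] using m1.integrable_norm_rpow r0 ENNReal.ofReal_ne_top
  have i2 : Integrable (fun p : 𝕜 × 𝕜 => ‖p.1 + p.2‖ ^ ρ) (ν.prod ν) := by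
    simpa only [e0, id, Pi.add_apply] using
      ((m1.comp_fst ν).add (m1.comp_snd ν)).integrable_norm_rpow r0 ENNReal.ofReal_ne_top
  have c1 : Continuous fun x : 𝕜 => ‖x‖ ^ ρ :=
    continuous_norm.rpow_const fun _ => Or.inr (by linarith)
  have e1 : ∫ p, ‖p.1 + p.2‖ ^ ρ ∂(ν.prod ν) = 2 ^ (ρ / 2) * τ ^ ρ := by
    rw [← integral_map (f := fun x : 𝕜 => ‖x‖ ^ ρ) (φ := fun p : 𝕜 × 𝕜 => p.1 + p.2)
      (Measurable.aemeasurable (by fun_prop)) c1.aestronglyMeasurable, h.add,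
      integral_map (Measurable.aemeasurable (by fun_prop)) c1.aestronglyMeasurable, ← hτ,
      ← integral_const_mul]
    congr 1
    funext x
    rw [norm_mul, RCLike.norm_ofReal, abs_of_nonneg (Real.sqrt_nonneg _),
      Real.mul_rpow (Real.sqrt_nonneg _) (norm_nonneg _), Real.sqrt_eq_rpow,
      ← Real.rpow_mul zero_le_two]
    congr 2
    ring
  have sq : ∀ y : ℝ, 0 ≤ y → (y ^ 2) ^ (ρ / 2) = y ^ ρ := fun y hy => by
    rw [← Real.rpow_natCast, ← Real.rpow_mul hy]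
    congr 1
    push_cast
    ring
  have cv := strictConvexOn_rpow (p := ρ / 2) (by linarith)
  have key : ∀ a : 𝕜, ‖a‖ ≠ τ →
      (‖a‖ ^ 2 + τ ^ 2) ^ (ρ / 2) < 2 ^ (ρ / 2) * ((‖a‖ ^ ρ + τ ^ ρ) / 2) := fun a ha => by
    have := cv.2 (mem_Ici.2 (sq_nonneg ‖a‖)) (mem_Ici.2 (sq_nonneg τ))
      (fun e => ha ((sq_eq_sq₀ (norm_nonneg _) s0).1 e)) one_half_pos one_half_pos (by norm_num)
    simp only [smul_eq_mul, sq _ (norm_nonneg a), sq _ s0] at this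
    rw [show ‖a‖ ^ 2 + τ ^ 2 = 2 * (1 / 2 * ‖a‖ ^ 2 + 1 / 2 * τ ^ 2) by ring,
      Real.mul_rpow zero_le_two (by positivity)]
    exact mul_lt_mul_of_pos_left (by linarith) (by positivity)
  have key' : ∀ a : 𝕜,
      (‖a‖ ^ 2 + τ ^ 2) ^ (ρ / 2) ≤ 2 ^ (ρ / 2) * ((‖a‖ ^ ρ + τ ^ ρ) / 2) := fun a => by
    by_cases ha : ‖a‖ = τ
    · rw [ha, ← two_mul, Real.mul_rpow zero_le_two (sq_nonneg _), sq _ s0, add_self_div_two]
    · exact (key a ha).le
  have i3 : Integrable (fun a : 𝕜 => 2 ^ (ρ / 2) * ((‖a‖ ^ ρ + τ ^ ρ) / 2)) ν :=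
    ((i1.add (integrable_const _)).div_const 2).const_mul _
  have e3 : ∫ a, 2 ^ (ρ / 2) * ((‖a‖ ^ ρ + τ ^ ρ) / 2) ∂ν = 2 ^ (ρ / 2) * τ ^ ρ := by
    rw [integral_const_mul, integral_div, integral_add i1 (integrable_const _), hτ]
    simp
  have i4 := i2.integral_prod_left
  rw [integral_prod _ i2] at e1
  have h5 := (integral_eq_iff_of_ae_le i4 i3
    (ae_of_all _ fun a => (hc a).trans (key' a))).1 (e1.trans e3.symm)
  refine h.unb τ (h5.mono fun a ha => le_of_eq (by_contra fun hne => ?_))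
  exact absurd ha ((hc a).trans_lt (key a hne)).ne

end Pool.Agent.H91.Wm
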