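import Mathlib

set_option autoImplicit false
open Filter Topology Set

namespace Pool.Agent.H91.Wm

/-- the weak maximizing property -/
def WMP (𝕜 : Type) [RCLike 𝕜] (E F : Type) [NormedAddCommGroup E] [NormedSpace 𝕜 E]
    [NormedAddCommGroup F] [NormedSpace 𝕜 F] : Prop :=
  ∀ T : E →L[𝕜] F, (∃ x : ℕ → E, (∀ n, ‖x n‖ = 1) ∧
    Filter.Tendsto (fun n => ‖T (x n)‖) Filter.atTop (nhds ‖T‖) ∧
    ¬ ∀ f : StrongDual 𝕜 E, Filter.Tendsto (fun n => f (x n)) Filter.atTop (nhds 0)) →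
    ∃ x : E, ‖x‖ = 1 ∧ ‖T x‖ = ‖T‖

variable {𝕜 : Type} [RCLike 𝕜]

abbrev HH (𝕜 : Type) [RCLike 𝕜] := lp (fun _ : ℕ => 𝕜) 2

theorem nsq (x : HH 𝕜) : HasSum (fun n => ‖x n‖ ^ 2) (‖x‖ ^ 2) := by
  simpa using lp.hasSum_norm (p := 2) (by norm_num) x

variable {Y : Type} [NormedAddCommGroup Y] [NormedSpace 𝕜 Y]

def Sys (𝕜 : Type) [RCLike 𝕜] {Y : Type} [NormedAddCommGroup Y] [NormedSpace 𝕜 Y]
    (u : Y) (g : ℕ → Y) : Prop :=
  ‖u‖ = 1 ∧ ‖g 0‖ = 1 ∧ ∀ (a : 𝕜) (t : Finset ℕ) (c : ℕ → 𝕜),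
    ‖a • u + ∑ n ∈ t, c n • g n‖ = ‖a • u + ((√(∑ n ∈ t, ‖c n‖ ^ 2) : ℝ) : 𝕜) • g 0‖

theorem dsum {d : ℕ → 𝕜} (hd : ∀ n, ‖d n‖ ≤ 1) (x : HH 𝕜) (n : ℕ) :
    ‖d n * x n‖ ^ 2 ≤ ‖x n‖ ^ 2 := by
  rw [norm_mul]
  exact pow_le_pow_left₀ (by positivity) (mul_le_of_le_one_left (norm_nonneg _) (hd n)) 2

theorem dsum' {d : ℕ → 𝕜} (hd : ∀ n, ‖d n‖ ≤ 1) (x : HH 𝕜) :
    Summable fun n => ‖d n * x n‖ ^ 2 :=
  (nsq x).summable.of_nonneg_of_le (fun _ => sq_nonneg _) (dsum hd x)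

theorem Sys.zero {u : Y} {g : ℕ → Y} (h : Sys 𝕜 u g) {s : ℝ} (hs : 0 ≤ s) :
    ‖(0:𝕜) • u + (s : 𝕜) • g 0‖ = s := by
  rw [zero_smul, zero_add, norm_smul, h.2.1, mul_one, RCLike.norm_ofReal, abs_of_nonneg hs]

theorem Sys.exJ [CompleteSpace Y] {u : Y} {g : ℕ → Y} (h : Sys 𝕜 u g) {d : ℕ → 𝕜}
    (hd : ∀ n, ‖d n‖ ≤ 1) : ∃ J : HH 𝕜 →L[𝕜] Y, ∀ (a : 𝕜) (x : HH 𝕜),
      ‖a • u + J x‖ = ‖a • u + ((√(∑' n, ‖d n * x n‖ ^ 2) : ℝ) : 𝕜) • g 0‖ := by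
  have hs : ∀ x : HH 𝕜, Summable fun n => (d n * x n) • g n := fun x => by
    refine summable_iff_vanishing_norm.2 fun ε hε => ?_
    obtain ⟨s, hs⟩ := summable_iff_vanishing_norm.1 (dsum' hd x) (ε ^ 2) (by positivity)
    refine ⟨s, fun t ht => ?_⟩
    have h1 := h.2.2 0 t fun n => d n * x n
    rw [h.zero (Real.sqrt_nonneg _), zero_smul, zero_add] at h1
    rw [h1, Real.sqrt_lt' hε]
    exact (le_abs_self _).trans_lt (hs t ht)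
  have key : ∀ (a : 𝕜) (x : HH 𝕜), ‖a • u + ∑' n, (d n * x n) • g n‖ =
      ‖a • u + ((√(∑' n, ‖d n * x n‖ ^ 2) : ℝ) : 𝕜) • g 0‖ := fun a x => by
    have t1 : Tendsto (fun t : Finset ℕ => ∑ n ∈ t, (d n * x n) • g n) atTop _ := (hs x).hasSum
    have t2 : Tendsto (fun t : Finset ℕ => ∑ n ∈ t, ‖d n * x n‖ ^ 2) atTop _ := (dsum' hd x).hasSum
    have c : Continuous fun r : ℝ => ‖a • u + ((√r : ℝ) : 𝕜) • g 0‖ := by fun_prop
    exact tendsto_nhds_unique ((t1.const_add (a • u)).norm.congr fun t => h.2.2 a t _)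
      ((c.tendsto _).comp t2)
  refine ⟨LinearMap.mkContinuous ⟨⟨fun x => ∑' n, (d n * x n) • g n, fun x y => ?_⟩,
    fun c x => ?_⟩ 1 fun x => ?_, key⟩
  · rw [← (hs x).tsum_add (hs y)]
    exact tsum_congr fun n => by simp [mul_add, add_smul]
  · rw [RingHom.id_apply, ← (hs x).tsum_const_smul]
    exact tsum_congr fun n => by simp [smul_smul, mul_left_comm]
  · have h1 := key 0 x
    rw [h.zero (Real.sqrt_nonneg _), zero_smul, zero_add] at h1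
    refine h1.le.trans ?_
    rw [one_mul, Real.sqrt_le_left (norm_nonneg _)]
    exact hasSum_le (dsum hd x) (dsum' hd x).hasSum (nsq x)

theorem Sys.iso [CompleteSpace Y] {u : Y} {g : ℕ → Y} (h : Sys 𝕜 u g) :
    ∃ J : HH 𝕜 →L[𝕜] Y, ∀ x, ‖J x‖ = ‖x‖ := by
  obtain ⟨J, hJ⟩ := h.exJ (d := fun _ => (1:𝕜)) fun _ => by simp
  refine ⟨J, fun x => ?_⟩
  have h1 := hJ 0 x
  rw [h.zero (Real.sqrt_nonneg _), zero_smul, zero_add] at h1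
  simp only [one_mul] at h1
  rw [h1, (nsq x).tsum_eq, Real.sqrt_sq (norm_nonneg _)]

def Bad (S : HH 𝕜 →L[𝕜] Y) : Prop := (∀ x, ‖x‖ = 1 → ‖S x‖ < ‖S‖) ∧ 0 < ‖S‖ ∧
  ∃ (x : ℕ → HH 𝕜) (δ : ℝ), 0 < δ ∧ (∀ k, ‖x k‖ = 1) ∧
    Tendsto (fun k => ‖S (x k)‖) atTop (𝓝 ‖S‖) ∧ ∀ᶠ k in atTop, δ ≤ ‖x k 0‖

theorem Sys.bad [CompleteSpace Y] {u : Y} {g : ℕ → Y} (h : Sys 𝕜 u g) {a0 : 𝕜} {s0 : ℝ}
    (h0 : 0 ≤ s0) (hs : √(‖a0‖ ^ 2 + s0 ^ 2) < ‖a0 • u + (s0 : 𝕜) • g 0‖) :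
    ∃ S : HH 𝕜 →L[𝕜] Y, Bad S := by
  set e : ℕ → ℝ := fun n => n / (n + 1) with he
  have e0 : ∀ n, 0 ≤ e n ∧ e n < 1 := fun n =>
    ⟨by positivity, (div_lt_one (by positivity)).2 (lt_add_one _)⟩
  have nd : ∀ n, ‖(e n : 𝕜)‖ = e n := fun n => by
    rw [RCLike.norm_ofReal, abs_of_nonneg (e0 n).1]
  have hd : ∀ n, ‖(e n : 𝕜)‖ ≤ 1 := fun n => (nd n).le.trans (e0 n).2.le
  obtain ⟨J, hJ⟩ := h.exJ hd
  set S : HH 𝕜 →L[𝕜] Y := (lp.evalCLM 𝕜 (fun _ : ℕ => 𝕜) 2 0).smulRight u + J with hS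
  have eS : ∀ x, ‖S x‖ = ‖x 0 • u + ((√(∑' n, ‖(e n : 𝕜) * x n‖ ^ 2) : ℝ) : 𝕜) • g 0‖ :=
    fun x => hJ (x 0) x
  have c1 : ∀ (a : 𝕜) (s : ℝ), 0 ≤ s → ‖a • u + (s : 𝕜) • g 0‖ ≤ ‖S‖ * √(‖a‖ ^ 2 + s ^ 2) := by
    intro a s hs
    have c : Continuous fun r : ℝ => ‖a • u + ((r * s : ℝ) : 𝕜) • g 0‖ := by fun_prop
    have t := (c.tendsto 1).comp ((tendsto_natCast_div_add_atTop (1:ℝ)).comp
      (tendsto_add_atTop_nat 1))
    rw [one_mul] at t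
    refine le_of_tendsto' t fun n => ?_
    set y : HH 𝕜 := lp.single 2 0 a + lp.single 2 (n + 1) (s : 𝕜) with hy
    have y0 : y 0 = a := by simp [hy, lp.single_apply]
    have y1 : y (n + 1) = s := by simp [hy, lp.single_apply]
    have y2 : ∀ k, k ∉ ({0, n + 1} : Finset ℕ) → y k = 0 := fun k hk => by
      simp only [Finset.mem_insert, Finset.mem_singleton, not_or] at hk
      simp [hy, lp.single_apply, hk.1, hk.2]
    have ns : ‖(s:𝕜)‖ = s := by rw [RCLike.norm_ofReal, abs_of_nonneg hs]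
    have n1 : ‖y‖ ^ 2 = ‖a‖ ^ 2 + s ^ 2 := by
      rw [(nsq y).unique (hasSum_sum_of_ne_finset_zero (s := {0, n + 1}) fun k hk => by simp [y2 k hk]),
        Finset.sum_pair (by omega), y0, y1, ns]
    have n2 : ∑' k, ‖(e k : 𝕜) * y k‖ ^ 2 = (e (n + 1) * s) ^ 2 := by
      rw [tsum_eq_sum (s := {0, n + 1}) fun k hk => by simp [y2 k hk],
        Finset.sum_pair (by omega), y1, norm_mul, norm_mul, nd, nd, ns]
      simp [he]
    have h1 := S.le_opNorm y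
    rw [eS, y0, n2, Real.sqrt_sq (mul_nonneg (e0 _).1 hs)] at h1
    rw [← n1, Real.sqrt_sq (norm_nonneg _)]
    exact h1
  have S1 : 1 < ‖S‖ := by
    by_contra hc
    have := mul_le_of_le_one_left (Real.sqrt_nonneg (‖a0‖ ^ 2 + s0 ^ 2)) (not_lt.1 hc)
    linarith [c1 a0 s0 h0]
  have c3 : ∀ x : HH 𝕜, ‖x‖ = 1 → ‖S x‖ ≤ ‖x 0‖ + 1 := fun x hx => by
    rw [eS]
    refine (norm_add_le _ _).trans ?_
    rw [norm_smul, norm_smul, h.1, h.2.1, mul_one, mul_one, RCLike.norm_ofReal,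
      abs_of_nonneg (Real.sqrt_nonneg _), add_le_add_iff_left, Real.sqrt_le_left zero_le_one, ← hx]
    exact hasSum_le (dsum hd x) (dsum' hd x).hasSum (nsq x)
  have c4 : ∀ k : ℕ, ∃ x : HH 𝕜, ‖x‖ = 1 ∧ ‖S‖ - 1 / ((k:ℝ) + 1) < ‖S x‖ := fun k => by
    have h1 : 1 / ((k:ℝ) + 1) ≤ 1 := (div_le_one (by positivity)).2 (by linarith [k.cast_nonneg (α := ℝ)])
    have h2 : 0 < 1 / ((k:ℝ) + 1) := by positivity
    obtain ⟨x, h3, h4⟩ := S.exists_nnnorm_eq_one_lt_apply_of_lt_opNNNorm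
      (r := ⟨‖S‖ - 1 / ((k:ℝ) + 1), by linarith⟩) (sub_lt_self _ h2)
    exact ⟨x, by simpa using congrArg NNReal.toReal h3, h4⟩
  choose x x1 x2 using c4
  have t : Tendsto (fun k => ‖S (x k)‖) atTop (𝓝 ‖S‖) := by
    have := tendsto_one_div_add_atTop_nhds_zero_nat.const_sub ‖S‖
    rw [sub_zero] at this
    exact tendsto_of_tendsto_of_tendsto_of_le_of_le this tendsto_const_nhds (fun k => (x2 k).le)
      fun k => (S.le_opNorm _).trans (by rw [x1, mul_one])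
  refine ⟨S, fun y hy => ?_, by linarith, x, (‖S‖ - 1) / 2, by linarith, x1, t, ?_⟩
  · by_cases hc : ∀ n, y (n + 1) = 0
    · have : ∑' n, ‖(e n : 𝕜) * y n‖ ^ 2 = 0 := by
        rw [← tsum_zero (β := ℕ)]
        refine tsum_congr fun n => ?_
        cases n with
        | zero => simp [he]
        | succ n => simp [hc]
      rw [eS, this]
      simp only [Real.sqrt_zero, RCLike.ofReal_zero, zero_smul, add_zero, norm_smul, h.1, mul_one]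
      exact ((lp.norm_apply_le_norm two_ne_zero y 0).trans hy.le).trans_lt S1
    · obtain ⟨n, hn⟩ := not_forall.1 hc
      have h1 := hasSum_lt (i := n + 1) (fun k => ?_) ?_
        ((hasSum_ite_eq 0 (‖y 0‖ ^ 2)).add (dsum' hd y).hasSum) (nsq y)
      · rw [eS]
        refine (c1 _ _ (Real.sqrt_nonneg _)).trans_lt (mul_lt_of_lt_one_right (by linarith) ?_)
        rw [Real.sq_sqrt (tsum_nonneg fun _ => sq_nonneg _), Real.sqrt_lt' one_pos, ← hy]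
        exact h1
      · cases k with
        | zero => simp [he]
        | succ k => simpa using dsum hd y (k + 1)
      · simp only [Nat.add_eq_zero_iff, one_ne_zero, and_false, if_false, zero_add, norm_mul, nd]
        exact pow_lt_pow_left₀ (mul_lt_of_lt_one_left (norm_pos_iff.2 hn) (e0 _).2)
          (mul_nonneg (e0 _).1 (norm_nonneg _)) two_ne_zero
  · filter_upwards [t.eventually (lt_mem_nhds (show (‖S‖ + 1) / 2 < ‖S‖ by linarith))] with k hk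
    linarith [c3 _ (x1 k)]

end Pool.Agent.H91.Wm
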