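import Pool.Agent.H91.Wm2

set_option autoImplicit false
open Filter Topology Set
open scoped InnerProductSpace

namespace Pool.Agent.H91.Wm

variable {𝕜 : Type} [RCLike 𝕜]

theorem att {Y : Type} [NormedAddCommGroup Y] [NormedSpace 𝕜 Y] {S : HH 𝕜 →L[𝕜] Y}
    (h : ∀ y, ‖y‖ = 1 → ‖S y‖ < ‖S‖) {y : HH 𝕜} (hy : 0 < ‖y‖) : ‖S y‖ < ‖S‖ * ‖y‖ := by
  have n : ‖((‖y‖⁻¹ : ℝ) : 𝕜)‖ = ‖y‖⁻¹ := by
    rw [RCLike.norm_ofReal, abs_of_nonneg (by positivity)]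
  have h1 := h (((‖y‖⁻¹ : ℝ) : 𝕜) • y) (by rw [norm_smul, n, inv_mul_cancel₀ hy.ne'])
  rwa [map_smul, norm_smul, n, inv_mul_lt_iff₀ hy, mul_comm] at h1

theorem pair {E F G : Type} [NormedAddCommGroup E] [NormedSpace 𝕜 E] [NormedAddCommGroup F]
    [NormedSpace 𝕜 F] [NormedAddCommGroup G] [NormedSpace 𝕜 G]
    (A : HH 𝕜 →L[𝕜] F) (B : HH 𝕜 →L[𝕜] G) (P : E →L[𝕜] G →L[𝕜] 𝕜)
    (hP : ∀ f g, ‖P f g‖ ≤ ‖f‖ * ‖g‖) (hN : ∀ g, ∃ f, ‖f‖ = 1 ∧ P f g = (‖g‖ : ℝ))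
    {x : ℕ → HH 𝕜} {δ : ℝ} (hδ : 0 < δ) (x1 : ∀ k, ‖x k‖ = 1)
    (tB : Tendsto (fun k => ‖B (x k)‖) atTop (𝓝 ‖B‖))
    (tA : Tendsto (fun k => ‖A (star (x k))‖) atTop (𝓝 ‖A‖)) (hx : ∀ᶠ k in atTop, δ ≤ ‖x k 0‖)
    (A0 : 0 < ‖A‖) (B0 : 0 < ‖B‖)
    (hn : (∀ y, ‖y‖ = 1 → ‖A y‖ < ‖A‖) ∨ ∀ y, ‖y‖ = 1 → ‖B y‖ < ‖B‖) : ¬WMP 𝕜 E F := by
  intro hW
  obtain ⟨R, hR⟩ : ∃ R : E →L[𝕜] HH 𝕜, ∀ f y, P f (B y) = ⟪star (R f), y⟫_𝕜 := by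
    let κ : StrongDual 𝕜 (HH 𝕜) ≃ₗᵢ[𝕜] HH 𝕜 :=
      (InnerProductSpace.toDual 𝕜 (HH 𝕜)).symm.trans (starₗᵢ 𝕜)
    refine ⟨κ.toContinuousLinearEquiv.toContinuousLinearMap ∘L (B.precomp 𝕜 ∘L P), fun f y => ?_⟩
    show _ = ⟪star (star ((InnerProductSpace.toDual 𝕜 (HH 𝕜)).symm ((P f).comp B))), y⟫_𝕜
    rw [star_star, InnerProductSpace.toDual_symm_apply]
    rfl
  have r1 : ∀ f, ‖R f‖ ^ 2 ≤ ‖f‖ * ‖B (star (R f))‖ := fun f => by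
    have h1 := hP f (B (star (R f)))
    rwa [hR, inner_self_eq_norm_sq_to_K, norm_pow, RCLike.norm_ofReal, abs_norm, norm_star] at h1
  have r2 : ∀ f, ‖f‖ = 1 → ‖R f‖ ≤ ‖B‖ := fun f hf => by
    have h1 := r1 f
    have h2 := B.le_opNorm (star (R f))
    rw [norm_star] at h2
    rw [hf, one_mul] at h1
    by_contra hc
    nlinarith [not_le.1 hc]
  have r3 : ‖A ∘L R‖ ≤ ‖A‖ * ‖B‖ :=
    ContinuousLinearMap.opNorm_le_of_unit_norm (by positivity) fun f hf =>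
      (A.le_opNorm _).trans (mul_le_mul_of_nonneg_left (r2 f hf) A0.le)
  choose φ φ1 φ2 using hN
  set f : ℕ → E := fun k => φ (B (x k)) with hf
  have nB : ‖(‖B‖ : 𝕜)‖ = ‖B‖ := by rw [RCLike.norm_ofReal, abs_norm]
  have d1 : ∀ k, ‖R (f k) - (‖B‖ : 𝕜) • star (x k)‖ ≤ √(2 * ‖B‖ * (‖B‖ - ‖B (x k)‖)) := fun k => by
    refine Real.le_sqrt_of_sq_le ?_
    rw [← norm_star, star_sub, star_smul, star_star, norm_sub_sq (𝕜 := 𝕜), inner_smul_right, ← hR,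
      φ2, norm_smul, norm_star, norm_star, nB, x1, RCLike.star_def, RCLike.conj_ofReal,
      ← RCLike.ofReal_mul, RCLike.ofReal_re]
    nlinarith [r2 (f k) (φ1 _), norm_nonneg (R (f k))]
  have d2 : Tendsto (fun k => ‖R (f k) - (‖B‖ : 𝕜) • star (x k)‖) atTop (𝓝 0) := by
    have h1 := ((tB.const_sub ‖B‖).const_mul (2 * ‖B‖)).sqrt
    rw [sub_self, mul_zero, Real.sqrt_zero] at h1
    exact squeeze_zero (fun _ => norm_nonneg _) d1 h1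
  have d3 : Tendsto (fun k => ‖(A ∘L R) (f k)‖) atTop (𝓝 (‖A‖ * ‖B‖)) := by
    have h1 := (tA.mul_const ‖B‖).sub (d2.const_mul ‖A‖)
    rw [mul_zero, sub_zero] at h1
    refine tendsto_of_tendsto_of_tendsto_of_le_of_le h1 tendsto_const_nhds (fun k => ?_)
      fun k => (A.le_opNorm _).trans (mul_le_mul_of_nonneg_left (r2 _ (φ1 _)) A0.le)
    have h2 := A.le_opNorm (R (f k) - (‖B‖ : 𝕜) • star (x k))
    have h3 := norm_sub_norm_le (A ((‖B‖ : 𝕜) • star (x k))) (A (R (f k)))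
    rw [norm_sub_rev, ← map_sub, map_smul, norm_smul, nB] at h3
    show _ ≤ ‖A (R (f k))‖
    linarith
  have r4 : ‖A ∘L R‖ = ‖A‖ * ‖B‖ := le_antisymm r3 (le_of_tendsto' d3 fun k =>
    ((A ∘L R).le_opNorm _).trans (by rw [φ1, mul_one]))
  obtain ⟨g, g1, g2⟩ := hW (A ∘L R) ⟨f, fun k => φ1 _, r4 ▸ d3, fun hc => by
    have h1 := (hc (lp.evalCLM 𝕜 (fun _ : ℕ => 𝕜) 2 0 ∘L R)).norm.add d2
    rw [norm_zero, add_zero] at h1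
    obtain ⟨k, h2, h3⟩ := ((h1.eventually (gt_mem_nhds (mul_pos B0 hδ))).and hx).exists
    have h4 := lp.norm_apply_le_norm two_ne_zero (R (f k) - (‖B‖ : 𝕜) • star (x k)) 0
    have h5 := norm_sub_norm_le ((‖B‖ : 𝕜) • star (x k 0)) (R (f k) 0)
    rw [norm_sub_rev, norm_smul, nB, norm_star] at h5
    change ‖R (f k) 0 - (‖B‖ : 𝕜) • star (x k 0)‖ ≤ _ at h4
    change ‖R (f k) 0‖ + _ < _ at h2
    nlinarith⟩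
  rw [r4] at g2
  change ‖A (R g)‖ = _ at g2
  have g3 : ‖R g‖ = ‖B‖ := le_antisymm (r2 g g1)
    (le_of_mul_le_mul_left (g2 ▸ A.le_opNorm (R g)) A0)
  rcases hn with hn | hn
  · have h1 := att hn (g3 ▸ B0 : 0 < ‖R g‖)
    rw [g3] at h1
    exact h1.ne g2
  · have h1 := att hn (y := star (R g)) (by rwa [norm_star, g3])
    have h2 := r1 g
    rw [norm_star, g3] at h1
    rw [g1, g3] at h2
    nlinarith

theorem iso_norm {Y : Type} [NormedAddCommGroup Y] [NormedSpace 𝕜 Y] {J : HH 𝕜 →L[𝕜] Y}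
    (hJ : ∀ x, ‖J x‖ = ‖x‖) {x : HH 𝕜} (hx : ‖x‖ = 1) : ‖J‖ = 1 :=
  le_antisymm (J.opNorm_le_bound zero_le_one fun y => by rw [hJ, one_mul])
    (by simpa [hJ, hx] using J.le_opNorm x)

theorem pairB {E F G : Type} [NormedAddCommGroup E] [NormedSpace 𝕜 E] [NormedAddCommGroup F]
    [NormedSpace 𝕜 F] [NormedAddCommGroup G] [NormedSpace 𝕜 G]
    {A : HH 𝕜 →L[𝕜] F} {B : HH 𝕜 →L[𝕜] G} (P : E →L[𝕜] G →L[𝕜] 𝕜)
    (hP : ∀ f g, ‖P f g‖ ≤ ‖f‖ * ‖g‖) (hN : ∀ g, ∃ f, ‖f‖ = 1 ∧ P f g = (‖g‖ : ℝ))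
    (hA : ∀ x, ‖A x‖ = ‖x‖) (hB : Bad B) : ¬WMP 𝕜 E F := by
  obtain ⟨b1, b2, x, δ, hδ, x1, t, hx⟩ := hB
  have n := iso_norm hA (x1 0)
  refine pair A B P hP hN hδ x1 t ?_ hx (n ▸ one_pos) b2 (.inr b1)
  simp only [hA, norm_star, x1, n, tendsto_const_nhds]

theorem pairA {E F G : Type} [NormedAddCommGroup E] [NormedSpace 𝕜 E] [NormedAddCommGroup F]
    [NormedSpace 𝕜 F] [NormedAddCommGroup G] [NormedSpace 𝕜 G]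
    {A : HH 𝕜 →L[𝕜] F} {B : HH 𝕜 →L[𝕜] G} (P : E →L[𝕜] G →L[𝕜] 𝕜)
    (hP : ∀ f g, ‖P f g‖ ≤ ‖f‖ * ‖g‖) (hN : ∀ g, ∃ f, ‖f‖ = 1 ∧ P f g = (‖g‖ : ℝ))
    (hA : Bad A) (hB : ∀ x, ‖B x‖ = ‖x‖) : ¬WMP 𝕜 E F := by
  obtain ⟨b1, b2, x, δ, hδ, x1, t, hx⟩ := hA
  have n := iso_norm hB (x1 0)
  refine pair A B P hP hN (x := fun k => star (x k)) hδ (fun k => by rw [norm_star, x1]) ?_
    (by simpa only [star_star] using t) (hx.mono fun k hk => ?_) b2 (n ▸ one_pos) (.inl b1)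
  · simp only [hB, norm_star, x1, n, tendsto_const_nhds]
  · rwa [lp.star_apply, norm_star]

end Pool.Agent.H91.Wm
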