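import Pool.Agent.H91.Wm1
import Pool.Agent.H91.Wm3

set_option autoImplicit false
open MeasureTheory ProbabilityTheory Filter Topology Set
open scoped ENNReal unitInterval

namespace Pool.Agent.H91.Wm

variable {𝕜 : Type} [RCLike 𝕜]

theorem nI {r : ℝ≥0∞} [hr : Fact (1 ≤ r)] (ht : r ≠ ⊤) (F : Lp 𝕜 r (volume : Measure I)) :
    ‖F‖ = (∫ ω, ‖F ω‖ ^ r.toReal) ^ r.toReal⁻¹ := by
  rw [Lp.norm_def, (Lp.memLp F).eLpNorm_eq_integral_rpow_norm (zero_lt_one.trans_le hr.out).ne' ht,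
    ENNReal.toReal_ofReal (Real.rpow_nonneg (integral_nonneg fun _ => by positivity) _)]

theorem n1 (r : ℝ≥0∞) [hr : Fact (1 ≤ r)] : ‖Lp.const r (volume : Measure I) (1 : 𝕜)‖ = 1 := by
  rw [Lp.norm_const _ _ _ (zero_lt_one.trans_le hr.out).ne']
  simp

theorem hold {p r : ℝ≥0∞} [Fact (1 ≤ p)] [Fact (1 ≤ r)] [p.HolderConjugate r]
    (f : Lp 𝕜 p (volume : Measure I)) (g : Lp 𝕜 r (volume : Measure I)) :
    ‖(ContinuousLinearMap.mul 𝕜 𝕜).lpPairing volume p r f g‖ ≤ ‖f‖ * ‖g‖ := by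
  rw [ContinuousLinearMap.lpPairing_eq_integral,
    ← integral_congr_ae ((ContinuousLinearMap.mul 𝕜 𝕜).coeFn_holder (r := 1) f g)]
  refine (norm_integral_le_integral_norm _).trans ?_
  rw [← L1.norm_eq_integral_norm]
  refine (ContinuousLinearMap.norm_holder_apply_apply_le _ f g).trans ?_
  rw [mul_assoc]
  exact mul_le_of_le_one_left (by positivity) (ContinuousLinearMap.opNorm_mul_le 𝕜 𝕜)

theorem norming {p r : ℝ≥0∞} [hp : Fact (1 ≤ p)] [hr : Fact (1 ≤ r)] [p.HolderConjugate r]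
    (pt : p ≠ ⊤) (rt : r ≠ ⊤) (g : Lp 𝕜 r (volume : Measure I)) :
    ∃ f : Lp 𝕜 p (volume : Measure I), ‖f‖ = 1 ∧
      (ContinuousLinearMap.mul 𝕜 𝕜).lpPairing volume p r f g = (‖g‖ : ℝ) := by
  rcases eq_or_ne g 0 with rfl | hg
  · exact ⟨_, n1 p, by simp⟩
  have g0 := norm_pos_iff.2 hg
  have c := (ENNReal.HolderConjugate.toReal_of_ne_top pt rt).symm
  have gI := nI rt g
  set ρ := r.toReal
  have ρ1 : 1 < ρ := c.lt
  set f0 : I → 𝕜 := fun ω => ((‖g ω‖ ^ (ρ - 2) : ℝ) : 𝕜) * star (g ω) with hf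
  have m0 : AEStronglyMeasurable f0 volume := by
    have := (Lp.aestronglyMeasurable g).aemeasurable
    exact ((RCLike.measurable_ofReal.comp_aemeasurable (this.norm.pow_const _)).mul
      (continuous_star.measurable.comp_aemeasurable this)).aestronglyMeasurable
  have e1 : ∀ ω, ‖f0 ω‖ ^ p.toReal = ‖g ω‖ ^ ρ := fun ω => by
    rw [hf, norm_mul, norm_star, RCLike.norm_ofReal, abs_of_nonneg (by positivity),
      ← Real.rpow_add_one' (norm_nonneg _) (by linarith), ← Real.rpow_mul (norm_nonneg _),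
      show ρ - 2 + 1 = ρ - 1 by ring, c.sub_one_mul_conj]
  have e2 : ∀ ω, f0 ω * g ω = ((‖g ω‖ ^ ρ : ℝ) : 𝕜) := fun ω => by
    rw [hf, mul_assoc, RCLike.star_def, RCLike.conj_mul, ← RCLike.ofReal_pow, ← RCLike.ofReal_mul,
      ← Real.rpow_natCast, ← Real.rpow_add' (norm_nonneg _) (by push_cast; linarith)]
    congr 2
    push_cast
    ring
  have m1 : MemLp f0 p volume := by
    rw [← integrable_norm_rpow_iff m0 (zero_lt_one.trans_le hp.out).ne' pt]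
    simp only [e1]
    exact (Lp.memLp g).integrable_norm_rpow (zero_lt_one.trans_le hr.out).ne' rt
  have e3 : ∫ ω, ‖g ω‖ ^ ρ = ‖g‖ ^ ρ := by
    rw [gI, Real.rpow_inv_rpow (integral_nonneg fun _ => by positivity) (by linarith)]
  have e4 : ‖m1.toLp f0‖ = ‖g‖ ^ (ρ - 1) := by
    rw [nI pt, integral_congr_ae (g := fun ω => ‖g ω‖ ^ ρ)
      (m1.coeFn_toLp.mono fun ω h => by simp only [h, e1]), e3, ← Real.rpow_mul g0.le,
      ← div_eq_mul_inv, c.div_conj_eq_sub_one]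
  have e5 : (ContinuousLinearMap.mul 𝕜 𝕜).lpPairing volume p r (m1.toLp f0) g
      = ((‖g‖ ^ ρ : ℝ) : 𝕜) := by
    rw [ContinuousLinearMap.lpPairing_eq_integral, ← e3, ← integral_ofReal]
    exact integral_congr_ae (m1.coeFn_toLp.mono fun ω h => by
      simp only [h, ContinuousLinearMap.mul_apply', e2])
  have p0 : 0 < ‖g‖ ^ (ρ - 1) := by positivity
  refine ⟨(((‖g‖ ^ (ρ - 1))⁻¹ : ℝ) : 𝕜) • m1.toLp f0, ?_, ?_⟩
  · rw [norm_smul, e4, RCLike.norm_ofReal, abs_of_pos (inv_pos.2 p0), inv_mul_cancel₀ p0.ne']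
  · rw [map_smul, ContinuousLinearMap.smul_apply, e5, smul_eq_mul, ← RCLike.ofReal_mul,
      Real.rpow_sub_one g0.ne']
    congr 1
    field_simp

variable [MeasurableSpace 𝕜] [BorelSpace 𝕜] [SecondCountableTopology 𝕜]

theorem GS.sys {ν : Measure 𝕜} [IsProbabilityMeasure ν] [IsGaussian ν] (h : GS ν) {r : ℝ≥0∞}
    [hr : Fact (1 ≤ r)] (rt : r ≠ ⊤) : ∃ (u : Lp 𝕜 r (volume : Measure I))
      (g : ℕ → Lp 𝕜 r (volume : Measure I)), Sys 𝕜 u g ∧ (2 < r.toReal → ∃ (a0 : 𝕜) (s0 : ℝ),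
      0 ≤ s0 ∧ √(‖a0‖ ^ 2 + s0 ^ 2) < ‖a0 • u + (s0 : 𝕜) • g 0‖) := by
  obtain ⟨X, mX, hX⟩ := h.seq
  have lX : ∀ n, volume.map (X n) = ν := fun n => by simpa using hX {n} fun _ => 1
  have mL : ∀ n, MemLp (X n) r volume := fun n =>
    (memLp_map_measure_iff (g := id) aestronglyMeasurable_id (mX n).aemeasurable).1
      ((lX n).symm ▸ IsGaussian.memLp_id ν r rt)
  set G : ℕ → Lp 𝕜 r (volume : Measure I) := fun n => (mL n).toLp (X n) with hG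
  set u := Lp.const r (volume : Measure I) (1 : 𝕜) with hu
  have ρ0 : 0 < r.toReal := ENNReal.toReal_pos (zero_lt_one.trans_le hr.out).ne' rt
  have key : ∀ (a : 𝕜) (t : Finset ℕ) (c : ℕ → 𝕜), ‖a • u + ∑ n ∈ t, c n • G n‖ =
      (∫ x, ‖a + x‖ ^ r.toReal ∂(ν.map fun x => ((√(∑ n ∈ t, ‖c n‖ ^ 2) : ℝ) : 𝕜) * x))
        ^ r.toReal⁻¹ := fun a t c => by
    have c1 : Continuous fun x : 𝕜 => ‖a + x‖ ^ r.toReal :=
      (continuous_const.add continuous_id).norm.rpow_const fun _ => Or.inr ρ0.le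
    rw [nI rt, ← hX, integral_map (Measurable.aemeasurable (by fun_prop)) c1.aestronglyMeasurable]
    congr 1
    refine integral_congr_ae ?_
    filter_upwards [Lp.coeFn_add (a • u) (∑ n ∈ t, c n • G n), Lp.coeFn_smul a u,
      Lp.coeFn_const r (volume : Measure I) (1 : 𝕜), Lp.coeFn_fun_finsetSum t fun n => c n • G n,
      ae_all_iff.2 fun n => Lp.coeFn_smul (c n) (G n), ae_all_iff.2 fun n => (mL n).coeFn_toLp]
      with ω h1 h2 h3 h4 h5 h6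
    rw [h1, Pi.add_apply, h2, Pi.smul_apply, h3, h4]
    simp only [h5]
    simp only [Pi.smul_apply, hG, h6, smul_eq_mul, Function.const_apply, mul_one]
  have k1 : ∀ a : 𝕜, ‖a • u + G 0‖ = (∫ x, ‖a + x‖ ^ r.toReal ∂ν) ^ r.toReal⁻¹ := fun a => by
    simpa using key a {0} fun _ => 1
  have τ0 : 0 < ‖G 0‖ := norm_pos_iff.2 fun h0 => h.unb 0 (by
    rw [← lX 0]
    refine (ae_map_iff (mX 0).aemeasurable (measurableSet_le (by fun_prop) (by fun_prop))).2 ?_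
    filter_upwards [(mL 0).coeFn_toLp, Lp.coeFn_zero 𝕜 r (volume : Measure I)] with ω h1 h2
    rw [← h1]
    change ‖G 0 ω‖ ≤ 0
    rw [h0, h2]
    simp)
  have nτ : ‖((‖G 0‖⁻¹ : ℝ) : 𝕜)‖ = ‖G 0‖⁻¹ := by
    rw [RCLike.norm_ofReal, abs_of_pos (inv_pos.2 τ0)]
  refine ⟨u, fun n => ((‖G 0‖⁻¹ : ℝ) : 𝕜) • G n, ⟨n1 r, ?_, fun a t c => ?_⟩, fun h2 => ?_⟩
  · rw [norm_smul, nτ, inv_mul_cancel₀ τ0.ne']
  · have h1 := key a {0} fun _ => ((√(∑ n ∈ t, ‖c n‖ ^ 2) : ℝ) : 𝕜) * ((‖G 0‖⁻¹ : ℝ) : 𝕜)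
    rw [Finset.sum_singleton, Finset.sum_singleton] at h1
    simp only [smul_smul]
    rw [h1, key]
    simp only [norm_mul, mul_pow]
    rw [← Finset.sum_mul, RCLike.norm_ofReal (√_), sq_abs, Real.sq_sqrt (by positivity)]
  · have e : ∫ x, ‖x‖ ^ r.toReal ∂ν = ‖G 0‖ ^ r.toReal := by
      have h1 := k1 0
      simp only [zero_smul, zero_add] at h1
      rw [h1, Real.rpow_inv_rpow (integral_nonneg fun _ => by positivity) ρ0.ne']
    obtain ⟨a, ha⟩ := h.strict h2 τ0.le e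
    refine ⟨a, _, τ0.le, ?_⟩
    rw [smul_smul, ← RCLike.ofReal_mul, mul_inv_cancel₀ τ0.ne', RCLike.ofReal_one, one_smul, k1,
      Real.lt_rpow_inv_iff_of_pos (Real.sqrt_nonneg _) (integral_nonneg fun _ => by positivity) ρ0,
      Real.sqrt_eq_rpow, ← Real.rpow_mul (by positivity)]
    convert ha using 2
    ring

theorem GS.fail {ν : Measure 𝕜} [IsProbabilityMeasure ν] [IsGaussian ν] (h : GS ν) (p q : ℝ≥0∞)
    [Fact (1 ≤ p)] [Fact (1 ≤ q)] (p1 : 1 < p) (p2 : p ≤ 2) (q2 : 2 ≤ q) (qt : q ≠ ⊤)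
    (hne : ¬(p = 2 ∧ q = 2)) :
    ¬WMP 𝕜 (Lp 𝕜 p (volume : Measure I)) (Lp 𝕜 q (volume : Measure I)) := by
  have pt : p ≠ ⊤ := ne_top_of_le_ne_top ENNReal.ofNat_ne_top p2
  haveI : Fact (1 ≤ p.conjExponent) := ⟨ENNReal.HolderConjugate.one_le _ p⟩
  have rt : p.conjExponent ≠ ⊤ := (ENNReal.HolderConjugate.ne_top_iff_ne_one _ p).2 p1.ne'
  have c := ENNReal.HolderConjugate.toReal_of_ne_top pt rt
  obtain ⟨u, g, s1, s2⟩ := h.sys rt
  obtain ⟨v, k, t1, t2⟩ := h.sys qt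
  rcases p2.lt_or_eq with p3 | p3
  · have h1 : p.toReal < 2 := by simpa using (ENNReal.toReal_lt_toReal pt ENNReal.ofNat_ne_top).2 p3
    obtain ⟨a, s, s0, hs⟩ := s2 (by nlinarith [c.sub_one_mul_conj, c.lt, c.symm.lt])
    obtain ⟨B, hB⟩ := s1.bad s0 hs
    obtain ⟨A, hA⟩ := t1.iso
    exact pairB _ hold (norming pt rt) hA hB
  · have h1 : 2 < q.toReal := by
      simpa using (ENNReal.toReal_lt_toReal ENNReal.ofNat_ne_top qt).2
        (q2.lt_of_ne fun e => hne ⟨p3, e.symm⟩)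
    obtain ⟨a, s, s0, hs⟩ := t2 h1
    obtain ⟨A, hA⟩ := t1.bad s0 hs
    obtain ⟨B, hB⟩ := s1.iso
    exact pairA _ hold (norming pt rt) hA hB

theorem main : ∀ (p q : ENNReal) [Fact (1 ≤ p)] [Fact (1 ≤ q)], 1 < p → p ≤ 2 → 2 ≤ q → q ≠ ⊤ →
    ¬(p = 2 ∧ q = 2) →
    ¬Pool.Agent.H91.Wm.WMP ℝ
        (MeasureTheory.Lp ℝ p (MeasureTheory.volume : MeasureTheory.Measure unitInterval))
        (MeasureTheory.Lp ℝ q (MeasureTheory.volume : MeasureTheory.Measure unitInterval)) ∧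
      ¬Pool.Agent.H91.Wm.WMP ℂ
        (MeasureTheory.Lp ℂ p (MeasureTheory.volume : MeasureTheory.Measure unitInterval))
        (MeasureTheory.Lp ℂ q (MeasureTheory.volume : MeasureTheory.Measure unitInterval)) :=
  fun p q _ _ p1 p2 q2 qt hne =>
    ⟨GS.fail (ν := stdGaussian ℝ) charFunDual_stdGaussian p q p1 p2 q2 qt hne,
      GS.fail (ν := stdGaussian ℂ) charFunDual_stdGaussian p q p1 p2 q2 qt hne⟩

end Pool.Agent.H91.Wm
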