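import Pool.Agent.H91.Wm2

set_option autoImplicit false
open Filter Topology Set
open scoped ZeroAtInfty

namespace Pool.Agent.H91.Wm.C0

variable {𝕜 : Type} [RCLike 𝕜] {E : Type} [NormedAddCommGroup E] [NormedSpace 𝕜 E]

theorem sep (Z : Submodule 𝕜 E) (hZ : IsClosed (Z : Set E)) {x : E}
    (h : ∀ Φ : StrongDual 𝕜 E, (∀ z ∈ Z, Φ z = 0) → Φ x = 0) : x ∈ Z := by
  rw [← Submodule.Quotient.mk_eq_zero]
  refine SeparatingDual.eq_zero_of_forall_dual_eq_zero (R := 𝕜) fun f => ?_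
  exact h (f ∘L Z.mkQL) fun z hz => by
    show f (Submodule.Quotient.mk z) = 0
    rw [(Submodule.Quotient.mk_eq_zero Z).2 hz, map_zero]

theorem near (f : StrongDual 𝕜 E) {y : E} (hy : ‖y‖ = 1) {ε : ℝ} (hε : 0 < ε) :
    ∃ x : E, ‖x‖ = 1 ∧ ‖f‖ - ε < ‖f x‖ := by
  rcases lt_or_ge (‖f‖ - ε) 0 with h | h
  · exact ⟨y, hy, h.trans_le (norm_nonneg _)⟩
  obtain ⟨x, h1, h2⟩ := f.exists_nnnorm_eq_one_lt_apply_of_lt_opNNNorm (r := ⟨_, h⟩)
    (sub_lt_self _ hε)
  exact ⟨x, by simpa using congrArg NNReal.toReal h1, h2⟩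

theorem subseq (hR : Function.Surjective (NormedSpace.inclusionInDoubleDual 𝕜 E))
    (F : ℕ → StrongDual 𝕜 E) {M : ℝ} (hM : ∀ k, ‖F k‖ ≤ M) :
    ∃ (G : StrongDual 𝕜 E) (φ : ℕ → ℕ), StrictMono φ ∧
      ∀ x, Tendsto (fun j => F (φ j) x) atTop (𝓝 (G x)) := by
  set K : Set (WeakDual 𝕜 E) := closure (range fun k => StrongDual.toWeakDual (F k)) with hK
  have cK : IsCompact K := (WeakDual.isCompact_closedBall (0 : StrongDual 𝕜 E) M).of_isClosed_subset
    isClosed_closure (closure_minimal (by rintro _ ⟨k, rfl⟩; simpa using hM k)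
      (WeakDual.isClosed_closedBall 0 M))
  set Z := (Submodule.span 𝕜 (range F)).topologicalClosure with hZ
  have KZ : ∀ G ∈ K, WeakDual.toStrongDual G ∈ Z := fun G hG =>
    sep Z (Submodule.isClosed_topologicalClosure _) fun Φ hΦ => by
      obtain ⟨x, rfl⟩ := hR Φ
      exact closure_minimal (t := {H : WeakDual 𝕜 E | H x = 0}) (by
        rintro _ ⟨k, rfl⟩
        exact hΦ _ (Submodule.le_topologicalClosure _ (Submodule.subset_span ⟨k, rfl⟩)))
        (isClosed_eq (WeakDual.eval_continuous x) continuous_const) hG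
  obtain ⟨c, hc, hz⟩ : TopologicalSpace.IsSeparable (Z : Set (StrongDual 𝕜 E)) :=
    (countable_range F).isSeparable.span.closure
  have hd : ∀ w : StrongDual 𝕜 E, ∃ d : E, ‖d‖ ≤ 1 ∧ ‖w‖ / 2 ≤ ‖w d‖ := fun w => by
    rcases eq_or_ne w 0 with rfl | h
    · exact ⟨0, by simp, by simp⟩
    obtain ⟨d, h1, h2⟩ := w.exists_lt_apply_of_lt_opNorm (half_lt_self (norm_pos_iff.2 h))
    exact ⟨d, h1.le, h2.le⟩
  choose d d1 d2 using hd
  have := hc.toEncodable
  have := isCompact_iff_compactSpace.1 cK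
  have : TopologicalSpace.MetrizableSpace K :=
    Metric.PiNatEmbed.TopologicalSpace.MetrizableSpace.of_countable_separating
      (fun (w : c) (k : K) => k.1 (d w))
      (fun w => (WeakDual.eval_continuous _).comp continuous_subtype_val) fun a b hab => by
        by_contra hn
        simp only [not_exists, not_not] at hn
        set G := WeakDual.toStrongDual a.1 - WeakDual.toStrongDual b.1 with hG
        have h1 := closure_minimal (t := {w | ‖w‖ / 2 ≤ ‖w - G‖}) (fun w hw => by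
          have h2 : G (d w) = 0 := sub_eq_zero.2 (hn ⟨w, hw⟩)
          have h3 := (w - G).unit_le_opNorm _ (d1 w)
          rw [ContinuousLinearMap.sub_apply, h2, sub_zero] at h3
          exact (d2 w).trans h3) (isClosed_le (by fun_prop) (by fun_prop))
          (hz (Z.sub_mem (KZ _ a.2) (KZ _ b.2)))
        rw [mem_setOf_eq, sub_self, norm_zero] at h1
        have h4 : G = 0 := norm_le_zero_iff.1 (by linarith)
        exact hab (Subtype.ext (WeakDual.toStrongDual.injective (sub_eq_zero.1 h4)))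
  obtain ⟨G, φ, h1, h2⟩ := CompactSpace.tendsto_subseq (X := K)
    fun k => ⟨StrongDual.toWeakDual (F k), subset_closure ⟨k, rfl⟩⟩
  exact ⟨WeakDual.toStrongDual G.1, φ, h1, fun x =>
    (((WeakDual.eval_continuous x).comp continuous_subtype_val).tendsto G).comp h2⟩

theorem attain (hR : Function.Surjective (NormedSpace.inclusionInDoubleDual 𝕜 E))
    (Y : Submodule 𝕜 E) (hY : IsClosed (Y : Set E)) (f : StrongDual 𝕜 Y) (hf : 0 < ‖f‖) :
    ∃ x : Y, ‖x‖ = 1 ∧ ‖f x‖ = ‖f‖ := by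
  obtain ⟨Φ, p1, p2⟩ := exists_dual_vector 𝕜 f hf.ne'
  obtain ⟨x, hx⟩ := hR (Φ ∘L Y.subtypeL.precomp 𝕜)
  have e : ∀ G : StrongDual 𝕜 E, G x = Φ (G ∘L Y.subtypeL) := fun G => congr($hx G)
  have xY : x ∈ Y := sep Y hY fun G hG => by
    rw [e, show G ∘L Y.subtypeL = 0 from ContinuousLinearMap.ext fun y => hG y y.2, map_zero]
  obtain ⟨g, g1, g2⟩ := exists_dual_vector'' 𝕜 x
  have x1 : ‖x‖ ≤ 1 := by
    have h1 := Φ.le_opNorm (g ∘L Y.subtypeL)
    rw [← e, g2, p1, one_mul, RCLike.norm_ofReal, abs_norm] at h1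
    exact h1.trans (ContinuousLinearMap.opNorm_le_bound _ zero_le_one fun y =>
      (g.le_opNorm y).trans (mul_le_mul_of_nonneg_right g1 (norm_nonneg _)))
  obtain ⟨G, G1, -⟩ := exists_extension_norm_eq Y f
  have h2 : ‖f ⟨x, xY⟩‖ = ‖f‖ := by
    rw [← G1, e, show G ∘L Y.subtypeL = f from ContinuousLinearMap.ext G1, p2, RCLike.norm_ofReal,
      abs_norm]
  refine ⟨⟨x, xY⟩, le_antisymm x1 ?_, h2⟩
  have h3 := f.le_opNorm ⟨x, xY⟩
  rw [h2] at h3
  exact (le_mul_iff_one_le_right hf).1 h3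

theorem cle (y : C₀(ℕ, 𝕜)) (n : ℕ) : ‖y n‖ ≤ ‖y‖ := y.toBCF.norm_coe_le_norm n

theorem cle' (y : C₀(ℕ, 𝕜)) {r : ℝ} (r0 : 0 ≤ r) (h : ∀ n, ‖y n‖ ≤ r) : ‖y‖ ≤ r :=
  (BoundedContinuousFunction.norm_le (f := y.toBCF) r0).2 h

theorem top (y : C₀(ℕ, 𝕜)) : ∃ n, ‖y n‖ = ‖y‖ := by
  rcases eq_or_ne y 0 with rfl | h
  · exact ⟨0, by simp⟩
  obtain ⟨m, hm⟩ : ∃ m, y m ≠ 0 := not_forall.1 fun h1 => h (ZeroAtInftyContinuousMap.ext h1)
  have t := (zero_at_infty y).norm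
  rw [norm_zero] at t
  obtain ⟨n, hn⟩ := (continuous_of_discreteTopology (f := fun n => ‖y n‖)).exists_forall_ge' m
    ((t.eventually (gt_mem_nhds (norm_pos_iff.2 hm))).mono fun _ => le_of_lt)
  exact ⟨n, le_antisymm (cle y n) (cle' y (norm_nonneg _) hn)⟩

theorem wnull (hW : WMP 𝕜 E C₀(ℕ, 𝕜)) {H : ℕ → StrongDual 𝕜 E}
    (hH : ∀ z, Tendsto (fun j => H j z) atTop (𝓝 0)) {N : ℕ → ℝ} {M : ℝ} (M0 : 0 < M)
    (hM : ∀ j, M ≤ N j) (hN : ∀ j, ‖H j‖ ≤ N j) {z : ℕ → E} (z1 : ∀ j, ‖z j‖ = 1)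
    (hz : Tendsto (fun j => N j - ‖H j (z j)‖) atTop (𝓝 0)) (g : StrongDual 𝕜 E) :
    Tendsto (fun j => g (z j)) atTop (𝓝 0) := by
  set e : ℕ → ℝ := fun n => n / (n + 1) with he
  have e0 : ∀ n, 0 ≤ e n ∧ e n < 1 := fun n =>
    ⟨by positivity, (div_lt_one (by positivity)).2 (lt_add_one _)⟩
  have N0 : ∀ j, 0 < N j := fun j => M0.trans_le (hM j)
  have n1 : ∀ j w, ‖((e j / N j : ℝ) : 𝕜) * H j w‖ = e j * (‖H j w‖ / N j) := fun j w => by
    rw [norm_mul, RCLike.norm_ofReal, abs_of_nonneg (div_nonneg (e0 j).1 (N0 j).le)]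
    ring
  have n2 : ∀ j w, ‖((e j / N j : ℝ) : 𝕜) * H j w‖ ≤ e j * ‖w‖ := fun j w => by
    rw [n1]
    refine mul_le_mul_of_nonneg_left ((div_le_iff₀' (N0 j)).2 ?_) (e0 j).1
    exact ((H j).le_opNorm w).trans (mul_le_mul_of_nonneg_right (hN j) (norm_nonneg _))
  have n3 : ∀ w, Tendsto (fun j => ((e j / N j : ℝ) : 𝕜) * H j w) (cocompact ℕ) (𝓝 0) := fun w => by
    have t := (hH w).norm.div_const M
    rw [norm_zero, zero_div] at t
    rw [cocompact_eq_cofinite, Nat.cofinite_eq_atTop]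
    refine squeeze_zero_norm (fun j => ?_) t
    rw [n1]
    exact (mul_le_of_le_one_left (div_nonneg (norm_nonneg _) (N0 j).le) (e0 j).2.le).trans
      (div_le_div_of_nonneg_left (norm_nonneg _) M0 (hM j))
  let S : E →L[𝕜] C₀(ℕ, 𝕜) := LinearMap.mkContinuous
    ⟨⟨fun w => ⟨⟨fun j => ((e j / N j : ℝ) : 𝕜) * H j w, continuous_of_discreteTopology⟩, n3 w⟩,
      fun a b => ZeroAtInftyContinuousMap.ext fun j => by simp [mul_add]⟩,
      fun a b => ZeroAtInftyContinuousMap.ext fun j => by simp [mul_left_comm]⟩ 1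
    fun w => cle' _ (by positivity) fun j =>
      (n2 j w).trans (mul_le_mul_of_nonneg_right (e0 j).2.le (norm_nonneg _))
  have s1 : ‖S‖ ≤ 1 := LinearMap.mkContinuous_norm_le _ zero_le_one _
  have t : Tendsto (fun j => ‖S (z j)‖) atTop (𝓝 1) := by
    have h1 := (tendsto_natCast_div_add_atTop (1:ℝ)).mul ((hz.div_const M).const_sub 1)
    rw [zero_div, sub_zero, one_mul] at h1
    refine tendsto_of_tendsto_of_tendsto_of_le_of_le h1 tendsto_const_nhds (fun j => ?_)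
      fun j => (S.le_opNorm _).trans (by rw [z1, mul_one]; exact s1)
    refine le_trans ?_ ((n1 j (z j)).ge.trans (cle (S (z j)) j))
    refine mul_le_mul_of_nonneg_left ?_ (e0 j).1
    have h2 : ‖H j (z j)‖ ≤ N j := ((H j).unit_le_opNorm _ (z1 j).le).trans (hN j)
    have h3 := div_le_div_of_nonneg_left (sub_nonneg.2 h2) M0 (hM j)
    rw [sub_div, div_self (N0 j).ne'] at h3
    linarith
  have s2 : ‖S‖ = 1 := le_antisymm s1 (le_of_tendsto' t fun j => S.unit_le_opNorm _ (z1 j).le)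
  by_contra hc
  obtain ⟨w, w1, w2⟩ := hW S ⟨z, z1, s2 ▸ t, fun h => hc (h g)⟩
  obtain ⟨j, hj⟩ := top (S w)
  have h4 := n2 j w
  change ‖S w j‖ ≤ _ at h4
  rw [hj, w2, s2, w1, mul_one] at h4
  exact absurd (e0 j).2 (not_lt.2 h4)

theorem sub0 (hR : Function.Surjective (NormedSpace.inclusionInDoubleDual 𝕜 E))
    (Y : Submodule 𝕜 E) (hY : IsClosed (Y : Set E)) (hW : WMP 𝕜 E C₀(ℕ, 𝕜)) :
    WMP 𝕜 Y C₀(ℕ, 𝕜) := by
  rintro T ⟨x, x1, tx, hx⟩
  rcases (norm_nonneg T).eq_or_lt with T0 | T0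
  · exact ⟨x 0, x1 0, le_antisymm (T.unit_le_opNorm _ (x1 0).le) (T0 ▸ norm_nonneg _)⟩
  by_contra hna
  let f : ℕ → StrongDual 𝕜 Y := fun n => (LinearMap.mkContinuous
    ⟨⟨fun y : C₀(ℕ, 𝕜) => y n, fun _ _ => rfl⟩, fun _ _ => rfl⟩ 1
      fun y => (cle y n).trans (one_mul _).ge) ∘L T
  have ef : ∀ n u, f n u = T u n := fun _ _ => rfl
  have f1 : ∀ n, ‖f n‖ < ‖T‖ := fun n => by
    by_contra hc
    obtain ⟨u, u1, u2⟩ := attain hR Y hY (f n) (T0.trans_le (not_lt.1 hc))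
    exact hna ⟨u, u1, le_antisymm (T.unit_le_opNorm _ u1.le)
      ((not_lt.1 hc).trans (u2.ge.trans (cle (T u) n)))⟩
  choose n hn using fun k => top (T (x k))
  have tn : Tendsto n atTop atTop := tendsto_atTop.2 fun b =>
    ((eventually_all_finset (Finset.range b)).2 fun i _ =>
      tx.eventually (lt_mem_nhds (f1 i))).mono fun k hk => not_lt.1 fun h => by
        have h1 := hk _ (Finset.mem_range.2 h)
        have h2 := (f (n k)).unit_le_opNorm _ (x1 k).le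
        rw [ef, hn] at h2
        linarith
  choose F F1 F2 using fun m => exists_extension_norm_eq Y (f m)
  refine hx fun φ => tendsto_of_subseq_tendsto fun ns hns => ?_
  obtain ⟨G, ms, hms, hG⟩ := subseq hR (fun k => F (n (ns k))) fun k => (F2 _).le.trans (f1 _).le
  have tk : Tendsto (fun j => ns (ms j)) atTop atTop := hns.comp hms.tendsto_atTop
  have G0 : ∀ u : Y, G u = 0 := fun u => by
    have t := zero_at_infty (T u)
    rw [cocompact_eq_cofinite, Nat.cofinite_eq_atTop] at t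
    exact tendsto_nhds_unique (hG u) ((t.comp (tn.comp tk)).congr fun j => (F1 _ u).symm)
  set H : ℕ → StrongDual 𝕜 E := fun j => F (n (ns (ms j))) - G with hH
  have H0 : ∀ z, Tendsto (fun j => H j z) atTop (𝓝 0) := fun z => by
    simpa [hH] using (hG z).sub_const (G z)
  have H1 : ∀ j, ‖H j (x (ns (ms j)))‖ = ‖T (x (ns (ms j)))‖ := fun j => by
    rw [hH, ContinuousLinearMap.sub_apply, G0, sub_zero, F1, ef, hn]
  have ta := (tx.comp tk).const_sub ‖T‖
  rw [sub_self] at ta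
  have a0 : ∀ j, ‖T (x (ns (ms j)))‖ ≤ ‖T‖ := fun j => T.unit_le_opNorm _ (x1 _).le
  have a1 : ∀ j, ‖T (x (ns (ms j)))‖ ≤ ‖H j‖ := fun j =>
    (H1 j).ge.trans ((H j).unit_le_opNorm _ (x1 _).le)
  choose z z1 z2 using fun j : ℕ => near (H j) (y := x 0) (x1 0)
    (show 0 < 1 / ((j:ℝ) + 1) by positivity)
  have tz : Tendsto (fun j => max ‖H j‖ ‖T‖ - ‖H j (z j)‖) atTop (𝓝 0) := by
    have t := ta.add tendsto_one_div_add_atTop_nhds_zero_nat
    rw [add_zero] at t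
    refine squeeze_zero (fun j => sub_nonneg.2 (((H j).unit_le_opNorm _ (z1 j).le).trans
      (le_max_left _ _))) (fun j => ?_) t
    have := z2 j
    have := a0 j
    have := a1 j
    rcases max_cases ‖H j‖ ‖T‖ with h | h <;> simp only [Function.comp] <;> linarith [h.1]
  have tG := (wnull hW H0 T0 (fun j => le_max_right _ _) (fun j => le_max_left _ _) z1 tz G).norm
  obtain ⟨Φ, p1, -⟩ := exists_extension_norm_eq Y φ
  refine ⟨ms, (wnull hW H0 T0 (fun j => le_max_right _ _) (fun j => le_max_left _ _)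
    (z := fun j => x (ns (ms j))) (fun j => x1 _) ?_ Φ).congr fun j => p1 _⟩
  have t := (tz.add tG).add ta
  rw [norm_zero, add_zero, add_zero] at t
  refine squeeze_zero (fun j => sub_nonneg.2 (((H j).unit_le_opNorm _ (x1 _).le).trans
    (le_max_left _ _))) (fun j => ?_) t
  have h1 := norm_sub_le (F (n (ns (ms j))) (z j)) (G (z j))
  have h2 := ((F (n (ns (ms j)))).unit_le_opNorm _ (z1 j).le).trans ((F2 _).le.trans (f1 _).le)
  change ‖H j (z j)‖ ≤ _ at h1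
  rw [H1]
  simp only [Function.comp]
  linarith

theorem main : ∀ (𝕜 : Type) [RCLike 𝕜] (E : Type) [NormedAddCommGroup E] [NormedSpace 𝕜 E],
    Function.Surjective (NormedSpace.inclusionInDoubleDual 𝕜 E) →
    ∀ Y : Submodule 𝕜 E, IsClosed (Y : Set E) →
      Pool.Agent.H91.Wm.WMP 𝕜 E (ZeroAtInftyContinuousMap ℕ 𝕜) →
      Pool.Agent.H91.Wm.WMP 𝕜 Y (ZeroAtInftyContinuousMap ℕ 𝕜) :=
  fun _ _ _ _ _ hR Y hY hW => sub0 hR Y hY hW

end Pool.Agent.H91.Wm.C0
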