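import Mathlib

set_option autoImplicit false

namespace Pool.Agent.H91.XRay

open Set Filter Topology MeasureTheory Finset

def Supp (T : ℝ) (W : ℝ × ℝ → ℝ) : Prop := ∀ p, W p ≠ 0 → 1 ≤ p.2 ∧ p.2 ≤ T ∧ |p.1| ≤ p.2
noncomputable def X (a : ℝ) (W : ℝ × ℝ → ℝ) (c : ℝ) : ℝ := ∫ τ, W (c + a * τ, τ)
def sh (a j : ℝ) (W : ℝ × ℝ → ℝ) : ℝ × ℝ → ℝ := fun p => W (p.1 - a * j, p.2 - j)
def E (W : ℝ × ℝ → ℝ) : ℝ × ℝ → ℝ := fun p => W p - sh 0 1 W p
noncomputable def A (N : ℕ) (a : ℝ) (W : ℝ × ℝ → ℝ) : ℝ × ℝ → ℝ :=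
  fun p => (N : ℝ)⁻¹ * ∑ j ∈ range N, sh a j W p
def Cl (U V : ℝ × ℝ → ℝ) (d : ℝ) : Prop := ∀ p, |U p - V p| ≤ d
def Md (W : ℝ × ℝ → ℝ) (η d : ℝ) : Prop := ∀ (p : ℝ × ℝ) (h : ℝ), |h| ≤ η → |W (p.1 - h, p.2) - W p| ≤ d

variable {W U V : ℝ × ℝ → ℝ} {T : ℝ}

theorem cont_sh (h : Continuous W) (a j : ℝ) : Continuous (sh a j W) := by
  unfold sh; fun_prop

theorem cont_E (h : Continuous W) : Continuous (E W) := h.sub (cont_sh h 0 1)

theorem cont_A (h : Continuous W) (N : ℕ) (a : ℝ) : Continuous (A N a W) :=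
  continuous_const.mul (continuous_finsetSum _ fun j _ => cont_sh h a j)

theorem Supp.mono (h : Supp T W) {T' : ℝ} (hT : T ≤ T') : Supp T' W := fun p hp =>
  ⟨(h p hp).1, (h p hp).2.1.trans hT, (h p hp).2.2⟩

theorem Supp.sh (h : Supp T W) {a j : ℝ} (ha : |a| ≤ 1) (hj : 0 ≤ j) : Supp (T + j) (sh a j W) := by
  intro p hp
  obtain ⟨h1, h2, h3⟩ := h _ hp
  simp only at h1 h2 h3
  refine ⟨by linarith, by linarith, ?_⟩
  have h4 : |a * j| ≤ j := by
    rw [abs_mul, abs_of_nonneg hj]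
    exact mul_le_of_le_one_left hj ha
  have := abs_add_le (p.1 - a * j) (a * j)
  rw [sub_add_cancel] at this
  linarith

theorem Supp.sub (h : Supp T U) (h' : Supp T V) : Supp T (fun p => U p - V p) := by
  intro p hp
  by_cases hU : U p = 0
  · exact h' p (fun hV => hp (by simp [hU, hV]))
  · exact h p hU

theorem Supp.E (h : Supp T W) : Supp (T + 1) (E W) :=
  (h.mono (by linarith)).sub (h.sh (by simp) zero_le_one)

theorem Supp.A (h : Supp T W) (N : ℕ) {a : ℝ} (ha : |a| ≤ 1) : Supp (T + N) (A N a W) := by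
  intro p hp
  obtain ⟨j, hj, hj'⟩ := exists_ne_zero_of_sum_ne_zero (right_ne_zero_of_mul hp)
  refine (h.sh ha (Nat.cast_nonneg j)).mono ?_ p hj'
  have : (j : ℝ) ≤ N := by exact_mod_cast (mem_range.1 hj).le
  linarith

theorem integ (hc : Continuous W) (h : Supp T W) (a c : ℝ) :
    Integrable (fun τ : ℝ => W (c + a * τ, τ)) := by
  refine Continuous.integrable_of_hasCompactSupport (by fun_prop) ?_
  refine HasCompactSupport.intro (isCompact_Icc (a := (1 : ℝ)) (b := T)) fun τ hτ => ?_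
  by_contra hh
  exact hτ ⟨(h _ hh).1, (h _ hh).2.1⟩

theorem X_sh (a b j c : ℝ) : X b (sh a j W) c = X b W (c + (b - a) * j) := by
  unfold X sh
  rw [← integral_add_right_eq_self _ j]
  congr 1
  funext τ
  congr 2 <;> ring

theorem X_sub (hU : Continuous U) (h : Supp T U) (hV : Continuous V) (h' : Supp T V) (a c : ℝ) :
    X a (fun p => U p - V p) c = X a U c - X a V c :=
  integral_sub (integ hU h a c) (integ hV h' a c)

theorem X_A (hc : Continuous W) (h : Supp T W) (N : ℕ) {a : ℝ} (ha : |a| ≤ 1) (b c : ℝ) :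
    X b (A N a W) c = (N : ℝ)⁻¹ * ∑ j ∈ range N, X b W (c + (b - a) * j) := by
  simp only [← X_sh]
  unfold X A
  rw [integral_const_mul, integral_finsetSum]
  intro j _
  exact integ (cont_sh hc a j) (h.sh ha (Nat.cast_nonneg j)) b c

theorem Z_E (hc : Continuous W) (h : Supp T W) (b : ℝ) (hz : ∀ c, X b W c = 0) (c : ℝ) :
    X b (E W) c = 0 := by
  unfold E
  rw [X_sub hc (h.mono (by linarith)) (cont_sh hc 0 1) (h.sh (by simp) zero_le_one), X_sh, hz, hz,
    sub_zero]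

theorem Cl.E {d : ℝ} (h : Cl U V d) : Cl (E U) (E V) (2 * d) := by
  intro p
  have h1 := h p
  have h2 := h (p.1 - 0 * 1, p.2 - 1)
  simp only [XRay.E, XRay.sh]
  rw [abs_le] at *
  constructor <;> linarith [h1.1, h1.2, h2.1, h2.2]

theorem avg_le (N : ℕ) (hN : 0 < N) (u v : ℕ → ℝ) (d : ℝ) (h : ∀ j < N, |u j - v j| ≤ d) :
    |(N : ℝ)⁻¹ * ∑ j ∈ range N, u j - (N : ℝ)⁻¹ * ∑ j ∈ range N, v j| ≤ d := by
  have hN' : (0 : ℝ) < N := by exact_mod_cast hN
  rw [← mul_sub, ← sum_sub_distrib, abs_mul, abs_of_pos (inv_pos.2 hN'), inv_mul_le_iff₀ hN']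
  refine (abs_sum_le_sum_abs _ _).trans ((sum_le_sum fun j hj => h j (mem_range.1 hj)).trans ?_)
  simp

theorem Cl.A {d : ℝ} (h : Cl U V d) {N : ℕ} (hN : 0 < N) (a : ℝ) : Cl (A N a U) (A N a V) d :=
  fun _ => avg_le N hN _ _ d fun _ _ => h _

theorem Cl.trans {d e : ℝ} (h : Cl U V d) (h' : Cl V W e) : Cl U W (d + e) := fun p =>
  (abs_sub_le _ _ _).trans (add_le_add (h p) (h' p))

theorem Md.A {η d : ℝ} (h : Md W η d) {N : ℕ} (hN : 0 < N) (a : ℝ) : Md (A N a W) η d := by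
  intro p x hx
  refine avg_le N hN _ _ d fun j _ => ?_
  have := h (p.1 - a * j, p.2 - j) x hx
  simp only [sh]
  rwa [sub_right_comm]

theorem Md.cl {η d : ℝ} (h : Md W η d) {N : ℕ} (hN : 0 < N) {a : ℝ} (ha : |a| * N ≤ η) :
    Cl (XRay.A N a W) (XRay.A N 0 W) d := by
  intro p
  refine avg_le N hN _ _ d fun j hj => ?_
  have := h (p.1, p.2 - j) (a * j) (by
    rw [abs_mul, Nat.abs_cast]
    refine le_trans (mul_le_mul_of_nonneg_left ?_ (abs_nonneg a)) ha
    exact_mod_cast hj.le)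
  simpa [sh] using this

theorem comm (N : ℕ) (a : ℝ) (W : ℝ × ℝ → ℝ) : A N a (E W) = E (A N a W) := by
  funext p
  simp only [A, E, sh]
  rw [← mul_sub, ← sum_sub_distrib]
  congr 1
  refine sum_congr rfl fun j _ => ?_
  congr 3 <;> ring

theorem EA {M : ℝ} (h : Cl W 0 M) {N : ℕ} (hN : 0 < N) : Cl (E (A N 0 W)) 0 (2 * M / N) := by
  intro p
  have hN' : (0 : ℝ) < N := by exact_mod_cast hN
  have e : E (A N 0 W) p = (N : ℝ)⁻¹ * (W p - W (p.1, p.2 - N)) := by
    simp only [A, E, sh]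
    rw [← mul_sub, ← sum_sub_distrib]
    congr 1
    have := sum_range_sub' (fun j : ℕ => W (p.1, p.2 - j)) N
    simp only [Nat.cast_zero, sub_zero, Nat.cast_add, Nat.cast_one] at this
    rw [← this]
    refine sum_congr rfl fun j _ => ?_
    congr 3 <;> ring
  have h1 := h p
  have h2 := h (p.1, p.2 - N)
  simp only [Pi.zero_apply, sub_zero] at h1 h2 ⊢
  rw [e, abs_mul, abs_of_pos (inv_pos.2 hN'), inv_mul_eq_div]
  refine div_le_div_of_nonneg_right ((abs_sub _ _).trans (by linarith)) hN'.le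

theorem compSupp (h : Supp T W) : HasCompactSupport W := by
  refine HasCompactSupport.intro
    ((isCompact_Icc (a := -T) (b := T)).prod (isCompact_Icc (a := (1 : ℝ)) (b := T))) fun p hp => ?_
  by_contra hh
  obtain ⟨h1, h2, h3⟩ := h _ hh
  exact hp ⟨abs_le.1 (h3.trans h2), h1, h2⟩

def Good (W : ℝ × ℝ → ℝ) : Prop := Continuous W ∧ ∃ T, Supp T W

theorem step (hW : Good W) (ε η : ℝ) (hε : 0 < ε) (hη : 0 < η) :
    ∃ a, 0 < a ∧ a < η ∧ ∃ W', Good W' ∧ (∀ b, (∀ c, X b W c = 0) → ∀ c, X b W' c = 0) ∧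
      (∀ c, X a W' c = 0) ∧ ∀ p, p.2 ^ 2 * |E (E (E W')) p - E (E (E W)) p| ≤ ε := by
  obtain ⟨hc, T0, hT0⟩ := hW
  set T := max T0 0 with hTd
  have hT : Supp T W := hT0.mono (le_max_left _ _)
  have hT' : 0 ≤ T := le_max_right _ _
  obtain ⟨M, hM⟩ := hc.bounded_above_of_compact_support (compSupp hT)
  have hM0 : 0 ≤ M := (norm_nonneg _).trans (hM 0)
  have hM' : Cl W 0 M := fun p => by simpa using hM p
  obtain ⟨N, hN⟩ := exists_nat_gt (T + 3 + 256 * M / ε)
  have hq : 0 ≤ 256 * M / ε := by positivity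
  have hN1 : T + 3 ≤ N := by linarith
  have hN' : (0 : ℝ) < N := by linarith
  have hN0 : 0 < N := by exact_mod_cast hN'
  have hN2 : 256 * M ≤ N * ε := by
    rw [← div_le_iff₀ hε]; linarith
  set d : ℝ := ε / (768 * N ^ 2) with hd
  have hd0 : 0 < d := by positivity
  obtain ⟨r, hr, hr'⟩ := Metric.uniformContinuous_iff.1
    ((compSupp hT).uniformContinuous_of_continuous hc) d hd0
  have hMd : Md W (r / 2) d := by
    intro p h hh
    refine (hr' ?_).le
    rw [Prod.dist_eq]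
    simp only [dist_self, Real.dist_eq, sub_sub_cancel_left, abs_neg]
    exact max_lt (by linarith) hr
  set a : ℝ := min (min (η / 2) 1) (r / 2 / N) with had
  have ha0 : 0 < a := by positivity
  have ha1 : |a| ≤ 1 := by
    rw [abs_of_pos ha0]; exact (min_le_left _ _).trans (min_le_right _ _)
  have ha2 : |a| * N ≤ r / 2 := by
    rw [abs_of_pos ha0, ← le_div_iff₀ hN']; exact min_le_right _ _
  have c1 := cont_A hc N a
  have c2 := cont_A c1 N a
  have c3 := cont_A c2 N a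
  have s1 := hT.A N ha1
  have s2 := s1.A N ha1
  have s3 := s2.A N ha1
  have s0 : Supp (T + N + N + N) W := hT.mono (by linarith)
  refine ⟨a, ha0, lt_of_le_of_lt ((min_le_left _ _).trans (min_le_left _ _)) (by linarith),
    fun p => W p - A N a (A N a (A N a W)) p, ⟨hc.sub c3, _, s0.sub s3⟩, ?_, ?_, ?_⟩
  · intro b hb c
    rw [X_sub hc s0 c3 s3, X_A c2 s2 N ha1]
    simp [X_A c1 s1 N ha1, X_A hc hT N ha1, hb]
  · intro c
    rw [X_sub hc s0 c3 s3, X_A c2 s2 N ha1]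
    simp only [X_A c1 s1 N ha1, X_A hc hT N ha1, sub_self, zero_mul, add_zero, sum_const,
      card_range, nsmul_eq_mul]
    field_simp
    ring
  · intro p
    have e : E (E (E fun p => W p - A N a (A N a (A N a W)) p)) p - E (E (E W)) p =
        - E (E (E (A N a (A N a (A N a W))))) p := by
      simp only [E, sh]; ring
    rw [e, abs_neg]
    by_cases h0 : E (E (E (A N a (A N a (A N a W))))) p = 0
    · rw [h0]; simpa using hε.le
    obtain ⟨p1, p2, -⟩ := s3.E.E.E p h0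
    have k1 := ((((hMd.A hN0 a).A hN0 a).cl hN0 ha2).trans
      ((((hMd.A hN0 a).cl hN0 ha2).A hN0 0).trans (((hMd.cl hN0 ha2).A hN0 0).A hN0 0))).E.E.E
    have k2 := EA (EA (EA hM' hN0) hN0) hN0
    simp only [comm] at k2
    have k3 := (k1.trans k2) p
    simp only [Pi.zero_apply, sub_zero] at k3
    have k4 : p.2 ^ 2 ≤ (4 * N) ^ 2 := by
      apply pow_le_pow_left₀ <;> linarith
    refine (mul_le_mul k4 k3 (abs_nonneg _) (by positivity)).trans ?_
    have : (4 * (N : ℝ)) ^ 2 * (2 * (2 * (2 * (d + (d + d)))) + 2 * (2 * (2 * M / N) / N) / N) =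
        ε / 2 + 128 * M / N := by
      rw [hd]; field_simp; ring
    rw [this]
    have : 128 * M / N ≤ ε / 2 := by
      rw [div_le_iff₀ hN']; linarith
    linarith

noncomputable def G : ℝ × ℝ → ℝ := fun p => max 0 (1 - 2 * max |p.1| |p.2 - 3 / 2|)

theorem G_supp : Supp 2 G := by
  intro p hp
  have h : 0 < 1 - 2 * max |p.1| |p.2 - 3 / 2| := by
    by_contra hh
    exact hp (max_eq_left (not_lt.1 hh))
  have h1 := le_max_left |p.1| |p.2 - 3 / 2|
  have h2 := abs_le.1 (le_max_right |p.1| |p.2 - 3 / 2|)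
  refine ⟨by linarith [h2.1], by linarith [h2.2], by linarith [h2.1]⟩

theorem G_cont : Continuous G := by unfold G; fun_prop

theorem G_val : E (E (E G)) (0, 3 / 2) = 1 := by
  have h : ∀ t : ℝ, t < 1 → G (0, t) = 0 := fun t ht => by
    by_contra hh
    linarith [(G_supp _ hh).1]
  simp only [E, sh, zero_mul, sub_zero]
  rw [h (3 / 2 - 1) (by norm_num), h (3 / 2 - 1 - 1) (by norm_num),
    h (3 / 2 - 1 - 1 - 1) (by norm_num)]
  simp [G]

theorem exists_F : ∃ (F : ℝ × ℝ → ℝ) (a : ℕ → ℝ) (C : ℝ), Continuous F ∧ StrictAnti a ∧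
    F (0, 3 / 2) ≠ 0 ∧ (∀ p, F p ≠ 0 → 1 ≤ p.2 ∧ |p.1| ≤ p.2) ∧ (∀ p, p.2 ^ 2 * |F p| ≤ C) ∧
    ∀ k c, X (a k) F c = 0 := by
  have hs : ∀ (k : ℕ) (x : {W // Good W} × {a : ℝ // 0 < a}),
      ∃ y : {W // Good W} × {a : ℝ // 0 < a}, y.2.1 < x.2.1 ∧
      (∀ b, (∀ c, X b x.1.1 c = 0) → ∀ c, X b y.1.1 c = 0) ∧ (∀ c, X y.2.1 y.1.1 c = 0) ∧
      ∀ p, p.2 ^ 2 * |E (E (E y.1.1)) p - E (E (E x.1.1)) p| ≤ (1 / 2) / 2 / 2 ^ k := by
    intro k x
    obtain ⟨a, h1, h2, W', h3, h4, h5, h6⟩ := step x.1.2 ((1 / 2) / 2 / 2 ^ k) x.2.1 (by positivity) x.2.2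
    exact ⟨⟨⟨W', h3⟩, ⟨a, h1⟩⟩, h2, h4, h5, h6⟩
  choose nx h1 h2 h3 h4 using hs
  let s : ℕ → {W // Good W} × {a : ℝ // 0 < a} := fun n =>
    Nat.rec ⟨⟨G, G_cont, 2, G_supp⟩, ⟨1, one_pos⟩⟩ nx n
  have hs : ∀ n, s (n + 1) = nx n (s n) := fun n => rfl
  let F : ℕ → ℝ × ℝ → ℝ := fun n => E (E (E (s n).1.1))
  have Fc : ∀ n, Continuous (F n) := fun n => cont_E (cont_E (cont_E (s n).1.2.1))
  have Fs : ∀ n, ∃ T, Supp T (F n) := fun n => by
    obtain ⟨T, hT⟩ := (s n).1.2.2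
    exact ⟨_, hT.E.E.E⟩
  have Fs' : ∀ n p, F n p ≠ 0 → 1 ≤ p.2 ∧ |p.1| ≤ p.2 := fun n p hp => by
    obtain ⟨T, hT⟩ := Fs n
    exact ⟨(hT p hp).1, (hT p hp).2.2⟩
  let D : ℕ → ℝ × ℝ → ℝ := fun n p => F (n + 1) p - F n p
  have hD : ∀ n p, p.2 ^ 2 * |D n p| ≤ (1 / 2) / 2 / 2 ^ n := fun n p => h4 n (s n) p
  have hD' : ∀ n p, ‖D n p‖ ≤ (1 / 2) / 2 / 2 ^ n := fun n p => by
    by_cases h0 : D n p = 0
    · rw [h0, norm_zero]; positivity
    have : 1 ≤ p.2 := by
      by_cases h5 : F n p = 0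
      · exact (Fs' (n + 1) p (fun h6 => h0 (by simp [D, h5, h6]))).1
      · exact (Fs' n p h5).1
    exact le_trans (le_mul_of_one_le_left (abs_nonneg _) (one_le_pow₀ this)) (hD n p)
  have hg := hasSum_geometric_two' (1 / 2 : ℝ)
  have hsum : ∀ p, Summable fun n => D n p := fun p =>
    Summable.of_norm_bounded hg.summable fun n => hD' n p
  have hlim : ∀ p, Tendsto (fun n => F n p) atTop (𝓝 (F 0 p + ∑' n, D n p)) := fun p => by
    have := ((hsum p).hasSum.tendsto_sum_nat).const_add (F 0 p)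
    refine this.congr fun n => ?_
    rw [sum_range_sub (fun n => F n p)]
    ring
  obtain ⟨C0, hC0⟩ : ∃ C0, ∀ p : ℝ × ℝ, p.2 ^ 2 * |F 0 p| ≤ C0 := by
    obtain ⟨T, hT⟩ := Fs 0
    obtain ⟨C0, hC0⟩ := (by have := Fc 0; fun_prop : Continuous fun p : ℝ × ℝ =>
      p.2 ^ 2 * F 0 p).bounded_above_of_compact_support (compSupp hT).mul_left
    refine ⟨C0, fun p => ?_⟩
    have := hC0 p
    rwa [norm_mul, Real.norm_eq_abs, Real.norm_eq_abs, abs_of_nonneg (sq_nonneg _)] at this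
  have hFb : ∀ n (p : ℝ × ℝ), p.2 ^ 2 * |F n p| ≤ C0 + 1 / 2 := fun n p => by
    have e : F n p = F 0 p + ∑ j ∈ range n, D j p := by
      rw [sum_range_sub (fun n => F n p)]; ring
    have h5 : p.2 ^ 2 * |∑ j ∈ range n, D j p| ≤ 1 / 2 := by
      refine (mul_le_mul_of_nonneg_left (abs_sum_le_sum_abs _ _) (sq_nonneg _)).trans ?_
      rw [mul_sum]
      exact (sum_le_sum fun j _ => hD j p).trans
        (sum_le_hasSum _ (fun _ _ => by positivity) hg)
    rw [e]
    refine (mul_le_mul_of_nonneg_left (abs_add_le _ _) (sq_nonneg _)).trans ?_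
    rw [mul_add]
    exact add_le_add (hC0 p) h5
  refine ⟨fun p => F 0 p + ∑' n, D n p, fun k => (s (k + 1)).2.1, C0 + 1 / 2,
    (Fc 0).add (continuous_tsum (fun n => (Fc (n + 1)).sub (Fc n)) hg.summable hD'),
    strictAnti_nat_of_succ_lt fun k => h1 (k + 1) (s (k + 1)), ?_, ?_, ?_, ?_⟩
  · have h5 := tsum_of_norm_bounded hg fun n => hD' n (0, 3 / 2)
    have h6 : F 0 (0, 3 / 2) = 1 := G_val
    rw [Real.norm_eq_abs, abs_le] at h5
    simp only [h6]
    linarith [h5.1]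
  · intro p hp
    by_contra hh
    have : ∀ n, F n p = 0 := fun n => by
      by_contra h5
      exact hh (Fs' n p h5)
    exact hp (by simp [D, this])
  · intro p
    exact le_of_tendsto' (((hlim p).abs).const_mul _) fun n => hFb n p
  · intro k c
    have hz : ∀ n, k + 1 ≤ n → ∀ c, X (s (k + 1)).2.1 (s n).1.1 c = 0 := by
      intro n hn
      induction n, hn using Nat.le_induction with
      | base => exact h3 k (s k)
      | succ n _ ih => exact h2 n (s n) _ ih
    have hz' : ∀ᶠ n in atTop, X (s (k + 1)).2.1 (F n) c = 0 := by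
      filter_upwards [eventually_ge_atTop (k + 1)] with n hn
      obtain ⟨hc, T, hT⟩ := (s n).1.2
      exact Z_E (cont_E (cont_E hc)) hT.E.E _ (Z_E (cont_E hc) hT.E _ (Z_E hc hT _ (hz n hn))) c
    have hi : Integrable (indicator (Ioi (1 / 2 : ℝ)) fun t : ℝ => (C0 + 1 / 2) * t ^ (-2 : ℝ)) :=
      (integrable_indicator_iff measurableSet_Ioi).2
        ((integrableOn_Ioi_rpow_of_lt (by norm_num) (by norm_num)).const_mul _)
    have := tendsto_integral_of_dominated_convergence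
      (F := fun n τ => F n (c + (s (k + 1)).2.1 * τ, τ)) _
      (fun n => (by have := Fc n; fun_prop : Continuous fun τ : ℝ =>
        F n (c + (s (k + 1)).2.1 * τ, τ)).aestronglyMeasurable) hi
      (fun n => Eventually.of_forall fun τ => by
        by_cases h0 : F n (c + (s (k + 1)).2.1 * τ, τ) = 0
        · rw [h0, norm_zero]
          refine indicator_nonneg (fun t ht => ?_) _
          have : 0 ≤ C0 + 1 / 2 := le_trans (by positivity) (hFb 0 0)
          have : 0 < t := lt_trans (by norm_num) ht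
          positivity
        · have h5 : 1 ≤ τ := (Fs' n _ h0).1
          rw [indicator_of_mem (show τ ∈ Ioi (1 / 2 : ℝ) by simp only [Set.mem_Ioi]; linarith),
            Real.rpow_neg (by linarith), ← div_eq_mul_inv, le_div_iff₀ (by positivity),
            Real.rpow_two, mul_comm]
          exact hFb n (c + (s (k + 1)).2.1 * τ, τ))
      (Eventually.of_forall fun τ => hlim _)
    exact tendsto_nhds_unique this (tendsto_const_nhds.congr' (hz'.mono fun n hn => hn.symm))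

theorem main : ∃ (f : EuclideanSpace ℝ (Fin 2) → ℝ) (P : Set (EuclideanSpace ℝ (Fin 2))),
    Measurable f ∧ (∃ C, ∀ x, |f x| ≤ C) ∧ (∃ R, ∀ x, R < ‖x‖ → f x = 0) ∧
    ¬ (∀ᵐ x, f x = 0) ∧ P.Infinite ∧
    ∀ p ∈ P, ∀ u, ‖u‖ = 1 → IntegrableOn (fun t : ℝ => f (p + t • u)) (Ioi 0) ∧
      ∫ t in Ioi (0 : ℝ), f (p + t • u) = 0 := by
  obtain ⟨F, a, C, hc, ha, h0, hs, hC, hX⟩ := exists_F
  let f : EuclideanSpace ℝ (Fin 2) → ℝ := fun x =>
    if 0 < x 1 then ((x 1)⁻¹) ^ 2 * F (x 0 * (x 1)⁻¹, (x 1)⁻¹) else 0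
  have hm : Measurable f := by
    refine Measurable.ite (measurableSet_lt measurable_const (by fun_prop)) ?_ measurable_const
    have := hc.measurable
    fun_prop
  have hC0 : 0 ≤ C := le_trans (by positivity) (hC 0)
  have hb : ∀ x, |f x| ≤ C := fun x => by
    simp only [f]
    split_ifs with h
    · rw [abs_mul, abs_of_nonneg (sq_nonneg _)]
      exact hC (x 0 * (x 1)⁻¹, (x 1)⁻¹)
    · simpa using hC0
  have hsup : ∀ x, 2 < ‖x‖ → f x = 0 := fun x hx => by
    simp only [f]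
    split_ifs with h
    · by_contra hh
      obtain ⟨h1, h2⟩ := hs _ (right_ne_zero_of_mul hh)
      simp only at h1 h2
      rw [one_le_inv₀ h] at h1
      rw [abs_mul, abs_of_pos (inv_pos.2 h)] at h2
      have h3 : |x 0| ≤ 1 := by
        by_contra h4
        have := mul_lt_mul_of_pos_right (not_le.1 h4) (inv_pos.2 h)
        linarith
      have h4 := EuclideanSpace.real_norm_sq_eq x
      rw [Fin.sum_univ_two] at h4
      have h5 := abs_le.1 h3
      nlinarith
    · rfl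
  refine ⟨f, range fun k => !₂[a k, 0], hm, ⟨C, hb⟩, ⟨2, hsup⟩, ?_, ?_, ?_⟩
  · intro hae
    let x0 : EuclideanSpace ℝ (Fin 2) := !₂[0, 2 / 3]
    have hx0 : 0 < x0 1 := by simp [x0]
    have hco : ContinuousAt f x0 := by
      have h1 : ContinuousAt (fun x : EuclideanSpace ℝ (Fin 2) =>
          ((x 1)⁻¹) ^ 2 * F (x 0 * (x 1)⁻¹, (x 1)⁻¹)) x0 := by
        have := hx0.ne'
        fun_prop (disch := assumption)
      refine h1.congr ?_
      have : ∀ᶠ x : EuclideanSpace ℝ (Fin 2) in 𝓝 x0, 0 < x 1 :=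
        (by fun_prop : ContinuousAt (fun x : EuclideanSpace ℝ (Fin 2) => x 1) x0).eventually
          (lt_mem_nhds hx0)
      filter_upwards [this] with x hx
      simp only [f, if_pos hx]
    have hne : f x0 ≠ 0 := by
      simp only [f, if_pos hx0]
      simpa [x0] using h0
    have h1 := hco.eventually_ne hne
    exact (Measure.measure_pos_of_mem_nhds volume h1).ne' hae
  · refine infinite_range_of_injective fun i j h => ha.injective ?_
    simpa using congrArg (fun x : EuclideanSpace ℝ (Fin 2) => x 0) h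
  · rintro _ ⟨k, rfl⟩ u hu
    constructor
    · set p : EuclideanSpace ℝ (Fin 2) := !₂[a k, 0]
      have h1 : IntegrableOn (fun t : ℝ => f (p + t • u)) (Icc 0 (‖p‖ + 2)) :=
        Measure.integrableOn_of_bounded (M := C) measure_Icc_lt_top.ne
          (hm.comp (by fun_prop)).aestronglyMeasurable (Eventually.of_forall fun t => hb _)
      refine h1.of_forall_sdiff_eq_zero measurableSet_Ioi fun t ht => hsup _ ?_
      have h2 : ‖p‖ + 2 < t := by
        by_contra h3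
        exact ht.2 ⟨le_of_lt ht.1, not_lt.1 h3⟩
      have h3 := norm_sub_le (p + t • u) p
      rw [add_sub_cancel_left, norm_smul, hu, Real.norm_eq_abs, abs_of_pos ht.1] at h3
      linarith
    by_cases h1 : 0 < u 1
    · let g : ℝ → ℝ := fun τ => F (u 0 / u 1 + a k * τ, τ)
      let g' : ℝ → ℝ := fun y => (|(-1 : ℝ)| * y ^ ((-1 : ℝ) - 1)) • g (y ^ (-1 : ℝ))
      have e : ∫ t in Ioi (0 : ℝ), f (!₂[a k, 0] + t • u) = ∫ t in Ioi (0 : ℝ), g' (u 1 * t) := by
        refine setIntegral_congr_fun measurableSet_Ioi fun t ht => ?_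
        have ht' : 0 < t := ht
        have h2 : 0 < u 1 * t := by positivity
        have e1 : (!₂[a k, 0] + t • u : EuclideanSpace ℝ (Fin 2)) 1 = u 1 * t := by
          simp [mul_comm]
        have e0 : (!₂[a k, 0] + t • u : EuclideanSpace ℝ (Fin 2)) 0 = a k + t * u 0 := by simp
        simp only [f, g', g, e1, e0, if_pos h2, Real.rpow_neg_one, abs_neg, abs_one, one_mul,
          smul_eq_mul]
        rw [show (-1 : ℝ) - 1 = -2 by norm_num, Real.rpow_neg h2.le, Real.rpow_two, inv_pow]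
        congr 3
        field_simp
        ring
      rw [e, integral_comp_mul_left_Ioi g' 0 h1, mul_zero, integral_comp_rpow_Ioi g (by norm_num),
        setIntegral_eq_integral_of_forall_compl_eq_zero]
      · rw [show ∫ τ, g τ = 0 from hX k _, smul_zero]
      · intro τ hτ
        by_contra hh
        exact hτ (lt_of_lt_of_le one_pos (hs _ hh).1)
    · refine setIntegral_eq_zero_of_forall_eq_zero fun t ht => ?_
      have e1 : (!₂[a k, 0] + t • u : EuclideanSpace ℝ (Fin 2)) 1 = t * u 1 := by simp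
      have : ¬ 0 < t * u 1 := not_lt.2 (mul_nonpos_of_nonneg_of_nonpos (le_of_lt ht) (not_lt.1 h1))
      simp only [f, e1, if_neg this]

end Pool.Agent.H91.XRay
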